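import Pool.Agent.ILL.Defs

/-!
# ABL. Abel summation (Mathlib only)

`w` real, supported in `[N₁,N₂]`; `A_n = Σ_{j=N₁}^{n} a_j`, `|A_n| ≤ Y`. Then
`Σ w_j a_j = Σ_{n=N₁}^{N₂} A_n (w_n - w_{n+1})` (as `w_{N₂+1} = 0`), bounded by `Y Σ |w_{n+1} - w_n|`.
-/

open MeasureTheory Set Filter Topology
open scoped ENNReal NNReal

namespace Pool.Agent.ILL

private theorem abel_id (w : ℤ → ℝ) (a : ℤ → ℂ) (N : ℤ) (n : ℕ) :
    ∑ j ∈ Finset.Icc N (N + n), (w j : ℂ) * a j =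
      (∑ m ∈ Finset.Icc N (N + n), ((w m - w (m + 1) : ℝ) : ℂ) * ∑ j ∈ Finset.Icc N m, a j) +
        (w (N + n + 1) : ℂ) * ∑ j ∈ Finset.Icc N (N + n), a j := by
  induction n with
  | zero =>
    simp only [Nat.cast_zero, add_zero, Finset.Icc_self, Finset.sum_singleton]
    push_cast
    ring
  | succ n ih =>
    have h2 : (N + n + 1) ∉ Finset.Icc N (N + n) := by
      simp only [Finset.mem_Icc, not_and, not_le]
      omega
    have h3 : N + ((n + 1 : ℕ) : ℤ) = N + n + 1 := by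
      push_cast
      ring
    have h4 : Finset.Icc N (N + n + 1) = insert (N + n + 1) (Finset.Icc N (N + n)) := by
      ext x
      simp only [Finset.mem_Icc, Finset.mem_insert]
      omega
    have h5 : ∀ f : ℤ → ℂ, ∑ j ∈ Finset.Icc N (N + n + 1), f j =
        f (N + n + 1) + ∑ j ∈ Finset.Icc N (N + n), f j := fun f => by
      rw [h4, Finset.sum_insert h2]
    rw [h3]
    simp only [h5]
    rw [ih]
    push_cast
    ring

theorem abel_sum (w : ℤ → ℝ) (a : ℤ → ℂ) (N₁ N₂ : ℤ) (hw : ∀ j, N₂ < j → w j = 0) {V Y : ℝ}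
    (hV : ∑ j ∈ Finset.Icc N₁ N₂, |w (j + 1) - w j| ≤ V)
    (hY : ∀ n, N₁ ≤ n → n ≤ N₂ → ‖∑ j ∈ Finset.Icc N₁ n, a j‖ ≤ Y) (hY0 : 0 ≤ Y) :
    ‖∑ j ∈ Finset.Icc N₁ N₂, (w j : ℂ) * a j‖ ≤ V * Y := by
  by_cases h : N₁ ≤ N₂
  · obtain ⟨n, hn⟩ := Int.eq_ofNat_of_zero_le (sub_nonneg.2 h)
    have hn2 : N₂ = N₁ + n := by omega
    rw [hn2] at hw hV hY ⊢
    rw [abel_id, hw (N₁ + n + 1) (by omega), Complex.ofReal_zero, zero_mul, add_zero]
    refine (norm_sum_le _ _).trans ?_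
    calc ∑ m ∈ Finset.Icc N₁ (N₁ + n), ‖((w m - w (m + 1) : ℝ) : ℂ) * ∑ j ∈ Finset.Icc N₁ m, a j‖
        ≤ ∑ m ∈ Finset.Icc N₁ (N₁ + n), |w (m + 1) - w m| * Y := by
          refine Finset.sum_le_sum fun m hm => ?_
          have hm' := Finset.mem_Icc.1 hm
          rw [norm_mul, Complex.norm_real, Real.norm_eq_abs, abs_sub_comm]
          exact mul_le_mul_of_nonneg_left (hY m hm'.1 hm'.2) (abs_nonneg _)
      _ = (∑ m ∈ Finset.Icc N₁ (N₁ + n), |w (m + 1) - w m|) * Y := by rw [Finset.sum_mul]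
      _ ≤ V * Y := mul_le_mul_of_nonneg_right hV hY0
  · rw [Finset.Icc_eq_empty h] at hV ⊢
    rw [Finset.sum_empty] at hV ⊢
    rw [norm_zero]
    exact mul_nonneg hV hY0

end Pool.Agent.ILL
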