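import Pool.Agent.ILL.Tri

/-!
# APX. Transport from the apex

`P` may be a lattice point; then the label `q₀` (of the square to the upper right of `P`) is assumed to
be fixed by the monodromy around `P`: `a (b⁻¹ (a⁻¹ q₀)) = b⁻¹ q₀` (regular vertex).

`apex_near` (the case `P = 0`, all points in the open unit ball): for `|V.1| < 1`, `|V.2| < 1`
`tau a b 0 V = b^⌊V.2⌋ * a^⌊V.1⌋`. Indeed `⌊V.1⌋ ∈ {-1, 0}`; if `0` use `tau_colx`; if `-1`,
`tau 0 V = (b^0 * prodR a b V 0 (-1) 1 * b^(-⌊V.2⌋))⁻¹` and the only height is `ht V 0 0 = 0`, so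
`prodR = cj 0 = a`.

`apex_add`: if `X'` lies on the segment from `P` to `X`, `X' ≠ P`, and the only lattice point on
`[P,X]` is possibly `P`, then `tau X' X * tau P X' = tau P X` (identity in the group). If `P` is not a
lattice point this is `tau_seg`. For `P = 0` (translate, `tau_add_int`): if `X.1 ≥ 0`, for all three
transports the abscissae crossed are the integers `i ≥ 1` and the heights are those of one line; the
factors `b^(±⌊X'.2⌋)` cancel (case `0 ≤ X.1`: `⌊0⌋ ≤ ⌊X'.1⌋ ≤ ⌊X.1⌋`, `prodR_add`). If `X.1 < 0`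
take inverses (`tau_inv`): `tau X 0 = prodR X 0 ⌊X.1⌋ n * b^(-⌊X.2⌋)` splits at `⌊X'.1⌋` in the same way;
the heights of `X → X'`, `X' → 0` and `X → 0` at `i` coincide (the three points and `0` are collinear;
for `i = 0` the height is `0` in both cases; for vertical or degenerate positions use `tau_colx`).

`apex_tri`: if the triangle `P X Y` contains no lattice point except possibly `P` and `P` is not on the
segment `[X,Y]` (when it is a lattice point), then `tau X Y (tau P X q₀) = tau P Y q₀`.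
PROOF. If `P` is not a lattice point this is `tau_tri`. Otherwise translate to `P = 0`. Choose
`0 < ε ≤ 1` with `|ε X| < 1`, `|ε Y| < 1` (sup norm), `X' = εX`, `Y' = εY`.
(i) `tau X' Y' (tau 0 X' q₀) = tau 0 Y' q₀`: with `apex_near`. If `⌊X'.1⌋ = ⌊Y'.1⌋` then
`tau X' Y' = b^(⌊Y'.2⌋ - ⌊X'.2⌋)` and the identity holds in the group. Let `X'.1 ≥ 0 > Y'.1` (the other
case by inverses). `tau X' Y' = (b^⌊X'.2⌋ * cj ⌊t⌋ * b^(-⌊Y'.2⌋))⁻¹` where `t` is the height of the
segment at abscissa `0`; `|t| < 1` and `t ≠ 0` since `0` is not on `[X',Y']` (it is not on `[X,Y]`). If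
`t > 0`: `cj 0 = a` and the result is `b^⌊Y'.2⌋ a⁻¹ b^(-⌊X'.2⌋) b^⌊X'.2⌋ = b^⌊Y'.2⌋ a⁻¹`. If `t < 0`:
`cj (-1) = b a b⁻¹` and we get `b^⌊Y'.2⌋ b a⁻¹ b⁻¹ q₀`, equal to `b^⌊Y'.2⌋ a⁻¹ q₀` because the
admissibility says `b⁻¹ a⁻¹ q₀ = a⁻¹ b⁻¹ q₀`.
(ii) `apex_add` for `X' ∈ [0,X]` and `Y' ∈ [0,Y]`.
(iii) the quadrilateral `X' X Y Y'` contains no lattice point: it is contained in the triangle and does not
contain `0`: its points are `s X + t Y` with `s, t ≥ 0`, `s + t ≥ ε`, and `sX + tY = 0` would give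
`0 ∈ [X,Y]` after division by `s + t`. So `tau_quad`: `tau X Y * tau X' X = tau Y' Y * tau X' Y'`.
Combine: `tau X Y (tau 0 X q₀) = tau X Y tau X' X tau 0 X' q₀ = tau Y' Y tau X' Y' tau 0 X' q₀
= tau Y' Y tau 0 Y' q₀ = tau 0 Y q₀`.
(Checked numerically.)
-/

open MeasureTheory Set Filter Topology
open scoped ENNReal NNReal

namespace Pool.Agent.ILL

section
variable {H : Type*} [Group H] (a b : H)

theorem apex_near {V : Pl} (h1 : |V.1| < 1) (h2 : |V.2| < 1) :
    tau a b (0, 0) V = b ^ ⌊V.2⌋ * a ^ ⌊V.1⌋ := by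
  rw [abs_lt] at h1
  rcases le_or_gt 0 V.1 with h | h
  · have hf : ⌊V.1⌋ = 0 := Int.floor_eq_zero_iff.2 ⟨h, h1.2⟩
    rw [tau_colx a b (A := (0, 0)) (B := V) (by simp [hf]), hf, zpow_zero, mul_one]
    simp
  · have hf : ⌊V.1⌋ = -1 := by
      rw [Int.floor_eq_iff]
      push_cast
      constructor <;> linarith
    have hht : ht V (0, 0) 0 = 0 := by
      unfold ht
      have : V.1 ≠ 0 := h.ne
      simp only [Int.cast_zero, zero_sub]
      field_simp
      ring
    unfold tau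
    simp only [Int.floor_zero, hf]
    rw [if_neg (by norm_num)]
    have h3 : ((0 : ℤ) - (-1)).toNat = 1 := by norm_num
    rw [h3, prodR, prodR]
    have h4 : (-1 : ℤ) + ((0 + 1 : ℕ) : ℤ) = 0 := by norm_num
    rw [h4, hht, Int.floor_zero, cj]
    simp

private theorem APX_ht1 {A B C : Pl} {t : ℝ} (ht0 : 0 < t) (h : A.1 < B.1)
    (h1 : C.1 = A.1 + t * (B.1 - A.1)) (h2 : C.2 = A.2 + t * (B.2 - A.2)) (i : ℤ) :
    ht A C i = ht A B i := by
  unfold ht
  have e1 : C.2 - A.2 = t * (B.2 - A.2) := by rw [h2]; ring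
  have e2 : C.1 - A.1 = t * (B.1 - A.1) := by rw [h1]; ring
  rw [e1, e2, mul_div_mul_left _ _ ht0.ne']

private theorem APX_ht2 {A B C : Pl} {t : ℝ} (ht0 : t < 1) (h : A.1 < B.1)
    (h1 : C.1 = A.1 + t * (B.1 - A.1)) (h2 : C.2 = A.2 + t * (B.2 - A.2)) (i : ℤ) :
    ht C B i = ht A B i := by
  unfold ht
  have e1 : B.2 - C.2 = (1 - t) * (B.2 - A.2) := by rw [h2]; ring
  have e2 : B.1 - C.1 = (1 - t) * (B.1 - A.1) := by rw [h1]; ring
  have e3 : (1 : ℝ) - t ≠ 0 := by
    intro h3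
    linarith
  have e4 : B.1 - A.1 ≠ 0 := by
    intro h3
    linarith
  rw [e1, e2, mul_div_mul_left _ _ e3, h1, h2]
  field_simp
  ring

private theorem APX_seg {A B C : Pl} (hC : C ∈ segment ℝ A B) : ∃ t : ℝ, 0 ≤ t ∧ t ≤ 1 ∧
    C.1 = A.1 + t * (B.1 - A.1) ∧ C.2 = A.2 + t * (B.2 - A.2) := by
  obtain ⟨s, t, hs, ht, hst, rfl⟩ := hC
  refine ⟨t, ht, by linarith, ?_, ?_⟩
  · simp only [Prod.fst_add, Prod.smul_fst, smul_eq_mul]
    have : s = 1 - t := by linarith
    rw [this]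
    ring
  · simp only [Prod.snd_add, Prod.smul_snd, smul_eq_mul]
    have : s = 1 - t := by linarith
    rw [this]
    ring

private theorem APX_split1 {A B C : Pl} (h : A.1 ≤ B.1) (hC : C ∈ segment ℝ A B) :
    tau a b C B * tau a b A C = tau a b A B := by
  obtain ⟨t, h0, h1, e1, e2⟩ := APX_seg hC
  have hAC : A.1 ≤ C.1 := by
    rw [e1]
    have := mul_nonneg h0 (sub_nonneg.2 h)
    linarith
  have hCB : C.1 ≤ B.1 := by
    rw [e1]
    have := mul_nonneg (sub_nonneg.2 h1) (sub_nonneg.2 h)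
    linarith
  have f1 := Int.floor_mono hAC
  have f2 := Int.floor_mono hCB
  unfold tau
  rw [if_pos f2, if_pos f1, if_pos (f1.trans f2)]
  obtain ⟨n₁, hn₁⟩ := Int.eq_ofNat_of_zero_le (sub_nonneg.2 f1)
  obtain ⟨n₂, hn₂⟩ := Int.eq_ofNat_of_zero_le (sub_nonneg.2 f2)
  have hn : ⌊B.1⌋ - ⌊A.1⌋ = ((n₁ + n₂ : ℕ) : ℤ) := by
    push_cast
    linarith
  rw [hn₁, hn₂, hn, Int.toNat_natCast, Int.toNat_natCast, Int.toNat_natCast, prodR_add]
  have hAn : ⌊A.1⌋ + (n₁ : ℤ) = ⌊C.1⌋ := by linarith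
  rw [hAn]
  have g1 : prodR a b A C ⌊A.1⌋ n₁ = prodR a b A B ⌊A.1⌋ n₁ := by
    apply prodR_congr
    intro i hi hi'
    have j1 : A.1 < i := Int.floor_lt.1 hi
    have j2 : (i : ℝ) ≤ C.1 := Int.le_floor.1 (by linarith)
    have j3 : 0 < t := by
      rcases h0.eq_or_lt with h3 | h3
      · rw [← h3, zero_mul, add_zero] at e1
        linarith
      · exact h3
    rw [APX_ht1 j3 (by linarith) e1 e2]
  have g2 : prodR a b C B ⌊C.1⌋ n₂ = prodR a b A B ⌊C.1⌋ n₂ := by
    apply prodR_congr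
    intro i hi hi'
    have j1 : C.1 < i := Int.floor_lt.1 hi
    have j2 : (i : ℝ) ≤ B.1 := Int.le_floor.1 (by linarith)
    have j3 : t < 1 := by
      rcases h1.eq_or_lt with h3 | h3
      · rw [h3, one_mul] at e1
        linarith
      · exact h3
    rw [APX_ht2 j3 (by linarith) e1 e2]
  rw [g1, g2]
  have h5 : b ^ (-⌊C.2⌋) * b ^ ⌊C.2⌋ = 1 := by rw [← zpow_add, neg_add_cancel, zpow_zero]
  calc b ^ ⌊B.2⌋ * prodR a b A B ⌊C.1⌋ n₂ * b ^ (-⌊C.2⌋) *
        (b ^ ⌊C.2⌋ * prodR a b A B ⌊A.1⌋ n₁ * b ^ (-⌊A.2⌋))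
      = b ^ ⌊B.2⌋ * prodR a b A B ⌊C.1⌋ n₂ * (b ^ (-⌊C.2⌋) * b ^ ⌊C.2⌋) *
        prodR a b A B ⌊A.1⌋ n₁ * b ^ (-⌊A.2⌋) := by simp only [mul_assoc]
    _ = _ := by
      rw [h5, mul_one]
      simp only [mul_assoc]

theorem apx_split {A B C : Pl} (hC : C ∈ segment ℝ A B) :
    tau a b C B * tau a b A C = tau a b A B := by
  rcases le_total A.1 B.1 with h | h
  · exact APX_split1 a b h hC
  · have h1 := APX_split1 a b h (segment_symm ℝ A B ▸ hC)
    rw [tau_inv a b B C, tau_inv a b C A, tau_inv a b B A, ← h1, mul_inv_rev]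

theorem apex_add {P X X' : Pl} (h : ∀ z, ZP z ∈ segment ℝ P X → ZP z = P)
    (hX' : X' ∈ segment ℝ P X) (hne : X' ≠ P) :
    tau a b X' X * tau a b P X' = tau a b P X :=
  apx_split a b hX'

end

section
variable {Λ : Type} [Fintype Λ] [DecidableEq Λ]

theorem adm_add_int (a b : Equiv.Perm Λ) (P : Pl) (z : ℤ × ℤ) (q₀ : Λ) :
    adm a b (P + ZP z) q₀ ↔ adm a b P q₀ := by
  have key : (∀ z' : ℤ × ℤ, ZP z' ≠ P + ZP z) ↔ (∀ z' : ℤ × ℤ, ZP z' ≠ P) := by
    constructor
    · intro h z' hz'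
      exact h (z' + z) (by rw [← hz']; ext <;> simp [ZP])
    · intro h z' hz'
      refine h (z' - z) ?_
      have h1 : P = ZP z' - ZP z := by rw [hz', add_sub_cancel_right]
      rw [h1]
      ext <;> simp [ZP]
  unfold adm
  rw [key]

private theorem APX_core {a b : Equiv.Perm Λ} {X Y : Pl} {q₀ : Λ}
    (ha : a (b⁻¹ (a⁻¹ q₀)) = b⁻¹ q₀) (hX1 : |X.1| < 1) (hX2 : |X.2| < 1) (hY1 : |Y.1| < 1)
    (hY2 : |Y.2| < 1) (h0 : ((0, 0) : Pl) ∉ segment ℝ X Y) (hX : 0 ≤ X.1) (hY : Y.1 < 0) :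
    tau a b X Y (tau a b (0, 0) X q₀) = tau a b (0, 0) Y q₀ := by
  rw [apex_near a b hX1 hX2, apex_near a b hY1 hY2]
  rw [abs_lt] at hX1 hY1 hX2 hY2
  have hfX : ⌊X.1⌋ = 0 := Int.floor_eq_zero_iff.2 ⟨hX, hX1.2⟩
  have hfY : ⌊Y.1⌋ = -1 := by
    rw [Int.floor_eq_iff]
    push_cast
    constructor <;> linarith
  have hb := ht_between (A := Y) (B := X) (i := 0) (by push_cast; linarith)
    (by push_cast; linarith) (by linarith)
  set t := ht Y X 0 with ht
  have ht0 : t ≠ 0 := by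
    intro h
    rw [h] at hb
    apply h0
    rw [segment_symm]
    simpa using hb
  obtain ⟨r, s, hr, hs, hrs, he⟩ := hb
  have he2 : r * Y.2 + s * X.2 = t := by
    have := congrArg Prod.snd he
    simpa using this
  have ht1 : t < 1 := by
    have h1 : r * Y.2 ≤ r * max X.2 Y.2 := mul_le_mul_of_nonneg_left (le_max_right _ _) hr
    have h2 : s * X.2 ≤ s * max X.2 Y.2 := mul_le_mul_of_nonneg_left (le_max_left _ _) hs
    have h3 : max X.2 Y.2 < 1 := max_lt hX2.2 hY2.2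
    have h4 : r * max X.2 Y.2 + s * max X.2 Y.2 = max X.2 Y.2 := by rw [← add_mul, hrs, one_mul]
    linarith
  have ht2 : -1 < t := by
    have h1 : r * min X.2 Y.2 ≤ r * Y.2 := mul_le_mul_of_nonneg_left (min_le_right _ _) hr
    have h2 : s * min X.2 Y.2 ≤ s * X.2 := mul_le_mul_of_nonneg_left (min_le_left _ _) hs
    have h3 : -1 < min X.2 Y.2 := lt_min hX2.1 hY2.1
    have h4 : r * min X.2 Y.2 + s * min X.2 Y.2 = min X.2 Y.2 := by rw [← add_mul, hrs, one_mul]
    linarith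
  have hτ : tau a b X Y = (b ^ ⌊X.2⌋ * cj a b ⌊t⌋ * b ^ (-⌊Y.2⌋))⁻¹ := by
    unfold tau
    rw [hfX, hfY, if_neg (by norm_num)]
    have h3 : ((0 : ℤ) - (-1)).toNat = 1 := by norm_num
    rw [h3, prodR, prodR]
    have h4 : (-1 : ℤ) + ((0 + 1 : ℕ) : ℤ) = 0 := by norm_num
    rw [h4, mul_one, ht]
  have hc : (cj a b ⌊t⌋)⁻¹ q₀ = a⁻¹ q₀ := by
    rcases lt_or_gt_of_ne ht0 with h | h
    · have hf : ⌊t⌋ = -1 := by
        rw [Int.floor_eq_iff]
        push_cast
        constructor <;> linarith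
      rw [hf, cj, neg_neg, zpow_one, zpow_neg_one]
      simp only [mul_inv_rev, inv_inv, Equiv.Perm.mul_apply]
      have h5 : b⁻¹ (a⁻¹ q₀) = a⁻¹ (b⁻¹ q₀) := by
        rw [← ha, ← Equiv.Perm.mul_apply a⁻¹ a, inv_mul_cancel, Equiv.Perm.one_apply]
      rw [← h5, ← Equiv.Perm.mul_apply b b⁻¹, mul_inv_cancel, Equiv.Perm.one_apply]
    · have hf : ⌊t⌋ = 0 := Int.floor_eq_zero_iff.2 ⟨h.le, ht1⟩
      rw [hf, cj]
      simp
  rw [hτ, hfX, hfY, zpow_zero, mul_one, zpow_neg_one, ← Equiv.Perm.mul_apply]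
  have h6 : (b ^ ⌊X.2⌋ * cj a b ⌊t⌋ * b ^ (-⌊Y.2⌋))⁻¹ * b ^ ⌊X.2⌋ =
      b ^ ⌊Y.2⌋ * (cj a b ⌊t⌋)⁻¹ := by
    rw [zpow_neg]
    group
  rw [h6, Equiv.Perm.mul_apply, hc, Equiv.Perm.mul_apply]

private theorem APX_near {a b : Equiv.Perm Λ} {X Y : Pl} {q₀ : Λ}
    (ha : a (b⁻¹ (a⁻¹ q₀)) = b⁻¹ q₀) (hX1 : |X.1| < 1) (hX2 : |X.2| < 1) (hY1 : |Y.1| < 1)
    (hY2 : |Y.2| < 1) (h0 : ((0, 0) : Pl) ∉ segment ℝ X Y) :
    tau a b X Y (tau a b (0, 0) X q₀) = tau a b (0, 0) Y q₀ := by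
  have same : ⌊X.1⌋ = ⌊Y.1⌋ → tau a b X Y (tau a b (0, 0) X q₀) = tau a b (0, 0) Y q₀ := by
    intro h
    rw [apex_near a b hX1 hX2, apex_near a b hY1 hY2, tau_colx a b h, ← Equiv.Perm.mul_apply,
      ← mul_assoc, ← zpow_add, sub_add_cancel, h]
  rcases le_or_gt 0 X.1 with hX | hX
  · rcases le_or_gt 0 Y.1 with hY | hY
    · apply same
      rw [abs_lt] at hX1 hY1
      rw [Int.floor_eq_zero_iff.2 ⟨hX, hX1.2⟩, Int.floor_eq_zero_iff.2 ⟨hY, hY1.2⟩]
    · exact APX_core ha hX1 hX2 hY1 hY2 h0 hX hY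
  · rcases le_or_gt 0 Y.1 with hY | hY
    · have h1 := APX_core ha hY1 hY2 hX1 hX2 (by rwa [segment_symm]) hY hX
      rw [← h1, tau_inv a b X Y, ← Equiv.Perm.mul_apply, mul_inv_cancel, Equiv.Perm.one_apply]
    · apply same
      rw [abs_lt] at hX1 hY1
      have f1 : ⌊X.1⌋ = -1 := by
        rw [Int.floor_eq_iff]
        push_cast
        constructor <;> linarith
      have f2 : ⌊Y.1⌋ = -1 := by
        rw [Int.floor_eq_iff]
        push_cast
        constructor <;> linarith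
      rw [f1, f2]

theorem apex_tri {a b : Equiv.Perm Λ} {P X Y : Pl} {q₀ : Λ} (ha : adm a b P q₀)
    (h : ∀ z, ZP z ∈ convexHull ℝ {P, X, Y} → ZP z = P ∧ P ∉ segment ℝ X Y) :
    tau a b X Y (tau a b P X q₀) = tau a b P Y q₀ := by
  by_cases hP : ∃ z, ZP z = P
  · obtain ⟨z, hz⟩ := hP
    have hseg : P ∉ segment ℝ X Y :=
      (h z (by rw [hz]; exact subset_convexHull ℝ _ (by simp))).2
    have ha' : a (b⁻¹ (a⁻¹ q₀)) = b⁻¹ q₀ := by
      rcases ha with h1 | h1
      · exact absurd hz (h1 z)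
      · exact h1
    set N : ℝ := 1 + |(X - P).1| + |(X - P).2| + |(Y - P).1| + |(Y - P).2| with hN
    have a1 := abs_nonneg (X - P).1
    have a2 := abs_nonneg (X - P).2
    have a3 := abs_nonneg (Y - P).1
    have a4 := abs_nonneg (Y - P).2
    have hNpos : 0 < N := by linarith
    set ε : ℝ := 1 / N with hε
    have hε0 : 0 < ε := one_div_pos.2 hNpos
    have hε1 : ε ≤ 1 := by
      rw [hε, div_le_one hNpos]
      linarith
    have small : ∀ x : ℝ, |x| < N → |ε * x| < 1 := by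
      intro x hx
      rw [abs_mul, abs_of_pos hε0, hε, one_div, inv_mul_lt_iff₀ hNpos, mul_one]
      exact hx
    have sX : P + ε • (X - P) ∈ segment ℝ P X :=
      ⟨1 - ε, ε, by linarith, hε0.le, by ring, by module⟩
    have sY : P + ε • (Y - P) ∈ segment ℝ P Y :=
      ⟨1 - ε, ε, by linarith, hε0.le, by ring, by module⟩
    -- the convex set avoiding `P`
    let S : Set Pl := {w | ∃ s t : ℝ, 0 ≤ s ∧ 0 ≤ t ∧ ε ≤ s + t ∧
      w = P + s • (X - P) + t • (Y - P)}
    have hSP : P ∉ S := by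
      rintro ⟨s, t, hs, ht, hst, he⟩
      have hst' : 0 < s + t := by linarith
      apply hseg
      refine ⟨s / (s + t), t / (s + t), div_nonneg hs hst'.le, div_nonneg ht hst'.le,
        by rw [← add_div, div_self hst'.ne'], ?_⟩
      have h1 : s • (X - P) + t • (Y - P) = 0 := by
        have h2 : P + (s • (X - P) + t • (Y - P)) = P + 0 := by
          rw [add_zero, ← add_assoc]
          exact he.symm
        exact add_left_cancel h2
      have h3 : s • X + t • Y = (s + t) • P := by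
        have : s • X + t • Y = (s • (X - P) + t • (Y - P)) + (s + t) • P := by module
        rw [this, h1, zero_add]
      have h4 : (s / (s + t)) • X + (t / (s + t)) • Y = (s + t)⁻¹ • (s • X + t • Y) := by
        rw [smul_add, smul_smul, smul_smul, div_eq_inv_mul, div_eq_inv_mul]
      rw [h4, h3, smul_smul, inv_mul_cancel₀ hst'.ne', one_smul]
    have hSc : Convex ℝ S := by
      rintro w ⟨s, t, hs, ht, hst, rfl⟩ w' ⟨s', t', hs', ht', hst', rfl⟩ α β hα hβ hαβ
      refine ⟨α * s + β * s', α * t + β * t', by positivity, by positivity, ?_, ?_⟩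
      · have h1 := mul_le_mul_of_nonneg_left hst hα
        have h2 := mul_le_mul_of_nonneg_left hst' hβ
        have h3 : α * ε + β * ε = ε := by rw [← add_mul, hαβ, one_mul]
        linarith
      · have h3 : P = α • P + β • P := by rw [← add_smul, hαβ, one_smul]
        have h4 : P + (α * s + β * s') • (X - P) + (α * t + β * t') • (Y - P) =
            (α • P + β • P) + (α * s + β * s') • (X - P) + (α * t + β * t') • (Y - P) := by
          rw [← h3]
        rw [h4]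
        module
    have hLF : LF4 (P + ε • (X - P)) X Y (P + ε • (Y - P)) := by
      intro w hw
      have hw1 : ZP w ∈ S := by
        refine convexHull_min ?_ hSc hw
        rintro v (rfl | rfl | rfl | rfl)
        · exact ⟨ε, 0, hε0.le, le_rfl, by linarith, by module⟩
        · exact ⟨1, 0, by norm_num, le_rfl, by linarith, by module⟩
        · exact ⟨0, 1, le_rfl, by norm_num, by linarith, by module⟩
        · exact ⟨0, ε, le_rfl, hε0.le, by linarith, by module⟩
      have hw2 : ZP w ∈ convexHull ℝ {P, X, Y} := by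
        have c1 : P ∈ convexHull ℝ {P, X, Y} := subset_convexHull ℝ _ (by simp)
        have c2 : X ∈ convexHull ℝ {P, X, Y} := subset_convexHull ℝ _ (by simp)
        have c3 : Y ∈ convexHull ℝ {P, X, Y} := subset_convexHull ℝ _ (by simp)
        refine convexHull_min ?_ (convex_convexHull ℝ _) hw
        rintro v (rfl | rfl | rfl | rfl)
        · exact (convex_convexHull ℝ _).segment_subset c1 c2 sX
        · exact c2
        · exact c3
        · exact (convex_convexHull ℝ _).segment_subset c1 c3 sY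
      rw [(h w hw2).1] at hw1
      exact hSP hw1
    have h1 : tau a b (P + ε • (X - P)) (P + ε • (Y - P)) (tau a b P (P + ε • (X - P)) q₀) =
        tau a b P (P + ε • (Y - P)) q₀ := by
      have e0 : P = ((0, 0) : Pl) + ZP z := by
        rw [hz]
        exact (zero_add P).symm
      have e1 : P + ε • (X - P) = ε • (X - P) + ZP z := by rw [hz, add_comm]
      have e2 : P + ε • (Y - P) = ε • (Y - P) + ZP z := by rw [hz, add_comm]
      have t1 : tau a b (P + ε • (X - P)) (P + ε • (Y - P)) =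
          tau a b (ε • (X - P)) (ε • (Y - P)) := by
        rw [e1, e2, tau_add_int]
      have t2 : tau a b P (P + ε • (X - P)) = tau a b (0, 0) (ε • (X - P)) := by
        rw [e1, ← tau_add_int a b (0, 0) (ε • (X - P)) z, ← e0]
      have t3 : tau a b P (P + ε • (Y - P)) = tau a b (0, 0) (ε • (Y - P)) := by
        rw [e2, ← tau_add_int a b (0, 0) (ε • (Y - P)) z, ← e0]
      rw [t1, t2, t3]
      refine APX_near ha' (small _ ?_) (small _ ?_) (small _ ?_) (small _ ?_) ?_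
      · linarith
      · linarith
      · linarith
      · linarith
      · intro h5
        apply hSP
        obtain ⟨r, s, hr, hs, hrs, he⟩ := h5
        refine ⟨r * ε, s * ε, by positivity, by positivity, by rw [← add_mul, hrs, one_mul], ?_⟩
        have h6 : (r * ε) • (X - P) + (s * ε) • (Y - P) = 0 := by
          rw [mul_smul, mul_smul]
          exact he
        rw [add_assoc, h6, add_zero]
    have h2 := apx_split a b sX
    have h3 := apx_split a b sY
    have h4 := tau_quad a b hLF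
    rw [← h2, ← h3, Equiv.Perm.mul_apply, Equiv.Perm.mul_apply, ← h1, ← Equiv.Perm.mul_apply,
      ← Equiv.Perm.mul_apply (tau a b (P + ε • (Y - P)) Y), h4]
  · push Not at hP
    have hLF : LF3 P X Y := by
      intro z hz
      exact hP z (h z hz).1
    rw [← tau_tri a b hLF, Equiv.Perm.mul_apply]

end

end Pool.Agent.ILL
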