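import Pool.Agent.ILL.Equ
import Pool.Agent.ILL.Apx

/-!
# APE. Equivariance for segments starting at the apex

`apex_U`: let `q₀` be admissible at `P` for `(a, b a)` and let `P` be the only possible lattice point of
`[P,B]`. Then `tau a b (UP) (UB) (a^(vexp P) q₀) = a^(vexp B) (tau a (ba) P B q₀)`.
`apex_L`: the same with `tau a b (LP) (LB) (b^(vexp P) q₀) = b^(vexp B) (tau (ab) b P B q₀)`.

PROOF. If `P` is not a lattice point: `[P,B]` is lattice-free, use `tau_U`, `tau_L`. If `B = P` both sides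
are `q₀`-trivial (`tau_self`). Otherwise translate so that `P = 0` (`tau_add_int`, `vexp_add_int`,
`mv_toR_ZP`, `adm_add_int`; `vexp 0 = 0`). Take `B' = εB`, `0 < ε ≤ 1`, with `|B'| < 1/2`. By `apex_add`
(for `0, B', B` and for `0, UB', UB`; the segment `[0,UB]` is the image of `[0,B]`) and `tau_U` for
the lattice-free segment `[B',B]` the claim for `B` follows from the claim for `B'`. For `B' = (x,y)` use
`apex_near`: left side `b^⌊y⌋ a^⌊x+y⌋ q₀`, right side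
`a^(⌊x+y⌋-⌊x⌋-⌊y⌋) (ba)^⌊y⌋ a^⌊x⌋ q₀`, all floors in `{-1,0}`.
- `⌊y⌋ = 0`: both are `a^⌊x+y⌋ q₀`.
- `⌊y⌋ = -1`: right side `a^(⌊x+y⌋-⌊x⌋) b⁻¹ a^⌊x⌋ q₀`, left side `b⁻¹ a^⌊x+y⌋ q₀`. Equal if
  `⌊x⌋ = ⌊x+y⌋`. The remaining case is `⌊x⌋ = 0`, `⌊x+y⌋ = -1`: `a⁻¹ b⁻¹ q₀ = b⁻¹ a⁻¹ q₀`, which is the
  admissibility for `(a, ba)` (`a (ba)⁻¹ a⁻¹ q₀ = (ba)⁻¹ q₀`).
For `L`: left `b^⌊x+y⌋ a^⌊x⌋ q₀`, right `b^(⌊x+y⌋-⌊x⌋-⌊y⌋) b^⌊y⌋ (ab)^⌊x⌋ q₀`: equal for
`⌊x⌋ = 0`; for `⌊x⌋ = -1` the right side is `b^(⌊x+y⌋+1) b⁻¹ a⁻¹ q₀`, equal to the left side.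

`adm_U`: for `P` not a lattice point both sides are true; for `P = ZP z` (then `UP` is a lattice point and
`vexp P = 0`): `a b⁻¹ a⁻¹ q₀ = b⁻¹ q₀` iff `a (ba)⁻¹ a⁻¹ q₀ = (ba)⁻¹ q₀`: both say
`b⁻¹ a⁻¹ q₀ = a⁻¹ b⁻¹ q₀`. `adm_L` in the same way for `(ab, b)`.
(Checked numerically.)
-/

open MeasureTheory Set Filter Topology
open scoped ENNReal NNReal

namespace Pool.Agent.ILL

section
variable {Λ : Type} [Fintype Λ] [DecidableEq Λ]

private theorem APE_vexp_ZP (z : ℤ × ℤ) : vexp (ZP z) = 0 := by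
  unfold vexp ZP
  simp only
  rw [← Int.cast_add, Int.floor_intCast, Int.floor_intCast, Int.floor_intCast]
  ring

private theorem APE_U_ZP (z : ℤ × ℤ) : (((ZP z).1 + (ZP z).2, (ZP z).2) : Pl) =
    ZP (z.1 + z.2, z.2) := by
  unfold ZP
  simp

private theorem APE_L_ZP (z : ℤ × ℤ) : (((ZP z).1, (ZP z).1 + (ZP z).2) : Pl) =
    ZP (z.1, z.1 + z.2) := by
  unfold ZP
  simp

private theorem APE_notU {P : Pl} (h : ∀ z, ZP z ≠ P) (z : ℤ × ℤ) :
    ZP z ≠ (P.1 + P.2, P.2) := by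
  intro hz
  apply h (z.1 - z.2, z.2)
  have h1 : (z.1 : ℝ) = P.1 + P.2 := congrArg Prod.fst hz
  have h2 : (z.2 : ℝ) = P.2 := congrArg Prod.snd hz
  ext
  · simp only [ZP, Int.cast_sub]
    linarith
  · simpa [ZP] using h2

private theorem APE_notL {P : Pl} (h : ∀ z, ZP z ≠ P) (z : ℤ × ℤ) :
    ZP z ≠ (P.1, P.1 + P.2) := by
  intro hz
  apply h (z.1, z.2 - z.1)
  have h1 : (z.1 : ℝ) = P.1 := congrArg Prod.fst hz
  have h2 : (z.2 : ℝ) = P.1 + P.2 := congrArg Prod.snd hz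
  ext
  · simpa [ZP] using h1
  · simp only [ZP, Int.cast_sub]
    linarith

theorem adm_U (a b : Equiv.Perm Λ) (P : Pl) (q₀ : Λ) :
    adm a b (P.1 + P.2, P.2) ((a ^ vexp P) q₀) ↔ adm a (b * a) P q₀ := by
  by_cases hP : ∃ z, ZP z = P
  · obtain ⟨z, rfl⟩ := hP
    rw [APE_vexp_ZP, zpow_zero, Equiv.Perm.one_apply, APE_U_ZP]
    have n1 : ¬ ∀ w : ℤ × ℤ, ZP w ≠ ZP (z.1 + z.2, z.2) := fun h => h _ rfl
    have n2 : ¬ ∀ w : ℤ × ℤ, ZP w ≠ ZP z := fun h => h _ rfl
    unfold adm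
    rw [or_iff_right n1, or_iff_right n2]
    simp only [mul_inv_rev, Equiv.Perm.mul_apply, Equiv.Perm.coe_inv, Equiv.apply_symm_apply]
    rw [Equiv.eq_symm_apply a]
  · push Not at hP
    exact iff_of_true (Or.inl (APE_notU hP)) (Or.inl hP)

theorem adm_L (a b : Equiv.Perm Λ) (P : Pl) (q₀ : Λ) :
    adm a b (P.1, P.1 + P.2) ((b ^ vexp P) q₀) ↔ adm (a * b) b P q₀ := by
  by_cases hP : ∃ z, ZP z = P
  · obtain ⟨z, rfl⟩ := hP
    rw [APE_vexp_ZP, zpow_zero, Equiv.Perm.one_apply, APE_L_ZP]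
    have n1 : ¬ ∀ w : ℤ × ℤ, ZP w ≠ ZP (z.1, z.1 + z.2) := fun h => h _ rfl
    have n2 : ¬ ∀ w : ℤ × ℤ, ZP w ≠ ZP z := fun h => h _ rfl
    unfold adm
    rw [or_iff_right n1, or_iff_right n2]
    simp only [mul_inv_rev, Equiv.Perm.mul_apply, Equiv.Perm.coe_inv, Equiv.apply_symm_apply]
  · push Not at hP
    exact iff_of_true (Or.inl (APE_notL hP)) (Or.inl hP)

private theorem APE_eps (P B : Pl) (hB : B ≠ P) : ∃ ε : ℝ, 0 < ε ∧ ε ≤ 1 ∧
    |(ε • (B - P)).1| < 1 / 2 ∧ |(ε • (B - P)).2| < 1 / 2 := by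
  set N : ℝ := 1 + |(B - P).1| + |(B - P).2| with hN
  have a1 := abs_nonneg (B - P).1
  have a2 := abs_nonneg (B - P).2
  have hNpos : 0 < N := by linarith
  have hε0 : 0 < 1 / (2 * N) := by positivity
  refine ⟨1 / (2 * N), hε0, ?_, ?_, ?_⟩
  · rw [div_le_one (by positivity)]
    linarith
  · rw [Prod.smul_fst, smul_eq_mul, abs_mul, abs_of_pos hε0, one_div, inv_mul_lt_iff₀ (by positivity)]
    linarith
  · rw [Prod.smul_snd, smul_eq_mul, abs_mul, abs_of_pos hε0, one_div, inv_mul_lt_iff₀ (by positivity)]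
    linarith

private theorem APE_sub {P B : Pl} {ε : ℝ} (h0 : 0 < ε) (h1 : ε ≤ 1) :
    P + ε • (B - P) ∈ segment ℝ P B :=
  ⟨1 - ε, ε, by linarith, h0.le, by ring, by module⟩

private theorem APE_LF {P B : Pl} (hB : B ≠ P) {ε : ℝ} (h0 : 0 < ε) (h1 : ε ≤ 1)
    (h : ∀ z, ZP z ∈ segment ℝ P B → ZP z = P) : LF (P + ε • (B - P)) B := by
  intro z hz
  have hz1 : ZP z ∈ segment ℝ P B :=
    (convex_segment P B).segment_subset (APE_sub h0 h1) (right_mem_segment ℝ P B) hz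
  have hz2 := h z hz1
  rw [hz2] at hz
  obtain ⟨r, s, hr, hs, hrs, he⟩ := hz
  have h2 : (r * ε + s) • (B - P) = 0 := by
    have h3 : (r * ε + s) • (B - P) = (r • (P + ε • (B - P)) + s • B) - (r + s) • P := by module
    rw [h3, he, hrs, one_smul, sub_self]
  rcases smul_eq_zero.1 h2 with h3 | h3
  · have h4 : 0 < r * ε + s := by
      rcases hr.eq_or_lt with h5 | h5
      · rw [← h5] at hrs ⊢
        linarith
      · have := mul_pos h5 h0
        linarith
    linarith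
  · exact hB (sub_eq_zero.1 h3)

private theorem APE_floor {x : ℝ} (h : |x| < 1) : ⌊x⌋ = 0 ∨ ⌊x⌋ = -1 := by
  rw [abs_lt] at h
  rcases le_or_gt 0 x with h1 | h1
  · left
    exact Int.floor_eq_zero_iff.2 ⟨h1, h.2⟩
  · right
    rw [Int.floor_eq_iff]
    push_cast
    constructor <;> linarith

private theorem APE_nearU {a b : Equiv.Perm Λ} {V : Pl} {q₀ : Λ}
    (ha : b⁻¹ (a⁻¹ q₀) = a⁻¹ (b⁻¹ q₀)) (h1 : |V.1| < 1 / 2) (h2 : |V.2| < 1 / 2) :
    tau a b (0, 0) (V.1 + V.2, V.2) q₀ =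
      (a ^ vexp V) (tau a (b * a) (0, 0) V q₀) := by
  have h3 : |V.1 + V.2| < 1 := (abs_add_le _ _).trans_lt (by linarith)
  rw [apex_near a b (V := (V.1 + V.2, V.2)) h3 (by simp only; linarith),
    apex_near a (b * a) (by linarith) (by linarith)]
  unfold vexp
  simp only
  have hl := Int.le_floor_add V.1 V.2
  have hu := Int.le_floor_add_floor V.1 V.2
  rcases APE_floor (h2.trans (by norm_num)) with hy | hy
  · rw [hy, zpow_zero, zpow_zero, one_mul, one_mul, ← Equiv.Perm.mul_apply, ← zpow_add]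
    congr 2
    ring
  · rcases APE_floor (h1.trans (by norm_num)) with hx | hx
    · rcases APE_floor h3 with hs | hs
      · rw [hx, hy, hs]
        simp [Equiv.Perm.mul_apply]
      · rw [hx, hy, hs]
        simpa [Equiv.Perm.mul_apply] using ha
    · rcases APE_floor h3 with hs | hs
      · rw [hx, hy, hs] at hu
        omega
      · rw [hx, hy, hs]
        simp [Equiv.Perm.mul_apply]

private theorem APE_nearL {a b : Equiv.Perm Λ} {V : Pl} {q₀ : Λ}
    (h1 : |V.1| < 1 / 2) (h2 : |V.2| < 1 / 2) :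
    tau a b (0, 0) (V.1, V.1 + V.2) q₀ =
      (b ^ vexp V) (tau (a * b) b (0, 0) V q₀) := by
  have h3 : |V.1 + V.2| < 1 := (abs_add_le _ _).trans_lt (by linarith)
  rw [apex_near a b (V := (V.1, V.1 + V.2)) (by simp only; linarith) h3,
    apex_near (a * b) b (by linarith) (by linarith)]
  unfold vexp
  simp only
  rw [← Equiv.Perm.mul_apply, ← mul_assoc, ← zpow_add]
  rcases APE_floor (h1.trans (by norm_num)) with hx | hx
  · rw [hx, zpow_zero, zpow_zero, mul_one, mul_one]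
    congr 2
    ring
  · rw [hx]
    have e1 : ⌊V.1 + V.2⌋ - -1 - ⌊V.2⌋ + ⌊V.2⌋ = ⌊V.1 + V.2⌋ + 1 := by ring
    rw [e1, zpow_neg_one, zpow_neg_one, mul_inv_rev, zpow_add_one, mul_assoc,
      mul_inv_cancel_left]

theorem apex_U {a b : Equiv.Perm Λ} {P B : Pl} {q₀ : Λ} (ha : adm a (b * a) P q₀)
    (h : ∀ z, ZP z ∈ segment ℝ P B → ZP z = P) :
    tau a b (P.1 + P.2, P.2) (B.1 + B.2, B.2) ((a ^ vexp P) q₀) =
      (a ^ vexp B) (tau a (b * a) P B q₀) := by
  by_cases hB : B = P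
  · rw [hB, tau_self, tau_self, Equiv.Perm.one_apply, Equiv.Perm.one_apply]
  by_cases hP : ∃ z, ZP z = P
  · obtain ⟨z, hz⟩ := hP
    obtain ⟨ε, h0, h1, hV1, hV2⟩ := APE_eps P B hB
    have ha' : b⁻¹ (a⁻¹ q₀) = a⁻¹ (b⁻¹ q₀) := by
      rcases ha with h3 | h3
      · exact absurd hz (h3 z)
      · simpa [Equiv.Perm.mul_apply] using h3
    set V : Pl := ε • (B - P) with hV
    have hLF := APE_LF hB h0 h1 h
    have hsub := APE_sub (B := B) (P := P) h0 h1
    rw [← hV] at hLF hsub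
    have hsubU : (((P + V).1 + (P + V).2, (P + V).2) : Pl) ∈
        segment ℝ ((P.1 + P.2, P.2) : Pl) (B.1 + B.2, B.2) := by
      refine ⟨1 - ε, ε, by linarith, h0.le, by ring, ?_⟩
      ext
      · simp only [Prod.fst_add, Prod.smul_fst, Prod.snd_add, Prod.smul_snd, smul_eq_mul, hV,
          Prod.fst_sub, Prod.snd_sub]
        ring
      · simp only [Prod.snd_add, Prod.smul_snd, smul_eq_mul, hV, Prod.snd_sub]
        ring
    have hPv : vexp P = 0 := by rw [← hz, APE_vexp_ZP]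
    have e0 : P = ((0, 0) : Pl) + ZP z := by
      rw [hz]
      exact (zero_add P).symm
    have e1 : P + V = V + ZP z := by rw [hz, add_comm]
    have hVv : vexp (P + V) = vexp V := by rw [e1, vexp_add_int]
    have t2 : tau a (b * a) P (P + V) = tau a (b * a) (0, 0) V := by
      rw [e1, ← tau_add_int a (b * a) (0, 0) V z, ← e0]
    have t1 : tau a b (P.1 + P.2, P.2) ((P + V).1 + (P + V).2, (P + V).2) =
        tau a b (0, 0) (V.1 + V.2, V.2) := by
      rw [← tau_add_int a b (0, 0) (V.1 + V.2, V.2) (z.1 + z.2, z.2)]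
      congr 1
      · rw [← hz]
        ext <;> simp [ZP]
      · rw [← hz]
        ext
        · simp only [ZP, Prod.fst_add, Prod.snd_add, Int.cast_add]
          ring
        · simp only [ZP, Prod.snd_add]
          ring
    have hn := APE_nearU ha' hV1 hV2
    rw [← apx_split a b hsubU, ← apx_split a (b * a) hsub, Equiv.Perm.mul_apply,
      Equiv.Perm.mul_apply, tau_U a b hLF, hPv, zpow_zero, Equiv.Perm.one_apply, t1, hn, hVv,
      ← t2]
    simp [Equiv.Perm.mul_apply]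
  · push Not at hP
    have hLF : LF P B := fun z hz => hP z (h z hz)
    rw [tau_U a b hLF]
    simp [Equiv.Perm.mul_apply]

theorem apex_L {a b : Equiv.Perm Λ} {P B : Pl} {q₀ : Λ} (ha : adm (a * b) b P q₀)
    (h : ∀ z, ZP z ∈ segment ℝ P B → ZP z = P) :
    tau a b (P.1, P.1 + P.2) (B.1, B.1 + B.2) ((b ^ vexp P) q₀) =
      (b ^ vexp B) (tau (a * b) b P B q₀) := by
  by_cases hB : B = P
  · rw [hB, tau_self, tau_self, Equiv.Perm.one_apply, Equiv.Perm.one_apply]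
  by_cases hP : ∃ z, ZP z = P
  · obtain ⟨z, hz⟩ := hP
    obtain ⟨ε, h0, h1, hV1, hV2⟩ := APE_eps P B hB
    set V : Pl := ε • (B - P) with hV
    have hLF := APE_LF hB h0 h1 h
    have hsub := APE_sub (B := B) (P := P) h0 h1
    rw [← hV] at hLF hsub
    have hsubU : (((P + V).1, (P + V).1 + (P + V).2) : Pl) ∈
        segment ℝ ((P.1, P.1 + P.2) : Pl) (B.1, B.1 + B.2) := by
      refine ⟨1 - ε, ε, by linarith, h0.le, by ring, ?_⟩
      ext
      · simp only [Prod.fst_add, Prod.smul_fst, smul_eq_mul, hV, Prod.fst_sub]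
        ring
      · simp only [Prod.fst_add, Prod.smul_fst, Prod.snd_add, Prod.smul_snd, smul_eq_mul, hV,
          Prod.fst_sub, Prod.snd_sub]
        ring
    have hPv : vexp P = 0 := by rw [← hz, APE_vexp_ZP]
    have e0 : P = ((0, 0) : Pl) + ZP z := by
      rw [hz]
      exact (zero_add P).symm
    have e1 : P + V = V + ZP z := by rw [hz, add_comm]
    have hVv : vexp (P + V) = vexp V := by rw [e1, vexp_add_int]
    have t2 : tau (a * b) b P (P + V) = tau (a * b) b (0, 0) V := by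
      rw [e1, ← tau_add_int (a * b) b (0, 0) V z, ← e0]
    have t1 : tau a b (P.1, P.1 + P.2) ((P + V).1, (P + V).1 + (P + V).2) =
        tau a b (0, 0) (V.1, V.1 + V.2) := by
      rw [← tau_add_int a b (0, 0) (V.1, V.1 + V.2) (z.1, z.1 + z.2)]
      congr 1
      · rw [← hz]
        ext <;> simp [ZP]
      · rw [← hz]
        ext
        · simp only [ZP, Prod.fst_add]
          ring
        · simp only [ZP, Prod.fst_add, Prod.snd_add, Int.cast_add]
          ring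
    have hn := APE_nearL (a := a) (b := b) (q₀ := q₀) hV1 hV2
    rw [← apx_split a b hsubU, ← apx_split (a * b) b hsub, Equiv.Perm.mul_apply,
      Equiv.Perm.mul_apply, tau_L a b hLF, hPv, zpow_zero, Equiv.Perm.one_apply, t1, hn, hVv,
      ← t2]
    simp [Equiv.Perm.mul_apply]
  · push Not at hP
    have hLF : LF P B := fun z hz => hP z (h z hz)
    rw [tau_L a b hLF]
    simp [Equiv.Perm.mul_apply]

end

end Pool.Agent.ILL
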