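import Pool.Agent.ILL.Mod

/-!
# AVN. The average over the commutator subgroup

`avgN a b φ q = (1/|N'|) Σ_{n ∈ N'} φ(n q)`, `N' = Nc a b`.
* `avgN_smul`: for `g` in `⟨a,b⟩`, the average of `φ ∘ g` at `q` is the average of `φ` at `g q`: reindex
  `n ↦ g n g⁻¹` (`Nc_conj`).
* `avgN_inv`: translation invariance by `n ∈ N'` (reindex `n' ↦ n' n`).
* idempotent, linear, bounded.
* `avgN_congr_pair`: it only depends on the subgroup `Nc`.
* `avgN_orbit`: if `φ = 1_{q₁}` then the average at `q` is `1/|N' q₁|` on the orbit; not needed in this form;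
  instead: `avgN a b φ q = 0` for all `q` implies `|φ q| ≤ max` of the differences `|φ(n q) - φ q|`.
-/

open MeasureTheory Set Filter Topology
open scoped ENNReal NNReal

namespace Pool.Agent.ILL

section
variable {Λ : Type} [Fintype Λ] [DecidableEq Λ] (a b : Equiv.Perm Λ)

theorem mem_NcF {g : Equiv.Perm Λ} : g ∈ NcF a b ↔ g ∈ Nc a b := by
  classical
  have h0 := @Finset.mem_filter _ (fun g => g ∈ Nc a b) (fun g => Classical.propDecidable _)
    Finset.univ g
  constructor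
  · intro h
    exact (h0.mp h).2
  · intro h
    exact h0.mpr ⟨Finset.mem_univ _, h⟩

private theorem avn_card_pos : (0 : ℝ) < ((NcF a b).card : ℝ) := by
  have h1 : (1 : Equiv.Perm Λ) ∈ NcF a b := (mem_NcF a b).mpr (one_mem _)
  exact_mod_cast Finset.card_pos.mpr ⟨1, h1⟩

theorem avgN_smul {g : Equiv.Perm Λ} (hg : g ∈ Subgroup.closure {a, b}) (φ : Λ → ℝ) (q : Λ) :
    avgN a b (fun q' => φ (g q')) q = avgN a b φ (g q) := by
  unfold avgN
  congr 1
  refine Finset.sum_nbij' (fun n => g * n * g⁻¹) (fun n => g⁻¹ * n * g) ?_ ?_ ?_ ?_ ?_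
  · intro n hn
    rw [mem_NcF] at hn ⊢
    exact Nc_conj a b hg hn
  · intro n hn
    rw [mem_NcF] at hn ⊢
    have h1 := Nc_conj a b (inv_mem hg) hn
    rwa [inv_inv] at h1
  · intro n _
    group
  · intro n _
    group
  · intro n _
    have h1 : g⁻¹ (g q) = q := g.symm_apply_apply q
    simp only [Equiv.Perm.mul_apply, h1]

theorem avgN_inv {n : Equiv.Perm Λ} (hn : n ∈ Nc a b) (φ : Λ → ℝ) (q : Λ) :
    avgN a b φ (n q) = avgN a b φ q := by
  unfold avgN
  congr 1
  refine Finset.sum_nbij' (fun n' => n' * n) (fun n' => n' * n⁻¹) ?_ ?_ ?_ ?_ ?_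
  · intro n' hn'
    rw [mem_NcF] at hn' ⊢
    exact mul_mem hn' hn
  · intro n' hn'
    rw [mem_NcF] at hn' ⊢
    exact mul_mem hn' (inv_mem hn)
  · intro n' _
    group
  · intro n' _
    group
  · intro n' _
    simp only [Equiv.Perm.mul_apply]

theorem avgN_idem (φ : Λ → ℝ) (q : Λ) : avgN a b (avgN a b φ) q = avgN a b φ q := by
  have h1 : avgN a b (avgN a b φ) q =
      (∑ n ∈ NcF a b, avgN a b φ (n q)) / ((NcF a b).card : ℝ) := rfl
  rw [h1, Finset.sum_congr rfl fun n hn => avgN_inv a b ((mem_NcF a b).mp hn) φ q,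
    Finset.sum_const, nsmul_eq_mul, mul_div_cancel_left₀ _ (avn_card_pos a b).ne']

theorem avgN_sub (φ φ' : Λ → ℝ) (q : Λ) :
    avgN a b (fun q => φ q - φ' q) q = avgN a b φ q - avgN a b φ' q := by
  unfold avgN
  rw [← sub_div, ← Finset.sum_sub_distrib]

theorem avgN_smul_const (c : ℝ) (φ : Λ → ℝ) (q : Λ) :
    avgN a b (fun q => c * φ q) q = c * avgN a b φ q := by
  unfold avgN
  rw [← mul_div_assoc, ← Finset.mul_sum]

theorem avgN_bound {φ : Λ → ℝ} {m M : ℝ} (h : ∀ q, m ≤ φ q ∧ φ q ≤ M) (q : Λ) :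
    m ≤ avgN a b φ q ∧ avgN a b φ q ≤ M := by
  have h0 := avn_card_pos a b
  unfold avgN
  constructor
  · rw [le_div_iff₀ h0]
    have h1 := Finset.card_nsmul_le_sum (NcF a b) (fun n => φ (n q)) m fun n _ => (h _).1
    rw [nsmul_eq_mul] at h1
    linarith
  · rw [div_le_iff₀ h0]
    have h1 := Finset.sum_le_card_nsmul (NcF a b) (fun n => φ (n q)) M fun n _ => (h _).2
    rw [nsmul_eq_mul] at h1
    linarith

theorem avgN_congr_pair {a' b' : Equiv.Perm Λ} (h : Nc a' b' = Nc a b) (φ : Λ → ℝ) (q : Λ) :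
    avgN a' b' φ q = avgN a b φ q := by
  have h1 : NcF a' b' = NcF a b := by
    ext n
    rw [mem_NcF, mem_NcF, h]
  unfold avgN
  rw [h1]

/-- a function with zero averages is bounded by its differences along the group -/
theorem abs_le_of_avgN_zero {φ : Λ → ℝ} (h0 : ∀ q, avgN a b φ q = 0) {D : ℝ}
    (hD : ∀ n ∈ Nc a b, ∀ q, |φ (n q) - φ q| ≤ D) (q : Λ) : |φ q| ≤ D := by
  have hc := avn_card_pos a b
  have h1 := h0 q
  unfold avgN at h1
  rw [div_eq_zero_iff, or_iff_left hc.ne'] at h1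
  have h2 : ((NcF a b).card : ℝ) * φ q = ∑ n ∈ NcF a b, (φ q - φ (n q)) := by
    rw [Finset.sum_sub_distrib, h1, Finset.sum_const, nsmul_eq_mul, sub_zero]
  have h3 : ((NcF a b).card : ℝ) * |φ q| ≤ ((NcF a b).card : ℝ) * D := by
    calc ((NcF a b).card : ℝ) * |φ q| = |∑ n ∈ NcF a b, (φ q - φ (n q))| := by
          rw [← h2, abs_mul, abs_of_pos hc]
      _ ≤ ∑ n ∈ NcF a b, |φ q - φ (n q)| := Finset.abs_sum_le_sum_abs _ _
      _ ≤ ∑ n ∈ NcF a b, D := Finset.sum_le_sum fun n hn => by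
          rw [abs_sub_comm]
          exact hD n ((mem_NcF a b).mp hn) q
      _ = ((NcF a b).card : ℝ) * D := by rw [Finset.sum_const, nsmul_eq_mul]
  exact le_of_mul_le_mul_left h3 hc

/-- uniform word length estimate: differences along the generated subgroup are controlled by the
differences along the generators, with a constant depending on `Λ` only -/
theorem word_bound (Λ : Type) [Fintype Λ] [DecidableEq Λ] : ∃ K : ℝ, 0 ≤ K ∧
    ∀ (s : Finset (Equiv.Perm Λ)) (g : Equiv.Perm Λ),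
      g ∈ Subgroup.closure (s : Set (Equiv.Perm Λ)) → ∀ (φ : Λ → ℝ) (q : Λ),
      |φ (g q) - φ q| ≤ K * ∑ r ∈ s, ∑ q', |φ (r q') - φ q'| := by
  classical
  have h1 : ∀ p : Finset (Equiv.Perm Λ) × Equiv.Perm Λ, ∃ K : ℝ, 0 ≤ K ∧
      (p.2 ∈ Subgroup.closure (p.1 : Set (Equiv.Perm Λ)) → ∀ (φ : Λ → ℝ) (q : Λ),
      |φ (p.2 q) - φ q| ≤ K * ∑ r ∈ p.1, ∑ q', |φ (r q') - φ q'|) := by
    rintro ⟨s, g⟩
    by_cases hg : g ∈ Subgroup.closure (s : Set (Equiv.Perm Λ))
    · obtain ⟨K, h1, h2⟩ : ∃ K : ℝ, 0 ≤ K ∧ ∀ (φ : Λ → ℝ) (q : Λ),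
          |φ (g q) - φ q| ≤ K * ∑ r ∈ s, ∑ q', |φ (r q') - φ q'| := by
        induction hg using Subgroup.closure_induction with
        | mem r hr =>
          refine ⟨1, zero_le_one, fun φ q => ?_⟩
          rw [one_mul]
          refine (Finset.single_le_sum (f := fun q' => |φ (r q') - φ q'|)
            (fun q' _ => abs_nonneg _) (Finset.mem_univ q)).trans ?_
          exact Finset.single_le_sum (f := fun r => ∑ q', |φ (r q') - φ q'|)
            (fun r _ => Finset.sum_nonneg fun q' _ => abs_nonneg _) (Finset.mem_coe.mp hr)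
        | one =>
          refine ⟨0, le_rfl, fun φ q => ?_⟩
          simp
        | mul g g' _ _ ih ih' =>
          obtain ⟨K, h1, h2⟩ := ih
          obtain ⟨K', h1', h2'⟩ := ih'
          refine ⟨K + K', add_nonneg h1 h1', fun φ q => ?_⟩
          rw [Equiv.Perm.mul_apply, add_mul]
          have h3 := h2 φ (g' q)
          have h4 := h2' φ q
          have h5 := abs_sub_le (φ (g (g' q))) (φ (g' q)) (φ q)
          linarith
        | inv g _ ih =>
          obtain ⟨K, h1, h2⟩ := ih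
          refine ⟨K, h1, fun φ q => ?_⟩
          have h3 := h2 φ (g⁻¹ q)
          have h4 : g (g⁻¹ q) = q := g.apply_symm_apply q
          rwa [h4, abs_sub_comm] at h3
      exact ⟨K, h1, fun _ => h2⟩
    · exact ⟨0, le_rfl, fun h => absurd h hg⟩
  choose K hK0 hK using h1
  refine ⟨∑ p, K p, Finset.sum_nonneg fun p _ => hK0 p, fun s g hg φ q => ?_⟩
  refine (hK (s, g) hg φ q).trans ?_
  refine mul_le_mul_of_nonneg_right ?_ (Finset.sum_nonneg fun r _ =>
    Finset.sum_nonneg fun q' _ => abs_nonneg _)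
  exact Finset.single_le_sum (f := K) (fun p _ => hK0 p) (Finset.mem_univ (s, g))

private theorem avn_tau_mem (A B : Pl) : tau a b A B ∈ Subgroup.closure {a, b} := by
  obtain ⟨n, hn, h⟩ := tau_mod a b A B
  rw [h]
  refine mul_mem (mul_mem (Nc_le a b hn) (zpow_mem ?_ _)) (zpow_mem ?_ _)
  · exact Subgroup.subset_closure (by simp)
  · exact Subgroup.subset_closure (by simp)

/-- `avgL` commutes with the flow -/
theorem avgL_wPhi (s : ℝ) (G : SLR × Pl → Lab Λ → ℝ) (x : SLR × Pl) (i : Lab Λ) :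
    avgL ((wPhi s).act G) x i = (wPhi s).act (avgL G) x i := by
  obtain ⟨a, b, q₀, q⟩ := i
  exact avgN_smul a b (avn_tau_mem a b _ _)
    (fun q => G (eR (nl (-s)) x) (a, b, q₀, q)) q

theorem avgL_f0 (x : SLR × Pl) (i : Lab Λ) : avgL f0 x i = 0 := by
  obtain ⟨a, b, q₀, q⟩ := i
  change avgN a b (fun q => ind x (a, b, q₀, q) -
    avgN a b (fun q => ind x (a, b, q₀, q)) q) q = 0
  rw [avgN_sub, avgN_idem, sub_self]

end

end Pool.Agent.ILL
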