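import Pool.Agent.ILL.Defs

/-!
# BAD. Few integers have no prime factor exactly once in a long window

For `m ≠ 0`, `P₀`, `ε > 0` there is `P₁` such that for all large `X` the number of `A ∈ [1,X]` having no prime
`p ∈ [P₀,P₁]`, `p ∤ m`, with `p ∣ A`, `p² ∤ A`, is at most `ε X`.

PROOF (second moment). Let `𝒫` be the set of the primes in `[P₀,P₁]` not dividing `m`, `ω(A) = #{p ∈ 𝒫 : p ∣ A,
p² ∤ A}`. For `p ∈ 𝒫`, `#{A ≤ X : p ∣ A, p² ∤ A} = X ρ_p + O(2)`, `ρ_p = 1/p - 1/p²`, and for `p ≠ p'`,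
`#{A ≤ X : both} = X ρ_p ρ_{p'} + O(4)` (inclusion-exclusion). With `μ = Σ ρ_p`:
`Σ_{A ≤ X} (ω(A) - μ)² ≤ X μ + C_𝒫`. So `#{A ≤ X : ω(A) = 0} ≤ (Xμ + C_𝒫)/μ² ≤ 2X/μ` for `X` large, and `μ → ∞` as
`P₁ → ∞` because `Σ 1/p` diverges (`Nat.Primes.not_summable_one_div` / `not_summable_one_div_on_primes`), while
removing finitely many primes and `Σ 1/p²` are harmless (`ρ_p ≥ 1/(2p)`).
(Alternative: exact density of the residue classes modulo `∏ p²` by the Chinese remainder theorem.)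
-/

open MeasureTheory Set Filter Topology
open scoped ENNReal NNReal

namespace Pool.Agent.ILL

/-- indicator of divisibility -/
private noncomputable def dI (d A : ℕ) : ℝ := if d ∣ A then 1 else 0

private theorem dI_mul {a b : ℕ} (h : Nat.Coprime a b) (A : ℕ) : dI a A * dI b A = dI (a * b) A := by
  unfold dI
  by_cases ha : a ∣ A
  · by_cases hb : b ∣ A
    · rw [if_pos ha, if_pos hb, if_pos (h.mul_dvd_of_dvd_of_dvd ha hb), one_mul]
    · rw [if_pos ha, if_neg hb, if_neg fun h' => hb ((dvd_mul_left b a).trans h'), mul_zero]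
  · rw [if_neg ha, if_neg fun h' => ha ((dvd_mul_right a b).trans h'), zero_mul]

private theorem sum_dI (X d : ℕ) : ∑ A ∈ Finset.Ioc 0 X, dI d A = ((X / d : ℕ) : ℝ) := by
  unfold dI
  rw [Finset.sum_ite, Finset.sum_const_zero, add_zero, Finset.sum_const, nsmul_eq_mul, mul_one,
    Nat.Ioc_filter_dvd_card_eq_div]

private theorem sum_dI_le (X d : ℕ) : ∑ A ∈ Finset.Ioc 0 X, dI d A ≤ (X : ℝ) / d := by
  rw [sum_dI]
  exact Nat.cast_div_le

private theorem sum_dI_ge (X : ℕ) {d : ℕ} (hd : 0 < d) :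
    (X : ℝ) / d - 1 ≤ ∑ A ∈ Finset.Ioc 0 X, dI d A := by
  rw [sum_dI]
  have hd' : (0 : ℝ) < d := by exact_mod_cast hd
  have h1 : X < d * (X / d) + d := by
    have := Nat.lt_mul_div_succ X hd
    rw [mul_add, mul_one] at this
    exact this
  have h2 : (X : ℝ) < d * ((X / d : ℕ) : ℝ) + d := by exact_mod_cast h1
  rw [sub_le_iff_le_add, div_le_iff₀ hd']
  nlinarith

/-- indicator of exact divisibility -/
private noncomputable def dG (p A : ℕ) : ℝ := dI p A - dI (p ^ 2) A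

private theorem dG_sq (p A : ℕ) : dG p A * dG p A = dG p A := by
  unfold dG dI
  by_cases h2 : p ^ 2 ∣ A
  · have h1 : p ∣ A := (dvd_pow_self p two_ne_zero).trans h2
    rw [if_pos h1, if_pos h2]
    ring
  · rw [if_neg h2]
    split_ifs
    · ring
    · ring

private theorem dG_zero {p A : ℕ} (h : p ∣ A → p ^ 2 ∣ A) : dG p A = 0 := by
  unfold dG dI
  by_cases h1 : p ∣ A
  · rw [if_pos h1, if_pos (h h1), sub_self]
  · rw [if_neg h1, if_neg fun h2 => h1 ((dvd_pow_self p two_ne_zero).trans h2), sub_self]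

/-- the density -/
private noncomputable def dR (p : ℕ) : ℝ := 1 / p - 1 / (p : ℝ) ^ 2

private theorem sum_dG_le (X : ℕ) {p : ℕ} (hp : 0 < p) :
    ∑ A ∈ Finset.Ioc 0 X, dG p A ≤ X * dR p + 1 := by
  unfold dG dR
  rw [Finset.sum_sub_distrib]
  have h1 := sum_dI_le X p
  have h2 := sum_dI_ge X (d := p ^ 2) (by positivity)
  have h3 : (X : ℝ) * (1 / p - 1 / (p : ℝ) ^ 2) = (X : ℝ) / p - (X : ℝ) / ((p ^ 2 : ℕ) : ℝ) := by
    push_cast
    ring
  rw [h3]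
  linarith

private theorem sum_dG_ge (X : ℕ) {p : ℕ} (hp : 0 < p) :
    X * dR p - 1 ≤ ∑ A ∈ Finset.Ioc 0 X, dG p A := by
  unfold dG dR
  rw [Finset.sum_sub_distrib]
  have h1 := sum_dI_ge X hp
  have h2 := sum_dI_le X (p ^ 2)
  have h3 : (X : ℝ) * (1 / p - 1 / (p : ℝ) ^ 2) = (X : ℝ) / p - (X : ℝ) / ((p ^ 2 : ℕ) : ℝ) := by
    push_cast
    ring
  rw [h3]
  linarith

private theorem sum_dG_mul_le (X : ℕ) {p q : ℕ} (hp : p.Prime) (hq : q.Prime) (hpq : p ≠ q) :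
    ∑ A ∈ Finset.Ioc 0 X, dG p A * dG q A ≤ X * (dR p * dR q) + 2 := by
  have hc : Nat.Coprime p q := (Nat.coprime_primes hp hq).2 hpq
  have h0 : ∀ A, dG p A * dG q A =
      dI (p * q) A - dI (p * q ^ 2) A - dI (p ^ 2 * q) A + dI (p ^ 2 * q ^ 2) A := by
    intro A
    rw [← dI_mul hc, ← dI_mul (hc.pow_right 2), ← dI_mul (hc.pow_left 2), ← dI_mul (hc.pow 2 2)]
    unfold dG
    ring
  simp only [h0, Finset.sum_add_distrib, Finset.sum_sub_distrib]
  have hp0 := hp.pos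
  have hq0 := hq.pos
  have h1 := sum_dI_le X (p * q)
  have h2 := sum_dI_ge X (d := p * q ^ 2) (by positivity)
  have h3 := sum_dI_ge X (d := p ^ 2 * q) (by positivity)
  have h4 := sum_dI_le X (p ^ 2 * q ^ 2)
  have h5 : (X : ℝ) * (dR p * dR q) = (X : ℝ) / ((p * q : ℕ) : ℝ) - (X : ℝ) / ((p * q ^ 2 : ℕ) : ℝ)
      - (X : ℝ) / ((p ^ 2 * q : ℕ) : ℝ) + (X : ℝ) / ((p ^ 2 * q ^ 2 : ℕ) : ℝ) := by
    have hp' : (p : ℝ) ≠ 0 := by exact_mod_cast hp0.ne'
    have hq' : (q : ℝ) ≠ 0 := by exact_mod_cast hq0.ne'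
    unfold dR
    push_cast
    field_simp
    ring
  rw [h5]
  linarith

private theorem second_moment (X : ℕ) (T : Finset ℕ) (hT : ∀ p ∈ T, p.Prime) :
    ∑ A ∈ Finset.Ioc 0 X, (∑ p ∈ T, dG p A - ∑ p ∈ T, dR p) ^ 2 ≤
      X * ∑ p ∈ T, dR p + ((T.card : ℝ) + 2 * (T.card : ℝ) ^ 2 + 2 * (∑ p ∈ T, dR p) * T.card) := by
  classical
  set μ := ∑ p ∈ T, dR p with hμ
  have hR0 : ∀ p ∈ T, 0 ≤ dR p := by
    intro p hp
    have h1 : (1 : ℝ) ≤ p := by exact_mod_cast (hT p hp).one_lt.le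
    unfold dR
    rw [sub_nonneg]
    apply one_div_le_one_div_of_le (by linarith)
    nlinarith
  have hμ0 : 0 ≤ μ := Finset.sum_nonneg hR0
  -- first moment
  have h1 : (X : ℝ) * μ - T.card ≤ ∑ A ∈ Finset.Ioc 0 X, ∑ p ∈ T, dG p A := by
    rw [Finset.sum_comm, hμ, Finset.mul_sum]
    have : ∑ p ∈ T, ((X : ℝ) * dR p - 1) ≤ ∑ p ∈ T, ∑ A ∈ Finset.Ioc 0 X, dG p A :=
      Finset.sum_le_sum fun p hp => sum_dG_ge X (hT p hp).pos
    rw [Finset.sum_sub_distrib, Finset.sum_const, nsmul_eq_mul, mul_one] at this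
    exact this
  -- second moment
  have h2 : ∑ A ∈ Finset.Ioc 0 X, (∑ p ∈ T, dG p A) ^ 2 ≤
      X * μ ^ 2 + 2 * (T.card : ℝ) ^ 2 + (X * μ + T.card) := by
    have h3 : ∀ A, (∑ p ∈ T, dG p A) ^ 2 = ∑ p ∈ T, ∑ q ∈ T, dG p A * dG q A := by
      intro A
      rw [pow_two, Finset.sum_mul_sum]
    simp only [h3]
    rw [Finset.sum_comm]
    have h4 : ∀ p ∈ T, ∑ A ∈ Finset.Ioc 0 X, ∑ q ∈ T, dG p A * dG q A ≤
        ∑ q ∈ T, ((X : ℝ) * (dR p * dR q) + 2 + if p = q then (X * dR p + 1) else 0) := by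
      intro p hp
      rw [Finset.sum_comm]
      apply Finset.sum_le_sum
      intro q hq
      by_cases hpq : p = q
      · subst hpq
        rw [if_pos rfl]
        simp only [dG_sq]
        have h5 := sum_dG_le X (hT p hp).pos
        have h6 : 0 ≤ (X : ℝ) * (dR p * dR p) :=
          mul_nonneg (Nat.cast_nonneg X) (mul_nonneg (hR0 p hp) (hR0 p hp))
        linarith
      · rw [if_neg hpq, add_zero]
        exact sum_dG_mul_le X (hT p hp) (hT q hq) hpq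
    refine (Finset.sum_le_sum h4).trans (le_of_eq ?_)
    have h5 : ∀ p ∈ T, ∑ q ∈ T, ((X : ℝ) * (dR p * dR q) + 2 + if p = q then (X * dR p + 1) else 0) =
        X * μ * dR p + 2 * T.card + (X * dR p + 1) := by
      intro p hp
      rw [Finset.sum_add_distrib, Finset.sum_add_distrib, Finset.sum_const, nsmul_eq_mul,
        Finset.sum_ite_eq, if_pos hp, ← Finset.mul_sum, ← Finset.mul_sum]
      ring
    rw [Finset.sum_congr rfl h5, Finset.sum_add_distrib, Finset.sum_add_distrib,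
      Finset.sum_add_distrib, Finset.sum_const, Finset.sum_const, ← Finset.mul_sum,
      ← Finset.mul_sum, nsmul_eq_mul, nsmul_eq_mul]
    ring
  have h6 : ∑ A ∈ Finset.Ioc 0 X, (∑ p ∈ T, dG p A - μ) ^ 2 =
      ∑ A ∈ Finset.Ioc 0 X, (∑ p ∈ T, dG p A) ^ 2 -
        2 * μ * ∑ A ∈ Finset.Ioc 0 X, ∑ p ∈ T, dG p A + X * μ ^ 2 := by
    have h7 : ∀ A ∈ Finset.Ioc 0 X, (∑ p ∈ T, dG p A - μ) ^ 2 =
        (∑ p ∈ T, dG p A) ^ 2 - 2 * μ * ∑ p ∈ T, dG p A + μ ^ 2 := fun A _ => by ring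
    rw [Finset.sum_congr rfl h7, Finset.sum_add_distrib, Finset.sum_sub_distrib, ← Finset.mul_sum,
      Finset.sum_const, Nat.card_Ioc, nsmul_eq_mul, Nat.sub_zero]
  rw [h6]
  nlinarith

private theorem exists_primes (K : ℕ) (C : ℝ) : ∃ P₁ : ℕ,
    C ≤ ∑ p ∈ (Finset.Icc K P₁).filter Nat.Prime, dR p := by
  classical
  set f : ℕ → ℝ := Set.indicator {p : ℕ | p.Prime} (fun n : ℕ => (1 : ℝ) / n) with hf
  have hf0 : ∀ n, 0 ≤ f n := fun n => Set.indicator_nonneg (fun _ _ => by positivity) n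
  have h1 := (not_summable_iff_tendsto_nat_atTop_of_nonneg hf0).1 not_summable_one_div_on_primes
  obtain ⟨N, hN⟩ := (h1.eventually_ge_atTop (2 * C + ∑ n ∈ Finset.range K, f n)).exists
  refine ⟨max N K, ?_⟩
  have h2 : ∑ n ∈ Finset.range N, f n ≤ ∑ n ∈ Finset.range (max N K + 1), f n :=
    Finset.sum_le_sum_of_subset_of_nonneg
      (Finset.range_subset_range.2 ((le_max_left N K).trans (Nat.le_succ _))) fun n _ _ => hf0 n
  have h3 : ∑ n ∈ Finset.range (max N K + 1), f n =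
      ∑ n ∈ Finset.range K, f n + ∑ n ∈ Finset.Ico K (max N K + 1), f n :=
    (Finset.sum_range_add_sum_Ico _ ((le_max_right N K).trans (Nat.le_succ _))).symm
  have h4 : ∑ n ∈ Finset.Ico K (max N K + 1), f n =
      ∑ p ∈ (Finset.Icc K (max N K)).filter Nat.Prime, (1 : ℝ) / p := by
    rw [Finset.sum_filter]
    have h5 : Finset.Ico K (max N K + 1) = Finset.Icc K (max N K) := by
      ext x
      simp only [Finset.mem_Ico, Finset.mem_Icc, Nat.lt_succ_iff]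
    rw [h5]
    apply Finset.sum_congr rfl
    intro n _
    simp only [hf, Set.indicator_apply, Set.mem_ofPred_eq]
  have h6 : ∑ p ∈ (Finset.Icc K (max N K)).filter Nat.Prime, (1 : ℝ) / p ≤
      2 * ∑ p ∈ (Finset.Icc K (max N K)).filter Nat.Prime, dR p := by
    rw [Finset.mul_sum]
    apply Finset.sum_le_sum
    intro p hp
    have hp2 : (2 : ℝ) ≤ p := by exact_mod_cast (Finset.mem_filter.1 hp).2.two_le
    have hp0 : (0 : ℝ) < p := by linarith
    unfold dR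
    have h7 : 1 / (p : ℝ) ^ 2 ≤ 1 / p / 2 := by
      rw [div_div]
      apply one_div_le_one_div_of_le (by positivity)
      nlinarith
    linarith
  linarith

open Classical in
theorem bad_density {m : ℤ} (hm : m ≠ 0) (P₀ : ℕ) {ε : ℝ} (hε : 0 < ε) :
    ∃ P₁ : ℕ, ∀ᶠ X : ℕ in atTop,
      (((Finset.Icc 1 X).filter (fun A : ℕ => ∀ p : ℕ, p.Prime → P₀ ≤ p → p ≤ P₁ →
        ¬ (p : ℤ) ∣ m → p ∣ A → p ^ 2 ∣ A)).card : ℝ) ≤ ε * X := by
  set K : ℕ := max P₀ (m.natAbs + 1) with hK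
  obtain ⟨P₁, hP⟩ := exists_primes K (2 / ε)
  refine ⟨P₁, ?_⟩
  set T : Finset ℕ := (Finset.Icc K P₁).filter Nat.Prime with hT
  set μ : ℝ := ∑ p ∈ T, dR p with hμ
  have hμpos : 0 < μ := lt_of_lt_of_le (by positivity) hP
  have hTp : ∀ p ∈ T, p.Prime := fun p hp => (Finset.mem_filter.1 hp).2
  set C : ℝ := (T.card : ℝ) + 2 * (T.card : ℝ) ^ 2 + 2 * μ * T.card with hC
  have hev : ∀ᶠ X : ℕ in atTop, 2 * C / (ε * μ ^ 2) ≤ (X : ℝ) :=
    tendsto_natCast_atTop_atTop.eventually_ge_atTop _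
  filter_upwards [hev] with X hX
  have h1 := second_moment X T hTp
  rw [← hμ, ← hC] at h1
  set S := (Finset.Icc 1 X).filter (fun A : ℕ => ∀ p : ℕ, p.Prime → P₀ ≤ p → p ≤ P₁ →
        ¬ (p : ℤ) ∣ m → p ∣ A → p ^ 2 ∣ A) with hS
  have hsub : S ⊆ Finset.Ioc 0 X := by
    intro A hA
    have := Finset.mem_Icc.1 (Finset.mem_filter.1 hA).1
    exact Finset.mem_Ioc.2 ⟨by omega, this.2⟩
  have h2 : ∀ A ∈ S, (∑ p ∈ T, dG p A - μ) ^ 2 = μ ^ 2 := by
    intro A hA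
    have h3 : ∑ p ∈ T, dG p A = 0 := by
      apply Finset.sum_eq_zero
      intro p hp
      obtain ⟨hp1, hp2⟩ := Finset.mem_filter.1 hp
      obtain ⟨hp3, hp4⟩ := Finset.mem_Icc.1 hp1
      apply dG_zero
      apply (Finset.mem_filter.1 hA).2 p hp2 ((le_max_left _ _).trans hp3) hp4
      intro hd
      have h4 : p ∣ m.natAbs := Int.natCast_dvd.1 hd
      have h5 := Nat.le_of_dvd (Int.natAbs_pos.2 hm) h4
      have h6 : m.natAbs + 1 ≤ p := (le_max_right _ _).trans hp3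
      omega
    rw [h3]
    ring
  have h3 : (S.card : ℝ) * μ ^ 2 ≤ X * μ + C := by
    calc (S.card : ℝ) * μ ^ 2 = ∑ A ∈ S, (∑ p ∈ T, dG p A - μ) ^ 2 := by
          rw [Finset.sum_congr rfl h2, Finset.sum_const, nsmul_eq_mul]
      _ ≤ ∑ A ∈ Finset.Ioc 0 X, (∑ p ∈ T, dG p A - μ) ^ 2 :=
          Finset.sum_le_sum_of_subset_of_nonneg hsub fun _ _ _ => sq_nonneg _
      _ ≤ _ := h1
  have h4 : C ≤ ε / 2 * X * μ ^ 2 := by
    rw [div_le_iff₀ (by positivity)] at hX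
    nlinarith
  have h5 : (X : ℝ) * μ ≤ ε / 2 * X * μ ^ 2 := by
    have h6 : 1 ≤ ε / 2 * μ := by
      rw [div_le_iff₀ hε] at hP
      linarith
    have h7 : (0 : ℝ) ≤ X * μ := by positivity
    nlinarith
  have h6 : (S.card : ℝ) * μ ^ 2 ≤ (ε * X) * μ ^ 2 := by nlinarith
  exact le_of_mul_le_mul_right h6 (by positivity)

end Pool.Agent.ILL
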