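import Pool.Agent.ILL.MgA

/-!
# PMV. Lebesgue measure is one of our measures

`mv_volume` for `lin`, translation invariance for `tr`, `volume F0 = 1`.
-/

open MeasureTheory Set Filter Topology
open scoped ENNReal NNReal

namespace Pool.Agent.ILL

theorem volume_F0 : (volume : Measure Pl) F0 = 1 := by
  unfold F0
  rw [Measure.volume_eq_prod, Measure.prod_prod, Real.volume_Ico]
  simp

theorem perMeas_volume : PerMeas (volume : Measure Pl) where
  sf := inferInstance
  tr z := measurePreserving_add_right volume (ZP z)
  lin γ := mv_volume (toR γ)
  fin := by
    rw [volume_F0]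
    exact ENNReal.one_lt_top

end Pool.Agent.ILL
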