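import Pool.Agent.ILL.MgC
import Pool.Agent.ILL.Pmv

/-!
# RLM. Equidistribution of the end point (Riemann-Lebesgue)

`cell_avg`: for `g` measurable, bounded by `C`, `ℤ²`-periodic, and `h ∈ SLR`, `R > 0`:
`|∫_{[0,R]²} g(Q + mv h (x,s)) - R² ∫_{F0} g| ≤ 4 C R m(h)` where `m(h)` is a bound for the coordinates of
`mv h⁻¹ w`, `w ∈ F0`. PROOF. For every point `Q'`, `∫_{w∈F0} g(Q'+w) dw = ∫_{F0} g` (periodicity). So
`R² ∫_{F0} g = ∫_{w∈F0} ∫_{[0,R]²} g(Q + w + mv h v) dv dw`, and for fixed `w` with `w' = mv h⁻¹ w`,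
`∫_{[0,R]²} g(Q + mv h (v + w')) dv` differs from `∫_{[0,R]²} g(Q + mv h v) dv` by at most `C` times the area of
the symmetric difference of `[0,R]²` and its translate by `w'`, at most `2R(|w'.1| + |w'.2|)`.

`equidist`: for `x, s ≥ 0` and `v` real let `b = nl (s/(e^v+x)) * dg (log((e^v+x)/e^v))`; then
`mv b (e^v, 0) = (e^v + x, s)` and `b → 1` as `v → ∞`, uniformly for `x, s ∈ [0,R]`. By right invariance
`∫ ψ(h) F(h, P + mv h (e^v,0)) = ∫ ψ(hb) F(hb, P + mv h (e^v+x, s))`. Since `ψ` is continuous with compact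
support and `F` is continuous and periodic in the second variable (hence for `h` in a compact set
`F(hb, Q) - F(h, Q) → 0` uniformly in `Q` as `b → 1`), the difference with
`∫ ψ(h) F(h, P + mv h (e^v,0) + mv h (x,s))` tends to `0` uniformly in `x, s ∈ [0,R]`. Average over
`(x,s) ∈ [0,R]²` and use `cell_avg`: `limsup_v |∫ ψ(h) F(h,P+mv h(e^v,0)) - ∫ ψ(h) ∫_{F0} F(h,Q)| ≤ C'/R`.
Let `R → ∞`.
-/

open MeasureTheory Set Filter Topology
open scoped ENNReal NNReal

namespace Pool.Agent.ILL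

private theorem rlm_ii {f : ℝ → ℝ} (hf : Measurable f) {C : ℝ} (hb : ∀ r, |f r| ≤ C) (a b : ℝ) :
    IntervalIntegrable f volume a b := by
  rw [intervalIntegrable_iff]
  refine Measure.integrableOn_of_bounded (M := C) (by simp) hf.aestronglyMeasurable
    (Eventually.of_forall fun x => by rw [Real.norm_eq_abs]; exact hb x)

private theorem rlm_le {f : ℝ → ℝ} {C : ℝ} (hb : ∀ r, |f r| ≤ C) (a b : ℝ) :
    |∫ x in a..b, f x| ≤ C * |b - a| := by
  have := intervalIntegral.norm_integral_le_of_norm_le_const (a := a) (b := b) (f := f) (C := C)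
    (fun x _ => by rw [Real.norm_eq_abs]; exact hb x)
  rwa [Real.norm_eq_abs] at this

private theorem rlm_shift1 {f : ℝ → ℝ} (hf : Measurable f) {C : ℝ} (hb : ∀ r, |f r| ≤ C)
    (R a : ℝ) : |(∫ x in (0 : ℝ)..R, f (x + a)) - ∫ x in (0 : ℝ)..R, f x| ≤ 2 * C * |a| := by
  rw [intervalIntegral.integral_comp_add_right (fun x => f x) a,
    intervalIntegral.integral_interval_sub_interval_comm (rlm_ii hf hb _ _) (rlm_ii hf hb _ _)
      (rlm_ii hf hb _ _)]
  have h1 := rlm_le hb (0 + a) 0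
  have h2 := rlm_le hb (R + a) R
  have e1 : |(0 : ℝ) - (0 + a)| = |a| := by rw [zero_add, zero_sub, abs_neg]
  have e2 : |R - (R + a)| = |a| := by
    have : R - (R + a) = -a := by ring
    rw [this, abs_neg]
  rw [e1] at h1
  rw [e2] at h2
  have h3 := abs_sub (∫ x in (0 + a)..0, f x) (∫ x in (R + a)..R, f x)
  linarith

private theorem rlm_Kmeas {k : Pl → ℝ} (hk : Measurable k) {R : ℝ} (hR : 0 ≤ R) :
    Measurable fun x => ∫ s in (0 : ℝ)..R, k (x, s) := by
  simp only [intervalIntegral.integral_of_le hR]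
  exact (hk.stronglyMeasurable.integral_prod_right' (ν := volume.restrict (Ioc 0 R))).measurable

private theorem rlm_Kbd {k : Pl → ℝ} {C : ℝ} (hb : ∀ v, |k v| ≤ C) {R : ℝ} (hR : 0 ≤ R) (x : ℝ) :
    |∫ s in (0 : ℝ)..R, k (x, s)| ≤ C * R := by
  have := rlm_le (fun s => hb (x, s)) 0 R
  rwa [sub_zero, abs_of_nonneg hR] at this

private theorem rlm_shift2 {k : Pl → ℝ} (hk : Measurable k) {C : ℝ} (hb : ∀ v, |k v| ≤ C)
    {R : ℝ} (hR : 0 ≤ R) (a b : ℝ) :
    |(∫ x in (0 : ℝ)..R, ∫ s in (0 : ℝ)..R, k (x + a, s + b)) -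
      ∫ x in (0 : ℝ)..R, ∫ s in (0 : ℝ)..R, k (x, s)| ≤ 2 * C * R * (|a| + |b|) := by
  have hm1 : Measurable fun v : Pl => k (v.1 + a, v.2 + b) := by fun_prop
  have hm2 : Measurable fun v : Pl => k (v.1 + a, v.2) := by fun_prop
  have h1 : |(∫ x in (0 : ℝ)..R, ∫ s in (0 : ℝ)..R, k (x + a, s + b)) -
      ∫ x in (0 : ℝ)..R, ∫ s in (0 : ℝ)..R, k (x + a, s)| ≤ 2 * C * |b| * R := by
    have i1 := rlm_ii (rlm_Kmeas hm1 hR) (C := C * R)
      (fun x => rlm_Kbd (k := fun v : Pl => k (v.1 + a, v.2 + b)) (fun v => hb _) hR x) 0 R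
    have i2 := rlm_ii (rlm_Kmeas hm2 hR) (C := C * R)
      (fun x => rlm_Kbd (k := fun v : Pl => k (v.1 + a, v.2)) (fun v => hb _) hR x) 0 R
    rw [← intervalIntegral.integral_sub i1 i2]
    have h2 : ∀ x : ℝ, |(∫ s in (0 : ℝ)..R, k (x + a, s + b)) - ∫ s in (0 : ℝ)..R, k (x + a, s)| ≤
        2 * C * |b| := fun x =>
      rlm_shift1 (f := fun s => k (x + a, s)) (by fun_prop) (fun s => hb _) R b
    have h3 := rlm_le h2 0 R
    rwa [sub_zero, abs_of_nonneg hR] at h3
  have h2 := rlm_shift1 (f := fun x => ∫ s in (0 : ℝ)..R, k (x, s)) (rlm_Kmeas hk hR)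
    (fun x => rlm_Kbd hb hR x) R a
  have h3 := abs_sub_le (∫ x in (0 : ℝ)..R, ∫ s in (0 : ℝ)..R, k (x + a, s + b))
    (∫ x in (0 : ℝ)..R, ∫ s in (0 : ℝ)..R, k (x + a, s))
    (∫ x in (0 : ℝ)..R, ∫ s in (0 : ℝ)..R, k (x, s))
  calc _ ≤ 2 * C * |b| * R + 2 * (C * R) * |a| := h3.trans (add_le_add h1 h2)
    _ = _ := by ring

private theorem rlm_intOn {k : Pl → ℝ} (hk : Measurable k) {C : ℝ} (hb : ∀ v, |k v| ≤ C)
    {s : Set Pl} (hs : (volume : Measure Pl) s ≠ ∞) : IntegrableOn k s volume :=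
  Measure.integrableOn_of_bounded (M := C) hs hk.aestronglyMeasurable
    (Eventually.of_forall fun x => by rw [Real.norm_eq_abs]; exact hb x)

private theorem rlm_boxvol (R : ℝ) : (volume : Measure Pl) (Ioc 0 R ×ˢ Ioc 0 R) ≠ ∞ := by
  rw [Measure.volume_eq_prod, Measure.prod_prod]
  simp [Real.volume_Ioc, ENNReal.mul_eq_top]

private theorem rlm_box {k : Pl → ℝ} (hk : Measurable k) {C : ℝ} (hb : ∀ v, |k v| ≤ C)
    {R : ℝ} (hR : 0 ≤ R) : ∫ v in Ioc 0 R ×ˢ Ioc 0 R, k v =
      ∫ x in (0 : ℝ)..R, ∫ s in (0 : ℝ)..R, k (x, s) := by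
  have h1 := rlm_intOn hk hb (rlm_boxvol R)
  rw [Measure.volume_eq_prod] at h1 ⊢
  rw [setIntegral_prod _ h1, intervalIntegral.integral_of_le hR]
  congr 1
  funext x
  rw [intervalIntegral.integral_of_le hR]

private theorem rlm_F0 {k : Pl → ℝ} (hk : Measurable k) {C : ℝ} (hb : ∀ v, |k v| ≤ C) :
    ∫ v in F0, k v = ∫ x in (0 : ℝ)..1, ∫ s in (0 : ℝ)..1, k (x, s) := by
  have h1 : IntegrableOn k F0 volume := rlm_intOn hk hb (by rw [volume_F0]; exact ENNReal.one_ne_top)
  unfold F0 at h1 ⊢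
  rw [Measure.volume_eq_prod] at h1 ⊢
  rw [setIntegral_prod _ h1, intervalIntegral.integral_of_le zero_le_one,
    integral_Ico_eq_integral_Ioo, ← integral_Ioc_eq_integral_Ioo]
  congr 1
  funext x
  rw [intervalIntegral.integral_of_le zero_le_one,
    integral_Ico_eq_integral_Ioo, ← integral_Ioc_eq_integral_Ioo]

private theorem rlm_per {g : Pl → ℝ} (hg : Measurable g) {C : ℝ} (hb : ∀ Q, |g Q| ≤ C)
    (hp : ∀ Q, ∀ z : ℤ × ℤ, g (Q + ZP z) = g Q) (Q : Pl) :
    ∫ w in F0, g (Q + w) = ∫ w in F0, g w := by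
  have hm : Measurable fun w : Pl => g (Q + w) := by fun_prop
  rw [rlm_F0 hg hb, rlm_F0 (k := fun w => g (Q + w)) hm (fun w => hb _)]
  have h2 : ∀ x : ℝ, ∫ s in (0 : ℝ)..1, g (Q + (x, s)) = ∫ s in (0 : ℝ)..1, g (Q.1 + x, s) := by
    intro x
    have e1 : ∀ s : ℝ, g (Q + (x, s)) = (fun s => g (Q.1 + x, s)) (s + Q.2) := by
      intro s
      show g (Q.1 + x, Q.2 + s) = g (Q.1 + x, s + Q.2)
      rw [add_comm s]
    have e2 : Function.Periodic (fun s => g (Q.1 + x, s)) 1 := by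
      intro s
      have := hp (Q.1 + x, s) (0, 1)
      simp only [ZP, Int.cast_zero, Int.cast_one, Prod.mk_add_mk, add_zero] at this
      exact this
    simp only [e1]
    rw [intervalIntegral.integral_comp_add_right (fun s => g (Q.1 + x, s)) Q.2, zero_add, add_comm 1]
    have e3 := e2.intervalIntegral_add_eq Q.2 0
    rw [zero_add] at e3
    exact e3
  simp only [h2]
  have e4 : ∀ x : ℝ, ∫ s in (0 : ℝ)..1, g (Q.1 + x, s) =
      (fun x => ∫ s in (0 : ℝ)..1, g (x, s)) (x + Q.1) := by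
    intro x
    show _ = ∫ s in (0 : ℝ)..1, g (x + Q.1, s)
    rw [add_comm x]
  have e5 : Function.Periodic (fun x => ∫ s in (0 : ℝ)..1, g (x, s)) 1 := by
    intro x
    show ∫ s in (0 : ℝ)..1, g (x + 1, s) = ∫ s in (0 : ℝ)..1, g (x, s)
    congr 1
    funext s
    have := hp (x, s) (1, 0)
    simp only [ZP, Int.cast_zero, Int.cast_one, Prod.mk_add_mk, add_zero] at this
    exact this
  simp only [e4]
  rw [intervalIntegral.integral_comp_add_right (fun x => ∫ s in (0 : ℝ)..1, g (x, s)) Q.1, zero_add,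
    add_comm 1]
  have e6 := e5.intervalIntegral_add_eq Q.1 0
  rw [zero_add] at e6
  exact e6

theorem cell_avg {g : Pl → ℝ} (hg : Measurable g) {C : ℝ} (hb : ∀ Q, |g Q| ≤ C)
    (hp : ∀ Q, ∀ z : ℤ × ℤ, g (Q + ZP z) = g Q) (h : SLR) (Q : Pl) {m : ℝ}
    (hm : ∀ w ∈ F0, |(mv h⁻¹ w).1| ≤ m ∧ |(mv h⁻¹ w).2| ≤ m) {R : ℝ} (hR : 0 ≤ R) :
    |(∫ x in (0 : ℝ)..R, ∫ s in (0 : ℝ)..R, g (Q + mv h (x, s))) - R ^ 2 * ∫ w in F0, g w|
      ≤ 4 * C * R * m := by
  have hC : 0 ≤ C := (abs_nonneg _).trans (hb 0)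
  have hmvm : Measurable (mv h) := (continuous_mv_left h).measurable
  have hkm : Measurable fun v : Pl => g (Q + mv h v) := hg.comp (measurable_const.add hmvm)
  set B : Set Pl := Ioc 0 R ×ˢ Ioc 0 R with hB
  have hBv : (volume : Measure Pl) B ≠ ∞ := rlm_boxvol R
  have hBr : (volume : Measure Pl).real B = R ^ 2 := by
    rw [Measure.real, hB, Measure.volume_eq_prod, Measure.prod_prod, Real.volume_Ioc, sub_zero,
      ENNReal.toReal_mul, ENNReal.toReal_ofReal hR, sq]
  have hF0v : (volume : Measure Pl) F0 ≠ ∞ := by rw [volume_F0]; exact ENNReal.one_ne_top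
  have hF0r : (volume : Measure Pl).real F0 = 1 := by
    rw [Measure.real, volume_F0, ENNReal.toReal_one]
  have hfB : IsFiniteMeasure ((volume : Measure Pl).restrict B) :=
    ⟨by rw [Measure.restrict_apply_univ]; exact hBv.lt_top⟩
  have hfF : IsFiniteMeasure ((volume : Measure Pl).restrict F0) :=
    ⟨by rw [Measure.restrict_apply_univ]; exact hF0v.lt_top⟩
  rw [← rlm_box hkm (fun v => hb _) hR]
  -- the average over the cell
  have hint : Integrable (Function.uncurry fun v w : Pl => g (Q + mv h v + w))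
      ((volume.restrict B).prod (volume.restrict F0)) := by
    refine Integrable.of_bound (C := C) ?_ (Eventually.of_forall fun x => ?_)
    · have : Measurable (Function.uncurry fun v w : Pl => g (Q + mv h v + w)) := by
        apply hg.comp
        exact (measurable_const.add (hmvm.comp measurable_fst)).add measurable_snd
      exact this.aestronglyMeasurable
    · rw [Real.norm_eq_abs]; exact hb _
  have h1 : R ^ 2 * ∫ w in F0, g w = ∫ w in F0, ∫ v in B, g (Q + mv h v + w) := by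
    rw [← integral_integral_swap hint]
    have e1 : ∀ v : Pl, ∫ w in F0, g (Q + mv h v + w) = ∫ w in F0, g w := fun v =>
      rlm_per hg hb hp _
    simp only [e1]
    rw [setIntegral_const, hBr, smul_eq_mul]
  have h2 : ∫ v in B, g (Q + mv h v) = ∫ w in F0, ∫ v in B, g (Q + mv h v) := by
    rw [setIntegral_const, hF0r, one_smul]
  have i1 : Integrable (fun _ : Pl => ∫ v in B, g (Q + mv h v)) (volume.restrict F0) :=
    integrable_const _
  have i2 : Integrable (fun w : Pl => ∫ v in B, g (Q + mv h v + w)) (volume.restrict F0) :=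
    hint.integral_prod_right
  rw [h1]
  conv_lhs => rw [h2]
  rw [← integral_sub i1 i2]
  have h3 : ∀ w ∈ F0, ‖(∫ v in B, g (Q + mv h v)) - ∫ v in B, g (Q + mv h v + w)‖ ≤
      4 * C * R * m := by
    intro w hw
    have e1 : ∀ v : Pl, g (Q + mv h v + w) =
        (fun v => g (Q + mv h v)) (v.1 + (mv h⁻¹ w).1, v.2 + (mv h⁻¹ w).2) := by
      intro v
      show g (Q + mv h v + w) = g (Q + mv h (v + mv h⁻¹ w))
      rw [mv_add, mv_mv_inv, add_assoc]
    have hkm' : Measurable fun v : Pl => g (Q + mv h v + w) := hg.comp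
      ((measurable_const.add hmvm).add_const w)
    rw [rlm_box hkm (fun v => hb _) hR, rlm_box hkm' (fun v => hb _) hR]
    simp only [e1]
    rw [norm_sub_rev, Real.norm_eq_abs]
    have e2 := rlm_shift2 hkm (fun v => hb _) hR (mv h⁻¹ w).1 (mv h⁻¹ w).2
    obtain ⟨m1, m2⟩ := hm w hw
    calc _ ≤ 2 * C * R * (|(mv h⁻¹ w).1| + |(mv h⁻¹ w).2|) := e2
      _ ≤ 2 * C * R * (m + m) := by gcongr
      _ = 4 * C * R * m := by ring
  have h4 := norm_setIntegral_le_of_norm_le_const hF0v.lt_top h3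
  rwa [hF0r, mul_one, Real.norm_eq_abs] at h4

private theorem rlm_cont_nl : Continuous nl := by
  refine Continuous.subtype_mk ?_ _
  refine continuous_matrix fun i j => ?_
  fin_cases i <;> fin_cases j <;> simp [continuous_const, continuous_id']

private theorem rlm_cont_dg : Continuous dg := by
  refine Continuous.subtype_mk ?_ _
  refine continuous_matrix fun i j => ?_
  fin_cases i <;> fin_cases j
  · simpa using Real.continuous_exp
  · simpa using (continuous_const : Continuous fun _ : ℝ => (0 : ℝ))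
  · simpa using (continuous_const : Continuous fun _ : ℝ => (0 : ℝ))
  · simpa [Function.comp_def] using Real.continuous_exp.comp continuous_neg

/-- the matrix moving `(e^v, 0)` to `(e^v + x, s)` -/
private noncomputable def rlmb (v x s : ℝ) : SLR :=
  nl (s / (Real.exp v + x)) * dg (Real.log ((Real.exp v + x) / Real.exp v))

private theorem rlmb_mv (v : ℝ) {x : ℝ} (hx : 0 ≤ x) (s : ℝ) :
    mv (rlmb v x s) (Real.exp v, 0) = (Real.exp v + x, s) := by
  have h1 : 0 < Real.exp v := Real.exp_pos v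
  have h2 : 0 < Real.exp v + x := by linarith
  have e1 : Real.exp (Real.log ((Real.exp v + x) / Real.exp v)) = (Real.exp v + x) / Real.exp v :=
    Real.exp_log (by positivity)
  unfold rlmb
  rw [mv_mul]
  ext
  · simp [mv, nl, dg, e1]
  · simp only [mv, nl, dg, Matrix.of_apply, Matrix.cons_val', Matrix.cons_val_zero,
      Matrix.cons_val_one, Matrix.cons_val_fin_one, e1, mul_zero, add_zero, zero_mul]
    field_simp

private theorem rlmb_near {U : Set SLR} (hU : U ∈ 𝓝 (1 : SLR)) {R : ℝ} (hR : 0 ≤ R) :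
    ∀ᶠ v : ℝ in atTop, ∀ x ∈ Ioc 0 R, ∀ s ∈ Ioc 0 R, rlmb v x s ∈ U := by
  have hc : Continuous fun p : ℝ × ℝ => nl p.1 * dg p.2 :=
    (rlm_cont_nl.comp continuous_fst).mul (rlm_cont_dg.comp continuous_snd)
  have h1 : nl 0 * dg 0 = 1 := by
    ext i j
    fin_cases i <;> fin_cases j <;> simp [nl, dg, Matrix.mul_apply, Fin.sum_univ_two]
  have h2 : {p : ℝ × ℝ | nl p.1 * dg p.2 ∈ U} ∈ 𝓝 ((0, 0) : ℝ × ℝ) := by
    apply hc.continuousAt
    show U ∈ 𝓝 (nl 0 * dg 0)
    rw [h1]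
    exact hU
  obtain ⟨δ, hδ, hball⟩ := Metric.mem_nhds_iff.1 h2
  have h3 : Tendsto (fun v : ℝ => R * Real.exp (-v)) atTop (𝓝 0) := by
    have := (Real.tendsto_exp_neg_atTop_nhds_zero).const_mul R
    rwa [mul_zero] at this
  filter_upwards [h3.eventually (gt_mem_nhds hδ)] with v hv x hx s hs
  have hev : 0 < Real.exp v := Real.exp_pos v
  have hx0 : 0 < x := hx.1
  have hs0 : 0 < s := hs.1
  have hinv : Real.exp (-v) = (Real.exp v)⁻¹ := Real.exp_neg v
  have e1 : s / (Real.exp v + x) ≤ R * Real.exp (-v) := by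
    rw [hinv, ← div_eq_mul_inv]
    exact div_le_div₀ hR hs.2 hev (by linarith)
  have e2 : Real.log ((Real.exp v + x) / Real.exp v) ≤ R * Real.exp (-v) := by
    have e3 := Real.log_le_sub_one_of_pos (show 0 < (Real.exp v + x) / Real.exp v by positivity)
    have e4 : (Real.exp v + x) / Real.exp v - 1 = x * Real.exp (-v) := by
      rw [hinv]; field_simp; ring
    rw [e4] at e3
    exact e3.trans (mul_le_mul_of_nonneg_right hx.2 (Real.exp_pos _).le)
  have e3 : 0 ≤ Real.log ((Real.exp v + x) / Real.exp v) := by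
    apply Real.log_nonneg
    rw [le_div_iff₀ hev]
    linarith
  have e4 : 0 ≤ s / (Real.exp v + x) := by positivity
  have h4 : (s / (Real.exp v + x), Real.log ((Real.exp v + x) / Real.exp v)) ∈
      Metric.ball ((0, 0) : ℝ × ℝ) δ := by
    rw [Metric.mem_ball, Prod.dist_eq]
    simp only [Real.dist_eq, sub_zero, abs_of_nonneg e3, abs_of_nonneg e4]
    exact max_lt (by linarith) (by linarith)
  exact hball h4

open scoped Pointwise in
private theorem rlm_unif {F : SLR × Pl → ℝ} (hF : Continuous F)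
    (hp : ∀ (h : SLR) (Q : Pl) (z : ℤ × ℤ), F (h, Q + ZP z) = F (h, Q)) {ψ : SLR → ℝ}
    (hψ : Continuous ψ) (hc : HasCompactSupport ψ) :
    ∃ K : Set SLR, IsCompact K ∧ ∀ ε > 0, ∃ U ∈ 𝓝 (1 : SLR), ∀ b ∈ U, ∀ (h : SLR) (Q : Pl),
      |ψ (h * b) * F (h * b, Q) - ψ h * F (h, Q)| ≤ K.indicator (fun _ => ε) h := by
  obtain ⟨V, hVc, hV1⟩ := exists_compact_mem_nhds (1 : SLR)
  have hK : IsCompact (tsupport ψ * V⁻¹) := hc.isCompact.mul hVc.inv
  refine ⟨tsupport ψ * V⁻¹, hK, fun ε hε => ?_⟩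
  have hD : Continuous fun p : SLR × (SLR × Pl) =>
      ψ (p.2.1 * p.1) * F (p.2.1 * p.1, p.2.2) - ψ p.2.1 * F (p.2.1, p.2.2) := by
    have c1 : Continuous fun p : SLR × (SLR × Pl) => p.2.1 * p.1 :=
      (continuous_fst.comp continuous_snd).mul continuous_fst
    have c2 : Continuous fun p : SLR × (SLR × Pl) => p.2.2 := continuous_snd.comp continuous_snd
    have c3 : Continuous fun p : SLR × (SLR × Pl) => p.2.1 := continuous_fst.comp continuous_snd
    exact ((hψ.comp c1).mul (hF.comp (c1.prodMk c2))).sub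
      ((hψ.comp c3).mul (hF.comp (c3.prodMk c2)))
  have hopen : IsOpen {p : SLR × (SLR × Pl) |
      |ψ (p.2.1 * p.1) * F (p.2.1 * p.1, p.2.2) - ψ p.2.1 * F (p.2.1, p.2.2)| < ε} :=
    isOpen_lt (continuous_abs.comp hD) continuous_const
  have ht : IsCompact ((tsupport ψ * V⁻¹) ×ˢ ((Icc (0 : ℝ) 1) ×ˢ (Icc (0 : ℝ) 1))) :=
    hK.prod (isCompact_Icc.prod isCompact_Icc)
  obtain ⟨u, w, hu, -, h1u, htw, huw⟩ := generalized_tube_lemma (isCompact_singleton (x := (1 : SLR)))
    ht hopen (by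
      rintro ⟨b, h, Q⟩ ⟨hb, -⟩
      have hb1 : b = 1 := hb
      subst hb1
      simp only [mem_ofPred_eq, mul_one, sub_self, abs_zero]
      exact hε)
  refine ⟨u ∩ V, inter_mem (hu.mem_nhds (h1u rfl)) hV1, fun b hb h Q => ?_⟩
  by_cases hh : h ∈ tsupport ψ * V⁻¹
  · rw [indicator_of_mem hh]
    have hQ0 : (Int.fract Q.1, Int.fract Q.2) ∈ (Icc (0 : ℝ) 1) ×ˢ (Icc (0 : ℝ) 1) :=
      ⟨⟨Int.fract_nonneg _, (Int.fract_lt_one _).le⟩, ⟨Int.fract_nonneg _, (Int.fract_lt_one _).le⟩⟩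
    have h1 : (b, (h, (Int.fract Q.1, Int.fract Q.2))) ∈ u ×ˢ w := ⟨hb.1, htw ⟨hh, hQ0⟩⟩
    have h2 := huw h1
    have hQ : Q = (Int.fract Q.1, Int.fract Q.2) + ZP (⌊Q.1⌋, ⌊Q.2⌋) := by
      ext
      · exact (Int.fract_add_floor Q.1).symm
      · exact (Int.fract_add_floor Q.2).symm
    have h3 : ∀ k : SLR, F (k, Q) = F (k, (Int.fract Q.1, Int.fract Q.2)) := by
      intro k
      conv_lhs => rw [hQ]
      exact hp k _ _
    rw [h3, h3]
    exact (le_of_lt h2)
  · rw [indicator_of_notMem hh]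
    have e1 : ψ h = 0 := by
      by_contra h0
      apply hh
      refine ⟨h, subset_tsupport _ h0, 1, ?_, mul_one h⟩
      rw [Set.mem_inv, inv_one]
      exact mem_of_mem_nhds hV1
    have e2 : ψ (h * b) = 0 := by
      by_contra h0
      apply hh
      refine ⟨h * b, subset_tsupport _ h0, b⁻¹, ?_, mul_inv_cancel_right h b⟩
      rw [Set.mem_inv, inv_inv]
      exact hb.2
    rw [e1, e2]
    simp

theorem equidist {F : SLR × Pl → ℝ} (hF : Continuous F) {C : ℝ} (hb : ∀ p, |F p| ≤ C)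
    (hp : ∀ (h : SLR) (Q : Pl) (z : ℤ × ℤ), F (h, Q + ZP z) = F (h, Q)) {ψ : SLR → ℝ} (hψ : Continuous ψ)
    (hc : HasCompactSupport ψ) (P : Pl) :
    Tendsto (fun v : ℝ => ∫ h, ψ h * F (h, P + mv h (Real.exp v, 0)) ∂muG) atTop
      (𝓝 (∫ h, ψ h * (∫ Q in F0, F (h, Q)) ∂muG)) := by
  have hC : 0 ≤ C := (abs_nonneg _).trans (hb (1, 0))
  have hψi : Integrable ψ muG := hψ.integrable_of_hasCompactSupport hc
  obtain ⟨K, hK, hunif⟩ := rlm_unif hF hp hψ hc
  set M : ℝ := muG.real K with hM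
  have hM0 : 0 ≤ M := measureReal_nonneg
  set A : ℝ := ∫ h, |ψ h| ∂muG with hA
  have hA0 : 0 ≤ A := integral_nonneg fun h => abs_nonneg _
  -- the bound for the inverse matrices
  obtain ⟨m, hm0, hm⟩ : ∃ m : ℝ, 0 ≤ m ∧ ∀ h ∈ tsupport ψ, ∀ w ∈ F0,
      |(mv h⁻¹ w).1| ≤ m ∧ |(mv h⁻¹ w).2| ≤ m := by
    have hcomp : IsCompact (tsupport ψ ×ˢ ((Icc (0 : ℝ) 1) ×ˢ (Icc (0 : ℝ) 1))) :=
      hc.isCompact.prod (isCompact_Icc.prod isCompact_Icc)
    have hcont : Continuous fun p : SLR × Pl => mv p.1⁻¹ p.2 :=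
      continuous_mv.comp (continuous_fst.inv.prodMk continuous_snd)
    obtain ⟨m, hm⟩ := hcomp.exists_bound_of_continuousOn hcont.continuousOn
    refine ⟨max m 0, le_max_right _ _, fun h hh w hw => ?_⟩
    have h1 := hm (h, w) ⟨hh, ⟨hw.1.1, hw.1.2.le⟩, ⟨hw.2.1, hw.2.2.le⟩⟩
    have h2 := norm_fst_le (mv h⁻¹ w)
    have h3 := norm_snd_le (mv h⁻¹ w)
    rw [Real.norm_eq_abs] at h2 h3
    exact ⟨(h2.trans h1).trans (le_max_left _ _), (h3.trans h1).trans (le_max_left _ _)⟩
  rw [Metric.tendsto_nhds]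
  intro ε' hε'
  set R : ℝ := 4 * C * m * A / (ε' / 2) + 1 with hR
  have hR0 : 0 < R := by positivity
  have hRle : 4 * C * m * A ≤ (ε' / 2) * R := by
    rw [hR, mul_add, mul_div_cancel₀ _ (by positivity)]
    linarith
  set ε : ℝ := ε' / (4 * (M + 1)) with hε
  have hε0 : 0 < ε := by positivity
  have hεM : ε * M < ε' / 2 := by
    rw [hε, div_mul_eq_mul_div, div_lt_div_iff₀ (by positivity) (by norm_num)]
    nlinarith
  obtain ⟨U, hU, hUb⟩ := hunif ε hε0
  filter_upwards [rlmb_near hU hR0.le] with v hv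
  rw [Real.dist_eq]
  set Φ : ℝ := ∫ h, ψ h * F (h, P + mv h (Real.exp v, 0)) ∂muG with hΦ
  set L : ℝ := ∫ h, ψ h * (∫ Q in F0, F (h, Q)) ∂muG with hL
  have hGc : ∀ y : Pl, Continuous fun h : SLR => ψ h * F (h, P + mv h y) := by
    intro y
    have c1 : Continuous fun h : SLR => mv h y :=
      continuous_mv.comp (continuous_id.prodMk continuous_const)
    exact hψ.mul (hF.comp (continuous_id.prodMk (continuous_const.add c1)))
  have hGi : ∀ y : Pl, Integrable (fun h : SLR => ψ h * F (h, P + mv h y)) muG := fun y =>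
    (hGc y).integrable_of_hasCompactSupport hc.mul_right
  -- step A
  have hA1 : ∀ y ∈ Ioc 0 R ×ˢ Ioc 0 R, ‖Φ - ∫ h, ψ h * F (h, P + mv h (Real.exp v + y.1, y.2)) ∂muG‖ ≤
      ε * M := by
    rintro ⟨x, s⟩ ⟨hx, hs⟩
    have e1 : Φ = ∫ h, ψ (h * rlmb v x s) * F (h * rlmb v x s, P + mv h (Real.exp v + x, s)) ∂muG := by
      rw [hΦ, ← integral_mul_right_eq_self (fun h => ψ h * F (h, P + mv h (Real.exp v, 0)))
        (rlmb v x s)]
      congr 1
      funext h
      rw [mv_mul, rlmb_mv v hx.1.le]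
    have i1 : Integrable (fun h => ψ (h * rlmb v x s) *
        F (h * rlmb v x s, P + mv h (Real.exp v + x, s))) muG := by
      have := (hGi (Real.exp v, 0)).comp_mul_right (rlmb v x s)
      refine this.congr (Eventually.of_forall fun h => ?_)
      show ψ (h * rlmb v x s) * F (h * rlmb v x s, P + mv (h * rlmb v x s) (Real.exp v, 0)) = _
      rw [mv_mul, rlmb_mv v hx.1.le]
    rw [e1, ← integral_sub i1 (hGi (Real.exp v + x, s))]
    have i2 : Integrable (K.indicator fun _ : SLR => ε) muG := by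
      rw [integrable_indicator_iff hK.measurableSet]
      exact integrableOn_const hK.measure_lt_top.ne (by simp)
    refine (norm_integral_le_of_norm_le i2 (Eventually.of_forall fun h => ?_)).trans ?_
    · rw [Real.norm_eq_abs]
      exact hUb _ (hv x hx s hs) h _
    · rw [integral_indicator_const _ hK.measurableSet, smul_eq_mul, ← hM, mul_comm]
  -- the box
  set B : Set Pl := Ioc 0 R ×ˢ Ioc 0 R with hB
  have hBv : (volume : Measure Pl) B ≠ ∞ := rlm_boxvol R
  have hBr : (volume : Measure Pl).real B = R ^ 2 := by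
    rw [Measure.real, hB, Measure.volume_eq_prod, Measure.prod_prod, Real.volume_Ioc, sub_zero,
      ENNReal.toReal_mul, ENNReal.toReal_ofReal hR0.le, sq]
  have hfB : IsFiniteMeasure ((volume : Measure Pl).restrict B) :=
    ⟨by rw [Measure.restrict_apply_univ]; exact hBv.lt_top⟩
  -- Fubini
  have hjc : Continuous fun p : Pl × SLR => ψ p.2 * F (p.2, P + mv p.2 (Real.exp v + p.1.1, p.1.2)) := by
    have c1 : Continuous fun p : Pl × SLR => mv p.2 (Real.exp v + p.1.1, p.1.2) :=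
      continuous_mv.comp (continuous_snd.prodMk
        ((continuous_const.add (continuous_fst.comp continuous_fst)).prodMk
          (continuous_snd.comp continuous_fst)))
    exact (hψ.comp continuous_snd).mul (hF.comp (continuous_snd.prodMk (continuous_const.add c1)))
  have hint : Integrable (Function.uncurry fun (y : Pl) (h : SLR) =>
      ψ h * F (h, P + mv h (Real.exp v + y.1, y.2))) ((volume.restrict B).prod muG) := by
    have i1 : Integrable (fun p : Pl × SLR => (C : ℝ) * |ψ p.2|) ((volume.restrict B).prod muG) :=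
      (integrable_const C).mul_prod hψi.abs
    refine i1.mono' hjc.measurable.aestronglyMeasurable (Eventually.of_forall fun p => ?_)
    rw [Real.norm_eq_abs]
    show |ψ p.2 * F (p.2, P + mv p.2 (Real.exp v + p.1.1, p.1.2))| ≤ _
    rw [abs_mul, mul_comm]
    exact mul_le_mul_of_nonneg_right (hb _) (abs_nonneg _)
  have hB1 : |R ^ 2 * Φ - ∫ y in B, ∫ h, ψ h * F (h, P + mv h (Real.exp v + y.1, y.2)) ∂muG| ≤
      ε * M * R ^ 2 := by
    have e1 : R ^ 2 * Φ = ∫ y in B, Φ := by rw [setIntegral_const, hBr, smul_eq_mul]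
    have i1 : Integrable (fun _ : Pl => Φ) (volume.restrict B) := integrable_const _
    have i2 : Integrable (fun y : Pl => ∫ h, ψ h * F (h, P + mv h (Real.exp v + y.1, y.2)) ∂muG)
        (volume.restrict B) := hint.integral_prod_left
    rw [e1, ← integral_sub i1 i2]
    have := norm_setIntegral_le_of_norm_le_const hBv.lt_top hA1
    rwa [hBr, Real.norm_eq_abs] at this
  rw [integral_integral_swap hint] at hB1
  -- step C
  have hCc : |(∫ h, (∫ y in B, ψ h * F (h, P + mv h (Real.exp v + y.1, y.2))) ∂muG) - R ^ 2 * L| ≤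
      4 * C * R * m * A := by
    have i1 : Integrable (fun h => ∫ y in B, ψ h * F (h, P + mv h (Real.exp v + y.1, y.2))) muG :=
      hint.integral_prod_right
    have hm1 : Measurable fun h : SLR => ∫ Q in F0, F (h, Q) :=
      (hF.measurable.stronglyMeasurable.integral_prod_right' (ν := volume.restrict F0)).measurable
    have hb1 : ∀ h : SLR, ‖∫ Q in F0, F (h, Q)‖ ≤ C := by
      intro h
      have hv : (volume : Measure Pl) F0 < ∞ := by rw [volume_F0]; exact ENNReal.one_lt_top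
      have := norm_setIntegral_le_of_norm_le_const (f := fun Q => F (h, Q)) hv
        (fun Q _ => by rw [Real.norm_eq_abs]; exact hb (h, Q))
      rwa [Measure.real, volume_F0, ENNReal.toReal_one, mul_one] at this
    have i2 : Integrable (fun h => ψ h * ∫ Q in F0, F (h, Q)) muG := by
      have := hψi.bdd_mul (c := C) hm1.aestronglyMeasurable (Eventually.of_forall hb1)
      refine this.congr (Eventually.of_forall fun h => ?_)
      exact mul_comm _ _
    have e1 : R ^ 2 * L = ∫ h, R ^ 2 * (ψ h * ∫ Q in F0, F (h, Q)) ∂muG := by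
      rw [integral_const_mul]
    rw [e1, ← integral_sub i1 (i2.const_mul _)]
    have e2 : 4 * C * R * m * A = ∫ h, 4 * C * R * m * |ψ h| ∂muG := by
      rw [integral_const_mul]
    rw [e2, ← Real.norm_eq_abs]
    refine norm_integral_le_of_norm_le (hψi.abs.const_mul _) (Eventually.of_forall fun h => ?_)
    rw [Real.norm_eq_abs]
    by_cases hh : h ∈ tsupport ψ
    · have e3 : ∀ y : Pl, ψ h * F (h, P + mv h (Real.exp v + y.1, y.2)) =
          ψ h * (fun y : Pl => F (h, (P + mv h (Real.exp v, 0)) + mv h y)) y := by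
        intro y
        show _ = ψ h * F (h, (P + mv h (Real.exp v, 0)) + mv h y)
        rw [add_assoc, ← mv_add]
        have : ((Real.exp v, 0) : Pl) + y = (Real.exp v + y.1, y.2) := by
          ext <;> simp
        rw [this]
      simp only [e3]
      have hFm : Measurable fun Q : Pl => F (h, Q) := hF.measurable.comp measurable_prodMk_left
      have hkm : Measurable fun y : Pl => F (h, (P + mv h (Real.exp v, 0)) + mv h y) :=
        hFm.comp (measurable_const.add (continuous_mv_left h).measurable)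
      rw [integral_const_mul, rlm_box hkm (fun _ => hb _) hR0.le]
      have e4 := cell_avg (g := fun Q => F (h, Q)) hFm (fun Q => hb _) (fun Q z => hp h Q z) h
        (P + mv h (Real.exp v, 0)) (hm h hh) hR0.le
      have e5 : ψ h * (∫ x in (0 : ℝ)..R, ∫ s in (0 : ℝ)..R,
            F (h, (P + mv h (Real.exp v, 0)) + mv h (x, s))) -
          R ^ 2 * (ψ h * ∫ Q in F0, F (h, Q)) = ψ h * ((∫ x in (0 : ℝ)..R, ∫ s in (0 : ℝ)..R,
            F (h, (P + mv h (Real.exp v, 0)) + mv h (x, s))) - R ^ 2 * ∫ Q in F0, F (h, Q)) := by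
        ring
      rw [e5, abs_mul, mul_comm]
      exact mul_le_mul_of_nonneg_right e4 (abs_nonneg _)
    · have e3 : ψ h = 0 := image_eq_zero_of_notMem_tsupport hh
      rw [e3]
      simp
  have hfin : R ^ 2 * |Φ - L| ≤ ε * M * R ^ 2 + 4 * C * R * m * A := by
    have e1 : R ^ 2 * |Φ - L| = |R ^ 2 * Φ - R ^ 2 * L| := by
      rw [← mul_sub, abs_mul, abs_of_pos (show (0 : ℝ) < R ^ 2 by positivity)]
    rw [e1]
    refine (abs_sub_le _ (∫ h, (∫ y in B, ψ h * F (h, P + mv h (Real.exp v + y.1, y.2))) ∂muG) _).trans ?_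
    exact add_le_add hB1 hCc
  have h5 : R ^ 2 * |Φ - L| < R ^ 2 * ε' := by
    have e1 : 4 * C * R * m * A ≤ (ε' / 2) * R ^ 2 := by
      calc 4 * C * R * m * A = (4 * C * m * A) * R := by ring
        _ ≤ ((ε' / 2) * R) * R := mul_le_mul_of_nonneg_right hRle hR0.le
        _ = _ := by ring
    have e2 : ε * M * R ^ 2 < (ε' / 2) * R ^ 2 := mul_lt_mul_of_pos_right hεM (by positivity)
    calc R ^ 2 * |Φ - L| ≤ ε * M * R ^ 2 + 4 * C * R * m * A := hfin
      _ < (ε' / 2) * R ^ 2 + (ε' / 2) * R ^ 2 := add_lt_add_of_lt_of_le e2 e1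
      _ = R ^ 2 * ε' := by ring
  exact lt_of_mul_lt_mul_left h5 (by positivity)

end Pool.Agent.ILL
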