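import Pool.Agent.ILL.God
import Pool.Agent.ILL.Rlm

/-!
# GDM. The end point is in the good set with large probability

Let `V_n = interior (GG Λ n)`, open and periodic. By `genQ_ae` and `GG_nhds`, for every `h` and almost every
`Q`: `(h,Q) ∈ V_n` for all large `n`. By dominated convergence
`∫ ψ(h) vol{Q ∈ F0 : (h,Q) ∉ V_n} dμ → 0`; fix `n` with value `≤ ε/4`. Let
`g_k(h,Q) = min 1 (k · infDist ((h,Q), V_nᶜ))`, the distance taken in `(Fin 2 → Fin 2 → ℝ) × ℝ × ℝ` (the
closed embedding of `SLR × Pl`), so `g_k` is continuous, periodic (the complement is periodic; the metric is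
translation invariant), `0 ≤ g_k ≤ 1_{V_n}` and `g_k ↑ 1_{V_n}` pointwise (if `V_nᶜ` is empty take `g = 1`).
Choose `k` with `∫ ψ(h) ∫_{F0} (1 - g_k) ≤ ε/2`. By `equidist`, for `v` large (depending on `P`)
`∫ ψ(h) (1 - g_k(h, P + mv h (e^v,0))) ≤ ε`, and `1_{V_nᶜ} ≤ 1 - g_k`.
-/

open MeasureTheory Set Filter Topology
open scoped ENNReal NNReal

namespace Pool.Agent.ILL

/-- the ambient metric space -/
private abbrev gdmZ := (Fin 2 → Fin 2 → ℝ) × Pl

/-- the embedding -/
private def gdmE (p : SLR × Pl) : gdmZ := (fun i j => p.1 i j, p.2)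

private theorem gdm_ind : IsInducing gdmE := by
  have h1 : IsInducing (fun h : SLR => (fun i j => h i j : Fin 2 → Fin 2 → ℝ)) :=
    Matrix.SpecialLinearGroup.isClosedEmbedding_val.isInducing
  exact h1.prodMap IsInducing.id

/-- the smooth cut-off of the closed set `E` -/
private noncomputable def gdmX (E : Set (SLR × Pl)) (k : ℕ) (p : SLR × Pl) : ℝ :=
  (thickenedIndicator (δ := 1 / ((k : ℝ) + 1)) Nat.one_div_pos_of_nat (gdmE '' E) (gdmE p) : ℝ≥0)

private theorem gdmX_cont (E : Set (SLR × Pl)) (k : ℕ) : Continuous (gdmX E k) := by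
  unfold gdmX
  exact NNReal.continuous_coe.comp ((thickenedIndicator _ _).continuous.comp gdm_ind.continuous)

private theorem gdmX_nonneg (E : Set (SLR × Pl)) (k : ℕ) (p) : 0 ≤ gdmX E k p :=
  NNReal.coe_nonneg _

private theorem gdmX_le_one (E : Set (SLR × Pl)) (k : ℕ) (p) : gdmX E k p ≤ 1 := by
  unfold gdmX
  exact_mod_cast thickenedIndicator_le_one _ _ _

private theorem gdmX_one (E : Set (SLR × Pl)) (k : ℕ) {p} (hp : p ∈ E) : gdmX E k p = 1 := by
  unfold gdmX
  rw [thickenedIndicator_one _ _ (mem_image_of_mem _ hp)]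
  rfl

open Classical in
private theorem gdmX_tendsto {E : Set (SLR × Pl)} (hE : IsClosed E) (p) :
    Tendsto (fun k => gdmX E k p) atTop (𝓝 (E.indicator (fun _ => (1 : ℝ)) p)) := by
  have h1 := thickenedIndicator_tendsto_indicator_closure
    (δseq := fun k : ℕ => 1 / ((k : ℝ) + 1)) (fun k => Nat.one_div_pos_of_nat)
    tendsto_one_div_add_atTop_nhds_zero_nat (gdmE '' E)
  rw [tendsto_pi_nhds] at h1
  have h2 := (NNReal.continuous_coe.tendsto _).comp (h1 (gdmE p))
  have h3 : (((closure (gdmE '' E)).indicator (fun _ => (1 : ℝ≥0)) (gdmE p) : ℝ≥0) : ℝ) =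
      E.indicator (fun _ => (1 : ℝ)) p := by
    have h4 : gdmE p ∈ closure (gdmE '' E) ↔ p ∈ E := by
      have h5 := gdm_ind.closure_eq_preimage_closure_image E
      rw [hE.closure_eq] at h5
      conv_rhs => rw [h5]
      rfl
    by_cases h6 : p ∈ E
    · rw [indicator_of_mem (h4.2 h6), indicator_of_mem h6]; rfl
    · rw [indicator_of_notMem (fun h => h6 (h4.1 h)), indicator_of_notMem h6]; rfl
  rw [← h3]
  exact h2

private theorem gdmX_periodic {E : Set (SLR × Pl)}
    (hE : ∀ (h : SLR) (Q : Pl) (z : ℤ × ℤ), (h, Q + ZP z) ∈ E ↔ (h, Q) ∈ E) (k : ℕ)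
    (h : SLR) (Q : Pl) (z : ℤ × ℤ) : gdmX E k (h, Q + ZP z) = gdmX E k (h, Q) := by
  have hz : ZP (-z) = -ZP z := by ext <;> simp [ZP]
  have h1 : ∀ w : Pl, Isometry (fun q : gdmZ => q + (0, w)) := fun w => isometry_add_right _
  have h2 : (fun q : gdmZ => q + (0, ZP z)) '' (gdmE '' E) = gdmE '' E := by
    ext q
    constructor
    · rintro ⟨_, ⟨p, hp, rfl⟩, rfl⟩
      refine ⟨(p.1, p.2 + ZP z), (hE _ _ _).2 hp, ?_⟩
      simp [gdmE]
    · rintro ⟨p, hp, rfl⟩
      refine ⟨gdmE (p.1, p.2 + ZP (-z)), ⟨_, (hE _ _ _).2 hp, rfl⟩, ?_⟩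
      simp [gdmE, hz]
  have h3 : gdmE (h, Q + ZP z) = gdmE (h, Q) + (0, ZP z) := by simp [gdmE]
  have h4 : Metric.infEDist (gdmE (h, Q + ZP z)) (gdmE '' E) =
      Metric.infEDist (gdmE (h, Q)) (gdmE '' E) := by
    rw [h3]
    conv_lhs => rw [← h2]
    exact Metric.infEDist_image (h1 (ZP z))
  unfold gdmX
  rw [thickenedIndicator_apply, thickenedIndicator_apply, thickenedIndicatorAux,
    thickenedIndicatorAux, h4]

theorem good_measure (Λ : Type) [Fintype Λ] [DecidableEq Λ] {ψ : SLR → ℝ} (hψ : Continuous ψ)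
    (hc : HasCompactSupport ψ) (h0 : ∀ h, 0 ≤ ψ h) (h1 : ∀ h, ψ h ≤ 1) {ε : ℝ} (hε : 0 < ε) :
    ∃ n : ℕ, ∀ P : Pl, ∀ᶠ v : ℝ in atTop,
      ∫⁻ h in {h | (h, P + mv h (Real.exp v, 0)) ∉ interior (GG Λ n)}, ENNReal.ofReal (ψ h) ∂muG
        ≤ ENNReal.ofReal ε := by
  classical
  set E : ℕ → Set (SLR × Pl) := fun n => (interior (GG Λ n))ᶜ with hEdef
  have hEc : ∀ n, IsClosed (E n) := fun n => isOpen_interior.isClosed_compl
  have hEp : ∀ n (h : SLR) (Q : Pl) (z : ℤ × ℤ), (h, Q + ZP z) ∈ E n ↔ (h, Q) ∈ E n := by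
    intro n h Q z
    simp only [hEdef, mem_compl_iff, GG_periodic n h Q z]
  haveI hfin : IsFiniteMeasure ((volume : Measure Pl).restrict F0) :=
    ⟨by rw [Measure.restrict_apply_univ, volume_F0]; exact ENNReal.one_lt_top⟩
  set ν : Measure (SLR × Pl) := muG.prod ((volume : Measure Pl).restrict F0) with hν
  have hψi : Integrable ψ muG := hψ.integrable_of_hasCompactSupport hc
  have hψν : Integrable (fun p : SLR × Pl => ψ p.1) ν := hψi.comp_fst _
  -- almost every point is eventually good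
  have hae : ∀ᵐ p ∂ν, ∀ᶠ n in atTop, p ∉ E n := by
    have hm : MeasurableSet {p : SLR × Pl | ¬ ∀ᶠ n in atTop, p ∉ E n} := by
      have h2 : {p : SLR × Pl | ¬ ∀ᶠ n in atTop, p ∉ E n} =
          (⋃ N : ℕ, ⋂ n : ℕ, ⋂ _ : N ≤ n, (E n)ᶜ)ᶜ := by
        ext p
        simp only [eventually_atTop, mem_compl_iff, mem_iUnion, mem_iInter, mem_ofPred_eq]
      rw [h2]
      exact (MeasurableSet.iUnion fun N => MeasurableSet.iInter fun n =>
        MeasurableSet.iInter fun _ => (hEc n).measurableSet.compl).compl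
    rw [ae_iff, hν, Measure.measure_prod_null hm]
    refine Eventually.of_forall fun h => ?_
    have h3 : ∀ᵐ Q ∂(volume : Measure Pl), ∀ᶠ n in atTop, (h, Q) ∉ E n := by
      filter_upwards [genQ_ae h] with Q hQ
      filter_upwards [GG_nhds (Λ := Λ) hQ] with n hn
      simpa [hEdef] using hn
    have h4 := ae_restrict_of_ae (s := F0) h3
    rw [ae_iff] at h4
    exact h4
  -- first limit
  have lim1 : Tendsto (fun n => ∫ p, ψ p.1 * (E n).indicator (fun _ => (1 : ℝ)) p ∂ν) atTop
      (𝓝 0) := by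
    have h5 : Tendsto (fun n => ∫ p, ψ p.1 * (E n).indicator (fun _ => (1 : ℝ)) p ∂ν) atTop
        (𝓝 (∫ _ : SLR × Pl, (0 : ℝ) ∂ν)) := by
      refine tendsto_integral_of_dominated_convergence (fun p => ψ p.1) ?_ hψν ?_ ?_
      · intro n
        exact ((hψ.comp continuous_fst).measurable.mul
          (measurable_const.indicator (hEc n).measurableSet)).aestronglyMeasurable
      · intro n
        refine Eventually.of_forall fun p => ?_
        rw [Real.norm_eq_abs, abs_mul, abs_of_nonneg (h0 _)]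
        refine mul_le_of_le_one_right (h0 _) ?_
        by_cases h6 : p ∈ E n
        · simp [h6]
        · simp [h6]
      · filter_upwards [hae] with p hp
        refine tendsto_const_nhds.congr' ?_
        filter_upwards [hp] with n hn
        rw [indicator_of_notMem hn, mul_zero]
    simpa using h5
  obtain ⟨n, hn⟩ := (lim1.eventually (Iio_mem_nhds hε)).exists
  have lim2 : Tendsto (fun k => ∫ p, ψ p.1 * gdmX (E n) k p ∂ν) atTop
      (𝓝 (∫ p, ψ p.1 * (E n).indicator (fun _ => (1 : ℝ)) p ∂ν)) := by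
    refine tendsto_integral_of_dominated_convergence (fun p => ψ p.1) ?_ hψν ?_ ?_
    · intro k
      exact ((hψ.comp continuous_fst).mul (gdmX_cont (E n) k)).measurable.aestronglyMeasurable
    · intro k
      refine Eventually.of_forall fun p => ?_
      rw [Real.norm_eq_abs, abs_mul, abs_of_nonneg (h0 _), abs_of_nonneg (gdmX_nonneg _ _ _)]
      exact mul_le_of_le_one_right (h0 _) (gdmX_le_one _ _ _)
    · exact Eventually.of_forall fun p => (gdmX_tendsto (hEc n) p).const_mul _
  obtain ⟨k, hk⟩ := (lim2.eventually (Iio_mem_nhds hn)).exists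
  have hgb : ∀ p, |gdmX (E n) k p| ≤ 1 := fun p => by
    rw [abs_of_nonneg (gdmX_nonneg _ _ _)]
    exact gdmX_le_one _ _ _
  have hint : Integrable (fun p : SLR × Pl => ψ p.1 * gdmX (E n) k p) ν := by
    refine hψν.mono ((hψ.comp continuous_fst).mul
      (gdmX_cont (E n) k)).measurable.aestronglyMeasurable (Eventually.of_forall fun p => ?_)
    rw [Real.norm_eq_abs, Real.norm_eq_abs, abs_mul]
    exact mul_le_of_le_one_right (abs_nonneg _) (hgb p)
  have hk2 : ∫ h, ψ h * (∫ Q in F0, gdmX (E n) k (h, Q)) ∂muG < ε := by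
    have h7 : ∫ h, ψ h * (∫ Q in F0, gdmX (E n) k (h, Q)) ∂muG =
        ∫ p, ψ p.1 * gdmX (E n) k p ∂ν := by
      rw [hν, integral_prod _ hint]
      refine integral_congr_ae (Eventually.of_forall fun h => ?_)
      simp only
      rw [integral_const_mul]
    rw [h7]
    exact hk
  refine ⟨n, fun P => ?_⟩
  have h8 := equidist (gdmX_cont (E n) k) hgb
    (fun h Q z => gdmX_periodic (hEp n) k h Q z) hψ hc P
  filter_upwards [h8.eventually (Iio_mem_nhds hk2)] with v hv
  have hcont : Continuous fun h : SLR => (h, P + mv h (Real.exp v, 0)) :=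
    continuous_id.prodMk (continuous_const.add
      (continuous_mv.comp (continuous_id.prodMk continuous_const)))
  have hms : MeasurableSet {h : SLR | (h, P + mv h (Real.exp v, 0)) ∉ interior (GG Λ n)} :=
    hcont.measurable (hEc n).measurableSet
  have hi2 : Integrable (fun h => ψ h * gdmX (E n) k (h, P + mv h (Real.exp v, 0))) muG := by
    refine hψi.mono (hψ.mul ((gdmX_cont (E n) k).comp hcont)).measurable.aestronglyMeasurable
      (Eventually.of_forall fun h => ?_)
    rw [Real.norm_eq_abs, Real.norm_eq_abs, abs_mul]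
    exact mul_le_of_le_one_right (abs_nonneg _) (hgb _)
  calc ∫⁻ h in {h | (h, P + mv h (Real.exp v, 0)) ∉ interior (GG Λ n)},
        ENNReal.ofReal (ψ h) ∂muG
      ≤ ∫⁻ h in {h | (h, P + mv h (Real.exp v, 0)) ∉ interior (GG Λ n)},
        ENNReal.ofReal (ψ h * gdmX (E n) k (h, P + mv h (Real.exp v, 0))) ∂muG := by
        refine setLIntegral_mono' hms fun h hh => ?_
        rw [gdmX_one (E n) k (show (h, P + mv h (Real.exp v, 0)) ∈ E n from hh), mul_one]
    _ ≤ ∫⁻ h, ENNReal.ofReal (ψ h * gdmX (E n) k (h, P + mv h (Real.exp v, 0))) ∂muG :=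
        setLIntegral_le_lintegral _ _
    _ = ENNReal.ofReal (∫ h, ψ h * gdmX (E n) k (h, P + mv h (Real.exp v, 0)) ∂muG) := by
        rw [ofReal_integral_eq_lintegral_ofReal hi2]
        exact Eventually.of_forall fun h => mul_nonneg (h0 h) (gdmX_nonneg _ _ _)
    _ ≤ ENNReal.ofReal ε := ENNReal.ofReal_le_ofReal (le_of_lt hv)

end Pool.Agent.ILL
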