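import Pool.Agent.ILL.Rkd
import Pool.Agent.ILL.Gdm
import Pool.Agent.ILL.Avn

/-!
# RIG. Rigidity

A bounded twisted invariant function `F` which is invariant under the flow `Φ` and has zero averages over
the commutator subgroup vanishes almost everywhere on `DF`.

PROOF. For every `v`, `N1 ρ F = ∫_DF Σ_i ‖F (eR (dg v) p) i‖` (`DF_right`, `AutW.norm_sum`). Let `ε > 0` and
choose `ψ` continuous with compact support, `0 ≤ ψ ≤ 1`, with `muG {h ∈ DD : ψ h ≠ 1} ≤ ε` (inner regularity
of the finite measure `muG.restrict DD`, Urysohn). Let `n` be as in `good_measure` for `ψ, ε`, and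
`V = interior (GG Λ n)`. Split `DF`:
(a) `ψ(h) ≠ 1`: contributes at most `c ε ρ(F0)`, `c = card (Lab Λ)` (times the bound `C`).
(b) `ψ(h) = 1` and `(h, P + mv h (e^v,0)) ∉ V`: contributes at most
`c C ∫_{P∈F0} ∫_{h ∉ ...} ψ dμ dρ`; the inner integral is eventually `≤ ε` for each `P` and bounded by
`∫ψ < ∞`; so the limsup as `v → ∞` is at most `c C ε ρ(F0)` (reverse Fatou lemma along sequences, or
dominated convergence for the positive part of `inner - ε`).
(c) `(h, P + mv h (e^v,0)) ∈ V ⊆ GG Λ n`: for almost all such `p` (the average of `F` at `eR (dg v) p` is `0`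
for a.e. `p`, as `eR (dg v)` is measure preserving) and all `(a,b,q₀)` put `φ(q) = F (eR (dg v) p) (a,b,q₀,q)`;
by `abs_le_of_avgN_zero`, `word_bound` (with the finite set of the `Rect a b h Q r.1 r.2`, `r ∈ Fam n` with
margin), and the definition of `GG`, `|φ(q)| ≤ K Σ_{r ∈ Fam n, Mg} Σ_{q'} |φ(Rect q') - φ(q')|`. (If
different `r` give the same rectangle holonomy the sum over `r` is only larger.) Sum over `i` and integrate:
at most `K · card Λ` times the sum over `r ∈ Fam n` of the integrals of `rkd` with `ε = 1/(n+1)`,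
`x = r.1`, `y = r.2`, each tending to `0` as `v → ∞`.
So `N1 ρ F ≤ c C ε ρ(F0) · 2` for all `ε > 0`, and `N1 ρ F = 0`.
-/

open MeasureTheory Set Filter Topology
open scoped ENNReal NNReal

namespace Pool.Agent.ILL

/-- the end point -/
private noncomputable def rigQ (v : ℝ) (p : SLR × Pl) : Pl := p.2 + mv p.1 (Real.exp v, 0)

private theorem rigQ_cont (v : ℝ) : Continuous (rigQ v) :=
  continuous_snd.add (continuous_mv.comp (continuous_fst.prodMk continuous_const))

section
variable {Λ : Type} [Fintype Λ] [DecidableEq Λ]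

private theorem rig_mul_meas {X : Type*} [MeasurableSpace X] {H : Type*} [Group H] [Finite H]
    {u w : X → H} (hu : ∀ g, MeasurableSet {x | u x = g}) (hw : ∀ g, MeasurableSet {x | w x = g})
    (g : H) : MeasurableSet {x | u x * w x = g} := by
  have e1 : {x | u x * w x = g} = ⋃ k : H, ({x | u x = k} ∩ {x | w x = k⁻¹ * g}) := by
    ext x
    simp only [mem_ofPred_eq, mem_iUnion, mem_inter_iff]
    constructor
    · intro h
      exact ⟨u x, rfl, by rw [← h, inv_mul_cancel_left]⟩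
    · rintro ⟨k, h1, h2⟩
      rw [h1, h2, mul_inv_cancel_left]
  rw [e1]
  exact MeasurableSet.iUnion fun k => (hu k).inter (hw _)

omit [DecidableEq Λ] in
private theorem rig_rect_meas (v x y : ℝ) (a b : Equiv.Perm Λ) (g : Equiv.Perm Λ) :
    MeasurableSet {p : SLR × Pl | Rect a b p.1 (rigQ v p) x y = g} := by
  have hQ : Measurable (rigQ v) := (rigQ_cont v).measurable
  have hc : ∀ w : Pl, Measurable fun p : SLR × Pl => rigQ v p + mv p.1 w := fun w =>
    hQ.add (continuous_mv.comp (continuous_fst.prodMk continuous_const)).measurable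
  unfold Rect hol4
  refine rig_mul_meas (rig_mul_meas (rig_mul_meas ?_ ?_) ?_) ?_ g
  · intro k
    exact meas_tau_comp a b (hc _) hQ k
  · intro k
    exact meas_tau_comp a b (hc _) (hc _) k
  · intro k
    exact meas_tau_comp a b (hc _) (hc _) k
  · intro k
    exact meas_tau_comp a b hQ (hc _) k

/-- the term of `rkd` -/
private noncomputable def rigT (F : SLR × Pl → Lab Λ → ℝ) (v x y : ℝ) (p : SLR × Pl) : ℝ≥0∞ :=
  ∑ i : Lab Λ, ‖F (eR (dg v) p) (i.1, i.2.1, i.2.2.1, Rect i.1 i.2.1 p.1 (rigQ v p) x y i.2.2.2) -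
    F (eR (dg v) p) i‖ₑ

private theorem rigT_meas {F : SLR × Pl → Lab Λ → ℝ} (hF : ∀ i, Measurable fun x => F x i)
    (v x y : ℝ) : Measurable (rigT F v x y) := by
  unfold rigT
  refine Finset.measurable_sum _ fun i _ => ?_
  have h1 : ∀ j, Measurable fun p => F (eR (dg v) p) j := fun j => (hF j).comp (eR (dg v)).measurable
  have h2 : Measurable fun p : SLR × Pl =>
      F (eR (dg v) p) (i.1, i.2.1, i.2.2.1, Rect i.1 i.2.1 p.1 (rigQ v p) x y i.2.2.2) := by
    have e1 : (fun p : SLR × Pl =>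
        F (eR (dg v) p) (i.1, i.2.1, i.2.2.1, Rect i.1 i.2.1 p.1 (rigQ v p) x y i.2.2.2)) =
        fun p => ∑ g : Equiv.Perm Λ,
          {p : SLR × Pl | Rect i.1 i.2.1 p.1 (rigQ v p) x y = g}.indicator (fun _ => (1 : ℝ)) p *
            F (eR (dg v) p) (i.1, i.2.1, i.2.2.1, g i.2.2.2) := by
      funext p
      rw [Finset.sum_eq_single (Rect i.1 i.2.1 p.1 (rigQ v p) x y)]
      · rw [indicator_of_mem (show p ∈ {q : SLR × Pl | Rect i.1 i.2.1 q.1 (rigQ v q) x y =
          Rect i.1 i.2.1 p.1 (rigQ v p) x y} from rfl), one_mul]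
      · intro g _ hg
        rw [indicator_of_notMem (fun h0 => hg h0.symm), zero_mul]
      · intro h0
        exact absurd (Finset.mem_univ _) h0
    rw [e1]
    refine Finset.measurable_sum _ fun g _ => ?_
    exact (measurable_const.indicator (rig_rect_meas v x y i.1 i.2.1 g)).mul (h1 _)
  exact (h2.sub (h1 i)).enorm

/-- the pointwise estimate on the good set -/
private theorem rig_point {K : ℝ} (hK0 : 0 ≤ K)
    (hK : ∀ (s : Finset (Equiv.Perm Λ)) (g : Equiv.Perm Λ),
      g ∈ Subgroup.closure (s : Set (Equiv.Perm Λ)) → ∀ (φ : Λ → ℝ) (q : Λ),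
      |φ (g q) - φ q| ≤ K * ∑ r ∈ s, ∑ q', |φ (r q') - φ q'|)
    {F : SLR × Pl → Lab Λ → ℝ} {n : ℕ} {v : ℝ} {p : SLR × Pl}
    (h0 : ∀ i, avgL F (eR (dg v) p) i = 0) (hG : (p.1, rigQ v p) ∈ GG Λ n) :
    ∑ i : Lab Λ, ‖F (eR (dg v) p) i‖ₑ ≤ ENNReal.ofReal (Fintype.card (Lab Λ) * K) *
      ∑ r ∈ Fam n, {p : SLR × Pl | Mg (1 / ((n : ℝ) + 1)) (r.1 : ℝ) (r.2 : ℝ) p.1 (rigQ v p)}.indicator
        (rigT F v (r.1 : ℝ) (r.2 : ℝ)) p := by
  classical
  -- real version of the terms
  set TR : ℚ × ℚ → ℝ := fun r => ∑ i : Lab Λ,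
    |F (eR (dg v) p) (i.1, i.2.1, i.2.2.1, Rect i.1 i.2.1 p.1 (rigQ v p) (r.1 : ℝ) (r.2 : ℝ) i.2.2.2) -
      F (eR (dg v) p) i| with hTR
  have hTR0 : ∀ r, 0 ≤ TR r := fun r => Finset.sum_nonneg fun i _ => abs_nonneg _
  set gd : Finset (ℚ × ℚ) := (Fam n).filter
    (fun r => Mg (1 / ((n : ℝ) + 1)) (r.1 : ℝ) (r.2 : ℝ) p.1 (rigQ v p)) with hgd
  have hpt : ∀ i : Lab Λ, |F (eR (dg v) p) i| ≤ K * ∑ r ∈ gd, TR r := by
    rintro ⟨a, b, q₀, q⟩
    have hφ : ∀ q', avgN a b (fun q => F (eR (dg v) p) (a, b, q₀, q)) q' = 0 := fun q' =>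
      h0 (a, b, q₀, q')
    refine abs_le_of_avgN_zero a b hφ (fun g hg q' => ?_) q
    have h1 := hG a b g hg
    set s : Finset (Equiv.Perm Λ) := gd.image
      (fun r => Rect a b p.1 (rigQ v p) (r.1 : ℝ) (r.2 : ℝ)) with hs
    have h2 : {g' | ∃ r ∈ Fam n, Mg (1 / ((n : ℝ) + 1)) (r.1 : ℝ) (r.2 : ℝ) p.1 (rigQ v p) ∧
        g' = Rect a b p.1 (rigQ v p) (r.1 : ℝ) (r.2 : ℝ)} = (s : Set (Equiv.Perm Λ)) := by
      ext g'
      simp only [mem_ofPred_eq, hs, Finset.coe_image, mem_image, Finset.mem_coe, hgd,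
        Finset.mem_filter]
      constructor
      · rintro ⟨r, h3, h4, h5⟩
        exact ⟨r, ⟨h3, h4⟩, h5.symm⟩
      · rintro ⟨r, ⟨h3, h4⟩, h5⟩
        exact ⟨r, h3, h4, h5.symm⟩
    have h1' : g ∈ Subgroup.closure (s : Set (Equiv.Perm Λ)) := by
      rw [← h2]; exact h1
    refine (hK s g h1' (fun q => F (eR (dg v) p) (a, b, q₀, q)) q').trans ?_
    refine mul_le_mul_of_nonneg_left ?_ hK0
    refine (Finset.sum_image_le_of_nonneg (fun u _ => Finset.sum_nonneg fun q' _ => abs_nonneg _)).trans ?_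
    refine Finset.sum_le_sum fun r _ => ?_
    rw [hTR]
    have hinj : Function.Injective fun q' : Λ => ((a, b, q₀, q') : Lab Λ) := by
      intro q1 q2 h
      simpa using h
    calc ∑ q' : Λ, |F (eR (dg v) p) (a, b, q₀, Rect a b p.1 (rigQ v p) (r.1 : ℝ) (r.2 : ℝ) q') -
          F (eR (dg v) p) (a, b, q₀, q')|
        = ∑ i ∈ Finset.univ.image (fun q' : Λ => ((a, b, q₀, q') : Lab Λ)),
          |F (eR (dg v) p) (i.1, i.2.1, i.2.2.1,
            Rect i.1 i.2.1 p.1 (rigQ v p) (r.1 : ℝ) (r.2 : ℝ) i.2.2.2) - F (eR (dg v) p) i| := by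
          rw [Finset.sum_image (fun x _ y _ h => hinj h)]
      _ ≤ _ := Finset.sum_le_sum_of_subset_of_nonneg (Finset.subset_univ _)
          (fun i _ _ => abs_nonneg _)
  -- pass to extended numbers
  have hT : ∀ r : ℚ × ℚ, rigT F v (r.1 : ℝ) (r.2 : ℝ) p = ENNReal.ofReal (TR r) := by
    intro r
    rw [hTR, ENNReal.ofReal_sum_of_nonneg (fun i _ => abs_nonneg _)]
    unfold rigT
    refine Finset.sum_congr rfl fun i _ => ?_
    rw [Real.enorm_eq_ofReal_abs]
  have hsum : ∑ r ∈ Fam n, {p : SLR × Pl | Mg (1 / ((n : ℝ) + 1)) (r.1 : ℝ) (r.2 : ℝ) p.1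
      (rigQ v p)}.indicator (rigT F v (r.1 : ℝ) (r.2 : ℝ)) p = ENNReal.ofReal (∑ r ∈ gd, TR r) := by
    rw [ENNReal.ofReal_sum_of_nonneg (fun r _ => hTR0 r), hgd, Finset.sum_filter]
    refine Finset.sum_congr rfl fun r _ => ?_
    by_cases hr : Mg (1 / ((n : ℝ) + 1)) (r.1 : ℝ) (r.2 : ℝ) p.1 (rigQ v p)
    · rw [if_pos hr, indicator_of_mem (show p ∈ {p : SLR × Pl | Mg (1 / ((n : ℝ) + 1)) (r.1 : ℝ)
        (r.2 : ℝ) p.1 (rigQ v p)} from hr), hT]
    · rw [if_neg hr, indicator_of_notMem (show p ∉ {p : SLR × Pl | Mg (1 / ((n : ℝ) + 1)) (r.1 : ℝ)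
        (r.2 : ℝ) p.1 (rigQ v p)} from hr)]
  rw [hsum, ← ENNReal.ofReal_mul (by positivity)]
  have hfin : ∑ i : Lab Λ, ‖F (eR (dg v) p) i‖ₑ = ENNReal.ofReal (∑ i : Lab Λ, |F (eR (dg v) p) i|) := by
    rw [ENNReal.ofReal_sum_of_nonneg (fun i _ => abs_nonneg _)]
    refine Finset.sum_congr rfl fun i _ => ?_
    rw [Real.enorm_eq_ofReal_abs]
  rw [hfin]
  apply ENNReal.ofReal_le_ofReal
  calc ∑ i : Lab Λ, |F (eR (dg v) p) i| ≤ ∑ _i : Lab Λ, K * ∑ r ∈ gd, TR r :=
        Finset.sum_le_sum fun i _ => hpt i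
    _ = Fintype.card (Lab Λ) * K * ∑ r ∈ gd, TR r := by
        rw [Finset.sum_const, Finset.card_univ, nsmul_eq_mul]
        ring

end

/-- a compact set containing most of `DD` -/
private theorem rig_compact {ε : ℝ} (hε : 0 < ε) :
    ∃ K : Set SLR, IsCompact K ∧ muG (DD \ K) ≤ ENNReal.ofReal ε := by
  have hDDm : MeasurableSet DD := by
    have h1 : MeasurableSet (DD ×ˢ F0) := measurableSet_DF
    have h2 : (fun h : SLR => ((h, 0) : SLR × Pl)) ⁻¹' (DD ×ˢ F0) = DD := by
      ext h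
      simp only [mem_preimage, mem_prod]
      constructor
      · exact fun h => h.1
      · intro hh
        exact ⟨hh, by simp [F0]⟩
    rw [← h2]
    exact measurable_prodMk_right h1
  have h1 : Tendsto (muG ∘ fun n => DD \ compactCovering SLR n) atTop
      (𝓝 (muG (⋂ n, DD \ compactCovering SLR n))) := by
    refine tendsto_measure_iInter_atTop (fun n => ?_) ?_ ⟨0, ?_⟩
    · exact (hDDm.diff (isCompact_compactCovering SLR n).measurableSet).nullMeasurableSet
    · intro n m hnm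
      exact sdiff_subset_sdiff_right (compactCovering_subset SLR hnm)
    · exact ((measure_mono sdiff_subset).trans_lt muG_DD_lt_top).ne
  have h2 : (⋂ n, DD \ compactCovering SLR n) = ∅ := by
    rw [← sdiff_iUnion, iUnion_compactCovering, sdiff_univ]
  rw [h2, measure_empty] at h1
  have h3 := h1.eventually (ge_mem_nhds (ENNReal.ofReal_pos.2 hε))
  obtain ⟨n, hn⟩ := h3.exists
  exact ⟨compactCovering SLR n, isCompact_compactCovering SLR n, hn⟩

theorem rigidity {Λ : Type} [Fintype Λ] [DecidableEq Λ] {ρ : Measure Pl} (hρ : PerMeas ρ)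
    {F : SLR × Pl → Lab Λ → ℝ} (hF : ∀ i, Measurable fun x => F x i) {C : ℝ}
    (hb : ∀ x i, |F x i| ≤ C) (hA : AutW ρ F)
    (hΦ : ∀ q, ∀ᵐ x ∂(muG.prod ρ), ∀ i, (wPhi q).act F x i = F x i)
    (h0 : ∀ᵐ x ∂(muG.prod ρ), ∀ i, avgL F x i = 0) : N1 ρ F = 0 := by
  have hsf := hρ.sf
  obtain ⟨Kw, hKw0, hKw⟩ := word_bound Λ
  set M0 : ℝ≥0∞ := (Fintype.card (Lab Λ) : ℝ≥0∞) * ENNReal.ofReal C with hM0
  have hM0t : M0 ≠ ∞ := ENNReal.mul_ne_top (ENNReal.natCast_ne_top _) ENNReal.ofReal_ne_top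
  set S : SLR × Pl → ℝ≥0∞ := fun p => ∑ i : Lab Λ, ‖F p i‖ₑ with hS
  have hSm : Measurable S := Finset.measurable_sum _ fun i _ => (hF i).enorm
  have hSb : ∀ p, S p ≤ M0 := by
    intro p
    have h1 : ∀ i ∈ (Finset.univ : Finset (Lab Λ)), ‖F p i‖ₑ ≤ ENNReal.ofReal C := by
      intro i _
      rw [Real.enorm_eq_ofReal_abs]
      exact ENNReal.ofReal_le_ofReal (hb p i)
    have h2 := Finset.sum_le_card_nsmul _ _ _ h1
    rwa [Finset.card_univ, nsmul_eq_mul] at h2
  have hN : ∀ v : ℝ, N1 ρ F = ∫⁻ p in DF, S (eR (dg v) p) ∂(muG.prod ρ) := fun v =>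
    (DF_right hρ hSm hA.norm_sum (dg v)).symm
  -- the main estimate
  have main : ∀ ε : ℝ, 0 < ε → N1 ρ F ≤
      M0 * (ENNReal.ofReal ε * ρ F0) + M0 * (ENNReal.ofReal ε * ρ F0) := by
    intro ε hε
    obtain ⟨K, hK, hKε⟩ := rig_compact hε
    obtain ⟨ψ, hψ1, -, hψc, hψ01⟩ := exists_continuous_one_zero_of_isCompact hK isClosed_empty
      (disjoint_empty K)
    obtain ⟨n, hn⟩ := good_measure Λ ψ.continuous hψc (fun h => (hψ01 h).1) (fun h => (hψ01 h).2) hε
    set G : Set (SLR × Pl) := interior (GG Λ n) with hG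
    have hGo : IsOpen G := isOpen_interior
    -- the inner integrals
    set J : ℝ → Pl → ℝ≥0∞ := fun v P =>
      ∫⁻ h in {h | (h, P + mv h (Real.exp v, 0)) ∉ G}, ENNReal.ofReal (ψ h) ∂muG with hJ
    have hκ : ∀ v : ℝ, Continuous fun p : SLR × Pl => (p.1, rigQ v p) := fun v =>
      continuous_fst.prodMk (rigQ_cont v)
    have hκ' : ∀ (v : ℝ) (P : Pl), Continuous fun h : SLR => (h, P + mv h (Real.exp v, 0)) :=
      fun v P => (hκ v).comp (continuous_id.prodMk continuous_const)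
    have hψm : Measurable fun h : SLR => ENNReal.ofReal (ψ h) :=
      ENNReal.measurable_ofReal.comp ψ.continuous.measurable
    have hJm : ∀ v, Measurable (J v) := by
      intro v
      have e1 : J v = fun P => ∫⁻ h, ({p : SLR × Pl | (p.1, rigQ v p) ∉ G}.indicator
          (fun p => ENNReal.ofReal (ψ p.1))) (h, P) ∂muG := by
        funext P
        rw [hJ]
        have hms : MeasurableSet {h : SLR | (h, P + mv h (Real.exp v, 0)) ∉ G} :=
          (hGo.isClosed_compl.preimage (hκ' v P)).measurableSet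
        simp only
        rw [← lintegral_indicator hms]
        rfl
      rw [e1]
      exact ((hψm.comp measurable_fst).indicator
        ((hGo.isClosed_compl.preimage (hκ v)).measurableSet)).lintegral_prod_left'
    have hψi : ∫⁻ h, ENNReal.ofReal (ψ h) ∂muG ≠ ∞ := by
      have := (ψ.continuous.integrable_of_hasCompactSupport (μ := muG) hψc).lintegral_lt_top
      exact this.ne
    have hJb : ∀ v P, J v P ≤ ∫⁻ h, ENNReal.ofReal (ψ h) ∂muG := fun v P =>
      setLIntegral_le_lintegral _ _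
    -- the error terms
    set d : ℝ → ℝ≥0∞ := fun v => ∫⁻ P in F0, (J v P - ENNReal.ofReal ε) ∂ρ with hd
    have hd0 : Tendsto d atTop (𝓝 0) := by
      have e1 := tendsto_lintegral_filter_of_dominated_convergence (μ := ρ.restrict F0)
        (l := (atTop : Filter ℝ)) (F := fun v P => J v P - ENNReal.ofReal ε) (f := fun _ => 0)
        (fun _ => ∫⁻ h, ENNReal.ofReal (ψ h) ∂muG)
        (Eventually.of_forall fun v => (hJm v).sub measurable_const)
        (Eventually.of_forall fun v => Eventually.of_forall fun P => tsub_le_self.trans (hJb v P))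
        (by
          rw [setLIntegral_const]
          exact ENNReal.mul_ne_top hψi hρ.fin.ne)
        (Eventually.of_forall fun P => by
          refine tendsto_const_nhds.congr' ?_
          filter_upwards [hn P] with v hv
          exact (tsub_eq_zero_of_le hv).symm)
      rwa [lintegral_zero] at e1
    set e : ℝ → ℝ≥0∞ := fun v => ENNReal.ofReal (Fintype.card (Lab Λ) * Kw) *
      ∑ r ∈ Fam n, ∫⁻ p in DF ∩ {p | Mg (1 / ((n : ℝ) + 1)) (r.1 : ℝ) (r.2 : ℝ) p.1
        (p.2 + mv p.1 (Real.exp v, 0))}, rigT F v (r.1 : ℝ) (r.2 : ℝ) p ∂(muG.prod ρ) with he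
    have he0 : Tendsto e atTop (𝓝 0) := by
      have e1 : Tendsto (fun v => ∑ r ∈ Fam n, ∫⁻ p in DF ∩ {p | Mg (1 / ((n : ℝ) + 1)) (r.1 : ℝ)
          (r.2 : ℝ) p.1 (p.2 + mv p.1 (Real.exp v, 0))}, rigT F v (r.1 : ℝ) (r.2 : ℝ) p
            ∂(muG.prod ρ)) atTop (𝓝 (∑ r ∈ Fam n, 0)) := by
        refine tendsto_finsetSum _ fun r hr => ?_
        have hr2 := Fam_pos hr
        exact rkd hρ hF hb hA hΦ (by positivity) (by exact_mod_cast hr2.1) (by exact_mod_cast hr2.2)
      rw [Finset.sum_const_zero] at e1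
      have e2 := ENNReal.Tendsto.const_mul (a := ENNReal.ofReal (Fintype.card (Lab Λ) * Kw)) e1
        (Or.inr ENNReal.ofReal_ne_top)
      rwa [mul_zero] at e2
    have hle : ∀ v : ℝ, N1 ρ F ≤ M0 * (ENNReal.ofReal ε * ρ F0) +
        (M0 * (ENNReal.ofReal ε * ρ F0 + d v)) + e v := by
      intro v
      have hsub : DF ⊆ ((DF ∩ {p | p.1 ∉ K}) ∪ (DF ∩ {p | p.1 ∈ K ∧ (p.1, rigQ v p) ∉ G})) ∪
          (DF ∩ {p | (p.1, rigQ v p) ∈ G}) := by
        intro p hp
        by_cases h1 : (p.1, rigQ v p) ∈ G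
        · exact Or.inr ⟨hp, h1⟩
        · by_cases h2 : p.1 ∈ K
          · exact Or.inl (Or.inr ⟨hp, h2, h1⟩)
          · exact Or.inl (Or.inl ⟨hp, h2⟩)
      rw [hN v]
      refine (lintegral_mono_set hsub).trans ((lintegral_union_le _ _ _).trans ?_)
      refine add_le_add ((lintegral_union_le _ _ _).trans (add_le_add ?_ ?_)) ?_
      · -- (a)
        refine (lintegral_mono fun p => hSb _).trans ?_
        rw [setLIntegral_const]
        gcongr
        have e1 : DF ∩ {p : SLR × Pl | p.1 ∉ K} ⊆ (DD \ K) ×ˢ F0 := by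
          rintro p ⟨hp, hpK⟩
          exact ⟨⟨hp.1, hpK⟩, hp.2⟩
        refine (measure_mono e1).trans ?_
        rw [Measure.prod_prod]
        gcongr
      · -- (b)
        refine (lintegral_mono fun p => hSb _).trans ?_
        rw [setLIntegral_const]
        gcongr
        set Bs : Set (SLR × Pl) := (univ ×ˢ F0) ∩ {p : SLR × Pl | p.1 ∈ K ∧ (p.1, rigQ v p) ∉ G} with hBs
        have hBm : MeasurableSet Bs := by
          refine (MeasurableSet.univ.prod measurableSet_F0).inter ?_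
          exact (measurable_fst hK.measurableSet).inter
            ((hGo.isClosed_compl.preimage (hκ v)).measurableSet)
        have e1 : DF ∩ {p : SLR × Pl | p.1 ∈ K ∧ (p.1, rigQ v p) ∉ G} ⊆ Bs := by
          rintro p ⟨hp, hp2⟩
          exact ⟨⟨mem_univ _, hp.2⟩, hp2⟩
        refine (measure_mono e1).trans ?_
        rw [Measure.prod_apply_symm hBm]
        have e2 : ∀ P : Pl, muG ((fun h => (h, P)) ⁻¹' Bs) ≤
            F0.indicator (fun P => ENNReal.ofReal ε + (J v P - ENNReal.ofReal ε)) P := by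
          intro P
          by_cases hP : P ∈ F0
          · rw [indicator_of_mem hP]
            refine le_trans ?_ le_add_tsub
            have e3 : (fun h => (h, P)) ⁻¹' Bs ⊆ {h | (h, P + mv h (Real.exp v, 0)) ∉ G} ∩ K := by
              rintro h ⟨-, h1, h2⟩
              exact ⟨h2, h1⟩
            refine (measure_mono e3).trans ?_
            have e4 : muG ({h | (h, P + mv h (Real.exp v, 0)) ∉ G} ∩ K) =
                ∫⁻ h in {h | (h, P + mv h (Real.exp v, 0)) ∉ G} ∩ K, 1 ∂muG := by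
              rw [setLIntegral_one]
            rw [e4]
            have hGm : MeasurableSet {h : SLR | (h, P + mv h (Real.exp v, 0)) ∉ G} :=
              (hGo.isClosed_compl.preimage (hκ' v P)).measurableSet
            refine (setLIntegral_mono' (hGm.inter hK.measurableSet) (g := fun h =>
              ENNReal.ofReal (ψ h)) fun h hh => ?_).trans (lintegral_mono_set inter_subset_left)
            have : ψ h = 1 := hψ1 hh.2
            rw [this, ENNReal.ofReal_one]
          · rw [indicator_of_notMem hP]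
            have e3 : (fun h => (h, P)) ⁻¹' Bs = ∅ := by
              ext h
              simp only [mem_preimage, mem_empty_iff_false, iff_false]
              rintro ⟨h1, -⟩
              exact hP h1.2
            rw [e3, measure_empty]
        refine (lintegral_mono e2).trans ?_
        rw [lintegral_indicator measurableSet_F0, lintegral_add_left measurable_const,
          setLIntegral_const]
      · -- (c)
        have hGm : MeasurableSet {p : SLR × Pl | (p.1, rigQ v p) ∈ G} :=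
          (hGo.preimage (hκ v)).measurableSet
        have hMm : ∀ r : ℚ × ℚ, MeasurableSet {p : SLR × Pl | Mg (1 / ((n : ℝ) + 1)) (r.1 : ℝ)
            (r.2 : ℝ) p.1 (rigQ v p)} := fun r => (hκ v).measurable (measurableSet_Mg _ _ _)
        have e1 : ∀ᵐ p ∂((muG.prod ρ).restrict (DF ∩ {p | (p.1, rigQ v p) ∈ G})),
            S (eR (dg v) p) ≤ ENNReal.ofReal (Fintype.card (Lab Λ) * Kw) *
              ∑ r ∈ Fam n, {p : SLR × Pl | Mg (1 / ((n : ℝ) + 1)) (r.1 : ℝ) (r.2 : ℝ) p.1
                (rigQ v p)}.indicator (rigT F v (r.1 : ℝ) (r.2 : ℝ)) p := by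
          have e2 := (mp_eR hρ (dg v)).quasiMeasurePreserving.ae h0
          filter_upwards [ae_restrict_of_ae e2, ae_restrict_mem (measurableSet_DF.inter hGm)]
            with p hp1 hp2
          exact rig_point hKw0 hKw hp1 (interior_subset hp2.2)
        refine (lintegral_mono_ae e1).trans ?_
        refine (lintegral_mono_set inter_subset_left).trans ?_
        have hTm : ∀ r : ℚ × ℚ, Measurable fun p => {p : SLR × Pl | Mg (1 / ((n : ℝ) + 1)) (r.1 : ℝ)
            (r.2 : ℝ) p.1 (rigQ v p)}.indicator (rigT F v (r.1 : ℝ) (r.2 : ℝ)) p := fun r =>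
          (rigT_meas hF v _ _).indicator (hMm r)
        rw [lintegral_const_mul _ (Finset.measurable_sum _ fun r _ => hTm r),
          lintegral_finsetSum _ (fun r _ => hTm r), he]
        simp only
        refine mul_le_mul' le_rfl (Finset.sum_le_sum fun r _ => ?_)
        have hms : MeasurableSet (DF ∩ {p : SLR × Pl | Mg (1 / ((n : ℝ) + 1)) (r.1 : ℝ)
            (r.2 : ℝ) p.1 (p.2 + mv p.1 (Real.exp v, 0))}) := measurableSet_DF.inter (hMm r)
        rw [← lintegral_indicator measurableSet_DF, ← lintegral_indicator hms]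
        apply le_of_eq
        congr 1
        funext p
        rw [← indicator_indicator]
        rfl
    have hlim : Tendsto (fun v => M0 * (ENNReal.ofReal ε * ρ F0) +
        (M0 * (ENNReal.ofReal ε * ρ F0 + d v)) + e v) atTop
        (𝓝 (M0 * (ENNReal.ofReal ε * ρ F0) + (M0 * (ENNReal.ofReal ε * ρ F0 + 0)) + 0)) :=
      (tendsto_const_nhds.add (ENNReal.Tendsto.const_mul (tendsto_const_nhds.add hd0)
        (Or.inr hM0t))).add he0
    have := ge_of_tendsto' hlim hle
    rwa [add_zero, add_zero] at this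
  -- let `ε` tend to zero
  have hlim : Tendsto (fun ε : ℝ => M0 * (ENNReal.ofReal ε * ρ F0) + M0 * (ENNReal.ofReal ε * ρ F0))
      (𝓝[>] 0) (𝓝 (M0 * (0 * ρ F0) + M0 * (0 * ρ F0))) := by
    have e1 : Tendsto (fun ε : ℝ => ENNReal.ofReal ε) (𝓝[>] 0) (𝓝 0) := by
      have := (ENNReal.continuous_ofReal.tendsto 0)
      rw [ENNReal.ofReal_zero] at this
      exact this.mono_left nhdsWithin_le_nhds
    have e2 : Tendsto (fun ε : ℝ => M0 * (ENNReal.ofReal ε * ρ F0)) (𝓝[>] 0) (𝓝 (M0 * (0 * ρ F0))) :=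
      ENNReal.Tendsto.const_mul (ENNReal.Tendsto.mul_const e1 (Or.inr hρ.fin.ne)) (Or.inr hM0t)
    exact e2.add e2
  rw [zero_mul, mul_zero, add_zero] at hlim
  have h1 : N1 ρ F ≤ 0 := by
    refine ge_of_tendsto hlim ?_
    filter_upwards [self_mem_nhdsWithin] with ε hε
    exact main ε hε
  exact le_antisymm h1 zero_le

end Pool.Agent.ILL
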