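import Pool.Agent.ILL.MgC

/-!
# MPX. Measure preserving maps of `SLR × Pl`

`muG.prod ρ` is preserved by `eR g`, `eL γ`, `eT z` (products of measure preserving maps,
`MeasurePreserving.prod`; `SFinite` from `hρ.sf`).

`sl2z_gen`: `SL(2,ℤ)` is generated by the two shears: Mathlib has generation by `S`, `T`
(`ModularGroup`/`SpecialLinearGroup.SL2Z_generators`), `T = gU` and `S = gU⁻¹ gL gU⁻¹`.

`AEAut.all`: the set of `γ` with `f ∘ eL γ = f` a.e. is a subgroup containing `gU`, `gL` (`eL γ` preserves
null sets); the set of `z` with `f ∘ eT z = f` a.e. is a subgroup of `ℤ × ℤ` containing `(1,0)`, `(0,1)`.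
-/

open MeasureTheory Set Filter Topology
open scoped ENNReal NNReal

namespace Pool.Agent.ILL

variable {ρ : Measure Pl}

theorem mp_eR (hρ : PerMeas ρ) (g : SLR) :
    MeasurePreserving (eR g) (muG.prod ρ) (muG.prod ρ) := by
  have := hρ.sf
  exact (measurePreserving_mul_right muG g).prod (MeasurePreserving.id ρ)

theorem mp_eL (hρ : PerMeas ρ) (γ : SLZ) :
    MeasurePreserving (eL γ) (muG.prod ρ) (muG.prod ρ) := by
  have := hρ.sf
  exact (measurePreserving_mul_left muG (toR γ)).prod (hρ.lin γ)

theorem mp_eT (hρ : PerMeas ρ) (z : ℤ × ℤ) :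
    MeasurePreserving (eT z) (muG.prod ρ) (muG.prod ρ) := by
  have := hρ.sf
  exact (MeasurePreserving.id muG).prod (hρ.tr z)

theorem sl2z_gen : Subgroup.closure {gU, gL} = (⊤ : Subgroup SLZ) := by
  rw [eq_top_iff, ← SpecialLinearGroup.SL2Z_generators, Subgroup.closure_le]
  have hU : gU ∈ Subgroup.closure {gU, gL} := Subgroup.subset_closure (by simp)
  have hL : gL ∈ Subgroup.closure {gU, gL} := Subgroup.subset_closure (by simp)
  have hT : ModularGroup.T = gU := rfl
  have hS : ModularGroup.S = gU⁻¹ * gL * gU⁻¹ := by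
    rw [eq_mul_inv_iff_mul_eq, eq_inv_mul_iff_mul_eq]
    ext i j
    fin_cases i <;> fin_cases j <;> simp [ModularGroup.S, gU, gL, Matrix.mul_apply, Fin.sum_univ_two]
  rintro x (rfl | rfl)
  · rw [hS]
    exact mul_mem (mul_mem (inv_mem hU) hL) (inv_mem hU)
  · rw [hT]
    exact hU

theorem AEAut.all {β : Type} {f : SLR × Pl → β} (hρ : PerMeas ρ) (ha : AEAut ρ f) :
    (∀ γ : SLZ, ∀ᵐ x ∂(muG.prod ρ), f (eL γ x) = f x) ∧
    (∀ z : ℤ × ℤ, ∀ᵐ x ∂(muG.prod ρ), f (eT z x) = f x) := by
  constructor
  · intro γ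
    have hγ : γ ∈ Subgroup.closure {gU, gL} := by rw [sl2z_gen]; exact Subgroup.mem_top _
    induction hγ using Subgroup.closure_induction with
    | mem x hx =>
      rcases hx with rfl | rfl
      · exact ha.U
      · exact ha.L
    | one =>
      refine Eventually.of_forall fun x => ?_
      have : eL 1 x = x := by
        rw [eL_apply, map_one, one_mul, mv_one]
      rw [this]
    | mul γ γ' _ _ h1 h2 =>
      have h3 := (mp_eL hρ γ').quasiMeasurePreserving.ae h1
      filter_upwards [h2, h3] with x e2 e3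
      have e1 : eL (γ * γ') x = eL γ (eL γ' x) := by
        simp only [eL_apply, map_mul, mul_assoc, mv_mul]
      rw [e1, e3, e2]
    | inv γ _ h1 =>
      have h3 := (mp_eL hρ γ⁻¹).quasiMeasurePreserving.ae h1
      filter_upwards [h3] with x e3
      have e1 : eL γ (eL γ⁻¹ x) = x := by
        simp only [eL_apply, ← mul_assoc, ← mv_mul, ← map_mul, mul_inv_cancel, map_one, one_mul,
          mv_one]
      rw [e1] at e3
      exact e3.symm
  · have hadd : ∀ z z' : ℤ × ℤ, (∀ᵐ x ∂(muG.prod ρ), f (eT z x) = f x) →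
        (∀ᵐ x ∂(muG.prod ρ), f (eT z' x) = f x) → ∀ᵐ x ∂(muG.prod ρ), f (eT (z + z') x) = f x := by
      intro z z' h1 h2
      have h3 := (mp_eT hρ z').quasiMeasurePreserving.ae h1
      filter_upwards [h2, h3] with x e2 e3
      have e1 : eT (z + z') x = eT z (eT z' x) := by
        simp only [eT_apply]
        congr 1
        ext <;> simp [ZP] <;> ring
      rw [e1, e3, e2]
    have hneg : ∀ z : ℤ × ℤ, (∀ᵐ x ∂(muG.prod ρ), f (eT z x) = f x) →
        ∀ᵐ x ∂(muG.prod ρ), f (eT (-z) x) = f x := by
      intro z h1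
      have h3 := (mp_eT hρ (-z)).quasiMeasurePreserving.ae h1
      filter_upwards [h3] with x e3
      have e1 : eT z (eT (-z) x) = x := by
        simp only [eT_apply]
        ext <;> simp [ZP]
      rw [e1] at e3
      exact e3.symm
    have hzero : ∀ᵐ x ∂(muG.prod ρ), f (eT 0 x) = f x := by
      refine Eventually.of_forall fun x => ?_
      have : eT 0 x = x := by
        simp only [eT_apply]
        ext <;> simp [ZP]
      rw [this]
    have h1 : ∀ m : ℤ, ∀ᵐ x ∂(muG.prod ρ), f (eT (m, 0) x) = f x := by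
      intro m
      induction m using Int.induction_on with
      | zero => exact hzero
      | succ n ih =>
        have := hadd _ _ ih ha.t1
        simpa using this
      | pred n ih =>
        have := hadd _ _ ih (hneg _ ha.t1)
        simpa [sub_eq_add_neg] using this
    have h2 : ∀ m : ℤ, ∀ᵐ x ∂(muG.prod ρ), f (eT (0, m) x) = f x := by
      intro m
      induction m using Int.induction_on with
      | zero => exact hzero
      | succ n ih =>
        have := hadd _ _ ih ha.t2
        simpa using this
      | pred n ih =>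
        have := hadd _ _ ih (hneg _ ha.t2)
        simpa [sub_eq_add_neg] using this
    rintro ⟨m, n⟩
    have := hadd _ _ (h1 m) (h2 n)
    simpa using this

end Pool.Agent.ILL
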