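import Pool.Agent.ILL.Mea
import Pool.Agent.ILL.Avn

/-!
# TWM. Measurability and bounds

`{x | σ x i = j}` is measurable for all our twisted maps: `meas_tau_comp` with the continuous end points
(`continuous_mv`), measurability of `vexp` along measurable maps (countable values), `meas_adm`.
`act_measurable`: `w.act G x i = Σ_j 1[σ x i = j] G (T x) j`.
`act_joint`: for the flow, `(s,x) ↦ (wPhi s).act G x i` is measurable on `ℝ × X`: end points and
`eR (nl (-s)) x` are jointly continuous in `(s,x)`; same decomposition.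
`f0` is measurable (`ind` is the indicator of a measurable set; finite sums), `0 ≤ ind ≤ 1`, so
`|f0| ≤ 1`. `AS`, `FS`, `EE`: parameter integrals of jointly measurable functions
(`StronglyMeasurable.integral_prod_right` etc.; interval integral as set integral), bounds by `1`.
-/

open MeasureTheory Set Filter Topology
open scoped ENNReal NNReal

namespace Pool.Agent.ILL

section
variable {Λ : Type} [Fintype Λ] [DecidableEq Λ]

/-- composition with a countable index -/
private theorem twm_idx {X Y I : Type} [MeasurableSpace X] [MeasurableSpace Y] [Finite I]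
    {T : X → Y} (hT : Measurable T) {κ : X → I} (hκ : ∀ j, MeasurableSet {x | κ x = j})
    {G : Y → I → ℝ} (hG : ∀ i, Measurable fun y => G y i) :
    Measurable fun x => G (T x) (κ x) := by
  let _ : MeasurableSpace I := ⊤
  have : Countable I := Finite.to_countable
  have h1 : Measurable κ := measurable_to_countable' hκ
  have h2 : Measurable (fun p : Y × I => G p.1 p.2) :=
    measurable_from_prod_countable_left hG
  exact h2.comp (hT.prodMk h1)

private theorem twm_app {X : Type*} [MeasurableSpace X] {A B : X → Pl} (hA : Measurable A)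
    (hB : Measurable B) (a b : Equiv.Perm Λ) (q q' : Λ) :
    MeasurableSet {x | tau a b (A x) (B x) q = q'} := by
  have e : {x | tau a b (A x) (B x) q = q'} =
      ⋃ g : {g : Equiv.Perm Λ // g q = q'}, {x | tau a b (A x) (B x) = g.1} := by
    ext x
    simp only [mem_ofPred_eq, mem_iUnion]
    constructor
    · intro h
      exact ⟨⟨_, h⟩, rfl⟩
    · rintro ⟨⟨g, hg⟩, h⟩
      simp only at h
      rw [h]
      exact hg
  rw [e]
  exact MeasurableSet.iUnion fun g => meas_tau_comp a b hA hB g.1

private theorem twm_mv : Measurable fun p : SLR × Pl => mv p.1 p.2 := continuous_mv.measurable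

/-- the end points are measurable -/
private theorem twm_pt {X : Type*} [MeasurableSpace X] {h : X → SLR} (hh : Measurable h)
    {P v : X → Pl} (hP : Measurable P) (hv : Measurable v) :
    Measurable fun x => P x + mv (h x) (v x) :=
  hP.add (twm_mv.comp (hh.prodMk hv))

private theorem twm_labQ {X : Type*} [MeasurableSpace X] {A B : X → Pl} (hA : Measurable A)
    (hB : Measurable B) (i j : Lab Λ) :
    MeasurableSet {x | labQ (fun a b => tau a b (A x) (B x)) i = j} := by
  have e : {x | labQ (fun a b => tau a b (A x) (B x)) i = j} =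
      {x | (i.1 = j.1 ∧ i.2.1 = j.2.1 ∧ i.2.2.1 = j.2.2.1) ∧
        tau i.1 i.2.1 (A x) (B x) i.2.2.2 = j.2.2.2} := by
    ext x
    simp only [labQ, Equiv.coe_fn_mk, mem_ofPred_eq, Prod.ext_iff]
    tauto
  rw [e]
  exact (MeasurableSet.const _).inter (twm_app hA hB _ _ _ _)

theorem wPhi_meas (s : ℝ) : (wPhi (Λ := Λ) s).Meas := by
  intro i j
  exact twm_labQ (twm_pt measurable_fst measurable_snd measurable_const)
    (twm_pt measurable_fst measurable_snd measurable_const) i j

theorem wB_meas (u : ℝ) : (wB (Λ := Λ) u).Meas := by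
  intro i j
  exact twm_labQ (twm_pt measurable_fst measurable_snd measurable_const)
    (twm_pt measurable_fst measurable_snd measurable_const) i j

private theorem twm_vexp {X : Type*} [MeasurableSpace X] {A : X → Pl} (hA : Measurable A)
    (g : Equiv.Perm Λ) (q q' : Λ) : MeasurableSet {x | (g ^ vexp (A x)) q = q'} := by
  have h1 : Measurable fun x => vexp (A x) := measurable_vexp.comp hA
  exact h1 (MeasurableSet.of_discrete (s := {k : ℤ | (g ^ k) q = q'}))

theorem wU_meas : (wU (Λ := Λ)).Meas := by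
  intro i j
  have e : {x : SLR × Pl | (wU (Λ := Λ)).σ x i = j} =
      {x | (i.1 = j.1 ∧ i.2.1 * i.1⁻¹ = j.2.1)} ∩
        ({x | (i.1 ^ vexp x.2) i.2.2.1 = j.2.2.1} ∩
        {x | (i.1 ^ vexp (x.2 + mv x.1 (1, 0))) i.2.2.2 = j.2.2.2}) := by
    ext x
    simp only [wU, labU, Equiv.coe_fn_mk, mem_ofPred_eq, Prod.ext_iff, mem_inter_iff]
    tauto
  rw [e]
  exact (MeasurableSet.const _).inter ((twm_vexp measurable_snd _ _ _).inter
    (twm_vexp (twm_pt measurable_fst measurable_snd measurable_const) _ _ _))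

theorem wL_meas : (wL (Λ := Λ)).Meas := by
  intro i j
  have e : {x : SLR × Pl | (wL (Λ := Λ)).σ x i = j} =
      {x | (i.1 * i.2.1⁻¹ = j.1 ∧ i.2.1 = j.2.1)} ∩
        ({x | (i.2.1 ^ vexp x.2) i.2.2.1 = j.2.2.1} ∩
        {x | (i.2.1 ^ vexp (x.2 + mv x.1 (1, 0))) i.2.2.2 = j.2.2.2}) := by
    ext x
    simp only [wL, labL, Equiv.coe_fn_mk, mem_ofPred_eq, Prod.ext_iff, mem_inter_iff]
    tauto
  rw [e]
  exact (MeasurableSet.const _).inter ((twm_vexp measurable_snd _ _ _).inter
    (twm_vexp (twm_pt measurable_fst measurable_snd measurable_const) _ _ _))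

theorem wT_meas (z : ℤ × ℤ) : (wT (Λ := Λ) z).Meas := by
  intro i j
  simp only [wT]
  exact MeasurableSet.const _

theorem act_measurable {X I : Type} [MeasurableSpace X] [Finite I] {w : Tw X I} (hw : w.Meas)
    {G : X → I → ℝ} (hG : ∀ i, Measurable fun x => G x i) (i : I) :
    Measurable fun x => w.act G x i :=
  twm_idx w.T.measurable (hw i) hG

theorem act_joint {G : SLR × Pl → Lab Λ → ℝ} (hG : ∀ i, Measurable fun x => G x i) (i : Lab Λ) :
    Measurable fun p : ℝ × (SLR × Pl) => (wPhi p.1).act G p.2 i := by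
  have hn : Measurable fun s : ℝ => nl (-s) := by
    apply Continuous.measurable
    apply Continuous.subtype_mk
    refine continuous_matrix fun i j => ?_
    fin_cases i <;> fin_cases j <;> simp <;> fun_prop
  have hT : Measurable fun p : ℝ × (SLR × Pl) => (p.2.1 * nl (-p.1), p.2.2) :=
    ((measurable_fst.comp measurable_snd).mul (hn.comp measurable_fst)).prodMk
      (measurable_snd.comp measurable_snd)
  have hκ : ∀ j, MeasurableSet {p : ℝ × (SLR × Pl) | labQ (fun a b =>
      tau a b (p.2.2 + mv p.2.1 (1, 0)) (p.2.2 + mv p.2.1 (1, -p.1))) i = j} := by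
    intro j
    refine twm_labQ (twm_pt (measurable_fst.comp measurable_snd) (measurable_snd.comp measurable_snd)
      measurable_const) (twm_pt (measurable_fst.comp measurable_snd)
      (measurable_snd.comp measurable_snd) ?_) i j
    exact measurable_const.prodMk measurable_fst.neg
  exact twm_idx hT hκ hG

private theorem ind_measurable (i : Lab Λ) : Measurable fun x => ind x i := by
  unfold ind
  refine Measurable.ite ?_ measurable_const measurable_const
  refine MeasurableSet.inter ?_ ?_
  · exact measurable_snd (meas_adm i.1 i.2.1 i.2.2.1)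
  · have h := twm_app (Λ := Λ) (A := fun x : SLR × Pl => x.2)
      (B := fun x => x.2 + mv x.1 (1, 0)) measurable_snd
      (twm_pt measurable_fst measurable_snd measurable_const) i.1 i.2.1 i.2.2.1 i.2.2.2
    have e : {x : SLR × Pl | i.2.2.2 = tau i.1 i.2.1 x.2 (x.2 + mv x.1 (1, 0)) i.2.2.1} =
        {x | tau i.1 i.2.1 x.2 (x.2 + mv x.1 (1, 0)) i.2.2.1 = i.2.2.2} := by
      ext x
      exact eq_comm
    change MeasurableSet {x : SLR × Pl | i.2.2.2 =
      tau i.1 i.2.1 x.2 (x.2 + mv x.1 (1, 0)) i.2.2.1}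
    rw [e]
    exact h

theorem f0_measurable (i : Lab Λ) : Measurable fun x => f0 x i := by
  unfold f0 avgN
  refine (ind_measurable i).sub (Measurable.div_const ?_ _)
  exact Finset.measurable_fun_sum _ fun n _ => ind_measurable _

private theorem ind_bd (x : SLR × Pl) (i : Lab Λ) : 0 ≤ ind x i ∧ ind x i ≤ 1 := by
  unfold ind
  split_ifs <;> simp

theorem f0_bound (x : SLR × Pl) (i : Lab Λ) : |f0 x i| ≤ 1 := by
  have h1 := ind_bd x i
  have h2 := avgN_bound i.1 i.2.1 (φ := fun q => ind x (i.1, i.2.1, i.2.2.1, q)) (m := 0) (M := 1)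
    (fun q => ind_bd x _) i.2.2.2
  unfold f0
  rw [abs_le]
  constructor <;> linarith [h1.1, h1.2, h2.1, h2.2]

private theorem act_bd (w : Tw (SLR × Pl) (Lab Λ)) (x : SLR × Pl) (i : Lab Λ) :
    ‖w.act f0 x i‖ ≤ 1 := f0_bound (w.T x) (w.σ x i)

private theorem twm_int {Y : Type*} [MeasurableSpace Y] {F : Y × ℝ → ℝ} (hF : Measurable F)
    (S : ℝ) : Measurable fun y => ∫ s in (0 : ℝ)..S, F (y, s) := by
  unfold intervalIntegral
  exact (hF.stronglyMeasurable.integral_prod_right' (ν := volume.restrict (Ioc 0 S))).measurable.sub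
    (hF.stronglyMeasurable.integral_prod_right' (ν := volume.restrict (Ioc S 0))).measurable

private theorem act_comp {X : Type*} [MeasurableSpace X] {s : X → ℝ} {y : X → SLR × Pl}
    (hs : Measurable s) (hy : Measurable y) (i : Lab Λ) :
    Measurable fun p => (wPhi (s p)).act f0 (y p) i := by
  have h1 : Measurable fun p => (s p, y p) := hs.prodMk hy
  exact Measurable.comp (g := fun p : ℝ × (SLR × Pl) => (wPhi p.1).act f0 p.2 i)
    (f := fun p => (s p, y p)) (act_joint (G := f0) f0_measurable i) h1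

theorem AS_measurable (S : ℝ) (i : Lab Λ) : Measurable fun x => AS S x i := by
  unfold AS
  refine measurable_const.mul ?_
  have h : Measurable fun p : (SLR × Pl) × ℝ => (wPhi (-p.2)).act f0 p.1 i :=
    act_comp (s := fun p : (SLR × Pl) × ℝ => -p.2) (y := fun p => p.1) measurable_snd.neg
      measurable_fst i
  exact twm_int (F := fun p : (SLR × Pl) × ℝ => (wPhi (-p.2)).act f0 p.1 i) h S

theorem AS_bound {S : ℝ} (hS : 0 < S) (x : SLR × Pl) (i : Lab Λ) : |AS S x i| ≤ 1 := by
  have h := intervalIntegral.norm_integral_le_of_norm_le_const (a := (0 : ℝ)) (b := S) (C := 1)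
    (f := fun s => (wPhi (-s)).act f0 x i) (fun s _ => act_bd (wPhi (-s)) x i)
  rw [Real.norm_eq_abs, sub_zero, abs_of_pos hS, one_mul] at h
  unfold AS
  rw [abs_mul, abs_of_pos (one_div_pos.2 hS)]
  calc 1 / S * |∫ s in (0 : ℝ)..S, (wPhi (-s)).act f0 x i| ≤ 1 / S * S :=
        mul_le_mul_of_nonneg_left h (one_div_pos.2 hS).le
    _ = 1 := by field_simp

theorem FS_measurable (S : ℝ) (i : Lab Λ) : Measurable fun x => FS S x i := by
  unfold FS
  refine measurable_const.mul ?_
  have h : Measurable fun p : ((SLR × Pl) × ℝ) × ℝ => (wPhi (p.1.2 - p.2)).act f0 p.1.1 i :=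
    act_comp (s := fun p : ((SLR × Pl) × ℝ) × ℝ => p.1.2 - p.2) (y := fun p => p.1.1)
      ((measurable_snd.comp measurable_fst).sub measurable_snd)
      (measurable_fst.comp measurable_fst) i
  have h2 := twm_int (F := fun p : ((SLR × Pl) × ℝ) × ℝ => (wPhi (p.1.2 - p.2)).act f0 p.1.1 i) h S
  exact twm_int (F := fun q : (SLR × Pl) × ℝ =>
    ∫ s' in (0 : ℝ)..S, (wPhi (q.2 - s')).act f0 q.1 i) h2 S

theorem FS_bound {S : ℝ} (hS : 0 < S) (x : SLR × Pl) (i : Lab Λ) : |FS S x i| ≤ 1 := by
  have h0 : ∀ s : ℝ, ‖∫ s' in (0 : ℝ)..S, (wPhi (s - s')).act f0 x i‖ ≤ S := by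
    intro s
    have h := intervalIntegral.norm_integral_le_of_norm_le_const (a := (0 : ℝ)) (b := S) (C := 1)
      (f := fun s' => (wPhi (s - s')).act f0 x i) (fun s' _ => act_bd (wPhi (s - s')) x i)
    rw [sub_zero, abs_of_pos hS, one_mul] at h
    exact h
  have h := intervalIntegral.norm_integral_le_of_norm_le_const (a := (0 : ℝ)) (b := S) (C := S)
    (f := fun s => ∫ s' in (0 : ℝ)..S, (wPhi (s - s')).act f0 x i) (fun s _ => h0 s)
  rw [Real.norm_eq_abs, sub_zero, abs_of_pos hS] at h
  unfold FS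
  have hS2 : 0 < 1 / S ^ 2 := by positivity
  rw [abs_mul, abs_of_pos hS2]
  calc 1 / S ^ 2 * |∫ s in (0 : ℝ)..S, ∫ s' in (0 : ℝ)..S, (wPhi (s - s')).act f0 x i|
      ≤ 1 / S ^ 2 * (S * S) := mul_le_mul_of_nonneg_left h hS2.le
    _ = 1 := by field_simp

theorem EE_measurable (S : ℝ) : Measurable (EE Λ S) := by
  unfold EE
  exact Finset.measurable_fun_sum _ fun i _ => (AS_measurable S i).pow_const 2

theorem EE_nonneg (S : ℝ) (x : SLR × Pl) : 0 ≤ EE Λ S x :=
  Finset.sum_nonneg fun _ _ => sq_nonneg _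

theorem EE_bound {S : ℝ} (hS : 0 < S) (x : SLR × Pl) : EE Λ S x ≤ Fintype.card (Lab Λ) := by
  unfold EE
  have h : ∀ i ∈ (Finset.univ : Finset (Lab Λ)), (AS S x i) ^ 2 ≤ (1 : ℝ) := by
    intro i _
    have h1 := abs_le.1 (AS_bound hS x i)
    nlinarith [h1.1, h1.2]
  calc ∑ i : Lab Λ, (AS S x i) ^ 2 ≤ ∑ i : Lab Λ, (1 : ℝ) := Finset.sum_le_sum h
    _ = Fintype.card (Lab Λ) := by simp

end

end Pool.Agent.ILL
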