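import Pool.Agent.ILL.Gna
import Pool.Agent.ILL.Ape
import Pool.Agent.ILL.Twm
import Pool.Agent.ILL.Mpx

/-!
# F0A. `f0` is twisted invariant

`ind (eL gU x) (labU x i) = ind x i` for `Gen1` pairs: `i = (a,b,q₀,q)`; with `b' = b a⁻¹`:
`adm a b' (UP) (a^(vexp P) q₀) ↔ adm a (b' a) P q₀ = adm a b P q₀` (`adm_U`), and
`tau a b' (UP) (UQ) (a^(vexp P) q₀) = a^(vexp Q) (tau a b P Q q₀)` (`apex_U`, `Gen1.apex`), so the equation
`a^(vexp Q) q = tau a b' (UP) (UQ) (...)` is `q = tau a b P Q q₀`. (`UQ = UP + mv (gU h) (1,0)`.)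
Average: `Nc a (b a⁻¹) = Nc a b` (`Nc_U`) and `avgN_smul` with `g = a^(vexp Q)`:
`avgN (q' ↦ ind (eL gU x) (a,b',a^(vexp P) q₀,q')) (a^(vexp Q) q) = avgN (q' ↦ ind x (a,b,q₀,q')) q`.
The same for `gL` (`adm_L`, `apex_L`, `Nc_L`), and translations: `tau_add_int`, `adm_add_int`.
-/

open MeasureTheory Set Filter Topology
open scoped ENNReal NNReal

namespace Pool.Agent.ILL

section
variable {Λ : Type} [Fintype Λ] [DecidableEq Λ]

private theorem ind_congr {x y : SLR × Pl} {i j : Lab Λ}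
    (h : (adm i.1 i.2.1 x.2 i.2.2.1 ∧
      i.2.2.2 = tau i.1 i.2.1 x.2 (x.2 + mv x.1 (1, 0)) i.2.2.1) ↔
      (adm j.1 j.2.1 y.2 j.2.2.1 ∧
      j.2.2.2 = tau j.1 j.2.1 y.2 (y.2 + mv y.1 (1, 0)) j.2.2.1)) : ind x i = ind y j := by
  unfold ind
  by_cases h2 : adm j.1 j.2.1 y.2 j.2.2.1 ∧
      j.2.2.2 = tau j.1 j.2.1 y.2 (y.2 + mv y.1 (1, 0)) j.2.2.1
  · rw [if_pos (h.2 h2), if_pos h2]
  · rw [if_neg (fun h3 => h2 (h.1 h3)), if_neg h2]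

private theorem ind_U {x : SLR × Pl} (hx : Gen1 x.1 x.2) (a b : Equiv.Perm Λ) (q₀ q : Λ) :
    ind (eL gU x) (a, b * a⁻¹, (a ^ vexp x.2) q₀, (a ^ vexp (x.2 + mv x.1 (1, 0))) q) =
      ind x (a, b, q₀, q) := by
  have hQ : mv (toR gU) x.2 + mv (toR gU * x.1) (1, 0) =
      ((x.2 + mv x.1 (1, 0)).1 + (x.2 + mv x.1 (1, 0)).2, (x.2 + mv x.1 (1, 0)).2) := by
    rw [mv_mul, ← mv_add, mv_gU]
  have hab : b * a⁻¹ * a = b := by group
  have hadm := adm_U a (b * a⁻¹) x.2 q₀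
  rw [hab] at hadm
  refine ind_congr ?_
  simp only [eL_apply]
  rw [hQ, mv_gU, hadm]
  refine and_congr_right fun ha => ?_
  have h2 := apex_U (a := a) (b := b * a⁻¹) (P := x.2) (B := x.2 + mv x.1 (1, 0)) (q₀ := q₀)
    (by rw [hab]; exact ha) (hx.apex 1)
  rw [hab] at h2
  rw [h2]
  exact (a ^ vexp (x.2 + mv x.1 (1, 0))).injective.eq_iff

private theorem ind_L {x : SLR × Pl} (hx : Gen1 x.1 x.2) (a b : Equiv.Perm Λ) (q₀ q : Λ) :
    ind (eL gL x) (a * b⁻¹, b, (b ^ vexp x.2) q₀, (b ^ vexp (x.2 + mv x.1 (1, 0))) q) =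
      ind x (a, b, q₀, q) := by
  have hQ : mv (toR gL) x.2 + mv (toR gL * x.1) (1, 0) =
      ((x.2 + mv x.1 (1, 0)).1, (x.2 + mv x.1 (1, 0)).1 + (x.2 + mv x.1 (1, 0)).2) := by
    rw [mv_mul, ← mv_add, mv_gL]
  have hab : a * b⁻¹ * b = a := by group
  have hadm := adm_L (a * b⁻¹) b x.2 q₀
  rw [hab] at hadm
  refine ind_congr ?_
  simp only [eL_apply]
  rw [hQ, mv_gL, hadm]
  refine and_congr_right fun ha => ?_
  have h2 := apex_L (a := a * b⁻¹) (b := b) (P := x.2) (B := x.2 + mv x.1 (1, 0)) (q₀ := q₀)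
    (by rw [hab]; exact ha) (hx.apex 1)
  rw [hab] at h2
  rw [h2]
  exact (b ^ vexp (x.2 + mv x.1 (1, 0))).injective.eq_iff

/-- pointwise invariance at `Gen1` pairs -/
theorem f0_wU {x : SLR × Pl} (hx : Gen1 x.1 x.2) (i : Lab Λ) : wU.act f0 x i = f0 x i := by
  obtain ⟨a, b, q₀, q⟩ := i
  show f0 (eL gU x) (a, b * a⁻¹, (a ^ vexp x.2) q₀, (a ^ vexp (x.2 + mv x.1 (1, 0))) q) =
    f0 x (a, b, q₀, q)
  unfold f0
  rw [ind_U hx]
  congr 1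
  show avgN a (b * a⁻¹) (fun q' => ind (eL gU x) (a, b * a⁻¹, (a ^ vexp x.2) q₀, q'))
    ((a ^ vexp (x.2 + mv x.1 (1, 0))) q) = avgN a b (fun q' => ind x (a, b, q₀, q')) q
  have hg : a ^ vexp (x.2 + mv x.1 (1, 0)) ∈ Subgroup.closure {a, b * a⁻¹} :=
    Subgroup.zpow_mem _ (Subgroup.subset_closure (by simp)) _
  rw [← avgN_smul a (b * a⁻¹) hg]
  have e : (fun q' => ind (eL gU x) (a, b * a⁻¹, (a ^ vexp x.2) q₀,
      (a ^ vexp (x.2 + mv x.1 (1, 0))) q')) = fun q' => ind x (a, b, q₀, q') :=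
    funext fun q' => ind_U hx a b q₀ q'
  rw [e]
  exact avgN_congr_pair a b (Nc_U a b) _ _

theorem f0_wL {x : SLR × Pl} (hx : Gen1 x.1 x.2) (i : Lab Λ) : wL.act f0 x i = f0 x i := by
  obtain ⟨a, b, q₀, q⟩ := i
  show f0 (eL gL x) (a * b⁻¹, b, (b ^ vexp x.2) q₀, (b ^ vexp (x.2 + mv x.1 (1, 0))) q) =
    f0 x (a, b, q₀, q)
  unfold f0
  rw [ind_L hx]
  congr 1
  show avgN (a * b⁻¹) b (fun q' => ind (eL gL x) (a * b⁻¹, b, (b ^ vexp x.2) q₀, q'))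
    ((b ^ vexp (x.2 + mv x.1 (1, 0))) q) = avgN a b (fun q' => ind x (a, b, q₀, q')) q
  have hg : b ^ vexp (x.2 + mv x.1 (1, 0)) ∈ Subgroup.closure {a * b⁻¹, b} :=
    Subgroup.zpow_mem _ (Subgroup.subset_closure (by simp)) _
  rw [← avgN_smul (a * b⁻¹) b hg]
  have e : (fun q' => ind (eL gL x) (a * b⁻¹, b, (b ^ vexp x.2) q₀,
      (b ^ vexp (x.2 + mv x.1 (1, 0))) q')) = fun q' => ind x (a, b, q₀, q') :=
    funext fun q' => ind_L hx a b q₀ q'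
  rw [e]
  exact avgN_congr_pair a b (Nc_L a b) _ _

private theorem ind_T (z : ℤ × ℤ) (x : SLR × Pl) (i : Lab Λ) :
    ind (x.1, x.2 + ZP z) i = ind x i := by
  have h1 : x.2 + ZP z + mv x.1 (1, 0) = x.2 + mv x.1 (1, 0) + ZP z := by abel
  refine ind_congr ?_
  simp only
  rw [adm_add_int, h1, tau_add_int]

theorem f0_wT (z : ℤ × ℤ) (x : SLR × Pl) (i : Lab Λ) : (wT z).act f0 x i = f0 x i := by
  show f0 (x.1, x.2 + ZP z) i = f0 x i
  unfold f0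
  simp only [ind_T]

theorem f0_autW {ρ : Measure Pl} (hρ : PerMeas ρ) : AutW ρ (f0 (Λ := Λ)) where
  U := by
    filter_upwards [gen1_aeX hρ] with x hx i
    exact f0_wU hx i
  L := by
    filter_upwards [gen1_aeX hρ] with x hx i
    exact f0_wL hx i
  t1 := Eventually.of_forall fun x i => f0_wT (1, 0) x i
  t2 := Eventually.of_forall fun x i => f0_wT (0, 1) x i

end

end Pool.Agent.ILL
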