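import Pool.Agent.ILL.Twm

/-!
# TWB. Weak limits and twisted maps

If `∫ F_j(·,i) φ → ∫ W(·,i) φ` for all `i` and all integrable `φ`, the same holds for `w.act F_j` and
`w.act W`.
PROOF. `∫ F_j(Tx, σ(x) i) φ(x) dν(x) = Σ_k ∫ F_j(Tx, k) 1[σ(x) i = k] φ(x) dν(x)
= Σ_k ∫ F_j(y, k) (1[σ(·) i = k] φ)(T⁻¹ y) dν(y)` (`T` is a measure preserving measurable equivalence), and
the functions `(1[σ(·) i = k] φ) ∘ T⁻¹` are integrable. Pass to the limit in the finite sum and go back.
-/

open MeasureTheory Set Filter Topology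
open scoped ENNReal NNReal

namespace Pool.Agent.ILL

theorem weak_act {X I : Type} [MeasurableSpace X] [Fintype I] [DecidableEq I] {ν : Measure X}
    {w : Tw X I} (hT : MeasurePreserving w.T ν ν) (hw : w.Meas) {ι : Type} {l : Filter ι}
    {F : ι → X → I → ℝ} {W : X → I → ℝ} (hF : ∀ j i, Measurable fun x => F j x i)
    (hW : ∀ i, Measurable fun x => W x i) {C : ℝ} (hb : ∀ j x i, |F j x i| ≤ C)
    (hbW : ∀ x i, |W x i| ≤ C)
    (h : ∀ i, ∀ φ : X → ℝ, Integrable φ ν →
      Tendsto (fun j => ∫ x, F j x i * φ x ∂ν) l (𝓝 (∫ x, W x i * φ x ∂ν))) :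
    ∀ i, ∀ φ : X → ℝ, Integrable φ ν →
      Tendsto (fun j => ∫ x, w.act (F j) x i * φ x ∂ν) l (𝓝 (∫ x, w.act W x i * φ x ∂ν)) := by
  intro i φ hφ
  set ψ : I → X → ℝ := fun k y => ({x | w.σ x i = k}.indicator φ) (w.T.symm y) with hψ
  have hψi : ∀ k, Integrable (ψ k) ν := by
    intro k
    have h1 : Integrable ({x | w.σ x i = k}.indicator φ) ν := hφ.indicator (hw i k)
    exact ((hT.symm w.T).integrable_comp_emb w.T.symm.measurableEmbedding).2 h1
  have key : ∀ G : X → I → ℝ, (∀ i, Measurable fun x => G x i) → (∀ x i, |G x i| ≤ C) →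
      ∫ x, w.act G x i * φ x ∂ν = ∑ k, ∫ y, G y k * ψ k y ∂ν := by
    intro G hG hGb
    have h2 : ∀ k, Integrable (fun y => G y k * ψ k y) ν := by
      intro k
      exact (hψi k).bdd_mul (c := C) (hG k).aestronglyMeasurable
        (Eventually.of_forall fun x => by simpa [Real.norm_eq_abs] using hGb x k)
    have h3 : ∀ k, ∫ y, G y k * ψ k y ∂ν =
        ∫ x, G (w.T x) k * ({x | w.σ x i = k}.indicator φ) x ∂ν := by
      intro k
      rw [← hT.integral_comp' (fun y => G y k * ψ k y)]
      simp only [hψ, MeasurableEquiv.symm_apply_apply]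
    have h4 : ∀ k, Integrable (fun x => G (w.T x) k * ({x | w.σ x i = k}.indicator φ) x) ν := by
      intro k
      have := (hT.integrable_comp_emb w.T.measurableEmbedding).2 (h2 k)
      refine this.congr (Eventually.of_forall fun x => ?_)
      simp only [Function.comp, hψ, MeasurableEquiv.symm_apply_apply]
    rw [Finset.sum_congr rfl fun k _ => h3 k, ← integral_finsetSum _ fun k _ => h4 k]
    refine integral_congr_ae (Eventually.of_forall fun x => ?_)
    simp only [Tw.act]
    rw [Finset.sum_eq_single (w.σ x i)]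
    · rw [indicator_of_mem]
      exact rfl
    · intro k _ hk
      rw [indicator_of_notMem, mul_zero]
      exact fun h => hk (Eq.symm h)
    · intro h
      exact absurd (Finset.mem_univ _) h
  rw [key W hW hbW]
  simp_rw [fun j => key (F j) (hF j) (hb j)]
  exact tendsto_finsetSum _ fun k _ => h k (ψ k) (hψi k)

end Pool.Agent.ILL
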