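import Pool.Agent.ILL.Gna
import Pool.Agent.ILL.Twm

/-!
# TWF. The flow property

For every `Gen1` pair `x = (h,P)` and all `s, s'`: the transports along the line `{P + mv h (1,y)}` are
additive (`Gen1.vert3` and `tau_tri`), so
`(wPhi s).act ((wPhi s').act G) x i = (wPhi (s+s')).act G x i`: base: `h nl(-s) nl(-s') = h nl(-(s+s'))`;
label: `tau` from `(1,-s)` to `(1,-s-s')` after `tau` from `(1,0)` to `(1,-s)`; note
`mv (h nl(-s)) (1,0) = mv h (1,-s)`, `mv (h nl(-s)) (1,-s') = mv h (1,-s-s')`. `wPhi_zero`: `tau_self`.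
`Gen1` itself may fail at `eR (nl (-s)) x` only through the third condition; the additivity only uses the
first one, which holds for `h nl(-s)` as well: `(mv (h n)⁻¹ v).1 = (mv h⁻¹ v).1` for lower unipotent `n`.
-/

open MeasureTheory Set Filter Topology
open scoped ENNReal NNReal

namespace Pool.Agent.ILL

theorem TWF_nl_zero : nl 0 = 1 := by
  refine Matrix.SpecialLinearGroup.ext _ _ fun i j => ?_
  fin_cases i <;> fin_cases j <;> simp [nl]

theorem TWF_nl_mul (s t : ℝ) : nl s * nl t = nl (s + t) := by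
  refine Matrix.SpecialLinearGroup.ext _ _ fun i j => ?_
  fin_cases i <;> fin_cases j <;> simp [nl, Matrix.mul_apply, Fin.sum_univ_two]

theorem TWF_mv_nl (s y : ℝ) : mv (nl s) (1, y) = (1, s + y) := by
  simp [mv, nl]

section
variable {Λ : Type} [Fintype Λ] [DecidableEq Λ]

theorem wPhi_zero (G : SLR × Pl → Lab Λ → ℝ) (x : SLR × Pl) (i : Lab Λ) :
    (wPhi 0).act G x i = G x i := by
  change G (x.1 * nl (-0), x.2) (i.1, i.2.1, i.2.2.1,
    tau i.1 i.2.1 (x.2 + mv x.1 (1, 0)) (x.2 + mv x.1 (1, -0)) i.2.2.2) = G x i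
  rw [neg_zero, TWF_nl_zero, mul_one, tau_self]
  rfl

theorem wPhi_add {x : SLR × Pl} (hx : Gen1 x.1 x.2) (s s' : ℝ) (G : SLR × Pl → Lab Λ → ℝ)
    (i : Lab Λ) : (wPhi s).act ((wPhi s').act G) x i = (wPhi (s + s')).act G x i := by
  change G (x.1 * nl (-s) * nl (-s'), x.2) (i.1, i.2.1, i.2.2.1,
    tau i.1 i.2.1 (x.2 + mv (x.1 * nl (-s)) (1, 0)) (x.2 + mv (x.1 * nl (-s)) (1, -s'))
      (tau i.1 i.2.1 (x.2 + mv x.1 (1, 0)) (x.2 + mv x.1 (1, -s)) i.2.2.2)) =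
    G (x.1 * nl (-(s + s')), x.2) (i.1, i.2.1, i.2.2.1,
    tau i.1 i.2.1 (x.2 + mv x.1 (1, 0)) (x.2 + mv x.1 (1, -(s + s'))) i.2.2.2)
  have e1 : -s + -s' = -(s + s') := by ring
  rw [mul_assoc, TWF_nl_mul, mv_mul, mv_mul, TWF_mv_nl, TWF_mv_nl, add_zero, e1,
    ← tau_tri i.1 i.2.1 (hx.vert3 0 (-s) (-(s + s')))]
  rfl

end

end Pool.Agent.ILL
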