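import Pool.Agent.ILL.Defs

/-!
# WLM. Weak limits of bounded functions (Mathlib only)

PROOF. `ν` is σ-finite: there is a measurable `w > 0` with `∫ w dν < ∞`
(`exists_pos_lintegral_lt_of_sigmaFinite`); put `ν' = w ν`, a finite measure. For `φ ∈ L²(ν')` the limit
`Λ(φ) = lim_𝒰 ∫ F_j φ dν'` exists (bounded real family along an ultrafilter: the closed ball is compact,
`Ultrafilter` convergence), is linear and `|Λ(φ)| ≤ C ∫ |φ| dν' ≤ C ν'(X)^(1/2) ‖φ‖₂`. By the Riesz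
representation theorem (`InnerProductSpace.toDual`) there is `W' ∈ L²(ν')` with `Λ(φ) = ∫ W' φ dν'`.
Testing with `φ = 1_{W' > C}` and `φ = -1_{W' < -C}` gives `|W'| ≤ C` almost everywhere; let `W` be a measurable
representative truncated to `[-C, C]`. Then for `φ` integrable for `ν` put `φ' = φ/w ∈ L¹(ν')`;
approximate `φ'` in `L¹(ν')` by bounded functions `φ'_k` (truncation): both sides change by at most
`C ‖φ' - φ'_k‖₁` uniformly in `j`, and for bounded functions the convergence is the definition of `Λ`.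
(`∫ F_j φ dν = ∫ F_j φ' dν'`.) If `X` is empty or `C < 0` treat separately (then `X` is empty).

`weak_unique`: test with indicators of sets of finite measure: if `∫ W φ = ∫ W' φ` for all
integrable `φ` then `W = W'` a.e. (`ae_eq_of_forall_setIntegral_eq` type lemma for σ-finite measures).
-/

open MeasureTheory Set Filter Topology
open scoped ENNReal NNReal

namespace Pool.Agent.ILL

private theorem weak_hilbert {E : Type*} [NormedAddCommGroup E] [InnerProductSpace ℝ E]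
    [CompleteSpace E] {ι : Type} (𝒰 : Ultrafilter ι) (f : ι → E) {B : ℝ} (hB : ∀ j, ‖f j‖ ≤ B) :
    ∃ W : E, ∀ y : E, Tendsto (fun j => inner ℝ (f j) y) (𝒰 : Filter ι) (𝓝 (inner ℝ W y)) := by
  have hc := WeakDual.isCompact_closedBall (𝕜 := ℝ) (E := E) 0 B
  let a : ι → WeakDual ℝ E := fun j =>
    StrongDual.toWeakDual (InnerProductSpace.toDual ℝ E (f j))
  have ha : ∀ j, a j ∈ (WeakDual.toStrongDual ⁻¹' Metric.closedBall (0 : StrongDual ℝ E) B) := by
    intro j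
    rw [Set.mem_preimage, mem_closedBall_zero_iff]
    show ‖InnerProductSpace.toDual ℝ E (f j)‖ ≤ B
    rw [LinearIsometryEquiv.norm_map]
    exact hB j
  obtain ⟨x, _, hx⟩ := hc.ultrafilter_le_nhds' (𝒰.map a)
    (Filter.mem_map.2 (Filter.univ_mem' ha))
  refine ⟨(InnerProductSpace.toDual ℝ E).symm (WeakDual.toStrongDual x), fun y => ?_⟩
  have h := tendsto_iff_forall_eval_tendsto_topDualPairing.1
    (show Tendsto a (𝒰 : Filter ι) (𝓝 x) from hx) y
  have h2 : inner ℝ ((InnerProductSpace.toDual ℝ E).symm (WeakDual.toStrongDual x)) y =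
      topDualPairing ℝ E x y := by
    rw [InnerProductSpace.toDual_symm_apply]
    rfl
  rw [h2]
  exact h

private theorem weak_fin {X : Type} [MeasurableSpace X] (ν : Measure X) [IsFiniteMeasure ν]
    {ι : Type} (𝒰 : Ultrafilter ι) (F : ι → X → ℝ) (hm : ∀ j, Measurable (F j)) {C : ℝ}
    (hC : 0 ≤ C) (hb : ∀ j x, |F j x| ≤ C) :
    ∃ W : X → ℝ, Measurable W ∧ (∀ x, |W x| ≤ C) ∧ ∀ φ : X → ℝ, MemLp φ 2 ν →
      Tendsto (fun j => ∫ x, F j x * φ x ∂ν) (𝒰 : Filter ι) (𝓝 (∫ x, W x * φ x ∂ν)) := by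
  have hF : ∀ j, MemLp (F j) 2 ν := fun j =>
    MemLp.of_bound (hm j).aestronglyMeasurable C (Filter.Eventually.of_forall fun x => hb j x)
  have hnorm : ∀ j, ‖(hF j).toLp (F j)‖ ≤
      measureUnivNNReal ν ^ (2 : ℝ≥0∞).toReal⁻¹ * C := by
    intro j
    apply Lp.norm_le_of_ae_bound hC
    filter_upwards [(hF j).coeFn_toLp] with x hx
    rw [hx]
    exact hb j x
  obtain ⟨W', hW'⟩ := weak_hilbert 𝒰 (fun j => (hF j).toLp (F j)) hnorm
  have hWm : Measurable (W' : X → ℝ) := (Lp.stronglyMeasurable W').measurable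
  have hW2 : MemLp (W' : X → ℝ) 2 ν := Lp.memLp W'
  have hWi : Integrable (W' : X → ℝ) ν := hW2.integrable one_le_two
  have key : ∀ φ : X → ℝ, MemLp φ 2 ν →
      Tendsto (fun j => ∫ x, F j x * φ x ∂ν) (𝒰 : Filter ι) (𝓝 (∫ x, W' x * φ x ∂ν)) := by
    intro φ hφ
    have h := hW' (hφ.toLp φ)
    have h1 : ∀ j, inner ℝ ((hF j).toLp (F j)) (hφ.toLp φ) = ∫ x, F j x * φ x ∂ν := by
      intro j
      rw [L2.inner_def]
      apply integral_congr_ae
      filter_upwards [(hF j).coeFn_toLp, hφ.coeFn_toLp] with x hx hx'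
      rw [hx, hx']
      exact mul_comm _ _
    have h2 : inner ℝ W' (hφ.toLp φ) = ∫ x, W' x * φ x ∂ν := by
      rw [L2.inner_def]
      apply integral_congr_ae
      filter_upwards [hφ.coeFn_toLp] with x hx'
      rw [hx']
      exact mul_comm _ _
    simp only [h1] at h
    rw [h2] at h
    exact h
  have hset : ∀ s : Set X, MeasurableSet s →
      Tendsto (fun j => ∫ x in s, F j x ∂ν) (𝒰 : Filter ι) (𝓝 (∫ x in s, W' x ∂ν)) := by
    intro s hs
    have h := key (s.indicator fun _ => 1) (memLp_indicator_const 2 hs 1 (Or.inr (measure_ne_top ν s)))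
    have e : ∀ G : X → ℝ, ∫ x, G x * s.indicator (fun _ => (1 : ℝ)) x ∂ν = ∫ x in s, G x ∂ν := by
      intro G
      rw [← integral_indicator hs]
      congr 1
      funext x
      by_cases hx : x ∈ s
      · rw [Set.indicator_of_mem hx, Set.indicator_of_mem hx, mul_one]
      · rw [Set.indicator_of_notMem hx, Set.indicator_of_notMem hx, mul_zero]
    simp only [e] at h
    exact h
  have hFi : ∀ j, Integrable (F j) ν := fun j => (hF j).integrable one_le_two
  have hup : ∀ᵐ x ∂ν, W' x ≤ C := by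
    apply ae_le_of_forall_setIntegral_le hWi (integrable_const C)
    intro s hs _
    refine le_of_tendsto (hset s hs) (Filter.Eventually.of_forall fun j => ?_)
    exact setIntegral_mono (hFi j).integrableOn (integrable_const C).integrableOn
      fun x => (abs_le.1 (hb j x)).2
  have hlo : ∀ᵐ x ∂ν, -C ≤ W' x := by
    apply ae_le_of_forall_setIntegral_le (integrable_const (-C)) hWi
    intro s hs _
    refine ge_of_tendsto (hset s hs) (Filter.Eventually.of_forall fun j => ?_)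
    exact setIntegral_mono (integrable_const (-C)).integrableOn (hFi j).integrableOn
      fun x => (abs_le.1 (hb j x)).1
  refine ⟨fun x => max (-C) (min C (W' x)), measurable_const.max (measurable_const.min hWm),
    fun x => ?_, fun φ hφ => ?_⟩
  · rw [abs_le]
    exact ⟨le_max_left _ _, max_le (by linarith) (min_le_left _ _)⟩
  · have h2 : ∫ x, max (-C) (min C (W' x)) * φ x ∂ν = ∫ x, W' x * φ x ∂ν := by
      apply integral_congr_ae
      filter_upwards [hup, hlo] with x h1 h2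
      rw [min_eq_right h1, max_eq_right h2]
    rw [h2]
    exact key φ hφ

private theorem weak_fin1 {X : Type} [MeasurableSpace X] (ν : Measure X) [IsFiniteMeasure ν]
    {ι : Type} (𝒰 : Ultrafilter ι) (F : ι → X → ℝ) (hm : ∀ j, Measurable (F j)) {C : ℝ}
    (hC : 0 ≤ C) (hb : ∀ j x, |F j x| ≤ C) :
    ∃ W : X → ℝ, Measurable W ∧ (∀ x, |W x| ≤ C) ∧ ∀ φ : X → ℝ, Integrable φ ν →
      Tendsto (fun j => ∫ x, F j x * φ x ∂ν) (𝒰 : Filter ι) (𝓝 (∫ x, W x * φ x ∂ν)) := by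
  obtain ⟨W, hW1, hW2, hW3⟩ := weak_fin ν 𝒰 F hm hC hb
  refine ⟨W, hW1, hW2, fun φ hφ => ?_⟩
  have hint : ∀ G : X → ℝ, Measurable G → (∀ x, |G x| ≤ C) → ∀ ψ : X → ℝ, Integrable ψ ν →
      Integrable (fun x => G x * ψ x) ν := by
    intro G hG hGb ψ hψ
    exact hψ.bdd_mul hG.aestronglyMeasurable (Filter.Eventually.of_forall hGb)
  have hbd : ∀ G : X → ℝ, Measurable G → (∀ x, |G x| ≤ C) → ∀ ψ : X → ℝ, Integrable ψ ν →
      |∫ x, G x * ψ x ∂ν| ≤ C * ∫ x, |ψ x| ∂ν := by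
    intro G hG hGb ψ hψ
    rw [← integral_const_mul]
    refine (abs_integral_le_integral_abs).trans (integral_mono (hint G hG hGb ψ hψ).abs
      (hψ.abs.const_mul C) fun x => ?_)
    show |G x * ψ x| ≤ C * |ψ x|
    rw [abs_mul]
    exact mul_le_mul_of_nonneg_right (hGb x) (abs_nonneg _)
  rw [Metric.tendsto_nhds]
  intro ε hε
  set δ : ℝ := ε / (4 * (C + 1)) with hδ
  have hδ0 : 0 < δ := by positivity
  obtain ⟨ψ, hψ1, hψ2, hψ3⟩ : ∃ ψ : X → ℝ, eLpNorm (φ - ψ) 1 ν < ENNReal.ofReal δ ∧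
      MemLp ψ 1 ν ∧ MemLp ψ 2 ν := by
    obtain ⟨ψ, hψ1, hψ2⟩ := (memLp_one_iff_integrable.2 hφ).exists_simpleFunc_eLpNorm_sub_lt
      (by norm_num) (ENNReal.ofReal_pos.2 hδ0).ne'
    exact ⟨ψ, hψ1, hψ2, ψ.memLp_of_isFiniteMeasure 2 ν⟩
  have hψi : Integrable ψ ν := memLp_one_iff_integrable.1 hψ2
  have hsub : Integrable (φ - ψ) ν := hφ.sub hψi
  have hδ1 : ∫ x, |(φ - ψ) x| ∂ν < δ := by
    have h1 : ENNReal.ofReal (∫ x, |(φ - ψ) x| ∂ν) < ENNReal.ofReal δ := by
      have h2 : ∫ x, |(φ - ψ) x| ∂ν = ∫ x, ‖(φ - ψ) x‖ ∂ν := rfl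
      rw [h2, ofReal_integral_norm_eq_lintegral_enorm hsub, ← eLpNorm_one_eq_lintegral_enorm]
      exact hψ1
    exact (ENNReal.ofReal_lt_ofReal_iff hδ0).1 h1
  have h3 := Metric.tendsto_nhds.1 (hW3 ψ hψ3) (ε / 2) (by positivity)
  filter_upwards [h3] with j hj
  rw [Real.dist_eq] at hj ⊢
  have split : ∀ G : X → ℝ, Measurable G → (∀ x, |G x| ≤ C) →
      ∫ x, G x * φ x ∂ν = ∫ x, G x * ψ x ∂ν + ∫ x, G x * (φ - ψ) x ∂ν := by
    intro G hG hGb
    rw [← integral_add (hint G hG hGb _ hψi) (hint G hG hGb _ hsub)]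
    refine integral_congr_ae (Filter.Eventually.of_forall fun x => ?_)
    show G x * φ x = G x * ψ x + G x * (φ x - ψ x)
    ring
  rw [split (F j) (hm j) (hb j), split W hW1 hW2]
  have h4 := hbd (F j) (hm j) (hb j) _ hsub
  have h5 := hbd W hW1 hW2 _ hsub
  have h6 : C * ∫ x, |(φ - ψ) x| ∂ν ≤ C * δ := mul_le_mul_of_nonneg_left hδ1.le hC
  have h7 : C * δ ≤ ε / 4 := by
    rw [hδ]
    rw [mul_div_assoc', div_le_div_iff₀ (by positivity) (by norm_num)]
    nlinarith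
  have h8 : |∫ x, F j x * ψ x ∂ν + ∫ x, F j x * (φ - ψ) x ∂ν -
      (∫ x, W x * ψ x ∂ν + ∫ x, W x * (φ - ψ) x ∂ν)| ≤
      |∫ x, F j x * ψ x ∂ν - ∫ x, W x * ψ x ∂ν| + |∫ x, F j x * (φ - ψ) x ∂ν| +
        |∫ x, W x * (φ - ψ) x ∂ν| := by
    have e : ∫ x, F j x * ψ x ∂ν + ∫ x, F j x * (φ - ψ) x ∂ν -
      (∫ x, W x * ψ x ∂ν + ∫ x, W x * (φ - ψ) x ∂ν) =
      (∫ x, F j x * ψ x ∂ν - ∫ x, W x * ψ x ∂ν) + ∫ x, F j x * (φ - ψ) x ∂ν +
        (-∫ x, W x * (φ - ψ) x ∂ν) := by ring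
    rw [e]
    refine (abs_add_le _ _).trans ?_
    rw [abs_neg]
    exact add_le_add_left (abs_add_le _ _) _
  linarith

theorem weak_limit {X : Type} [MeasurableSpace X] (ν : Measure X) [SigmaFinite ν] {ι : Type}
    (𝒰 : Ultrafilter ι) (F : ι → X → ℝ) (hm : ∀ j, Measurable (F j)) {C : ℝ} (hC : 0 ≤ C)
    (hb : ∀ j x, |F j x| ≤ C) :
    ∃ W : X → ℝ, Measurable W ∧ (∀ x, |W x| ≤ C) ∧ ∀ φ : X → ℝ, Integrable φ ν →
      Tendsto (fun j => ∫ x, F j x * φ x ∂ν) (𝒰 : Filter ι) (𝓝 (∫ x, W x * φ x ∂ν)) := by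
  obtain ⟨g, hg0, hgm, hgf⟩ := exists_pos_lintegral_lt_of_sigmaFinite ν
    (ε := 1) one_ne_zero
  have hfin : IsFiniteMeasure (ν.withDensity fun x => (g x : ℝ≥0∞)) :=
    isFiniteMeasure_withDensity (hgf.trans ENNReal.one_lt_top).ne
  obtain ⟨W, hW1, hW2, hW3⟩ := weak_fin1 (ν.withDensity fun x => (g x : ℝ≥0∞)) 𝒰 F hm hC hb
  refine ⟨W, hW1, hW2, fun φ hφ => ?_⟩
  have hgφ : ∀ x, g x • ((g x : ℝ)⁻¹ * φ x) = φ x := by
    intro x
    rw [NNReal.smul_def, smul_eq_mul, ← mul_assoc, mul_inv_cancel₀, one_mul]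
    exact_mod_cast (hg0 x).ne'
  have h1 : Integrable (fun x => (g x : ℝ)⁻¹ * φ x) (ν.withDensity fun x => (g x : ℝ≥0∞)) := by
    rw [integrable_withDensity_iff_integrable_smul hgm]
    simp only [hgφ]
    exact hφ
  have h2 := hW3 _ h1
  have h3 : ∀ G : X → ℝ, ∫ x, G x * ((g x : ℝ)⁻¹ * φ x) ∂(ν.withDensity fun x => (g x : ℝ≥0∞)) =
      ∫ x, G x * φ x ∂ν := by
    intro G
    rw [integral_withDensity_eq_integral_smul hgm]
    refine integral_congr_ae (Filter.Eventually.of_forall fun x => ?_)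
    show g x • (G x * ((g x : ℝ)⁻¹ * φ x)) = G x * φ x
    rw [← mul_smul_comm, hgφ]
  simp only [h3] at h2
  exact h2

theorem weak_unique {X : Type} [MeasurableSpace X] (ν : Measure X) [SigmaFinite ν]
    {W W' : X → ℝ} (h1 : Measurable W) (h2 : Measurable W') {C : ℝ} (hb1 : ∀ x, |W x| ≤ C)
    (hb2 : ∀ x, |W' x| ≤ C)
    (h : ∀ φ : X → ℝ, Integrable φ ν → ∫ x, W x * φ x ∂ν = ∫ x, W' x * φ x ∂ν) :
    W =ᵐ[ν] W' := by
  apply ae_eq_of_forall_setIntegral_eq_of_sigmaFinite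
  · intro s hs hs'
    have : IsFiniteMeasure (ν.restrict s) := ⟨by rwa [Measure.restrict_apply_univ]⟩
    exact Integrable.of_bound h1.aestronglyMeasurable C (Filter.Eventually.of_forall hb1)
  · intro s hs hs'
    have : IsFiniteMeasure (ν.restrict s) := ⟨by rwa [Measure.restrict_apply_univ]⟩
    exact Integrable.of_bound h2.aestronglyMeasurable C (Filter.Eventually.of_forall hb2)
  · intro s hs hs'
    have h3 := h (s.indicator fun _ => 1) ((integrable_indicator_iff hs).2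
      (integrableOn_const hs'.ne))
    have e : ∀ G : X → ℝ, ∫ x, G x * s.indicator (fun _ => (1 : ℝ)) x ∂ν = ∫ x in s, G x ∂ν := by
      intro G
      rw [← integral_indicator hs]
      congr 1
      funext x
      by_cases hx : x ∈ s
      · rw [Set.indicator_of_mem hx, Set.indicator_of_mem hx, mul_one]
      · rw [Set.indicator_of_notMem hx, Set.indicator_of_notMem hx, mul_zero]
    rw [e, e] at h3
    exact h3

end Pool.Agent.ILL
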