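import Pool.Agent.ILL.Twc
import Pool.Agent.ILL.Twf
import Pool.Agent.ILL.F0a
import Pool.Agent.ILL.Twb
import Pool.Agent.ILL.Wlm

/-!
# WKF. The weak limit of the self-correlation averages

Let `𝒰` be an ultrafilter on `ℝ` containing all `[S₀,∞)`. Apply `weak_limit` to the functions
`FS S (·) i` (replace `FS S` by `0` for `S ≤ 0`, which is irrelevant along `𝒰`) for every `i`: this gives `F`.
* `AutW`: `w.act (FS S) = FS S` a.e. for `w = wU, wL, wT`: `(wPhi q).act f0` is twisted invariant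
  (`AutW.wPhi`), for almost all `x` for all `q` in the integral: either by Fubini, or pointwise for `Gen1`
  pairs; then `weak_act` and `weak_unique`.
* flow invariance: `(wPhi q).act (FS S) x i = S⁻² ∫∫ (wPhi (q+s-s')).act f0 x i` for `Gen1` pairs; shifting
  the variable `s` by `q` changes the integral by at most `2|q| S`, so
  `|(wPhi q).act (FS S) - FS S| ≤ 2|q|/S → 0`; again `weak_act`, `weak_unique`.
* `avgL F = 0`: `avgL (FS S) = 0` (`avgL_wPhi`, `avgL_f0`, linearity of the integral), and `avgL` is a finite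
  linear combination of the components with constant coefficients, so `∫ avgL F (·,i) φ = 0` for all
  integrable `φ`.
* convergence of the pairing: `φ = 1_DF f0(·,i)` is integrable.
-/

open MeasureTheory Set Filter Topology
open scoped ENNReal NNReal

namespace Pool.Agent.ILL

/-- the double average -/
private noncomputable def wkfJ (S : ℝ) (g : ℝ → ℝ) : ℝ :=
  ∫ s in (0 : ℝ)..S, ∫ s' in (0 : ℝ)..S, g (s - s')

private theorem wkf_ii {g : ℝ → ℝ} (hg : Measurable g) (hb : ∀ r, |g r| ≤ 1) (a b : ℝ) :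
    IntervalIntegrable g volume a b := by
  rw [intervalIntegrable_iff]
  refine Measure.integrableOn_of_bounded (M := 1) (by simp) hg.aestronglyMeasurable
    (Eventually.of_forall fun x => by rw [Real.norm_eq_abs]; exact hb x)

private theorem wkf_inner {g : ℝ → ℝ} (hg : Measurable g) (hb : ∀ r, |g r| ≤ 1) (S s : ℝ) :
    ∫ s' in (0 : ℝ)..S, g (s - s') =
      (∫ r in (0 : ℝ)..s, g r) - ∫ r in (0 : ℝ)..(s - S), g r := by
  rw [intervalIntegral.integral_comp_sub_left (fun r => g r) s, sub_zero,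
    intervalIntegral.integral_interval_sub_left (wkf_ii hg hb _ _) (wkf_ii hg hb _ _)]

private theorem wkf_cont {g : ℝ → ℝ} (hg : Measurable g) (hb : ∀ r, |g r| ≤ 1) (S : ℝ) :
    Continuous fun s => ∫ s' in (0 : ℝ)..S, g (s - s') := by
  have h1 : Continuous fun b => ∫ r in (0 : ℝ)..b, g r :=
    intervalIntegral.continuous_primitive (fun a b => wkf_ii hg hb a b) 0
  have h2 : (fun s => ∫ s' in (0 : ℝ)..S, g (s - s')) =
      fun s => (∫ r in (0 : ℝ)..s, g r) - ∫ r in (0 : ℝ)..(s - S), g r := by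
    funext s
    exact wkf_inner hg hb S s
  rw [h2]
  exact h1.sub (h1.comp (continuous_id.sub continuous_const))

private theorem wkf_lip {g : ℝ → ℝ} (hg : Measurable g) (hb : ∀ r, |g r| ≤ 1) (a b : ℝ) :
    |(∫ r in (0 : ℝ)..a, g r) - ∫ r in (0 : ℝ)..b, g r| ≤ |a - b| := by
  rw [intervalIntegral.integral_interval_sub_left (wkf_ii hg hb _ _) (wkf_ii hg hb _ _)]
  have := intervalIntegral.norm_integral_le_of_norm_le_const (a := b) (b := a) (f := g) (C := 1)
    (fun x _ => by rw [Real.norm_eq_abs]; exact hb x)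
  rwa [Real.norm_eq_abs, one_mul] at this

private theorem wkf_shift {g : ℝ → ℝ} (hg : Measurable g) (hb : ∀ r, |g r| ≤ 1) {S : ℝ}
    (hS : 0 < S) (q : ℝ) : |wkfJ S (fun r => g (q + r)) - wkfJ S g| ≤ 2 * |q| * S := by
  unfold wkfJ
  have hg' : Measurable fun r => g (q + r) := hg.comp (measurable_const.add measurable_id)
  rw [← intervalIntegral.integral_sub ((wkf_cont hg' (fun r => hb (q + r)) S).intervalIntegrable _ _)
    ((wkf_cont hg hb S).intervalIntegrable _ _)]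
  have h1 : ∀ s : ℝ, ‖(∫ s' in (0 : ℝ)..S, g (q + (s - s'))) - ∫ s' in (0 : ℝ)..S, g (s - s')‖ ≤
      2 * |q| := by
    intro s
    have e1 : ∫ s' in (0 : ℝ)..S, g (q + (s - s')) = ∫ s' in (0 : ℝ)..S, g ((q + s) - s') := by
      congr 1
      funext s'
      congr 1
      ring
    rw [e1, wkf_inner hg hb, wkf_inner hg hb, Real.norm_eq_abs]
    have e2 := wkf_lip hg hb (q + s) s
    have e3 := wkf_lip hg hb (q + s - S) (s - S)
    have e4 : q + s - s = q := by ring
    have e5 : q + s - S - (s - S) = q := by ring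
    rw [e4] at e2
    rw [e5] at e3
    rw [abs_le] at e2 e3 ⊢
    constructor <;> linarith [e2.1, e2.2, e3.1, e3.2]
  have h2 := intervalIntegral.norm_integral_le_of_norm_le_const (a := 0) (b := S)
    (f := fun s => (∫ s' in (0 : ℝ)..S, g (q + (s - s'))) - ∫ s' in (0 : ℝ)..S, g (s - s'))
    (C := 2 * |q|) (fun s _ => h1 s)
  rwa [sub_zero, abs_of_pos hS, Real.norm_eq_abs] at h2

private theorem wkf_congr {g g' : ℝ → ℝ} (h : g =ᵐ[volume] g') (S : ℝ) : wkfJ S g = wkfJ S g' := by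
  unfold wkfJ
  congr 1
  funext s
  rw [intervalIntegral.integral_comp_sub_left (fun r => g r) s,
    intervalIntegral.integral_comp_sub_left (fun r => g' r) s]
  exact intervalIntegral.integral_congr_ae (h.mono fun x hx _ => hx)

private theorem wkf_sum {ι : Type} (t : Finset ι) {g : ι → ℝ → ℝ} (hg : ∀ n, Measurable (g n))
    (hb : ∀ n r, |g n r| ≤ 1) (S : ℝ) :
    wkfJ S (fun r => ∑ n ∈ t, g n r) = ∑ n ∈ t, wkfJ S (g n) := by
  unfold wkfJ
  rw [← intervalIntegral.integral_finsetSum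
    (fun n _ => (wkf_cont (hg n) (hb n) S).intervalIntegrable _ _)]
  congr 1
  funext s
  rw [intervalIntegral.integral_finsetSum]
  intro n _
  exact wkf_ii ((hg n).comp (measurable_const.sub measurable_id)) (fun r => hb n (s - r)) _ _

section
variable {Λ : Type} [Fintype Λ] [DecidableEq Λ] {ρ : Measure Pl}

/-- the correlation function -/
private noncomputable def wkfg (i : Lab Λ) (p : ℝ × (SLR × Pl)) : ℝ := (wPhi p.1).act f0 p.2 i

private theorem wkfg_meas (i : Lab Λ) : Measurable (wkfg i) :=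
  act_joint (G := f0) (fun i => f0_measurable i) i

private theorem wkf_FS (S : ℝ) (x : SLR × Pl) (i : Lab Λ) :
    FS S x i = (1 / S ^ 2) * wkfJ S (fun r => wkfg i (r, x)) := rfl

private theorem wkf_gm (x : SLR × Pl) (i : Lab Λ) :
    Measurable fun r : ℝ => wkfg i (r, x) :=
  (wkfg_meas i).comp measurable_prodMk_right

private theorem wkf_gb (x : SLR × Pl) (i : Lab Λ) (r : ℝ) : |wkfg i (r, x)| ≤ 1 :=
  f0_bound _ _

/-- truncated to positive `S` -/
private noncomputable def wkfF (S : ℝ) (x : SLR × Pl) (i : Lab Λ) : ℝ := if 0 < S then FS S x i else 0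

private theorem wkfF_meas (S : ℝ) (i : Lab Λ) : Measurable fun x => wkfF S x i := by
  unfold wkfF
  split_ifs
  · exact FS_measurable S i
  · exact measurable_const

private theorem wkfF_bd (S : ℝ) (x : SLR × Pl) (i : Lab Λ) : |wkfF S x i| ≤ 1 := by
  unfold wkfF
  split_ifs with h
  · exact FS_bound h x i
  · rw [abs_zero]; exact zero_le_one

private theorem wkfF_eq {S : ℝ} (hS : 0 < S) : wkfF (Λ := Λ) S = FS S := by
  funext x i
  unfold wkfF
  rw [if_pos hS]

/-- invariance of the weak limit -/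
private theorem wkf_inv (hρ : PerMeas ρ) {𝒰 : Ultrafilter ℝ} (h𝒰 : (𝒰 : Filter ℝ) ≤ atTop)
    {F : SLR × Pl → Lab Λ → ℝ} (hF : ∀ i, Measurable fun x => F x i) (hFb : ∀ x i, |F x i| ≤ 1)
    (hconv : ∀ i, ∀ φ : SLR × Pl → ℝ, Integrable φ (muG.prod ρ) →
      Tendsto (fun S => ∫ x, wkfF S x i * φ x ∂(muG.prod ρ)) (𝒰 : Filter ℝ)
        (𝓝 (∫ x, F x i * φ x ∂(muG.prod ρ))))
    (w : Tw (SLR × Pl) (Lab Λ)) (hT : MeasurePreserving w.T (muG.prod ρ) (muG.prod ρ))
    (hw : w.Meas) {K : ℝ}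
    (hK : ∀ᵐ x ∂(muG.prod ρ), ∀ S : ℝ, 0 < S → ∀ i, |w.act (FS S) x i - FS S x i| ≤ K / S) :
    ∀ᵐ x ∂(muG.prod ρ), ∀ i, w.act F x i = F x i := by
  have := hρ.sf
  rw [ae_all_iff]
  intro i
  have hwF : Measurable fun x => w.act F x i := act_measurable hw hF i
  refine weak_unique (muG.prod ρ) hwF (hF i) (C := 1) (fun x => hFb _ _) (fun x => hFb _ _) ?_
  intro φ hφ
  have h1 := weak_act hT hw (F := fun S => wkfF S) (W := F) (fun S i => wkfF_meas S i) hF (C := 1)
    (fun S x i => wkfF_bd S x i) hFb hconv i φ hφ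
  have h2 := hconv i φ hφ
  have h3 := h1.sub h2
  have h4 : Tendsto (fun S : ℝ => (K / S) * ∫ x, |φ x| ∂(muG.prod ρ)) (𝒰 : Filter ℝ) (𝓝 0) := by
    have e1 : Tendsto (fun S : ℝ => K / S) atTop (𝓝 0) := tendsto_const_nhds.div_atTop tendsto_id
    have e2 := (e1.mono_left h𝒰).mul_const (∫ x, |φ x| ∂(muG.prod ρ))
    rwa [zero_mul] at e2
  have h5 : Tendsto (fun S => (∫ x, w.act (wkfF S) x i * φ x ∂(muG.prod ρ)) -
      ∫ x, wkfF S x i * φ x ∂(muG.prod ρ)) (𝒰 : Filter ℝ) (𝓝 0) := by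
    refine squeeze_zero_norm' ?_ h4
    have e0 : ∀ᶠ S : ℝ in (𝒰 : Filter ℝ), 0 < S := h𝒰 (eventually_gt_atTop 0)
    filter_upwards [e0] with S hS
    have hm1 : Measurable fun x => w.act (wkfF S) x i := act_measurable hw (wkfF_meas S) i
    have i1 : Integrable (fun x => w.act (wkfF S) x i * φ x) (muG.prod ρ) :=
      hφ.bdd_mul (c := 1) hm1.aestronglyMeasurable
        (Eventually.of_forall fun x => by rw [Real.norm_eq_abs]; exact wkfF_bd S _ _)
    have i2 : Integrable (fun x => wkfF S x i * φ x) (muG.prod ρ) :=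
      hφ.bdd_mul (c := 1) (wkfF_meas S i).aestronglyMeasurable
        (Eventually.of_forall fun x => by rw [Real.norm_eq_abs]; exact wkfF_bd S _ _)
    rw [← integral_sub i1 i2, ← integral_const_mul]
    refine norm_integral_le_of_norm_le (hφ.abs.const_mul _) ?_
    filter_upwards [hK] with x hx
    have e1 := hx S hS i
    rw [← sub_mul, norm_mul, Real.norm_eq_abs, Real.norm_eq_abs, wkfF_eq hS]
    exact mul_le_mul_of_nonneg_right e1 (abs_nonneg _)
  have h6 := tendsto_nhds_unique h3 h5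
  linarith

/-- invariance of the self-correlation averages under a twisted map which commutes with the flow -/
private theorem wkf_aut (hρ : PerMeas ρ) (w : Tw (SLR × Pl) (Lab Λ))
    (hw : w.Meas) (h : ∀ q : ℝ, ∀ᵐ x ∂(muG.prod ρ), ∀ i,
      wkfg (w.σ x i) (q, w.T x) = wkfg i (q, x)) :
    ∀ᵐ x ∂(muG.prod ρ), ∀ S : ℝ, 0 < S → ∀ i, |w.act (FS S) x i - FS S x i| ≤ 0 / S := by
  have := hρ.sf
  -- measurability of the exceptional set
  have hm : ∀ i : Lab Λ, MeasurableSet {p : ℝ × (SLR × Pl) |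
      wkfg (w.σ p.2 i) (p.1, w.T p.2) = wkfg i p} := by
    intro i
    have m2 : Measurable fun p : ℝ × (SLR × Pl) => wkfg (w.σ p.2 i) (p.1, w.T p.2) := by
      have e1 : (fun p : ℝ × (SLR × Pl) => wkfg (w.σ p.2 i) (p.1, w.T p.2)) =
          fun p => ∑ k : Lab Λ, ({x | w.σ x i = k}.indicator (fun _ => (1 : ℝ)) p.2) *
            wkfg k (p.1, w.T p.2) := by
        funext p
        rw [Finset.sum_eq_single (w.σ p.2 i)]
        · rw [indicator_of_mem (show p.2 ∈ {x | w.σ x i = w.σ p.2 i} from rfl), one_mul]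
        · intro k _ hk
          rw [indicator_of_notMem (fun h0 => hk h0.symm), zero_mul]
        · intro h0
          exact absurd (Finset.mem_univ _) h0
      rw [e1]
      refine Finset.measurable_sum _ fun k _ => ?_
      have m3 : Measurable fun p : ℝ × (SLR × Pl) => (p.1, w.T p.2) :=
        measurable_fst.prodMk (w.T.measurable.comp measurable_snd)
      have m4 : Measurable fun p : ℝ × (SLR × Pl) => wkfg k (p.1, w.T p.2) :=
        (wkfg_meas k).comp m3
      have m5 : Measurable fun p : ℝ × (SLR × Pl) =>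
          {x | w.σ x i = k}.indicator (fun _ => (1 : ℝ)) p.2 :=
        (measurable_const.indicator (hw i k)).comp measurable_snd
      exact m5.mul m4
    exact measurableSet_eq_fun m2 (wkfg_meas i)
  have hae : ∀ᵐ x ∂(muG.prod ρ), ∀ i, ∀ᵐ q : ℝ,
      wkfg (w.σ x i) (q, w.T x) = wkfg i (q, x) := by
    rw [ae_all_iff]
    intro i
    have h1 : ∀ᵐ q : ℝ, ∀ᵐ x ∂(muG.prod ρ),
        wkfg (w.σ x i) (q, w.T x) = wkfg i (q, x) :=
      Eventually.of_forall fun q => (h q).mono fun x hx => hx i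
    exact (Measure.ae_ae_comm (μ := (volume : Measure ℝ)) (ν := muG.prod ρ)
      (p := fun q x => wkfg (w.σ x i) (q, w.T x) = wkfg i (q, x)) (hm i)).1 h1
  filter_upwards [hae] with x hx S hS i
  have e1 : w.act (FS S) x i = FS S x i := by
    have e2 : w.act (FS S) x i = (1 / S ^ 2) * wkfJ S (fun r => wkfg (w.σ x i) (r, w.T x)) := rfl
    rw [e2, wkf_FS, wkf_congr (hx i) S]
  rw [e1, sub_self, abs_zero, zero_div]

private theorem wkf_flow (hρ : PerMeas ρ) (q : ℝ) :
    ∀ᵐ x ∂(muG.prod ρ), ∀ S : ℝ, 0 < S → ∀ i : Lab Λ,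
      |(wPhi q).act (FS S) x i - FS S x i| ≤ (2 * |q|) / S := by
  filter_upwards [gen1_aeX hρ] with x hx S hS i
  have e1 : (wPhi q).act (FS S) x i = (1 / S ^ 2) * wkfJ S (fun r => wkfg i (q + r, x)) := by
    have e2 : (wPhi q).act (FS S) x i =
      (1 / S ^ 2) * wkfJ S (fun r => (wPhi q).act ((wPhi r).act f0) x i) := rfl
    rw [e2]
    congr 2
    funext r
    exact wPhi_add hx q r f0 i
  rw [e1, wkf_FS, ← mul_sub, abs_mul, abs_of_pos (by positivity)]
  have e3 := wkf_shift (wkf_gm x i) (wkf_gb x i) hS q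
  calc (1 / S ^ 2) * |wkfJ S (fun r => wkfg i (q + r, x)) -
        wkfJ S (fun r => wkfg i (r, x))| ≤ (1 / S ^ 2) * (2 * |q| * S) :=
        mul_le_mul_of_nonneg_left e3 (by positivity)
    _ = (2 * |q|) / S := by field_simp

private theorem wkf_avg (S : ℝ) (x : SLR × Pl) (i : Lab Λ) : avgL (FS S) x i = 0 := by
  unfold avgL avgN
  have e1 : ∀ n : Equiv.Perm Λ, FS S x (i.1, i.2.1, i.2.2.1, n i.2.2.2) =
      (1 / S ^ 2) * wkfJ S (fun r => wkfg (i.1, i.2.1, i.2.2.1, n i.2.2.2) (r, x)) :=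
    fun n => rfl
  simp only [e1]
  rw [← Finset.mul_sum, ← wkf_sum (NcF i.1 i.2.1)
    (g := fun n r => wkfg (i.1, i.2.1, i.2.2.1, n i.2.2.2) (r, x))
    (fun n => wkf_gm x _) (fun n => wkf_gb x _)]
  have hcard : ((NcF i.1 i.2.1).card : ℝ) ≠ 0 := by
    have : 1 ∈ NcF i.1 i.2.1 := (mem_NcF i.1 i.2.1).2 (one_mem _)
    exact Nat.cast_ne_zero.2 (Finset.card_ne_zero.2 ⟨1, this⟩)
  have e2 : ∀ r : ℝ, ∑ n ∈ NcF i.1 i.2.1,
      wkfg (i.1, i.2.1, i.2.2.1, n i.2.2.2) (r, x) = 0 := by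
    intro r
    have e3 := avgL_wPhi r f0 x i
    have e4 : (wPhi r).act (avgL f0) x i = 0 := avgL_f0 _ _
    rw [e4] at e3
    unfold avgL avgN at e3
    rw [div_eq_zero_iff] at e3
    exact e3.resolve_right hcard
  have e5 : (fun r : ℝ => ∑ n ∈ NcF i.1 i.2.1,
      wkfg (i.1, i.2.1, i.2.2.1, n i.2.2.2) (r, x)) = fun _ => 0 := funext e2
  rw [e5]
  simp [wkfJ]

end

theorem exists_weak {Λ : Type} [Fintype Λ] [DecidableEq Λ] {ρ : Measure Pl} (hρ : PerMeas ρ)
    (𝒰 : Ultrafilter ℝ) (h𝒰 : (𝒰 : Filter ℝ) ≤ atTop) :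
    ∃ F : SLR × Pl → Lab Λ → ℝ, (∀ i, Measurable fun x => F x i) ∧ (∀ x i, |F x i| ≤ 1) ∧
      AutW ρ F ∧ (∀ q, ∀ᵐ x ∂(muG.prod ρ), ∀ i, (wPhi q).act F x i = F x i) ∧
      (∀ᵐ x ∂(muG.prod ρ), ∀ i, avgL F x i = 0) ∧
      Tendsto (fun S => Pr ρ (f0 (Λ := Λ)) (FS S)) (𝒰 : Filter ℝ) (𝓝 (Pr ρ f0 F)) := by
  have hsf := hρ.sf
  have hex : ∀ i : Lab Λ, ∃ W : SLR × Pl → ℝ, Measurable W ∧ (∀ x, |W x| ≤ 1) ∧
      ∀ φ : SLR × Pl → ℝ, Integrable φ (muG.prod ρ) →
      Tendsto (fun S => ∫ x, wkfF S x i * φ x ∂(muG.prod ρ)) (𝒰 : Filter ℝ)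
        (𝓝 (∫ x, W x * φ x ∂(muG.prod ρ))) := fun i =>
    weak_limit (muG.prod ρ) 𝒰 (fun S x => wkfF S x i) (fun S => wkfF_meas S i) zero_le_one
      (fun S x => wkfF_bd S x i)
  choose W hWm hWb hWc using hex
  let F : SLR × Pl → Lab Λ → ℝ := fun x i => W i x
  have hF : ∀ i, Measurable fun x => F x i := hWm
  have hFb : ∀ x i, |F x i| ≤ 1 := fun x i => hWb i x
  have hconv : ∀ i, ∀ φ : SLR × Pl → ℝ, Integrable φ (muG.prod ρ) →
      Tendsto (fun S => ∫ x, wkfF S x i * φ x ∂(muG.prod ρ)) (𝒰 : Filter ℝ)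
        (𝓝 (∫ x, F x i * φ x ∂(muG.prod ρ))) := hWc
  have e0 : ∀ᶠ S : ℝ in (𝒰 : Filter ℝ), 0 < S := h𝒰 (eventually_gt_atTop 0)
  have hA : ∀ q : ℝ, AutW ρ ((wPhi q).act (f0 (Λ := Λ))) := fun q => (f0_autW hρ).wPhi hρ q
  refine ⟨F, hF, hFb, ⟨?_, ?_, ?_, ?_⟩, ?_, ?_, ?_⟩
  · exact wkf_inv hρ h𝒰 hF hFb hconv wU (mp_eL hρ gU) wU_meas
      (wkf_aut hρ wU wU_meas fun q => (hA q).U)
  · exact wkf_inv hρ h𝒰 hF hFb hconv wL (mp_eL hρ gL) wL_meas
      (wkf_aut hρ wL wL_meas fun q => (hA q).L)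
  · exact wkf_inv hρ h𝒰 hF hFb hconv (wT (1, 0)) (mp_eT hρ (1, 0)) (wT_meas _)
      (wkf_aut hρ (wT (1, 0)) (wT_meas _) fun q => (hA q).t1)
  · exact wkf_inv hρ h𝒰 hF hFb hconv (wT (0, 1)) (mp_eT hρ (0, 1)) (wT_meas _)
      (wkf_aut hρ (wT (0, 1)) (wT_meas _) fun q => (hA q).t2)
  · intro q
    exact wkf_inv hρ h𝒰 hF hFb hconv (wPhi q) (mp_eR hρ (nl (-q))) (wPhi_meas q) (wkf_flow hρ q)
  · rw [ae_all_iff]
    intro i
    have hm : Measurable fun x => avgL F x i := by
      unfold avgL avgN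
      exact (Finset.measurable_sum _ fun n _ => hF _).div_const _
    have hbd : ∀ x, |avgL F x i| ≤ 1 := fun x =>
      abs_le.2 (avgN_bound i.1 i.2.1 (fun q => abs_le.1 (hFb x _)) _)
    refine weak_unique (muG.prod ρ) hm measurable_const hbd (W' := fun _ => 0)
      (fun x => by rw [abs_zero]; exact zero_le_one) ?_
    intro φ hφ
    simp only [zero_mul, integral_zero]
    have h1 : Tendsto (fun S => ∑ n ∈ NcF i.1 i.2.1,
        ∫ x, wkfF S x (i.1, i.2.1, i.2.2.1, n i.2.2.2) * φ x ∂(muG.prod ρ)) (𝒰 : Filter ℝ)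
        (𝓝 (∑ n ∈ NcF i.1 i.2.1,
          ∫ x, F x (i.1, i.2.1, i.2.2.1, n i.2.2.2) * φ x ∂(muG.prod ρ))) :=
      tendsto_finsetSum _ fun n _ => hconv _ φ hφ
    have hlin : ∀ G : SLR × Pl → Lab Λ → ℝ, (∀ i, Measurable fun x => G x i) →
        (∀ x i, |G x i| ≤ 1) → ∑ n ∈ NcF i.1 i.2.1,
          ∫ x, G x (i.1, i.2.1, i.2.2.1, n i.2.2.2) * φ x ∂(muG.prod ρ) =
        ((NcF i.1 i.2.1).card : ℝ) * ∫ x, avgL G x i * φ x ∂(muG.prod ρ) := by
      intro G hG hGb
      have hcard : ((NcF i.1 i.2.1).card : ℝ) ≠ 0 := by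
        have : 1 ∈ NcF i.1 i.2.1 := (mem_NcF i.1 i.2.1).2 (one_mem _)
        exact Nat.cast_ne_zero.2 (Finset.card_ne_zero.2 ⟨1, this⟩)
      rw [← integral_finsetSum]
      · rw [← integral_const_mul]
        congr 1
        funext x
        unfold avgL avgN
        rw [← Finset.sum_mul]
        field_simp
      · intro n _
        exact hφ.bdd_mul (c := 1) (hG _).aestronglyMeasurable
          (Eventually.of_forall fun x => by rw [Real.norm_eq_abs]; exact hGb _ _)
    rw [hlin F hF hFb] at h1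
    have h2 : Tendsto (fun S => ∑ n ∈ NcF i.1 i.2.1,
        ∫ x, wkfF S x (i.1, i.2.1, i.2.2.1, n i.2.2.2) * φ x ∂(muG.prod ρ)) (𝒰 : Filter ℝ)
        (𝓝 0) := by
      refine tendsto_const_nhds.congr' ?_
      filter_upwards [e0] with S hS
      rw [hlin (wkfF S) (wkfF_meas S) (wkfF_bd S), wkfF_eq hS]
      simp only [wkf_avg, zero_mul, integral_zero, mul_zero]
    have h3 := tendsto_nhds_unique h1 h2
    have hcard : ((NcF i.1 i.2.1).card : ℝ) ≠ 0 := by
      have : 1 ∈ NcF i.1 i.2.1 := (mem_NcF i.1 i.2.1).2 (one_mem _)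
      exact Nat.cast_ne_zero.2 (Finset.card_ne_zero.2 ⟨1, this⟩)
    exact (mul_eq_zero.1 h3).resolve_left hcard
  · have hφ : ∀ i : Lab Λ, Integrable (fun x => DF.indicator (fun x => f0 x i) x)
        (muG.prod ρ) := by
      intro i
      rw [integrable_indicator_iff measurableSet_DF]
      exact Measure.integrableOn_of_bounded (M := 1) (DF_fin hρ).ne
        (f0_measurable i).aestronglyMeasurable
        (Eventually.of_forall fun x => by rw [Real.norm_eq_abs]; exact f0_bound x i)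
    have hPr : ∀ G : SLR × Pl → Lab Λ → ℝ, (∀ i, Measurable fun x => G x i) →
        (∀ x i, |G x i| ≤ 1) → Pr ρ f0 G =
        ∑ i : Lab Λ, ∫ x, G x i * DF.indicator (fun x => f0 x i) x ∂(muG.prod ρ) := by
      intro G hG hGb
      unfold Pr
      rw [← integral_finsetSum]
      · rw [← integral_indicator measurableSet_DF]
        congr 1
        funext x
        by_cases hx : x ∈ DF
        · rw [indicator_of_mem hx]
          refine Finset.sum_congr rfl fun i _ => ?_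
          rw [indicator_of_mem hx, mul_comm]
        · rw [indicator_of_notMem hx]
          symm
          refine Finset.sum_eq_zero fun i _ => ?_
          rw [indicator_of_notMem hx, mul_zero]
      · intro i _
        exact (hφ i).bdd_mul (c := 1) (hG _).aestronglyMeasurable
          (Eventually.of_forall fun x => by rw [Real.norm_eq_abs]; exact hGb _ _)
    rw [hPr F hF hFb]
    have h1 : Tendsto (fun S => ∑ i : Lab Λ,
        ∫ x, wkfF S x i * DF.indicator (fun x => f0 x i) x ∂(muG.prod ρ)) (𝒰 : Filter ℝ)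
        (𝓝 (∑ i : Lab Λ, ∫ x, F x i * DF.indicator (fun x => f0 x i) x ∂(muG.prod ρ))) :=
      tendsto_finsetSum _ fun i _ => hconv _ _ (hφ i)
    refine h1.congr' ?_
    filter_upwards [e0] with S hS
    rw [← hPr (wkfF S) (wkfF_meas S) (wkfF_bd S), wkfF_eq hS]

end Pool.Agent.ILL
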