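import Pool.Agent.ILL.Eng
import Pool.Agent.ILL.Wkf
import Pool.Agent.ILL.Rig

/-!
# CCC. Conclusion of part C: the mean energy tends to zero

Let `𝒰` be an ultrafilter finer than `atTop`. By `exists_weak` and `rigidity` `Pr ρ f0 F = 0`
(`F = 0` a.e. on `DF`), so `Pr ρ f0 (FS S) → 0` along `𝒰`, and `energy`. As this holds for all ultrafilters
`𝒰 ≤ atTop`, the limit along `atTop` is `0` (`tendsto_iff_ultrafilter`).

`EE_periodic`: `f0_wT` and `tau_add_int` (exact). `EE_autP`: for `h` with `Gen1 h P` and `x = (h,P)`: for all but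
countably many `s`, `Gen1 (h nl(s)) P` holds (first condition unchanged; the second one says that no lattice
point is on the ray through `P` and `P + mv h (1,s)`: countably many `s`; third: countably many `s`), so by
`f0_wU` at `(h nl(s), P)` and `tau_U` on the line `{P + mv h (1,y)}`
`(wPhi (-s)).act f0 (eL gU x) (labU x i) = (wPhi (-s)).act f0 x i` (computation of TWC); integrate over `s` and
sum the squares over `i` (`labU x` is a permutation). The same for `gL`. `EE_aut`: the same with `gen1_aeX`.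
-/

open MeasureTheory Set Filter Topology
open scoped ENNReal NNReal

namespace Pool.Agent.ILL

theorem CCC_tendsto {Λ : Type} [Fintype Λ] [DecidableEq Λ] {ρ : Measure Pl} (hρ : PerMeas ρ)
    (𝒰 : Ultrafilter ℝ) (h𝒰 : (𝒰 : Filter ℝ) ≤ atTop) :
    Tendsto (fun S : ℝ => ∫ x in DF, EE Λ S x ∂(muG.prod ρ)) (𝒰 : Filter ℝ) (𝓝 0) := by
  obtain ⟨F, hF, hb, hA, hΦ, h0, hlim⟩ := exists_weak (Λ := Λ) hρ 𝒰 h𝒰
  have hN : N1 ρ F = 0 := rigidity hρ hF hb hA hΦ h0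
  unfold N1 at hN
  rw [lintegral_eq_zero_iff (Finset.measurable_sum _ fun i _ => (hF i).enorm)] at hN
  have hP : Pr ρ (f0 (Λ := Λ)) F = 0 := by
    unfold Pr
    apply integral_eq_zero_of_ae
    filter_upwards [hN] with x hx
    have hx' : ∑ i, ‖F x i‖ₑ = 0 := hx
    rw [Finset.sum_eq_zero_iff] at hx'
    apply Finset.sum_eq_zero
    intro i _
    have h1 : F x i = 0 := enorm_eq_zero.1 (hx' i (Finset.mem_univ i))
    rw [h1, mul_zero]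
  rw [hP] at hlim
  refine hlim.congr' ?_
  have h1 : ∀ᶠ S : ℝ in (𝒰 : Filter ℝ), 0 < S := h𝒰 (eventually_gt_atTop 0)
  filter_upwards [h1] with S hS
  exact (energy hρ hS).symm

theorem mean_energy {Λ : Type} [Fintype Λ] [DecidableEq Λ] {ρ : Measure Pl} (hρ : PerMeas ρ) :
    Tendsto (fun S : ℝ => ∫ x in DF, EE Λ S x ∂(muG.prod ρ)) atTop (𝓝 0) := by
  rw [tendsto_iff_ultrafilter]
  intro 𝒰 h𝒰
  exact CCC_tendsto hρ 𝒰 h𝒰

theorem CCC_nl_mv (h : SLR) (s : ℝ) (v : Pl) :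
    mv (h * nl s) v = mv h (v.1, s * v.1 + v.2) := by
  rw [mv_mul]
  congr 1
  ext <;> simp [mv, nl]

theorem CCC_inv_mv (h : SLR) (s : ℝ) (v : Pl) :
    mv (h * nl s)⁻¹ v = ((mv h⁻¹ v).1, (mv h⁻¹ v).2 - s * (mv h⁻¹ v).1) := by
  have h1 : mv (h * nl s) ((mv h⁻¹ v).1, (mv h⁻¹ v).2 - s * (mv h⁻¹ v).1) = v := by
    rw [CCC_nl_mv]
    have h2 : (((mv h⁻¹ v).1, (mv h⁻¹ v).2 - s * (mv h⁻¹ v).1) : Pl).1 = (mv h⁻¹ v).1 := rfl
    have h3 : (((mv h⁻¹ v).1, s * (mv h⁻¹ v).1 + ((mv h⁻¹ v).2 - s * (mv h⁻¹ v).1)) : Pl) =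
        mv h⁻¹ v := by
      ext
      · rfl
      · show s * (mv h⁻¹ v).1 + ((mv h⁻¹ v).2 - s * (mv h⁻¹ v).1) = (mv h⁻¹ v).2
        ring
    show mv h ((mv h⁻¹ v).1, s * (mv h⁻¹ v).1 + ((mv h⁻¹ v).2 - s * (mv h⁻¹ v).1)) = v
    rw [h3, mv_mv_inv]
  conv_lhs => rw [← h1]
  rw [mv_inv_mv]

/-- exceptional values of `s` -/
def CCC_bad (h : SLR) (P : Pl) : Set ℝ :=
  (⋃ z : ℤ × ℤ, {(mv h⁻¹ (ZP z - P)).2 / (mv h⁻¹ (ZP z - P)).1}) ∪
  ((⋃ n : ℤ, {((n : ℝ) - P.1 - h 0 0) / h 0 1}) ∪ (⋃ n : ℤ, {((n : ℝ) - P.2 - h 1 0) / h 1 1}))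

theorem CCC_bad_countable (h : SLR) (P : Pl) : (CCC_bad h P).Countable := by
  unfold CCC_bad
  exact (countable_iUnion fun _ => countable_singleton _).union
    ((countable_iUnion fun _ => countable_singleton _).union
      (countable_iUnion fun _ => countable_singleton _))

theorem CCC_inv {α : Type} (g : Equiv.Perm α) (q : α) : g⁻¹ (g q) = q := g.symm_apply_apply q

theorem CCC_gen {h : SLR} {P : Pl} (hG : Gen1 h P) {s : ℝ} (hs : s ∉ CCC_bad h P) :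
    Gen1 (h * nl s) P := by
  obtain ⟨g1, g2, g3⟩ := hG
  unfold CCC_bad at hs
  simp only [mem_union, mem_iUnion, mem_singleton_iff, not_or, not_exists] at hs
  obtain ⟨s1, s2, s3⟩ := hs
  refine ⟨fun z => ?_, fun z hz => ?_, fun n => ⟨?_, ?_⟩⟩
  · rw [CCC_inv_mv]
    exact g1 z
  · rw [CCC_inv_mv]
    show (mv h⁻¹ (ZP z - P)).2 - s * (mv h⁻¹ (ZP z - P)).1 ≠ 0
    intro h0
    by_cases hc : (mv h⁻¹ (ZP z - P)).1 = 0
    · rw [hc, mul_zero, sub_zero] at h0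
      exact g2 z hz h0
    · apply s1 z
      rw [eq_div_iff hc]
      linarith
  · have e : (P + mv (h * nl s) (1, 0)).1 = (P.1 + h 0 0) + h 0 1 * s := by
      rw [CCC_nl_mv]
      simp [mv]
      ring
    rw [e]
    have e0 : (P + mv h (1, 0)).1 = P.1 + h 0 0 := by simp [mv]
    have g := (g3 n).1
    rw [e0] at g
    intro h0
    by_cases hc : h 0 1 = 0
    · rw [hc, zero_mul, add_zero] at h0
      exact g h0
    · apply s2 n
      rw [eq_div_iff hc]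
      linarith
  · have e : (P + mv (h * nl s) (1, 0)).2 = (P.2 + h 1 0) + h 1 1 * s := by
      rw [CCC_nl_mv]
      simp [mv]
      ring
    rw [e]
    have e0 : (P + mv h (1, 0)).2 = P.2 + h 1 0 := by simp [mv]
    have g := (g3 n).2
    rw [e0] at g
    intro h0
    by_cases hc : h 1 1 = 0
    · rw [hc, zero_mul, add_zero] at h0
      exact g h0
    · apply s3 n
      rw [eq_div_iff hc]
      linarith

section
variable {Λ : Type} [Fintype Λ] [DecidableEq Λ]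

theorem CCC_act (s : ℝ) (x : SLR × Pl) (i : Lab Λ) :
    (wPhi (-s)).act f0 x i = f0 (x.1 * nl s, x.2) (i.1, i.2.1, i.2.2.1,
      tau i.1 i.2.1 (x.2 + mv x.1 (1, 0)) (x.2 + mv x.1 (1, s)) i.2.2.2) := by
  show f0 (x.1 * nl (-(-s)), x.2) (i.1, i.2.1, i.2.2.1,
      tau i.1 i.2.1 (x.2 + mv x.1 (1, 0)) (x.2 + mv x.1 (1, -(-s))) i.2.2.2) = _
  rw [neg_neg]

theorem CCC_U {x : SLR × Pl} (hx : Gen1 x.1 x.2) {s : ℝ} (hs : s ∉ CCC_bad x.1 x.2) (i : Lab Λ) :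
    (wPhi (-s)).act f0 (eL gU x) (labU x i) = (wPhi (-s)).act f0 x i := by
  have hG : Gen1 (x.1 * nl s) x.2 := CCC_gen hx hs
  have hf := f0_wU (Λ := Λ) (x := (x.1 * nl s, x.2)) hG (i.1, i.2.1, i.2.2.1,
      tau i.1 i.2.1 (x.2 + mv x.1 (1, 0)) (x.2 + mv x.1 (1, s)) i.2.2.2)
  rw [CCC_act, CCC_act, ← hf]
  have hQ : x.2 + mv (x.1 * nl s) (1, 0) = x.2 + mv x.1 (1, s) := by
    rw [CCC_nl_mv]
    simp
  have hpt : ∀ v : Pl, mv (toR gU) x.2 + mv (toR gU * x.1) v =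
      ((x.2 + mv x.1 v).1 + (x.2 + mv x.1 v).2, (x.2 + mv x.1 v).2) := by
    intro v
    rw [mv_mul, ← mv_add, mv_gU]
  have htau := tau_U (a := i.1) (b := i.2.1 * i.1⁻¹) (hx.vert 0 s)
  rw [inv_mul_cancel_right] at htau
  show f0 (toR gU * x.1 * nl s, mv (toR gU) x.2) (i.1, i.2.1 * i.1⁻¹, (i.1 ^ vexp x.2) i.2.2.1,
      tau i.1 (i.2.1 * i.1⁻¹) (mv (toR gU) x.2 + mv (toR gU * x.1) (1, 0))
        (mv (toR gU) x.2 + mv (toR gU * x.1) (1, s))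
        ((i.1 ^ vexp (x.2 + mv x.1 (1, 0))) i.2.2.2)) =
    f0 (toR gU * (x.1 * nl s), mv (toR gU) x.2) (i.1, i.2.1 * i.1⁻¹, (i.1 ^ vexp x.2) i.2.2.1,
      (i.1 ^ vexp (x.2 + mv (x.1 * nl s) (1, 0)))
        (tau i.1 i.2.1 (x.2 + mv x.1 (1, 0)) (x.2 + mv x.1 (1, s)) i.2.2.2))
  rw [hQ, hpt, hpt, htau, mul_assoc (toR gU)]
  simp only [Equiv.Perm.mul_apply, CCC_inv]

theorem CCC_L {x : SLR × Pl} (hx : Gen1 x.1 x.2) {s : ℝ} (hs : s ∉ CCC_bad x.1 x.2) (i : Lab Λ) :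
    (wPhi (-s)).act f0 (eL gL x) (labL x i) = (wPhi (-s)).act f0 x i := by
  have hG : Gen1 (x.1 * nl s) x.2 := CCC_gen hx hs
  have hf := f0_wL (Λ := Λ) (x := (x.1 * nl s, x.2)) hG (i.1, i.2.1, i.2.2.1,
      tau i.1 i.2.1 (x.2 + mv x.1 (1, 0)) (x.2 + mv x.1 (1, s)) i.2.2.2)
  rw [CCC_act, CCC_act, ← hf]
  have hQ : x.2 + mv (x.1 * nl s) (1, 0) = x.2 + mv x.1 (1, s) := by
    rw [CCC_nl_mv]
    simp
  have hpt : ∀ v : Pl, mv (toR gL) x.2 + mv (toR gL * x.1) v =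
      ((x.2 + mv x.1 v).1, (x.2 + mv x.1 v).1 + (x.2 + mv x.1 v).2) := by
    intro v
    rw [mv_mul, ← mv_add, mv_gL]
  have htau := tau_L (a := i.1 * i.2.1⁻¹) (b := i.2.1) (hx.vert 0 s)
  rw [inv_mul_cancel_right] at htau
  show f0 (toR gL * x.1 * nl s, mv (toR gL) x.2) (i.1 * i.2.1⁻¹, i.2.1, (i.2.1 ^ vexp x.2) i.2.2.1,
      tau (i.1 * i.2.1⁻¹) i.2.1 (mv (toR gL) x.2 + mv (toR gL * x.1) (1, 0))
        (mv (toR gL) x.2 + mv (toR gL * x.1) (1, s))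
        ((i.2.1 ^ vexp (x.2 + mv x.1 (1, 0))) i.2.2.2)) =
    f0 (toR gL * (x.1 * nl s), mv (toR gL) x.2) (i.1 * i.2.1⁻¹, i.2.1, (i.2.1 ^ vexp x.2) i.2.2.1,
      (i.2.1 ^ vexp (x.2 + mv (x.1 * nl s) (1, 0)))
        (tau i.1 i.2.1 (x.2 + mv x.1 (1, 0)) (x.2 + mv x.1 (1, s)) i.2.2.2))
  rw [hQ, hpt, hpt, htau, mul_assoc (toR gL)]
  simp only [Equiv.Perm.mul_apply, CCC_inv]

theorem CCC_EE {x y : SLR × Pl} (σ : Equiv.Perm (Lab Λ)) (S : ℝ) {B : Set ℝ} (hB : B.Countable)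
    (h : ∀ s ∉ B, ∀ i, (wPhi (-s)).act f0 y (σ i) = (wPhi (-s)).act f0 x i) :
    EE Λ S y = EE Λ S x := by
  unfold EE
  rw [← Equiv.sum_comp σ]
  apply Finset.sum_congr rfl
  intro i _
  congr 1
  unfold AS
  congr 1
  apply intervalIntegral.integral_congr_ae
  have h1 : ∀ᵐ s : ℝ, s ∉ B := by
    exact measure_eq_zero_iff_ae_notMem.1 (hB.measure_zero volume)
  filter_upwards [h1] with s hs _
  exact h s hs i

theorem CCC_EE_U {x : SLR × Pl} (hx : Gen1 x.1 x.2) (S : ℝ) :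
    EE Λ S (eL gU x) = EE Λ S x :=
  CCC_EE (labU x) S (CCC_bad_countable x.1 x.2) fun _ hs i => CCC_U hx hs i

theorem CCC_EE_L {x : SLR × Pl} (hx : Gen1 x.1 x.2) (S : ℝ) :
    EE Λ S (eL gL x) = EE Λ S x :=
  CCC_EE (labL x) S (CCC_bad_countable x.1 x.2) fun _ hs i => CCC_L hx hs i

end

theorem EE_periodic {Λ : Type} [Fintype Λ] [DecidableEq Λ] (S : ℝ) (z : ℤ × ℤ) (x : SLR × Pl) :
    EE Λ S (eT z x) = EE Λ S x := by
  apply CCC_EE (Equiv.refl _) S countable_empty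
  intro s _ i
  rw [Equiv.refl_apply, CCC_act, CCC_act]
  have hf := f0_wT (Λ := Λ) z (x.1 * nl s, x.2) (i.1, i.2.1, i.2.2.1,
      tau i.1 i.2.1 (x.2 + mv x.1 (1, 0)) (x.2 + mv x.1 (1, s)) i.2.2.2)
  rw [← hf]
  have hpt : ∀ v : Pl, x.2 + ZP z + v = x.2 + v + ZP z := fun v => by
    rw [add_right_comm]
  show f0 (x.1 * nl s, x.2 + ZP z) (i.1, i.2.1, i.2.2.1,
      tau i.1 i.2.1 (x.2 + ZP z + mv x.1 (1, 0)) (x.2 + ZP z + mv x.1 (1, s)) i.2.2.2) =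
    f0 (x.1 * nl s, x.2 + ZP z) (i.1, i.2.1, i.2.2.1,
      tau i.1 i.2.1 (x.2 + mv x.1 (1, 0)) (x.2 + mv x.1 (1, s)) i.2.2.2)
  rw [hpt, hpt, tau_add_int]

/-- the energy is almost everywhere invariant -/
theorem EE_aut {Λ : Type} [Fintype Λ] [DecidableEq Λ] {ρ : Measure Pl} (hρ : PerMeas ρ) (S : ℝ) :
    AEAut ρ (EE Λ S) where
  U := by
    filter_upwards [gen1_aeX hρ] with x hx
    exact CCC_EE_U hx S
  L := by
    filter_upwards [gen1_aeX hρ] with x hx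
    exact CCC_EE_L hx S
  t1 := Eventually.of_forall fun x => EE_periodic S (1, 0) x
  t2 := Eventually.of_forall fun x => EE_periodic S (0, 1) x

/-- pointwise in `P`: almost everywhere in `h` -/
theorem EE_autP {Λ : Type} [Fintype Λ] [DecidableEq Λ] (S : ℝ) (P : Pl) :
    (∀ᵐ h ∂muG, EE Λ S (eL gU (h, P)) = EE Λ S (h, P)) ∧
    (∀ᵐ h ∂muG, EE Λ S (eL gL (h, P)) = EE Λ S (h, P)) := by
  constructor
  · filter_upwards [gen1_ae P] with h hh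
    exact CCC_EE_U (x := (h, P)) hh S
  · filter_upwards [gen1_ae P] with h hh
    exact CCC_EE_L (x := (h, P)) hh S

end Pool.Agent.ILL
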