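import Pool.Agent.ILL.FdA

/-!
# FDB. Translates of `DD` overlap in null sets

PROOF. First the null sets: for almost every `h`: `|r₁|² ≠ |r₂|²` and `2 r₁·r₂ ≠ ± |r₂|²`. In the
coordinates `h = cmat ζ x` for the first column and after transposition and exchange of the rows
`h` has `r₂ = η`, `r₁·r₂ = -x |η|²` and `|r₁|² = x²|η|² + |η|⁻²`; for every `η ≠ 0` both equations hold for
finitely many `x` only. If `h ∈ DD` off the null sets then `h • I` is in the open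
fundamental domain, and `γ h ∈ DD` implies `γ = ±1` by
`ModularGroup.eq_one_or_neg_one_of_mem_fdo_mem_fd`; the sign is determined by `h₁₀ > 0`.
-/

open MeasureTheory Set Filter Topology
open scoped ENNReal NNReal MatrixGroups Modular UpperHalfPlane

namespace Pool.Agent.ILL

/-- the matrix exchanging the rows -/
def fdbJ : SLR := ⟨!![0, -1; 1, 0], by simp⟩

/-- the coordinates adapted to the second row: second row `ζ`, first row `-x ζ + ..` -/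
theorem fdb_coord (f : SLR → ℝ≥0∞) (hf : Measurable f) :
    ∫⁻ h, f h ∂muG = (1 / 2) * ∫⁻ ζ : Pl, ∫⁻ x : ℝ, f (fdbJ * (cmat ζ x).transpose) := by
  have hm : Measurable fun h : SLR => fdbJ * h.transpose :=
    ((muG_mul_left fdbJ).comp muG_transpose).measurable
  have h1 := ((muG_mul_left fdbJ).comp muG_transpose).lintegral_comp hf
  rw [← h1]
  exact muG_coord (fun h => f (fdbJ * h.transpose)) (hf.comp hm)

theorem fdb_entry (M : SLR) (i j : Fin 2) :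
    (fdbJ * M.transpose) i j = fdbJ i 0 * M j 0 + fdbJ i 1 * M j 1 := by
  change (fdbJ.1 * M.1.transpose) i j = _
  rw [Matrix.mul_apply, Fin.sum_univ_two]
  rfl

theorem fdb_cmat {ζ : Pl} (hζ : ζ ≠ 0) (x : ℝ) : 0 < ζ.1 ^ 2 + ζ.2 ^ 2 ∧
    (fdbJ * (cmat ζ x).transpose) 1 0 = ζ.1 ∧ (fdbJ * (cmat ζ x).transpose) 1 1 = ζ.2 ∧
    (fdbJ * (cmat ζ x).transpose) 0 0 = -(x * ζ.1 - ζ.2 / (ζ.1 ^ 2 + ζ.2 ^ 2)) ∧
    (fdbJ * (cmat ζ x).transpose) 0 1 = -(x * ζ.2 + ζ.1 / (ζ.1 ^ 2 + ζ.2 ^ 2)) := by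
  have hp : 0 < ζ.1 ^ 2 + ζ.2 ^ 2 := by
    by_contra hc
    apply hζ
    have h1 : ζ.1 = 0 := by nlinarith [sq_nonneg ζ.1, sq_nonneg ζ.2]
    have h2 : ζ.2 = 0 := by nlinarith [sq_nonneg ζ.1, sq_nonneg ζ.2]
    exact Prod.ext h1 h2
  refine ⟨hp, ?_⟩
  have hc : cmat ζ x = ⟨!![ζ.1, x * ζ.1 - ζ.2 / (ζ.1 ^ 2 + ζ.2 ^ 2);
      ζ.2, x * ζ.2 + ζ.1 / (ζ.1 ^ 2 + ζ.2 ^ 2)], by
      simp only [Matrix.det_fin_two, Matrix.of_apply, Matrix.cons_val', Matrix.cons_val_zero,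
        Matrix.cons_val_one, Matrix.cons_val_fin_one]
      field_simp
      ring⟩ := dif_pos hp.ne'
  have c00 : cmat ζ x 0 0 = ζ.1 := by rw [hc]; rfl
  have c01 : cmat ζ x 0 1 = x * ζ.1 - ζ.2 / (ζ.1 ^ 2 + ζ.2 ^ 2) := by rw [hc]; rfl
  have c10 : cmat ζ x 1 0 = ζ.2 := by rw [hc]; rfl
  have c11 : cmat ζ x 1 1 = x * ζ.2 + ζ.1 / (ζ.1 ^ 2 + ζ.2 ^ 2) := by rw [hc]; rfl
  rw [fdb_entry, fdb_entry, fdb_entry, fdb_entry, c00, c01, c10, c11]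
  refine ⟨?_, ?_, ?_, ?_⟩ <;> simp [fdbJ]

theorem fdb_null {S : Set SLR} (hS : MeasurableSet S)
    (h : ∀ ζ : Pl, ζ ≠ 0 → {x : ℝ | fdbJ * (cmat ζ x).transpose ∈ S}.Finite) : muG S = 0 := by
  rw [← lintegral_indicator_one hS, fdb_coord _ (measurable_one.indicator hS)]
  have h0 : (fun ζ : Pl => ∫⁻ x : ℝ, S.indicator (1 : SLR → ℝ≥0∞)
      (fdbJ * (cmat ζ x).transpose)) =ᵐ[volume] fun _ => 0 := by
    have hae : ∀ᵐ ζ : Pl, ζ ≠ 0 := by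
      rw [ae_iff]
      simp
    filter_upwards [hae] with ζ hζ
    have h1 : (fun x : ℝ => S.indicator (1 : SLR → ℝ≥0∞) (fdbJ * (cmat ζ x).transpose)) =ᵐ[volume]
        fun _ => 0 := by
      have h2 : volume {x : ℝ | fdbJ * (cmat ζ x).transpose ∈ S} = 0 := (h ζ hζ).measure_zero _
      have h3 : ∀ᵐ x : ℝ, ¬ (fdbJ * (cmat ζ x).transpose ∈ S) := by
        rw [ae_iff]; simpa using h2
      filter_upwards [h3] with x hx
      exact Set.indicator_of_notMem hx _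
    rw [lintegral_congr_ae h1]
    simp
  rw [lintegral_congr_ae h0]
  simp

theorem fdb_ae : ∀ᵐ h ∂muG, h 1 0 ^ 2 + h 1 1 ^ 2 ≠ h 0 0 ^ 2 + h 0 1 ^ 2 ∧
    2 * |h 0 0 * h 1 0 + h 0 1 * h 1 1| ≠ h 1 0 ^ 2 + h 1 1 ^ 2 := by
  have c := fun i j => (fda_cont i j).measurable
  have m1 : MeasurableSet {h : SLR | h 1 0 ^ 2 + h 1 1 ^ 2 = h 0 0 ^ 2 + h 0 1 ^ 2} :=
    measurableSet_eq_fun (((c 1 0).pow_const 2).add ((c 1 1).pow_const 2))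
      (((c 0 0).pow_const 2).add ((c 0 1).pow_const 2))
  have m2 : MeasurableSet {h : SLR |
      2 * |h 0 0 * h 1 0 + h 0 1 * h 1 1| = h 1 0 ^ 2 + h 1 1 ^ 2} := by
    refine measurableSet_eq_fun ?_ (((c 1 0).pow_const 2).add ((c 1 1).pow_const 2))
    exact (measurable_const.mul
      ((continuous_abs.measurable).comp (((c 0 0).mul (c 1 0)).add ((c 0 1).mul (c 1 1)))))
  have z1 : muG {h : SLR | h 1 0 ^ 2 + h 1 1 ^ 2 = h 0 0 ^ 2 + h 0 1 ^ 2} = 0 := by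
    refine fdb_null m1 fun ζ hζ => ?_
    have hsub : {x : ℝ | fdbJ * (cmat ζ x).transpose ∈
        {h : SLR | h 1 0 ^ 2 + h 1 1 ^ 2 = h 0 0 ^ 2 + h 0 1 ^ 2}} ⊆
        ({√(1 - 1 / (ζ.1 ^ 2 + ζ.2 ^ 2) ^ 2), -√(1 - 1 / (ζ.1 ^ 2 + ζ.2 ^ 2) ^ 2)} : Set ℝ) := by
      intro x hx
      obtain ⟨hp, e1, e2, e3, e4⟩ := fdb_cmat hζ x
      have hx' : (fdbJ * (cmat ζ x).transpose) 1 0 ^ 2 + (fdbJ * (cmat ζ x).transpose) 1 1 ^ 2 =
        (fdbJ * (cmat ζ x).transpose) 0 0 ^ 2 + (fdbJ * (cmat ζ x).transpose) 0 1 ^ 2 := hx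
      rw [e1, e2, e3, e4] at hx'
      have hx2 : x ^ 2 = 1 - 1 / (ζ.1 ^ 2 + ζ.2 ^ 2) ^ 2 := by
        have e5 : (-(x * ζ.1 - ζ.2 / (ζ.1 ^ 2 + ζ.2 ^ 2))) ^ 2 +
            (-(x * ζ.2 + ζ.1 / (ζ.1 ^ 2 + ζ.2 ^ 2))) ^ 2 =
            x ^ 2 * (ζ.1 ^ 2 + ζ.2 ^ 2) + 1 / (ζ.1 ^ 2 + ζ.2 ^ 2) := by
          field_simp
          ring
        rw [e5] at hx'
        generalize ζ.1 ^ 2 + ζ.2 ^ 2 = n at hp hx'
        have hn : n ≠ 0 := hp.ne'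
        field_simp at hx' ⊢
        linarith
      rcases eq_or_eq_neg_of_sq_eq_sq x (√(1 - 1 / (ζ.1 ^ 2 + ζ.2 ^ 2) ^ 2)) (by
        rw [Real.sq_sqrt (by rw [← hx2]; positivity), hx2]) with h | h
      · left; exact h
      · right; exact h
    exact Set.Finite.subset (by simp) hsub
  have z2 : muG {h : SLR | 2 * |h 0 0 * h 1 0 + h 0 1 * h 1 1| = h 1 0 ^ 2 + h 1 1 ^ 2} = 0 := by
    refine fdb_null m2 fun ζ hζ => ?_
    have hsub : {x : ℝ | fdbJ * (cmat ζ x).transpose ∈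
        {h : SLR | 2 * |h 0 0 * h 1 0 + h 0 1 * h 1 1| = h 1 0 ^ 2 + h 1 1 ^ 2}} ⊆
        ({1 / 2, -(1 / 2)} : Set ℝ) := by
      intro x hx
      obtain ⟨hp, e1, e2, e3, e4⟩ := fdb_cmat hζ x
      have hx' : 2 * |(fdbJ * (cmat ζ x).transpose) 0 0 * (fdbJ * (cmat ζ x).transpose) 1 0 +
        (fdbJ * (cmat ζ x).transpose) 0 1 * (fdbJ * (cmat ζ x).transpose) 1 1| =
        (fdbJ * (cmat ζ x).transpose) 1 0 ^ 2 + (fdbJ * (cmat ζ x).transpose) 1 1 ^ 2 := hx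
      rw [e1, e2, e3, e4] at hx'
      have e5 : -(x * ζ.1 - ζ.2 / (ζ.1 ^ 2 + ζ.2 ^ 2)) * ζ.1 +
            -(x * ζ.2 + ζ.1 / (ζ.1 ^ 2 + ζ.2 ^ 2)) * ζ.2 = -x * (ζ.1 ^ 2 + ζ.2 ^ 2) := by
        field_simp
        ring
      rw [e5, abs_mul, abs_neg, abs_of_pos hp] at hx'
      have h1 : |x| = 1 / 2 := by
        have h2 : (2 * |x| - 1) * (ζ.1 ^ 2 + ζ.2 ^ 2) = 0 := by linarith
        rcases mul_eq_zero.1 h2 with h3 | h3
        · linarith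
        · exact absurd h3 hp.ne'
      rcases eq_or_eq_neg_of_abs_eq h1 with h | h
      · left; exact h
      · right; exact h
    exact Set.Finite.subset (by simp) hsub
  have a1 : ∀ᵐ h : SLR ∂muG, ¬ (h 1 0 ^ 2 + h 1 1 ^ 2 = h 0 0 ^ 2 + h 0 1 ^ 2) := by
    rw [ae_iff]; simpa using z1
  have a2 : ∀ᵐ h : SLR ∂muG, ¬ (2 * |h 0 0 * h 1 0 + h 0 1 * h 1 1| = h 1 0 ^ 2 + h 1 1 ^ 2) := by
    rw [ae_iff]; simpa using z2
  filter_upwards [a1, a2] with h h1 h2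
  exact ⟨h1, h2⟩

theorem dd_disj {γ : SLZ} (hγ : γ ≠ 1) : muG {h | h ∈ DD ∧ toR γ * h ∈ DD} = 0 := by
  have key : ∀ᵐ h ∂muG, ¬ (h ∈ DD ∧ toR γ * h ∈ DD) := by
    filter_upwards [fdb_ae] with h hne hh
    obtain ⟨⟨d1, d2, d3⟩, ⟨g1, g2, g3⟩⟩ := hh
    have ho : ptI h ∈ 𝒟ᵒ := by
      rw [ptI_mem_fdo]
      exact ⟨lt_of_le_of_ne d1 hne.1, lt_of_le_of_ne d2 hne.2⟩
    have hg : γ • ptI h ∈ 𝒟 := by
      rw [← ptI_mul, ptI_mem_fd]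
      exact ⟨g1, g2⟩
    rcases ModularGroup.eq_one_or_neg_one_of_mem_fdo_mem_fd ho hg with e | e
    · exact hγ e
    · rw [e] at g3
      have e2 : (toR (-1) * h) 1 0 = - h 1 0 := by
        have h1 : ∀ k l, toR (-1) k l = -((1 : SLR) k l) := by
          intro k l; rw [fda_toR_apply]; fin_cases k <;> fin_cases l <;> simp
        simp [Matrix.SpecialLinearGroup.coe_mul, Matrix.mul_apply, Fin.sum_univ_two, h1]
      rw [e2] at g3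
      linarith
  rw [ae_iff] at key
  simpa using key

end Pool.Agent.ILL
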