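import Pool.Agent.ILL.FdA
import Pool.Agent.ILL.FdB

/-!
# FDC. `DD` has finite positive measure

In the coordinates of FDB for the second row (`r₂ = η`, `r₁·r₂ = -x|η|²`, `|r₁|² = x²|η|²+|η|⁻²`) the
conditions give `|x| ≤ 1/2` and `|η|² ≤ |r₁|² ≤ |η|²/4 + |η|⁻²`, so `|η|⁴ ≤ 4/3`; the measure is at most
`(1/2) · vol [-2,2]² · 1 < ∞`. If the measure were zero then, by `dd_cover`, the whole group would be
a countable union of null sets, contradicting `muG_ne_zero`.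
-/

open MeasureTheory Set Filter Topology
open scoped ENNReal NNReal

namespace Pool.Agent.ILL

private theorem bound {ζ : Pl} (hζ : ζ ≠ 0) {x : ℝ} (h : fdbJ * (cmat ζ x).transpose ∈ DD) :
    ζ ∈ (Icc (-2 : ℝ) 2 ×ˢ Icc (-2 : ℝ) 2 : Set Pl) ∧ x ∈ Icc (-1 : ℝ) 1 := by
  obtain ⟨hp, e1, e2, e3, e4⟩ := fdb_cmat hζ x
  obtain ⟨d1, d2, -⟩ := h
  rw [e1, e2, e3, e4] at d1 d2
  have e5 : -(x * ζ.1 - ζ.2 / (ζ.1 ^ 2 + ζ.2 ^ 2)) * ζ.1 +
        -(x * ζ.2 + ζ.1 / (ζ.1 ^ 2 + ζ.2 ^ 2)) * ζ.2 = -x * (ζ.1 ^ 2 + ζ.2 ^ 2) := by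
    field_simp
    ring
  have e6 : (-(x * ζ.1 - ζ.2 / (ζ.1 ^ 2 + ζ.2 ^ 2))) ^ 2 +
      (-(x * ζ.2 + ζ.1 / (ζ.1 ^ 2 + ζ.2 ^ 2))) ^ 2 =
      x ^ 2 * (ζ.1 ^ 2 + ζ.2 ^ 2) + 1 / (ζ.1 ^ 2 + ζ.2 ^ 2) := by
    field_simp
    ring
  rw [e5, abs_mul, abs_neg, abs_of_pos hp] at d2
  rw [e6] at d1
  have hx : |x| ≤ 1 / 2 := by
    by_contra hc
    push Not at hc
    nlinarith
  have hx2 : x ^ 2 ≤ 1 / 4 := by
    rw [← sq_abs]
    nlinarith [abs_nonneg x]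
  have hn : ζ.1 ^ 2 + ζ.2 ^ 2 ≤ 4 := by
    generalize ζ.1 ^ 2 + ζ.2 ^ 2 = n at hp d1
    have h1 : n * n ≤ x ^ 2 * (n * n) + 1 := by
      have h2 := mul_le_mul_of_nonneg_right d1 hp.le
      have h3 : (x ^ 2 * n + 1 / n) * n = x ^ 2 * (n * n) + 1 := by
        field_simp
      linarith
    have h4 : x ^ 2 * (n * n) ≤ 1 / 4 * (n * n) := mul_le_mul_of_nonneg_right hx2 (by positivity)
    nlinarith
  refine ⟨⟨⟨?_, ?_⟩, ⟨?_, ?_⟩⟩, ⟨?_, ?_⟩⟩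
  · nlinarith [sq_nonneg ζ.2, sq_nonneg (ζ.1 - 2)]
  · nlinarith [sq_nonneg ζ.2, sq_nonneg (ζ.1 + 2)]
  · nlinarith [sq_nonneg ζ.1, sq_nonneg (ζ.2 - 2)]
  · nlinarith [sq_nonneg ζ.1, sq_nonneg (ζ.2 + 2)]
  · linarith [neg_abs_le x]
  · linarith [le_abs_self x]

theorem muG_DD_lt_top : muG DD < ∞ := by
  rw [← lintegral_indicator_one measurableSet_DD,
    fdb_coord _ (measurable_one.indicator measurableSet_DD)]
  have h1 : ∫⁻ ζ : Pl, ∫⁻ x : ℝ, DD.indicator (1 : SLR → ℝ≥0∞) (fdbJ * (cmat ζ x).transpose) ≤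
      ∫⁻ ζ : Pl, (Icc (-2 : ℝ) 2 ×ˢ Icc (-2 : ℝ) 2 : Set Pl).indicator
        (fun _ => volume (Icc (-1 : ℝ) 1)) ζ := by
    have hae : ∀ᵐ ζ : Pl, ζ ≠ 0 := by
      rw [ae_iff]
      simp
    refine lintegral_mono_ae ?_
    filter_upwards [hae] with ζ hζ
    by_cases hz : ζ ∈ (Icc (-2 : ℝ) 2 ×ˢ Icc (-2 : ℝ) 2 : Set Pl)
    · rw [Set.indicator_of_mem hz]
      calc ∫⁻ x : ℝ, DD.indicator (1 : SLR → ℝ≥0∞) (fdbJ * (cmat ζ x).transpose)
          ≤ ∫⁻ x : ℝ, (Icc (-1 : ℝ) 1).indicator 1 x := by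
            refine lintegral_mono fun x => ?_
            by_cases hx : fdbJ * (cmat ζ x).transpose ∈ DD
            · rw [Set.indicator_of_mem hx, Set.indicator_of_mem (bound hζ hx).2]
              simp
            · rw [Set.indicator_of_notMem hx]
              exact zero_le
        _ = volume (Icc (-1 : ℝ) 1) := lintegral_indicator_one measurableSet_Icc
    · rw [Set.indicator_of_notMem hz]
      have h2 : ∀ x : ℝ, DD.indicator (1 : SLR → ℝ≥0∞) (fdbJ * (cmat ζ x).transpose) = 0 := by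
        intro x
        refine Set.indicator_of_notMem (fun hx => hz (bound hζ hx).1) _
      simp [h2]
  have h3 : ∫⁻ ζ : Pl, (Icc (-2 : ℝ) 2 ×ˢ Icc (-2 : ℝ) 2 : Set Pl).indicator
        (fun _ => volume (Icc (-1 : ℝ) 1)) ζ < ∞ := by
    rw [lintegral_indicator (measurableSet_Icc.prod measurableSet_Icc), setLIntegral_const]
    refine ENNReal.mul_lt_top (by simp) ?_
    exact ((isCompact_Icc.prod isCompact_Icc).measure_lt_top)
  refine ENNReal.mul_lt_top (by simp) (lt_of_le_of_lt h1 h3)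

theorem muG_DD_pos : 0 < muG DD := by
  rw [pos_iff_ne_zero]
  intro h0
  apply muG_ne_zero
  rw [← Measure.measure_univ_eq_zero]
  have h1 : ∀ γ : SLZ, muG ((fun h => toR γ * h) ⁻¹' DD) = 0 := by
    intro γ
    rw [(muG_mul_left (toR γ)).measure_preimage measurableSet_DD.nullMeasurableSet, h0]
  have h2 : muG (⋃ γ : SLZ, (fun h => toR γ * h) ⁻¹' DD) = 0 := measure_iUnion_null h1
  have h3 : muG (⋃ γ : SLZ, (fun h => toR γ * h) ⁻¹' DD)ᶜ = 0 := by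
    have := dd_cover
    rw [ae_iff] at this
    convert this using 2
    ext h
    simp
  have h4 : (univ : Set SLR) = (⋃ γ : SLZ, (fun h => toR γ * h) ⁻¹' DD) ∪
      (⋃ γ : SLZ, (fun h => toR γ * h) ⁻¹' DD)ᶜ := (union_compl_self _).symm
  rw [h4]
  exact measure_union_null h2 h3

end Pool.Agent.ILL
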