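import Pool.Agent.ILL.FdB
import Pool.Agent.ILL.FdC

/-!
# FDD. Unfolding and invariance of integrals over `DD`

`lintegral_unfold`: for the countable group `SLZ` acting on `SLR` by left multiplication (measure
preserving), `DD` is a fundamental domain (`dd_cover`, `dd_disj`), so
`∫ f = Σ_γ ∫_{γ⁻¹ DD} f = Σ_γ ∫_DD f(γ⁻¹ ·)`.

`dd_right`: put `f' h = ⨆ γ, f (γ h)` (countable supremum): `f'` is measurable, strictly invariant under left
multiplication by `SLZ` and equal to `f` almost everywhere. `∫_DD f'(h g) = ∫_{DD g} f'`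
(`muG_mul_right`) and `DD g = {h : h g⁻¹ ∈ DD}` is again a fundamental domain (right multiplication commutes
with the action and preserves the measure); `IsFundamentalDomain.setLIntegral_eq`.
-/

open MeasureTheory Set Filter Topology
open scoped ENNReal NNReal Pointwise

namespace Pool.Agent.ILL

theorem toR_injective : Function.Injective toR := by
  intro γ γ' h
  ext i j
  have h1 : toR γ i j = toR γ' i j := by rw [h]
  rw [fda_toR_apply, fda_toR_apply] at h1
  exact_mod_cast h1

/-- the action by left multiplication -/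
@[reducible] noncomputable def fddAct : MulAction SLZ SLR := MulAction.compHom SLR toR

theorem fdd_smul_eq (γ : SLZ) (h : SLR) :
    (letI := fddAct; γ • h) = toR γ * h := rfl

theorem fdd_fund (g : SLR) :
    @IsFundamentalDomain SLZ SLR _ fddAct.toSMul _ ((fun h => h * g) ⁻¹' DD) muG := by
  let _ := fddAct
  have hmeas : Measurable fun h : SLR => h * g := (muG_mul_right g).measurable
  refine IsFundamentalDomain.mk'' (hmeas measurableSet_DD).nullMeasurableSet ?_ ?_ ?_
  · have h1 := (muG_mul_right g).quasiMeasurePreserving.ae dd_cover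
    filter_upwards [h1] with h hh
    obtain ⟨γ, hγ⟩ := hh
    refine ⟨γ, ?_⟩
    change toR γ * h * g ∈ DD
    rwa [mul_assoc]
  · intro γ hγ
    have hγ' : γ⁻¹ ≠ 1 := by simpa using hγ
    have h0 := dd_disj hγ'
    have h1 : muG ((fun h => h * g) ⁻¹' {h | h ∈ DD ∧ toR γ⁻¹ * h ∈ DD}) = 0 :=
      (muG_mul_right g).quasiMeasurePreserving.preimage_null h0
    refine measure_mono_null ?_ h1
    rintro h ⟨hh1, hh2⟩
    refine ⟨hh2, ?_⟩
    rw [mem_smul_set_iff_inv_smul_mem] at hh1
    change toR γ⁻¹ * h * g ∈ DD at hh1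
    rwa [mul_assoc] at hh1
  · intro γ
    exact (muG_mul_left (toR γ)).quasiMeasurePreserving

theorem lintegral_unfold (f : SLR → ℝ≥0∞) (hf : Measurable f) :
    ∫⁻ h, f h ∂muG = ∫⁻ h in DD, ∑' γ : SLZ, f (toR γ * h) ∂muG := by
  let _ := fddAct
  have : MeasurableConstSMul SLZ SLR := ⟨fun γ => (muG_mul_left (toR γ)).measurable⟩
  have : SMulInvariantMeasure SLZ SLR muG :=
    ⟨fun γ s hs => (muG_mul_left (toR γ)).measure_preimage hs.nullMeasurableSet⟩
  have h1 := (fdd_fund 1).lintegral_eq_tsum'' f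
  have e : ((fun h : SLR => h * 1) ⁻¹' DD) = DD := by ext h; simp
  rw [e] at h1
  rw [h1, lintegral_tsum]
  · rfl
  · intro γ
    exact (hf.comp (muG_mul_left (toR γ)).measurable).aemeasurable

theorem dd_right (f : SLR → ℝ≥0∞) (hf : Measurable f)
    (hinv : ∀ γ : SLZ, ∀ᵐ h ∂muG, f (toR γ * h) = f h) (g : SLR) :
    ∫⁻ h in DD, f (h * g) ∂muG = ∫⁻ h in DD, f h ∂muG := by
  let _ := fddAct
  have : MeasurableConstSMul SLZ SLR := ⟨fun γ => (muG_mul_left (toR γ)).measurable⟩
  have : SMulInvariantMeasure SLZ SLR muG :=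
    ⟨fun γ s hs => (muG_mul_left (toR γ)).measure_preimage hs.nullMeasurableSet⟩
  set f' : SLR → ℝ≥0∞ := fun h => ⨆ γ : SLZ, f (toR γ * h) with hf'
  have hmf' : Measurable f' := Measurable.iSup fun γ => hf.comp (muG_mul_left (toR γ)).measurable
  have hst : ∀ (γ : SLZ) (h : SLR), f' (γ • h) = f' h := by
    intro γ h
    change ⨆ γ' : SLZ, f (toR γ' * (toR γ * h)) = ⨆ γ' : SLZ, f (toR γ' * h)
    have h1 : ∀ γ' : SLZ, toR γ' * (toR γ * h) = toR (γ' * γ) * h := by
      intro γ'; rw [map_mul, mul_assoc]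
    simp only [h1]
    exact (Equiv.mulRight γ).iSup_comp (g := fun γ' : SLZ => f (toR γ' * h))
  have hae : ∀ᵐ h ∂muG, f' h = f h := by
    have h1 : ∀ᵐ h ∂muG, ∀ γ : SLZ, f (toR γ * h) = f h := by
      rw [ae_all_iff]; exact hinv
    filter_upwards [h1] with h hh
    change ⨆ γ : SLZ, f (toR γ * h) = f h
    simp only [hh]
    exact iSup_const
  have hae2 : ∀ᵐ h ∂muG, f' (h * g) = f (h * g) :=
    (muG_mul_right g).quasiMeasurePreserving.ae hae
  have s1 : ∫⁻ h in DD, f (h * g) ∂muG = ∫⁻ h in DD, f' (h * g) ∂muG := by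
    refine lintegral_congr_ae (ae_restrict_of_ae ?_)
    filter_upwards [hae2] with h hh
    exact hh.symm
  have s2 : ∫⁻ h in DD, f h ∂muG = ∫⁻ h in DD, f' h ∂muG := by
    refine lintegral_congr_ae (ae_restrict_of_ae ?_)
    filter_upwards [hae] with h hh
    exact hh.symm
  rw [s1, s2]
  have hd : MeasurableSet ((fun h : SLR => h * g⁻¹) ⁻¹' DD) :=
    (muG_mul_right g⁻¹).measurable measurableSet_DD
  have s3 := (muG_mul_right g).setLIntegral_comp_preimage hd hmf'
  have e1 : (fun h : SLR => h * g) ⁻¹' ((fun h : SLR => h * g⁻¹) ⁻¹' DD) = DD := by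
    ext h; simp [mul_assoc]
  rw [e1] at s3
  rw [s3]
  have e2 : ((fun h : SLR => h * 1) ⁻¹' DD) = DD := by ext h; simp
  have s4 := (fdd_fund g⁻¹).setLIntegral_eq (fdd_fund 1) f' hst
  rw [e2] at s4
  exact s4

end Pool.Agent.ILL
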