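import Pool.Agent.ILL.Mpx
import Pool.Agent.ILL.FdD

/-!
# INV. Right invariance of integrals over the product domain

For `f` almost everywhere invariant, `∫_{DD×F0} f(h g, P) = ∫_{DD×F0} f(h, P)`.

PROOF. Put `f₁ (h,P) = ⨆_z f(h, P+z)` (strictly periodic in `P`, equal to `f` a.e., measurable) and
`F(h) = ∫_{F0} f₁(h,P) dρ(P)`. Claim: `F(γ h) = F(h)` for almost every `h`. Indeed
`F(γh) = ∫_{F0} f₁(γh,P) dρ(P) = ∫_{γ⁻¹F0} f₁(γh, γP') dρ(P')` (`hρ.lin γ`) `= ∫_{γ⁻¹F0} f₁(h,P') dρ(P')` for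
a.e. `h` (a.e. invariance under `eL γ` and Fubini: for a.e. `h`, for a.e. `P'`), and for a strictly periodic
function the integrals over `F0` and over `γ⁻¹ F0 = {P' : γP' ∈ F0}` agree: both are fundamental domains of the
translations by `ℤ²` (each point has exactly one translate in each of them):
`∫_{γ⁻¹F0} φ = Σ_z ∫_{γ⁻¹F0 ∩ (F0+z)} φ = Σ_z ∫_{(γ⁻¹F0 - z) ∩ F0} φ = ∫_{F0} φ`.
Then `dd_right` for `F` (measurable: `Measurable.lintegral_prod_right'`), and Tonelli on `DD × F0`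
(`f = f₁` a.e., also after the measure preserving `eR g`).

`DF_fin`: `muG DD < ∞`, `ρ F0 < ∞`. Real version: bounded functions are integrable on `DF`; apply the first
part to `f + C ≥ 0` (`ofReal`) and subtract.
-/

open MeasureTheory Set Filter Topology
open scoped ENNReal NNReal

namespace Pool.Agent.ILL

variable {ρ : Measure Pl}

theorem measurableSet_F0 : MeasurableSet F0 :=
  measurableSet_Ico.prod measurableSet_Ico

theorem measurableSet_DF : MeasurableSet DF :=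
  measurableSet_DD.prod measurableSet_F0

theorem DF_fin (hρ : PerMeas ρ) : (muG.prod ρ) DF < ∞ := by
  have := hρ.sf
  unfold DF
  rw [Measure.prod_prod]
  exact ENNReal.mul_lt_top muG_DD_lt_top hρ.fin

private theorem inv_ZP_add (z w : ℤ × ℤ) : ZP (z + w) = ZP z + ZP w := by
  ext <;> simp [ZP]

private theorem inv_ZP_zero : ZP 0 = 0 := by
  ext <;> simp [ZP]

private theorem inv_mv_ZP (γ : SLZ) (z : ℤ × ℤ) :
    mv (toR γ) (ZP z) = ZP (γ 0 0 * z.1 + γ 0 1 * z.2, γ 1 0 * z.1 + γ 1 1 * z.2) := by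
  have h : ∀ i j, (toR γ) i j = ((γ i j : ℤ) : ℝ) := fun i j => rfl
  ext <;> simp [mv, ZP, h]

/-- every point has exactly one translate in the unit square -/
private theorem inv_F0_unique (P : Pl) : ∃! z : ℤ × ℤ, P + ZP z ∈ F0 := by
  refine ⟨(-⌊P.1⌋, -⌊P.2⌋), ⟨⟨?_, ?_⟩, ⟨?_, ?_⟩⟩, ?_⟩
  · have := Int.floor_le P.1
    simp only [ZP, Prod.fst_add]
    push_cast
    linarith
  · have := Int.lt_floor_add_one P.1
    simp only [ZP, Prod.fst_add]
    push_cast
    linarith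
  · have := Int.floor_le P.2
    simp only [ZP, Prod.snd_add]
    push_cast
    linarith
  · have := Int.lt_floor_add_one P.2
    simp only [ZP, Prod.snd_add]
    push_cast
    linarith
  · rintro ⟨m, n⟩ ⟨⟨h1, h2⟩, ⟨h3, h4⟩⟩
    simp only [ZP, Prod.fst_add, Prod.snd_add] at h1 h2 h3 h4
    have e1 : ⌊P.1⌋ = -m := by
      rw [Int.floor_eq_iff]
      push_cast
      constructor <;> linarith
    have e2 : ⌊P.2⌋ = -n := by
      rw [Int.floor_eq_iff]
      push_cast
      constructor <;> linarith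
    rw [e1, e2, neg_neg, neg_neg]

/-- every point has exactly one translate in the preimage of the unit square -/
private theorem inv_A_unique (γ : SLZ) (P : Pl) :
    ∃! z : ℤ × ℤ, P + ZP z ∈ (fun P => mv (toR γ) P) ⁻¹' F0 := by
  obtain ⟨w, hw, hw'⟩ := inv_F0_unique (mv (toR γ) P)
  have key : ∀ z, mv (toR γ) (P + ZP z) = mv (toR γ) P +
      ZP (γ 0 0 * z.1 + γ 0 1 * z.2, γ 1 0 * z.1 + γ 1 1 * z.2) := by
    intro z
    rw [mv_add, inv_mv_ZP]
  have hdet : γ 0 0 * γ 1 1 - γ 0 1 * γ 1 0 = 1 := by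
    have := γ.det_coe
    rwa [Matrix.det_fin_two] at this
  refine ⟨(γ 1 1 * w.1 - γ 0 1 * w.2, -γ 1 0 * w.1 + γ 0 0 * w.2), ?_, ?_⟩
  · show mv (toR γ) (P + ZP _) ∈ F0
    rw [key]
    have e1 : γ 0 0 * (γ 1 1 * w.1 - γ 0 1 * w.2) + γ 0 1 * (-γ 1 0 * w.1 + γ 0 0 * w.2) =
        w.1 := by linear_combination w.1 * hdet
    have e2 : γ 1 0 * (γ 1 1 * w.1 - γ 0 1 * w.2) + γ 1 1 * (-γ 1 0 * w.1 + γ 0 0 * w.2) =
        w.2 := by linear_combination w.2 * hdet
    simp only [e1, e2]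
    exact hw
  · rintro z hz
    have hz' : mv (toR γ) (P + ZP z) ∈ F0 := hz
    rw [key] at hz'
    have e := hw' _ hz'
    rw [← e]
    ext
    · show z.1 = γ 1 1 * (γ 0 0 * z.1 + γ 0 1 * z.2) - γ 0 1 * (γ 1 0 * z.1 + γ 1 1 * z.2)
      linear_combination -z.1 * hdet
    · show z.2 = -γ 1 0 * (γ 0 0 * z.1 + γ 0 1 * z.2) + γ 0 0 * (γ 1 0 * z.1 + γ 1 1 * z.2)
      linear_combination -z.2 * hdet

private theorem inv_tsum_one {A : Set Pl} (hA : ∀ P, ∃! z : ℤ × ℤ, P + ZP z ∈ A) (P : Pl) :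
    ∑' z : ℤ × ℤ, A.indicator (fun _ => (1 : ℝ≥0∞)) (P + ZP z) = 1 := by
  obtain ⟨w, hw, hw'⟩ := hA P
  rw [tsum_eq_single w]
  · exact indicator_of_mem hw _
  · intro z hz
    apply indicator_of_notMem
    intro h
    exact hz (hw' z h)

/-- integrals of periodic functions over two fundamental domains -/
private theorem inv_period (hρ : PerMeas ρ) {A B : Set Pl} (hA : MeasurableSet A)
    (hB : MeasurableSet B) (hA1 : ∀ P, ∃! z : ℤ × ℤ, P + ZP z ∈ A)
    (hB1 : ∀ P, ∃! z : ℤ × ℤ, P + ZP z ∈ B) {φ : Pl → ℝ≥0∞} (hφ : Measurable φ)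
    (hper : ∀ z P, φ (P + ZP z) = φ P) :
    ∫⁻ P in A, φ P ∂ρ = ∫⁻ P in B, φ P ∂ρ := by
  have mA : Measurable (A.indicator (fun _ => (1 : ℝ≥0∞))) := measurable_const.indicator hA
  have mB : Measurable (B.indicator (fun _ => (1 : ℝ≥0∞))) := measurable_const.indicator hB
  have mT : ∀ z : ℤ × ℤ, Measurable (fun P : Pl => P + ZP z) := fun z =>
    (MeasurableEquiv.addRight (ZP z)).measurable
  have step : ∀ {C D : Set Pl}, MeasurableSet C → (∀ P, ∃! z : ℤ × ℤ, P + ZP z ∈ D) →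
      MeasurableSet D →
      ∫⁻ P in C, φ P ∂ρ = ∑' z : ℤ × ℤ, ∫⁻ P, C.indicator (fun _ => (1 : ℝ≥0∞)) P *
        D.indicator (fun _ => (1 : ℝ≥0∞)) (P + ZP z) * φ P ∂ρ := by
    intro C D hC hD1 hD
    have mC : Measurable (C.indicator (fun _ => (1 : ℝ≥0∞))) := measurable_const.indicator hC
    have mD : Measurable (D.indicator (fun _ => (1 : ℝ≥0∞))) := measurable_const.indicator hD
    rw [← lintegral_indicator hC, ← lintegral_tsum]
    · apply lintegral_congr
      intro P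
      have : ∀ z : ℤ × ℤ, C.indicator (fun _ => (1 : ℝ≥0∞)) P *
          D.indicator (fun _ => (1 : ℝ≥0∞)) (P + ZP z) * φ P =
          D.indicator (fun _ => (1 : ℝ≥0∞)) (P + ZP z) *
            (C.indicator (fun _ => (1 : ℝ≥0∞)) P * φ P) := fun z => by ring
      simp only [this]
      rw [ENNReal.tsum_mul_right, inv_tsum_one hD1, one_mul]
      by_cases hP : P ∈ C
      · rw [indicator_of_mem hP, indicator_of_mem hP, one_mul]
      · rw [indicator_of_notMem hP, indicator_of_notMem hP, zero_mul]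
    · intro z
      exact ((mC.mul (mD.comp (mT z))).mul hφ).aemeasurable
  rw [step hA hB1 hB, step hB hA1 hA]
  rw [← (Equiv.neg (ℤ × ℤ)).tsum_eq]
  congr 1
  funext z
  have h1 := (hρ.tr (-z)).lintegral_comp (f := fun P => B.indicator (fun _ => (1 : ℝ≥0∞)) P *
        A.indicator (fun _ => (1 : ℝ≥0∞)) (P + ZP z) * φ P)
      ((mB.mul (mA.comp (mT z))).mul hφ)
  rw [← h1]
  apply lintegral_congr
  intro P
  have e1 : P + ZP (-z) + ZP z = P := by
    rw [add_assoc, ← inv_ZP_add, neg_add_cancel, inv_ZP_zero, add_zero]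
  simp only [Equiv.neg_apply]
  rw [e1, hper]
  ring

/-- a strictly periodic version of an almost everywhere invariant function, and its integral over the
unit square -/
theorem INV_F (hρ : PerMeas ρ) {f : SLR × Pl → ℝ≥0∞} (hf : Measurable f)
    (ha : AEAut ρ f) : ∃ F : SLR → ℝ≥0∞, Measurable F ∧
      (∀ γ : SLZ, ∀ᵐ h ∂muG, F (toR γ * h) = F h) ∧
      ∀ (S : Set SLR), MeasurableSet S → ∀ g : SLR,
        ∫⁻ x in S ×ˢ F0, f (eR g x) ∂(muG.prod ρ) = ∫⁻ h in S, F (h * g) ∂muG := by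
  have hsf := hρ.sf
  obtain ⟨hγ, hz⟩ := ha.all hρ
  let f₁ : SLR × Pl → ℝ≥0∞ := fun x => ⨆ z : ℤ × ℤ, f (eT z x)
  have mf₁ : Measurable f₁ := Measurable.iSup fun z => hf.comp (eT z).measurable
  have hf₁ : ∀ᵐ x ∂(muG.prod ρ), f₁ x = f x := by
    have : ∀ᵐ x ∂(muG.prod ρ), ∀ z : ℤ × ℤ, f (eT z x) = f x := ae_all_iff.2 hz
    filter_upwards [this] with x hx
    show (⨆ z : ℤ × ℤ, f (eT z x)) = f x
    simp only [hx, ciSup_const]
  have hper : ∀ (h : SLR) (z : ℤ × ℤ) (P : Pl), f₁ (h, P + ZP z) = f₁ (h, P) := by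
    intro h z P
    show (⨆ w : ℤ × ℤ, f (eT w (h, P + ZP z))) = ⨆ w : ℤ × ℤ, f (eT w (h, P))
    rw [← (Equiv.addLeft z).iSup_comp (g := fun w => f (eT w (h, P)))]
    congr 1
    funext w
    simp only [eT_apply, Equiv.coe_addLeft]
    rw [inv_ZP_add, ← add_assoc]
  have hf₁γ : ∀ γ : SLZ, ∀ᵐ x ∂(muG.prod ρ), f₁ (eL γ x) = f₁ x := by
    intro γ
    have h3 := (mp_eL hρ γ).quasiMeasurePreserving.ae hf₁
    filter_upwards [hγ γ, hf₁, h3] with x e1 e2 e3
    rw [e3, e1, e2]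
  refine ⟨fun h => ∫⁻ P in F0, f₁ (h, P) ∂ρ, ?_, ?_, ?_⟩
  · exact Measurable.lintegral_prod_right' mf₁
  · intro γ
    have h1 := Measure.ae_ae_of_ae_prod (hf₁γ γ)
    filter_upwards [h1] with h hh
    have mh : ∀ h' : SLR, Measurable (fun P => f₁ (h', P)) := fun h' =>
      mf₁.comp measurable_prodMk_left
    have e1 : ∫⁻ P in F0, f₁ (toR γ * h, P) ∂ρ =
        ∫⁻ P in (fun P => mv (toR γ) P) ⁻¹' F0, f₁ (toR γ * h, mv (toR γ) P) ∂ρ :=
      ((hρ.lin γ).setLIntegral_comp_preimage measurableSet_F0 (mh _)).symm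
    rw [e1]
    have e2 : ∫⁻ P in (fun P => mv (toR γ) P) ⁻¹' F0, f₁ (toR γ * h, mv (toR γ) P) ∂ρ =
        ∫⁻ P in (fun P => mv (toR γ) P) ⁻¹' F0, f₁ (h, P) ∂ρ := by
      apply lintegral_congr_ae
      exact ae_restrict_of_ae hh
    rw [e2]
    exact inv_period hρ ((hρ.lin γ).measurable measurableSet_F0) measurableSet_F0
      (inv_A_unique γ) inv_F0_unique (mh h) (hper h)
  · intro S hS g
    have h3 := (mp_eR hρ g).quasiMeasurePreserving.ae hf₁
    have e1 : ∫⁻ x in S ×ˢ F0, f (eR g x) ∂(muG.prod ρ) =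
        ∫⁻ x in S ×ˢ F0, f₁ (eR g x) ∂(muG.prod ρ) := by
      apply lintegral_congr_ae
      apply ae_restrict_of_ae
      filter_upwards [h3] with x hx
      exact hx.symm
    rw [e1, ← Measure.prod_restrict]
    have m2 : Measurable (fun x => f₁ (eR g x)) := mf₁.comp (eR g).measurable
    rw [lintegral_prod _ m2.aemeasurable]
    rfl

theorem DF_right (hρ : PerMeas ρ) {f : SLR × Pl → ℝ≥0∞} (hf : Measurable f) (ha : AEAut ρ f)
    (g : SLR) : ∫⁻ x in DF, f (eR g x) ∂(muG.prod ρ) = ∫⁻ x in DF, f x ∂(muG.prod ρ) := by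
  obtain ⟨F, mF, hF, hint⟩ := INV_F hρ hf ha
  unfold DF
  have h1 := hint DD measurableSet_DD g
  have h2 := hint DD measurableSet_DD 1
  have e : ∀ x : SLR × Pl, eR 1 x = x := fun x => by
    rw [eR_apply, mul_one]
  simp only [e, mul_one] at h2
  rw [h1, h2]
  exact dd_right F mF hF g

theorem DF_right_real (hρ : PerMeas ρ) {f : SLR × Pl → ℝ} (hf : Measurable f) {C : ℝ}
    (hb : ∀ x, |f x| ≤ C) (ha : AEAut ρ f) (g : SLR) :
    ∫ x in DF, f (eR g x) ∂(muG.prod ρ) = ∫ x in DF, f x ∂(muG.prod ρ) := by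
  have hsf := hρ.sf
  haveI : IsFiniteMeasure ((muG.prod ρ).restrict DF) :=
    ⟨by rw [Measure.restrict_apply_univ]; exact DF_fin hρ⟩
  have hint : ∀ f' : SLR × Pl → ℝ, Measurable f' → (∀ x, |f' x| ≤ C) →
      Integrable f' ((muG.prod ρ).restrict DF) := fun f' hm hb' =>
    Integrable.of_bound hm.aestronglyMeasurable C (Eventually.of_forall fun x => by
      rw [Real.norm_eq_abs]
      exact hb' x)
  have key : ∀ f' : SLR × Pl → ℝ, Measurable f' → (∀ x, |f' x| ≤ C) →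
      ∫ x in DF, f' x ∂(muG.prod ρ) = (∫⁻ x in DF, ENNReal.ofReal (f' x + C)
        ∂(muG.prod ρ)).toReal - ∫ _ in DF, C ∂(muG.prod ρ) := by
    intro f' hm hb'
    rw [← integral_eq_lintegral_of_nonneg_ae, integral_add (hint f' hm hb') (integrable_const C)]
    · ring
    · exact Eventually.of_forall fun x => by
        have := (abs_le.1 (hb' x)).1
        show 0 ≤ f' x + C
        linarith
    · exact (hm.add_const C).aestronglyMeasurable
  rw [key f hf hb, key (fun x => f (eR g x)) (hf.comp (eR g).measurable)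
    (fun x => hb (eR g x))]
  congr 2
  apply DF_right hρ (f := fun x => ENNReal.ofReal (f x + C))
    (ENNReal.measurable_ofReal.comp (hf.add_const C))
  exact ⟨ha.U.mono fun x hx => by rw [hx], ha.L.mono fun x hx => by rw [hx],
    ha.t1.mono fun x hx => by rw [hx], ha.t2.mono fun x hx => by rw [hx]⟩

end Pool.Agent.ILL
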