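import Pool.Agent.ILL.Fou
import Pool.Agent.ILL.Mpx
import Pool.Agent.ILL.Inv

/-!
# CKT. Transformation of the Fourier coefficients

`ck_trans`: for a.e. `h`, `f(γh, γQ) = f(h,Q)` for a.e. `Q` (`AEAut.all`, Fubini). Then
`ck f (d,0) (γh) = ∫_{F0} f(γh,Q) e(-d Q.1) dQ = ∫_{γ⁻¹F0} f(γh,γQ') e(-d (γQ').1) dQ'
= ∫_{γ⁻¹F0} f(h,Q') e(-(d γ₀₀ Q'.1 + d γ₀₁ Q'.2)) dQ' = ck f (dγ₀₀, dγ₀₁) h`, because the integrand is `ℤ²`-periodic
and `γ⁻¹F0` and `F0` are both fundamental domains (see the header of INV). `c0_inv` is the case `d = 0`.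
`ck_measurable`: Fubini/parameter integral. `c0_int`: Tonelli/Fubini for the bounded function on `DD × F0`.
-/

open MeasureTheory Set Filter Topology
open scoped ENNReal NNReal

namespace Pool.Agent.ILL

theorem ckt_continuous_ee : Continuous ee := by
  unfold ee
  fun_prop

theorem ckt_continuous_dotZ (k : ℤ × ℤ) : Continuous (dotZ k) := by
  unfold dotZ
  fun_prop

theorem ck_measurable {f : SLR × Pl → ℝ} (hf : Measurable f) (k : ℤ × ℤ) :
    Measurable (ck f k) := by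
  have h1 : Measurable (fun x : SLR × Pl => (f x : ℂ) * ee (-(dotZ k x.2))) := by
    refine (Complex.measurable_ofReal.comp hf).mul ?_
    exact (ckt_continuous_ee.measurable).comp
      (((ckt_continuous_dotZ k).measurable.comp measurable_snd).neg)
  have h2 : StronglyMeasurable (Function.uncurry fun (h : SLR) (Q : Pl) =>
      (f (h, Q) : ℂ) * ee (-(dotZ k Q))) := h1.stronglyMeasurable
  exact (h2.integral_prod_right (ν := (volume : Measure Pl).restrict F0)).measurable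

/-- the integral points as an additive homomorphism -/
noncomputable def cktHom : ℤ × ℤ →+ Pl where
  toFun := ZP
  map_zero' := by ext <;> simp [ZP]
  map_add' z w := by ext <;> simp [ZP]

theorem ckt_fd {A : Set Pl} (hA : MeasurableSet A) (h1 : ∀ P, ∃! z : ℤ × ℤ, P + ZP z ∈ A) :
    IsAddFundamentalDomain cktHom.range A (volume : Measure Pl) := by
  refine IsAddFundamentalDomain.mk' hA.nullMeasurableSet fun P => ?_
  obtain ⟨z, hz, hz'⟩ := h1 P
  refine ⟨⟨ZP z, ⟨z, rfl⟩⟩, ?_, ?_⟩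
  · show ZP z + P ∈ A
    rw [add_comm]; exact hz
  · rintro ⟨_, ⟨w, rfl⟩⟩ hw
    have h2 : P + ZP w ∈ A := by
      rw [add_comm]; exact hw
    have h3 := hz' w h2
    subst h3
    rfl

theorem ckt_mv_ZP (γ : SLZ) (z : ℤ × ℤ) :
    mv (toR γ) (ZP z) = ZP (γ 0 0 * z.1 + γ 0 1 * z.2, γ 1 0 * z.1 + γ 1 1 * z.2) := by
  have h : ∀ i j, (toR γ) i j = ((γ i j : ℤ) : ℝ) := fun i j => rfl
  ext <;> simp [mv, ZP, h]

theorem ckt_F0_unique (P : Pl) : ∃! z : ℤ × ℤ, P + ZP z ∈ F0 := by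
  refine ⟨(-⌊P.1⌋, -⌊P.2⌋), ⟨⟨?_, ?_⟩, ⟨?_, ?_⟩⟩, ?_⟩
  · have := Int.floor_le P.1
    simp only [ZP, Prod.fst_add]
    push_cast
    linarith
  · have := Int.lt_floor_add_one P.1
    simp only [ZP, Prod.fst_add]
    push_cast
    linarith
  · have := Int.floor_le P.2
    simp only [ZP, Prod.snd_add]
    push_cast
    linarith
  · have := Int.lt_floor_add_one P.2
    simp only [ZP, Prod.snd_add]
    push_cast
    linarith
  · rintro ⟨m, n⟩ ⟨⟨h1, h2⟩, ⟨h3, h4⟩⟩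
    simp only [ZP, Prod.fst_add, Prod.snd_add] at h1 h2 h3 h4
    have e1 : ⌊P.1⌋ = -m := by
      rw [Int.floor_eq_iff]
      push_cast
      constructor <;> linarith
    have e2 : ⌊P.2⌋ = -n := by
      rw [Int.floor_eq_iff]
      push_cast
      constructor <;> linarith
    rw [e1, e2, neg_neg, neg_neg]

theorem ckt_A_unique (γ : SLZ) (P : Pl) :
    ∃! z : ℤ × ℤ, P + ZP z ∈ (fun P => mv (toR γ) P) ⁻¹' F0 := by
  obtain ⟨w, hw, hw'⟩ := ckt_F0_unique (mv (toR γ) P)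
  have key : ∀ z, mv (toR γ) (P + ZP z) = mv (toR γ) P +
      ZP (γ 0 0 * z.1 + γ 0 1 * z.2, γ 1 0 * z.1 + γ 1 1 * z.2) := by
    intro z
    rw [mv_add, ckt_mv_ZP]
  have hdet : γ 0 0 * γ 1 1 - γ 0 1 * γ 1 0 = 1 := by
    have := γ.det_coe
    rwa [Matrix.det_fin_two] at this
  refine ⟨(γ 1 1 * w.1 - γ 0 1 * w.2, -γ 1 0 * w.1 + γ 0 0 * w.2), ?_, ?_⟩
  · show mv (toR γ) (P + ZP _) ∈ F0
    rw [key]
    have e1 : γ 0 0 * (γ 1 1 * w.1 - γ 0 1 * w.2) + γ 0 1 * (-γ 1 0 * w.1 + γ 0 0 * w.2) =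
        w.1 := by linear_combination w.1 * hdet
    have e2 : γ 1 0 * (γ 1 1 * w.1 - γ 0 1 * w.2) + γ 1 1 * (-γ 1 0 * w.1 + γ 0 0 * w.2) =
        w.2 := by linear_combination w.2 * hdet
    simp only [e1, e2]
    exact hw
  · rintro z hz
    have hz' : mv (toR γ) (P + ZP z) ∈ F0 := hz
    rw [key] at hz'
    have e := hw' _ hz'
    rw [← e]
    ext
    · show z.1 = γ 1 1 * (γ 0 0 * z.1 + γ 0 1 * z.2) - γ 0 1 * (γ 1 0 * z.1 + γ 1 1 * z.2)
      linear_combination -z.1 * hdet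
    · show z.2 = -γ 1 0 * (γ 0 0 * z.1 + γ 0 1 * z.2) + γ 0 0 * (γ 1 0 * z.1 + γ 1 1 * z.2)
      linear_combination -z.2 * hdet

/-- integrals of periodic functions over `F0` and over its preimage -/
theorem ckt_period (γ : SLZ) {φ : Pl → ℂ} (hper : ∀ z P, φ (P + ZP z) = φ P) :
    ∫ P in (fun P => mv (toR γ) P) ⁻¹' F0, φ P = ∫ P in F0, φ P := by
  have hcount : Countable cktHom.range := by
    have : Function.Surjective cktHom.rangeRestrict := cktHom.rangeRestrict_surjective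
    exact this.countable
  have h1 := ckt_fd ((perMeas_volume.lin γ).measurable measurableSet_F0) (ckt_A_unique γ)
  have h2 := ckt_fd measurableSet_F0 ckt_F0_unique
  refine h1.setIntegral_eq h2 ?_
  rintro ⟨_, ⟨w, rfl⟩⟩ P
  show φ (ZP w + P) = φ P
  rw [add_comm, hper]

theorem ck_trans {f : SLR × Pl → ℝ} (hf : Measurable f) {C : ℝ} (hb : ∀ x, |f x| ≤ C)
    (hper : ∀ (x : SLR × Pl) (z : ℤ × ℤ), f (eT z x) = f x)
    (ha : AEAut (volume : Measure Pl) f) (γ : SLZ) :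
    ∀ᵐ h ∂muG, ∀ d : ℤ, ck f (d, 0) (toR γ * h) = ck f (d * γ 0 0, d * γ 0 1) h := by
  have h0 := Measure.ae_ae_of_ae_prod ((ha.all perMeas_volume).1 γ)
  filter_upwards [h0] with h hh d
  have hent : ∀ i j, (toR γ) i j = ((γ i j : ℤ) : ℝ) := fun i j => rfl
  unfold ck
  have e1 := (perMeas_volume.lin γ).setIntegral_preimage_emb (eM (toR γ)).measurableEmbedding
    (fun Q => (f (toR γ * h, Q) : ℂ) * ee (-(dotZ (d, 0) Q))) F0
  have e2 := ckt_period γ (φ := fun Q => (f (toR γ * h, mv (toR γ) Q) : ℂ) *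
    ee (-(dotZ (d, 0) (mv (toR γ) Q)))) (by
      intro z P
      show (f (toR γ * h, mv (toR γ) (P + ZP z)) : ℂ) * ee (-(dotZ (d, 0) (mv (toR γ) (P + ZP z))))
        = (f (toR γ * h, mv (toR γ) P) : ℂ) * ee (-(dotZ (d, 0) (mv (toR γ) P)))
      rw [mv_add, ckt_mv_ZP]
      have h3 := hper (toR γ * h, mv (toR γ) P) (γ 0 0 * z.1 + γ 0 1 * z.2, γ 1 0 * z.1 + γ 1 1 * z.2)
      rw [eT_apply] at h3
      rw [h3]
      congr 1
      have h4 : -(dotZ (d, 0) (mv (toR γ) P + ZP (γ 0 0 * z.1 + γ 0 1 * z.2, γ 1 0 * z.1 + γ 1 1 * z.2)))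
          = -(dotZ (d, 0) (mv (toR γ) P)) + ((-(d * (γ 0 0 * z.1 + γ 0 1 * z.2)) : ℤ) : ℝ) := by
        simp only [dotZ, ZP, Prod.fst_add, Prod.snd_add]
        push_cast
        ring
      rw [h4, ee_add, ee_int, mul_one])
  have e3 : (∫ Q in F0, (f (toR γ * h, Q) : ℂ) * ee (-(dotZ (d, 0) Q))) =
      ∫ P in F0, (f (toR γ * h, mv (toR γ) P) : ℂ) * ee (-(dotZ (d, 0) (mv (toR γ) P))) :=
    e1.symm.trans e2
  rw [e3]
  refine integral_congr_ae (ae_restrict_of_ae ?_)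
  filter_upwards [hh] with Q hQ
  have hQ' : f (toR γ * h, mv (toR γ) Q) = f (h, Q) := hQ
  rw [hQ']
  congr 2
  simp only [dotZ, mv, hent]
  push_cast
  ring

theorem ck_zero (f : SLR × Pl → ℝ) (h : SLR) :
    ck f 0 h = ((∫ Q in F0, f (h, Q) : ℝ) : ℂ) := by
  unfold ck
  have h5 : ∫ Q in F0, ((f (h, Q) : ℝ) : ℂ) = ((∫ Q in F0, f (h, Q) : ℝ) : ℂ) :=
    integral_ofReal (𝕜 := ℂ)
  rw [← h5]
  refine integral_congr_ae (Filter.Eventually.of_forall fun Q => ?_)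
  show (f (h, Q) : ℂ) * ee (-(dotZ 0 Q)) = (f (h, Q) : ℂ)
  have h1 : -(dotZ 0 Q) = ((0 : ℤ) : ℝ) := by
    simp [dotZ]
  rw [h1, ee_int, mul_one]

theorem c0_inv {f : SLR × Pl → ℝ} (hf : Measurable f) {C : ℝ} (hb : ∀ x, |f x| ≤ C)
    (hper : ∀ (x : SLR × Pl) (z : ℤ × ℤ), f (eT z x) = f x)
    (ha : AEAut (volume : Measure Pl) f) (γ : SLZ) :
    ∀ᵐ h ∂muG, (∫ Q in F0, f (toR γ * h, Q)) = ∫ Q in F0, f (h, Q) := by
  filter_upwards [ck_trans hf hb hper ha γ] with h hh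
  have h1 := hh 0
  have h2 : ((0 : ℤ), (0 : ℤ)) = (0 : ℤ × ℤ) := rfl
  have h3 : ((0 : ℤ) * γ 0 0, (0 : ℤ) * γ 0 1) = (0 : ℤ × ℤ) := by
    rw [zero_mul, zero_mul]; rfl
  rw [h3, h2, ck_zero, ck_zero] at h1
  exact_mod_cast h1

theorem c0_measurable {f : SLR × Pl → ℝ} (hf : Measurable f) :
    Measurable fun h : SLR => ∫ Q in F0, f (h, Q) := by
  have h2 : StronglyMeasurable (Function.uncurry fun (h : SLR) (Q : Pl) => f (h, Q)) :=
    hf.stronglyMeasurable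
  exact (h2.integral_prod_right (ν := (volume : Measure Pl).restrict F0)).measurable

theorem c0_int {f : SLR × Pl → ℝ} (hf : Measurable f) {C : ℝ} (hb : ∀ x, |f x| ≤ C) :
    ∫ h in DD, (∫ Q in F0, f (h, Q)) ∂muG =
      ∫ x in DF, f x ∂(muG.prod (volume : Measure Pl)) := by
  have h1 : IntegrableOn f (DD ×ˢ F0) (muG.prod (volume : Measure Pl)) := by
    have h2 : (muG.prod (volume : Measure Pl)) (DD ×ˢ F0) < ∞ := DF_fin perMeas_volume
    refine Measure.integrableOn_of_bounded h2.ne hf.aestronglyMeasurable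
      (M := C) (Filter.Eventually.of_forall fun x => ?_)
    rw [Real.norm_eq_abs]
    exact hb x
  exact (setIntegral_prod f h1).symm

end Pool.Agent.ILL
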