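import Pool.Agent.ILL.Klo

/-!
# CPL. Completion

`f : ZMod p → ℂ` with all `|f^(h)| ≤ B`, `f^(h) = Σ_j f(j) χ(hj)`. Inversion: `f(j) = (1/p) Σ_h f^(h) χ(-hj)`. So
`Σ_{j=a}^{a+n-1} f(j) e(jx) = (1/p) Σ_h f^(h) Σ_j e(j(x - h/p))` (representatives `h = 0..p-1`), and the inner geometric
sum is at most `min(n, 1/(2‖x - h/p‖))`, `‖·‖` = distance to the nearest integer. The points `x - h/p` modulo one
are `1/p`-separated on the circle: for every integer `k ≥ 0` at most two of them have distance in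
`[k/p, (k+1)/p)`. Hence `Σ_h min(p, 1/(2‖x-h/p‖)) ≤ 2p + Σ_{k=1}^{p} 2 p/(2k) ≤ p(3 + log p)` for `n ≤ p`.
General `n`: split into at most `n/p + 1` blocks of length at most `p`.
-/

open MeasureTheory Set Filter Topology
open scoped ENNReal NNReal

namespace Pool.Agent.ILL

private theorem ee_add' (x y : ℝ) : ee (x + y) = ee x * ee y := by
  unfold ee
  rw [← Complex.exp_add]
  congr 1
  push_cast
  ring

private theorem norm_ee' (x : ℝ) : ‖ee x‖ = 1 := by
  unfold ee
  have : (2 * Real.pi * x * Complex.I : ℂ) = ((2 * Real.pi * x : ℝ) : ℂ) * Complex.I := by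
    push_cast; ring
  rw [this, Complex.norm_exp_ofReal_mul_I]

private theorem ee_nat_mul (j : ℕ) (y : ℝ) : ee (j * y) = ee y ^ j := by
  unfold ee
  rw [← Complex.exp_nat_mul]
  congr 1
  push_cast
  ring

private theorem ee_sub_one_ge {y : ℝ} (h0 : 0 ≤ y) (h1 : y ≤ 1) :
    4 * min y (1 - y) ≤ ‖ee y - 1‖ := by
  have h2 : ‖ee y - 1‖ = 2 * |Real.sin (Real.pi * y)| := by
    have h3 : ee y = Complex.exp (Complex.I * ((2 * Real.pi * y : ℝ) : ℂ)) := by
      unfold ee
      congr 1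
      push_cast
      ring
    rw [h3, Complex.norm_exp_I_mul_ofReal_sub_one, Real.norm_eq_abs, abs_mul, abs_two]
    congr 3
    ring
  rw [h2]
  have hpi := Real.pi_pos
  have key : 2 * min y (1 - y) ≤ Real.sin (Real.pi * y) := by
    rcases le_total y (1 - y) with h | h
    · rw [min_eq_left h]
      have := Real.mul_le_sin (x := Real.pi * y) (by positivity) (by nlinarith)
      have h4 : 2 / Real.pi * (Real.pi * y) = 2 * y := by field_simp
      linarith
    · rw [min_eq_right h]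
      have := Real.mul_le_sin (x := Real.pi * (1 - y)) (by nlinarith) (by nlinarith)
      have h4 : 2 / Real.pi * (Real.pi * (1 - y)) = 2 * (1 - y) := by field_simp
      have h5 : Real.sin (Real.pi * (1 - y)) = Real.sin (Real.pi * y) := by
        rw [mul_sub, mul_one, Real.sin_pi_sub]
      linarith
  have := le_abs_self (Real.sin (Real.pi * y))
  linarith

private theorem geo_le (n : ℕ) (a : ℤ) (y : ℝ) :
    ‖∑ j ∈ Finset.range n, ee (((a : ℝ) + j) * y)‖ ≤ n := by
  refine (norm_sum_le _ _).trans ?_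
  simp [norm_ee']

private theorem geo_le' (n : ℕ) (a : ℤ) {y : ℝ} (h0 : 0 < y) (h1 : y < 1) :
    ‖∑ j ∈ Finset.range n, ee (((a : ℝ) + j) * y)‖ ≤ 1 / (2 * min y (1 - y)) := by
  have hm : 0 < min y (1 - y) := lt_min h0 (by linarith)
  have h2 := ee_sub_one_ge h0.le h1.le
  have h3 : ∑ j ∈ Finset.range n, ee (((a : ℝ) + j) * y) =
      ee ((a : ℝ) * y) * ∑ j ∈ Finset.range n, ee y ^ j := by
    rw [Finset.mul_sum]
    apply Finset.sum_congr rfl
    intro j _
    rw [add_mul, ee_add', ee_nat_mul]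
  rw [h3, norm_mul, norm_ee', one_mul]
  have h4 : (∑ j ∈ Finset.range n, ee y ^ j) * (ee y - 1) = ee y ^ n - 1 := geom_sum_mul _ _
  have h5 : ‖ee y ^ n - 1‖ ≤ 2 := by
    refine (norm_sub_le _ _).trans ?_
    rw [norm_pow, norm_ee', one_pow, norm_one]
    norm_num
  rw [← h4, norm_mul] at h5
  rw [le_div_iff₀ (by positivity)]
  have h6 : 0 ≤ ‖∑ j ∈ Finset.range n, ee y ^ j‖ := norm_nonneg _
  nlinarith

private theorem sum_inv_le (p : ℕ) (hp : 0 < p) :
    ∑ i ∈ Finset.range p, (1 : ℝ) / i ≤ 1 + Real.log p := by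
  obtain ⟨k, rfl⟩ : ∃ k, p = k + 1 := ⟨p - 1, by omega⟩
  rw [Finset.sum_range_succ']
  have h1 := harmonic_le_one_add_log k
  have h2 : ((harmonic k : ℚ) : ℝ) = ∑ i ∈ Finset.range k, (1 : ℝ) / ((i + 1 : ℕ) : ℝ) := by
    unfold harmonic
    push_cast
    apply Finset.sum_congr rfl
    intro i _
    rw [one_div]
  rw [← h2]
  have h3 : Real.log k ≤ Real.log ((k + 1 : ℕ) : ℝ) := by
    rcases Nat.eq_zero_or_pos k with h | h
    · rw [h]; simp
    · exact Real.log_le_log (by exact_mod_cast h) (by push_cast; linarith)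
  simp only [Nat.cast_zero, div_zero, add_zero]
  linarith

private theorem sum_geo_le (p : ℕ) (hp : 0 < p) (n : ℕ) (a : ℤ) (θ : ℝ) (h0 : 0 ≤ θ) (h1 : θ < 1) :
    ∑ i ∈ Finset.range p, ‖∑ j ∈ Finset.range n, ee (((a : ℝ) + j) * (((i : ℝ) + θ) / p))‖ ≤
      2 * n + p * (1 + Real.log p) := by
  have hp' : (0 : ℝ) < p := by exact_mod_cast hp
  have hb : ∀ i ∈ Finset.range p,
      ‖∑ j ∈ Finset.range n, ee (((a : ℝ) + j) * (((i : ℝ) + θ) / p))‖ ≤
        ((if i = 0 then (n : ℝ) else 0) + (if i = p - 1 then (n : ℝ) else 0)) +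
          (p / 2 : ℝ) * (1 / (i : ℝ) + 1 / ((p - 1 - i : ℕ) : ℝ)) := by
    intro i hi
    have hi' := Finset.mem_range.1 hi
    have hpos : (0 : ℝ) ≤ (p / 2 : ℝ) * (1 / (i : ℝ) + 1 / ((p - 1 - i : ℕ) : ℝ)) := by positivity
    by_cases hi0 : i = 0
    · rw [if_pos hi0]
      have := geo_le n a (((i : ℝ) + θ) / p)
      have h3 : (0 : ℝ) ≤ (if i = p - 1 then (n : ℝ) else 0) := by (split_ifs; all_goals positivity)
      linarith
    by_cases hi1 : i = p - 1
    · rw [if_pos hi1]
      have := geo_le n a (((i : ℝ) + θ) / p)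
      have h3 : (0 : ℝ) ≤ (if i = 0 then (n : ℝ) else 0) := by (split_ifs; all_goals positivity)
      linarith
    rw [if_neg hi0, if_neg hi1, zero_add, zero_add]
    have hi2 : (0 : ℝ) < i := by exact_mod_cast Nat.pos_of_ne_zero hi0
    have hk : 0 < p - 1 - i := by omega
    have hk' : (0 : ℝ) < ((p - 1 - i : ℕ) : ℝ) := by exact_mod_cast hk
    have hpk : (p : ℝ) = i + ((p - 1 - i : ℕ) : ℝ) + 1 := by
      have : p = i + (p - 1 - i) + 1 := by omega
      exact_mod_cast this
    have hy0 : 0 < ((i : ℝ) + θ) / p := by positivity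
    have hy1 : ((i : ℝ) + θ) / p < 1 := by
      rw [div_lt_one hp']; linarith
    refine (geo_le' n a hy0 hy1).trans ?_
    have e1 : (i : ℝ) / p ≤ ((i : ℝ) + θ) / p := by
      apply div_le_div_of_nonneg_right _ hp'.le
      linarith
    have e2 : ((p - 1 - i : ℕ) : ℝ) / p ≤ 1 - ((i : ℝ) + θ) / p := by
      rw [div_le_iff₀ hp', sub_mul, div_mul_cancel₀ _ hp'.ne', one_mul]
      linarith
    rcases le_total (((i : ℝ) + θ) / p) (1 - ((i : ℝ) + θ) / p) with h | h
    · rw [min_eq_left h]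
      have e3 : 1 / (2 * (((i : ℝ) + θ) / p)) ≤ 1 / (2 * ((i : ℝ) / p)) :=
        one_div_le_one_div_of_le (by positivity) (by linarith)
      have e4 : 1 / (2 * ((i : ℝ) / p)) = (p / 2 : ℝ) * (1 / (i : ℝ)) := by
        field_simp
      have e5 : (0 : ℝ) ≤ (p / 2 : ℝ) * (1 / ((p - 1 - i : ℕ) : ℝ)) := by positivity
      rw [mul_add]
      linarith
    · rw [min_eq_right h]
      have e3 : 1 / (2 * (1 - ((i : ℝ) + θ) / p)) ≤ 1 / (2 * (((p - 1 - i : ℕ) : ℝ) / p)) :=
        one_div_le_one_div_of_le (by positivity) (by linarith)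
      have e4 : 1 / (2 * (((p - 1 - i : ℕ) : ℝ) / p)) =
          (p / 2 : ℝ) * (1 / ((p - 1 - i : ℕ) : ℝ)) := by
        field_simp
      have e5 : (0 : ℝ) ≤ (p / 2 : ℝ) * (1 / (i : ℝ)) := by positivity
      rw [mul_add]
      linarith
  refine (Finset.sum_le_sum hb).trans ?_
  rw [Finset.sum_add_distrib, Finset.sum_add_distrib, Finset.sum_ite_eq', Finset.sum_ite_eq',
    ← Finset.mul_sum, Finset.sum_add_distrib,
    if_pos (Finset.mem_range.2 hp), if_pos (Finset.mem_range.2 (by omega))]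
  have h2 : ∑ i ∈ Finset.range p, (1 : ℝ) / ((p - 1 - i : ℕ) : ℝ) =
      ∑ i ∈ Finset.range p, (1 : ℝ) / (i : ℝ) :=
    Finset.sum_range_reflect (fun i => (1 : ℝ) / (i : ℝ)) p
  rw [h2]
  have h3 := sum_inv_le p hp
  nlinarith

theorem complete (p : ℕ) [Fact p.Prime] (f : ZMod p → ℂ) {B : ℝ}
    (hB : ∀ h : ZMod p, ‖∑ j : ZMod p, f j * chi p (h * j)‖ ≤ B) (x : ℝ) (a : ℤ) (n : ℕ) :
    ‖∑ j ∈ Finset.range n, f ((a + j : ℤ) : ZMod p) * ee (((a : ℝ) + j) * x)‖ ≤
      B * (3 + Real.log p) * ((n : ℝ) / p + 1) := by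
  have hpp : p.Prime := Fact.out
  have hp : 0 < p := hpp.pos
  have hp' : (0 : ℝ) < p := by exact_mod_cast hp
  have hp1 : (1 : ℝ) ≤ p := by exact_mod_cast hp
  have hB0 : 0 ≤ B := (norm_nonneg _).trans (hB 0)
  set m : ℤ := ⌊(p : ℝ) * x⌋ with hm
  set θ : ℝ := Int.fract ((p : ℝ) * x) with hθ
  have hx : x = ((m : ℝ) + θ) / p := by
    rw [hm, hθ, Int.floor_add_fract]
    field_simp
  have hθ0 : 0 ≤ θ := Int.fract_nonneg _
  have hθ1 : θ < 1 := Int.fract_lt_one _
  -- inversion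
  have hinv : ∀ k : ZMod p, f k = (1 / p : ℂ) * ∑ u : ZMod p,
      (∑ j : ZMod p, f j * chi p (((m : ZMod p) - u) * j)) * chi p ((u - (m : ZMod p)) * k) := by
    intro k
    have h1 : ∑ u : ZMod p,
        (∑ j : ZMod p, f j * chi p (((m : ZMod p) - u) * j)) * chi p ((u - (m : ZMod p)) * k) =
        ∑ j : ZMod p, f j * (chi p ((m : ZMod p) * (j - k)) * ∑ u : ZMod p, chi p ((k - j) * u)) := by
      simp only [Finset.sum_mul, Finset.mul_sum]
      rw [Finset.sum_comm]
      apply Finset.sum_congr rfl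
      intro j _
      apply Finset.sum_congr rfl
      intro u _
      rw [mul_assoc, ← chi_add, ← chi_add]
      congr 2
      ring
    rw [h1, Finset.sum_eq_single k]
    · rw [sub_self, mul_zero, chi_sum]
      have h2 : chi p 0 = 1 := by
        have := chi_int p 0
        rw [Int.cast_zero] at this
        rw [this]
        simp [ee]
      rw [h2, if_pos rfl]
      have : (p : ℂ) ≠ 0 := by exact_mod_cast hp.ne'
      field_simp
    · intro j _ hj
      rw [chi_sum, if_neg (sub_ne_zero.2 (Ne.symm hj)), mul_zero, mul_zero]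
    · intro h
      exact absurd (Finset.mem_univ k) h
  have hmain : ∑ j ∈ Finset.range n, f ((a + j : ℤ) : ZMod p) * ee (((a : ℝ) + j) * x) =
      (1 / p : ℂ) * ∑ u : ZMod p, (∑ j : ZMod p, f j * chi p (((m : ZMod p) - u) * j)) *
        ∑ j ∈ Finset.range n, ee (((a : ℝ) + j) * (((u.val : ℝ) + θ) / p)) := by
    have h1 : ∀ (j : ℕ) (u : ZMod p),
        chi p ((u - (m : ZMod p)) * ((a + j : ℤ) : ZMod p)) * ee (((a : ℝ) + j) * x) =
          ee (((a : ℝ) + j) * (((u.val : ℝ) + θ) / p)) := by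
      intro j u
      have h2 : (u - (m : ZMod p)) * ((a + j : ℤ) : ZMod p) =
          (((u.val : ℤ) - m) * (a + j) : ℤ) := by
        push_cast
        rw [ZMod.natCast_zmod_val]
      rw [h2, chi_int, ← ee_add']
      congr 1
      rw [hx]
      push_cast
      field_simp
      ring
    calc ∑ j ∈ Finset.range n, f ((a + j : ℤ) : ZMod p) * ee (((a : ℝ) + j) * x)
        = ∑ j ∈ Finset.range n, (1 / p : ℂ) * ∑ u : ZMod p,
            (∑ j : ZMod p, f j * chi p (((m : ZMod p) - u) * j)) *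
              ee (((a : ℝ) + j) * (((u.val : ℝ) + θ) / p)) := by
          apply Finset.sum_congr rfl
          intro j _
          rw [hinv, mul_assoc, Finset.sum_mul]
          congr 1
          apply Finset.sum_congr rfl
          intro u _
          rw [mul_assoc, h1]
      _ = _ := by
          rw [← Finset.mul_sum, Finset.sum_comm]
          congr 1
          apply Finset.sum_congr rfl
          intro u _
          rw [Finset.mul_sum]
  rw [hmain, norm_mul]
  have hn1 : ‖(1 / p : ℂ)‖ = 1 / p := by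
    rw [norm_div, norm_one, Complex.norm_natCast]
  rw [hn1]
  have h3 : ‖∑ u : ZMod p, (∑ j : ZMod p, f j * chi p (((m : ZMod p) - u) * j)) *
        ∑ j ∈ Finset.range n, ee (((a : ℝ) + j) * (((u.val : ℝ) + θ) / p))‖ ≤
      B * (2 * n + p * (1 + Real.log p)) := by
    refine (norm_sum_le _ _).trans ?_
    calc ∑ u : ZMod p, ‖(∑ j : ZMod p, f j * chi p (((m : ZMod p) - u) * j)) *
          ∑ j ∈ Finset.range n, ee (((a : ℝ) + j) * (((u.val : ℝ) + θ) / p))‖
        ≤ ∑ u : ZMod p, B * ‖∑ j ∈ Finset.range n,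
            ee (((a : ℝ) + j) * (((u.val : ℝ) + θ) / p))‖ := by
          apply Finset.sum_le_sum
          intro u _
          rw [norm_mul]
          exact mul_le_mul_of_nonneg_right (hB _) (norm_nonneg _)
      _ = B * ∑ i ∈ Finset.range p, ‖∑ j ∈ Finset.range n,
            ee (((a : ℝ) + j) * (((i : ℝ) + θ) / p))‖ := by
          rw [← Finset.mul_sum]
          congr 1
          refine Finset.sum_nbij' (fun u : ZMod p => u.val) (fun i => ((i : ℕ) : ZMod p))
            (fun u _ => Finset.mem_range.2 (ZMod.val_lt u)) (fun _ _ => Finset.mem_univ _)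
            (fun u _ => ZMod.natCast_zmod_val u) (fun i hi => ZMod.val_cast_of_lt (Finset.mem_range.1 hi))
            (fun _ _ => rfl)
      _ ≤ _ := mul_le_mul_of_nonneg_left (sum_geo_le p hp n a θ hθ0 hθ1) hB0
  have hlog : 0 ≤ Real.log p := Real.log_nonneg hp1
  calc 1 / (p : ℝ) * _ ≤ 1 / (p : ℝ) * (B * (2 * n + p * (1 + Real.log p))) :=
        mul_le_mul_of_nonneg_left h3 (by positivity)
    _ = B * (2 * ((n : ℝ) / p) + (1 + Real.log p)) := by
        field_simp
    _ ≤ B * (3 + Real.log p) * ((n : ℝ) / p + 1) := by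
        rw [mul_assoc]
        apply mul_le_mul_of_nonneg_left _ hB0
        have : (0 : ℝ) ≤ (n : ℝ) / p := by positivity
        nlinarith

end Pool.Agent.ILL
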