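import Pool.Agent.ILL.Tal
import Pool.Agent.ILL.FdC

/-!
# CUS. The cusp

`rv k (toR γ * h) = rv (k γ) h`, and `k ↦ kγ` is a bijection of `ℤ² \ 0`, so `Cut c` is invariant. It is measurable
(countable intersection). `DD \ Cut c` decreases to the empty set as `c → 0` (`exists_cut`) and `muG DD < ∞`.
-/

open MeasureTheory Set Filter Topology
open scoped ENNReal NNReal

namespace Pool.Agent.ILL

theorem rv_mul (k : ℤ × ℤ) (γ : SLZ) (h : SLR) :
    rv k (toR γ * h) = rv (k.1 * γ 0 0 + k.2 * γ 1 0, k.1 * γ 0 1 + k.2 * γ 1 1) h := by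
  have e : ∀ i j, (toR γ) i j = ((γ i j : ℤ) : ℝ) := fun i j => rfl
  ext
  · simp only [rv, Matrix.SpecialLinearGroup.coe_mul, Matrix.mul_apply, Fin.sum_univ_two, e]
    push_cast
    ring
  · simp only [rv, Matrix.SpecialLinearGroup.coe_mul, Matrix.mul_apply, Fin.sum_univ_two, e]
    push_cast
    ring

private theorem cus_one (c : ℝ) (γ : SLZ) (h : SLR) (hh : h ∈ Cut c) : toR γ * h ∈ Cut c := by
  intro k hk
  rw [rv_mul]
  apply hh
  intro h0
  apply hk
  have hdet : γ 0 0 * γ 1 1 - γ 0 1 * γ 1 0 = 1 := by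
    have := γ.det_coe
    rwa [Matrix.det_fin_two] at this
  have h1 : k.1 * γ 0 0 + k.2 * γ 1 0 = 0 := congrArg Prod.fst h0
  have h2 : k.1 * γ 0 1 + k.2 * γ 1 1 = 0 := congrArg Prod.snd h0
  ext
  · show k.1 = 0
    linear_combination (-k.1) * hdet + γ 1 1 * h1 - γ 1 0 * h2
  · show k.2 = 0
    linear_combination (-k.2) * hdet + γ 0 0 * h2 - γ 0 1 * h1

theorem Cut_inv (c : ℝ) (γ : SLZ) (h : SLR) : toR γ * h ∈ Cut c ↔ h ∈ Cut c := by
  refine ⟨fun hh => ?_, cus_one c γ h⟩
  have := cus_one c γ⁻¹ _ hh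
  rwa [← mul_assoc, ← map_mul, inv_mul_cancel, map_one, one_mul] at this

theorem measurableSet_Cut (c : ℝ) : MeasurableSet (Cut c) := by
  have hent : ∀ i j, Continuous fun h : SLR => (h i j : ℝ) := fun i j =>
    (continuous_apply j).comp ((continuous_apply i).comp continuous_subtype_val)
  have e : Cut c = ⋂ k : ℤ × ℤ, {h | k ≠ 0 → c ≤ nrmI (rv k h)} := by
    ext h
    simp only [Cut, mem_setOf_eq, mem_iInter]
  rw [e]
  refine MeasurableSet.iInter fun k => ?_
  by_cases hk : k = 0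
  · have : {h : SLR | k ≠ 0 → c ≤ nrmI (rv k h)} = univ := by
      ext h
      simp [hk]
    rw [this]
    exact MeasurableSet.univ
  · have h1 : {h : SLR | k ≠ 0 → c ≤ nrmI (rv k h)} = {h | c ≤ nrmI (rv k h)} := by
      ext h
      simp [hk]
    rw [h1]
    apply IsClosed.measurableSet
    apply isClosed_le continuous_const
    unfold nrmI rv
    have c1 : Continuous fun h : SLR => (k.1 : ℝ) * h 0 0 + (k.2 : ℝ) * h 1 0 :=
      (continuous_const.mul (hent 0 0)).add (continuous_const.mul (hent 1 0))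
    have c2 : Continuous fun h : SLR => (k.1 : ℝ) * h 0 1 + (k.2 : ℝ) * h 1 1 :=
      (continuous_const.mul (hent 0 1)).add (continuous_const.mul (hent 1 1))
    exact c1.abs.max c2.abs

theorem Cut_small {ε : ℝ} (hε : 0 < ε) : ∃ c > 0, muG (DD \ Cut c) ≤ ENNReal.ofReal ε := by
  let s : ℕ → Set SLR := fun n => DD \ Cut (1 / ((n : ℝ) + 1))
  have hs : ∀ n, NullMeasurableSet (s n) muG := fun n =>
    (measurableSet_DD.diff (measurableSet_Cut _)).nullMeasurableSet
  have hanti : Antitone s := by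
    intro m n hmn h hh
    refine ⟨hh.1, fun hc => hh.2 ?_⟩
    intro k hk
    refine le_trans ?_ (hc k hk)
    apply one_div_le_one_div_of_le (by positivity)
    have : (m : ℝ) ≤ n := by exact_mod_cast hmn
    linarith
  have hinter : ⋂ n, s n = ∅ := by
    rw [eq_empty_iff_forall_notMem]
    intro h hh
    rw [mem_iInter] at hh
    obtain ⟨c, hc, hcut⟩ := exists_cut h
    obtain ⟨n, hn⟩ := exists_nat_one_div_lt hc
    exact (hh n).2 fun k hk => le_trans hn.le (hcut k hk)
  have hfin : ∃ n, muG (s n) ≠ ∞ :=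
    ⟨0, ne_top_of_le_ne_top muG_DD_lt_top.ne (measure_mono sdiff_subset)⟩
  have h1 := tendsto_measure_iInter_atTop hs hanti hfin
  rw [hinter, measure_empty] at h1
  have h2 : ∀ᶠ n in atTop, muG (s n) < ENNReal.ofReal ε :=
    h1.eventually (gt_mem_nhds (ENNReal.ofReal_pos.2 hε))
  obtain ⟨n, hn⟩ := h2.exists
  exact ⟨1 / ((n : ℝ) + 1), by positivity, hn.le⟩

end Pool.Agent.ILL
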