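import Pool.Agent.ILL.Defs

/-!
# PMO. The counting measure of the orbit of a rational point

`orbS P = {γP + z}` is invariant under `R ↦ γ R + z`, and under the inverse maps (group), so the counting
measure restricted to it is preserved by these bijections of the plane. It is countable (σ-finite:
counting measure restricted to a countable set). If `q P ∈ ℤ²` then `orbS P ⊆ (1/q) ℤ²` and
`F0 ∩ (1/q)ℤ²` is finite. `orbS (0,0) = ℤ²` meets `F0` in the origin only.
-/

open MeasureTheory Set Filter Topology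
open scoped ENNReal NNReal

namespace Pool.Agent.ILL

private theorem pmo_ZP_add (z w : ℤ × ℤ) : ZP (z + w) = ZP z + ZP w := by
  ext <;> simp [ZP]

private theorem pmo_mv_ZP (γ : SLZ) (z : ℤ × ℤ) :
    mv (toR γ) (ZP z) = ZP (γ 0 0 * z.1 + γ 0 1 * z.2, γ 1 0 * z.1 + γ 1 1 * z.2) := by
  have h : ∀ i j, (toR γ) i j = ((γ i j : ℤ) : ℝ) := fun i j => rfl
  ext <;> simp [mv, ZP, h]

private theorem pmo_orbS_add {P R : Pl} (z : ℤ × ℤ) (h : R ∈ orbS P) : R + ZP z ∈ orbS P := by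
  obtain ⟨γ, w, rfl⟩ := h
  exact ⟨γ, w + z, by rw [pmo_ZP_add, add_assoc]⟩

private theorem pmo_orbS_mv {P R : Pl} (γ : SLZ) (h : R ∈ orbS P) :
    mv (toR γ) R ∈ orbS P := by
  obtain ⟨γ', w, rfl⟩ := h
  exact ⟨γ * γ', _, by rw [mv_add, pmo_mv_ZP, map_mul, mv_mul]⟩

private theorem pmo_orbS_add_iff {P R : Pl} (z : ℤ × ℤ) : R + ZP z ∈ orbS P ↔ R ∈ orbS P := by
  refine ⟨fun h => ?_, pmo_orbS_add z⟩
  have h1 := pmo_orbS_add (-z) h
  rwa [add_assoc, ← pmo_ZP_add, add_neg_cancel, show ZP 0 = 0 by ext <;> simp [ZP],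
    add_zero] at h1

private theorem pmo_orbS_mv_iff {P R : Pl} (γ : SLZ) :
    mv (toR γ) R ∈ orbS P ↔ R ∈ orbS P := by
  refine ⟨fun h => ?_, pmo_orbS_mv γ⟩
  have h1 := pmo_orbS_mv γ⁻¹ h
  rwa [← mv_mul, ← map_mul, inv_mul_cancel, map_one, mv_one] at h1

theorem self_mem_orbS (P : Pl) : P ∈ orbS P :=
  ⟨1, 0, by rw [map_one, mv_one, show ZP 0 = 0 by ext <;> simp [ZP], add_zero]⟩

private theorem pmo_countable (P : Pl) : (orbS P).Countable := by
  haveI : Countable SLZ :=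
    inferInstanceAs (Countable {A : Fin 2 → Fin 2 → ℤ // Matrix.det (Matrix.of A) = 1})
  have h : orbS P = range (fun x : SLZ × (ℤ × ℤ) => mv (toR x.1) P + ZP x.2) := by
    ext R
    constructor
    · rintro ⟨γ, z, rfl⟩
      exact ⟨(γ, z), rfl⟩
    · rintro ⟨⟨γ, z⟩, rfl⟩
      exact ⟨γ, z, rfl⟩
  rw [h]
  exact countable_range _

theorem measurableSet_orbS (P : Pl) : MeasurableSet (orbS P) :=
  (pmo_countable P).measurableSet

private theorem pmo_measurableSet_F0 : MeasurableSet F0 :=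
  measurableSet_Ico.prod measurableSet_Ico

private theorem pmo_mp (e : Pl ≃ᵐ Pl) {S : Set Pl} (hS : MeasurableSet S)
    (h : ∀ R, e R ∈ S ↔ R ∈ S) :
    MeasurePreserving e (Measure.count.restrict S) (Measure.count.restrict S) := by
  refine ⟨e.measurable, ?_⟩
  ext s hs
  rw [Measure.map_apply e.measurable hs, Measure.restrict_apply (e.measurable hs),
    Measure.restrict_apply hs]
  have h1 : e ⁻¹' s ∩ S = e.symm '' (s ∩ S) := by
    ext R
    constructor
    · rintro ⟨h1, h2⟩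
      exact ⟨e R, ⟨h1, (h R).2 h2⟩, e.symm_apply_apply R⟩
    · rintro ⟨R', ⟨h1, h2⟩, rfl⟩
      refine ⟨?_, ?_⟩
      · simpa using h1
      · rw [← h, e.apply_symm_apply]
        exact h2
  rw [h1, Measure.count_injective_image e.symm.injective]

private theorem pmo_finite {P : Pl} (hP : RatP P) : (F0 ∩ orbS P).Finite := by
  obtain ⟨q, hq, z, hz⟩ := hP
  have hq' : (0 : ℝ) < q := by exact_mod_cast hq
  refine Set.Finite.subset
    (((Finset.Ico (0 : ℤ) q ×ˢ Finset.Ico (0 : ℤ) q).image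
      (fun w : ℤ × ℤ => (((w.1 : ℝ) / q, (w.2 : ℝ) / q) : Pl))).finite_toSet) ?_
  rintro R ⟨hR, γ, w, hRw⟩
  have e1 := congrArg Prod.fst hz
  have e2 := congrArg Prod.snd hz
  simp only [ZP] at e1 e2
  have h : ∀ i j, (toR γ) i j = ((γ i j : ℤ) : ℝ) := fun i j => rfl
  have f1 : (q : ℝ) * R.1 = ((γ 0 0 * z.1 + γ 0 1 * z.2 + q * w.1 : ℤ) : ℝ) := by
    rw [hRw]
    simp only [mv, ZP, Prod.fst_add, h]
    push_cast
    rw [← e1, ← e2]
    ring
  have f2 : (q : ℝ) * R.2 = ((γ 1 0 * z.1 + γ 1 1 * z.2 + q * w.2 : ℤ) : ℝ) := by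
    rw [hRw]
    simp only [mv, ZP, Prod.snd_add, h]
    push_cast
    rw [← e1, ← e2]
    ring
  have g1 : 0 ≤ R.1 ∧ R.1 < 1 := hR.1
  have g2 : 0 ≤ R.2 ∧ R.2 < 1 := hR.2
  rw [Finset.mem_coe, Finset.mem_image]
  refine ⟨(γ 0 0 * z.1 + γ 0 1 * z.2 + q * w.1, γ 1 0 * z.1 + γ 1 1 * z.2 + q * w.2), ?_, ?_⟩
  · rw [Finset.mem_product, Finset.mem_Ico, Finset.mem_Ico]
    refine ⟨⟨?_, ?_⟩, ⟨?_, ?_⟩⟩
    · have : (0 : ℝ) ≤ ((γ 0 0 * z.1 + γ 0 1 * z.2 + q * w.1 : ℤ) : ℝ) := by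
        rw [← f1]
        exact mul_nonneg hq'.le g1.1
      exact_mod_cast this
    · have : ((γ 0 0 * z.1 + γ 0 1 * z.2 + q * w.1 : ℤ) : ℝ) < ((q : ℤ) : ℝ) := by
        rw [← f1]
        have := mul_lt_mul_of_pos_left g1.2 hq'
        simpa using this
      exact_mod_cast this
    · have : (0 : ℝ) ≤ ((γ 1 0 * z.1 + γ 1 1 * z.2 + q * w.2 : ℤ) : ℝ) := by
        rw [← f2]
        exact mul_nonneg hq'.le g2.1
      exact_mod_cast this
    · have : ((γ 1 0 * z.1 + γ 1 1 * z.2 + q * w.2 : ℤ) : ℝ) < ((q : ℤ) : ℝ) := by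
        rw [← f2]
        have := mul_lt_mul_of_pos_left g2.2 hq'
        simpa using this
      exact_mod_cast this
  · ext
    · show ((γ 0 0 * z.1 + γ 0 1 * z.2 + q * w.1 : ℤ) : ℝ) / q = R.1
      rw [← f1]
      field_simp
    · show ((γ 1 0 * z.1 + γ 1 1 * z.2 + q * w.2 : ℤ) : ℝ) / q = R.2
      rw [← f2]
      field_simp

private theorem pmo_sigma (P : Pl) : SigmaFinite (rhoO P) := by
  obtain ⟨e, he⟩ := (pmo_countable P).exists_eq_range ⟨P, self_mem_orbS P⟩
  refine ⟨⟨{ set := fun n => (orbS P)ᶜ ∪ e '' (Iic n), set_mem := fun _ => trivial,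
             finite := fun n => ?_, spanning := ?_ }⟩⟩
  · have hfin : (e '' (Iic n)).Finite := (finite_Iic n).image e
    refine lt_of_le_of_lt (measure_union_le _ _) ?_
    have h1 : rhoO P (orbS P)ᶜ = 0 := by
      unfold rhoO
      rw [Measure.restrict_apply (measurableSet_orbS P).compl, compl_inter_self,
        measure_empty]
    rw [h1, zero_add]
    refine lt_of_le_of_lt (Measure.restrict_apply_le _ _) ?_
    rw [Measure.count_apply_lt_top]
    exact hfin
  · rw [eq_univ_iff_forall]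
    intro R
    rw [mem_iUnion]
    by_cases hR : R ∈ orbS P
    · have hR' : R ∈ range e := he ▸ hR
      obtain ⟨n, hn⟩ := hR'
      exact ⟨n, Or.inr ⟨n, mem_Iic.2 le_rfl, hn⟩⟩
    · exact ⟨0, Or.inl hR⟩

theorem perMeas_orbit {P : Pl} (hP : RatP P) : PerMeas (rhoO P) where
  sf := pmo_sigma P
  tr z := pmo_mp (MeasurableEquiv.addRight (ZP z)) (measurableSet_orbS P)
    (fun _ => pmo_orbS_add_iff z)
  lin γ := pmo_mp (eM (toR γ)) (measurableSet_orbS P) (fun _ => pmo_orbS_mv_iff γ)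
  fin := by
    unfold rhoO
    rw [Measure.restrict_apply pmo_measurableSet_F0, Measure.count_apply_lt_top]
    exact pmo_finite hP

theorem rhoO_singleton {P R : Pl} (hR : R ∈ orbS P) : rhoO P {R} = 1 := by
  unfold rhoO
  rw [Measure.restrict_apply (measurableSet_singleton R),
    inter_eq_left.2 (singleton_subset_iff.2 hR), Measure.count_singleton]

theorem rhoO_compl (P : Pl) : rhoO P (orbS P)ᶜ = 0 := by
  unfold rhoO
  rw [Measure.restrict_apply (measurableSet_orbS P).compl, compl_inter_self, measure_empty]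

theorem one_le_rhoO_F0 (P : Pl) : 1 ≤ rhoO P F0 := by
  have h1 : P + ZP (-⌊P.1⌋, -⌊P.2⌋) ∈ orbS P := pmo_orbS_add _ (self_mem_orbS P)
  rw [← rhoO_singleton h1]
  apply measure_mono
  rw [singleton_subset_iff]
  refine ⟨⟨?_, ?_⟩, ⟨?_, ?_⟩⟩
  · have := Int.floor_le P.1
    simp only [ZP, Prod.fst_add]
    push_cast
    linarith
  · have := Int.lt_floor_add_one P.1
    simp only [ZP, Prod.fst_add]
    push_cast
    linarith
  · have := Int.floor_le P.2
    simp only [ZP, Prod.snd_add]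
    push_cast
    linarith
  · have := Int.lt_floor_add_one P.2
    simp only [ZP, Prod.snd_add]
    push_cast
    linarith

theorem ratP_zero : RatP (0, 0) := ⟨1, one_pos, (0, 0), by simp [ZP]⟩

private theorem pmo_zero : F0 ∩ orbS (0, 0) = {((0, 0) : Pl)} := by
  ext R
  rw [mem_singleton_iff]
  constructor
  · rintro ⟨hR, γ, w, hRw⟩
    have h0 : mv (toR γ) (0, 0) = 0 := by
      ext <;> simp [mv]
    rw [h0, zero_add] at hRw
    have g1 : 0 ≤ R.1 ∧ R.1 < 1 := hR.1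
    have g2 : 0 ≤ R.2 ∧ R.2 < 1 := hR.2
    rw [hRw] at g1 g2 ⊢
    simp only [ZP] at g1 g2 ⊢
    have a1 : 0 ≤ w.1 := by exact_mod_cast g1.1
    have a2 : w.1 < 1 := by exact_mod_cast g1.2
    have b1 : 0 ≤ w.2 := by exact_mod_cast g2.1
    have b2 : w.2 < 1 := by exact_mod_cast g2.2
    have a3 : w.1 = 0 := by omega
    have b3 : w.2 = 0 := by omega
    rw [a3, b3]
    simp
  · rintro rfl
    refine ⟨?_, self_mem_orbS _⟩
    constructor <;> simp

theorem rhoO_zero_F0 : rhoO (0, 0) F0 = 1 := by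
  unfold rhoO
  rw [Measure.restrict_apply pmo_measurableSet_F0, pmo_zero, Measure.count_singleton]

theorem rhoO_zero_lintegral (f : Pl → ℝ≥0∞) :
    ∫⁻ P in F0, f P ∂(rhoO (0, 0)) = f (0, 0) := by
  unfold rhoO
  rw [Measure.restrict_restrict pmo_measurableSet_F0, pmo_zero, lintegral_singleton,
    Measure.count_singleton, mul_one]

end Pool.Agent.ILL
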