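import Pool.Agent.ILL.Mpx
import Pool.Agent.ILL.Pmo

/-!
# DCO. Constancy on atoms and along the orbit

For `ρ = rhoO P`: if `W` is a.e. invariant under all right multiplications and under the lattice, there is a
constant `c` with `W(h,R) = c` for all `R ∈ orbS P` and almost all `h`.
PROOF. The measure `rhoO P` gives mass `1` to every point of the orbit, so an a.e. statement for
`muG.prod (rhoO P)` holds for every `R ∈ orbS P` for almost all `h`. For fixed `R` and every `g`:
`W(h g, R) = W(h, R)` for a.e. `h`; by Fubini for a.e. `h` this holds for a.e. `g`; fix one such `h₀`; then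
`W(h₀ g, R) = W(h₀,R) =: c_R` for a.e. `g`, and left invariance of `muG` gives `W(h,R) = c_R` for a.e. `h`.
(The set `{(h,g) : W(hg,R) = W(h,R)}` is measurable.) Invariance under `eL γ`, `eT z` (`AEAut.all`) gives
`c_{γR+z} = c_R`.
-/

open MeasureTheory Set Filter Topology
open scoped ENNReal NNReal

namespace Pool.Agent.ILL

private theorem ae_at {P R : Pl} (hP : RatP P) (hR : R ∈ orbS P) {p : SLR × Pl → Prop}
    (h : ∀ᵐ x ∂(muG.prod (rhoO P)), p x) : ∀ᵐ g ∂muG, p (g, R) := by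
  have := (perMeas_orbit hP).sf
  filter_upwards [Measure.ae_ae_of_ae_prod h] with g hg
  by_contra hn
  have h1 : rhoO P {R} = 0 := measure_mono_null (by
    intro R' hR'
    rw [mem_singleton_iff] at hR'
    rw [hR']
    exact hn) (ae_iff.1 hg)
  rw [rhoO_singleton hR] at h1
  exact one_ne_zero h1

private theorem ae_const {w : SLR → ℝ} (hw : Measurable w)
    (h : ∀ g : SLR, ∀ᵐ k ∂muG, w (k * g) = w k) : ∃ c : ℝ, ∀ᵐ k ∂muG, w k = c := by
  have hms : MeasurableSet {x : SLR × SLR | w (x.2 * x.1) = w x.2} :=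
    measurableSet_eq_fun (hw.comp (measurable_snd.mul measurable_fst)) (hw.comp measurable_snd)
  have h1 : ∀ᵐ g ∂muG, ∀ᵐ k ∂muG, w (k * g) = w k := Eventually.of_forall h
  rw [Measure.ae_ae_comm hms] at h1
  have hne : (ae muG).NeBot := ae_neBot.2 muG_ne_zero
  obtain ⟨k0, hk0⟩ := h1.exists
  refine ⟨w k0, ?_⟩
  have h2 := (measurePreserving_mul_left muG k0⁻¹).quasiMeasurePreserving.ae hk0
  filter_upwards [h2] with k hk
  rwa [mul_inv_cancel_left] at hk

theorem const_on_orbit {P : Pl} (hP : RatP P) {W : SLR × Pl → ℝ} (hW : Measurable W)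
    (ha : AEAut (rhoO P) W) (hg : ∀ g : SLR, ∀ᵐ x ∂(muG.prod (rhoO P)), W (eR g x) = W x) :
    ∃ c : ℝ, ∀ᵐ x ∂(muG.prod (rhoO P)), W x = c := by
  have hper := perMeas_orbit hP
  have := hper.sf
  have hne : (ae muG).NeBot := ae_neBot.2 muG_ne_zero
  -- constancy for every point of the orbit
  have h1 : ∀ R ∈ orbS P, ∃ c : ℝ, ∀ᵐ k ∂muG, W (k, R) = c := by
    intro R hR
    apply ae_const (w := fun k => W (k, R)) (hW.comp measurable_prodMk_right)
    intro g
    exact ae_at hP hR (hg g)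
  obtain ⟨c, hc⟩ := h1 P (self_mem_orbS P)
  obtain ⟨hL, hT⟩ := AEAut.all hper ha
  have h2 : ∀ R ∈ orbS P, ∀ᵐ k ∂muG, W (k, R) = c := by
    rintro R ⟨γ, z, rfl⟩
    have hm : mv (toR γ) P ∈ orbS P := ⟨γ, 0, by
      ext <;> simp [ZP]⟩
    have h3 : ∀ᵐ k ∂muG, W (toR γ * k, mv (toR γ) P) = W (k, P) :=
      ae_at hP (self_mem_orbS P) (hL γ)
    have h4 : ∀ᵐ k ∂muG, W (k, mv (toR γ) P + ZP z) = W (k, mv (toR γ) P) :=
      ae_at hP hm (hT z)
    have h5 : ∀ᵐ k ∂muG, W (k, mv (toR γ) P) = c := by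
      have h6 : ∀ᵐ k ∂muG, W (toR γ * k, mv (toR γ) P) = c := by
        filter_upwards [h3, hc] with k e1 e2
        rw [e1, e2]
      have h7 := (measurePreserving_mul_left muG (toR γ)⁻¹).quasiMeasurePreserving.ae h6
      filter_upwards [h7] with k hk
      rwa [mul_inv_cancel_left] at hk
    filter_upwards [h4, h5] with k e1 e2
    rw [e1, e2]
  refine ⟨c, ?_⟩
  have hms : MeasurableSet {x : SLR × Pl | W x = c} := measurableSet_eq_fun hW measurable_const
  rw [Measure.ae_prod_iff_ae_ae hms]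
  have h3 : ∀ᵐ R ∂(rhoO P), ∀ᵐ k ∂muG, W (k, R) = c := by
    have h4 : ∀ᵐ R ∂(rhoO P), R ∈ orbS P := by
      rw [ae_iff]
      exact rhoO_compl P
    filter_upwards [h4] with R hR
    exact h2 R hR
  exact (Measure.ae_ae_comm (p := fun (k : SLR) (R : Pl) => W (k, R) = c) hms).2 h3

end Pool.Agent.ILL
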