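import Mathlib

/-!
# ILL, definitions: illumination by circles of parallelogram-tiled surfaces
-/

open MeasureTheory Set Filter Topology
open scoped ENNReal NNReal

namespace Pool.Agent.ILL

/-! ## The plane and the groups -/

/-- the plane -/
abbrev Pl := ℝ × ℝ

/-- the group `SL(2,ℝ)` -/
abbrev SLR := Matrix.SpecialLinearGroup (Fin 2) ℝ

/-- the group `SL(2,ℤ)` -/
abbrev SLZ := Matrix.SpecialLinearGroup (Fin 2) ℤ

instance : MeasurableSpace SLR := borel SLR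
instance : BorelSpace SLR := ⟨rfl⟩
instance : LocallyCompactSpace SLR := by
  haveI : LocallyCompactSpace (Matrix (Fin 2) (Fin 2) ℝ) :=
    inferInstanceAs (LocallyCompactSpace (Fin 2 → Fin 2 → ℝ))
  exact Matrix.SpecialLinearGroup.isClosedEmbedding_val.locallyCompactSpace
instance : SecondCountableTopology SLR := by
  haveI : SecondCountableTopology (Matrix (Fin 2) (Fin 2) ℝ) :=
    inferInstanceAs (SecondCountableTopology (Fin 2 → Fin 2 → ℝ))
  exact Matrix.SpecialLinearGroup.isClosedEmbedding_val.isEmbedding.secondCountableTopology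
instance : T2Space SLR := Matrix.SpecialLinearGroup.isClosedEmbedding_val.isEmbedding.t2Space

/-- the linear action on the plane -/
def mv (h : SLR) (v : Pl) : Pl := (h 0 0 * v.1 + h 0 1 * v.2, h 1 0 * v.1 + h 1 1 * v.2)

/-- the lattice points -/
def ZP (z : ℤ × ℤ) : Pl := ((z.1 : ℝ), (z.2 : ℝ))

/-- the inclusion `SL(2,ℤ) → SL(2,ℝ)` -/
def toR : SLZ →* SLR := Matrix.SpecialLinearGroup.map (Int.castRingHom ℝ)

/-- lower unipotent matrices -/
def nl (s : ℝ) : SLR := ⟨!![1, 0; s, 1], by simp⟩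
/-- upper unipotent matrices -/
def nu (y : ℝ) : SLR := ⟨!![1, y; 0, 1], by simp⟩
/-- diagonal matrices -/
noncomputable def dg (u : ℝ) : SLR :=
  ⟨!![Real.exp u, 0; 0, Real.exp (-u)], by simp [Matrix.det_fin_two, ← Real.exp_add]⟩
/-- rotation by the angle `2πθ` -/
noncomputable def rot (θ : ℝ) : SLR :=
  ⟨!![Real.cos (2 * Real.pi * θ), -Real.sin (2 * Real.pi * θ);
      Real.sin (2 * Real.pi * θ), Real.cos (2 * Real.pi * θ)], by
    simp only [Matrix.det_fin_two, Matrix.of_apply, Matrix.cons_val', Matrix.cons_val_zero,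
      Matrix.cons_val_one, Matrix.cons_val_fin_one]
    nlinarith [Real.sin_sq_add_cos_sq (2 * Real.pi * θ)]⟩
/-- upper triangular matrices with first entry `α` (and `1` if `α = 0`) -/
noncomputable def tri (α β : ℝ) : SLR :=
  if h : α ≠ 0 then ⟨!![α, β; 0, α⁻¹], by simp [Matrix.det_fin_two, h]⟩ else 1

/-- the integral shear `(x,y) ↦ (x+y,y)` -/
def gU : SLZ := ⟨!![1, 1; 0, 1], by simp⟩
/-- the integral shear `(x,y) ↦ (x,x+y)` -/
def gL : SLZ := ⟨!![1, 0; 1, 1], by simp⟩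

/-! ## Parallel transport along segments

`a`, `b` are the transports across a vertical edge (to the right) and across a horizontal edge
(upwards) of the unit square tiling; `tau a b A B` is the transport along the segment from `A`
to `B`. It is defined by column normal forms. -/

section Transport
variable {H : Type*} [Group H]

/-- crossing a vertical line at height in `[j, j+1)`, seen from row `0` -/
def cj (a b : H) (j : ℤ) : H := b ^ (-j) * a * b ^ j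

/-- height of the segment `AB` at abscissa `i` -/
noncomputable def ht (A B : Pl) (i : ℤ) : ℝ :=
  A.2 + ((i : ℝ) - A.1) * ((B.2 - A.2) / (B.1 - A.1))

/-- the product of the crossings at the abscissae `m+1, …, m+n` (later ones on the left) -/
noncomputable def prodR (a b : H) (A B : Pl) (m : ℤ) : ℕ → H
  | 0 => 1
  | (n + 1) => cj a b ⌊ht A B (m + (n + 1 : ℕ))⌋ * prodR a b A B m n

/-- parallel transport along the segment from `A` to `B` -/
noncomputable def tau (a b : H) (A B : Pl) : H :=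
  if ⌊A.1⌋ ≤ ⌊B.1⌋ then
    b ^ ⌊B.2⌋ * prodR a b A B ⌊A.1⌋ (⌊B.1⌋ - ⌊A.1⌋).toNat * b ^ (-⌊A.2⌋)
  else (b ^ ⌊A.2⌋ * prodR a b B A ⌊B.1⌋ (⌊A.1⌋ - ⌊B.1⌋).toNat * b ^ (-⌊B.2⌋))⁻¹

/-- the holonomy of the closed quadrilateral `A → B → C → D → A` -/
noncomputable def hol4 (a b : H) (A B C D : Pl) : H :=
  tau a b D A * tau a b C D * tau a b B C * tau a b A B

/-- the holonomy of the rectangle `Q → Q - x f₁ → Q - x f₁ - y f₂ → Q - y f₂ → Q`, where
`f₁, f₂` are the columns of `h` -/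
noncomputable def Rect (a b : H) (h : SLR) (Q : Pl) (x y : ℝ) : H :=
  hol4 a b Q (Q + mv h (-x, 0)) (Q + mv h (-x, -y)) (Q + mv h (0, -y))

/-- the commutator subgroup of `⟨a, b⟩` -/
def Nc (a b : H) : Subgroup H := ⁅Subgroup.closure {a, b}, Subgroup.closure {a, b}⁆

end Transport

/-- the exponent in the change of labels for a shear -/
noncomputable def vexp (A : Pl) : ℤ := ⌊A.1 + A.2⌋ - ⌊A.1⌋ - ⌊A.2⌋

/-- the segment `AB` contains no lattice point -/
def LF (A B : Pl) : Prop := ∀ z : ℤ × ℤ, ZP z ∉ segment ℝ A B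

/-- the triangle `ABC` contains no lattice point -/
def LF3 (A B C : Pl) : Prop := ∀ z : ℤ × ℤ, ZP z ∉ convexHull ℝ {A, B, C}

/-- the quadrilateral `ABCD` contains no lattice point -/
def LF4 (A B C D : Pl) : Prop := ∀ z : ℤ × ℤ, ZP z ∉ convexHull ℝ {A, B, C, D}

/-! ## Labels -/

section Labels
variable {Λ : Type} [Fintype Λ] [DecidableEq Λ]

/-- the index set: a pair of permutations `(a, b)`, a label at `P` and a label at `Q` -/
abbrev Lab (Λ : Type) := Equiv.Perm Λ × Equiv.Perm Λ × Λ × Λ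

/-- `q₀` is an admissible label at `P`: either `P` is not a lattice point, or the label is fixed
by the monodromy around `P` (a regular vertex) -/
def adm (a b : Equiv.Perm Λ) (P : Pl) (q₀ : Λ) : Prop :=
  (∀ z : ℤ × ℤ, ZP z ≠ P) ∨ a (b⁻¹ (a⁻¹ q₀)) = b⁻¹ q₀

open Classical in
/-- the elements of `Nc a b` as a finite set -/
noncomputable def NcF (a b : Equiv.Perm Λ) : Finset (Equiv.Perm Λ) :=
  Finset.univ.filter (fun g => g ∈ Nc a b)

/-- average over the commutator subgroup -/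
noncomputable def avgN (a b : Equiv.Perm Λ) (φ : Λ → ℝ) (q : Λ) : ℝ :=
  (∑ n ∈ NcF a b, φ (n q)) / ((NcF a b).card : ℝ)

open Classical in
/-- indicator of `q = tau(P,Q) q₀`, `Q = P + f₁` -/
noncomputable def ind (x : SLR × Pl) (i : Lab Λ) : ℝ :=
  if adm i.1 i.2.1 x.2 i.2.2.1 ∧
      i.2.2.2 = tau i.1 i.2.1 x.2 (x.2 + mv x.1 (1, 0)) i.2.2.1 then 1 else 0

/-- the indicator minus its average over the commutator subgroup -/
noncomputable def f0 (x : SLR × Pl) (i : Lab Λ) : ℝ :=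
  ind x i - avgN i.1 i.2.1 (fun q => ind x (i.1, i.2.1, i.2.2.1, q)) i.2.2.2

/-- the permutation of the index set acting on the last label only -/
def labQ (g : Equiv.Perm Λ → Equiv.Perm Λ → Equiv.Perm Λ) : Equiv.Perm (Lab Λ) where
  toFun i := (i.1, i.2.1, i.2.2.1, g i.1 i.2.1 i.2.2.2)
  invFun i := (i.1, i.2.1, i.2.2.1, (g i.1 i.2.1)⁻¹ i.2.2.2)
  left_inv i := by simp
  right_inv i := by simp

/-- the permutation of the index set for the shear `gU` -/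
noncomputable def labU (x : SLR × Pl) : Equiv.Perm (Lab Λ) where
  toFun i := (i.1, i.2.1 * i.1⁻¹, (i.1 ^ vexp x.2) i.2.2.1,
    (i.1 ^ vexp (x.2 + mv x.1 (1, 0))) i.2.2.2)
  invFun i := (i.1, i.2.1 * i.1, (i.1 ^ vexp x.2)⁻¹ i.2.2.1,
    (i.1 ^ vexp (x.2 + mv x.1 (1, 0)))⁻¹ i.2.2.2)
  left_inv i := by simp
  right_inv i := by simp

/-- the permutation of the index set for the shear `gL` -/
noncomputable def labL (x : SLR × Pl) : Equiv.Perm (Lab Λ) where
  toFun i := (i.1 * i.2.1⁻¹, i.2.1, (i.2.1 ^ vexp x.2) i.2.2.1,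
    (i.2.1 ^ vexp (x.2 + mv x.1 (1, 0))) i.2.2.2)
  invFun i := (i.1 * i.2.1, i.2.1, (i.2.1 ^ vexp x.2)⁻¹ i.2.2.1,
    (i.2.1 ^ vexp (x.2 + mv x.1 (1, 0)))⁻¹ i.2.2.2)
  left_inv i := by simp
  right_inv i := by simp

end Labels

/-! ## Twisted maps -/

/-- a measurable automorphism of `X` together with a family of permutations of `I` -/
structure Tw (X I : Type) [MeasurableSpace X] where
  /-- the map of the base -/
  T : X ≃ᵐ X
  /-- the permutation of the index set -/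
  σ : X → Equiv.Perm I

/-- the family of permutations is measurable -/
def Tw.Meas {X I : Type} [MeasurableSpace X] (w : Tw X I) : Prop :=
  ∀ i j, MeasurableSet {x | w.σ x i = j}

/-- pullback of functions -/
def Tw.act {X I : Type} [MeasurableSpace X] (w : Tw X I) (G : X → I → ℝ) : X → I → ℝ :=
  fun x i => G (w.T x) (w.σ x i)

theorem continuous_mv : Continuous fun p : SLR × Pl => mv p.1 p.2 := by
  have h : ∀ i j, Continuous fun p : SLR × Pl => (p.1 i j : ℝ) := fun i j =>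
    ((continuous_apply j).comp ((continuous_apply i).comp
      (continuous_subtype_val.comp continuous_fst)))
  unfold mv
  exact Continuous.prodMk
    (((h 0 0).mul (continuous_fst.comp continuous_snd)).add
      ((h 0 1).mul (continuous_snd.comp continuous_snd)))
    (((h 1 0).mul (continuous_fst.comp continuous_snd)).add
      ((h 1 1).mul (continuous_snd.comp continuous_snd)))

theorem mv_mul (g h : SLR) (v : Pl) : mv (g * h) v = mv g (mv h v) := by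
  ext <;> simp [mv, Matrix.mul_apply, Fin.sum_univ_two] <;> ring

theorem mv_one (v : Pl) : mv 1 v = v := by
  ext <;> simp [mv]

theorem mv_add (h : SLR) (v w : Pl) : mv h (v + w) = mv h v + mv h w := by
  ext <;> simp [mv] <;> ring

theorem mv_inv_mv (h : SLR) (v : Pl) : mv h⁻¹ (mv h v) = v := by
  rw [← mv_mul, inv_mul_cancel, mv_one]

theorem mv_mv_inv (h : SLR) (v : Pl) : mv h (mv h⁻¹ v) = v := by
  rw [← mv_mul, mul_inv_cancel, mv_one]

theorem continuous_mv_left (h : SLR) : Continuous (mv h) :=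
  continuous_mv.comp (Continuous.prodMk continuous_const continuous_id)

/-- the linear map as a measurable automorphism of the plane -/
noncomputable def eM (h : SLR) : Pl ≃ᵐ Pl where
  toFun := mv h
  invFun := mv h⁻¹
  left_inv := mv_inv_mv h
  right_inv := mv_mv_inv h
  measurable_toFun := (continuous_mv_left h).measurable
  measurable_invFun := (continuous_mv_left h⁻¹).measurable

/-- right multiplication `(h, P) ↦ (h g, P)` -/
noncomputable def eR (g : SLR) : SLR × Pl ≃ᵐ SLR × Pl :=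
  (MeasurableEquiv.mulRight g).prodCongr (MeasurableEquiv.refl Pl)

/-- `(h, P) ↦ (γ h, γ P)` -/
noncomputable def eL (γ : SLZ) : SLR × Pl ≃ᵐ SLR × Pl :=
  (MeasurableEquiv.mulLeft (toR γ)).prodCongr (eM (toR γ))

/-- `(h, P) ↦ (h, P + z)` -/
noncomputable def eT (z : ℤ × ℤ) : SLR × Pl ≃ᵐ SLR × Pl :=
  (MeasurableEquiv.refl SLR).prodCongr (MeasurableEquiv.addRight (ZP z))

@[simp] theorem eR_apply (g : SLR) (x : SLR × Pl) : eR g x = (x.1 * g, x.2) := rfl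
@[simp] theorem eL_apply (γ : SLZ) (x : SLR × Pl) :
    eL γ x = (toR γ * x.1, mv (toR γ) x.2) := rfl
@[simp] theorem eT_apply (z : ℤ × ℤ) (x : SLR × Pl) : eT z x = (x.1, x.2 + ZP z) := rfl

section Labels2
variable {Λ : Type} [Fintype Λ] [DecidableEq Λ]

/-- the twisted map of the shear `gU` -/
noncomputable def wU : Tw (SLR × Pl) (Lab Λ) := ⟨eL gU, labU⟩
/-- the twisted map of the shear `gL` -/
noncomputable def wL : Tw (SLR × Pl) (Lab Λ) := ⟨eL gL, labL⟩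
/-- the twisted map of a translation -/
noncomputable def wT (z : ℤ × ℤ) : Tw (SLR × Pl) (Lab Λ) := ⟨eT z, fun _ => 1⟩

/-- the flow moving `Q = P + f₁` to `Q - s f₂` -/
noncomputable def wPhi (s : ℝ) : Tw (SLR × Pl) (Lab Λ) :=
  ⟨eR (nl (-s)), fun x =>
    labQ (fun a b => tau a b (x.2 + mv x.1 (1, 0)) (x.2 + mv x.1 (1, -s)))⟩

/-- the flow moving `Q = P + f₁` to `P + e^{-u} f₁` -/
noncomputable def wB (u : ℝ) : Tw (SLR × Pl) (Lab Λ) :=
  ⟨eR (dg (-u)), fun x =>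
    labQ (fun a b => tau a b (x.2 + mv x.1 (1, 0)) (x.2 + mv x.1 (Real.exp (-u), 0)))⟩

/-- the ergodic averages of `f0` -/
noncomputable def AS (S : ℝ) (x : SLR × Pl) (i : Lab Λ) : ℝ :=
  (1 / S) * ∫ s in (0 : ℝ)..S, (wPhi (-s)).act f0 x i

/-- the energy -/
noncomputable def EE (Λ : Type) [Fintype Λ] [DecidableEq Λ] (S : ℝ) (x : SLR × Pl) : ℝ :=
  ∑ i : Lab Λ, (AS S x i) ^ 2

/-- the self-correlation average -/
noncomputable def FS (S : ℝ) (x : SLR × Pl) (i : Lab Λ) : ℝ :=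
  (1 / S ^ 2) * ∫ s in (0 : ℝ)..S, ∫ s' in (0 : ℝ)..S, (wPhi (s - s')).act f0 x i

/-- average over the commutator subgroup, in the last label -/
noncomputable def avgL (G : SLR × Pl → Lab Λ → ℝ) (x : SLR × Pl) (i : Lab Λ) : ℝ :=
  avgN i.1 i.2.1 (fun q => G x (i.1, i.2.1, i.2.2.1, q)) i.2.2.2

end Labels2

/-! ## Measures -/

/-- the determinant of the matrix with columns `A.1`, `A.2` -/
def dt (A : Pl × Pl) : ℝ := A.1.1 * A.2.2 - A.2.1 * A.1.2

/-- the normalised matrix with columns proportional to `A.1`, `A.2` -/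
noncomputable def nrm (A : Pl × Pl) : SLR :=
  if h : 0 < dt A then
    ⟨!![A.1.1 / √(dt A), A.2.1 / √(dt A); A.1.2 / √(dt A), A.2.2 / √(dt A)], by
      have h1 : √(dt A) * √(dt A) = dt A := Real.mul_self_sqrt h.le
      have h2 : √(dt A) ≠ 0 := (Real.sqrt_pos.2 h).ne'
      simp only [Matrix.det_fin_two, Matrix.of_apply, Matrix.cons_val', Matrix.cons_val_zero,
        Matrix.cons_val_one, Matrix.cons_val_fin_one]
      field_simp
      rw [pow_two, h1]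
      rfl⟩
  else 1

/-- the Haar measure: image of Lebesgue measure on `0 < det ≤ 1` -/
noncomputable def muG : Measure SLR :=
  Measure.map nrm (volume.restrict {A : Pl × Pl | 0 < dt A ∧ dt A ≤ 1})

/-- the matrix with first column `ζ` and second column `x ζ + Jζ/|ζ|²` -/
noncomputable def cmat (ζ : Pl) (x : ℝ) : SLR :=
  if h : ζ.1 ^ 2 + ζ.2 ^ 2 ≠ 0 then
    ⟨!![ζ.1, x * ζ.1 - ζ.2 / (ζ.1 ^ 2 + ζ.2 ^ 2); ζ.2, x * ζ.2 + ζ.1 / (ζ.1 ^ 2 + ζ.2 ^ 2)], by
      simp only [Matrix.det_fin_two, Matrix.of_apply, Matrix.cons_val', Matrix.cons_val_zero,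
        Matrix.cons_val_one, Matrix.cons_val_fin_one]
      field_simp
      ring⟩
  else 1

/-- the unit square -/
def F0 : Set Pl := Ico 0 1 ×ˢ Ico 0 1

/-- a fundamental domain of `SL(2,ℤ)` acting on `SL(2,ℝ)` from the left -/
def DD : Set SLR := {h | h 1 0 ^ 2 + h 1 1 ^ 2 ≤ h 0 0 ^ 2 + h 0 1 ^ 2 ∧
  2 * |h 0 0 * h 1 0 + h 0 1 * h 1 1| ≤ h 1 0 ^ 2 + h 1 1 ^ 2 ∧ 0 < h 1 0}

/-- the product domain -/
def DF : Set (SLR × Pl) := DD ×ˢ F0

/-- the measures on the plane which we use -/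
structure PerMeas (ρ : Measure Pl) : Prop where
  sf : SigmaFinite ρ
  tr : ∀ z : ℤ × ℤ, MeasurePreserving (fun P => P + ZP z) ρ ρ
  lin : ∀ γ : SLZ, MeasurePreserving (fun P => mv (toR γ) P) ρ ρ
  fin : ρ F0 < ∞

/-- the orbit of a point under the affine group of the lattice -/
def orbS (P : Pl) : Set Pl := {R | ∃ γ : SLZ, ∃ z : ℤ × ℤ, R = mv (toR γ) P + ZP z}

/-- the counting measure of the orbit -/
noncomputable def rhoO (P : Pl) : Measure Pl := Measure.count.restrict (orbS P)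

/-- almost everywhere invariance under the affine group of the lattice (generators) -/
structure AEAut {β : Type} (ρ : Measure Pl) (f : SLR × Pl → β) : Prop where
  U : ∀ᵐ x ∂(muG.prod ρ), f (eL gU x) = f x
  L : ∀ᵐ x ∂(muG.prod ρ), f (eL gL x) = f x
  t1 : ∀ᵐ x ∂(muG.prod ρ), f (eT (1, 0) x) = f x
  t2 : ∀ᵐ x ∂(muG.prod ρ), f (eT (0, 1) x) = f x

/-- the twisted invariance -/
structure AutW {Λ : Type} [Fintype Λ] [DecidableEq Λ] (ρ : Measure Pl)
    (G : SLR × Pl → Lab Λ → ℝ) : Prop where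
  U : ∀ᵐ x ∂(muG.prod ρ), ∀ i, wU.act G x i = G x i
  L : ∀ᵐ x ∂(muG.prod ρ), ∀ i, wL.act G x i = G x i
  t1 : ∀ᵐ x ∂(muG.prod ρ), ∀ i, (wT (1, 0)).act G x i = G x i
  t2 : ∀ᵐ x ∂(muG.prod ρ), ∀ i, (wT (0, 1)).act G x i = G x i

/-- the `L¹` norm over the fundamental domain -/
noncomputable def N1 {I : Type} [Fintype I] (ρ : Measure Pl) (G : SLR × Pl → I → ℝ) : ℝ≥0∞ :=
  ∫⁻ x in DF, ∑ i, ‖G x i‖ₑ ∂(muG.prod ρ)

open Classical in
/-- the number of lattice points `z ≠ P` with `N (z - P) ∈ B` -/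
noncomputable def cntB (N : SLR) (P : Pl) (B : Set Pl) : ℝ≥0∞ :=
  ∑' z : ℤ × ℤ, if ZP z ≠ P ∧ mv N (ZP z - P) ∈ B then 1 else 0

/-- the character `e(x) = exp(2πix)` -/
noncomputable def ee (x : ℝ) : ℂ := Complex.exp (2 * Real.pi * x * Complex.I)

/-- the statement to be proved for all `M`, `P` (part D: rational `P`, part E: irrational `P`) -/
def StarP (Λ : Type) [Fintype Λ] [DecidableEq Λ] (M : SLR) (P : Pl) : Prop :=
  ∀ ε > 0, ∃ S₀ > 0, ∀ S ≥ S₀, ∀ᶠ u in atTop,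
    ∫ θ in (0 : ℝ)..1, EE Λ S (M * rot θ * dg u, P) ≤ ε

/-- regularity of a function along large circles about `P` -/
def Reg (f : SLR × Pl → ℝ) (M : SLR) (P : Pl) : Prop :=
  ∀ ε > 0, ∃ δ > 0, ∀ᶠ u in atTop, ∀ α β : ℝ, |α - 1| ≤ δ → |β| ≤ δ →
    ∫ θ in (0 : ℝ)..1,
      |f (M * rot θ * dg u * tri α β, P) - f (M * rot θ * dg u, P)| ≤ ε

/-- the same with a displacement of the point -/
def Reg2 (f : SLR × Pl → ℝ) (M : SLR) (P : Pl) : Prop :=
  ∀ ε > 0, ∃ δ > 0, ∀ᶠ u in atTop, ∀ α β : ℝ, ∀ y : Pl, |α - 1| ≤ δ → |β| ≤ δ →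
    |y.1| ≤ δ → |y.2| ≤ δ →
    ∫ θ in (0 : ℝ)..1,
      |f (M * rot θ * dg u * tri α β, P + mv (M * rot θ * dg u * tri α β) y)
        - f (M * rot θ * dg u, P)| ≤ ε

/-! ## Further definitions for the generation theorem and the rigidity argument -/

/-- real rectangles whose sides lie on lattice-free lines -/
def okp (h : SLR) (Q : Pl) (x y : ℝ) : Prop :=
  0 < x ∧ 0 < y ∧ ∀ z : ℤ × ℤ, (mv h⁻¹ (ZP z - Q)).1 ≠ -x ∧ (mv h⁻¹ (ZP z - Q)).2 ≠ -y ∧
    (mv h⁻¹ (ZP z - Q)).1 ≠ 0 ∧ (mv h⁻¹ (ZP z - Q)).2 ≠ 0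

/-- generic pairs `(h, Q)` -/
def GenQ (h : SLR) (Q : Pl) : Prop :=
  (∀ n : ℤ, Q.1 ≠ n ∧ Q.2 ≠ n) ∧
  ∀ (z : ℤ × ℤ) (r : ℚ),
    (mv h⁻¹ (ZP z - Q)).1 ≠ r ∧ (mv h⁻¹ (ZP z - Q)).2 ≠ r ∧
    (mv h⁻¹ (ZP z - Q - ((r : ℝ), 0))).1 ≠ 0 ∧ (mv h⁻¹ (ZP z - Q - ((r : ℝ), 0))).2 ≠ 0 ∧
    (mv h⁻¹ (ZP z - Q - (0, (r : ℝ)))).1 ≠ 0 ∧ (mv h⁻¹ (ZP z - Q - (0, (r : ℝ)))).2 ≠ 0

/-- transport `Q → Q - x f₁ → Q - x f₁ - y f₂` -/
noncomputable def hvT {H : Type*} [Group H] (a b : H) (h : SLR) (Q : Pl) (x y : ℝ) : H :=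
  tau a b (Q + mv h (-x, 0)) (Q + mv h (-x, -y)) * tau a b Q (Q + mv h (-x, 0))

/-- transport `Q → Q - y f₂ → Q - x f₁ - y f₂` -/
noncomputable def vhT {H : Type*} [Group H] (a b : H) (h : SLR) (Q : Pl) (x y : ℝ) : H :=
  tau a b (Q + mv h (0, -y)) (Q + mv h (-x, -y)) * tau a b Q (Q + mv h (0, -y))

/-- the subgroup generated by the rational rectangles -/
def RN {H : Type*} [Group H] (a b : H) (h : SLR) (Q : Pl) : Subgroup H :=
  Subgroup.closure {g | ∃ x y : ℚ, 0 < x ∧ 0 < y ∧ g = Rect a b h Q x y}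

/-- generic pairs `(h, P)` for the flows -/
def Gen1 (h : SLR) (P : Pl) : Prop :=
  (∀ z : ℤ × ℤ, (mv h⁻¹ (ZP z - P)).1 ≠ 1) ∧
  (∀ z : ℤ × ℤ, ZP z ≠ P → (mv h⁻¹ (ZP z - P)).2 ≠ 0) ∧
  (∀ n : ℤ, (P + mv h (1, 0)).1 ≠ n ∧ (P + mv h (1, 0)).2 ≠ n)

/-- the boundary of the rectangle `[-x, 0] × [-y, 0]` -/
def bdR (x y : ℝ) : Set Pl :=
  {w | -x ≤ w.1 ∧ w.1 ≤ 0 ∧ -y ≤ w.2 ∧ w.2 ≤ 0 ∧ (w.1 = 0 ∨ w.1 = -x ∨ w.2 = 0 ∨ w.2 = -y)}

/-- no lattice point is within `ε` (in the coordinates of `h`) of the boundary of the rectangle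
with sides `x`, `y` at `Q` -/
def Mg (ε x y : ℝ) (h : SLR) (Q : Pl) : Prop :=
  ∀ z : ℤ × ℤ, ∀ w ∈ bdR x y,
    ¬ (|(mv h⁻¹ (ZP z - Q)).1 - w.1| ≤ ε ∧ |(mv h⁻¹ (ZP z - Q)).2 - w.2| ≤ ε)

/-- an increasing family of finite sets exhausting the pairs of positive rationals -/
def Fam (n : ℕ) : Finset (ℚ × ℚ) :=
  ((Finset.Icc 1 (n * n.factorial)) ×ˢ (Finset.Icc 1 (n * n.factorial))).image
    (fun p => ((p.1 : ℚ) / n.factorial, (p.2 : ℚ) / n.factorial))

/-- pairs `(h, Q)` at which the rectangles of the family `Fam n` with margin `1/(n+1)` generate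
the commutator subgroup, for all pairs of permutations -/
def GG (Λ : Type) [Fintype Λ] [DecidableEq Λ] (n : ℕ) : Set (SLR × Pl) :=
  {p | ∀ a b : Equiv.Perm Λ, ∀ g ∈ Nc a b, g ∈ Subgroup.closure
    {g' | ∃ r ∈ Fam n, Mg (1 / ((n : ℝ) + 1)) (r.1 : ℝ) (r.2 : ℝ) p.1 p.2 ∧
      g' = Rect a b p.1 p.2 (r.1 : ℝ) (r.2 : ℝ)}}

/-- the pairing over the fundamental domain -/
noncomputable def Pr {I : Type} [Fintype I] (ρ : Measure Pl) (G G' : SLR × Pl → I → ℝ) : ℝ :=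
  ∫ x in DF, ∑ i, G x i * G' x i ∂(muG.prod ρ)

/-- pullback under `K = Φ_{-s e^{2u}} ∘ B_{-u} ∘ Φ_s ∘ B_u` -/
noncomputable def actK {Λ : Type} [Fintype Λ] [DecidableEq Λ] (s u : ℝ)
    (G : SLR × Pl → Lab Λ → ℝ) : SLR × Pl → Lab Λ → ℝ :=
  (wB u).act ((wPhi s).act ((wB (-u)).act ((wPhi (-(s * Real.exp (2 * u)))).act G)))

/-- the region of the thickening -/
def Rg (δ : ℝ) : Set SLR :=
  {p | 1 ≤ p 0 0 ^ 2 + p 1 0 ^ 2 ∧ p 0 0 ^ 2 + p 1 0 ^ 2 ≤ (1 + δ) ^ 2 ∧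
    0 ≤ p 0 0 * p 0 1 + p 1 0 * p 1 1 ∧
    p 0 0 * p 0 1 + p 1 0 * p 1 1 ≤ δ * (p 0 0 ^ 2 + p 1 0 ^ 2)}

/-- the point has rational coordinates -/
def RatP (P : Pl) : Prop := ∃ q : ℕ, 0 < q ∧ ∃ z : ℤ × ℤ, ((q : ℝ) * P.1, (q : ℝ) * P.2) = ZP z

/-- the label at `Q = P + f₁` obtained from the label `q₀` at `P` along `P → X_s → Q`,
`X_s = P + f₁ + s f₂` -/
noncomputable def labS {Λ : Type} (x : SLR × Pl) (a b : Equiv.Perm Λ) (q₀ : Λ) (s : ℝ) : Λ :=
  (tau a b (x.2 + mv x.1 (1, 0)) (x.2 + mv x.1 (1, s)))⁻¹ (tau a b x.2 (x.2 + mv x.1 (1, s)) q₀)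

open Classical in
/-- the proportion of `s ∈ [0,S]` with label `q` -/
noncomputable def DS {Λ : Type} (S : ℝ) (x : SLR × Pl) (a b : Equiv.Perm Λ) (q₀ q : Λ) : ℝ :=
  (1 / S) * ∫ s in (0 : ℝ)..S, if labS x a b q₀ s = q then 1 else 0

end Pool.Agent.ILL
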