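import Pool.Agent.ILL.EDefs

/-!
# SDB. The multiplier

`|ee x| = 1`, so `|sd δ ξ| ≤ 1`; for `ξ ≠ 0`, `sd δ ξ = (ee(ξδ) - 1)/(2πi ξ δ)`, of modulus at most
`1/(πδ|ξ|)`. With `s = πδ|ξ|`: `|sd|² ≤ min 1 s⁻² ≤ 2/(1+s²)`.
-/

open MeasureTheory Set Filter Topology
open scoped ENNReal NNReal

namespace Pool.Agent.ILL

theorem ee_add (x y : ℝ) : ee (x + y) = ee x * ee y := by
  rw [ee, ee, ee, ← Complex.exp_add]
  congr 1
  push_cast
  ring

theorem ee_int (n : ℤ) : ee n = 1 := by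
  rw [ee]
  have := Complex.exp_int_mul_two_pi_mul_I n
  rw [← this]
  congr 1
  push_cast
  ring

theorem norm_ee (x : ℝ) : ‖ee x‖ = 1 := by
  have := Complex.norm_exp_ofReal_mul_I (2 * Real.pi * x)
  rw [ee, ← this]
  congr 2
  push_cast
  ring

private theorem SDB_cont : Continuous fun x : ℝ => ee x := by
  unfold ee
  fun_prop

theorem sd_zero {δ : ℝ} (hδ : 0 < δ) : sd δ 0 = 1 := by
  have h : (fun y : ℝ => ee (0 * y)) = fun _ => 1 := by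
    funext y
    rw [zero_mul]
    have := ee_int 0
    rwa [Int.cast_zero] at this
  rw [sd, h, intervalIntegral.integral_const, sub_zero]
  have h2 : (δ : ℂ) ≠ 0 := Complex.ofReal_ne_zero.2 hδ.ne'
  rw [Complex.real_smul, mul_one, one_div, inv_mul_cancel₀ h2]

private theorem SDB_le_one {δ : ℝ} (hδ : 0 < δ) (ξ : ℝ) : ‖sd δ ξ‖ ≤ 1 := by
  have h1 : ‖∫ y in (0 : ℝ)..δ, ee (ξ * y)‖ ≤ 1 * |δ - 0| :=
    intervalIntegral.norm_integral_le_of_norm_le_const fun y _ => (norm_ee _).le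
  rw [sd, norm_mul, norm_div, norm_one, Complex.norm_real, Real.norm_eq_abs, abs_of_pos hδ]
  rw [sub_zero, abs_of_pos hδ, one_mul] at h1
  rw [one_div, inv_mul_le_iff₀ hδ, mul_one]
  exact h1

private theorem SDB_le_inv {δ : ℝ} (hδ : 0 < δ) {ξ : ℝ} (hξ : ξ ≠ 0) :
    ‖sd δ ξ‖ ≤ 1 / |Real.pi * δ * ξ| := by
  have hc : (2 * Real.pi * ξ * Complex.I : ℂ) ≠ 0 := by
    have h1 : (Real.pi : ℂ) ≠ 0 := Complex.ofReal_ne_zero.2 Real.pi_ne_zero
    have h2 : (ξ : ℂ) ≠ 0 := Complex.ofReal_ne_zero.2 hξ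
    exact mul_ne_zero (mul_ne_zero (mul_ne_zero two_ne_zero h1) h2) Complex.I_ne_zero
  have h1 : ∫ y in (0 : ℝ)..δ, ee (ξ * y) = (ee (ξ * δ) - 1) / (2 * Real.pi * ξ * Complex.I) := by
    have h2 : (fun y : ℝ => ee (ξ * y)) = fun y : ℝ =>
        Complex.exp ((2 * Real.pi * ξ * Complex.I) * y) := by
      funext y
      rw [ee]
      congr 1
      push_cast
      ring
    rw [h2, integral_exp_mul_complex hc, Complex.ofReal_zero, mul_zero, Complex.exp_zero]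
    congr 2
    rw [ee]
    congr 1
    push_cast
    ring
  have h3 : ‖ee (ξ * δ) - 1‖ ≤ 2 := by
    refine (norm_sub_le _ _).trans ?_
    rw [norm_ee, norm_one]
    norm_num
  have h4 : ‖(2 * Real.pi * ξ * Complex.I : ℂ)‖ = 2 * (Real.pi * |ξ|) := by
    rw [norm_mul, norm_mul, norm_mul, Complex.norm_I, mul_one, Complex.norm_real,
      Complex.norm_real, Real.norm_eq_abs, Real.norm_eq_abs, abs_of_pos Real.pi_pos,
      Complex.norm_ofNat]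
    ring
  have h5 : 0 < Real.pi * |ξ| := mul_pos Real.pi_pos (abs_pos.2 hξ)
  rw [sd, h1, norm_mul, norm_div, norm_div, norm_one, Complex.norm_real, Real.norm_eq_abs,
    abs_of_pos hδ, h4, abs_mul, abs_mul, abs_of_pos Real.pi_pos, abs_of_pos hδ]
  have h6 : ‖ee (ξ * δ) - 1‖ / (2 * (Real.pi * |ξ|)) ≤ 1 / (Real.pi * |ξ|) := by
    rw [div_le_div_iff₀ (by positivity) h5]
    nlinarith
  calc 1 / δ * (‖ee (ξ * δ) - 1‖ / (2 * (Real.pi * |ξ|))) ≤ 1 / δ * (1 / (Real.pi * |ξ|)) :=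
        mul_le_mul_of_nonneg_left h6 (by positivity)
    _ = 1 / (Real.pi * δ * |ξ|) := by
        rw [div_mul_div_comm, one_mul]
        congr 1
        ring

theorem sd_sq_le {δ : ℝ} (hδ : 0 < δ) (ξ : ℝ) :
    ‖sd δ ξ‖ ^ 2 ≤ 2 / (1 + (Real.pi * δ * ξ) ^ 2) := by
  obtain ⟨t, ht⟩ : ∃ t, t = Real.pi * δ * ξ := ⟨_, rfl⟩
  have h1 := SDB_le_one hδ ξ
  have h0 := norm_nonneg (sd δ ξ)
  rw [← ht, le_div_iff₀ (by positivity)]
  by_cases h : |t| ≤ 1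
  · have h2 : t ^ 2 ≤ 1 := by
      rw [← sq_abs]
      exact pow_le_one₀ (abs_nonneg t) h
    have h3 : ‖sd δ ξ‖ ^ 2 ≤ 1 := pow_le_one₀ h0 h1
    have h4 : ‖sd δ ξ‖ ^ 2 * (1 + t ^ 2) ≤ 1 * (1 + t ^ 2) :=
      mul_le_mul_of_nonneg_right h3 (by positivity)
    linarith
  · rw [not_le] at h
    have hξ : ξ ≠ 0 := by
      intro h5
      rw [ht, h5, mul_zero, abs_zero] at h
      linarith
    have h2 := SDB_le_inv hδ hξ
    rw [← ht] at h2
    have h3 : ‖sd δ ξ‖ * |t| ≤ 1 := by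
      rwa [le_div_iff₀ (by linarith)] at h2
    have h4 : (‖sd δ ξ‖ * |t|) ^ 2 ≤ 1 :=
      pow_le_one₀ (mul_nonneg h0 (abs_nonneg t)) h3
    rw [mul_pow, sq_abs] at h4
    have h5 : ‖sd δ ξ‖ ^ 2 ≤ 1 := pow_le_one₀ h0 h1
    linarith

theorem mul4_le {δ : ℝ} (hδ : 0 < δ) (ξ : Pl) :
    ‖mul4 δ ξ‖ ≤ 4 / ((1 + (Real.pi * δ * ξ.1) ^ 2) * (1 + (Real.pi * δ * ξ.2) ^ 2)) := by
  have h1 := sd_sq_le hδ ξ.1
  have h2 := sd_sq_le hδ ξ.2
  have h3 : ‖mul4 δ ξ‖ = ‖sd δ ξ.1‖ ^ 2 * ‖sd δ ξ.2‖ ^ 2 := by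
    rw [mul4, norm_pow, norm_mul, mul_pow]
  rw [h3]
  refine (mul_le_mul h1 h2 (by positivity) (by positivity)).trans_eq ?_
  rw [div_mul_div_comm]
  norm_num

theorem mul4_le_one {δ : ℝ} (hδ : 0 < δ) (ξ : Pl) : ‖mul4 δ ξ‖ ≤ 1 := by
  rw [mul4, norm_pow, norm_mul]
  exact pow_le_one₀ (by positivity)
    (mul_le_one₀ (SDB_le_one hδ _) (norm_nonneg _) (SDB_le_one hδ _))

theorem mul4_zero {δ : ℝ} (hδ : 0 < δ) : mul4 δ 0 = 1 := by
  rw [mul4, Prod.fst_zero, Prod.snd_zero, sd_zero hδ]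
  norm_num

/-- the multiplier is a continuous function -/
theorem continuous_mul4 {δ : ℝ} (hδ : 0 < δ) : Continuous (mul4 δ) := by
  have h1 : Continuous fun ξ : ℝ => sd δ ξ := by
    unfold sd
    refine continuous_const.mul ?_
    refine intervalIntegral.continuous_parametric_intervalIntegral_of_continuous'
      (f := fun ξ y : ℝ => ee (ξ * y)) ?_ 0 δ
    exact SDB_cont.comp (continuous_fst.mul continuous_snd)
  unfold mul4
  exact ((h1.comp continuous_fst).mul (h1.comp continuous_snd)).pow 2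

end Pool.Agent.ILL
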