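import Pool.Agent.ILL.Rwc
import Pool.Agent.ILL.Sdb

/-!
# DEN. Density of the product class

Every integrable `g` supported in the strip `St` is approximated in `L¹(muG)` by linear combinations of functions
`pc φ₁ φ₂ m` (with Lipschitz compactly supported `φ₁`, `φ₂`, the second one zero near `0`).

PROOF. By `muG_row` the space is `L¹` of `(1/2) dξ dq` on `{ξ.2 ≠ 0} × [0,1)`; write `g'(ξ,q) = g(rmat ξ q)`, a
function on the plane times the circle. It is approximated by a continuous function with compact support, which is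
uniformly close to a finite sum of products of tent functions in the two real variables and continuous functions on
the circle; the latter are approximated by trigonometric polynomials; finally the second tent function is
multiplied by a cutoff near zero.
-/

open MeasureTheory Set Filter Topology
open scoped ENNReal NNReal

namespace Pool.Agent.ILL

/-- tent function -/
noncomputable def denT (t : ℝ) : ℝ := max 0 (1 - |t|)

theorem denT_nonneg (t : ℝ) : 0 ≤ denT t := le_max_left _ _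

theorem denT_le_one (t : ℝ) : denT t ≤ 1 :=
  max_le zero_le_one (by linarith [abs_nonneg t])

theorem denT_zero {t : ℝ} (h : 1 ≤ |t|) : denT t = 0 := max_eq_left (by linarith)

theorem denT_lip (s t : ℝ) : |denT s - denT t| ≤ |s - t| := by
  have h1 : |denT s - denT t| ≤ |(1 - |s|) - (1 - |t|)| := by
    unfold denT
    rw [max_comm 0 (1 - |s|), max_comm 0 (1 - |t|)]
    exact abs_max_sub_max_le_abs _ _ _
  have h2 : (1 - |s|) - (1 - |t|) = -(|s| - |t|) := by ring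
  rw [h2, abs_neg] at h1
  exact h1.trans (abs_abs_sub_abs_le _ _)

theorem denT_sum (M : ℕ) {t : ℝ} (ht : |t| ≤ M) :
    ∑ i ∈ Finset.Icc (-(M : ℤ)) (M + 1), denT (t - i) = 1 := by
  classical
  have a := Int.floor_le t
  have b := Int.lt_floor_add_one t
  obtain ⟨k, hk⟩ : ∃ k : ℤ, k = ⌊t⌋ := ⟨_, rfl⟩
  rw [← hk] at a b
  rw [abs_le] at ht
  have c1 : -(M : ℤ) ≤ k := by
    rw [hk, Int.le_floor]
    push_cast
    exact ht.1
  have c2 : k ≤ M := by
    rw [hk]
    have : (⌊t⌋ : ℝ) ≤ M := (Int.floor_le t).trans ht.2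
    exact_mod_cast this
  have h1 : ({k, k + 1} : Finset ℤ) ⊆ Finset.Icc (-(M : ℤ)) (M + 1) := by
    intro i hi
    rw [Finset.mem_insert, Finset.mem_singleton] at hi
    rw [Finset.mem_Icc]
    omega
  rw [← Finset.sum_subset h1, Finset.sum_pair (by omega)]
  · unfold denT
    rw [abs_of_nonneg (by linarith), abs_of_nonpos (by push_cast; linarith),
      max_eq_right (by linarith), max_eq_right (by push_cast; linarith)]
    push_cast
    ring
  · intro i _ hi
    apply denT_zero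
    rw [Finset.mem_insert, Finset.mem_singleton, not_or] at hi
    have h3 : i + 1 ≤ k ∨ k + 2 ≤ i := by omega
    rw [le_abs]
    rcases h3 with h3 | h3
    · left
      have : (i : ℝ) + 1 ≤ k := by exact_mod_cast h3
      linarith
    · right
      have : (k : ℝ) + 2 ≤ i := by exact_mod_cast h3
      linarith

/-- cutoff near zero -/
noncomputable def denX (c s : ℝ) : ℝ := min 1 (max 0 (|s| / c - 1))

theorem denX_nonneg (c s : ℝ) : 0 ≤ denX c s := le_min zero_le_one (le_max_left _ _)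

theorem denX_le_one (c s : ℝ) : denX c s ≤ 1 := min_le_left _ _

theorem denX_zero {c s : ℝ} (hc : 0 < c) (h : |s| ≤ c) : denX c s = 0 := by
  have h1 : |s| / c ≤ 1 := (div_le_one hc).2 h
  unfold denX
  rw [max_eq_left (by linarith), min_eq_right zero_le_one]

theorem denX_one {c s : ℝ} (hc : 0 < c) (h : 2 * c ≤ |s|) : denX c s = 1 := by
  have h1 : 2 ≤ |s| / c := (le_div_iff₀ hc).2 h
  unfold denX
  rw [max_eq_right (by linarith), min_eq_left (by linarith)]

theorem denX_lip {c : ℝ} (hc : 0 < c) (s t : ℝ) : |denX c s - denX c t| ≤ (1 / c) * |s - t| := by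
  have h1 : |denX c s - denX c t| ≤ |(|s| / c - 1) - (|t| / c - 1)| := by
    unfold denX
    rw [min_comm 1, min_comm 1 (max 0 (|t| / c - 1))]
    refine (abs_min_sub_min_le_max _ _ _ _).trans ?_
    rw [sub_self, abs_zero]
    refine max_le ?_ (abs_nonneg _)
    rw [max_comm 0 (|s| / c - 1), max_comm 0 (|t| / c - 1)]
    exact abs_max_sub_max_le_abs _ _ _
  have h2 : (|s| / c - 1) - (|t| / c - 1) = (1 / c) * (|s| - |t|) := by ring
  rw [h2, abs_mul, abs_of_pos (by positivity : (0 : ℝ) < 1 / c)] at h1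
  exact h1.trans (mul_le_mul_of_nonneg_left (abs_abs_sub_abs_le _ _) (by positivity))

/-- the products of tent functions with cutoff are admissible -/
theorem den_PC (n : ℕ) (hn : 0 < n) (i j : ℤ) {c : ℝ} (hc : 0 < c) :
    ∃ c₀ C₀ L, PC (fun s => denT (n * s - i)) (fun s => denT (n * s - j) * denX c s) c₀ C₀ L := by
  have hn1 : (1 : ℝ) ≤ n := by exact_mod_cast hn
  have hc' : 0 < 1 / c := by positivity
  have lipT : ∀ (i : ℤ) (s t : ℝ), |denT (n * s - i) - denT (n * t - i)| ≤ n * |s - t| := by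
    intro i s t
    refine (denT_lip _ _).trans ?_
    have : (n : ℝ) * s - i - (n * t - i) = n * (s - t) := by ring
    rw [this, abs_mul, Nat.abs_cast]
  have supT : ∀ (i : ℤ) (t : ℝ), |(i : ℝ)| + 1 ≤ |t| → denT (n * t - i) = 0 := by
    intro i t ht
    apply denT_zero
    have h1 : |(n : ℝ) * t| ≤ |(n : ℝ) * t - i| + |(i : ℝ)| := by
      have := abs_add_le ((n : ℝ) * t - i) (i : ℝ)
      rwa [sub_add_cancel] at this
    rw [abs_mul, Nat.abs_cast] at h1
    nlinarith [abs_nonneg (i : ℝ), abs_nonneg t]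
  refine ⟨c, |(i : ℝ)| + |(j : ℝ)| + 1, n + 1 / c + 1, ?_⟩
  constructor
  · exact hc
  · positivity
  · intro t ht
    exact supT i t (by linarith [abs_nonneg (j : ℝ)])
  · intro t ht
    show denT (n * t - j) * denX c t = 0
    rw [supT j t (by linarith [abs_nonneg (i : ℝ)]), zero_mul]
  · intro t ht
    show denT (n * t - j) * denX c t = 0
    rw [denX_zero hc ht, mul_zero]
  · intro s t
    refine (lipT i s t).trans ?_
    refine mul_le_mul_of_nonneg_right ?_ (abs_nonneg _)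
    linarith
  · intro s t
    show |denT (n * s - j) * denX c s - denT (n * t - j) * denX c t| ≤ _
    have e : denT (n * s - j) * denX c s - denT (n * t - j) * denX c t =
        (denT (n * s - j) - denT (n * t - j)) * denX c s +
          denT (n * t - j) * (denX c s - denX c t) := by ring
    rw [e]
    refine (abs_add_le _ _).trans ?_
    rw [abs_mul, abs_mul, abs_of_nonneg (denX_nonneg c s), abs_of_nonneg (denT_nonneg _)]
    have h1 : |denT (n * s - j) - denT (n * t - j)| * denX c s ≤ n * |s - t| * 1 :=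
      mul_le_mul (lipT j s t) (denX_le_one c s) (denX_nonneg c s) (by positivity)
    have h2 : denT (n * t - j) * |denX c s - denX c t| ≤ 1 * ((1 / c) * |s - t|) :=
      mul_le_mul (denT_le_one _) (denX_lip hc s t) (abs_nonneg _) zero_le_one
    have h3 : 0 ≤ |s - t| := abs_nonneg _
    nlinarith
  · intro t
    show |denT (n * t - i)| ≤ _
    rw [abs_of_nonneg (denT_nonneg _)]
    have := denT_le_one (n * t - i)
    linarith
  · intro t
    show |denT (n * t - j) * denX c t| ≤ _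
    rw [abs_mul, abs_of_nonneg (denT_nonneg _), abs_of_nonneg (denX_nonneg c t)]
    have h1 := denT_le_one (n * t - j)
    have h2 := denX_le_one c t
    have h3 := denT_nonneg (n * t - j)
    have h4 := denX_nonneg c t
    nlinarith

theorem den_entry (i j : Fin 2) : Measurable fun h : SLR => (h i j : ℝ) := by
  have : Continuous fun h : SLR => (h i j : ℝ) :=
    (continuous_apply j).comp ((continuous_apply i).comp continuous_subtype_val)
  exact this.measurable

theorem den_cont {φ : ℝ → ℝ} {L : ℝ} (hL : 0 < L) (h : ∀ s t, |φ s - φ t| ≤ L * |s - t|) :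
    Continuous φ := by
  have : LipschitzWith ⟨L, hL.le⟩ φ := LipschitzWith.of_dist_le_mul fun s t => by
    rw [Real.dist_eq, Real.dist_eq]
    exact h s t
  exact this.continuous

theorem den_ee : Continuous ee := by
  unfold ee
  fun_prop

theorem pc_measurable {φ₁ φ₂ : ℝ → ℝ} {c₀ C₀ L : ℝ} (h : PC φ₁ φ₂ c₀ C₀ L) (m : ℤ) :
    Measurable (pc φ₁ φ₂ m) := by
  classical
  have h1 : Continuous φ₁ := den_cont h.L_pos h.lip1
  have h2 : Continuous φ₂ := den_cont h.L_pos h.lip2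
  unfold pc
  refine Measurable.ite measurableSet_St ?_ measurable_const
  refine ((Complex.measurable_ofReal.comp (h1.measurable.comp (den_entry 0 0))).mul
    (Complex.measurable_ofReal.comp (h2.measurable.comp (den_entry 0 1)))).mul ?_
  exact den_ee.measurable.comp (measurable_qq.const_mul _)

/-- the span of the product class -/
noncomputable def denV : Submodule ℂ (SLR → ℂ) :=
  Submodule.span ℂ {F | ∃ (φ₁ φ₂ : ℝ → ℝ) (m : ℤ), (∃ c₀ C₀ L, PC φ₁ φ₂ c₀ C₀ L) ∧
    F = pc φ₁ φ₂ m}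

instance denFact : Fact (0 < (1 : ℝ)) := ⟨one_pos⟩

theorem den_fourier (m : ℤ) (q : ℝ) : fourier m (q : AddCircle (1 : ℝ)) = ee ((m : ℝ) * q) := by
  rw [fourier_coe_apply]
  unfold ee
  congr 1
  push_cast
  ring

open Classical in
theorem den_mem {φ₁ φ₂ : ℝ → ℝ} (h : ∃ c₀ C₀ L, PC φ₁ φ₂ c₀ C₀ L) {P : C(AddCircle (1 : ℝ), ℂ)}
    (hP : P ∈ Submodule.span ℂ (range (@fourier (1 : ℝ)))) :
    (fun x : SLR => if x ∈ St then (φ₁ (x 0 0) : ℂ) * (φ₂ (x 0 1) : ℂ) *
      P ((qq x : ℝ) : AddCircle (1 : ℝ)) else 0) ∈ denV := by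
  induction hP using Submodule.span_induction with
  | mem P hP =>
    obtain ⟨m, rfl⟩ := hP
    refine Submodule.subset_span ⟨φ₁, φ₂, m, h, ?_⟩
    funext x
    unfold pc
    rw [den_fourier]
  | zero =>
    have : (fun x : SLR => if x ∈ St then (φ₁ (x 0 0) : ℂ) * (φ₂ (x 0 1) : ℂ) *
      (0 : C(AddCircle (1 : ℝ), ℂ)) ((qq x : ℝ) : AddCircle (1 : ℝ)) else 0) = 0 := by
      funext x
      simp
    rw [this]
    exact denV.zero_mem
  | add P Q _ _ hP hQ =>
    have : (fun x : SLR => if x ∈ St then (φ₁ (x 0 0) : ℂ) * (φ₂ (x 0 1) : ℂ) *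
      (P + Q) ((qq x : ℝ) : AddCircle (1 : ℝ)) else 0) =
      (fun x : SLR => if x ∈ St then (φ₁ (x 0 0) : ℂ) * (φ₂ (x 0 1) : ℂ) *
      P ((qq x : ℝ) : AddCircle (1 : ℝ)) else 0) +
      (fun x : SLR => if x ∈ St then (φ₁ (x 0 0) : ℂ) * (φ₂ (x 0 1) : ℂ) *
      Q ((qq x : ℝ) : AddCircle (1 : ℝ)) else 0) := by
      funext x
      simp only [Pi.add_apply]
      split_ifs
      · rw [ContinuousMap.add_apply, mul_add]
      · rw [add_zero]
    rw [this]
    exact denV.add_mem hP hQ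
  | smul a P _ hP =>
    have : (fun x : SLR => if x ∈ St then (φ₁ (x 0 0) : ℂ) * (φ₂ (x 0 1) : ℂ) *
      (a • P) ((qq x : ℝ) : AddCircle (1 : ℝ)) else 0) =
      a • (fun x : SLR => if x ∈ St then (φ₁ (x 0 0) : ℂ) * (φ₂ (x 0 1) : ℂ) *
      P ((qq x : ℝ) : AddCircle (1 : ℝ)) else 0) := by
      funext x
      simp only [Pi.smul_apply]
      split_ifs
      · rw [ContinuousMap.smul_apply, smul_eq_mul, smul_eq_mul]
        ring
      · rw [smul_zero]
    rw [this]
    exact denV.smul_mem a hP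

/-- the representative in `[0,1)` -/
theorem den_rep : ∃ rep : AddCircle (1 : ℝ) → ℝ, Measurable rep ∧
    (∀ q ∈ Ico (0 : ℝ) 1, rep (q : AddCircle (1 : ℝ)) = q) ∧
    (∀ t, rep t ∈ Ico (0 : ℝ) 1) ∧ (∀ t, ((rep t : ℝ) : AddCircle (1 : ℝ)) = t) := by
  have h01 : (0 : ℝ) + 1 = 1 := zero_add 1
  refine ⟨fun t => ((AddCircle.measurableEquivIco 1 0 t : Ico (0 : ℝ) (0 + 1)) : ℝ), ?_, ?_, ?_, ?_⟩
  · exact measurable_subtype_coe.comp (AddCircle.measurableEquivIco 1 0).measurable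
  · intro q hq
    show ((AddCircle.equivIco 1 0 (q : AddCircle (1 : ℝ)) : Ico (0 : ℝ) (0 + 1)) : ℝ) = q
    rw [AddCircle.coe_equivIco_mk_apply, div_one, mul_one, Int.fract_eq_self.2 hq]
  · intro t
    have h2 := (AddCircle.measurableEquivIco 1 0 t).2
    have h3 : ((AddCircle.measurableEquivIco 1 0 t : Ico (0 : ℝ) (0 + 1)) : ℝ) < 1 := by
      have := h2.2
      linarith
    exact ⟨h2.1, h3⟩
  · intro t
    exact (AddCircle.equivIco 1 0).symm_apply_apply t

theorem den_transfer {rep : AddCircle (1 : ℝ) → ℝ}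
    (hrep : ∀ q ∈ Ico (0 : ℝ) 1, rep (q : AddCircle (1 : ℝ)) = q) (Φ : ℝ → ℝ≥0∞) :
    ∫⁻ t : AddCircle (1 : ℝ), Φ (rep t) = ∫⁻ q in Ico (0 : ℝ) 1, Φ q := by
  rw [← AddCircle.lintegral_preimage 1 0 (fun t => Φ (rep t)), zero_add]
  rw [setLIntegral_congr (Ico_ae_eq_Ioc (μ := (volume : Measure ℝ)) (a := (0 : ℝ)) (b := 1)).symm]
  refine setLIntegral_congr_fun measurableSet_Ico fun q hq => ?_
  show Φ (rep (q : AddCircle (1 : ℝ))) = Φ q
  rw [hrep q hq]

theorem den_e00 {ξ : Pl} (hξ : ξ.2 ≠ 0) (q : ℝ) : (rmat ξ q) 0 0 = ξ.1 := by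
  have h : rmat ξ q = _ := dif_pos hξ
  rw [h]
  rfl

theorem den_e01 {ξ : Pl} (hξ : ξ.2 ≠ 0) (q : ℝ) : (rmat ξ q) 0 1 = ξ.2 := by
  have h : rmat ξ q = _ := dif_pos hξ
  rw [h]
  rfl

theorem den_St {ξ : Pl} (hξ : ξ.2 ≠ 0) (q : ℝ) : rmat ξ q ∈ St ↔ q ∈ Ico (0 : ℝ) 1 := by
  have h1 : (rmat ξ q) 0 1 = ξ.2 := den_e01 hξ q
  show ((rmat ξ q) 0 1 ≠ 0 ∧ 0 ≤ qq (rmat ξ q) ∧ qq (rmat ξ q) < 1) ↔ _
  rw [h1, qq_rmat hξ]
  constructor
  · rintro ⟨_, h2, h3⟩
    exact ⟨h2, h3⟩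
  · rintro ⟨h2, h3⟩
    exact ⟨hξ, h2, h3⟩

theorem den_row {rep : AddCircle (1 : ℝ) → ℝ} (hrm : Measurable rep)
    (hrep : ∀ q ∈ Ico (0 : ℝ) 1, rep (q : AddCircle (1 : ℝ)) = q) {F : SLR → ℝ≥0∞}
    (hF : Measurable F) (hF0 : ∀ h, h ∉ St → F h = 0) :
    ∫⁻ h, F h ∂muG = (1 / 2) * ∫⁻ y : Pl × AddCircle (1 : ℝ), F (rmat y.1 (rep y.2)) := by
  rw [muG_row hF]
  congr 1
  have hme : Measurable fun y : Pl × AddCircle (1 : ℝ) => F (rmat y.1 (rep y.2)) :=
    hF.comp (measurable_rmat.comp (measurable_fst.prodMk (hrm.comp measurable_snd)))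
  rw [Measure.volume_eq_prod Pl (AddCircle (1 : ℝ)), lintegral_prod _ hme.aemeasurable]
  refine lintegral_congr_ae ?_
  have hne0 : ∀ᵐ s : ℝ, s ≠ 0 := by
    rw [ae_iff]
    simp
  have hne : ∀ᵐ ξ : Pl, ξ.2 ≠ 0 := by
    rw [Measure.volume_eq_prod ℝ ℝ]
    exact (Measure.quasiMeasurePreserving_snd (μ := (volume : Measure ℝ))
      (ν := (volume : Measure ℝ))).ae hne0
  filter_upwards [hne] with ξ hξ
  show ∫⁻ q : ℝ, F (rmat ξ q) = ∫⁻ t : AddCircle (1 : ℝ), F (rmat ξ (rep t))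
  rw [den_transfer hrep (fun q => F (rmat ξ q)), ← lintegral_indicator measurableSet_Ico]
  refine lintegral_congr fun q => ?_
  by_cases hq : q ∈ Ico (0 : ℝ) 1
  · rw [indicator_of_mem hq]
  · rw [indicator_of_notMem hq, hF0 _ (fun h => hq ((den_St hξ q).1 h))]

/-- uniform approximation of a continuous function with compact support -/
theorem den_approx {g' : Pl × AddCircle (1 : ℝ) → ℂ} (hc : HasCompactSupport g')
    (hcont : Continuous g') {η : ℝ} (hη : 0 < η) (R : ℕ)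
    (hR : ∀ y : Pl × AddCircle (1 : ℝ), g' y ≠ 0 → |y.1.1| ≤ (R : ℝ) ∧ |y.1.2| ≤ (R : ℝ)) :
    ∃ (n : ℕ) (I : Finset ℤ) (P : ℤ → ℤ → C(AddCircle (1 : ℝ), ℂ)), 0 < n ∧
      (∀ i j, P i j ∈ Submodule.span ℂ (range (@fourier (1 : ℝ)))) ∧
      (∀ y : Pl × AddCircle (1 : ℝ), |y.1.1| ≤ (R : ℝ) + 1 → |y.1.2| ≤ (R : ℝ) + 1 → ‖g' y - ∑ i ∈ I, ∑ j ∈ I,
        (denT (n * y.1.1 - i) : ℂ) * (denT (n * y.1.2 - j) : ℂ) * P i j y.2‖ ≤ 2 * η) ∧
      (∀ y : Pl × AddCircle (1 : ℝ), ((R : ℝ) + 1 < |y.1.1| ∨ (R : ℝ) + 1 < |y.1.2|) → g' y = 0 ∧ ∑ i ∈ I, ∑ j ∈ I,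
        (denT (n * y.1.1 - i) : ℂ) * (denT (n * y.1.2 - j) : ℂ) * P i j y.2 = 0) := by
  classical
  have huc := hc.uniformContinuous_of_continuous hcont
  rw [Metric.uniformContinuous_iff] at huc
  obtain ⟨δ, hδ, hδ'⟩ := huc η hη
  obtain ⟨n₀, hn₀⟩ := exists_nat_one_div_lt hδ
  obtain ⟨n, hn⟩ : ∃ n : ℕ, n = n₀ + 1 := ⟨_, rfl⟩
  have hn0 : 0 < n := by omega
  have hn1 : (1 : ℝ) ≤ n := by exact_mod_cast hn0
  have hnδ : 1 / (n : ℝ) < δ := by
    rw [hn]
    push_cast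
    exact hn₀
  have hch : ∀ i j : ℤ, ∃ P : C(AddCircle (1 : ℝ), ℂ),
      P ∈ Submodule.span ℂ (range (@fourier (1 : ℝ))) ∧
      (∀ t, ‖g' (((i : ℝ) / n, (j : ℝ) / n), t) - P t‖ ≤ η) ∧
      ((∀ t, g' (((i : ℝ) / n, (j : ℝ) / n), t) = 0) → P = 0) := by
    intro i j
    by_cases h0 : ∀ t, g' (((i : ℝ) / n, (j : ℝ) / n), t) = 0
    · refine ⟨0, Submodule.zero_mem _, fun t => ?_, fun _ => rfl⟩
      rw [h0 t]
      simpa using hη.le
    · obtain ⟨cf, hcf⟩ : ∃ cf : C(AddCircle (1 : ℝ), ℂ),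
          ∀ t, cf t = g' (((i : ℝ) / n, (j : ℝ) / n), t) :=
        ⟨⟨fun t => g' (((i : ℝ) / n, (j : ℝ) / n), t),
          hcont.comp (continuous_const.prodMk continuous_id)⟩, fun t => rfl⟩
      have h1 : cf ∈ closure ((Submodule.span ℂ (range (@fourier (1 : ℝ))) :
          Submodule ℂ C(AddCircle (1 : ℝ), ℂ)) : Set C(AddCircle (1 : ℝ), ℂ)) := by
        rw [← Submodule.topologicalClosure_coe, span_fourier_closure_eq_top]
        exact Submodule.mem_top
      rw [Metric.mem_closure_iff] at h1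
      obtain ⟨P, hP1, hP2⟩ := h1 η hη
      refine ⟨P, hP1, fun t => ?_, fun h => absurd h h0⟩
      rw [← hcf t, ← dist_eq_norm]
      exact (ContinuousMap.dist_apply_le_dist t).trans hP2.le
  choose P hP1 hP2 hP3 using hch
  obtain ⟨M, hM⟩ : ∃ M : ℕ, M = n * (R + 1) := ⟨_, rfl⟩
  have hMR : (M : ℝ) = n * (R + 1) := by
    rw [hM]
    push_cast
    ring
  have near : ∀ (x : ℝ) (i : ℤ), denT (n * x - i) ≠ 0 → |x - (i : ℝ) / n| < 1 / n := by
    intro x i hi
    have h1 : |(n : ℝ) * x - i| < 1 := by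
      by_contra hcon
      push Not at hcon
      exact hi (denT_zero hcon)
    have hnp : (0 : ℝ) < n := by linarith
    have e : x - (i : ℝ) / n = (n * x - i) / n := by
      field_simp
    rw [e, abs_div, Nat.abs_cast]
    exact div_lt_div_of_pos_right h1 hnp
  refine ⟨n, Finset.Icc (-(M : ℤ)) (M + 1), P, hn0, hP1, ?_, ?_⟩
  · intro y hy1 hy2
    have s1 : ∑ i ∈ Finset.Icc (-(M : ℤ)) (M + 1), denT (n * y.1.1 - i) = 1 := by
      apply denT_sum
      rw [abs_mul, Nat.abs_cast, hMR]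
      exact mul_le_mul_of_nonneg_left hy1 (by linarith)
    have s2 : ∑ j ∈ Finset.Icc (-(M : ℤ)) (M + 1), denT (n * y.1.2 - j) = 1 := by
      apply denT_sum
      rw [abs_mul, Nat.abs_cast, hMR]
      exact mul_le_mul_of_nonneg_left hy2 (by linarith)
    have s3 : ∑ i ∈ Finset.Icc (-(M : ℤ)) (M + 1), ∑ j ∈ Finset.Icc (-(M : ℤ)) (M + 1),
        denT (n * y.1.1 - i) * denT (n * y.1.2 - j) = 1 := by
      rw [← Finset.sum_mul_sum, s1, s2, one_mul]
    have s4 : g' y = ∑ i ∈ Finset.Icc (-(M : ℤ)) (M + 1), ∑ j ∈ Finset.Icc (-(M : ℤ)) (M + 1),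
        (denT (n * y.1.1 - i) : ℂ) * (denT (n * y.1.2 - j) : ℂ) * g' y := by
      have : ∑ i ∈ Finset.Icc (-(M : ℤ)) (M + 1), ∑ j ∈ Finset.Icc (-(M : ℤ)) (M + 1),
        (denT (n * y.1.1 - i) : ℂ) * (denT (n * y.1.2 - j) : ℂ) * g' y =
        ((∑ i ∈ Finset.Icc (-(M : ℤ)) (M + 1), ∑ j ∈ Finset.Icc (-(M : ℤ)) (M + 1),
        denT (n * y.1.1 - i) * denT (n * y.1.2 - j) : ℝ) : ℂ) * g' y := by
        push_cast
        rw [Finset.sum_mul]
        refine Finset.sum_congr rfl fun i _ => ?_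
        rw [Finset.sum_mul]
      rw [this, s3]
      simp
    have s5 : g' y - ∑ i ∈ Finset.Icc (-(M : ℤ)) (M + 1), ∑ j ∈ Finset.Icc (-(M : ℤ)) (M + 1),
        (denT (n * y.1.1 - i) : ℂ) * (denT (n * y.1.2 - j) : ℂ) * P i j y.2 =
        ∑ i ∈ Finset.Icc (-(M : ℤ)) (M + 1), ∑ j ∈ Finset.Icc (-(M : ℤ)) (M + 1),
        (denT (n * y.1.1 - i) : ℂ) * (denT (n * y.1.2 - j) : ℂ) * (g' y - P i j y.2) := by
      conv_lhs => rw [s4]
      rw [← Finset.sum_sub_distrib]
      refine Finset.sum_congr rfl fun i _ => ?_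
      rw [← Finset.sum_sub_distrib]
      refine Finset.sum_congr rfl fun j _ => ?_
      rw [mul_sub]
    rw [s5]
    have s6 : ∀ i j : ℤ, ‖(denT (n * y.1.1 - i) : ℂ) * (denT (n * y.1.2 - j) : ℂ) *
        (g' y - P i j y.2)‖ ≤ denT (n * y.1.1 - i) * denT (n * y.1.2 - j) * (2 * η) := by
      intro i j
      have t1 := denT_nonneg (n * y.1.1 - i)
      have t2 := denT_nonneg (n * y.1.2 - j)
      rw [norm_mul, norm_mul, Complex.norm_real, Complex.norm_real, Real.norm_of_nonneg t1,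
        Real.norm_of_nonneg t2]
      by_cases z1 : denT (n * y.1.1 - i) = 0
      · rw [z1]
        simp
      by_cases z2 : denT (n * y.1.2 - j) = 0
      · rw [z2]
        simp
      have d1 := near _ _ z1
      have d2 := near _ _ z2
      have d3 : dist y (((i : ℝ) / n, (j : ℝ) / n), y.2) < δ := by
        rw [Prod.dist_eq, Prod.dist_eq, dist_self, Real.dist_eq, Real.dist_eq]
        refine max_lt (max_lt ?_ ?_) hδ
        · exact d1.trans hnδ
        · exact d2.trans hnδ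
      have d4 := hδ' d3
      rw [dist_eq_norm] at d4
      have d5 := hP2 i j y.2
      have d6 : ‖g' y - P i j y.2‖ ≤ 2 * η := by
        have e : g' y - P i j y.2 = (g' y - g' (((i : ℝ) / n, (j : ℝ) / n), y.2)) +
            (g' (((i : ℝ) / n, (j : ℝ) / n), y.2) - P i j y.2) := by ring
        rw [e]
        refine (norm_add_le _ _).trans ?_
        linarith
      exact mul_le_mul_of_nonneg_left d6 (mul_nonneg t1 t2)
    calc ‖∑ i ∈ Finset.Icc (-(M : ℤ)) (M + 1), ∑ j ∈ Finset.Icc (-(M : ℤ)) (M + 1),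
        (denT (n * y.1.1 - i) : ℂ) * (denT (n * y.1.2 - j) : ℂ) * (g' y - P i j y.2)‖
        ≤ ∑ i ∈ Finset.Icc (-(M : ℤ)) (M + 1), ∑ j ∈ Finset.Icc (-(M : ℤ)) (M + 1),
          denT (n * y.1.1 - i) * denT (n * y.1.2 - j) * (2 * η) := by
          refine (norm_sum_le _ _).trans (Finset.sum_le_sum fun i _ => ?_)
          exact (norm_sum_le _ _).trans (Finset.sum_le_sum fun j _ => s6 i j)
      _ = (∑ i ∈ Finset.Icc (-(M : ℤ)) (M + 1), ∑ j ∈ Finset.Icc (-(M : ℤ)) (M + 1),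
          denT (n * y.1.1 - i) * denT (n * y.1.2 - j)) * (2 * η) := by
          rw [Finset.sum_mul]
          refine Finset.sum_congr rfl fun i _ => ?_
          rw [Finset.sum_mul]
      _ = 2 * η := by rw [s3, one_mul]
  · intro y hy
    constructor
    · by_contra hne
      have := hR y hne
      rcases hy with hy | hy
      · linarith [this.1]
      · linarith [this.2]
    · refine Finset.sum_eq_zero fun i _ => Finset.sum_eq_zero fun j _ => ?_
      by_cases z1 : denT (n * y.1.1 - i) = 0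
      · rw [z1]
        simp
      by_cases z2 : denT (n * y.1.2 - j) = 0
      · rw [z2]
        simp
      have d1 := near _ _ z1
      have d2 := near _ _ z2
      have hn1' : 1 / (n : ℝ) ≤ 1 := by
        rw [div_le_one (by linarith)]
        exact hn1
      have hP0 : P i j = 0 := by
        apply hP3
        intro t
        by_contra hne
        have h3 := hR _ hne
        have h4 : |(i : ℝ) / n| ≤ R := h3.1
        have h5 : |(j : ℝ) / n| ≤ R := h3.2
        rcases hy with hy | hy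
        · have h6 : |y.1.1| ≤ |y.1.1 - (i : ℝ) / n| + |(i : ℝ) / n| := by
            have := abs_add_le (y.1.1 - (i : ℝ) / n) ((i : ℝ) / n)
            rwa [sub_add_cancel] at this
          linarith
        · have h6 : |y.1.2| ≤ |y.1.2 - (j : ℝ) / n| + |(j : ℝ) / n| := by
            have := abs_add_le (y.1.2 - (j : ℝ) / n) ((j : ℝ) / n)
            rwa [sub_add_cancel] at this
          linarith
      rw [hP0]
      simp

theorem den_norm_ofReal (a : ℝ) (h : 0 ≤ a) (z : ℂ) (hz : ‖z‖ ≤ a) : ‖z‖ₑ ≤ ENNReal.ofReal a := by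
  rw [← ofReal_norm_eq_enorm]
  exact ENNReal.ofReal_le_ofReal hz

theorem dense_pc {g : SLR → ℂ} (hg : Integrable g muG) (hm : Measurable g)
    (hs : ∀ h, h ∉ St → g h = 0) {ε : ℝ} (hε : 0 < ε) :
    ∃ (n : ℕ) (a : Fin n → ℂ) (φ₁ φ₂ : Fin n → ℝ → ℝ) (m : Fin n → ℤ),
      (∀ j, ∃ c₀ C₀ L, PC (φ₁ j) (φ₂ j) c₀ C₀ L) ∧
      ∫⁻ h, ‖g h - ∑ j, a j * pc (φ₁ j) (φ₂ j) (m j) h‖ₑ ∂muG ≤ ENNReal.ofReal ε := by
  classical
  obtain ⟨rep, hrm, hr1, hr2, hr3⟩ := den_rep
  obtain ⟨G, hG⟩ : ∃ G : Pl × AddCircle (1 : ℝ) → ℂ, G = fun y => g (rmat y.1 (rep y.2)) :=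
    ⟨_, rfl⟩
  have hGm : Measurable G := by
    rw [hG]
    exact hm.comp (measurable_rmat.comp (measurable_fst.prodMk (hrm.comp measurable_snd)))
  have hGi : Integrable G := by
    refine ⟨hGm.aestronglyMeasurable, ?_⟩
    have h1 : ∫⁻ h, ‖g h‖ₑ ∂muG < ∞ := hg.2
    rw [den_row hrm hr1 hm.enorm (fun h hh => by rw [hs h hh, enorm_zero])] at h1
    show ∫⁻ y, ‖G y‖ₑ < ∞
    rw [hG]
    by_contra hcon
    rw [not_lt, top_le_iff] at hcon
    rw [hcon, ENNReal.mul_top (by simp)] at h1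
    exact lt_irrefl _ h1
  have hε' : ENNReal.ofReal ε ≠ 0 := by
    rw [ne_eq, ENNReal.ofReal_eq_zero, not_le]
    exact hε
  obtain ⟨g', hg'c, hg'ε, hg'cont, hg'i⟩ := hGi.exists_hasCompactSupport_lintegral_sub_le hε'
  obtain ⟨B₀, hB₀⟩ := hg'cont.bounded_above_of_compact_support hg'c
  obtain ⟨B, hB0, hB⟩ : ∃ B : ℝ, 0 < B ∧ ∀ y, ‖g' y‖ ≤ B :=
    ⟨|B₀| + 1, by positivity, fun y => (hB₀ y).trans (by linarith [le_abs_self B₀])⟩
  obtain ⟨C₁, hC₁⟩ := hg'c.isCompact.exists_bound_of_continuousOn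
    (f := fun y : Pl × AddCircle (1 : ℝ) => y.1.1) (by fun_prop)
  obtain ⟨C₂, hC₂⟩ := hg'c.isCompact.exists_bound_of_continuousOn
    (f := fun y : Pl × AddCircle (1 : ℝ) => y.1.2) (by fun_prop)
  obtain ⟨R, hR⟩ := exists_nat_ge (max C₁ C₂)
  have hRR : ∀ y : Pl × AddCircle (1 : ℝ), g' y ≠ 0 → |y.1.1| ≤ (R : ℝ) ∧ |y.1.2| ≤ (R : ℝ) := by
    intro y hy
    have h1 : y ∈ tsupport g' := subset_tsupport _ hy
    have h2 := hC₁ y h1
    have h3 := hC₂ y h1
    rw [Real.norm_eq_abs] at h2 h3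
    exact ⟨h2.trans ((le_max_left _ _).trans hR), h3.trans ((le_max_right _ _).trans hR)⟩
  obtain ⟨R', hR'⟩ : ∃ R' : ℝ, R' = (R : ℝ) + 1 := ⟨_, rfl⟩
  have hR'1 : 1 ≤ R' := by
    rw [hR']
    have : (0 : ℝ) ≤ R := Nat.cast_nonneg R
    linarith
  obtain ⟨η, hη⟩ : ∃ η : ℝ, η = ε / (16 * R' ^ 2) := ⟨_, rfl⟩
  have hη0 : 0 < η := by
    rw [hη]
    positivity
  obtain ⟨c, hcc⟩ : ∃ c : ℝ, c = ε / (16 * R' * B) := ⟨_, rfl⟩
  have hc0 : 0 < c := by
    rw [hcc]
    positivity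
  obtain ⟨n, I, P, hn0, hP, hin, hout⟩ := den_approx hg'c hg'cont hη0 R hRR
  rw [← hR'] at hin hout
  -- the approximant
  obtain ⟨A, hA⟩ : ∃ A : SLR → ℂ, A = ∑ i ∈ I, ∑ j ∈ I, (fun x : SLR => if x ∈ St then
      ((denT (n * x 0 0 - i) : ℝ) : ℂ) * ((denT (n * x 0 1 - j) * denX c (x 0 1) : ℝ) : ℂ) *
      P i j ((qq x : ℝ) : AddCircle (1 : ℝ)) else 0) := ⟨_, rfl⟩
  have hAV : A ∈ denV := by
    rw [hA]
    refine Submodule.sum_mem _ fun i _ => Submodule.sum_mem _ fun j _ => ?_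
    exact den_mem (φ₁ := fun s => denT (n * s - i)) (φ₂ := fun s => denT (n * s - j) * denX c s)
      (den_PC n hn0 i j hc0) (hP i j)
  have hA0 : ∀ h, h ∉ St → A h = 0 := by
    intro h hh
    rw [hA]
    simp only [Finset.sum_apply, if_neg hh, Finset.sum_const_zero]
  have hAval : ∀ y : Pl × AddCircle (1 : ℝ), y.1.2 ≠ 0 → A (rmat y.1 (rep y.2)) =
      (denX c y.1.2 : ℂ) * ∑ i ∈ I, ∑ j ∈ I,
        (denT (n * y.1.1 - i) : ℂ) * (denT (n * y.1.2 - j) : ℂ) * P i j y.2 := by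
    intro y hy
    have h1 : rmat y.1 (rep y.2) ∈ St := (den_St hy _).2 (hr2 _)
    rw [hA]
    simp only [Finset.sum_apply, if_pos h1, den_e00 hy, den_e01 hy, qq_rmat hy, hr3]
    rw [Finset.mul_sum]
    refine Finset.sum_congr rfl fun i _ => ?_
    rw [Finset.mul_sum]
    refine Finset.sum_congr rfl fun j _ => ?_
    push_cast
    ring
  obtain ⟨N, a, gg, hgg⟩ := Submodule.mem_span_set'.1 hAV
  have hch : ∀ k : Fin N, ∃ (φ₁ φ₂ : ℝ → ℝ) (m : ℤ), (∃ c₀ C₀ L, PC φ₁ φ₂ c₀ C₀ L) ∧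
    (gg k : SLR → ℂ) = pc φ₁ φ₂ m := fun k => (gg k).2
  choose φ₁ φ₂ m hPC hval using hch
  refine ⟨N, a, φ₁, φ₂, m, hPC, ?_⟩
  have hAsum : ∀ h, ∑ j, a j * pc (φ₁ j) (φ₂ j) (m j) h = A h := by
    intro h
    rw [← hgg, Finset.sum_apply]
    refine Finset.sum_congr rfl fun k _ => ?_
    rw [Pi.smul_apply, smul_eq_mul, hval k]
  have hAm : Measurable A := by
    have : A = fun h => ∑ j, a j * pc (φ₁ j) (φ₂ j) (m j) h := by
      funext h
      rw [hAsum h]
    rw [this]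
    refine Finset.measurable_sum _ fun k _ => ?_
    obtain ⟨c₀, C₀, L, hk⟩ := hPC k
    exact (pc_measurable hk (m k)).const_mul _
  simp only [hAsum]
  rw [den_row hrm hr1 (F := fun h => ‖g h - A h‖ₑ) (hm.sub hAm).enorm (fun h hh => by
    rw [hs h hh, hA0 h hh, sub_zero, enorm_zero])]
  -- the pointwise bound
  obtain ⟨B1, hB1⟩ : ∃ B1 : Set (Pl × AddCircle (1 : ℝ)),
    B1 = (Icc (-R') R' ×ˢ Icc (-R') R') ×ˢ univ := ⟨_, rfl⟩
  obtain ⟨B2, hB2⟩ : ∃ B2 : Set (Pl × AddCircle (1 : ℝ)),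
    B2 = (Icc (-R') R' ×ˢ Icc (-(2 * c)) (2 * c)) ×ˢ univ := ⟨_, rfl⟩
  have hB1m : MeasurableSet B1 := by
    rw [hB1]
    exact (measurableSet_Icc.prod measurableSet_Icc).prod MeasurableSet.univ
  have hB2m : MeasurableSet B2 := by
    rw [hB2]
    exact (measurableSet_Icc.prod measurableSet_Icc).prod MeasurableSet.univ
  have hvol : ∀ r s : ℝ, (volume : Measure (Pl × AddCircle (1 : ℝ)))
      ((Icc (-r) r ×ˢ Icc (-s) s) ×ˢ univ) = ENNReal.ofReal (2 * r) * ENNReal.ofReal (2 * s) := by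
    intro r s
    rw [Measure.volume_eq_prod Pl (AddCircle (1 : ℝ)), Measure.prod_prod,
      Measure.volume_eq_prod ℝ ℝ, Measure.prod_prod, Real.volume_Icc, Real.volume_Icc,
      AddCircle.measure_univ, ENNReal.ofReal_one, mul_one]
    congr 2 <;> ring
  have hpt : ∀ᵐ y : Pl × AddCircle (1 : ℝ), ‖g' y - A (rmat y.1 (rep y.2))‖ₑ ≤
      B1.indicator (fun _ => ENNReal.ofReal (2 * η)) y +
        B2.indicator (fun _ => ENNReal.ofReal B) y := by
    have hne0 : ∀ᵐ s : ℝ, s ≠ 0 := by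
      rw [ae_iff]
      simp
    have hne : ∀ᵐ ξ : Pl, ξ.2 ≠ 0 := by
      rw [Measure.volume_eq_prod ℝ ℝ]
      exact (Measure.quasiMeasurePreserving_snd (μ := (volume : Measure ℝ))
        (ν := (volume : Measure ℝ))).ae hne0
    have hne2 : ∀ᵐ y : Pl × AddCircle (1 : ℝ), y.1.2 ≠ 0 := by
      rw [Measure.volume_eq_prod Pl (AddCircle (1 : ℝ))]
      exact (Measure.quasiMeasurePreserving_fst (μ := (volume : Measure Pl))
        (ν := (volume : Measure (AddCircle (1 : ℝ))))).ae hne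
    filter_upwards [hne2] with y hy
    rw [hAval y hy]
    by_cases hbox : y ∈ B1
    · rw [indicator_of_mem hbox]
      rw [hB1] at hbox
      have hb1 : |y.1.1| ≤ R' := abs_le.2 ⟨hbox.1.1.1, hbox.1.1.2⟩
      have hb2 : |y.1.2| ≤ R' := abs_le.2 ⟨hbox.1.2.1, hbox.1.2.2⟩
      have h1 := hin y hb1 hb2
      have hX0 := denX_nonneg c y.1.2
      have hX1 := denX_le_one c y.1.2
      obtain ⟨S, hS⟩ : ∃ S : ℂ, S = ∑ i ∈ I, ∑ j ∈ I,
        (denT (n * y.1.1 - i) : ℂ) * (denT (n * y.1.2 - j) : ℂ) * P i j y.2 := ⟨_, rfl⟩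
      rw [← hS] at h1 ⊢
      have e : g' y - (denX c y.1.2 : ℂ) * S = (denX c y.1.2 : ℂ) * (g' y - S) +
          ((1 - denX c y.1.2 : ℝ) : ℂ) * g' y := by
        push_cast
        ring
      rw [e]
      refine (enorm_add_le _ _).trans (add_le_add ?_ ?_)
      · refine den_norm_ofReal _ (by positivity) _ ?_
        rw [norm_mul, Complex.norm_real, Real.norm_of_nonneg hX0]
        calc denX c y.1.2 * ‖g' y - S‖ ≤ 1 * (2 * η) :=
              mul_le_mul hX1 h1 (norm_nonneg _) zero_le_one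
          _ = 2 * η := one_mul _
      · by_cases hc2 : 2 * c ≤ |y.1.2|
        · rw [denX_one hc0 hc2]
          simp
        · push Not at hc2
          have hmem : y ∈ B2 := by
            rw [hB2]
            rw [abs_lt] at hc2
            exact ⟨⟨hbox.1.1, ⟨hc2.1.le, hc2.2.le⟩⟩, mem_univ _⟩
          rw [indicator_of_mem hmem]
          refine den_norm_ofReal _ hB0.le _ ?_
          rw [norm_mul, Complex.norm_real, Real.norm_of_nonneg (by linarith)]
          calc (1 - denX c y.1.2) * ‖g' y‖ ≤ 1 * B :=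
                mul_le_mul (by linarith) (hB y) (norm_nonneg _) zero_le_one
            _ = B := one_mul _
    · have hor : R' < |y.1.1| ∨ R' < |y.1.2| := by
        by_contra hcon
        push Not at hcon
        apply hbox
        rw [hB1]
        exact ⟨⟨abs_le.1 hcon.1, abs_le.1 hcon.2⟩, mem_univ _⟩
      obtain ⟨z1, z2⟩ := hout y hor
      rw [z1, z2, mul_zero, sub_zero, enorm_zero]
      exact zero_le'
  have hbound : ∫⁻ y : Pl × AddCircle (1 : ℝ), ‖g' y - A (rmat y.1 (rep y.2))‖ₑ ≤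
      ENNReal.ofReal ε := by
    refine (lintegral_mono_ae hpt).trans ?_
    rw [lintegral_add_left (measurable_const.indicator hB1m), lintegral_indicator hB1m,
      lintegral_indicator hB2m, setLIntegral_const, setLIntegral_const, hB1, hB2, hvol, hvol,
      ← ENNReal.ofReal_mul (by positivity), ← ENNReal.ofReal_mul (by positivity),
      ← ENNReal.ofReal_mul (by positivity), ← ENNReal.ofReal_mul (by positivity),
      ← ENNReal.ofReal_add (by positivity) (by positivity)]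
    apply ENNReal.ofReal_le_ofReal
    have e1 : 2 * η * (2 * R' * (2 * R')) = ε / 2 := by
      rw [hη]
      field_simp
      ring
    have e2 : B * (2 * R' * (2 * (2 * c))) = ε / 2 := by
      rw [hcc]
      field_simp
      ring
    rw [e1, e2]
    linarith
  have htri : ∫⁻ y : Pl × AddCircle (1 : ℝ),
      ‖g (rmat y.1 (rep y.2)) - A (rmat y.1 (rep y.2))‖ₑ ≤
      ENNReal.ofReal ε + ENNReal.ofReal ε := by
    have h1 : ∀ y : Pl × AddCircle (1 : ℝ), ‖g (rmat y.1 (rep y.2)) - A (rmat y.1 (rep y.2))‖ₑ ≤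
        ‖G y - g' y‖ₑ + ‖g' y - A (rmat y.1 (rep y.2))‖ₑ := by
      intro y
      have e : g (rmat y.1 (rep y.2)) - A (rmat y.1 (rep y.2)) =
          (G y - g' y) + (g' y - A (rmat y.1 (rep y.2))) := by
        rw [hG]
        ring
      rw [e]
      exact enorm_add_le _ _
    refine (lintegral_mono h1).trans ?_
    have hmm : Measurable fun y : Pl × AddCircle (1 : ℝ) => ‖G y - g' y‖ₑ :=
      (hGm.sub hg'cont.measurable).enorm
    rw [lintegral_add_left hmm]
    exact add_le_add hg'ε hbound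
  calc (1 / 2) * ∫⁻ y : Pl × AddCircle (1 : ℝ),
      ‖g (rmat y.1 (rep y.2)) - A (rmat y.1 (rep y.2))‖ₑ
      ≤ (1 / 2) * (ENNReal.ofReal ε + ENNReal.ofReal ε) := by gcongr
    _ = ENNReal.ofReal ε := by
      rw [← two_mul, ← mul_assoc, one_div, ENNReal.inv_mul_cancel (by simp) (by simp), one_mul]

end Pool.Agent.ILL
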