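import Pool.Agent.ILL.RcA

/-!
# DFM. The first moment of lattice points in thin boxes along circles

`shell`: for `N ∈ SL(2,ℝ)`, `P`: there is `C` with `#{z : k ≤ |N(z-P)| < k+1} ≤ C (k+1)` for all integers
`k ≥ 0` (Euclidean length). PROOF: the cells `N(z + [0,1)² - P)` have area one, are disjoint and contained in
the annulus `k - d ≤ |·| ≤ k+1+d`, `d` = diameter of `N [0,1)²`, whose area is
`π((k+1+d)² - max(k-d,0)²) ≤ C(k+1)`. (Or a purely combinatorial count.)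

`first_moment`: for `z` with `ZP z ≠ P` let `w = N(z-P)`, `r = |w| > 0` (the minimum `r_min` of all these
`r` is positive: discreteness, `finite_lattice`), `w = r (cos φ, sin φ)`. `rot(-θ) w = r (cos(φ-2πθ),
sin(φ-2πθ))`. Let `Y = max |y₁| |y₂|` and `u` so large that `e^{-u} Y ≤ r_min/2` and `e^{-2u}Y²/r_min ≤ 1`. The
`θ ∈ [0,1]` with `r sin(φ-2πθ) ∈ [e^{-u}y₁, e^{-u}y₂]` form a set of measure at most `e^{-u}(y₂-y₁)/r`
(`|sin| ≤ 1/2` there, `|cos| ≥ √3/2`; on each of the at most three monotone pieces in `[0,1]`, i.e. two full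
arcs, the measure is at most `len/(2π r √3/2)`; constants are irrelevant, e.g. `4 e^{-u}(y₂-y₁)/r` is fine).
It contributes only if `r cos ∈ [e^u x₁, e^u x₂]`, and `r - 1 ≤ r - e^{-2u}Y²/r ≤ |r cos| ≤ r`, so
`r ∈ [A, B+1]` where `{|t| : t ∈ [e^u x₁, e^u x₂]} ⊆ [A,B]`, `B - A ≤ e^u (x₂-x₁)` (`A = 0` if
`x₁ ≤ 0 ≤ x₂`). Finally `Σ_{r_z ∈ [A,B+1]} 1/r_z ≤ Σ_{k ≥ 1, ⌊A⌋ ≤ k ≤ B+1} C(k+1)/k + Σ_{r_z < 1} 1/r_z
≤ 2C(B - A + 3) + const`. The total is at most
`4 e^{-u}(y₂-y₁)(2C(e^u(x₂-x₁) + 3) + const) ≤ C' (x₂-x₁)(y₂-y₁)` for `u` large (Tonelli for the sum over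
`z`).

`first_moment_h`: with `h = M rot θ dg u`: `h⁻¹ v = dg(-u) rot(-θ) M⁻¹ v` is in `[x₁,x₂] × [y₁,y₂]` iff
`rot(-θ) M⁻¹ v ∈ [e^u x₁, e^u x₂] × [e^{-u}y₁, e^{-u}y₂]`.
-/

open MeasureTheory Set Filter Topology
open scoped ENNReal NNReal

namespace Pool.Agent.ILL

private theorem polar (w : Pl) : ∃ r φ : ℝ, 0 ≤ r ∧ -Real.pi < φ ∧ φ ≤ Real.pi ∧
    w.1 = r * Real.cos φ ∧ w.2 = r * Real.sin φ ∧ r ^ 2 = w.1 ^ 2 + w.2 ^ 2 := by
  let c : ℂ := ⟨w.1, w.2⟩
  refine ⟨‖c‖, Complex.arg c, norm_nonneg _, Complex.neg_pi_lt_arg _, Complex.arg_le_pi _,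
    (Complex.norm_mul_cos_arg c).symm, (Complex.norm_mul_sin_arg c).symm, ?_⟩
  rw [Complex.sq_norm, Complex.normSq_apply]
  ring

private theorem toNat_bound (x ρ : ℝ) (hρ : 0 ≤ ρ) :
    (((⌊x + ρ⌋ + 1 - ⌈x - ρ⌉).toNat : ℕ) : ℝ) ≤ 2 * ρ + 1 := by
  rcases le_total (⌊x + ρ⌋ + 1 - ⌈x - ρ⌉) 0 with h | h
  · rw [Int.toNat_of_nonpos h]
    simp only [Nat.cast_zero]
    positivity
  · have e : (((⌊x + ρ⌋ + 1 - ⌈x - ρ⌉).toNat : ℕ) : ℝ) = ((⌊x + ρ⌋ + 1 - ⌈x - ρ⌉ : ℤ) : ℝ) := by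
      rw [← Int.cast_natCast, Int.toNat_of_nonneg h]
    rw [e]
    push_cast
    have h1 := Int.floor_le (x + ρ)
    have h2 := Int.le_ceil (x - ρ)
    linarith

private theorem box_count (N : SLR) (P : Pl) : ∃ C : ℝ, 0 ≤ C ∧ ∀ c : Pl, ∃ F : Finset (ℤ × ℤ),
    (F.card : ℝ) ≤ C ∧ ∀ z : ℤ × ℤ, |(mv N (ZP z - P)).1 - c.1| ≤ 2 →
      |(mv N (ZP z - P)).2 - c.2| ≤ 2 → z ∈ F := by
  set n : SLR := N⁻¹ with hn
  set ρ₁ : ℝ := 2 * |n 0 0| + 2 * |n 0 1| with hρ₁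
  set ρ₂ : ℝ := 2 * |n 1 0| + 2 * |n 1 1| with hρ₂
  have p1 : 0 ≤ ρ₁ := by positivity
  have p2 : 0 ≤ ρ₂ := by positivity
  refine ⟨(2 * ρ₁ + 1) * (2 * ρ₂ + 1), by positivity, fun c => ?_⟩
  set d : Pl := mv n c + P with hd
  refine ⟨(Finset.Icc ⌈d.1 - ρ₁⌉ ⌊d.1 + ρ₁⌋) ×ˢ (Finset.Icc ⌈d.2 - ρ₂⌉ ⌊d.2 + ρ₂⌋), ?_, ?_⟩
  · rw [Finset.card_product, Int.card_Icc, Int.card_Icc]
    push_cast
    exact mul_le_mul (toNat_bound _ _ p1) (toNat_bound _ _ p2) (by positivity) (by positivity)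
  · intro z h1 h2
    have e := mv_inv_mv N (ZP z - P)
    rw [← hn] at e
    set w : Pl := mv N (ZP z - P) with hw
    have e1 : (z.1 : ℝ) - d.1 = n 0 0 * (w.1 - c.1) + n 0 1 * (w.2 - c.2) := by
      have := congrArg Prod.fst e
      simp only [mv, ZP, Prod.fst_sub] at this
      simp only [hd, mv, Prod.fst_add]
      linarith
    have e2 : (z.2 : ℝ) - d.2 = n 1 0 * (w.1 - c.1) + n 1 1 * (w.2 - c.2) := by
      have := congrArg Prod.snd e
      simp only [mv, ZP, Prod.snd_sub] at this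
      simp only [hd, mv, Prod.snd_add]
      linarith
    have key : ∀ a b s t : ℝ, |s| ≤ 2 → |t| ≤ 2 → |a * s + b * t| ≤ 2 * |a| + 2 * |b| := by
      intro a b s t hs ht
      calc |a * s + b * t| ≤ |a * s| + |b * t| := abs_add_le _ _
        _ = |a| * |s| + |b| * |t| := by rw [abs_mul, abs_mul]
        _ ≤ |a| * 2 + |b| * 2 := by gcongr
        _ = _ := by ring
    have k1 := key (n 0 0) (n 0 1) _ _ h1 h2
    have k2 := key (n 1 0) (n 1 1) _ _ h1 h2
    rw [← e1, ← hρ₁, abs_le] at k1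
    rw [← e2, ← hρ₂, abs_le] at k2
    rw [Finset.mem_product, Finset.mem_Icc, Finset.mem_Icc]
    refine ⟨⟨Int.ceil_le.2 (by linarith), Int.le_floor.2 (by linarith)⟩,
      ⟨Int.ceil_le.2 (by linarith), Int.le_floor.2 (by linarith)⟩⟩

private theorem tri_bound (r k c c' δ : ℝ) (hk : 0 ≤ k) (h1 : |r - k| ≤ 1) (h2 : |c| ≤ 1)
    (h3 : |c - c'| ≤ δ) (h4 : k * δ ≤ 1) : |r * c - k * c'| ≤ 2 := by
  have e : r * c - k * c' = (r - k) * c + k * (c - c') := by ring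
  rw [e]
  have a1 : |(r - k) * c| ≤ 1 := by
    rw [abs_mul]
    nlinarith [abs_nonneg (r - k), abs_nonneg c]
  have a2 : |k * (c - c')| ≤ 1 := by
    rw [abs_mul, abs_of_nonneg hk]
    exact (mul_le_mul_of_nonneg_left h3 hk).trans h4
  exact (abs_add_le _ _).trans (by linarith)

theorem shell (N : SLR) (P : Pl) : ∃ C : ℝ, 0 ≤ C ∧ ∀ k : ℕ,
    {z : ℤ × ℤ | (k : ℝ) ^ 2 ≤ (mv N (ZP z - P)).1 ^ 2 + (mv N (ZP z - P)).2 ^ 2 ∧
      (mv N (ZP z - P)).1 ^ 2 + (mv N (ZP z - P)).2 ^ 2 < ((k : ℝ) + 1) ^ 2}.Finite ∧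
    ({z : ℤ × ℤ | (k : ℝ) ^ 2 ≤ (mv N (ZP z - P)).1 ^ 2 + (mv N (ZP z - P)).2 ^ 2 ∧
      (mv N (ZP z - P)).1 ^ 2 + (mv N (ZP z - P)).2 ^ 2 < ((k : ℝ) + 1) ^ 2}.ncard : ℝ)
      ≤ C * (k + 1) := by
  obtain ⟨C0, hC0, hbox⟩ := box_count N P
  choose F hF hF' using hbox
  refine ⟨9 * C0, by positivity, fun k => ?_⟩
  set G : Finset (ℤ × ℤ) := (Finset.Icc (-(4 * ((k : ℤ) + 1))) (4 * ((k : ℤ) + 1))).biUnion
    (fun j => F ((k : ℝ) * Real.cos ((j : ℝ) / (k + 1)), (k : ℝ) * Real.sin ((j : ℝ) / (k + 1))))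
    with hG
  have hk : (0 : ℝ) < (k : ℝ) + 1 := by positivity
  have hcard : (G.card : ℝ) ≤ 9 * C0 * (k + 1) := by
    have h1 : G.card ≤ ∑ j ∈ Finset.Icc (-(4 * ((k : ℤ) + 1))) (4 * ((k : ℤ) + 1)),
      (F ((k : ℝ) * Real.cos ((j : ℝ) / (k + 1)), (k : ℝ) * Real.sin ((j : ℝ) / (k + 1)))).card :=
      Finset.card_biUnion_le
    have h2 : (G.card : ℝ) ≤ ∑ j ∈ Finset.Icc (-(4 * ((k : ℤ) + 1))) (4 * ((k : ℤ) + 1)), C0 := by
      refine le_trans (Nat.cast_le.2 h1) ?_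
      rw [Nat.cast_sum]
      exact Finset.sum_le_sum fun j _ => hF _
    rw [Finset.sum_const, Int.card_Icc, nsmul_eq_mul] at h2
    have h3 : (((4 * ((k : ℤ) + 1) + 1 - -(4 * ((k : ℤ) + 1))).toNat : ℕ) : ℝ) = 8 * (k + 1) + 1 := by
      have : (4 * ((k : ℤ) + 1) + 1 - -(4 * ((k : ℤ) + 1))).toNat = 8 * (k + 1) + 1 := by omega
      rw [this]
      push_cast
      ring
    rw [h3] at h2
    nlinarith [mul_nonneg hC0 (Nat.cast_nonneg k : (0 : ℝ) ≤ k)]
  have hsub : {z : ℤ × ℤ | (k : ℝ) ^ 2 ≤ (mv N (ZP z - P)).1 ^ 2 + (mv N (ZP z - P)).2 ^ 2 ∧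
      (mv N (ZP z - P)).1 ^ 2 + (mv N (ZP z - P)).2 ^ 2 < ((k : ℝ) + 1) ^ 2} ⊆ (G : Set (ℤ × ℤ)) := by
    rintro z ⟨h1, h2⟩
    obtain ⟨r, φ, hr, hφ1, hφ2, e1, e2, e3⟩ := polar (mv N (ZP z - P))
    rw [← e3] at h1 h2
    have hr1 : (k : ℝ) ≤ r := by
      by_contra hc
      push Not at hc
      nlinarith
    have hr2 : r < (k : ℝ) + 1 := by
      by_contra hc
      push Not at hc
      nlinarith
    have hrk : |r - k| ≤ 1 := by
      rw [abs_of_nonneg (by linarith)]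
      linarith
    set j : ℤ := ⌊((k : ℝ) + 1) * φ⌋ with hj
    have j1 := Int.floor_le (((k : ℝ) + 1) * φ)
    have j2 := Int.lt_floor_add_one (((k : ℝ) + 1) * φ)
    rw [← hj] at j1 j2
    have hpi := Real.pi_lt_four
    have d1 : |φ - (j : ℝ) / (k + 1)| ≤ 1 / ((k : ℝ) + 1) := by
      have : φ - (j : ℝ) / (k + 1) = (((k : ℝ) + 1) * φ - j) / (k + 1) := by field_simp
      rw [this, abs_div, abs_of_pos hk]
      gcongr
      rw [abs_of_nonneg (by linarith)]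
      linarith
    have d2 : (k : ℝ) * |φ - (j : ℝ) / (k + 1)| ≤ 1 := by
      calc (k : ℝ) * |φ - (j : ℝ) / (k + 1)| ≤ (k : ℝ) * (1 / ((k : ℝ) + 1)) := by gcongr
        _ ≤ 1 := by
          rw [mul_one_div, div_le_one hk]
          linarith
    rw [hG, Finset.coe_biUnion, Set.mem_iUnion₂]
    refine ⟨j, ?_, ?_⟩
    · rw [Finset.coe_Icc, Set.mem_Icc]
      constructor
      · have : (-(4 * ((k : ℝ) + 1))) < (j : ℝ) + 1 := by nlinarith
        have : (-(4 * ((k : ℤ) + 1))) < j + 1 := by exact_mod_cast this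
        omega
      · have : (j : ℝ) ≤ 4 * ((k : ℝ) + 1) := by nlinarith
        exact_mod_cast this
    · refine Finset.mem_coe.2 (hF' _ z ?_ ?_)
      · rw [e1]
        exact tri_bound _ _ _ _ _ (Nat.cast_nonneg k) hrk (Real.abs_cos_le_one _)
          (Real.abs_cos_sub_cos_le _ _) d2
      · rw [e2]
        exact tri_bound _ _ _ _ _ (Nat.cast_nonneg k) hrk (Real.abs_sin_le_one _)
          (Real.abs_sin_sub_sin_le _ _) d2
  refine ⟨G.finite_toSet.subset hsub, le_trans ?_ hcard⟩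
  have := Set.ncard_le_ncard hsub G.finite_toSet
  rw [Set.ncard_coe_finset] at this
  exact_mod_cast this

theorem measurable_cntB_theta (N : SLR) (P : Pl) (x₁ x₂ y₁ y₂ : ℝ) :
    Measurable (fun θ : ℝ => cntB (rot (-θ) * N) P (Icc x₁ x₂ ×ˢ Icc y₁ y₂)) := by
  classical
  unfold cntB
  refine Measurable.tsum fun z => ?_
  refine Measurable.ite ?_ measurable_const measurable_const
  refine MeasurableSet.inter (MeasurableSet.const _) ?_
  have hc : Continuous fun θ : ℝ => mv (rot (-θ) * N) (ZP z - P) := by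
    simp only [mv_mul]
    unfold mv rot
    simp only [Matrix.of_apply, Matrix.cons_val', Matrix.cons_val_zero,
      Matrix.cons_val_one, Matrix.cons_val_fin_one]
    fun_prop
  exact hc.measurable ((isClosed_Icc.prod isClosed_Icc).measurableSet)


private theorem sin_lower (η η' : ℝ) (h : |η| ≤ Real.pi / 4) (h' : |η'| ≤ Real.pi / 4) :
    |η - η'| ≤ Real.pi * |Real.sin η - Real.sin η'| := by
  have hpi := Real.pi_pos
  have k1 : 2 / Real.pi * |(η - η') / 2| ≤ |Real.sin ((η - η') / 2)| := by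
    apply Real.mul_abs_le_abs_sin
    rw [abs_le] at *
    constructor <;> linarith
  have k2 : 1 / 2 ≤ Real.cos ((η + η') / 2) := by
    have k3 : |(η + η') / 2| ≤ Real.pi / 4 := by
      rw [abs_le] at *
      constructor <;> linarith
    have k4 := Real.one_sub_mul_le_cos (abs_nonneg ((η + η') / 2)) (by linarith)
    rw [Real.cos_abs] at k4
    have k5 : 2 / Real.pi * |(η + η') / 2| ≤ 2 / Real.pi * (Real.pi / 4) := by gcongr
    have k6 : 2 / Real.pi * (Real.pi / 4) = 1 / 2 := by field_simp; norm_num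
    linarith
  rw [Real.sin_sub_sin, abs_mul, abs_mul, abs_of_pos (by linarith : 0 < Real.cos ((η + η') / 2)),
    abs_of_pos (by norm_num : (0 : ℝ) < 2)]
  have k7 : |η - η'| = Real.pi * (2 * (2 / Real.pi * |(η - η') / 2|) * (1 / 2)) := by
    rw [abs_div, abs_of_pos (by norm_num : (0 : ℝ) < 2)]
    field_simp
  rw [k7]
  gcongr

private theorem arc (r φ a b : ℝ) (hr : 0 < r) (ha : |a| ≤ r / 2)
    (hb : |b| ≤ r / 2) :
    volume {θ : ℝ | θ ∈ Icc (0 : ℝ) 1 ∧ a ≤ r * Real.sin (φ - 2 * Real.pi * θ) ∧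
      r * Real.sin (φ - 2 * Real.pi * θ) ≤ b} ≤ ENNReal.ofReal (2 * (b - a) / r) := by
  have hpi := Real.pi_pos
  set m : ℤ := ⌈φ / Real.pi - 5 / 2⌉ with hm
  set S : ℤ → Set ℝ := fun n => {θ | |(φ - 2 * Real.pi * θ) - n * Real.pi| ≤ Real.pi / 2 ∧
    a ≤ r * Real.sin (φ - 2 * Real.pi * θ) ∧ r * Real.sin (φ - 2 * Real.pi * θ) ≤ b} with hSd
  have hsub : {θ : ℝ | θ ∈ Icc (0 : ℝ) 1 ∧ a ≤ r * Real.sin (φ - 2 * Real.pi * θ) ∧
      r * Real.sin (φ - 2 * Real.pi * θ) ≤ b} ⊆ ⋃ n ∈ Finset.Icc m (m + 3), S n := by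
    rintro θ ⟨⟨h0, h1⟩, h2, h3⟩
    have k1 := abs_sub_round ((φ - 2 * Real.pi * θ) / Real.pi)
    set n : ℤ := round ((φ - 2 * Real.pi * θ) / Real.pi) with hn
    have k2 : |(φ - 2 * Real.pi * θ) - n * Real.pi| ≤ Real.pi / 2 := by
      have : (φ - 2 * Real.pi * θ) - n * Real.pi =
        ((φ - 2 * Real.pi * θ) / Real.pi - n) * Real.pi := by field_simp
      rw [this, abs_mul, abs_of_pos hpi]
      nlinarith
    have k3 : (φ - 2 * Real.pi * θ) / Real.pi = φ / Real.pi - 2 * θ := by field_simp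
    rw [k3, abs_le] at k1
    rw [Set.mem_iUnion₂]
    refine ⟨n, ?_, k2, h2, h3⟩
    rw [Finset.mem_Icc]
    constructor
    · rw [hm, Int.ceil_le]
      linarith
    · have h4 := Int.le_ceil (φ / Real.pi - 5 / 2)
      rw [← hm] at h4
      have : (n : ℝ) ≤ (m : ℝ) + 3 := by linarith
      exact_mod_cast this
  have hS : ∀ n, volume (S n) ≤ ENNReal.ofReal ((b - a) / (2 * r)) := by
    intro n
    refine (Real.volume_le_diam _).trans (Metric.ediam_le ?_)
    rintro θ ⟨p1, p2, p3⟩ θ' ⟨q1, q2, q3⟩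
    rw [edist_dist, Real.dist_eq]
    apply ENNReal.ofReal_le_ofReal
    set η := (φ - 2 * Real.pi * θ) - n * Real.pi with hη
    set η' := (φ - 2 * Real.pi * θ') - n * Real.pi with hη'
    have e1 : Real.sin η = (-1) ^ n * Real.sin (φ - 2 * Real.pi * θ) := Real.sin_sub_int_mul_pi _ _
    have e2 : Real.sin η' = (-1) ^ n * Real.sin (φ - 2 * Real.pi * θ') :=
      Real.sin_sub_int_mul_pi _ _
    have e0 : |((-1 : ℝ)) ^ n| = 1 := by simp [abs_zpow]
    rw [abs_le] at ha hb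
    have small : ∀ t : ℝ, a ≤ r * t → r * t ≤ b → |t| ≤ 1 / 2 := by
      intro t h1 h2
      rw [abs_le]
      constructor
      · by_contra hc
        push Not at hc
        nlinarith
      · by_contra hc
        push Not at hc
        nlinarith
    have quarter : ∀ x t : ℝ, |x| ≤ Real.pi / 2 → |Real.sin x| ≤ 1 / 2 → |x| ≤ Real.pi / 4 := by
      intro x t hx hs
      have h1 := Real.mul_abs_le_abs_sin hx
      have h2 : 2 / Real.pi * |x| ≤ 1 / 2 := h1.trans hs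
      have h3 : |x| = (2 / Real.pi * |x|) * (Real.pi / 2) := by field_simp
      rw [h3]
      nlinarith
    have s1 : |Real.sin η| ≤ 1 / 2 := by
      rw [e1, abs_mul, e0, one_mul]
      exact small _ p2 p3
    have s2 : |Real.sin η'| ≤ 1 / 2 := by
      rw [e2, abs_mul, e0, one_mul]
      exact small _ q2 q3
    have main := sin_lower η η' (quarter _ 0 p1 s1) (quarter _ 0 q1 s2)
    have d1 : |η - η'| = 2 * Real.pi * |θ - θ'| := by
      have : η - η' = -(2 * Real.pi * (θ - θ')) := by rw [hη, hη']; ring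
      rw [this, abs_neg, abs_mul, abs_of_pos (by positivity)]
    have d2 : r * |Real.sin η - Real.sin η'| ≤ b - a := by
      have : r * |Real.sin η - Real.sin η'| =
        |r * Real.sin (φ - 2 * Real.pi * θ) - r * Real.sin (φ - 2 * Real.pi * θ')| := by
        rw [e1, e2, ← mul_sub, abs_mul, e0, one_mul, ← mul_sub, abs_mul, abs_of_pos hr]
      rw [this, abs_le]
      constructor <;> linarith
    rw [d1] at main
    have d3 : 2 * |θ - θ'| ≤ |Real.sin η - Real.sin η'| := by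
      by_contra hc
      push Not at hc
      nlinarith
    rw [le_div_iff₀ (by positivity)]
    nlinarith
  calc volume {θ : ℝ | θ ∈ Icc (0 : ℝ) 1 ∧ a ≤ r * Real.sin (φ - 2 * Real.pi * θ) ∧
      r * Real.sin (φ - 2 * Real.pi * θ) ≤ b} ≤ volume (⋃ n ∈ Finset.Icc m (m + 3), S n) :=
        measure_mono hsub
    _ ≤ ∑ n ∈ Finset.Icc m (m + 3), volume (S n) := measure_biUnion_finset_le _ _
    _ ≤ ∑ n ∈ Finset.Icc m (m + 3), ENNReal.ofReal ((b - a) / (2 * r)) :=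
        Finset.sum_le_sum fun n _ => hS n
    _ = ENNReal.ofReal (2 * (b - a) / r) := by
        rw [Finset.sum_const, Int.card_Icc]
        have : (m + 3 + 1 - m).toNat = 4 := by omega
        rw [this, ← ENNReal.ofReal_nsmul]
        congr 1
        simp only [nsmul_eq_mul]
        field_simp
        ring

private theorem rot_polar (θ r φ : ℝ) : mv (rot (-θ)) (r * Real.cos φ, r * Real.sin φ) =
    (r * Real.cos (φ - 2 * Real.pi * θ), r * Real.sin (φ - 2 * Real.pi * θ)) := by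
  have e : 2 * Real.pi * (-θ) = -(2 * Real.pi * θ) := by ring
  ext
  · simp only [mv, rot, Matrix.of_apply, Matrix.cons_val', Matrix.cons_val_zero,
      Matrix.cons_val_one, Matrix.cons_val_fin_one, e, Real.cos_neg, Real.sin_neg, Real.cos_sub]
    ring
  · simp only [mv, rot, Matrix.of_apply, Matrix.cons_val', Matrix.cons_val_zero,
      Matrix.cons_val_one, Matrix.cons_val_fin_one, e, Real.cos_neg, Real.sin_neg, Real.sin_sub]
    ring


private theorem pos_bound {α : Type*} (f : α → ℝ) (T : Finset α) (h : ∀ z ∈ T, 0 < f z) :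
    ∃ ρ : ℝ, 0 < ρ ∧ ρ ≤ 1 ∧ ∀ z ∈ T, ρ ≤ f z := by
  classical
  induction T using Finset.induction_on with
  | empty => exact ⟨1, one_pos, le_rfl, by simp⟩
  | insert a T _ ih =>
    obtain ⟨ρ, h1, h2, h3⟩ := ih fun z hz => h z (Finset.mem_insert_of_mem hz)
    have h4 := h a (Finset.mem_insert_self a T)
    refine ⟨min ρ (f a), lt_min h1 h4, (min_le_left _ _).trans h2, ?_⟩
    intro z hz
    rcases Finset.mem_insert.1 hz with rfl | hz
    · exact min_le_right _ _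
    · exact (min_le_left _ _).trans (h3 z hz)

private theorem shell_sum (N : SLR) (P : Pl) : ∃ (K ρ : ℝ) (S : ℕ → Finset (ℤ × ℤ)), 0 ≤ K ∧ 0 < ρ ∧
    (∀ k z, z ∈ S k ↔ (k : ℝ) ^ 2 ≤ (mv N (ZP z - P)).1 ^ 2 + (mv N (ZP z - P)).2 ^ 2 ∧
      (mv N (ZP z - P)).1 ^ 2 + (mv N (ZP z - P)).2 ^ 2 < ((k : ℝ) + 1) ^ 2) ∧
    (∀ z, ZP z ≠ P → ρ ≤ √((mv N (ZP z - P)).1 ^ 2 + (mv N (ZP z - P)).2 ^ 2)) ∧
    ∀ k, ∀ d : ℝ, 0 ≤ d → ∀ m : ℤ × ℤ → ℝ≥0∞, (∀ z, ZP z = P → m z = 0) →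
      (∀ z, ZP z ≠ P → m z ≤ ENNReal.ofReal
        (d / √((mv N (ZP z - P)).1 ^ 2 + (mv N (ZP z - P)).2 ^ 2))) →
      ∑ z ∈ S k, m z ≤ ENNReal.ofReal (K * d) := by
  classical
  obtain ⟨C, hC, hs⟩ := shell N P
  set R : ℤ × ℤ → ℝ := fun z => √((mv N (ZP z - P)).1 ^ 2 + (mv N (ZP z - P)).2 ^ 2) with hR
  have hRsq : ∀ z, R z ^ 2 = (mv N (ZP z - P)).1 ^ 2 + (mv N (ZP z - P)).2 ^ 2 := fun z =>
    Real.sq_sqrt (by positivity)
  have hRpos : ∀ z, ZP z ≠ P → 0 < R z := by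
    intro z hz
    apply Real.sqrt_pos.2
    by_contra hc
    push Not at hc
    have h1 : (mv N (ZP z - P)).1 = 0 := by nlinarith [sq_nonneg (mv N (ZP z - P)).1, sq_nonneg (mv N (ZP z - P)).2]
    have h2 : (mv N (ZP z - P)).2 = 0 := by nlinarith [sq_nonneg (mv N (ZP z - P)).1, sq_nonneg (mv N (ZP z - P)).2]
    have e := mv_inv_mv N (ZP z - P)
    have e0 : mv N (ZP z - P) = (0, 0) := Prod.ext h1 h2
    rw [e0] at e
    have e1 : mv N⁻¹ (0, 0) = 0 := by ext <;> simp [mv]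
    rw [e1] at e
    exact hz (sub_eq_zero.1 e.symm)
  set S : ℕ → Finset (ℤ × ℤ) := fun k => (hs k).1.toFinset with hS
  have hmem : ∀ k z, z ∈ S k ↔ (k : ℝ) ^ 2 ≤ (mv N (ZP z - P)).1 ^ 2 + (mv N (ZP z - P)).2 ^ 2 ∧
      (mv N (ZP z - P)).1 ^ 2 + (mv N (ZP z - P)).2 ^ 2 < ((k : ℝ) + 1) ^ 2 := by
    intro k z
    rw [hS]
    simp only [Set.Finite.mem_toFinset, Set.mem_ofPred_eq]
  have hcard : ∀ k, ((S k).card : ℝ) ≤ C * (k + 1) := by
    intro k
    have := (hs k).2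
    rwa [Set.ncard_eq_toFinset_card _ (hs k).1] at this
  obtain ⟨ρ, hρ, hρ1, hρ2⟩ := pos_bound R ((S 0).filter fun z => ZP z ≠ P)
    (fun z hz => hRpos z (Finset.mem_filter.1 hz).2)
  have hρall : ∀ z, ZP z ≠ P → ρ ≤ R z := by
    intro z hz
    by_cases h0 : z ∈ S 0
    · exact hρ2 z (Finset.mem_filter.2 ⟨h0, hz⟩)
    · rw [hmem] at h0
      push Not at h0
      have h1 : (1 : ℝ) ≤ R z ^ 2 := by
        rw [hRsq]
        have := h0 (by simp; positivity)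
        simpa using this
      have h2 : 1 ≤ R z := by
        by_contra hc
        push Not at hc
        nlinarith [hRpos z hz]
      linarith
  refine ⟨2 * C + C / ρ, ρ, S, by positivity, hρ, hmem, hρall, ?_⟩
  intro k d hd m hm0 hm
  -- a common bound
  have hb : ∀ z ∈ S k, m z ≤ ENNReal.ofReal (d / max (k : ℝ) ρ) := by
    intro z hz
    by_cases hzP : ZP z = P
    · rw [hm0 z hzP]
      exact zero_le
    · refine (hm z hzP).trans (ENNReal.ofReal_le_ofReal ?_)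
      have h1 : max (k : ℝ) ρ ≤ R z := by
        apply max_le _ (hρall z hzP)
        have h2 := ((hmem k z).1 hz).1
        rw [← hRsq] at h2
        by_contra hc
        push Not at hc
        nlinarith [hRpos z hzP]
      have h3 : 0 < max (k : ℝ) ρ := lt_max_of_lt_right hρ
      show d / R z ≤ _
      gcongr
  calc ∑ z ∈ S k, m z ≤ ∑ z ∈ S k, ENNReal.ofReal (d / max (k : ℝ) ρ) := Finset.sum_le_sum hb
    _ = ENNReal.ofReal ((S k).card * (d / max (k : ℝ) ρ)) := by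
        rw [Finset.sum_const, ← ENNReal.ofReal_nsmul, nsmul_eq_mul]
    _ ≤ ENNReal.ofReal ((2 * C + C / ρ) * d) := by
        apply ENNReal.ofReal_le_ofReal
        have h3 : 0 < max (k : ℝ) ρ := lt_max_of_lt_right hρ
        have h4 : ((S k).card : ℝ) ≤ (2 * C + C / ρ) * max (k : ℝ) ρ := by
          refine (hcard k).trans ?_
          have h5 : C ≤ C / ρ * max (k : ℝ) ρ := by
            calc C = C / ρ * ρ := by field_simp
              _ ≤ _ := by gcongr; exact le_max_right _ _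
          have h6 : C * k ≤ 2 * C * max (k : ℝ) ρ := by
            have : (k : ℝ) ≤ max (k : ℝ) ρ := le_max_left _ _
            nlinarith [mul_nonneg hC h3.le, mul_le_mul_of_nonneg_left this hC]
          nlinarith
        calc ((S k).card : ℝ) * (d / max (k : ℝ) ρ) ≤
            ((2 * C + C / ρ) * max (k : ℝ) ρ) * (d / max (k : ℝ) ρ) := by gcongr
          _ = (2 * C + C / ρ) * d := by field_simp

theorem first_moment (N : SLR) (P : Pl) : ∃ C : ℝ, 0 ≤ C ∧ ∀ x₁ x₂ y₁ y₂ : ℝ, x₁ < x₂ →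
    y₁ < y₂ → ∀ᶠ u : ℝ in atTop,
      ∫⁻ θ in Icc (0 : ℝ) 1, cntB (rot (-θ) * N) P
        (Icc (Real.exp u * x₁) (Real.exp u * x₂) ×ˢ
          Icc (Real.exp (-u) * y₁) (Real.exp (-u) * y₂)) ≤
      ENNReal.ofReal (C * (x₂ - x₁) * (y₂ - y₁)) := by
  classical
  obtain ⟨K, ρ, S, hK, hρ, hmem, hρall, hsum⟩ := shell_sum N P
  refine ⟨4 * K, by positivity, ?_⟩
  intro x₁ x₂ y₁ y₂ hx hy
  set Y : ℝ := |y₁| + |y₂| + 1 with hY
  have hYpos : 0 < Y := by positivity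
  have hx' : 0 < x₂ - x₁ := by linarith
  have ε1 : 0 < ρ / 2 / Y := by positivity
  have ε2 : 0 < 1 / Y := by positivity
  have ε3 : 0 < (x₂ - x₁) / 3 := by positivity
  filter_upwards [Real.tendsto_exp_neg_atTop_nhds_zero.eventually_le_const ε1,
    Real.tendsto_exp_neg_atTop_nhds_zero.eventually_le_const ε2,
    Real.tendsto_exp_neg_atTop_nhds_zero.eventually_le_const ε3] with u u1 u2 u3
  rw [le_div_iff₀ hYpos] at u1 u2
  have heu : 0 < Real.exp u := Real.exp_pos u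
  have hen : 0 < Real.exp (-u) := Real.exp_pos _
  have hee : Real.exp u * Real.exp (-u) = 1 := by rw [← Real.exp_add]; simp
  set X₁ := Real.exp u * x₁ with hX₁
  set X₂ := Real.exp u * x₂ with hX₂
  set a := Real.exp (-u) * y₁ with ha
  set b := Real.exp (-u) * y₂ with hb
  have hX : X₁ ≤ X₂ := by rw [hX₁, hX₂]; gcongr
  have hab : a ≤ b := by rw [ha, hb]; gcongr
  have habs1 : |a| ≤ Real.exp (-u) * Y := by
    rw [ha, abs_mul, abs_of_pos hen]
    gcongr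
    rw [hY]
    linarith [abs_nonneg y₂]
  have habs2 : |b| ≤ Real.exp (-u) * Y := by
    rw [hb, abs_mul, abs_of_pos hen]
    gcongr
    rw [hY]
    linarith [abs_nonneg y₁]
  set R : ℤ × ℤ → ℝ := fun z => √((mv N (ZP z - P)).1 ^ 2 + (mv N (ZP z - P)).2 ^ 2) with hR
  have hRsq : ∀ z, R z ^ 2 = (mv N (ZP z - P)).1 ^ 2 + (mv N (ZP z - P)).2 ^ 2 := fun z =>
    Real.sq_sqrt (by positivity)
  set B : Set Pl := Icc X₁ X₂ ×ˢ Icc a b with hB
  set E : ℤ × ℤ → Set ℝ := fun z => {θ | ZP z ≠ P ∧ mv (rot (-θ) * N) (ZP z - P) ∈ B} with hE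
  have hEm : ∀ z, MeasurableSet (E z) := by
    intro z
    refine MeasurableSet.inter (MeasurableSet.const _) ?_
    have hc : Continuous fun θ : ℝ => mv (rot (-θ) * N) (ZP z - P) := by
      simp only [mv_mul]
      unfold mv rot
      simp only [Matrix.of_apply, Matrix.cons_val', Matrix.cons_val_zero,
        Matrix.cons_val_one, Matrix.cons_val_fin_one]
      fun_prop
    exact hc.measurable ((isClosed_Icc.prod isClosed_Icc).measurableSet)
  set m : ℤ × ℤ → ℝ≥0∞ := fun z => volume (E z ∩ Icc 0 1) with hm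
  have htot : ∫⁻ θ in Icc (0 : ℝ) 1, cntB (rot (-θ) * N) P B = ∑' z, m z := by
    unfold cntB
    rw [lintegral_tsum]
    · refine tsum_congr fun z => ?_
      have h2 : ∫⁻ θ in Icc (0 : ℝ) 1, (E z).indicator 1 θ = m z := by
        rw [lintegral_indicator_one (hEm z), Measure.restrict_apply' measurableSet_Icc]
      rw [← h2]
      refine lintegral_congr fun θ => ?_
      by_cases h : θ ∈ E z
      · rw [Set.indicator_of_mem h]
        exact if_pos h
      · rw [Set.indicator_of_notMem h]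
        exact if_neg h
    · intro z
      exact (Measurable.ite (hEm z) measurable_const measurable_const).aemeasurable
  -- facts about a single lattice point
  have hpol : ∀ z, ∃ φ : ℝ, ∀ θ : ℝ, mv (rot (-θ) * N) (ZP z - P) =
      (R z * Real.cos (φ - 2 * Real.pi * θ), R z * Real.sin (φ - 2 * Real.pi * θ)) := by
    intro z
    obtain ⟨r, φ, hr, -, -, e1, e2, e3⟩ := polar (mv N (ZP z - P))
    have er : R z = r := by
      show √((mv N (ZP z - P)).1 ^ 2 + (mv N (ZP z - P)).2 ^ 2) = r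
      rw [← e3]
      exact Real.sqrt_sq hr
    refine ⟨φ, fun θ => ?_⟩
    rw [er, mv_mul, ← rot_polar]
    congr 1
    exact Prod.ext e1 e2
  have hm0 : ∀ z, ZP z = P → m z = 0 := by
    intro z hz
    have : E z = ∅ := by
      ext θ
      simp [hE, hz]
    rw [hm]
    simp [this]
  have hmle : ∀ z, ZP z ≠ P → m z ≤ ENNReal.ofReal (2 * (b - a) / R z) := by
    intro z hz
    obtain ⟨φ, hφ⟩ := hpol z
    have hr := hρall z hz
    change ρ ≤ R z at hr
    refine le_trans (measure_mono ?_) (arc (R z) φ a b (by linarith) (by linarith) (by linarith))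
    rintro θ ⟨⟨-, h1⟩, h2⟩
    rw [hφ] at h1
    exact ⟨h2, h1.2.1, h1.2.2⟩
  set A₀ : ℝ := max 0 (max X₁ (-X₂)) with hA₀
  set B₀ : ℝ := max X₂ (-X₁) with hB₀
  have hA0 : 0 ≤ A₀ := le_max_left _ _
  have hBA : B₀ - A₀ ≤ X₂ - X₁ := by
    rcases le_total X₂ (-X₁) with h | h
    · rw [hB₀, max_eq_right h]
      have : -X₂ ≤ A₀ := (le_max_right _ _).trans (le_max_right _ _)
      linarith
    · rw [hB₀, max_eq_left h]
      have : X₁ ≤ A₀ := (le_max_left _ _).trans (le_max_right _ _)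
      linarith
  have hAB : A₀ ≤ B₀ := by
    refine max_le ?_ (max_le (hX.trans (le_max_left _ _)) ?_)
    · rcases le_total 0 X₂ with h | h
      · exact h.trans (le_max_left _ _)
      · exact le_trans (by linarith) (le_max_right _ _)
    · exact le_trans (by linarith) (le_max_right _ _)
  have hmne : ∀ z, m z ≠ 0 → A₀ ≤ R z ∧ R z ≤ B₀ + 1 := by
    intro z hz
    have hne : (E z ∩ Icc 0 1).Nonempty := by
      by_contra hc
      rw [Set.not_nonempty_iff_eq_empty] at hc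
      exact hz (by rw [hm]; simp [hc])
    obtain ⟨θ, ⟨-, h1⟩, -⟩ := hne
    obtain ⟨φ, hφ⟩ := hpol z
    rw [hφ] at h1
    obtain ⟨⟨h2, h3⟩, h4, h5⟩ := h1
    simp only at h2 h3 h4 h5
    have hR0 : 0 ≤ R z := Real.sqrt_nonneg _
    set c := R z * Real.cos (φ - 2 * Real.pi * θ) with hc
    set s := R z * Real.sin (φ - 2 * Real.pi * θ) with hs
    have hcs : c ^ 2 + s ^ 2 = R z ^ 2 := by
      rw [hc, hs]
      have := Real.sin_sq_add_cos_sq (φ - 2 * Real.pi * θ)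
      linear_combination (R z ^ 2) * this
    have hs1 : |s| ≤ 1 := by
      have h6 : |a| ≤ 1 := habs1.trans u2
      have h7 : |b| ≤ 1 := habs2.trans u2
      rw [abs_le] at *
      constructor <;> linarith
    have hc1 : |c| ≤ R z := abs_le_of_sq_le_sq (by nlinarith [sq_nonneg s]) hR0
    have hc2 : R z ≤ |c| + |s| := by
      apply le_of_sq_le_sq _ (by positivity)
      rw [← hcs]
      have := mul_nonneg (abs_nonneg c) (abs_nonneg s)
      rw [← sq_abs c, ← sq_abs s]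
      nlinarith
    constructor
    · refine le_trans (max_le (abs_nonneg c) (max_le ?_ ?_)) hc1
      · exact h2.trans (le_abs_self c)
      · exact le_trans (by linarith) (neg_abs_le c |> fun h => by linarith [neg_le_abs c] : -c ≤ |c|)
    · have : |c| ≤ B₀ := by
        rw [abs_le]
        constructor
        · have := le_max_right X₂ (-X₁)
          rw [← hB₀] at this
          linarith
        · exact h3.trans (le_max_left _ _)
      linarith
  -- decomposition into shells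
  set F : Finset (ℤ × ℤ) := (Finset.Icc ⌊A₀⌋₊ ⌊B₀ + 1⌋₊).biUnion S with hF
  have hFm : ∀ z ∉ F, m z = 0 := by
    intro z hz
    by_contra hc
    obtain ⟨h1, h2⟩ := hmne z hc
    apply hz
    have hR0 : 0 ≤ R z := Real.sqrt_nonneg _
    rw [hF, Finset.mem_biUnion]
    refine ⟨⌊R z⌋₊, Finset.mem_Icc.2 ⟨Nat.floor_le_floor h1, Nat.floor_le_floor h2⟩, ?_⟩
    rw [hmem, ← hRsq]
    have h3 := Nat.floor_le hR0
    have h4 := Nat.lt_floor_add_one (R z)
    constructor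
    · gcongr
    · gcongr
  have hdisj : (↑(Finset.Icc ⌊A₀⌋₊ ⌊B₀ + 1⌋₊) : Set ℕ).PairwiseDisjoint S := by
    intro k _ k' _ hkk
    rw [Function.onFun, Finset.disjoint_left]
    intro z h1 h2
    rw [hmem, ← hRsq] at h1 h2
    have hR0 : 0 ≤ R z := Real.sqrt_nonneg _
    apply hkk
    have k1 : (k : ℝ) < (k' : ℝ) + 1 := by
      have := h1.1.trans_lt h2.2
      exact lt_of_pow_lt_pow_left₀ 2 (by positivity) this
    have k2 : (k' : ℝ) < (k : ℝ) + 1 := by
      have := h2.1.trans_lt h1.2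
      exact lt_of_pow_lt_pow_left₀ 2 (by positivity) this
    have k3 : k < k' + 1 := by exact_mod_cast k1
    have k4 : k' < k + 1 := by exact_mod_cast k2
    omega
  rw [htot, tsum_eq_sum (s := F) hFm, hF, Finset.sum_biUnion hdisj]
  have hba : 0 ≤ 2 * (b - a) := by linarith
  calc ∑ k ∈ Finset.Icc ⌊A₀⌋₊ ⌊B₀ + 1⌋₊, ∑ z ∈ S k, m z ≤
      ∑ k ∈ Finset.Icc ⌊A₀⌋₊ ⌊B₀ + 1⌋₊, ENNReal.ofReal (K * (2 * (b - a))) :=
        Finset.sum_le_sum fun k _ => hsum k _ hba m hm0 hmle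
    _ = ENNReal.ofReal (((Finset.Icc ⌊A₀⌋₊ ⌊B₀ + 1⌋₊).card : ℝ) * (K * (2 * (b - a)))) := by
        rw [Finset.sum_const, ← ENNReal.ofReal_nsmul, nsmul_eq_mul]
    _ ≤ ENNReal.ofReal (4 * K * (x₂ - x₁) * (y₂ - y₁)) := by
        apply ENNReal.ofReal_le_ofReal
        have hcard : ((Finset.Icc ⌊A₀⌋₊ ⌊B₀ + 1⌋₊).card : ℝ) ≤ (X₂ - X₁) + 3 := by
          have h1 : ((Finset.Icc ⌊A₀⌋₊ ⌊B₀ + 1⌋₊).card : ℝ) = ⌊B₀ + 1⌋₊ + 1 - ⌊A₀⌋₊ := by
            rw [Nat.card_Icc, Nat.cast_sub]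
            · push_cast
              ring
            · have : ⌊A₀⌋₊ ≤ ⌊B₀ + 1⌋₊ := Nat.floor_le_floor (by linarith)
              omega
          rw [h1]
          have h2 := Nat.floor_le (show 0 ≤ B₀ + 1 by linarith)
          have h3 := Nat.lt_floor_add_one A₀
          linarith
        have h1 : X₂ - X₁ = Real.exp u * (x₂ - x₁) := by rw [hX₁, hX₂]; ring
        have h2 : b - a = Real.exp (-u) * (y₂ - y₁) := by rw [ha, hb]; ring
        have h3 : 0 ≤ K * (2 * (b - a)) := by positivity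
        calc ((Finset.Icc ⌊A₀⌋₊ ⌊B₀ + 1⌋₊).card : ℝ) * (K * (2 * (b - a))) ≤
            ((X₂ - X₁) + 3) * (K * (2 * (b - a))) := by gcongr
          _ = 2 * K * (y₂ - y₁) * ((Real.exp u * Real.exp (-u)) * (x₂ - x₁) +
              3 * Real.exp (-u)) := by rw [h1, h2]; ring
          _ = 2 * K * (y₂ - y₁) * ((x₂ - x₁) + 3 * Real.exp (-u)) := by rw [hee, one_mul]
          _ ≤ 2 * K * (y₂ - y₁) * ((x₂ - x₁) + (x₂ - x₁)) := by
              have : 0 ≤ 2 * K * (y₂ - y₁) := mul_nonneg (by positivity) (by linarith)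
              apply mul_le_mul_of_nonneg_left _ this
              linarith
          _ = 4 * K * (x₂ - x₁) * (y₂ - y₁) := by ring

private theorem dg_inv (u : ℝ) : (dg u)⁻¹ = dg (-u) := by
  apply inv_eq_of_mul_eq_one_right
  apply Subtype.ext
  show (!![Real.exp u, 0; 0, Real.exp (-u)] : Matrix (Fin 2) (Fin 2) ℝ) *
    !![Real.exp (-u), 0; 0, Real.exp (- -u)] = 1
  have hee : Real.exp u * Real.exp (-u) = 1 := by rw [← Real.exp_add]; simp
  ext i j
  fin_cases i <;> fin_cases j <;>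
    simp [Matrix.mul_apply, Fin.sum_univ_two, hee, mul_comm (Real.exp (-u))]

private theorem rot_inv (θ : ℝ) : (rot θ)⁻¹ = rot (-θ) := by
  apply inv_eq_of_mul_eq_one_right
  have e : 2 * Real.pi * (-θ) = -(2 * Real.pi * θ) := by ring
  have h := Real.sin_sq_add_cos_sq (2 * Real.pi * θ)
  apply Subtype.ext
  show (!![Real.cos (2 * Real.pi * θ), -Real.sin (2 * Real.pi * θ);
      Real.sin (2 * Real.pi * θ), Real.cos (2 * Real.pi * θ)] : Matrix (Fin 2) (Fin 2) ℝ) *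
    !![Real.cos (2 * Real.pi * (-θ)), -Real.sin (2 * Real.pi * (-θ));
      Real.sin (2 * Real.pi * (-θ)), Real.cos (2 * Real.pi * (-θ))] = 1
  rw [e, Real.cos_neg, Real.sin_neg]
  set c := Real.cos (2 * Real.pi * θ)
  set d := Real.sin (2 * Real.pi * θ)
  ext i j
  fin_cases i <;> fin_cases j
  · simp [Matrix.mul_apply, Fin.sum_univ_two]
    linarith
  · simp [Matrix.mul_apply, Fin.sum_univ_two]
    ring
  · simp [Matrix.mul_apply, Fin.sum_univ_two]
    ring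
  · simp [Matrix.mul_apply, Fin.sum_univ_two]
    linarith

theorem first_moment_h (M : SLR) (P : Pl) : ∃ C : ℝ, 0 ≤ C ∧ ∀ x₁ x₂ y₁ y₂ : ℝ, x₁ < x₂ →
    y₁ < y₂ → ∀ᶠ u : ℝ in atTop,
      ∫⁻ θ in Icc (0 : ℝ) 1, cntB (M * rot θ * dg u)⁻¹ P (Icc x₁ x₂ ×ˢ Icc y₁ y₂) ≤
      ENNReal.ofReal (C * (x₂ - x₁) * (y₂ - y₁)) := by
  obtain ⟨C, hC, h⟩ := first_moment M⁻¹ P
  refine ⟨C, hC, fun x₁ x₂ y₁ y₂ hx hy => ?_⟩
  filter_upwards [h x₁ x₂ y₁ y₂ hx hy] with u hu
  refine le_trans (le_of_eq ?_) hu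
  refine lintegral_congr fun θ => ?_
  unfold cntB
  refine tsum_congr fun z => ?_
  have hiff : mv (M * rot θ * dg u)⁻¹ (ZP z - P) ∈ Icc x₁ x₂ ×ˢ Icc y₁ y₂ ↔
      mv (rot (-θ) * M⁻¹) (ZP z - P) ∈ Icc (Real.exp u * x₁) (Real.exp u * x₂) ×ˢ
          Icc (Real.exp (-u) * y₁) (Real.exp (-u) * y₂) := by
    rw [_root_.mul_inv_rev, _root_.mul_inv_rev, dg_inv, rot_inv, mv_mul]
    set v := mv (rot (-θ) * M⁻¹) (ZP z - P) with hv
    have e1 : (mv (dg (-u)) v).1 = Real.exp (-u) * v.1 := by simp [mv, dg]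
    have e2 : (mv (dg (-u)) v).2 = Real.exp u * v.2 := by simp [mv, dg]
    have hee : Real.exp u * Real.exp (-u) = 1 := by rw [← Real.exp_add]; simp
    have heu : 0 < Real.exp u := Real.exp_pos u
    have hen : 0 < Real.exp (-u) := Real.exp_pos _
    rw [Set.mem_prod, Set.mem_prod, e1, e2, Set.mem_Icc, Set.mem_Icc, Set.mem_Icc, Set.mem_Icc]
    have q : ∀ s t x y : ℝ, 0 < s → 0 < t → s * t = 1 → (x ≤ t * y ↔ s * x ≤ y) := by
      intro s t x y hs ht hst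
      constructor
      · intro h
        calc s * x ≤ s * (t * y) := by gcongr
          _ = y := by rw [← mul_assoc, hst, one_mul]
      · intro h
        calc x = t * (s * x) := by rw [← mul_assoc, mul_comm t s, hst, one_mul]
          _ ≤ t * y := by gcongr
    have q' : ∀ s t x y : ℝ, 0 < s → 0 < t → s * t = 1 → (t * y ≤ x ↔ y ≤ s * x) := by
      intro s t x y hs ht hst
      constructor
      · intro h
        calc y = s * (t * y) := by rw [← mul_assoc, hst, one_mul]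
          _ ≤ s * x := by gcongr
      · intro h
        calc t * y ≤ t * (s * x) := by gcongr
          _ = x := by rw [← mul_assoc, mul_comm t s, hst, one_mul]
    have hee' : Real.exp (-u) * Real.exp u = 1 := by rw [mul_comm, hee]
    rw [q _ _ x₁ v.1 heu hen hee, q' _ _ x₂ v.1 heu hen hee, q _ _ y₁ v.2 hen heu hee',
      q' _ _ y₂ v.2 hen heu hee']
  by_cases hc : ZP z ≠ P ∧ mv (M * rot θ * dg u)⁻¹ (ZP z - P) ∈ Icc x₁ x₂ ×ˢ Icc y₁ y₂
  · rw [if_pos hc, if_pos ⟨hc.1, hiff.1 hc.2⟩]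
  · rw [if_neg hc, if_neg fun h => hc ⟨h.1, hiff.2 h.2⟩]

end Pool.Agent.ILL
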