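import Pool.Agent.ILL.FdC

/-!
# LTC. Continuity of right translations in `L¹`

`‖φ(· g) - φ‖₁ → 0` as `g → 1`, for integrable `φ` on `SLR`.
PROOF. Mathlib: `Mathlib/MeasureTheory/Function/LpSpace/DomAct/Continuous.lean` (continuity of the action of
`DomMulAct` on `Lp`, for a regular measure preserved by the action; right multiplication is the action of
the opposite group), or directly: approximate `φ` in `L¹` by a continuous compactly supported function `ψ`
(`Integrable.exists_hasCompactSupport_integral_sub_le` or `MemLp` version; `muG` is regular: locally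
compact second countable, finite on compacts), `‖φ(·g) - ψ(·g)‖₁ = ‖φ - ψ‖₁` by right invariance, and
`‖ψ(·g) - ψ‖₁ → 0` because `ψ` is uniformly continuous and all the functions are supported in a fixed
compact set `supp ψ · V`, `V` a compact neighbourhood of `1`.

`L1_transX`: bounded measurable `G` on `SLR × Pl`: `∫_{DD×F0} |G(hg,P) - G(h,P)| → 0`. Let `ε > 0`; choose a
compact `K` with `muG (DD \ K) ρ(F0) 2C < ε` (inner regularity), `V` a compact neighbourhood of `1`,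
`K' = K V`. For each `P` the function `φ_P = G(·,P) 1_{K'}` is integrable and for `g ∈ V`
`∫_K |G(hg,P) - G(h,P)| ≤ ‖φ_P(·g) - φ_P‖₁ → 0`, bounded by `2 C muG(K')`; dominated convergence for the
integral over `P ∈ F0`. (`𝓝 1` is countably generated.)
-/

open MeasureTheory Set Filter Topology
open scoped ENNReal NNReal

namespace Pool.Agent.ILL

private theorem LTC_reg : muG.Regular := by
  have h1 : TopologicalSpace.MetrizableSpace (Matrix (Fin 2) (Fin 2) ℝ) :=
    inferInstanceAs (TopologicalSpace.MetrizableSpace (Fin 2 → Fin 2 → ℝ))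
  have h2 : TopologicalSpace.MetrizableSpace SLR :=
    Matrix.SpecialLinearGroup.isClosedEmbedding_val.isEmbedding.metrizableSpace
  infer_instance

theorem L1_trans {φ : SLR → ℝ} (hφ : Integrable φ muG) :
    Tendsto (fun g : SLR => ∫⁻ h, ‖φ (h * g) - φ h‖ₑ ∂muG) (𝓝 1) (𝓝 0) := by
  have hr := LTC_reg
  have hm : MemLp φ 1 muG := memLp_one_iff_integrable.2 hφ
  obtain ⟨F, hFdef⟩ : ∃ F : C(SLR, C(SLR, SLR)), ∀ g h, F g h = h * g :=
    ⟨(ContinuousMap.mk (fun p : SLR × SLR => p.2 * p.1) (continuous_snd.mul continuous_fst)).curry,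
      fun _ _ => rfl⟩
  have hF : Tendsto (fun g => F g) (𝓝 1) (𝓝 (F 1)) := F.continuous.tendsto 1
  have hmp : ∀ g, MeasurePreserving (F g) muG muG := fun g => by
    have e : (F g : SLR → SLR) = fun h => h * g := funext fun h => hFdef g h
    rw [e]
    exact muG_mul_right g
  have key := Filter.Tendsto.compMeasurePreservingLp (μ := muG) (ν := muG) (p := 1)
    (tendsto_const_nhds (x := hm.toLp φ)) hF hmp (hmp 1) ENNReal.one_ne_top
  rw [tendsto_iff_edist_tendsto_0] at key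
  refine key.congr fun g => ?_
  rw [Lp.toLp_compMeasurePreserving, Lp.toLp_compMeasurePreserving, Lp.edist_toLp_toLp,
    eLpNorm_one_eq_lintegral_enorm]
  refine lintegral_congr fun h => ?_
  rw [Pi.sub_apply, Function.comp_apply, Function.comp_apply, hFdef, hFdef, mul_one]

open scoped Pointwise in
private theorem LTC_dd {φ : SLR → ℝ} (hφ : Measurable φ) {C : ℝ} (hb : ∀ x, |φ x| ≤ C) :
    Tendsto (fun g : SLR => ∫⁻ h in DD, ‖φ (h * g) - φ h‖ₑ ∂muG) (𝓝 1) (𝓝 0) := by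
  have hr := LTC_reg
  rw [ENNReal.tendsto_nhds_zero]
  intro ε hε
  obtain ⟨D, hD⟩ : ∃ D : ℝ≥0∞, D = ENNReal.ofReal (2 * C) + 1 := ⟨_, rfl⟩
  have hD0 : D ≠ 0 := by
    rw [hD]
    exact (lt_of_lt_of_le zero_lt_one le_add_self).ne'
  have hDt : D ≠ ∞ := by
    rw [hD]
    exact ENNReal.add_ne_top.2 ⟨ENNReal.ofReal_ne_top, ENNReal.one_ne_top⟩
  have hε2 : ε / 2 ≠ 0 := (ENNReal.half_pos hε.ne').ne'
  have hδ : ε / 2 / D ≠ 0 := ENNReal.div_ne_zero.2 ⟨hε2, hDt⟩
  obtain ⟨K, hKD, hK, hKm⟩ := measurableSet_DD.exists_isCompact_sdiff_lt muG_DD_lt_top.ne hδ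
  obtain ⟨V, hV, hV1⟩ := exists_compact_mem_nhds (1 : SLR)
  have h1V : (1 : SLR) ∈ V := mem_of_mem_nhds hV1
  obtain ⟨ψ, hψ⟩ : ∃ ψ : SLR → ℝ, ψ = (K * V).indicator φ := ⟨_, rfl⟩
  have hKV : IsCompact (K * V) := hK.mul hV
  have hi : Integrable ψ muG := by
    rw [hψ, integrable_indicator_iff hKV.measurableSet]
    exact Measure.integrableOn_of_bounded hKV.measure_lt_top.ne hφ.aestronglyMeasurable
      (Eventually.of_forall fun x => hb x)
  have k1 := (ENNReal.tendsto_nhds_zero.1 (L1_trans hi)) (ε / 2) (ENNReal.half_pos hε.ne')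
  filter_upwards [k1, hV1] with g hg hgV
  have e1 : DD = K ∪ (DD \ K) := (union_sdiff_cancel hKD).symm
  have e2 : ∫⁻ h in K, ‖φ (h * g) - φ h‖ₑ ∂muG ≤ ε / 2 := by
    have e3 : ∫⁻ h in K, ‖φ (h * g) - φ h‖ₑ ∂muG = ∫⁻ h in K, ‖ψ (h * g) - ψ h‖ₑ ∂muG := by
      refine setLIntegral_congr_fun hK.measurableSet fun h hh => ?_
      have f1 : h * g ∈ K * V := Set.mul_mem_mul hh hgV
      have f2 : h ∈ K * V := by
        have := Set.mul_mem_mul hh h1V
        rwa [mul_one] at this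
      simp only [hψ, indicator_of_mem f1, indicator_of_mem f2]
    rw [e3]
    exact (setLIntegral_le_lintegral _ _).trans hg
  have e4 : ∫⁻ h in DD \ K, ‖φ (h * g) - φ h‖ₑ ∂muG ≤ ε / 2 := by
    have f1 : ∫⁻ h in DD \ K, ‖φ (h * g) - φ h‖ₑ ∂muG ≤ ∫⁻ _h in DD \ K, D ∂muG := by
      refine lintegral_mono fun h => ?_
      rw [Real.enorm_eq_ofReal_abs, hD]
      refine le_add_right (ENNReal.ofReal_le_ofReal ?_)
      have g1 := hb (h * g)
      have g2 := hb h
      rw [abs_le] at g1 g2 ⊢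
      constructor <;> linarith [g1.1, g1.2, g2.1, g2.2]
    refine f1.trans ?_
    rw [setLIntegral_const]
    calc D * muG (DD \ K) ≤ D * (ε / 2 / D) := mul_le_mul_right hKm.le D
      _ = ε / 2 := ENNReal.mul_div_cancel hD0 hDt
  calc ∫⁻ h in DD, ‖φ (h * g) - φ h‖ₑ ∂muG
      = ∫⁻ h in K ∪ (DD \ K), ‖φ (h * g) - φ h‖ₑ ∂muG := by rw [← e1]
    _ ≤ ∫⁻ h in K, ‖φ (h * g) - φ h‖ₑ ∂muG + ∫⁻ h in DD \ K, ‖φ (h * g) - φ h‖ₑ ∂muG :=
        lintegral_union_le _ _ _
    _ ≤ ε / 2 + ε / 2 := add_le_add e2 e4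
    _ = ε := ENNReal.add_halves ε

theorem L1_transX {ρ : Measure Pl} (hρ : PerMeas ρ) {G : SLR × Pl → ℝ} (hG : Measurable G) {C : ℝ}
    (hb : ∀ x, |G x| ≤ C) :
    Tendsto (fun g : SLR => ∫⁻ x in DF, ‖G (eR g x) - G x‖ₑ ∂(muG.prod ρ)) (𝓝 1) (𝓝 0) := by
  have hsf := hρ.sf
  have hmeas : ∀ g : SLR, Measurable fun x : SLR × Pl => ‖G (eR g x) - G x‖ₑ := fun g =>
    ((hG.comp (eR g).measurable).sub hG).enorm
  have e1 : ∀ g : SLR, ∫⁻ x in DF, ‖G (eR g x) - G x‖ₑ ∂(muG.prod ρ) =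
      ∫⁻ P in F0, ∫⁻ h in DD, ‖G (h * g, P) - G (h, P)‖ₑ ∂muG ∂ρ := by
    intro g
    rw [DF, ← Measure.prod_restrict, lintegral_prod_symm _ (hmeas g).aemeasurable]
    rfl
  simp_rw [e1]
  have e2 : (0 : ℝ≥0∞) = ∫⁻ _P in F0, 0 ∂ρ := by
    rw [lintegral_zero]
  rw [e2]
  obtain ⟨D, hD⟩ : ∃ D : ℝ≥0∞, D = ENNReal.ofReal (2 * C) * muG DD := ⟨_, rfl⟩
  refine tendsto_lintegral_filter_of_dominated_convergence (fun _ => D) ?_ ?_ ?_ ?_
  · refine Eventually.of_forall fun g => ?_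
    exact Measurable.lintegral_prod_left' (f := fun x : SLR × Pl => ‖G (eR g x) - G x‖ₑ) (hmeas g)
  · refine Eventually.of_forall fun g => Eventually.of_forall fun P => ?_
    rw [hD]
    have f1 : ∫⁻ h in DD, ‖G (h * g, P) - G (h, P)‖ₑ ∂muG ≤
        ∫⁻ _h in DD, ENNReal.ofReal (2 * C) ∂muG := by
      refine lintegral_mono fun h => ?_
      rw [Real.enorm_eq_ofReal_abs]
      refine ENNReal.ofReal_le_ofReal ?_
      have g1 := hb (h * g, P)
      have g2 := hb (h, P)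
      rw [abs_le] at g1 g2 ⊢
      constructor <;> linarith [g1.1, g1.2, g2.1, g2.2]
    rwa [setLIntegral_const] at f1
  · rw [setLIntegral_const, hD]
    exact ENNReal.mul_ne_top (ENNReal.mul_ne_top ENNReal.ofReal_ne_top muG_DD_lt_top.ne)
      hρ.fin.ne
  · refine Eventually.of_forall fun P => ?_
    exact LTC_dd (φ := fun h => G (h, P)) (hG.comp measurable_prodMk_right) (fun h => hb (h, P))

end Pool.Agent.ILL
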