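import Pool.Agent.ILL.Unx
import Pool.Agent.ILL.Ltc

/-!
# DMT. The Mautner phenomenon

Let `W` be bounded, measurable, a.e. invariant under the lattice and under right multiplication by all
upper unipotents. Then it is invariant under all right multiplications.

PROOF. `c(g) = ∫_DF W(x) W(eR g x)`. (1) `c` is continuous: `|c(g') - c(g)| ≤
C ∫_DF |W(eR g' x) - W(eR g x)| = C ∫_DF |W ∘ eR (g⁻¹g') - W|(eR g x) = C ∫_DF |W ∘ eR(g⁻¹g') - W| → 0`
(`DF_right`, `L1_transX`; note `eR g (eR k x)` has group component `h k g`, so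
`W(h g') = (W ∘ eR (g⁻¹g'))(h g)`).
(2) If `W ∘ eR n = W` a.e. then `c(n g) = c(g n) = c(g)`: the second since `W(h g n) = W(h g)` a.e., the
first by `DF_right_real` for `W(h) W(h n g)` and `n⁻¹`.
(3) For `r > 0`, `ε ≠ 0`: `nu((r-1)/ε) * nl ε * nu(-(r-1)/(ε r)) = !![r, 0; ε, 1/r]`. So
`c(nl ε) = c(!![r,0;ε,1/r])`; let `ε → 0`: `c(1) = c(a_r)`, `a_r = diag(r,1/r)` (`= dg (log r)`).
(4) `∫_DF (W ∘ eR g - W)² = 2 c(1) - 2 c(g)` (`DF_right_real` for `W²`), so `c(g) = c(1)` implies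
`W ∘ eR g = W` a.e. on `DF`, and then a.e. everywhere: `|W ∘ eR g - W|` is a.e. invariant with integral `0`
over `DF`, so by `unfoldX` its integral over all `K × {P | P + ZP z ∈ F0}` is `0`.
(5) so `W ∘ eR a_r = W`, hence `c(nl y) = c(a_r⁻¹ nl(y) a_r) = c(nl(r² y)) → c(1)` as `r → 0`, and
`W ∘ eR (nl y) = W`. (6) every `g` is a product of matrices `nu`, `nl`: if `g₁₀ = c ≠ 0`,
`g = nu((a-1)/c) * nl c * nu((d-1)/c)`; if `g₁₀ = 0` then `g * nl 1` has a nonzero lower left entry.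
-/

open MeasureTheory Set Filter Topology
open scoped ENNReal NNReal

namespace Pool.Agent.ILL

variable {ρ : Measure Pl}

private theorem dmt_eR (g k : SLR) (x : SLR × Pl) : eR g (eR k x) = eR (k * g) x := by
  simp only [eR_apply, mul_assoc]

private theorem dmt_aut_comp {β : Type} {f : SLR × Pl → β} (hρ : PerMeas ρ) (ha : AEAut ρ f)
    (g : SLR) : AEAut ρ (fun x => f (eR g x)) := by
  have hq := (mp_eR hρ g).quasiMeasurePreserving
  refine ⟨?_, ?_, ?_, ?_⟩
  · filter_upwards [hq.ae ha.U] with x hx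
    have : eR g (eL gU x) = eL gU (eR g x) := by simp only [eR_apply, eL_apply, mul_assoc]
    rw [this, hx]
  · filter_upwards [hq.ae ha.L] with x hx
    have : eR g (eL gL x) = eL gL (eR g x) := by simp only [eR_apply, eL_apply, mul_assoc]
    rw [this, hx]
  · filter_upwards [hq.ae ha.t1] with x hx
    have : eR g (eT (1, 0) x) = eT (1, 0) (eR g x) := by simp only [eR_apply, eT_apply]
    rw [this, hx]
  · filter_upwards [hq.ae ha.t2] with x hx
    have : eR g (eT (0, 1) x) = eT (0, 1) (eR g x) := by simp only [eR_apply, eT_apply]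
    rw [this, hx]

private theorem dmt_aut_two {β γ δ : Type} {f : SLR × Pl → β} {f' : SLR × Pl → γ} (F : β → γ → δ)
    (ha : AEAut ρ f) (hb : AEAut ρ f') : AEAut ρ (fun x => F (f x) (f' x)) := by
  refine ⟨?_, ?_, ?_, ?_⟩
  · filter_upwards [ha.U, hb.U] with x h1 h2
    rw [h1, h2]
  · filter_upwards [ha.L, hb.L] with x h1 h2
    rw [h1, h2]
  · filter_upwards [ha.t1, hb.t1] with x h1 h2
    rw [h1, h2]
  · filter_upwards [ha.t2, hb.t2] with x h1 h2
    rw [h1, h2]

private theorem dmt_int (hρ : PerMeas ρ) {f : SLR × Pl → ℝ} (hf : Measurable f) {C : ℝ}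
    (hb : ∀ x, |f x| ≤ C) : IntegrableOn f DF (muG.prod ρ) :=
  Measure.integrableOn_of_bounded (DF_fin hρ).ne hf.aestronglyMeasurable
    (Eventually.of_forall fun x => by rw [Real.norm_eq_abs]; exact hb x)

/-- the correlation function -/
private noncomputable def dmtc (ρ : Measure Pl) (W : SLR × Pl → ℝ) (g : SLR) : ℝ :=
  ∫ x in DF, W x * W (eR g x) ∂(muG.prod ρ)

private theorem dmt_meas {W : SLR × Pl → ℝ} (hW : Measurable W) (g : SLR) :
    Measurable fun x => W (eR g x) := hW.comp (eR g).measurable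

private theorem dmt_bd {W : SLR × Pl → ℝ} {C : ℝ} (hb : ∀ x, |W x| ≤ C) (x y : SLR × Pl) :
    |W x * W y| ≤ C * C := by
  rw [abs_mul]
  exact mul_le_mul (hb x) (hb y) (abs_nonneg _) ((abs_nonneg _).trans (hb x))

private theorem dmt_tendsto (hρ : PerMeas ρ) {W : SLR × Pl → ℝ} (hW : Measurable W)
    {C : ℝ} (hb : ∀ x, |W x| ≤ C) (ha : AEAut ρ W) (g : SLR) :
    Tendsto (dmtc ρ W) (𝓝 g) (𝓝 (dmtc ρ W g)) := by
  rw [tendsto_iff_edist_tendsto_0]
  have h1 : Tendsto (fun g' : SLR => g⁻¹ * g') (𝓝 g) (𝓝 1) := by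
    have : Tendsto (fun g' : SLR => g⁻¹ * g') (𝓝 g) (𝓝 (g⁻¹ * g)) :=
      (continuous_const.mul continuous_id).tendsto g
    rwa [inv_mul_cancel] at this
  have h2 := (L1_transX hρ hW hb).comp h1
  have h3 := ENNReal.Tendsto.const_mul (a := ENNReal.ofReal C) h2 (Or.inr ENNReal.ofReal_ne_top)
  rw [mul_zero] at h3
  refine tendsto_of_tendsto_of_tendsto_of_le_of_le tendsto_const_nhds h3 (fun _ => zero_le) ?_
  intro g'
  have hi : ∀ k : SLR, IntegrableOn (fun x => W x * W (eR k x)) DF (muG.prod ρ) := fun k =>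
    dmt_int hρ (hW.mul (dmt_meas hW k)) (fun x => dmt_bd hb x (eR k x))
  have e1 : dmtc ρ W g' - dmtc ρ W g =
      ∫ x in DF, W x * (W (eR g' x) - W (eR g x)) ∂(muG.prod ρ) := by
    unfold dmtc
    rw [← integral_sub (hi g') (hi g)]
    congr 1
    funext x
    ring
  show edist (dmtc ρ W g') (dmtc ρ W g) ≤ _
  rw [edist_eq_enorm_sub, e1]
  refine (enorm_integral_le_lintegral_enorm _).trans ?_
  have e2 : ∀ x, ‖W x * (W (eR g' x) - W (eR g x))‖ₑ ≤
      ENNReal.ofReal C * ‖W (eR g' x) - W (eR g x)‖ₑ := by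
    intro x
    rw [enorm_mul]
    gcongr
    rw [Real.enorm_eq_ofReal_abs]
    exact ENNReal.ofReal_le_ofReal (hb x)
  refine (lintegral_mono e2).trans ?_
  have hm : Measurable fun x => ‖W (eR (g⁻¹ * g') x) - W x‖ₑ :=
    ((dmt_meas hW _).sub hW).enorm
  have hm2 : Measurable fun x => ‖W (eR g' x) - W (eR g x)‖ₑ :=
    ((dmt_meas hW g').sub (dmt_meas hW g)).enorm
  rw [lintegral_const_mul _ hm2]
  show _ ≤ ENNReal.ofReal C * ∫⁻ x in DF, ‖W (eR (g⁻¹ * g') x) - W x‖ₑ ∂(muG.prod ρ)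
  have e3 : ∫⁻ x in DF, ‖W (eR g' x) - W (eR g x)‖ₑ ∂(muG.prod ρ) =
      ∫⁻ x in DF, ‖W (eR (g⁻¹ * g') x) - W x‖ₑ ∂(muG.prod ρ) := by
    rw [← DF_right hρ hm (dmt_aut_two (fun a b => ‖a - b‖ₑ) (dmt_aut_comp hρ ha _) ha) g]
    congr 1
    funext x
    rw [dmt_eR, mul_inv_cancel_left]
  rw [e3]

private theorem dmt_right (hρ : PerMeas ρ) {W : SLR × Pl → ℝ} {n : SLR}
    (hn : ∀ᵐ x ∂(muG.prod ρ), W (eR n x) = W x) (g : SLR) :
    dmtc ρ W (g * n) = dmtc ρ W g := by
  unfold dmtc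
  refine integral_congr_ae (ae_restrict_of_ae ?_)
  filter_upwards [(mp_eR hρ g).quasiMeasurePreserving.ae hn] with x hx
  rw [← dmt_eR, hx]

private theorem dmt_left (hρ : PerMeas ρ) {W : SLR × Pl → ℝ} (hW : Measurable W)
    {C : ℝ} (hb : ∀ x, |W x| ≤ C) (ha : AEAut ρ W) {n : SLR}
    (hn : ∀ᵐ x ∂(muG.prod ρ), W (eR n x) = W x) (g : SLR) :
    dmtc ρ W (n * g) = dmtc ρ W g := by
  have h1 := DF_right_real hρ (hW.mul (dmt_meas hW g)) (fun x => dmt_bd hb x (eR g x))
    (dmt_aut_two (fun a b => a * b) ha (dmt_aut_comp hρ ha g)) n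
  unfold dmtc
  have h2 : ∫ x in DF, W x * W (eR g x) ∂(muG.prod ρ) =
      ∫ x in DF, (fun x => W x * W (eR g x)) (eR n x) ∂(muG.prod ρ) := h1.symm
  rw [h2]
  refine integral_congr_ae (ae_restrict_of_ae ?_)
  filter_upwards [hn] with x hx
  show W x * W (eR (n * g) x) = W (eR n x) * W (eR g (eR n x))
  rw [hx, dmt_eR]

/-- (4) -/
private theorem dmt_four (hρ : PerMeas ρ) {W : SLR × Pl → ℝ} (hW : Measurable W)
    {C : ℝ} (hb : ∀ x, |W x| ≤ C) (ha : AEAut ρ W) {g : SLR}
    (hg : dmtc ρ W g = dmtc ρ W 1) : ∀ᵐ x ∂(muG.prod ρ), W (eR g x) = W x := by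
  have h1e : ∀ x : SLR × Pl, eR 1 x = x := fun x => by simp only [eR_apply, mul_one]
  have hc1 : dmtc ρ W 1 = ∫ x in DF, W x * W x ∂(muG.prod ρ) := by
    unfold dmtc
    congr 1
    funext x
    rw [h1e]
  have hi0 : IntegrableOn (fun x => W x * W x) DF (muG.prod ρ) :=
    dmt_int hρ (hW.mul hW) (fun x => dmt_bd hb x x)
  have hi1 : IntegrableOn (fun x => W (eR g x) * W (eR g x)) DF (muG.prod ρ) :=
    dmt_int hρ ((dmt_meas hW g).mul (dmt_meas hW g)) (fun x => dmt_bd hb (eR g x) (eR g x))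
  have hi2 : IntegrableOn (fun x => W x * W (eR g x)) DF (muG.prod ρ) :=
    dmt_int hρ (hW.mul (dmt_meas hW g)) (fun x => dmt_bd hb x (eR g x))
  have h2 : ∫ x in DF, W (eR g x) * W (eR g x) ∂(muG.prod ρ) =
      ∫ x in DF, W x * W x ∂(muG.prod ρ) :=
    DF_right_real hρ (f := fun x => W x * W x) (hW.mul hW) (fun x => dmt_bd hb x x)
      (dmt_aut_two (fun a b => a * b) ha ha) g
  have h3 : ∫ x in DF, (W (eR g x) - W x) ^ 2 ∂(muG.prod ρ) = 0 := by
    have e1 : ∫ x in DF, (W (eR g x) - W x) ^ 2 ∂(muG.prod ρ) =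
        ∫ x in DF, (W (eR g x) * W (eR g x) + W x * W x - 2 * (W x * W (eR g x)))
          ∂(muG.prod ρ) := by
      congr 1
      funext x
      ring
    have e2 : ∫ x in DF, W x * W (eR g x) ∂(muG.prod ρ) = dmtc ρ W g := rfl
    have hi3 : IntegrableOn (fun x => W (eR g x) * W (eR g x) + W x * W x) DF (muG.prod ρ) :=
      hi1.add hi0
    rw [e1, integral_sub hi3 (hi2.const_mul 2), integral_add hi1 hi0,
      integral_const_mul, h2, e2, hg, hc1]
    ring
  have hms : Measurable fun x => (W (eR g x) - W x) ^ 2 := ((dmt_meas hW g).sub hW).pow_const 2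
  have h4 : ∀ᵐ x ∂((muG.prod ρ).restrict DF), W (eR g x) - W x = 0 := by
    have e1 : 0 ≤ᵐ[(muG.prod ρ).restrict DF] fun x => (W (eR g x) - W x) ^ 2 :=
      Eventually.of_forall fun x => sq_nonneg _
    have e2 : Integrable (fun x => (W (eR g x) - W x) ^ 2) ((muG.prod ρ).restrict DF) := by
      refine dmt_int hρ hms (C := (2 * C) ^ 2) fun x => ?_
      have h5 : |W (eR g x) - W x| ≤ 2 * C := by
        have := abs_sub (W (eR g x)) (W x)
        have := hb x
        have := hb (eR g x)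
        linarith
      rw [abs_pow]
      exact pow_le_pow_left₀ (abs_nonneg _) h5 2
    have e3 := (integral_eq_zero_iff_of_nonneg_ae e1 e2).1 h3
    filter_upwards [e3] with x hx
    exact pow_eq_zero_iff (by norm_num : (2 : ℕ) ≠ 0) |>.1 hx
  have hmf : Measurable fun x => ‖W (eR g x) - W x‖ₑ := ((dmt_meas hW g).sub hW).enorm
  have h5 : ∫⁻ x in DF, ‖W (eR g x) - W x‖ₑ ∂(muG.prod ρ) = 0 := by
    rw [lintegral_eq_zero_iff hmf]
    filter_upwards [h4] with x hx
    rw [hx]; simp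
  have h6 : ∀ (n : ℕ) (z : ℤ × ℤ), ∀ᵐ x ∂(muG.prod ρ),
      x ∈ (compactCovering SLR n) ×ˢ {P | P + ZP z ∈ F0} → W (eR g x) = W x := by
    intro n z
    obtain ⟨C', hC'⟩ := unfoldX hρ (isCompact_compactCovering SLR n)
    have e1 := hC' _ hmf (dmt_aut_two (fun a b => ‖a - b‖ₑ) (dmt_aut_comp hρ ha g) ha) z
    rw [h5, mul_zero] at e1
    have e2 := le_antisymm e1 zero_le
    rw [lintegral_eq_zero_iff hmf] at e2
    have hms : MeasurableSet ((compactCovering SLR n) ×ˢ {P : Pl | P + ZP z ∈ F0}) := by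
      refine (isCompact_compactCovering SLR n).measurableSet.prod ?_
      exact (measurable_id.add_const (ZP z)) measurableSet_F0
    have e3 := (ae_restrict_iff' hms).1 e2
    filter_upwards [e3] with x hx hxm
    have e4 : ‖W (eR g x) - W x‖ₑ = 0 := hx hxm
    rw [enorm_eq_zero, sub_eq_zero] at e4
    exact e4
  have h7 := ae_all_iff.2 fun n : ℕ => ae_all_iff.2 (h6 n)
  filter_upwards [h7] with x hx
  obtain ⟨n, hn⟩ := exists_mem_compactCovering x.1
  refine hx n (-⌊x.2.1⌋, -⌊x.2.2⌋) ⟨hn, ?_⟩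
  show x.2 + ZP (-⌊x.2.1⌋, -⌊x.2.2⌋) ∈ F0
  constructor
  · simp only [ZP, Prod.fst_add, Int.cast_neg, mem_Ico]
    have := Int.floor_le x.2.1
    have := Int.lt_floor_add_one x.2.1
    constructor <;> linarith
  · simp only [ZP, Prod.snd_add, Int.cast_neg, mem_Ico]
    have := Int.floor_le x.2.2
    have := Int.lt_floor_add_one x.2.2
    constructor <;> linarith

private theorem dmt_ext {g k : SLR} (h00 : g 0 0 = k 0 0) (h01 : g 0 1 = k 0 1)
    (h10 : g 1 0 = k 1 0) (h11 : g 1 1 = k 1 1) : g = k := by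
  ext i j
  fin_cases i <;> fin_cases j
  · exact h00
  · exact h01
  · exact h10
  · exact h11

private theorem dmt_cont_nl : Continuous nl := by
  refine Continuous.subtype_mk ?_ _
  refine continuous_matrix fun i j => ?_
  fin_cases i <;> fin_cases j <;> simp [continuous_const, continuous_id']

private theorem dmt_nl_zero : nl 0 = 1 := by
  apply dmt_ext <;> simp [nl]

theorem mautner {ρ : Measure Pl} (hρ : PerMeas ρ) {W : SLR × Pl → ℝ} (hW : Measurable W)
    {C : ℝ} (hb : ∀ x, |W x| ≤ C) (ha : AEAut ρ W)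
    (hn : ∀ y : ℝ, ∀ᵐ x ∂(muG.prod ρ), W (eR (nu y) x) = W x) (g : SLR) :
    ∀ᵐ x ∂(muG.prod ρ), W (eR g x) = W x := by
  -- (3) the diagonal matrices
  have hdiag : ∀ t : ℝ, ∀ᵐ x ∂(muG.prod ρ), W (eR (dg t) x) = W x := by
    intro t
    apply dmt_four hρ hW hb ha
    have hr : Real.exp t ≠ 0 := (Real.exp_pos t).ne'
    have e1 : Tendsto (fun ε : ℝ => dmtc ρ W (nl ε)) (𝓝[≠] 0) (𝓝 (dmtc ρ W 1)) := by
      have h1 := (dmt_tendsto hρ hW hb ha (nl 0)).comp (dmt_cont_nl.tendsto 0)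
      rw [dmt_nl_zero] at h1
      exact h1.mono_left nhdsWithin_le_nhds
    have e2 : Tendsto (fun ε : ℝ => dmtc ρ W (nl (ε / Real.exp t) * dg t)) (𝓝[≠] 0)
        (𝓝 (dmtc ρ W (dg t))) := by
      have hc : Continuous fun ε : ℝ => nl (ε / Real.exp t) * dg t :=
        (dmt_cont_nl.comp (continuous_id.div_const _)).mul continuous_const
      have h1 := (dmt_tendsto hρ hW hb ha _).comp (hc.tendsto 0)
      simp only [zero_div, dmt_nl_zero, one_mul] at h1
      exact h1.mono_left nhdsWithin_le_nhds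
    refine tendsto_nhds_unique (e2.congr' ?_) e1
    filter_upwards [self_mem_nhdsWithin] with ε hε
    have hε0 : ε ≠ 0 := hε
    have e3 : nl (ε / Real.exp t) * dg t = nu ((Real.exp t - 1) / ε) * nl ε *
        nu (-(Real.exp t - 1) / (ε * Real.exp t)) := by
      apply dmt_ext
      · simp [nl, nu, dg, Matrix.mul_apply, Fin.sum_univ_two]
        field_simp
        ring
      · simp [nl, nu, dg, Matrix.mul_apply, Fin.sum_univ_two]
        try (field_simp; ring)
      · simp [nl, nu, dg, Matrix.mul_apply, Fin.sum_univ_two]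
        try field_simp
      · simp [nl, nu, dg, Matrix.mul_apply, Fin.sum_univ_two, Real.exp_neg]
        field_simp
        ring
    rw [e3, dmt_right hρ (hn _), dmt_left hρ hW hb ha (hn _)]
  -- (5) the lower unipotents
  have hlow : ∀ y : ℝ, ∀ᵐ x ∂(muG.prod ρ), W (eR (nl y) x) = W x := by
    intro y
    apply dmt_four hρ hW hb ha
    have e1 : ∀ t : ℝ, dmtc ρ W (nl (Real.exp (2 * t) * y)) = dmtc ρ W (nl y) := by
      intro t
      have e2 : nl (Real.exp (2 * t) * y) = dg (-t) * nl y * dg t := by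
        apply dmt_ext
        · simp [nl, dg, Matrix.mul_apply, Fin.sum_univ_two, Real.exp_neg]
        · simp [nl, dg, Matrix.mul_apply, Fin.sum_univ_two]
        · simp only [nl, dg, Matrix.SpecialLinearGroup.coe_mul, Matrix.mul_apply,
            Fin.sum_univ_two, Matrix.of_apply, Matrix.cons_val', Matrix.cons_val_zero,
            Matrix.cons_val_one, Matrix.cons_val_fin_one, neg_neg, zero_mul, zero_add, mul_zero,
            add_zero]
          rw [two_mul, Real.exp_add]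
          ring
        · simp [nl, dg, Matrix.mul_apply, Fin.sum_univ_two, ← Real.exp_add]
      rw [e2, dmt_right hρ (hdiag t), dmt_left hρ hW hb ha (hdiag (-t))]
    have e3 : Tendsto (fun t : ℝ => nl (Real.exp (2 * t) * y)) atBot (𝓝 1) := by
      have h1 : Tendsto (fun t : ℝ => Real.exp (2 * t) * y) atBot (𝓝 (0 * y)) := by
        refine Tendsto.mul_const y ?_
        exact Real.tendsto_exp_atBot.comp (tendsto_id.const_mul_atBot (by norm_num : (0 : ℝ) < 2))
      rw [zero_mul] at h1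
      have h2 := (dmt_cont_nl.tendsto 0).comp h1
      rw [dmt_nl_zero] at h2
      exact h2
    have e4 := (dmt_tendsto hρ hW hb ha 1).comp e3
    have e5 : (dmtc ρ W ∘ fun t : ℝ => nl (Real.exp (2 * t) * y)) = fun _ => dmtc ρ W (nl y) := by
      funext t
      exact e1 t
    rw [e5] at e4
    exact tendsto_nhds_unique tendsto_const_nhds e4
  -- (6) products
  have hmul : ∀ k k' : SLR, (∀ᵐ x ∂(muG.prod ρ), W (eR k x) = W x) →
      (∀ᵐ x ∂(muG.prod ρ), W (eR k' x) = W x) → ∀ᵐ x ∂(muG.prod ρ), W (eR (k * k') x) = W x := by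
    intro k k' h1 h2
    filter_upwards [h1, (mp_eR hρ k).quasiMeasurePreserving.ae h2] with x e1 e2
    rw [← dmt_eR, e2, e1]
  have hne : ∀ k : SLR, k 1 0 ≠ 0 → ∀ᵐ x ∂(muG.prod ρ), W (eR k x) = W x := by
    intro k hk
    have hdet : k 0 0 * k 1 1 - k 0 1 * k 1 0 = 1 := by
      have := k.det_coe
      rwa [Matrix.det_fin_two] at this
    have e1 : k = nu ((k 0 0 - 1) / k 1 0) * nl (k 1 0) * nu ((k 1 1 - 1) / k 1 0) := by
      apply dmt_ext
      · simp [nl, nu, Matrix.mul_apply, Fin.sum_univ_two]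
        field_simp
        ring
      · simp [nl, nu, Matrix.mul_apply, Fin.sum_univ_two]
        field_simp
        linear_combination -hdet
      · simp [nl, nu, Matrix.mul_apply, Fin.sum_univ_two]
      · simp [nl, nu, Matrix.mul_apply, Fin.sum_univ_two]
        field_simp
        ring
    rw [e1]
    exact hmul _ _ (hmul _ _ (hn _) (hlow _)) (hn _)
  by_cases h10 : g 1 0 = 0
  · have hdet : g 0 0 * g 1 1 - g 0 1 * g 1 0 = 1 := by
      have := g.det_coe
      rwa [Matrix.det_fin_two] at this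
    have h11 : g 1 1 ≠ 0 := by
      intro h0
      rw [h10, h0] at hdet
      norm_num at hdet
    have e1 : (g * nl 1) 1 0 ≠ 0 := by
      simp [nl, Matrix.mul_apply, Fin.sum_univ_two, h10, h11]
    have e2 : g = g * nl 1 * nl (-1) := by
      rw [mul_assoc]
      have : nl 1 * nl (-1) = 1 := by
        apply dmt_ext <;> simp [nl, Matrix.mul_apply, Fin.sum_univ_two]
      rw [this, mul_one]
    rw [e2]
    exact hmul _ _ (hne _ e1) (hlow _)
  · exact hne g h10

end Pool.Agent.ILL
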