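import Pool.Agent.ILL.Dwu
import Pool.Agent.ILL.Dmt
import Pool.Agent.ILL.Dco

/-!
# DMX. Mixing

PROOF. It is enough to prove the limit along every ultrafilter `𝒰 ≤ atTop`. `exists_wlim`, `mautner`,
`const_on_orbit`: `W = c` a.e. Test with `φ = 1_DF`: `∫_DF f(eR (dg u) x) = ∫_DF f` for every `u`
(`DF_right_real`), so `c · muG(DD) · ρ(F0) = ∫_DF f` (`(muG.prod ρ) DF = muG DD * ρ F0`, both positive and
finite). Test with `φ(h,R) = ψ(h) 1[R = P]`: `rhoO P {P} = 1`, so the integral is `∫ ψ(h) f(h dg u, P) dμ`.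
`mixing0`: apply it to `P = (0,0)` and `(h,R) ↦ f h` (`rhoO_zero_lintegral`, `rhoO_zero_F0`).
-/

open MeasureTheory Set Filter Topology
open scoped ENNReal NNReal

namespace Pool.Agent.ILL

/-- testing against a function concentrated on the point `P` -/
private theorem dmx_point {P : Pl} (hP : RatP P) {F : SLR × Pl → ℝ} (hF : Measurable F)
    {C : ℝ} (hb : ∀ x, |F x| ≤ C) {ψ : SLR → ℝ} (hψ : Integrable ψ muG) :
    Integrable (fun x : SLR × Pl => ψ x.1 * ({P} : Set Pl).indicator (fun _ => (1 : ℝ)) x.2)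
      (muG.prod (rhoO P)) ∧
    ∫ x, F x * (ψ x.1 * ({P} : Set Pl).indicator (fun _ => (1 : ℝ)) x.2) ∂(muG.prod (rhoO P)) =
      ∫ h, ψ h * F (h, P) ∂muG := by
  have hρ := perMeas_orbit hP
  have := hρ.sf
  have hPP : rhoO P {P} = 1 := rhoO_singleton (self_mem_orbS P)
  have h1 : Integrable (({P} : Set Pl).indicator (fun _ => (1 : ℝ))) (rhoO P) := by
    rw [integrable_indicator_iff (measurableSet_singleton P)]
    exact integrableOn_const (by rw [hPP]; exact ENNReal.one_ne_top) (by simp)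
  have h2 : Integrable (fun x : SLR × Pl => ψ x.1 *
      ({P} : Set Pl).indicator (fun _ => (1 : ℝ)) x.2) (muG.prod (rhoO P)) := hψ.mul_prod h1
  refine ⟨h2, ?_⟩
  have h3 : Integrable (fun x : SLR × Pl => F x * (ψ x.1 *
      ({P} : Set Pl).indicator (fun _ => (1 : ℝ)) x.2)) (muG.prod (rhoO P)) := by
    refine h2.bdd_mul (c := C) hF.aestronglyMeasurable (Eventually.of_forall fun x => ?_)
    rw [Real.norm_eq_abs]
    exact hb x
  rw [integral_prod _ h3]
  congr 1
  funext h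
  have h4 : ∀ R : Pl, F (h, R) * (ψ h * ({P} : Set Pl).indicator (fun _ => (1 : ℝ)) R) =
      ({P} : Set Pl).indicator (fun R => F (h, R) * ψ h) R := by
    intro R
    by_cases hR : R ∈ ({P} : Set Pl)
    · rw [indicator_of_mem hR, indicator_of_mem hR, mul_one]
    · rw [indicator_of_notMem hR, indicator_of_notMem hR, mul_zero, mul_zero]
  simp only [h4]
  rw [integral_indicator (measurableSet_singleton P), Measure.restrict_singleton, hPP, one_smul,
    integral_dirac, mul_comm]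

theorem mixing {P : Pl} (hP : RatP P) {f : SLR × Pl → ℝ} (hf : Measurable f)
    {C : ℝ} (hb : ∀ x, |f x| ≤ C) (ha : AEAut (rhoO P) f) {ψ : SLR → ℝ}
    (hψ : Integrable ψ muG) :
    Tendsto (fun u : ℝ => ∫ h, ψ h * f (h * dg u, P) ∂muG) atTop
      (𝓝 ((∫ h, ψ h ∂muG) * (∫ x in DF, f x ∂(muG.prod (rhoO P))) /
        ((muG DD).toReal * (rhoO P F0).toReal))) := by
  have hρ := perMeas_orbit hP
  have hsf := hρ.sf
  rw [tendsto_iff_ultrafilter]
  intro 𝒰 h𝒰
  obtain ⟨W, hWm, hWb, hWa, hWn, hWt⟩ := exists_wlim hρ hf hb ha 𝒰 h𝒰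
  obtain ⟨c, hc⟩ := const_on_orbit hP hWm hWa (mautner hρ hWm hWb hWa hWn)
  -- the constant
  have hDF : (muG.prod (rhoO P)) DF = muG DD * rhoO P F0 := Measure.prod_prod _ _
  have hDFfin := DF_fin hρ
  have h1 : Integrable (DF.indicator (fun _ : SLR × Pl => (1 : ℝ))) (muG.prod (rhoO P)) := by
    rw [integrable_indicator_iff measurableSet_DF]
    exact integrableOn_const hDFfin.ne (by simp)
  have h2 := hWt _ h1
  have h3 : ∀ F : SLR × Pl → ℝ, ∫ x, F x * DF.indicator (fun _ : SLR × Pl => (1 : ℝ)) x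
      ∂(muG.prod (rhoO P)) = ∫ x in DF, F x ∂(muG.prod (rhoO P)) := by
    intro F
    rw [← integral_indicator measurableSet_DF]
    congr 1
    funext x
    by_cases hx : x ∈ DF
    · rw [indicator_of_mem hx, indicator_of_mem hx, mul_one]
    · rw [indicator_of_notMem hx, indicator_of_notMem hx, mul_zero]
  have h4 : ∀ u : ℝ, ∫ x, f (eR (dg u) x) * DF.indicator (fun _ : SLR × Pl => (1 : ℝ)) x
      ∂(muG.prod (rhoO P)) = ∫ x in DF, f x ∂(muG.prod (rhoO P)) := by
    intro u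
    rw [h3 (fun x => f (eR (dg u) x))]
    exact DF_right_real hρ hf hb ha (dg u)
  simp only [h4] at h2
  have h5 := tendsto_nhds_unique h2 tendsto_const_nhds
  have h6 : ∫ x in DF, W x ∂(muG.prod (rhoO P)) =
      c * ((muG DD).toReal * (rhoO P F0).toReal) := by
    have e1 : ∫ x in DF, W x ∂(muG.prod (rhoO P)) = ∫ x in DF, c ∂(muG.prod (rhoO P)) :=
      integral_congr_ae (ae_restrict_of_ae hc)
    rw [e1, setIntegral_const, Measure.real, hDF, ENNReal.toReal_mul, smul_eq_mul, mul_comm]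
  rw [h3 W, h6] at h5
  have hpos : (muG DD).toReal * (rhoO P F0).toReal ≠ 0 := by
    have e1 : 0 < (muG DD).toReal := ENNReal.toReal_pos muG_DD_pos.ne' muG_DD_lt_top.ne
    have e2 : 0 < (rhoO P F0).toReal := by
      apply ENNReal.toReal_pos _ hρ.fin.ne
      have := one_le_rhoO_F0 P
      intro h0
      rw [h0] at this
      exact absurd this (by norm_num)
    positivity
  -- the test function concentrated on `P`
  obtain ⟨h7, -⟩ := dmx_point hP hf hb hψ
  have h8 := hWt _ h7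
  have h9 : ∀ u : ℝ, ∫ x, f (eR (dg u) x) * (ψ x.1 *
      ({P} : Set Pl).indicator (fun _ => (1 : ℝ)) x.2) ∂(muG.prod (rhoO P)) =
      ∫ h, ψ h * f (h * dg u, P) ∂muG := fun u =>
    (dmx_point hP (hf.comp (eR (dg u)).measurable) (fun x => hb (eR (dg u) x)) hψ).2
  have h10 : ∫ x, W x * (ψ x.1 * ({P} : Set Pl).indicator (fun _ => (1 : ℝ)) x.2)
      ∂(muG.prod (rhoO P)) = (∫ h, ψ h ∂muG) * c := by
    have e1 : ∫ x, W x * (ψ x.1 * ({P} : Set Pl).indicator (fun _ => (1 : ℝ)) x.2)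
        ∂(muG.prod (rhoO P)) = ∫ x, (fun _ => c) x * (ψ x.1 *
          ({P} : Set Pl).indicator (fun _ => (1 : ℝ)) x.2) ∂(muG.prod (rhoO P)) := by
      refine integral_congr_ae ?_
      filter_upwards [hc] with x hx
      rw [hx]
    rw [e1, (dmx_point hP (F := fun _ => c) measurable_const (C := |c|) (fun _ => le_rfl) hψ).2,
      integral_mul_const]
  rw [h10] at h8
  have h11 : (∫ h, ψ h ∂muG) * (∫ x in DF, f x ∂(muG.prod (rhoO P))) /
        ((muG DD).toReal * (rhoO P F0).toReal) = (∫ h, ψ h ∂muG) * c := by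
    rw [← h5, ← mul_assoc, mul_div_assoc, div_self hpos, mul_one]
  rw [h11]
  refine h8.congr fun u => ?_
  exact h9 u

theorem mixing0 {f : SLR → ℝ} (hf : Measurable f) {C : ℝ} (hb : ∀ x, |f x| ≤ C)
    (ha : ∀ γ : SLZ, ∀ᵐ h ∂muG, f (toR γ * h) = f h) {ψ : SLR → ℝ} (hψ : Integrable ψ muG) :
    Tendsto (fun u : ℝ => ∫ h, ψ h * f (h * dg u) ∂muG) atTop
      (𝓝 ((∫ h, ψ h ∂muG) * (∫ h in DD, f h ∂muG) / (muG DD).toReal)) := by
  have hρ := perMeas_orbit ratP_zero
  have hsf := hρ.sf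
  have hq : ∀ γ : SLZ, ∀ᵐ x ∂(muG.prod (rhoO (0, 0))), f (toR γ * x.1) = f x.1 := fun γ =>
    (Measure.quasiMeasurePreserving_fst (μ := muG) (ν := rhoO (0, 0))).ae (ha γ)
  have hA : AEAut (rhoO (0, 0)) (fun x : SLR × Pl => f x.1) := by
    refine ⟨?_, ?_, ?_, ?_⟩
    · exact hq gU
    · exact hq gL
    · exact Eventually.of_forall fun x => rfl
    · exact Eventually.of_forall fun x => rfl
  have h1 := mixing ratP_zero (f := fun x : SLR × Pl => f x.1) (hf.comp measurable_fst)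
    (fun x => hb x.1) hA hψ
  have h2 : ∫ x in DF, f x.1 ∂(muG.prod (rhoO (0, 0))) = ∫ h in DD, f h ∂muG := by
    have e1 : ∫ x in DF, f x.1 ∂(muG.prod (rhoO (0, 0))) =
        ∫ x in DD ×ˢ F0, f x.1 * (fun _ => (1 : ℝ)) x.2 ∂(muG.prod (rhoO (0, 0))) := by
      simp only [mul_one]
      rfl
    have e2 := setIntegral_prod_mul (μ := muG) (ν := rhoO (0, 0)) f (fun _ : Pl => (1 : ℝ)) DD F0
    rw [e1, e2, setIntegral_const, Measure.real, rhoO_zero_F0]
    simp
  rw [h2, rhoO_zero_F0, ENNReal.toReal_one, mul_one] at h1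
  exact h1

end Pool.Agent.ILL
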