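import Pool.Agent.ILL.Tri

/-!
# POL. Perturbation of polygons

`hol4_conj`: if corresponding sides of two quadrilaterals bound lattice-free quadrilaterals, the two
holonomies are conjugate by `tau A A'`. Pure algebra from `tau_quad`:
`LF4 A B B' A'` gives `tau A' B' * tau A A' = tau B B' * tau A B`, that is
`tau A' B' = tau B B' * tau A B * (tau A A')⁻¹`, and cyclically; multiply.

`LF4_of_margin`: if a lattice point `ZP z` is in the hull of the images of `W1, W2, V2, V1` then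
`v = mv h⁻¹ (ZP z - Q)` is `λ₁ W1 + λ₂ W2 + μ₂ V2 + μ₁ V1` with nonnegative coefficients of sum `1`;
`w = (λ₁+μ₁) W1 + (λ₂+μ₂) W2` is on the segment `[W1,W2]` and `v - w = μ₁ (V1-W1) + μ₂ (V2-W2)` has
coordinates at most `ε` in absolute value: contradiction with the margin.
-/

open MeasureTheory Set Filter Topology
open scoped ENNReal NNReal

namespace Pool.Agent.ILL

section
variable {H : Type*} [Group H] (a b : H)

theorem hol4_conj {A B C D A' B' C' D' : Pl} (h1 : LF4 A B B' A') (h2 : LF4 B C C' B')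
    (h3 : LF4 C D D' C') (h4 : LF4 D A A' D') :
    hol4 a b A' B' C' D' = tau a b A A' * hol4 a b A B C D * (tau a b A A')⁻¹ := by
  have e1 := tau_quad a b h1
  have e2 := tau_quad a b h2
  have e3 := tau_quad a b h3
  have e4 := tau_quad a b h4
  rw [eq_mul_inv_iff_mul_eq]
  unfold hol4
  simp only [mul_assoc]
  rw [← e1, ← mul_assoc (tau a b B' C'), ← e2, ← mul_assoc (tau a b C' D'),
    ← mul_assoc (tau a b C' D'), ← e3]
  simp only [← mul_assoc]
  rw [← e4]

end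

/-- the same criterion for segments and triangles, in coordinates -/
theorem not_mem_hull_of_coord (h : SLR) (P : Pl) (s : Set Pl) (z : ℤ × ℤ)
    (hz : ZP z ∈ convexHull ℝ ((fun v => P + mv h v) '' s)) :
    mv h⁻¹ (ZP z - P) ∈ convexHull ℝ s := by
  have hc : Convex ℝ {x : Pl | mv h⁻¹ (x - P) ∈ convexHull ℝ s} := by
    intro x hx y hy c d hc hd hcd
    have h1 := (convex_convexHull ℝ s) hx hy hc hd hcd
    have h2 : mv h⁻¹ (c • x + d • y - P) = c • mv h⁻¹ (x - P) + d • mv h⁻¹ (y - P) := by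
      have hd' : d = 1 - c := by linarith
      subst hd'
      ext
      · simp only [mv, Prod.fst_add, Prod.snd_add, Prod.smul_fst, Prod.smul_snd, Prod.fst_sub,
          Prod.snd_sub, smul_eq_mul]
        ring
      · simp only [mv, Prod.fst_add, Prod.snd_add, Prod.smul_fst, Prod.smul_snd, Prod.fst_sub,
          Prod.snd_sub, smul_eq_mul]
        ring
    change mv h⁻¹ (c • x + d • y - P) ∈ convexHull ℝ s
    rw [h2]
    exact h1
  refine convexHull_min ?_ hc hz
  rintro _ ⟨v, hv, rfl⟩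
  change mv h⁻¹ (P + mv h v - P) ∈ convexHull ℝ s
  rw [add_sub_cancel_left, mv_inv_mv]
  exact subset_convexHull ℝ s hv

theorem LF4_of_margin (h : SLR) (Q W1 W2 V1 V2 : Pl) (ε : ℝ)
    (h1 : |V1.1 - W1.1| ≤ ε ∧ |V1.2 - W1.2| ≤ ε) (h2 : |V2.1 - W2.1| ≤ ε ∧ |V2.2 - W2.2| ≤ ε)
    (hm : ∀ z : ℤ × ℤ, ∀ w ∈ segment ℝ W1 W2,
      ¬ (|(mv h⁻¹ (ZP z - Q)).1 - w.1| ≤ ε ∧ |(mv h⁻¹ (ZP z - Q)).2 - w.2| ≤ ε)) :
    LF4 (Q + mv h W1) (Q + mv h W2) (Q + mv h V2) (Q + mv h V1) := by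
  intro z hz
  have hs : ({Q + mv h W1, Q + mv h W2, Q + mv h V2, Q + mv h V1} : Set Pl) =
      (fun v => Q + mv h v) '' {W1, W2, V2, V1} := by
    simp only [Set.image_insert_eq, Set.image_singleton]
  rw [hs] at hz
  have hv := not_mem_hull_of_coord h Q {W1, W2, V2, V1} z hz
  have hε : 0 ≤ ε := (abs_nonneg _).trans h1.1
  have hc : Convex ℝ {v : Pl | ∃ w ∈ segment ℝ W1 W2, |v.1 - w.1| ≤ ε ∧ |v.2 - w.2| ≤ ε} := by
    rintro v ⟨w, hw, hv1, hv2⟩ v' ⟨w', hw', hv1', hv2'⟩ c d hc hd hcd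
    refine ⟨c • w + d • w', (convex_segment W1 W2) hw hw' hc hd hcd, ?_, ?_⟩
    · simp only [Prod.fst_add, Prod.smul_fst, smul_eq_mul]
      have e1 : c * v.1 + d * v'.1 - (c * w.1 + d * w'.1) = c * (v.1 - w.1) + d * (v'.1 - w'.1) := by
        ring
      rw [e1]
      refine (abs_add_le _ _).trans ?_
      rw [abs_mul, abs_mul, abs_of_nonneg hc, abs_of_nonneg hd]
      nlinarith
    · simp only [Prod.snd_add, Prod.smul_snd, smul_eq_mul]
      have e1 : c * v.2 + d * v'.2 - (c * w.2 + d * w'.2) = c * (v.2 - w.2) + d * (v'.2 - w'.2) := by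
        ring
      rw [e1]
      refine (abs_add_le _ _).trans ?_
      rw [abs_mul, abs_mul, abs_of_nonneg hc, abs_of_nonneg hd]
      nlinarith
  have hsub : ({W1, W2, V2, V1} : Set Pl) ⊆
      {v : Pl | ∃ w ∈ segment ℝ W1 W2, |v.1 - w.1| ≤ ε ∧ |v.2 - w.2| ≤ ε} := by
    intro v hv
    rcases hv with rfl | rfl | rfl | rfl
    · exact ⟨v, left_mem_segment ℝ v W2, by simpa using hε, by simpa using hε⟩
    · exact ⟨v, right_mem_segment ℝ W1 v, by simpa using hε, by simpa using hε⟩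
    · exact ⟨W2, right_mem_segment ℝ W1 W2, h2⟩
    · exact ⟨W1, left_mem_segment ℝ W1 W2, h1⟩
  obtain ⟨w, hw, hw1, hw2⟩ := convexHull_min hsub hc hv
  exact hm z w hw ⟨hw1, hw2⟩

end Pool.Agent.ILL
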