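import Pool.Agent.ILL.Lab
import Pool.Agent.ILL.Pol
import Pool.Agent.ILL.Apx

/-!
# DRG. Regularity of the energy under small upper triangular matrices

Configuration `x = (h,P)`, `x' = (h tri α β, P)`, `|α-1| ≤ δ`, `|β| ≤ δ`, `δ` small (depending on `S`).
`Q' = P + mv h (α,0)`, `X'_s = P + mv h (α + sβ, s/α)`. Put `s' = s/α`.
Let `C₁` be a constant (depending on `S`) such that all points `(α+sβ, s/α)`, `(1,s/α)`, `(1,0)`, `(α,0)`,
`0 ≤ s ≤ S`, are in the box `T = [1-C₁δ, 1+C₁δ] × [-C₁δ, S+C₁δ]`. If a lattice point `z ≠ P`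
has `v = mv h⁻¹ (z-P) ∈ T` then the right side is at least `C` and the estimate is trivial
(`EE_nonneg`, `EE_bound`). So assume there is none (`P` itself has `v = 0 ∉ T`): all transports between points of
`T` are path independent (`T` convex: `LF3`, `LF4` by `not_mem_hull_of_coord`).
Exceptional set `B`: the `s ∈ [0,S]` for which the triangle with corners `(0,0), (1,s'), (α+sβ,s')` contains
`v = mv h⁻¹(z-P)` for some `z ≠ P`. Such a `v = (v₁,v₂)` has `0 ≤ v₂ ≤ s'` and lies between the two rays. If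
`s' > 0` and `v₂ > 0`: `v₁ s'/v₂` is between `1` and `α + sβ`, so `|v₁ s' - v₂| ≤ C₁ δ v₂`,
`v₁ ≥ (1-C₁δ) v₂/s' > 0` and `|s' - v₂/v₁| ≤ C₁ δ v₂/v₁ ≤ 2 C₁ δ (S+1)`; if `v₂ = 0` then `v = 0` (if
`s' > 0`), excluded; `s' = 0` is a single parameter. So every `v` in the box `[0,2] × [-1,S+1]` excludes a set
of measure at most `C₂ δ`, and `vol B ≤ C₂ δ · (number of z ≠ P with v in that box)`.
For `s ∉ B`: `apex_tri` gives `tau P X'_s q₀ = tau X_{s'} X'_s (tau P X_{s'} q₀)` (the segment
`[X_{s'},X'_s]` does not contain `P`), and inside `T`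
`(tau Q' X'_s)⁻¹ tau X_{s'} X'_s = κ (tau Q X_{s'})⁻¹`, `κ = tau Q Q'`. So
`labS x' s = κ (labS x s')`. Apply `EE_compare` with `τ = 1`, `κ a b = tau a b Q Q'` (`tau_mem`).

`reg_EE`: with `first_moment_h`: given `ε`, choose `δ` so small that `C (C_M · area(T) + δ (1 + C_M area)) ≤ ε`
for `u` large. (Conversion from `lintegral` of `ofReal |..|` to the interval integral.)
-/

open MeasureTheory Set Filter Topology
open scoped ENNReal NNReal

namespace Pool.Agent.ILL

private theorem drg_one_le_cntB {N : SLR} {P : Pl} {B : Set Pl} {z : ℤ × ℤ} (h1 : ZP z ≠ P)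
    (h2 : mv N (ZP z - P) ∈ B) : 1 ≤ cntB N P B := by
  classical
  unfold cntB
  refine le_trans ?_ (ENNReal.le_tsum z)
  rw [if_pos ⟨h1, h2⟩]

private theorem drg_vol_union {N : SLR} {P : Pl} {Bx : Set Pl} (f : ℤ × ℤ → Set ℝ) (c : ℝ≥0∞)
    (hf : ∀ z, ZP z ≠ P → mv N (ZP z - P) ∈ Bx → volume (f z) ≤ c) :
    volume (⋃ z : ℤ × ℤ, ⋃ (_ : ZP z ≠ P ∧ mv N (ZP z - P) ∈ Bx), f z) ≤ c * cntB N P Bx := by
  classical
  refine (measure_iUnion_le _).trans ?_
  unfold cntB
  rw [← ENNReal.tsum_mul_left]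
  refine ENNReal.tsum_le_tsum (fun z => ?_)
  by_cases hz : ZP z ≠ P ∧ mv N (ZP z - P) ∈ Bx
  · rw [if_pos hz, mul_one]
    simp only [hz, ne_eq, not_false_eq_true, and_self, iUnion_true]
    exact hf z hz.1 hz.2
  · rw [if_neg hz]
    simp only [hz, iUnion_false, measure_empty, mul_zero, le_refl]

private theorem drg_mv_zero (h : SLR) : mv h (0, 0) = 0 := by
  ext <;> simp [mv]

private theorem drg_mv_ne {h : SLR} {P : Pl} {z : ℤ × ℤ} (hz : ZP z ≠ P) :
    mv h⁻¹ (ZP z - P) ≠ 0 := by
  intro h0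
  have h1 : mv h (mv h⁻¹ (ZP z - P)) = ZP z - P := mv_mv_inv h _
  rw [h0] at h1
  have h2 : mv h (0 : Pl) = 0 := drg_mv_zero h
  rw [h2] at h1
  exact hz (sub_eq_zero.1 h1.symm)

/-- points of the thin triangle -/
private theorem drg_tri_geom {S s α β δ : ℝ} (hS : 0 < S) (hs0 : 0 ≤ s) (hsS : s ≤ S)
    (hα : |α - 1| ≤ δ) (hβ : |β| ≤ δ) (hδ0 : 0 < δ) (hδ : δ * (1 + S) ≤ 1 / 2) {v : Pl}
    (hv : v ∈ convexHull ℝ {((0 : ℝ), (0 : ℝ)), (1, s / α), (α + s * β, s / α)})
    (hv0 : v ≠ 0) :
    0 < v.1 ∧ v.1 ≤ 2 ∧ 0 ≤ v.2 ∧ v.2 ≤ s / α ∧ |s / α - v.2 / v.1| ≤ 4 * S * (1 + S) * δ := by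
  have hδ1 : δ ≤ 1 / 2 := by nlinarith
  have hα' := abs_le.1 hα
  have hβ' := abs_le.1 hβ
  have hα0 : (1 : ℝ) / 2 ≤ α := by linarith [hα'.1]
  have hαp : 0 < α := by linarith
  have hs' : 0 ≤ s / α := div_nonneg hs0 hαp.le
  have hs'2 : s / α ≤ 2 * S := by
    rw [div_le_iff₀ hαp]; nlinarith
  rw [convexHull_insert (by exact ⟨_, Set.mem_insert _ _⟩), convexHull_pair] at hv
  rw [mem_convexJoin] at hv
  obtain ⟨x, hx, w, hw, hv⟩ := hv
  rw [Set.mem_singleton_iff] at hx
  subst hx
  obtain ⟨c, d, hc, hd, hcd, rfl⟩ := hw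
  obtain ⟨a, t, ha, ht, hat, rfl⟩ := hv
  have hsβ : |s * β| ≤ S * δ := by
    rw [abs_mul, abs_of_nonneg hs0]
    exact mul_le_mul hsS hβ (abs_nonneg _) hS.le
  have hsβ' := abs_le.1 hsβ
  have hd1 : d ≤ 1 := by linarith
  have ht1 : t ≤ 1 := by linarith
  -- first coordinate of w
  have hw1 : |(c + d * (α + s * β)) - 1| ≤ δ * (1 + S) := by
    have h1 : (c + d * (α + s * β)) - 1 = d * ((α - 1) + s * β) := by
      have : c = 1 - d := by linarith
      rw [this]; ring
    rw [h1, abs_mul, abs_of_nonneg hd]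
    have h2 : |(α - 1) + s * β| ≤ δ + S * δ := (abs_add_le _ _).trans (add_le_add hα hsβ)
    calc d * |(α - 1) + s * β| ≤ 1 * (δ + S * δ) :=
          mul_le_mul hd1 h2 (abs_nonneg _) zero_le_one
      _ = δ * (1 + S) := by ring
  have hw1' := abs_le.1 hw1
  set W := c + d * (α + s * β) with hW
  have hWp : 1 / 2 ≤ W := by linarith [hw1'.1]
  have hWl : W ≤ 3 / 2 := by linarith [hw1'.2]
  have hv1 : (a • ((0 : ℝ), (0 : ℝ)) + t • (c • ((1 : ℝ), s / α) + d • (α + s * β, s / α))) =
      (t * W, t * (s / α)) := by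
    ext
    · simp [hW]
    · simp only [Prod.smul_mk, Prod.mk_add_mk, smul_eq_mul]
      have : c * (s / α) + d * (s / α) = s / α := by rw [← add_mul, hcd, one_mul]
      rw [this]; ring
  rw [hv1] at hv0 ⊢
  have htp : 0 < t := by
    rcases ht.lt_or_eq with h | h
    · exact h
    · exfalso; apply hv0; rw [← h]; simp
  refine ⟨mul_pos htp (by linarith), ?_, mul_nonneg ht hs', ?_, ?_⟩
  · show t * W ≤ 2
    nlinarith
  · show t * (s / α) ≤ s / α
    nlinarith
  · show |s / α - t * (s / α) / (t * W)| ≤ _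
    have hW0 : (0 : ℝ) < W := by linarith
    have h3 : s / α - t * (s / α) / (t * W) = (s / α) * (W - 1) / W := by
      field_simp
    rw [h3, abs_div, abs_mul, abs_of_nonneg hs', abs_of_pos hW0, div_le_iff₀ hW0]
    calc s / α * |W - 1| ≤ (2 * S) * (δ * (1 + S)) :=
          mul_le_mul hs'2 hw1 (abs_nonneg _) (by positivity)
      _ ≤ 4 * S * (1 + S) * δ * W := by
          have : 0 ≤ S * (1 + S) * δ := by positivity
          nlinarith

private theorem drg_vol_Icc {α r c : ℝ} (hα : 0 < α) (hα2 : α ≤ 2) (hc : 0 ≤ c) :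
    volume {s : ℝ | |s / α - r| ≤ c} ≤ ENNReal.ofReal (4 * c) := by
  have h1 : {s : ℝ | |s / α - r| ≤ c} ⊆ Icc (α * (r - c)) (α * (r + c)) := by
    intro s hs
    have hs' := abs_le.1 (show |s / α - r| ≤ c from hs)
    have hs2 : s = α * (s / α) := by field_simp
    constructor
    · rw [hs2]; exact mul_le_mul_of_nonneg_left (by linarith [hs'.1]) hα.le
    · rw [hs2]; exact mul_le_mul_of_nonneg_left (by linarith [hs'.2]) hα.le
  refine (measure_mono h1).trans ?_
  rw [Real.volume_Icc]
  apply ENNReal.ofReal_le_ofReal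
  nlinarith

theorem reg0 (Λ : Type) [Fintype Λ] [DecidableEq Λ] {S : ℝ} (hS : 0 < S) :
    ∃ C : ℝ, 0 < C ∧ ∃ δ₀ > 0, ∀ δ : ℝ, 0 < δ → δ ≤ δ₀ → ∀ α β : ℝ, |α - 1| ≤ δ → |β| ≤ δ →
      ∀ (h : SLR) (P : Pl),
      ENNReal.ofReal |EE Λ S (h * tri α β, P) - EE Λ S (h, P)| ≤
        ENNReal.ofReal C * (cntB h⁻¹ P (Icc (1 - C * δ) (1 + C * δ) ×ˢ Icc (-(C * δ)) (S + C * δ)) +
          ENNReal.ofReal δ * (1 + cntB h⁻¹ P (Icc 0 2 ×ˢ Icc (-1) (S + 1)))) := by
  obtain ⟨D, hD⟩ : ∃ D : ℝ, D = Fintype.card (Lab Λ) := ⟨_, rfl⟩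
  have hD0 : 0 ≤ D := by rw [hD]; exact Nat.cast_nonneg _
  obtain ⟨C, hC⟩ : ∃ C : ℝ, C = 1 + 2 * S + D + 256 * D * (1 + S) := ⟨_, rfl⟩
  have hDS : 0 ≤ 256 * D * (1 + S) := by positivity
  have hC1 : 1 + 2 * S ≤ C := by linarith
  have hCp : 0 < C := by linarith
  refine ⟨C, hCp, 1 / (2 * C), by positivity, ?_⟩
  intro δ hδ0 hδ' α β hα hβ h P
  have hCδ : C * δ ≤ 1 / 2 := by
    rw [le_div_iff₀ (by positivity)] at hδ'
    linarith
  have hSδ : δ * (1 + S) ≤ 1 / 2 := by nlinarith
  have hδ1 : δ ≤ 1 / 2 := by nlinarith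
  have h2S : 2 * S * δ ≤ 1 := by nlinarith
  have hα' := abs_le.1 hα
  have hα0 : (1 : ℝ) / 2 ≤ α := by linarith [hα'.1]
  have hαp : 0 < α := by linarith
  have hα2 : α ≤ 2 := by linarith [hα'.2]
  set T : Set Pl := Icc (1 - C * δ) (1 + C * δ) ×ˢ Icc (-(C * δ)) (S + C * δ) with hT
  set Bx : Set Pl := Icc 0 2 ×ˢ Icc (-1) (S + 1) with hBx
  by_cases hc : ∃ z, ZP z ≠ P ∧ mv h⁻¹ (ZP z - P) ∈ T
  · obtain ⟨z, hz1, hz2⟩ := hc
    have h1 : (1 : ℝ≥0∞) ≤ cntB h⁻¹ P T := drg_one_le_cntB hz1 hz2
    have h2 : |EE Λ S (h * tri α β, P) - EE Λ S (h, P)| ≤ C := by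
      rw [abs_le]
      have a1 := EE_nonneg (Λ := Λ) S (h * tri α β, P)
      have a2 := EE_nonneg (Λ := Λ) S (h, P)
      have a3 := EE_bound (Λ := Λ) hS (h * tri α β, P)
      have a4 := EE_bound (Λ := Λ) hS (h, P)
      rw [← hD] at a3 a4
      constructor <;> linarith
    calc ENNReal.ofReal |EE Λ S (h * tri α β, P) - EE Λ S (h, P)| ≤ ENNReal.ofReal C :=
          ENNReal.ofReal_le_ofReal h2
      _ = ENNReal.ofReal C * 1 := (mul_one _).symm
      _ ≤ _ := by
          gcongr
          exact h1.trans le_self_add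
  · push Not at hc
    -- no lattice point in `T`
    have hnoT : ∀ z : ℤ × ℤ, mv h⁻¹ (ZP z - P) ∉ T := by
      intro z hz
      by_cases hzP : ZP z = P
      · rw [hzP, sub_self] at hz
        have h0 : mv h⁻¹ (0 : Pl) = 0 := drg_mv_zero h⁻¹
        rw [h0] at hz
        have := hz.1.1
        simp only [Prod.fst_zero] at this
        linarith
      · exact hc z hzP hz
    have hTconv : Convex ℝ T := (convex_Icc _ _).prod (convex_Icc _ _)
    set c : ℝ := 4 * S * (1 + S) * δ with hcdef
    have hc0 : 0 ≤ c := by positivity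
    set B : Set ℝ := ⋃ z : ℤ × ℤ, ⋃ (_ : ZP z ≠ P ∧ mv h⁻¹ (ZP z - P) ∈ Bx),
      {s : ℝ | |s / α - (mv h⁻¹ (ZP z - P)).2 / (mv h⁻¹ (ZP z - P)).1| ≤ c} with hB
    have hBm : MeasurableSet B := by
      refine MeasurableSet.iUnion (fun z => MeasurableSet.iUnion (fun _ => ?_))
      exact measurableSet_le (by fun_prop) measurable_const
    have hBvol : volume B ≤ ENNReal.ofReal (4 * c) * cntB h⁻¹ P Bx :=
      drg_vol_union _ _ (fun z _ _ => drg_vol_Icc hαp hα2 hc0)
    -- the points of the configuration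
    have hmv1 : mv (h * tri α β) (1, 0) = mv h (α, 0) := by
      rw [mv_mul]
      congr 1
      ext <;> simp [mv, tri, hαp.ne']
    have hmvs : ∀ s : ℝ, mv (h * tri α β) (1, s) = mv h (α + s * β, s / α) := by
      intro s
      rw [mv_mul]
      congr 1
      ext
      · simp only [mv, tri, hαp.ne', ne_eq, not_false_eq_true, dite_true,
          Matrix.SpecialLinearGroup.coe_mk, Matrix.of_apply, Matrix.cons_val', Matrix.cons_val_zero,
          Matrix.cons_val_one, Matrix.cons_val_fin_one]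
        ring
      · simp only [mv, tri, hαp.ne', ne_eq, not_false_eq_true, dite_true,
          Matrix.SpecialLinearGroup.coe_mk, Matrix.of_apply, Matrix.cons_val', Matrix.cons_val_zero,
          Matrix.cons_val_one, Matrix.cons_val_fin_one]
        field_simp
        ring
    have hcmp := EE_compare (Λ := Λ) hS hα0 (h, P) (h * tri α β, P)
      (fun a b => tau a b (P + mv h (1, 0)) (P + mv h (α, 0)))
      (fun a b => tau_mem a b _ _) (fun _ _ => 1)
      (fun a b q₀ => by simp) B hBm (by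
        intro s hs0 hsS hsB a b q₀ hadm
        have hs' : 0 ≤ s / α := div_nonneg hs0 hαp.le
        have hs'2 : s / α ≤ S + 2 * S * δ := by
          rw [div_le_iff₀ hαp]
          have : (1 - δ) ≤ α := by linarith [hα'.1]
          have h3 : (S + 2 * S * δ) * (1 - δ) ≤ (S + 2 * S * δ) * α :=
            mul_le_mul_of_nonneg_left this (by positivity)
          have h4 : 0 ≤ S * δ * (1 - 2 * δ) := by
            apply mul_nonneg (by positivity); linarith
          nlinarith
        have hsβ : |s * β| ≤ S * δ := by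
          rw [abs_mul, abs_of_nonneg hs0]
          exact mul_le_mul hsS hβ (abs_nonneg _) hS.le
        have hsβ' := abs_le.1 hsβ
        have hSC : (1 + 2 * S) * δ ≤ C * δ := mul_le_mul_of_nonneg_right hC1 hδ0.le
        have hSδ0 : 0 ≤ S * δ := by positivity
        -- the four points in T
        have p1 : ((1 : ℝ), (0 : ℝ)) ∈ T := by
          refine ⟨⟨?_, ?_⟩, ⟨?_, ?_⟩⟩ <;> simp only <;> nlinarith
        have p2 : ((1 : ℝ), s / α) ∈ T := by
          refine ⟨⟨?_, ?_⟩, ⟨?_, ?_⟩⟩ <;> simp only <;> nlinarith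
        have p3 : (α + s * β, s / α) ∈ T := by
          refine ⟨⟨?_, ?_⟩, ⟨?_, ?_⟩⟩ <;> simp only <;> nlinarith [hsβ'.1, hsβ'.2, hα'.1, hα'.2]
        have p4 : (α, (0 : ℝ)) ∈ T := by
          refine ⟨⟨?_, ?_⟩, ⟨?_, ?_⟩⟩ <;> simp only <;> nlinarith [hα'.1, hα'.2]
        -- apex triangle
        have hapex : tau a b (P + mv h (1, s / α)) (P + mv h (α + s * β, s / α))
            (tau a b P (P + mv h (1, s / α)) q₀) =
              tau a b P (P + mv h (α + s * β, s / α)) q₀ := by
          refine apex_tri hadm ?_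
          intro z hz
          have himg : ({P, P + mv h (1, s / α), P + mv h (α + s * β, s / α)} : Set Pl) =
              (fun v => P + mv h v) '' {((0 : ℝ), (0 : ℝ)), (1, s / α), (α + s * β, s / α)} := by
            rw [Set.image_insert_eq, Set.image_insert_eq, Set.image_singleton]
            simp only [drg_mv_zero, add_zero]
          rw [himg] at hz
          have hz' := not_mem_hull_of_coord h P _ z hz
          have hzP : ZP z = P := by
            by_contra hne
            obtain ⟨g1, g2, g3, g4, g5⟩ := drg_tri_geom hS hs0 hsS hα hβ hδ0 hSδ hz'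
              (drg_mv_ne hne)
            apply hsB
            rw [hB]
            simp only [mem_iUnion]
            refine ⟨z, ⟨hne, ?_⟩, g5⟩
            exact ⟨⟨g1.le, g2⟩, ⟨by linarith, by linarith⟩⟩
          refine ⟨hzP, ?_⟩
          intro hseg
          have hseg' : ZP z ∈ convexHull ℝ
              ((fun v => P + mv h v) '' {((1 : ℝ), s / α), (α + s * β, s / α)}) := by
            rw [Set.image_pair, convexHull_pair, hzP]
            exact hseg
          have h5 := not_mem_hull_of_coord h P _ z hseg'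
          have h6 : convexHull ℝ {((1 : ℝ), s / α), (α + s * β, s / α)} ⊆ T := by
            refine convexHull_min ?_ hTconv
            intro w hw
            rcases hw with rfl | hw
            · exact p2
            · rw [Set.mem_singleton_iff] at hw
              rw [hw]; exact p3
          exact hnoT z (h6 h5)
        -- quadrilateral in T
        have hquad : tau a b (P + mv h (1, s / α)) (P + mv h (α + s * β, s / α)) *
            tau a b (P + mv h (1, 0)) (P + mv h (1, s / α)) =
            tau a b (P + mv h (α, 0)) (P + mv h (α + s * β, s / α)) *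
            tau a b (P + mv h (1, 0)) (P + mv h (α, 0)) := by
          refine tau_quad a b ?_
          intro z hz
          have himg : ({P + mv h (1, 0), P + mv h (1, s / α), P + mv h (α + s * β, s / α),
              P + mv h (α, 0)} : Set Pl) = (fun v => P + mv h v) ''
                {((1 : ℝ), (0 : ℝ)), (1, s / α), (α + s * β, s / α), (α, 0)} := by
            rw [Set.image_insert_eq, Set.image_insert_eq, Set.image_insert_eq,
              Set.image_singleton]
          rw [himg] at hz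
          have h5 := not_mem_hull_of_coord h P _ z hz
          have h6 : convexHull ℝ {((1 : ℝ), (0 : ℝ)), (1, s / α), (α + s * β, s / α), (α, 0)} ⊆
              T := by
            refine convexHull_min ?_ hTconv
            intro w hw
            simp only [Set.mem_insert_iff, Set.mem_singleton_iff] at hw
            rcases hw with rfl | rfl | rfl | rfl
            · exact p1
            · exact p2
            · exact p3
            · exact p4
          exact hnoT z (h6 h5)
        show (tau a b (P + mv (h * tri α β) (1, 0)) (P + mv (h * tri α β) (1, s)))⁻¹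
            (tau a b P (P + mv (h * tri α β) (1, s)) q₀) =
          tau a b (P + mv h (1, 0)) (P + mv h (α, 0))
            ((tau a b (P + mv h (1, 0)) (P + mv h (1, s / α)))⁻¹
              (tau a b P (P + mv h (1, s / α)) ((1 : Equiv.Perm Λ) q₀)))
        rw [hmv1, hmvs, ← hapex, Equiv.Perm.one_apply]
        set g := tau a b P (P + mv h (1, s / α)) q₀ with hg
        have hquad' : tau a b (P + mv h (1, s / α)) (P + mv h (α + s * β, s / α)) =
            tau a b (P + mv h (α, 0)) (P + mv h (α + s * β, s / α)) *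
            tau a b (P + mv h (1, 0)) (P + mv h (α, 0)) *
            (tau a b (P + mv h (1, 0)) (P + mv h (1, s / α)))⁻¹ := by
          rw [← hquad, mul_inv_cancel_right]
        rw [hquad', Equiv.Perm.mul_apply, Equiv.Perm.mul_apply]
        exact Equiv.symm_apply_apply (tau a b (P + mv h (α, 0)) _) _)
    -- conclusion
    by_cases hfin : cntB h⁻¹ P Bx = ∞
    · rw [hfin]
      have h7 : ENNReal.ofReal δ * (1 + ∞) = ∞ := by
        rw [add_top]
        exact ENNReal.mul_top (by simpa using hδ0)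
      rw [h7, add_top, ENNReal.mul_top (by simpa using hCp)]
      exact le_top
    · have hvt : (volume (B ∩ Icc 0 S)).toReal ≤ 4 * c * (cntB h⁻¹ P Bx).toReal := by
        have h8 : volume (B ∩ Icc 0 S) ≤ ENNReal.ofReal (4 * c) * cntB h⁻¹ P Bx :=
          (measure_mono inter_subset_left).trans hBvol
        have h9 := ENNReal.toReal_mono (ENNReal.mul_ne_top ENNReal.ofReal_ne_top hfin) h8
        rwa [ENNReal.toReal_mul, ENNReal.toReal_ofReal (by positivity)] at h9
      set n := (cntB h⁻¹ P Bx).toReal with hn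
      have hn0 : 0 ≤ n := ENNReal.toReal_nonneg
      have h10 : |EE Λ S (h * tri α β, P) - EE Λ S (h, P)| ≤ C * (δ * (1 + n)) := by
        refine hcmp.trans ?_
        rw [← hD]
        have h11 : (volume (B ∩ Icc 0 S)).toReal / S ≤ 16 * (1 + S) * δ * n := by
          rw [div_le_iff₀ hS]
          refine hvt.trans (le_of_eq ?_)
          rw [hcdef]; ring
        have h12 : 16 * D * (|α - 1| + (volume (B ∩ Icc 0 S)).toReal / S) ≤
            16 * D * (δ + 16 * (1 + S) * δ * n) :=
          mul_le_mul_of_nonneg_left (add_le_add hα h11) (by positivity)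
        refine h12.trans ?_
        have h13 : 16 * D * (δ + 16 * (1 + S) * δ * n) ≤ 256 * D * (1 + S) * (δ * (1 + n)) := by
          have e1 : 0 ≤ D * δ * S := by positivity
          have e2 : 0 ≤ D * δ := by positivity
          nlinarith
        refine h13.trans (mul_le_mul_of_nonneg_right (by linarith) (by positivity))
      calc ENNReal.ofReal |EE Λ S (h * tri α β, P) - EE Λ S (h, P)|
          ≤ ENNReal.ofReal (C * (δ * (1 + n))) := ENNReal.ofReal_le_ofReal h10
        _ = ENNReal.ofReal C * (ENNReal.ofReal δ * (1 + cntB h⁻¹ P Bx)) := by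
            rw [ENNReal.ofReal_mul hCp.le, ENNReal.ofReal_mul hδ0.le,
              ENNReal.ofReal_add zero_le_one hn0, ENNReal.ofReal_one, hn,
              ENNReal.ofReal_toReal hfin]
        _ ≤ _ := by
            gcongr
            exact le_add_self

end Pool.Agent.ILL
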