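import Pool.Agent.ILL.Drg
import Pool.Agent.ILL.Dfm

/-!
# DRH. Regularity of the energy along circles, fixed point `P`

From `reg0` and `first_moment_h` (see the end of the header of DRG): for given `ε > 0` choose `δ ≤ δ₀` with
`C (C_M (2Cδ)(S + 2Cδ) + δ(1 + 2 C_M (S+2))) ≤ ε`, then for `u` large the `lintegral` over `θ` of the bound is
at most `ε`. The interval integral of `|...|` is the `toReal` of the `lintegral` of `ofReal |...|` (bounded
measurable function of `θ`: `EE_measurable` composed with a continuous map).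
-/

open MeasureTheory Set Filter Topology
open scoped ENNReal NNReal

namespace Pool.Agent.ILL

/-- continuity of the curve of matrices -/
theorem continuous_rot : Continuous rot := by
  unfold rot
  refine Continuous.subtype_mk (continuous_matrix (fun i j => ?_)) _
  fin_cases i <;> fin_cases j <;>
    simp only [Fin.zero_eta, Fin.isValue, Fin.mk_one, Matrix.of_apply, Matrix.cons_val',
      Matrix.cons_val_zero, Matrix.cons_val_one, Matrix.cons_val_fin_one] <;> fun_prop

theorem continuous_dg : Continuous dg := by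
  unfold dg
  refine Continuous.subtype_mk (continuous_matrix (fun i j => ?_)) _
  fin_cases i <;> fin_cases j <;>
    simp only [Fin.zero_eta, Fin.isValue, Fin.mk_one, Matrix.of_apply, Matrix.cons_val',
      Matrix.cons_val_zero, Matrix.cons_val_one, Matrix.cons_val_fin_one] <;> fun_prop

private theorem drh_curve (M : SLR) (u : ℝ) : Continuous fun θ : ℝ => M * rot θ * dg u :=
  (continuous_const.mul continuous_rot).mul continuous_const

private theorem drh_cnt (M : SLR) (P : Pl) (u x₁ x₂ y₁ y₂ : ℝ) :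
    Measurable fun θ : ℝ => cntB (M * rot θ * dg u)⁻¹ P (Icc x₁ x₂ ×ˢ Icc y₁ y₂) := by
  classical
  unfold cntB
  refine Measurable.tsum (fun z => ?_)
  refine Measurable.ite ?_ measurable_const measurable_const
  by_cases hz : ZP z ≠ P
  · simp only [hz, ne_eq, not_false_eq_true, true_and]
    have h1 : Continuous fun θ : ℝ => mv (M * rot θ * dg u)⁻¹ (ZP z - P) :=
      continuous_mv.comp (Continuous.prodMk (drh_curve M u).inv continuous_const)
    exact h1.measurable (measurableSet_Icc.prod measurableSet_Icc)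
  · simp only [hz, false_and, ofPred_false, MeasurableSet.empty]

theorem reg_EE (Λ : Type) [Fintype Λ] [DecidableEq Λ] {S : ℝ} (hS : 0 < S) (M : SLR) (P : Pl) :
    Reg (EE Λ S) M P := by
  intro ε hε
  obtain ⟨C, hC, δ₀, hδ₀, hreg⟩ := reg0 Λ hS
  obtain ⟨CM, hCM, hmom⟩ := first_moment_h M P
  -- choice of δ
  obtain ⟨δ, hδ, hδδ₀, hδε⟩ : ∃ δ > 0, δ ≤ δ₀ ∧
      C * (CM * (2 * (C * δ)) * (S + 2 * (C * δ)) + δ * (1 + CM * 2 * (S + 2))) ≤ ε := by
    have hcont : Tendsto (fun δ : ℝ => C * (CM * (2 * (C * δ)) * (S + 2 * (C * δ)) +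
        δ * (1 + CM * 2 * (S + 2)))) (𝓝[>] 0) (𝓝 0) := by
      have h1 : Continuous (fun δ : ℝ => C * (CM * (2 * (C * δ)) * (S + 2 * (C * δ)) +
        δ * (1 + CM * 2 * (S + 2)))) := by fun_prop
      have h2 := h1.tendsto 0
      have h3 : C * (CM * (2 * (C * 0)) * (S + 2 * (C * 0)) + 0 * (1 + CM * 2 * (S + 2))) = 0 := by
        ring
      rw [h3] at h2
      exact h2.mono_left nhdsWithin_le_nhds
    have h4 := (hcont.eventually_le_const hε).and
      ((Ioc_mem_nhdsGT hδ₀ : Ioc 0 δ₀ ∈ 𝓝[>] (0 : ℝ)))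
    obtain ⟨δ, h5, h6⟩ := h4.exists
    exact ⟨δ, h6.1, h6.2, h5⟩
  refine ⟨δ, hδ, ?_⟩
  have hCδ : 0 < C * δ := mul_pos hC hδ
  have m1 := hmom (1 - C * δ) (1 + C * δ) (-(C * δ)) (S + C * δ) (by linarith) (by linarith)
  have m2 := hmom 0 2 (-1) (S + 1) (by norm_num) (by linarith)
  filter_upwards [m1, m2] with u h1 h2
  intro α β hα hβ
  rw [intervalIntegral.integral_of_le zero_le_one]
  have hmeas : Measurable fun θ : ℝ => |EE Λ S (M * rot θ * dg u * tri α β, P) -
      EE Λ S (M * rot θ * dg u, P)| := by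
    have e1 : Measurable fun θ : ℝ => EE Λ S (M * rot θ * dg u * tri α β, P) :=
      (EE_measurable S).comp
        ((((drh_curve M u).mul continuous_const).prodMk continuous_const).measurable)
    have e2 : Measurable fun θ : ℝ => EE Λ S (M * rot θ * dg u, P) :=
      (EE_measurable S).comp (((drh_curve M u).prodMk continuous_const).measurable)
    exact (e1.sub e2).abs
  rw [integral_eq_lintegral_of_nonneg_ae (Eventually.of_forall (fun θ => abs_nonneg _))
    hmeas.aestronglyMeasurable]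
  refine ENNReal.toReal_le_of_le_ofReal hε.le ?_
  calc ∫⁻ θ in Ioc (0 : ℝ) 1, ENNReal.ofReal |EE Λ S (M * rot θ * dg u * tri α β, P) -
        EE Λ S (M * rot θ * dg u, P)|
      ≤ ∫⁻ θ in Icc (0 : ℝ) 1, ENNReal.ofReal |EE Λ S (M * rot θ * dg u * tri α β, P) -
        EE Λ S (M * rot θ * dg u, P)| := lintegral_mono_set Ioc_subset_Icc_self
    _ ≤ ∫⁻ θ in Icc (0 : ℝ) 1, ENNReal.ofReal C *
        (cntB (M * rot θ * dg u)⁻¹ P (Icc (1 - C * δ) (1 + C * δ) ×ˢ Icc (-(C * δ)) (S + C * δ)) +
          ENNReal.ofReal δ *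
            (1 + cntB (M * rot θ * dg u)⁻¹ P (Icc 0 2 ×ˢ Icc (-1) (S + 1)))) :=
        lintegral_mono (fun θ => hreg δ hδ hδδ₀ α β hα hβ (M * rot θ * dg u) P)
    _ = ENNReal.ofReal C *
        ((∫⁻ θ in Icc (0 : ℝ) 1, cntB (M * rot θ * dg u)⁻¹ P
            (Icc (1 - C * δ) (1 + C * δ) ×ˢ Icc (-(C * δ)) (S + C * δ))) +
          ENNReal.ofReal δ * (1 + ∫⁻ θ in Icc (0 : ℝ) 1, cntB (M * rot θ * dg u)⁻¹ P
            (Icc 0 2 ×ˢ Icc (-1) (S + 1)))) := by
        rw [lintegral_const_mul' _ _ ENNReal.ofReal_ne_top, lintegral_add_left (drh_cnt M P u _ _ _ _),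
          lintegral_const_mul' _ _ ENNReal.ofReal_ne_top, lintegral_add_left measurable_const,
          setLIntegral_one, Real.volume_Icc, sub_zero, ENNReal.ofReal_one]
    _ ≤ ENNReal.ofReal C *
        (ENNReal.ofReal (CM * (1 + C * δ - (1 - C * δ)) * (S + C * δ - -(C * δ))) +
          ENNReal.ofReal δ * (1 + ENNReal.ofReal (CM * (2 - 0) * (S + 1 - -1)))) := by
        gcongr
    _ = ENNReal.ofReal (C * (CM * (2 * (C * δ)) * (S + 2 * (C * δ)) +
        δ * (1 + CM * 2 * (S + 2)))) := by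
        have g1 : (0 : ℝ) ≤ CM * (2 - 0) * (S + 1 - -1) := by
          have h' : (0 : ℝ) ≤ S + 1 - -1 := by linarith
          positivity
        have g2 : (0 : ℝ) ≤ CM * (1 + C * δ - (1 - C * δ)) * (S + C * δ - -(C * δ)) := by
          have h3 : (0 : ℝ) ≤ 1 + C * δ - (1 - C * δ) := by linarith
          have h4 : (0 : ℝ) ≤ S + C * δ - -(C * δ) := by linarith
          positivity
        rw [← ENNReal.ofReal_one, ← ENNReal.ofReal_add zero_le_one g1,
          ← ENNReal.ofReal_mul hδ.le, ← ENNReal.ofReal_add g2 (by positivity),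
          ← ENNReal.ofReal_mul hC.le]
        congr 1; ring
    _ ≤ ENNReal.ofReal ε := ENNReal.ofReal_le_ofReal hδε

end Pool.Agent.ILL
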