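import Pool.Agent.ILL.Lab
import Pool.Agent.ILL.Pol
import Pool.Agent.ILL.Apx

/-!
# DRI. Regularity of the energy when the point moves

`P` is not a lattice point, `x = (h,P)`, `x' = (h, P + mv h y)`, `|y.1|, |y.2| ≤ δ`, `P' = P + mv h y`. In the
coordinates of `h` relative to `P`: `P' = y`, `Q' = y + (1,0)`, `X'_s = y + (1,s)`. Boxes:
`T₁ = [1-δ, 1+δ] × [-δ, S+δ]`, `T₂ = [-2√δ, 2√δ] × [-1, S+1]`. If some lattice point `z ≠ P` has
`v = mv h⁻¹(z-P)` in `T₁ ∪ T₂` the estimate is trivial. Otherwise: `P'` is not a lattice point (it would have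
`v = y ∈ T₂`), both configurations have all labels admissible, transports inside `T₁` and inside `T₂` are
path independent. Exceptional set `B`: the `s` for which the quadrilateral `0, (1,s), y+(1,s), y` contains some
`v = mv h⁻¹ (z-P)`. Then `v = t(1,s) + λ y` with `t, λ ∈ [0,1]`, so `|v₁ - t| ≤ δ`, `|v₂ - t s| ≤ δ`,
`|v₂ - v₁ s| ≤ δ(1+S)`; `v ∉ T₂` and `v₁ ≥ -δ` give `v₁ ≥ 2√δ`, hence
`|s - v₂/v₁| ≤ √δ (1+S)/2`: measure at most `√δ (1+S)` per lattice point in `[0,2] × [-1,S+1]`.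
For `s ∉ B` the quadrilateral `P X_s X'_s P'` is lattice free:
`tau P' X'_s * tau P P' = tau X_s X'_s * tau P X_s` (`tau_quad`), so for the label `q₀` at `P'`, with
`τ = (tau P P')⁻¹`: `tau P' X'_s q₀ = tau X_s X'_s (tau P X_s (τ q₀))`, and inside `T₁`:
`(tau Q' X'_s)⁻¹ tau X_s X'_s = κ (tau Q X_s)⁻¹` with `κ = tau Q Q'`. So
`labS x' a b q₀ s = κ (labS x a b (τ q₀) s)`: `EE_compare` with `α = 1`.
-/

open MeasureTheory Set Filter Topology
open scoped ENNReal NNReal

namespace Pool.Agent.ILL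

private theorem dri_one_le_cntB {N : SLR} {P : Pl} {B : Set Pl} {z : ℤ × ℤ} (h1 : ZP z ≠ P)
    (h2 : mv N (ZP z - P) ∈ B) : 1 ≤ cntB N P B := by
  classical
  unfold cntB
  refine le_trans ?_ (ENNReal.le_tsum z)
  rw [if_pos ⟨h1, h2⟩]

private theorem dri_vol_union {N : SLR} {P : Pl} {Bx : Set Pl} (f : ℤ × ℤ → Set ℝ) (c : ℝ≥0∞)
    (hf : ∀ z, ZP z ≠ P → mv N (ZP z - P) ∈ Bx → volume (f z) ≤ c) :
    volume (⋃ z : ℤ × ℤ, ⋃ (_ : ZP z ≠ P ∧ mv N (ZP z - P) ∈ Bx), f z) ≤ c * cntB N P Bx := by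
  classical
  refine (measure_iUnion_le _).trans ?_
  unfold cntB
  rw [← ENNReal.tsum_mul_left]
  refine ENNReal.tsum_le_tsum (fun z => ?_)
  by_cases hz : ZP z ≠ P ∧ mv N (ZP z - P) ∈ Bx
  · rw [if_pos hz, mul_one]
    simp only [hz, ne_eq, not_false_eq_true, and_self, iUnion_true]
    exact hf z hz.1 hz.2
  · rw [if_neg hz]
    simp only [hz, iUnion_false, measure_empty, mul_zero, le_refl]

private theorem dri_mv_zero (h : SLR) : mv h (0, 0) = 0 := by
  ext <;> simp [mv]

private theorem dri_vol_Icc {r c : ℝ} :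
    volume {s : ℝ | |s - r| ≤ c} ≤ ENNReal.ofReal (2 * c) := by
  have h1 : {s : ℝ | |s - r| ≤ c} ⊆ Icc (r - c) (r + c) := by
    intro s hs
    have hs' := abs_le.1 (show |s - r| ≤ c from hs)
    constructor
    · linarith [hs'.1]
    · linarith [hs'.2]
  refine (measure_mono h1).trans ?_
  rw [Real.volume_Icc]
  apply ENNReal.ofReal_le_ofReal
  linarith

/-- points of a parallelogram -/
private theorem dri_par {w y v : Pl} (hv : v ∈ convexHull ℝ {((0 : ℝ), (0 : ℝ)), w, y + w, y}) :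
    ∃ t l : ℝ, 0 ≤ t ∧ t ≤ 1 ∧ 0 ≤ l ∧ l ≤ 1 ∧ v = t • w + l • y := by
  have hconv : Convex ℝ {v : Pl | ∃ t l : ℝ, 0 ≤ t ∧ t ≤ 1 ∧ 0 ≤ l ∧ l ≤ 1 ∧
      v = t • w + l • y} := by
    rintro v₁ ⟨t₁, l₁, a1, a2, a3, a4, rfl⟩ v₂ ⟨t₂, l₂, b1, b2, b3, b4, rfl⟩ p q hp hq hpq
    refine ⟨p * t₁ + q * t₂, p * l₁ + q * l₂, by positivity, by nlinarith, by positivity,
      by nlinarith, ?_⟩
    module
  have hsub : ({((0 : ℝ), (0 : ℝ)), w, y + w, y} : Set Pl) ⊆ {v : Pl | ∃ t l : ℝ, 0 ≤ t ∧ t ≤ 1 ∧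
      0 ≤ l ∧ l ≤ 1 ∧ v = t • w + l • y} := by
    intro v hv
    simp only [Set.mem_insert_iff, Set.mem_singleton_iff] at hv
    rcases hv with rfl | rfl | rfl | rfl
    · exact ⟨0, 0, le_rfl, zero_le_one, le_rfl, zero_le_one, by simp⟩
    · exact ⟨1, 0, zero_le_one, le_rfl, le_rfl, zero_le_one, by simp⟩
    · exact ⟨1, 1, zero_le_one, le_rfl, zero_le_one, le_rfl, by simp [add_comm]⟩
    · exact ⟨0, 1, le_rfl, zero_le_one, zero_le_one, le_rfl, by simp⟩
  exact convexHull_min hsub hconv hv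

theorem reg1 (Λ : Type) [Fintype Λ] [DecidableEq Λ] {S : ℝ} (hS : 0 < S) :
    ∃ C : ℝ, 0 < C ∧ ∃ δ₀ > 0, ∀ δ : ℝ, 0 < δ → δ ≤ δ₀ → ∀ y : Pl, |y.1| ≤ δ → |y.2| ≤ δ →
      ∀ (h : SLR) (P : Pl), (∀ z : ℤ × ℤ, ZP z ≠ P) →
      ENNReal.ofReal |EE Λ S (h, P + mv h y) - EE Λ S (h, P)| ≤
        ENNReal.ofReal C * (cntB h⁻¹ P (Icc (1 - C * δ) (1 + C * δ) ×ˢ Icc (-(C * δ)) (S + C * δ)) +
          cntB h⁻¹ P (Icc (-(2 * √δ)) (2 * √δ) ×ˢ Icc (-1) (S + 1)) +
          ENNReal.ofReal √δ * (1 + cntB h⁻¹ P (Icc 0 2 ×ˢ Icc (-1) (S + 1)))) := by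
  obtain ⟨D, hD⟩ : ∃ D : ℝ, D = Fintype.card (Lab Λ) := ⟨_, rfl⟩
  have hD0 : 0 ≤ D := by rw [hD]; exact Nat.cast_nonneg _
  obtain ⟨C, hC⟩ : ∃ C : ℝ, C = 1 + D + 16 * D * (1 + S) / S := ⟨_, rfl⟩
  have hDS : 0 ≤ 16 * D * (1 + S) / S := by positivity
  have hC1 : 1 ≤ C := by linarith
  have hCp : 0 < C := by linarith
  refine ⟨C, hCp, 1, one_pos, ?_⟩
  intro δ hδ0 hδ1 y hy1 hy2 h P hP
  have hsq : 0 < √δ := Real.sqrt_pos.2 hδ0
  have hsq2 : √δ * √δ = δ := Real.mul_self_sqrt hδ0.le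
  have hsq1 : √δ ≤ 1 := by
    rw [Real.sqrt_le_iff]; exact ⟨zero_le_one, by linarith⟩
  have hδsq : δ ≤ √δ := by nlinarith
  have hy1' := abs_le.1 hy1
  have hy2' := abs_le.1 hy2
  have hCδ : δ ≤ C * δ := by nlinarith
  set T₁ : Set Pl := Icc (1 - C * δ) (1 + C * δ) ×ˢ Icc (-(C * δ)) (S + C * δ) with hT₁
  set T₂ : Set Pl := Icc (-(2 * √δ)) (2 * √δ) ×ˢ Icc (-1) (S + 1) with hT₂
  set Bx : Set Pl := Icc 0 2 ×ˢ Icc (-1) (S + 1) with hBx
  by_cases hc : ∃ z, mv h⁻¹ (ZP z - P) ∈ T₁ ∪ T₂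
  · obtain ⟨z, hz2⟩ := hc
    have h1 : (1 : ℝ≥0∞) ≤ cntB h⁻¹ P T₁ + cntB h⁻¹ P T₂ := by
      rcases hz2 with hz2 | hz2
      · exact (dri_one_le_cntB (hP z) hz2).trans le_self_add
      · exact (dri_one_le_cntB (hP z) hz2).trans le_add_self
    have h2 : |EE Λ S (h, P + mv h y) - EE Λ S (h, P)| ≤ C := by
      rw [abs_le]
      have a1 := EE_nonneg (Λ := Λ) S (h, P + mv h y)
      have a2 := EE_nonneg (Λ := Λ) S (h, P)
      have a3 := EE_bound (Λ := Λ) hS (h, P + mv h y)
      have a4 := EE_bound (Λ := Λ) hS (h, P)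
      rw [← hD] at a3 a4
      constructor <;> linarith
    calc ENNReal.ofReal |EE Λ S (h, P + mv h y) - EE Λ S (h, P)| ≤ ENNReal.ofReal C :=
          ENNReal.ofReal_le_ofReal h2
      _ = ENNReal.ofReal C * 1 := (mul_one _).symm
      _ ≤ _ := by
          gcongr
          exact h1.trans le_self_add
  · push Not at hc
    have hnoT : ∀ z : ℤ × ℤ, mv h⁻¹ (ZP z - P) ∉ T₁ := fun z hz => hc z (Or.inl hz)
    have hnoT2 : ∀ z : ℤ × ℤ, mv h⁻¹ (ZP z - P) ∉ T₂ := fun z hz => hc z (Or.inr hz)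
    have hTconv : Convex ℝ T₁ := (convex_Icc _ _).prod (convex_Icc _ _)
    have hP' : ∀ z : ℤ × ℤ, ZP z ≠ P + mv h y := by
      intro z hz
      apply hnoT2 z
      rw [hz, add_sub_cancel_left, mv_inv_mv]
      refine ⟨⟨by linarith [hy1'.1], by linarith [hy1'.2]⟩, ⟨by linarith [hy2'.1],
        by linarith [hy2'.2]⟩⟩
    set c : ℝ := √δ * (1 + S) / 2 with hcdef
    have hc0 : 0 ≤ c := by positivity
    set B : Set ℝ := ⋃ z : ℤ × ℤ, ⋃ (_ : ZP z ≠ P ∧ mv h⁻¹ (ZP z - P) ∈ Bx),
      {s : ℝ | |s - (mv h⁻¹ (ZP z - P)).2 / (mv h⁻¹ (ZP z - P)).1| ≤ c} with hB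
    have hBm : MeasurableSet B := by
      refine MeasurableSet.iUnion (fun z => MeasurableSet.iUnion (fun _ => ?_))
      exact measurableSet_le (by fun_prop) measurable_const
    have hBvol : volume B ≤ ENNReal.ofReal (2 * c) * cntB h⁻¹ P Bx :=
      dri_vol_union _ _ (fun z _ _ => dri_vol_Icc)
    have hpt : ∀ w : Pl, P + mv h y + mv h w = P + mv h (y + w) := by
      intro w
      rw [mv_add, add_assoc]
    have hcmp := EE_compare (Λ := Λ) hS (by norm_num : (1 : ℝ) / 2 ≤ 1) (h, P) (h, P + mv h y)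
      (fun a b => tau a b (P + mv h (1, 0)) (P + mv h (y + (1, 0))))
      (fun a b => tau_mem a b _ _)
      (fun a b => (tau a b P (P + mv h y))⁻¹)
      (fun a b q₀ => ⟨fun _ => Or.inl hP, fun _ => Or.inl hP'⟩) B hBm (by
        intro s hs0 hsS hsB a b q₀ _
        -- the four points in T₁
        have p1 : ((1 : ℝ), (0 : ℝ)) ∈ T₁ := by
          refine ⟨⟨?_, ?_⟩, ⟨?_, ?_⟩⟩ <;> simp only <;> linarith
        have p2 : ((1 : ℝ), s) ∈ T₁ := by
          refine ⟨⟨?_, ?_⟩, ⟨?_, ?_⟩⟩ <;> simp only <;> linarith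
        have p3 : y + ((1 : ℝ), s) ∈ T₁ := by
          refine ⟨⟨?_, ?_⟩, ⟨?_, ?_⟩⟩ <;> simp only [Prod.fst_add, Prod.snd_add] <;>
            linarith [hy1'.1, hy1'.2, hy2'.1, hy2'.2]
        have p4 : y + ((1 : ℝ), (0 : ℝ)) ∈ T₁ := by
          refine ⟨⟨?_, ?_⟩, ⟨?_, ?_⟩⟩ <;> simp only [Prod.fst_add, Prod.snd_add] <;>
            linarith [hy1'.1, hy1'.2, hy2'.1, hy2'.2]
        have hquad1 : tau a b (P + mv h (1, s)) (P + mv h (y + (1, s))) *
            tau a b P (P + mv h (1, s)) =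
            tau a b (P + mv h y) (P + mv h (y + (1, s))) * tau a b P (P + mv h y) := by
          refine tau_quad a b ?_
          intro z hz
          have himg : ({P, P + mv h (1, s), P + mv h (y + (1, s)), P + mv h y} : Set Pl) =
              (fun v => P + mv h v) '' {((0 : ℝ), (0 : ℝ)), (1, s), y + (1, s), y} := by
            rw [Set.image_insert_eq, Set.image_insert_eq, Set.image_insert_eq,
              Set.image_singleton]
            simp only [dri_mv_zero, add_zero]
          rw [himg] at hz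
          have hz' := not_mem_hull_of_coord h P _ z hz
          obtain ⟨t, l, ht0, ht1, hl0, hl1, hv⟩ := dri_par hz'
          have hT2 := hnoT2 z
          set v := mv h⁻¹ (ZP z - P) with hvdef
          have hv1 : v.1 = t + l * y.1 := by rw [hv]; simp
          have hv2 : v.2 = t * s + l * y.2 := by rw [hv]; simp
          have e1 : |l * y.1| ≤ δ := by
            rw [abs_mul, abs_of_nonneg hl0]
            calc l * |y.1| ≤ 1 * δ := mul_le_mul hl1 hy1 (abs_nonneg _) zero_le_one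
              _ = δ := one_mul _
          have e2 : |l * y.2| ≤ δ := by
            rw [abs_mul, abs_of_nonneg hl0]
            calc l * |y.2| ≤ 1 * δ := mul_le_mul hl1 hy2 (abs_nonneg _) zero_le_one
              _ = δ := one_mul _
          have e1' := abs_le.1 e1
          have e2' := abs_le.1 e2
          have hts0 : 0 ≤ t * s := mul_nonneg ht0 hs0
          have htsS : t * s ≤ S := by nlinarith
          have hv2l : -1 ≤ v.2 := by rw [hv2]; linarith [e2'.1]
          have hv2u : v.2 ≤ S + 1 := by rw [hv2]; linarith [e2'.2]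
          have hv1l : -(2 * √δ) ≤ v.1 := by rw [hv1]; linarith [e1'.1]
          have hv1g : 2 * √δ < v.1 := by
            by_contra hcon
            push Not at hcon
            exact hT2 ⟨⟨hv1l, hcon⟩, ⟨hv2l, hv2u⟩⟩
          have hv1p : 0 < v.1 := by linarith
          apply hsB
          rw [hB]
          simp only [mem_iUnion]
          refine ⟨z, ⟨hP z, ?_⟩, ?_⟩
          · refine ⟨⟨hv1p.le, ?_⟩, ⟨hv2l, hv2u⟩⟩
            show v.1 ≤ 2
            rw [hv1]; linarith [e1'.2]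
          · show |s - v.2 / v.1| ≤ c
            have h3 : s - v.2 / v.1 = (s * (l * y.1) - l * y.2) / v.1 := by
              rw [eq_div_iff hv1p.ne', sub_mul, div_mul_cancel₀ _ hv1p.ne', hv1, hv2]
              ring
            rw [h3, abs_div, abs_of_pos hv1p, div_le_iff₀ hv1p]
            have h4 : |s * (l * y.1) - l * y.2| ≤ δ * (1 + S) := by
              refine (abs_sub _ _).trans ?_
              rw [abs_mul s, abs_of_nonneg hs0]
              have : s * |l * y.1| ≤ S * δ := mul_le_mul hsS e1 (abs_nonneg _) hS.le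
              linarith
            refine h4.trans ?_
            rw [hcdef]
            have h5 : √δ * (1 + S) / 2 * (2 * √δ) ≤ √δ * (1 + S) / 2 * v.1 :=
              mul_le_mul_of_nonneg_left hv1g.le hc0
            refine le_trans (le_of_eq ?_) h5
            nlinarith
        have hquad2 : tau a b (P + mv h (1, s)) (P + mv h (y + (1, s))) *
            tau a b (P + mv h (1, 0)) (P + mv h (1, s)) =
            tau a b (P + mv h (y + (1, 0))) (P + mv h (y + (1, s))) *
            tau a b (P + mv h (1, 0)) (P + mv h (y + (1, 0))) := by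
          refine tau_quad a b ?_
          intro z hz
          have himg : ({P + mv h (1, 0), P + mv h (1, s), P + mv h (y + (1, s)),
              P + mv h (y + (1, 0))} : Set Pl) = (fun v => P + mv h v) ''
                {((1 : ℝ), (0 : ℝ)), (1, s), y + (1, s), y + (1, 0)} := by
            rw [Set.image_insert_eq, Set.image_insert_eq, Set.image_insert_eq,
              Set.image_singleton]
          rw [himg] at hz
          have h5 := not_mem_hull_of_coord h P _ z hz
          have h6 : convexHull ℝ {((1 : ℝ), (0 : ℝ)), (1, s), y + (1, s), y + (1, 0)} ⊆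
              T₁ := by
            refine convexHull_min ?_ hTconv
            intro w hw
            simp only [Set.mem_insert_iff, Set.mem_singleton_iff] at hw
            rcases hw with rfl | rfl | rfl | rfl
            · exact p1
            · exact p2
            · exact p3
            · exact p4
          exact hnoT z (h6 h5)
        show (tau a b (P + mv h y + mv h (1, 0)) (P + mv h y + mv h (1, s)))⁻¹
            (tau a b (P + mv h y) (P + mv h y + mv h (1, s)) q₀) =
          tau a b (P + mv h (1, 0)) (P + mv h (y + (1, 0)))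
            ((tau a b (P + mv h (1, 0)) (P + mv h (1, s / 1)))⁻¹
              (tau a b P (P + mv h (1, s / 1)) ((tau a b P (P + mv h y))⁻¹ q₀)))
        rw [hpt, hpt, div_one]
        have k1 : tau a b (P + mv h y) (P + mv h (y + (1, s))) =
            tau a b (P + mv h (1, s)) (P + mv h (y + (1, s))) *
            tau a b P (P + mv h (1, s)) * (tau a b P (P + mv h y))⁻¹ := by
          rw [hquad1, mul_inv_cancel_right]
        have k2 : tau a b (P + mv h (1, s)) (P + mv h (y + (1, s))) =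
            tau a b (P + mv h (y + (1, 0))) (P + mv h (y + (1, s))) *
            tau a b (P + mv h (1, 0)) (P + mv h (y + (1, 0))) *
            (tau a b (P + mv h (1, 0)) (P + mv h (1, s)))⁻¹ := by
          rw [← hquad2, mul_inv_cancel_right]
        rw [k1, k2]
        simp only [Equiv.Perm.mul_apply]
        exact Equiv.symm_apply_apply (tau a b (P + mv h (y + (1, 0))) _) _)
    -- conclusion
    by_cases hfin : cntB h⁻¹ P Bx = ∞
    · rw [hfin]
      have h7 : ENNReal.ofReal √δ * (1 + ∞) = ∞ := by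
        rw [add_top]
        exact ENNReal.mul_top (by simpa using hsq)
      rw [h7, add_top, ENNReal.mul_top (by simpa using hCp)]
      exact le_top
    · have hvt : (volume (B ∩ Icc 0 S)).toReal ≤ 2 * c * (cntB h⁻¹ P Bx).toReal := by
        have h8 : volume (B ∩ Icc 0 S) ≤ ENNReal.ofReal (2 * c) * cntB h⁻¹ P Bx :=
          (measure_mono inter_subset_left).trans hBvol
        have h9 := ENNReal.toReal_mono (ENNReal.mul_ne_top ENNReal.ofReal_ne_top hfin) h8
        rwa [ENNReal.toReal_mul, ENNReal.toReal_ofReal (by positivity)] at h9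
      set n := (cntB h⁻¹ P Bx).toReal with hn
      have hn0 : 0 ≤ n := ENNReal.toReal_nonneg
      have h10 : |EE Λ S (h, P + mv h y) - EE Λ S (h, P)| ≤ C * (√δ * (1 + n)) := by
        refine hcmp.trans ?_
        rw [← hD, sub_self, abs_zero, zero_add]
        have h11 : 16 * D * ((volume (B ∩ Icc 0 S)).toReal / S) ≤ 16 * D * (2 * c * n / S) := by
          gcongr
        refine h11.trans ?_
        have h12 : 16 * D * (2 * c * n / S) = 16 * D * (1 + S) / S * (√δ * n) := by
          rw [hcdef]; ring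
        rw [h12]
        refine mul_le_mul (by linarith) ?_ (by positivity) hCp.le
        nlinarith
      calc ENNReal.ofReal |EE Λ S (h, P + mv h y) - EE Λ S (h, P)|
          ≤ ENNReal.ofReal (C * (√δ * (1 + n))) := ENNReal.ofReal_le_ofReal h10
        _ = ENNReal.ofReal C * (ENNReal.ofReal √δ * (1 + cntB h⁻¹ P Bx)) := by
            rw [ENNReal.ofReal_mul hCp.le, ENNReal.ofReal_mul hsq.le,
              ENNReal.ofReal_add zero_le_one hn0, ENNReal.ofReal_one, hn,
              ENNReal.ofReal_toReal hfin]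
        _ ≤ _ := by
            gcongr
            exact le_add_self

end Pool.Agent.ILL
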