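import Pool.Agent.ILL.Drh
import Pool.Agent.ILL.Dri

/-!
# DRJ. Regularity along circles with a displacement of the point

With `h' = h tri α β`, `h = M rot θ dg u`:
`|EE(h', P + mv h' y) - EE(h,P)| ≤ |EE(h', P + mv h' y) - EE(h',P)| + |EE(h',P) - EE(h,P)|`. The first is
bounded by `reg1` at `h'`; `cntB h'⁻¹ P Box ≤ cntB h⁻¹ P Box'` because
`mv h'⁻¹ v = mv (tri α β)⁻¹ (mv h⁻¹ v)` and `tri α β` moves the points of a bounded box by at most
`C δ`: `mv h⁻¹ v = mv (tri α β) (mv h'⁻¹ v) ∈ tri α β (Box) ⊆ Box'` (enlarged by `Cδ` in each direction). The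
second by `reg0`. Then `first_moment_h` for the enlarged boxes, whose areas tend to `0` with `δ` (except the
big box, which comes with the factor `√δ` or `δ`).
-/

open MeasureTheory Set Filter Topology
open scoped ENNReal NNReal

namespace Pool.Agent.ILL

private theorem drj_curve (M : SLR) (u : ℝ) : Continuous fun θ : ℝ => M * rot θ * dg u :=
  (continuous_const.mul continuous_rot).mul continuous_const

private theorem drj_cnt (M : SLR) (P : Pl) (u x₁ x₂ y₁ y₂ : ℝ) :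
    Measurable fun θ : ℝ => cntB (M * rot θ * dg u)⁻¹ P (Icc x₁ x₂ ×ˢ Icc y₁ y₂) := by
  classical
  unfold cntB
  refine Measurable.tsum (fun z => ?_)
  refine Measurable.ite ?_ measurable_const measurable_const
  by_cases hz : ZP z ≠ P
  · simp only [hz, ne_eq, not_false_eq_true, true_and]
    have h1 : Continuous fun θ : ℝ => mv (M * rot θ * dg u)⁻¹ (ZP z - P) :=
      continuous_mv.comp (Continuous.prodMk (drj_curve M u).inv continuous_const)
    exact h1.measurable (measurableSet_Icc.prod measurableSet_Icc)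
  · simp only [hz, false_and, ofPred_false, MeasurableSet.empty]

/-- change of the box under a triangular matrix -/
private theorem drj_box {h t : SLR} {P : Pl} {B B' : Set Pl} (hB : ∀ v ∈ B, mv t v ∈ B') :
    cntB (h * t)⁻¹ P B ≤ cntB h⁻¹ P B' := by
  classical
  unfold cntB
  refine ENNReal.tsum_le_tsum (fun z => ?_)
  by_cases hz : ZP z ≠ P ∧ mv (h * t)⁻¹ (ZP z - P) ∈ B
  · have h1 : mv h⁻¹ (ZP z - P) ∈ B' := by
      have h2 := hB _ hz.2
      rwa [← mv_mul, mul_inv_rev, mul_inv_cancel_left] at h2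
    rw [if_pos hz, if_pos ⟨hz.1, h1⟩]
  · rw [if_neg hz]
    exact zero_le

private theorem drj_tri {α β δ S x₁ x₂ y₁ y₂ : ℝ} (hS : 0 < S) (hδ0 : 0 < δ) (hδ1 : δ ≤ 1 / 2)
    (hα : |α - 1| ≤ δ) (hβ : |β| ≤ δ) (hx1 : -2 ≤ x₁) (hx2 : x₂ ≤ 2)
    (hy1 : -(S + 1) ≤ y₁) (hy2 : y₂ ≤ S + 1) :
    ∀ v ∈ (Icc x₁ x₂ ×ˢ Icc y₁ y₂ : Set Pl), mv (tri α β) v ∈
      (Icc (x₁ - (2 * S + 6) * δ) (x₂ + (2 * S + 6) * δ) ×ˢ
        Icc (y₁ - (2 * S + 6) * δ) (y₂ + (2 * S + 6) * δ) : Set Pl) := by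
  rintro ⟨x, y⟩ ⟨⟨hx, hx'⟩, ⟨hy, hy'⟩⟩
  simp only at hx hx' hy hy'
  have hα' := abs_le.1 hα
  have hα0 : (1 : ℝ) / 2 ≤ α := by linarith [hα'.1]
  have hαp : 0 < α := by linarith
  have hmv : mv (tri α β) (x, y) = (α * x + β * y, y / α) := by
    ext
    · simp [mv, tri, hαp.ne']
    · simp only [mv, tri, hαp.ne', ne_eq, not_false_eq_true, dite_true,
        Matrix.SpecialLinearGroup.coe_mk, Matrix.of_apply, Matrix.cons_val', Matrix.cons_val_zero,
        Matrix.cons_val_one, Matrix.cons_val_fin_one]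
      field_simp
      ring
  rw [hmv]
  have hxa : |x| ≤ 2 := abs_le.2 ⟨by linarith, by linarith⟩
  have hya : |y| ≤ S + 1 := abs_le.2 ⟨by linarith, by linarith⟩
  have e1 : |α * x + β * y - x| ≤ δ * 2 + δ * (S + 1) := by
    have : α * x + β * y - x = (α - 1) * x + β * y := by ring
    rw [this]
    refine (abs_add_le _ _).trans (add_le_add ?_ ?_)
    · rw [abs_mul]; exact mul_le_mul hα hxa (abs_nonneg _) hδ0.le
    · rw [abs_mul]; exact mul_le_mul hβ hya (abs_nonneg _) hδ0.le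
  have e2 : |y / α - y| ≤ 2 * (δ * (S + 1)) := by
    have : y / α - y = (-(α - 1)) * y / α := by field_simp; ring
    rw [this, abs_div, abs_mul, abs_neg, abs_of_pos hαp, div_le_iff₀ hαp]
    have h3 : |α - 1| * |y| ≤ δ * (S + 1) := mul_le_mul hα hya (abs_nonneg _) hδ0.le
    have h4 : 0 ≤ δ * (S + 1) := by positivity
    nlinarith
  have e1' := abs_le.1 e1
  have e2' := abs_le.1 e2
  have hp : 0 < S * δ := by positivity
  refine ⟨⟨?_, ?_⟩, ⟨?_, ?_⟩⟩ <;> simp only <;> nlinarith [e1'.1, e1'.2, e2'.1, e2'.2]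

private theorem drj_lint (c1 c0 r d : ℝ≥0∞) {cA cB cC cD cE : ℝ → ℝ≥0∞} (hA : Measurable cA)
    (hB : Measurable cB) (hC : Measurable cC) (hD : Measurable cD) (hE : Measurable cE) :
    ∫⁻ θ in Icc (0 : ℝ) 1, (c1 * (cA θ + cB θ + r * (1 + cC θ)) + c0 * (cD θ + d * (1 + cE θ))) =
      c1 * ((∫⁻ θ in Icc (0 : ℝ) 1, cA θ) + (∫⁻ θ in Icc (0 : ℝ) 1, cB θ) +
        r * (1 + ∫⁻ θ in Icc (0 : ℝ) 1, cC θ)) +
      c0 * ((∫⁻ θ in Icc (0 : ℝ) 1, cD θ) + d * (1 + ∫⁻ θ in Icc (0 : ℝ) 1, cE θ)) := by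
  have h1 : ∫⁻ _ in Icc (0 : ℝ) 1, (1 : ℝ≥0∞) = 1 := by
    rw [setLIntegral_one, Real.volume_Icc, sub_zero, ENNReal.ofReal_one]
  have mC : Measurable fun θ => 1 + cC θ := measurable_const.add hC
  have mE : Measurable fun θ => 1 + cE θ := measurable_const.add hE
  have mAB : Measurable fun θ => cA θ + cB θ := hA.add hB
  have mABC : Measurable fun θ => cA θ + cB θ + r * (1 + cC θ) := mAB.add (mC.const_mul r)
  have mDE : Measurable fun θ => cD θ + d * (1 + cE θ) := hD.add (mE.const_mul d)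
  rw [lintegral_add_left (mABC.const_mul c1), lintegral_const_mul _ mABC,
    lintegral_const_mul _ mDE, lintegral_add_left mAB, lintegral_add_left hA,
    lintegral_const_mul _ mC, lintegral_add_left measurable_const, lintegral_add_left hD,
    lintegral_const_mul _ mE, lintegral_add_left measurable_const, h1]

private theorem drj_real {C1 C0 r d a b c e f : ℝ} (h1 : 0 ≤ C1) (h0 : 0 ≤ C0) (hr : 0 ≤ r)
    (hd : 0 ≤ d) (ha : 0 ≤ a) (hb : 0 ≤ b) (hc : 0 ≤ c) (he : 0 ≤ e) (hf : 0 ≤ f) :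
    ENNReal.ofReal C1 * (ENNReal.ofReal a + ENNReal.ofReal b +
        ENNReal.ofReal r * (1 + ENNReal.ofReal c)) +
      ENNReal.ofReal C0 * (ENNReal.ofReal e + ENNReal.ofReal d * (1 + ENNReal.ofReal f)) =
    ENNReal.ofReal (C1 * (a + b + r * (1 + c)) + C0 * (e + d * (1 + f))) := by
  rw [ENNReal.ofReal_add (by positivity) (by positivity), ENNReal.ofReal_mul h1,
    ENNReal.ofReal_mul h0, ENNReal.ofReal_add (by positivity) (by positivity),
    ENNReal.ofReal_add ha hb, ENNReal.ofReal_mul hr, ENNReal.ofReal_add zero_le_one hc,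
    ENNReal.ofReal_add he (by positivity), ENNReal.ofReal_mul hd,
    ENNReal.ofReal_add zero_le_one hf, ENNReal.ofReal_one]

theorem reg2_EE (Λ : Type) [Fintype Λ] [DecidableEq Λ] {S : ℝ} (hS : 0 < S) (M : SLR) {P : Pl}
    (hP : ∀ z : ℤ × ℤ, ZP z ≠ P) : Reg2 (EE Λ S) M P := by
  intro ε hε
  obtain ⟨C₀, hC₀, δ₀, hδ₀, hreg0⟩ := reg0 Λ hS
  obtain ⟨C₁, hC₁, δ₁, hδ₁, hreg1⟩ := reg1 Λ hS
  obtain ⟨CM, hCM, hmom⟩ := first_moment_h M P
  obtain ⟨K, hK⟩ : ∃ K : ℝ, K = 2 * S + 6 := ⟨_, rfl⟩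
  have hKp : 0 < K := by rw [hK]; positivity
  -- the total bound
  set Φ : ℝ → ℝ := fun δ =>
    C₁ * (CM * (2 * (C₁ * δ + K * δ)) * (S + 2 * (C₁ * δ + K * δ)) +
      CM * (4 * √δ + 2 * (K * δ)) * (S + 2 + 2 * (K * δ)) +
      √δ * (1 + CM * (2 + 2 * (K * δ)) * (S + 2 + 2 * (K * δ)))) +
    C₀ * (CM * (2 * (C₀ * δ)) * (S + 2 * (C₀ * δ)) + δ * (1 + CM * 2 * (S + 2))) with hΦ
  obtain ⟨δ, hδ, hδδ₀, hδδ₁, hδh, hδC, hδε⟩ : ∃ δ > 0, δ ≤ δ₀ ∧ δ ≤ δ₁ ∧ δ ≤ 1 / 2 ∧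
      δ ≤ 1 / C₁ ∧ Φ δ ≤ ε := by
    have hcont : Tendsto Φ (𝓝[>] 0) (𝓝 0) := by
      have h1 : Continuous Φ := by
        rw [hΦ]; fun_prop
      have h2 := h1.tendsto 0
      have h3 : Φ 0 = 0 := by
        simp only [hΦ, Real.sqrt_zero]; ring
      rw [h3] at h2
      exact h2.mono_left nhdsWithin_le_nhds
    have hmin : 0 < min (min δ₀ δ₁) (min (1 / 2) (1 / C₁)) := by
      refine lt_min (lt_min hδ₀ hδ₁) (lt_min (by norm_num) (by positivity))
    have h4 := (hcont.eventually_le_const hε).and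
      ((Ioc_mem_nhdsGT hmin : Ioc 0 _ ∈ 𝓝[>] (0 : ℝ)))
    obtain ⟨δ, h5, h6⟩ := h4.exists
    have h7 := le_min_iff.1 h6.2
    have h8 := le_min_iff.1 h7.1
    have h9 := le_min_iff.1 h7.2
    exact ⟨δ, h6.1, h8.1, h8.2, h9.1, h9.2, h5⟩
  refine ⟨δ, hδ, ?_⟩
  have hC0δ : 0 < C₀ * δ := mul_pos hC₀ hδ
  have hC1δ : 0 < C₁ * δ := mul_pos hC₁ hδ
  have hC1δ1 : C₁ * δ ≤ 1 := by
    rw [le_div_iff₀ hC₁] at hδC
    linarith
  have hKδ : 0 < K * δ := mul_pos hKp hδ
  have hsq : 0 < √δ := Real.sqrt_pos.2 hδ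
  have hsq1 : √δ ≤ 1 := by
    rw [Real.sqrt_le_iff]; exact ⟨zero_le_one, by linarith⟩
  have m1 := hmom (1 - C₁ * δ - K * δ) (1 + C₁ * δ + K * δ) (-(C₁ * δ) - K * δ)
    (S + C₁ * δ + K * δ) (by linarith) (by linarith)
  have m2 := hmom (-(2 * √δ) - K * δ) (2 * √δ + K * δ) (-1 - K * δ) (S + 1 + K * δ)
    (by linarith) (by linarith)
  have m3 := hmom (0 - K * δ) (2 + K * δ) (-1 - K * δ) (S + 1 + K * δ)
    (by linarith) (by linarith)
  have m4 := hmom (1 - C₀ * δ) (1 + C₀ * δ) (-(C₀ * δ)) (S + C₀ * δ) (by linarith) (by linarith)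
  have m5 := hmom 0 2 (-1) (S + 1) (by norm_num) (by linarith)
  filter_upwards [m1, m2, m3, m4, m5] with u n1 n2 n3 n4 n5
  intro α β y hα hβ hy1 hy2
  rw [intervalIntegral.integral_of_le zero_le_one]
  have hmeas : Measurable fun θ : ℝ => |EE Λ S (M * rot θ * dg u * tri α β,
      P + mv (M * rot θ * dg u * tri α β) y) - EE Λ S (M * rot θ * dg u, P)| := by
    have hc1 : Continuous fun θ : ℝ => M * rot θ * dg u * tri α β :=
      (drj_curve M u).mul continuous_const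
    have hc2 : Continuous fun θ : ℝ => P + mv (M * rot θ * dg u * tri α β) y :=
      continuous_const.add (continuous_mv.comp (hc1.prodMk continuous_const))
    have e1 : Measurable fun θ : ℝ => EE Λ S (M * rot θ * dg u * tri α β,
        P + mv (M * rot θ * dg u * tri α β) y) :=
      (EE_measurable S).comp ((hc1.prodMk hc2).measurable)
    have e2 : Measurable fun θ : ℝ => EE Λ S (M * rot θ * dg u, P) :=
      (EE_measurable S).comp (((drj_curve M u).prodMk continuous_const).measurable)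
    exact (e1.sub e2).abs
  rw [integral_eq_lintegral_of_nonneg_ae (Eventually.of_forall (fun θ => abs_nonneg _))
    hmeas.aestronglyMeasurable]
  refine ENNReal.toReal_le_of_le_ofReal hε.le ?_
  calc ∫⁻ θ in Ioc (0 : ℝ) 1, ENNReal.ofReal |EE Λ S (M * rot θ * dg u * tri α β,
        P + mv (M * rot θ * dg u * tri α β) y) - EE Λ S (M * rot θ * dg u, P)|
      ≤ ∫⁻ θ in Icc (0 : ℝ) 1, ENNReal.ofReal |EE Λ S (M * rot θ * dg u * tri α β,
        P + mv (M * rot θ * dg u * tri α β) y) - EE Λ S (M * rot θ * dg u, P)| :=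
        lintegral_mono_set Ioc_subset_Icc_self
    _ ≤ ∫⁻ θ in Icc (0 : ℝ) 1, (ENNReal.ofReal C₁ *
        (cntB (M * rot θ * dg u)⁻¹ P (Icc (1 - C₁ * δ - K * δ) (1 + C₁ * δ + K * δ) ×ˢ
            Icc (-(C₁ * δ) - K * δ) (S + C₁ * δ + K * δ)) +
          cntB (M * rot θ * dg u)⁻¹ P (Icc (-(2 * √δ) - K * δ) (2 * √δ + K * δ) ×ˢ
            Icc (-1 - K * δ) (S + 1 + K * δ)) +
          ENNReal.ofReal √δ *
            (1 + cntB (M * rot θ * dg u)⁻¹ P (Icc (0 - K * δ) (2 + K * δ) ×ˢ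
              Icc (-1 - K * δ) (S + 1 + K * δ)))) +
        ENNReal.ofReal C₀ *
        (cntB (M * rot θ * dg u)⁻¹ P (Icc (1 - C₀ * δ) (1 + C₀ * δ) ×ˢ
            Icc (-(C₀ * δ)) (S + C₀ * δ)) +
          ENNReal.ofReal δ *
            (1 + cntB (M * rot θ * dg u)⁻¹ P (Icc 0 2 ×ˢ Icc (-1) (S + 1))))) := by
        refine lintegral_mono (fun θ => ?_)
        have s1 := hreg1 δ hδ hδδ₁ y hy1 hy2 (M * rot θ * dg u * tri α β) P hP
        have s0 := hreg0 δ hδ hδδ₀ α β hα hβ (M * rot θ * dg u) P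
        have s2 : ENNReal.ofReal |EE Λ S (M * rot θ * dg u * tri α β,
            P + mv (M * rot θ * dg u * tri α β) y) - EE Λ S (M * rot θ * dg u, P)| ≤
            ENNReal.ofReal |EE Λ S (M * rot θ * dg u * tri α β,
            P + mv (M * rot θ * dg u * tri α β) y) - EE Λ S (M * rot θ * dg u * tri α β, P)| +
            ENNReal.ofReal |EE Λ S (M * rot θ * dg u * tri α β, P) -
              EE Λ S (M * rot θ * dg u, P)| := by
          rw [← ENNReal.ofReal_add (abs_nonneg _) (abs_nonneg _)]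
          exact ENNReal.ofReal_le_ofReal (abs_sub_le _ _ _)
        refine s2.trans (add_le_add (s1.trans ?_) s0)
        have b1 := drj_box (h := M * rot θ * dg u) (P := P)
          (drj_tri (x₁ := 1 - C₁ * δ) (x₂ := 1 + C₁ * δ) (y₁ := -(C₁ * δ)) (y₂ := S + C₁ * δ)
            hS hδ hδh hα hβ (by linarith) (by linarith) (by linarith) (by linarith))
        have b2 := drj_box (h := M * rot θ * dg u) (P := P)
          (drj_tri (x₁ := -(2 * √δ)) (x₂ := 2 * √δ) (y₁ := -1) (y₂ := S + 1)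
            hS hδ hδh hα hβ (by linarith) (by linarith) (by linarith) (by linarith))
        have b3 := drj_box (h := M * rot θ * dg u) (P := P)
          (drj_tri (x₁ := 0) (x₂ := 2) (y₁ := -1) (y₂ := S + 1)
            hS hδ hδh hα hβ (by linarith) (by linarith) (by linarith) (by linarith))
        rw [← hK] at b1 b2 b3
        gcongr
    _ = _ := drj_lint _ _ _ _ (drj_cnt M P u _ _ _ _) (drj_cnt M P u _ _ _ _)
        (drj_cnt M P u _ _ _ _) (drj_cnt M P u _ _ _ _) (drj_cnt M P u _ _ _ _)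
    _ ≤ ENNReal.ofReal C₁ * (ENNReal.ofReal (CM * (1 + C₁ * δ + K * δ - (1 - C₁ * δ - K * δ)) *
            (S + C₁ * δ + K * δ - (-(C₁ * δ) - K * δ))) +
          ENNReal.ofReal (CM * (2 * √δ + K * δ - (-(2 * √δ) - K * δ)) *
            (S + 1 + K * δ - (-1 - K * δ))) +
          ENNReal.ofReal √δ * (1 + ENNReal.ofReal (CM * (2 + K * δ - (0 - K * δ)) *
            (S + 1 + K * δ - (-1 - K * δ))))) +
        ENNReal.ofReal C₀ * (ENNReal.ofReal (CM * (1 + C₀ * δ - (1 - C₀ * δ)) *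
            (S + C₀ * δ - -(C₀ * δ))) +
          ENNReal.ofReal δ * (1 + ENNReal.ofReal (CM * (2 - 0) * (S + 1 - -1)))) := by
        gcongr
    _ = ENNReal.ofReal (Φ δ) := by
        have z1 : (0 : ℝ) ≤ 1 + C₁ * δ + K * δ - (1 - C₁ * δ - K * δ) := by linarith
        have z2 : (0 : ℝ) ≤ S + C₁ * δ + K * δ - (-(C₁ * δ) - K * δ) := by linarith
        have z3 : (0 : ℝ) ≤ 2 * √δ + K * δ - (-(2 * √δ) - K * δ) := by linarith
        have z4 : (0 : ℝ) ≤ S + 1 + K * δ - (-1 - K * δ) := by linarith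
        have z5 : (0 : ℝ) ≤ 2 + K * δ - (0 - K * δ) := by linarith
        have z6 : (0 : ℝ) ≤ 1 + C₀ * δ - (1 - C₀ * δ) := by linarith
        have z7 : (0 : ℝ) ≤ S + C₀ * δ - -(C₀ * δ) := by linarith
        have z8 : (0 : ℝ) ≤ S + 1 - -1 := by linarith
        rw [drj_real hC₁.le hC₀.le hsq.le hδ.le (by positivity) (by positivity) (by positivity)
          (by positivity) (mul_nonneg (by positivity) z8)]
        congr 1
        simp only [hΦ]
        ring
    _ ≤ ENNReal.ofReal ε := ENNReal.ofReal_le_ofReal hδε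

end Pool.Agent.ILL
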