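import Pool.Agent.ILL.MgC

/-!
# DTH. Polar coordinates and thickening

`thick`: `cmat ζ x = rot θ * tri α (α x)` for `ζ = α (cos 2πθ, sin 2πθ)`, `α > 0`; `Rg δ` is the set of
`cmat ζ x` with `1 ≤ |ζ| ≤ 1+δ`, `0 ≤ x ≤ δ`. `muG_coord` (for nonnegative functions, then for bounded real
functions) and polar coordinates `dζ = α dα dφ`, `φ = 2πθ` (`integral_comp_polarCoord_symm`,
`lintegral_comp_polarCoord_symm`; the interval `(-π,π)` for the angle may be shifted by periodicity).
`Rg_pos`: the value for `F = 1` is `(1/2) δ π ((1+δ)² - 1)`.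

`tri_dg`: `tri α β * dg u = dg u * tri α (β e^{-2u})`.
`thick_compare`: for `u ≥ 0` and `0 < δ' ≤ δ/2`, `δ ≤ 1`: all the matrices `tri α (α x e^{-2u})`,
`1 ≤ α ≤ 1+δ'`, `0 ≤ x ≤ δ'` satisfy `|α - 1| ≤ δ`, `|β| ≤ δ`. By `thick` applied to `p ↦ f (M p dg u, P)`,
the average over `Rg δ'` is the average over `(x, α)` with the weight `2πα` of
`∫_θ f(M rot θ dg u tri α β, P)`, and each of these inner integrals differs by at most `ε` from
`∫_θ f(M rot θ dg u, P)`.
-/

open MeasureTheory Set Filter Topology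
open scoped ENNReal NNReal

namespace Pool.Agent.ILL

private theorem tri_eq {α : ℝ} (hα : α ≠ 0) (β : ℝ) :
    ((tri α β : SLR) : Matrix (Fin 2) (Fin 2) ℝ) = !![α, β; 0, α⁻¹] := by
  exact congrArg Subtype.val (dif_pos hα)

private theorem cmat_eq {ζ : Pl} (h : ζ.1 ^ 2 + ζ.2 ^ 2 ≠ 0) (x : ℝ) :
    ((cmat ζ x : SLR) : Matrix (Fin 2) (Fin 2) ℝ) = !![ζ.1, x * ζ.1 - ζ.2 / (ζ.1 ^ 2 + ζ.2 ^ 2);
      ζ.2, x * ζ.2 + ζ.1 / (ζ.1 ^ 2 + ζ.2 ^ 2)] := by
  exact congrArg Subtype.val (dif_pos h)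

theorem tri_dg {α : ℝ} (hα : α ≠ 0) (β u : ℝ) :
    tri α β * dg u = dg u * tri α (β * Real.exp (-2 * u)) := by
  have h1 : Real.exp u * Real.exp (-(2 * u)) = Real.exp (-u) := by rw [← Real.exp_add]; ring_nf
  apply Subtype.ext
  have e1 : ((tri α β * dg u : SLR) : Matrix (Fin 2) (Fin 2) ℝ) =
      ((dg u * tri α (β * Real.exp (-2 * u)) : SLR) : Matrix (Fin 2) (Fin 2) ℝ) := by
    rw [Matrix.SpecialLinearGroup.coe_mul, Matrix.SpecialLinearGroup.coe_mul, tri_eq hα, tri_eq hα]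
    simp only [dg]
    ext i j
    fin_cases i <;> fin_cases j
    · simp [Matrix.mul_apply, Fin.sum_univ_two]
      ring
    · simp [Matrix.mul_apply, Fin.sum_univ_two]
      linear_combination -β * h1
    · simp [Matrix.mul_apply, Fin.sum_univ_two]
    · simp [Matrix.mul_apply, Fin.sum_univ_two]
      ring
  exact e1

private theorem cont_entry (i j : Fin 2) : Continuous fun p : SLR => (p i j : ℝ) :=
  (continuous_apply j).comp ((continuous_apply i).comp continuous_subtype_val)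

private theorem isClosed_Rg (δ : ℝ) : IsClosed (Rg δ) := by
  have h := cont_entry
  have e : Rg δ = {p : SLR | 1 ≤ p 0 0 ^ 2 + p 1 0 ^ 2} ∩ {p : SLR | p 0 0 ^ 2 + p 1 0 ^ 2 ≤ (1 + δ) ^ 2} ∩
    {p : SLR | 0 ≤ p 0 0 * p 0 1 + p 1 0 * p 1 1} ∩
    {p : SLR | p 0 0 * p 0 1 + p 1 0 * p 1 1 ≤ δ * (p 0 0 ^ 2 + p 1 0 ^ 2)} := by
    ext p
    simp only [Rg, mem_inter_iff, Set.mem_ofPred_eq, and_assoc]
  rw [e]
  have c1 : Continuous fun p : SLR => p 0 0 ^ 2 + p 1 0 ^ 2 := ((h 0 0).pow 2).add ((h 1 0).pow 2)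
  have c2 : Continuous fun p : SLR => p 0 0 * p 0 1 + p 1 0 * p 1 1 :=
    ((h 0 0).mul (h 0 1)).add ((h 1 0).mul (h 1 1))
  exact (((isClosed_le continuous_const c1).inter (isClosed_le c1 continuous_const)).inter
    (isClosed_le continuous_const c2)).inter (isClosed_le c2 (continuous_const.mul c1))

theorem measurableSet_Rg (δ : ℝ) : MeasurableSet (Rg δ) := (isClosed_Rg δ).measurableSet

/-- `Rg δ` is compact -/
theorem Rg_compact (δ : ℝ) : IsCompact (Rg δ) := by
  set R : ℝ := (1 + δ) ^ 2 + (δ ^ 2 * (1 + δ) ^ 2 + 1) + 1 with hR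
  obtain ⟨K, hK, hKm⟩ : ∃ K : Set (Matrix (Fin 2) (Fin 2) ℝ), IsCompact K ∧
      ∀ A : Matrix (Fin 2) (Fin 2) ℝ, (∀ i j, A i j ∈ Icc (-R) R) → A ∈ K := by
    refine ⟨Set.pi univ fun _ : Fin 2 => Set.pi univ fun _ : Fin 2 => Icc (-R) R,
      isCompact_univ_pi fun _ => isCompact_univ_pi fun _ => isCompact_Icc, ?_⟩
    intro A hA i _ j _
    exact hA i j
  have h1 : IsCompact ((fun p : SLR => (p : Matrix (Fin 2) (Fin 2) ℝ)) ⁻¹' K) :=
    Matrix.SpecialLinearGroup.isClosedEmbedding_val.isCompact_preimage hK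
  refine h1.of_isClosed_subset (isClosed_Rg δ) ?_
  intro (p : SLR) hp
  obtain ⟨h2, h3, h4, h5⟩ := hp
  have hdet : p 0 0 * p 1 1 - p 0 1 * p 1 0 = 1 := by
    have := p.det_coe
    rwa [Matrix.det_fin_two] at this
  have hN : p 0 1 ^ 2 + p 1 1 ^ 2 ≤ δ ^ 2 * (1 + δ) ^ 2 + 1 := by
    set r := p 0 0 ^ 2 + p 1 0 ^ 2 with hr
    set D := p 0 0 * p 0 1 + p 1 0 * p 1 1 with hD
    have e1 : r * (p 0 1 ^ 2 + p 1 1 ^ 2) = D ^ 2 + 1 := by
      rw [hr, hD]
      linear_combination (p 0 0 * p 1 1 - p 0 1 * p 1 0 + 1) * hdet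
    have e2 : D ^ 2 ≤ (δ * r) ^ 2 := by
      apply pow_le_pow_left₀ h4 h5
    by_contra hc
    push Not at hc
    have hr0 : 0 < r := by linarith
    have e3 : r * (δ ^ 2 * (1 + δ) ^ 2 + 1) < D ^ 2 + 1 := by
      rw [← e1]
      exact mul_lt_mul_of_pos_left hc hr0
    have e4 : δ ^ 2 * r ^ 2 ≤ r * (δ ^ 2 * (1 + δ) ^ 2) := by
      have : δ ^ 2 * r ≤ δ ^ 2 * (1 + δ) ^ 2 := mul_le_mul_of_nonneg_left h3 (sq_nonneg δ)
      nlinarith
    nlinarith
  have hb : ∀ a b : ℝ, ∀ c : ℝ, a ^ 2 + b ^ 2 ≤ c → 0 ≤ c → a ∈ Icc (-(c + 1)) (c + 1) ∧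
      b ∈ Icc (-(c + 1)) (c + 1) := by
    intro a b c hc hc0
    have ha : a ^ 2 ≤ (c + 1) ^ 2 := by nlinarith [sq_nonneg b]
    have hb : b ^ 2 ≤ (c + 1) ^ 2 := by nlinarith [sq_nonneg a]
    have ha' := abs_le_of_sq_le_sq' ha (by linarith)
    have hb' := abs_le_of_sq_le_sq' hb (by linarith)
    exact ⟨ha', hb'⟩
  have hA := hb _ _ _ h3 (sq_nonneg _)
  have hB := hb _ _ _ hN (by positivity)
  have hp1 : (0 : ℝ) ≤ (1 + δ) ^ 2 := sq_nonneg _
  have hp2 : (0 : ℝ) ≤ δ ^ 2 * (1 + δ) ^ 2 := by positivity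
  have mono1 : ∀ {a : ℝ}, a ∈ Icc (-((1 + δ) ^ 2 + 1)) ((1 + δ) ^ 2 + 1) → a ∈ Icc (-R) R := by
    rintro a ⟨ha, hb⟩
    exact ⟨by rw [hR]; linarith, by rw [hR]; linarith⟩
  have mono2 : ∀ {a : ℝ}, a ∈ Icc (-(δ ^ 2 * (1 + δ) ^ 2 + 1 + 1)) (δ ^ 2 * (1 + δ) ^ 2 + 1 + 1) →
      a ∈ Icc (-R) R := by
    rintro a ⟨ha, hb⟩
    exact ⟨by rw [hR]; linarith, by rw [hR]; linarith⟩
  refine hKm _ fun i j => ?_
  fin_cases i <;> fin_cases j
  · exact mono1 hA.1
  · exact mono2 hB.1
  · exact mono1 hA.2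
  · exact mono2 hB.2

private theorem cmat_mem {ζ : Pl} (hζ : ζ.1 ^ 2 + ζ.2 ^ 2 ≠ 0) {x δ : ℝ} :
    cmat ζ x ∈ Rg δ ↔ (1 ≤ ζ.1 ^ 2 + ζ.2 ^ 2 ∧ ζ.1 ^ 2 + ζ.2 ^ 2 ≤ (1 + δ) ^ 2) ∧
      x ∈ Icc 0 δ := by
  have h0 : 0 < ζ.1 ^ 2 + ζ.2 ^ 2 := lt_of_le_of_ne (by positivity) (Ne.symm hζ)
  have e : ζ.1 * (x * ζ.1 - ζ.2 / (ζ.1 ^ 2 + ζ.2 ^ 2)) + ζ.2 * (x * ζ.2 + ζ.1 / (ζ.1 ^ 2 + ζ.2 ^ 2)) =
      x * (ζ.1 ^ 2 + ζ.2 ^ 2) := by ring
  have e0 := cmat_eq hζ x
  have e00 : (cmat ζ x) 0 0 = ζ.1 := by rw [e0]; rfl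
  have e01 : (cmat ζ x) 0 1 = x * ζ.1 - ζ.2 / (ζ.1 ^ 2 + ζ.2 ^ 2) := by rw [e0]; rfl
  have e10 : (cmat ζ x) 1 0 = ζ.2 := by rw [e0]; rfl
  have e11 : (cmat ζ x) 1 1 = x * ζ.2 + ζ.1 / (ζ.1 ^ 2 + ζ.2 ^ 2) := by rw [e0]; rfl
  simp only [Rg, Set.mem_ofPred_eq, mem_Icc]
  rw [e00, e01, e10, e11]
  rw [e, mul_nonneg_iff_of_pos_right h0, mul_le_mul_iff_left₀ h0]
  tauto


private theorem rot_tri {r : ℝ} (hr : 0 < r) (x φ : ℝ) :
    cmat (r * Real.cos φ, r * Real.sin φ) x = rot (φ / (2 * Real.pi)) * tri r (r * x) := by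
  have hπ : 2 * Real.pi ≠ 0 := by positivity
  have e1 : 2 * Real.pi * (φ / (2 * Real.pi)) = φ := by field_simp
  have e2 : (r * Real.cos φ) ^ 2 + (r * Real.sin φ) ^ 2 = r ^ 2 := by
    linear_combination r ^ 2 * Real.sin_sq_add_cos_sq φ
  have e3 : ((r * Real.cos φ, r * Real.sin φ) : Pl).1 ^ 2 +
    ((r * Real.cos φ, r * Real.sin φ) : Pl).2 ^ 2 ≠ 0 := by
    change (r * Real.cos φ) ^ 2 + (r * Real.sin φ) ^ 2 ≠ 0
    rw [e2]
    positivity
  apply Subtype.ext
  have e4 : ((rot (φ / (2 * Real.pi)) * tri r (r * x) : SLR) : Matrix (Fin 2) (Fin 2) ℝ) =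
      ((cmat (r * Real.cos φ, r * Real.sin φ) x : SLR) : Matrix (Fin 2) (Fin 2) ℝ) := by
    rw [Matrix.SpecialLinearGroup.coe_mul, tri_eq hr.ne', cmat_eq e3]
    simp only [rot, e1, e2]
    ext i j
    fin_cases i <;> fin_cases j
    · simp [Matrix.mul_apply, Fin.sum_univ_two]
      ring
    · simp [Matrix.mul_apply, Fin.sum_univ_two]
      field_simp
      ring
    · simp [Matrix.mul_apply, Fin.sum_univ_two]
      ring
    · simp [Matrix.mul_apply, Fin.sum_univ_two]
      field_simp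
  exact e4.symm

private theorem cont_rot : Continuous rot := by
  refine Continuous.subtype_mk ?_ _
  refine continuous_matrix fun i j => ?_
  fin_cases i <;> fin_cases j
  · exact Real.continuous_cos.comp (continuous_const.mul continuous_id)
  · exact (Real.continuous_sin.comp (continuous_const.mul continuous_id)).neg
  · exact Real.continuous_sin.comp (continuous_const.mul continuous_id)
  · exact Real.continuous_cos.comp (continuous_const.mul continuous_id)

private theorem rot_add_int (θ : ℝ) (n : ℤ) : rot (n + θ) = rot θ := by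
  have e1 : 2 * Real.pi * (n + θ) = 2 * Real.pi * θ + n * (2 * Real.pi) := by ring
  apply Subtype.ext
  simp only [rot, e1, Real.cos_add_int_mul_two_pi, Real.sin_add_int_mul_two_pi]

private theorem angle_lintegral {g : SLR → ℝ≥0∞} (hg : Measurable g) :
    ∫⁻ φ in Ioo (-Real.pi) Real.pi, g (rot (φ / (2 * Real.pi))) =
      ENNReal.ofReal (2 * Real.pi) * ∫⁻ θ in Icc (0 : ℝ) 1, g (rot θ) := by
  have hπ : 0 < 2 * Real.pi := by positivity
  have hm : Measurable fun θ => g (rot θ) := hg.comp cont_rot.measurable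
  have h1 : ∫⁻ φ in Ioo (-Real.pi) Real.pi, g (rot (φ / (2 * Real.pi))) =
      ENNReal.ofReal (2 * Real.pi) * ∫⁻ θ in Ioo (-(1 / 2) : ℝ) (1 / 2), g (rot θ) := by
    rw [← lintegral_indicator measurableSet_Ioo, ← lintegral_indicator measurableSet_Ioo]
    have h2 := Real.map_volume_mul_left (a := (2 * Real.pi)⁻¹) (inv_ne_zero hπ.ne')
    have h3 : ∫⁻ φ, (Ioo (-(1 / 2) : ℝ) (1 / 2)).indicator (fun θ => g (rot θ))
        ((2 * Real.pi)⁻¹ * φ) = ENNReal.ofReal (2 * Real.pi) *
        ∫⁻ θ, (Ioo (-(1 / 2) : ℝ) (1 / 2)).indicator (fun θ => g (rot θ)) θ := by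
      rw [← lintegral_map (hm.indicator measurableSet_Ioo) (measurable_const_mul _), h2,
        lintegral_smul_measure, inv_inv, abs_of_pos hπ]
      rfl
    rw [← h3]
    refine lintegral_congr fun φ => ?_
    have h4 : (2 * Real.pi)⁻¹ * φ = φ / (2 * Real.pi) := by ring
    rw [h4]
    by_cases hφ : φ ∈ Ioo (-Real.pi) Real.pi
    · have h5 : φ / (2 * Real.pi) ∈ Ioo (-(1 / 2) : ℝ) (1 / 2) := by
        refine ⟨?_, ?_⟩
        · rw [lt_div_iff₀ hπ]
          linarith [hφ.1]
        · rw [div_lt_iff₀ hπ]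
          linarith [hφ.2]
      rw [indicator_of_mem hφ, indicator_of_mem h5]
    · have h5 : φ / (2 * Real.pi) ∉ Ioo (-(1 / 2) : ℝ) (1 / 2) := by
        intro h
        apply hφ
        obtain ⟨h6, h7⟩ := h
        rw [lt_div_iff₀ hπ] at h6
        rw [div_lt_iff₀ hπ] at h7
        exact ⟨by linarith, by linarith⟩
      rw [indicator_of_notMem hφ, indicator_of_notMem h5]
  rw [h1]
  congr 1
  rw [setLIntegral_congr Ioo_ae_eq_Ioc, ← setLIntegral_congr (Ioc_ae_eq_Icc (a := (0 : ℝ)) (b := 1))]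
  have e1 : Ioc (-(1 / 2) : ℝ) (1 / 2) = Ioc (-(1 / 2) : ℝ) (-(1 / 2) + 1) := by norm_num
  have e2 : Ioc (0 : ℝ) 1 = Ioc (0 : ℝ) (0 + 1) := by norm_num
  rw [e1, e2]
  refine IsAddFundamentalDomain.setLIntegral_eq (G := AddSubgroup.zmultiples (1 : ℝ))
    (isAddFundamentalDomain_Ioc one_pos _) (isAddFundamentalDomain_Ioc one_pos _) _ ?_
  rintro ⟨y, n, rfl⟩ x
  have e3 : ((⟨n • (1 : ℝ), n, rfl⟩ : AddSubgroup.zmultiples (1 : ℝ)) +ᵥ x) = (n : ℝ) + x := by
    change n • (1 : ℝ) + x = _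
    simp
  change g (rot ((⟨n • (1 : ℝ), n, rfl⟩ : AddSubgroup.zmultiples (1 : ℝ)) +ᵥ x)) = _
  rw [e3, rot_add_int]

theorem thick_lintegral {F : SLR → ℝ≥0∞} (hF : Measurable F) {δ : ℝ} (hδ : 0 < δ) :
    ∫⁻ p in Rg δ, F p ∂muG = (1 / 2) * ∫⁻ x in Icc 0 δ, ∫⁻ α in Icc 1 (1 + δ),
      ENNReal.ofReal (2 * Real.pi * α) *
        ∫⁻ θ in Icc (0 : ℝ) 1, F (rot θ * tri α (α * x)) := by
  have hG : Measurable ((Rg δ).indicator F) := hF.indicator (measurableSet_Rg δ)
  rw [← lintegral_indicator (measurableSet_Rg δ), muG_coord _ hG]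
  congr 1
  have hsw : AEMeasurable (Function.uncurry fun (ζ : Pl) (x : ℝ) =>
      (Rg δ).indicator F (cmat ζ x)) (volume.prod volume) :=
    (hG.comp measurable_cmat).aemeasurable
  rw [lintegral_lintegral_swap hsw, ← lintegral_indicator measurableSet_Icc]
  refine lintegral_congr fun x => ?_
  rw [← lintegral_comp_polarCoord_symm]
  have ht : polarCoord.target = Ioi (0 : ℝ) ×ˢ Ioo (-Real.pi) Real.pi := rfl
  have hc : Measurable fun ζ : Pl => cmat ζ x :=
    measurable_cmat.comp (measurable_id.prodMk measurable_const)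
  have hps : Measurable fun p : ℝ × ℝ => polarCoord.symm p := by
    have : (fun p : ℝ × ℝ => polarCoord.symm p) =
      fun p => (p.1 * Real.cos p.2, p.1 * Real.sin p.2) := by
      funext p
      exact polarCoord_symm_apply p
    rw [this]
    fun_prop
  rw [ht, Measure.volume_eq_prod, ← Measure.prod_restrict, lintegral_prod]
  · by_cases hx : x ∈ Icc 0 δ
    · rw [indicator_of_mem hx, ← lintegral_indicator measurableSet_Icc,
        ← lintegral_indicator measurableSet_Ioi]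
      refine lintegral_congr fun r => ?_
      by_cases hr : r ∈ Ioi (0 : ℝ)
      · rw [indicator_of_mem hr]
        have hr0 : 0 < r := hr
        have e0 : ∀ φ : ℝ, ((r * Real.cos φ, r * Real.sin φ) : Pl).1 ^ 2 +
            ((r * Real.cos φ, r * Real.sin φ) : Pl).2 ^ 2 = r ^ 2 := by
          intro φ
          change (r * Real.cos φ) ^ 2 + (r * Real.sin φ) ^ 2 = r ^ 2
          linear_combination r ^ 2 * Real.sin_sq_add_cos_sq φ
        have e1 : ∀ φ : ℝ, ((r * Real.cos φ, r * Real.sin φ) : Pl).1 ^ 2 +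
            ((r * Real.cos φ, r * Real.sin φ) : Pl).2 ^ 2 ≠ 0 := by
          intro φ
          rw [e0]
          positivity
        by_cases hr1 : r ∈ Icc 1 (1 + δ)
        · rw [indicator_of_mem hr1]
          have e2 : ∀ φ : ℝ, ENNReal.ofReal (r, φ).1 • (Rg δ).indicator F
              (cmat (polarCoord.symm (r, φ)) x) =
              ENNReal.ofReal r * F (rot (φ / (2 * Real.pi)) * tri r (r * x)) := by
            intro φ
            rw [polarCoord_symm_apply, indicator_of_mem, rot_tri hr0]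
            · rfl
            · rw [cmat_mem (e1 φ), e0 φ]
              exact ⟨⟨one_le_pow₀ hr1.1, pow_le_pow_left₀ hr0.le hr1.2 2⟩, hx⟩
          simp_rw [e2]
          rw [lintegral_const_mul'' _ (by
            refine Measurable.aemeasurable ?_
            exact hF.comp ((cont_rot.measurable.comp (measurable_id.div_const _)).mul_const _)),
            angle_lintegral (g := fun p => F (p * tri r (r * x)))
              (hF.comp (measurable_mul_const _)), ← mul_assoc, ← ENNReal.ofReal_mul hr0.le]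
          congr 2
          ring
        · rw [indicator_of_notMem hr1]
          have e2 : ∀ φ : ℝ, ENNReal.ofReal (r, φ).1 • (Rg δ).indicator F
              (cmat (polarCoord.symm (r, φ)) x) = 0 := by
            intro φ
            rw [polarCoord_symm_apply, indicator_of_notMem, smul_zero]
            rw [cmat_mem (e1 φ), e0 φ]
            rintro ⟨⟨h1, h2⟩, -⟩
            apply hr1
            refine ⟨?_, ?_⟩
            · by_contra hcc
              push Not at hcc
              nlinarith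
            · by_contra hcc
              push Not at hcc
              nlinarith
          simp_rw [e2]
          simp
      · rw [indicator_of_notMem hr, indicator_of_notMem]
        intro h
        exact hr (lt_of_lt_of_le one_pos h.1)
    · rw [indicator_of_notMem hx]
      rw [lintegral_eq_zero_iff' ?_]
      · refine (ae_restrict_iff' measurableSet_Ioi).2 (Eventually.of_forall fun r hr => ?_)
        have hr0 : 0 < r := hr
        have e2 : ∀ φ : ℝ, ENNReal.ofReal (r, φ).1 • (Rg δ).indicator F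
              (cmat (polarCoord.symm (r, φ)) x) = 0 := by
          intro φ
          rw [polarCoord_symm_apply, indicator_of_notMem, smul_zero]
          rw [cmat_mem]
          · rintro ⟨-, h⟩
            exact hx h
          · change (r * Real.cos φ) ^ 2 + (r * Real.sin φ) ^ 2 ≠ 0
            have : (r * Real.cos φ) ^ 2 + (r * Real.sin φ) ^ 2 = r ^ 2 := by
              linear_combination r ^ 2 * Real.sin_sq_add_cos_sq φ
            rw [this]
            positivity
        simp_rw [e2]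
        simp
      · have : Measurable fun p : ℝ × ℝ => ENNReal.ofReal p.1 • (Rg δ).indicator F
            (cmat (polarCoord.symm p) x) :=
          (ENNReal.measurable_ofReal.comp measurable_fst).smul (hG.comp (hc.comp hps))
        exact (this.lintegral_prod_right' (ν := volume.restrict (Ioo (-Real.pi) Real.pi))).aemeasurable
  · exact ((ENNReal.measurable_ofReal.comp measurable_fst).smul
      (hG.comp (hc.comp hps))).aemeasurable


private noncomputable def cl (δ α : ℝ) : ℝ := min (max α 1) (1 + δ)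

private theorem cl_cont (δ : ℝ) : Continuous (cl δ) :=
  (continuous_id.max continuous_const).min continuous_const

private theorem cl_mem {δ : ℝ} (hδ : 0 < δ) (α : ℝ) : 1 ≤ cl δ α ∧ cl δ α ≤ 1 + δ :=
  ⟨le_min (le_max_right _ _) (by linarith), min_le_right _ _⟩

private theorem cl_eq {δ α : ℝ} (h : α ∈ Icc 1 (1 + δ)) : cl δ α = α := by
  unfold cl
  rw [max_eq_left h.1, min_eq_left h.2]

private noncomputable def Tm (δ : ℝ) (p : ℝ × ℝ × ℝ) : SLR :=
  rot p.2.2 * tri (cl δ p.2.1) (cl δ p.2.1 * p.1)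

private theorem Tm_cont {δ : ℝ} (hδ : 0 < δ) : Continuous (Tm δ) := by
  have h1 : Continuous fun p : ℝ × ℝ × ℝ => tri (cl δ p.2.1) (cl δ p.2.1 * p.1) := by
    refine Matrix.SpecialLinearGroup.isClosedEmbedding_val.isInducing.continuous_iff.2 ?_
    have e : ((fun A : SLR => (A : Matrix (Fin 2) (Fin 2) ℝ)) ∘
        fun p : ℝ × ℝ × ℝ => tri (cl δ p.2.1) (cl δ p.2.1 * p.1)) =
        fun p => !![cl δ p.2.1, cl δ p.2.1 * p.1; 0, (cl δ p.2.1)⁻¹] := by
      funext p
      exact tri_eq (by linarith [(cl_mem hδ p.2.1).1]) _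
    change Continuous ((fun A : SLR => (A : Matrix (Fin 2) (Fin 2) ℝ)) ∘
        fun p : ℝ × ℝ × ℝ => tri (cl δ p.2.1) (cl δ p.2.1 * p.1))
    rw [e]
    have c1 : Continuous fun p : ℝ × ℝ × ℝ => cl δ p.2.1 :=
      (cl_cont δ).comp (continuous_fst.comp continuous_snd)
    refine continuous_matrix fun i j => ?_
    fin_cases i <;> fin_cases j
    · exact c1
    · exact c1.mul continuous_fst
    · exact continuous_const
    · exact c1.inv₀ fun p => by linarith [(cl_mem hδ p.2.1).1]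
  exact (cont_rot.comp (continuous_snd.comp continuous_snd)).mul h1

private noncomputable def kap (δ : ℝ) : Measure (ℝ × ℝ × ℝ) :=
  (volume.restrict (Icc 0 δ)).prod ((volume.restrict (Icc 1 (1 + δ))).prod
    (volume.restrict (Icc 0 1)))

private theorem meas_eq {δ : ℝ} (hδ : 0 < δ) : muG.restrict (Rg δ) =
    (1 / 2 : ℝ≥0∞) • ((kap δ).withDensity
      (fun p => ENNReal.ofReal (2 * Real.pi * cl δ p.2.1))).map (Tm δ) := by
  have hw : Measurable fun p : ℝ × ℝ × ℝ => ENNReal.ofReal (2 * Real.pi * cl δ p.2.1) :=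
    ENNReal.measurable_ofReal.comp (((cl_cont δ).measurable.comp
      (measurable_fst.comp measurable_snd)).const_mul _)
  have hT : Measurable (Tm δ) := (Tm_cont hδ).measurable
  refine Measure.ext_of_lintegral _ fun f hf => ?_
  rw [thick_lintegral hf hδ, lintegral_smul_measure, lintegral_map hf hT,
    lintegral_withDensity_eq_lintegral_mul _ hw (g := fun a => f (Tm δ a)) (hf.comp hT),
    smul_eq_mul]
  congr 1
  have hm : Measurable fun p : ℝ × ℝ × ℝ =>
      ((fun p : ℝ × ℝ × ℝ => ENNReal.ofReal (2 * Real.pi * cl δ p.2.1)) * fun a => f (Tm δ a)) p :=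
    hw.mul (hf.comp hT)
  unfold kap
  rw [lintegral_prod _ hm.aemeasurable]
  refine lintegral_congr fun x => ?_
  have hm2 : Measurable fun y : ℝ × ℝ =>
      ((fun p : ℝ × ℝ × ℝ => ENNReal.ofReal (2 * Real.pi * cl δ p.2.1)) * fun a => f (Tm δ a))
        (x, y) := hm.comp (measurable_const.prodMk measurable_id)
  rw [lintegral_prod _ hm2.aemeasurable]
  refine setLIntegral_congr_fun measurableSet_Icc fun α hα => ?_
  simp only [Pi.mul_apply, Tm, cl_eq hα]
  rw [lintegral_const_mul]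
  exact hf.comp (cont_rot.measurable.mul_const _)

theorem thick {F : SLR → ℝ} (hF : Measurable F) {C : ℝ} (hb : ∀ p, |F p| ≤ C) {δ : ℝ}
    (hδ : 0 < δ) :
    ∫ p in Rg δ, F p ∂muG = (1 / 2) * ∫ x in (0 : ℝ)..δ, ∫ α in (1 : ℝ)..(1 + δ),
      2 * Real.pi * α * ∫ θ in (0 : ℝ)..1, F (rot θ * tri α (α * x)) := by
  have hw : Measurable fun p : ℝ × ℝ × ℝ => ENNReal.ofReal (2 * Real.pi * cl δ p.2.1) :=
    ENNReal.measurable_ofReal.comp (((cl_cont δ).measurable.comp
      (measurable_fst.comp measurable_snd)).const_mul _)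
  have hT : Measurable (Tm δ) := (Tm_cont hδ).measurable
  have hπ := Real.pi_pos
  have hmm : Measurable fun p : ℝ × ℝ × ℝ => (2 * Real.pi * cl δ p.2.1) * F (Tm δ p) :=
    (((cl_cont δ).measurable.comp (measurable_fst.comp measurable_snd)).const_mul _).mul
      (hF.comp hT)
  have hC : 0 ≤ C := le_trans (abs_nonneg _) (hb 1)
  have hbd : ∀ p : ℝ × ℝ × ℝ, ‖(2 * Real.pi * cl δ p.2.1) * F (Tm δ p)‖ ≤
      2 * Real.pi * (1 + δ) * C := by
    intro p
    have h1 := cl_mem hδ p.2.1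
    rw [norm_mul, Real.norm_eq_abs, Real.norm_eq_abs, abs_of_nonneg (by nlinarith)]
    exact mul_le_mul (by nlinarith) (hb _) (abs_nonneg _) (by nlinarith)
  rw [meas_eq hδ, integral_smul_measure, integral_map hT.aemeasurable hF.aestronglyMeasurable,
    integral_withDensity_eq_integral_toReal_smul hw (Eventually.of_forall fun p =>
      ENNReal.ofReal_lt_top)]
  have e1 : ∀ p : ℝ × ℝ × ℝ, (ENNReal.ofReal (2 * Real.pi * cl δ p.2.1)).toReal • F (Tm δ p) =
      (2 * Real.pi * cl δ p.2.1) * F (Tm δ p) := by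
    intro p
    rw [ENNReal.toReal_ofReal, smul_eq_mul]
    have h1 := cl_mem hδ p.2.1
    nlinarith
  simp_rw [e1]
  rw [smul_eq_mul]
  congr 1
  · simp
  unfold kap
  rw [integral_prod]
  · rw [intervalIntegral.integral_of_le hδ.le, ← integral_Icc_eq_integral_Ioc]
    refine integral_congr_ae (Eventually.of_forall fun x => ?_)
    simp only
    rw [integral_prod]
    · rw [intervalIntegral.integral_of_le (by linarith), ← integral_Icc_eq_integral_Ioc]
      refine setIntegral_congr_fun measurableSet_Icc fun α hα => ?_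
      simp only [Tm, cl_eq hα]
      rw [integral_const_mul, intervalIntegral.integral_of_le zero_le_one,
        ← integral_Icc_eq_integral_Ioc]
    · refine Integrable.mono' (integrable_const (2 * Real.pi * (1 + δ) * C)) ?_
        (Eventually.of_forall fun p => hbd (x, p))
      exact (hmm.comp (measurable_const.prodMk measurable_id)).aestronglyMeasurable
  · exact Integrable.mono' (integrable_const (2 * Real.pi * (1 + δ) * C))
      hmm.aestronglyMeasurable (Eventually.of_forall hbd)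

theorem Rg_pos {δ : ℝ} (hδ : 0 < δ) : 0 < muG (Rg δ) ∧ muG (Rg δ) < ∞ := by
  refine ⟨?_, (Rg_compact δ).measure_lt_top⟩
  have h1 := thick_lintegral (F := fun _ => 1) measurable_const hδ
  rw [setLIntegral_one] at h1
  rw [h1]
  refine ENNReal.mul_pos (by simp) ?_
  have h2 : ∫⁻ x in Icc 0 δ, ∫⁻ α in Icc 1 (1 + δ), (1 : ℝ≥0∞) ≤
      ∫⁻ x in Icc 0 δ, ∫⁻ α in Icc 1 (1 + δ),
      ENNReal.ofReal (2 * Real.pi * α) * ∫⁻ θ in Icc (0 : ℝ) 1, 1 := by
    refine lintegral_mono fun x => ?_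
    refine setLIntegral_mono' measurableSet_Icc fun α hα => ?_
    rw [setLIntegral_one, Real.volume_Icc]
    simp only [sub_zero, ENNReal.ofReal_one, mul_one]
    rw [← ENNReal.ofReal_one]
    apply ENNReal.ofReal_le_ofReal
    nlinarith [Real.pi_gt_three, hα.1]
  refine (lt_of_lt_of_le ?_ h2).ne'
  rw [lintegral_const, setLIntegral_one, Real.volume_Icc, Measure.restrict_apply_univ,
    Real.volume_Icc, ← ENNReal.ofReal_mul (by linarith)]
  apply ENNReal.ofReal_pos.2
  have : 0 < δ * δ := mul_pos hδ hδ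
  nlinarith

theorem thick_compare {f : SLR × Pl → ℝ} (hf : Measurable f) {C : ℝ} (hb : ∀ x, |f x| ≤ C)
    (M : SLR) (P : Pl) {ε δ δ' u : ℝ} (hδ : δ ≤ 1) (hδ' : 0 < δ') (hdd : δ' ≤ δ / 2) (hu : 0 ≤ u)
    (h : ∀ α β : ℝ, |α - 1| ≤ δ → |β| ≤ δ →
      ∫ θ in (0 : ℝ)..1,
        |f (M * rot θ * dg u * tri α β, P) - f (M * rot θ * dg u, P)| ≤ ε) :
    |(∫ θ in (0 : ℝ)..1, f (M * rot θ * dg u, P)) -
      (∫ p in Rg δ', f (M * p * dg u, P) ∂muG) / (muG (Rg δ')).toReal| ≤ ε := by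
  have hπ := Real.pi_pos
  have hC : 0 ≤ C := le_trans (abs_nonneg _) (hb (1, 0))
  set A : ℝ := ∫ θ in (0 : ℝ)..1, f (M * rot θ * dg u, P) with hA
  have hfin := (Rg_pos hδ').2
  have hpos : 0 < (muG (Rg δ')).toReal := ENNReal.toReal_pos (Rg_pos hδ').1.ne' hfin.ne
  set m : ℝ := (muG (Rg δ')).toReal with hm
  have hFm : Measurable fun p : SLR => f (M * p * dg u, P) :=
    hf.comp (((measurable_const_mul M).mul_const _).prodMk measurable_const)
  have hm1 : m = (1 / 2) * ∫ x in (0 : ℝ)..δ', ∫ α in (1 : ℝ)..(1 + δ'), 2 * Real.pi * α := by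
    have h1 := thick (F := fun _ => (1 : ℝ)) measurable_const (C := 1) (by simp) hδ'
    simp only [integral_const, MeasurableSet.univ, measureReal_restrict_apply, univ_inter,
      smul_eq_mul, mul_one, intervalIntegral.integral_const, sub_zero] at h1
    rw [hm]
    simpa [Measure.real] using h1
  have hI : IntegrableOn (fun p : SLR => f (M * p * dg u, P)) (Rg δ') muG := by
    refine Integrable.mono' (g := fun _ => C) ?_ hFm.aestronglyMeasurable
      (Eventually.of_forall fun p => hb _)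
    exact integrableOn_const hfin.ne
  have h2 := thick (F := fun p => f (M * p * dg u, P) - A) (hFm.sub_const _) (C := C + |A|)
    (fun p => (abs_sub _ _).trans (add_le_add (hb _) le_rfl)) hδ'
  rw [integral_sub hI (integrableOn_const hfin.ne), setIntegral_const, smul_eq_mul] at h2
  have hint : ∀ B : SLR, IntervalIntegrable (fun θ => f (M * rot θ * B, P)) volume 0 1 := by
    intro B
    rw [intervalIntegrable_iff]
    refine Integrable.mono' (g := fun _ => C) (integrableOn_const (by simp)) ?_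
      (Eventually.of_forall fun p => hb _)
    exact (hf.comp ((((cont_rot.measurable.const_mul M)).mul_const B).prodMk
      measurable_const)).aestronglyMeasurable
  have h3 : ∀ x ∈ Ioc (0 : ℝ) δ', ∀ α ∈ Ioc (1 : ℝ) (1 + δ'),
      ‖2 * Real.pi * α * ∫ θ in (0 : ℝ)..1, (f (M * (rot θ * tri α (α * x)) * dg u, P) - A)‖ ≤
        2 * Real.pi * α * ε := by
    intro x hx α hα
    have hα0 : 0 < α := by linarith [hα.1]
    have e1 : ∀ θ : ℝ, M * (rot θ * tri α (α * x)) * dg u =
        M * rot θ * (dg u * tri α (α * x * Real.exp (-2 * u))) := by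
      intro θ
      rw [← tri_dg hα0.ne']
      simp only [mul_assoc]
    have e2 : ∫ θ in (0 : ℝ)..1, (f (M * (rot θ * tri α (α * x)) * dg u, P) - A) =
        ∫ θ in (0 : ℝ)..1, (f (M * rot θ * (dg u * tri α (α * x * Real.exp (-2 * u))), P) -
          f (M * rot θ * dg u, P)) := by
      simp_rw [e1]
      rw [intervalIntegral.integral_sub (hint _) (hint _),
        intervalIntegral.integral_sub (hint _) intervalIntegrable_const]
      simp [hA]
    rw [norm_mul, Real.norm_eq_abs, abs_of_pos (by positivity), e2]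
    refine mul_le_mul_of_nonneg_left ?_ (by positivity)
    have h4 := h α (α * x * Real.exp (-2 * u)) ?_ ?_
    · refine le_trans ?_ h4
      have h5 := intervalIntegral.norm_integral_le_integral_norm (μ := volume) (a := (0 : ℝ))
        (b := 1) (f := fun θ => f (M * rot θ * (dg u * tri α (α * x * Real.exp (-2 * u))), P) -
          f (M * rot θ * dg u, P)) zero_le_one
      refine h5.trans (le_of_eq ?_)
      simp only [Real.norm_eq_abs, mul_assoc]
    · rw [abs_of_nonneg (by linarith [hα.1])]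
      linarith [hα.2]
    · have h5 : Real.exp (-2 * u) ≤ 1 := by
        rw [Real.exp_le_one_iff]
        linarith
      have h6 : 0 ≤ α * x := mul_nonneg hα0.le hx.1.le
      rw [abs_of_nonneg (mul_nonneg h6 (Real.exp_pos _).le)]
      have h7 : α * x ≤ (1 + δ') * δ' := mul_le_mul hα.2 hx.2 hx.1.le (by linarith)
      calc α * x * Real.exp (-2 * u) ≤ α * x * 1 := mul_le_mul_of_nonneg_left h5 h6
        _ ≤ (1 + δ') * δ' := by rw [mul_one]; exact h7
        _ ≤ δ := by nlinarith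
  have h4 : |(∫ p in Rg δ', f (M * p * dg u, P) ∂muG) - m * A| ≤ m * ε := by
    have e0 : muG.real (Rg δ') = m := rfl
    rw [e0] at h2
    rw [h2, abs_mul, abs_of_pos (by norm_num : (0 : ℝ) < 1 / 2)]
    have h5 : |∫ x in (0 : ℝ)..δ', ∫ α in (1 : ℝ)..(1 + δ'), 2 * Real.pi * α *
        ∫ θ in (0 : ℝ)..1, (f (M * (rot θ * tri α (α * x)) * dg u, P) - A)| ≤
        ∫ x in (0 : ℝ)..δ', ∫ α in (1 : ℝ)..(1 + δ'), 2 * Real.pi * α * ε := by
      rw [← Real.norm_eq_abs]
      refine intervalIntegral.norm_integral_le_of_norm_le hδ'.le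
        (Eventually.of_forall fun x hx => ?_) intervalIntegrable_const
      refine intervalIntegral.norm_integral_le_of_norm_le (by linarith)
        (Eventually.of_forall fun α hα => h3 x hx α hα) ?_
      exact ((continuous_const.mul continuous_id).mul continuous_const).intervalIntegrable _ _
    calc (1 / 2 : ℝ) * _ ≤ (1 / 2) * ∫ x in (0 : ℝ)..δ', ∫ α in (1 : ℝ)..(1 + δ'),
        2 * Real.pi * α * ε := mul_le_mul_of_nonneg_left h5 (by norm_num)
      _ = m * ε := by
        rw [hm1]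
        simp only [intervalIntegral.integral_mul_const, intervalIntegral.integral_const,
          smul_eq_mul]
        ring
  have h5 : A - (∫ p in Rg δ', f (M * p * dg u, P) ∂muG) / m =
      -(((∫ p in Rg δ', f (M * p * dg u, P) ∂muG) - m * A) / m) := by
    field_simp
    ring
  rw [h5, abs_neg, abs_div, abs_of_pos hpos, div_le_iff₀ hpos]
  linarith

end Pool.Agent.ILL
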