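import Pool.Agent.ILL.Ccc
import Pool.Agent.ILL.Dmx
import Pool.Agent.ILL.Dth
import Pool.Agent.ILL.Drh

/-!
# DST. The main estimate for rational points

Let `ρ = rhoO P` (`perMeas_orbit`), `m = muG(DD) ρ(F0) > 0`. By `mean_energy` there is `S₀` with
`∫_DF EE S ≤ ε m/4` for `S ≥ S₀`. Fix `S`. `reg_EE` with `ε/4` gives `δ` (we may assume `δ ≤ 1`, otherwise
decrease it); `δ' = δ/2`. By `thick_compare`, for `u` large
`∫_θ EE(M rot θ dg u, P) ≤ ε/4 + (1/muG(Rg δ')) ∫_{Rg δ'} EE(M p dg u, P) dμ(p)`. Substituting `h = M p`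
(left invariance) the last integral is `∫ ψ(h) EE(h dg u, P)` with `ψ` the indicator of `M · Rg δ'`, of
integral `muG (Rg δ')`; by `mixing` (`EE_aut`) it tends to `muG(Rg δ') ∫_DF EE / m`. So the limsup is at most
`ε/4 + ε/4`.
-/

open MeasureTheory Set Filter Topology
open scoped ENNReal NNReal

namespace Pool.Agent.ILL

theorem star_rat (Λ : Type) [Fintype Λ] [DecidableEq Λ] (M : SLR) {P : Pl} (hP : RatP P) :
    StarP Λ M P := by
  intro ε hε
  have hρ := perMeas_orbit hP
  have hsf := hρ.sf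
  have m1 : 0 < (muG DD).toReal := ENNReal.toReal_pos muG_DD_pos.ne' muG_DD_lt_top.ne
  have m2 : 0 < (rhoO P F0).toReal := by
    apply ENNReal.toReal_pos _ hρ.fin.ne
    have := one_le_rhoO_F0 P
    intro h0
    rw [h0] at this
    exact absurd this (by norm_num)
  have hm : 0 < (muG DD).toReal * (rhoO P F0).toReal := mul_pos m1 m2
  have hmean := mean_energy (Λ := Λ) hρ
  have hpos : 0 < ε / 4 * ((muG DD).toReal * (rhoO P F0).toReal) := by positivity
  have hev : ∀ᶠ S : ℝ in atTop, ∫ x in DF, EE Λ S x ∂(muG.prod (rhoO P)) <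
      ε / 4 * ((muG DD).toReal * (rhoO P F0).toReal) := hmean.eventually_lt_const hpos
  obtain ⟨S₁, hS₁⟩ := eventually_atTop.1 hev
  refine ⟨max S₁ 1, lt_max_of_lt_right one_pos, fun S hS => ?_⟩
  have hS1 : S₁ ≤ S := (le_max_left _ _).trans hS
  have hS0 : 0 < S := lt_of_lt_of_le one_pos ((le_max_right _ _).trans hS)
  have hint := hS₁ S hS1
  obtain ⟨δ, hδ, hreg⟩ := reg_EE Λ hS0 M P (ε / 4) (by positivity)
  -- the thickening
  set δ₁ := min δ 1 with hδ₁
  have hδ₁0 : 0 < δ₁ := lt_min hδ one_pos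
  set δ' := δ₁ / 2 with hδ'
  have hδ'0 : 0 < δ' := by positivity
  obtain ⟨hR0, hR1⟩ := Rg_pos hδ'0
  have hRr : 0 < (muG (Rg δ')).toReal := ENNReal.toReal_pos hR0.ne' hR1.ne
  have hRm := measurableSet_Rg δ'
  have hmeas : Measurable (EE Λ S) := EE_measurable S
  have hbd : ∀ x, |EE Λ S x| ≤ (Fintype.card (Lab Λ) : ℝ) := fun x => by
    rw [abs_of_nonneg (EE_nonneg S x)]
    exact EE_bound hS0 x
  -- the test function
  set ψ : SLR → ℝ := fun h => (Rg δ').indicator (fun _ => (1 : ℝ)) (M⁻¹ * h) with hψ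
  have hmp := muG_mul_left M
  have hcomp : ∀ p : SLR, ψ (M * p) = (Rg δ').indicator (fun _ => (1 : ℝ)) p := fun p => by
    rw [hψ]
    simp only
    rw [inv_mul_cancel_left]
  have hind : Integrable ((Rg δ').indicator (fun _ => (1 : ℝ))) muG := by
    rw [integrable_indicator_iff hRm]
    exact integrableOn_const hR1.ne (by simp)
  have hψm : Measurable ψ :=
    (measurable_const.indicator hRm).comp (muG_mul_left M⁻¹).measurable
  have hψi : Integrable ψ muG := by
    have h1 := (muG_mul_left M⁻¹).integrable_comp (g := (Rg δ').indicator (fun _ => (1 : ℝ)))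
      hind.aestronglyMeasurable
    exact h1.2 hind
  have hψint : ∫ h, ψ h ∂muG = (muG (Rg δ')).toReal := by
    have h1 := hmp.integral_comp' (f := MeasurableEquiv.mulLeft M) ψ
    rw [← h1]
    have h2 : (fun p => ψ ((MeasurableEquiv.mulLeft M) p)) =
        (Rg δ').indicator (fun _ => (1 : ℝ)) := funext fun p => hcomp p
    rw [h2, integral_indicator hRm, setIntegral_const, smul_eq_mul, mul_one]
    rfl
  have hsub : ∀ u : ℝ, ∫ p in Rg δ', EE Λ S (M * p * dg u, P) ∂muG =
      ∫ h, ψ h * EE Λ S (h * dg u, P) ∂muG := by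
    intro u
    have h1 := hmp.integral_comp' (f := MeasurableEquiv.mulLeft M)
      (fun h => ψ h * EE Λ S (h * dg u, P))
    rw [← h1, ← integral_indicator hRm]
    congr 1
    funext p
    show _ = ψ (M * p) * EE Λ S (M * p * dg u, P)
    rw [hcomp]
    by_cases hp : p ∈ Rg δ'
    · rw [indicator_of_mem hp, indicator_of_mem hp, one_mul]
    · rw [indicator_of_notMem hp, indicator_of_notMem hp, zero_mul]
  have hmix := mixing hP hmeas hbd (EE_aut hρ S) hψi
  rw [hψint] at hmix
  have hlt : (muG (Rg δ')).toReal * (∫ x in DF, EE Λ S x ∂(muG.prod (rhoO P))) /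
      ((muG DD).toReal * (rhoO P F0).toReal) < (muG (Rg δ')).toReal * (ε / 2) := by
    rw [mul_div_assoc]
    refine mul_lt_mul_of_pos_left ?_ hRr
    rw [div_lt_iff₀ hm]
    have : ε / 4 * ((muG DD).toReal * (rhoO P F0).toReal) ≤
        ε / 2 * ((muG DD).toReal * (rhoO P F0).toReal) :=
      mul_le_mul_of_nonneg_right (by linarith) hm.le
    linarith
  have hev2 := hmix.eventually_lt_const hlt
  filter_upwards [hreg, hev2, eventually_ge_atTop (0 : ℝ)] with u h1 h2 h3
  have h4 := thick_compare hmeas hbd M P (ε := ε / 4) (δ := δ₁) (δ' := δ') (u := u)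
    (min_le_right _ _) hδ'0 le_rfl h3 (fun α β ha hb =>
      h1 α β (ha.trans (min_le_left _ _)) (hb.trans (min_le_left _ _)))
  rw [hsub u] at h4
  have h5 : (∫ h, ψ h * EE Λ S (h * dg u, P) ∂muG) / (muG (Rg δ')).toReal ≤ ε / 2 := by
    rw [div_le_iff₀ hRr, mul_comm (ε / 2)]
    exact h2.le
  have h6 := (abs_le.1 h4).2
  linarith

end Pool.Agent.ILL
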