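import Pool.Agent.ILL.Unx
import Pool.Agent.ILL.Ltc
import Pool.Agent.ILL.Wlm
import Pool.Agent.ILL.Twb

/-!
# DWU. Weak limits of translates by `dg u`, `u → ∞`

Let `f` be bounded, measurable, a.e. invariant. `weak_limit` for `f_u = f ∘ eR (dg u)` along `𝒰` gives `W`.
* `W` is a.e. invariant: `f_u ∘ T = f_u` a.e. for `T = eL gU, eL gL, eT z` (they commute with `eR`), weak
  limits commute with measure preserving `T` (`weak_act` with the trivial index type, or directly) and are
  unique (`weak_unique`).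
* `W ∘ eR (nu y) = W` a.e.: `dg(-u) nu(y) dg(u) = nu(y e^{-2u})`, so
  `f_u (eR (nu y) x) = f (eR (nu (y e^{-2u})) (eR (dg u) x))`. Let `φ` be bounded by `B` with support in
  `K × (finite union of translates of F0)`, `K` compact. Then
  `|∫ (f_u ∘ eR (nu y) - f_u) φ| ≤ B Σ_z ∫_{K × (F0 - z)} |f ∘ eR (nu ε) - f| ∘ eR (dg u)`, `ε = y e^{-2u}`,
  and by `unfoldX` and `DF_right` each term is at most
  `C_K ∫_DF |f ∘ eR (nu ε) - f| → 0` (`L1_transX`; `nu ε → 1`). General integrable `φ` are limits in `L¹`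
  of such `φ` (truncate; `SLR × Pl` is an increasing union of sets `K_n × [-n,n)²`). So `W ∘ eR (nu y)` and
  `W` have the same integrals against all integrable `φ`.
-/

open MeasureTheory Set Filter Topology
open scoped ENNReal NNReal

namespace Pool.Agent.ILL

private theorem weak_comp {X : Type} [MeasurableSpace X] {ν : Measure X} {T : X ≃ᵐ X}
    (hT : MeasurePreserving T ν ν) {ι : Type} {l : Filter ι}
    {F : ι → X → ℝ} {W : X → ℝ} (hF : ∀ j, Measurable (F j)) (hW : Measurable W) {C : ℝ}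
    (hb : ∀ j x, |F j x| ≤ C) (hbW : ∀ x, |W x| ≤ C)
    (h : ∀ φ : X → ℝ, Integrable φ ν →
      Tendsto (fun j => ∫ x, F j x * φ x ∂ν) l (𝓝 (∫ x, W x * φ x ∂ν))) (φ : X → ℝ)
    (hφ : Integrable φ ν) :
    Tendsto (fun j => ∫ x, F j (T x) * φ x ∂ν) l (𝓝 (∫ x, W (T x) * φ x ∂ν)) := by
  have hm : (⟨T, fun _ => 1⟩ : Tw X Unit).Meas := by
    intro i j
    have : {x : X | (⟨T, fun _ => 1⟩ : Tw X Unit).σ x i = j} = univ := by
      ext x
      simp
    rw [this]
    exact MeasurableSet.univ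
  exact weak_act (w := (⟨T, fun _ => 1⟩ : Tw X Unit)) hT hm (F := fun j x _ => F j x)
    (W := fun x _ => W x) (fun j _ => hF j) (fun _ => hW) (fun j x _ => hb j x) (fun x _ => hbW x)
    (fun _ φ hφ => h φ hφ) () φ hφ

private theorem nu_dg (y u : ℝ) : nu y * dg u = dg u * nu (y * Real.exp (-2 * u)) := by
  have h1 : Real.exp u * Real.exp (-(2 * u)) = Real.exp (-u) := by rw [← Real.exp_add]; ring_nf
  apply Subtype.ext
  have e1 : ((nu y * dg u : SLR) : Matrix (Fin 2) (Fin 2) ℝ) =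
      ((dg u * nu (y * Real.exp (-2 * u)) : SLR) : Matrix (Fin 2) (Fin 2) ℝ) := by
    rw [Matrix.SpecialLinearGroup.coe_mul, Matrix.SpecialLinearGroup.coe_mul]
    simp only [dg, nu]
    ext i j
    fin_cases i <;> fin_cases j
    · simp [Matrix.mul_apply, Fin.sum_univ_two]
    · simp [Matrix.mul_apply, Fin.sum_univ_two]
      linear_combination -y * h1
    · simp [Matrix.mul_apply, Fin.sum_univ_two]
    · simp [Matrix.mul_apply, Fin.sum_univ_two]
  exact e1

private theorem nu_tendsto (y : ℝ) :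
    Tendsto (fun u : ℝ => nu (y * Real.exp (-2 * u))) atTop (𝓝 1) := by
  have hc : Continuous nu := by
    refine Continuous.subtype_mk ?_ _
    refine continuous_matrix fun i j => ?_
    fin_cases i <;> fin_cases j
    · exact continuous_const
    · exact continuous_id
    · exact continuous_const
    · exact continuous_const
  have h0 : nu 0 = 1 := by
    apply Subtype.ext
    ext i j
    fin_cases i <;> fin_cases j <;> simp [nu]
  have h1 : Tendsto (fun u : ℝ => y * Real.exp (-2 * u)) atTop (𝓝 0) := by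
    have h2 : Tendsto (fun u : ℝ => Real.exp (-2 * u)) atTop (𝓝 0) := by
      refine Real.tendsto_exp_atBot.comp ?_
      exact tendsto_id.const_mul_atTop_of_neg (by norm_num)
    simpa using h2.const_mul y
  rw [← h0]
  exact (hc.tendsto 0).comp h1

theorem exists_wlim {ρ : Measure Pl} (hρ : PerMeas ρ) {f : SLR × Pl → ℝ} (hf : Measurable f)
    {C : ℝ} (hb : ∀ x, |f x| ≤ C) (ha : AEAut ρ f) (𝒰 : Ultrafilter ℝ)
    (h𝒰 : (𝒰 : Filter ℝ) ≤ atTop) :
    ∃ W : SLR × Pl → ℝ, Measurable W ∧ (∀ x, |W x| ≤ C) ∧ AEAut ρ W ∧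
      (∀ y : ℝ, ∀ᵐ x ∂(muG.prod ρ), W (eR (nu y) x) = W x) ∧
      ∀ φ : SLR × Pl → ℝ, Integrable φ (muG.prod ρ) →
        Tendsto (fun u => ∫ x, f (eR (dg u) x) * φ x ∂(muG.prod ρ)) (𝒰 : Filter ℝ)
          (𝓝 (∫ x, W x * φ x ∂(muG.prod ρ))) := by
  have := hρ.sf
  have hC : 0 ≤ C := le_trans (abs_nonneg _) (hb (1, 0))
  have hfu : ∀ u : ℝ, Measurable fun x => f (eR (dg u) x) := fun u => hf.comp (eR (dg u)).measurable
  obtain ⟨W, hWm, hWb, hWl⟩ := weak_limit (muG.prod ρ) 𝒰 (fun (u : ℝ) x => f (eR (dg u) x)) hfu hC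
    (fun u x => hb _)
  -- invariance under a map which commutes with the right translations
  have hinv : ∀ T : SLR × Pl ≃ᵐ SLR × Pl, MeasurePreserving T (muG.prod ρ) (muG.prod ρ) →
      (∀ (g : SLR) (x : SLR × Pl), eR g (T x) = T (eR g x)) →
      (∀ᵐ x ∂(muG.prod ρ), f (T x) = f x) → ∀ᵐ x ∂(muG.prod ρ), W (T x) = W x := by
    intro T hT hcom hfT
    refine weak_unique (muG.prod ρ) (hWm.comp T.measurable) hWm (C := C) (fun x => hWb _) hWb ?_
    intro φ hφ
    have h1 := weak_comp hT hfu hWm (fun u x => hb _) hWb hWl φ hφ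
    have h2 : ∀ u : ℝ, ∫ x, f (eR (dg u) (T x)) * φ x ∂(muG.prod ρ) =
        ∫ x, f (eR (dg u) x) * φ x ∂(muG.prod ρ) := by
      intro u
      refine integral_congr_ae ?_
      filter_upwards [(mp_eR hρ (dg u)).quasiMeasurePreserving.ae hfT] with x hx
      rw [hcom, hx]
    simp_rw [h2] at h1
    exact tendsto_nhds_unique h1 (hWl φ hφ)
  have hcL : ∀ γ : SLZ, ∀ (g : SLR) (x : SLR × Pl), eR g (eL γ x) = eL γ (eR g x) := by
    intro γ g x
    simp only [eR_apply, eL_apply, mul_assoc]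
  have hcT : ∀ z : ℤ × ℤ, ∀ (g : SLR) (x : SLR × Pl), eR g (eT z x) = eT z (eR g x) := by
    intro z g x
    simp only [eR_apply, eT_apply]
  refine ⟨W, hWm, hWb, ⟨hinv _ (mp_eL hρ _) (hcL _) ha.U, hinv _ (mp_eL hρ _) (hcL _) ha.L,
    hinv _ (mp_eT hρ _) (hcT _) ha.t1, hinv _ (mp_eT hρ _) (hcT _) ha.t2⟩, ?_, hWl⟩
  intro y
  -- the pieces
  set A : ℕ × ℤ × ℤ → Set (SLR × Pl) := fun p =>
    compactCovering SLR p.1 ×ˢ {P | P + ZP p.2 ∈ F0} with hA
  have hAm : ∀ p, MeasurableSet (A p) := by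
    intro p
    refine (isCompact_compactCovering SLR p.1).measurableSet.prod ?_
    exact measurableSet_F0.preimage (measurable_id.add_const (ZP p.2))
  have hAfin : ∀ p, (muG.prod ρ) (A p) < ∞ := by
    intro p
    rw [hA]
    simp only
    rw [Measure.prod_prod]
    refine ENNReal.mul_lt_top (isCompact_compactCovering SLR p.1).measure_lt_top ?_
    have h1 := (hρ.tr p.2).measure_preimage measurableSet_F0.nullMeasurableSet
    have h2 : ρ {P | P + ZP p.2 ∈ F0} = ρ F0 := h1
    rw [h2]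
    exact hρ.fin
  have hAU : (⋃ p, A p) = univ := by
    rw [eq_univ_iff_forall]
    rintro ⟨h, P⟩
    obtain ⟨n, hn⟩ := exists_mem_compactCovering h
    rw [mem_iUnion]
    refine ⟨(n, (-⌊P.1⌋, -⌊P.2⌋)), hn, ?_⟩
    refine ⟨⟨?_, ?_⟩, ⟨?_, ?_⟩⟩
    · simp only [ZP, Prod.fst_add, Int.cast_neg]
      linarith [Int.floor_le P.1]
    · simp only [ZP, Prod.fst_add, Int.cast_neg]
      linarith [Int.lt_floor_add_one P.1]
    · simp only [ZP, Prod.snd_add, Int.cast_neg]
      linarith [Int.floor_le P.2]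
    · simp only [ZP, Prod.snd_add, Int.cast_neg]
      linarith [Int.lt_floor_add_one P.2]
  -- the key estimate
  have hkey : ∀ p, Tendsto (fun u : ℝ => ∫⁻ x in A p,
      ‖f (eR (dg u) (eR (nu y) x)) - f (eR (dg u) x)‖ₑ ∂(muG.prod ρ)) atTop (𝓝 0) := by
    intro p
    obtain ⟨K, hK⟩ := unfoldX hρ (isCompact_compactCovering SLR p.1)
    have h1 : ∀ u : ℝ, ∫⁻ x in A p, ‖f (eR (dg u) (eR (nu y) x)) - f (eR (dg u) x)‖ₑ
        ∂(muG.prod ρ) ≤ K * ∫⁻ x in DF, ‖f (eR (nu (y * Real.exp (-2 * u))) x) - f x‖ₑ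
          ∂(muG.prod ρ) := by
      intro u
      set ε := y * Real.exp (-2 * u) with hε
      have hD : Measurable fun x => ‖f (eR (nu ε) x) - f x‖ₑ :=
        ((hf.comp (eR (nu ε)).measurable).sub hf).enorm
      have hD1 : ∀ T : SLR × Pl ≃ᵐ SLR × Pl, MeasurePreserving T (muG.prod ρ) (muG.prod ρ) →
          (∀ (g : SLR) (x : SLR × Pl), eR g (T x) = T (eR g x)) →
          (∀ᵐ x ∂(muG.prod ρ), f (T x) = f x) → ∀ᵐ x ∂(muG.prod ρ),
          ‖f (eR (nu ε) (T x)) - f (T x)‖ₑ = ‖f (eR (nu ε) x) - f x‖ₑ := by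
        intro T hT hcom hfT
        filter_upwards [hfT, (mp_eR hρ (nu ε)).quasiMeasurePreserving.ae hfT] with x hx1 hx2
        rw [hcom, hx1, hx2]
      have hDa : AEAut ρ fun x => ‖f (eR (nu ε) x) - f x‖ₑ :=
        ⟨hD1 _ (mp_eL hρ _) (hcL _) ha.U, hD1 _ (mp_eL hρ _) (hcL _) ha.L,
          hD1 _ (mp_eT hρ _) (hcT _) ha.t1, hD1 _ (mp_eT hρ _) (hcT _) ha.t2⟩
      have hE1 : ∀ T : SLR × Pl ≃ᵐ SLR × Pl, MeasurePreserving T (muG.prod ρ) (muG.prod ρ) →
          (∀ (g : SLR) (x : SLR × Pl), eR g (T x) = T (eR g x)) →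
          (∀ᵐ x ∂(muG.prod ρ), ‖f (eR (nu ε) (T x)) - f (T x)‖ₑ = ‖f (eR (nu ε) x) - f x‖ₑ) →
          ∀ᵐ x ∂(muG.prod ρ), ‖f (eR (nu ε) (eR (dg u) (T x))) - f (eR (dg u) (T x))‖ₑ =
            ‖f (eR (nu ε) (eR (dg u) x)) - f (eR (dg u) x)‖ₑ := by
        intro T hT hcom hfT
        filter_upwards [(mp_eR hρ (dg u)).quasiMeasurePreserving.ae hfT] with x hx2
        rw [hcom, hx2]
      have hEa : AEAut ρ fun x => ‖f (eR (nu ε) (eR (dg u) x)) - f (eR (dg u) x)‖ₑ :=
        ⟨hE1 _ (mp_eL hρ _) (hcL _) hDa.U, hE1 _ (mp_eL hρ _) (hcL _) hDa.L,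
          hE1 _ (mp_eT hρ _) (hcT _) hDa.t1, hE1 _ (mp_eT hρ _) (hcT _) hDa.t2⟩
      have h2 := hK (fun x => ‖f (eR (nu ε) (eR (dg u) x)) - f (eR (dg u) x)‖ₑ)
        (hD.comp (eR (dg u)).measurable) hEa p.2
      rw [DF_right hρ hD hDa (dg u)] at h2
      refine le_trans (le_of_eq ?_) h2
      refine lintegral_congr fun x => ?_
      have h3 : eR (dg u) (eR (nu y) x) = eR (nu ε) (eR (dg u) x) := by
        simp only [eR_apply, mul_assoc]
        rw [nu_dg]
      rw [h3]
    have h2 : Tendsto (fun u : ℝ => K * ∫⁻ x in DF,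
        ‖f (eR (nu (y * Real.exp (-2 * u))) x) - f x‖ₑ ∂(muG.prod ρ)) atTop (𝓝 0) := by
      have h3 := (L1_transX hρ hf hb).comp (nu_tendsto y)
      have h4 := ENNReal.Tendsto.const_mul (a := (K : ℝ≥0∞)) h3 (Or.inr ENNReal.coe_ne_top)
      rw [mul_zero] at h4
      exact h4
    exact tendsto_of_tendsto_of_tendsto_of_le_of_le tendsto_const_nhds h2 (fun _ => bot_le) h1
  have hWy := weak_comp (mp_eR hρ (nu y)) hfu hWm (fun u x => hb _) hWb hWl
  have hpiece : ∀ p, ∀ᵐ x ∂((muG.prod ρ).restrict (A p)), W (eR (nu y) x) = W x := by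
    intro p
    have hfm : IsFiniteMeasure ((muG.prod ρ).restrict (A p)) :=
      ⟨by rw [Measure.restrict_apply_univ]; exact hAfin p⟩
    have hWym : Measurable fun x => W (eR (nu y) x) := hWm.comp (eR (nu y)).measurable
    refine Integrable.ae_eq_of_forall_setIntegral_eq _ _ ?_ ?_ ?_
    · exact Integrable.mono' (integrable_const C) hWym.aestronglyMeasurable
        (Eventually.of_forall fun x => hWb _)
    · exact Integrable.mono' (integrable_const C) hWm.aestronglyMeasurable
        (Eventually.of_forall fun x => hWb _)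
    intro s hs _
    set φ : SLR × Pl → ℝ := (s ∩ A p).indicator (fun _ => 1) with hφ
    have hsm : MeasurableSet (s ∩ A p) := hs.inter (hAm p)
    have hφi : Integrable φ (muG.prod ρ) := by
      rw [hφ, integrable_indicator_iff hsm]
      exact integrableOn_const (ne_of_lt (lt_of_le_of_lt (measure_mono inter_subset_right)
        (hAfin p)))
    have hconv : ∀ G : SLR × Pl → ℝ, ∫ x, G x * φ x ∂(muG.prod ρ) =
        ∫ x in s, G x ∂((muG.prod ρ).restrict (A p)) := by
      intro G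
      rw [Measure.restrict_restrict hs, ← integral_indicator hsm]
      refine integral_congr_ae (Eventually.of_forall fun x => ?_)
      simp only [hφ]
      by_cases hx : x ∈ s ∩ A p
      · rw [indicator_of_mem hx, indicator_of_mem hx, mul_one]
      · rw [indicator_of_notMem hx, indicator_of_notMem hx, mul_zero]
    have h1 := hWy φ hφi
    have h2 := hWl φ hφi
    have h3 : Tendsto (fun u : ℝ => (∫ x, f (eR (dg u) (eR (nu y) x)) * φ x ∂(muG.prod ρ)) -
        ∫ x, f (eR (dg u) x) * φ x ∂(muG.prod ρ)) (𝒰 : Filter ℝ) (𝓝 0) := by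
      refine Tendsto.mono_left ?_ h𝒰
      rw [tendsto_zero_iff_abs_tendsto_zero]
      have h4 : ∀ u : ℝ, |(∫ x, f (eR (dg u) (eR (nu y) x)) * φ x ∂(muG.prod ρ)) -
          ∫ x, f (eR (dg u) x) * φ x ∂(muG.prod ρ)| ≤
          (∫⁻ x in A p, ‖f (eR (dg u) (eR (nu y) x)) - f (eR (dg u) x)‖ₑ
            ∂(muG.prod ρ)).toReal := by
        intro u
        have hi1 : Integrable (fun x => f (eR (dg u) (eR (nu y) x)) * φ x) (muG.prod ρ) :=
          hφi.bdd_mul (c := C) ((hfu u).comp (eR (nu y)).measurable).aestronglyMeasurable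
            (Eventually.of_forall fun x => by simpa [Real.norm_eq_abs] using hb _)
        have hi2 : Integrable (fun x => f (eR (dg u) x) * φ x) (muG.prod ρ) :=
          hφi.bdd_mul (c := C) (hfu u).aestronglyMeasurable
            (Eventually.of_forall fun x => by simpa [Real.norm_eq_abs] using hb _)
        rw [← integral_sub hi1 hi2, ← Real.norm_eq_abs]
        have hlt : ∫⁻ x in A p, ‖f (eR (dg u) (eR (nu y) x)) - f (eR (dg u) x)‖ₑ
            ∂(muG.prod ρ) < ∞ := by
          have hii : Integrable (fun x => f (eR (dg u) (eR (nu y) x)) - f (eR (dg u) x))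
              ((muG.prod ρ).restrict (A p)) := by
            refine Integrable.sub ?_ ?_
            · exact Integrable.mono' (integrable_const C)
                ((hfu u).comp (eR (nu y)).measurable).aestronglyMeasurable
                (Eventually.of_forall fun x => hb _)
            · exact Integrable.mono' (integrable_const C) (hfu u).aestronglyMeasurable
                (Eventually.of_forall fun x => hb _)
          exact hii.2
        refine (norm_integral_le_lintegral_norm _).trans ?_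
        refine ENNReal.toReal_mono hlt.ne ?_
        rw [← lintegral_indicator (hAm p)]
        refine lintegral_mono fun x => ?_
        by_cases hx : x ∈ s ∩ A p
        · rw [indicator_of_mem hx.2]
          have : φ x = 1 := indicator_of_mem hx _
          rw [this, mul_one, mul_one]
          exact (ofReal_norm _).le
        · have : φ x = 0 := indicator_of_notMem hx _
          rw [this]
          simp
      refine squeeze_zero (fun _ => abs_nonneg _) h4 ?_
      have h5 := (ENNReal.tendsto_toReal (by simp : (0 : ℝ≥0∞) ≠ ∞)).comp (hkey p)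
      rw [ENNReal.toReal_zero] at h5
      exact h5
    have h6 := tendsto_nhds_unique (h1.sub h2) h3
    rw [← hconv, ← hconv]
    linarith
  have hall := (ae_restrict_iUnion_iff A fun x => W (eR (nu y) x) = W x).2 hpiece
  rwa [hAU, Measure.restrict_univ] at hall

end Pool.Agent.ILL
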