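import Pool.Agent.ILL.Defs

/-!
# ILL, part E: definitions for the irrational points
-/

open MeasureTheory Set Filter Topology
open scoped ENNReal NNReal

namespace Pool.Agent.ILL

/-- the row vector `k h` -/
def rv (k : ℤ × ℤ) (h : SLR) : Pl :=
  ((k.1 : ℝ) * h 0 0 + (k.2 : ℝ) * h 1 0, (k.1 : ℝ) * h 0 1 + (k.2 : ℝ) * h 1 1)

/-- the square `[0,δ]²` -/
def Sq (δ : ℝ) : Set Pl := Icc 0 δ ×ˢ Icc 0 δ

/-- the scalar product of an integral vector with a point -/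
def dotZ (k : ℤ × ℤ) (P : Pl) : ℝ := (k.1 : ℝ) * P.1 + (k.2 : ℝ) * P.2

/-- smoothing in the second variable, in the coordinates of `h` -/
noncomputable def smo (f : SLR × Pl → ℝ) (δ : ℝ) (x : SLR × Pl) : ℝ :=
  (1 / δ ^ 4) * ∫ y in Sq δ, ∫ y' in Sq δ, f (x.1, x.2 + mv x.1 (y + y'))

/-- Fourier coefficients in the second variable -/
noncomputable def ck (f : SLR × Pl → ℝ) (k : ℤ × ℤ) (h : SLR) : ℂ :=
  ∫ Q in F0, (f (h, Q) : ℂ) * ee (-(dotZ k Q))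

/-- Fourier transform of the uniform distribution on `[0,δ]` -/
noncomputable def sd (δ ξ : ℝ) : ℂ := (1 / (δ : ℂ)) * ∫ y in (0 : ℝ)..δ, ee (ξ * y)

/-- the multiplier of the smoothing -/
noncomputable def mul4 (δ : ℝ) (ξ : Pl) : ℂ := (sd δ ξ.1 * sd δ ξ.2) ^ 2

/-- sup norm -/
def nrmI (ξ : Pl) : ℝ := max |ξ.1| |ξ.2|

/-- euclidean norm -/
noncomputable def eu (ξ : Pl) : ℝ := √(ξ.1 ^ 2 + ξ.2 ^ 2)

/-- matrices whose lattice has no short vectors -/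
def Cut (c : ℝ) : Set SLR := {h | ∀ k : ℤ × ℤ, k ≠ 0 → c ≤ nrmI (rv k h)}

/-- the first row -/
def row1 (h : SLR) : Pl := (h 0 0, h 0 1)

/-- the coordinate `h₁₁/h₀₁` -/
noncomputable def qq (h : SLR) : ℝ := h 1 1 / h 0 1

/-- the strip, a fundamental domain for the group generated by `gL` -/
def St : Set SLR := {h | h 0 1 ≠ 0 ∧ 0 ≤ qq h ∧ qq h < 1}

/-- the matrix with first row `ξ` and `h₁₁/h₀₁ = q` -/
noncomputable def rmat (ξ : Pl) (q : ℝ) : SLR :=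
  if h : ξ.2 ≠ 0 then ⟨!![ξ.1, ξ.2; q * ξ.1 - 1 / ξ.2, q * ξ.2], by
    simp only [Matrix.det_fin_two, Matrix.of_apply, Matrix.cons_val', Matrix.cons_val_zero,
      Matrix.cons_val_one, Matrix.cons_val_fin_one]
    field_simp
    ring⟩
  else 1

/-- the sum over the group with the phases of the first row -/
noncomputable def Esum (g : SLR → ℂ) (d : ℕ) (P : Pl) (h : SLR) : ℂ :=
  ∑' γ : SLZ, g (toR γ * h) * ee ((d : ℝ) * ((γ 0 0 : ℝ) * P.1 + (γ 0 1 : ℝ) * P.2))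

open Classical in
/-- the functions which are summed over the group, for the frequencies `d k'`, `k'` primitive -/
noncomputable def gd (f : SLR × Pl → ℝ) (δ c R : ℝ) (d : ℕ) (h : SLR) : ℂ :=
  if h ∈ Cut c ∧ h ∈ St ∧ (d : ℝ) * nrmI (row1 h) ≤ R then
    mul4 δ ((d : ℝ) * h 0 0, (d : ℝ) * h 0 1) * ck f (d, 0) h else 0

/-- admissible pairs of one variable functions: Lipschitz, bounded, compactly supported, the second
one supported away from zero -/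
structure PC (φ₁ φ₂ : ℝ → ℝ) (c₀ C₀ L : ℝ) : Prop where
  c_pos : 0 < c₀
  L_pos : 0 < L
  sup1 : ∀ t, C₀ ≤ |t| → φ₁ t = 0
  sup2 : ∀ t, C₀ ≤ |t| → φ₂ t = 0
  near : ∀ t, |t| ≤ c₀ → φ₂ t = 0
  lip1 : ∀ s t, |φ₁ s - φ₁ t| ≤ L * |s - t|
  lip2 : ∀ s t, |φ₂ s - φ₂ t| ≤ L * |s - t|
  bd1 : ∀ t, |φ₁ t| ≤ L
  bd2 : ∀ t, |φ₂ t| ≤ L

open Classical in
/-- the product class -/
noncomputable def pc (φ₁ φ₂ : ℝ → ℝ) (m : ℤ) (h : SLR) : ℂ :=
  if h ∈ St then (φ₁ (h 0 0) : ℂ) * (φ₂ (h 0 1) : ℂ) * ee ((m : ℝ) * qq h) else 0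

/-- a matrix of `SL(2,ℤ)` with given coprime first row -/
def gam (k : ℤ × ℤ) : SLZ :=
  if h : Int.gcd k.1 k.2 = 1 then
    ⟨!![k.1, k.2; -Int.gcdB k.1 k.2, Int.gcdA k.1 k.2], by
      have := Int.gcd_eq_gcd_ab k.1 k.2
      rw [h] at this
      simp only [Matrix.det_fin_two, Matrix.of_apply, Matrix.cons_val', Matrix.cons_val_zero,
        Matrix.cons_val_one, Matrix.cons_val_fin_one]
      push_cast at this
      linarith⟩
  else 1

/-- the lower left entry of `gam k` -/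
def Cc (k : ℤ × ℤ) : ℤ := -Int.gcdB k.1 k.2

/-- the additive character modulo `p` -/
noncomputable def chi (p : ℕ) (x : ZMod p) : ℂ := ee ((x.val : ℝ) / p)

/-- the function `θ`-integral of a product function, as a function of the length -/
noncomputable def iota (φ₁ φ₂ : ℝ → ℝ) (α β u r : ℝ) : ℝ :=
  ∫ θ in (0 : ℝ)..1, φ₁ (Real.exp u * α * r * Real.cos (2 * Real.pi * θ)) *
    φ₂ (Real.exp (-u) * r *
      (β * Real.cos (2 * Real.pi * θ) + α⁻¹ * Real.sin (2 * Real.pi * θ)))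

/-- the limit of `e^{2u} iota` at `r = e^u ρ` -/
noncomputable def Gl (φ₁ φ₂ : ℝ → ℝ) (α ρ : ℝ) : ℝ :=
  (∫ t, φ₁ t) * (φ₂ (ρ / α) + φ₂ (-(ρ / α))) / (2 * Real.pi * α * ρ)

open Classical in
/-- the arithmetic sum -/
noncomputable def NT (M : SLR) (P : Pl) (d : ℕ) (m : ℤ) (G : ℝ → ℝ) (T : ℝ) : ℂ :=
  (1 / (T : ℂ) ^ 2) * ∑' k : ℤ × ℤ, if Int.gcd k.1 k.2 = 1 ∧ k.1 ≠ 0 then
    ee ((d : ℝ) * dotZ k P) * ee ((m : ℝ) * (Cc k : ℝ) / (k.1 : ℝ)) * (G (eu (rv k M) / T) : ℂ)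
    else 0

end Pool.Agent.ILL
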