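import Pool.Agent.ILL.FdD

/-!
# FOL. The folding bound

`fold_bound`: if `γ h ∈ K` and `γ' h ∈ K` then `γ' γ⁻¹ ∈ K K⁻¹`, a compact set, which contains only finitely
many integral matrices (bounded integer entries). So the number of `γ` with `γ h ∈ K` is at most the number
`C` of `γ` with `toR γ ∈ K K⁻¹` (if there is one such `γ`, otherwise `0`).

`unfold_le`: `∫_K f = ∫_DD Σ_γ 1_K(γh) f(γh) = ∫_DD (Σ_γ 1_K(γh)) f(h) ≤ C ∫_DD f`.
-/

open MeasureTheory Set Filter Topology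
open scoped ENNReal NNReal Pointwise

namespace Pool.Agent.ILL

theorem finite_int_compact {K : Set SLR} (hK : IsCompact K) : {γ : SLZ | toR γ ∈ K}.Finite := by
  have hb : ∀ i j : Fin 2, ∃ C : ℝ, ∀ h ∈ K, |h i j| ≤ C := by
    intro i j
    obtain ⟨C, hC⟩ := hK.exists_bound_of_continuousOn (fda_cont i j).continuousOn
    exact ⟨C, fun h hh => by simpa using hC h hh⟩
  choose C hC using hb
  obtain ⟨N, hN⟩ : ∃ N : ℤ, ∀ i j : Fin 2, C i j ≤ N := by
    obtain ⟨N, hN⟩ := exists_int_ge (max (max (C 0 0) (C 0 1)) (max (C 1 0) (C 1 1)))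
    refine ⟨N, fun i j => le_trans ?_ hN⟩
    fin_cases i <;> fin_cases j <;> simp
  have hfin : ((Icc (-N) N ×ˢ Icc (-N) N) ×ˢ (Icc (-N) N ×ˢ Icc (-N) N) :
      Set ((ℤ × ℤ) × (ℤ × ℤ))).Finite :=
    ((Set.finite_Icc _ _).prod (Set.finite_Icc _ _)).prod
      ((Set.finite_Icc _ _).prod (Set.finite_Icc _ _))
  have hinj : Function.Injective
      (fun γ : SLZ => ((γ 0 0, γ 0 1), (γ 1 0, γ 1 1))) := by
    intro γ γ' h
    simp only [Prod.mk.injEq] at h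
    obtain ⟨⟨h1, h2⟩, h3, h4⟩ := h
    ext i j
    fin_cases i <;> fin_cases j
    · exact h1
    · exact h2
    · exact h3
    · exact h4
  refine (hfin.preimage hinj.injOn).subset ?_
  intro γ hγ
  have hij : ∀ i j : Fin 2, γ i j ∈ Icc (-N) N := by
    intro i j
    have h1 : |((γ i j : ℤ) : ℝ)| ≤ (N : ℝ) := (hC i j _ hγ).trans (hN i j)
    have h2 : |γ i j| ≤ N := by exact_mod_cast h1
    exact abs_le.1 h2
  exact ⟨⟨hij 0 0, hij 0 1⟩, ⟨hij 1 0, hij 1 1⟩⟩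

theorem fold_bound {K : Set SLR} (hK : IsCompact K) :
    ∃ C : ℝ≥0, ∀ h : SLR, ∑' γ : SLZ, K.indicator (fun _ => (1 : ℝ≥0∞)) (toR γ * h) ≤ C := by
  have hF := finite_int_compact (hK.mul hK.inv)
  refine ⟨(hF.toFinset.card : ℝ≥0), fun h => ?_⟩
  by_cases he : ∃ γ₀ : SLZ, toR γ₀ * h ∈ K
  · obtain ⟨γ₀, h₀⟩ := he
    rw [← (Equiv.mulRight γ₀).tsum_eq]
    have hz : ∀ δ ∉ hF.toFinset,
        K.indicator (fun _ => (1 : ℝ≥0∞)) (toR ((Equiv.mulRight γ₀) δ) * h) = 0 := by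
      intro δ hδ
      refine Set.indicator_of_notMem (fun hm => hδ ?_) _
      rw [Set.Finite.mem_toFinset]
      refine Set.mem_mul.2 ⟨_, hm, (toR γ₀ * h)⁻¹, Set.inv_mem_inv.2 h₀, ?_⟩
      simp only [Equiv.coe_mulRight, map_mul]
      group
    rw [tsum_eq_sum hz]
    calc ∑ δ ∈ hF.toFinset, K.indicator (fun _ => (1 : ℝ≥0∞)) (toR ((Equiv.mulRight γ₀) δ) * h)
        ≤ ∑ _δ ∈ hF.toFinset, (1 : ℝ≥0∞) := by
          refine Finset.sum_le_sum fun δ _ => ?_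
          exact Set.indicator_le_self' (fun _ _ => zero_le) _
      _ = ((hF.toFinset.card : ℝ≥0) : ℝ≥0∞) := by simp
  · push Not at he
    have hz : ∀ γ : SLZ, K.indicator (fun _ => (1 : ℝ≥0∞)) (toR γ * h) = 0 :=
      fun γ => Set.indicator_of_notMem (he γ) _
    simp [hz]

theorem unfold_le {K : Set SLR} (hK : IsCompact K) :
    ∃ C : ℝ≥0, ∀ f : SLR → ℝ≥0∞, Measurable f →
      (∀ γ : SLZ, ∀ᵐ h ∂muG, f (toR γ * h) = f h) →
      ∫⁻ h in K, f h ∂muG ≤ C * ∫⁻ h in DD, f h ∂muG := by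
  obtain ⟨C, hC⟩ := fold_bound hK
  refine ⟨C, fun f hf hinv => ?_⟩
  have hKm : MeasurableSet K := hK.isClosed.measurableSet
  rw [← lintegral_indicator hKm, lintegral_unfold _ (hf.indicator hKm),
    ← lintegral_const_mul _ hf]
  refine lintegral_mono_ae (ae_restrict_of_ae ?_)
  have h1 : ∀ᵐ h ∂muG, ∀ γ : SLZ, f (toR γ * h) = f h := by
    rw [ae_all_iff]; exact hinv
  filter_upwards [h1] with h hh
  have h2 : ∀ γ : SLZ, K.indicator f (toR γ * h) =
      K.indicator (fun _ => (1 : ℝ≥0∞)) (toR γ * h) * f h := by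
    intro γ
    by_cases hm : toR γ * h ∈ K
    · rw [Set.indicator_of_mem hm, Set.indicator_of_mem hm, hh γ, one_mul]
    · rw [Set.indicator_of_notMem hm, Set.indicator_of_notMem hm, zero_mul]
  simp only [h2]
  rw [ENNReal.tsum_mul_right]
  gcongr
  exact hC h

end Pool.Agent.ILL
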