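import Pool.Agent.ILL.Inv
import Pool.Agent.ILL.Fol

/-!
# UNX. Integrals over compact sets times unit cells

`∫_{K × (F0+z)} f ≤ C_K ∫_{DD × F0} f` for a.e. invariant `f ≥ 0`: by periodicity the left side is
`∫_{K×F0} f` (a.e. invariance under `eT z`), which is `∫_K F(h) dμ(h)` with `F` as in INV (a.e. invariant
under `SLZ`); apply `unfold_le`.
-/

open MeasureTheory Set Filter Topology
open scoped ENNReal NNReal

namespace Pool.Agent.ILL

variable {ρ : Measure Pl}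

theorem unfoldX (hρ : PerMeas ρ) {K : Set SLR} (hK : IsCompact K) :
    ∃ C : ℝ≥0, ∀ f : SLR × Pl → ℝ≥0∞, Measurable f → AEAut ρ f → ∀ z : ℤ × ℤ,
      ∫⁻ x in K ×ˢ {P | P + ZP z ∈ F0}, f x ∂(muG.prod ρ) ≤
        C * ∫⁻ x in DF, f x ∂(muG.prod ρ) := by
  obtain ⟨C, hC⟩ := unfold_le hK
  refine ⟨C, fun f hf ha z => ?_⟩
  obtain ⟨F, mF, hF, hint⟩ := INV_F hρ hf ha
  have e : ∀ x : SLR × Pl, eR 1 x = x := fun x => by
    rw [eR_apply, mul_one]
  have h1 := hint K hK.measurableSet 1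
  have h2 := hint DD measurableSet_DD 1
  simp only [e, mul_one] at h1 h2
  have hz := (ha.all hρ).2 z
  have e1 : K ×ˢ {P | P + ZP z ∈ F0} = (eT z) ⁻¹' (K ×ˢ F0) := rfl
  have e2 : ∫⁻ x in (eT z) ⁻¹' (K ×ˢ F0), f x ∂(muG.prod ρ) =
      ∫⁻ x in (eT z) ⁻¹' (K ×ˢ F0), f (eT z x) ∂(muG.prod ρ) := by
    apply lintegral_congr_ae
    apply ae_restrict_of_ae
    filter_upwards [hz] with x hx
    exact hx.symm
  rw [e1, e2, (mp_eT hρ z).setLIntegral_comp_preimage
    (hK.measurableSet.prod measurableSet_F0) hf, h1]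
  unfold DF
  rw [h2]
  exact hC F mF hF

/-- the same for the integral over the group with a bounded weight (only `SLZ`-invariance) -/
theorem unfold_weight {K : Set SLR} (hK : IsCompact K) :
    ∃ C : ℝ≥0, ∀ f : SLR → ℝ≥0∞, Measurable f →
      (∀ γ : SLZ, ∀ᵐ h ∂muG, f (toR γ * h) = f h) → ∀ g : SLR,
      ∫⁻ h in K, f (h * g) ∂muG ≤ C * ∫⁻ h in DD, f h ∂muG := by
  obtain ⟨C, hC⟩ := unfold_le hK
  refine ⟨C, fun f hf hinv g => ?_⟩
  rw [← dd_right f hf hinv g]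
  apply hC (fun h => f (h * g)) (hf.comp (muG_mul_right g).measurable)
  intro γ
  have := (muG_mul_right g).quasiMeasurePreserving.ae (hinv γ)
  filter_upwards [this] with h hh
  rw [mul_assoc]
  exact hh

end Pool.Agent.ILL
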