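import Pool.Agent.ILL.EDefs
import Pool.Agent.ILL.Unx
import Pool.Agent.ILL.Dth

/-!
# EBD. The `L¹` bound for sums over the group

With `F(h) = Σ_γ ‖g(γh)‖` (invariant under left multiplication by `SLZ`) and `K = M · Rg δ'` (compact), the left side is
`∫_K F(h dg u) dμ(h) ≤ C_K ∫_DD F = C_K ∫ ‖g‖` by `muG_mul_left`, `unfold_weight`, `lintegral_unfold`.
-/

open MeasureTheory Set Filter Topology
open scoped ENNReal NNReal

namespace Pool.Agent.ILL

theorem esum_bound (M : SLR) (δ' : ℝ) : ∃ C : ℝ≥0, ∀ g : SLR → ℂ, Measurable g → ∀ u : ℝ,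
    ∫⁻ p in Rg δ', ∑' γ : SLZ, ‖g (toR γ * (M * p * dg u))‖ₑ ∂muG ≤ C * ∫⁻ h, ‖g h‖ₑ ∂muG := by
  have hcm : Countable (Matrix (Fin 2) (Fin 2) ℤ) :=
    inferInstanceAs (Countable (Fin 2 → Fin 2 → ℤ))
  have hcs : Countable SLZ := Subtype.countable
  have hK : IsCompact ((fun p => M * p) '' Rg δ') :=
    (Rg_compact δ').image (continuous_const.mul continuous_id)
  obtain ⟨C, hC⟩ := unfold_weight hK
  refine ⟨C, fun g hg u => ?_⟩
  have hF : Measurable (fun h : SLR => ∑' γ : SLZ, ‖g (toR γ * h)‖ₑ) := by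
    refine Measurable.tsum fun γ => ?_
    exact (hg.comp (measurable_const_mul _)).enorm
  have hinv : ∀ γ : SLZ, ∀ᵐ h ∂muG,
      (∑' γ' : SLZ, ‖g (toR γ' * (toR γ * h))‖ₑ) = ∑' γ' : SLZ, ‖g (toR γ' * h)‖ₑ := by
    intro γ
    refine Filter.Eventually.of_forall fun h => ?_
    rw [← (Equiv.mulRight γ).tsum_eq (fun γ' : SLZ => ‖g (toR γ' * h)‖ₑ)]
    refine tsum_congr fun γ' => ?_
    simp [mul_assoc]
  have h1 := hC _ hF hinv (dg u)
  rw [← lintegral_unfold (fun h => ‖g h‖ₑ) hg.enorm] at h1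
  refine le_trans (le_of_eq ?_) h1
  have h2 : MeasurePreserving (fun p : SLR => M * p) muG muG := measurePreserving_mul_left muG M
  rw [← h2.setLIntegral_comp_emb (measurableEmbedding_mulLeft M)]

end Pool.Agent.ILL
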