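import Pool.Agent.ILL.MgB

/-!
# MGC. Haar measure: null sets, compact sets, instances

* `muG_col1_ne`: by `muG_coord` with the indicator of `{α h₀₀ + β h₁₀ = c}`: the set of `ζ` with
  `α ζ.1 + β ζ.2 = c` is a line, null in the plane.
* `muG_col2_ne`: apply `muG_col1_ne` and right multiplication by `!![0,-1;1,0]` (columns `(c₁,c₂) ↦
  (c₂,-c₁)`), `muG_mul_right`. `muG_row1_ne`, `muG_row2_ne`: transpose.
* finite on compacts: on a compact `K` the first column `ζ` satisfies `r ≤ |ζ| ≤ R` and `x = (c₁·c₂)/|c₁|²`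
  is bounded, so `muG K ≤ (1/2) vol(disc) · length < ∞`.
* `muG ≠ 0`: the total mass is the volume of the nonempty open-interior set `{0 < dt ≤ 1}`.
* The invariance instances follow from `muG_mul_left`, `muG_mul_right`.
-/

open MeasureTheory Set Filter Topology
open scoped ENNReal NNReal

namespace Pool.Agent.ILL

private theorem cont_entry (i j : Fin 2) : Continuous fun g : SLR => (g i j : ℝ) :=
  (continuous_apply j).comp ((continuous_apply i).comp continuous_subtype_val)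

private theorem line_null {α β : ℝ} (c : ℝ) (h : α ≠ 0 ∨ β ≠ 0) :
    ∀ᵐ ζ : Pl, α * ζ.1 + β * ζ.2 ≠ c := by
  have hm : MeasurableSet {ζ : Pl | α * ζ.1 + β * ζ.2 ≠ c} := by
    have h1 : Measurable fun ζ : Pl => α * ζ.1 + β * ζ.2 := by fun_prop
    exact (h1 (measurableSet_singleton c)).compl
  have e : (volume : Measure Pl) = (volume : Measure ℝ).prod volume := rfl
  by_cases hβ : β = 0
  · have hα : α ≠ 0 := by
      rcases h with h | h
      · exact h
      · exact absurd hβ h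
    have h1 : ∀ᵐ x : ℝ, α * x ≠ c := by
      have h2 : ({c / α} : Set ℝ)ᶜ ∈ ae (volume : Measure ℝ) := by
        rw [compl_mem_ae_iff]
        exact Real.volume_singleton
      filter_upwards [h2] with x hx hc
      apply hx
      rw [← hc]
      field_simp
      rfl
    have h3 : ∀ᵐ ζ : Pl, α * ζ.1 ≠ c := by
      rw [e]
      exact (Measure.quasiMeasurePreserving_fst (μ := (volume : Measure ℝ))
        (ν := (volume : Measure ℝ))).ae h1
    filter_upwards [h3] with ζ hζ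
    simpa [hβ] using hζ
  · rw [e, Measure.ae_prod_iff_ae_ae hm]
    refine Eventually.of_forall fun x => ?_
    have h2 : ({(c - α * x) / β} : Set ℝ)ᶜ ∈ ae (volume : Measure ℝ) := by
      rw [compl_mem_ae_iff]
      exact Real.volume_singleton
    filter_upwards [h2] with y hy hc
    apply hy
    rw [← hc]
    simp only [mem_singleton_iff]
    field_simp
    ring

private theorem ae_ne_zero : ∀ᵐ ζ : Pl, ζ.1 ^ 2 + ζ.2 ^ 2 ≠ 0 := by
  filter_upwards [line_null (α := 1) (β := 0) 0 (Or.inl one_ne_zero)] with ζ hζ h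
  apply hζ
  have : ζ.1 = 0 := by nlinarith [sq_nonneg ζ.1, sq_nonneg ζ.2]
  rw [this]
  ring

private theorem cmat00 {ζ : Pl} (h : ζ.1 ^ 2 + ζ.2 ^ 2 ≠ 0) (x : ℝ) : cmat ζ x 0 0 = ζ.1 := by
  simp [cmat, h]

private theorem cmat10 {ζ : Pl} (h : ζ.1 ^ 2 + ζ.2 ^ 2 ≠ 0) (x : ℝ) : cmat ζ x 1 0 = ζ.2 := by
  simp [cmat, h]

private theorem cmat01 {ζ : Pl} (h : ζ.1 ^ 2 + ζ.2 ^ 2 ≠ 0) (x : ℝ) :
    cmat ζ x 0 1 = x * ζ.1 - ζ.2 / (ζ.1 ^ 2 + ζ.2 ^ 2) := by
  simp [cmat, h]

private theorem cmat11 {ζ : Pl} (h : ζ.1 ^ 2 + ζ.2 ^ 2 ≠ 0) (x : ℝ) :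
    cmat ζ x 1 1 = x * ζ.2 + ζ.1 / (ζ.1 ^ 2 + ζ.2 ^ 2) := by
  simp [cmat, h]

theorem muG_col1_ne {α β : ℝ} (c : ℝ) (h : α ≠ 0 ∨ β ≠ 0) :
    ∀ᵐ g ∂muG, α * g 0 0 + β * g 1 0 ≠ c := by
  have hm : MeasurableSet {g : SLR | α * g 0 0 + β * g 1 0 = c} := by
    have h1 : Continuous fun g : SLR => α * g 0 0 + β * g 1 0 :=
      (continuous_const.mul (cont_entry 0 0)).add (continuous_const.mul (cont_entry 1 0))
    exact h1.measurable (measurableSet_singleton c)
  have h2 := muG_coord ({g : SLR | α * g 0 0 + β * g 1 0 = c}.indicator 1)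
    (measurable_const.indicator hm)
  rw [lintegral_indicator_one hm] at h2
  have h3 : ∫⁻ ζ : Pl, ∫⁻ x : ℝ, ({g : SLR | α * g 0 0 + β * g 1 0 = c}.indicator 1 (cmat ζ x) : ℝ≥0∞)
      = 0 := by
    have h4 : ∀ᵐ ζ : Pl, (∫⁻ x : ℝ, ({g : SLR | α * g 0 0 + β * g 1 0 = c}.indicator 1
        (cmat ζ x) : ℝ≥0∞)) = 0 := by
      filter_upwards [ae_ne_zero, line_null c h] with ζ h5 h6
      have h7 : ∀ x : ℝ, ({g : SLR | α * g 0 0 + β * g 1 0 = c}.indicator 1
        (cmat ζ x) : ℝ≥0∞) = 0 := by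
        intro x
        apply indicator_of_notMem
        simp only [mem_ofPred_eq]
        rw [cmat00 h5, cmat10 h5]
        exact h6
      simp [h7]
    rw [lintegral_congr_ae h4]
    simp
  rw [h3, mul_zero] at h2
  rw [ae_iff]
  simpa using h2

/-- the rotation by a right angle -/
private def rw0 : SLR := ⟨!![0, -1; 1, 0], by simp [Matrix.det_fin_two]⟩

theorem muG_col2_ne {α β : ℝ} (c : ℝ) (h : α ≠ 0 ∨ β ≠ 0) :
    ∀ᵐ g ∂muG, α * g 0 1 + β * g 1 1 ≠ c := by
  filter_upwards [(muG_mul_right rw0).quasiMeasurePreserving.ae (muG_col1_ne c h)] with g hg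
  have e0 : (g * rw0) 0 0 = g 0 1 := by
    rw [Matrix.SpecialLinearGroup.coe_mul, Matrix.mul_apply]
    simp [rw0, Fin.sum_univ_two]
  have e1 : (g * rw0) 1 0 = g 1 1 := by
    rw [Matrix.SpecialLinearGroup.coe_mul, Matrix.mul_apply]
    simp [rw0, Fin.sum_univ_two]
  rw [e0, e1] at hg
  exact hg

theorem muG_row1_ne {α β : ℝ} (c : ℝ) (h : α ≠ 0 ∨ β ≠ 0) :
    ∀ᵐ g ∂muG, α * g 0 0 + β * g 0 1 ≠ c := by
  filter_upwards [muG_transpose.quasiMeasurePreserving.ae (muG_col1_ne c h)] with g hg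
  simpa [Matrix.SpecialLinearGroup.transpose] using hg

theorem muG_row2_ne {α β : ℝ} (c : ℝ) (h : α ≠ 0 ∨ β ≠ 0) :
    ∀ᵐ g ∂muG, α * g 1 0 + β * g 1 1 ≠ c := by
  filter_upwards [muG_transpose.quasiMeasurePreserving.ae (muG_col2_ne c h)] with g hg
  simpa [Matrix.SpecialLinearGroup.transpose] using hg

private theorem col_ne (g : SLR) : g 0 0 ^ 2 + g 1 0 ^ 2 ≠ 0 := by
  intro h
  have h0 : g 0 0 = 0 := by nlinarith [sq_nonneg (g 0 0), sq_nonneg (g 1 0)]
  have h1 : g 1 0 = 0 := by nlinarith [sq_nonneg (g 0 0), sq_nonneg (g 1 0)]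
  have hd := g.det_coe
  rw [Matrix.det_fin_two, h0, h1] at hd
  simp at hd

instance muG_fmc : IsFiniteMeasureOnCompacts muG := by
  constructor
  intro K hK
  have hKm : MeasurableSet K := hK.measurableSet
  have c1 : ContinuousOn (fun g : SLR => |g 0 0| + |g 1 0|) K :=
    ((cont_entry 0 0).abs.add (cont_entry 1 0).abs).continuousOn
  have c2 : ContinuousOn (fun g : SLR => |(g 0 0 * g 0 1 + g 1 0 * g 1 1) /
      (g 0 0 ^ 2 + g 1 0 ^ 2)|) K := by
    refine (Continuous.abs (Continuous.div ?_ ?_ col_ne)).continuousOn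
    · exact ((cont_entry 0 0).mul (cont_entry 0 1)).add ((cont_entry 1 0).mul (cont_entry 1 1))
    · exact ((cont_entry 0 0).pow 2).add ((cont_entry 1 0).pow 2)
  obtain ⟨R, hR⟩ := hK.bddAbove_image c1
  obtain ⟨X, hX⟩ := hK.bddAbove_image c2
  have hR' : ∀ g ∈ K, |g 0 0| + |g 1 0| ≤ R := fun g hg => hR (mem_image_of_mem _ hg)
  have hX' : ∀ g ∈ K, |(g 0 0 * g 0 1 + g 1 0 * g 1 1) / (g 0 0 ^ 2 + g 1 0 ^ 2)| ≤ X :=
    fun g hg => hX (mem_image_of_mem _ hg)
  have h2 := muG_coord (K.indicator 1) (measurable_const.indicator hKm)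
  rw [lintegral_indicator_one hKm] at h2
  rw [h2]
  have h3 : ∫⁻ ζ : Pl, ∫⁻ x : ℝ, (K.indicator 1 (cmat ζ x) : ℝ≥0∞) ≤
      ∫⁻ ζ : Pl, (Icc (-R) R ×ˢ Icc (-R) R).indicator (fun _ => volume (Icc (-X) X)) ζ := by
    apply lintegral_mono_ae
    filter_upwards [ae_ne_zero] with ζ h5
    by_cases hζ : ζ ∈ Icc (-R) R ×ˢ Icc (-R) R
    · rw [indicator_of_mem hζ, ← lintegral_indicator_one measurableSet_Icc]
      apply lintegral_mono
      intro x
      by_cases hx : cmat ζ x ∈ K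
      · have h6 := hX' _ hx
        rw [cmat00 h5, cmat10 h5, cmat01 h5, cmat11 h5] at h6
        have h7 : (ζ.1 * (x * ζ.1 - ζ.2 / (ζ.1 ^ 2 + ζ.2 ^ 2)) +
            ζ.2 * (x * ζ.2 + ζ.1 / (ζ.1 ^ 2 + ζ.2 ^ 2))) / (ζ.1 ^ 2 + ζ.2 ^ 2) = x := by
          field_simp
          ring
        rw [h7] at h6
        have h8 : x ∈ Icc (-X) X := abs_le.1 h6
        simp only [indicator_of_mem hx, indicator_of_mem h8]
        exact le_rfl
      · simp only [indicator_of_notMem hx]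
        exact zero_le
    · rw [indicator_of_notMem hζ]
      have h9 : ∀ x : ℝ, (K.indicator 1 (cmat ζ x) : ℝ≥0∞) = 0 := by
        intro x
        apply indicator_of_notMem
        intro hx
        apply hζ
        have h6 := hR' _ hx
        rw [cmat00 h5, cmat10 h5] at h6
        have h61 : |ζ.1| ≤ R := by linarith [abs_nonneg ζ.2]
        have h62 : |ζ.2| ≤ R := by linarith [abs_nonneg ζ.1]
        exact ⟨abs_le.1 h61, abs_le.1 h62⟩
      simp [h9]
  have h4 : ∫⁻ ζ : Pl, (Icc (-R) R ×ˢ Icc (-R) R).indicator (fun _ => volume (Icc (-X) X)) ζ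
      < ∞ := by
    rw [lintegral_indicator (measurableSet_Icc.prod measurableSet_Icc), setLIntegral_const]
    apply ENNReal.mul_lt_top
    · rw [Real.volume_Icc]
      exact ENNReal.ofReal_lt_top
    · exact (isCompact_Icc.prod isCompact_Icc).measure_lt_top
  exact ENNReal.mul_lt_top (by simp) (lt_of_le_of_lt h3 h4)

instance muG_sigma : SigmaFinite muG := by
  have : IsLocallyFiniteMeasure muG := isLocallyFiniteMeasure_of_isFiniteMeasureOnCompacts
  infer_instance

instance muG_li : muG.IsMulLeftInvariant :=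
  ⟨fun g => (muG_mul_left g).map_eq⟩

instance muG_ri : muG.IsMulRightInvariant :=
  ⟨fun g => (muG_mul_right g).map_eq⟩

theorem muG_ne_zero : muG ≠ 0 := by
  intro h
  have h1 : muG univ = 0 := by rw [h]; simp
  rw [muG, Measure.map_apply measurable_nrm MeasurableSet.univ, preimage_univ,
    Measure.restrict_apply_univ] at h1
  have hc : Continuous (dt : Pl × Pl → ℝ) := by
    unfold dt
    fun_prop
  have ho : IsOpen {A : Pl × Pl | 0 < dt A ∧ dt A < 1} :=
    (isOpen_lt continuous_const hc).inter (isOpen_lt hc continuous_const)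
  have hne : ({A : Pl × Pl | 0 < dt A ∧ dt A < 1} : Set (Pl × Pl)).Nonempty := by
    refine ⟨((1, 0), (0, 1 / 2)), ?_⟩
    simp only [dt, mem_ofPred_eq]
    norm_num
  have h2 : (volume : Measure (Pl × Pl)) {A : Pl × Pl | 0 < dt A ∧ dt A < 1} ≤
      volume {A : Pl × Pl | 0 < dt A ∧ dt A ≤ 1} :=
    measure_mono fun A hA => ⟨hA.1, hA.2.le⟩
  have h3 := ho.measure_pos volume hne
  rw [h1] at h2
  exact absurd (le_antisymm h2 zero_le) h3.ne'

end Pool.Agent.ILL
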