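import Pool.Agent.ILL.EDefs
import Pool.Agent.ILL.MgC

/-!
# RWC. The Haar measure in row coordinates

`rmat ξ q` has first row `ξ` and second row `(q ξ.1 - 1/ξ.2, q ξ.2)`. From `muG_coord` and `muG_transpose`:
`∫ F dμ = (1/2) ∫_ξ ∫_x F((cmat ξ x)ᵀ)`, and `(cmat ξ x)ᵀ` has rows `ξ` and `x ξ + Jξ/|ξ|²`; for `ξ.2 ≠ 0` put
`q = x + ξ.1/(ξ.2 |ξ|²)` (a translation of `x` for fixed `ξ`): the second row is
`(q ξ.1 - ξ.1²/(ξ.2|ξ|²) - ξ.2/|ξ|², q ξ.2 - ξ.1/|ξ|² + ξ.1/|ξ|²) = (q ξ.1 - 1/ξ.2, q ξ.2)`.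
`h ∈ SLR` with `h₀₁ ≠ 0` is `rmat (row1 h) (qq h)`.
-/

open MeasureTheory Set Filter Topology
open scoped ENNReal NNReal

namespace Pool.Agent.ILL

private theorem rwc_entry (i j : Fin 2) : Continuous fun g : SLR => (g i j : ℝ) :=
  (continuous_apply j).comp ((continuous_apply i).comp continuous_subtype_val)

private theorem rwc_pos {ξ : Pl} (h : ξ.2 ≠ 0) (q : ℝ) :
    (rmat ξ q).1 = !![ξ.1, ξ.2; q * ξ.1 - 1 / ξ.2, q * ξ.2] := by
  unfold rmat
  rw [dif_pos h]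

private theorem rwc_neg {ξ : Pl} (h : ¬ ξ.2 ≠ 0) (q : ℝ) : rmat ξ q = 1 := by
  unfold rmat
  rw [dif_neg h]

private theorem rwc00 {ξ : Pl} (h : ξ.2 ≠ 0) (q : ℝ) : rmat ξ q 0 0 = ξ.1 := by
  simp [rmat, h]

private theorem rwc01 {ξ : Pl} (h : ξ.2 ≠ 0) (q : ℝ) : rmat ξ q 0 1 = ξ.2 := by
  simp [rmat, h]

private theorem rwc11 {ξ : Pl} (h : ξ.2 ≠ 0) (q : ℝ) : rmat ξ q 1 1 = q * ξ.2 := by
  simp [rmat, h]

private theorem rwc_ae : ∀ᵐ ξ : Pl, ξ.2 ≠ 0 := by
  have h1 : ∀ᵐ x : ℝ, x ≠ 0 := by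
    have h2 : ({0} : Set ℝ)ᶜ ∈ ae (volume : Measure ℝ) := by
      rw [compl_mem_ae_iff]
      exact Real.volume_singleton
    filter_upwards [h2] with x hx
    exact hx
  exact (Measure.quasiMeasurePreserving_snd (μ := (volume : Measure ℝ))
    (ν := (volume : Measure ℝ))).ae h1

private theorem rwc_cmat {ξ : Pl} (h : ξ.2 ≠ 0) (x : ℝ) :
    (cmat ξ x).transpose = rmat ξ (x + ξ.1 / (ξ.2 * (ξ.1 ^ 2 + ξ.2 ^ 2))) := by
  have hN : ξ.1 ^ 2 + ξ.2 ^ 2 ≠ 0 := by positivity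
  apply Subtype.ext
  rw [rwc_pos h]
  show (cmat ξ x).1.transpose = _
  have h1 : (cmat ξ x).1 = !![ξ.1, x * ξ.1 - ξ.2 / (ξ.1 ^ 2 + ξ.2 ^ 2);
      ξ.2, x * ξ.2 + ξ.1 / (ξ.1 ^ 2 + ξ.2 ^ 2)] := by
    unfold cmat
    rw [dif_pos hN]
  rw [h1]
  ext i j
  fin_cases i <;> fin_cases j
  · simp
  · simp
  · simp
    field_simp
    ring
  · simp
    field_simp

theorem muG_row {F : SLR → ℝ≥0∞} (hF : Measurable F) :
    ∫⁻ h, F h ∂muG = (1 / 2) * ∫⁻ ξ : Pl, ∫⁻ q : ℝ, F (rmat ξ q) := by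
  have h1 := muG_transpose.lintegral_comp hF
  rw [← h1, muG_coord (fun h => F h.transpose) (hF.comp muG_transpose.measurable)]
  congr 1
  apply lintegral_congr_ae
  filter_upwards [rwc_ae] with ξ hξ
  have h2 : ∀ x : ℝ, F (cmat ξ x).transpose =
      (fun q => F (rmat ξ q)) (x + ξ.1 / (ξ.2 * (ξ.1 ^ 2 + ξ.2 ^ 2))) := by
    intro x
    show _ = F (rmat ξ (x + ξ.1 / (ξ.2 * (ξ.1 ^ 2 + ξ.2 ^ 2))))
    rw [← rwc_cmat hξ]
  rw [lintegral_congr h2]
  exact lintegral_add_right_eq_self (fun q => F (rmat ξ q)) _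

private theorem rwc_open : IsOpen {p : Pl × ℝ | p.1.2 ≠ 0} :=
  isOpen_ne_fun (by fun_prop) continuous_const

private theorem rwc_contOn :
    ContinuousOn (fun p : Pl × ℝ => rmat p.1 p.2) {p : Pl × ℝ | p.1.2 ≠ 0} := by
  have hind : @Topology.IsInducing SLR (Matrix (Fin 2) (Fin 2) ℝ) _ _ Subtype.val := ⟨rfl⟩
  refine hind.continuousOn_iff.2 ?_
  refine ContinuousOn.congr (f := fun p : Pl × ℝ =>
    (!![p.1.1, p.1.2; p.2 * p.1.1 - 1 / p.1.2, p.2 * p.1.2] :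
      Matrix (Fin 2) (Fin 2) ℝ)) ?_ (fun p hp => rwc_pos hp p.2)
  refine continuousOn_pi.2 fun i => continuousOn_pi.2 fun j => ?_
  fin_cases i <;> fin_cases j
  · show ContinuousOn (fun p : Pl × ℝ => p.1.1) _
    fun_prop
  · show ContinuousOn (fun p : Pl × ℝ => p.1.2) _
    fun_prop
  · show ContinuousOn (fun p : Pl × ℝ => p.2 * p.1.1 - 1 / p.1.2) _
    exact ContinuousOn.sub (by fun_prop) (ContinuousOn.div (by fun_prop) (by fun_prop)
      fun p hp => hp)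
  · show ContinuousOn (fun p : Pl × ℝ => p.2 * p.1.2) _
    fun_prop

theorem measurable_rmat : Measurable (fun p : Pl × ℝ => rmat p.1 p.2) := by
  apply measurable_of_isOpen
  intro V hV
  set U : Set (Pl × ℝ) := {p : Pl × ℝ | p.1.2 ≠ 0} with hU
  have h1 : (fun p : Pl × ℝ => rmat p.1 p.2) ⁻¹' V =
      (U ∩ (fun p : Pl × ℝ => rmat p.1 p.2) ⁻¹' V) ∪
      (Uᶜ ∩ (fun p : Pl × ℝ => rmat p.1 p.2) ⁻¹' V) := by
    rw [← Set.union_inter_distrib_right, Set.union_compl_self, Set.univ_inter]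
  rw [h1]
  refine (rwc_contOn.isOpen_inter_preimage rwc_open hV).measurableSet.union ?_
  by_cases h2 : (1 : SLR) ∈ V
  · have h3 : Uᶜ ∩ (fun p : Pl × ℝ => rmat p.1 p.2) ⁻¹' V = Uᶜ := by
      apply Set.inter_eq_left.2
      intro p hp
      show rmat p.1 p.2 ∈ V
      rw [rwc_neg hp]
      exact h2
    rw [h3]
    exact rwc_open.measurableSet.compl
  · have h3 : Uᶜ ∩ (fun p : Pl × ℝ => rmat p.1 p.2) ⁻¹' V = ∅ := by
      apply Set.eq_empty_of_forall_notMem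
      rintro p ⟨hp, hp'⟩
      apply h2
      rw [← rwc_neg hp p.2]
      exact hp'
    rw [h3]
    exact MeasurableSet.empty

theorem rmat_row (h : SLR) (h0 : h 0 1 ≠ 0) : rmat (row1 h) (qq h) = h := by
  have hd := h.det_coe
  rw [Matrix.det_fin_two] at hd
  have hr : (row1 h).2 ≠ 0 := h0
  apply Subtype.ext
  rw [rwc_pos hr]
  ext i j
  fin_cases i <;> fin_cases j
  · simp [row1]
  · simp [row1]
  · show qq h * h 0 0 - 1 / h 0 1 = h 1 0
    unfold qq
    field_simp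
    linarith
  · show qq h * h 0 1 = h 1 1
    unfold qq
    field_simp

theorem qq_rmat {ξ : Pl} (hξ : ξ.2 ≠ 0) (q : ℝ) : qq (rmat ξ q) = q := by
  unfold qq
  rw [rwc11 hξ, rwc01 hξ]
  field_simp

theorem measurable_qq : Measurable qq := by
  unfold qq
  exact (rwc_entry 1 1).measurable.div (rwc_entry 0 1).measurable

theorem measurableSet_St : MeasurableSet St := by
  have h1 : MeasurableSet {h : SLR | h 0 1 ≠ 0} :=
    ((rwc_entry 0 1).measurable (measurableSet_singleton 0)).compl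
  have h2 : MeasurableSet {h : SLR | 0 ≤ qq h} := measurableSet_le measurable_const measurable_qq
  have h3 : MeasurableSet {h : SLR | qq h < 1} := measurableSet_lt measurable_qq measurable_const
  exact h1.inter (h2.inter h3)

private theorem rwc_row1 : Measurable fun h : SLR => nrmI (row1 h) := by
  unfold nrmI row1
  exact ((rwc_entry 0 0).abs.max (rwc_entry 0 1).abs).measurable

/-- finite measure of the strip over a bounded set of first rows -/
theorem St_fin (R : ℝ) : muG (St ∩ {h | nrmI (row1 h) ≤ R}) < ∞ := by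
  have hm : MeasurableSet (St ∩ {h | nrmI (row1 h) ≤ R}) :=
    measurableSet_St.inter (measurableSet_le rwc_row1 measurable_const)
  have hr := muG_row (F := (St ∩ {h | nrmI (row1 h) ≤ R}).indicator 1)
    (measurable_const.indicator hm)
  rw [← lintegral_indicator_one hm, hr]
  have h3 : ∫⁻ ξ : Pl, ∫⁻ q : ℝ, ((St ∩ {h | nrmI (row1 h) ≤ R}).indicator 1 (rmat ξ q) : ℝ≥0∞) ≤
      ∫⁻ ξ : Pl, (Icc (-R) R ×ˢ Icc (-R) R).indicator
        (fun _ => volume (Icc (0 : ℝ) 1)) ξ := by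
    apply lintegral_mono_ae
    filter_upwards [rwc_ae] with ξ hξ
    by_cases hR : ξ ∈ Icc (-R) R ×ˢ Icc (-R) R
    · rw [indicator_of_mem hR, ← lintegral_indicator_one measurableSet_Icc]
      apply lintegral_mono
      intro q
      by_cases hq : rmat ξ q ∈ St ∩ {h | nrmI (row1 h) ≤ R}
      · have h1 := hq.1.2
        rw [qq_rmat hξ] at h1
        have h8 : q ∈ Icc (0 : ℝ) 1 := ⟨h1.1, h1.2.le⟩
        simp only [indicator_of_mem hq, indicator_of_mem h8]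
        exact le_rfl
      · simp only [indicator_of_notMem hq]
        exact zero_le
    · rw [indicator_of_notMem hR]
      have h9 : ∀ q : ℝ, ((St ∩ {h | nrmI (row1 h) ≤ R}).indicator 1 (rmat ξ q) : ℝ≥0∞) = 0 := by
        intro q
        apply indicator_of_notMem
        intro hq
        apply hR
        have h6 : nrmI (row1 (rmat ξ q)) ≤ R := hq.2
        unfold nrmI row1 at h6
        simp only [rwc00 hξ, rwc01 hξ] at h6
        exact ⟨abs_le.1 ((le_max_left _ _).trans h6), abs_le.1 ((le_max_right _ _).trans h6)⟩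
      simp [h9]
  have h4 : ∫⁻ ξ : Pl, (Icc (-R) R ×ˢ Icc (-R) R).indicator
      (fun _ => volume (Icc (0 : ℝ) 1)) ξ < ∞ := by
    rw [lintegral_indicator (measurableSet_Icc.prod measurableSet_Icc), setLIntegral_const]
    apply ENNReal.mul_lt_top
    · rw [Real.volume_Icc]
      exact ENNReal.ofReal_lt_top
    · exact (isCompact_Icc.prod isCompact_Icc).measure_lt_top
  exact ENNReal.mul_lt_top (by simp) (lt_of_le_of_lt h3 h4)

end Pool.Agent.ILL
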