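import Pool.Agent.ILL.Sdb
import Pool.Agent.ILL.Cus
import Pool.Agent.ILL.Rwc

/-!
# ECS. Sums over the group as sums over coprime pairs

For a function of the product class: the `γ` with first row `k` (coprime) are `gL^j * gam k`, `j ∈ ℤ`;
`row1 (γ H) = rv k H`, `qq (gL^j (gam k) H) = qq (gam k H) + j` if `(rv k H).2 ≠ 0`, so exactly one of them has
`γ H ∈ St`, and `e(m qq)` does not change when `qq` changes by an integer. If `(rv k H).2 = 0` all terms vanish on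
both sides (`φ₂ 0 = 0`, and `St` excludes it). Only finitely many `k` have `φ₁((rv k H).1) φ₂((rv k H).2) ≠ 0`, so
both sums are finite (`tsum_congr` via the equivalence of `SLZ` with coprime pairs times `ℤ`).
`gam_row`: the first row of `gam k` is `k`.
-/

open MeasureTheory Set Filter Topology
open scoped ENNReal NNReal

namespace Pool.Agent.ILL

theorem gam_row {k : ℤ × ℤ} (hk : Int.gcd k.1 k.2 = 1) :
    (gam k) 0 0 = k.1 ∧ (gam k) 0 1 = k.2 ∧ (gam k) 1 0 = Cc k ∧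
      k.1 * (gam k) 1 1 - k.2 * Cc k = 1 := by
  have h1 : (gam k).1 = !![k.1, k.2; -Int.gcdB k.1 k.2, Int.gcdA k.1 k.2] := by
    unfold gam
    rw [dif_pos hk]
  have h2 := Int.gcd_eq_gcd_ab k.1 k.2
  rw [hk] at h2
  push_cast at h2
  refine ⟨?_, ?_, ?_, ?_⟩
  · show (gam k).1 0 0 = _
    rw [h1]
    rfl
  · show (gam k).1 0 1 = _
    rw [h1]
    rfl
  · show (gam k).1 1 0 = _
    rw [h1]
    rfl
  · have h3 : (gam k) 1 1 = Int.gcdA k.1 k.2 := by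
      show (gam k).1 1 1 = _
      rw [h1]
      rfl
    rw [h3, Cc]
    linarith

theorem Cc_spec {k : ℤ × ℤ} (hk : Int.gcd k.1 k.2 = 1) : k.1 ∣ k.2 * Cc k + 1 := by
  obtain ⟨-, -, -, h⟩ := gam_row hk
  exact ⟨(gam k) 1 1, by linarith⟩

private def ecs_low (n : ℤ) : SLZ := ⟨!![1, 0; n, 1], by simp⟩

private theorem ecs_mul00 (n : ℤ) (γ : SLZ) : (ecs_low n * γ) 0 0 = γ 0 0 := by
  rw [Matrix.SpecialLinearGroup.coe_mul, Matrix.mul_apply]
  simp [ecs_low, Fin.sum_univ_two]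

private theorem ecs_mul01 (n : ℤ) (γ : SLZ) : (ecs_low n * γ) 0 1 = γ 0 1 := by
  rw [Matrix.SpecialLinearGroup.coe_mul, Matrix.mul_apply]
  simp [ecs_low, Fin.sum_univ_two]

private theorem ecs_mul10 (n : ℤ) (γ : SLZ) : (ecs_low n * γ) 1 0 = n * γ 0 0 + γ 1 0 := by
  rw [Matrix.SpecialLinearGroup.coe_mul, Matrix.mul_apply]
  simp [ecs_low, Fin.sum_univ_two]

private theorem ecs_mul11 (n : ℤ) (γ : SLZ) : (ecs_low n * γ) 1 1 = n * γ 0 1 + γ 1 1 := by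
  rw [Matrix.SpecialLinearGroup.coe_mul, Matrix.mul_apply]
  simp [ecs_low, Fin.sum_univ_two]

private theorem ecs_toR (γ : SLZ) (i j : Fin 2) : (toR γ) i j = ((γ i j : ℤ) : ℝ) := rfl

private theorem ecs_R0 (γ : SLZ) (H : SLR) (j : Fin 2) :
    (toR γ * H) 0 j = (γ 0 0 : ℝ) * H 0 j + (γ 0 1 : ℝ) * H 1 j := by
  rw [Matrix.SpecialLinearGroup.coe_mul, Matrix.mul_apply, Fin.sum_univ_two]
  rfl

private theorem ecs_R1 (γ : SLZ) (H : SLR) (j : Fin 2) :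
    (toR γ * H) 1 j = (γ 1 0 : ℝ) * H 0 j + (γ 1 1 : ℝ) * H 1 j := by
  rw [Matrix.SpecialLinearGroup.coe_mul, Matrix.mul_apply, Fin.sum_univ_two]
  rfl

private theorem ecs_qq (n : ℤ) (γ : SLZ) (H : SLR) (h0 : (toR γ * H) 0 1 ≠ 0) :
    qq (toR (ecs_low n * γ) * H) = qq (toR γ * H) + n := by
  unfold qq
  have e1 : (toR (ecs_low n * γ) * H) 0 1 = (toR γ * H) 0 1 := by
    rw [ecs_R0, ecs_R0, ecs_mul00, ecs_mul01]
  have e2 : (toR (ecs_low n * γ) * H) 1 1 = (toR γ * H) 1 1 + n * (toR γ * H) 0 1 := by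
    rw [ecs_R1, ecs_R1, ecs_R0, ecs_mul10, ecs_mul11]
    push_cast
    ring
  rw [e1, e2]
  field_simp

private theorem ecs_ex {k : ℤ × ℤ} (hk : Int.gcd k.1 k.2 = 1) {γ : SLZ} (h0 : γ 0 0 = k.1)
    (h1 : γ 0 1 = k.2) : ∃ n : ℤ, γ = ecs_low n * gam k := by
  obtain ⟨g0, g1, g2, g3⟩ := gam_row hk
  have hd := γ.det_coe
  rw [Matrix.det_fin_two] at hd
  rw [h0, h1] at hd
  refine ⟨γ 1 0 * (gam k) 1 1 - γ 1 1 * (gam k) 1 0, ?_⟩
  apply Subtype.ext
  ext i j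
  fin_cases i <;> fin_cases j
  · show γ 0 0 = _
    rw [h0, ← g0]
    exact (ecs_mul00 _ _).symm
  · show γ 0 1 = _
    rw [h1, ← g1]
    exact (ecs_mul01 _ _).symm
  · refine Eq.trans ?_ (ecs_mul10 _ _).symm
    show γ 1 0 = _
    rw [g0, g2]
    linear_combination (- γ 1 0) * g3 + Cc k * hd
  · refine Eq.trans ?_ (ecs_mul11 _ _).symm
    show γ 1 1 = _
    rw [g1, g2]
    linear_combination (- γ 1 1) * g3 + (gam k) 1 1 * hd

private theorem ecs_gcd (γ : SLZ) : Int.gcd (γ 0 0) (γ 0 1) = 1 := by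
  have hd := γ.det_coe
  rw [Matrix.det_fin_two] at hd
  rw [← Int.isCoprime_iff_gcd_eq_one]
  exact ⟨γ 1 1, -γ 1 0, by linarith⟩

private theorem ecs_phi0 {φ₁ φ₂ : ℝ → ℝ} {c₀ C₀ L : ℝ} (h : PC φ₁ φ₂ c₀ C₀ L) : φ₂ 0 = 0 :=
  h.near 0 (by rw [abs_zero]; exact h.c_pos.le)

private noncomputable def ecs_j (H : SLR) (k : {k : ℤ × ℤ // Int.gcd k.1 k.2 = 1}) : SLZ :=
  ecs_low (-⌊qq (toR (gam k.1) * H)⌋) * gam k.1

private theorem ecs_j00 (H : SLR) (k : {k : ℤ × ℤ // Int.gcd k.1 k.2 = 1}) :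
    (ecs_j H k) 0 0 = k.1.1 := by
  unfold ecs_j
  rw [ecs_mul00, (gam_row k.2).1]

private theorem ecs_j01 (H : SLR) (k : {k : ℤ × ℤ // Int.gcd k.1 k.2 = 1}) :
    (ecs_j H k) 0 1 = k.1.2 := by
  unfold ecs_j
  rw [ecs_mul01, (gam_row k.2).2.1]

private theorem ecs_inj (H : SLR) : Function.Injective (ecs_j H) := by
  intro k k' h
  apply Subtype.ext
  apply Prod.ext
  · rw [← ecs_j00 H k, ← ecs_j00 H k', h]
  · rw [← ecs_j01 H k, ← ecs_j01 H k', h]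

open Classical in
theorem esum_pc {φ₁ φ₂ : ℝ → ℝ} {c₀ C₀ L : ℝ} (h : PC φ₁ φ₂ c₀ C₀ L) (m : ℤ) (d : ℕ) (P : Pl)
    (H : SLR) :
    Esum (pc φ₁ φ₂ m) d P H = ∑' k : ℤ × ℤ, if Int.gcd k.1 k.2 = 1 then
      (φ₁ (rv k H).1 : ℂ) * (φ₂ (rv k H).2 : ℂ) * ee ((m : ℝ) * qq (toR (gam k) * H)) *
        ee ((d : ℝ) * dotZ k P) else 0 := by
  set g : ℤ × ℤ → ℂ := fun k => (φ₁ (rv k H).1 : ℂ) * (φ₂ (rv k H).2 : ℂ) *
    ee ((m : ℝ) * qq (toR (gam k) * H)) * ee ((d : ℝ) * dotZ k P) with hg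
  have e1 : (∑' k : ℤ × ℤ, if Int.gcd k.1 k.2 = 1 then g k else 0) =
      ∑' k : {k : ℤ × ℤ // Int.gcd k.1 k.2 = 1}, g k.1 := by
    rw [show (∑' k : {k : ℤ × ℤ // Int.gcd k.1 k.2 = 1}, g k.1) =
      ∑' k : ℤ × ℤ, {k : ℤ × ℤ | Int.gcd k.1 k.2 = 1}.indicator g k from tsum_subtype _ g]
    apply tsum_congr
    intro k
    by_cases hk : Int.gcd k.1 k.2 = 1
    · rw [if_pos hk, indicator_of_mem (show k ∈ {k : ℤ × ℤ | Int.gcd k.1 k.2 = 1} from hk)]
    · rw [if_neg hk, indicator_of_notMem (show k ∉ {k : ℤ × ℤ | Int.gcd k.1 k.2 = 1} from hk)]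
  rw [e1]
  unfold Esum
  rw [← (ecs_inj H).tsum_eq]
  · apply tsum_congr
    intro k
    have r0 : (toR (gam k.1) * H) 0 0 = (rv k.1 H).1 := by
      rw [ecs_R0, (gam_row k.2).1, (gam_row k.2).2.1]
      rfl
    have r1 : (toR (gam k.1) * H) 0 1 = (rv k.1 H).2 := by
      rw [ecs_R0, (gam_row k.2).1, (gam_row k.2).2.1]
      rfl
    have s0 : (toR (ecs_j H k) * H) 0 0 = (rv k.1 H).1 := by
      rw [ecs_R0, ecs_j00, ecs_j01]
      rfl
    have s1 : (toR (ecs_j H k) * H) 0 1 = (rv k.1 H).2 := by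
      rw [ecs_R0, ecs_j00, ecs_j01]
      rfl
    by_cases h0 : (rv k.1 H).2 = 0
    · have h1 : toR (ecs_j H k) * H ∉ St := fun h2 => h2.1 (s1.trans h0)
      simp only [hg]
      rw [pc, if_neg h1, h0, ecs_phi0 h]
      simp
    · have h1 : (toR (gam k.1) * H) 0 1 ≠ 0 := by rwa [r1]
      have h2 : qq (toR (ecs_j H k) * H) = Int.fract (qq (toR (gam k.1) * H)) := by
        unfold ecs_j
        rw [ecs_qq _ _ _ h1]
        push_cast
        rw [← sub_eq_add_neg]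
        rfl
      have h3 : toR (ecs_j H k) * H ∈ St := by
        refine ⟨by rwa [s1], ?_, ?_⟩
        · rw [h2]
          exact Int.fract_nonneg _
        · rw [h2]
          exact Int.fract_lt_one _
      have h4 : ee ((m : ℝ) * qq (toR (gam k.1) * H)) =
          ee ((m : ℝ) * qq (toR (ecs_j H k) * H)) := by
        have h5 : (m : ℝ) * qq (toR (gam k.1) * H) = (m : ℝ) * qq (toR (ecs_j H k) * H) +
            ((m * ⌊qq (toR (gam k.1) * H)⌋ : ℤ) : ℝ) := by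
          rw [h2]
          have := Int.fract_add_floor (qq (toR (gam k.1) * H))
          push_cast
          linear_combination (- (m : ℝ)) * this
        rw [h5, ee_add, ee_int, mul_one]
      simp only [hg]
      rw [pc, if_pos h3, h4, s0, s1, ecs_j00, ecs_j01]
      rfl
  · intro γ hγ
    rw [Function.mem_support] at hγ
    have h1 : toR γ * H ∈ St := by
      by_contra h2
      apply hγ
      rw [pc, if_neg h2, zero_mul]
    obtain ⟨n, hn⟩ := ecs_ex (k := (γ 0 0, γ 0 1)) (ecs_gcd γ) rfl rfl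
    refine ⟨⟨(γ 0 0, γ 0 1), ecs_gcd γ⟩, ?_⟩
    have h3 : (toR (gam (γ 0 0, γ 0 1)) * H) 0 1 ≠ 0 := by
      have h4 := h1.1
      rw [ecs_R0] at h4
      have g := gam_row (k := (γ 0 0, γ 0 1)) (ecs_gcd γ)
      rw [ecs_R0, g.1, g.2.1]
      exact h4
    have h5 := ecs_qq n (gam (γ 0 0, γ 0 1)) H h3
    rw [← hn] at h5
    have h6 := h1.2
    rw [h5] at h6
    have h7 : ⌊qq (toR (gam (γ 0 0, γ 0 1)) * H)⌋ = -n := by
      rw [Int.floor_eq_iff]
      push_cast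
      constructor
      · linarith [h6.1]
      · linarith [h6.2]
    unfold ecs_j
    show ecs_low (-⌊qq (toR (gam (γ 0 0, γ 0 1)) * H)⌋) * gam (γ 0 0, γ 0 1) = γ
    rw [h7, neg_neg]
    exact hn.symm

/-- finiteness of the sum -/
theorem rv_finite (H : SLR) (R : ℝ) : {k : ℤ × ℤ | nrmI (rv k H) ≤ R}.Finite := by
  have hd := H.det_coe
  rw [Matrix.det_fin_two] at hd
  obtain ⟨N, hN⟩ := exists_nat_ge (R * (|H 1 1| + |H 1 0|))
  obtain ⟨N', hN'⟩ := exists_nat_ge (R * (|H 0 1| + |H 0 0|))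
  apply ((Set.finite_Icc (-(N : ℤ)) N).prod (Set.finite_Icc (-(N' : ℤ)) N')).subset
  rintro ⟨a, b⟩ hk
  have hk' : max |(rv (a, b) H).1| |(rv (a, b) H).2| ≤ R := hk
  have k1 : |(rv (a, b) H).1| ≤ R := (le_max_left _ _).trans hk'
  have k2 : |(rv (a, b) H).2| ≤ R := (le_max_right _ _).trans hk'
  have e1 : (a : ℝ) = (rv (a, b) H).1 * H 1 1 - (rv (a, b) H).2 * H 1 0 := by
    simp only [rv]
    linear_combination (- (a : ℝ)) * hd
  have e2 : (b : ℝ) = (rv (a, b) H).2 * H 0 0 - (rv (a, b) H).1 * H 0 1 := by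
    simp only [rv]
    linear_combination (- (b : ℝ)) * hd
  have b1 : |(a : ℝ)| ≤ N := by
    rw [e1]
    refine (abs_sub _ _).trans ?_
    rw [abs_mul, abs_mul]
    have := mul_le_mul_of_nonneg_right k1 (abs_nonneg (H 1 1))
    have := mul_le_mul_of_nonneg_right k2 (abs_nonneg (H 1 0))
    linarith
  have b2 : |(b : ℝ)| ≤ N' := by
    rw [e2]
    refine (abs_sub _ _).trans ?_
    rw [abs_mul, abs_mul]
    have := mul_le_mul_of_nonneg_right k1 (abs_nonneg (H 0 1))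
    have := mul_le_mul_of_nonneg_right k2 (abs_nonneg (H 0 0))
    linarith
  rw [abs_le] at b1 b2
  refine ⟨⟨?_, ?_⟩, ⟨?_, ?_⟩⟩
  · exact_mod_cast b1.1
  · exact_mod_cast b1.2
  · exact_mod_cast b2.1
  · exact_mod_cast b2.2

end Pool.Agent.ILL
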