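import Pool.Agent.ILL.MgA

/-!
# MGB. The Haar measure in coordinates

`∫ f dμ = (1/2) ∫_ζ ∫_x f(cmat ζ x) dx dζ`, `cmat ζ x` = matrix with columns `ζ` and `x ζ + Jζ/|ζ|²`,
`J(a,b) = (-b,a)`.

PROOF. By definition `∫ f dμ = ∫_{A.1} ∫_{A.2} 1[0 < dt A ≤ 1] f(nrm A)`. For fixed `η = A.1 ≠ 0` substitute
`A.2 = x η + z Jη/|η|²`, a linear map `(x,z) ↦ A.2` of determinant `det(η, Jη/|η|²) = 1`, and `dt A = z`.
For `0 < z ≤ 1`: `nrm A = cmat (η/√z) x`: first column `η/√z = ζ`, second column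
`(x η + z Jη/|η|²)/√z = x ζ + √z Jη/|η|²` and `Jη/|η|² = √z Jζ/(z |ζ|²) = Jζ/(√z |ζ|²)`. So
`∫ f dμ = ∫_{z ∈ (0,1]} ∫_x ∫_η f(cmat (η/√z) x) dη dx dz`, and `η = √z ζ`, `dη = z dζ` (dimension two),
gives `∫_{(0,1]} z dz · ∫∫ = 1/2 ∫∫`. (Tonelli; for the linear substitution use `mv_volume` with the
matrix `!![η.1, -η.2/|η|²; η.2, η.1/|η|²]` of determinant one.)
-/

open MeasureTheory Set Filter Topology
open scoped ENNReal NNReal

namespace Pool.Agent.ILL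

private theorem cmat_pos {ζ : Pl} (h : ζ.1 ^ 2 + ζ.2 ^ 2 ≠ 0) (x : ℝ) :
    (cmat ζ x).1 = !![ζ.1, x * ζ.1 - ζ.2 / (ζ.1 ^ 2 + ζ.2 ^ 2);
      ζ.2, x * ζ.2 + ζ.1 / (ζ.1 ^ 2 + ζ.2 ^ 2)] := by
  unfold cmat
  rw [dif_pos h]

private theorem cmat_neg {ζ : Pl} (h : ¬ ζ.1 ^ 2 + ζ.2 ^ 2 ≠ 0) (x : ℝ) : cmat ζ x = 1 := by
  unfold cmat
  rw [dif_neg h]

private theorem isOpen_ne : IsOpen {p : Pl × ℝ | p.1.1 ^ 2 + p.1.2 ^ 2 ≠ 0} :=
  isOpen_ne_fun (by fun_prop) continuous_const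

private theorem continuousOn_cmat :
    ContinuousOn (fun p : Pl × ℝ => cmat p.1 p.2) {p : Pl × ℝ | p.1.1 ^ 2 + p.1.2 ^ 2 ≠ 0} := by
  have hind : @Topology.IsInducing SLR (Matrix (Fin 2) (Fin 2) ℝ) _ _ Subtype.val := ⟨rfl⟩
  refine hind.continuousOn_iff.2 ?_
  have h1 : ContinuousOn (fun p : Pl × ℝ => p.1.1 ^ 2 + p.1.2 ^ 2)
      {p : Pl × ℝ | p.1.1 ^ 2 + p.1.2 ^ 2 ≠ 0} := by fun_prop
  refine ContinuousOn.congr (f := fun p : Pl × ℝ =>
    (!![p.1.1, p.2 * p.1.1 - p.1.2 / (p.1.1 ^ 2 + p.1.2 ^ 2);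
      p.1.2, p.2 * p.1.2 + p.1.1 / (p.1.1 ^ 2 + p.1.2 ^ 2)] :
      Matrix (Fin 2) (Fin 2) ℝ)) ?_ (fun p hp => cmat_pos hp p.2)
  refine continuousOn_pi.2 fun i => continuousOn_pi.2 fun j => ?_
  fin_cases i <;> fin_cases j
  · show ContinuousOn (fun p : Pl × ℝ => p.1.1) _
    fun_prop
  · show ContinuousOn (fun p : Pl × ℝ => p.2 * p.1.1 - p.1.2 / (p.1.1 ^ 2 + p.1.2 ^ 2)) _
    exact ContinuousOn.sub (by fun_prop) (ContinuousOn.div (by fun_prop) h1 fun p hp => hp)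
  · show ContinuousOn (fun p : Pl × ℝ => p.1.2) _
    fun_prop
  · show ContinuousOn (fun p : Pl × ℝ => p.2 * p.1.2 + p.1.1 / (p.1.1 ^ 2 + p.1.2 ^ 2)) _
    exact ContinuousOn.add (by fun_prop) (ContinuousOn.div (by fun_prop) h1 fun p hp => hp)

theorem measurable_cmat : Measurable (fun p : Pl × ℝ => cmat p.1 p.2) := by
  apply measurable_of_isOpen
  intro V hV
  set U : Set (Pl × ℝ) := {p : Pl × ℝ | p.1.1 ^ 2 + p.1.2 ^ 2 ≠ 0} with hU
  have h1 : (fun p : Pl × ℝ => cmat p.1 p.2) ⁻¹' V =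
      (U ∩ (fun p : Pl × ℝ => cmat p.1 p.2) ⁻¹' V) ∪
      (Uᶜ ∩ (fun p : Pl × ℝ => cmat p.1 p.2) ⁻¹' V) := by
    rw [← Set.union_inter_distrib_right, Set.union_compl_self, Set.univ_inter]
  rw [h1]
  refine (continuousOn_cmat.isOpen_inter_preimage isOpen_ne hV).measurableSet.union ?_
  by_cases h2 : (1 : SLR) ∈ V
  · have h3 : Uᶜ ∩ (fun p : Pl × ℝ => cmat p.1 p.2) ⁻¹' V = Uᶜ := by
      apply Set.inter_eq_left.2
      intro p hp
      show cmat p.1 p.2 ∈ V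
      rw [cmat_neg hp]
      exact h2
    rw [h3]
    exact isOpen_ne.measurableSet.compl
  · have h3 : Uᶜ ∩ (fun p : Pl × ℝ => cmat p.1 p.2) ⁻¹' V = ∅ := by
      apply Set.eq_empty_of_forall_notMem
      rintro p ⟨hp, hp'⟩
      apply h2
      rw [← cmat_neg hp p.2]
      exact hp'
    rw [h3]
    exact MeasurableSet.empty

/-- the matrix with columns `η` and `Jη/|η|²` -/
private theorem mv_cmat {η : Pl} (h : η.1 ^ 2 + η.2 ^ 2 ≠ 0) (p : Pl) :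
    mv (cmat η 0) p = (p.1 * η.1 - p.2 * (η.2 / (η.1 ^ 2 + η.2 ^ 2)),
      p.1 * η.2 + p.2 * (η.1 / (η.1 ^ 2 + η.2 ^ 2))) := by
  have h1 := cmat_pos h 0
  have e00 : (cmat η 0) 0 0 = η.1 := by
    show (cmat η 0).1 0 0 = _
    rw [h1]
    rfl
  have e01 : (cmat η 0) 0 1 = - (η.2 / (η.1 ^ 2 + η.2 ^ 2)) := by
    show (cmat η 0).1 0 1 = _
    rw [h1]
    simp
  have e10 : (cmat η 0) 1 0 = η.2 := by
    show (cmat η 0).1 1 0 = _
    rw [h1]
    rfl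
  have e11 : (cmat η 0) 1 1 = η.1 / (η.1 ^ 2 + η.2 ^ 2) := by
    show (cmat η 0).1 1 1 = _
    rw [h1]
    simp
  unfold mv
  rw [e00, e01, e10, e11]
  ext <;> simp <;> ring

private theorem nrm_pos {A : Pl × Pl} (h : 0 < dt A) :
    (nrm A).1 = !![A.1.1 / √(dt A), A.2.1 / √(dt A); A.1.2 / √(dt A), A.2.2 / √(dt A)] := by
  unfold nrm
  rw [dif_pos h]

private theorem dt_cmat {η : Pl} (h : η.1 ^ 2 + η.2 ^ 2 ≠ 0) (p : Pl) :
    dt (η, mv (cmat η 0) p) = p.2 := by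
  rw [mv_cmat h]
  unfold dt
  field_simp
  ring

private theorem nrm_cmat {η : Pl} (h : η.1 ^ 2 + η.2 ^ 2 ≠ 0) (p : Pl) (hp : 0 < p.2) :
    nrm (η, mv (cmat η 0) p) = cmat ((√p.2)⁻¹ • η) p.1 := by
  have hd : dt (η, mv (cmat η 0) p) = p.2 := dt_cmat h p
  have h1 : 0 < dt (η, mv (cmat η 0) p) := by rw [hd]; exact hp
  have hs : 0 < √p.2 := Real.sqrt_pos.2 hp
  have hs' : √p.2 ≠ 0 := hs.ne'
  have hz : √p.2 ^ 2 = p.2 := Real.sq_sqrt hp.le
  set s := √p.2 with hsd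
  have h2 : ((s⁻¹ • η : Pl)).1 ^ 2 + ((s⁻¹ • η : Pl)).2 ^ 2 =
      (s ^ 2)⁻¹ * (η.1 ^ 2 + η.2 ^ 2) := by
    simp only [Prod.smul_fst, Prod.smul_snd, smul_eq_mul]
    field_simp
  have h3 : ((s⁻¹ • η : Pl)).1 ^ 2 + ((s⁻¹ • η : Pl)).2 ^ 2 ≠ 0 := by
    rw [h2]
    exact mul_ne_zero (inv_ne_zero (pow_ne_zero _ hs')) h
  apply Subtype.ext
  rw [cmat_pos h3, h2, nrm_pos h1, hd, ← hsd, mv_cmat h]
  simp only [Prod.smul_fst, Prod.smul_snd, smul_eq_mul]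
  ext i j
  fin_cases i <;> fin_cases j
  · simp
    field_simp
  · simp
    rw [← hz]
    field_simp
  · simp
    field_simp
  · simp
    rw [← hz]
    field_simp

private theorem measSet_S : MeasurableSet {A : Pl × Pl | 0 < dt A ∧ dt A ≤ 1} := by
  have hc : Continuous dt := by
    unfold dt
    fun_prop
  exact (isOpen_lt continuous_const hc).measurableSet.inter
    (isClosed_le hc continuous_const).measurableSet

private theorem coord_inner (f : SLR → ℝ≥0∞) (hf : Measurable f) {η : Pl}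
    (h : η.1 ^ 2 + η.2 ^ 2 ≠ 0) :
    ∫⁻ B : Pl, ({A : Pl × Pl | 0 < dt A ∧ dt A ≤ 1}.indicator (fun A => f (nrm A))) (η, B) =
      ∫⁻ p : Pl, (Ioc (0 : ℝ) 1).indicator (fun z => f (cmat ((√z)⁻¹ • η) p.1)) p.2 := by
  have hm : Measurable fun B : Pl =>
      ({A : Pl × Pl | 0 < dt A ∧ dt A ≤ 1}.indicator (fun A => f (nrm A))) (η, B) :=
    ((hf.comp measurable_nrm).indicator measSet_S).comp measurable_prodMk_left
  rw [← (mv_volume (cmat η 0)).lintegral_comp hm]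
  refine lintegral_congr fun p => ?_
  by_cases hp : p.2 ∈ Ioc (0 : ℝ) 1
  · rw [Set.indicator_of_mem hp, Set.indicator_of_mem]
    · rw [nrm_cmat h p hp.1]
    · show 0 < dt _ ∧ dt _ ≤ 1
      rw [dt_cmat h]
      exact hp
  · rw [Set.indicator_of_notMem hp, Set.indicator_of_notMem]
    show ¬ (0 < dt _ ∧ dt _ ≤ 1)
    rw [dt_cmat h]
    exact hp

private theorem scale (F : Pl → ℝ≥0∞) (hF : Measurable F) {z : ℝ} (hz : 0 < z) :
    ∫⁻ η : Pl, F ((√z)⁻¹ • η) = ENNReal.ofReal z * ∫⁻ ζ : Pl, F ζ := by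
  have hs : 0 < √z := Real.sqrt_pos.2 hz
  have h1 := Measure.map_addHaar_smul (volume : Measure Pl) (inv_ne_zero hs.ne')
  have h2 : Module.finrank ℝ Pl = 2 := by simp
  rw [h2] at h1
  have h3 : |(((√z)⁻¹) ^ 2)⁻¹| = z := by
    rw [inv_pow, inv_inv, Real.sq_sqrt hz.le, abs_of_pos hz]
  rw [h3] at h1
  rw [← lintegral_map (f := F) hF (measurable_const_smul _), h1, lintegral_smul_measure,
    smul_eq_mul]

private theorem half : ∫⁻ z : ℝ, (Ioc (0 : ℝ) 1).indicator (fun z => ENNReal.ofReal z) z =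
    1 / 2 := by
  rw [lintegral_indicator measurableSet_Ioc]
  rw [← ofReal_integral_eq_lintegral_ofReal]
  · rw [← intervalIntegral.integral_of_le zero_le_one, integral_id]
    rw [show ((1 : ℝ) ^ 2 - 0 ^ 2) / 2 = 1 / 2 by norm_num,
      ENNReal.ofReal_div_of_pos (by norm_num)]
    simp
  · exact (continuous_id.integrableOn_Icc (a := (0 : ℝ)) (b := 1)).mono_set Ioc_subset_Icc_self
  · exact (ae_restrict_iff' measurableSet_Ioc).2 (Filter.Eventually.of_forall fun z hz => hz.1.le)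

/-- the integrand in the coordinates `(η, (x, z))` -/
private noncomputable def HH (f : SLR → ℝ≥0∞) (η : Pl) (p : Pl) : ℝ≥0∞ :=
  (Ioc (0 : ℝ) 1).indicator (fun z => f (cmat ((√z)⁻¹ • η) p.1)) p.2

private theorem measurable_HH (f : SLR → ℝ≥0∞) (hf : Measurable f) :
    Measurable fun q : Pl × Pl => HH f q.1 q.2 := by
  have h1 : (fun q : Pl × Pl => HH f q.1 q.2) =
      {q : Pl × Pl | q.2.2 ∈ Ioc (0 : ℝ) 1}.indicator
        (fun q => f (cmat ((√q.2.2)⁻¹ • q.1) q.2.1)) := by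
    funext q
    unfold HH
    by_cases hq : q.2.2 ∈ Ioc (0 : ℝ) 1
    · rw [Set.indicator_of_mem hq,
        Set.indicator_of_mem (show q ∈ {q : Pl × Pl | q.2.2 ∈ Ioc (0 : ℝ) 1} from hq)]
    · rw [Set.indicator_of_notMem hq,
        Set.indicator_of_notMem (show q ∉ {q : Pl × Pl | q.2.2 ∈ Ioc (0 : ℝ) 1} from hq)]
  rw [h1]
  have h2 : Measurable fun q : Pl × Pl => (√q.2.2)⁻¹ :=
    (Real.continuous_sqrt.measurable.comp (measurable_snd.comp measurable_snd)).inv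
  have h3 : Measurable fun q : Pl × Pl => (((√q.2.2)⁻¹ • q.1 : Pl), q.2.1) := by
    refine Measurable.prodMk (Measurable.prodMk ?_ ?_) (measurable_fst.comp measurable_snd)
    · exact h2.mul (measurable_fst.comp measurable_fst)
    · exact h2.mul (measurable_snd.comp measurable_fst)
  refine Measurable.indicator ?_ ?_
  · exact hf.comp (measurable_cmat.comp h3)
  · exact (measurable_snd.comp measurable_snd) measurableSet_Ioc

private theorem c1 (f : SLR → ℝ≥0∞) (hf : Measurable f) :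
    ∫⁻ h, f h ∂muG = ∫⁻ η : Pl, ∫⁻ B : Pl,
      ({A : Pl × Pl | 0 < dt A ∧ dt A ≤ 1}.indicator (fun A => f (nrm A))) (η, B) := by
  have hind : Measurable ({A : Pl × Pl | 0 < dt A ∧ dt A ≤ 1}.indicator (fun A => f (nrm A))) :=
    (hf.comp measurable_nrm).indicator measSet_S
  unfold muG
  rw [lintegral_map hf measurable_nrm, ← lintegral_indicator measSet_S, Measure.volume_eq_prod,
    lintegral_prod _ hind.aemeasurable]

private theorem c2 (f : SLR → ℝ≥0∞) (hf : Measurable f) :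
    ∫⁻ η : Pl, ∫⁻ B : Pl,
      ({A : Pl × Pl | 0 < dt A ∧ dt A ≤ 1}.indicator (fun A => f (nrm A))) (η, B) =
    ∫⁻ η : Pl, ∫⁻ p : Pl, HH f η p := by
  apply lintegral_congr_ae
  have h0 : ∀ᵐ η : Pl, η ≠ 0 := by
    have : (volume : Measure Pl) {0} = 0 := measure_singleton 0
    exact compl_mem_ae_iff.2 this
  filter_upwards [h0] with η hη
  apply coord_inner f hf
  intro h
  apply hη
  have h1 : η.1 ^ 2 = 0 := by nlinarith [sq_nonneg η.1, sq_nonneg η.2]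
  have h2 : η.2 ^ 2 = 0 := by nlinarith [sq_nonneg η.1, sq_nonneg η.2]
  exact Prod.ext (pow_eq_zero_iff (two_ne_zero) |>.1 h1) (pow_eq_zero_iff (two_ne_zero) |>.1 h2)

private theorem c3 (f : SLR → ℝ≥0∞) (hf : Measurable f) :
    ∫⁻ η : Pl, ∫⁻ p : Pl, HH f η p = ∫⁻ p : Pl,
      (Ioc (0 : ℝ) 1).indicator (fun z => ENNReal.ofReal z) p.2 * ∫⁻ ζ : Pl, f (cmat ζ p.1) := by
  have hc : Measurable fun p : Pl × ℝ => f (cmat p.1 p.2) := hf.comp measurable_cmat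
  rw [lintegral_lintegral_swap (measurable_HH f hf).aemeasurable]
  refine lintegral_congr fun p => ?_
  unfold HH
  by_cases hp : p.2 ∈ Ioc (0 : ℝ) 1
  · simp only [Set.indicator_of_mem hp]
    exact scale (fun ζ => f (cmat ζ p.1)) (hc.comp measurable_prodMk_right) hp.1
  · simp only [Set.indicator_of_notMem hp]
    rw [lintegral_zero, zero_mul]

private theorem c4 (Φ : ℝ → ℝ≥0∞) (hΦ : Measurable Φ) :
    ∫⁻ p : Pl, (Ioc (0 : ℝ) 1).indicator (fun z => ENNReal.ofReal z) p.2 * Φ p.1 =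
      (1 / 2) * ∫⁻ x : ℝ, Φ x := by
  have hm : Measurable ((Ioc (0 : ℝ) 1).indicator (fun z => ENNReal.ofReal z)) :=
    Measurable.indicator ENNReal.measurable_ofReal measurableSet_Ioc
  have hm2 : Measurable fun p : Pl =>
      (Ioc (0 : ℝ) 1).indicator (fun z => ENNReal.ofReal z) p.2 * Φ p.1 :=
    (hm.comp measurable_snd).mul (hΦ.comp measurable_fst)
  rw [Measure.volume_eq_prod, lintegral_prod _ hm2.aemeasurable, ← lintegral_const_mul _ hΦ]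
  refine lintegral_congr fun x => ?_
  show ∫⁻ z : ℝ, (Ioc (0 : ℝ) 1).indicator (fun z => ENNReal.ofReal z) z * Φ x = _
  rw [lintegral_mul_const _ hm, half]

theorem muG_coord (f : SLR → ℝ≥0∞) (hf : Measurable f) :
    ∫⁻ h, f h ∂muG = (1 / 2) * ∫⁻ ζ : Pl, ∫⁻ x : ℝ, f (cmat ζ x) := by
  have hc : Measurable fun p : Pl × ℝ => f (cmat p.1 p.2) := hf.comp measurable_cmat
  have hΦ : Measurable fun x : ℝ => ∫⁻ ζ : Pl, f (cmat ζ x) := Measurable.lintegral_prod_left hc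
  have h1 := c4 (fun x : ℝ => ∫⁻ ζ : Pl, f (cmat ζ x)) hΦ
  rw [c1 f hf, c2 f hf, c3 f hf, h1]
  congr 1
  exact lintegral_lintegral_swap (f := fun x ζ => f (cmat ζ x))
    (hc.comp measurable_swap).aemeasurable

end Pool.Agent.ILL
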