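import Pool.Agent.ILL.Fib
import Pool.Agent.ILL.Den
import Pool.Agent.ILL.Ebd
import Pool.Agent.ILL.Dth
import Pool.Agent.ILL.MgB
import Pool.Agent.ILL.Sdb

/-!
# EST. Decay of the averages of sums over the group

Let `ε > 0`. `dense_pc`: `g = g' + r` with `g'` a finite combination of product functions and `‖r‖₁ ≤ ε`. By
`esum_bound`, `|∫_{Rg δ'} Esum r| ≤ C ε` (`Esum` is additive where the sums converge absolutely, which is the case
almost everywhere by `esum_bound`). For one product function, `thick` (for complex functions: real and imaginary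
parts; or use the `lintegral` version for integrability and then Fubini) gives
`∫_{Rg δ'} Esum (pc..) (M p dg u) = (1/2) ∫_x ∫_α 2πα ∫_θ Esum (pc ..) (M rot θ tri α (αx) dg u)`, `x ∈ [0,δ']`,
`α ∈ [1,1+δ'] ⊆ [1,2]`, `|αx| ≤ 2`. The inner integral tends to `0` (`fib_tendsto`) and is bounded by `C`
(`fib_bound`) for `u ≥ u₀`: dominated convergence. (`thick` is stated for bounded functions: the function
`Esum (pc..)` is bounded for fixed `u` on the compact set `M · Rg δ' · dg u`; or truncate; or prove the needed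
version with `thick_lintegral` for positive and negative parts.)
-/

open MeasureTheory Set Filter Topology
open scoped ENNReal NNReal

namespace Pool.Agent.ILL

/-- the weight -/
private noncomputable def estw (α : ℝ) : ℝ≥0∞ := (1 / 2) * ENNReal.ofReal (2 * Real.pi * α)

private theorem estw_meas : Measurable estw := by
  unfold estw
  fun_prop

/-- the measure on the pairs `(x, α)` -/
private noncomputable def est2 (δ : ℝ) : Measure (ℝ × ℝ) :=
  (volume.restrict (Icc (0 : ℝ) δ)).prod ((volume.restrict (Icc (1 : ℝ) (1 + δ))).withDensity estw)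

private noncomputable def estT (q : (ℝ × ℝ) × ℝ) : SLR :=
  cmat (q.1.2 * Real.cos (2 * Real.pi * q.2), q.1.2 * Real.sin (2 * Real.pi * q.2)) q.1.1

private theorem estT_meas : Measurable estT := by
  unfold estT
  exact measurable_cmat.comp (by fun_prop : Measurable fun q : (ℝ × ℝ) × ℝ =>
    (((q.1.2 * Real.cos (2 * Real.pi * q.2), q.1.2 * Real.sin (2 * Real.pi * q.2)) : Pl), q.1.1))

private theorem estT_eq {α : ℝ} (hα : 1 ≤ α) (x θ : ℝ) :
    estT ((x, α), θ) = rot θ * tri α (α * x) := by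
  have hα0 : α ≠ 0 := by linarith
  have hne : (α * Real.cos (2 * Real.pi * θ)) ^ 2 + (α * Real.sin (2 * Real.pi * θ)) ^ 2 = α ^ 2 := by
    have := Real.cos_sq_add_sin_sq (2 * Real.pi * θ)
    calc (α * Real.cos (2 * Real.pi * θ)) ^ 2 + (α * Real.sin (2 * Real.pi * θ)) ^ 2
        = α ^ 2 * (Real.cos (2 * Real.pi * θ) ^ 2 + Real.sin (2 * Real.pi * θ) ^ 2) := by ring
      _ = α ^ 2 := by rw [this, mul_one]
  have hne' : (α * Real.cos (2 * Real.pi * θ)) ^ 2 + (α * Real.sin (2 * Real.pi * θ)) ^ 2 ≠ 0 := by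
    rw [hne]
    positivity
  unfold estT cmat
  simp only
  rw [dif_pos hne']
  apply Subtype.ext
  unfold rot tri
  rw [dif_pos hα0]
  simp only [Matrix.SpecialLinearGroup.coe_mul]
  ext i j
  fin_cases i <;> fin_cases j <;>
    simp [Matrix.mul_apply, Fin.sum_univ_two, hne] <;> field_simp <;> ring

private theorem est_lint {F : SLR → ℝ≥0∞} (hF : Measurable F) {δ : ℝ} (hδ : 0 < δ) :
    ∫⁻ p in Rg δ, F p ∂muG =
      ∫⁻ q, (∫⁻ θ in Icc (0 : ℝ) 1, F (estT (q, θ))) ∂(est2 δ) := by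
  have hm : Measurable fun q : (ℝ × ℝ) × ℝ => F (estT q) := hF.comp estT_meas
  have hm2 : Measurable fun q : ℝ × ℝ => ∫⁻ θ in Icc (0 : ℝ) 1, F (estT (q, θ)) :=
    hm.lintegral_prod_right'
  rw [thick_lintegral hF hδ]
  unfold est2
  rw [lintegral_prod _ hm2.aemeasurable]
  have h1 : ∀ x : ℝ, ∫⁻ α, (∫⁻ θ in Icc (0 : ℝ) 1, F (estT ((x, α), θ)))
        ∂((volume.restrict (Icc (1 : ℝ) (1 + δ))).withDensity estw) =
      (1 / 2) * ∫⁻ α in Icc (1 : ℝ) (1 + δ), ENNReal.ofReal (2 * Real.pi * α) *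
        ∫⁻ θ in Icc (0 : ℝ) 1, F (rot θ * tri α (α * x)) := by
    intro x
    have hmx : Measurable fun α : ℝ => ∫⁻ θ in Icc (0 : ℝ) 1, F (estT ((x, α), θ)) :=
      hm2.comp measurable_prodMk_left
    rw [lintegral_withDensity_eq_lintegral_mul _ estw_meas hmx]
    have h2 : ∀ α : ℝ, (estw * fun α : ℝ => ∫⁻ θ in Icc (0 : ℝ) 1, F (estT ((x, α), θ))) α =
        (1 / 2) * (ENNReal.ofReal (2 * Real.pi * α) *
          ∫⁻ θ in Icc (0 : ℝ) 1, F (estT ((x, α), θ))) := by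
      intro α
      rw [Pi.mul_apply, estw, mul_assoc]
    rw [lintegral_congr h2, lintegral_const_mul _ (by fun_prop)]
    congr 1
    refine setLIntegral_congr_fun measurableSet_Icc (fun α hα => ?_)
    rw [lintegral_congr (fun θ => by rw [estT_eq hα.1])]
  rw [lintegral_congr h1, lintegral_const_mul']
  norm_num

private theorem est_map {δ : ℝ} (hδ : 0 < δ) :
    Measure.map estT ((est2 δ).prod (volume.restrict (Icc (0 : ℝ) 1))) = muG.restrict (Rg δ) := by
  ext s hs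
  rw [Measure.map_apply estT_meas hs]
  have hF : Measurable (s.indicator (1 : SLR → ℝ≥0∞)) := measurable_one.indicator hs
  have h1 := est_lint hF hδ
  rw [lintegral_indicator_one hs] at h1
  rw [h1, ← lintegral_indicator_one (estT_meas hs), lintegral_prod]
  · rfl
  · exact (measurable_one.indicator (estT_meas hs)).aemeasurable

private theorem est2_fin {δ : ℝ} (hδ : 0 < δ) : IsFiniteMeasure (est2 δ) := by
  constructor
  have h1 : muG.restrict (Rg δ) univ < ∞ := by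
    rw [Measure.restrict_apply_univ]
    exact (Rg_pos hδ).2
  rw [← est_map hδ, Measure.map_apply estT_meas MeasurableSet.univ, preimage_univ,
    ← univ_prod_univ, Measure.prod_prod, Measure.restrict_apply_univ, Real.volume_Icc] at h1
  simpa using h1

private theorem est2_ae {δ : ℝ} : ∀ᵐ q ∂(est2 δ), q.1 ∈ Icc (0 : ℝ) δ ∧ q.2 ∈ Icc (1 : ℝ) (1 + δ) := by
  have h1 : ∀ᵐ x ∂(volume.restrict (Icc (0 : ℝ) δ)), x ∈ Icc (0 : ℝ) δ :=
    ae_restrict_mem measurableSet_Icc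
  have h2 : ∀ᵐ α ∂((volume.restrict (Icc (1 : ℝ) (1 + δ))).withDensity estw),
      α ∈ Icc (1 : ℝ) (1 + δ) :=
    (withDensity_absolutelyContinuous _ _).ae_le (ae_restrict_mem measurableSet_Icc)
  unfold est2
  have h3 := Measure.quasiMeasurePreserving_fst (μ := volume.restrict (Icc (0 : ℝ) δ))
    (ν := (volume.restrict (Icc (1 : ℝ) (1 + δ))).withDensity estw)
  have h4 := Measure.quasiMeasurePreserving_snd (μ := volume.restrict (Icc (0 : ℝ) δ))
    (ν := (volume.restrict (Icc (1 : ℝ) (1 + δ))).withDensity estw)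
  exact (h3.ae h1).and (h4.ae h2)

private theorem est_enorm (g : SLR → ℂ) (d : ℕ) (P : Pl) (h : SLR) :
    ‖Esum g d P h‖ₑ ≤ ∑' γ : SLZ, ‖g (toR γ * h)‖ₑ := by
  unfold Esum
  have he : ∀ γ : SLZ, ‖g (toR γ * h) * ee ((d : ℝ) * ((γ 0 0 : ℝ) * P.1 + (γ 0 1 : ℝ) * P.2))‖ₑ =
      ‖g (toR γ * h)‖ₑ := by
    intro γ
    rw [enorm_mul]
    have : ‖ee ((d : ℝ) * ((γ 0 0 : ℝ) * P.1 + (γ 0 1 : ℝ) * P.2))‖ₑ = 1 := by
      rw [← ofReal_norm, norm_ee, ENNReal.ofReal_one]
    rw [this, mul_one]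
  rw [← tsum_congr he]
  by_cases hs : ∑' γ : SLZ, ‖g (toR γ * h) * ee ((d : ℝ) * ((γ 0 0 : ℝ) * P.1 +
      (γ 0 1 : ℝ) * P.2))‖ₑ = ∞
  · rw [hs]
    exact le_top
  · have hsum : Summable fun γ : SLZ => ‖g (toR γ * h) * ee ((d : ℝ) * ((γ 0 0 : ℝ) * P.1 +
        (γ 0 1 : ℝ) * P.2))‖ := by
      have h1 := ENNReal.summable_toReal hs
      simpa [toReal_enorm] using h1
    rw [← ofReal_norm]
    refine (ENNReal.ofReal_le_ofReal (norm_tsum_le_tsum_norm hsum)).trans ?_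
    rw [ENNReal.ofReal_tsum_of_nonneg (fun _ => norm_nonneg _) hsum]
    simp only [ofReal_norm]
    exact le_rfl

private theorem est_summable (g : SLR → ℂ) (d : ℕ) (P : Pl) (h : SLR)
    (hs : ∑' γ : SLZ, ‖g (toR γ * h)‖ₑ ≠ ∞) :
    Summable fun γ : SLZ => g (toR γ * h) * ee ((d : ℝ) * ((γ 0 0 : ℝ) * P.1 +
      (γ 0 1 : ℝ) * P.2)) := by
  apply Summable.of_norm
  have h1 := ENNReal.summable_toReal hs
  refine h1.congr (fun γ => ?_)
  rw [norm_mul, norm_ee, mul_one, toReal_enorm]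

private theorem est_mmeas (M : SLR) (u : ℝ) : Measurable fun p : SLR => M * p * dg u :=
  ((continuous_const.mul continuous_id).mul continuous_const).measurable

private theorem est_sum_meas {g : SLR → ℂ} (hg : Measurable g) (M : SLR) (u : ℝ) :
    Measurable fun p : SLR => ∑' γ : SLZ, ‖g (toR γ * (M * p * dg u))‖ₑ := by
  have : Countable SLZ := by
    have : Countable (Matrix (Fin 2) (Fin 2) ℤ) :=
      inferInstanceAs (Countable (Fin 2 → Fin 2 → ℤ))
    exact Subtype.countable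
  refine Measurable.ennreal_tsum (fun γ => ?_)
  exact (hg.comp ((continuous_const.mul continuous_id).measurable.comp (est_mmeas M u))).enorm

private theorem est_pc_bound (M : SLR) {φ₁ φ₂ : ℝ → ℝ} {c₀ C₀ L : ℝ} (h : PC φ₁ φ₂ c₀ C₀ L)
    (m : ℤ) {δ : ℝ} (hδ : 0 < δ) (hδ1 : δ ≤ 1) : ∃ u₀ : ℝ, ∀ u, u₀ ≤ u →
      ∫⁻ p in Rg δ, ∑' γ : SLZ, ‖pc φ₁ φ₂ m (toR γ * (M * p * dg u))‖ₑ ∂muG ≠ ∞ := by
  obtain ⟨C, u₀, hC⟩ := fib_bound M h m
  refine ⟨u₀, fun u hu => ?_⟩
  rw [est_lint (est_sum_meas (pc_measurable h m) M u) hδ]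
  have := est2_fin hδ
  refine ne_top_of_le_ne_top (b := ∫⁻ _, (C : ℝ≥0∞) ∂(est2 δ)) ?_ ?_
  · rw [lintegral_const]
    exact ENNReal.mul_ne_top ENNReal.coe_ne_top (measure_ne_top _ _)
  · refine lintegral_mono_ae ?_
    filter_upwards [est2_ae (δ := δ)] with q hq
    have h2 := hC q.2 (q.2 * q.1) u hq.2.1 (by linarith [hq.2.2]) ?_ hu
    · refine le_trans (le_of_eq ?_) h2
      refine lintegral_congr (fun θ => ?_)
      rw [show q = (q.1, q.2) from rfl, estT_eq hq.2.1]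
      simp only [mul_assoc]
    · rw [abs_of_nonneg (mul_nonneg (by linarith [hq.2.1]) hq.1.1)]
      have a1 := hq.2.2
      have a2 := hq.1.2
      have a3 := hq.1.1
      have a4 := hq.2.1
      nlinarith

private theorem est_pc_tendsto (M : SLR) {P : Pl} (hP : ¬ RatP P) {d : ℕ} (hd : 1 ≤ d)
    {φ₁ φ₂ : ℝ → ℝ} {c₀ C₀ L : ℝ} (h : PC φ₁ φ₂ c₀ C₀ L)
    (m : ℤ) {δ : ℝ} (hδ : 0 < δ) (hδ1 : δ ≤ 1) :
    Tendsto (fun u : ℝ => ∫ p in Rg δ, Esum (pc φ₁ φ₂ m) d P (M * p * dg u) ∂muG) atTop (𝓝 0) := by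
  obtain ⟨C, u₀, hC⟩ := fib_bound M h m
  obtain ⟨u₁, hu₁⟩ := est_pc_bound M h m hδ hδ1
  have := est2_fin hδ
  have hmeas : ∀ u, Measurable fun p : SLR => Esum (pc φ₁ φ₂ m) d P (M * p * dg u) := fun u =>
    (Esum_measurable (pc_measurable h m) d P).comp (est_mmeas M u)
  have hint : ∀ u, u₁ ≤ u → Integrable (fun q => Esum (pc φ₁ φ₂ m) d P (M * estT q * dg u))
      ((est2 δ).prod (volume.restrict (Icc (0 : ℝ) 1))) := by
    intro u hu
    have h1 : Integrable (fun p : SLR => Esum (pc φ₁ φ₂ m) d P (M * p * dg u))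
        (muG.restrict (Rg δ)) := by
      refine ⟨(hmeas u).aestronglyMeasurable, ?_⟩
      rw [HasFiniteIntegral]
      refine lt_of_le_of_lt (lintegral_mono (fun p => est_enorm _ d P _)) ?_
      exact lt_top_iff_ne_top.2 (hu₁ u hu)
    rw [← est_map hδ] at h1
    exact (integrable_map_measure (hmeas u).aestronglyMeasurable estT_meas.aemeasurable).1 h1
  have heq : ∀ u, u₁ ≤ u → ∫ p in Rg δ, Esum (pc φ₁ φ₂ m) d P (M * p * dg u) ∂muG =
      ∫ q, (∫ θ in Icc (0 : ℝ) 1, Esum (pc φ₁ φ₂ m) d P (M * estT (q, θ) * dg u)) ∂(est2 δ) := by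
    intro u hu
    rw [← est_map hδ, integral_map estT_meas.aemeasurable (hmeas u).aestronglyMeasurable,
      integral_prod _ (hint u hu)]
  have hlim : Tendsto (fun u : ℝ => ∫ q, (∫ θ in Icc (0 : ℝ) 1,
      Esum (pc φ₁ φ₂ m) d P (M * estT (q, θ) * dg u)) ∂(est2 δ)) atTop
      (𝓝 (∫ q, (0 : ℂ) ∂(est2 δ))) := by
    refine tendsto_integral_filter_of_dominated_convergence (fun _ => (C : ℝ)) ?_ ?_ ?_ ?_
    · filter_upwards [eventually_ge_atTop u₁] with u hu
      exact (hint u hu).integral_prod_left.aestronglyMeasurable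
    · filter_upwards [eventually_ge_atTop u₀] with u hu
      filter_upwards [est2_ae (δ := δ)] with q hq
      have h2 := hC q.2 (q.2 * q.1) u hq.2.1 (by linarith [hq.2.2]) ?_ hu
      · have h3 : ‖∫ θ in Icc (0 : ℝ) 1, Esum (pc φ₁ φ₂ m) d P (M * estT (q, θ) * dg u)‖ₑ ≤ C := by
          refine (enorm_integral_le_lintegral_enorm _).trans ?_
          refine (lintegral_mono (fun θ => est_enorm _ d P _)).trans ?_
          refine le_trans (le_of_eq ?_) h2
          refine lintegral_congr (fun θ => ?_)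
          rw [show q = (q.1, q.2) from rfl, estT_eq hq.2.1]
          simp only [mul_assoc]
        rw [← toReal_enorm]
        exact ENNReal.toReal_le_coe_of_le_coe h3
      · rw [abs_of_nonneg (mul_nonneg (by linarith [hq.2.1]) hq.1.1)]
        have a1 := hq.2.2
        have a2 := hq.1.2
        have a3 := hq.1.1
        have a4 := hq.2.1
        nlinarith
    · exact integrable_const _
    · filter_upwards [est2_ae (δ := δ)] with q hq
      have h2 := fib_tendsto M hP hd h m (α := q.2) (β := q.2 * q.1) hq.2.1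
        (by linarith [hq.2.2]) ?_
      · refine h2.congr (fun u => ?_)
        rw [intervalIntegral.integral_of_le zero_le_one, ← integral_Icc_eq_integral_Ioc]
        refine integral_congr_ae (Eventually.of_forall fun θ => ?_)
        simp only
        rw [show q = (q.1, q.2) from rfl, estT_eq hq.2.1]
        simp only [mul_assoc]
      · rw [abs_of_nonneg (mul_nonneg (by linarith [hq.2.1]) hq.1.1)]
        have a1 := hq.2.2
        have a2 := hq.1.2
        have a3 := hq.1.1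
        have a4 := hq.2.1
        nlinarith
  rw [integral_zero] at hlim
  refine hlim.congr' ?_
  filter_upwards [eventually_ge_atTop u₁] with u hu
  exact (heq u hu).symm

theorem est_main (M : SLR) {P : Pl} (hP : ¬ RatP P) {d : ℕ} (hd : 1 ≤ d) {g : SLR → ℂ}
    (hg : Integrable g muG) (hm : Measurable g) (hs : ∀ h, h ∉ St → g h = 0) {δ' : ℝ}
    (hδ : 0 < δ') (hδ1 : δ' ≤ 1) :
    Tendsto (fun u : ℝ => ∫ p in Rg δ', Esum g d P (M * p * dg u) ∂muG) atTop (𝓝 0) := by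
  obtain ⟨C, hC⟩ := esum_bound M δ'
  rw [Metric.tendsto_nhds]
  intro ε hε
  have hC1 : (0 : ℝ) < C + 1 := by positivity
  set ε' : ℝ := ε / (2 * (C + 1)) with hε'
  have hε'0 : 0 < ε' := by positivity
  obtain ⟨n, a, φ₁, φ₂, m, hpc, hap⟩ := dense_pc hg hm hs hε'0
  choose c₀ C₀ L hPC using hpc
  set r : SLR → ℂ := fun h => g h - ∑ j, a j * pc (φ₁ j) (φ₂ j) (m j) h with hr
  have hrm : Measurable r := by
    refine hm.sub ?_
    exact Finset.measurable_fun_sum _ fun j _ => (pc_measurable (hPC j) (m j)).const_mul (a j)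
  have hbj : ∀ j, ∃ u₀ : ℝ, ∀ u, u₀ ≤ u →
      ∫⁻ p in Rg δ', ∑' γ : SLZ, ‖pc (φ₁ j) (φ₂ j) (m j) (toR γ * (M * p * dg u))‖ₑ ∂muG ≠ ∞ :=
    fun j => est_pc_bound M (hPC j) (m j) hδ hδ1
  choose v hv using hbj
  have htend : Tendsto (fun u : ℝ => ∑ j, a j *
      ∫ p in Rg δ', Esum (pc (φ₁ j) (φ₂ j) (m j)) d P (M * p * dg u) ∂muG) atTop (𝓝 0) := by
    have h1 : Tendsto (fun u : ℝ => ∑ j, a j *
      ∫ p in Rg δ', Esum (pc (φ₁ j) (φ₂ j) (m j)) d P (M * p * dg u) ∂muG) atTop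
        (𝓝 (∑ j : Fin n, a j * 0)) := by
      refine tendsto_finsetSum _ fun j _ => ?_
      exact (est_pc_tendsto M hP hd (hPC j) (m j) hδ hδ1).const_mul (a j)
    simpa using h1
  rw [Metric.tendsto_nhds] at htend
  have hev : ∀ᶠ u : ℝ in atTop, ∀ j, v j ≤ u :=
    eventually_all.2 fun j => eventually_ge_atTop (v j)
  filter_upwards [htend (ε / 2) (by positivity), hev] with u hu hu2
  rw [dist_zero_right] at hu ⊢
  -- integrability of all parts
  have hfin_r : ∫⁻ p in Rg δ', ∑' γ : SLZ, ‖r (toR γ * (M * p * dg u))‖ₑ ∂muG ≤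
      C * ENNReal.ofReal ε' :=
    (hC r hrm u).trans (by gcongr)
  have hfin_r' : ∫⁻ p in Rg δ', ∑' γ : SLZ, ‖r (toR γ * (M * p * dg u))‖ₑ ∂muG ≠ ∞ :=
    ne_top_of_le_ne_top (ENNReal.mul_ne_top ENNReal.coe_ne_top ENNReal.ofReal_ne_top) hfin_r
  have hInt : ∀ f : SLR → ℂ, Measurable f →
      ∫⁻ p in Rg δ', ∑' γ : SLZ, ‖f (toR γ * (M * p * dg u))‖ₑ ∂muG ≠ ∞ →
      Integrable (fun p : SLR => Esum f d P (M * p * dg u)) (muG.restrict (Rg δ')) := by
    intro f hf hfin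
    refine ⟨((Esum_measurable hf d P).comp (est_mmeas M u)).aestronglyMeasurable, ?_⟩
    rw [HasFiniteIntegral]
    refine lt_of_le_of_lt (lintegral_mono (fun p => est_enorm _ d P _)) ?_
    exact lt_top_iff_ne_top.2 hfin
  have hIr := hInt r hrm hfin_r'
  have hIj : ∀ j, Integrable (fun p : SLR => Esum (pc (φ₁ j) (φ₂ j) (m j)) d P (M * p * dg u))
      (muG.restrict (Rg δ')) := fun j => hInt _ (pc_measurable (hPC j) (m j)) (hv j u (hu2 j))
  have hsplit : ∀ᵐ p ∂(muG.restrict (Rg δ')), Esum g d P (M * p * dg u) =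
      (∑ j, a j * Esum (pc (φ₁ j) (φ₂ j) (m j)) d P (M * p * dg u)) +
        Esum r d P (M * p * dg u) := by
    have e1 : ∀ᵐ p ∂(muG.restrict (Rg δ')),
        ∑' γ : SLZ, ‖r (toR γ * (M * p * dg u))‖ₑ < ∞ :=
      ae_lt_top (est_sum_meas hrm M u) hfin_r'
    have e2 : ∀ᵐ p ∂(muG.restrict (Rg δ')), ∀ j,
        ∑' γ : SLZ, ‖pc (φ₁ j) (φ₂ j) (m j) (toR γ * (M * p * dg u))‖ₑ < ∞ :=
      eventually_countable_forall.2 fun j =>
        ae_lt_top (est_sum_meas (pc_measurable (hPC j) (m j)) M u) (hv j u (hu2 j))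
    filter_upwards [e1, e2] with p h1 h2
    have s1 := est_summable r d P (M * p * dg u) h1.ne
    have s2 := fun j => est_summable (pc (φ₁ j) (φ₂ j) (m j)) d P (M * p * dg u) (h2 j).ne
    unfold Esum
    have e3 : ∑ j, a j * ∑' γ : SLZ, pc (φ₁ j) (φ₂ j) (m j) (toR γ * (M * p * dg u)) *
        ee ((d : ℝ) * ((γ 0 0 : ℝ) * P.1 + (γ 0 1 : ℝ) * P.2)) =
        ∑' γ : SLZ, ∑ j, a j * (pc (φ₁ j) (φ₂ j) (m j) (toR γ * (M * p * dg u)) *
        ee ((d : ℝ) * ((γ 0 0 : ℝ) * P.1 + (γ 0 1 : ℝ) * P.2))) := by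
      rw [Summable.tsum_finsetSum (fun j _ => (s2 j).mul_left (a j))]
      exact Finset.sum_congr rfl fun j _ => tsum_mul_left.symm
    rw [e3, ← Summable.tsum_add (summable_sum fun j _ => (s2 j).mul_left (a j)) s1]
    refine tsum_congr (fun γ => ?_)
    simp only [hr]
    rw [sub_mul, Finset.sum_mul]
    have : ∀ j, a j * pc (φ₁ j) (φ₂ j) (m j) (toR γ * (M * p * dg u)) *
        ee ((d : ℝ) * ((γ 0 0 : ℝ) * P.1 + (γ 0 1 : ℝ) * P.2)) =
        a j * (pc (φ₁ j) (φ₂ j) (m j) (toR γ * (M * p * dg u)) *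
        ee ((d : ℝ) * ((γ 0 0 : ℝ) * P.1 + (γ 0 1 : ℝ) * P.2))) := fun j => by ring
    simp only [this]
    ring
  have hval : ∫ p in Rg δ', Esum g d P (M * p * dg u) ∂muG =
      (∑ j, a j * ∫ p in Rg δ', Esum (pc (φ₁ j) (φ₂ j) (m j)) d P (M * p * dg u) ∂muG) +
        ∫ p in Rg δ', Esum r d P (M * p * dg u) ∂muG := by
    rw [integral_congr_ae hsplit, integral_add (integrable_finsetSum _ fun j _ =>
      (hIj j).const_mul (a j)) hIr, integral_finsetSum _ fun j _ => (hIj j).const_mul (a j)]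
    congr 1
    refine Finset.sum_congr rfl fun j _ => ?_
    rw [integral_const_mul]
  have hrb : ‖∫ p in Rg δ', Esum r d P (M * p * dg u) ∂muG‖ ≤ C * ε' := by
    have h1 : ‖∫ p in Rg δ', Esum r d P (M * p * dg u) ∂muG‖ₑ ≤ C * ENNReal.ofReal ε' :=
      (enorm_integral_le_lintegral_enorm _).trans
        ((lintegral_mono (fun p => est_enorm _ d P _)).trans hfin_r)
    rw [← toReal_enorm]
    have h2 : ((C : ℝ≥0∞) * ENNReal.ofReal ε').toReal = C * ε' := by
      rw [ENNReal.toReal_mul, ENNReal.coe_toReal, ENNReal.toReal_ofReal hε'0.le]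
    rw [← h2]
    exact ENNReal.toReal_mono
      (ENNReal.mul_ne_top ENNReal.coe_ne_top ENNReal.ofReal_ne_top) h1
  rw [hval]
  have h3 : (C : ℝ) * ε' ≤ ε / 2 := by
    rw [hε', mul_div_assoc']
    rw [div_le_iff₀ (by positivity)]
    nlinarith [C.2]
  calc ‖(∑ j, a j * ∫ p in Rg δ', Esum (pc (φ₁ j) (φ₂ j) (m j)) d P (M * p * dg u) ∂muG) +
        ∫ p in Rg δ', Esum r d P (M * p * dg u) ∂muG‖ ≤ _ + _ := norm_add_le _ _
    _ < ε := by linarith

end Pool.Agent.ILL
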