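import Pool.Agent.ILL.Sdb
import Pool.Agent.ILL.Pmv

/-!
# FOU. Fourier expansion of the smoothed function

Fix `h`; `g = f(h,·)` is bounded, measurable, `ℤ²`-periodic and
`G(P) = smo f δ (h,P) = δ⁻⁴ ∫∫ g(P + mv h (y+y'))`. (1) `G` is continuous (in fact Lipschitz: already
`P ↦ δ⁻² ∫_{y∈[0,δ]²} g(P + mv h y)` is, the symmetric difference of the parallelogram and its translate has small
area) and periodic. (2) Its Fourier coefficients: by Fubini and periodicity
`∫_{F0} G(P) e(-k·P) dP = δ⁻⁴ ∫∫ e(k·mv h (y+y')) dy dy' · ck f k h`, and `k·(mv h y) = (rv k h)·y`, so the factor is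
`(sd δ ξ.1 * sd δ ξ.2)² = mul4 δ ξ`, `ξ = rv k h`. (`∫_{F0} φ(P + v) dP = ∫_{F0} φ` for periodic `φ`.)
(3) a continuous periodic function with absolutely summable Fourier coefficients is the sum of its Fourier
series: `UnitAddTorus.hasSum_mFourier_series_apply_of_summable` (Mathlib, multidimensional), or Fejér /
uniqueness.
-/

open MeasureTheory Set Filter Topology
open scoped ENNReal NNReal Pointwise

namespace Pool.Agent.ILL

private theorem fou_measF0 : MeasurableSet F0 := measurableSet_Ico.prod measurableSet_Ico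

private theorem fou_measSq (δ : ℝ) : MeasurableSet (Sq δ) := measurableSet_Icc.prod measurableSet_Icc

theorem ck_bound {f : SLR × Pl → ℝ} {C : ℝ} (hb : ∀ x, |f x| ≤ C) (k : ℤ × ℤ) (h : SLR) :
    ‖ck f k h‖ ≤ C := by
  unfold ck
  have h1 : ‖∫ Q in F0, (f (h, Q) : ℂ) * ee (-(dotZ k Q))‖ ≤ C * (volume : Measure Pl).real F0 := by
    apply norm_setIntegral_le_of_norm_le_const
    · rw [volume_F0]
      exact ENNReal.one_lt_top
    · intro Q _
      rw [norm_mul, norm_ee, mul_one, Complex.norm_real, Real.norm_eq_abs]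
      exact hb _
  have h2 : (volume : Measure Pl).real F0 = 1 := by
    rw [Measure.real, volume_F0]
    rfl
  rwa [h2, mul_one] at h1

/-! ### the torus -/

private theorem fou_quot : IsOpenQuotientMap
    (fun (x : Fin 2 → ℝ) (i : Fin 2) => ((x i : ℝ) : UnitAddCircle)) :=
  IsOpenQuotientMap.piMap (fun _ => QuotientAddGroup.isOpenQuotientMap_mk)

private theorem fou_factors {β : Type*} {ψ : Pl → β} (hper : ∀ (P : Pl) (z : ℤ × ℤ), ψ (P + ZP z) = ψ P) :
    Function.FactorsThrough (fun x : Fin 2 → ℝ => ψ (x 0, x 1))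
      (fun (x : Fin 2 → ℝ) (i : Fin 2) => ((x i : ℝ) : UnitAddCircle)) := by
  intro x x' hxx
  have key : ∀ i : Fin 2, ∃ n : ℤ, x i = x' i + n := by
    intro i
    have h1 : ((x i : ℝ) : UnitAddCircle) = ((x' i : ℝ) : UnitAddCircle) := congrFun hxx i
    have h2 : ((x i - x' i : ℝ) : UnitAddCircle) = 0 := by
      rw [AddCircle.coe_sub, h1, sub_self]
    obtain ⟨n, hn⟩ := (AddCircle.coe_eq_zero_iff (1 : ℝ)).1 h2
    refine ⟨n, ?_⟩
    rw [zsmul_eq_mul, mul_one] at hn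
    rw [hn]
    ring
  obtain ⟨m, hm⟩ := key 0
  obtain ⟨n, hn⟩ := key 1
  show ψ (x 0, x 1) = ψ (x' 0, x' 1)
  have : ((x 0, x 1) : Pl) = (x' 0, x' 1) + ZP (m, n) := by
    rw [hm, hn]
    rfl
  rw [this, hper]

private theorem fou_lift {ψ : Pl → ℂ} (hper : ∀ (P : Pl) (z : ℤ × ℤ), ψ (P + ZP z) = ψ P) :
    ∃ ψ' : UnitAddTorus (Fin 2) → ℂ, ∀ x : Fin 2 → ℝ,
      ψ' (fun i => ((x i : ℝ) : UnitAddCircle)) = ψ (x 0, x 1) := by
  refine ⟨fun t => (fun x : Fin 2 → ℝ => ψ (x 0, x 1))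
    (Function.surjInv fou_quot.surjective t), fun x => ?_⟩
  apply fou_factors hper
  exact Function.surjInv_eq fou_quot.surjective _

private theorem fou_box (ψ : Pl → ℂ) (a : Fin 2 → ℝ) :
    ∫ x in {x : Fin 2 → ℝ | ∀ i, x i ∈ Ioc (a i) (a i + 1)}, ψ (x 0, x 1) =
      ∫ P in Ioc (a 0) (a 0 + 1) ×ˢ Ioc (a 1) (a 1 + 1), ψ P := by
  have h := (volume_preserving_finTwoArrow ℝ).setIntegral_preimage_emb
    (MeasurableEquiv.finTwoArrow (α := ℝ)).measurableEmbedding ψ
    (Ioc (a 0) (a 0 + 1) ×ˢ Ioc (a 1) (a 1 + 1))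
  rw [← h]
  have e : {x : Fin 2 → ℝ | ∀ i, x i ∈ Ioc (a i) (a i + 1)} =
      (MeasurableEquiv.finTwoArrow (α := ℝ)) ⁻¹'
        (Ioc (a 0) (a 0 + 1) ×ˢ Ioc (a 1) (a 1 + 1)) := by
    ext x
    constructor
    · intro hx
      exact ⟨hx 0, hx 1⟩
    · rintro ⟨h0, h1⟩ i
      fin_cases i
      · exact h0
      · exact h1
  rw [e]
  rfl

private theorem fou_coeff {ψ : Pl → ℂ} {ψ' : UnitAddTorus (Fin 2) → ℂ}
    (hψ : ∀ x : Fin 2 → ℝ, ψ' (fun i => ((x i : ℝ) : UnitAddCircle)) = ψ (x 0, x 1))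
    (n : Fin 2 → ℤ) (a : Fin 2 → ℝ) :
    UnitAddTorus.mFourierCoeff ψ' n =
      ∫ P in Ioc (a 0) (a 0 + 1) ×ˢ Ioc (a 1) (a 1 + 1), ee (-(dotZ (n 0, n 1) P)) * ψ P := by
  rw [UnitAddTorus.mFourierCoeff_eq_integral ψ' n a, ← fou_box]
  congr 1
  funext x
  rw [hψ, smul_eq_mul]
  congr 1
  simp only [UnitAddTorus.mFourier, ContinuousMap.coe_mk, Fin.prod_univ_two, fourier_coe_apply,
    Pi.neg_apply]
  rw [← Complex.exp_add]
  unfold ee dotZ
  congr 1
  push_cast
  ring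

private theorem fou_ae_box : (Ioc (0 : ℝ) 1 ×ˢ Ioc (0 : ℝ) 1 : Set Pl) =ᵐ[volume] F0 := by
  unfold F0
  rw [Measure.volume_eq_prod]
  exact Measure.set_prod_ae_eq Ico_ae_eq_Ioc.symm Ico_ae_eq_Ioc.symm

private theorem fou_F0 (ψ : Pl → ℂ) :
    ∫ P in F0, ψ P = ∫ P in Ioc (0 : ℝ) 1 ×ˢ Ioc (0 : ℝ) 1, ψ P :=
  (setIntegral_congr_set fou_ae_box).symm

private theorem fou_ee_zero : ee 0 = 1 := by
  have := ee_int 0
  rwa [Int.cast_zero] at this

/-- integrals of periodic functions over translated squares -/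
private theorem fou_trans {ψ : Pl → ℂ} (hper : ∀ (P : Pl) (z : ℤ × ℤ), ψ (P + ZP z) = ψ P)
    (v : Pl) : ∫ P in F0, ψ (P + v) = ∫ P in F0, ψ P := by
  obtain ⟨ψ', hψ'⟩ := fou_lift hper
  have h1 := fou_coeff hψ' (fun _ => 0) (fun i => if i = 0 then v.1 else v.2)
  have h2 := fou_coeff hψ' (fun _ => 0) (fun _ => 0)
  have e0 : ∀ P : Pl, ee (-(dotZ ((0 : ℤ), (0 : ℤ)) P)) * ψ P = ψ P := by
    intro P
    have : dotZ ((0 : ℤ), (0 : ℤ)) P = 0 := by
      simp [dotZ]
    rw [this, neg_zero, fou_ee_zero, one_mul]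
  simp only [e0, if_true, zero_add] at h1 h2
  rw [if_neg (by decide : ¬ (1 : Fin 2) = 0)] at h1
  rw [fou_F0, fou_F0, ← h2, h1]
  have h3 := (measurePreserving_add_right (volume : Measure Pl) v).setIntegral_preimage_emb
    (MeasurableEquiv.addRight v).measurableEmbedding ψ
    (Ioc v.1 (v.1 + 1) ×ˢ Ioc v.2 (v.2 + 1))
  rw [← h3]
  congr 2
  ext P
  simp only [mem_prod, mem_Ioc, mem_preimage, Prod.fst_add, Prod.snd_add]
  constructor
  · rintro ⟨⟨a, b⟩, ⟨c, d⟩⟩
    refine ⟨⟨?_, ?_⟩, ⟨?_, ?_⟩⟩ <;> linarith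
  · rintro ⟨⟨a, b⟩, ⟨c, d⟩⟩
    refine ⟨⟨?_, ?_⟩, ⟨?_, ?_⟩⟩ <;> linarith

/-! ### the averaging operator -/

private noncomputable def fouA (h : SLR) (δ : ℝ) (φ : Pl → ℂ) (P : Pl) : ℂ :=
  ∫ y in Sq δ, φ (P + mv h y)

private theorem fou_vol_Sq (δ : ℝ) : (volume : Measure Pl) (Sq δ) < ∞ := by
  have : IsCompact (Sq δ) := isCompact_Icc.prod isCompact_Icc
  exact this.measure_lt_top

private theorem fouA_bound {h : SLR} {δ C : ℝ} {φ : Pl → ℂ} (hb : ∀ P, ‖φ P‖ ≤ C) (P : Pl) :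
    ‖fouA h δ φ P‖ ≤ C * (volume : Measure Pl).real (Sq δ) :=
  norm_setIntegral_le_of_norm_le_const (fou_vol_Sq δ) (fun y _ => hb _)

private theorem fouA_per {h : SLR} {δ : ℝ} {φ : Pl → ℂ}
    (hper : ∀ (P : Pl) (z : ℤ × ℤ), φ (P + ZP z) = φ P) (P : Pl) (z : ℤ × ℤ) :
    fouA h δ φ (P + ZP z) = fouA h δ φ P := by
  unfold fouA
  congr 1
  funext y
  rw [add_right_comm, hper]

private theorem fouA_continuous {h : SLR} {δ C : ℝ} {φ : Pl → ℂ} (hm : Measurable φ)
    (hb : ∀ P, ‖φ P‖ ≤ C) : Continuous (fouA h δ φ) := by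
  have hC : 0 ≤ C := le_trans (norm_nonneg _) (hb 0)
  -- change of variables
  have hcv : ∀ P, fouA h δ φ P =
      ∫ Q, (Sq δ).indicator (fun _ => (1 : ℂ)) (mv h⁻¹ (Q - P)) * φ Q := by
    intro P
    have mp : MeasurePreserving ((MeasurableEquiv.subRight P).trans (eM h⁻¹))
        (volume : Measure Pl) volume :=
      (mv_volume h⁻¹).comp (measurePreserving_sub_right volume P)
    have h1 := mp.integral_comp'
      (fun y => (Sq δ).indicator (fun _ => (1 : ℂ)) y * φ (P + mv h y))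
    have h2 : fouA h δ φ P =
        ∫ y, (Sq δ).indicator (fun _ => (1 : ℂ)) y * φ (P + mv h y) := by
      unfold fouA
      rw [← integral_indicator (fou_measSq δ)]
      congr 1
      funext y
      by_cases hy : y ∈ Sq δ
      · rw [indicator_of_mem hy, indicator_of_mem hy, one_mul]
      · rw [indicator_of_notMem hy, indicator_of_notMem hy, zero_mul]
    rw [h2, ← h1]
    congr 1
    funext Q
    have e1 : ((MeasurableEquiv.subRight P).trans (eM h⁻¹)) Q = mv h⁻¹ (Q - P) := rfl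
    rw [e1, mv_mv_inv, add_sub_cancel]
  rw [continuous_iff_continuousAt]
  intro P₀
  have hfun : fouA h δ φ =
      fun P => ∫ Q, (Sq δ).indicator (fun _ => (1 : ℂ)) (mv h⁻¹ (Q - P)) * φ Q := funext hcv
  rw [hfun]
  have hKc : IsCompact (Metric.closedBall P₀ 1 + mv h '' (Sq δ)) :=
    (isCompact_closedBall P₀ 1).add
      ((isCompact_Icc.prod isCompact_Icc).image (continuous_mv_left h))
  refine continuousAt_of_dominated
    (bound := (Metric.closedBall P₀ 1 + mv h '' (Sq δ)).indicator (fun _ => C)) ?_ ?_ ?_ ?_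
  · refine Eventually.of_forall fun P => ?_
    apply Measurable.aestronglyMeasurable
    have m1 : Measurable (fun Q : Pl => mv h⁻¹ (Q - P)) :=
      (continuous_mv_left h⁻¹).measurable.comp (measurable_id.sub_const P)
    exact ((measurable_const.indicator (fou_measSq δ)).comp m1).mul hm
  · filter_upwards [Metric.closedBall_mem_nhds P₀ one_pos] with P hP
    refine Eventually.of_forall fun Q => ?_
    by_cases hQ : mv h⁻¹ (Q - P) ∈ Sq δ
    · have hmem : Q ∈ Metric.closedBall P₀ 1 + mv h '' (Sq δ) := by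
        refine ⟨P, hP, mv h (mv h⁻¹ (Q - P)), ⟨_, hQ, rfl⟩, ?_⟩
        show P + mv h (mv h⁻¹ (Q - P)) = Q
        rw [mv_mv_inv, add_sub_cancel]
      rw [indicator_of_mem hQ, one_mul, indicator_of_mem hmem]
      exact hb Q
    · rw [indicator_of_notMem hQ, zero_mul, norm_zero]
      exact indicator_nonneg (fun _ _ => hC) _
  · rw [integrable_indicator_iff hKc.measurableSet]
    exact (integrableOn_const (hs := hKc.measure_lt_top.ne))
  · have hnull : (volume : Measure Pl) (frontier (Sq δ)) = 0 :=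
      ((convex_Icc 0 δ).prod (convex_Icc 0 δ)).addHaar_frontier volume
    have mp : MeasurePreserving (fun Q : Pl => mv h⁻¹ (Q - P₀)) volume volume :=
      (mv_volume h⁻¹).comp (measurePreserving_sub_right volume P₀)
    have hae : ∀ᵐ Q : Pl, mv h⁻¹ (Q - P₀) ∉ frontier (Sq δ) :=
      mp.quasiMeasurePreserving.ae (measure_eq_zero_iff_ae_notMem.1 hnull)
    filter_upwards [hae] with Q hQ
    have hcont : ContinuousAt (fun P : Pl => mv h⁻¹ (Q - P)) P₀ :=
      ((continuous_mv_left h⁻¹).comp (continuous_const.sub continuous_id)).continuousAt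
    refine ContinuousAt.mul ?_ continuousAt_const
    by_cases hin : mv h⁻¹ (Q - P₀) ∈ interior (Sq δ)
    · have h1 : ∀ᶠ P in 𝓝 P₀, mv h⁻¹ (Q - P) ∈ Sq δ := by
        have := hcont.eventually (mem_interior_iff_mem_nhds.1 hin)
        exact this
      have h2 : (fun P : Pl => (Sq δ).indicator (fun _ => (1 : ℂ)) (mv h⁻¹ (Q - P))) =ᶠ[𝓝 P₀]
          fun _ => (1 : ℂ) := by
        filter_upwards [h1] with P hP
        exact indicator_of_mem hP _
      exact (continuousAt_congr h2).2 continuousAt_const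
    · have hcl : mv h⁻¹ (Q - P₀) ∉ closure (Sq δ) := fun hc => hQ ⟨hc, hin⟩
      have h1 : ∀ᶠ P in 𝓝 P₀, mv h⁻¹ (Q - P) ∉ Sq δ := by
        have h3 : (closure (Sq δ))ᶜ ∈ 𝓝 (mv h⁻¹ (Q - P₀)) :=
          isClosed_closure.isOpen_compl.mem_nhds hcl
        filter_upwards [hcont.eventually h3] with P hP hP'
        exact hP (subset_closure hP')
      have h2 : (fun P : Pl => (Sq δ).indicator (fun _ => (1 : ℂ)) (mv h⁻¹ (Q - P))) =ᶠ[𝓝 P₀]
          fun _ => (0 : ℂ) := by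
        filter_upwards [h1] with P hP
        exact indicator_of_notMem hP _
      exact (continuousAt_congr h2).2 continuousAt_const

private theorem fou_continuous_ee : Continuous ee := by
  unfold ee
  fun_prop

private theorem fou_continuous_dotZ (k : ℤ × ℤ) : Continuous (dotZ k) := by
  unfold dotZ
  fun_prop

private theorem fou_dotZ_add (k : ℤ × ℤ) (P Q : Pl) : dotZ k (P + Q) = dotZ k P + dotZ k Q := by
  simp only [dotZ, Prod.fst_add, Prod.snd_add]
  ring

private theorem fou_ee_per (k : ℤ × ℤ) (P : Pl) (z : ℤ × ℤ) :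
    ee (-(dotZ k (P + ZP z))) = ee (-(dotZ k P)) := by
  rw [fou_dotZ_add, neg_add, ee_add]
  have : -(dotZ k (ZP z)) = ((-(k.1 * z.1 + k.2 * z.2) : ℤ) : ℝ) := by
    simp only [dotZ, ZP]
    push_cast
    ring
  rw [this, ee_int, mul_one]

private theorem fou_shift {φ : Pl → ℂ} (hper : ∀ (P : Pl) (z : ℤ × ℤ), φ (P + ZP z) = φ P)
    (k : ℤ × ℤ) (v : Pl) :
    ∫ P in F0, ee (-(dotZ k P)) * φ (P + v) =
      ee (dotZ k v) * ∫ P in F0, ee (-(dotZ k P)) * φ P := by
  have h1 := fou_trans (ψ := fun P => ee (-(dotZ k P)) * φ P)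
    (fun P z => by
      show ee (-(dotZ k (P + ZP z))) * φ (P + ZP z) = ee (-(dotZ k P)) * φ P
      rw [fou_ee_per, hper]) v
  rw [← h1, ← integral_const_mul]
  congr 1
  funext P
  rw [← mul_assoc, ← ee_add, fou_dotZ_add]
  congr 2
  ring

private theorem fouA_coeff {h : SLR} {δ C : ℝ} {φ : Pl → ℂ} (hm : Measurable φ)
    (hb : ∀ P, ‖φ P‖ ≤ C) (hper : ∀ (P : Pl) (z : ℤ × ℤ), φ (P + ZP z) = φ P) (k : ℤ × ℤ) :
    ∫ P in F0, ee (-(dotZ k P)) * fouA h δ φ P =
      (∫ y in Sq δ, ee (dotZ k (mv h y))) * ∫ P in F0, ee (-(dotZ k P)) * φ P := by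
  have hfin0 : IsFiniteMeasure ((volume : Measure Pl).restrict F0) :=
    ⟨by rw [Measure.restrict_apply_univ, volume_F0]; exact ENNReal.one_lt_top⟩
  have hfin1 : IsFiniteMeasure ((volume : Measure Pl).restrict (Sq δ)) :=
    ⟨by rw [Measure.restrict_apply_univ]; exact fou_vol_Sq δ⟩
  have e1 : ∫ P in F0, ee (-(dotZ k P)) * fouA h δ φ P =
      ∫ P in F0, ∫ y in Sq δ, ee (-(dotZ k P)) * φ (P + mv h y) := by
    congr 1
    funext P
    rw [integral_const_mul]
    rfl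
  have hint : Integrable (Function.uncurry fun (P y : Pl) => ee (-(dotZ k P)) * φ (P + mv h y))
      (((volume : Measure Pl).restrict F0).prod ((volume : Measure Pl).restrict (Sq δ))) := by
    refine Integrable.of_bound (C := C) ?_ (Eventually.of_forall ?_)
    · apply Measurable.aestronglyMeasurable
      have m1 : Measurable fun p : Pl × Pl => ee (-(dotZ k p.1)) :=
        (fou_continuous_ee.comp ((fou_continuous_dotZ k).comp continuous_fst).neg).measurable
      have m2 : Measurable fun p : Pl × Pl => φ (p.1 + mv h p.2) :=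
        hm.comp ((continuous_fst.add
          ((continuous_mv_left h).comp continuous_snd)).measurable)
      exact m1.mul m2
    · rintro ⟨P, y⟩
      show ‖ee (-(dotZ k P)) * φ (P + mv h y)‖ ≤ C
      rw [norm_mul, norm_ee, one_mul]
      exact hb _
  rw [e1, integral_integral_swap hint]
  have e2 : ∀ y : Pl, ∫ P in F0, ee (-(dotZ k P)) * φ (P + mv h y) =
      ee (dotZ k (mv h y)) * ∫ P in F0, ee (-(dotZ k P)) * φ P := fun y => fou_shift hper k _
  simp only [e2]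
  rw [integral_mul_const]

private theorem fou_factor {δ : ℝ} (hδ : 0 < δ) (k : ℤ × ℤ) (h : SLR) :
    ∫ y in Sq δ, ee (dotZ k (mv h y)) = (δ : ℂ) ^ 2 * (sd δ (rv k h).1 * sd δ (rv k h).2) := by
  have e : ∀ y : Pl, ee (dotZ k (mv h y)) = ee ((rv k h).1 * y.1) * ee ((rv k h).2 * y.2) := by
    intro y
    rw [← ee_add]
    congr 1
    simp only [dotZ, mv, rv]
    ring
  simp only [e]
  unfold Sq
  rw [Measure.volume_eq_prod, setIntegral_prod_mul (fun x => ee ((rv k h).1 * x))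
    (fun x => ee ((rv k h).2 * x))]
  have hd : (δ : ℂ) ≠ 0 := by exact_mod_cast hδ.ne'
  have key : ∀ ξ : ℝ, ∫ x in Icc 0 δ, ee (ξ * x) = (δ : ℂ) * sd δ ξ := by
    intro ξ
    unfold sd
    rw [intervalIntegral.integral_of_le hδ.le, integral_Icc_eq_integral_Ioc, ← mul_assoc,
      mul_one_div_cancel hd, one_mul]
  rw [key, key]
  ring

private theorem fou_smo (f : SLR × Pl → ℝ) (δ : ℝ) (h : SLR) (P : Pl) :
    (smo f δ (h, P) : ℂ) =
      (1 / (δ : ℂ) ^ 4) * fouA h δ (fouA h δ (fun P => (f (h, P) : ℂ))) P := by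
  unfold smo fouA
  rw [Complex.ofReal_mul, ← integral_complex_ofReal]
  congr 1
  · push_cast
    rfl
  · congr 1
    funext y
    rw [← integral_complex_ofReal]
    congr 1
    funext y'
    show (f (h, P + mv h (y + y')) : ℂ) = (f (h, P + mv h y + mv h y') : ℂ)
    rw [mv_add, add_assoc]

theorem fourier_smooth {f : SLR × Pl → ℝ} (hf : Measurable f) {C : ℝ} (hb : ∀ x, |f x| ≤ C)
    (hper : ∀ (x : SLR × Pl) (z : ℤ × ℤ), f (eT z x) = f x) {δ : ℝ} (hδ : 0 < δ) (h : SLR) (P : Pl)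
    (hsum : Summable fun k : ℤ × ℤ => ‖mul4 δ (rv k h)‖) :
    HasSum (fun k : ℤ × ℤ => mul4 δ (rv k h) * ck f k h * ee (dotZ k P)) (smo f δ (h, P) : ℂ) := by
  have mg : Measurable (fun Q : Pl => (f (h, Q) : ℂ)) :=
    Complex.measurable_ofReal.comp (hf.comp measurable_prodMk_left)
  have bg : ∀ Q : Pl, ‖(f (h, Q) : ℂ)‖ ≤ C := fun Q => by
    rw [Complex.norm_real, Real.norm_eq_abs]
    exact hb _
  have pg : ∀ (Q : Pl) (z : ℤ × ℤ), (f (h, Q + ZP z) : ℂ) = (f (h, Q) : ℂ) := fun Q z => by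
    have := hper (h, Q) z
    rw [eT_apply] at this
    rw [this]
  have cu : Continuous (fouA h δ (fun Q => (f (h, Q) : ℂ))) := fouA_continuous mg bg
  have bu := fouA_bound (h := h) (δ := δ) (φ := fun Q => (f (h, Q) : ℂ)) bg
  have pu := fouA_per (h := h) (δ := δ) (φ := fun Q => (f (h, Q) : ℂ)) pg
  have cG : Continuous (fouA h δ (fouA h δ (fun Q => (f (h, Q) : ℂ)))) :=
    fouA_continuous cu.measurable bu
  have pG := fouA_per (h := h) (δ := δ) pu
  let G : Pl → ℂ := fun Q => (1 / (δ : ℂ) ^ 4) * fouA h δ (fouA h δ (fun Q => (f (h, Q) : ℂ))) Q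
  have hG : Continuous G := continuous_const.mul cG
  have hGper : ∀ (Q : Pl) (z : ℤ × ℤ), G (Q + ZP z) = G Q := fun Q z => by
    show (1 / (δ : ℂ) ^ 4) * _ = (1 / (δ : ℂ) ^ 4) * _
    rw [pG]
  have hG' : Continuous fun x : Fin 2 → ℝ => G (x 0, x 1) :=
    hG.comp ((continuous_apply 0).prodMk (continuous_apply 1))
  let pr : C(Fin 2 → ℝ, UnitAddTorus (Fin 2)) :=
    ⟨fun x i => ((x i : ℝ) : UnitAddCircle), fou_quot.continuous⟩
  have hpr : IsQuotientMap pr := fou_quot.isQuotientMap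
  have hfac : Function.FactorsThrough (⟨_, hG'⟩ : C(Fin 2 → ℝ, ℂ)) pr := fou_factors hGper
  let F : C(UnitAddTorus (Fin 2), ℂ) := hpr.lift ⟨_, hG'⟩ hfac
  have hF : ∀ x : Fin 2 → ℝ, F (fun i => ((x i : ℝ) : UnitAddCircle)) = G (x 0, x 1) := by
    intro x
    have := hpr.lift_comp ⟨_, hG'⟩ hfac
    exact congrArg (fun q : C(Fin 2 → ℝ, ℂ) => q x) this
  have hd : (δ : ℂ) ≠ 0 := by exact_mod_cast hδ.ne'
  have hcoeff : ∀ n : Fin 2 → ℤ, UnitAddTorus.mFourierCoeff F n =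
      mul4 δ (rv (n 0, n 1) h) * ck f (n 0, n 1) h := by
    intro n
    rw [fou_coeff hF n (fun _ => 0), zero_add, ← fou_F0]
    have e1 : ∀ Q : Pl, ee (-(dotZ (n 0, n 1) Q)) * G Q =
        (1 / (δ : ℂ) ^ 4) * (ee (-(dotZ (n 0, n 1) Q)) *
          fouA h δ (fouA h δ (fun Q => (f (h, Q) : ℂ))) Q) := fun Q => by
      show _ * ((1 / (δ : ℂ) ^ 4) * _) = _
      ring
    simp only [e1]
    rw [integral_const_mul, fouA_coeff cu.measurable bu pu, fouA_coeff mg bg pg,
      fou_factor hδ]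
    have e2 : ∫ Q in F0, ee (-(dotZ (n 0, n 1) Q)) * (f (h, Q) : ℂ) = ck f (n 0, n 1) h := by
      unfold ck
      congr 1
      funext Q
      rw [mul_comm]
    rw [e2]
    unfold mul4
    field_simp
  have hsF : Summable (UnitAddTorus.mFourierCoeff (d := Fin 2) F) := by
    have h1 : Summable fun n : Fin 2 → ℤ => ‖mul4 δ (rv (n 0, n 1) h)‖ :=
      hsum.comp_injective (i := fun n : Fin 2 → ℤ => (n 0, n 1))
        (finTwoArrowEquiv ℤ).injective
    refine Summable.of_norm_bounded (g := fun n => ‖mul4 δ (rv (n 0, n 1) h)‖ * C)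
      (h1.mul_right C) ?_
    intro n
    rw [hcoeff, norm_mul]
    exact mul_le_mul_of_nonneg_left (ck_bound hb _ _) (norm_nonneg _)
  have hmain := UnitAddTorus.hasSum_mFourier_series_apply_of_summable hsF
    (fun i : Fin 2 => (((if i = 0 then P.1 else P.2) : ℝ) : UnitAddCircle))
  rw [hF (fun i : Fin 2 => if i = 0 then P.1 else P.2)] at hmain
  have e3 : G ((fun i : Fin 2 => if i = 0 then P.1 else P.2) 0,
      (fun i : Fin 2 => if i = 0 then P.1 else P.2) 1) = (smo f δ (h, P) : ℂ) := by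
    rw [fou_smo]
    rfl
  rw [e3] at hmain
  rw [← (finTwoArrowEquiv ℤ).hasSum_iff]
  refine hmain.congr_fun ?_
  intro n
  show mul4 δ (rv (n 0, n 1) h) * ck f (n 0, n 1) h * ee (dotZ (n 0, n 1) P) = _
  rw [hcoeff, smul_eq_mul]
  congr 1
  simp only [UnitAddTorus.mFourier, ContinuousMap.coe_mk, Fin.prod_univ_two, fourier_coe_apply]
  rw [← Complex.exp_add]
  unfold ee dotZ
  congr 1
  simp only [if_true, if_neg (by decide : ¬ (1 : Fin 2) = 0)]
  push_cast
  ring

end Pool.Agent.ILL
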