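import Pool.Agent.ILL.Sdb

/-!
# TAL. Lattice sums of the multiplier, uniformly for lattices without short vectors

For `h ∈ Cut c` the points `rv k h`, `k ∈ ℤ²`, are at sup-distance at least `c` from each other, so a half-open
unit square contains at most `N(c) = (⌈1/c⌉+1)²` of them (divide it into squares of side `< c`). On the unit square
with lower left corner `(i,j)`, `mul4_le` gives `|mul4 δ ξ| ≤ b_i b_j` with
`b_i = sup_{t ∈ [i,i+1)} 2/(1+(πδt)²) ≤ 2/(1 + (πδ)² max(0,|i|-1)²)`, summable over `i ∈ ℤ`. So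
`Σ_k |mul4 δ (rv k h)| ≤ N(c) (Σ b_i)²` and the part with `nrmI (rv k h) > R` is at most
`N(c) Σ_{max(|i|,|j|) ≥ R-1} b_i b_j → 0` as `R → ∞`. Every `h` is in some `Cut c` (`exists_cut`: the lattice `ℤ² h`
is discrete).
-/

open MeasureTheory Set Filter Topology
open scoped ENNReal NNReal

namespace Pool.Agent.ILL

private theorem tal_det (h : SLR) : h 0 0 * h 1 1 - h 0 1 * h 1 0 = 1 := by
  have := h.det_coe
  rwa [Matrix.det_fin_two] at this

private theorem tal_inv1 (h : SLR) (k : ℤ × ℤ) :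
    (k.1 : ℝ) = (rv k h).1 * h 1 1 - (rv k h).2 * h 1 0 := by
  simp only [rv]
  linear_combination -(k.1 : ℝ) * tal_det h

private theorem tal_inv2 (h : SLR) (k : ℤ × ℤ) :
    (k.2 : ℝ) = (rv k h).2 * h 0 0 - (rv k h).1 * h 0 1 := by
  simp only [rv]
  linear_combination -(k.2 : ℝ) * tal_det h

theorem exists_cut (h : SLR) : ∃ c > 0, h ∈ Cut c := by
  have hM : 0 < |h 0 0| + |h 0 1| + |h 1 0| + |h 1 1| + 1 := by positivity
  refine ⟨1 / (|h 0 0| + |h 0 1| + |h 1 0| + |h 1 1| + 1), by positivity, ?_⟩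
  intro k hk
  rw [div_le_iff₀ hM]
  have a1 : |(rv k h).1| ≤ nrmI (rv k h) := le_max_left _ _
  have a2 : |(rv k h).2| ≤ nrmI (rv k h) := le_max_right _ _
  have a0 : 0 ≤ nrmI (rv k h) := le_trans (abs_nonneg _) a1
  have b1 : |(k.1 : ℝ)| ≤ nrmI (rv k h) * (|h 0 0| + |h 0 1| + |h 1 0| + |h 1 1| + 1) := by
    rw [tal_inv1 h k]
    calc |(rv k h).1 * h 1 1 - (rv k h).2 * h 1 0|
        ≤ |(rv k h).1 * h 1 1| + |(rv k h).2 * h 1 0| := abs_sub _ _
      _ = |(rv k h).1| * |h 1 1| + |(rv k h).2| * |h 1 0| := by rw [abs_mul, abs_mul]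
      _ ≤ nrmI (rv k h) * |h 1 1| + nrmI (rv k h) * |h 1 0| :=
          add_le_add (mul_le_mul_of_nonneg_right a1 (abs_nonneg _))
            (mul_le_mul_of_nonneg_right a2 (abs_nonneg _))
      _ ≤ _ := by
          rw [← mul_add]
          apply mul_le_mul_of_nonneg_left _ a0
          have := abs_nonneg (h 0 0)
          have := abs_nonneg (h 0 1)
          linarith
  have b2 : |(k.2 : ℝ)| ≤ nrmI (rv k h) * (|h 0 0| + |h 0 1| + |h 1 0| + |h 1 1| + 1) := by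
    rw [tal_inv2 h k]
    calc |(rv k h).2 * h 0 0 - (rv k h).1 * h 0 1|
        ≤ |(rv k h).2 * h 0 0| + |(rv k h).1 * h 0 1| := abs_sub _ _
      _ = |(rv k h).2| * |h 0 0| + |(rv k h).1| * |h 0 1| := by rw [abs_mul, abs_mul]
      _ ≤ nrmI (rv k h) * |h 0 0| + nrmI (rv k h) * |h 0 1| :=
          add_le_add (mul_le_mul_of_nonneg_right a2 (abs_nonneg _))
            (mul_le_mul_of_nonneg_right a1 (abs_nonneg _))
      _ ≤ _ := by
          rw [← mul_add]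
          apply mul_le_mul_of_nonneg_left _ a0
          have := abs_nonneg (h 1 0)
          have := abs_nonneg (h 1 1)
          linarith
  by_cases h1 : k.1 = 0
  · have h2 : k.2 ≠ 0 := fun h2 => hk (Prod.ext h1 h2)
    refine le_trans ?_ b2
    have : (1 : ℤ) ≤ |k.2| := Int.one_le_abs h2
    have : ((1 : ℤ) : ℝ) ≤ ((|k.2| : ℤ) : ℝ) := by exact_mod_cast this
    simpa using this
  · refine le_trans ?_ b1
    have : (1 : ℤ) ≤ |k.1| := Int.one_le_abs h1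
    have : ((1 : ℤ) : ℝ) ≤ ((|k.1| : ℤ) : ℝ) := by exact_mod_cast this
    simpa using this

/-- the bound on the cell `a` -/
private noncomputable def talb (s : ℝ) (a : ℤ) : ℝ := 2 / (1 + (s * max 0 (|(a : ℝ)| - 1)) ^ 2)

private theorem talb_nonneg (s : ℝ) (a : ℤ) : 0 ≤ talb s a := by
  unfold talb
  positivity

private theorem talb_summable {s : ℝ} (hs : 0 < s) : Summable (talb s) := by
  have h1 : Summable (fun a : ℤ => (8 / s ^ 2) * (1 / (a : ℝ) ^ 2)) :=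
    (Real.summable_one_div_int_pow.2 one_lt_two).mul_left _
  refine Summable.of_norm_bounded_eventually h1 ?_
  rw [Filter.eventually_cofinite]
  refine Set.Finite.subset (Set.finite_Icc (-1 : ℤ) 1) ?_
  intro a ha
  by_contra hna
  apply ha
  have h2 : 2 ≤ |a| := by
    rw [Set.mem_Icc, not_and_or] at hna
    rcases hna with h | h
    · rw [abs_of_neg (by omega)]
      omega
    · rw [abs_of_pos (by omega)]
      omega
  have h3 : (2 : ℝ) ≤ |(a : ℝ)| := by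
    have : ((2 : ℤ) : ℝ) ≤ ((|a| : ℤ) : ℝ) := by exact_mod_cast h2
    simpa using this
  rw [Real.norm_of_nonneg (talb_nonneg s a)]
  unfold talb
  have h4 : |(a : ℝ)| / 2 ≤ max 0 (|(a : ℝ)| - 1) := le_trans (by linarith) (le_max_right _ _)
  have h5 : s * (|(a : ℝ)| / 2) ≤ s * max 0 (|(a : ℝ)| - 1) := mul_le_mul_of_nonneg_left h4 hs.le
  have h6 : (s * (|(a : ℝ)| / 2)) ^ 2 ≤ (s * max 0 (|(a : ℝ)| - 1)) ^ 2 :=
    pow_le_pow_left₀ (by positivity) h5 2
  have h7 : (s * (|(a : ℝ)| / 2)) ^ 2 = s ^ 2 * (a : ℝ) ^ 2 / 4 := by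
    rw [mul_pow, div_pow, sq_abs]
    ring
  have ha0 : (a : ℝ) ≠ 0 := by
    intro h0
    rw [h0] at h3
    norm_num at h3
  have h8 : 0 < s ^ 2 * (a : ℝ) ^ 2 / 4 := by positivity
  calc 2 / (1 + (s * max 0 (|(a : ℝ)| - 1)) ^ 2) ≤ 2 / (s ^ 2 * (a : ℝ) ^ 2 / 4) := by
        apply div_le_div_of_nonneg_left (by norm_num) h8
        rw [← h7]
        linarith
    _ = 8 / s ^ 2 * (1 / (a : ℝ) ^ 2) := by
        field_simp
        ring

private theorem talb_floor {δ m : ℝ} (hδ : 0 < δ) (hm : 0 < m) (t : ℝ) :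
    2 / (1 + (Real.pi * δ * t) ^ 2) ≤ talb (Real.pi * δ / m) ⌊m * t⌋ := by
  unfold talb
  apply div_le_div_of_nonneg_left (by norm_num) (by positivity)
  have h1 : |((⌊m * t⌋ : ℤ) : ℝ)| - 1 ≤ |m * t| := by
    have a1 := Int.floor_le (m * t)
    have a2 := (Int.lt_floor_add_one (m * t)).le
    have a3 : |((⌊m * t⌋ : ℤ) : ℝ) - m * t| ≤ 1 := by
      rw [abs_le]
      constructor <;> linarith
    have a4 := abs_sub_abs_le_abs_sub ((⌊m * t⌋ : ℤ) : ℝ) (m * t)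
    linarith
  have h2 : max 0 (|((⌊m * t⌋ : ℤ) : ℝ)| - 1) ≤ |m * t| := max_le (abs_nonneg _) h1
  have hs : 0 < Real.pi * δ / m := by positivity
  have h3 := mul_le_mul_of_nonneg_left h2 hs.le
  have h4 : Real.pi * δ / m * |m * t| = |Real.pi * δ * t| := by
    rw [abs_mul, abs_mul, abs_mul, abs_of_pos hm, abs_of_pos hδ, abs_of_pos Real.pi_pos]
    field_simp
  rw [h4] at h3
  have h5 := pow_le_pow_left₀ (mul_nonneg hs.le (le_max_left 0 (|((⌊m * t⌋ : ℤ) : ℝ)| - 1))) h3 2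
  rw [sq_abs] at h5
  linarith

private noncomputable def talB (δ m : ℝ) (p : ℤ × ℤ) : ℝ :=
  talb (Real.pi * δ / m) p.1 * talb (Real.pi * δ / m) p.2

private theorem talB_nonneg (δ m : ℝ) (p : ℤ × ℤ) : 0 ≤ talB δ m p :=
  mul_nonneg (talb_nonneg _ _) (talb_nonneg _ _)

private theorem talB_summable {δ m : ℝ} (hδ : 0 < δ) (hm : 0 < m) : Summable (talB δ m) := by
  have hs : 0 < Real.pi * δ / m := by positivity
  exact (talb_summable hs).mul_of_nonneg (talb_summable hs) (talb_nonneg _) (talb_nonneg _)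

private noncomputable def talc (m : ℝ) (ξ : Pl) : ℤ × ℤ := (⌊m * ξ.1⌋, ⌊m * ξ.2⌋)

private theorem tal_mul4_le {δ m : ℝ} (hδ : 0 < δ) (hm : 0 < m) (ξ : Pl) :
    ‖mul4 δ ξ‖ ≤ talB δ m (talc m ξ) := by
  refine le_trans (mul4_le hδ ξ) ?_
  have h1 := talb_floor hδ hm ξ.1
  have h2 := talb_floor hδ hm ξ.2
  have h3 : 4 / ((1 + (Real.pi * δ * ξ.1) ^ 2) * (1 + (Real.pi * δ * ξ.2) ^ 2)) =
      2 / (1 + (Real.pi * δ * ξ.1) ^ 2) * (2 / (1 + (Real.pi * δ * ξ.2) ^ 2)) := by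
    rw [div_mul_div_comm]
    norm_num
  rw [h3]
  exact mul_le_mul h1 h2 (by positivity) (talb_nonneg _ _)

private theorem tal_inj {c : ℝ} (hc : 0 < c) {h : SLR} (hh : h ∈ Cut c) :
    Function.Injective (fun k : ℤ × ℤ => talc (2 / c) (rv k h)) := by
  intro k k' hkk
  by_contra hne
  have hne' : k - k' ≠ 0 := sub_ne_zero.2 hne
  have h1 := hh (k - k') hne'
  have hm : 0 < 2 / c := by positivity
  simp only [talc, Prod.mk.injEq] at hkk
  have e1 : (rv (k - k') h).1 = (rv k h).1 - (rv k' h).1 := by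
    simp only [rv, Prod.fst_sub, Prod.snd_sub]
    push_cast
    ring
  have e2 : (rv (k - k') h).2 = (rv k h).2 - (rv k' h).2 := by
    simp only [rv, Prod.fst_sub, Prod.snd_sub]
    push_cast
    ring
  have key : ∀ a b : ℝ, ⌊2 / c * a⌋ = ⌊2 / c * b⌋ → |a - b| < c := by
    intro a b hab
    have h2 : |2 / c * a - 2 / c * b| < 1 := Int.abs_sub_lt_one_of_floor_eq_floor hab
    rw [← mul_sub, abs_mul, abs_of_pos hm] at h2
    have h3 : 2 / c * |a - b| * c < 1 * c := mul_lt_mul_of_pos_right h2 hc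
    have h4 : 2 / c * |a - b| * c = 2 * |a - b| := by
      field_simp
    rw [h4] at h3
    have := abs_nonneg (a - b)
    linarith
  have h2 : nrmI (rv (k - k') h) < c := by
    unfold nrmI
    rw [e1, e2]
    exact max_lt (key _ _ hkk.1) (key _ _ hkk.2)
  linarith

theorem mul4_summable {δ : ℝ} (hδ : 0 < δ) (h : SLR) :
    Summable fun k : ℤ × ℤ => ‖mul4 δ (rv k h)‖ := by
  obtain ⟨c, hc, hh⟩ := exists_cut h
  have hm : 0 < 2 / c := by positivity
  refine Summable.of_nonneg_of_le (fun k => norm_nonneg _)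
    (fun k => tal_mul4_le hδ hm (rv k h)) ?_
  exact (talB_summable hδ hm).comp_injective (tal_inj hc hh)

open Classical in
theorem tail {c δ ε : ℝ} (hc : 0 < c) (hδ : 0 < δ) (hε : 0 < ε) :
    ∃ R > 0, ∀ h ∈ Cut c,
      ∑' k : ℤ × ℤ, (if R < nrmI (rv k h) then ‖mul4 δ (rv k h)‖ else 0) ≤ ε := by
  have hm : 0 < 2 / c := by positivity
  have hB := talB_summable hδ hm
  have h1 := tendsto_tsum_compl_atTop_zero (talB δ (2 / c))
  have h2 : ∀ᶠ s : Finset (ℤ × ℤ) in atTop, ∑' a : {x // x ∉ s}, talB δ (2 / c) a < ε :=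
    h1.eventually (gt_mem_nhds hε)
  obtain ⟨s, hs⟩ := h2.exists
  have hsum0 : 0 ≤ ∑ p ∈ s, (|(p.1 : ℝ)| + |(p.2 : ℝ)|) :=
    Finset.sum_nonneg fun p _ => by positivity
  refine ⟨(∑ p ∈ s, (|(p.1 : ℝ)| + |(p.2 : ℝ)|) + 1) / (2 / c), by positivity, ?_⟩
  intro h hh
  have hcell : ∀ ξ : Pl, (∑ p ∈ s, (|(p.1 : ℝ)| + |(p.2 : ℝ)|) + 1) / (2 / c) < nrmI ξ →
      talc (2 / c) ξ ∉ s := by
    intro ξ hξ hmem
    have h3 : |((talc (2 / c) ξ).1 : ℝ)| + |((talc (2 / c) ξ).2 : ℝ)| ≤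
        ∑ p ∈ s, (|(p.1 : ℝ)| + |(p.2 : ℝ)|) :=
      Finset.single_le_sum (f := fun p : ℤ × ℤ => |(p.1 : ℝ)| + |(p.2 : ℝ)|)
        (fun p _ => by positivity) hmem
    have key : ∀ t : ℝ, |((⌊2 / c * t⌋ : ℤ) : ℝ)| ≤ ∑ p ∈ s, (|(p.1 : ℝ)| + |(p.2 : ℝ)|) →
        |t| ≤ (∑ p ∈ s, (|(p.1 : ℝ)| + |(p.2 : ℝ)|) + 1) / (2 / c) := by
      intro t ht
      rw [le_div_iff₀ hm]
      have a1 := Int.floor_le (2 / c * t)
      have a2 := (Int.lt_floor_add_one (2 / c * t)).le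
      have a3 : |2 / c * t - ((⌊2 / c * t⌋ : ℤ) : ℝ)| ≤ 1 := by
        rw [abs_le]
        constructor <;> linarith
      have a4 := abs_sub_abs_le_abs_sub (2 / c * t) ((⌊2 / c * t⌋ : ℤ) : ℝ)
      have a5 : |t| * (2 / c) = |2 / c * t| := by
        rw [abs_mul, abs_of_pos hm, mul_comm]
      rw [a5]
      linarith
    have b1 : |((talc (2 / c) ξ).1 : ℝ)| ≤ ∑ p ∈ s, (|(p.1 : ℝ)| + |(p.2 : ℝ)|) :=
      le_trans (by have := abs_nonneg ((talc (2 / c) ξ).2 : ℝ); linarith) h3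
    have b2 : |((talc (2 / c) ξ).2 : ℝ)| ≤ ∑ p ∈ s, (|(p.1 : ℝ)| + |(p.2 : ℝ)|) :=
      le_trans (by have := abs_nonneg ((talc (2 / c) ξ).1 : ℝ); linarith) h3
    have c1 := key ξ.1 b1
    have c2 := key ξ.2 b2
    have : nrmI ξ ≤ _ := max_le c1 c2
    linarith
  let B' : ℤ × ℤ → ℝ := ({x | x ∉ s} : Set (ℤ × ℤ)).indicator (talB δ (2 / c))
  have hB'0 : ∀ p, 0 ≤ B' p := fun p => indicator_nonneg (fun q _ => talB_nonneg _ _ q) p
  have hB's : Summable B' := hB.indicator _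
  have hle : ∀ k : ℤ × ℤ,
      (if (∑ p ∈ s, (|(p.1 : ℝ)| + |(p.2 : ℝ)|) + 1) / (2 / c) < nrmI (rv k h) then
        ‖mul4 δ (rv k h)‖ else 0) ≤ B' (talc (2 / c) (rv k h)) := by
    intro k
    split_ifs with hk
    · have hnot := hcell _ hk
      have : B' (talc (2 / c) (rv k h)) = talB δ (2 / c) (talc (2 / c) (rv k h)) :=
        indicator_of_mem (show talc (2 / c) (rv k h) ∈ {x | x ∉ s} from hnot) _
      rw [this]
      exact tal_mul4_le hδ hm _
    · exact hB'0 _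
  have hsummable : Summable fun k : ℤ × ℤ =>
      (if (∑ p ∈ s, (|(p.1 : ℝ)| + |(p.2 : ℝ)|) + 1) / (2 / c) < nrmI (rv k h) then
        ‖mul4 δ (rv k h)‖ else 0) := by
    refine Summable.of_nonneg_of_le (fun k => ?_) hle (hB's.comp_injective (tal_inj hc hh))
    split_ifs
    · exact norm_nonneg _
    · exact le_rfl
  have hfin := hsummable.tsum_le_tsum_of_inj (fun k : ℤ × ℤ => talc (2 / c) (rv k h))
    (tal_inj hc hh) (fun p _ => hB'0 p) hle hB's
  refine le_trans hfin ?_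
  have e : ∑' p, B' p = ∑' a : {x // x ∉ s}, talB δ (2 / c) a :=
    (tsum_subtype ({x | x ∉ s} : Set (ℤ × ℤ)) (talB δ (2 / c))).symm
  rw [e]
  exact hs.le

end Pool.Agent.ILL
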