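import Pool.Agent.ILL.Ckt
import Pool.Agent.ILL.Cus
import Pool.Agent.ILL.Rwc
import Pool.Agent.ILL.Sdb

/-!
# UFD. The Fourier series as sums over the group

For almost every `h` (all `rv k h`, `k ≠ 0`, have nonzero second coordinate: `muG_col2_ne`; and the identities of
`ck_trans` hold for all `γ`): if `h ∈ Cut c`,
`Σ_{k ≠ 0, nrmI(rv k h) ≤ R} mul4 δ (rv k h) ck f k h e(k·P) = Σ_{d=1}^{D} Esum (gd f δ c R d) d P h`,
`D = ⌊R/c⌋`.
PROOF. Both sides are finite sums (the lattice is discrete; for `Esum`: `toR γ * h ∈ St` and a bounded first row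
leave finitely many `γ`). Every `k ≠ 0` is uniquely `k = d k'`, `d = gcd ≥ 1`, `k'` coprime, and
`d c ≤ d nrmI(rv k' h) = nrmI (rv k h) ≤ R` forces `d ≤ D`. For a coprime `k'` the matrices `γ ∈ SLZ` with first row
`k'` are `gL^j γ₀`, `j ∈ ℤ`; `row1 (γ h) = rv k' h`, and `qq (gL^j γ₀ h) = qq (γ₀ h) + j`, so exactly one of them
satisfies `toR γ * h ∈ St`. For this `γ`: `γ h ∈ Cut c` (`Cut_inv`), and
`gd f δ c R d (γh) = 1[d nrmI(rv k' h) ≤ R] mul4 δ (d rv k' h) ck f (d,0) (γh)` with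
`ck f (d,0) (γh) = ck f (d k') h` (`ck_trans`), and the phase is `e(d k'·P) = e(k·P)`.
If `h ∉ Cut c` all terms of `Esum` vanish.
`gd_integrable`: `gd` is bounded by `C`, supported in `St ∩ {nrmI (row1 h) ≤ R}` (`d ≥ 1`), `St_fin`.
-/

open MeasureTheory Set Filter Topology
open scoped ENNReal NNReal

namespace Pool.Agent.ILL

private theorem tm (γ : SLZ) (h : SLR) (i j : Fin 2) :
    (toR γ * h) i j = ((γ i 0 : ℤ) : ℝ) * h 0 j + ((γ i 1 : ℤ) : ℝ) * h 1 j := by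
  rw [Matrix.SpecialLinearGroup.coe_mul, Matrix.mul_apply, Fin.sum_univ_two]
  rfl

private theorem detz (γ : SLZ) : γ 0 0 * γ 1 1 - γ 0 1 * γ 1 0 = 1 := by
  have h := γ.2
  rw [Matrix.det_fin_two] at h
  exact h

private theorem row1_tm (γ : SLZ) (h : SLR) : row1 (toR γ * h) = rv (γ 0 0, γ 0 1) h := by
  unfold row1 rv
  rw [tm, tm]

private theorem rv_smul (d : ℤ) (k : ℤ × ℤ) (h : SLR) :
    rv (d * k.1, d * k.2) h = ((d : ℝ) * (rv k h).1, (d : ℝ) * (rv k h).2) := by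
  unfold rv
  ext <;> simp <;> ring

private theorem nrmI_smul (d : ℕ) (k : ℤ × ℤ) (h : SLR) :
    nrmI (rv ((d : ℤ) * k.1, (d : ℤ) * k.2) h) = (d : ℝ) * nrmI (rv k h) := by
  rw [rv_smul]
  unfold nrmI
  simp only [Int.cast_natCast, abs_mul, Nat.abs_cast]
  rw [mul_max_of_nonneg _ _ (Nat.cast_nonneg d)]

private theorem gamma_exists {k : ℤ × ℤ} (hk : Int.gcd k.1 k.2 = 1) {h : SLR}
    (h2 : (rv k h).2 ≠ 0) : ∃ γ : SLZ, γ 0 0 = k.1 ∧ γ 0 1 = k.2 ∧ toR γ * h ∈ St := by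
  have hb : k.1 * Int.gcdA k.1 k.2 + k.2 * Int.gcdB k.1 k.2 = 1 := by
    have := Int.gcd_eq_gcd_ab k.1 k.2
    rw [hk] at this
    exact this.symm
  set a : ℤ := -Int.gcdB k.1 k.2 with ha
  set b : ℤ := Int.gcdA k.1 k.2 with hb'
  have hab : k.1 * b - k.2 * a = 1 := by
    rw [ha]
    linarith
  set t : ℝ := ((a : ℝ) * h 0 1 + (b : ℝ) * h 1 1) / ((k.1 : ℝ) * h 0 1 + (k.2 : ℝ) * h 1 1) with ht
  set j : ℤ := -⌊t⌋ with hj
  let γ : SLZ := ⟨!![k.1, k.2; a + j * k.1, b + j * k.2], by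
    rw [Matrix.det_fin_two]
    simp only [Matrix.of_apply, Matrix.cons_val', Matrix.cons_val_zero,
      Matrix.cons_val_one, Matrix.cons_val_fin_one]
    linarith⟩
  have g00 : γ 0 0 = k.1 := rfl
  have g01 : γ 0 1 = k.2 := rfl
  have g10 : γ 1 0 = a + j * k.1 := rfl
  have g11 : γ 1 1 = b + j * k.2 := rfl
  have h2' : (k.1 : ℝ) * h 0 1 + (k.2 : ℝ) * h 1 1 ≠ 0 := h2
  have hq : qq (toR γ * h) = t + j := by
    unfold qq
    rw [tm, tm, g00, g01, g10, g11, ht]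
    push_cast
    field_simp
    ring
  refine ⟨γ, g00, g01, ?_, ?_⟩
  · rw [tm, g00, g01]
    exact h2'
  · rw [hq, hj]
    push_cast
    exact ⟨by linarith [Int.floor_le t], by linarith [Int.lt_floor_add_one t]⟩

private theorem gamma_unique {γ γ' : SLZ} {h : SLR} (h00 : γ 0 0 = γ' 0 0) (h01 : γ 0 1 = γ' 0 1)
    (hS : toR γ * h ∈ St) (hS' : toR γ' * h ∈ St) : γ = γ' := by
  have d1 := detz γ
  have d2 := detz γ'
  rw [← h00, ← h01] at d2
  set u := γ' 1 0 - γ 1 0 with hu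
  set v := γ' 1 1 - γ 1 1 with hv
  have huv : γ 0 0 * v = γ 0 1 * u := by
    rw [hu, hv]
    linarith
  set j := γ 1 1 * u - γ 1 0 * v with hj
  have e1 : γ 0 0 * j = u := by
    have : γ 0 0 * j = γ 1 1 * γ 0 0 * u - γ 1 0 * (γ 0 0 * v) := by
      rw [hj]
      ring
    rw [this, huv]
    have : γ 1 1 * γ 0 0 * u - γ 1 0 * (γ 0 1 * u) = u * (γ 0 0 * γ 1 1 - γ 0 1 * γ 1 0) := by ring
    rw [this, d1, mul_one]
  have e2 : γ 0 1 * j = v := by
    have : γ 0 1 * j = γ 1 1 * (γ 0 1 * u) - γ 1 0 * γ 0 1 * v := by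
      rw [hj]
      ring
    rw [this, ← huv]
    have : γ 1 1 * (γ 0 0 * v) - γ 1 0 * γ 0 1 * v = v * (γ 0 0 * γ 1 1 - γ 0 1 * γ 1 0) := by ring
    rw [this, d1, mul_one]
  have n0 : (toR γ * h) 0 1 ≠ 0 := hS.1
  have hq : qq (toR γ' * h) = qq (toR γ * h) + j := by
    have f1 : ((γ' 1 0 : ℤ) : ℝ) = ((γ 1 0 : ℤ) : ℝ) + (γ 0 0 : ℤ) * (j : ℝ) := by
      have : γ' 1 0 = γ 1 0 + γ 0 0 * j := by
        rw [e1, hu]
        ring
      rw [this]
      push_cast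
      ring
    have f2 : ((γ' 1 1 : ℤ) : ℝ) = ((γ 1 1 : ℤ) : ℝ) + (γ 0 1 : ℤ) * (j : ℝ) := by
      have : γ' 1 1 = γ 1 1 + γ 0 1 * j := by
        rw [e2, hv]
        ring
      rw [this]
      push_cast
      ring
    unfold qq
    rw [tm] at n0
    rw [tm γ' h 1 1, tm γ' h 0 1, tm γ h 1 1, tm γ h 0 1, ← h00, ← h01, f1, f2]
    field_simp
    ring
  have hj0 : j = 0 := by
    have a1 := hS.2
    have a2 := hS'.2
    rw [hq] at a2
    have b1 : (j : ℝ) < 1 := by linarith [a1.1, a2.2]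
    have b2 : (-1 : ℝ) < j := by linarith [a1.2, a2.1]
    have c1 : j < 1 := by exact_mod_cast b1
    have c2 : -1 < j := by exact_mod_cast b2
    omega
  rw [hj0, mul_zero] at e1 e2
  apply Matrix.SpecialLinearGroup.ext
  intro i j
  fin_cases i <;> fin_cases j
  · exact h00
  · exact h01
  · show γ 1 0 = γ' 1 0
    linarith
  · show γ 1 1 = γ' 1 1
    linarith

private theorem fin_rv (h : SLR) (R : ℝ) : {k : ℤ × ℤ | nrmI (rv k h) ≤ R}.Finite := by
  have hd := h.2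
  rw [Matrix.det_fin_two] at hd
  have hd' : h 0 0 * h 1 1 - h 0 1 * h 1 0 = 1 := hd
  obtain ⟨N, hN⟩ := exists_nat_ge (|R| * (|h 0 0| + |h 0 1| + |h 1 0| + |h 1 1|))
  refine Set.Finite.subset ((Set.finite_Icc (-(N : ℤ)) N).prod (Set.finite_Icc (-(N : ℤ)) N)) ?_
  rintro k hk
  have hk' : nrmI (rv k h) ≤ R := hk
  have hx : |(rv k h).1| ≤ |R| := (le_max_left _ _).trans (hk'.trans (le_abs_self R))
  have hy : |(rv k h).2| ≤ |R| := (le_max_right _ _).trans (hk'.trans (le_abs_self R))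
  have e1 : (k.1 : ℝ) = (rv k h).1 * h 1 1 - (rv k h).2 * h 1 0 := by
    have : (rv k h).1 * h 1 1 - (rv k h).2 * h 1 0 =
        (k.1 : ℝ) * (h 0 0 * h 1 1 - h 0 1 * h 1 0) := by
      unfold rv
      ring
    rw [this, hd', mul_one]
  have e2 : (k.2 : ℝ) = (rv k h).2 * h 0 0 - (rv k h).1 * h 0 1 := by
    have : (rv k h).2 * h 0 0 - (rv k h).1 * h 0 1 =
        (k.2 : ℝ) * (h 0 0 * h 1 1 - h 0 1 * h 1 0) := by
      unfold rv
      ring
    rw [this, hd', mul_one]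
  have aR := abs_nonneg R
  have b00 := abs_nonneg (h 0 0)
  have b01 := abs_nonneg (h 0 1)
  have b10 := abs_nonneg (h 1 0)
  have b11 := abs_nonneg (h 1 1)
  have k1 : |(k.1 : ℝ)| ≤ N := by
    rw [e1]
    refine (abs_sub _ _).trans ?_
    rw [abs_mul, abs_mul]
    have c1 := mul_le_mul_of_nonneg_right hx b11
    have c2 := mul_le_mul_of_nonneg_right hy b10
    nlinarith [mul_nonneg aR b00, mul_nonneg aR b01]
  have k2 : |(k.2 : ℝ)| ≤ N := by
    rw [e2]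
    refine (abs_sub _ _).trans ?_
    rw [abs_mul, abs_mul]
    have c1 := mul_le_mul_of_nonneg_right hy b00
    have c2 := mul_le_mul_of_nonneg_right hx b01
    nlinarith [mul_nonneg aR b10, mul_nonneg aR b11]
  have k1' := abs_le.1 k1
  have k2' := abs_le.1 k2
  refine ⟨⟨?_, ?_⟩, ⟨?_, ?_⟩⟩
  · exact_mod_cast k1'.1
  · exact_mod_cast k1'.2
  · exact_mod_cast k2'.1
  · exact_mod_cast k2'.2

private theorem unfold_det {f : SLR × Pl → ℝ} {δ c R : ℝ} (hc : 0 < c)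
    (P : Pl) {h : SLR}
    (h1 : ∀ (γ : SLZ) (d : ℤ), ck f (d, 0) (toR γ * h) = ck f (d * γ 0 0, d * γ 0 1) h)
    (h2 : ∀ k : ℤ × ℤ, k ≠ 0 → (rv k h).2 ≠ 0) (hh : h ∈ Cut c) (F : ℤ × ℤ → ℂ)
    (hF0 : ∀ k, ¬ (k ≠ 0 ∧ nrmI (rv k h) ≤ R) → F k = 0)
    (hF1 : ∀ k, k ≠ 0 ∧ nrmI (rv k h) ≤ R → F k = mul4 δ (rv k h) * ck f k h * ee (dotZ k P)) :
    ∑' k : ℤ × ℤ, F k = ∑ d ∈ Finset.Icc 1 ⌊R / c⌋₊, Esum (gd f δ c R d) d P h := by
  classical
  have hsupp : (Function.support F).Finite := by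
    refine (fin_rv h R).subset fun k hk => ?_
    by_contra hcon
    exact hk (hF0 k fun h' => hcon h'.2)
  have hsplit : ∀ k, F k = ∑ d ∈ Finset.Icc 1 ⌊R / c⌋₊,
      if Int.gcd k.1 k.2 = d then F k else 0 := by
    intro k
    rw [Finset.sum_ite_eq]
    by_cases hk : Int.gcd k.1 k.2 ∈ Finset.Icc 1 ⌊R / c⌋₊
    · rw [if_pos hk]
    · rw [if_neg hk]
      by_contra hne
      apply hk
      have hk' : k ≠ 0 ∧ nrmI (rv k h) ≤ R := by
        by_contra hcon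
        exact hne (hF0 k hcon)
      have hg : 0 < Int.gcd k.1 k.2 := by
        rw [Int.gcd_pos_iff]
        by_contra hcon
        push Not at hcon
        exact hk'.1 (Prod.ext hcon.1 hcon.2)
      obtain ⟨a, ha⟩ := Int.gcd_dvd_left k.1 k.2
      obtain ⟨b, hb⟩ := Int.gcd_dvd_right k.1 k.2
      set g := Int.gcd k.1 k.2 with hgd
      have hk2 : k = ((g : ℤ) * (a, b).1, (g : ℤ) * (a, b).2) := Prod.ext ha hb
      have hab : (a, b) ≠ 0 := by
        intro h0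
        apply hk'.1
        rw [hk2, h0]
        simp
      have h3 := hh (a, b) hab
      have h4 := hk'.2
      rw [hk2, nrmI_smul] at h4
      have hgr : (0 : ℝ) < g := by exact_mod_cast hg
      have h5 : (g : ℝ) * c ≤ R := (mul_le_mul_of_nonneg_left h3 hgr.le).trans h4
      rw [Finset.mem_Icc]
      exact ⟨hg, Nat.le_floor ((le_div_iff₀ hc).2 h5)⟩
  have hsum : ∑' k : ℤ × ℤ, F k = ∑ d ∈ Finset.Icc 1 ⌊R / c⌋₊,
      ∑' k : ℤ × ℤ, if Int.gcd k.1 k.2 = d then F k else 0 := by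
    rw [← Summable.tsum_finsetSum]
    · exact tsum_congr hsplit
    · intro d _
      apply summable_of_hasFiniteSupport
      refine hsupp.subset fun k hk => ?_
      by_contra hcon
      apply hk
      have : F k = 0 := by
        by_contra h'
        exact hcon h'
      simp only [this, ite_self]
  rw [hsum]
  refine Finset.sum_congr rfl fun d hd => ?_
  have hd1 : 1 ≤ d := (Finset.mem_Icc.1 hd).1
  have hdr : (0 : ℝ) < d := by exact_mod_cast hd1
  unfold Esum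
  -- the value of a term
  have hterm : ∀ γ : SLZ, toR γ * h ∈ St → nrmI (rv ((d : ℤ) * γ 0 0, (d : ℤ) * γ 0 1) h) ≤ R →
      gd f δ c R d (toR γ * h) * ee ((d : ℝ) * ((γ 0 0 : ℝ) * P.1 + (γ 0 1 : ℝ) * P.2)) =
      F ((d : ℤ) * γ 0 0, (d : ℤ) * γ 0 1) := by
    intro γ hS hn
    have hne : ((d : ℤ) * γ 0 0, (d : ℤ) * γ 0 1) ≠ (0 : ℤ × ℤ) := by
      intro h0
      have z0 : (d : ℤ) * γ 0 0 = 0 := congrArg Prod.fst h0
      have z1 : (d : ℤ) * γ 0 1 = 0 := congrArg Prod.snd h0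
      have dz : (d : ℤ) ≠ 0 := by omega
      have y0 := (mul_eq_zero.1 z0).resolve_left dz
      have y1 := (mul_eq_zero.1 z1).resolve_left dz
      have := detz γ
      rw [y0, y1] at this
      simp at this
    rw [hF1 _ ⟨hne, hn⟩]
    have hcut : toR γ * h ∈ Cut c := (Cut_inv c γ h).2 hh
    have hn2 : (d : ℝ) * nrmI (row1 (toR γ * h)) ≤ R := by
      rw [row1_tm, ← nrmI_smul]
      exact hn
    unfold gd
    rw [if_pos ⟨hcut, hS, hn2⟩]
    have e1 := h1 γ d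
    have e2 : rv ((d : ℤ) * γ 0 0, (d : ℤ) * γ 0 1) h =
        ((d : ℝ) * (toR γ * h) 0 0, (d : ℝ) * (toR γ * h) 0 1) := by
      rw [rv_smul d (γ 0 0, γ 0 1) h, ← row1_tm]
      simp [row1]
    have e3 : dotZ ((d : ℤ) * γ 0 0, (d : ℤ) * γ 0 1) P =
        (d : ℝ) * ((γ 0 0 : ℝ) * P.1 + (γ 0 1 : ℝ) * P.2) := by
      unfold dotZ
      push_cast
      ring
    rw [e1, e2, e3]
  have hsp : ∀ γ : SLZ, γ ∈ Function.support (fun γ : SLZ =>
      gd f δ c R d (toR γ * h) * ee ((d : ℝ) * ((γ 0 0 : ℝ) * P.1 + (γ 0 1 : ℝ) * P.2))) →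
      toR γ * h ∈ St ∧ nrmI (rv ((d : ℤ) * γ 0 0, (d : ℤ) * γ 0 1) h) ≤ R := by
    intro γ hγ
    have h3 : gd f δ c R d (toR γ * h) ≠ 0 := left_ne_zero_of_mul hγ
    unfold gd at h3
    by_cases hcon : toR γ * h ∈ Cut c ∧ toR γ * h ∈ St ∧ (d : ℝ) * nrmI (row1 (toR γ * h)) ≤ R
    · refine ⟨hcon.2.1, ?_⟩
      rw [nrmI_smul d (γ 0 0, γ 0 1) h, ← row1_tm]
      exact hcon.2.2
    · rw [if_neg hcon] at h3
      exact absurd rfl h3
  have gcdrow : ∀ γ : SLZ, Int.gcd (γ 0 0) (γ 0 1) = 1 := by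
    intro γ
    have := detz γ
    exact Int.isCoprime_iff_gcd_eq_one.1 ⟨γ 1 1, -γ 1 0, by linarith⟩
  have hval : ∀ γ : SLZ, (if Int.gcd ((d : ℤ) * γ 0 0) ((d : ℤ) * γ 0 1) = d then
      F ((d : ℤ) * γ 0 0, (d : ℤ) * γ 0 1) else 0) = F ((d : ℤ) * γ 0 0, (d : ℤ) * γ 0 1) := by
    intro γ
    rw [if_pos]
    rw [Int.gcd_mul_left, gcdrow, mul_one, Int.natAbs_natCast]
  refine tsum_eq_tsum_of_ne_zero_bij
    (fun γ => ((d : ℤ) * (γ : SLZ) 0 0, (d : ℤ) * (γ : SLZ) 0 1)) ?_ ?_ ?_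
  · rintro ⟨γ, hγ⟩ ⟨γ', hγ'⟩ heq
    have dz : (d : ℤ) ≠ 0 := by omega
    have z0 : (d : ℤ) * γ 0 0 = (d : ℤ) * γ' 0 0 := congrArg Prod.fst heq
    have z1 : (d : ℤ) * γ 0 1 = (d : ℤ) * γ' 0 1 := congrArg Prod.snd heq
    have y0 := mul_left_cancel₀ dz z0
    have y1 := mul_left_cancel₀ dz z1
    exact Subtype.ext (gamma_unique y0 y1 (hsp γ hγ).1 (hsp γ' hγ').1)
  · intro k hk
    have hk1 : (if Int.gcd k.1 k.2 = d then F k else 0) ≠ 0 := hk
    have hg : Int.gcd k.1 k.2 = d := by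
      by_contra hcon
      rw [if_neg hcon] at hk1
      exact hk1 rfl
    rw [if_pos hg] at hk1
    have hk' : k ≠ 0 ∧ nrmI (rv k h) ≤ R := by
      by_contra hcon
      exact hk1 (hF0 k hcon)
    obtain ⟨a, ha⟩ := Int.gcd_dvd_left k.1 k.2
    obtain ⟨b, hb⟩ := Int.gcd_dvd_right k.1 k.2
    rw [hg] at ha hb
    have hk2 : k = ((d : ℤ) * a, (d : ℤ) * b) := Prod.ext ha hb
    have hab : Int.gcd a b = 1 := by
      have h3 := hg
      rw [ha, hb, Int.gcd_mul_left, Int.natAbs_natCast] at h3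
      exact Nat.eq_of_mul_eq_mul_left hd1 (by rw [h3, mul_one])
    have hab0 : (a, b) ≠ (0 : ℤ × ℤ) := by
      intro h0
      apply hk'.1
      have a0 : a = 0 := congrArg Prod.fst h0
      have b0 : b = 0 := congrArg Prod.snd h0
      rw [hk2, a0, b0, mul_zero]
      rfl
    obtain ⟨γ, g0, g1, gS⟩ := gamma_exists (k := (a, b)) hab (h2 (a, b) hab0)
    have g0' : γ 0 0 = a := g0
    have g1' : γ 0 1 = b := g1
    have hkγ : ((d : ℤ) * γ 0 0, (d : ℤ) * γ 0 1) = k := by rw [g0', g1', hk2]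
    have hn : nrmI (rv ((d : ℤ) * γ 0 0, (d : ℤ) * γ 0 1) h) ≤ R := by
      rw [hkγ]
      exact hk'.2
    have ht := hterm γ gS hn
    refine ⟨⟨γ, ?_⟩, hkγ⟩
    rw [Function.mem_support, ht, hkγ]
    exact hk1
  · rintro ⟨γ, hγ⟩
    have h3 := hsp γ hγ
    show (if Int.gcd ((d : ℤ) * γ 0 0) ((d : ℤ) * γ 0 1) = d then
      F ((d : ℤ) * γ 0 0, (d : ℤ) * γ 0 1) else 0) = _
    rw [hval]
    exact (hterm γ h3.1 h3.2).symm

open Classical in
theorem unfold_series {f : SLR × Pl → ℝ} (hf : Measurable f) {C : ℝ} (hb : ∀ x, |f x| ≤ C)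
    (hper : ∀ (x : SLR × Pl) (z : ℤ × ℤ), f (eT z x) = f x)
    (ha : AEAut (volume : Measure Pl) f) {δ c R : ℝ} (hδ : 0 < δ) (hc : 0 < c) (hR : 0 < R)
    (P : Pl) :
    ∀ᵐ h ∂muG, h ∈ Cut c →
      ∑' k : ℤ × ℤ, (if k ≠ 0 ∧ nrmI (rv k h) ≤ R then
        mul4 δ (rv k h) * ck f k h * ee (dotZ k P) else 0) =
      ∑ d ∈ Finset.Icc 1 ⌊R / c⌋₊, Esum (gd f δ c R d) d P h := by
  have hmat : Countable (Matrix (Fin 2) (Fin 2) ℤ) :=
    inferInstanceAs (Countable (Fin 2 → Fin 2 → ℤ))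
  have hcount : Countable SLZ := Subtype.countable
  have A1 : ∀ᵐ h ∂muG, ∀ γ : SLZ, ∀ d : ℤ,
      ck f (d, 0) (toR γ * h) = ck f (d * γ 0 0, d * γ 0 1) h :=
    ae_all_iff.2 fun γ => ck_trans hf hb hper ha γ
  have A2 : ∀ᵐ h ∂muG, ∀ k : ℤ × ℤ, k ≠ 0 → (rv k h).2 ≠ 0 := by
    rw [ae_all_iff]
    intro k
    by_cases hk : k = 0
    · exact Filter.Eventually.of_forall fun h h' => absurd hk h'
    · have hk' : (k.1 : ℝ) ≠ 0 ∨ (k.2 : ℝ) ≠ 0 := by
        by_contra hcon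
        push Not at hcon
        exact hk (Prod.ext (by exact_mod_cast hcon.1) (by exact_mod_cast hcon.2))
      filter_upwards [muG_col2_ne 0 hk'] with h hh _
      exact hh
  filter_upwards [A1, A2] with h h1 h2 hh
  exact unfold_det hc P h1 h2 hh _ (fun k hk => if_neg hk) (fun k hk => if_pos hk)

theorem Esum_gd_not_cut (f : SLR × Pl → ℝ) (δ c R : ℝ) (d : ℕ) (P : Pl) {h : SLR}
    (hh : h ∉ Cut c) : Esum (gd f δ c R d) d P h = 0 := by
  unfold Esum
  have : ∀ γ : SLZ, gd f δ c R d (toR γ * h) *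
      ee ((d : ℝ) * ((γ 0 0 : ℝ) * P.1 + (γ 0 1 : ℝ) * P.2)) = 0 := by
    intro γ
    unfold gd
    rw [if_neg, zero_mul]
    intro hcon
    exact hh ((Cut_inv c γ h).1 hcon.1)
  simp only [this, tsum_zero]

private theorem cont_entry (i j : Fin 2) : Continuous fun h : SLR => (h i j : ℝ) :=
  (continuous_apply j).comp ((continuous_apply i).comp continuous_subtype_val)

private theorem cont_nrm : Continuous fun h : SLR => nrmI (row1 h) :=
  ((cont_entry 0 0).abs).max ((cont_entry 0 1).abs)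

theorem gd_measurable {f : SLR × Pl → ℝ} (hf : Measurable f) {δ : ℝ} (hδ : 0 < δ) (c R : ℝ)
    (d : ℕ) : Measurable (gd f δ c R d) := by
  unfold gd
  refine Measurable.ite ?_ ?_ measurable_const
  · refine (measurableSet_Cut c).inter (measurableSet_St.inter ?_)
    exact (isClosed_le (continuous_const.mul cont_nrm) continuous_const).measurableSet
  · refine Measurable.mul ?_ (ck_measurable hf _)
    refine ((continuous_mul4 hδ).comp (Continuous.prodMk ?_ ?_)).measurable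
    · exact continuous_const.mul (cont_entry 0 0)
    · exact continuous_const.mul (cont_entry 0 1)

theorem gd_integrable {f : SLR × Pl → ℝ} (hf : Measurable f) {C : ℝ} (hb : ∀ x, |f x| ≤ C)
    {δ : ℝ} (hδ : 0 < δ) (c R : ℝ) {d : ℕ} (hd : 1 ≤ d) : Integrable (gd f δ c R d) muG := by
  have hC : 0 ≤ C := (abs_nonneg _).trans (hb (1, 0))
  have hvol : (volume : Measure Pl) F0 = 1 := by
    unfold F0
    rw [Measure.volume_eq_prod, Measure.prod_prod, Real.volume_Ico]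
    simp
  have hck : ∀ (k : ℤ × ℤ) (h : SLR), ‖ck f k h‖ ≤ C := by
    intro k h
    unfold ck
    have h1 := norm_setIntegral_le_of_norm_le_const (μ := (volume : Measure Pl)) (s := F0)
      (f := fun Q : Pl => (f (h, Q) : ℂ) * ee (-(dotZ k Q))) (C := C)
      (by rw [hvol]; exact ENNReal.one_lt_top) (fun Q _ => by
        rw [norm_mul, norm_ee, mul_one, Complex.norm_real]
        exact hb _)
    rw [Measure.real, hvol] at h1
    simpa using h1
  have hS : MeasurableSet (St ∩ {h : SLR | nrmI (row1 h) ≤ R}) :=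
    measurableSet_St.inter (isClosed_le cont_nrm continuous_const).measurableSet
  have hsub : Function.support (gd f δ c R d) ⊆ St ∩ {h : SLR | nrmI (row1 h) ≤ R} := by
    intro h hh
    rw [Function.mem_support] at hh
    unfold gd at hh
    by_cases hcon : h ∈ Cut c ∧ h ∈ St ∧ (d : ℝ) * nrmI (row1 h) ≤ R
    · refine ⟨hcon.2.1, ?_⟩
      have h1 : 0 ≤ nrmI (row1 h) := (abs_nonneg _).trans (le_max_left _ _)
      have h2 : (1 : ℝ) ≤ d := by exact_mod_cast hd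
      show nrmI (row1 h) ≤ R
      nlinarith [hcon.2.2]
    · rw [if_neg hcon] at hh
      exact absurd rfl hh
  rw [← integrableOn_iff_integrable_of_support_subset hsub]
  have hfin : IsFiniteMeasure (muG.restrict (St ∩ {h : SLR | nrmI (row1 h) ≤ R})) :=
    ⟨by rw [Measure.restrict_apply_univ]; exact St_fin R⟩
  refine Integrable.of_bound (gd_measurable hf hδ c R d).aestronglyMeasurable C
    (Filter.Eventually.of_forall fun h => ?_)
  unfold gd
  split_ifs with hcon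
  · rw [norm_mul]
    calc ‖mul4 δ ((d : ℝ) * h 0 0, (d : ℝ) * h 0 1)‖ * ‖ck f (d, 0) h‖ ≤ 1 * C :=
          mul_le_mul (mul4_le_one hδ _) (hck _ _) (norm_nonneg _) zero_le_one
      _ = C := one_mul C
  · rw [norm_zero]
    exact hC

end Pool.Agent.ILL
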