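import Pool.Agent.ILL.Sml
import Pool.Agent.ILL.Ufd
import Pool.Agent.ILL.Est
import Pool.Agent.ILL.Dmx
import Pool.Agent.ILL.Fou
import Pool.Agent.ILL.Tal
import Pool.Agent.ILL.Cus
import Pool.Agent.ILL.Ckt

/-!
# EFN. Upper bound for circle averages at an irrational point

Let `f ≥ 0` be bounded by `C`. `ε > 0`. `smooth_compare` with `ε/6`: `δ, δ'`. Put `K = Rg δ'`, `V = (muG K).toReal`,
`D = (muG DD).toReal`. Choose `c` with `C muG(DD \ Cut c) ≤ ε D/6` (`Cut_small`) and `R` with `C · tail ≤ ε/6`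
(`tail`). For `H = M p dg u` with `H ∈ Cut c`, by `fourier_smooth` (and `mul4_summable`, `ck_bound`, `mul4_zero`),
`unfold_series` (for almost every `p`: the maps `p ↦ M p dg u` preserve null sets)
`smo f δ (H,P) = Re(...) ≤ c0(H) + Re Σ_{d ≤ R/c} Esum (gd f δ c R d) d P H + ε/6`, `c0(h) = ∫_{F0} f(h,Q) dQ`; for
`H ∉ Cut c`: `smo ≤ C` and the `Esum` vanish. Integrate over `p ∈ K`:
`∫_K smo ≤ ∫_K 1_Cut(H) c0(H) + C ∫_K 1_{Cutᶜ}(H) + Re Σ_d ∫_K Esum(...) + V ε/6`.
By left invariance and `mixing0` (for the invariant functions `1_Cut c0` and `1_{Cutᶜ}`, `ψ` = indicator of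
`M · K`): the first tends to `V (∫_DD 1_Cut c0)/D ≤ V (∫_DF f)/D` (`c0_int`), the second to
`C V muG(DD \ Cut c)/D ≤ V ε/6`; each `Esum` term tends to `0` (`est_main`, `gd_integrable`). Divide by `V`.
-/

open MeasureTheory Set Filter Topology
open scoped ENNReal NNReal

namespace Pool.Agent.ILL

private theorem efn_mp (M : SLR) (u : ℝ) : MeasurePreserving (fun p : SLR => M * p * dg u) muG muG :=
  (muG_mul_right (dg u)).comp (muG_mul_left M)

private theorem efn_int (M : SLR) (δ' : ℝ) {g : SLR → ℂ} (hg : Measurable g)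
    (hi : Integrable g muG) (d : ℕ) (P : Pl) (u : ℝ) :
    Integrable (fun p : SLR => Esum g d P (M * p * dg u)) (muG.restrict (Rg δ')) := by
  obtain ⟨C, hC⟩ := esum_bound M δ'
  refine ⟨((Esum_measurable hg d P).comp (efn_mp M u).measurable).aestronglyMeasurable, ?_⟩
  have h0 : ∀ h : SLR, ‖Esum g d P h‖ₑ ≤ ∑' γ : SLZ, ‖g (toR γ * h)‖ₑ := by
    intro h
    unfold Esum
    have he : ∀ γ : SLZ, ‖g (toR γ * h) * ee ((d : ℝ) * ((γ 0 0 : ℝ) * P.1 +
        (γ 0 1 : ℝ) * P.2))‖ₑ = ‖g (toR γ * h)‖ₑ := by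
      intro γ
      rw [enorm_mul]
      have : ‖ee ((d : ℝ) * ((γ 0 0 : ℝ) * P.1 + (γ 0 1 : ℝ) * P.2))‖ₑ = 1 := by
        rw [← ofReal_norm, norm_ee, ENNReal.ofReal_one]
      rw [this, mul_one]
    rw [← tsum_congr he]
    by_cases hs : ∑' γ : SLZ, ‖g (toR γ * h) * ee ((d : ℝ) * ((γ 0 0 : ℝ) * P.1 +
        (γ 0 1 : ℝ) * P.2))‖ₑ = ∞
    · rw [hs]
      exact le_top
    · have hsum : Summable fun γ : SLZ => ‖g (toR γ * h) * ee ((d : ℝ) * ((γ 0 0 : ℝ) * P.1 +
          (γ 0 1 : ℝ) * P.2))‖ := by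
        have h1 := ENNReal.summable_toReal hs
        simpa [toReal_enorm] using h1
      rw [← ofReal_norm]
      refine (ENNReal.ofReal_le_ofReal (norm_tsum_le_tsum_norm hsum)).trans ?_
      rw [ENNReal.ofReal_tsum_of_nonneg (fun _ => norm_nonneg _) hsum]
      simp only [ofReal_norm]
      exact le_rfl
  rw [HasFiniteIntegral]
  refine lt_of_le_of_lt (lintegral_mono (fun p => h0 _)) ?_
  refine lt_of_le_of_lt (hC g hg u) ?_
  exact ENNReal.mul_lt_top ENNReal.coe_lt_top hi.2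

open Classical in
private theorem efn_point {f : SLR × Pl → ℝ} (hf : Measurable f) {C : ℝ} (hb : ∀ x, |f x| ≤ C)
    (hper : ∀ (x : SLR × Pl) (z : ℤ × ℤ), f (eT z x) = f x)
    (ha : AEAut (volume : Measure Pl) f) {δ c R η : ℝ} (hδ : 0 < δ) (hc : 0 < c) (hR : 0 < R)
    (hη : 0 ≤ η) (P : Pl)
    (htail : ∀ h ∈ Cut c,
      ∑' k : ℤ × ℤ, (if R < nrmI (rv k h) then ‖mul4 δ (rv k h)‖ else 0) ≤ η) :
    ∀ᵐ h ∂muG, smo f δ (h, P) ≤ (Cut c).indicator (fun h => ∫ Q in F0, f (h, Q)) h +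
      (Cut c)ᶜ.indicator (fun _ => C) h +
      (∑ d ∈ Finset.Icc 1 ⌊R / c⌋₊, Esum (gd f δ c R d) d P h).re + C * η := by
  have hC0 : 0 ≤ C := (abs_nonneg _).trans (hb (1, (0, 0)))
  filter_upwards [unfold_series hf hb hper ha hδ hc hR P] with h hh
  by_cases hcut : h ∈ Cut c
  · rw [indicator_of_mem hcut,
      indicator_of_notMem (show h ∉ (Cut c)ᶜ from fun h' => h' hcut)]
    have hsum := mul4_summable hδ h
    have hS := fourier_smooth hf hb hper hδ h P hsum
    set T : ℤ × ℤ → ℂ := fun k => mul4 δ (rv k h) * ck f k h * ee (dotZ k P) with hT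
    have hTn : ∀ k, ‖T k‖ ≤ C * ‖mul4 δ (rv k h)‖ := by
      intro k
      simp only [hT]
      rw [norm_mul, norm_mul, norm_ee, mul_one, mul_comm C]
      exact mul_le_mul_of_nonneg_left (ck_bound hb k h) (norm_nonneg _)
    have hsC : Summable fun k : ℤ × ℤ => C * ‖mul4 δ (rv k h)‖ := hsum.mul_left C
    have hr0 : rv 0 h = 0 := by
      unfold rv
      ext <;> simp
    have hn0 : nrmI (rv 0 h) = 0 := by
      rw [hr0]
      unfold nrmI
      simp
    -- the three parts
    set A : ℤ × ℤ → ℂ := fun k => if k = 0 then T 0 else 0 with hA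
    set B : ℤ × ℤ → ℂ := fun k => if k ≠ 0 ∧ nrmI (rv k h) ≤ R then T k else 0 with hB
    set E : ℤ × ℤ → ℂ := fun k => if R < nrmI (rv k h) then T k else 0 with hE
    have hdec : ∀ k, T k = A k + B k + E k := by
      intro k
      simp only [hA, hB, hE]
      by_cases h1 : k = 0
      · rw [if_pos h1, if_neg (fun h' => h'.1 h1), if_neg (by rw [h1, hn0]; exact not_lt.2 hR.le),
          h1, add_zero, add_zero]
      · rw [if_neg h1]
        by_cases h2 : nrmI (rv k h) ≤ R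
        · rw [if_pos ⟨h1, h2⟩, if_neg (not_lt.2 h2), zero_add, add_zero]
        · rw [if_neg (fun h' => h2 h'.2), if_pos (not_le.1 h2), zero_add, zero_add]
    have hsA : Summable A := summable_of_ne_finset_zero (s := {0}) (fun k hk => by
      simp only [hA]
      rw [if_neg (by simpa using hk)])
    have hsB : Summable B := by
      refine Summable.of_norm_bounded hsC (fun k => ?_)
      simp only [hB]
      split_ifs
      · exact hTn k
      · rw [norm_zero]
        positivity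
    have hEn : ∀ k, ‖E k‖ ≤ C * (if R < nrmI (rv k h) then ‖mul4 δ (rv k h)‖ else 0) := by
      intro k
      simp only [hE]
      split_ifs
      · exact hTn k
      · rw [norm_zero, mul_zero]
    have hs1 : Summable fun k : ℤ × ℤ =>
        (if R < nrmI (rv k h) then ‖mul4 δ (rv k h)‖ else 0) := by
      refine Summable.of_nonneg_of_le (fun k => ?_) (fun k => ?_) hsum
      · split_ifs
        · exact norm_nonneg _
        · exact le_rfl
      · split_ifs
        · exact le_rfl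
        · exact norm_nonneg _
    have hsE : Summable E := Summable.of_norm_bounded (hs1.mul_left C) hEn
    have hval : (smo f δ (h, P) : ℂ) = T 0 + ∑' k, B k + ∑' k, E k := by
      rw [← hS.tsum_eq, tsum_congr hdec, (hsA.add hsB).tsum_add hsE, hsA.tsum_add hsB]
      congr 2
      simp only [hA]
      exact tsum_ite_eq 0 _
    have hT0 : T 0 = ((∫ Q in F0, f (h, Q) : ℝ) : ℂ) := by
      simp only [hT]
      rw [hr0, mul4_zero hδ, one_mul, ck_zero]
      have : ee (dotZ 0 P) = 1 := by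
        have h3 : dotZ 0 P = ((0 : ℤ) : ℝ) := by
          unfold dotZ
          simp
        rw [h3, ee_int]
      rw [this, mul_one]
    have hBv : ∑' k, B k = ∑ d ∈ Finset.Icc 1 ⌊R / c⌋₊, Esum (gd f δ c R d) d P h := by
      rw [← hh hcut]
    have hEv : ‖∑' k, E k‖ ≤ C * η := by
      refine (tsum_of_norm_bounded (hs1.mul_left C).hasSum hEn).trans ?_
      rw [tsum_mul_left]
      exact mul_le_mul_of_nonneg_left (htail h hcut) hC0
    have hre := congrArg Complex.re hval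
    rw [Complex.ofReal_re, Complex.add_re, Complex.add_re, hT0, Complex.ofReal_re, hBv] at hre
    have h5 : (∑' k, E k).re ≤ C * η := (Complex.re_le_norm _).trans hEv
    rw [hre]
    linarith
  · rw [indicator_of_notMem hcut, indicator_of_mem (show h ∈ (Cut c)ᶜ from hcut)]
    have h1 : ∑ d ∈ Finset.Icc 1 ⌊R / c⌋₊, Esum (gd f δ c R d) d P h = 0 :=
      Finset.sum_eq_zero fun d _ => Esum_gd_not_cut f δ c R d P hcut
    rw [h1, Complex.zero_re]
    have h2 := (abs_le.1 (smo_bound hb hδ (h, P))).2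
    have h3 := mul_nonneg hC0 hη
    linarith

private theorem efn_mix (M : SLR) {δ' : ℝ} (hδ' : 0 < δ') {F : SLR → ℝ} (hF : Measurable F)
    {C : ℝ} (hb : ∀ x, |F x| ≤ C) (ha : ∀ γ : SLZ, ∀ᵐ h ∂muG, F (toR γ * h) = F h) :
    Tendsto (fun u : ℝ => ∫ p in Rg δ', F (M * p * dg u) ∂muG) atTop
      (𝓝 ((muG (Rg δ')).toReal * (∫ h in DD, F h ∂muG) / (muG DD).toReal)) := by
  set ψ0 : SLR → ℝ := (Rg δ').indicator (fun _ => (1 : ℝ)) with hψ0
  have hi0 : Integrable ψ0 muG := by
    rw [hψ0, integrable_indicator_iff (measurableSet_Rg δ')]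
    exact integrableOn_const (Rg_pos hδ').2.ne (by simp)
  set ψ : SLR → ℝ := fun h => ψ0 (M⁻¹ * h) with hψ
  have hi : Integrable ψ muG := (muG_mul_left M⁻¹).integrable_comp_of_integrable hi0
  have hme : MeasurableEmbedding (fun p : SLR => M * p) :=
    (MeasurableEquiv.mulLeft M).measurableEmbedding
  have key : ∀ G : SLR → ℝ, ∫ h, ψ h * G h ∂muG = ∫ p in Rg δ', G (M * p) ∂muG := by
    intro G
    rw [← (muG_mul_left M).integral_comp hme, ← integral_indicator (measurableSet_Rg δ')]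
    congr 1
    funext p
    simp only [hψ, hψ0]
    rw [inv_mul_cancel_left]
    by_cases hp : p ∈ Rg δ'
    · rw [indicator_of_mem hp, indicator_of_mem hp, one_mul]
    · rw [indicator_of_notMem hp, indicator_of_notMem hp, zero_mul]
  have h1 := mixing0 hF hb ha hi
  have h2 : ∫ h, ψ h ∂muG = (muG (Rg δ')).toReal := by
    have h3 := key (fun _ => 1)
    simp only [mul_one] at h3
    rw [h3, setIntegral_const, smul_eq_mul, mul_one, Measure.real]
  rw [h2] at h1
  refine h1.congr (fun u => ?_)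
  exact key (fun h => F (h * dg u))

theorem irr_limsup {f : SLR × Pl → ℝ} (hf : Measurable f) {C : ℝ} (hb : ∀ x, |f x| ≤ C)
    (h0 : ∀ x, 0 ≤ f x) (hper : ∀ (x : SLR × Pl) (z : ℤ × ℤ), f (eT z x) = f x)
    (ha : AEAut (volume : Measure Pl) f) {M : SLR} {P : Pl} (hR : Reg2 f M P)
    (hP : ¬ RatP P) {ε : ℝ} (hε : 0 < ε) :
    ∀ᶠ u : ℝ in atTop, ∫ θ in (0 : ℝ)..1, f (M * rot θ * dg u, P) ≤
      (∫ x in DF, f x ∂(muG.prod (volume : Measure Pl))) / (muG DD).toReal + ε := by
  have hC0 : 0 ≤ C := (abs_nonneg _).trans (hb (1, (0, 0)))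
  obtain ⟨δ, hδ, δ', hδ', hδ1, hsm⟩ := smooth_compare hf hb hR (ε := ε / 6) (by positivity)
  have hVf := (Rg_pos hδ').2
  have hVpos : 0 < (muG (Rg δ')).toReal := ENNReal.toReal_pos (Rg_pos hδ').1.ne' hVf.ne
  have hDpos : 0 < (muG DD).toReal := ENNReal.toReal_pos muG_DD_pos.ne' muG_DD_lt_top.ne
  set V := (muG (Rg δ')).toReal with hV
  set D := (muG DD).toReal with hD
  obtain ⟨c, hc, hcut⟩ := Cut_small (ε := ε * D / (6 * (C + 1))) (by positivity)
  obtain ⟨R, hR0, htail⟩ := tail hc hδ (ε := ε / (6 * (C + 1))) (by positivity)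
  set η : ℝ := ε / (6 * (C + 1)) with hη
  have hη0 : 0 ≤ η := by positivity
  have hCη : C * η ≤ ε / 6 := by
    rw [hη, mul_div_assoc', div_le_div_iff₀ (by positivity) (by norm_num)]
    nlinarith
  set F1 : SLR → ℝ := (Cut c).indicator (fun h => ∫ Q in F0, f (h, Q)) with hF1
  set F2 : SLR → ℝ := (Cut c)ᶜ.indicator (fun _ => C) with hF2
  have hc0 : ∀ h : SLR, |∫ Q in F0, f (h, Q)| ≤ C := by
    intro h
    have h1 := ck_bound hb 0 h
    rw [ck_zero, Complex.norm_real, Real.norm_eq_abs] at h1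
    exact h1
  have hF1m : Measurable F1 := (c0_measurable hf).indicator (measurableSet_Cut c)
  have hF2m : Measurable F2 := measurable_const.indicator (measurableSet_Cut c).compl
  have hF1b : ∀ h, |F1 h| ≤ C := by
    intro h
    simp only [hF1]
    by_cases hh : h ∈ Cut c
    · rw [indicator_of_mem hh]
      exact hc0 h
    · rw [indicator_of_notMem hh, abs_zero]
      exact hC0
  have hF2b : ∀ h, |F2 h| ≤ C := by
    intro h
    simp only [hF2]
    by_cases hh : h ∈ (Cut c)ᶜ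
    · rw [indicator_of_mem hh, abs_of_nonneg hC0]
    · rw [indicator_of_notMem hh, abs_zero]
      exact hC0
  have hF1i : ∀ γ : SLZ, ∀ᵐ h ∂muG, F1 (toR γ * h) = F1 h := by
    intro γ
    filter_upwards [c0_inv hf hb hper ha γ] with h hh
    simp only [hF1]
    by_cases hh' : h ∈ Cut c
    · rw [indicator_of_mem hh', indicator_of_mem ((Cut_inv c γ h).2 hh')]
      exact hh
    · rw [indicator_of_notMem hh', indicator_of_notMem (fun h' => hh' ((Cut_inv c γ h).1 h'))]
  have hF2i : ∀ γ : SLZ, ∀ᵐ h ∂muG, F2 (toR γ * h) = F2 h := by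
    intro γ
    refine Eventually.of_forall fun h => ?_
    simp only [hF2]
    by_cases hh' : h ∈ Cut c
    · rw [indicator_of_notMem (show h ∉ (Cut c)ᶜ from fun h' => h' hh'),
        indicator_of_notMem
          (show toR γ * h ∉ (Cut c)ᶜ from fun h' => h' ((Cut_inv c γ h).2 hh'))]
    · rw [indicator_of_mem (show h ∈ (Cut c)ᶜ from hh'),
        indicator_of_mem (show toR γ * h ∈ (Cut c)ᶜ from fun h' => hh' ((Cut_inv c γ h).1 h'))]
  have L1 := efn_mix M hδ' hF1m hF1b hF1i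
  have L2 := efn_mix M hδ' hF2m hF2b hF2i
  rw [← hV, ← hD] at L1 L2
  -- the two integrals over the fundamental domain
  have hfinDD : IsFiniteMeasure (muG.restrict DD) := ⟨by
    rw [Measure.restrict_apply_univ]
    exact muG_DD_lt_top⟩
  have hfinRg : IsFiniteMeasure (muG.restrict (Rg δ')) := ⟨by
    rw [Measure.restrict_apply_univ]
    exact hVf⟩
  have bdI : ∀ (μ : Measure SLR) [IsFiniteMeasure μ] (G : SLR → ℝ), Measurable G →
      (∀ h, |G h| ≤ C) → Integrable G μ := by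
    intro μ _ G hG hGb
    exact Integrable.of_bound hG.aestronglyMeasurable C (Eventually.of_forall hGb)
  have I1 : ∫ h in DD, F1 h ∂muG ≤ ∫ x in DF, f x ∂(muG.prod (volume : Measure Pl)) := by
    rw [← c0_int hf hb]
    refine integral_mono (bdI _ F1 hF1m hF1b) (bdI _ _ (c0_measurable hf) hc0) (fun h => ?_)
    simp only [hF1]
    by_cases hh : h ∈ Cut c
    · rw [indicator_of_mem hh]
    · rw [indicator_of_notMem hh]
      exact integral_nonneg fun Q => h0 _
  have I2 : ∫ h in DD, F2 h ∂muG ≤ ε * D / 6 := by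
    simp only [hF2]
    rw [setIntegral_indicator (measurableSet_Cut c).compl, setIntegral_const, smul_eq_mul,
      Measure.real]
    have e1 : (muG (DD ∩ (Cut c)ᶜ)).toReal ≤ ε * D / (6 * (C + 1)) := by
      rw [← sdiff_eq]
      exact ENNReal.toReal_le_of_le_ofReal (by positivity) hcut
    calc (muG (DD ∩ (Cut c)ᶜ)).toReal * C ≤ ε * D / (6 * (C + 1)) * C :=
          mul_le_mul_of_nonneg_right e1 hC0
      _ ≤ ε * D / 6 := by
          rw [div_mul_eq_mul_div, div_le_div_iff₀ (by positivity) (by norm_num)]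
          have : 0 ≤ ε * D := by positivity
          nlinarith
  -- the sums over the group
  have L3 : Tendsto (fun u : ℝ => ∑ d ∈ Finset.Icc 1 ⌊R / c⌋₊,
      ∫ p in Rg δ', Esum (gd f δ c R d) d P (M * p * dg u) ∂muG) atTop (𝓝 0) := by
    have h1 : Tendsto (fun u : ℝ => ∑ d ∈ Finset.Icc 1 ⌊R / c⌋₊,
      ∫ p in Rg δ', Esum (gd f δ c R d) d P (M * p * dg u) ∂muG) atTop
        (𝓝 (∑ d ∈ Finset.Icc 1 ⌊R / c⌋₊, (0 : ℂ))) := by
      refine tendsto_finsetSum _ fun d hd => ?_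
      have hd1 : 1 ≤ d := (Finset.mem_Icc.1 hd).1
      refine est_main M hP hd1 (gd_integrable hf hb hδ c R hd1) (gd_measurable hf hδ c R d)
        (fun h hh => ?_) hδ' hδ1
      unfold gd
      rw [if_neg (fun h' => hh h'.2.1)]
    simpa using h1
  have hpt := efn_point hf hb hper ha hδ hc hR0 hη0 P htail
  -- the integrated inequality
  have hX : ∀ u : ℝ, ∫ p in Rg δ', smo f δ (M * p * dg u, P) ∂muG ≤
      ∫ p in Rg δ', F1 (M * p * dg u) ∂muG + ∫ p in Rg δ', F2 (M * p * dg u) ∂muG +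
      (∑ d ∈ Finset.Icc 1 ⌊R / c⌋₊,
        ∫ p in Rg δ', Esum (gd f δ c R d) d P (M * p * dg u) ∂muG).re + V * (C * η) := by
    intro u
    have hm := (efn_mp M u).measurable
    have j0 : Integrable (fun p : SLR => smo f δ (M * p * dg u, P)) (muG.restrict (Rg δ')) :=
      bdI _ _ ((smo_measurable hf δ).comp (hm.prodMk measurable_const))
        (fun p => smo_bound hb hδ _)
    have j1 : Integrable (fun p : SLR => F1 (M * p * dg u)) (muG.restrict (Rg δ')) :=
      bdI _ _ (hF1m.comp hm) (fun p => hF1b _)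
    have j2 : Integrable (fun p : SLR => F2 (M * p * dg u)) (muG.restrict (Rg δ')) :=
      bdI _ _ (hF2m.comp hm) (fun p => hF2b _)
    have j3 : ∀ d ∈ Finset.Icc 1 ⌊R / c⌋₊,
        Integrable (fun p : SLR => Esum (gd f δ c R d) d P (M * p * dg u))
          (muG.restrict (Rg δ')) := fun d hd =>
      efn_int M δ' (gd_measurable hf hδ c R d)
        (gd_integrable hf hb hδ c R (Finset.mem_Icc.1 hd).1) d P u
    have j3' : Integrable (fun p : SLR => ∑ d ∈ Finset.Icc 1 ⌊R / c⌋₊,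
        Esum (gd f δ c R d) d P (M * p * dg u)) (muG.restrict (Rg δ')) :=
      integrable_finsetSum _ j3
    have j4 : Integrable (fun p : SLR => (∑ d ∈ Finset.Icc 1 ⌊R / c⌋₊,
        Esum (gd f δ c R d) d P (M * p * dg u)).re) (muG.restrict (Rg δ')) := j3'.re
    have hae : ∀ᵐ p ∂(muG.restrict (Rg δ')), smo f δ (M * p * dg u, P) ≤
        F1 (M * p * dg u) + F2 (M * p * dg u) +
        (∑ d ∈ Finset.Icc 1 ⌊R / c⌋₊, Esum (gd f δ c R d) d P (M * p * dg u)).re + C * η :=
      ae_restrict_of_ae ((efn_mp M u).quasiMeasurePreserving.ae hpt)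
    have h1 := integral_mono_ae j0 (((j1.add j2).add j4).add (integrable_const (C * η))) hae
    refine h1.trans (le_of_eq ?_)
    have e1 : ∫ p in Rg δ', (∑ d ∈ Finset.Icc 1 ⌊R / c⌋₊,
        Esum (gd f δ c R d) d P (M * p * dg u)).re ∂muG =
        (∑ d ∈ Finset.Icc 1 ⌊R / c⌋₊,
          ∫ p in Rg δ', Esum (gd f δ c R d) d P (M * p * dg u) ∂muG).re := by
      rw [← integral_finsetSum _ j3]
      exact integral_re j3'
    have e2 : ∫ p in Rg δ', (C * η) ∂muG = V * (C * η) := by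
      rw [setIntegral_const, smul_eq_mul, Measure.real]
    have q3 : ∫ p in Rg δ', (F1 (M * p * dg u) + F2 (M * p * dg u) +
        (∑ d ∈ Finset.Icc 1 ⌊R / c⌋₊, Esum (gd f δ c R d) d P (M * p * dg u)).re + C * η) ∂muG =
        ∫ p in Rg δ', (F1 (M * p * dg u) + F2 (M * p * dg u) +
        (∑ d ∈ Finset.Icc 1 ⌊R / c⌋₊, Esum (gd f δ c R d) d P (M * p * dg u)).re) ∂muG +
        ∫ p in Rg δ', (C * η) ∂muG :=
      integral_add ((j1.add j2).add j4) (integrable_const (C * η))
    have q2 : ∫ p in Rg δ', (F1 (M * p * dg u) + F2 (M * p * dg u) +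
        (∑ d ∈ Finset.Icc 1 ⌊R / c⌋₊, Esum (gd f δ c R d) d P (M * p * dg u)).re) ∂muG =
        ∫ p in Rg δ', (F1 (M * p * dg u) + F2 (M * p * dg u)) ∂muG +
        ∫ p in Rg δ', (∑ d ∈ Finset.Icc 1 ⌊R / c⌋₊,
          Esum (gd f δ c R d) d P (M * p * dg u)).re ∂muG :=
      integral_add (j1.add j2) j4
    have q1 : ∫ p in Rg δ', (F1 (M * p * dg u) + F2 (M * p * dg u)) ∂muG =
        ∫ p in Rg δ', F1 (M * p * dg u) ∂muG + ∫ p in Rg δ', F2 (M * p * dg u) ∂muG :=
      integral_add j1 j2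
    rw [← e1, ← e2, ← q1, ← q2, ← q3]
    rfl
  have p12 : 0 < V * (ε / 12) := by positivity
  have ev1 : ∀ᶠ u : ℝ in atTop, ∫ p in Rg δ', F1 (M * p * dg u) ∂muG <
      V * (∫ h in DD, F1 h ∂muG) / D + V * (ε / 12) :=
    L1.eventually_lt_const (lt_add_of_pos_right _ p12)
  have ev2 : ∀ᶠ u : ℝ in atTop, ∫ p in Rg δ', F2 (M * p * dg u) ∂muG <
      V * (∫ h in DD, F2 h ∂muG) / D + V * (ε / 12) :=
    L2.eventually_lt_const (lt_add_of_pos_right _ p12)
  rw [Metric.tendsto_nhds] at L3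
  filter_upwards [hsm, ev1, ev2, L3 (V * (ε / 12)) (by positivity)] with u hu e1 e2 e3
  rw [dist_zero_right] at e3
  have e4 := (abs_le.1 hu).2
  have e5 := (Complex.re_le_norm _).trans e3.le
  have e6 := hX u
  have e7 : V * (∫ h in DD, F1 h ∂muG) / D ≤
      V * ((∫ x in DF, f x ∂(muG.prod (volume : Measure Pl))) / D) := by
    rw [mul_div_assoc]
    gcongr
  have e8 : V * (∫ h in DD, F2 h ∂muG) / D ≤ V * (ε / 6) := by
    rw [mul_div_assoc]
    have : (∫ h in DD, F2 h ∂muG) / D ≤ ε / 6 := by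
      rw [div_le_iff₀ hDpos]
      linarith
    gcongr
  have e9 : V * (C * η) ≤ V * (ε / 6) := mul_le_mul_of_nonneg_left hCη hVpos.le
  have e10 : (∫ p in Rg δ', smo f δ (M * p * dg u, P) ∂muG) / V ≤
      (∫ x in DF, f x ∂(muG.prod (volume : Measure Pl))) / D + 7 * ε / 12 := by
    rw [div_le_iff₀ hVpos]
    nlinarith
  linarith

end Pool.Agent.ILL
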