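import Pool.Agent.ILL.Twc
import Pool.Agent.ILL.Twf
import Pool.Agent.ILL.F0a

/-!
# ENG. The energy identity

`∫_DF EE S = Pr f0 (FS S)`.
PROOF. Put `g_s = (wPhi (-s)).act f0`. `(AS S x i)² = S⁻² ∫∫_{[0,S]²} g_s(x,i) g_{s'}(x,i) ds ds'`. By Fubini
(everything is bounded and jointly measurable, `DF` has finite measure)
`∫_DF EE S = S⁻² ∫∫ Pr g_s g_{s'}`. The functions `g_s` are twisted invariant (`AutW.wPhi`, `f0_autW`), so by
`Pr_act` with the twisted map `wPhi s`: `Pr g_s g_{s'} = Pr ((wPhi s).act g_s) ((wPhi s).act g_{s'})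
= Pr f0 ((wPhi (s-s')).act f0)` (`wPhi_add`, `wPhi_zero`, `gen1_aeX`). Fubini again:
`S⁻² ∫∫ Pr f0 ((wPhi (s-s')).act f0) = Pr f0 (FS S)`.
-/

open MeasureTheory Set Filter Topology
open scoped ENNReal NNReal

namespace Pool.Agent.ILL

private theorem fub {X : Type} [MeasurableSpace X] (Y : Measure X) [IsFiniteMeasure Y] {S : ℝ}
    (hS : 0 ≤ S) {H : ℝ → ℝ → X → ℝ}
    (hH : Measurable fun p : (ℝ × ℝ) × X => H p.1.1 p.1.2 p.2) {C : ℝ}
    (hb : ∀ s s' x, |H s s' x| ≤ C) :
    ∫ x, (∫ s in (0 : ℝ)..S, ∫ s' in (0 : ℝ)..S, H s s' x) ∂Y =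
      ∫ s in (0 : ℝ)..S, ∫ s' in (0 : ℝ)..S, ∫ x, H s s' x ∂Y := by
  simp only [intervalIntegral.integral_of_le hS]
  have m1 : Measurable fun p : (X × ℝ) × ℝ => H p.1.2 p.2 p.1.1 :=
    hH.comp (((measurable_snd.comp measurable_fst).prodMk measurable_snd).prodMk
      (measurable_fst.comp measurable_fst))
  have m2 : StronglyMeasurable fun q : X × ℝ => ∫ s' in Ioc 0 S, H q.2 s' q.1 :=
    m1.stronglyMeasurable.integral_prod_right' (ν := volume.restrict (Ioc 0 S))
  have b2 : ∀ q : X × ℝ, ‖∫ s' in Ioc 0 S, H q.2 s' q.1‖ ≤ C * S := by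
    intro q
    have h1 := norm_setIntegral_le_of_norm_le_const (μ := volume) (s := Ioc 0 S) (C := C)
      (f := fun s' => H q.2 s' q.1) (by simp) (fun s' _ => hb _ _ _)
    simpa [Measure.real, hS] using h1
  rw [integral_integral_swap]
  · refine integral_congr_ae (Eventually.of_forall fun s => ?_)
    simp only
    rw [integral_integral_swap]
    refine Integrable.mono' (integrable_const C) ?_ (Eventually.of_forall fun q => hb _ _ _)
    exact (m1.comp ((measurable_fst.prodMk measurable_const).prodMk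
      measurable_snd)).aestronglyMeasurable
  · exact Integrable.mono' (integrable_const (C * S)) m2.aestronglyMeasurable
      (Eventually.of_forall fun q => b2 q)

private theorem energy_aux {X I : Type} [MeasurableSpace X] [Fintype I] (Y : Measure X)
    [IsFiniteMeasure Y] {S : ℝ} (hS : 0 < S) (G : ℝ → X → I → ℝ) (f : X → I → ℝ)
    (fm : ∀ i, Measurable fun p : ℝ × X => G p.1 p.2 i) (hf : ∀ i, Measurable fun x => f x i)
    (fb : ∀ s x i, |G s x i| ≤ 1) (hfb : ∀ x i, |f x i| ≤ 1)
    (hC : ∀ s s' : ℝ, ∫ x, ∑ i : I, G (-s) x i * G (-s') x i ∂Y =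
      ∫ x, ∑ i : I, f x i * G (s - s') x i ∂Y) :
    ∫ x, ∑ i : I, ((1 / S) * ∫ s in (0 : ℝ)..S, G (-s) x i) ^ 2 ∂Y =
      ∫ x, ∑ i : I, f x i * ((1 / S ^ 2) *
        ∫ s in (0 : ℝ)..S, ∫ s' in (0 : ℝ)..S, G (s - s') x i) ∂Y := by
  set N : ℝ := (Fintype.card I : ℝ) with hN
  -- step A
  have hA : ∀ x : X, ∑ i : I, ((1 / S) * ∫ s in (0 : ℝ)..S, G (-s) x i) ^ 2 =
      (1 / S ^ 2) * ∫ s in (0 : ℝ)..S, ∫ s' in (0 : ℝ)..S,
      ∑ i : I, G (-s) x i * G (-s') x i := by
    intro x
    have gi : ∀ i : I, Measurable fun s : ℝ => G (-s) x i := fun i =>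
      (fm i).comp (measurable_neg.prodMk measurable_const)
    have gI : ∀ i : I, ∀ c : ℝ,
        IntervalIntegrable (fun s : ℝ => c * G (-s) x i) volume 0 S := by
      intro i c
      rw [intervalIntegrable_iff]
      refine Integrable.mono' (g := fun _ => |c| * 1) (integrableOn_const (by simp)) ?_
        (Eventually.of_forall fun s => ?_)
      · exact ((gi i).const_mul c).aestronglyMeasurable
      · rw [norm_mul, Real.norm_eq_abs, Real.norm_eq_abs]
        exact mul_le_mul_of_nonneg_left (fb _ _ _) (abs_nonneg _)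
    have h1 : ∀ s : ℝ, ∫ s' in (0 : ℝ)..S, ∑ i : I, G (-s) x i * G (-s') x i =
        ∑ i : I, (∫ s' in (0 : ℝ)..S, G (-s') x i) * G (-s) x i := by
      intro s
      rw [intervalIntegral.integral_finsetSum fun i _ => gI i _]
      refine Finset.sum_congr rfl fun i _ => ?_
      rw [intervalIntegral.integral_const_mul, mul_comm]
    simp_rw [h1]
    rw [intervalIntegral.integral_finsetSum fun i _ => gI i _, Finset.mul_sum]
    refine Finset.sum_congr rfl fun i _ => ?_
    rw [intervalIntegral.integral_const_mul]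
    field_simp
  have hsb : ∀ (c d : I → ℝ), (∀ i, |c i| ≤ 1) → (∀ i, |d i| ≤ 1) →
      |∑ i : I, c i * d i| ≤ N := by
    intro c d hc hd
    refine (Finset.abs_sum_le_sum_abs _ _).trans ?_
    calc ∑ i : I, |c i * d i| ≤ ∑ i : I, (1 : ℝ) := by
          refine Finset.sum_le_sum fun i _ => ?_
          rw [abs_mul]
          exact mul_le_one₀ (hc i) (abs_nonneg _) (hd i)
      _ = N := by simp [hN]
  -- step B
  have hB : ∫ x, ∑ i : I, ((1 / S) * ∫ s in (0 : ℝ)..S, G (-s) x i) ^ 2 ∂Y =
      (1 / S ^ 2) * ∫ s in (0 : ℝ)..S, ∫ s' in (0 : ℝ)..S,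
      ∫ x, ∑ i : I, G (-s) x i * G (-s') x i ∂Y := by
    simp_rw [hA]
    rw [integral_const_mul]
    congr 1
    refine fub Y hS.le (H := fun s s' x => ∑ i : I, G (-s) x i * G (-s') x i) ?_ (C := N)
      (fun s s' x => hsb _ _ (fb _ _) (fb _ _))
    refine Finset.measurable_fun_sum _ fun i _ => Measurable.mul ?_ ?_
    · exact (fm i).comp ((measurable_fst.comp measurable_fst).neg.prodMk measurable_snd)
    · exact (fm i).comp ((measurable_snd.comp measurable_fst).neg.prodMk measurable_snd)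
  -- step D
  have hD : ∫ x, ∑ i : I, f x i * ((1 / S ^ 2) *
        ∫ s in (0 : ℝ)..S, ∫ s' in (0 : ℝ)..S, G (s - s') x i) ∂Y =
      (1 / S ^ 2) * ∫ s in (0 : ℝ)..S, ∫ s' in (0 : ℝ)..S,
      ∫ x, ∑ i : I, f x i * G (s - s') x i ∂Y := by
    have h1 : ∀ x : X, ∑ i : I, f x i * ((1 / S ^ 2) *
        ∫ s in (0 : ℝ)..S, ∫ s' in (0 : ℝ)..S, G (s - s') x i) =
        (1 / S ^ 2) * ∫ s in (0 : ℝ)..S, ∫ s' in (0 : ℝ)..S,
          ∑ i : I, f x i * G (s - s') x i := by
      intro x
      have gm : ∀ i : I, Measurable fun p : ℝ × ℝ => G (p.1 - p.2) x i := fun i =>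
        (fm i).comp ((measurable_fst.sub measurable_snd).prodMk measurable_const)
      have gI : ∀ i : I, ∀ s : ℝ,
          IntervalIntegrable (fun s' : ℝ => f x i * G (s - s') x i) volume 0 S := by
        intro i s
        rw [intervalIntegrable_iff]
        refine Integrable.mono' (g := fun _ => |f x i| * 1) (integrableOn_const (by simp)) ?_
          (Eventually.of_forall fun s' => ?_)
        · exact (((gm i).comp (measurable_const.prodMk measurable_id)).const_mul
            _).aestronglyMeasurable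
        · rw [norm_mul, Real.norm_eq_abs, Real.norm_eq_abs]
          exact mul_le_mul_of_nonneg_left (fb _ _ _) (abs_nonneg _)
      have h2 : ∀ s : ℝ, ∫ s' in (0 : ℝ)..S, ∑ i : I, f x i * G (s - s') x i =
          ∑ i : I, f x i * ∫ s' in (0 : ℝ)..S, G (s - s') x i := by
        intro s
        rw [intervalIntegral.integral_finsetSum fun i _ => gI i s]
        refine Finset.sum_congr rfl fun i _ => ?_
        rw [intervalIntegral.integral_const_mul]
      simp_rw [h2]
      have gJ : ∀ i : I, IntervalIntegrable (fun s : ℝ => f x i *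
          ∫ s' in (0 : ℝ)..S, G (s - s') x i) volume 0 S := by
        intro i
        rw [intervalIntegrable_iff]
        refine Integrable.mono' (g := fun _ => |f x i| * S) (integrableOn_const (by simp)) ?_
          (Eventually.of_forall fun s => ?_)
        · refine AEStronglyMeasurable.const_mul ?_ _
          simp only [intervalIntegral.integral_of_le hS.le]
          exact ((gm i).stronglyMeasurable.integral_prod_right'
            (ν := volume.restrict (Ioc 0 S))).aestronglyMeasurable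
        · rw [norm_mul, Real.norm_eq_abs]
          refine mul_le_mul_of_nonneg_left ?_ (abs_nonneg _)
          have h3 := intervalIntegral.norm_integral_le_of_norm_le_const (a := 0) (b := S) (C := 1)
            (f := fun s' => G (s - s') x i) (fun s' _ => fb _ _ _)
          simpa [abs_of_pos hS] using h3
      rw [intervalIntegral.integral_finsetSum fun i _ => gJ i, Finset.mul_sum]
      refine Finset.sum_congr rfl fun i _ => ?_
      rw [intervalIntegral.integral_const_mul]
      ring
    simp_rw [h1]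
    rw [integral_const_mul]
    congr 1
    refine fub Y hS.le (H := fun s s' x => ∑ i : I, f x i * G (s - s') x i) ?_ (C := N)
      (fun s s' x => hsb _ _ (hfb x) (fb _ _))
    refine Finset.measurable_fun_sum _ fun i _ => Measurable.mul ?_ ?_
    · exact (hf i).comp measurable_snd
    · exact (fm i).comp (((measurable_fst.comp measurable_fst).sub
        (measurable_snd.comp measurable_fst)).prodMk measurable_snd)
  rw [hD, hB]
  simp_rw [hC]

theorem energy {Λ : Type} [Fintype Λ] [DecidableEq Λ] {ρ : Measure Pl} (hρ : PerMeas ρ) {S : ℝ}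
    (hS : 0 < S) :
    ∫ x in DF, EE Λ S x ∂(muG.prod ρ) = Pr ρ (f0 (Λ := Λ)) (FS S) := by
  have := hρ.sf
  have hfin : IsFiniteMeasure ((muG.prod ρ).restrict DF) :=
    ⟨by rw [Measure.restrict_apply_univ]; exact DF_fin hρ⟩
  have fb : ∀ (s : ℝ) (x : SLR × Pl) (i : Lab Λ), |(wPhi s).act f0 x i| ≤ 1 :=
    fun s x i => f0_bound ((wPhi s).T x) ((wPhi s).σ x i)
  have hC : ∀ s s' : ℝ, ∫ x in DF, ∑ i : Lab Λ, (wPhi (-s)).act f0 x i * (wPhi (-s')).act f0 x i
      ∂(muG.prod ρ) = ∫ x in DF, ∑ i : Lab Λ, f0 x i * (wPhi (s - s')).act f0 x i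
      ∂(muG.prod ρ) := by
    intro s s'
    have h1 := Pr_act hρ (Λ := Λ) (G := (wPhi (-s)).act f0) (G' := (wPhi (-s')).act f0)
      (act_measurable (wPhi_meas (-s)) f0_measurable)
      (act_measurable (wPhi_meas (-s')) f0_measurable) (C := 1)
      (fb _) (fb _) (AutW.wPhi hρ (f0_autW hρ) _) (AutW.wPhi hρ (f0_autW hρ) _)
      (wPhi s) (nl (-s)) rfl
    unfold Pr at h1
    rw [← h1]
    refine integral_congr_ae (ae_restrict_of_ae ?_)
    filter_upwards [gen1_aeX hρ] with x hx
    refine Finset.sum_congr rfl fun i _ => ?_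
    rw [wPhi_add hx, wPhi_add hx, add_neg_cancel, wPhi_zero, ← sub_eq_add_neg]
  exact energy_aux ((muG.prod ρ).restrict DF) hS (fun s => (wPhi s).act f0) f0
    (fun i => act_joint f0_measurable i) f0_measurable fb f0_bound hC

end Pool.Agent.ILL
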