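import Pool.Agent.ILL.TauB

/-!
# LGL. From local to global

Two functions of segments which are additive on lattice-free segments and agree for short segments
near every point off the lattice agree on all lattice-free segments.

PROOF. First `c A A = 1` for `A` off the lattice (additivity with `A = B = C`). Let `[A,B]` be
lattice-free. The segment is compact; for each `p ∈ [A,B]` let `ε(p) > 0` be as in `hl`. By the Lebesgue
number lemma (`lebesgue_number_lemma_of_metric`) there is `δ > 0` such that each ball of radius `δ` about a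
point of `[A,B]` is contained in one of the balls `ball p ε(p)`. Choose `n ≥ 1` with
`dist A B / n < δ` and put `A_i = A + (i/n)(B - A)`. Then `c₁ A_i A_{i+1} = c₂ A_i A_{i+1}`, and by
induction on `i`, `c₁ A A_i = c₂ A A_i`: `c A A_{i+1} = c A_i A_{i+1} * c A A_i` by additivity on the
segment `[A, A_{i+1}] ⊆ [A,B]`, which is lattice-free. (Alternatively: continuous induction /
bisection.)
-/

open MeasureTheory Set Filter Topology
open scoped ENNReal NNReal

namespace Pool.Agent.ILL

private theorem LGL_seg {A B : Pl} {s t : ℝ} (h0 : 0 ≤ s) (h1 : s ≤ t) :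
    AffineMap.lineMap A B s ∈ segment ℝ A (AffineMap.lineMap A B t) := by
  rcases eq_or_lt_of_le (h0.trans h1) with h2 | h2
  · have h3 : s = 0 := le_antisymm (h1.trans h2.symm.le) h0
    rw [h3, AffineMap.lineMap_apply_zero]
    exact left_mem_segment ℝ _ _
  · rw [segment_eq_image_lineMap]
    refine ⟨s / t, ⟨div_nonneg h0 h2.le, (div_le_one h2).2 h1⟩, ?_⟩
    rw [AffineMap.lineMap_apply, AffineMap.lineMap_apply, AffineMap.lineMap_apply]
    simp only [vadd_eq_add, add_sub_cancel_right, vsub_eq_sub, smul_smul]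
    rw [div_mul_cancel₀ _ h2.ne']

section
variable {H : Type*} [Group H]

theorem loc_glob {c₁ c₂ : Pl → Pl → H}
    (h₁ : ∀ A B C, LF A B → C ∈ segment ℝ A B → c₁ C B * c₁ A C = c₁ A B)
    (h₂ : ∀ A B C, LF A B → C ∈ segment ℝ A B → c₂ C B * c₂ A C = c₂ A B)
    (hl : ∀ p : Pl, (∀ z, ZP z ≠ p) → ∃ ε > 0, ∀ A B, dist A p < ε → dist B p < ε →
      c₁ A B = c₂ A B) :
    ∀ A B, LF A B → c₁ A B = c₂ A B := by
  intro A B hAB
  obtain ⟨γ, hγ⟩ : ∃ γ : unitInterval → Pl, γ = fun t : unitInterval => AffineMap.lineMap A B (t : ℝ) :=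
    ⟨_, rfl⟩
  have hγc : Continuous γ := by
    rw [hγ]
    exact AffineMap.lineMap_continuous.comp continuous_subtype_val
  have hγs : ∀ t, γ t ∈ segment ℝ A B := by
    intro t
    rw [hγ, segment_eq_image_lineMap]
    exact ⟨t, t.2, rfl⟩
  have hγn : ∀ t z, ZP z ≠ γ t := fun t z h => hAB z (h ▸ hγs t)
  have hA : A = γ 0 := by
    rw [hγ]
    simp
  have hB : B = γ 1 := by
    rw [hγ]
    simp
  have hLA : LF A A := by
    intro z hz
    rw [segment_same, mem_singleton_iff] at hz
    exact hγn 0 z (hz.trans hA)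
  have q1 : c₁ A A = 1 := mul_eq_left.1 (h₁ A A A hLA (left_mem_segment ℝ _ _))
  have q2 : c₂ A A = 1 := mul_eq_left.1 (h₂ A A A hLA (left_mem_segment ℝ _ _))
  choose! ε hε hε' using fun t : unitInterval => hl (γ t) (hγn t)
  obtain ⟨t, ht0, htm, ⟨n, hn⟩, ht⟩ := exists_monotone_Icc_subset_open_cover_unitInterval
    (c := fun i => {t | dist (γ t) (γ i) < ε i})
    (fun i => isOpen_lt (hγc.dist continuous_const) continuous_const)
    (fun t _ => mem_iUnion.2 ⟨t, by
      change dist (γ t) (γ t) < ε t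
      rw [dist_self]
      exact hε t⟩)
  have key : ∀ m, c₁ A (γ (t m)) = c₂ A (γ (t m)) := by
    intro m
    induction m with
    | zero => rw [ht0, ← hA, q1, q2]
    | succ m ih =>
      have k1 : γ (t m) ∈ segment ℝ A (γ (t (m + 1))) := by
        rw [hγ]
        exact LGL_seg (t m).2.1 (htm (Nat.le_succ m))
      have k2 : LF A (γ (t (m + 1))) := fun z hz => hAB z
        ((convex_segment A B).segment_subset (left_mem_segment ℝ _ _) (hγs _) hz)
      rw [← h₁ _ _ _ k2 k1, ← h₂ _ _ _ k2 k1, ih]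
      obtain ⟨i, hi⟩ := ht m
      rw [hε' i _ _ (hi ⟨le_refl _, htm (Nat.le_succ m)⟩) (hi ⟨htm (Nat.le_succ m), le_refl _⟩)]
  have k := key n
  rw [hn n le_rfl, ← hB] at k
  exact k

end

end Pool.Agent.ILL
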