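import Pool.Agent.ILL.Tri
import Pool.Agent.ILL.Lgl

/-!
# EQU. Equivariance of the transport under the two shears

Write `U(x,y) = (x+y,y)`, `L(x,y) = (x,x+y)` and `vexp A = ⌊A.1+A.2⌋ - ⌊A.1⌋ - ⌊A.2⌋ ∈ {0,1}`.
For a lattice-free segment `AB`:
`tau a b (U A) (U B) = a^(vexp B) * tau a (b a) A B * (a^(vexp A))⁻¹`,
`tau a b (L A) (L B) = b^(vexp B) * tau (a b) b A B * (b^(vexp A))⁻¹`.

PROOF by `loc_glob`. Both sides are additive on lattice-free segments (`tau_seg`; the shears are linear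
bijections preserving the lattice, so they map lattice-free segments to lattice-free segments; the
`vexp` factors telescope). Local equality near a point `p` which is not a lattice point, for `U`:

* `p.2 ∉ ℤ`: near `p` the floor of the second coordinate is constant, so by `tau_rowy`
  `tau (U A) (U B) = a^(Δ⌊x+y⌋)` and `tau a (ba) A B = a^(Δ⌊x⌋)` (`Δ` = value at `B` minus value at
  `A`), and `vexp B - vexp A = Δ⌊x+y⌋ - Δ⌊x⌋`.
* `p.2 = j ∈ ℤ`: then `p.1 ∉ ℤ` and `p.1 + p.2 ∉ ℤ`, so near `p` the floors of `x` and of `x+y` are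
  constant, `⌊x+y⌋ - ⌊x⌋ = j`, `vexp = j - ⌊y⌋` with `⌊y⌋ ∈ {j-1, j}`. By `tau_colx`
  `tau (U A) (U B) = b^(Δ⌊y⌋)` and `tau a (ba) A B = (ba)^(Δ⌊y⌋)`. If `Δ = 0` clear; if `A` is below and
  `B` above: `a^0 (ba) a^(-1) = b`; if `A` is above and `B` below: `a (ba)^(-1) a^0 = b^(-1)`.

For `L`:
* `p.1 ∉ ℤ`: `⌊x⌋` is constant, `tau_colx`: `tau (L A) (L B) = b^(Δ⌊x+y⌋)`, `tau (ab) b A B = b^(Δ⌊y⌋)`.
* `p.1 = i ∈ ℤ`: `⌊y⌋`, `⌊x+y⌋` are constant, `vexp = i - ⌊x⌋ ∈ {0,1}`, `tau_rowy`: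
  `tau (L A) (L B) = a^(Δ⌊x⌋)`, `tau (ab) b A B = (ab)^(Δ⌊x⌋)`; e.g. `A` left and `B` right:
  `b^0 (ab) b^(-1) = a`.
(All formulas have been checked numerically.)
-/

open MeasureTheory Set Filter Topology
open scoped ENNReal NNReal

namespace Pool.Agent.ILL

section
variable {H : Type*} [Group H] (a b : H)

private theorem floor_const {x : ℝ} (h : ∀ n : ℤ, (n : ℝ) ≠ x) :
    ∃ ε > 0, ∀ y : ℝ, |y - x| < ε → ⌊y⌋ = ⌊x⌋ := by
  have h1 : (⌊x⌋ : ℝ) < x := lt_of_le_of_ne (Int.floor_le x) (h _)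
  have h2 : x < ⌊x⌋ + 1 := Int.lt_floor_add_one x
  refine ⟨min (x - ⌊x⌋) (⌊x⌋ + 1 - x), lt_min (sub_pos.2 h1) (sub_pos.2 h2), ?_⟩
  intro y hy
  rw [abs_lt] at hy
  have h3 := min_le_left (x - ⌊x⌋) (⌊x⌋ + 1 - x)
  have h4 := min_le_right (x - ⌊x⌋) (⌊x⌋ + 1 - x)
  rw [Int.floor_eq_iff]
  constructor <;> linarith [hy.1, hy.2]

private theorem floor_near (j : ℤ) {y : ℝ} (h : |y - j| < 1) : ⌊y⌋ = j ∨ ⌊y⌋ = j - 1 := by
  rw [abs_lt] at h
  rcases le_or_gt (j : ℝ) y with h1 | h1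
  · left
    rw [Int.floor_eq_iff]
    constructor <;> linarith [h.1, h.2]
  · right
    rw [Int.floor_eq_iff]
    push_cast
    constructor <;> linarith [h.1, h.2]

private theorem abs_fst {A p : Pl} {ε : ℝ} (h : dist A p < ε) : |A.1 - p.1| < ε := by
  rw [← Real.dist_eq]
  exact lt_of_le_of_lt (le_max_left _ _) h

private theorem abs_snd {A p : Pl} {ε : ℝ} (h : dist A p < ε) : |A.2 - p.2| < ε := by
  rw [← Real.dist_eq]
  exact lt_of_le_of_lt (le_max_right _ _) h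

private theorem abs_sum {A p : Pl} {ε : ℝ} (h : dist A p < ε / 2) :
    |A.1 + A.2 - (p.1 + p.2)| < ε := by
  have h1 := abs_fst h
  have h2 := abs_snd h
  have h3 : A.1 + A.2 - (p.1 + p.2) = (A.1 - p.1) + (A.2 - p.2) := by ring
  rw [h3]
  have := abs_add_le (A.1 - p.1) (A.2 - p.2)
  linarith

/-- the algebraic identity behind the change of the label at a critical row or column -/
private theorem alg (x y : H) {j m n : ℤ} (hm : m = j ∨ m = j - 1) (hn : n = j ∨ n = j - 1) :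
    y ^ (n - m) = x ^ (j - n) * (y * x) ^ (n - m) * (x ^ (j - m))⁻¹ := by
  rcases hm with rfl | rfl <;> rcases hn with rfl | rfl
  · simp
  · have e1 : m - 1 - m = -1 := by ring
    have e2 : m - (m - 1) = 1 := by ring
    rw [e1, e2, sub_self]
    simp
  · have e1 : n - (n - 1) = 1 := by ring
    rw [e1, sub_self]
    simp
  · have e1 : j - (j - 1) = 1 := by ring
    rw [e1, sub_self]
    simp

private theorem locU (p : Pl) (hp : ∀ z, ZP z ≠ p) : ∃ ε > 0, ∀ A B : Pl, dist A p < ε →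
    dist B p < ε → tau a b (A.1 + A.2, A.2) (B.1 + B.2, B.2) =
      a ^ vexp B * tau a (b * a) A B * (a ^ vexp A)⁻¹ := by
  by_cases h : ∃ j : ℤ, (j : ℝ) = p.2
  · obtain ⟨j, hj⟩ := h
    have h1 : ∀ n : ℤ, (n : ℝ) ≠ p.1 := by
      intro n hn
      exact hp (n, j) (Prod.ext hn hj)
    have h2 : ∀ n : ℤ, (n : ℝ) ≠ p.1 + p.2 := by
      intro n hn
      refine h1 (n - j) ?_
      push_cast
      rw [hn, hj]
      ring
    obtain ⟨e1, he1, H1⟩ := floor_const h1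
    obtain ⟨e2, he2, H2⟩ := floor_const h2
    refine ⟨min (min e1 (e2 / 2)) 1, lt_min (lt_min he1 (by linarith)) one_pos, ?_⟩
    intro A B hA hB
    have key : ∀ A : Pl, dist A p < min (min e1 (e2 / 2)) 1 →
        ⌊A.1⌋ = ⌊p.1⌋ ∧ ⌊A.1 + A.2⌋ = ⌊p.1 + p.2⌋ ∧ (⌊A.2⌋ = j ∨ ⌊A.2⌋ = j - 1) := by
      intro A hA
      have q1 : dist A p < e1 := lt_of_lt_of_le hA ((min_le_left _ _).trans (min_le_left _ _))
      have q2 : dist A p < e2 / 2 :=
        lt_of_lt_of_le hA ((min_le_left _ _).trans (min_le_right _ _))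
      have q3 : dist A p < 1 := lt_of_lt_of_le hA (min_le_right _ _)
      refine ⟨H1 _ (abs_fst q1), H2 _ (abs_sum q2), floor_near j ?_⟩
      rw [hj]
      exact abs_snd q3
    obtain ⟨a1, a2, a3⟩ := key A hA
    obtain ⟨b1, b2, b3⟩ := key B hB
    have hs : ⌊p.1 + p.2⌋ = ⌊p.1⌋ + j := by
      rw [← hj]
      exact Int.floor_add_intCast _ _
    have vA : vexp A = j - ⌊A.2⌋ := by
      unfold vexp
      rw [a1, a2, hs]
      ring
    have vB : vexp B = j - ⌊B.2⌋ := by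
      unfold vexp
      rw [b1, b2, hs]
      ring
    rw [vA, vB, tau_colx a (b * a) (a1.trans b1.symm),
      tau_colx a b (A := (A.1 + A.2, A.2)) (B := (B.1 + B.2, B.2)) (a2.trans b2.symm)]
    exact alg a b a3 b3
  · push Not at h
    obtain ⟨e1, he1, H1⟩ := floor_const h
    refine ⟨e1, he1, ?_⟩
    intro A B hA hB
    have qA := H1 _ (abs_snd hA)
    have qB := H1 _ (abs_snd hB)
    rw [tau_rowy a (b * a) (qA.trans qB.symm),
      tau_rowy a b (A := (A.1 + A.2, A.2)) (B := (B.1 + B.2, B.2)) (qA.trans qB.symm),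
      ← zpow_add, ← zpow_neg, ← zpow_add]
    congr 1
    unfold vexp
    rw [qA, qB]
    ring

private theorem locL (p : Pl) (hp : ∀ z, ZP z ≠ p) : ∃ ε > 0, ∀ A B : Pl, dist A p < ε →
    dist B p < ε → tau a b (A.1, A.1 + A.2) (B.1, B.1 + B.2) =
      b ^ vexp B * tau (a * b) b A B * (b ^ vexp A)⁻¹ := by
  by_cases h : ∃ j : ℤ, (j : ℝ) = p.1
  · obtain ⟨j, hj⟩ := h
    have h1 : ∀ n : ℤ, (n : ℝ) ≠ p.2 := by
      intro n hn
      exact hp (j, n) (Prod.ext hj hn)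
    have h2 : ∀ n : ℤ, (n : ℝ) ≠ p.1 + p.2 := by
      intro n hn
      refine h1 (n - j) ?_
      push_cast
      rw [hn, hj]
      ring
    obtain ⟨e1, he1, H1⟩ := floor_const h1
    obtain ⟨e2, he2, H2⟩ := floor_const h2
    refine ⟨min (min e1 (e2 / 2)) 1, lt_min (lt_min he1 (by linarith)) one_pos, ?_⟩
    intro A B hA hB
    have key : ∀ A : Pl, dist A p < min (min e1 (e2 / 2)) 1 →
        ⌊A.2⌋ = ⌊p.2⌋ ∧ ⌊A.1 + A.2⌋ = ⌊p.1 + p.2⌋ ∧ (⌊A.1⌋ = j ∨ ⌊A.1⌋ = j - 1) := by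
      intro A hA
      have q1 : dist A p < e1 := lt_of_lt_of_le hA ((min_le_left _ _).trans (min_le_left _ _))
      have q2 : dist A p < e2 / 2 :=
        lt_of_lt_of_le hA ((min_le_left _ _).trans (min_le_right _ _))
      have q3 : dist A p < 1 := lt_of_lt_of_le hA (min_le_right _ _)
      refine ⟨H1 _ (abs_snd q1), H2 _ (abs_sum q2), floor_near j ?_⟩
      rw [hj]
      exact abs_fst q3
    obtain ⟨a1, a2, a3⟩ := key A hA
    obtain ⟨b1, b2, b3⟩ := key B hB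
    have hs : ⌊p.1 + p.2⌋ = j + ⌊p.2⌋ := by
      rw [← hj]
      exact Int.floor_intCast_add _ _
    have vA : vexp A = j - ⌊A.1⌋ := by
      unfold vexp
      rw [a1, a2, hs]
      ring
    have vB : vexp B = j - ⌊B.1⌋ := by
      unfold vexp
      rw [b1, b2, hs]
      ring
    rw [vA, vB, tau_rowy (a * b) b (a1.trans b1.symm),
      tau_rowy a b (A := (A.1, A.1 + A.2)) (B := (B.1, B.1 + B.2)) (a2.trans b2.symm)]
    exact alg b a a3 b3
  · push Not at h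
    obtain ⟨e1, he1, H1⟩ := floor_const h
    refine ⟨e1, he1, ?_⟩
    intro A B hA hB
    have qA := H1 _ (abs_fst hA)
    have qB := H1 _ (abs_fst hB)
    rw [tau_colx (a * b) b (qA.trans qB.symm),
      tau_colx a b (A := (A.1, A.1 + A.2)) (B := (B.1, B.1 + B.2)) (qA.trans qB.symm),
      ← zpow_add, ← zpow_neg, ← zpow_add]
    congr 1
    unfold vexp
    rw [qA, qB]
    ring

private theorem LF_sub {A B C : Pl} (h : LF A B) (hC : C ∈ segment ℝ A B) : LF A C ∧ LF C B := by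
  have hA : A ∈ segment ℝ A B := left_mem_segment ℝ A B
  have hB : B ∈ segment ℝ A B := right_mem_segment ℝ A B
  have hc := convex_segment (𝕜 := ℝ) A B
  exact ⟨fun z hz => h z (hc.segment_subset hA hC hz), fun z hz => h z (hc.segment_subset hC hB hz)⟩

theorem tau_U {A B : Pl} (h : LF A B) :
    tau a b (A.1 + A.2, A.2) (B.1 + B.2, B.2) =
      a ^ vexp B * tau a (b * a) A B * (a ^ vexp A)⁻¹ := by
  refine loc_glob (c₁ := fun A B => tau a b (A.1 + A.2, A.2) (B.1 + B.2, B.2))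
    (c₂ := fun A B => a ^ vexp B * tau a (b * a) A B * (a ^ vexp A)⁻¹) ?_ ?_ (locU a b) A B h
  · intro A B C h hC
    refine tau_seg a b (A := (A.1 + A.2, A.2)) (B := (B.1 + B.2, B.2)) (C := (C.1 + C.2, C.2))
      ?_ ?_
    · rintro z ⟨s, t, hs, ht, hst, hz⟩
      refine h (z.1 - z.2, z.2) ⟨s, t, hs, ht, hst, ?_⟩
      rw [Prod.ext_iff] at hz ⊢
      simp only [ZP, Prod.fst_add, Prod.snd_add, Prod.smul_fst, Prod.smul_snd, smul_eq_mul,
        Int.cast_sub] at hz ⊢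
      exact ⟨by linarith [hz.1, hz.2], hz.2⟩
    · obtain ⟨s, t, hs, ht, hst, hz⟩ := hC
      refine ⟨s, t, hs, ht, hst, ?_⟩
      rw [Prod.ext_iff] at hz ⊢
      simp only [Prod.fst_add, Prod.snd_add, Prod.smul_fst, Prod.smul_snd, smul_eq_mul] at hz ⊢
      exact ⟨by rw [← hz.1, ← hz.2]; ring, hz.2⟩
  · intro A B C h hC
    have e := tau_seg a (b * a) h hC
    rw [← e]
    group

theorem tau_L {A B : Pl} (h : LF A B) :
    tau a b (A.1, A.1 + A.2) (B.1, B.1 + B.2) =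
      b ^ vexp B * tau (a * b) b A B * (b ^ vexp A)⁻¹ := by
  refine loc_glob (c₁ := fun A B => tau a b (A.1, A.1 + A.2) (B.1, B.1 + B.2))
    (c₂ := fun A B => b ^ vexp B * tau (a * b) b A B * (b ^ vexp A)⁻¹) ?_ ?_ (locL a b) A B h
  · intro A B C h hC
    refine tau_seg a b (A := (A.1, A.1 + A.2)) (B := (B.1, B.1 + B.2)) (C := (C.1, C.1 + C.2))
      ?_ ?_
    · rintro z ⟨s, t, hs, ht, hst, hz⟩
      refine h (z.1, z.2 - z.1) ⟨s, t, hs, ht, hst, ?_⟩
      rw [Prod.ext_iff] at hz ⊢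
      simp only [ZP, Prod.fst_add, Prod.snd_add, Prod.smul_fst, Prod.smul_snd, smul_eq_mul,
        Int.cast_sub] at hz ⊢
      exact ⟨hz.1, by linarith [hz.1, hz.2]⟩
    · obtain ⟨s, t, hs, ht, hst, hz⟩ := hC
      refine ⟨s, t, hs, ht, hst, ?_⟩
      rw [Prod.ext_iff] at hz ⊢
      simp only [Prod.fst_add, Prod.snd_add, Prod.smul_fst, Prod.smul_snd, smul_eq_mul] at hz ⊢
      exact ⟨hz.1, by rw [← hz.1, ← hz.2]; ring⟩
  · intro A B C h hC
    have e := tau_seg (a * b) b h hC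
    rw [← e]
    group

theorem vexp_add_int (A : Pl) (z : ℤ × ℤ) : vexp (A + ZP z) = vexp A := by
  unfold vexp ZP
  simp only [Prod.fst_add, Prod.snd_add]
  have h : A.1 + (z.1 : ℝ) + (A.2 + z.2) = A.1 + A.2 + ((z.1 + z.2 : ℤ) : ℝ) := by
    push_cast
    ring
  rw [h, Int.floor_add_intCast, Int.floor_add_intCast, Int.floor_add_intCast]
  ring

theorem mv_gU (A : Pl) : mv (toR gU) A = (A.1 + A.2, A.2) := by
  simp [mv, toR, gU]

theorem mv_gL (A : Pl) : mv (toR gL) A = (A.1, A.1 + A.2) := by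
  simp [mv, toR, gL]

/-- integral matrices preserve the lattice -/
theorem mv_toR_ZP (γ : SLZ) (z : ℤ × ℤ) :
    mv (toR γ) (ZP z) = ZP (γ 0 0 * z.1 + γ 0 1 * z.2, γ 1 0 * z.1 + γ 1 1 * z.2) := by
  simp [mv, toR, ZP]

end

end Pool.Agent.ILL
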