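import Pool.Agent.ILL.Ecs
import Pool.Agent.ILL.Dfm
import Pool.Agent.ILL.Dth

/-!
# ETH. Geometry of the rows along a circle

`H = M rot θ tri α β dg u`, `T = e^u`, `κ = rv k M`, `e = (cos 2πθ, sin 2πθ)`, `e' = (-sin 2πθ, cos 2πθ)`,
`w = β e + α⁻¹ e'`. Then `(rv k H).1 = T α (κ·e)`, `(rv k H).2 = T⁻¹ (κ·w)`: `row_formula`.

`qq_estimate`: `k` coprime, `k.1 ≠ 0`, `|(rv k H).2| ≥ c₀`: `qq (gam k H) = (κ''·w)/(κ·w)` with `κ'' = rv (second row of
gam k) M`. As `(C,D) = (C/A)(A,B) + (0,1/A)` for `A = k.1, B = k.2, C = Cc k, D` (`AD - BC = 1`),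
`κ'' = (C/A) κ + (1/A) m₂`, `m₂ = rv (0,1) M`, so `qq = C/A + (m₂·w)/(A (κ·w))` and `|κ·w| = T |(rv k H).2| ≥ c₀ T`,
`|m₂·w| ≤ C₁` for `α ∈ [1,2]`, `|β| ≤ 2`.

`eu_range`: if `|(rv k H).1| ≤ C₀` and `c₀ ≤ |(rv k H).2| ≤ C₀` then `|κ·e| ≤ C₀/(αT)` and
`κ·e' = α (κ·w - β κ·e)`, so `|κ| = eu (rv k M)` is between `c₂ T` and `C₂ T` for `u ≥ u₀`.

`theta_measure`: for such `k`, `u ≥ u₀`, the measure of the set of `θ ∈ [0,1]` with these inequalities is at most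
`C₂/T²`: `|κ·e| = |κ| |cos(φ - 2πθ)| ≤ C₀/(αT)` with `|κ| ≥ c₂ T`, so `|cos(φ-2πθ)| ≤ C₀/(c₂ T²)`.
All constants depend only on `M`, `c₀`, `C₀`, uniformly for `α ∈ [1,2]`, `|β| ≤ 2`.

`count_rows`: `#{k : |κ| ≤ ρ} ≤ C (1 + ρ)²`, and `|k.1|, |k.2| ≤ C |κ|`; for fixed `A` the number of `B` with
`|(A,B)M| ≤ ρ` is at most `C(1+ρ)`.
-/

open MeasureTheory Set Filter Topology
open scoped ENNReal NNReal

namespace Pool.Agent.ILL

theorem eth_rv_mul (k : ℤ × ℤ) (M N : SLR) :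
    rv k (M * N) = ((rv k M).1 * N 0 0 + (rv k M).2 * N 1 0,
      (rv k M).1 * N 0 1 + (rv k M).2 * N 1 1) := by
  unfold rv
  ext
  · simp [Matrix.mul_apply, Fin.sum_univ_two]
    ring
  · simp [Matrix.mul_apply, Fin.sum_univ_two]
    ring

theorem row_formula (M : SLR) {α : ℝ} (hα : α ≠ 0) (β u θ : ℝ) (k : ℤ × ℤ) :
    rv k (M * rot θ * tri α β * dg u) =
      (Real.exp u * (α * ((rv k M).1 * Real.cos (2 * Real.pi * θ) +
          (rv k M).2 * Real.sin (2 * Real.pi * θ))),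
       Real.exp (-u) * (β * ((rv k M).1 * Real.cos (2 * Real.pi * θ) +
          (rv k M).2 * Real.sin (2 * Real.pi * θ)) +
          α⁻¹ * (-(rv k M).1 * Real.sin (2 * Real.pi * θ) +
            (rv k M).2 * Real.cos (2 * Real.pi * θ)))) := by
  rw [eth_rv_mul, eth_rv_mul, eth_rv_mul]
  have ht : tri α β = (⟨!![α, β; 0, α⁻¹], by simp [Matrix.det_fin_two, hα]⟩ : SLR) := by
    unfold tri
    rw [dif_pos hα]
  rw [ht]
  ext
  · simp [rot, dg]
    ring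
  · simp [rot, dg]
    ring

/-- the entries of the lower row -/
theorem eth_h11 (H : SLR) : H 1 1 = (rv (0, 1) H).2 := by
  simp [rv]

theorem eth_cos_sin_le (x y t : ℝ) : |x * Real.cos t + y * Real.sin t| ≤ |x| + |y| := by
  have h1 : |x * Real.cos t| ≤ |x| := by
    rw [abs_mul]
    exact mul_le_of_le_one_right (abs_nonneg _) (Real.abs_cos_le_one _)
  have h2 : |y * Real.sin t| ≤ |y| := by
    rw [abs_mul]
    exact mul_le_of_le_one_right (abs_nonneg _) (Real.abs_sin_le_one _)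
  exact (abs_add_le _ _).trans (add_le_add h1 h2)

theorem eth_cos_sin_le' (x y t : ℝ) : |-x * Real.sin t + y * Real.cos t| ≤ |x| + |y| := by
  have h1 : |-x * Real.sin t| ≤ |x| := by
    rw [abs_mul, abs_neg]
    exact mul_le_of_le_one_right (abs_nonneg _) (Real.abs_sin_le_one _)
  have h2 : |y * Real.cos t| ≤ |y| := by
    rw [abs_mul]
    exact mul_le_of_le_one_right (abs_nonneg _) (Real.abs_cos_le_one _)
  exact (abs_add_le _ _).trans (add_le_add h1 h2)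

theorem qq_estimate (M : SLR) : ∃ C₁ > 0, ∀ (α β u θ c₀ : ℝ), 1 ≤ α → α ≤ 2 → |β| ≤ 2 → 0 < c₀ →
    ∀ k : ℤ × ℤ, Int.gcd k.1 k.2 = 1 → k.1 ≠ 0 →
      c₀ ≤ |(rv k (M * rot θ * tri α β * dg u)).2| →
      |qq (toR (gam k) * (M * rot θ * tri α β * dg u)) - (Cc k : ℝ) / (k.1 : ℝ)| ≤
        C₁ / (c₀ * |(k.1 : ℝ)| * Real.exp u) := by
  refine ⟨3 * (|M 1 0| + |M 1 1|) + 1, by positivity, ?_⟩
  intro α β u θ c₀ h1 h2 hβ hc k hk hk1 hc2
  set H : SLR := M * rot θ * tri α β * dg u with hH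
  have hα0 : α ≠ 0 := by linarith
  obtain ⟨g1, g2, g3, g4⟩ := gam_row hk
  have hA : (k.1 : ℝ) ≠ 0 := by exact_mod_cast hk1
  have hr : (rv k H).2 = (k.1 : ℝ) * H 0 1 + (k.2 : ℝ) * H 1 1 := rfl
  have hr0 : (rv k H).2 ≠ 0 := by
    intro h
    rw [h, abs_zero] at hc2
    linarith
  have e01 : (toR (gam k) * H) 0 1 = (rv k H).2 := by
    rw [hr]
    simp [Matrix.mul_apply, Fin.sum_univ_two, toR, g1, g2]
  have e11 : (toR (gam k) * H) 1 1 = (Cc k : ℝ) * H 0 1 + ((gam k 1 1 : ℤ) : ℝ) * H 1 1 := by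
    simp [Matrix.mul_apply, Fin.sum_univ_two, toR, g3]
  have g4' : (k.1 : ℝ) * ((gam k 1 1 : ℤ) : ℝ) - (k.2 : ℝ) * (Cc k : ℝ) = 1 := by exact_mod_cast g4
  have key : qq (toR (gam k) * H) - (Cc k : ℝ) / (k.1 : ℝ) =
      H 1 1 / ((k.1 : ℝ) * (rv k H).2) := by
    unfold qq
    rw [e01, e11]
    rw [div_sub_div _ _ hr0 hA, div_eq_div_iff (mul_ne_zero hr0 hA) (mul_ne_zero hA hr0)]
    have : ((Cc k : ℝ) * H 0 1 + ((gam k 1 1 : ℤ) : ℝ) * H 1 1) * (k.1 : ℝ) -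
        (rv k H).2 * (Cc k : ℝ) = H 1 1 := by
      rw [hr]
      linear_combination (H 1 1) * g4'
    rw [this]
    ring
  rw [key, abs_div, abs_mul]
  have h11 : |H 1 1| ≤ Real.exp (-u) * (3 * (|M 1 0| + |M 1 1|)) := by
    rw [eth_h11, hH, row_formula M hα0]
    simp only
    rw [abs_mul, abs_of_pos (Real.exp_pos _)]
    refine mul_le_mul_of_nonneg_left ?_ (Real.exp_pos _).le
    have m1 : (rv (0, 1) M).1 = M 1 0 := by simp [rv]
    have m2 : (rv (0, 1) M).2 = M 1 1 := by simp [rv]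
    rw [m1, m2]
    have b1 := eth_cos_sin_le (M 1 0) (M 1 1) (2 * Real.pi * θ)
    have b2 := eth_cos_sin_le' (M 1 0) (M 1 1) (2 * Real.pi * θ)
    refine (abs_add_le _ _).trans ?_
    rw [abs_mul, abs_mul]
    have hai : |α⁻¹| ≤ 1 := by
      rw [abs_of_pos (by positivity)]
      exact inv_le_one_of_one_le₀ h1
    have c1 : |β| * |M 1 0 * Real.cos (2 * Real.pi * θ) + M 1 1 * Real.sin (2 * Real.pi * θ)| ≤
        2 * (|M 1 0| + |M 1 1|) := mul_le_mul hβ b1 (abs_nonneg _) (by norm_num)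
    have c2 : |α⁻¹| * |-M 1 0 * Real.sin (2 * Real.pi * θ) + M 1 1 * Real.cos (2 * Real.pi * θ)| ≤
        1 * (|M 1 0| + |M 1 1|) := mul_le_mul hai b2 (abs_nonneg _) (by norm_num)
    linarith
  have hApos : 0 < |(k.1 : ℝ)| := abs_pos.2 hA
  have hden : 0 < |(k.1 : ℝ)| * |(rv k H).2| := mul_pos hApos (lt_of_lt_of_le hc hc2)
  rw [div_le_div_iff₀ hden (by positivity)]
  have hex : Real.exp (-u) * Real.exp u = 1 := by rw [← Real.exp_add]; simp
  calc |H 1 1| * (c₀ * |(k.1 : ℝ)| * Real.exp u)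
      ≤ (Real.exp (-u) * (3 * (|M 1 0| + |M 1 1|))) * (c₀ * |(k.1 : ℝ)| * Real.exp u) :=
        mul_le_mul_of_nonneg_right h11 (by positivity)
    _ = (3 * (|M 1 0| + |M 1 1|)) * (|(k.1 : ℝ)| * c₀) * (Real.exp (-u) * Real.exp u) := by ring
    _ = (3 * (|M 1 0| + |M 1 1|)) * (|(k.1 : ℝ)| * c₀) := by rw [hex, mul_one]
    _ ≤ (3 * (|M 1 0| + |M 1 1|) + 1) * (|(k.1 : ℝ)| * |(rv k H).2|) := by
        refine mul_le_mul (by linarith) ?_ (by positivity) (by positivity)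
        exact mul_le_mul_of_nonneg_left hc2 hApos.le

/-- consequences of the inequalities for the rows -/
theorem eth_bounds {C₀ c₀ α β u x y t : ℝ} (h1 : 1 ≤ α) (h2 : α ≤ 2) (hβ : |β| ≤ 2)
    (hu : 0 ≤ u) (hbig : 4 * |C₀| ≤ c₀ * Real.exp u)
    (ha : |Real.exp u * (α * (x * Real.cos t + y * Real.sin t))| ≤ C₀)
    (hb : c₀ ≤ |Real.exp (-u) * (β * (x * Real.cos t + y * Real.sin t) +
      α⁻¹ * (-x * Real.sin t + y * Real.cos t))|)
    (hd : |Real.exp (-u) * (β * (x * Real.cos t + y * Real.sin t) +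
      α⁻¹ * (-x * Real.sin t + y * Real.cos t))| ≤ C₀) :
    |x * Real.cos t + y * Real.sin t| ≤ C₀ * Real.exp (-u) ∧
      c₀ / 2 * Real.exp u ≤ √(x ^ 2 + y ^ 2) ∧
      √(x ^ 2 + y ^ 2) ≤ (7 * |C₀| + 1) * Real.exp u := by
  set p := x * Real.cos t + y * Real.sin t with hp
  set q := -x * Real.sin t + y * Real.cos t with hq
  have hT : 0 < Real.exp u := Real.exp_pos u
  have hT1 : 1 ≤ Real.exp u := Real.one_le_exp hu
  have hex : Real.exp (-u) * Real.exp u = 1 := by rw [← Real.exp_add]; simp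
  have hTi : 0 < Real.exp (-u) := Real.exp_pos _
  have hTi1 : Real.exp (-u) ≤ 1 := by
    rw [Real.exp_le_one_iff]; linarith
  have hC0 : 0 ≤ C₀ := (abs_nonneg _).trans ha
  rw [abs_of_nonneg hC0] at hbig ⊢
  have hαp : 0 < α := by linarith
  -- first bound
  have b1 : |p| ≤ C₀ * Real.exp (-u) := by
    rw [abs_mul, abs_mul, abs_of_pos hT, abs_of_pos hαp] at ha
    have : Real.exp u * |p| ≤ C₀ := by
      refine le_trans ?_ ha
      have : |p| ≤ α * |p| := le_mul_of_one_le_left (abs_nonneg _) h1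
      exact mul_le_mul_of_nonneg_left this hT.le
    calc |p| = (Real.exp (-u) * Real.exp u) * |p| := by rw [hex, one_mul]
      _ = Real.exp (-u) * (Real.exp u * |p|) := by ring
      _ ≤ Real.exp (-u) * C₀ := mul_le_mul_of_nonneg_left this hTi.le
      _ = C₀ * Real.exp (-u) := mul_comm _ _
  refine ⟨b1, ?_⟩
  set w := β * p + α⁻¹ * q with hw
  rw [abs_mul, abs_of_pos hTi] at hb hd
  have hwl : c₀ * Real.exp u ≤ |w| := by
    calc c₀ * Real.exp u ≤ (Real.exp (-u) * |w|) * Real.exp u :=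
          mul_le_mul_of_nonneg_right hb hT.le
      _ = (Real.exp (-u) * Real.exp u) * |w| := by ring
      _ = |w| := by rw [hex, one_mul]
  have hwu : |w| ≤ C₀ * Real.exp u := by
    calc |w| = (Real.exp (-u) * Real.exp u) * |w| := by rw [hex, one_mul]
      _ = (Real.exp (-u) * |w|) * Real.exp u := by ring
      _ ≤ C₀ * Real.exp u := mul_le_mul_of_nonneg_right hd hT.le
  have hqe : q = α * (w - β * p) := by
    rw [hw]
    field_simp
    ring
  have hbp : |β * p| ≤ 2 * C₀ := by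
    rw [abs_mul]
    have : |p| ≤ C₀ := b1.trans (mul_le_of_le_one_right hC0 hTi1)
    exact mul_le_mul hβ this (abs_nonneg _) (by norm_num)
  have hql : c₀ / 2 * Real.exp u ≤ |q| := by
    rw [hqe, abs_mul, abs_of_pos hαp]
    have h3 : c₀ / 2 * Real.exp u ≤ |w - β * p| := by
      have := abs_sub_abs_le_abs_sub w (β * p)
      nlinarith
    calc c₀ / 2 * Real.exp u ≤ |w - β * p| := h3
      _ ≤ α * |w - β * p| := le_mul_of_one_le_left (abs_nonneg _) h1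
  have hqu : |q| ≤ 6 * C₀ * Real.exp u := by
    rw [hqe, abs_mul, abs_of_pos hαp]
    have h3 : |w - β * p| ≤ 3 * C₀ * Real.exp u := by
      have h4 := abs_sub w (β * p)
      have h5 : C₀ ≤ C₀ * Real.exp u := le_mul_of_one_le_right hC0 hT1
      linarith
    calc α * |w - β * p| ≤ 2 * (3 * C₀ * Real.exp u) :=
          mul_le_mul h2 h3 (abs_nonneg _) (by norm_num)
      _ = 6 * C₀ * Real.exp u := by ring
  have hsum : x ^ 2 + y ^ 2 = p ^ 2 + q ^ 2 := by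
    rw [hp, hq]
    linear_combination (-(x ^ 2 + y ^ 2)) * (Real.sin_sq_add_cos_sq t)
  rw [hsum]
  constructor
  · refine hql.trans ?_
    rw [← Real.sqrt_sq_eq_abs]
    exact Real.sqrt_le_sqrt (by nlinarith [sq_nonneg p])
  · have h6 : √(p ^ 2 + q ^ 2) ≤ |p| + |q| := by
      rw [Real.sqrt_le_left (by positivity)]
      have h7 : (|p| + |q|) ^ 2 = p ^ 2 + q ^ 2 + 2 * (|p| * |q|) := by
        rw [add_sq, sq_abs, sq_abs]; ring
      rw [h7]
      have := mul_nonneg (abs_nonneg p) (abs_nonneg q)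
      linarith
    refine h6.trans ?_
    have h8 : |p| ≤ C₀ * Real.exp u := by
      refine b1.trans (mul_le_mul_of_nonneg_left ?_ hC0)
      linarith
    nlinarith

/-- the threshold for `u` -/
theorem eth_big {c₀ C₀ : ℝ} (hc : 0 < c₀) {u : ℝ} (hu : 4 * |C₀| / c₀ ≤ u) :
    0 ≤ u ∧ 4 * |C₀| ≤ c₀ * Real.exp u := by
  have h0 : 0 ≤ 4 * |C₀| / c₀ := by positivity
  refine ⟨h0.trans hu, ?_⟩
  have h1 : u ≤ Real.exp u := by
    have := Real.add_one_le_exp u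
    linarith
  have h2 : 4 * |C₀| / c₀ ≤ Real.exp u := hu.trans h1
  rw [div_le_iff₀ hc] at h2
  linarith

theorem eu_range (M : SLR) {c₀ C₀ : ℝ} (hc : 0 < c₀) : ∃ c₂ > 0, ∃ C₂ > 0, ∃ u₀ : ℝ,
    ∀ (α β u θ : ℝ), 1 ≤ α → α ≤ 2 → |β| ≤ 2 → u₀ ≤ u → ∀ k : ℤ × ℤ,
      |(rv k (M * rot θ * tri α β * dg u)).1| ≤ C₀ →
      c₀ ≤ |(rv k (M * rot θ * tri α β * dg u)).2| →
      |(rv k (M * rot θ * tri α β * dg u)).2| ≤ C₀ →
      c₂ * Real.exp u ≤ eu (rv k M) ∧ eu (rv k M) ≤ C₂ * Real.exp u := by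
  refine ⟨c₀ / 2, by positivity, 7 * |C₀| + 1, by positivity, 4 * |C₀| / c₀, ?_⟩
  intro α β u θ h1 h2 hβ hu k ha hb hd
  have hα0 : α ≠ 0 := by linarith
  rw [row_formula M hα0] at ha hb hd
  obtain ⟨hu0, hbig⟩ := eth_big hc hu
  exact (eth_bounds h1 h2 hβ hu0 hbig ha hb hd).2

/-- the set where the cosine is small -/
theorem eth_cos_measure (φ η : ℝ) :
    volume ({θ : ℝ | |Real.cos (φ - 2 * Real.pi * θ)| ≤ η} ∩ Icc 0 1) ≤
      ENNReal.ofReal (2 * η) := by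
  have hπ := Real.pi_pos
  set x := (φ - Real.pi / 2) / Real.pi with hx
  set n0 := ⌊x⌋ with hn0
  have hsub : {θ : ℝ | |Real.cos (φ - 2 * Real.pi * θ)| ≤ η} ∩ Icc 0 1 ⊆
      ⋃ m ∈ Finset.Icc (n0 - 2) (n0 + 1),
        Icc ((x - m) / 2 - η / 4) ((x - m) / 2 + η / 4) := by
    rintro θ ⟨h1, h2, h3⟩
    have h1' : |Real.cos (φ - 2 * Real.pi * θ)| ≤ η := h1
    set y := (φ - 2 * Real.pi * θ - Real.pi / 2) / Real.pi with hy
    have hyx : y = x - 2 * θ := by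
      rw [hy, hx]
      field_simp
      ring
    set m := round y with hm
    have hr : |y - m| ≤ 1 / 2 := abs_sub_round y
    have hcs : Real.cos (φ - 2 * Real.pi * θ) =
        -(Real.sin (Real.pi * (y - m) + m * Real.pi)) := by
      have : Real.pi * (y - m) + m * Real.pi = φ - 2 * Real.pi * θ - Real.pi / 2 := by
        rw [hy]
        field_simp
        ring
      rw [this, Real.sin_sub_pi_div_two, neg_neg]
    rw [hcs, Real.sin_add_int_mul_pi, abs_neg, abs_mul] at h1'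
    have hone : |((-1 : ℝ)) ^ m| = 1 := by simp [abs_zpow]
    rw [hone, one_mul] at h1'
    have hlow : 2 / Real.pi * |Real.pi * (y - m)| ≤ |Real.sin (Real.pi * (y - m))| := by
      apply Real.mul_abs_le_abs_sin
      rw [abs_mul, abs_of_pos hπ]
      nlinarith
    rw [abs_mul, abs_of_pos hπ] at hlow
    have hlow2 : 2 * |y - m| ≤ η := by
      have : 2 / Real.pi * (Real.pi * |y - m|) = 2 * |y - m| := by field_simp
      linarith
    simp only [mem_iUnion, Finset.mem_Icc, mem_Icc, exists_prop]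
    refine ⟨m, ⟨?_, ?_⟩, ?_, ?_⟩
    · have h4 := Int.floor_le x
      have h5 := (abs_le.1 hr).2
      have : ((n0 - 3 : ℤ) : ℝ) < (m : ℝ) := by
        push_cast
        linarith
      have := Int.cast_lt.1 this
      omega
    · have h4 := Int.lt_floor_add_one x
      have h5 := (abs_le.1 hr).1
      have : (m : ℝ) < ((n0 + 2 : ℤ) : ℝ) := by
        push_cast
        linarith
      have := Int.cast_lt.1 this
      omega
    · have h5 : y - m ≤ η / 2 := by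
        have := le_abs_self (y - m)
        linarith
      linarith
    · have h5 : -(η / 2) ≤ y - m := by
        have := neg_abs_le (y - m)
        linarith
      linarith
  refine (measure_mono hsub).trans ((measure_biUnion_finset_le _ _).trans ?_)
  have hv : ∀ m ∈ Finset.Icc (n0 - 2) (n0 + 1),
      volume (Icc ((x - (m : ℝ)) / 2 - η / 4) ((x - m) / 2 + η / 4)) = ENNReal.ofReal (η / 2) := by
    intro m _
    rw [Real.volume_Icc]
    congr 1
    ring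
  rw [Finset.sum_congr rfl hv, Finset.sum_const, Int.card_Icc, nsmul_eq_mul]
  have h4 : (n0 + 1 + 1 - (n0 - 2)).toNat = 4 := by
    have : n0 + 1 + 1 - (n0 - 2) = 4 := by ring
    rw [this]; rfl
  rw [h4]
  have h5 : (2 : ℝ) * η = 4 * (η / 2) := by ring
  rw [h5, ENNReal.ofReal_mul (by norm_num)]
  simp

theorem theta_measure (M : SLR) {c₀ C₀ : ℝ} (hc : 0 < c₀) : ∃ C₂ > 0, ∃ u₀ : ℝ,
    ∀ (α β u : ℝ), 1 ≤ α → α ≤ 2 → |β| ≤ 2 → u₀ ≤ u → ∀ k : ℤ × ℤ,
      volume ({θ : ℝ | |(rv k (M * rot θ * tri α β * dg u)).1| ≤ C₀ ∧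
        c₀ ≤ |(rv k (M * rot θ * tri α β * dg u)).2| ∧
        |(rv k (M * rot θ * tri α β * dg u)).2| ≤ C₀} ∩ Icc 0 1) ≤
      ENNReal.ofReal (C₂ * Real.exp (-2 * u)) := by
  refine ⟨2 * (|C₀| / (c₀ / 2)) + 1, by positivity, 4 * |C₀| / c₀, ?_⟩
  intro α β u h1 h2 hβ hu k
  have hα0 : α ≠ 0 := by linarith
  obtain ⟨hu0, hbig⟩ := eth_big hc hu
  set z : ℂ := ⟨(rv k M).1, (rv k M).2⟩ with hz
  have hre : z.re = (rv k M).1 := rfl
  have him : z.im = (rv k M).2 := rfl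
  have hnz : ‖z‖ = √((rv k M).1 ^ 2 + (rv k M).2 ^ 2) := by
    rw [Complex.norm_eq_sqrt_sq_add_sq]
  have e1 : (rv k M).1 = ‖z‖ * Real.cos z.arg := by rw [Complex.norm_mul_cos_arg]
  have e2 : (rv k M).2 = ‖z‖ * Real.sin z.arg := by rw [Complex.norm_mul_sin_arg]
  have hsub : {θ : ℝ | |(rv k (M * rot θ * tri α β * dg u)).1| ≤ C₀ ∧
        c₀ ≤ |(rv k (M * rot θ * tri α β * dg u)).2| ∧
        |(rv k (M * rot θ * tri α β * dg u)).2| ≤ C₀} ∩ Icc 0 1 ⊆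
      {θ : ℝ | |Real.cos (z.arg - 2 * Real.pi * θ)| ≤
        |C₀| / (c₀ / 2) * Real.exp (-2 * u)} ∩ Icc 0 1 := by
    rintro θ ⟨⟨ha, hb, hd⟩, hI⟩
    refine ⟨?_, hI⟩
    rw [row_formula M hα0] at ha hb hd
    obtain ⟨b1, b2, _⟩ := eth_bounds h1 h2 hβ hu0 hbig ha hb hd
    rw [← hnz] at b2
    have hC0 : 0 ≤ C₀ := (abs_nonneg _).trans ha
    have hcos : (rv k M).1 * Real.cos (2 * Real.pi * θ) + (rv k M).2 * Real.sin (2 * Real.pi * θ) =
        ‖z‖ * Real.cos (z.arg - 2 * Real.pi * θ) := by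
      rw [Real.cos_sub]
      nth_rewrite 1 [e1]
      nth_rewrite 1 [e2]
      ring
    rw [hcos, abs_mul, abs_of_nonneg (norm_nonneg z)] at b1
    show |Real.cos (z.arg - 2 * Real.pi * θ)| ≤ |C₀| / (c₀ / 2) * Real.exp (-2 * u)
    rw [abs_of_nonneg hC0]
    have hT : 0 < Real.exp u := Real.exp_pos u
    have h3 : c₀ / 2 * Real.exp u * |Real.cos (z.arg - 2 * Real.pi * θ)| ≤
        C₀ * Real.exp (-u) := by
      refine le_trans ?_ b1
      exact mul_le_mul_of_nonneg_right b2 (abs_nonneg _)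
    have h4 : Real.exp (-2 * u) = Real.exp (-u) / Real.exp u := by
      rw [← Real.exp_sub]
      congr 1
      ring
    rw [h4, div_mul_div_comm, le_div_iff₀ (by positivity)]
    linarith
  refine (measure_mono hsub).trans ((eth_cos_measure _ _).trans ?_)
  apply ENNReal.ofReal_le_ofReal
  have : 0 < Real.exp (-2 * u) := Real.exp_pos _
  nlinarith

theorem count_rows (M : SLR) : ∃ C : ℝ, 0 < C ∧ ∀ ρ : ℝ, 0 ≤ ρ →
    {k : ℤ × ℤ | eu (rv k M) ≤ ρ}.Finite ∧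
    ({k : ℤ × ℤ | eu (rv k M) ≤ ρ}.ncard : ℝ) ≤ C * (1 + ρ) ^ 2 ∧
    (∀ k : ℤ × ℤ, eu (rv k M) ≤ ρ → |(k.1 : ℝ)| ≤ C * ρ ∧ |(k.2 : ℝ)| ≤ C * ρ) := by
  set K : ℝ := |M 0 0| + |M 0 1| + |M 1 0| + |M 1 1| + 1 with hK
  have hK1 : 1 ≤ K := by
    have h1 := abs_nonneg (M 0 0)
    have h2 := abs_nonneg (M 0 1)
    have h3 := abs_nonneg (M 1 0)
    have h4 := abs_nonneg (M 1 1)
    linarith
  have hdet : M 0 0 * M 1 1 - M 0 1 * M 1 0 = 1 := by
    have := M.det_coe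
    rwa [Matrix.det_fin_two] at this
  have hbd : ∀ ρ : ℝ, ∀ k : ℤ × ℤ, eu (rv k M) ≤ ρ →
      |(k.1 : ℝ)| ≤ K * ρ ∧ |(k.2 : ℝ)| ≤ K * ρ := by
    intro ρ k hk
    have hr1 : |(rv k M).1| ≤ ρ := by
      refine le_trans ?_ hk
      unfold eu
      rw [← Real.sqrt_sq_eq_abs]
      exact Real.sqrt_le_sqrt (by nlinarith [sq_nonneg (rv k M).2])
    have hr2 : |(rv k M).2| ≤ ρ := by
      refine le_trans ?_ hk
      unfold eu
      rw [← Real.sqrt_sq_eq_abs]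
      exact Real.sqrt_le_sqrt (by nlinarith [sq_nonneg (rv k M).1])
    have hρ : 0 ≤ ρ := (abs_nonneg _).trans hr1
    have f1 : (k.1 : ℝ) = (rv k M).1 * M 1 1 - (rv k M).2 * M 1 0 := by
      simp only [rv]
      linear_combination (-(k.1 : ℝ)) * hdet
    have f2 : (k.2 : ℝ) = (rv k M).2 * M 0 0 - (rv k M).1 * M 0 1 := by
      simp only [rv]
      linear_combination (-(k.2 : ℝ)) * hdet
    have gen : ∀ a b : ℝ, |a| + |b| ≤ K → |(rv k M).1 * a - (rv k M).2 * b| ≤ K * ρ := by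
      intro a b hab
      calc |(rv k M).1 * a - (rv k M).2 * b| ≤ |(rv k M).1 * a| + |(rv k M).2 * b| := abs_sub _ _
        _ = |(rv k M).1| * |a| + |(rv k M).2| * |b| := by rw [abs_mul, abs_mul]
        _ ≤ ρ * |a| + ρ * |b| := add_le_add
            (mul_le_mul_of_nonneg_right hr1 (abs_nonneg _))
            (mul_le_mul_of_nonneg_right hr2 (abs_nonneg _))
        _ = (|a| + |b|) * ρ := by ring
        _ ≤ K * ρ := mul_le_mul_of_nonneg_right hab hρ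
    constructor
    · rw [f1]
      apply gen
      have h1 := abs_nonneg (M 0 0)
      have h2 := abs_nonneg (M 0 1)
      linarith
    · rw [f2, abs_sub_comm]
      apply gen
      have h3 := abs_nonneg (M 1 0)
      have h4 := abs_nonneg (M 1 1)
      linarith
  refine ⟨(2 * K + 1) ^ 2, by positivity, ?_⟩
  intro ρ hρ
  set N : ℤ := ⌊K * ρ⌋ with hN
  have hKρ : 0 ≤ K * ρ := by positivity
  have hN0 : 0 ≤ N := Int.floor_nonneg.2 hKρ
  have hsub : {k : ℤ × ℤ | eu (rv k M) ≤ ρ} ⊆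
      ((Finset.Icc (-N) N ×ˢ Finset.Icc (-N) N : Finset (ℤ × ℤ)) : Set (ℤ × ℤ)) := by
    intro k hk
    obtain ⟨h1, h2⟩ := hbd ρ k hk
    have aux : ∀ a : ℤ, |(a : ℝ)| ≤ K * ρ → -N ≤ a ∧ a ≤ N := by
      intro a ha
      have h3 : ((|a| : ℤ) : ℝ) ≤ K * ρ := by
        rw [Int.cast_abs]; exact ha
      have h4 : |a| ≤ N := Int.le_floor.2 h3
      exact abs_le.1 h4
    simp only [Finset.coe_product, Finset.coe_Icc, mem_prod, mem_Icc]
    exact ⟨aux _ h1, aux _ h2⟩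
  refine ⟨(Finset.finite_toSet _).subset hsub, ?_, ?_⟩
  · have h1 : ({k : ℤ × ℤ | eu (rv k M) ≤ ρ}.ncard) ≤
        (Finset.Icc (-N) N ×ˢ Finset.Icc (-N) N : Finset (ℤ × ℤ)).card := by
      rw [← Set.ncard_coe_finset]
      exact Set.ncard_le_ncard hsub (Finset.finite_toSet _)
    have h2 : (Finset.Icc (-N) N ×ˢ Finset.Icc (-N) N : Finset (ℤ × ℤ)).card =
        (2 * N + 1).toNat * (2 * N + 1).toNat := by
      rw [Finset.card_product, Int.card_Icc]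
      have : N + 1 - -N = 2 * N + 1 := by ring
      rw [this]
    rw [h2] at h1
    have h3 : (({k : ℤ × ℤ | eu (rv k M) ≤ ρ}.ncard : ℕ) : ℝ) ≤
        (((2 * N + 1).toNat * (2 * N + 1).toNat : ℕ) : ℝ) := by exact_mod_cast h1
    refine h3.trans ?_
    have h4 : (((2 * N + 1).toNat : ℕ) : ℝ) = 2 * (N : ℝ) + 1 := by
      have h5 : (((2 * N + 1).toNat : ℕ) : ℤ) = 2 * N + 1 := Int.toNat_of_nonneg (by omega)
      have : ((((2 * N + 1).toNat : ℕ) : ℤ) : ℝ) = ((2 * N + 1 : ℤ) : ℝ) := by rw [h5]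
      rw [Int.cast_natCast] at this
      rw [this]
      push_cast
      ring
    push_cast
    rw [h4]
    have h6 : (N : ℝ) ≤ K * ρ := Int.floor_le _
    have h7 : (0 : ℝ) ≤ N := by exact_mod_cast hN0
    have h8 : 2 * (N : ℝ) + 1 ≤ (2 * K + 1) * (1 + ρ) := by nlinarith
    calc (2 * (N : ℝ) + 1) * (2 * N + 1) ≤ ((2 * K + 1) * (1 + ρ)) * ((2 * K + 1) * (1 + ρ)) :=
          mul_le_mul h8 h8 (by positivity) (by positivity)
      _ = (2 * K + 1) ^ 2 * (1 + ρ) ^ 2 := by ring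
  · intro k hk
    obtain ⟨h1, h2⟩ := hbd ρ k hk
    have h3 : K * ρ ≤ (2 * K + 1) ^ 2 * ρ := by
      apply mul_le_mul_of_nonneg_right _ hρ
      nlinarith
    exact ⟨h1.trans h3, h2.trans h3⟩

end Pool.Agent.ILL
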