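import Pool.Agent.ILL.MgC

/-!
# FDA. Almost every matrix can be reduced into `DD`

`DD = {h : |r₂| ≤ |r₁|, 2 |r₁·r₂| ≤ |r₂|², h₁₀ > 0}` where `r₁`, `r₂` are the rows of `h`.

PROOF. For `k ∈ ℤ²` write `k h = k.1 r₁ + k.2 r₂`. By `muG_col1_ne` and countability, for almost every `h`
all `k ≠ 0` satisfy `k.1 h₀₀ + k.2 h₁₀ ≠ 0`. For such an `h` apply `ModularGroup.exists_smul_mem_fd` to the
point `h • I`, whose imaginary part is `1/|r₂|²`, real part `r₁·r₂/|r₂|²` and squared norm `|r₁|²/|r₂|²`,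
and multiply by `-1` if necessary.
-/

open MeasureTheory Set Filter Topology
open scoped ENNReal NNReal MatrixGroups Modular UpperHalfPlane

namespace Pool.Agent.ILL

/-- the point `h • I` -/
noncomputable def ptI (h : SLR) : ℍ := h • UpperHalfPlane.I

theorem ptI_mul (γ : SLZ) (h : SLR) : ptI (toR γ * h) = γ • ptI h := by
  unfold ptI
  rw [mul_smul]
  apply UpperHalfPlane.ext
  rw [UpperHalfPlane.coe_specialLinearGroup_apply γ, UpperHalfPlane.coe_specialLinearGroup_apply (toR γ)]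
  rfl

instance fda_countable : Countable SLZ :=
  have : Countable (Matrix (Fin 2) (Fin 2) ℤ) := inferInstanceAs (Countable (Fin 2 → Fin 2 → ℤ))
  Subtype.countable

theorem coe_ptI (h : SLR) : (ptI h : ℂ) =
    ((h 0 0 : ℂ) * Complex.I + (h 0 1 : ℂ)) / ((h 1 0 : ℂ) * Complex.I + (h 1 1 : ℂ)) := by
  unfold ptI
  rw [UpperHalfPlane.coe_specialLinearGroup_apply]
  simp

theorem fda_det (h : SLR) : h 0 0 * h 1 1 - h 0 1 * h 1 0 = 1 := by
  have := h.det_coe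
  rwa [Matrix.det_fin_two] at this

theorem fda_row2_pos (h : SLR) : 0 < h 1 0 ^ 2 + h 1 1 ^ 2 := by
  have hd := fda_det h
  by_contra hc
  have h1 : h 1 0 = 0 := by nlinarith [sq_nonneg (h 1 0), sq_nonneg (h 1 1)]
  have h2 : h 1 1 = 0 := by nlinarith [sq_nonneg (h 1 0), sq_nonneg (h 1 1)]
  rw [h1, h2] at hd
  norm_num at hd

theorem ptI_normSq (h : SLR) : Complex.normSq (ptI h : ℂ) =
    (h 0 0 ^ 2 + h 0 1 ^ 2) / (h 1 0 ^ 2 + h 1 1 ^ 2) := by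
  rw [coe_ptI, map_div₀]
  congr 1 <;> simp [Complex.normSq_apply] <;> ring

theorem ptI_re (h : SLR) : (ptI h).re =
    (h 0 0 * h 1 0 + h 0 1 * h 1 1) / (h 1 0 ^ 2 + h 1 1 ^ 2) := by
  have h1 : (ptI h).re = (ptI h : ℂ).re := rfl
  rw [h1, coe_ptI, Complex.div_re]
  have h2 : Complex.normSq ((h 1 0 : ℂ) * Complex.I + (h 1 1 : ℂ)) = h 1 0 ^ 2 + h 1 1 ^ 2 := by
    simp [Complex.normSq_apply]; ring
  rw [h2]
  simp
  ring

theorem ptI_mem_fd (h : SLR) : ptI h ∈ 𝒟 ↔ h 1 0 ^ 2 + h 1 1 ^ 2 ≤ h 0 0 ^ 2 + h 0 1 ^ 2 ∧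
    2 * |h 0 0 * h 1 0 + h 0 1 * h 1 1| ≤ h 1 0 ^ 2 + h 1 1 ^ 2 := by
  have hp := fda_row2_pos h
  have h0 : ptI h ∈ 𝒟 ↔ 1 ≤ Complex.normSq (ptI h : ℂ) ∧ |(ptI h).re| ≤ (1 : ℝ) / 2 := Iff.rfl
  rw [h0, ptI_normSq, ptI_re, one_le_div hp, abs_div, abs_of_pos hp, div_le_div_iff₀ hp two_pos]
  constructor
  · rintro ⟨h1, h2⟩; exact ⟨h1, by linarith⟩
  · rintro ⟨h1, h2⟩; exact ⟨h1, by linarith⟩

theorem ptI_mem_fdo (h : SLR) : ptI h ∈ 𝒟ᵒ ↔ h 1 0 ^ 2 + h 1 1 ^ 2 < h 0 0 ^ 2 + h 0 1 ^ 2 ∧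
    2 * |h 0 0 * h 1 0 + h 0 1 * h 1 1| < h 1 0 ^ 2 + h 1 1 ^ 2 := by
  have hp := fda_row2_pos h
  have h0 : ptI h ∈ 𝒟ᵒ ↔ 1 < Complex.normSq (ptI h : ℂ) ∧ |(ptI h).re| < (1 : ℝ) / 2 := Iff.rfl
  rw [h0, ptI_normSq, ptI_re, one_lt_div hp, abs_div, abs_of_pos hp, div_lt_div_iff₀ hp two_pos]
  constructor
  · rintro ⟨h1, h2⟩; exact ⟨h1, by linarith⟩
  · rintro ⟨h1, h2⟩; exact ⟨h1, by linarith⟩

theorem fda_cont (i j : Fin 2) : Continuous fun h : SLR => (h i j : ℝ) :=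
  (continuous_apply j).comp ((continuous_apply i).comp continuous_subtype_val)

theorem measurableSet_DD : MeasurableSet DD := by
  have c := fun i j => (fda_cont i j).measurable
  have h1 : MeasurableSet {h : SLR | h 1 0 ^ 2 + h 1 1 ^ 2 ≤ h 0 0 ^ 2 + h 0 1 ^ 2} :=
    measurableSet_le (((c 1 0).pow_const 2).add ((c 1 1).pow_const 2))
      (((c 0 0).pow_const 2).add ((c 0 1).pow_const 2))
  have h2 : MeasurableSet {h : SLR |
      2 * |h 0 0 * h 1 0 + h 0 1 * h 1 1| ≤ h 1 0 ^ 2 + h 1 1 ^ 2} := by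
    refine measurableSet_le ?_ (((c 1 0).pow_const 2).add ((c 1 1).pow_const 2))
    exact (measurable_const.mul
      ((continuous_abs.measurable).comp (((c 0 0).mul (c 1 0)).add ((c 0 1).mul (c 1 1)))))
  have h3 : MeasurableSet {h : SLR | 0 < h 1 0} := measurableSet_lt measurable_const (c 1 0)
  exact h1.inter (h2.inter h3)

theorem fda_toR_apply (γ : SLZ) (i j : Fin 2) : toR γ i j = ((γ i j : ℤ) : ℝ) := rfl

theorem dd_cover : ∀ᵐ h ∂muG, ∃ γ : SLZ, toR γ * h ∈ DD := by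
  have hae : ∀ᵐ h ∂muG, ∀ γ : SLZ, ((γ 1 0 : ℤ) : ℝ) * h 0 0 + ((γ 1 1 : ℤ) : ℝ) * h 1 0 ≠ 0 := by
    rw [ae_all_iff]
    intro γ
    refine muG_col1_ne 0 ?_
    by_contra hc
    push Not at hc
    have hd : γ 0 0 * γ 1 1 - γ 0 1 * γ 1 0 = 1 := by
      have := γ.det_coe
      rwa [Matrix.det_fin_two] at this
    have e1 : γ 1 0 = 0 := by exact_mod_cast hc.1
    have e2 : γ 1 1 = 0 := by exact_mod_cast hc.2
    rw [e1, e2] at hd
    norm_num at hd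
  filter_upwards [hae] with h hh
  obtain ⟨γ, hγ⟩ := ModularGroup.exists_smul_mem_fd (ptI h)
  rw [← ptI_mul, ptI_mem_fd] at hγ
  have hne : (toR γ * h) 1 0 ≠ 0 := by
    have e : (toR γ * h) 1 0 = ((γ 1 0 : ℤ) : ℝ) * h 0 0 + ((γ 1 1 : ℤ) : ℝ) * h 1 0 := by
      simp [Matrix.SpecialLinearGroup.coe_mul, Matrix.mul_apply, Fin.sum_univ_two, fda_toR_apply]
    rw [e]; exact hh γ
  rcases lt_or_gt_of_ne hne with hlt | hgt
  · refine ⟨-γ, ?_⟩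
    have e : ∀ i j, (toR (-γ) * h) i j = -((toR γ * h) i j) := by
      intro i j
      have h1 : ∀ k l, toR (-γ) k l = -(toR γ k l) := by
        intro k l; rw [fda_toR_apply, fda_toR_apply]; simp
      simp only [Matrix.SpecialLinearGroup.coe_mul, Matrix.mul_apply, Fin.sum_univ_two, h1]
      ring
    refine ⟨?_, ?_, ?_⟩
    · rw [e, e, e, e]; simpa using hγ.1
    · rw [e, e, e, e]; simpa using hγ.2
    · rw [e]; linarith
  · exact ⟨γ, hγ.1, hγ.2, hgt⟩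

end Pool.Agent.ILL
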