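import Pool.Agent.ILL.EDefs

/-!
# IOT. Asymptotics of the angular integral

Statement: uniformly for `r ≥ 0` and `α ∈ [1,2]`, `|β| ≤ 2`:
`e^{2u} iota φ₁ φ₂ α β u r = Gl φ₁ φ₂ α (r/e^u) + o(1)` as `u → ∞`.

PROOF. `T = e^u`, `ρ = r/T`, `ω = 2πθ`. `iota = ∫_θ φ₁(T²αρ cos ω) φ₂(ρ(β cos ω + α⁻¹ sin ω))`. If the
integrand is nonzero, `|cos ω| ≤ C₀/(T²αρ)` and `c₀ ≤ ρ(|β||cos ω| + 1) ≤ |β|C₀/T² + ρ`, so `ρ ≥ c₀/2` for
`T` large; also `ρ α⁻¹ |sin ω| ≤ C₀ + 2C₀/T²` and `|sin ω| ≥ 1/2`, so `ρ ≤ C₃`. For `ρ` outside `[c₀/2, C₃]` both sides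
vanish (`Gl`: `φ₂(±ρ/α) = 0` if `ρ/α ≤ c₀` or `≥ C₀`; take `C₃ ≥ 2C₀`). For `ρ ∈ [c₀/2, C₃]`: near `ω = π/2` put
`ω = π/2 - σ`, `cos ω = sin σ`, `sin ω = cos σ`, `|σ| ≤ C/T²` on the support; replace `sin σ` by `σ` in
`φ₁(T²αρ sin σ)` (error `≤ L T²αρ|σ|³ = O(T⁻⁴)`) and `φ₂(ρ(β sin σ + α⁻¹cos σ))` by `φ₂(ρ/α)` (error `O(T⁻²)`), both on
a set of `σ` of length `O(T⁻²)`; so this part of `iota` is
`(1/2π) ∫ φ₁(T²αρσ) dσ φ₂(ρ/α) + O(T⁻⁴) = (1/(2παρT²)) (∫φ₁) φ₂(ρ/α) + O(T⁻⁴)`. Near `ω = 3π/2` the same with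
`φ₂(-ρ/α)`. Multiply by `T²`.

`iota_eq`: for a vector `κ` of euclidean length `r`: `κ = r(cos φ, sin φ)`, `κ·e = r cos(φ-ω)`,
`κ·e' = r sin(φ - ω)`; substitute `θ ↦ φ/2π - θ` (period one).
`Gl_lip`: `Gl` is Lipschitz with support in a compact subset of `(0,∞)`.
-/

open MeasureTheory Set Filter Topology
open scoped ENNReal NNReal

namespace Pool.Agent.ILL

/-- a continuous factor from the Lipschitz condition -/
private theorem cont_of_lip {f : ℝ → ℝ} {L : ℝ} (h : ∀ s t, |f s - f t| ≤ L * |s - t|) :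
    Continuous f := by
  have h0 : LipschitzWith (Real.toNNReal L) f := by
    refine LipschitzWith.of_dist_le_mul fun s t => ?_
    rw [Real.dist_eq, Real.dist_eq]
    refine (h s t).trans (mul_le_mul_of_nonneg_right ?_ (abs_nonneg _))
    exact Real.le_coe_toNNReal L
  exact h0.continuous

private theorem sin_sub_le (x : ℝ) : |Real.sin x - x| ≤ |x| ^ 3 / 6 := by
  rcases lt_trichotomy x 0 with h | h | h
  · have h1 := Real.sin_gt_sub_cube (x := -x) (by linarith)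
    have h2 := Real.sin_le (x := -x) (by linarith)
    rw [Real.sin_neg] at h1 h2
    rw [abs_of_neg h, abs_le]
    constructor <;> nlinarith
  · subst h
    simp
  · have h1 := Real.sin_gt_sub_cube h
    have h2 := Real.sin_le h.le
    rw [abs_of_pos h, abs_le]
    constructor <;> nlinarith

private theorem core {φ₁ φ₂ : ℝ → ℝ} {c₀ C₀ L : ℝ} (h : PC φ₁ φ₂ c₀ C₀ L) {C₁ : ℝ} (hC : C₀ ≤ C₁)
    (hC1 : 0 < C₁) {M ρ β τ : ℝ} (hM : 0 < M) (hρ : 0 ≤ ρ) (hβ : |β| ≤ 2) (hτ : |τ| ≤ 1)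
    (hδ : C₁ / (4 * M) ≤ 1 / 8) :
    |(∫ s in (-(1 / 4) : ℝ)..(1 / 4), φ₁ (M * Real.sin (2 * Real.pi * s)) *
        φ₂ (ρ * (β * Real.sin (2 * Real.pi * s) + τ * Real.cos (2 * Real.pi * s)))) -
      (1 / (2 * Real.pi * M)) * (∫ t, φ₁ t) * φ₂ (ρ * τ)| ≤
      (L ^ 2 * (2 * C₁ ^ 3 / M ^ 2 + 5 * C₁ * ρ / M)) * (C₁ / (2 * M)) := by
  set δ := C₁ / (4 * M) with hδd
  have hδ0 : 0 < δ := div_pos hC1 (by linarith)
  have hMδ : M * δ = C₁ / 4 := by
    rw [hδd]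
    field_simp
  have hpi := Real.pi_pos
  have hpi3 := Real.pi_gt_three
  have hpi4 := Real.pi_le_four
  have hφ1 : Continuous φ₁ := cont_of_lip h.lip1
  have hφ2 : Continuous φ₂ := cont_of_lip h.lip2
  set F : ℝ → ℝ := fun s => φ₁ (M * Real.sin (2 * Real.pi * s)) *
        φ₂ (ρ * (β * Real.sin (2 * Real.pi * s) + τ * Real.cos (2 * Real.pi * s))) with hF
  set G : ℝ → ℝ := fun s => φ₁ (M * (2 * Real.pi) * s) * φ₂ (ρ * τ) with hG
  have hFc : Continuous F := by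
    rw [hF]
    fun_prop
  have hGc : Continuous G := by
    rw [hG]
    fun_prop
  have hF0 : ∀ s, δ ≤ |s| → |s| ≤ 1 / 4 → F s = 0 := by
    intro s h1 h2
    have h3 : 4 * |s| ≤ |Real.sin (2 * Real.pi * s)| := by
      have := Real.mul_abs_le_abs_sin (x := 2 * Real.pi * s) (by
        rw [abs_mul, abs_of_pos (by positivity : (0 : ℝ) < 2 * Real.pi)]
        nlinarith)
      rw [abs_mul, abs_of_pos (by positivity : (0 : ℝ) < 2 * Real.pi)] at this
      have e : 2 / Real.pi * (2 * Real.pi * |s|) = 4 * |s| := by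
        field_simp
        ring
      rwa [e] at this
    have h4 : C₀ ≤ |M * Real.sin (2 * Real.pi * s)| := by
      rw [abs_mul, abs_of_pos hM]
      nlinarith
    rw [hF]
    simp only
    rw [h.sup1 _ h4, zero_mul]
  have hG0 : ∀ s, δ ≤ |s| → G s = 0 := by
    intro s h1
    have h4 : C₀ ≤ |M * (2 * Real.pi) * s| := by
      rw [abs_mul, abs_of_pos (by positivity : (0 : ℝ) < M * (2 * Real.pi))]
      have : M * δ ≤ M * |s| := mul_le_mul_of_nonneg_left h1 hM.le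
      nlinarith
    rw [hG]
    simp only
    rw [h.sup1 _ h4, zero_mul]
  have iF : ∀ a b : ℝ, IntervalIntegrable F volume a b := fun a b => hFc.intervalIntegrable a b
  have iG : ∀ a b : ℝ, IntervalIntegrable G volume a b := fun a b => hGc.intervalIntegrable a b
  have eF : ∫ s in (-(1 / 4) : ℝ)..(1 / 4), F s = ∫ s in (-δ)..δ, F s := by
    rw [← intervalIntegral.integral_add_adjacent_intervals (iF (-(1 / 4)) (-δ)) (iF (-δ) (1 / 4)),
      ← intervalIntegral.integral_add_adjacent_intervals (iF (-δ) δ) (iF δ (1 / 4))]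
    have e1 : ∫ s in (-(1 / 4) : ℝ)..(-δ), F s = 0 := by
      rw [intervalIntegral.integral_congr (g := fun _ => (0 : ℝ))]
      · simp
      · intro s hs
        rw [uIcc_of_le (by linarith)] at hs
        refine hF0 s ?_ ?_
        · rw [abs_of_nonpos (by linarith [hs.2])]
          linarith [hs.2]
        · rw [abs_of_nonpos (by linarith [hs.2])]
          linarith [hs.1]
    have e2 : ∫ s in δ..(1 / 4 : ℝ), F s = 0 := by
      rw [intervalIntegral.integral_congr (g := fun _ => (0 : ℝ))]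
      · simp
      · intro s hs
        rw [uIcc_of_le (by linarith)] at hs
        refine hF0 s ?_ ?_
        · rw [abs_of_nonneg (by linarith [hs.1])]
          linarith [hs.1]
        · rw [abs_of_nonneg (by linarith [hs.1])]
          linarith [hs.2]
    rw [e1, e2]
    ring
  have eG : (1 / (2 * Real.pi * M)) * (∫ t, φ₁ t) * φ₂ (ρ * τ) = ∫ s in (-δ)..δ, G s := by
    rw [intervalIntegral.integral_eq_integral_of_support_subset (a := -δ) (b := δ)]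
    · rw [hG, integral_mul_const, MeasureTheory.Measure.integral_comp_mul_left φ₁ (M * (2 * Real.pi)),
        abs_of_pos (by positivity), smul_eq_mul]
      rw [show M * (2 * Real.pi) = 2 * Real.pi * M by ring, one_div]
    · intro s hs
      rw [Function.mem_support] at hs
      have : |s| < δ := by
        by_contra hc
        exact hs (hG0 s (not_lt.1 hc))
      rw [abs_lt] at this
      exact ⟨this.1, this.2.le⟩
  change |(∫ s in (-(1 / 4) : ℝ)..(1 / 4), F s) - _| ≤ _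
  rw [eF, eG, ← intervalIntegral.integral_sub (iF _ _) (iG _ _)]
  have hL := h.L_pos
  have key : ∀ s ∈ uIoc (-δ) δ, ‖F s - G s‖ ≤ L ^ 2 * (2 * C₁ ^ 3 / M ^ 2 + 5 * C₁ * ρ / M) := by
    intro s hs
    rw [uIoc_of_le (by linarith)] at hs
    have hs' : |s| ≤ δ := abs_le.2 ⟨hs.1.le, hs.2⟩
    set x := 2 * Real.pi * s with hx
    have hxa : |x| = 2 * Real.pi * |s| := by
      rw [hx, abs_mul, abs_of_pos (by positivity : (0 : ℝ) < 2 * Real.pi)]
    have hx0 : 0 ≤ |x| := abs_nonneg x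
    have hMx : M * |x| ≤ 2 * C₁ := by
      rw [hxa]
      have : M * |s| ≤ C₁ / 4 := by
        rw [← hMδ]
        exact mul_le_mul_of_nonneg_left hs' hM.le
      have h5 : (0 : ℝ) ≤ M * |s| := by positivity
      nlinarith
    have hx1 : |x| ≤ 1 := by
      rw [hxa]
      nlinarith [abs_nonneg s]
    have b1 : |φ₁ (M * Real.sin x) - φ₁ (M * x)| ≤ L * (M * (|x| ^ 3 / 6)) := by
      refine (h.lip1 _ _).trans (mul_le_mul_of_nonneg_left ?_ hL.le)
      rw [← mul_sub, abs_mul, abs_of_pos hM]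
      exact mul_le_mul_of_nonneg_left (sin_sub_le x) hM.le
    have b2 : |φ₂ (ρ * (β * Real.sin x + τ * Real.cos x)) - φ₂ (ρ * τ)| ≤
        L * (ρ * (2 * |x| + |x| ^ 2 / 2)) := by
      refine (h.lip2 _ _).trans (mul_le_mul_of_nonneg_left ?_ hL.le)
      rw [← mul_sub, abs_mul, abs_of_nonneg hρ]
      refine mul_le_mul_of_nonneg_left ?_ hρ
      have e : β * Real.sin x + τ * Real.cos x - τ = β * Real.sin x + τ * (Real.cos x - 1) := by ring
      rw [e]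
      refine (abs_add_le _ _).trans (add_le_add ?_ ?_)
      · rw [abs_mul]
        exact mul_le_mul hβ Real.abs_sin_le_abs (abs_nonneg _) (by norm_num)
      · rw [abs_mul]
        have h6 : |Real.cos x - 1| ≤ |x| ^ 2 / 2 := by
          rw [abs_of_nonpos (by linarith [Real.cos_le_one x]), sq_abs]
          linarith [Real.one_sub_sq_div_two_le_cos (x := x)]
        have h7 : (0 : ℝ) ≤ |Real.cos x - 1| := abs_nonneg _
        nlinarith [abs_nonneg τ]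
    have e : F s - G s = (φ₁ (M * Real.sin x) - φ₁ (M * x)) *
        φ₂ (ρ * (β * Real.sin x + τ * Real.cos x)) +
        φ₁ (M * x) * (φ₂ (ρ * (β * Real.sin x + τ * Real.cos x)) - φ₂ (ρ * τ)) := by
      rw [hF, hG]
      simp only
      rw [show M * (2 * Real.pi) * s = M * x by rw [hx]; ring]
      ring
    rw [Real.norm_eq_abs, e]
    refine (abs_add_le _ _).trans ?_
    rw [abs_mul, abs_mul]
    have b3 := mul_le_mul b1 (h.bd2 (ρ * (β * Real.sin x + τ * Real.cos x))) (abs_nonneg _)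
      (by positivity)
    have b4 := mul_le_mul (h.bd1 (M * x)) b2 (abs_nonneg _) hL.le
    refine (add_le_add b3 b4).trans ?_
    have c1 : M * (|x| ^ 3 / 6) ≤ 2 * C₁ ^ 3 / M ^ 2 := by
      rw [le_div_iff₀ (by positivity)]
      have : (M * |x|) ^ 3 ≤ (2 * C₁) ^ 3 := pow_le_pow_left₀ (by positivity) hMx 3
      nlinarith [pow_pos hC1 3]
    have c2 : ρ * (2 * |x| + |x| ^ 2 / 2) ≤ 5 * C₁ * ρ / M := by
      rw [le_div_iff₀ hM]
      have : |x| ^ 2 ≤ |x| := by nlinarith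
      have c3 : ρ * (M * |x|) ≤ ρ * (2 * C₁) := mul_le_mul_of_nonneg_left hMx hρ
      have c4 : (0 : ℝ) ≤ ρ * M := by positivity
      have c6 := mul_le_mul_of_nonneg_left this c4
      calc ρ * (2 * |x| + |x| ^ 2 / 2) * M = 2 * (ρ * (M * |x|)) + ρ * M * |x| ^ 2 / 2 := by ring
        _ ≤ 2 * (ρ * (M * |x|)) + ρ * M * |x| / 2 := by linarith
        _ = 5 / 2 * (ρ * (M * |x|)) := by ring
        _ ≤ 5 / 2 * (ρ * (2 * C₁)) := by linarith
        _ = 5 * C₁ * ρ := by ring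
    have c5 : (0 : ℝ) ≤ L ^ 2 := by positivity
    calc L * (M * (|x| ^ 3 / 6)) * L + L * (L * (ρ * (2 * |x| + |x| ^ 2 / 2))) =
        L ^ 2 * (M * (|x| ^ 3 / 6) + ρ * (2 * |x| + |x| ^ 2 / 2)) := by ring
      _ ≤ _ := mul_le_mul_of_nonneg_left (add_le_add c1 c2) c5
  have := intervalIntegral.norm_integral_le_of_norm_le_const key
  rw [Real.norm_eq_abs] at this
  refine this.trans (le_of_eq ?_)
  congr 1
  rw [sub_neg_eq_add, abs_of_pos (by linarith), hδd]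
  field_simp
  ring

/-- the splitting of the angular integral -/
private theorem iota_split {φ₁ φ₂ : ℝ → ℝ} {c₀ C₀ L : ℝ} (h : PC φ₁ φ₂ c₀ C₀ L) (α β u r : ℝ) :
    iota φ₁ φ₂ α β u r =
      (∫ s in (-(1 / 4) : ℝ)..(1 / 4), φ₁ (Real.exp u * α * r * Real.sin (2 * Real.pi * s)) *
        φ₂ (Real.exp (-u) * r * (β * Real.sin (2 * Real.pi * s) +
          α⁻¹ * Real.cos (2 * Real.pi * s)))) +
      ∫ s in (-(1 / 4) : ℝ)..(1 / 4), φ₁ (Real.exp u * α * r * Real.sin (2 * Real.pi * s)) *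
        φ₂ (Real.exp (-u) * r * (β * Real.sin (2 * Real.pi * s) +
          (-α⁻¹) * Real.cos (2 * Real.pi * s))) := by
  have hφ1 : Continuous φ₁ := cont_of_lip h.lip1
  have hφ2 : Continuous φ₂ := cont_of_lip h.lip2
  set f : ℝ → ℝ := fun θ => φ₁ (Real.exp u * α * r * Real.cos (2 * Real.pi * θ)) *
    φ₂ (Real.exp (-u) * r *
      (β * Real.cos (2 * Real.pi * θ) + α⁻¹ * Real.sin (2 * Real.pi * θ))) with hf
  have hfc : Continuous f := by
    rw [hf]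
    fun_prop
  have e0 : iota φ₁ φ₂ α β u r = ∫ θ in (0 : ℝ)..1, f θ := rfl
  rw [e0, ← intervalIntegral.integral_add_adjacent_intervals (hfc.intervalIntegrable 0 (1 / 2))
    (hfc.intervalIntegrable (1 / 2) 1)]
  congr 1
  · have := intervalIntegral.integral_comp_sub_left (a := -(1 / 4)) (b := 1 / 4) f (1 / 4)
    rw [show (1 / 4 : ℝ) - 1 / 4 = 0 by norm_num, show (1 / 4 : ℝ) - -(1 / 4) = 1 / 2 by norm_num] at this
    rw [← this]
    refine intervalIntegral.integral_congr fun s _ => ?_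
    rw [hf]
    simp only
    rw [show 2 * Real.pi * (1 / 4 - s) = Real.pi / 2 - 2 * Real.pi * s by ring,
      Real.cos_pi_div_two_sub, Real.sin_pi_div_two_sub]
  · have := intervalIntegral.integral_comp_add_left (a := -(1 / 4)) (b := 1 / 4) f (3 / 4)
    rw [show (3 / 4 : ℝ) + 1 / 4 = 1 by norm_num, show (3 / 4 : ℝ) + -(1 / 4) = 1 / 2 by norm_num] at this
    rw [← this]
    refine intervalIntegral.integral_congr fun s _ => ?_
    rw [hf]
    simp only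
    rw [show 2 * Real.pi * (3 / 4 + s) = (2 * Real.pi * s + Real.pi / 2) + Real.pi by ring,
      Real.cos_add_pi, Real.sin_add_pi, Real.cos_add_pi_div_two, Real.sin_add_pi_div_two, neg_neg,
      mul_neg, neg_mul]

theorem iota_asym {φ₁ φ₂ : ℝ → ℝ} {c₀ C₀ L : ℝ} (h : PC φ₁ φ₂ c₀ C₀ L) {ε : ℝ} (hε : 0 < ε) :
    ∃ u₀ : ℝ, ∀ (α β u r : ℝ), 1 ≤ α → α ≤ 2 → |β| ≤ 2 → u₀ ≤ u → 0 ≤ r →
      |Real.exp (2 * u) * iota φ₁ φ₂ α β u r - Gl φ₁ φ₂ α (r / Real.exp u)| ≤ ε := by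
  set C₁ := |C₀| + 1 with hC₁
  have hC : C₀ ≤ C₁ := by
    have := le_abs_self C₀
    linarith
  have hC1 : 0 < C₁ := by positivity
  have hc := h.c_pos
  have hL := h.L_pos
  set K := L ^ 2 * (18 * C₁ ^ 3 / c₀ ^ 2 + 5 * C₁) * (3 * C₁ / (2 * c₀)) with hK
  have hK0 : 0 < K := by positivity
  -- choose `T₀` with `T₀² ≥ 1`, `T₀² ≥ 6 C₁ / c₀`, `2 K / T₀² ≤ ε`
  set A := 1 + 6 * C₁ / c₀ + 2 * K / ε with hA
  have hA1 : 1 ≤ A := by
    have : 0 ≤ 6 * C₁ / c₀ + 2 * K / ε := by positivity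
    linarith
  refine ⟨Real.log A, fun α β u r h1 h2 hβ hu hr => ?_⟩
  have hα : 0 < α := by linarith
  have hT : 0 < Real.exp u := Real.exp_pos u
  have hTA : A ≤ Real.exp u := by
    rw [← Real.log_le_iff_le_exp (by linarith)]
    exact hu
  have hTA2 : A ≤ Real.exp u ^ 2 := by nlinarith
  have e2u : Real.exp (2 * u) = Real.exp u ^ 2 := by
    rw [← Real.exp_nat_mul]
    norm_num
  set T := Real.exp u with hTd
  set ρ := r / T with hρ
  have hρ0 : 0 ≤ ρ := div_nonneg hr hT.le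
  have eρ : Real.exp (-u) * r = ρ := by
    rw [Real.exp_neg, hρ, div_eq_inv_mul]
  have eM : T * α * r = T ^ 2 * α * ρ := by
    rw [hρ]
    field_simp
  by_cases hsmall : ρ ≤ c₀ / 3
  · -- both sides vanish
    have z1 : iota φ₁ φ₂ α β u r = 0 := by
      unfold iota
      rw [intervalIntegral.integral_congr (g := fun _ => (0 : ℝ))]
      · simp
      · intro θ _
        simp only
        rw [eρ, h.near, mul_zero]
        rw [abs_mul, abs_of_nonneg hρ0]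
        have i1 : |β * Real.cos (2 * Real.pi * θ) + α⁻¹ * Real.sin (2 * Real.pi * θ)| ≤ 3 := by
          refine (abs_add_le _ _).trans ?_
          rw [abs_mul, abs_mul, abs_of_pos (inv_pos.2 hα)]
          have j1 := Real.abs_cos_le_one (2 * Real.pi * θ)
          have j2 := Real.abs_sin_le_one (2 * Real.pi * θ)
          have j3 : α⁻¹ ≤ 1 := inv_le_one_of_one_le₀ h1
          have j4 : 0 < α⁻¹ := inv_pos.2 hα
          nlinarith [abs_nonneg β, abs_nonneg (Real.cos (2 * Real.pi * θ)),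
            abs_nonneg (Real.sin (2 * Real.pi * θ))]
        nlinarith [abs_nonneg (β * Real.cos (2 * Real.pi * θ) + α⁻¹ * Real.sin (2 * Real.pi * θ))]
    have i2 : |ρ / α| ≤ c₀ := by
      rw [abs_of_nonneg (div_nonneg hρ0 hα.le), div_le_iff₀ hα]
      nlinarith
    have z2 : Gl φ₁ φ₂ α ρ = 0 := by
      unfold Gl
      rw [h.near _ i2, h.near _ (by rw [abs_neg]; exact i2)]
      simp
    rw [z1, z2]
    simpa using hε.le
  · have hρ1 : c₀ / 3 < ρ := not_le.1 hsmall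
    have hρp : 0 < ρ := lt_trans (by positivity) hρ1
    set M := T ^ 2 * α * ρ with hM
    have hM0 : 0 < M := by positivity
    have hMT : T ^ 2 * ρ ≤ M := by
      rw [hM]
      nlinarith [mul_pos (pow_pos hT 2) hρp]
    have hMc : T ^ 2 * (c₀ / 3) ≤ M := by
      refine le_trans ?_ hMT
      exact mul_le_mul_of_nonneg_left hρ1.le (by positivity)
    have hδ : C₁ / (4 * M) ≤ 1 / 8 := by
      rw [div_le_iff₀ (by positivity)]
      have i3 : 6 * C₁ / c₀ ≤ T ^ 2 := by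
        refine le_trans ?_ hTA2
        have : 0 ≤ 2 * K / ε := by positivity
        linarith
      rw [div_le_iff₀ hc] at i3
      nlinarith
    have hinv : |α⁻¹| ≤ 1 := by
      rw [abs_of_pos (inv_pos.2 hα)]
      exact inv_le_one_of_one_le₀ h1
    have k1 := core h hC hC1 (τ := α⁻¹) hM0 hρ0 hβ hinv hδ
    have k2 := core h hC hC1 (τ := -α⁻¹) hM0 hρ0 hβ (by rwa [abs_neg]) hδ
    rw [iota_split h, eM, eρ, e2u]
    set X := ∫ s in (-(1 / 4) : ℝ)..(1 / 4), φ₁ (M * Real.sin (2 * Real.pi * s)) *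
        φ₂ (ρ * (β * Real.sin (2 * Real.pi * s) + α⁻¹ * Real.cos (2 * Real.pi * s)))
    set Y := ∫ s in (-(1 / 4) : ℝ)..(1 / 4), φ₁ (M * Real.sin (2 * Real.pi * s)) *
        φ₂ (ρ * (β * Real.sin (2 * Real.pi * s) + (-α⁻¹) * Real.cos (2 * Real.pi * s)))
    have eG : Gl φ₁ φ₂ α ρ = T ^ 2 * ((1 / (2 * Real.pi * M)) * (∫ t, φ₁ t) * φ₂ (ρ * α⁻¹) +
        (1 / (2 * Real.pi * M)) * (∫ t, φ₁ t) * φ₂ (ρ * -α⁻¹)) := by
      unfold Gl
      rw [show ρ / α = ρ * α⁻¹ from div_eq_mul_inv _ _, mul_neg, hM]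
      have := Real.pi_pos
      field_simp
    rw [eG]
    have e3 : T ^ 2 * (X + Y) - T ^ 2 * ((1 / (2 * Real.pi * M)) * (∫ t, φ₁ t) * φ₂ (ρ * α⁻¹) +
        (1 / (2 * Real.pi * M)) * (∫ t, φ₁ t) * φ₂ (ρ * -α⁻¹)) =
        T ^ 2 * ((X - (1 / (2 * Real.pi * M)) * (∫ t, φ₁ t) * φ₂ (ρ * α⁻¹)) +
          (Y - (1 / (2 * Real.pi * M)) * (∫ t, φ₁ t) * φ₂ (ρ * -α⁻¹))) := by ring
    rw [e3, abs_mul, abs_of_pos (by positivity : (0 : ℝ) < T ^ 2)]
    have k3 : |(X - (1 / (2 * Real.pi * M)) * (∫ t, φ₁ t) * φ₂ (ρ * α⁻¹)) +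
          (Y - (1 / (2 * Real.pi * M)) * (∫ t, φ₁ t) * φ₂ (ρ * -α⁻¹))| ≤
        2 * ((L ^ 2 * (2 * C₁ ^ 3 / M ^ 2 + 5 * C₁ * ρ / M)) * (C₁ / (2 * M))) := by
      refine (abs_add_le _ _).trans ?_
      linarith
    refine (mul_le_mul_of_nonneg_left k3 (by positivity)).trans ?_
    -- the final estimate
    have m1 : C₁ / (2 * M) * T ^ 2 ≤ 3 * C₁ / (2 * c₀) := by
      rw [div_mul_eq_mul_div, div_le_div_iff₀ (by positivity) (by positivity)]
      have m0 := mul_le_mul_of_nonneg_left hMc (by positivity : (0 : ℝ) ≤ 6 * C₁)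
      calc C₁ * T ^ 2 * (2 * c₀) = 6 * C₁ * (T ^ 2 * (c₀ / 3)) := by ring
        _ ≤ 6 * C₁ * M := m0
        _ = _ := by ring
    have hT1 : 1 ≤ T ^ 2 := hA1.trans hTA2
    have m2 : 2 * C₁ ^ 3 / M ^ 2 ≤ (18 * C₁ ^ 3 / c₀ ^ 2) / T ^ 2 := by
      rw [div_div, div_le_div_iff₀ (by positivity) (by positivity)]
      have m3 : (T ^ 2 * (c₀ / 3)) ^ 2 ≤ M ^ 2 := pow_le_pow_left₀ (by positivity) hMc 2
      have m4 : c₀ ^ 2 * T ^ 2 ≤ 9 * M ^ 2 := by
        have m30 : T ^ 2 ≤ (T ^ 2) ^ 2 := by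
          rw [sq (T ^ 2)]
          exact le_mul_of_one_le_left (by positivity) hT1
        calc c₀ ^ 2 * T ^ 2 ≤ c₀ ^ 2 * (T ^ 2) ^ 2 := mul_le_mul_of_nonneg_left m30 (by positivity)
          _ = 9 * (T ^ 2 * (c₀ / 3)) ^ 2 := by ring
          _ ≤ 9 * M ^ 2 := by linarith
      have m40 := mul_le_mul_of_nonneg_left m4 (by positivity : (0 : ℝ) ≤ 2 * C₁ ^ 3)
      calc 2 * C₁ ^ 3 * (c₀ ^ 2 * T ^ 2) ≤ 2 * C₁ ^ 3 * (9 * M ^ 2) := m40
        _ = _ := by ring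
    have m5 : 5 * C₁ * ρ / M ≤ 5 * C₁ / T ^ 2 := by
      rw [div_le_div_iff₀ hM0 (by positivity)]
      have m50 := mul_le_mul_of_nonneg_left hMT (by positivity : (0 : ℝ) ≤ 5 * C₁)
      calc 5 * C₁ * ρ * T ^ 2 = 5 * C₁ * (T ^ 2 * ρ) := by ring
        _ ≤ _ := m50
    have m6 : L ^ 2 * (2 * C₁ ^ 3 / M ^ 2 + 5 * C₁ * ρ / M) ≤
        L ^ 2 * (18 * C₁ ^ 3 / c₀ ^ 2 + 5 * C₁) / T ^ 2 := by
      have m60 : 2 * C₁ ^ 3 / M ^ 2 + 5 * C₁ * ρ / M ≤
          (18 * C₁ ^ 3 / c₀ ^ 2 + 5 * C₁) / T ^ 2 := by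
        rw [add_div]
        exact add_le_add m2 m5
      have m61 := mul_le_mul_of_nonneg_left m60 (by positivity : (0 : ℝ) ≤ L ^ 2)
      calc _ ≤ L ^ 2 * ((18 * C₁ ^ 3 / c₀ ^ 2 + 5 * C₁) / T ^ 2) := m61
        _ = _ := by ring
    have m7 : T ^ 2 * (2 * ((L ^ 2 * (2 * C₁ ^ 3 / M ^ 2 + 5 * C₁ * ρ / M)) * (C₁ / (2 * M)))) =
        2 * ((L ^ 2 * (2 * C₁ ^ 3 / M ^ 2 + 5 * C₁ * ρ / M)) * (C₁ / (2 * M) * T ^ 2)) := by ring
    rw [m7]
    have m8 := mul_le_mul m6 m1 (by positivity) (by positivity)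
    have m9 : L ^ 2 * (18 * C₁ ^ 3 / c₀ ^ 2 + 5 * C₁) / T ^ 2 * (3 * C₁ / (2 * c₀)) = K / T ^ 2 := by
      rw [hK]
      ring
    rw [m9] at m8
    have m10 : 2 * K / ε ≤ T ^ 2 := by
      refine le_trans ?_ hTA2
      have : 0 ≤ 6 * C₁ / c₀ := by positivity
      linarith
    rw [div_le_iff₀ hε] at m10
    have m11 : 2 * (K / T ^ 2) ≤ ε := by
      rw [← mul_div_assoc, div_le_iff₀ (by positivity)]
      linarith
    linarith

theorem iota_eq {φ₁ φ₂ : ℝ → ℝ} (α β u : ℝ) (κ : Pl) :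
    ∫ θ in (0 : ℝ)..1, φ₁ (Real.exp u * (α * (κ.1 * Real.cos (2 * Real.pi * θ) +
          κ.2 * Real.sin (2 * Real.pi * θ)))) *
      φ₂ (Real.exp (-u) * (β * (κ.1 * Real.cos (2 * Real.pi * θ) +
          κ.2 * Real.sin (2 * Real.pi * θ)) +
          α⁻¹ * (-κ.1 * Real.sin (2 * Real.pi * θ) + κ.2 * Real.cos (2 * Real.pi * θ)))) =
    iota φ₁ φ₂ α β u (eu κ) := by
  have hpi := Real.pi_pos
  set z : ℂ := ⟨κ.1, κ.2⟩ with hz
  have hn : ‖z‖ = eu κ := by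
    rw [Complex.norm_def, Complex.normSq_apply]
    unfold eu
    congr 1
    ring
  set φ := Complex.arg z with hφ
  have e1 : κ.1 = eu κ * Real.cos φ := by
    rw [← hn, Complex.norm_mul_cos_arg]
  have e2 : κ.2 = eu κ * Real.sin φ := by
    rw [← hn, Complex.norm_mul_sin_arg]
  set r := eu κ with hr
  set t := φ / (2 * Real.pi) with ht
  set g : ℝ → ℝ := fun θ => φ₁ (Real.exp u * α * r * Real.cos (2 * Real.pi * θ)) *
    φ₂ (Real.exp (-u) * r *
      (β * Real.cos (2 * Real.pi * θ) + α⁻¹ * Real.sin (2 * Real.pi * θ))) with hg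
  have hper : Function.Periodic g 1 := by
    intro θ
    rw [hg]
    simp only
    rw [mul_add, mul_one, Real.cos_add_two_pi, Real.sin_add_two_pi]
  have e3 : ∀ θ : ℝ, φ₁ (Real.exp u * (α * (κ.1 * Real.cos (2 * Real.pi * θ) +
          κ.2 * Real.sin (2 * Real.pi * θ)))) *
      φ₂ (Real.exp (-u) * (β * (κ.1 * Real.cos (2 * Real.pi * θ) +
          κ.2 * Real.sin (2 * Real.pi * θ)) +
          α⁻¹ * (-κ.1 * Real.sin (2 * Real.pi * θ) + κ.2 * Real.cos (2 * Real.pi * θ)))) =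
      g (t - θ) := by
    intro θ
    have c1 : 2 * Real.pi * (t - θ) = φ - 2 * Real.pi * θ := by
      rw [ht]
      field_simp
    have c2 : κ.1 * Real.cos (2 * Real.pi * θ) + κ.2 * Real.sin (2 * Real.pi * θ) =
        r * Real.cos (φ - 2 * Real.pi * θ) := by
      rw [e1, e2, Real.cos_sub]
      ring
    have c3 : -κ.1 * Real.sin (2 * Real.pi * θ) + κ.2 * Real.cos (2 * Real.pi * θ) =
        r * Real.sin (φ - 2 * Real.pi * θ) := by
      rw [e1, e2, Real.sin_sub]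
      ring
    rw [hg]
    simp only
    rw [c1, c2, c3]
    congr 1
    · congr 1
      ring
    · congr 1
      ring
  rw [intervalIntegral.integral_congr (g := fun θ => g (t - θ)) fun θ _ => e3 θ,
    intervalIntegral.integral_comp_sub_left g t]
  have := hper.intervalIntegral_add_eq (t - 1) 0
  rw [show t - 1 + 1 = t - 0 by ring, zero_add] at this
  rw [this]
  rfl

/-- `Gl` on the half line, extended by zero: Lipschitz, bounded, zero near `0` and for large arguments -/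
theorem Gl_lip {φ₁ φ₂ : ℝ → ℝ} {c₀ C₀ L : ℝ} (h : PC φ₁ φ₂ c₀ C₀ L) {α : ℝ} (h1 : 1 ≤ α)
    (h2 : α ≤ 2) : ∃ G : ℝ → ℝ, (∀ ρ, 0 ≤ ρ → G ρ = Gl φ₁ φ₂ α ρ) ∧
      ∃ c > 0, ∃ C > c, ∃ L' > 0, (∀ ρ, ρ ≤ c → G ρ = 0) ∧ (∀ ρ, C ≤ ρ → G ρ = 0) ∧
        (∀ ρ ρ', |G ρ - G ρ'| ≤ L' * |ρ - ρ'|) ∧ (∀ ρ, |G ρ| ≤ L') := by
  have hc := h.c_pos
  have hL := h.L_pos
  have hα : 0 < α := by linarith
  have hpi := Real.pi_gt_three
  set I := ∫ t, φ₁ t with hI
  set ψ : ℝ → ℝ := fun ρ => φ₂ (max ρ 0 / α) + φ₂ (-(max ρ 0 / α)) with hψ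
  set κ : ℝ → ℝ := fun ρ => 1 / max ρ c₀ with hκ
  set q := I / (2 * Real.pi * α) with hq
  have hq' : |q| ≤ |I| := by
    rw [hq, abs_div, abs_of_pos (by positivity : (0 : ℝ) < 2 * Real.pi * α), div_le_iff₀ (by positivity)]
    have : (1 : ℝ) ≤ 2 * Real.pi * α := by nlinarith
    nlinarith [abs_nonneg I]
  have hψ0 : ∀ ρ, ρ ≤ c₀ → ψ ρ = 0 := by
    intro ρ hρ
    have i1 : |max ρ 0 / α| ≤ c₀ := by
      rw [abs_of_nonneg (div_nonneg (le_max_right _ _) hα.le), div_le_iff₀ hα]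
      have : max ρ 0 ≤ c₀ := max_le hρ hc.le
      nlinarith
    rw [hψ]
    simp only
    rw [h.near _ i1, h.near _ (by rw [abs_neg]; exact i1), add_zero]
  have hψb : ∀ ρ, |ψ ρ| ≤ 2 * L := by
    intro ρ
    rw [hψ]
    simp only
    refine (abs_add_le _ _).trans ?_
    have := h.bd2 (max ρ 0 / α)
    have := h.bd2 (-(max ρ 0 / α))
    linarith
  have hψl : ∀ ρ ρ', |ψ ρ - ψ ρ'| ≤ 2 * L * |ρ - ρ'| := by
    intro ρ ρ'
    have m0 : |max ρ 0 / α - max ρ' 0 / α| ≤ |ρ - ρ'| := by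
      rw [← sub_div, abs_div, abs_of_pos hα, div_le_iff₀ hα]
      have := abs_max_sub_max_le_abs ρ ρ' 0
      nlinarith [abs_nonneg (ρ - ρ')]
    have m1 := h.lip2 (max ρ 0 / α) (max ρ' 0 / α)
    have m2 := h.lip2 (-(max ρ 0 / α)) (-(max ρ' 0 / α))
    have m3 : |-(max ρ 0 / α) - -(max ρ' 0 / α)| = |max ρ 0 / α - max ρ' 0 / α| := by
      rw [← abs_neg]
      congr 1
      ring
    rw [m3] at m2
    have m4 : ψ ρ - ψ ρ' = (φ₂ (max ρ 0 / α) - φ₂ (max ρ' 0 / α)) +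
        (φ₂ (-(max ρ 0 / α)) - φ₂ (-(max ρ' 0 / α))) := by
      rw [hψ]
      simp only
      ring
    rw [m4]
    refine (abs_add_le _ _).trans ?_
    have m5 := mul_le_mul_of_nonneg_left m0 hL.le
    linarith
  have hκb : ∀ ρ, |κ ρ| ≤ 1 / c₀ := by
    intro ρ
    rw [hκ]
    simp only
    have : c₀ ≤ max ρ c₀ := le_max_right _ _
    rw [abs_of_pos (by positivity)]
    exact one_div_le_one_div_of_le hc this
  have hκl : ∀ ρ ρ', |κ ρ - κ ρ'| ≤ 1 / c₀ ^ 2 * |ρ - ρ'| := by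
    intro ρ ρ'
    have n1 : c₀ ≤ max ρ c₀ := le_max_right _ _
    have n2 : c₀ ≤ max ρ' c₀ := le_max_right _ _
    have p1 : 0 < max ρ c₀ := lt_of_lt_of_le hc n1
    have p2 : 0 < max ρ' c₀ := lt_of_lt_of_le hc n2
    have n3 : κ ρ - κ ρ' = (max ρ' c₀ - max ρ c₀) / (max ρ c₀ * max ρ' c₀) := by
      rw [hκ]
      simp only
      rw [div_sub_div _ _ p1.ne' p2.ne']
      ring
    rw [n3, abs_div, abs_of_pos (mul_pos p1 p2), div_le_iff₀ (mul_pos p1 p2)]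
    have n4 : |max ρ' c₀ - max ρ c₀| ≤ |ρ - ρ'| := by
      rw [abs_sub_comm ρ ρ']
      exact abs_max_sub_max_le_abs ρ' ρ c₀
    have n5 : c₀ ^ 2 ≤ max ρ c₀ * max ρ' c₀ := by
      rw [sq]
      exact mul_le_mul n1 n2 hc.le p1.le
    have n6 : |ρ - ρ'| ≤ 1 / c₀ ^ 2 * |ρ - ρ'| * (max ρ c₀ * max ρ' c₀) := by
      rw [mul_assoc, mul_comm (|ρ - ρ'|), ← mul_assoc]
      have n7 : 1 ≤ 1 / c₀ ^ 2 * (max ρ c₀ * max ρ' c₀) := by
        rw [one_div, ← div_eq_inv_mul, one_le_div (by positivity)]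
        exact n5
      nlinarith [abs_nonneg (ρ - ρ')]
    exact n4.trans n6
  refine ⟨fun ρ => q * (ψ ρ * κ ρ), fun ρ hρ => ?_, c₀, hc, 2 * |C₀| + c₀ + 1, ?_,
    |I| * (2 * L * (1 / c₀) + 2 * L * (1 / c₀ ^ 2)) + 1, by positivity, fun ρ hρ => ?_,
    fun ρ hρ => ?_, fun ρ ρ' => ?_, fun ρ => ?_⟩
  · change q * (ψ ρ * κ ρ) = Gl φ₁ φ₂ α ρ
    by_cases hρc : ρ ≤ c₀
    · rw [hψ0 ρ hρc, zero_mul, mul_zero]
      unfold Gl
      have i1 : |ρ / α| ≤ c₀ := by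
        rw [abs_of_nonneg (div_nonneg hρ hα.le), div_le_iff₀ hα]
        nlinarith
      rw [h.near _ i1, h.near _ (by rw [abs_neg]; exact i1)]
      simp
    · rw [not_le] at hρc
      rw [hψ, hκ, hq]
      simp only
      rw [max_eq_left hρ, max_eq_left hρc.le]
      unfold Gl
      have : 0 < ρ := lt_trans hc hρc
      field_simp
      rw [hI]
      ring
  · have := abs_nonneg C₀
    linarith
  · change q * (ψ ρ * κ ρ) = 0
    rw [hψ0 ρ hρ, zero_mul, mul_zero]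
  · have i1 : C₀ ≤ |max ρ 0 / α| := by
      have i2 : 2 * |C₀| ≤ ρ := by linarith
      have i3 : ρ ≤ max ρ 0 := le_max_left _ _
      rw [abs_of_nonneg (div_nonneg (le_max_right _ _) hα.le), le_div_iff₀ hα]
      have i4 := le_abs_self C₀
      have i5 := abs_nonneg C₀
      nlinarith
    rw [hψ]
    simp only
    rw [h.sup2 _ i1, h.sup2 _ (by rw [abs_neg]; exact i1)]
    ring
  · have e : q * (ψ ρ * κ ρ) - q * (ψ ρ' * κ ρ') =
        q * ((ψ ρ - ψ ρ') * κ ρ + ψ ρ' * (κ ρ - κ ρ')) := by ring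
    rw [e, abs_mul]
    have a1 : |(ψ ρ - ψ ρ') * κ ρ + ψ ρ' * (κ ρ - κ ρ')| ≤
        (2 * L * (1 / c₀) + 2 * L * (1 / c₀ ^ 2)) * |ρ - ρ'| := by
      refine (abs_add_le _ _).trans ?_
      rw [abs_mul, abs_mul]
      have a2 := mul_le_mul (hψl ρ ρ') (hκb ρ) (abs_nonneg _) (by positivity)
      have a3 := mul_le_mul (hψb ρ') (hκl ρ ρ') (abs_nonneg _) (by positivity)
      calc _ ≤ 2 * L * |ρ - ρ'| * (1 / c₀) + 2 * L * (1 / c₀ ^ 2 * |ρ - ρ'|) := add_le_add a2 a3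
        _ = _ := by ring
    have a4 := mul_le_mul hq' a1 (abs_nonneg _) (abs_nonneg _)
    refine a4.trans ?_
    nlinarith [abs_nonneg (ρ - ρ')]
  · rw [abs_mul, abs_mul]
    have a2 := mul_le_mul (hψb ρ) (hκb ρ) (abs_nonneg _) (by positivity)
    have a4 := mul_le_mul hq' a2 (by positivity) (abs_nonneg _)
    refine a4.trans ?_
    have : 0 ≤ |I| * (2 * L * (1 / c₀ ^ 2)) := by positivity
    nlinarith

end Pool.Agent.ILL
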