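import Pool.Agent.ILL.Abl
import Pool.Agent.ILL.Ecs
import Pool.Agent.ILL.Eth

/-!
# MOB. The arithmetic sums for `m = 0`

`P` not rational, `d ≥ 1`. The two coprime pairs with `k.1 = 0` contribute `O(T⁻²)`. Möbius inversion over the gcd:
`Σ_{k coprime} F(k) = Σ_{e ≥ 1} μ(e) Σ_{k ≠ 0} F(e k)` (finite sums, `F(k) = e(d k·P) G(eu(rv k M)/T)` has finite
support). For `e > E`: `|Σ_k F(ek)| ≤ L #{k ≠ 0 : eu(rv k M) ≤ C T/e} ≤ L C' (T/e)²` (if `CT/e` is smaller than the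
minimal length the set is empty; otherwise `(1+CT/e)² ≤ C''(T/e)²`), total `≤ C'' T²/E`. For fixed `e ≤ E`:
`(1/T²) Σ_{k≠0} e(d e k·P) G(e · eu(rv k M)/T) → 0`: since `P ∉ ℚ²`, `d e P.1 ∉ ℤ` or `d e P.2 ∉ ℤ`; say the second.
For each value of `k.1` (at most `2C₁T+1` values) the sum over `k.2` is bounded by
`(variation of the weight) · sup |Σ_{j=a}^{b} e(j d e P.2)| ≤ V · 2/|1 - e(d e P.2)|` (`abel_sum`, geometric sum),
`V` bounded independently of `T ≥ 1` as in NTM. Total `O(T)`. Let `T → ∞`, then `E → ∞`.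
(`G(0) = 0`, so `k = 0` is harmless.)
-/

open MeasureTheory Set Filter Topology
open scoped ENNReal NNReal

namespace Pool.Agent.ILL

private theorem mob_eu_norm (ξ : Pl) : eu ξ = ‖(⟨ξ.1, ξ.2⟩ : ℂ)‖ := by
  rw [Complex.norm_eq_sqrt_sq_add_sq]
  rfl

private theorem mob_eu_sub (ξ η : Pl) : |eu (ξ + η) - eu ξ| ≤ eu η := by
  rw [mob_eu_norm, mob_eu_norm ξ, mob_eu_norm η]
  have h := abs_norm_sub_norm_le (⟨(ξ + η).1, (ξ + η).2⟩ : ℂ) ⟨ξ.1, ξ.2⟩
  have h2 : (⟨(ξ + η).1, (ξ + η).2⟩ : ℂ) - ⟨ξ.1, ξ.2⟩ = ⟨η.1, η.2⟩ := by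
    apply Complex.ext <;> simp
  rwa [h2] at h

private theorem mob_eu_nonneg (ξ : Pl) : 0 ≤ eu ξ := Real.sqrt_nonneg _

private theorem mob_rv_add (k l : ℤ × ℤ) (M : SLR) : rv (k + l) M = rv k M + rv l M := by
  ext <;> simp [rv] <;> ring

private theorem mob_eu_smul (e : ℕ) (k : ℤ × ℤ) (M : SLR) :
    eu (rv ((e : ℤ) * k.1, (e : ℤ) * k.2) M) = e * eu (rv k M) := by
  have h : (e : ℝ) * eu (rv k M) =
      √((e : ℝ) ^ 2 * ((rv k M).1 ^ 2 + (rv k M).2 ^ 2)) := by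
    rw [Real.sqrt_mul (sq_nonneg _), Real.sqrt_sq (Nat.cast_nonneg e)]
    rfl
  rw [h]
  unfold eu rv
  congr 1
  push_cast
  ring

private theorem mob_ee_zero : ee 0 = 1 := by
  have := ee_int 0
  simpa using this

private theorem mob_ee_ne {β : ℝ} (hβ : ∀ n : ℤ, β ≠ n) : ee β ≠ 1 := by
  intro h
  unfold ee at h
  rw [Complex.exp_eq_one_iff] at h
  obtain ⟨n, hn⟩ := h
  apply hβ n
  have h2 : (2 * (Real.pi : ℂ) * Complex.I) ≠ 0 := by
    simp [Real.pi_ne_zero]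
  have h3 : (β : ℂ) * (2 * (Real.pi : ℂ) * Complex.I) = (n : ℂ) * (2 * (Real.pi : ℂ) * Complex.I) := by
    rw [← hn]
    ring
  have h4 := mul_right_cancel₀ h2 h3
  exact_mod_cast h4

private theorem mob_geo_id (β : ℝ) (N : ℤ) (n : ℕ) :
    (ee β - 1) * ∑ j ∈ Finset.Icc N (N + n), ee (β * j) = ee (β * (N + n + 1)) - ee (β * N) := by
  induction n with
  | zero =>
    simp only [Nat.cast_zero, add_zero, Finset.Icc_self, Finset.sum_singleton]
    rw [mul_add, ee_add, mul_one]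
    ring
  | succ n ih =>
    have h2 : (N + n + 1) ∉ Finset.Icc N (N + n) := by
      simp only [Finset.mem_Icc, not_and, not_le]
      omega
    have h3 : N + ((n + 1 : ℕ) : ℤ) = N + n + 1 := by
      push_cast
      ring
    have h4 : Finset.Icc N (N + n + 1) = insert (N + n + 1) (Finset.Icc N (N + n)) := by
      ext x
      simp only [Finset.mem_Icc, Finset.mem_insert]
      omega
    rw [h3, h4, Finset.sum_insert h2, mul_add, ih]
    push_cast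
    rw [show β * ((N : ℝ) + (n + 1) + 1) = β * (N + n + 1) + β by ring, ee_add]
    ring

private theorem mob_geo {β : ℝ} (hβ : ∀ n : ℤ, β ≠ n) : ∃ Y : ℝ, 0 ≤ Y ∧ ∀ N n : ℤ,
    ‖∑ j ∈ Finset.Icc N n, ee (β * j)‖ ≤ Y := by
  have h1 : 0 < ‖ee β - 1‖ := norm_pos_iff.2 (sub_ne_zero.2 (mob_ee_ne hβ))
  refine ⟨2 / ‖ee β - 1‖, by positivity, fun N n => ?_⟩
  by_cases h : N ≤ n
  · obtain ⟨k, hk⟩ := Int.eq_ofNat_of_zero_le (sub_nonneg.2 h)
    have hn2 : n = N + k := by omega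
    rw [hn2, le_div_iff₀ h1, mul_comm, ← norm_mul, mob_geo_id]
    refine (norm_sub_le _ _).trans ?_
    rw [norm_ee, norm_ee]
    norm_num
  · rw [Finset.Icc_eq_empty h, Finset.sum_empty, norm_zero]
    positivity

/-- one of the frequencies is not an integer -/
private theorem mob_irr {P : Pl} (hP : ¬ RatP P) {q : ℕ} (hq : 1 ≤ q) :
    (∀ n : ℤ, (q : ℝ) * P.1 ≠ n) ∨ (∀ n : ℤ, (q : ℝ) * P.2 ≠ n) := by
  by_contra h
  push Not at h
  obtain ⟨⟨n, hn⟩, m, hm⟩ := h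
  exact hP ⟨q, hq, (n, m), by rw [hn, hm]; rfl⟩

/-- sums over a box, second frequency -/
private theorem mob_box {β : ℝ} (hβ : ∀ n : ℤ, β ≠ n) : ∃ Y : ℝ, 0 ≤ Y ∧
    ∀ (α D : ℝ) (N : ℕ) (w : ℤ → ℤ → ℝ), (∀ A B : ℤ, (N : ℤ) < B → w A B = 0) →
      (∀ A B : ℤ, |w A (B + 1) - w A B| ≤ D) →
      ‖∑ A ∈ Finset.Icc (-(N : ℤ)) N, ∑ B ∈ Finset.Icc (-(N : ℤ)) N,
        (w A B : ℂ) * ee (α * A + β * B)‖ ≤ (2 * N + 1) * ((2 * N + 1) * D * Y) := by
  obtain ⟨Y, hY0, hY⟩ := mob_geo hβ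
  refine ⟨Y, hY0, fun α D N w hw hD => ?_⟩
  have hcard : ((Finset.Icc (-(N : ℤ)) N).card : ℝ) = 2 * N + 1 := by
    rw [Int.card_Icc]
    have : ((N : ℤ) + 1 - -(N : ℤ)).toNat = 2 * N + 1 := by omega
    rw [this]
    push_cast
    ring
  calc ‖∑ A ∈ Finset.Icc (-(N : ℤ)) N, ∑ B ∈ Finset.Icc (-(N : ℤ)) N,
        (w A B : ℂ) * ee (α * A + β * B)‖
      ≤ ∑ A ∈ Finset.Icc (-(N : ℤ)) N, ‖∑ B ∈ Finset.Icc (-(N : ℤ)) N,
        (w A B : ℂ) * ee (α * A + β * B)‖ := norm_sum_le _ _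
    _ ≤ ∑ A ∈ Finset.Icc (-(N : ℤ)) N, (2 * N + 1) * D * Y := by
        refine Finset.sum_le_sum fun A _ => ?_
        have h1 : ∑ B ∈ Finset.Icc (-(N : ℤ)) N, (w A B : ℂ) * ee (α * A + β * B) =
            ee (α * A) * ∑ B ∈ Finset.Icc (-(N : ℤ)) N, (w A B : ℂ) * ee (β * B) := by
          rw [Finset.mul_sum]
          refine Finset.sum_congr rfl fun B _ => ?_
          rw [ee_add]
          ring
        rw [h1, norm_mul, norm_ee, one_mul]
        refine abel_sum (w A) (fun B => ee (β * B)) (-(N : ℤ)) N (hw A) ?_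
          (fun n _ _ => hY _ _) hY0
        calc ∑ j ∈ Finset.Icc (-(N : ℤ)) N, |w A (j + 1) - w A j|
            ≤ ∑ j ∈ Finset.Icc (-(N : ℤ)) N, D := Finset.sum_le_sum fun j _ => hD A j
          _ = (2 * N + 1) * D := by rw [Finset.sum_const, nsmul_eq_mul, hcard]
    _ = (2 * N + 1) * ((2 * N + 1) * D * Y) := by rw [Finset.sum_const, nsmul_eq_mul, hcard]


/-- `μ` summed over the divisors -/
private theorem mob_mu {g : ℕ} (hg : g ≠ 0) {N : ℕ} (hN : g ≤ N) :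
    ∑ e ∈ Finset.Icc 1 N, (if e ∣ g then (ArithmeticFunction.moebius e : ℂ) else 0) =
      if g = 1 then 1 else 0 := by
  rw [← Finset.sum_filter]
  have h1 : (Finset.Icc 1 N).filter (fun e => e ∣ g) = g.divisors := by
    ext e
    simp only [Finset.mem_filter, Finset.mem_Icc, Nat.mem_divisors]
    constructor
    · rintro ⟨_, h⟩
      exact ⟨h, hg⟩
    · rintro ⟨h, _⟩
      exact ⟨⟨Nat.pos_of_dvd_of_pos h (Nat.pos_of_ne_zero hg),
        (Nat.le_of_dvd (Nat.pos_of_ne_zero hg) h).trans hN⟩, h⟩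
  rw [h1]
  have h2 := congrArg (fun f : ArithmeticFunction ℤ => f g)
    ArithmeticFunction.moebius_mul_coe_zeta
  simp only [ArithmeticFunction.coe_mul_zeta_apply, ArithmeticFunction.one_apply] at h2
  have h3 := congrArg (fun z : ℤ => (z : ℂ)) h2
  simp only [Int.cast_sum, Int.cast_ite, Int.cast_one, Int.cast_zero] at h3
  exact h3

/-- the box -/
private noncomputable def mobB (N : ℕ) : Finset (ℤ × ℤ) :=
  Finset.Icc (-(N : ℤ)) N ×ˢ Finset.Icc (-(N : ℤ)) N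

private theorem mem_mobB {N : ℕ} {k : ℤ × ℤ} : k ∈ mobB N ↔ |k.1| ≤ N ∧ |k.2| ≤ N := by
  unfold mobB
  simp only [Finset.mem_product, Finset.mem_Icc, abs_le]

open Classical in
/-- Möbius inversion for a function of finite support -/
private theorem mob_inv {F : ℤ × ℤ → ℂ} {N : ℕ} (hF0 : F 0 = 0)
    (hF : ∀ k, F k ≠ 0 → k ∈ mobB N) :
    (∑' k : ℤ × ℤ, if Int.gcd k.1 k.2 = 1 then F k else 0) =
      ∑' e : ℕ, (ArithmeticFunction.moebius e : ℂ) *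
        ∑' k : ℤ × ℤ, F ((e : ℤ) * k.1, (e : ℤ) * k.2) := by
  have hR : ∀ e : ℕ, 1 ≤ e → ∑' k : ℤ × ℤ, F ((e : ℤ) * k.1, (e : ℤ) * k.2) =
      ∑ k ∈ mobB N, if e ∣ Int.gcd k.1 k.2 then F k else 0 := by
    intro e he
    have he' : (e : ℤ) ≠ 0 := by
      have : e ≠ 0 := by omega
      exact_mod_cast this
    have hinj : Function.Injective (fun k : ℤ × ℤ => (((e : ℤ) * k.1, (e : ℤ) * k.2) : ℤ × ℤ)) := by
      rintro ⟨a, b⟩ ⟨a', b'⟩ h
      simp only [Prod.mk.injEq] at h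
      exact Prod.ext (mul_left_cancel₀ he' h.1) (mul_left_cancel₀ he' h.2)
    have h1 := hinj.tsum_eq (f := fun k : ℤ × ℤ => if e ∣ Int.gcd k.1 k.2 then F k else 0) (by
      intro k hk
      rw [Function.mem_support] at hk
      have h2 : e ∣ Int.gcd k.1 k.2 := by
        by_contra h3
        exact hk (if_neg h3)
      have h3 : (e : ℤ) ∣ k.1 := (Int.natCast_dvd_natCast.2 h2).trans (Int.gcd_dvd_left _ _)
      have h4 : (e : ℤ) ∣ k.2 := (Int.natCast_dvd_natCast.2 h2).trans (Int.gcd_dvd_right _ _)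
      obtain ⟨a, ha⟩ := h3
      obtain ⟨b, hb⟩ := h4
      exact ⟨(a, b), Prod.ext ha.symm hb.symm⟩)
    have h5 : ∀ k : ℤ × ℤ, e ∣ Int.gcd ((e : ℤ) * k.1) ((e : ℤ) * k.2) := by
      intro k
      rw [Int.gcd_mul_left, Int.natAbs_natCast]
      exact dvd_mul_right _ _
    simp only [h5, if_true] at h1
    rw [h1]
    refine tsum_eq_sum fun k hk => ?_
    by_cases h6 : F k = 0
    · rw [h6, ite_self]
    · exact absurd (hF k h6) hk
  have hL : (∑' k : ℤ × ℤ, if Int.gcd k.1 k.2 = 1 then F k else 0) =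
      ∑ k ∈ mobB N, if Int.gcd k.1 k.2 = 1 then F k else 0 := by
    refine tsum_eq_sum fun k hk => ?_
    by_cases h6 : F k = 0
    · rw [h6, ite_self]
    · exact absurd (hF k h6) hk
  have hgcd : ∀ k ∈ mobB N, k ≠ 0 → Int.gcd k.1 k.2 ≠ 0 ∧ Int.gcd k.1 k.2 ≤ N := by
    intro k hk hk0
    rw [mem_mobB] at hk
    have h1 : Int.gcd k.1 k.2 ≠ 0 := by
      rw [Ne, Int.gcd_eq_zero_iff]
      rintro ⟨h1, h2⟩
      exact hk0 (Prod.ext h1 h2)
    refine ⟨h1, ?_⟩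
    by_cases h2 : k.1 = 0
    · have h3 : k.2 ≠ 0 := by
        intro h3
        exact hk0 (Prod.ext h2 h3)
      have h4 : Int.gcd k.1 k.2 ≤ k.2.natAbs := by
        rw [h2, Int.gcd_zero_left]
      have h5 := abs_le.1 hk.2
      omega
    · have h4 : Int.gcd k.1 k.2 ≤ k.1.natAbs :=
        Nat.le_of_dvd (Int.natAbs_pos.2 h2) (Int.gcd_dvd_natAbs_left k.1 k.2)
      have h5 := abs_le.1 hk.1
      omega
  have hE : (∑' e : ℕ, (ArithmeticFunction.moebius e : ℂ) *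
        ∑' k : ℤ × ℤ, F ((e : ℤ) * k.1, (e : ℤ) * k.2)) =
      ∑ e ∈ Finset.Icc 1 N, (ArithmeticFunction.moebius e : ℂ) *
        ∑' k : ℤ × ℤ, F ((e : ℤ) * k.1, (e : ℤ) * k.2) := by
    refine tsum_eq_sum fun e he => ?_
    by_cases h0 : e = 0
    · rw [h0]
      simp
    · have h1 : N < e := by
        by_contra h1
        exact he (Finset.mem_Icc.2 ⟨by omega, by omega⟩)
      rw [hR e (by omega), Finset.sum_eq_zero, mul_zero]
      intro k hk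
      by_cases hk0 : k = 0
      · rw [hk0, hF0, ite_self]
      · have h2 := hgcd k hk hk0
        rw [if_neg]
        intro h3
        have := Nat.le_of_dvd (Nat.pos_of_ne_zero h2.1) h3
        omega
  rw [hL, hE]
  have h1 : ∑ e ∈ Finset.Icc 1 N, (ArithmeticFunction.moebius e : ℂ) *
        ∑' k : ℤ × ℤ, F ((e : ℤ) * k.1, (e : ℤ) * k.2) =
      ∑ e ∈ Finset.Icc 1 N, ∑ k ∈ mobB N,
        F k * (if e ∣ Int.gcd k.1 k.2 then (ArithmeticFunction.moebius e : ℂ) else 0) := by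
    refine Finset.sum_congr rfl fun e he => ?_
    rw [hR e (Finset.mem_Icc.1 he).1, Finset.mul_sum]
    refine Finset.sum_congr rfl fun k _ => ?_
    split_ifs
    · ring
    · ring
  rw [h1, Finset.sum_comm]
  refine Finset.sum_congr rfl fun k hk => ?_
  rw [← Finset.mul_sum]
  by_cases hk0 : k = 0
  · rw [hk0, hF0, ite_self, zero_mul]
  · have h2 := hgcd k hk hk0
    rw [mob_mu h2.1 h2.2]
    split_ifs
    · ring
    · ring


/-- the summand -/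
private noncomputable def mobF (M : SLR) (P : Pl) (d : ℕ) (G : ℝ → ℝ) (T : ℝ) (k : ℤ × ℤ) : ℂ :=
  ee ((d : ℝ) * dotZ k P) * (G (eu (rv k M) / T) : ℂ)

section
variable {M : SLR} {P : Pl} {d : ℕ} {G : ℝ → ℝ} {c C L : ℝ}

private theorem mobF_norm (hbd : ∀ ρ, |G ρ| ≤ L) (T : ℝ) (k : ℤ × ℤ) : ‖mobF M P d G T k‖ ≤ L := by
  unfold mobF
  rw [norm_mul, norm_ee, one_mul, Complex.norm_real]
  exact hbd _

private theorem mobF_zero (hc : 0 < c) (hG0 : ∀ ρ, ρ ≤ c → G ρ = 0) (T : ℝ) :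
    mobF M P d G T 0 = 0 := by
  unfold mobF
  have h : eu (rv 0 M) = 0 := by
    unfold eu rv
    simp
  rw [h, zero_div, hG0 0 hc.le, Complex.ofReal_zero, mul_zero]

private theorem mobF_supp (hG1 : ∀ ρ, C ≤ ρ → G ρ = 0) {T : ℝ} (hT : 0 < T) {k : ℤ × ℤ}
    (h : mobF M P d G T k ≠ 0) : eu (rv k M) ≤ C * T := by
  by_contra h2
  push Not at h2
  apply h
  unfold mobF
  rw [hG1, Complex.ofReal_zero, mul_zero]
  rw [le_div_iff₀ hT]
  exact h2.le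

private theorem mobF_mul (T : ℝ) (e : ℕ) (k : ℤ × ℤ) :
    mobF M P d G T ((e : ℤ) * k.1, (e : ℤ) * k.2) =
      (G (e * eu (rv k M) / T) : ℂ) *
        ee (((d * e : ℕ) : ℝ) * P.1 * k.1 + ((d * e : ℕ) : ℝ) * P.2 * k.2) := by
  unfold mobF
  rw [mob_eu_smul, mul_comm]
  congr 2
  unfold dotZ
  push_cast
  ring

/-- the size of the box -/
private theorem mob_N {C₁ : ℝ} (hC : 1 ≤ C)
    (hcnt : ∀ ρ : ℝ, 0 ≤ ρ → ∀ k : ℤ × ℤ, eu (rv k M) ≤ ρ →
      |(k.1 : ℝ)| ≤ C₁ * ρ ∧ |(k.2 : ℝ)| ≤ C₁ * ρ) {T : ℝ} (hT : 1 ≤ T) (k : ℤ × ℤ)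
    (hk : eu (rv k M) ≤ C * T) : k ∈ mobB ⌊C₁ * (C * T)⌋₊ := by
  have h0 : 0 ≤ C * T := by positivity
  have h1 := hcnt (C * T) h0 k hk
  rw [mem_mobB]
  have h2 : ∀ a : ℤ, |(a : ℝ)| ≤ C₁ * (C * T) → |a| ≤ (⌊C₁ * (C * T)⌋₊ : ℤ) := by
    intro a ha
    have h3 : ((a.natAbs : ℕ) : ℝ) ≤ C₁ * (C * T) := by
      rw [Nat.cast_natAbs]
      exact_mod_cast ha
    have h4 := Nat.le_floor h3
    rw [Int.abs_eq_natAbs]
    exact_mod_cast h4
  exact ⟨h2 _ h1.1, h2 _ h1.2⟩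

private theorem mob_G (hG1 : ∀ ρ, C ≤ ρ → G ρ = 0) {T : ℝ} (hT : 1 ≤ T) {e : ℕ} (he : 1 ≤ e)
    {k : ℤ × ℤ} (h : G (e * eu (rv k M) / T) ≠ 0) : eu (rv k M) ≤ C * T / e := by
  have hT0 : 0 < T := by linarith
  have he0 : (0 : ℝ) < e := by exact_mod_cast he
  by_contra h2
  push Not at h2
  apply h
  apply hG1
  rw [le_div_iff₀ hT0]
  rw [div_lt_iff₀ he0] at h2
  linarith

private theorem mob_small {C₁ : ℝ} (hP : ¬ RatP P) (hd : 1 ≤ d) (hC : 1 ≤ C) (hC₁ : 0 < C₁)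
    (hG1 : ∀ ρ, C ≤ ρ → G ρ = 0)
    (hcnt : ∀ ρ : ℝ, 0 ≤ ρ → ∀ k : ℤ × ℤ, eu (rv k M) ≤ ρ →
      |(k.1 : ℝ)| ≤ C₁ * ρ ∧ |(k.2 : ℝ)| ≤ C₁ * ρ)
    (hlip : ∀ ρ ρ', |G ρ - G ρ'| ≤ L * |ρ - ρ'|) (hL : 0 ≤ L) {e : ℕ} (he : 1 ≤ e) :
    ∃ K : ℝ, ∀ T : ℝ, 1 ≤ T →
      ‖∑' k : ℤ × ℤ, mobF M P d G T ((e : ℤ) * k.1, (e : ℤ) * k.2)‖ ≤ K * T := by
  have he0 : (0 : ℝ) < e := by exact_mod_cast he
  have hde : 1 ≤ d * e := Nat.one_le_iff_ne_zero.2 (by positivity)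
  set m : ℝ := max (eu (rv (1, 0) M)) (eu (rv (0, 1) M)) with hm
  have hm0 : 0 ≤ m := (mob_eu_nonneg _).trans (le_max_left _ _)
  -- the weight
  have hsum : ∀ T : ℝ, 1 ≤ T → ∑' k : ℤ × ℤ, mobF M P d G T ((e : ℤ) * k.1, (e : ℤ) * k.2) =
      ∑ A ∈ Finset.Icc (-((⌊C₁ * (C * T)⌋₊ : ℕ) : ℤ)) ((⌊C₁ * (C * T)⌋₊ : ℕ) : ℤ),
        ∑ B ∈ Finset.Icc (-((⌊C₁ * (C * T)⌋₊ : ℕ) : ℤ)) ((⌊C₁ * (C * T)⌋₊ : ℕ) : ℤ),
          (G (e * eu (rv (A, B) M) / T) : ℂ) *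
          ee (((d * e : ℕ) : ℝ) * P.1 * A + ((d * e : ℕ) : ℝ) * P.2 * B) := by
    intro T hT
    rw [← Finset.sum_product', tsum_eq_sum (s := mobB ⌊C₁ * (C * T)⌋₊)]
    · exact Finset.sum_congr rfl fun k _ => mobF_mul T e k
    · intro k hk
      rw [mobF_mul]
      by_cases h : G (e * eu (rv k M) / T) = 0
      · rw [h, Complex.ofReal_zero, zero_mul]
      · exfalso
        apply hk
        refine mob_N hC hcnt hT k ((mob_G hG1 hT he h).trans ?_)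
        apply div_le_self (by positivity)
        exact_mod_cast he
  have hzero : ∀ T : ℝ, 1 ≤ T → ∀ k : ℤ × ℤ, k ∉ mobB ⌊C₁ * (C * T)⌋₊ →
      G (e * eu (rv k M) / T) = 0 := by
    intro T hT k hk
    by_contra h
    apply hk
    refine mob_N hC hcnt hT k ((mob_G hG1 hT he h).trans ?_)
    apply div_le_self (by positivity)
    exact_mod_cast he
  have hdiff : ∀ T : ℝ, 1 ≤ T → ∀ k l : ℤ × ℤ, eu (rv l M) ≤ m →
      |G (e * eu (rv (k + l) M) / T) - G (e * eu (rv k M) / T)| ≤ L * e * m / T := by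
    intro T hT k l hl
    have hT0 : 0 < T := by linarith
    refine (hlip _ _).trans ?_
    have h1 : (e : ℝ) * eu (rv (k + l) M) / T - e * eu (rv k M) / T =
        e / T * (eu (rv k M + rv l M) - eu (rv k M)) := by
      rw [mob_rv_add]
      ring
    rw [h1, abs_mul, abs_of_nonneg (by positivity)]
    have h2 := (mob_eu_sub (rv k M) (rv l M)).trans hl
    calc L * (e / T * |eu (rv k M + rv l M) - eu (rv k M)|) ≤ L * (e / T * m) := by gcongr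
      _ = L * e * m / T := by ring
  have hfin : ∀ Y : ℝ, 0 ≤ Y → ∀ T : ℝ, 1 ≤ T →
      (2 * ((⌊C₁ * (C * T)⌋₊ : ℕ) : ℝ) + 1) * ((2 * ((⌊C₁ * (C * T)⌋₊ : ℕ) : ℝ) + 1) *
        (L * e * m / T) * Y) ≤ ((2 * (C₁ * C) + 1) ^ 2 * (L * e * m * Y)) * T := by
    intro Y hY T hT
    have hT0 : 0 < T := by linarith
    have h1 : ((⌊C₁ * (C * T)⌋₊ : ℕ) : ℝ) ≤ C₁ * (C * T) := Nat.floor_le (by positivity)
    have h2 : 2 * ((⌊C₁ * (C * T)⌋₊ : ℕ) : ℝ) + 1 ≤ (2 * (C₁ * C) + 1) * T := by nlinarith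
    calc (2 * ((⌊C₁ * (C * T)⌋₊ : ℕ) : ℝ) + 1) * ((2 * ((⌊C₁ * (C * T)⌋₊ : ℕ) : ℝ) + 1) *
        (L * e * m / T) * Y)
        = (2 * ((⌊C₁ * (C * T)⌋₊ : ℕ) : ℝ) + 1) ^ 2 * (L * e * m / T * Y) := by ring
      _ ≤ ((2 * (C₁ * C) + 1) * T) ^ 2 * (L * e * m / T * Y) := by gcongr
      _ = ((2 * (C₁ * C) + 1) ^ 2 * (L * e * m * Y)) * T := by field_simp
  rcases mob_irr hP hde with hα | hβ
  · obtain ⟨Y, hY0, hY⟩ := mob_box hα
    refine ⟨(2 * (C₁ * C) + 1) ^ 2 * (L * e * m * Y), fun T hT => ?_⟩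
    rw [hsum T hT, Finset.sum_comm]
    have h := hY (((d * e : ℕ) : ℝ) * P.2) (L * e * m / T) ⌊C₁ * (C * T)⌋₊
      (fun B A => G (e * eu (rv (A, B) M) / T)) (fun B A hA => hzero T hT (A, B) (by
        rw [mem_mobB]
        rintro ⟨h1, _⟩
        have h2 := (abs_le.1 h1).2
        exact absurd hA (not_lt.2 h2))) (fun B A => by
        have h1 := hdiff T hT (A, B) (1, 0) (le_max_left _ _)
        have h2 : ((A, B) + (1, 0) : ℤ × ℤ) = (A + 1, B) := by simp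
        rw [h2] at h1
        exact h1)
    refine (le_of_eq ?_).trans (h.trans (hfin Y hY0 T hT))
    congr 1
    refine Finset.sum_congr rfl fun B _ => Finset.sum_congr rfl fun A _ => ?_
    rw [add_comm]
  · obtain ⟨Y, hY0, hY⟩ := mob_box hβ
    refine ⟨(2 * (C₁ * C) + 1) ^ 2 * (L * e * m * Y), fun T hT => ?_⟩
    rw [hsum T hT]
    have h := hY (((d * e : ℕ) : ℝ) * P.1) (L * e * m / T) ⌊C₁ * (C * T)⌋₊
      (fun A B => G (e * eu (rv (A, B) M) / T)) (fun A B hB => hzero T hT (A, B) (by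
        rw [mem_mobB]
        rintro ⟨_, h1⟩
        have h2 := (abs_le.1 h1).2
        exact absurd hB (not_lt.2 h2))) (fun A B => by
        have h1 := hdiff T hT (A, B) (0, 1) (le_max_right _ _)
        have h2 : ((A, B) + (0, 1) : ℤ × ℤ) = (A, B + 1) := by simp
        rw [h2] at h1
        exact h1)
    exact h.trans (hfin Y hY0 T hT)

private theorem mob_dom {C₁ : ℝ} (hC : 1 ≤ C) (hC₁ : 0 < C₁) (hc : 0 < c)
    (hG0 : ∀ ρ, ρ ≤ c → G ρ = 0) (hG1 : ∀ ρ, C ≤ ρ → G ρ = 0)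
    (hcnt : ∀ ρ : ℝ, 0 ≤ ρ → {k : ℤ × ℤ | eu (rv k M) ≤ ρ}.Finite ∧
      ({k : ℤ × ℤ | eu (rv k M) ≤ ρ}.ncard : ℝ) ≤ C₁ * (1 + ρ) ^ 2 ∧
      (∀ k : ℤ × ℤ, eu (rv k M) ≤ ρ → |(k.1 : ℝ)| ≤ C₁ * ρ ∧ |(k.2 : ℝ)| ≤ C₁ * ρ))
    (hbd : ∀ ρ, |G ρ| ≤ L) (hL : 0 ≤ L) {e : ℕ} (he : 1 ≤ e) {T : ℝ} (hT : 1 ≤ T) :
    ‖∑' k : ℤ × ℤ, mobF M P d G T ((e : ℤ) * k.1, (e : ℤ) * k.2)‖ ≤
      L * (C₁ * ((C₁ + 1) * (C * T / e)) ^ 2) := by
  have he0 : (0 : ℝ) < e := by exact_mod_cast he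
  have hT0 : 0 < T := by linarith
  have hρ : 0 ≤ C * T / e := by positivity
  obtain ⟨h1, h2, h3⟩ := hcnt _ hρ
  set s := h1.toFinset.erase 0 with hs
  have hsum : ∑' k : ℤ × ℤ, mobF M P d G T ((e : ℤ) * k.1, (e : ℤ) * k.2) =
      ∑ k ∈ s, mobF M P d G T ((e : ℤ) * k.1, (e : ℤ) * k.2) := by
    refine tsum_eq_sum fun k hk => ?_
    by_cases hk0 : k = 0
    · rw [hk0]
      have : (((e : ℤ) * (0 : ℤ × ℤ).1, (e : ℤ) * (0 : ℤ × ℤ).2) : ℤ × ℤ) = 0 := by simp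
      rw [this]
      exact mobF_zero hc hG0 T
    · rw [mobF_mul]
      by_cases h : G (e * eu (rv k M) / T) = 0
      · rw [h, Complex.ofReal_zero, zero_mul]
      · exfalso
        apply hk
        rw [hs, Finset.mem_erase, Set.Finite.mem_toFinset]
        exact ⟨hk0, mob_G hG1 hT he h⟩
  rw [hsum]
  have hcard : (s.card : ℝ) ≤ C₁ * (1 + C * T / e) ^ 2 := by
    refine le_trans ?_ h2
    have h4 : s.card ≤ h1.toFinset.card := Finset.card_le_card (Finset.erase_subset _ _)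
    rw [Set.ncard_eq_toFinset_card _ h1]
    exact_mod_cast h4
  have hle : ‖∑ k ∈ s, mobF M P d G T ((e : ℤ) * k.1, (e : ℤ) * k.2)‖ ≤ s.card * L := by
    refine (norm_sum_le _ _).trans ?_
    rw [← nsmul_eq_mul]
    exact Finset.sum_le_card_nsmul _ _ _ fun k _ => mobF_norm hbd T _
  refine hle.trans ?_
  by_cases hs0 : s = ∅
  · rw [hs0, Finset.card_empty, Nat.cast_zero, zero_mul]
    positivity
  · obtain ⟨k, hk⟩ := Finset.nonempty_iff_ne_empty.2 hs0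
    rw [hs, Finset.mem_erase, Set.Finite.mem_toFinset] at hk
    have h4 := h3 k hk.2
    have h5 : 1 ≤ C₁ * (C * T / e) := by
      by_cases h6 : k.1 = 0
      · have h7 : k.2 ≠ 0 := fun h7 => hk.1 (Prod.ext h6 h7)
        have h8 : (1 : ℝ) ≤ |(k.2 : ℝ)| := by exact_mod_cast Int.one_le_abs h7
        exact h8.trans h4.2
      · have h8 : (1 : ℝ) ≤ |(k.1 : ℝ)| := by exact_mod_cast Int.one_le_abs h6
        exact h8.trans h4.1
    rw [mul_comm]
    refine mul_le_mul_of_nonneg_left (hcard.trans ?_) hL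
    have h6 : 1 + C * T / e ≤ (C₁ + 1) * (C * T / e) := by linarith
    gcongr

open Classical in
private theorem mob_diff {F : ℤ × ℤ → ℂ} {N : ℕ} (hF : ∀ k, F k ≠ 0 → k ∈ mobB N)
    (hb : ∀ k, ‖F k‖ ≤ L) (hL : 0 ≤ L) :
    ‖(∑' k : ℤ × ℤ, if Int.gcd k.1 k.2 = 1 ∧ k.1 ≠ 0 then F k else 0) -
      ∑' k : ℤ × ℤ, if Int.gcd k.1 k.2 = 1 then F k else 0‖ ≤ 2 * L := by
  have hF' : ∀ k ∉ mobB N, F k = 0 := fun k hk => by
    by_contra h
    exact hk (hF k h)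
  rw [tsum_eq_sum (s := mobB N) (fun k hk => by rw [hF' k hk, ite_self]),
    tsum_eq_sum (s := mobB N) (fun k hk => by rw [hF' k hk, ite_self]), ← Finset.sum_sub_distrib]
  have h1 : ∀ k ∈ mobB N, ((if Int.gcd k.1 k.2 = 1 ∧ k.1 ≠ 0 then F k else 0) -
      if Int.gcd k.1 k.2 = 1 then F k else 0) =
      if (k = (0, 1) ∨ k = (0, -1)) then -F k else 0 := by
    rintro ⟨a, b⟩ _
    by_cases ha : a = 0
    · subst ha
      simp only [ne_eq, not_true_eq_false, and_false, if_false, zero_sub, Int.gcd_zero_left,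
        Prod.mk.injEq, true_and]
      have h2 : b.natAbs = 1 ↔ (b = 1 ∨ b = -1) := by omega
      simp only [h2]
      split_ifs
      · rfl
      · rw [neg_zero]
    · have h3 : ¬ (((a, b) : ℤ × ℤ) = (0, 1) ∨ ((a, b) : ℤ × ℤ) = (0, -1)) := by
        simp [ha]
      rw [if_neg h3]
      simp only [ne_eq, ha, not_false_eq_true, and_true]
      rw [sub_self]
  rw [Finset.sum_congr rfl h1, ← Finset.sum_filter]
  refine (norm_sum_le _ _).trans ?_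
  have h2 : ((mobB N).filter (fun k : ℤ × ℤ => k = (0, 1) ∨ k = (0, -1))).card ≤ 2 := by
    refine (Finset.card_le_card (t := {((0, 1) : ℤ × ℤ), (0, -1)}) ?_).trans Finset.card_le_two
    intro k hk
    rw [Finset.mem_filter] at hk
    rw [Finset.mem_insert, Finset.mem_singleton]
    exact hk.2
  refine (Finset.sum_le_card_nsmul _ _ L fun k _ => by rw [norm_neg]; exact hb k).trans ?_
  rw [nsmul_eq_mul]
  have h3 : ((((mobB N).filter (fun k : ℤ × ℤ => k = (0, 1) ∨ k = (0, -1))).card : ℕ) : ℝ) ≤ 2 := by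
    exact_mod_cast h2
  exact mul_le_mul_of_nonneg_right h3 hL

end

theorem nt_m_zero (M : SLR) {P : Pl} (hP : ¬ RatP P) {d : ℕ} (hd : 1 ≤ d) {G : ℝ → ℝ}
    {c C L : ℝ} (hc : 0 < c) (hG0 : ∀ ρ, ρ ≤ c → G ρ = 0) (hG1 : ∀ ρ, C ≤ ρ → G ρ = 0)
    (hlip : ∀ ρ ρ', |G ρ - G ρ'| ≤ L * |ρ - ρ'|) (hbd : ∀ ρ, |G ρ| ≤ L) :
    Tendsto (fun T : ℝ => NT M P d 0 G T) atTop (𝓝 0) := by
  obtain ⟨C₁, hC₁, hcnt⟩ := count_rows M
  have hL : 0 ≤ L := (abs_nonneg _).trans (hbd 0)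
  have hC' : 1 ≤ max C 1 := le_max_right _ _
  have hG1' : ∀ ρ, max C 1 ≤ ρ → G ρ = 0 := fun ρ h => hG1 ρ ((le_max_left _ _).trans h)
  have hsupp : ∀ T : ℝ, 1 ≤ T → ∀ k, mobF M P d G T k ≠ 0 →
      k ∈ mobB ⌊C₁ * (max C 1 * T)⌋₊ := fun T hT k hk =>
    mob_N hC' (fun ρ hρ k hk => (hcnt ρ hρ).2.2 k hk) hT k (mobF_supp hG1' (by linarith) hk)
  -- the sum over all coprime pairs
  have hlim : Tendsto (fun T : ℝ => ∑' e : ℕ, (1 / (T : ℂ) ^ 2) *
      ((ArithmeticFunction.moebius e : ℂ) *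
        ∑' k : ℤ × ℤ, mobF M P d G T ((e : ℤ) * k.1, (e : ℤ) * k.2))) atTop (𝓝 0) := by
    have h := tendsto_tsum_of_dominated_convergence (𝓕 := (atTop : Filter ℝ))
      (f := fun (T : ℝ) (e : ℕ) => (1 / (T : ℂ) ^ 2) * ((ArithmeticFunction.moebius e : ℂ) *
        ∑' k : ℤ × ℤ, mobF M P d G T ((e : ℤ) * k.1, (e : ℤ) * k.2)))
      (g := fun _ : ℕ => (0 : ℂ))
      (bound := fun e : ℕ => (L * (C₁ * ((C₁ + 1) * max C 1) ^ 2)) * (1 / (e : ℝ) ^ 2))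
      ((Real.summable_one_div_nat_pow.2 one_lt_two).mul_left _) ?_ ?_
    · rw [tsum_zero] at h
      exact h
    · intro e
      by_cases he : e = 0
      · rw [he]
        simp
      · obtain ⟨K, hK⟩ := mob_small (G := G) (C := max C 1) hP hd hC' hC₁ hG1'
          (fun ρ hρ k hk => (hcnt ρ hρ).2.2 k hk) hlip hL (e := e) (by omega)
        rw [tendsto_zero_iff_norm_tendsto_zero]
        have h1 : Tendsto (fun T : ℝ => K / T) atTop (𝓝 0) :=
          tendsto_const_nhds.div_atTop tendsto_id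
        refine squeeze_zero' (Eventually.of_forall fun T => norm_nonneg _) ?_ h1
        filter_upwards [eventually_ge_atTop (1 : ℝ)] with T hT
        have hT0 : 0 < T := by linarith
        have hμ : ‖(ArithmeticFunction.moebius e : ℂ)‖ ≤ 1 := by
          rw [Complex.norm_intCast]
          exact_mod_cast ArithmeticFunction.abs_moebius_le_one
        rw [norm_mul, norm_mul, norm_div, norm_one, norm_pow, Complex.norm_real,
          Real.norm_of_nonneg hT0.le]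
        calc 1 / T ^ 2 * (‖(ArithmeticFunction.moebius e : ℂ)‖ *
              ‖∑' k : ℤ × ℤ, mobF M P d G T ((e : ℤ) * k.1, (e : ℤ) * k.2)‖)
            ≤ 1 / T ^ 2 * (1 * (K * T)) := by
              have := hK T hT
              gcongr
          _ = K / T := by field_simp
    · filter_upwards [eventually_ge_atTop (1 : ℝ)] with T hT e
      have hT0 : 0 < T := by linarith
      by_cases he : e = 0
      · rw [he]
        simp
      · have he0 : (0 : ℝ) < e := by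
          have : 0 < e := Nat.pos_of_ne_zero he
          exact_mod_cast this
        have h1 := mob_dom (M := M) (P := P) (d := d) hC' hC₁ hc hG0 hG1' hcnt hbd hL (e := e)
          (by omega) hT
        have hμ : ‖(ArithmeticFunction.moebius e : ℂ)‖ ≤ 1 := by
          rw [Complex.norm_intCast]
          exact_mod_cast ArithmeticFunction.abs_moebius_le_one
        rw [norm_mul, norm_mul, norm_div, norm_one, norm_pow, Complex.norm_real,
          Real.norm_of_nonneg hT0.le]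
        calc 1 / T ^ 2 * (‖(ArithmeticFunction.moebius e : ℂ)‖ *
              ‖∑' k : ℤ × ℤ, mobF M P d G T ((e : ℤ) * k.1, (e : ℤ) * k.2)‖)
            ≤ 1 / T ^ 2 * (1 * (L * (C₁ * ((C₁ + 1) * (max C 1 * T / e)) ^ 2))) := by gcongr
          _ = (L * (C₁ * ((C₁ + 1) * max C 1) ^ 2)) * (1 / (e : ℝ) ^ 2) := by field_simp
  -- the error from the first coordinate zero
  have herr : Tendsto (fun T : ℝ => 2 * L / T ^ 2) atTop (𝓝 0) :=
    tendsto_const_nhds.div_atTop (tendsto_pow_atTop two_ne_zero)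
  have hNT : ∀ T : ℝ, 1 ≤ T → ‖NT M P d 0 G T - ∑' e : ℕ, (1 / (T : ℂ) ^ 2) *
      ((ArithmeticFunction.moebius e : ℂ) *
        ∑' k : ℤ × ℤ, mobF M P d G T ((e : ℤ) * k.1, (e : ℤ) * k.2))‖ ≤ 2 * L / T ^ 2 := by
    intro T hT
    have hT0 : 0 < T := by linarith
    rw [tsum_mul_left, ← mob_inv (mobF_zero hc hG0 T) (hsupp T hT)]
    have h1 : NT M P d 0 G T = (1 / (T : ℂ) ^ 2) * ∑' k : ℤ × ℤ,
        if Int.gcd k.1 k.2 = 1 ∧ k.1 ≠ 0 then mobF M P d G T k else 0 := by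
      unfold NT
      congr 1
      refine tsum_congr fun k => ?_
      unfold mobF
      rw [Int.cast_zero, zero_mul, zero_div, mob_ee_zero, mul_one]
    rw [h1, ← mul_sub, norm_mul, norm_div, norm_one, norm_pow, Complex.norm_real,
      Real.norm_of_nonneg hT0.le]
    have h2 := mob_diff (hsupp T hT) (mobF_norm hbd T) hL
    calc _ ≤ 1 / T ^ 2 * (2 * L) := mul_le_mul_of_nonneg_left h2 (by positivity)
      _ = 2 * L / T ^ 2 := by ring
  have h3 : Tendsto (fun T : ℝ => NT M P d 0 G T - ∑' e : ℕ, (1 / (T : ℂ) ^ 2) *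
      ((ArithmeticFunction.moebius e : ℂ) *
        ∑' k : ℤ × ℤ, mobF M P d G T ((e : ℤ) * k.1, (e : ℤ) * k.2))) atTop (𝓝 0) := by
    rw [tendsto_zero_iff_norm_tendsto_zero]
    refine squeeze_zero' (Eventually.of_forall fun T => norm_nonneg _) ?_ herr
    filter_upwards [eventually_ge_atTop (1 : ℝ)] with T hT
    exact hNT T hT
  have h4 := h3.add hlim
  simpa using h4

end Pool.Agent.ILL
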