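import Pool.Agent.ILL.Ntm
import Pool.Agent.ILL.Mob
import Pool.Agent.ILL.Iot
import Pool.Agent.ILL.Eth
import Pool.Agent.ILL.Ecs

/-!
# FIB. The circle average of a function of the product class

For fixed `α ∈ [1,2]`, `|β| ≤ 2`: `∫_θ Esum (pc φ₁ φ₂ m) d P (M rot θ tri α β dg u) → 0` as `u → ∞`.

PROOF. `T = e^u`. By `esum_pc` the integral is `Σ_{k coprime} e(d k·P) ∫_θ φ₁(ξ₁) φ₂(ξ₂) e(m qq)` (finitely many `k`
matter: `eu_range`, `count_rows`; exchange of a finite sum and the integral, measurability in `θ`). For `k.1 ≠ 0`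
replace `e(m qq)` by `e(m Cc k/k.1)`: by `qq_estimate` (on the support of `φ₂(ξ₂)`, `|ξ₂| ≥ c₀`) and `theta_measure` the
error is at most `Σ_{k} L² (C₂/T²) 2π|m| C₁/(c₀ |k.1| T)`; the number of `k` with given `k.1` and
`eu(rv k M) ≤ C₂T` is `O(T)` and `|k.1| ≤ C T`, so the total error is
`O(T⁻³ · T · Σ_{1 ≤ |A| ≤ CT} 1/|A|) = O(T⁻² log T)` (or simply bound `1/|k.1| ≤ 1`: `O(T⁻³ · T²) = O(T⁻¹)`). The two
coprime `k` with `k.1 = 0` contribute `O(T⁻²)`. By `row_formula` and `iota_eq` the remaining integral over `θ` is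
`iota φ₁ φ₂ α β u (eu (rv k M))`, and by `iota_asym` it is `T⁻² (Gl φ₁ φ₂ α (eu(rv k M)/T) + o(1))`, uniformly; it is
zero unless `eu(rv k M) ≤ C T`: `O(T²)` values of `k`. So the whole integral is `NT M P d m G T + o(1)` with
the function `G` of `Gl_lip` (it agrees with `Gl φ₁ φ₂ α` on the nonnegative numbers), and `nt_m_ne_zero`, `nt_m_zero`.

`fib_bound`: uniformly in `α, β`, `u ≥ u₀`: `∫_θ Σ_γ ‖pc (γ H)‖ ≤ C` (number of `k` is `O(T²)`, each contributes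
`L² C₂/T²`).
-/

open MeasureTheory Set Filter Topology
open scoped ENNReal NNReal

namespace Pool.Agent.ILL

/-! ### preliminaries -/

private theorem fib_ee_lip (x y : ℝ) : ‖ee x - ee y‖ ≤ 2 * Real.pi * |x - y| := by
  have h1 : ee x - ee y = ee y * (ee (x - y) - 1) := by
    rw [mul_sub, ← ee_add, mul_one]
    congr 2
    ring
  rw [h1, norm_mul, norm_ee, one_mul]
  have h2 : ee (x - y) = Complex.exp (Complex.I * ((2 * Real.pi * (x - y) : ℝ) : ℂ)) := by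
    unfold ee
    congr 1
    push_cast
    ring
  rw [h2]
  refine Real.norm_exp_I_mul_ofReal_sub_one_le.trans ?_
  rw [Real.norm_eq_abs, abs_mul, abs_of_pos (by positivity)]

private theorem fib_cont_ee : Continuous ee := by
  unfold ee
  fun_prop

private theorem fib_cont_rot : Continuous rot := by
  refine Continuous.subtype_mk ?_ _
  refine continuous_matrix fun i j => ?_
  fin_cases i <;> fin_cases j <;> simp <;> fun_prop

private theorem fib_cont_H (M : SLR) (α β u : ℝ) :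
    Continuous fun θ : ℝ => M * rot θ * tri α β * dg u :=
  ((continuous_const.mul fib_cont_rot).mul continuous_const).mul continuous_const

private theorem fib_cont_entry (i j : Fin 2) : Continuous fun h : SLR => (h i j : ℝ) :=
  (continuous_apply j).comp ((continuous_apply i).comp continuous_subtype_val)

private theorem fib_cont_rv1 (k : ℤ × ℤ) : Continuous fun h : SLR => (rv k h).1 :=
  (continuous_const.mul (fib_cont_entry 0 0)).add (continuous_const.mul (fib_cont_entry 1 0))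

private theorem fib_cont_rv2 (k : ℤ × ℤ) : Continuous fun h : SLR => (rv k h).2 :=
  (continuous_const.mul (fib_cont_entry 0 1)).add (continuous_const.mul (fib_cont_entry 1 1))

private theorem fib_meas_qq : Measurable qq :=
  (fib_cont_entry 1 1).measurable.div (fib_cont_entry 0 1).measurable

/-- the set of directions -/
private def Th (M : SLR) (c₀ C₀ α β u : ℝ) (k : ℤ × ℤ) : Set ℝ :=
  {θ : ℝ | |(rv k (M * rot θ * tri α β * dg u)).1| ≤ C₀ ∧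
        c₀ ≤ |(rv k (M * rot θ * tri α β * dg u)).2| ∧
        |(rv k (M * rot θ * tri α β * dg u)).2| ≤ C₀}

private theorem fib_meas_Th (M : SLR) (c₀ C₀ α β u : ℝ) (k : ℤ × ℤ) :
    MeasurableSet (Th M c₀ C₀ α β u k) := by
  have h1 : Continuous fun θ : ℝ => |(rv k (M * rot θ * tri α β * dg u)).1| :=
    ((fib_cont_rv1 k).comp (fib_cont_H M α β u)).abs
  have h2 : Continuous fun θ : ℝ => |(rv k (M * rot θ * tri α β * dg u)).2| :=
    ((fib_cont_rv2 k).comp (fib_cont_H M α β u)).abs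
  exact (measurableSet_le h1.measurable measurable_const).inter
    ((measurableSet_le measurable_const h2.measurable).inter
      (measurableSet_le h2.measurable measurable_const))

private theorem fib_cont_phi {φ : ℝ → ℝ} {L : ℝ} (hL : 0 < L)
    (h : ∀ s t, |φ s - φ t| ≤ L * |s - t|) : Continuous φ := by
  refine (LipschitzWith.of_dist_le_mul (K := ⟨L, hL.le⟩) fun s t => ?_).continuous
  rw [Real.dist_eq, Real.dist_eq]
  exact h s t

section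

variable {φ₁ φ₂ : ℝ → ℝ} {c₀ C₀ L : ℝ}

private theorem fib_zero (h : PC φ₁ φ₂ c₀ C₀ L) (ξ : Pl)
    (hξ : ¬ (|ξ.1| ≤ C₀ ∧ c₀ ≤ |ξ.2| ∧ |ξ.2| ≤ C₀)) : φ₁ ξ.1 * φ₂ ξ.2 = 0 := by
  by_cases h1 : |ξ.1| ≤ C₀
  · by_cases h2 : c₀ ≤ |ξ.2|
    · have h3 : C₀ ≤ |ξ.2| := by
        by_contra h4
        exact hξ ⟨h1, h2, (not_le.mp h4).le⟩
      rw [h.sup2 _ h3, mul_zero]
    · rw [h.near _ (not_le.mp h2).le, mul_zero]
  · rw [h.sup1 _ (not_le.mp h1).le, zero_mul]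

private theorem fib_bd (h : PC φ₁ φ₂ c₀ C₀ L) (ξ : Pl) : |φ₁ ξ.1 * φ₂ ξ.2| ≤ L ^ 2 := by
  rw [abs_mul, pow_two]
  exact mul_le_mul (h.bd1 _) (h.bd2 _) (abs_nonneg _) h.L_pos.le

end

private theorem fib_int_le (F : ℝ → ℂ) (Θ : Set ℝ) (hΘ : MeasurableSet Θ) {B V : ℝ} (hB : 0 ≤ B)
    (hV : 0 ≤ V) (hvol : volume (Θ ∩ Icc 0 1) ≤ ENNReal.ofReal V)
    (hF : ∀ θ, θ ∈ Θ → ‖F θ‖ ≤ B) (hF0 : ∀ θ, θ ∉ Θ → F θ = 0) :
    ‖∫ θ in (0 : ℝ)..1, F θ‖ ≤ B * V := by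
  have h1 : ‖∫ θ in (0 : ℝ)..1, F θ‖ₑ ≤ ENNReal.ofReal (B * V) := by
    rw [intervalIntegral.integral_of_le zero_le_one]
    refine (enorm_integral_le_lintegral_enorm _).trans ?_
    have h2 : ∀ θ, ‖F θ‖ₑ ≤ Θ.indicator (fun _ => ENNReal.ofReal B) θ := by
      intro θ
      by_cases hθ : θ ∈ Θ
      · rw [indicator_of_mem hθ, ← ofReal_norm]
        exact ENNReal.ofReal_le_ofReal (hF θ hθ)
      · rw [hF0 θ hθ, enorm_zero]
        exact zero_le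
    refine (lintegral_mono h2).trans ?_
    rw [lintegral_indicator_const hΘ, Measure.restrict_apply hΘ, ENNReal.ofReal_mul hB]
    refine mul_le_mul_right ?_ _
    exact (measure_mono (inter_subset_inter_right _ Ioc_subset_Icc_self)).trans hvol
  rw [← ofReal_norm] at h1
  exact (ENNReal.ofReal_le_ofReal_iff (mul_nonneg hB hV)).mp h1

/-- the first row of `γ H` -/
private theorem fib_row (γ : SLZ) (H : SLR) :
    (toR γ * H) 0 0 = (rv (γ 0 0, γ 0 1) H).1 ∧ (toR γ * H) 0 1 = (rv (γ 0 0, γ 0 1) H).2 := by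
  have h1 : ∀ i j, (toR γ * H) i j = (γ i 0 : ℝ) * H 0 j + (γ i 1 : ℝ) * H 1 j := by
    intro i j
    rw [Matrix.SpecialLinearGroup.coe_mul, Matrix.mul_apply, Fin.sum_univ_two]
    rfl
  exact ⟨h1 0 0, h1 0 1⟩

private theorem fib_row2 (γ : SLZ) (H : SLR) :
    (toR γ * H) 1 1 = (γ 1 0 : ℝ) * H 0 1 + (γ 1 1 : ℝ) * H 1 1 := by
  rw [Matrix.SpecialLinearGroup.coe_mul, Matrix.mul_apply, Fin.sum_univ_two]
  rfl

private theorem fib_inj (H : SLR) {γ γ' : SLZ} (h : toR γ * H ∈ St) (h' : toR γ' * H ∈ St)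
    (h0 : γ 0 0 = γ' 0 0) (h1 : γ 0 1 = γ' 0 1) : γ = γ' := by
  have d1 := γ.det_coe
  have d2 := γ'.det_coe
  rw [Matrix.det_fin_two] at d1 d2
  rw [← h0, ← h1] at d2
  obtain ⟨a1, a2, a3⟩ := h
  obtain ⟨b1, b2, b3⟩ := h'
  set j : ℤ := (γ' 1 0 - γ 1 0) * γ 1 1 - γ 1 0 * (γ' 1 1 - γ 1 1) with hj
  have e1 : γ' 1 0 = γ 1 0 + j * γ 0 0 := by
    rw [hj]
    linear_combination (-(γ' 1 0)) * d1 + (γ 1 0) * d2
  have e2 : γ' 1 1 = γ 1 1 + j * γ 0 1 := by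
    rw [hj]
    linear_combination (-(γ' 1 1)) * d1 + (γ 1 1) * d2
  have r1 := (fib_row γ H).2
  have r2 := (fib_row γ' H).2
  have q1 : qq (toR γ' * H) = qq (toR γ * H) + j := by
    have e3 : (toR γ' * H) 0 1 = (toR γ * H) 0 1 := by
      rw [r1, r2, h0, h1]
    have e4 : (toR γ' * H) 1 1 = (toR γ * H) 1 1 + j * (toR γ * H) 0 1 := by
      rw [fib_row2, fib_row2, r1, e1, e2]
      unfold rv
      push_cast
      ring
    unfold qq
    rw [e3, e4]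
    field_simp
  have hj0 : j = 0 := by
    rw [q1] at b2 b3
    have h2 : (j : ℝ) < 1 := by linarith
    have h3 : (-1 : ℝ) < j := by linarith
    have h4 : j < 1 := by exact_mod_cast h2
    have h5 : -1 < j := by exact_mod_cast h3
    omega
  rw [hj0] at e1 e2
  ext i k
  fin_cases i <;> fin_cases k
  · exact h0
  · exact h1
  · change γ 1 0 = γ' 1 0
    rw [e1]
    ring
  · change γ 1 1 = γ' 1 1
    rw [e2]
    ring

private theorem fib_tsum_le {φ₁ φ₂ : ℝ → ℝ} {c₀ C₀ L : ℝ} (h : PC φ₁ φ₂ c₀ C₀ L) (m : ℤ) (H : SLR)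
    (S : Finset (ℤ × ℤ)) (p : ℤ × ℤ → Prop) [DecidablePred p]
    (hp : ∀ k, p k ↔ (|(rv k H).1| ≤ C₀ ∧ c₀ ≤ |(rv k H).2| ∧ |(rv k H).2| ≤ C₀))
    (hS : ∀ k, p k → k ∈ S) :
    ∑' γ : SLZ, ‖pc φ₁ φ₂ m (toR γ * H)‖ₑ ≤ ∑ k ∈ S, if p k then ENNReal.ofReal (L ^ 2) else 0 := by
  classical
  have h1 : ∑' γ : SLZ, ‖pc φ₁ φ₂ m (toR γ * H)‖ₑ =
      ∑' γ : {γ : SLZ | toR γ * H ∈ St}, ‖pc φ₁ φ₂ m (toR γ.1 * H)‖ₑ := by
    symm
    refine tsum_subtype_eq_of_support_subset (f := fun γ : SLZ => ‖pc φ₁ φ₂ m (toR γ * H)‖ₑ) ?_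
    intro γ hγ
    by_contra h2
    apply hγ
    have h3 : toR γ * H ∉ St := h2
    change ‖pc φ₁ φ₂ m (toR γ * H)‖ₑ = 0
    unfold pc
    rw [if_neg h3, enorm_zero]
  have h2 : ∀ γ : {γ : SLZ | toR γ * H ∈ St}, ‖pc φ₁ φ₂ m (toR γ.1 * H)‖ₑ ≤
      (fun k : ℤ × ℤ => if p k then ENNReal.ofReal (L ^ 2) else 0) (γ.1 0 0, γ.1 0 1) := by
    intro γ
    obtain ⟨r1, r2⟩ := fib_row γ.1 H
    have h3 : ‖pc φ₁ φ₂ m (toR γ.1 * H)‖ =
        |φ₁ (rv (γ.1 0 0, γ.1 0 1) H).1 * φ₂ (rv (γ.1 0 0, γ.1 0 1) H).2| := by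
      have h4 : toR γ.1 * H ∈ St := γ.2
      unfold pc
      rw [if_pos h4, norm_mul, norm_ee, mul_one, r1, r2, norm_mul, Complex.norm_real,
        Complex.norm_real, Real.norm_eq_abs, Real.norm_eq_abs, abs_mul]
    rw [← ofReal_norm, h3]
    dsimp only
    split_ifs with h4
    · exact ENNReal.ofReal_le_ofReal (fib_bd h _)
    · rw [hp] at h4
      rw [fib_zero h _ h4, abs_zero, ENNReal.ofReal_zero]
  rw [h1]
  refine (ENNReal.tsum_le_tsum h2).trans ?_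
  refine (ENNReal.tsum_comp_le_tsum_of_injective (f := fun γ : {γ : SLZ | toR γ * H ∈ St} =>
    (γ.1 0 0, γ.1 0 1)) ?_
    (fun k : ℤ × ℤ => if p k then ENNReal.ofReal (L ^ 2) else 0)).trans ?_
  · intro γ γ' h3
    have h4 := Prod.mk.injEq _ _ _ _ ▸ h3
    exact Subtype.ext (fib_inj H γ.2 γ'.2 h4.1 h4.2)
  · rw [tsum_eq_sum (s := S)]
    intro k hk
    exact if_neg fun h5 => hk (hS k h5)

private theorem fib_card {Cr Cm : ℝ} (hCr : 0 < Cr) (hCm : 0 < Cm) {u : ℝ} (hu : 0 ≤ u) {n : ℕ}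
    (hn : (n : ℝ) ≤ Cr * (1 + Cm * Real.exp u) ^ 2) :
    (n : ℝ) ≤ Cr * (1 + Cm) ^ 2 * Real.exp (2 * u) := by
  refine hn.trans ?_
  have h1 : 1 ≤ Real.exp u := Real.one_le_exp hu
  have h2 : 1 + Cm * Real.exp u ≤ (1 + Cm) * Real.exp u := by nlinarith
  have h3 : (1 + Cm * Real.exp u) ^ 2 ≤ ((1 + Cm) * Real.exp u) ^ 2 :=
    pow_le_pow_left₀ (by positivity) h2 2
  have h4 : Real.exp (2 * u) = Real.exp u ^ 2 := by
    rw [← Real.exp_nat_mul]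
    norm_num
  rw [h4, mul_assoc, ← mul_pow]
  exact mul_le_mul_of_nonneg_left h3 hCr.le

theorem fib_bound (M : SLR) {φ₁ φ₂ : ℝ → ℝ} {c₀ C₀ L : ℝ} (h : PC φ₁ φ₂ c₀ C₀ L) (m : ℤ) :
    ∃ C : ℝ≥0, ∃ u₀ : ℝ, ∀ (α β u : ℝ), 1 ≤ α → α ≤ 2 → |β| ≤ 2 → u₀ ≤ u →
      ∫⁻ θ in Icc (0 : ℝ) 1, ∑' γ : SLZ,
        ‖pc φ₁ φ₂ m (toR γ * (M * rot θ * tri α β * dg u))‖ₑ ≤ C := by
  classical
  obtain ⟨c₂, hc₂, C₂, hC₂, u₁, hr⟩ := eu_range M (C₀ := C₀) h.c_pos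
  obtain ⟨C₃, hC₃, u₂, ht⟩ := theta_measure M (C₀ := C₀) h.c_pos
  obtain ⟨Cr, hCr, hcount⟩ := count_rows M
  refine ⟨Real.toNNReal (Cr * (1 + C₂) ^ 2 * (L ^ 2 * C₃)), max (max u₁ u₂) 0,
    fun α β u h1 h2 hβ hu => ?_⟩
  have hu1 : u₁ ≤ u := (le_max_left _ _).trans ((le_max_left _ _).trans hu)
  have hu2 : u₂ ≤ u := (le_max_right _ _).trans ((le_max_left _ _).trans hu)
  have hu0 : 0 ≤ u := (le_max_right _ _).trans hu
  obtain ⟨hf, hn, -⟩ := hcount (C₂ * Real.exp u) (by positivity)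
  set S : Finset (ℤ × ℤ) := hf.toFinset with hS
  have hSn : (S.card : ℝ) ≤ Cr * (1 + C₂) ^ 2 * Real.exp (2 * u) := by
    refine fib_card hCr hC₂ hu0 ?_
    rwa [ncard_eq_toFinset_card _ hf] at hn
  have e1 : ∀ θ : ℝ, ∑' γ : SLZ, ‖pc φ₁ φ₂ m (toR γ * (M * rot θ * tri α β * dg u))‖ₑ ≤
      ∑ k ∈ S, (Th M c₀ C₀ α β u k).indicator (fun _ => ENNReal.ofReal (L ^ 2)) θ := by
    intro θ
    refine (fib_tsum_le h m (M * rot θ * tri α β * dg u) S
      (fun k => θ ∈ Th M c₀ C₀ α β u k) (fun k => Iff.rfl) ?_).trans (le_of_eq ?_)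
    · rintro k ⟨k1, k2, k3⟩
      rw [hS, Finite.mem_toFinset]
      exact (hr α β u θ h1 h2 hβ hu1 k k1 k2 k3).2
    · refine Finset.sum_congr rfl fun k _ => ?_
      by_cases hk : θ ∈ Th M c₀ C₀ α β u k
      · rw [if_pos hk, indicator_of_mem hk]
      · rw [if_neg hk, indicator_of_notMem hk]
  refine (lintegral_mono e1).trans ?_
  rw [lintegral_finsetSum _ fun k _ => measurable_const.indicator (fib_meas_Th M c₀ C₀ α β u k)]
  have e2 : ∀ k ∈ S, ∫⁻ θ in Icc (0 : ℝ) 1,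
      (Th M c₀ C₀ α β u k).indicator (fun _ => ENNReal.ofReal (L ^ 2)) θ ≤
      ENNReal.ofReal (L ^ 2 * (C₃ * Real.exp (-2 * u))) := by
    intro k _
    rw [lintegral_indicator_const (fib_meas_Th M c₀ C₀ α β u k),
      Measure.restrict_apply (fib_meas_Th M c₀ C₀ α β u k), ENNReal.ofReal_mul (by positivity)]
    exact mul_le_mul_right (ht α β u h1 h2 hβ hu2 k) _
  refine (Finset.sum_le_sum e2).trans ?_
  rw [Finset.sum_const, nsmul_eq_mul, ← ENNReal.ofReal_natCast, ← ENNReal.ofReal_mul (by positivity)]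
  refine ENNReal.ofReal_le_ofReal ?_
  have e3 : Real.exp (2 * u) * Real.exp (-2 * u) = 1 := by
    rw [← Real.exp_add]
    norm_num
  calc (S.card : ℝ) * (L ^ 2 * (C₃ * Real.exp (-2 * u)))
      ≤ (Cr * (1 + C₂) ^ 2 * Real.exp (2 * u)) * (L ^ 2 * (C₃ * Real.exp (-2 * u))) :=
        mul_le_mul_of_nonneg_right hSn (by positivity)
    _ = Cr * (1 + C₂) ^ 2 * (L ^ 2 * C₃) * (Real.exp (2 * u) * Real.exp (-2 * u)) := by ring
    _ = Cr * (1 + C₂) ^ 2 * (L ^ 2 * C₃) := by rw [e3, mul_one]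

theorem Esum_measurable {g : SLR → ℂ} (hg : Measurable g) (d : ℕ) (P : Pl) :
    Measurable (Esum g d P) := by
  unfold Esum
  refine Measurable.tsum fun γ => ?_
  exact (hg.comp (measurable_const_mul (toR γ))).mul_const _

/-- the term of the sum -/
private noncomputable def Tk (φ₁ φ₂ : ℝ → ℝ) (m : ℤ) (d : ℕ) (P : Pl) (k : ℤ × ℤ) (H : SLR) : ℂ :=
  (φ₁ (rv k H).1 : ℂ) * (φ₂ (rv k H).2 : ℂ) * ee ((m : ℝ) * qq (toR (gam k) * H)) *
    ee ((d : ℝ) * dotZ k P)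

section

variable {φ₁ φ₂ : ℝ → ℝ} {c₀ C₀ L : ℝ}

private theorem fib_Tk_meas (h : PC φ₁ φ₂ c₀ C₀ L) (m : ℤ) (d : ℕ) (P : Pl) (k : ℤ × ℤ) :
    Measurable (Tk φ₁ φ₂ m d P k) := by
  have c1 : Measurable φ₁ := (fib_cont_phi h.L_pos h.lip1).measurable
  have c2 : Measurable φ₂ := (fib_cont_phi h.L_pos h.lip2).measurable
  have m1 : Measurable fun H : SLR => (φ₁ (rv k H).1 : ℂ) :=
    Complex.measurable_ofReal.comp (c1.comp (fib_cont_rv1 k).measurable)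
  have m2 : Measurable fun H : SLR => (φ₂ (rv k H).2 : ℂ) :=
    Complex.measurable_ofReal.comp (c2.comp (fib_cont_rv2 k).measurable)
  have m3 : Measurable fun H : SLR => ee ((m : ℝ) * qq (toR (gam k) * H)) :=
    fib_cont_ee.measurable.comp ((fib_meas_qq.comp (measurable_const_mul _)).const_mul _)
  exact ((m1.mul m2).mul m3).mul_const _

private theorem fib_Tk_norm (m : ℤ) (d : ℕ) (P : Pl) (k : ℤ × ℤ)
    (H : SLR) : ‖Tk φ₁ φ₂ m d P k H‖ = |φ₁ (rv k H).1 * φ₂ (rv k H).2| := by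
  unfold Tk
  rw [norm_mul, norm_mul, norm_ee, norm_ee, mul_one, mul_one, norm_mul, Complex.norm_real,
    Complex.norm_real, Real.norm_eq_abs, Real.norm_eq_abs, abs_mul]

private theorem fib_Tk_int (h : PC φ₁ φ₂ c₀ C₀ L) (M : SLR) (m : ℤ) (d : ℕ) (P : Pl) (k : ℤ × ℤ)
    (α β u : ℝ) : IntervalIntegrable
      (fun θ => Tk φ₁ φ₂ m d P k (M * rot θ * tri α β * dg u)) volume 0 1 := by
  rw [intervalIntegrable_iff]
  refine Measure.integrableOn_of_bounded (M := L ^ 2) (by simp) ?_ ?_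
  · exact ((fib_Tk_meas h m d P k).comp (fib_cont_H M α β u).measurable).aestronglyMeasurable
  · refine Eventually.of_forall fun θ => ?_
    rw [fib_Tk_norm]
    exact fib_bd h _

private theorem fib_iota (M : SLR) {α : ℝ} (hα : α ≠ 0) (β u : ℝ) (k : ℤ × ℤ) (w : ℂ) :
    ∫ θ in (0 : ℝ)..1, ((φ₁ (rv k (M * rot θ * tri α β * dg u)).1 : ℂ) *
      (φ₂ (rv k (M * rot θ * tri α β * dg u)).2 : ℂ)) * w =
      (iota φ₁ φ₂ α β u (eu (rv k M)) : ℂ) * w := by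
  rw [intervalIntegral.integral_mul_const]
  congr 1
  rw [← iota_eq α β u (rv k M), ← intervalIntegral.integral_ofReal]
  refine intervalIntegral.integral_congr fun θ _ => ?_
  rw [row_formula M hα β u θ k]
  push_cast
  ring

private theorem fib_case1 (h : PC φ₁ φ₂ c₀ C₀ L) (M : SLR) (m : ℤ) (d : ℕ) (P : Pl) {α β u : ℝ}
    (h1 : 1 ≤ α) (h2 : α ≤ 2) (hβ : |β| ≤ 2) {C₁ V : ℝ} (hC₁ : 0 < C₁) (hV : 0 ≤ V)
    (hq : ∀ (α β u θ c₀ : ℝ), 1 ≤ α → α ≤ 2 → |β| ≤ 2 → 0 < c₀ →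
      ∀ k : ℤ × ℤ, Int.gcd k.1 k.2 = 1 → k.1 ≠ 0 →
      c₀ ≤ |(rv k (M * rot θ * tri α β * dg u)).2| →
      |qq (toR (gam k) * (M * rot θ * tri α β * dg u)) - (Cc k : ℝ) / (k.1 : ℝ)| ≤
        C₁ / (c₀ * |(k.1 : ℝ)| * Real.exp u))
    {k : ℤ × ℤ} (hk : Int.gcd k.1 k.2 = 1) (hk1 : k.1 ≠ 0)
    (hvol : volume (Th M c₀ C₀ α β u k ∩ Icc 0 1) ≤ ENNReal.ofReal V) :
    ‖(∫ θ in (0 : ℝ)..1, Tk φ₁ φ₂ m d P k (M * rot θ * tri α β * dg u)) -
      (iota φ₁ φ₂ α β u (eu (rv k M)) : ℂ) *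
        (ee ((d : ℝ) * dotZ k P) * ee ((m : ℝ) * (Cc k : ℝ) / (k.1 : ℝ)))‖ ≤
      (L ^ 2 * (2 * Real.pi * (|(m : ℝ)| * (C₁ / (c₀ * Real.exp u))))) * V := by
  have hc := h.c_pos
  have hL := h.L_pos
  have hα : α ≠ 0 := by linarith
  have c1 : Continuous φ₁ := fib_cont_phi h.L_pos h.lip1
  have c2 : Continuous φ₂ := fib_cont_phi h.L_pos h.lip2
  have i2 : IntervalIntegrable (fun θ => ((φ₁ (rv k (M * rot θ * tri α β * dg u)).1 : ℂ) *
      (φ₂ (rv k (M * rot θ * tri α β * dg u)).2 : ℂ)) *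
      (ee ((d : ℝ) * dotZ k P) * ee ((m : ℝ) * (Cc k : ℝ) / (k.1 : ℝ)))) volume 0 1 := by
    refine Continuous.intervalIntegrable ?_ _ _
    exact ((Complex.continuous_ofReal.comp (c1.comp ((fib_cont_rv1 k).comp
      (fib_cont_H M α β u)))).mul (Complex.continuous_ofReal.comp (c2.comp ((fib_cont_rv2 k).comp
      (fib_cont_H M α β u))))).mul continuous_const
  rw [← fib_iota M hα β u k, ← intervalIntegral.integral_sub (fib_Tk_int h M m d P k α β u) i2]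
  refine fib_int_le _ (Th M c₀ C₀ α β u k) (fib_meas_Th M c₀ C₀ α β u k) (by positivity) hV hvol
    ?_ ?_
  · rintro θ ⟨t1, t2, t3⟩
    have e1 : Tk φ₁ φ₂ m d P k (M * rot θ * tri α β * dg u) -
        ((φ₁ (rv k (M * rot θ * tri α β * dg u)).1 : ℂ) *
        (φ₂ (rv k (M * rot θ * tri α β * dg u)).2 : ℂ)) *
        (ee ((d : ℝ) * dotZ k P) * ee ((m : ℝ) * (Cc k : ℝ) / (k.1 : ℝ))) =
        ((φ₁ (rv k (M * rot θ * tri α β * dg u)).1 * φ₂ (rv k (M * rot θ * tri α β * dg u)).2 : ℝ)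
          : ℂ) * ee ((d : ℝ) * dotZ k P) *
        (ee ((m : ℝ) * qq (toR (gam k) * (M * rot θ * tri α β * dg u))) -
          ee ((m : ℝ) * (Cc k : ℝ) / (k.1 : ℝ))) := by
      unfold Tk
      push_cast
      ring
    rw [e1, norm_mul, norm_mul, norm_ee, mul_one, Complex.norm_real, Real.norm_eq_abs]
    refine mul_le_mul (fib_bd h _) ?_ (norm_nonneg _) (by positivity)
    refine (fib_ee_lip _ _).trans ?_
    refine mul_le_mul_of_nonneg_left ?_ (by positivity)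
    rw [mul_div_assoc, ← mul_sub, abs_mul]
    refine mul_le_mul_of_nonneg_left ?_ (abs_nonneg _)
    refine (hq α β u θ c₀ h1 h2 hβ hc k hk hk1 t2).trans ?_
    refine div_le_div_of_nonneg_left hC₁.le (by positivity) ?_
    refine mul_le_mul_of_nonneg_right ?_ (Real.exp_pos u).le
    have h3 : (1 : ℝ) ≤ |(k.1 : ℝ)| := by
      have h4 : 1 ≤ |k.1| := Int.one_le_abs hk1
      exact_mod_cast h4
    nlinarith
  · intro θ hθ
    have h3 := fib_zero h (rv k (M * rot θ * tri α β * dg u)) hθ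
    have h4 : Tk φ₁ φ₂ m d P k (M * rot θ * tri α β * dg u) = 0 := by
      rw [← norm_eq_zero, fib_Tk_norm, h3, abs_zero]
    have h5 : (φ₁ (rv k (M * rot θ * tri α β * dg u)).1 : ℂ) *
        (φ₂ (rv k (M * rot θ * tri α β * dg u)).2 : ℂ) = 0 := by
      exact_mod_cast h3
    rw [h4, h5, zero_mul, sub_zero]

private theorem fib_case0 (h : PC φ₁ φ₂ c₀ C₀ L) (M : SLR) (m : ℤ) (d : ℕ) (P : Pl) {α β u : ℝ}
    {V : ℝ} (hV : 0 ≤ V) {k : ℤ × ℤ}
    (hvol : volume (Th M c₀ C₀ α β u k ∩ Icc 0 1) ≤ ENNReal.ofReal V) :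
    ‖∫ θ in (0 : ℝ)..1, Tk φ₁ φ₂ m d P k (M * rot θ * tri α β * dg u)‖ ≤ L ^ 2 * V := by
  refine fib_int_le _ (Th M c₀ C₀ α β u k) (fib_meas_Th M c₀ C₀ α β u k) (by positivity) hV hvol
    ?_ ?_
  · intro θ _
    rw [fib_Tk_norm]
    exact fib_bd h _
  · intro θ hθ
    rw [← norm_eq_zero, fib_Tk_norm, fib_zero h _ hθ, abs_zero]

end

private theorem fib_main (M : SLR) (P : Pl) (d : ℕ) {φ₁ φ₂ : ℝ → ℝ}
    {c₀ C₀ L : ℝ} (h : PC φ₁ φ₂ c₀ C₀ L) (m : ℤ) {α β : ℝ} (h1 : 1 ≤ α) (h2 : α ≤ 2)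
    (hβ : |β| ≤ 2) {G : ℝ → ℝ} {CG : ℝ} (hGe : ∀ ρ, 0 ≤ ρ → G ρ = Gl φ₁ φ₂ α ρ)
    (hG1 : ∀ ρ, CG ≤ ρ → G ρ = 0) :
    ∃ K : ℝ, 0 ≤ K ∧ ∀ ε : ℝ, 0 < ε → ∃ u₀ : ℝ, ∀ u, u₀ ≤ u →
      ‖(∫ θ in (0 : ℝ)..1, Esum (pc φ₁ φ₂ m) d P (M * rot θ * tri α β * dg u)) -
        NT M P d m G (Real.exp u)‖ ≤ K * (ε + Real.exp (-u)) := by
  classical
  obtain ⟨c₂, hc₂, C₂, hC₂, u₁, hr⟩ := eu_range M (C₀ := C₀) h.c_pos
  obtain ⟨C₃, hC₃, u₂, ht⟩ := theta_measure M (C₀ := C₀) h.c_pos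
  obtain ⟨C₁, hC₁, hq⟩ := qq_estimate M
  obtain ⟨Cr, hCr, hcount⟩ := count_rows M
  have hc := h.c_pos
  have hL := h.L_pos
  obtain ⟨Cm, hCm⟩ : ∃ Cm, Cm = max C₂ CG := ⟨_, rfl⟩
  have hCm0 : 0 < Cm := by rw [hCm]; exact lt_max_of_lt_left hC₂
  obtain ⟨A, hA⟩ : ∃ A : ℝ, A = L ^ 2 * (2 * Real.pi * (|(m : ℝ)| * (C₁ / c₀))) * C₃ := ⟨_, rfl⟩
  obtain ⟨K₁, hK₁⟩ : ∃ K₁ : ℝ, K₁ = Cr * (1 + Cm) ^ 2 := ⟨_, rfl⟩
  obtain ⟨K₂, hK₂⟩ : ∃ K₂ : ℝ, K₂ = L ^ 2 * C₃ := ⟨_, rfl⟩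
  have hA0 : 0 ≤ A := by rw [hA]; positivity
  have hK₁0 : 0 ≤ K₁ := by rw [hK₁]; positivity
  have hK₂0 : 0 ≤ K₂ := by rw [hK₂]; positivity
  refine ⟨K₁ * A + K₁ + 2 * K₂, by positivity, fun ε hε => ?_⟩
  obtain ⟨u₃, hio⟩ := iota_asym h hε
  refine ⟨max (max (max u₁ u₂) u₃) 0, fun u hu => ?_⟩
  have hu1 : u₁ ≤ u := (le_max_left _ _).trans ((le_max_left _ _).trans ((le_max_left _ _).trans hu))
  have hu2 : u₂ ≤ u := (le_max_right _ _).trans ((le_max_left _ _).trans ((le_max_left _ _).trans hu))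
  have hu3 : u₃ ≤ u := (le_max_right _ _).trans ((le_max_left _ _).trans hu)
  have hu0 : 0 ≤ u := (le_max_right _ _).trans hu
  obtain ⟨T, hT⟩ : ∃ T, T = Real.exp u := ⟨_, rfl⟩
  have hT0 : 0 < T := by rw [hT]; exact Real.exp_pos u
  have hT1 : 1 ≤ T := by rw [hT]; exact Real.one_le_exp hu0
  have hT2 : Real.exp (2 * u) = T ^ 2 := by
    rw [hT, ← Real.exp_nat_mul]
    norm_num
  have hTm2 : Real.exp (-2 * u) = (T ^ 2)⁻¹ := by
    rw [← hT2, ← Real.exp_neg]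
    congr 1
    ring
  have hTm : Real.exp (-u) = T⁻¹ := by rw [hT, Real.exp_neg]
  obtain ⟨hf, hn, -⟩ := hcount (Cm * Real.exp u) (by positivity)
  obtain ⟨S, hS⟩ : ∃ S : Finset (ℤ × ℤ), S = hf.toFinset := ⟨_, rfl⟩
  have hSn : (S.card : ℝ) ≤ K₁ * T ^ 2 := by
    rw [hK₁, ← hT2]
    refine fib_card hCr hCm0 hu0 ?_
    rwa [ncard_eq_toFinset_card _ hf, ← hS] at hn
  have hmem : ∀ k, k ∉ S → Cm * T < eu (rv k M) := by
    intro k hk
    rw [hS, Finite.mem_toFinset] at hk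
    rw [hT]
    exact not_le.mp hk
  -- the sum over the group
  have e1 : ∀ θ : ℝ, Esum (pc φ₁ φ₂ m) d P (M * rot θ * tri α β * dg u) =
      ∑ k ∈ S, if Int.gcd k.1 k.2 = 1 then
        Tk φ₁ φ₂ m d P k (M * rot θ * tri α β * dg u) else 0 := by
    intro θ
    rw [esum_pc h m d P, tsum_eq_sum (s := S)]
    · refine Finset.sum_congr rfl fun k _ => ?_
      by_cases hk : Int.gcd k.1 k.2 = 1
      · rw [if_pos hk, if_pos hk]
        rfl
      · rw [if_neg hk, if_neg hk]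
    · intro k hk
      by_cases hk1 : Int.gcd k.1 k.2 = 1
      · rw [if_pos hk1]
        have h3 : φ₁ (rv k (M * rot θ * tri α β * dg u)).1 *
            φ₂ (rv k (M * rot θ * tri α β * dg u)).2 = 0 := by
          refine fib_zero h _ ?_
          rintro ⟨k1, k2, k3⟩
          have h4 := (hr α β u θ h1 h2 hβ hu1 k k1 k2 k3).2
          have h5 := hmem k hk
          have h6 : C₂ * Real.exp u ≤ Cm * T := by
            rw [hT, hCm]
            exact mul_le_mul_of_nonneg_right (le_max_left _ _) (Real.exp_pos u).le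
          linarith
        have h4 : (φ₁ (rv k (M * rot θ * tri α β * dg u)).1 : ℂ) *
            (φ₂ (rv k (M * rot θ * tri α β * dg u)).2 : ℂ) = 0 := by
          exact_mod_cast h3
        rw [h4, zero_mul, zero_mul]
      · rw [if_neg hk1]
  have e2 : (∫ θ in (0 : ℝ)..1, Esum (pc φ₁ φ₂ m) d P (M * rot θ * tri α β * dg u)) =
      ∑ k ∈ S, if Int.gcd k.1 k.2 = 1 then
        ∫ θ in (0 : ℝ)..1, Tk φ₁ φ₂ m d P k (M * rot θ * tri α β * dg u) else 0 := by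
    simp only [e1]
    rw [intervalIntegral.integral_finsetSum]
    · refine Finset.sum_congr rfl fun k _ => ?_
      by_cases hk : Int.gcd k.1 k.2 = 1
      · simp only [if_pos hk]
      · simp only [if_neg hk, intervalIntegral.integral_zero]
    · intro k _
      by_cases hk : Int.gcd k.1 k.2 = 1
      · simp only [if_pos hk]
        exact fib_Tk_int h M m d P k α β u
      · simp only [if_neg hk]
        exact intervalIntegrable_const
  -- the arithmetic sum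
  have e3 : NT M P d m G (Real.exp u) =
      ∑ k ∈ S, if Int.gcd k.1 k.2 = 1 ∧ k.1 ≠ 0 then
        (ee ((d : ℝ) * dotZ k P) * ee ((m : ℝ) * (Cc k : ℝ) / (k.1 : ℝ))) *
          ((G (eu (rv k M) / T) / T ^ 2 : ℝ) : ℂ) else 0 := by
    unfold NT
    rw [← hT, tsum_eq_sum (s := S)]
    · rw [Finset.mul_sum]
      refine Finset.sum_congr rfl fun k _ => ?_
      by_cases hk : Int.gcd k.1 k.2 = 1 ∧ k.1 ≠ 0
      · rw [if_pos hk, if_pos hk]
        push_cast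
        ring
      · rw [if_neg hk, if_neg hk, mul_zero]
    · intro k hk
      have h5 : G (eu (rv k M) / T) = 0 := by
        refine hG1 _ ?_
        rw [le_div_iff₀ hT0]
        refine le_trans ?_ (hmem k hk).le
        rw [hCm]
        exact mul_le_mul_of_nonneg_right (le_max_right _ _) hT0.le
      by_cases hk1 : Int.gcd k.1 k.2 = 1 ∧ k.1 ≠ 0
      · rw [if_pos hk1, h5, Complex.ofReal_zero, mul_zero]
      · rw [if_neg hk1]
  rw [e2, e3, ← Finset.sum_sub_distrib]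
  refine (norm_sum_le _ _).trans ?_
  -- the terms
  have hV : 0 ≤ C₃ * Real.exp (-2 * u) := by positivity
  have e4 : ∀ k ∈ S, ‖(if Int.gcd k.1 k.2 = 1 then
        ∫ θ in (0 : ℝ)..1, Tk φ₁ φ₂ m d P k (M * rot θ * tri α β * dg u) else 0) -
      (if Int.gcd k.1 k.2 = 1 ∧ k.1 ≠ 0 then
        (ee ((d : ℝ) * dotZ k P) * ee ((m : ℝ) * (Cc k : ℝ) / (k.1 : ℝ))) *
          ((G (eu (rv k M) / T) / T ^ 2 : ℝ) : ℂ) else 0)‖ ≤
      (A * (T ^ 3)⁻¹ + ε * (T ^ 2)⁻¹) + ((if k = (0, 1) then K₂ * (T ^ 2)⁻¹ else 0) +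
        (if k = (0, -1) then K₂ * (T ^ 2)⁻¹ else 0)) := by
    intro k _
    have p1 : 0 ≤ A * (T ^ 3)⁻¹ := by positivity
    have p2 : 0 ≤ ε * (T ^ 2)⁻¹ := by positivity
    have p3 : 0 ≤ K₂ * (T ^ 2)⁻¹ := by positivity
    have p4 : 0 ≤ (if k = (0, 1) then K₂ * (T ^ 2)⁻¹ else 0) := by split_ifs <;> simp [p3]
    have p5 : 0 ≤ (if k = (0, -1) then K₂ * (T ^ 2)⁻¹ else 0) := by split_ifs <;> simp [p3]
    by_cases hk : Int.gcd k.1 k.2 = 1
    · by_cases hk1 : k.1 = 0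
      · have hk2 : ¬ (Int.gcd k.1 k.2 = 1 ∧ k.1 ≠ 0) := fun h' => h'.2 hk1
        rw [if_pos hk, if_neg hk2, sub_zero]
        have h3 := fib_case0 h M m d P hV (ht α β u h1 h2 hβ hu2 k)
        rw [hTm2] at h3
        have h4 : L ^ 2 * (C₃ * (T ^ 2)⁻¹) = K₂ * (T ^ 2)⁻¹ := by rw [hK₂]; ring
        rw [h4] at h3
        have h5 : k = (0, 1) ∨ k = (0, -1) := by
          obtain ⟨x, y⟩ := k
          dsimp only at hk hk1
          subst hk1
          rw [Int.gcd_zero_left] at hk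
          rcases Int.natAbs_eq y with h6 | h6
          · left
            rw [h6, hk]
            rfl
          · right
            rw [h6, hk]
            rfl
        rcases h5 with h6 | h6
        · rw [if_pos h6]
          linarith
        · rw [if_pos h6]
          linarith
      · have hk2 : Int.gcd k.1 k.2 = 1 ∧ k.1 ≠ 0 := ⟨hk, hk1⟩
        rw [if_pos hk, if_pos hk2]
        have h3 := fib_case1 h M m d P h1 h2 hβ hC₁ hV hq hk hk1 (ht α β u h1 h2 hβ hu2 k)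
        have h4 : (L ^ 2 * (2 * Real.pi * (|(m : ℝ)| * (C₁ / (c₀ * Real.exp u))))) *
            (C₃ * Real.exp (-2 * u)) = A * (T ^ 3)⁻¹ := by
          rw [hTm2, ← hT, hA]
          field_simp
        rw [h4] at h3
        have h5 : |iota φ₁ φ₂ α β u (eu (rv k M)) - G (eu (rv k M) / T) / T ^ 2| ≤
            ε * (T ^ 2)⁻¹ := by
          have h6 := hio α β u (eu (rv k M)) h1 h2 hβ hu3 (Real.sqrt_nonneg _)
          have h8 : 0 ≤ eu (rv k M) / T := div_nonneg (Real.sqrt_nonneg _) hT0.le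
          rw [hT2, ← hT, ← hGe _ h8] at h6
          have h7 : T ^ 2 * (iota φ₁ φ₂ α β u (eu (rv k M)) -
              G (eu (rv k M) / T) / T ^ 2) =
              T ^ 2 * iota φ₁ φ₂ α β u (eu (rv k M)) - G (eu (rv k M) / T) := by
            field_simp
          rw [← h7, abs_mul, abs_of_pos (by positivity : 0 < T ^ 2)] at h6
          rw [← div_eq_mul_inv, le_div_iff₀ (by positivity), mul_comm]
          exact h6
        set w : ℂ := ee ((d : ℝ) * dotZ k P) * ee ((m : ℝ) * (Cc k : ℝ) / (k.1 : ℝ)) with hw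
        have hw1 : ‖w‖ = 1 := by rw [hw, norm_mul, norm_ee, norm_ee, one_mul]
        have h6 : (∫ θ in (0 : ℝ)..1, Tk φ₁ φ₂ m d P k (M * rot θ * tri α β * dg u)) -
            w * ((G (eu (rv k M) / T) / T ^ 2 : ℝ) : ℂ) =
            ((∫ θ in (0 : ℝ)..1, Tk φ₁ φ₂ m d P k (M * rot θ * tri α β * dg u)) -
              (iota φ₁ φ₂ α β u (eu (rv k M)) : ℂ) * w) +
            w * ((iota φ₁ φ₂ α β u (eu (rv k M)) -
              G (eu (rv k M) / T) / T ^ 2 : ℝ) : ℂ) := by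
          push_cast
          ring
        rw [h6]
        refine (norm_add_le _ _).trans ?_
        rw [norm_mul w, hw1, one_mul, Complex.norm_real, Real.norm_eq_abs]
        linarith
    · have hk2 : ¬ (Int.gcd k.1 k.2 = 1 ∧ k.1 ≠ 0) := fun h' => hk h'.1
      rw [if_neg hk, if_neg hk2, sub_zero, norm_zero]
      linarith
  refine (Finset.sum_le_sum e4).trans ?_
  rw [Finset.sum_add_distrib, Finset.sum_const, nsmul_eq_mul, Finset.sum_add_distrib]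
  have e5 : ∀ k₀ : ℤ × ℤ, ∑ k ∈ S, (if k = k₀ then K₂ * (T ^ 2)⁻¹ else 0) ≤ K₂ * T⁻¹ := by
    intro k₀
    rw [Finset.sum_ite_eq']
    have h3 : (T ^ 2)⁻¹ ≤ T⁻¹ := by
      refine inv_anti₀ hT0 ?_
      nlinarith
    have h4 : K₂ * (T ^ 2)⁻¹ ≤ K₂ * T⁻¹ := mul_le_mul_of_nonneg_left h3 hK₂0
    split_ifs
    · exact h4
    · positivity
  have e6 : (S.card : ℝ) * (A * (T ^ 3)⁻¹ + ε * (T ^ 2)⁻¹) ≤ K₁ * A * T⁻¹ + K₁ * ε := by
    have h3 : (S.card : ℝ) * (A * (T ^ 3)⁻¹ + ε * (T ^ 2)⁻¹) ≤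
        (K₁ * T ^ 2) * (A * (T ^ 3)⁻¹ + ε * (T ^ 2)⁻¹) :=
      mul_le_mul_of_nonneg_right hSn (by positivity)
    have h4 : (K₁ * T ^ 2) * (A * (T ^ 3)⁻¹ + ε * (T ^ 2)⁻¹) = K₁ * A * T⁻¹ + K₁ * ε := by
      field_simp
    linarith
  have e7 := e5 (0, 1)
  have e8 := e5 (0, -1)
  rw [hTm]
  have hTi : 0 ≤ T⁻¹ := by positivity
  have q1 : 0 ≤ K₁ * A * ε := by positivity
  have q2 : 0 ≤ K₂ * ε := by positivity
  have q3 : 0 ≤ K₁ * T⁻¹ := by positivity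
  have q4 : (K₁ * A + K₁ + 2 * K₂) * (ε + T⁻¹) = K₁ * A * ε + K₁ * ε + 2 * (K₂ * ε) +
      K₁ * A * T⁻¹ + K₁ * T⁻¹ + 2 * (K₂ * T⁻¹) := by ring
  rw [q4]
  linarith

theorem fib_tendsto (M : SLR) {P : Pl} (hP : ¬ RatP P) {d : ℕ} (hd : 1 ≤ d) {φ₁ φ₂ : ℝ → ℝ}
    {c₀ C₀ L : ℝ} (h : PC φ₁ φ₂ c₀ C₀ L) (m : ℤ) {α β : ℝ} (h1 : 1 ≤ α) (h2 : α ≤ 2)
    (hβ : |β| ≤ 2) :
    Tendsto (fun u : ℝ => ∫ θ in (0 : ℝ)..1,
      Esum (pc φ₁ φ₂ m) d P (M * rot θ * tri α β * dg u)) atTop (𝓝 0) := by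
  obtain ⟨G, hGe, cG, hcG, CG, hCG, L', hL', hG0, hG1, hlip, hbd⟩ := Gl_lip h h1 h2
  obtain ⟨K, hK, hmain⟩ := fib_main M P d h m h1 h2 hβ hGe hG1
  have hNT : Tendsto (fun T : ℝ => NT M P d m G T) atTop (𝓝 0) := by
    by_cases hm : m = 0
    · subst hm
      exact nt_m_zero M hP hd hcG hG0 hG1 hlip hbd
    · exact nt_m_ne_zero M P d hm hcG hG0 hG1 hlip hbd
  have hNT' := hNT.comp Real.tendsto_exp_atTop
  have hexp : Tendsto (fun u : ℝ => Real.exp (-u)) atTop (𝓝 0) :=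
    Real.tendsto_exp_neg_atTop_nhds_zero
  rw [Metric.tendsto_nhds] at hNT' hexp ⊢
  intro ε hε
  have hε' : 0 < ε / (3 * (K + 1)) := by positivity
  obtain ⟨u₀, hu₀⟩ := hmain _ hε'
  filter_upwards [hNT' (ε / 3) (by positivity), hexp _ hε', eventually_ge_atTop u₀] with u a1 a2 a3
  rw [dist_zero_right] at a1 a2 ⊢
  have a4 := hu₀ u a3
  rw [Function.comp_apply] at a1
  rw [Real.norm_eq_abs, abs_of_pos (Real.exp_pos _)] at a2
  have a5 : K * (ε / (3 * (K + 1)) + Real.exp (-u)) ≤ 2 * ε / 3 := by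
    have b1 : K * (ε / (3 * (K + 1)) + Real.exp (-u)) ≤
        K * (ε / (3 * (K + 1)) + ε / (3 * (K + 1))) :=
      mul_le_mul_of_nonneg_left (by linarith) hK
    have b2 : K * (ε / (3 * (K + 1)) + ε / (3 * (K + 1))) ≤
        (K + 1) * (ε / (3 * (K + 1)) + ε / (3 * (K + 1))) :=
      mul_le_mul_of_nonneg_right (by linarith) (by positivity)
    have b3 : (K + 1) * (ε / (3 * (K + 1)) + ε / (3 * (K + 1))) = 2 * ε / 3 := by
      field_simp
      ring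
    linarith
  have a6 := norm_add_le ((∫ θ in (0 : ℝ)..1,
    Esum (pc φ₁ φ₂ m) d P (M * rot θ * tri α β * dg u)) -
        NT M P d m G (Real.exp u)) (NT M P d m G (Real.exp u))
  rw [sub_add_cancel] at a6
  linarith

end Pool.Agent.ILL
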