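import Pool.Agent.ILL.Sfa
import Pool.Agent.ILL.Apx

/-!
# SFC. Charts and labels

`pA_local`: let `q` be an admissible label at `A₀`. There are a chart `(D,c)`, `v ∈ D` and `ε > 0` such that for
`dist A A₀ < ε`: `v + (A - A₀) ∈ D` and `pA (tau right up A₀ A q) A = c (v + (A - A₀))`.
PROOF. (1) `A₀.2 ∉ ℤ`, `A₀.1 ∉ ℤ`: chart `chH q`, `v = fract A₀`; near `A₀` the floors are constant, `tau = 1`.
(2) `A₀.2 ∉ ℤ`, `A₀.1 = i`: chart `chH (right⁻¹ q)`, `v = (1, fract A₀.2)`. Near `A₀`, `tau A₀ A = right^(⌊A.1⌋ - i)`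
(`tau_rowy`). If `A.1 < i`: label `right⁻¹ q`, `fract A.1 = A.1 - i + 1`, the first coordinate of `v + (A - A₀)` is
`1 + (A.1 - i) ≤ 1`: both sides are `pt (right⁻¹ q) (1 + A.1 - i, fract A.2)`. If `A.1 ≥ i`: label `q`, both are
`pt q (A.1 - i, ·)` (for `A.1 = i` by `pt_side`).
(3) `A₀.1 ∉ ℤ`, `A₀.2 = j`: chart `chV (up⁻¹ q)`, `v = (fract A₀.1, 1)`, in the same way (`tau_colx`, `pt_top`).
(4) `A₀` a lattice point: `q₁ = up⁻¹ (right⁻¹ q)`; admissibility gives `right q₁ = up⁻¹ q`, so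
`up (right q₁) = q = right (up q₁)`: chart `chR q₁`, `v = (1,1)`. By `apex_near` (translate with `tau_add_int`) for
`V = A - A₀` small: `tau A₀ A = up^⌊V.2⌋ right^⌊V.1⌋`: labels `q` (both coordinates `≥ 0`), `right⁻¹ q = up q₁`
(`V.1 < 0 ≤ V.2`), `up⁻¹ right⁻¹ q = q₁` (both negative), `up⁻¹ q = right q₁` (`V.2 < 0 ≤ V.1`); these are the tiles of
`chR q₁`, with `pt_side`, `pt_top` on the common sides.

`chart_as_pA`: conversely, for a chart `(D,c)` and `v ∈ D` there are a label `q`, admissible at `v`, and `ε > 0` with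
`v + w ∈ D` and `c (v + w) = pA (tau right up v (v+w) q) (v+w)` for `|w| < ε`. For `chH q'`: `q = q'` if `v.1 < 1`,
`q = right q'` if `v.1 ≥ 1`; `chV q'`: `q'` or `up q'`; for `chR q'` with `v ≠ (1,1)`: the label of the tile containing
`v` (the tiles closed at the left and lower sides), using `up (right q') = right (up q')` for the upper right one; for
`v = (1,1)`: `q = up (right q')`, admissible because `right (up⁻¹ (right⁻¹ q)) = right q' = up⁻¹ q`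
(`right⁻¹ q = up q'`). The verification is as in the first part (same four cases).
-/

open MeasureTheory Set Filter Topology
open scoped ENNReal NNReal

namespace Pool.Agent.ILL

namespace TiledSurface
variable (S : TiledSurface)

private theorem SFC_fl {x : ℝ} {i : ℤ} (h1 : (i : ℝ) ≤ x) (h2 : x < i + 1) : ⌊x⌋ = i :=
  Int.floor_eq_iff.2 ⟨h1, h2⟩

private theorem SFC_lt1 {A₀ : ℝ × ℝ} {c : ℝ} (h : c < A₀.1) : ∀ᶠ A in 𝓝 A₀, c < A.1 :=
  (isOpen_lt continuous_const continuous_fst).mem_nhds h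

private theorem SFC_gt1 {A₀ : ℝ × ℝ} {c : ℝ} (h : A₀.1 < c) : ∀ᶠ A in 𝓝 A₀, A.1 < c :=
  (isOpen_lt continuous_fst continuous_const).mem_nhds h

private theorem SFC_lt2 {A₀ : ℝ × ℝ} {c : ℝ} (h : c < A₀.2) : ∀ᶠ A in 𝓝 A₀, c < A.2 :=
  (isOpen_lt continuous_const continuous_snd).mem_nhds h

private theorem SFC_gt2 {A₀ : ℝ × ℝ} {c : ℝ} (h : A₀.2 < c) : ∀ᶠ A in 𝓝 A₀, A.2 < c :=
  (isOpen_lt continuous_snd continuous_const).mem_nhds h

private theorem SFC_I (q : S.Tile) {A₀ : ℝ × ℝ} {i j : ℤ} (h1 : (i : ℝ) < A₀.1) (h2 : A₀.1 < i + 1)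
    (h3 : (j : ℝ) < A₀.2) (h4 : A₀.2 < j + 1) :
    ∀ᶠ A in 𝓝 A₀, S.pA (tau S.right S.up A₀ A q) A = S.pt q (A.1 - i, A.2 - j) := by
  filter_upwards [SFC_lt1 h1, SFC_gt1 h2, SFC_lt2 h3, SFC_gt2 h4] with A a1 a2 a3 a4
  rw [tau_colx _ _ ((SFC_fl h1.le h2).trans (SFC_fl a1.le a2).symm), SFC_fl h3.le h4, SFC_fl a3.le a4,
    sub_self, zpow_zero, Equiv.Perm.one_apply, S.pA_eq_pt q A i j a1.le a2 a3.le a4]

private theorem SFC_H (q : S.Tile) {A₀ : ℝ × ℝ} {i j : ℤ} (h1 : A₀.1 = i) (h3 : (j : ℝ) < A₀.2)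
    (h4 : A₀.2 < j + 1) :
    ∀ᶠ A in 𝓝 A₀, S.pA (tau S.right S.up A₀ A q) A =
      if A.1 ≤ i then S.pt (S.right⁻¹ q) (A.1 - i + 1, A.2 - j) else S.pt q (A.1 - i, A.2 - j) := by
  have e1 : (i : ℝ) - 1 < A₀.1 := by rw [h1]; linarith
  have e2 : A₀.1 < (i : ℝ) + 1 := by rw [h1]; linarith
  filter_upwards [SFC_lt1 e1, SFC_gt1 e2, SFC_lt2 h3, SFC_gt2 h4] with A a1 a2 a3 a4
  rw [tau_rowy _ _ ((SFC_fl h3.le h4).trans (SFC_fl a3.le a4).symm), SFC_fl h1.ge e2]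
  rcases lt_trichotomy A.1 i with h | h | h
  · have hf : ⌊A.1⌋ = i - 1 := SFC_fl (by push_cast; exact a1.le) (by push_cast; linarith)
    rw [if_pos h.le, hf, sub_sub_cancel_left, zpow_neg_one,
      S.pA_eq_pt _ A (i - 1) j (by push_cast; exact a1.le) (by push_cast; linarith) a3.le a4]
    congr 2
    push_cast
    ring
  · rw [if_pos h.le, SFC_fl h.ge a2, sub_self, zpow_zero, Equiv.Perm.one_apply,
      S.pA_eq_pt _ A i j h.ge a2 a3.le a4, h, sub_self, zero_add, S.pt_side]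
    congr 1
    rw [← Equiv.Perm.mul_apply, mul_inv_cancel, Equiv.Perm.one_apply]
  · rw [if_neg (not_le.2 h), SFC_fl h.le a2, sub_self, zpow_zero, Equiv.Perm.one_apply,
      S.pA_eq_pt _ A i j h.le a2 a3.le a4]

private theorem SFC_V (q : S.Tile) {A₀ : ℝ × ℝ} {i j : ℤ} (h1 : (i : ℝ) < A₀.1) (h2 : A₀.1 < i + 1)
    (h3 : A₀.2 = j) :
    ∀ᶠ A in 𝓝 A₀, S.pA (tau S.right S.up A₀ A q) A =
      if A.2 ≤ j then S.pt (S.up⁻¹ q) (A.1 - i, A.2 - j + 1) else S.pt q (A.1 - i, A.2 - j) := by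
  have e1 : (j : ℝ) - 1 < A₀.2 := by rw [h3]; linarith
  have e2 : A₀.2 < (j : ℝ) + 1 := by rw [h3]; linarith
  filter_upwards [SFC_lt1 h1, SFC_gt1 h2, SFC_lt2 e1, SFC_gt2 e2] with A a1 a2 a3 a4
  rw [tau_colx _ _ ((SFC_fl h1.le h2).trans (SFC_fl a1.le a2).symm), SFC_fl h3.ge e2]
  rcases lt_trichotomy A.2 j with h | h | h
  · have hf : ⌊A.2⌋ = j - 1 := SFC_fl (by push_cast; exact a3.le) (by push_cast; linarith)
    rw [if_pos h.le, hf, sub_sub_cancel_left, zpow_neg_one,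
      S.pA_eq_pt _ A i (j - 1) a1.le a2 (by push_cast; exact a3.le) (by push_cast; linarith)]
    congr 2
    push_cast
    ring
  · rw [if_pos h.le, SFC_fl h.ge a4, sub_self, zpow_zero, Equiv.Perm.one_apply,
      S.pA_eq_pt _ A i j a1.le a2 h.ge a4, h, sub_self, zero_add, S.pt_top]
    congr 1
    rw [← Equiv.Perm.mul_apply, mul_inv_cancel, Equiv.Perm.one_apply]
  · rw [if_neg (not_le.2 h), SFC_fl h.le a4, sub_self, zpow_zero, Equiv.Perm.one_apply,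
      S.pA_eq_pt _ A i j a1.le a2 h.le a4]

private theorem SFC_R (q : S.Tile) (hq : S.right (S.up q) = S.up (S.right q)) {A₀ : ℝ × ℝ} {i j : ℤ}
    (h1 : A₀.1 = i) (h3 : A₀.2 = j) :
    ∀ᶠ A in 𝓝 A₀, S.pA (tau S.right S.up A₀ A (S.right (S.up q))) A =
      if A.2 ≤ j then (if A.1 ≤ i then S.pt q (A.1 - i + 1, A.2 - j + 1)
        else S.pt (S.right q) (A.1 - i, A.2 - j + 1))
      else (if A.1 ≤ i then S.pt (S.up q) (A.1 - i + 1, A.2 - j)
        else S.pt (S.right (S.up q)) (A.1 - i, A.2 - j)) := by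
  have e1 : (i : ℝ) - 1 < A₀.1 := by rw [h1]; linarith
  have e2 : A₀.1 < (i : ℝ) + 1 := by rw [h1]; linarith
  have e3 : (j : ℝ) - 1 < A₀.2 := by rw [h3]; linarith
  have e4 : A₀.2 < (j : ℝ) + 1 := by rw [h3]; linarith
  filter_upwards [SFC_lt1 e1, SFC_gt1 e2, SFC_lt2 e3, SFC_gt2 e4] with A a1 a2 a3 a4
  have hA0 : A₀ = ((0, 0) : ℝ × ℝ) + ZP (i, j) := by
    unfold ZP
    exact Prod.ext (by simp [h1]) (by simp [h3])
  have hA : A = (A.1 - i, A.2 - j) + ZP (i, j) := by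
    unfold ZP
    exact Prod.ext (by simp) (by simp)
  have htau : tau S.right S.up A₀ A = S.up ^ ⌊A.2 - j⌋ * S.right ^ ⌊A.1 - i⌋ := by
    rw [hA0, hA, tau_add_int, apex_near]
    · unfold ZP
      simp
    · show |A.1 - i| < 1
      rw [abs_lt]
      constructor <;> linarith
    · show |A.2 - j| < 1
      rw [abs_lt]
      constructor <;> linarith
  have fa : A.1 < i → ⌊A.1 - i⌋ = -1 := fun h => SFC_fl (by push_cast; linarith) (by push_cast; linarith)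
  have fb : (i : ℝ) ≤ A.1 → ⌊A.1 - i⌋ = 0 := fun h => SFC_fl (by push_cast; linarith) (by push_cast; linarith)
  have fc : A.2 < j → ⌊A.2 - j⌋ = -1 := fun h => SFC_fl (by push_cast; linarith) (by push_cast; linarith)
  have fd : (j : ℝ) ≤ A.2 → ⌊A.2 - j⌋ = 0 := fun h => SFC_fl (by push_cast; linarith) (by push_cast; linarith)
  have inv : ∀ (f : Equiv.Perm S.Tile) (x : S.Tile), f⁻¹ (f x) = x := fun f x => by
    rw [← Equiv.Perm.mul_apply, inv_mul_cancel, Equiv.Perm.one_apply]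
  rw [htau, Equiv.Perm.mul_apply]
  rcases lt_or_ge A.1 (i : ℝ) with h | h
  · rw [fa h, zpow_neg_one, inv, if_pos h.le, if_pos h.le]
    rcases lt_or_ge A.2 (j : ℝ) with h' | h'
    · rw [fc h', zpow_neg_one, inv, if_pos h'.le,
        S.pA_eq_pt _ A (i - 1) (j - 1) (by push_cast; exact a1.le) (by push_cast; linarith)
          (by push_cast; exact a3.le) (by push_cast; linarith)]
      congr 2
      · push_cast
        ring
      · push_cast
        ring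
    · rw [fd h', zpow_zero, Equiv.Perm.one_apply,
        S.pA_eq_pt _ A (i - 1) j (by push_cast; exact a1.le) (by push_cast; linarith) h' a4]
      have e5 : A.1 - ((i - 1 : ℤ) : ℝ) = A.1 - i + 1 := by
        push_cast
        ring
      rw [e5]
      split_ifs with h6
      · have h7 : A.2 = j := le_antisymm h6 h'
        rw [h7, sub_self, zero_add, S.pt_top]
      · rfl
  · rw [fb h, zpow_zero, Equiv.Perm.one_apply]
    rcases lt_or_ge A.2 (j : ℝ) with h' | h'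
    · rw [fc h', zpow_neg_one, hq, inv, if_pos h'.le,
        S.pA_eq_pt _ A i (j - 1) h a2 (by push_cast; exact a3.le) (by push_cast; linarith)]
      have e5 : A.2 - ((j - 1 : ℤ) : ℝ) = A.2 - j + 1 := by
        push_cast
        ring
      rw [e5]
      split_ifs with h6
      · have h7 : A.1 = i := le_antisymm h6 h
        rw [h7, sub_self, zero_add, S.pt_side]
      · rfl
    · rw [fd h', zpow_zero, Equiv.Perm.one_apply, S.pA_eq_pt _ A i j h a2 h' a4]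
      split_ifs with h6 h7 h7
      · have h8 : A.2 = j := le_antisymm h6 h'
        have h9 : A.1 = i := le_antisymm h7 h
        rw [h8, h9, sub_self, sub_self, zero_add, S.pt_side, S.pt_top, hq]
      · have h8 : A.2 = j := le_antisymm h6 h'
        rw [h8, sub_self, zero_add, S.pt_top, hq]
      · have h9 : A.1 = i := le_antisymm h7 h
        rw [h9, sub_self, zero_add, S.pt_side]
      · rfl

private theorem SFC_nl {A : ℝ × ℝ} {i j : ℤ} (h : ((i : ℝ) < A.1 ∧ A.1 < i + 1) ∨ ((j : ℝ) < A.2 ∧ A.2 < j + 1)) :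
    ∀ z : ℤ × ℤ, ZP z ≠ A := by
  intro z hz
  unfold ZP at hz
  have g1 : A.1 = z.1 := by rw [← hz]
  have g2 : A.2 = z.2 := by rw [← hz]
  rcases h with ⟨h1, h2⟩ | ⟨h1, h2⟩
  · rw [g1] at h1 h2
    have h3 : i < z.1 := by exact_mod_cast h1
    have h4 : z.1 < i + 1 := by exact_mod_cast h2
    omega
  · rw [g2] at h1 h2
    have h3 : j < z.2 := by exact_mod_cast h1
    have h4 : z.2 < j + 1 := by exact_mod_cast h2
    omega

private theorem SFC_fin {A₀ : ℝ × ℝ} {q : S.Tile} {D : Set (ℝ × ℝ)} {c : ℝ × ℝ → S.X} (hc : S.IsChart D c)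
    (hD : IsOpen D) {v : ℝ × ℝ} (hv : v ∈ D)
    (h : ∀ᶠ A in 𝓝 A₀, S.pA (tau S.right S.up A₀ A q) A = c (v + (A - A₀))) :
    ∃ D c, S.IsChart D c ∧ ∃ v ∈ D, ∃ ε > 0, ∀ A : ℝ × ℝ, dist A A₀ < ε →
      v + (A - A₀) ∈ D ∧ S.pA (tau S.right S.up A₀ A q) A = c (v + (A - A₀)) := by
  have h1 : ∀ᶠ A in 𝓝 A₀, v + (A - A₀) ∈ D := by
    have h2 : Continuous fun A : ℝ × ℝ => v + (A - A₀) := by fun_prop
    have h3 : v + (A₀ - A₀) ∈ D := by rwa [sub_self, add_zero]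
    exact (hD.preimage h2).mem_nhds h3
  obtain ⟨ε, hε, h4⟩ := Metric.eventually_nhds_iff.1 (h1.and h)
  exact ⟨D, c, hc, v, hv, ε, hε, fun A hA => h4 hA⟩

private theorem SFC_chH (q : S.Tile) (A : ℝ × ℝ) :
    S.chH q A = if A.1 ≤ 1 then S.pt q (A.1, A.2) else S.pt (S.right q) (A.1 - 1, A.2) := rfl

private theorem SFC_chV (q : S.Tile) (A : ℝ × ℝ) :
    S.chV q A = if A.2 ≤ 1 then S.pt q (A.1, A.2) else S.pt (S.up q) (A.1, A.2 - 1) := rfl

private theorem SFC_chR (q : S.Tile) (A : ℝ × ℝ) :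
    S.chR q A = if A.2 ≤ 1 then (if A.1 ≤ 1 then S.pt q (A.1, A.2) else S.pt (S.right q) (A.1 - 1, A.2))
      else (if A.1 ≤ 1 then S.pt (S.up q) (A.1, A.2 - 1) else S.pt (S.right (S.up q)) (A.1 - 1, A.2 - 1)) := rfl

theorem pA_local {q : S.Tile} {A₀ : ℝ × ℝ} (ha : adm S.right S.up A₀ q) :
    ∃ D c, S.IsChart D c ∧ ∃ v ∈ D, ∃ ε > 0, ∀ A : ℝ × ℝ, dist A A₀ < ε →
      v + (A - A₀) ∈ D ∧ S.pA (tau S.right S.up A₀ A q) A = c (v + (A - A₀)) := by
  obtain ⟨i, hi1, hi2⟩ : ∃ i : ℤ, (i : ℝ) ≤ A₀.1 ∧ A₀.1 < i + 1 := ⟨_, Int.floor_le _, Int.lt_floor_add_one _⟩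
  obtain ⟨j, hj1, hj2⟩ : ∃ j : ℤ, (j : ℝ) ≤ A₀.2 ∧ A₀.2 < j + 1 := ⟨_, Int.floor_le _, Int.lt_floor_add_one _⟩
  have ai : ∀ (f : Equiv.Perm S.Tile) (x : S.Tile), f (f⁻¹ x) = x := fun f x => by
    rw [← Equiv.Perm.mul_apply, mul_inv_cancel, Equiv.Perm.one_apply]
  rcases hi1.lt_or_eq with h1 | h1
  · rcases hj1.lt_or_eq with h2 | h2
    · refine S.SFC_fin (Or.inl ⟨q, rfl, rfl⟩) (isOpen_Ioo.prod isOpen_Ioo) (v := (A₀.1 - i, A₀.2 - j))
        ⟨⟨by show 0 < A₀.1 - i; linarith, by show A₀.1 - i < 2; linarith⟩,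
          ⟨by show 0 < A₀.2 - j; linarith, by show A₀.2 - j < 1; linarith⟩⟩ ?_
      filter_upwards [S.SFC_I q h1 hi2 h2 hj2, SFC_gt1 hi2] with A hA a1
      rw [hA, SFC_chH, if_pos]
      · congr 2 <;> simp
      · show A₀.1 - i + (A.1 - A₀.1) ≤ 1
        linarith
    · refine S.SFC_fin (Or.inr (Or.inl ⟨S.up⁻¹ q, rfl, rfl⟩)) (isOpen_Ioo.prod isOpen_Ioo) (v := (A₀.1 - i, 1))
        ⟨⟨by show 0 < A₀.1 - i; linarith, by show A₀.1 - i < 1; linarith⟩,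
          ⟨by norm_num, by norm_num⟩⟩ ?_
      filter_upwards [S.SFC_V q h1 hi2 h2.symm] with A hA
      rw [hA, SFC_chV, ai]
      have e1 : ((A₀.1 - i, (1 : ℝ)) + (A - A₀)).1 = A.1 - i := by simp
      have e2 : ((A₀.1 - i, (1 : ℝ)) + (A - A₀)).2 = A.2 - j + 1 := by simp [h2]; ring
      rw [e1, e2]
      have e3 : (A.2 - j + 1 ≤ 1) ↔ A.2 ≤ j := by constructor <;> intro <;> linarith
      simp only [e3, add_sub_cancel_right]
  · rcases hj1.lt_or_eq with h2 | h2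
    · refine S.SFC_fin (Or.inl ⟨S.right⁻¹ q, rfl, rfl⟩) (isOpen_Ioo.prod isOpen_Ioo) (v := (1, A₀.2 - j))
        ⟨⟨by norm_num, by norm_num⟩,
          ⟨by show 0 < A₀.2 - j; linarith, by show A₀.2 - j < 1; linarith⟩⟩ ?_
      filter_upwards [S.SFC_H q h1.symm h2 hj2] with A hA
      rw [hA, SFC_chH, ai]
      have e1 : (((1 : ℝ), A₀.2 - j) + (A - A₀)).1 = A.1 - i + 1 := by simp [h1]; ring
      have e2 : (((1 : ℝ), A₀.2 - j) + (A - A₀)).2 = A.2 - j := by simp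
      rw [e1, e2]
      have e3 : (A.1 - i + 1 ≤ 1) ↔ A.1 ≤ i := by constructor <;> intro <;> linarith
      simp only [e3, add_sub_cancel_right]
    · have hreg : S.right (S.up⁻¹ (S.right⁻¹ q)) = S.up⁻¹ q := by
        rcases ha with h3 | h3
        · exfalso
          apply h3 (i, j)
          unfold ZP
          exact Prod.ext h1 h2
        · exact h3
      obtain ⟨p, hp⟩ : ∃ p, p = S.up⁻¹ (S.right⁻¹ q) := ⟨_, rfl⟩
      have hq1 : S.right (S.up p) = q := by rw [hp, ai, ai]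
      have hq2 : S.up (S.right p) = q := by rw [hp, hreg, ai]
      refine S.SFC_fin (Or.inr (Or.inr ⟨p, hq1.trans hq2.symm, rfl, rfl⟩)) (isOpen_Ioo.prod isOpen_Ioo) (v := (1, 1))
        ⟨⟨by norm_num, by norm_num⟩, ⟨by norm_num, by norm_num⟩⟩ ?_
      filter_upwards [S.SFC_R p (hq1.trans hq2.symm) h1.symm h2.symm] with A hA
      rw [hq1] at hA
      rw [hA, SFC_chR, hq1]
      have e1 : (((1 : ℝ), (1 : ℝ)) + (A - A₀)).1 = A.1 - i + 1 := by simp [h1]; ring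
      have e2 : (((1 : ℝ), (1 : ℝ)) + (A - A₀)).2 = A.2 - j + 1 := by simp [h2]; ring
      rw [e1, e2]
      have e3 : (A.1 - i + 1 ≤ 1) ↔ A.1 ≤ i := by constructor <;> intro <;> linarith
      have e4 : (A.2 - j + 1 ≤ 1) ↔ A.2 ≤ j := by constructor <;> intro <;> linarith
      simp only [e3, e4, add_sub_cancel_right]

private theorem SFC_fin2 {v : ℝ × ℝ} {q : S.Tile} {D : Set (ℝ × ℝ)} {c : ℝ × ℝ → S.X}
    (hD : IsOpen D) (hv : v ∈ D) (ha : adm S.right S.up v q)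
    (h : ∀ᶠ A in 𝓝 v, S.pA (tau S.right S.up v A q) A = c A) :
    ∃ q : S.Tile, adm S.right S.up v q ∧ ∃ ε > 0, ∀ w : ℝ × ℝ, dist w 0 < ε →
      v + w ∈ D ∧ c (v + w) = S.pA (tau S.right S.up v (v + w) q) (v + w) := by
  have h1 : ∀ᶠ A in 𝓝 v, A ∈ D := hD.mem_nhds hv
  obtain ⟨ε, hε, h4⟩ := Metric.eventually_nhds_iff.1 (h1.and h)
  refine ⟨q, ha, ε, hε, fun w hw => ?_⟩
  have h5 : dist (v + w) v < ε := by rwa [dist_self_add_left, ← dist_zero_right]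
  exact ⟨(h4 h5).1, (h4 h5).2.symm⟩

theorem chart_as_pA {D : Set (ℝ × ℝ)} {c : ℝ × ℝ → S.X} (hc : S.IsChart D c) {v : ℝ × ℝ}
    (hv : v ∈ D) : ∃ q : S.Tile, adm S.right S.up v q ∧ ∃ ε > 0, ∀ w : ℝ × ℝ, dist w 0 < ε →
      v + w ∈ D ∧ c (v + w) = S.pA (tau S.right S.up v (v + w) q) (v + w) := by
  have ia : ∀ (f : Equiv.Perm S.Tile) (x : S.Tile), f⁻¹ (f x) = x := fun f x => by
    rw [← Equiv.Perm.mul_apply, inv_mul_cancel, Equiv.Perm.one_apply]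
  have z0 : ((0 : ℤ) : ℝ) = 0 := Int.cast_zero
  have z1 : ((1 : ℤ) : ℝ) = 1 := Int.cast_one
  rcases hc with ⟨q, rfl, rfl⟩ | ⟨q, rfl, rfl⟩ | ⟨q, hq, rfl, rfl⟩
  · obtain ⟨⟨v1, v2⟩, ⟨v3, v4⟩⟩ := hv
    have hopen : IsOpen (Ioo (0 : ℝ) 2 ×ˢ Ioo (0 : ℝ) 1) := isOpen_Ioo.prod isOpen_Ioo
    have hadm : ∀ q', adm S.right S.up v q' := fun q' =>
      Or.inl (SFC_nl (i := 0) (j := 0) (Or.inr ⟨by rw [z0]; exact v3, by rw [z0, zero_add]; exact v4⟩))
    rcases lt_trichotomy v.1 1 with h | h | h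
    · refine S.SFC_fin2 hopen ⟨⟨v1, v2⟩, ⟨v3, v4⟩⟩ (hadm q) ?_
      filter_upwards [S.SFC_I q (i := 0) (j := 0) (by rw [z0]; exact v1) (by rw [z0, zero_add]; exact h)
        (by rw [z0]; exact v3) (by rw [z0, zero_add]; exact v4), SFC_gt1 h] with A hA a1
      rw [hA, SFC_chH, if_pos a1.le, z0, sub_zero, sub_zero]
    · refine S.SFC_fin2 hopen ⟨⟨v1, v2⟩, ⟨v3, v4⟩⟩ (hadm (S.right q)) ?_
      filter_upwards [S.SFC_H (S.right q) (i := 1) (j := 0) (by rw [z1]; exact h)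
        (by rw [z0]; exact v3) (by rw [z0, zero_add]; exact v4)] with A hA
      rw [hA, SFC_chH, z0, z1, sub_zero, sub_add_cancel, ia]
    · refine S.SFC_fin2 hopen ⟨⟨v1, v2⟩, ⟨v3, v4⟩⟩ (hadm (S.right q)) ?_
      filter_upwards [S.SFC_I (S.right q) (i := 1) (j := 0) (by rw [z1]; exact h) (by rw [z1]; linarith)
        (by rw [z0]; exact v3) (by rw [z0, zero_add]; exact v4), SFC_lt1 h] with A hA a1
      rw [hA, SFC_chH, if_neg (not_le.2 a1), z0, z1, sub_zero]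
  · obtain ⟨⟨v1, v2⟩, ⟨v3, v4⟩⟩ := hv
    have hopen : IsOpen (Ioo (0 : ℝ) 1 ×ˢ Ioo (0 : ℝ) 2) := isOpen_Ioo.prod isOpen_Ioo
    have hadm : ∀ q', adm S.right S.up v q' := fun q' =>
      Or.inl (SFC_nl (i := 0) (j := 0) (Or.inl ⟨by rw [z0]; exact v1, by rw [z0, zero_add]; exact v2⟩))
    rcases lt_trichotomy v.2 1 with h | h | h
    · refine S.SFC_fin2 hopen ⟨⟨v1, v2⟩, ⟨v3, v4⟩⟩ (hadm q) ?_
      filter_upwards [S.SFC_I q (i := 0) (j := 0) (by rw [z0]; exact v1) (by rw [z0, zero_add]; exact v2)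
        (by rw [z0]; exact v3) (by rw [z0, zero_add]; exact h), SFC_gt2 h] with A hA a1
      rw [hA, SFC_chV, if_pos a1.le, z0, sub_zero, sub_zero]
    · refine S.SFC_fin2 hopen ⟨⟨v1, v2⟩, ⟨v3, v4⟩⟩ (hadm (S.up q)) ?_
      filter_upwards [S.SFC_V (S.up q) (i := 0) (j := 1) (by rw [z0]; exact v1) (by rw [z0, zero_add]; exact v2)
        (by rw [z1]; exact h)] with A hA
      rw [hA, SFC_chV, z0, z1, sub_zero, sub_add_cancel, ia]
    · refine S.SFC_fin2 hopen ⟨⟨v1, v2⟩, ⟨v3, v4⟩⟩ (hadm (S.up q)) ?_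
      filter_upwards [S.SFC_I (S.up q) (i := 0) (j := 1) (by rw [z0]; exact v1) (by rw [z0, zero_add]; exact v2)
        (by rw [z1]; exact h) (by rw [z1]; linarith), SFC_lt2 h] with A hA a1
      rw [hA, SFC_chV, if_neg (not_le.2 a1), z0, z1, sub_zero]
  · obtain ⟨⟨v1, v2⟩, ⟨v3, v4⟩⟩ := hv
    have hopen : IsOpen (Ioo (0 : ℝ) 2 ×ˢ Ioo (0 : ℝ) 2) := isOpen_Ioo.prod isOpen_Ioo
    have f1 : v.1 < 1 → ∀ q', adm S.right S.up v q' := fun h q' =>
      Or.inl (SFC_nl (i := 0) (j := 0) (Or.inl ⟨by rw [z0]; exact v1, by rw [z0, zero_add]; exact h⟩))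
    have f2 : 1 < v.1 → ∀ q', adm S.right S.up v q' := fun h q' =>
      Or.inl (SFC_nl (i := 1) (j := 0) (Or.inl ⟨by rw [z1]; exact h, by rw [z1]; linarith⟩))
    have f3 : v.2 < 1 → ∀ q', adm S.right S.up v q' := fun h q' =>
      Or.inl (SFC_nl (i := 0) (j := 0) (Or.inr ⟨by rw [z0]; exact v3, by rw [z0, zero_add]; exact h⟩))
    have f4 : 1 < v.2 → ∀ q', adm S.right S.up v q' := fun h q' =>
      Or.inl (SFC_nl (i := 0) (j := 1) (Or.inr ⟨by rw [z1]; exact h, by rw [z1]; linarith⟩))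
    rcases lt_trichotomy v.2 1 with h' | h' | h'
    · rcases lt_trichotomy v.1 1 with h | h | h
      · refine S.SFC_fin2 hopen ⟨⟨v1, v2⟩, ⟨v3, v4⟩⟩ (f1 h q) ?_
        filter_upwards [S.SFC_I q (i := 0) (j := 0) (by rw [z0]; exact v1) (by rw [z0, zero_add]; exact h)
          (by rw [z0]; exact v3) (by rw [z0, zero_add]; exact h'), SFC_gt1 h, SFC_gt2 h'] with A hA a1 a2
        rw [hA, SFC_chR, if_pos a2.le, if_pos a1.le, z0, sub_zero, sub_zero]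
      · refine S.SFC_fin2 hopen ⟨⟨v1, v2⟩, ⟨v3, v4⟩⟩ (f3 h' (S.right q)) ?_
        filter_upwards [S.SFC_H (S.right q) (i := 1) (j := 0) (by rw [z1]; exact h)
          (by rw [z0]; exact v3) (by rw [z0, zero_add]; exact h'), SFC_gt2 h'] with A hA a2
        rw [hA, SFC_chR, if_pos a2.le, z0, z1, sub_zero, sub_add_cancel, ia]
      · refine S.SFC_fin2 hopen ⟨⟨v1, v2⟩, ⟨v3, v4⟩⟩ (f2 h (S.right q)) ?_
        filter_upwards [S.SFC_I (S.right q) (i := 1) (j := 0) (by rw [z1]; exact h) (by rw [z1]; linarith)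
          (by rw [z0]; exact v3) (by rw [z0, zero_add]; exact h'), SFC_lt1 h, SFC_gt2 h'] with A hA a1 a2
        rw [hA, SFC_chR, if_pos a2.le, if_neg (not_le.2 a1), z0, z1, sub_zero]
    · rcases lt_trichotomy v.1 1 with h | h | h
      · refine S.SFC_fin2 hopen ⟨⟨v1, v2⟩, ⟨v3, v4⟩⟩ (f1 h (S.up q)) ?_
        filter_upwards [S.SFC_V (S.up q) (i := 0) (j := 1) (by rw [z0]; exact v1) (by rw [z0, zero_add]; exact h)
          (by rw [z1]; exact h'), SFC_gt1 h] with A hA a1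
        rw [hA, SFC_chR, if_pos a1.le, if_pos a1.le, z0, z1, sub_zero, sub_add_cancel, ia]
      · refine S.SFC_fin2 hopen ⟨⟨v1, v2⟩, ⟨v3, v4⟩⟩ (q := S.right (S.up q)) (Or.inr ?_) ?_
        · rw [ia, ia, hq, ia]
        · filter_upwards [S.SFC_R q hq (i := 1) (j := 1) (by rw [z1]; exact h) (by rw [z1]; exact h')] with A hA
          rw [hA, SFC_chR, z1, sub_add_cancel, sub_add_cancel]
      · refine S.SFC_fin2 hopen ⟨⟨v1, v2⟩, ⟨v3, v4⟩⟩ (f2 h (S.up (S.right q))) ?_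
        filter_upwards [S.SFC_V (S.up (S.right q)) (i := 1) (j := 1) (by rw [z1]; exact h) (by rw [z1]; linarith)
          (by rw [z1]; exact h'), SFC_lt1 h] with A hA a1
        rw [hA, SFC_chR, if_neg (not_le.2 a1), if_neg (not_le.2 a1), z1, sub_add_cancel, ia, hq]
    · rcases lt_trichotomy v.1 1 with h | h | h
      · refine S.SFC_fin2 hopen ⟨⟨v1, v2⟩, ⟨v3, v4⟩⟩ (f1 h (S.up q)) ?_
        filter_upwards [S.SFC_I (S.up q) (i := 0) (j := 1) (by rw [z0]; exact v1) (by rw [z0, zero_add]; exact h)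
          (by rw [z1]; exact h') (by rw [z1]; linarith), SFC_gt1 h, SFC_lt2 h'] with A hA a1 a2
        rw [hA, SFC_chR, if_neg (not_le.2 a2), if_pos a1.le, z0, z1, sub_zero]
      · refine S.SFC_fin2 hopen ⟨⟨v1, v2⟩, ⟨v3, v4⟩⟩ (f4 h' (S.right (S.up q))) ?_
        filter_upwards [S.SFC_H (S.right (S.up q)) (i := 1) (j := 1) (by rw [z1]; exact h)
          (by rw [z1]; exact h') (by rw [z1]; linarith), SFC_lt2 h'] with A hA a2
        rw [hA, SFC_chR, if_neg (not_le.2 a2), z1, sub_add_cancel, ia]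
      · refine S.SFC_fin2 hopen ⟨⟨v1, v2⟩, ⟨v3, v4⟩⟩ (f4 h' (S.right (S.up q))) ?_
        filter_upwards [S.SFC_I (S.right (S.up q)) (i := 1) (j := 1) (by rw [z1]; exact h) (by rw [z1]; linarith)
          (by rw [z1]; exact h') (by rw [z1]; linarith), SFC_lt1 h, SFC_lt2 h'] with A hA a1 a2
        rw [hA, SFC_chR, if_neg (not_le.2 a2), if_neg (not_le.2 a1), z1]

/-- every regular point has an admissible label -/
theorem regular_rep {p : S.X} (hp : S.Regular p) :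
    ∃ (q : S.Tile) (P : ℝ × ℝ), adm S.right S.up P q ∧ p = S.pA q P := by
  obtain ⟨D, c, hc, v, hv, rfl⟩ := hp
  obtain ⟨q, hq, ε, hε, h⟩ := S.chart_as_pA hc hv
  refine ⟨q, v, hq, ?_⟩
  have h1 := (h 0 (by rwa [dist_self])).2
  rwa [add_zero, tau_self, Equiv.Perm.one_apply] at h1

end TiledSurface

end Pool.Agent.ILL
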