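import Pool.Agent.ILL.Sfb
import Pool.Agent.ILL.Sfc

/-!
# SFE. The straight line flow in terms of labels

Let `p = pA q₀ P`, `q₀` admissible at `P`, `t ≥ 0`, `d = dir θ`, `A_s = P + s d`, and assume that the segment
`[P, A_t]` contains no lattice point except possibly `P`, and that `d ≠ 0` (`dir_ne_zero`). Then the only point reached
from `p` at time `t` is `pA (tau P A_t q₀) A_t`.

EXISTENCE. `γ(s) = pA (tau P A_s q₀) A_s`. At `s = 0`: `pA_local` at `A₀ = P` (`tau P P = 1`). At `0 < s ≤ t`: `A_s` is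
not a lattice point, the label `q_s = tau P A_s q₀` is admissible, and for `s' ∈ [0,t]` near `s`:
`tau P A_{s'} q₀ = tau A_s A_{s'} q_s` (`apex_tri` with the degenerate triangle `P, A_s, A_{s'}`, contained in
`[P,A_t]`, `P ∉ [A_s, A_{s'}]` for `s' > 0`); then `pA_local` at `A_s`.

UNIQUENESS. Let `γ'` be a trajectory. Let `J = {s ∈ [0,t] : γ' = γ on [0,s]}`. `0 ∈ J`. Local comparison at
`s₀ ∈ [0,t]`: `γ'(s') = c(v + (s'-s₀)d)` near `s₀`, and by `chart_as_pA` there is an admissible label `q` at `v` with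
`c(v+w) = pA (tau v (v+w) q) (v+w)` for small `w`. (i) If `s₀ ∈ J`: `pA q v = γ'(s₀) = γ(s₀) = pA q_{s₀} A_{s₀}`, so by
`pA_inj` `v = A_{s₀} + ZP z` (up to sign) and `q = q_{s₀}`, and by `tau_add_int`, `pA_add_int`
`γ'(s') = pA (tau A_{s₀} A_{s'} q_{s₀}) A_{s'} = γ(s')` for `s' ≥ s₀` near `s₀` (and all near `s'`). So `J` is open to the
right. (ii) If `[0,s₀) ⊆ J`, `s₀ > 0`: choose `s' < s₀` close to `s₀`, `s' > 0`:
`pA (tau v (v+w) q)(v+w) = γ(s') = pA (q_{s'}) A_{s'}` with `w = (s'-s₀)d`; by `pA_inj` (the label `q_{s'}` at the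
non-lattice point `A_{s'}` is admissible) `v + w = A_{s'} + ZP z`, i.e. `v = A_{s₀} + ZP z`, and
`tau v (v+w) q = q_{s'} = tau A_{s₀} A_{s'} q_{s₀}`, so `q = q_{s₀}` by `tau_add_int` (same permutation), and
`γ'(s₀) = pA q v = γ(s₀)`. Conclude by the supremum argument.
-/

open MeasureTheory Set Filter Topology
open scoped ENNReal NNReal

namespace Pool.Agent.ILL

namespace TiledSurface
variable (S : TiledSurface)

theorem dir_ne_zero (θ : ℝ) : S.dir θ ≠ 0 := by
  intro h0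
  have h := S.pos.ne'
  have hc : Real.cos (2 * Real.pi * θ) = S.w₁.1 * (S.dir θ).1 + S.w₂.1 * (S.dir θ).2 := by
    simp only [dir]
    rw [← mul_div_assoc, ← mul_div_assoc, ← add_div, eq_div_iff h]
    ring
  have hs : Real.sin (2 * Real.pi * θ) = S.w₁.2 * (S.dir θ).1 + S.w₂.2 * (S.dir θ).2 := by
    simp only [dir]
    rw [← mul_div_assoc, ← mul_div_assoc, ← add_div, eq_div_iff h]
    ring
  have h3 := Real.sin_sq_add_cos_sq (2 * Real.pi * θ)
  rw [hc, hs, h0] at h3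
  simp at h3

private theorem SFE_seg {P d : ℝ × ℝ} {s s' : ℝ} (h0 : 0 ≤ s) (h1 : s ≤ s') :
    P + s • d ∈ segment ℝ P (P + s' • d) := by
  rcases h0.eq_or_lt with h | h
  · rw [← h, zero_smul, add_zero]; exact left_mem_segment ℝ _ _
  · have hpos : 0 < s' := h.trans_le h1
    refine ⟨1 - s / s', s / s', ?_, by positivity, by ring, ?_⟩
    · rw [sub_nonneg, div_le_one hpos]; exact h1
    · ext
      · simp; field_simp; ring
      · simp; field_simp; ring

private theorem SFE_tr {Λ : Type} (a b : Equiv.Perm Λ) {P d : ℝ × ℝ} {s s' : ℝ} (h0 : 0 ≤ s)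
    (h1 : 0 ≤ s') (q₀ : Λ) :
    tau a b (P + s • d) (P + s' • d) (tau a b P (P + s • d) q₀) =
      tau a b P (P + s' • d) q₀ := by
  rcases le_total s s' with h | h
  · rw [← apx_split a b (SFE_seg (P := P) (d := d) h0 h)]
    rfl
  · rw [← apx_split a b (SFE_seg (P := P) (d := d) h1 h), tau_inv a b (P + s' • d) (P + s • d)]
    simp

theorem flow_iff {q₀ : S.Tile} {P : ℝ × ℝ} (ha : adm S.right S.up P q₀) {θ t : ℝ} (ht : 0 ≤ t)
    (hz : ∀ z : ℤ × ℤ, ZP z ∈ segment ℝ P (P + t • S.dir θ) → ZP z = P) (x : S.X) :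
    S.Flow (S.pA q₀ P) θ t x ↔
      x = S.pA (tau S.right S.up P (P + t • S.dir θ) q₀) (P + t • S.dir θ) := by
  have hd := S.dir_ne_zero θ
  set d := S.dir θ with hddef
  let A : ℝ → ℝ × ℝ := fun s => P + s • d
  let Q : ℝ → S.Tile := fun s => tau S.right S.up P (A s) q₀
  have hA0 : A 0 = P := by simp [A]
  have hQ0 : Q 0 = q₀ := by
    change tau S.right S.up P (A 0) q₀ = q₀
    rw [hA0, tau_self]; rfl
  have hAs : ∀ s s' : ℝ, A s' = A s + (s' - s) • d := by
    intro s s'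
    simp only [A]
    rw [add_assoc, ← add_smul, add_sub_cancel]
  have htr : ∀ s s' : ℝ, 0 ≤ s → 0 ≤ s' → tau S.right S.up (A s) (A s') (Q s) = Q s' :=
    fun s s' h0 h1 => SFE_tr S.right S.up h0 h1 q₀
  have hadm : ∀ s : ℝ, 0 ≤ s → s ≤ t → adm S.right S.up (A s) (Q s) := by
    intro s h0 h1
    rcases h0.eq_or_lt with h | h
    · rw [← h, hA0, hQ0]; exact ha
    · left
      intro z hzz
      have h2 := hz z (hzz ▸ SFE_seg h0 h1)
      have h3 : s • d = 0 := by
        have : P + s • d = P := hzz.symm.trans h2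
        simpa using this
      rcases smul_eq_zero.1 h3 with h4 | h4
      · exact h.ne' h4
      · exact hd h4
  let γ : ℝ → S.X := fun s => S.pA (Q s) (A s)
  constructor
  · rintro ⟨γ', ⟨h0, hγ⟩, rfl⟩
    change γ' t = γ t
    have key : ∀ s₀ ∈ Icc 0 t, ∃ ε > 0, ∀ s₁ ∈ Icc 0 t, |s₁ - s₀| < ε → γ' s₁ = γ s₁ →
        ∀ s' ∈ Icc 0 t, |s' - s₀| < ε → γ' s' = γ s' := by
      intro s₀ hs₀
      obtain ⟨D, c, hc, v, hv, ε₁, hε₁, h1⟩ := hγ s₀ hs₀
      obtain ⟨q, hq, ε₂, hε₂, h2⟩ := S.chart_as_pA hc hv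
      have hn : 0 < ‖d‖ + 1 := by positivity
      refine ⟨min ε₁ (ε₂ / (‖d‖ + 1)), lt_min hε₁ (div_pos hε₂ hn), ?_⟩
      have h3 : ∀ s' ∈ Icc 0 t, |s' - s₀| < min ε₁ (ε₂ / (‖d‖ + 1)) →
          γ' s' = S.pA (tau S.right S.up v (v + (s' - s₀) • d) q) (v + (s' - s₀) • d) := by
        intro s' hs' hlt
        rw [(h1 s' hs' (hlt.trans_le (min_le_left _ _))).2]
        refine (h2 _ ?_).2
        rw [dist_zero_right, norm_smul, Real.norm_eq_abs]
        have h4 := hlt.trans_le (min_le_right _ _)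
        rw [lt_div_iff₀ hn] at h4
        have h5 := abs_nonneg (s' - s₀)
        nlinarith [norm_nonneg d]
      intro s₁ hs₁ hlt₁ he₁ s' hs' hlt'
      have h4 := h3 s₁ hs₁ hlt₁
      rw [he₁] at h4
      obtain ⟨⟨z, hz1⟩, hz2⟩ := S.pA_inj (hadm s₁ hs₁.1 hs₁.2) h4
      have hvA : v = A s₀ + ZP z := by
        have h5 := hAs s₀ s₁
        have h6 : v = A s₁ + ZP z - (s₁ - s₀) • d := by rw [← hz1]; simp
        rw [h6, h5]
        abel
      have hsh : ∀ w : ℝ × ℝ, v + w = (A s₀ + w) + ZP z := by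
        intro w; rw [hvA]; abel
      have hq' : q = Q s₀ := by
        have h5 : tau S.right S.up (A s₀) (A s₁) q = tau S.right S.up (A s₀) (A s₁) (Q s₀) := by
          rw [htr s₀ s₁ hs₀.1 hs₁.1, ← hz2, hsh, ← hAs s₀ s₁]
          conv_rhs => rw [hvA]
          rw [tau_add_int]
        exact (Equiv.injective _) h5
      rw [h3 s' hs' hlt', hsh, ← hAs s₀ s', S.pA_add_int]
      conv_lhs => rw [hvA]
      rw [tau_add_int, hq', htr s₀ s' hs₀.1 hs'.1]
    have hsub : Icc 0 t ⊆ {s | γ' s = γ s} := by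
      refine IsClosed.Icc_subset_of_forall_mem_nhdsWithin ?_ ?_ ?_
      · refine isClosed_of_closure_subset ?_
        intro s₀ hs₀
        have hIcc : s₀ ∈ Icc 0 t := by
          have := closure_mono inter_subset_right hs₀
          rwa [isClosed_Icc.closure_eq] at this
        refine ⟨?_, hIcc⟩
        obtain ⟨ε, hε, hk⟩ := key s₀ hIcc
        obtain ⟨s₁, hs₁, hd₁⟩ := Metric.mem_closure_iff.1 hs₀ ε hε
        rw [dist_comm, Real.dist_eq] at hd₁
        exact hk s₁ hs₁.2 hd₁ hs₁.1 s₀ hIcc (by simpa using hε)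
      · change γ' 0 = γ 0
        rw [h0]
        change S.pA q₀ P = S.pA (Q 0) (A 0)
        rw [hA0, hQ0]
      · rintro s₀ ⟨hs₀, hs₀'⟩
        obtain ⟨ε, hε, hk⟩ := key s₀ (Ico_subset_Icc_self hs₀')
        have hm : Ioo s₀ (min (s₀ + ε) t) ∈ 𝓝[>] s₀ :=
          Ioo_mem_nhdsGT (lt_min (by linarith) hs₀'.2)
        filter_upwards [hm] with s' hs'
        have h1 := hs'.2.trans_le (min_le_left _ _)
        have h2 := hs'.2.trans_le (min_le_right _ _)
        refine hk s₀ (Ico_subset_Icc_self hs₀') (by simpa using hε) hs₀ s'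
          ⟨hs₀'.1.trans hs'.1.le, h2.le⟩ ?_
        rw [abs_of_nonneg (by linarith [hs'.1])]
        linarith
    exact hsub ⟨ht, le_refl _⟩
  · intro hx
    refine ⟨γ, ⟨?_, ?_⟩, hx.symm⟩
    · change S.pA (Q 0) (A 0) = _
      rw [hA0, hQ0]
    · intro s hs
      obtain ⟨D, c, hc, v, hv, ε, hε, h1⟩ := S.pA_local (hadm s hs.1 hs.2)
      have hn : 0 < ‖d‖ + 1 := by positivity
      refine ⟨D, c, hc, v, hv, ε / (‖d‖ + 1), div_pos hε hn, ?_⟩
      intro s' hs' hlt
      rw [lt_div_iff₀ hn] at hlt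
      have h2 := h1 (A s') (by
        rw [dist_eq_norm, hAs s s', add_sub_cancel_left, norm_smul, Real.norm_eq_abs]
        have h5 := abs_nonneg (s' - s)
        nlinarith [norm_nonneg d])
      have h3 : A s' - A s = (s' - s) • d := by rw [hAs s s', add_sub_cancel_left]
      rw [h3, htr s s' hs.1 hs'.1] at h2
      exact h2

end TiledSurface

end Pool.Agent.ILL
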