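import Pool.Agent.ILL.SDefs

/-!
# SFG. Countably many exceptional directions; scaling

For a lattice point `ZP z ≠ P`: if `ZP z ∈ [P, P + t dir θ]` then `ZP z - P = s dir θ` with `s > 0`, so `dir θ` is a positive
multiple of a fixed nonzero vector, which determines `θ` modulo one (`dir θ` is the image of the unit vector
`(cos 2πθ, sin 2πθ)` under an invertible linear map): at most two `θ ∈ [0,1]`. Countable union over `z`.

`dir_eq`: `dir θ = scl⁻¹ · mv Mm (cos 2πθ, sin 2πθ)` (definition, `scl² = det`), and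
`mv (Mm * rot θ * dg u) (1,0) = e^u mv Mm (cos 2πθ, sin 2πθ)`.
-/

open MeasureTheory Set Filter Topology
open scoped ENNReal NNReal

namespace Pool.Agent.ILL

namespace TiledSurface
variable (S : TiledSurface)

theorem scl_pos : 0 < S.scl := Real.sqrt_pos.2 S.pos

private theorem cos_dir (θ : ℝ) : Real.cos (2 * Real.pi * θ) =
    S.w₁.1 * (S.dir θ).1 + S.w₂.1 * (S.dir θ).2 := by
  have h := S.pos.ne'
  simp only [dir]
  rw [← mul_div_assoc, ← mul_div_assoc, ← add_div, eq_div_iff h]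
  ring

private theorem sin_dir (θ : ℝ) : Real.sin (2 * Real.pi * θ) =
    S.w₁.2 * (S.dir θ).1 + S.w₂.2 * (S.dir θ).2 := by
  have h := S.pos.ne'
  simp only [dir]
  rw [← mul_div_assoc, ← mul_div_assoc, ← add_div, eq_div_iff h]
  ring

theorem dir_countable (P : ℝ × ℝ) (t : ℝ) :
    {θ : ℝ | θ ∈ Icc (0 : ℝ) 1 ∧
      ¬ ∀ z : ℤ × ℤ, ZP z ∈ segment ℝ P (P + t • S.dir θ) → ZP z = P}.Countable := by
  let U : ℤ × ℤ → ℂ := fun z =>
    ⟨S.w₁.1 * (ZP z - P).1 + S.w₂.1 * (ZP z - P).2, S.w₁.2 * (ZP z - P).1 + S.w₂.2 * (ZP z - P).2⟩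
  have hc : (⋃ z : ℤ × ℤ, ⋃ n : ℤ,
      ({(Complex.arg (U z) - n * Real.pi) / (2 * Real.pi)} : Set ℝ)).Countable :=
    countable_iUnion fun z => countable_iUnion fun n => countable_singleton _
  refine hc.mono ?_
  rintro θ ⟨-, hθ⟩
  push Not at hθ
  obtain ⟨z, hz, hne⟩ := hθ
  obtain ⟨a, b, ha, hb, hab, hseg⟩ := hz
  have hv : ZP z - P = (b * t) • S.dir θ := by
    rw [← hseg]
    have ha' : a = 1 - b := by linarith
    rw [ha']
    ext <;> simp <;> ring
  have hv0 : b * t ≠ 0 := by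
    intro h0
    rw [h0, zero_smul, sub_eq_zero] at hv
    exact hne hv
  have hv1 : (ZP z - P).1 = b * t * (S.dir θ).1 := by rw [hv]; rfl
  have hv2 : (ZP z - P).2 = b * t * (S.dir θ).2 := by rw [hv]; rfl
  have hre : (U z).re = b * t * Real.cos (2 * Real.pi * θ) := by
    change S.w₁.1 * (ZP z - P).1 + S.w₂.1 * (ZP z - P).2 = _
    rw [hv1, hv2, S.cos_dir θ]; ring
  have him : (U z).im = b * t * Real.sin (2 * Real.pi * θ) := by
    change S.w₁.2 * (ZP z - P).1 + S.w₂.2 * (ZP z - P).2 = _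
    rw [hv1, hv2, S.sin_dir θ]; ring
  have hU0 : U z ≠ 0 := by
    intro h0
    have h1 : (U z).re = 0 := by rw [h0]; rfl
    have h2 : (U z).im = 0 := by rw [h0]; rfl
    rw [hre] at h1
    rw [him] at h2
    have h3 := Real.sin_sq_add_cos_sq (2 * Real.pi * θ)
    rw [(mul_eq_zero.1 h1).resolve_left hv0, (mul_eq_zero.1 h2).resolve_left hv0] at h3
    norm_num at h3
  have hs : Real.sin (Complex.arg (U z) - 2 * Real.pi * θ) = 0 := by
    rw [Real.sin_sub]
    have h1 := Complex.norm_mul_cos_arg (U z)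
    have h2 := Complex.norm_mul_sin_arg (U z)
    have h3 : ‖U z‖ ≠ 0 := norm_ne_zero_iff.2 hU0
    apply mul_left_cancel₀ h3
    rw [mul_zero, mul_sub, ← mul_assoc, ← mul_assoc, h1, h2, hre, him]
    ring
  obtain ⟨n, hn⟩ := Real.sin_eq_zero_iff.1 hs
  rw [mem_iUnion]
  refine ⟨z, ?_⟩
  rw [mem_iUnion]
  refine ⟨n, ?_⟩
  rw [mem_singleton_iff, hn]
  have hpi := Real.pi_pos.ne'
  field_simp
  ring

theorem dir_eq {t : ℝ} (ht : 0 < t) (θ : ℝ) :
    t • S.dir θ = mv (S.Mm * rot θ * dg (Real.log (t / S.scl))) (1, 0) := by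
  have hs := S.scl_pos
  have hs2 : S.scl * S.scl = S.w₁.1 * S.w₂.2 - S.w₁.2 * S.w₂.1 := Real.mul_self_sqrt S.pos.le
  have h0 := S.pos.ne'
  have hexp : Real.exp (Real.log (t / S.scl)) = t / S.scl := Real.exp_log (div_pos ht hs)
  rw [mv_mul, mv_mul]
  have e1 : mv (dg (Real.log (t / S.scl))) (1, 0) = (t / S.scl, 0) := by
    simp [mv, dg, hexp]
  have e2 : mv (rot θ) (t / S.scl, 0) = (Real.cos (2 * Real.pi * θ) * (t / S.scl),
      Real.sin (2 * Real.pi * θ) * (t / S.scl)) := by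
    simp [mv, rot]
  rw [e1, e2]
  have hs' := hs.ne'
  ext
  · simp only [mv, Mm, dir, Prod.smul_fst, smul_eq_mul]
    simp
    rw [← hs2]
    field_simp
    ring
  · simp only [mv, Mm, dir, Prod.smul_snd, smul_eq_mul]
    simp
    rw [← hs2]
    field_simp
    ring

end TiledSurface

end Pool.Agent.ILL
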