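import Pool.Agent.ILL.Sfq
import Pool.Agent.ILL.Sfe
import Pool.Agent.ILL.Sfg

/-!
# FIN. The theorem

`regular_rep`: `p = pA q₀ P`. For `t ≥ 0` and `θ ∈ [0,1]` outside the countable set of `dir_countable`, `flow_iff`
identifies the points reached at time `t`. So `F t θ` is this point for a.e. `θ ∈ [0,1]`, and `illum_labels`.
-/

open MeasureTheory Set Filter Topology
open scoped ENNReal NNReal

namespace Pool.Agent.ILL

namespace TiledSurface

/-- Every parallelogram-tiled surface is illuminated by circles from every regular point. -/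
theorem illuminated (S : TiledSurface) (p : S.X) (hp : S.Regular p) :
    (∀ t ≥ (0 : ℝ), {θ : ℝ | θ ∈ Icc (0 : ℝ) 1 ∧ ¬ ∃! x, S.Flow p θ t x}.Countable) ∧
    ∀ F : ℝ → ℝ → S.X,
      (∀ t ≥ (0 : ℝ), ∀ᵐ θ ∂(volume.restrict (Icc (0 : ℝ) 1)), S.Flow p θ t (F t θ)) →
      ∀ h : S.X → ℝ, Continuous h →
        Tendsto (fun t : ℝ => ∫ θ in (0 : ℝ)..1, h (F t θ)) atTop (𝓝 (S.mean h)) := by
  obtain ⟨q₀, P, ha, rfl⟩ := S.regular_rep hp
  refine ⟨fun t ht => ?_, fun F hF h hh => ?_⟩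
  · refine (S.dir_countable P t).mono ?_
    rintro θ ⟨hθ, hθ2⟩
    refine ⟨hθ, fun hz => hθ2 ?_⟩
    exact ⟨_, (S.flow_iff ha ht hz _).2 rfl, fun x hx => (S.flow_iff ha ht hz x).1 hx⟩
  · refine (S.illum_labels hh ha).congr' ?_
    filter_upwards [eventually_ge_atTop (0 : ℝ)] with t ht
    refine intervalIntegral.integral_congr_ae ?_
    have h1 := (ae_restrict_iff' measurableSet_Icc).1 (hF t ht)
    have h2 := (S.dir_countable P t).ae_notMem volume
    filter_upwards [h1, h2] with θ hθ1 hθ2 hθ3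
    rw [uIoc_of_le zero_le_one] at hθ3
    have hθ4 : θ ∈ Icc (0 : ℝ) 1 := Ioc_subset_Icc_self hθ3
    have hz : ∀ z : ℤ × ℤ, ZP z ∈ segment ℝ P (P + t • S.dir θ) → ZP z = P := by
      by_contra hc
      exact hθ2 ⟨hθ4, hc⟩
    rw [(S.flow_iff ha ht hz _).1 (hθ1 hθ4)]

end TiledSurface

end Pool.Agent.ILL
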