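import Pool.Agent.ILL.MgC
import Pool.Agent.ILL.Pol

/-!
# GNA. Generic pairs for the flows

`(mv h⁻¹ v).1 = h₁₁ v.1 - h₀₁ v.2`, `(mv h⁻¹ v).2 = -h₁₀ v.1 + h₀₀ v.2`. With `v = ZP z - P`: if `v = 0` the
first condition of `Gen1` holds trivially; otherwise `muG_col2_ne`; the second is `muG_col1_ne` with
`c = 0`; the third is `muG_col1_ne` with `(α,β) = (1,0)`, `(0,1)`. Countably many conditions. For the product
measure: the set of `(h,P)` with `Gen1 h P` is measurable (countable intersection; the condition `ZP z ≠ P`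
is measurable) and use Fubini in the order `P` first (`Measure.ae_prod...` and `prod_swap`, or
`measure_prod_null` after swapping).

Consequences (use `not_mem_hull_of_coord` and convexity of lines and segments):
* points on the line `v.1 = 1` span no lattice point;
* `LF` between `(r,0)` and `(r',0)` with `r, r' > 0` (a lattice point `z` on it has `(mv h⁻¹ (z-P)).2 = 0`, so
  `ZP z = P`, but then its coordinates are `(0,0)`, not in `[r,r'] × {0}`);
* the only lattice point on `[P, P + mv h (r,0)]` is possibly `P`.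
-/

open MeasureTheory Set Filter Topology
open scoped ENNReal NNReal

namespace Pool.Agent.ILL

private theorem mvi1 (h : SLR) (v : Pl) : (mv h⁻¹ v).1 = h 1 1 * v.1 - h 0 1 * v.2 := by
  simp [mv, Matrix.SpecialLinearGroup.SL2_inv_expl]
  ring

private theorem mvi2 (h : SLR) (v : Pl) : (mv h⁻¹ v).2 = -(h 1 0 * v.1) + h 0 0 * v.2 := by
  simp [mv, Matrix.SpecialLinearGroup.SL2_inv_expl]

theorem gen1_ae (P : Pl) : ∀ᵐ h ∂muG, Gen1 h P := by
  have h1 : ∀ z : ℤ × ℤ, ∀ᵐ h ∂muG, (mv h⁻¹ (ZP z - P)).1 ≠ 1 := by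
    intro z
    by_cases hz : ZP z - P = 0
    · refine Eventually.of_forall fun h => ?_
      rw [hz, mvi1]
      simp
    · have h2 : -(ZP z - P).2 ≠ 0 ∨ (ZP z - P).1 ≠ 0 := by
        by_contra hc
        push Not at hc
        exact hz (Prod.ext hc.2 (neg_eq_zero.1 hc.1))
      filter_upwards [muG_col2_ne 1 h2] with h hh
      rw [mvi1]
      intro h3
      apply hh
      linear_combination h3
  have h2 : ∀ z : ℤ × ℤ, ∀ᵐ h ∂muG, ZP z ≠ P → (mv h⁻¹ (ZP z - P)).2 ≠ 0 := by
    intro z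
    by_cases hz : ZP z - P = 0
    · refine Eventually.of_forall fun h hh => ?_
      exact absurd (sub_eq_zero.1 hz) hh
    · have h2 : (ZP z - P).2 ≠ 0 ∨ -(ZP z - P).1 ≠ 0 := by
        by_contra hc
        push Not at hc
        exact hz (Prod.ext (neg_eq_zero.1 hc.2) hc.1)
      filter_upwards [muG_col1_ne 0 h2] with h hh _
      rw [mvi2]
      intro h3
      apply hh
      linear_combination h3
  have h3 : ∀ n : ℤ, ∀ᵐ h ∂muG, (P + mv h (1, 0)).1 ≠ n ∧ (P + mv h (1, 0)).2 ≠ n := by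
    intro n
    filter_upwards [muG_col1_ne (α := 1) (β := 0) ((n : ℝ) - P.1) (Or.inl one_ne_zero),
      muG_col1_ne (α := 0) (β := 1) ((n : ℝ) - P.2) (Or.inr one_ne_zero)] with h ha hb
    constructor
    · intro hc
      apply ha
      simp [mv] at hc
      linear_combination hc
    · intro hc
      apply hb
      simp [mv] at hc
      linear_combination hc
  filter_upwards [ae_all_iff.2 h1, ae_all_iff.2 h2, ae_all_iff.2 h3] with h ha hb hc
  exact ⟨ha, hb, hc⟩

private theorem gen1_meas : MeasurableSet {x : SLR × Pl | Gen1 x.1 x.2} := by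
  have c1 : ∀ z : ℤ × ℤ, Continuous fun x : SLR × Pl => mv x.1⁻¹ (ZP z - x.2) := fun z =>
    continuous_mv.comp (Continuous.prodMk (continuous_inv.comp continuous_fst)
      (continuous_const.sub continuous_snd))
  have c2 : Continuous fun x : SLR × Pl => x.2 + mv x.1 (1, 0) :=
    continuous_snd.add (continuous_mv.comp (Continuous.prodMk continuous_fst continuous_const))
  have e : {x : SLR × Pl | Gen1 x.1 x.2} =
      (⋂ z : ℤ × ℤ, {x : SLR × Pl | (mv x.1⁻¹ (ZP z - x.2)).1 = 1}ᶜ) ∩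
      (⋂ z : ℤ × ℤ, ({x : SLR × Pl | ZP z = x.2} ∪
        {x : SLR × Pl | (mv x.1⁻¹ (ZP z - x.2)).2 = 0}ᶜ)) ∩
      (⋂ n : ℤ, ({x : SLR × Pl | (x.2 + mv x.1 (1, 0)).1 = n}ᶜ ∩
        {x : SLR × Pl | (x.2 + mv x.1 (1, 0)).2 = n}ᶜ)) := by
    ext x
    simp only [Gen1, mem_inter_iff, mem_iInter, mem_union, mem_compl_iff, Set.mem_ofPred_eq]
    constructor
    · rintro ⟨h1, h2, h3⟩
      refine ⟨⟨h1, fun z => ?_⟩, h3⟩
      by_cases hz : ZP z = x.2
      · exact Or.inl hz
      · exact Or.inr (h2 z hz)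
    · rintro ⟨⟨h1, h2⟩, h3⟩
      refine ⟨h1, fun z hz => ?_, h3⟩
      rcases h2 z with h | h
      · exact absurd h hz
      · exact h
  rw [e]
  refine ((MeasurableSet.iInter fun z => ?_).inter (MeasurableSet.iInter fun z => ?_)).inter
    (MeasurableSet.iInter fun n => ?_)
  · exact (isClosed_eq (continuous_fst.comp (c1 z)) continuous_const).measurableSet.compl
  · exact (isClosed_eq continuous_const continuous_snd).measurableSet.union
      (isClosed_eq (continuous_snd.comp (c1 z)) continuous_const).measurableSet.compl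
  · exact (isClosed_eq (continuous_fst.comp c2) continuous_const).measurableSet.compl.inter
      (isClosed_eq (continuous_snd.comp c2) continuous_const).measurableSet.compl

theorem gen1_aeX {ρ : Measure Pl} (hρ : PerMeas ρ) :
    ∀ᵐ x ∂(muG.prod ρ), Gen1 x.1 x.2 := by
  have := hρ.sf
  rw [Measure.ae_prod_iff_ae_ae gen1_meas]
  have h1 := gen1_meas
  rw [Measure.ae_ae_comm h1]
  exact Eventually.of_forall gen1_ae

section
variable {h : SLR} {P : Pl}

private theorem hull_sub (s t : Set Pl) (hs : s ⊆ t) (ht : Convex ℝ t) {z : ℤ × ℤ}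
    (hz : ZP z ∈ convexHull ℝ ((fun v => P + mv h v) '' s)) : mv h⁻¹ (ZP z - P) ∈ t :=
  convexHull_min hs ht (not_mem_hull_of_coord h P s z hz)

theorem Gen1.vert3 (hG : Gen1 h P) (s s' s'' : ℝ) :
    LF3 (P + mv h (1, s)) (P + mv h (1, s')) (P + mv h (1, s'')) := by
  intro z hz
  have e : ({P + mv h (1, s), P + mv h (1, s'), P + mv h (1, s'')} : Set Pl) =
      (fun v => P + mv h v) '' {(1, s), (1, s'), (1, s'')} := by
    simp [image_insert_eq]
  rw [e] at hz
  have h1 := hull_sub {((1 : ℝ), s), (1, s'), (1, s'')} {v : Pl | v.1 = 1}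
    (by rintro x (rfl | rfl | rfl) <;> rfl) ?_ hz
  · exact hG.1 z h1
  · exact (convex_singleton (1 : ℝ)).is_linear_preimage (f := fun v : Pl => v.1)
      (LinearMap.fst ℝ ℝ ℝ).isLinear

theorem Gen1.vert (hG : Gen1 h P) (s s' : ℝ) : LF (P + mv h (1, s)) (P + mv h (1, s')) := by
  intro z hz
  apply hG.vert3 s s' s' z
  rw [← convexHull_pair] at hz
  exact convexHull_mono (by intro x hx; simpa using hx) hz

theorem Gen1.horiz (hG : Gen1 h P) {r r' : ℝ} (hr : 0 < r) (hr' : 0 < r') :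
    LF (P + mv h (r, 0)) (P + mv h (r', 0)) := by
  intro z hz
  rw [← convexHull_pair] at hz
  have e : ({P + mv h (r, 0), P + mv h (r', 0)} : Set Pl) =
      (fun v => P + mv h v) '' {(r, 0), (r', 0)} := by
    simp [image_insert_eq]
  rw [e] at hz
  have h1 := hull_sub {((r : ℝ), (0 : ℝ)), (r', 0)} ({v : Pl | 0 < v.1} ∩ {v : Pl | v.2 = 0})
    (by rintro x (rfl | rfl)
        · exact ⟨hr, rfl⟩
        · exact ⟨hr', rfl⟩) ?_ hz
  · by_cases hP : ZP z = P
    · have h2 := h1.1
      rw [hP, sub_self] at h2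
      have h3 : (mv h⁻¹ (0 : Pl)).1 = 0 := by simp [mv]
      have h4 : 0 < (mv h⁻¹ (0 : Pl)).1 := h2
      rw [h3] at h4
      exact lt_irrefl _ h4
    · exact hG.2.1 z hP h1.2
  · exact ((convex_Ioi (0 : ℝ)).is_linear_preimage (f := fun v : Pl => v.1)
      (LinearMap.fst ℝ ℝ ℝ).isLinear).inter
      ((convex_singleton (0 : ℝ)).is_linear_preimage (f := fun v : Pl => v.2)
      (LinearMap.snd ℝ ℝ ℝ).isLinear)

theorem Gen1.apex (hG : Gen1 h P) (r : ℝ) :
    ∀ z : ℤ × ℤ, ZP z ∈ segment ℝ P (P + mv h (r, 0)) → ZP z = P := by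
  intro z hz
  rw [← convexHull_pair] at hz
  have h0 : P = P + mv h (0, 0) := by
    ext <;> simp [mv]
  have e : ({P, P + mv h (r, 0)} : Set Pl) =
      (fun v => P + mv h v) '' {(0, 0), (r, 0)} := by
    rw [image_insert_eq, image_singleton, ← h0]
  rw [e] at hz
  have h1 := hull_sub {((0 : ℝ), (0 : ℝ)), (r, 0)} {v : Pl | v.2 = 0}
    (by rintro x (rfl | rfl) <;> rfl) ?_ hz
  · by_contra hP
    exact hG.2.1 z hP h1
  · exact (convex_singleton (0 : ℝ)).is_linear_preimage (f := fun v : Pl => v.2)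
      (LinearMap.snd ℝ ℝ ℝ).isLinear

end

end Pool.Agent.ILL
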