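import Pool.Agent.ILL.RcD
import Pool.Agent.ILL.Pol

/-!
# GOD. The good sets are eventually neighbourhoods of generic points

Let `GenQ h Q`. For all pairs `(a,b)` of permutations (finitely many), `gen_rect` gives
`Nc a b ≤ closure {Rect a b h Q x y | x,y ∈ ℚ, > 0}`. Every element of `Nc a b` is in the closure of finitely
many rectangles; so there is a finite set `𝔣` of pairs of positive rationals such that the rectangles of `𝔣`
suffice for all `(a,b)`. For `(x,y) ∈ 𝔣`: no lattice point is on `bdR x y` (in the coordinates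
`v = mv h⁻¹ (ZP z - Q)`), by `GenQ` (rational coordinates), `bdR x y` is compact and only finitely many
lattice points are near (`finite_lattice`): there is `ε > 0` with `Mg (3ε) x y h Q` for all `(x,y) ∈ 𝔣`.
Let `n` be so large that `1/(n+1) ≤ ε` and `𝔣 ⊆ Fam n` (`Fam n` = pairs `(i/n!, j/n!)`,
`1 ≤ i, j ≤ n·n!`; every pair of positive rationals is in `Fam n` for all large `n`).
For `(h',Q')` near `(h,Q)`: (i) for all `v'` with `|v'| ≤ R` (containing the `ε`-neighbourhoods of all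
the `bdR`), `|mv h⁻¹ (Q' + mv h' v' - Q) - v'| ≤ ε` in both coordinates: continuity and compactness (the map is
affine in `v'`). Hence (ii) margin: if `v' = mv h'⁻¹ (z - Q')` is within `ε` of `w ∈ bdR x y` then
`mv h⁻¹ (z - Q)` is within `2ε` of `w`, excluded; so `Mg (1/(n+1)) x y h' Q'` for `(x,y) ∈ 𝔣`; (iii)
`Rect a b h' Q' x y = t * Rect a b h Q x y * t⁻¹`, `t = tau a b Q Q'`, by `hol4_conj` and `LF4_of_margin`
(corners moved by at most `ε`). As `t ∈ ⟨a,b⟩` normalises `Nc a b` (`Nc_conj`, `tau_mem`) the rectangles of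
`𝔣` at `(h',Q')` generate a group containing `t Nc t⁻¹ = Nc`. So a neighbourhood of `(h,Q)` is in
`GG Λ n`.
`GG_periodic`: `tau_add_int` and `ZP z' - (Q + ZP z) = ZP (z'-z) - Q`.
-/

open MeasureTheory Set Filter Topology
open scoped ENNReal NNReal

namespace Pool.Agent.ILL

private theorem god_fam_aux {x : ℚ} (hx : 0 < x) :
    ∀ᶠ n : ℕ in atTop, ∃ i ∈ Finset.Icc 1 (n * n.factorial), (i : ℚ) / n.factorial = x := by
  obtain ⟨m, hm⟩ := exists_nat_ge x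
  filter_upwards [eventually_ge_atTop (max m x.den)] with n hn
  have hn1 : m ≤ n := le_trans (le_max_left _ _) hn
  have hn2 : x.den ≤ n := le_trans (le_max_right _ _) hn
  obtain ⟨k, hk⟩ := Nat.dvd_factorial x.den_pos hn2
  have hfac : (0 : ℚ) < n.factorial := by exact_mod_cast n.factorial_pos
  have hxn : (x.num.toNat : ℚ) = x.num := by
    have h1 : (x.num.toNat : ℤ) = x.num := Int.toNat_of_nonneg (Rat.num_nonneg.mpr hx.le)
    exact_mod_cast congrArg (fun t : ℤ => (t : ℚ)) h1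
  have hk0 : (k : ℚ) ≠ 0 := by
    intro h
    have : k = 0 := by exact_mod_cast h
    rw [this, mul_zero] at hk
    exact n.factorial_ne_zero hk
  have hd0 : (x.den : ℚ) ≠ 0 := by exact_mod_cast x.den_ne_zero
  have hval : ((x.num.toNat * k : ℕ) : ℚ) / n.factorial = x := by
    rw [hk, Nat.cast_mul, Nat.cast_mul, hxn, mul_div_mul_right _ _ hk0, Rat.num_div_den]
  have hval' : ((x.num.toNat * k : ℕ) : ℚ) = x * n.factorial := by
    rw [div_eq_iff hfac.ne'] at hval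
    exact hval
  refine ⟨x.num.toNat * k, ?_, hval⟩
  rw [Finset.mem_Icc]
  constructor
  · have h1 : (0 : ℚ) < ((x.num.toNat * k : ℕ) : ℚ) := by
      rw [hval']
      positivity
    have h2 : 0 < x.num.toNat * k := by exact_mod_cast h1
    omega
  · have h1 : ((x.num.toNat * k : ℕ) : ℚ) ≤ ((n * n.factorial : ℕ) : ℚ) := by
      rw [hval', Nat.cast_mul]
      refine mul_le_mul_of_nonneg_right (hm.trans ?_) hfac.le
      exact_mod_cast hn1
    exact_mod_cast h1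

theorem Fam_eventually {x y : ℚ} (hx : 0 < x) (hy : 0 < y) : ∀ᶠ n in atTop, (x, y) ∈ Fam n := by
  filter_upwards [god_fam_aux hx, god_fam_aux hy] with n hn1 hn2
  obtain ⟨i, hi, hi'⟩ := hn1
  obtain ⟨j, hj, hj'⟩ := hn2
  unfold Fam
  rw [Finset.mem_image]
  exact ⟨(i, j), Finset.mem_product.mpr ⟨hi, hj⟩, by rw [hi', hj']⟩

theorem Fam_pos {n : ℕ} {r : ℚ × ℚ} (h : r ∈ Fam n) : 0 < r.1 ∧ 0 < r.2 := by
  unfold Fam at h
  rw [Finset.mem_image] at h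
  obtain ⟨⟨i, j⟩, hij, rfl⟩ := h
  rw [Finset.mem_product, Finset.mem_Icc, Finset.mem_Icc] at hij
  have hfac : (0 : ℚ) < n.factorial := by exact_mod_cast n.factorial_pos
  have h1 : (0 : ℚ) < (i : ℚ) := by
    have : 0 < i := hij.1.1
    exact_mod_cast this
  have h2 : (0 : ℚ) < (j : ℚ) := by
    have : 0 < j := hij.2.1
    exact_mod_cast this
  exact ⟨div_pos h1 hfac, div_pos h2 hfac⟩

private theorem god_Mg_mono {ε ε' x y : ℝ} {h : SLR} {Q : Pl} (he : ε' ≤ ε) (hM : Mg ε x y h Q) :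
    Mg ε' x y h Q := fun z w hw hh => hM z w hw ⟨hh.1.trans he, hh.2.trans he⟩

private theorem god_margin {h : SLR} {Q : Pl} (hg : GenQ h Q) {r : ℚ × ℚ} (h1 : 0 < r.1)
    (h2 : 0 < r.2) : ∀ᶠ ε in 𝓝[>] (0 : ℝ), Mg (3 * ε) (r.1 : ℝ) (r.2 : ℝ) h Q := by
  have hr1 : (0 : ℝ) < r.1 := by exact_mod_cast h1
  have hr2 : (0 : ℝ) < r.2 := by exact_mod_cast h2
  set R : ℝ := (r.1 : ℝ) + r.2 + 1 with hR
  have hfin := finite_lattice h Q R
  have hz : ∀ z : ℤ × ℤ, ∀ᶠ ε in 𝓝[>] (0 : ℝ),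
      3 * ε < |(mv h⁻¹ (ZP z - Q)).1| ∧ 3 * ε < |(mv h⁻¹ (ZP z - Q)).1 + r.1| ∧
      3 * ε < |(mv h⁻¹ (ZP z - Q)).2| ∧ 3 * ε < |(mv h⁻¹ (ZP z - Q)).2 + r.2| := by
    intro z
    have key : ∀ c : ℝ, 0 < c → ∀ᶠ ε in 𝓝[>] (0 : ℝ), 3 * ε < c := by
      intro c hc
      have : Tendsto (fun ε : ℝ => 3 * ε) (𝓝[>] (0 : ℝ)) (𝓝 0) := by
        have h3 : Tendsto (fun ε : ℝ => 3 * ε) (𝓝 0) (𝓝 (3 * 0)) :=
          (continuous_const.mul continuous_id).tendsto 0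
        rw [mul_zero] at h3
        exact h3.mono_left nhdsWithin_le_nhds
      exact this.eventually (gt_mem_nhds hc)
    have e1 : (mv h⁻¹ (ZP z - Q)).1 ≠ 0 := by
      have := (hg.2 z 0).1
      simpa using this
    have e2 : (mv h⁻¹ (ZP z - Q)).1 + r.1 ≠ 0 := by
      have := (hg.2 z (-r.1)).1
      intro h'
      apply this
      push_cast
      linarith
    have e3 : (mv h⁻¹ (ZP z - Q)).2 ≠ 0 := by
      have := (hg.2 z 0).2.1
      simpa using this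
    have e4 : (mv h⁻¹ (ZP z - Q)).2 + r.2 ≠ 0 := by
      have := (hg.2 z (-r.2)).2.1
      intro h'
      apply this
      push_cast
      linarith
    filter_upwards [key _ (abs_pos.mpr e1), key _ (abs_pos.mpr e2), key _ (abs_pos.mpr e3),
      key _ (abs_pos.mpr e4)] with ε a1 a2 a3 a4
    exact ⟨a1, a2, a3, a4⟩
  have hall := (eventually_all_finite hfin).mpr fun z _ => hz z
  have hsmall : ∀ᶠ ε in 𝓝[>] (0 : ℝ), ε < 1 / 3 :=
    (show Tendsto (fun ε : ℝ => ε) (𝓝[>] (0 : ℝ)) (𝓝 0) from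
      nhdsWithin_le_nhds).eventually (gt_mem_nhds (by norm_num))
  filter_upwards [hall, hsmall] with ε hε hε1 z w hw hh
  obtain ⟨hw1, hw2, hw3, hw4, hw5⟩ := hw
  have hw1' : |w.1| ≤ r.1 := abs_le.mpr ⟨hw1, by linarith⟩
  have hw3' : |w.2| ≤ r.2 := abs_le.mpr ⟨hw3, by linarith⟩
  have hz1 : |(mv h⁻¹ (ZP z - Q)).1| ≤ R := by
    have : (mv h⁻¹ (ZP z - Q)).1 = ((mv h⁻¹ (ZP z - Q)).1 - w.1) + w.1 := by ring
    rw [this]
    refine (abs_add_le _ _).trans ?_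
    rw [hR]
    linarith [hh.1]
  have hz2 : |(mv h⁻¹ (ZP z - Q)).2| ≤ R := by
    have : (mv h⁻¹ (ZP z - Q)).2 = ((mv h⁻¹ (ZP z - Q)).2 - w.2) + w.2 := by ring
    rw [this]
    refine (abs_add_le _ _).trans ?_
    rw [hR]
    linarith [hh.2]
  obtain ⟨a1, a2, a3, a4⟩ := hε z ⟨hz1, hz2⟩
  rcases hw5 with h5 | h5 | h5 | h5
  · rw [h5, sub_zero] at hh
    linarith [hh.1]
  · rw [h5, sub_neg_eq_add] at hh
    linarith [hh.1]
  · rw [h5, sub_zero] at hh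
    linarith [hh.2]
  · rw [h5, sub_neg_eq_add] at hh
    linarith [hh.2]

private theorem god_near (h : SLR) (Q : Pl) (R ε : ℝ) (hε : 0 < ε) :
    ∀ᶠ p : SLR × Pl in 𝓝 (h, Q), ∀ v ∈ Icc (-R) R ×ˢ Icc (-R) R,
      |(mv h⁻¹ (p.2 + mv p.1 v - Q)).1 - v.1| < ε ∧
      |(mv h⁻¹ (p.2 + mv p.1 v - Q)).2 - v.2| < ε := by
  have hK : IsCompact (Icc (-R) R ×ˢ Icc (-R) R : Set Pl) := isCompact_Icc.prod isCompact_Icc
  refine hK.eventually_forall_of_forall_eventually fun v _ => ?_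
  have hcont : Continuous fun z : (SLR × Pl) × Pl => mv h⁻¹ (z.1.2 + mv z.1.1 z.2 - Q) - z.2 := by
    have h1 : Continuous fun z : (SLR × Pl) × Pl => mv z.1.1 z.2 :=
      continuous_mv.comp ((continuous_fst.comp continuous_fst).prodMk continuous_snd)
    exact ((continuous_mv_left h⁻¹).comp
      (((continuous_snd.comp continuous_fst).add h1).sub continuous_const)).sub continuous_snd
  have h0 : mv h⁻¹ (Q + mv h v - Q) - v = 0 := by
    rw [add_sub_cancel_left, mv_inv_mv, sub_self]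
  have ht : Tendsto (fun z : (SLR × Pl) × Pl => mv h⁻¹ (z.1.2 + mv z.1.1 z.2 - Q) - z.2)
      (𝓝 ((h, Q), v)) (𝓝 (0 : Pl)) := by
    have := hcont.tendsto ((h, Q), v)
    simp only [h0] at this
    exact this
  have h1 : Tendsto (fun z : (SLR × Pl) × Pl =>
      |(mv h⁻¹ (z.1.2 + mv z.1.1 z.2 - Q)).1 - z.2.1|) (𝓝 ((h, Q), v)) (𝓝 0) := by
    have := ((continuous_fst.tendsto (0 : Pl)).comp ht).abs
    simpa using this
  have h2 : Tendsto (fun z : (SLR × Pl) × Pl =>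
      |(mv h⁻¹ (z.1.2 + mv z.1.1 z.2 - Q)).2 - z.2.2|) (𝓝 ((h, Q), v)) (𝓝 0) := by
    have := ((continuous_snd.tendsto (0 : Pl)).comp ht).abs
    simpa using this
  exact (h1.eventually (gt_mem_nhds hε)).and (h2.eventually (gt_mem_nhds hε))

private theorem god_LF4 {h h' : SLR} {Q Q' : Pl} {x y ε R : ℝ} (hM : Mg ε x y h Q)
    (hnear : ∀ v ∈ Icc (-R) R ×ˢ Icc (-R) R,
      |(mv h⁻¹ (Q' + mv h' v - Q)).1 - v.1| < ε ∧
      |(mv h⁻¹ (Q' + mv h' v - Q)).2 - v.2| < ε) {W1 W2 : Pl}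
    (hW1 : W1 ∈ Icc (-R) R ×ˢ Icc (-R) R) (hW2 : W2 ∈ Icc (-R) R ×ˢ Icc (-R) R)
    (hseg : segment ℝ W1 W2 ⊆ bdR x y) :
    LF4 (Q + mv h W1) (Q + mv h W2) (Q' + mv h' W2) (Q' + mv h' W1) := by
  have h1 := hnear W1 hW1
  have h2 := hnear W2 hW2
  have h3 := LF4_of_margin h Q W1 W2 (mv h⁻¹ (Q' + mv h' W1 - Q)) (mv h⁻¹ (Q' + mv h' W2 - Q)) ε
    ⟨h1.1.le, h1.2.le⟩ ⟨h2.1.le, h2.2.le⟩ (fun z w hw => hM z w (hseg hw))
  rw [mv_mv_inv, mv_mv_inv, add_sub_cancel, add_sub_cancel] at h3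
  exact h3

private theorem god_seg {x y : ℝ} {W1 W2 : Pl} (a1 : -x ≤ W1.1) (a2 : W1.1 ≤ 0) (a3 : -y ≤ W1.2)
    (a4 : W1.2 ≤ 0) (b1 : -x ≤ W2.1) (b2 : W2.1 ≤ 0) (b3 : -y ≤ W2.2)
    (b4 : W2.2 ≤ 0) (hc : (W1.1 = 0 ∧ W2.1 = 0) ∨ (W1.1 = -x ∧ W2.1 = -x) ∨
      (W1.2 = 0 ∧ W2.2 = 0) ∨ (W1.2 = -y ∧ W2.2 = -y)) : segment ℝ W1 W2 ⊆ bdR x y := by
  rintro w ⟨c, d, hc0, hd0, hcd, rfl⟩
  have hd : d = 1 - c := by linarith
  subst hd
  refine ⟨?_, ?_, ?_, ?_, ?_⟩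
  · simp only [Prod.fst_add, Prod.smul_fst, smul_eq_mul]
    nlinarith
  · simp only [Prod.fst_add, Prod.smul_fst, smul_eq_mul]
    nlinarith
  · simp only [Prod.snd_add, Prod.smul_snd, smul_eq_mul]
    nlinarith
  · simp only [Prod.snd_add, Prod.smul_snd, smul_eq_mul]
    nlinarith
  · simp only [Prod.snd_add, Prod.smul_snd, smul_eq_mul, Prod.fst_add, Prod.smul_fst]
    rcases hc with ⟨e1, e2⟩ | ⟨e1, e2⟩ | ⟨e1, e2⟩ | ⟨e1, e2⟩
    · left; rw [e1, e2]; ring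
    · right; left; rw [e1, e2]; ring
    · right; right; left; rw [e1, e2]; ring
    · right; right; right; rw [e1, e2]; ring

private theorem god_rect {H : Type*} [Group H] (a b : H) {h h' : SLR} {Q Q' : Pl} {x y ε R : ℝ}
    (hx : 0 ≤ x) (hy : 0 ≤ y) (hxR : x ≤ R) (hyR : y ≤ R) (hM : Mg ε x y h Q)
    (hnear : ∀ v ∈ Icc (-R) R ×ˢ Icc (-R) R,
      |(mv h⁻¹ (Q' + mv h' v - Q)).1 - v.1| < ε ∧
      |(mv h⁻¹ (Q' + mv h' v - Q)).2 - v.2| < ε) :
    Rect a b h' Q' x y = tau a b Q Q' * Rect a b h Q x y * (tau a b Q Q')⁻¹ := by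
  have hA : ((0, 0) : Pl) ∈ Icc (-R) R ×ˢ Icc (-R) R :=
    ⟨⟨by simp only; linarith, by simp only; linarith⟩, ⟨by simp only; linarith,
      by simp only; linarith⟩⟩
  have hB : ((-x, 0) : Pl) ∈ Icc (-R) R ×ˢ Icc (-R) R :=
    ⟨⟨by simp only; linarith, by simp only; linarith⟩, ⟨by simp only; linarith,
      by simp only; linarith⟩⟩
  have hC : ((-x, -y) : Pl) ∈ Icc (-R) R ×ˢ Icc (-R) R :=
    ⟨⟨by simp only; linarith, by simp only; linarith⟩, ⟨by simp only; linarith,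
      by simp only; linarith⟩⟩
  have hD : ((0, -y) : Pl) ∈ Icc (-R) R ×ˢ Icc (-R) R :=
    ⟨⟨by simp only; linarith, by simp only; linarith⟩, ⟨by simp only; linarith,
      by simp only; linarith⟩⟩
  have h1 := god_LF4 hM hnear hA hB (god_seg (by simp only; linarith) le_rfl
    (by simp only; linarith) le_rfl le_rfl (by simp only; linarith) (by simp only; linarith) le_rfl
    (Or.inr (Or.inr (Or.inl ⟨rfl, rfl⟩))))
  have h2 := god_LF4 hM hnear hB hC (god_seg le_rfl (by simp only; linarith)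
    (by simp only; linarith) le_rfl le_rfl (by simp only; linarith) le_rfl (by simp only; linarith)
    (Or.inr (Or.inl ⟨rfl, rfl⟩)))
  have h3 := god_LF4 hM hnear hC hD (god_seg le_rfl (by simp only; linarith)
    le_rfl (by simp only; linarith) (by simp only; linarith) le_rfl le_rfl
    (by simp only; linarith)
    (Or.inr (Or.inr (Or.inr ⟨rfl, rfl⟩))))
  have h4 := god_LF4 hM hnear hD hA (god_seg (by simp only; linarith) le_rfl
    le_rfl (by simp only; linarith) (by simp only; linarith) le_rfl (by simp only; linarith) le_rfl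
    (Or.inl ⟨rfl, rfl⟩))
  have e0 : ∀ g : SLR, mv g ((0, 0) : Pl) = 0 := by
    intro g
    ext <;> simp [mv]
  rw [e0, e0, add_zero, add_zero] at h1 h4
  exact hol4_conj a b h1 h2 h3 h4

private theorem god_finset {Λ : Type} [Fintype Λ] [DecidableEq Λ] (h : SLR) (Q : Pl) :
    ∃ f : Finset (ℚ × ℚ), (∀ r ∈ f, 0 < r.1 ∧ 0 < r.2) ∧ ∀ a b : Equiv.Perm Λ,
      RN a b h Q ≤ Subgroup.closure {g | ∃ r ∈ f, g = Rect a b h Q (r.1 : ℝ) (r.2 : ℝ)} := by
  classical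
  have key : ∀ t : Equiv.Perm Λ × Equiv.Perm Λ × Equiv.Perm Λ, ∃ r : ℚ × ℚ, (0 < r.1 ∧ 0 < r.2) ∧
      ((∃ x y : ℚ, 0 < x ∧ 0 < y ∧ t.2.2 = Rect t.1 t.2.1 h Q x y) →
        t.2.2 = Rect t.1 t.2.1 h Q (r.1 : ℝ) (r.2 : ℝ)) := by
    intro t
    by_cases ht : ∃ x y : ℚ, 0 < x ∧ 0 < y ∧ t.2.2 = Rect t.1 t.2.1 h Q x y
    · obtain ⟨x, y, hx, hy, hxy⟩ := ht
      exact ⟨(x, y), ⟨hx, hy⟩, fun _ => hxy⟩
    · exact ⟨(1, 1), ⟨one_pos, one_pos⟩, fun h' => absurd h' ht⟩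
  choose r hr1 hr2 using key
  refine ⟨Finset.univ.image r, ?_, ?_⟩
  · intro q hq
    rw [Finset.mem_image] at hq
    obtain ⟨t, _, rfl⟩ := hq
    exact hr1 t
  · intro a b
    unfold RN
    apply Subgroup.closure_mono
    rintro g ⟨x, y, hx, hy, hg⟩
    refine ⟨r (a, b, g), Finset.mem_image_of_mem r (Finset.mem_univ _), ?_⟩
    exact hr2 (a, b, g) ⟨x, y, hx, hy, hg⟩

theorem GG_nhds {Λ : Type} [Fintype Λ] [DecidableEq Λ] {h : SLR} {Q : Pl} (hg : GenQ h Q) :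
    ∀ᶠ n in atTop, (h, Q) ∈ interior (GG Λ n) := by
  obtain ⟨f, hf, hRN⟩ := god_finset (Λ := Λ) h Q
  have hmar : ∀ᶠ ε in 𝓝[>] (0 : ℝ), ∀ r ∈ f, Mg (3 * ε) (r.1 : ℝ) (r.2 : ℝ) h Q :=
    (eventually_all_finset f).mpr fun r hr => god_margin hg (hf r hr).1 (hf r hr).2
  have hpos : ∀ᶠ ε in 𝓝[>] (0 : ℝ), 0 < ε := self_mem_nhdsWithin
  have hlt : ∀ᶠ ε in 𝓝[>] (0 : ℝ), ε < 1 :=
    nhdsWithin_le_nhds (gt_mem_nhds (one_pos : (0 : ℝ) < 1))
  obtain ⟨ε, hε, hε0, hε1⟩ := (hmar.and (hpos.and hlt)).exists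
  have hε0' : 0 < ε := hε0
  have hε1' : ε < 1 := hε1
  obtain ⟨R, hR⟩ : ∃ R : ℝ, ∀ r ∈ f, (r.1 : ℝ) + 1 ≤ R ∧ (r.2 : ℝ) + 1 ≤ R := by
    refine ⟨∑ r ∈ f, ((r.1 : ℝ) + r.2) + 1, fun r hr => ?_⟩
    have h1 : (r.1 : ℝ) + r.2 ≤ ∑ r ∈ f, ((r.1 : ℝ) + r.2) := by
      refine Finset.single_le_sum (f := fun r : ℚ × ℚ => (r.1 : ℝ) + r.2) (fun q hq => ?_) hr
      have h1 : (0 : ℝ) < q.1 := by exact_mod_cast (hf q hq).1
      have h2 : (0 : ℝ) < q.2 := by exact_mod_cast (hf q hq).2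
      positivity
    have h1' : (0 : ℝ) < r.1 := by exact_mod_cast (hf r hr).1
    have h2' : (0 : ℝ) < r.2 := by exact_mod_cast (hf r hr).2
    constructor <;> linarith
  have hnear := god_near h Q R ε hε0'
  have hFam : ∀ᶠ n in atTop, ∀ r ∈ f, r ∈ Fam n :=
    (eventually_all_finset f).mpr fun r hr => Fam_eventually (hf r hr).1 (hf r hr).2
  have hsm : ∀ᶠ n : ℕ in atTop, 1 / ((n : ℝ) + 1) < ε :=
    tendsto_one_div_add_atTop_nhds_zero_nat.eventually (gt_mem_nhds hε0')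
  filter_upwards [hFam, hsm] with n hn1 hn2
  rw [mem_interior_iff_mem_nhds]
  filter_upwards [hnear] with p hp
  obtain ⟨h', Q'⟩ := p
  intro a b g hgN
  simp only at hp ⊢
  -- the margins at the new point
  have hMg : ∀ r ∈ f, Mg (1 / ((n : ℝ) + 1)) (r.1 : ℝ) (r.2 : ℝ) h' Q' := by
    intro r hr z w hw hh
    have hr1 : (0 : ℝ) < r.1 := by exact_mod_cast (hf r hr).1
    have hr2 : (0 : ℝ) < r.2 := by exact_mod_cast (hf r hr).2
    have hw1 : |w.1| ≤ r.1 := abs_le.mpr ⟨hw.1, by linarith [hw.2.1]⟩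
    have hw3 : |w.2| ≤ r.2 := abs_le.mpr ⟨hw.2.2.1, by linarith [hw.2.2.2.1]⟩
    obtain ⟨v, hv⟩ : ∃ v, v = mv h'⁻¹ (ZP z - Q') := ⟨_, rfl⟩
    rw [← hv] at hh
    have hv1 : |v.1| ≤ R := by
      have : v.1 = (v.1 - w.1) + w.1 := by ring
      rw [this]
      refine (abs_add_le _ _).trans ?_
      linarith [hh.1, (hR r hr).1]
    have hv2 : |v.2| ≤ R := by
      have : v.2 = (v.2 - w.2) + w.2 := by ring
      rw [this]
      refine (abs_add_le _ _).trans ?_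
      linarith [hh.2, (hR r hr).2]
    have h3 := hp v ⟨abs_le.mp hv1, abs_le.mp hv2⟩
    have e1 : Q' + mv h' v - Q = ZP z - Q := by
      rw [hv, mv_mv_inv, add_sub_cancel]
    rw [e1] at h3
    apply hε r hr z w hw
    constructor
    · have : (mv h⁻¹ (ZP z - Q)).1 - w.1 = ((mv h⁻¹ (ZP z - Q)).1 - v.1) + (v.1 - w.1) := by ring
      rw [this]
      refine (abs_add_le _ _).trans ?_
      linarith [hh.1, h3.1]
    · have : (mv h⁻¹ (ZP z - Q)).2 - w.2 = ((mv h⁻¹ (ZP z - Q)).2 - v.2) + (v.2 - w.2) := by ring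
      rw [this]
      refine (abs_add_le _ _).trans ?_
      linarith [hh.2, h3.2]
  have hrect : ∀ r ∈ f, Rect a b h' Q' (r.1 : ℝ) (r.2 : ℝ) =
      tau a b Q Q' * Rect a b h Q (r.1 : ℝ) (r.2 : ℝ) * (tau a b Q Q')⁻¹ := by
    intro r hr
    have hr1 : (0 : ℝ) < r.1 := by exact_mod_cast (hf r hr).1
    have hr2 : (0 : ℝ) < r.2 := by exact_mod_cast (hf r hr).2
    have hR' := hR r hr
    exact god_rect a b hr1.le hr2.le (by linarith) (by linarith)
      (god_Mg_mono (by linarith) (hε r hr)) hp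
  -- conjugation
  obtain ⟨t, ht⟩ : ∃ t, t = tau a b Q Q' := ⟨_, rfl⟩
  have htm : t ∈ Subgroup.closure {a, b} := ht ▸ tau_mem a b Q Q'
  have h4 : t⁻¹ * g * t⁻¹⁻¹ ∈ Nc a b := Nc_conj a b (inv_mem htm) hgN
  have h5 := hRN a b (gen_rect a b hg h4)
  have h6 : ∀ k ∈ Subgroup.closure {g | ∃ r ∈ f, g = Rect a b h Q (r.1 : ℝ) (r.2 : ℝ)},
      t * k * t⁻¹ ∈ Subgroup.closure {g' | ∃ r ∈ Fam n,
        Mg (1 / ((n : ℝ) + 1)) (r.1 : ℝ) (r.2 : ℝ) h' Q' ∧
        g' = Rect a b h' Q' (r.1 : ℝ) (r.2 : ℝ)} := by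
    intro k hk
    induction hk using Subgroup.closure_induction with
    | mem x hx =>
      obtain ⟨r, hr, rfl⟩ := hx
      apply Subgroup.subset_closure
      refine ⟨r, hn1 r hr, hMg r hr, ?_⟩
      rw [hrect r hr, ht]
    | one =>
      rw [mul_one, mul_inv_cancel]
      exact one_mem _
    | mul x y _ _ hx hy =>
      have := mul_mem hx hy
      have e : t * (x * y) * t⁻¹ = t * x * t⁻¹ * (t * y * t⁻¹) := by group
      rw [e]
      exact this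
    | inv x _ hx =>
      have := inv_mem hx
      have e : t * x⁻¹ * t⁻¹ = (t * x * t⁻¹)⁻¹ := by group
      rw [e]
      exact this
  have h7 := h6 _ h5
  have e : t * (t⁻¹ * g * t⁻¹⁻¹) * t⁻¹ = g := by group
  rw [e] at h7
  exact h7

private theorem god_rect_add {H : Type*} [Group H] (a b : H) (h : SLR) (Q : Pl) (z : ℤ × ℤ)
    (x y : ℝ) : Rect a b h (Q + ZP z) x y = Rect a b h Q x y := by
  unfold Rect hol4
  rw [add_right_comm Q (ZP z), add_right_comm Q (ZP z), add_right_comm Q (ZP z)]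
  rw [tau_add_int, tau_add_int, tau_add_int, tau_add_int]

private theorem god_Mg_add {ε x y : ℝ} {h : SLR} {Q : Pl} (z : ℤ × ℤ) (hM : Mg ε x y h Q) :
    Mg ε x y h (Q + ZP z) := by
  intro z' w hw hh
  have e : ZP z' - (Q + ZP z) = ZP (z' - z) - Q := by
    ext
    · simp only [ZP, Prod.fst_sub, Prod.fst_add]
      push_cast
      ring
    · simp only [ZP, Prod.snd_sub, Prod.snd_add]
      push_cast
      ring
  rw [e] at hh
  exact hM (z' - z) w hw hh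

private theorem god_GG_add {Λ : Type} [Fintype Λ] [DecidableEq Λ] (n : ℕ) (h : SLR) (Q : Pl)
    (z : ℤ × ℤ) (hQ : (h, Q) ∈ GG Λ n) : (h, Q + ZP z) ∈ GG Λ n := by
  intro a b g hg
  have h1 := hQ a b g hg
  refine Subgroup.closure_mono ?_ h1
  rintro g' ⟨r, hr, hM, rfl⟩
  exact ⟨r, hr, god_Mg_add z hM, (god_rect_add a b h Q z _ _).symm⟩

private theorem god_ZP_neg (Q : Pl) (z : ℤ × ℤ) : Q + ZP z + ZP (-z) = Q := by
  ext
  · simp only [ZP, Prod.fst_add, Prod.fst_neg]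
    push_cast
    ring
  · simp only [ZP, Prod.snd_add, Prod.snd_neg]
    push_cast
    ring

theorem GG_periodic {Λ : Type} [Fintype Λ] [DecidableEq Λ] (n : ℕ) (h : SLR) (Q : Pl)
    (z : ℤ × ℤ) : (h, Q + ZP z) ∈ interior (GG Λ n) ↔ (h, Q) ∈ interior (GG Λ n) := by
  have hiff : ∀ p : SLR × Pl, (p.1, p.2 + ZP z) ∈ GG Λ n ↔ p ∈ GG Λ n := by
    intro p
    constructor
    · intro hp
      have := god_GG_add n p.1 _ (-z) hp
      rw [god_ZP_neg] at this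
      exact this
    · intro hp
      exact god_GG_add n p.1 p.2 z hp
  let e : SLR × Pl ≃ₜ SLR × Pl := (Homeomorph.refl SLR).prodCongr (Homeomorph.addRight (ZP z))
  have he : ∀ p : SLR × Pl, e p = (p.1, p.2 + ZP z) := fun p => rfl
  have h1 : e ⁻¹' GG Λ n = GG Λ n := by
    ext p
    rw [Set.mem_preimage, he]
    exact hiff p
  have h2 : e ⁻¹' interior (GG Λ n) = interior (GG Λ n) := by
    rw [e.preimage_interior, h1]
  have h3 : (h, Q) ∈ e ⁻¹' interior (GG Λ n) ↔ (h, Q) ∈ interior (GG Λ n) := by rw [h2]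
  rw [Set.mem_preimage, he] at h3
  exact h3

end Pool.Agent.ILL
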