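import Pool.Agent.ILL.Sdb

/-!
# KLO. Kloosterman sums, elementary bound

`K(a,b) = Σ_{x ∈ (ZMod p)ˣ} χ(a x + b x⁻¹)`, `χ = chi p`. `Σ_{a,b} |K(a,b)|⁴ = p² N`, `N` = number of
`(x₁,x₂,x₃,x₄) ∈ ((ZMod p)ˣ)⁴` with `x₁ + x₂ = x₃ + x₄` and `x₁⁻¹ + x₂⁻¹ = x₃⁻¹ + x₄⁻¹` (orthogonality). If
`x₁ + x₂ = s ≠ 0` then `s/(x₁x₂) = s/(x₃x₄)`, `x₁x₂ = x₃x₄`, so `{x₁,x₂} = {x₃,x₄}`: at most `2(p-1)²` solutions; if
`s = 0`: `x₂ = -x₁`, `x₄ = -x₃`: `(p-1)²`. So `N ≤ 3(p-1)²`. For `a, b ≠ 0`, `K(at, bt⁻¹) = K(a,b)` for the `p-1`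
units `t`, with distinct pairs; so `(p-1)|K(a,b)|⁴ ≤ 3p²(p-1)²`, `|K(a,b)|⁴ ≤ 3p³`, `|K| ≤ 2 p^{3/4}`.
For `a = 0`, `b ≠ 0` the sum is `-1`.
`chi_add`, `chi_sum` (orthogonality): `chi p` is the standard additive character (`ZMod.stdAddChar`,
`ZMod.toCircle`) or prove directly.
-/

open MeasureTheory Set Filter Topology
open scoped ENNReal NNReal

namespace Pool.Agent.ILL

private theorem chi_eq (p : ℕ) [NeZero p] (x : ZMod p) : chi p x = ZMod.stdAddChar x := by
  rw [ZMod.stdAddChar_apply, ZMod.toCircle_apply]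
  unfold chi ee
  congr 1
  push_cast
  ring

theorem chi_add (p : ℕ) [NeZero p] (x y : ZMod p) : chi p (x + y) = chi p x * chi p y := by
  rw [chi_eq, chi_eq, chi_eq, AddChar.map_add_eq_mul]

theorem chi_int (p : ℕ) [NeZero p] (n : ℤ) : chi p (n : ZMod p) = ee ((n : ℝ) / p) := by
  rw [chi_eq, ZMod.stdAddChar_coe]
  unfold ee
  congr 1
  push_cast
  ring

theorem chi_sum (p : ℕ) [Fact p.Prime] (a : ZMod p) :
    ∑ x : ZMod p, chi p (a * x) = if a = 0 then (p : ℂ) else 0 := by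
  have h := AddChar.sum_mulShift (ψ := (ZMod.stdAddChar : AddChar (ZMod p) ℂ)) a
    (ZMod.isPrimitive_stdAddChar p)
  have h2 : ∑ x : ZMod p, chi p (a * x) = ∑ x : ZMod p, ZMod.stdAddChar (x * a) := by
    refine Finset.sum_congr rfl fun x _ => ?_
    rw [chi_eq, mul_comm]
  rw [h2, h, ZMod.card]
  split_ifs <;> simp

section Kl

variable (p : ℕ) [Fact p.Prime]

private noncomputable def KK (a b : ZMod p) : ℂ :=
  ∑ x : (ZMod p)ˣ, chi p (a * (x : ZMod p) + b * ((x⁻¹ : (ZMod p)ˣ) : ZMod p))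

/-- first sum -/
private def Ss (q : (ZMod p)ˣ × (ZMod p)ˣ) : ZMod p := (q.1 : ZMod p) + (q.2 : ZMod p)

/-- second sum -/
private def Tt (q : (ZMod p)ˣ × (ZMod p)ˣ) : ZMod p :=
  ((q.1⁻¹ : (ZMod p)ˣ) : ZMod p) + ((q.2⁻¹ : (ZMod p)ˣ) : ZMod p)

private theorem KK_sq (a b : ZMod p) :
    KK p a b ^ 2 = ∑ q : (ZMod p)ˣ × (ZMod p)ˣ, chi p (a * Ss p q + b * Tt p q) := by
  rw [sq]
  unfold KK
  rw [Finset.sum_mul_sum, Fintype.sum_prod_type]
  refine Finset.sum_congr rfl fun x _ => Finset.sum_congr rfl fun y _ => ?_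
  rw [← chi_add]
  congr 1
  unfold Ss Tt
  ring

private theorem chi_neg (x : ZMod p) : chi p (-x) = (starRingEnd ℂ) (chi p x) := by
  rw [chi_eq, chi_eq, AddChar.map_neg_eq_conj]

private theorem KK_four (a b : ZMod p) :
    ((‖KK p a b‖ ^ 4 : ℝ) : ℂ) = ∑ q : (ZMod p)ˣ × (ZMod p)ˣ, ∑ r : (ZMod p)ˣ × (ZMod p)ˣ,
      chi p ((Ss p q - Ss p r) * a) * chi p ((Tt p q - Tt p r) * b) := by
  have h1 : ((‖KK p a b‖ ^ 4 : ℝ) : ℂ) = KK p a b ^ 2 * (starRingEnd ℂ) (KK p a b ^ 2) := by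
    rw [map_pow, ← mul_pow, Complex.mul_conj, Complex.normSq_eq_norm_sq]
    push_cast
    ring
  rw [h1, KK_sq, map_sum, Finset.sum_mul_sum]
  refine Finset.sum_congr rfl fun q _ => Finset.sum_congr rfl fun r _ => ?_
  rw [← chi_neg, ← chi_add, ← chi_add]
  congr 1
  ring

/-- the number of solutions -/
private theorem moment :
    ∑ a : ZMod p, ∑ b : ZMod p, ‖KK p a b‖ ^ 4 =
      (p : ℝ) ^ 2 * ∑ q : (ZMod p)ˣ × (ZMod p)ˣ,
        ((Finset.univ.filter fun r => Ss p q = Ss p r ∧ Tt p q = Tt p r).card : ℝ) := by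
  have h1 : ((∑ a : ZMod p, ∑ b : ZMod p, ‖KK p a b‖ ^ 4 : ℝ) : ℂ) =
      (((p : ℝ) ^ 2 * ∑ q : (ZMod p)ˣ × (ZMod p)ˣ,
        ((Finset.univ.filter fun r => Ss p q = Ss p r ∧ Tt p q = Tt p r).card : ℝ) : ℝ) : ℂ) := by
    rw [Complex.ofReal_sum]
    have e1 : ∀ a : ZMod p, ((∑ b : ZMod p, ‖KK p a b‖ ^ 4 : ℝ) : ℂ) =
        ∑ q : (ZMod p)ˣ × (ZMod p)ˣ, ∑ r : (ZMod p)ˣ × (ZMod p)ˣ,
          chi p ((Ss p q - Ss p r) * a) * if Tt p q - Tt p r = 0 then (p : ℂ) else 0 := by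
      intro a
      rw [Complex.ofReal_sum]
      have : ∀ b : ZMod p, ((‖KK p a b‖ ^ 4 : ℝ) : ℂ) =
          ∑ q : (ZMod p)ˣ × (ZMod p)ˣ, ∑ r : (ZMod p)ˣ × (ZMod p)ˣ,
            chi p ((Ss p q - Ss p r) * a) * chi p ((Tt p q - Tt p r) * b) := KK_four p a
      rw [Finset.sum_congr rfl fun b _ => this b, Finset.sum_comm]
      refine Finset.sum_congr rfl fun q _ => ?_
      rw [Finset.sum_comm]
      refine Finset.sum_congr rfl fun r _ => ?_
      rw [← Finset.mul_sum, chi_sum]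
    rw [Finset.sum_congr rfl fun a _ => e1 a, Finset.sum_comm]
    push_cast
    rw [Finset.mul_sum]
    refine Finset.sum_congr rfl fun q _ => ?_
    rw [Finset.sum_comm]
    have e2 : ∀ r : (ZMod p)ˣ × (ZMod p)ˣ, ∑ a : ZMod p, (chi p ((Ss p q - Ss p r) * a) *
        if Tt p q - Tt p r = 0 then (p : ℂ) else 0) =
        if Ss p q = Ss p r ∧ Tt p q = Tt p r then (p : ℂ) ^ 2 else 0 := by
      intro r
      rw [← Finset.sum_mul, chi_sum]
      by_cases h1 : Ss p q = Ss p r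
      · by_cases h2 : Tt p q = Tt p r
        · rw [if_pos (sub_eq_zero.2 h1), if_pos (sub_eq_zero.2 h2), if_pos ⟨h1, h2⟩, sq]
        · rw [if_neg (show ¬ Tt p q - Tt p r = 0 from fun h => h2 (sub_eq_zero.1 h)),
            if_neg (show ¬ (Ss p q = Ss p r ∧ Tt p q = Tt p r) from fun h => h2 h.2), mul_zero]
      · rw [if_neg (show ¬ Ss p q - Ss p r = 0 from fun h => h1 (sub_eq_zero.1 h)),
          if_neg (show ¬ (Ss p q = Ss p r ∧ Tt p q = Tt p r) from fun h => h1 h.1), zero_mul]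
    rw [Finset.sum_congr rfl fun r _ => e2 r, ← Finset.sum_filter, Finset.sum_const, nsmul_eq_mul,
      mul_comm]
  exact_mod_cast h1

private theorem fiber_le (q : (ZMod p)ˣ × (ZMod p)ˣ) :
    (Finset.univ.filter fun r => Ss p q = Ss p r ∧ Tt p q = Tt p r).card ≤
      2 + if Ss p q = 0 then p - 1 else 0 := by
  classical
  by_cases h0 : Ss p q = 0
  · rw [if_pos h0]
    refine le_trans ?_ (Nat.le_add_left _ _)
    have h1 : Fintype.card (ZMod p)ˣ = p - 1 := ZMod.card_units p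
    rw [← h1, ← Finset.card_univ]
    refine Finset.card_le_card_of_injOn (fun r => r.1) (fun _ _ => Finset.mem_coe.2 (Finset.mem_univ _)) ?_
    rintro ⟨x, y⟩ hr ⟨x', y'⟩ hr' (h : x = x')
    subst h
    simp only [Finset.coe_filter, Finset.mem_univ, true_and, mem_ofPred_eq] at hr hr'
    have e : (x : ZMod p) + (y : ZMod p) = (x : ZMod p) + (y' : ZMod p) := hr.1.symm.trans hr'.1
    have : y = y' := Units.ext (add_left_cancel e)
    rw [this]
  · rw [if_neg h0, add_zero]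
    have hsub : (Finset.univ.filter fun r => Ss p q = Ss p r ∧ Tt p q = Tt p r) ⊆
        {(q.1, q.2), (q.2, q.1)} := by
      rintro ⟨x, y⟩ hr
      rw [Finset.mem_filter] at hr
      obtain ⟨-, hs, ht⟩ := hr
      obtain ⟨u, v⟩ := q
      unfold Ss at hs h0
      unfold Tt at ht
      simp only at hs ht h0 ⊢
      rw [Finset.mem_insert, Finset.mem_singleton]
      simp only [Units.val_inv_eq_inv_val] at ht
      have hu : (u : ZMod p) ≠ 0 := u.ne_zero
      have hv : (v : ZMod p) ≠ 0 := v.ne_zero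
      have hx : (x : ZMod p) ≠ 0 := x.ne_zero
      have hy : (y : ZMod p) ≠ 0 := y.ne_zero
      have h1 : ((u : ZMod p) + v) * (x * y) = ((u : ZMod p) + v) * (u * v) := by
        have h2 : (u : ZMod p)⁻¹ + (v : ZMod p)⁻¹ = ((u : ZMod p) + v) / (u * v) := by
          field_simp
          ring
        have h3 : (x : ZMod p)⁻¹ + (y : ZMod p)⁻¹ = ((u : ZMod p) + v) / (x * y) := by
          rw [hs]
          field_simp
          ring
        rw [h2, h3, div_eq_div_iff (mul_ne_zero hu hv) (mul_ne_zero hx hy)] at ht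
        exact ht
      have h4 : (x : ZMod p) * y = u * v := mul_left_cancel₀ h0 h1
      have h5 : ((x : ZMod p) - u) * (x - v) = 0 := by
        have : (y : ZMod p) = u + v - x := by rw [hs]; ring
        rw [this] at h4
        linear_combination -h4
      rcases mul_eq_zero.1 h5 with h6 | h6
      · left
        have e1 : x = u := Units.ext (sub_eq_zero.1 h6)
        have e2 : y = v := by
          apply Units.ext
          rw [e1] at hs
          exact (add_left_cancel hs).symm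
        rw [e1, e2]
      · right
        have e1 : x = v := Units.ext (sub_eq_zero.1 h6)
        have e2 : y = u := by
          apply Units.ext
          rw [e1, add_comm] at hs
          exact (add_left_cancel hs).symm
        rw [e1, e2]
    exact (Finset.card_le_card hsub).trans Finset.card_le_two

private theorem count_le :
    ∑ q : (ZMod p)ˣ × (ZMod p)ˣ,
      (Finset.univ.filter fun r => Ss p q = Ss p r ∧ Tt p q = Tt p r).card ≤ 3 * (p - 1) ^ 2 := by
  classical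
  have h1 : Fintype.card (ZMod p)ˣ = p - 1 := ZMod.card_units p
  refine (Finset.sum_le_sum fun q _ => fiber_le p q).trans ?_
  rw [Finset.sum_add_distrib, Finset.sum_const, Finset.card_univ, Fintype.card_prod, h1,
    ← Finset.sum_filter, Finset.sum_const, smul_eq_mul, smul_eq_mul]
  have h2 : (Finset.univ.filter fun q : (ZMod p)ˣ × (ZMod p)ˣ => Ss p q = 0).card ≤ p - 1 := by
    rw [← h1, ← Finset.card_univ]
    refine Finset.card_le_card_of_injOn (fun r => r.1) (fun _ _ => Finset.mem_coe.2 (Finset.mem_univ _)) ?_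
    rintro ⟨x, y⟩ hr ⟨x', y'⟩ hr' (h : x = x')
    subst h
    simp only [Finset.coe_filter, Finset.mem_univ, true_and, mem_ofPred_eq] at hr hr'
    have e : (x : ZMod p) + (y : ZMod p) = (x : ZMod p) + (y' : ZMod p) := hr.trans hr'.symm
    have : y = y' := Units.ext (add_left_cancel e)
    rw [this]
  have h3 := Nat.mul_le_mul_right (p - 1) h2
  nlinarith [h3]

private theorem KK_shift (a b : ZMod p) (t : (ZMod p)ˣ) :
    KK p (a * t) (b * (t⁻¹ : (ZMod p)ˣ)) = KK p a b := by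
  unfold KK
  refine Fintype.sum_equiv (Equiv.mulLeft t) _ _ fun x => ?_
  congr 1
  simp only [Equiv.coe_mulLeft, Units.val_mul, mul_inv_rev]
  ring

end Kl

theorem kloosterman (p : ℕ) [Fact p.Prime] (a b : ZMod p) (hb : b ≠ 0) :
    ‖∑ x : (ZMod p)ˣ, chi p (a * (x : ZMod p) + b * ((x⁻¹ : (ZMod p)ˣ) : ZMod p))‖ ≤
      2 * (p : ℝ) ^ (3 / 4 : ℝ) := by
  classical
  have hp1 : 1 < p := (Fact.out : p.Prime).one_lt
  have hp : (1 : ℝ) < p := by exact_mod_cast hp1
  by_cases ha : a = 0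
  · subst ha
    have h1 : ∑ x : (ZMod p)ˣ, chi p (0 * (x : ZMod p) + b * ((x⁻¹ : (ZMod p)ˣ) : ZMod p)) = -1 := by
      have e1 : ∑ x : (ZMod p)ˣ, chi p (0 * (x : ZMod p) + b * ((x⁻¹ : (ZMod p)ˣ) : ZMod p)) =
          ∑ x : (ZMod p)ˣ, chi p (b * (x : ZMod p)) := by
        refine Fintype.sum_equiv (Equiv.inv _) _ _ fun x => ?_
        rw [zero_mul, zero_add]
        rfl
      have e2 := chi_sum p b
      rw [if_neg hb] at e2
      have e3 : ∑ x : ZMod p, chi p (b * x) = chi p 0 + ∑ x : (ZMod p)ˣ, chi p (b * (x : ZMod p)) := by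
        rw [← Finset.add_sum_erase _ _ (Finset.mem_univ (0 : ZMod p)), mul_zero]
        congr 1
        refine (Finset.sum_bij (fun (x : (ZMod p)ˣ) _ => (x : ZMod p)) ?_ ?_ ?_ ?_).symm
        · intro x _
          exact Finset.mem_erase.2 ⟨x.ne_zero, Finset.mem_univ _⟩
        · intro x _ y _ h
          exact Units.ext h
        · intro y hy
          exact ⟨Units.mk0 y (Finset.mem_erase.1 hy).1, Finset.mem_univ _, rfl⟩
        · intro x _
          rfl
      have e4 : chi p 0 = 1 := by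
        rw [chi_eq, AddChar.map_zero_eq_one]
      rw [e1]
      rw [e2, e4] at e3
      linear_combination -e3
    rw [h1, norm_neg, norm_one]
    have : (1 : ℝ) ≤ (p : ℝ) ^ (3 / 4 : ℝ) := Real.one_le_rpow hp.le (by norm_num)
    linarith
  · change ‖KK p a b‖ ≤ _
    have hU : Fintype.card (ZMod p)ˣ = p - 1 := ZMod.card_units p
    have h1 : ((p - 1 : ℕ) : ℝ) * ‖KK p a b‖ ^ 4 ≤ ∑ a : ZMod p, ∑ b : ZMod p, ‖KK p a b‖ ^ 4 := by
      rw [← hU, ← Finset.card_univ, ← nsmul_eq_mul, ← Finset.sum_const, ← Fintype.sum_prod_type']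
      let g : (ZMod p)ˣ → ZMod p × ZMod p := fun t => (a * t, b * (t⁻¹ : (ZMod p)ˣ))
      have hg : Function.Injective g := by
        intro t t' h
        exact Units.ext (mul_left_cancel₀ ha (congrArg Prod.fst h))
      have e1 : ∑ _t : (ZMod p)ˣ, ‖KK p a b‖ ^ 4 =
          ∑ z ∈ Finset.univ.image g, ‖KK p z.1 z.2‖ ^ 4 := by
        rw [Finset.sum_image fun t _ t' _ h => hg h]
        refine Finset.sum_congr rfl fun t _ => ?_
        rw [KK_shift]
      rw [e1]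
      exact Finset.sum_le_sum_of_subset_of_nonneg (Finset.subset_univ _) fun _ _ _ => by positivity
    rw [moment] at h1
    have h2 : ∑ q : (ZMod p)ˣ × (ZMod p)ˣ,
        ((Finset.univ.filter fun r => Ss p q = Ss p r ∧ Tt p q = Tt p r).card : ℝ) ≤
        3 * ((p - 1 : ℕ) : ℝ) ^ 2 := by
      have := count_le p
      exact_mod_cast this
    have h3 : ((p - 1 : ℕ) : ℝ) = p - 1 := by
      rw [Nat.cast_sub hp1.le, Nat.cast_one]
    have h4 : ((p : ℝ) - 1) * ‖KK p a b‖ ^ 4 ≤ ((p : ℝ) - 1) * (3 * (p : ℝ) ^ 3) := by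
      rw [h3] at h1 h2
      refine h1.trans ?_
      have h5 : (p : ℝ) ^ 2 * ∑ q : (ZMod p)ˣ × (ZMod p)ˣ,
        ((Finset.univ.filter fun r => Ss p q = Ss p r ∧ Tt p q = Tt p r).card : ℝ) ≤
        (p : ℝ) ^ 2 * (3 * ((p : ℝ) - 1) ^ 2) := mul_le_mul_of_nonneg_left h2 (by positivity)
      refine h5.trans ?_
      have h6 : (0 : ℝ) ≤ (p : ℝ) ^ 2 * ((p : ℝ) - 1) := mul_nonneg (by positivity) (by linarith)
      nlinarith
    have h5 : ‖KK p a b‖ ^ 4 ≤ 3 * (p : ℝ) ^ 3 := le_of_mul_le_mul_left h4 (by linarith)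
    have h6 : (2 * (p : ℝ) ^ (3 / 4 : ℝ)) ^ 4 = 16 * (p : ℝ) ^ 3 := by
      rw [mul_pow, ← Real.rpow_natCast ((p : ℝ) ^ (3 / 4 : ℝ)) 4, ← Real.rpow_mul (by linarith)]
      norm_num
    refine le_of_pow_le_pow_left₀ (n := 4) (by norm_num) (by positivity) ?_
    rw [h6]
    have : (0 : ℝ) ≤ (p : ℝ) ^ 3 := by positivity
    linarith

end Pool.Agent.ILL
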