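import Pool.Agent.ILL.Twm
import Pool.Agent.ILL.Avn

/-!
# LAB. The averages in terms of labels

For an admissible `q₀`: `(wPhi (-s)).act f0 (h,P) (a,b,q₀,q) = f0 (h nl s, P) (a,b,q₀, tau Q X_s q)` with
`Q = P + mv h (1,0)`, `X_s = P + mv h (1,s)`, and `ind (h nl s, P) (a,b,q₀,tau Q X_s q)` is the indicator of
`tau Q X_s q = tau P X_s q₀`, i.e. of `q = labS s`. The average term is
`avgN (1[· = tau P X_s q₀]) (tau Q X_s q) = avgN (1[· = labS s]) q` (`avgN_smul` with `g = tau Q X_s`,
`tau_mem`). Integrate over `s` (linearity of `avgN`, a finite sum): `AS = DS - avgN DS`.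
If `q₀` is not admissible everything is `0`.
-/

open MeasureTheory Set Filter Topology
open scoped ENNReal NNReal

namespace Pool.Agent.ILL

section
variable {Λ : Type} [Fintype Λ] [DecidableEq Λ]

private theorem meas_ray (x : SLR × Pl) : Measurable fun s : ℝ => x.2 + mv x.1 (1, s) := by
  have h : Continuous fun s : ℝ => x.2 + mv x.1 (1, s) := by
    have h2 : Continuous fun s : ℝ => mv x.1 (1, s) :=
      (continuous_mv_left x.1).comp (Continuous.prodMk continuous_const continuous_id)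
    exact continuous_const.add h2
  exact h.measurable

theorem measurable_labS (x : SLR × Pl) (a b : Equiv.Perm Λ) (q₀ q : Λ) :
    MeasurableSet {s : ℝ | labS x a b q₀ s = q} := by
  have h : {s : ℝ | labS x a b q₀ s = q} = ⋃ g1 : Equiv.Perm Λ, ⋃ g2 : Equiv.Perm Λ,
      ({s : ℝ | tau a b (x.2 + mv x.1 (1, 0)) (x.2 + mv x.1 (1, s)) = g1} ∩
        {s : ℝ | tau a b x.2 (x.2 + mv x.1 (1, s)) = g2}) ∩ {_s : ℝ | g1⁻¹ (g2 q₀) = q} := by
    ext s
    simp only [mem_ofPred_eq, mem_iUnion, mem_inter_iff, labS]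
    constructor
    · intro h
      exact ⟨_, _, ⟨rfl, rfl⟩, h⟩
    · rintro ⟨g1, g2, ⟨h1, h2⟩, h3⟩
      rw [h1, h2, h3]
  rw [h]
  refine MeasurableSet.iUnion fun g1 => MeasurableSet.iUnion fun g2 => ?_
  refine ((meas_tau_comp a b measurable_const (meas_ray x) g1).inter
    (meas_tau_comp a b measurable_const (meas_ray x) g2)).inter (MeasurableSet.const _)

open Classical in
private noncomputable def il {Λ : Type} (x : SLR × Pl) (a b : Equiv.Perm Λ) (q₀ q : Λ) (s : ℝ) :
    ℝ := if labS x a b q₀ s = q then 1 else 0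

private theorem il_meas (x : SLR × Pl) (a b : Equiv.Perm Λ) (q₀ q : Λ) :
    Measurable (il x a b q₀ q) := by
  unfold il
  exact Measurable.ite (measurable_labS x a b q₀ q) measurable_const measurable_const

private theorem il_nonneg (x : SLR × Pl) (a b : Equiv.Perm Λ) (q₀ q : Λ) (s : ℝ) :
    0 ≤ il x a b q₀ q s := by
  unfold il
  split_ifs <;> norm_num

private theorem il_le (x : SLR × Pl) (a b : Equiv.Perm Λ) (q₀ q : Λ) (s : ℝ) :
    il x a b q₀ q s ≤ 1 := by
  unfold il
  split_ifs <;> norm_num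

private theorem il_int (x : SLR × Pl) (a b : Equiv.Perm Λ) (q₀ q : Λ) (u v : ℝ) :
    IntervalIntegrable (il x a b q₀ q) volume u v := by
  rw [intervalIntegrable_iff]
  refine Measure.integrableOn_of_bounded (M := 1) (by rw [uIoc]; exact measure_Ioc_lt_top.ne)
    (il_meas x a b q₀ q).aestronglyMeasurable ?_
  refine Filter.Eventually.of_forall fun s => ?_
  rw [Real.norm_eq_abs, abs_of_nonneg (il_nonneg x a b q₀ q s)]
  exact il_le x a b q₀ q s

private theorem DS_il (S : ℝ) (x : SLR × Pl) (a b : Equiv.Perm Λ) (q₀ q : Λ) :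
    DS S x a b q₀ q = (1 / S) * ∫ s in (0 : ℝ)..S, il x a b q₀ q s := by
  rfl

private theorem mv_nl (h : SLR) (s : ℝ) : mv (h * nl s) (1, 0) = mv h (1, s) := by
  rw [mv_mul]
  congr 1
  ext <;> simp [mv, nl]

private theorem ind_nl (x : SLR × Pl) (s : ℝ) {a b : Equiv.Perm Λ} {q₀ : Λ}
    (ha : adm a b x.2 q₀) (q : Λ) :
    ind (eR (nl s) x) (a, b, q₀,
      tau a b (x.2 + mv x.1 (1, 0)) (x.2 + mv x.1 (1, s)) q) = il x a b q₀ q s := by
  unfold ind il labS
  simp only [eR_apply, mv_nl, ha, true_and]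
  congr 1
  rw [eq_iff_iff, Equiv.Perm.inv_eq_iff_eq, eq_comm]

private theorem act_eq (x : SLR × Pl) (s : ℝ) {a b : Equiv.Perm Λ} {q₀ : Λ}
    (ha : adm a b x.2 q₀) (q : Λ) :
    (wPhi (-s)).act f0 x (a, b, q₀, q) =
      il x a b q₀ q s - avgN a b (fun q' => il x a b q₀ q' s) q := by
  have h1 : (wPhi (-s)).act f0 x (a, b, q₀, q) = f0 (eR (nl s) x) (a, b, q₀,
      tau a b (x.2 + mv x.1 (1, 0)) (x.2 + mv x.1 (1, s)) q) := by
    simp only [Tw.act, wPhi, neg_neg]
    rfl
  rw [h1, f0]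
  simp only
  rw [ind_nl x s ha, ← avgN_smul a b (tau_mem a b _ _)]
  congr 2
  funext q'
  exact ind_nl x s ha q'

theorem AS_eq {S : ℝ} (x : SLR × Pl) {a b : Equiv.Perm Λ} {q₀ : Λ} (ha : adm a b x.2 q₀)
    (q : Λ) : AS S x (a, b, q₀, q) = DS S x a b q₀ q - avgN a b (DS S x a b q₀) q := by
  unfold AS
  simp only [act_eq x _ ha q]
  have hi : ∀ q', IntervalIntegrable (fun s => il x a b q₀ q' s) volume 0 S :=
    fun q' => il_int x a b q₀ q' 0 S
  have hs : IntervalIntegrable (fun s => ∑ n ∈ NcF a b, il x a b q₀ (n q) s) volume 0 S := by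
    have h := IntervalIntegrable.sum (μ := volume) (a := 0) (b := S) (NcF a b)
      (f := fun n s => il x a b q₀ (n q) s) (fun n _ => hi (n q))
    refine h.congr ?_
    exact fun s _ => Finset.sum_apply _ _ _
  unfold avgN
  rw [intervalIntegral.integral_sub (hi q) (hs.div_const _), mul_sub,
    intervalIntegral.integral_div, intervalIntegral.integral_finsetSum fun n _ => hi (n q)]
  simp only [DS_il]
  congr 1
  rw [← Finset.mul_sum, mul_div_assoc]

theorem AS_not_adm {S : ℝ} (x : SLR × Pl) {a b : Equiv.Perm Λ} {q₀ : Λ}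
    (ha : ¬ adm a b x.2 q₀) (q : Λ) : AS S x (a, b, q₀, q) = 0 := by
  unfold AS
  have h : ∀ s : ℝ, (wPhi (-s)).act f0 x (a, b, q₀, q) = 0 := by
    intro s
    simp only [Tw.act, wPhi, f0, ind, avgN, labQ, eR_apply, Equiv.coe_fn_mk, ha, false_and,
      if_false, Finset.sum_const_zero, zero_div, sub_zero]
  simp only [h, intervalIntegral.integral_zero, mul_zero]

theorem DS_nonneg {S : ℝ} (hS : 0 < S) (x : SLR × Pl) (a b : Equiv.Perm Λ) (q₀ q : Λ) :
    0 ≤ DS S x a b q₀ q ∧ DS S x a b q₀ q ≤ 1 := by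
  rw [DS_il]
  constructor
  · exact mul_nonneg (by positivity)
      (intervalIntegral.integral_nonneg hS.le fun s _ => il_nonneg x a b q₀ q s)
  · have h : ∫ s in (0 : ℝ)..S, il x a b q₀ q s ≤ ∫ s in (0 : ℝ)..S, (1 : ℝ) :=
      intervalIntegral.integral_mono_on hS.le (il_int x a b q₀ q 0 S)
        intervalIntegrable_const fun s _ => il_le x a b q₀ q s
    rw [intervalIntegral.integral_const, smul_eq_mul, mul_one, sub_zero] at h
    rw [one_div, inv_mul_le_iff₀ hS, mul_one]
    exact h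

theorem DS_sum {S : ℝ} (hS : 0 < S) (x : SLR × Pl) (a b : Equiv.Perm Λ) (q₀ : Λ) :
    ∑ q, DS S x a b q₀ q = 1 := by
  simp only [DS_il]
  rw [← Finset.mul_sum, ← intervalIntegral.integral_finsetSum
    fun q _ => il_int x a b q₀ q 0 S]
  have h : ∀ s, ∑ q, il x a b q₀ q s = 1 := by
    intro s
    unfold il
    refine (Finset.sum_eq_single (labS x a b q₀ s) ?_ ?_).trans (if_pos rfl)
    · intro q _ hq
      exact if_neg (Ne.symm hq)
    · intro h
      exact absurd (Finset.mem_univ _) h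
  simp only [h, intervalIntegral.integral_const, smul_eq_mul, mul_one, sub_zero]
  field_simp

/-- rescaling of the parameter changes the average by little -/
private theorem rescale {S α : ℝ} (hS : 0 < S) (hα : 1 / 2 ≤ α) {f : ℝ → ℝ}
    (hf : ∀ u v, IntervalIntegrable f volume u v) (h0 : ∀ s, 0 ≤ f s) (h1 : ∀ s, f s ≤ 1) :
    |(1 / S) * (∫ s in (0 : ℝ)..S, f (s / α)) - (1 / S) * ∫ s in (0 : ℝ)..S, f s| ≤
      2 * |α - 1| := by
  have hα0 : 0 < α := by linarith
  have e1 : ∫ s in (0 : ℝ)..S, f (s / α) = α * ∫ s in (0 : ℝ)..(S / α), f s := by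
    rw [intervalIntegral.integral_comp_div f hα0.ne', zero_div, smul_eq_mul]
  have bnd : ∀ u v : ℝ, u ≤ v → 0 ≤ ∫ s in u..v, f s ∧ ∫ s in u..v, f s ≤ v - u := by
    intro u v huv
    refine ⟨intervalIntegral.integral_nonneg huv fun s _ => h0 s, ?_⟩
    have h : ∫ s in u..v, f s ≤ ∫ s in u..v, (1 : ℝ) :=
      intervalIntegral.integral_mono_on huv (hf u v) intervalIntegrable_const fun s _ => h1 s
    rwa [intervalIntegral.integral_const, smul_eq_mul, mul_one] at h
  rw [← mul_sub, abs_mul, abs_of_pos (by positivity : (0 : ℝ) < 1 / S), one_div,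
    inv_mul_le_iff₀ hS, e1]
  rcases le_total 1 α with h | h
  · have hle : S / α ≤ S := div_le_self hS.le h
    have hb1 := bnd 0 (S / α) (by positivity)
    have hb2 := bnd (S / α) S hle
    have e2 : ∫ s in (0 : ℝ)..S, f s = (∫ s in (0 : ℝ)..(S / α), f s) +
        ∫ s in (S / α)..S, f s := (intervalIntegral.integral_add_adjacent_intervals
          (hf _ _) (hf _ _)).symm
    have hk : S - S / α ≤ S * (α - 1) := by
      have : S - S / α = S * (α - 1) / α := by field_simp
      rw [this]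
      exact div_le_self (mul_nonneg hS.le (by linarith)) h
    have hk2 : (α - 1) * (S / α) ≤ S * (α - 1) := by
      have := mul_le_mul_of_nonneg_left hle (by linarith : (0:ℝ) ≤ α - 1)
      linarith
    have hk3 : (α - 1) * (∫ s in (0 : ℝ)..(S / α), f s) ≤ (α - 1) * (S / α) := by
      have := hb1.2
      rw [sub_zero] at this
      exact mul_le_mul_of_nonneg_left this (by linarith)
    have hk4 : 0 ≤ (α - 1) * (∫ s in (0 : ℝ)..(S / α), f s) :=
      mul_nonneg (by linarith) hb1.1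
    have hp : 0 ≤ S * (α - 1) := mul_nonneg hS.le (by linarith)
    rw [e2, abs_of_nonneg (by linarith : (0:ℝ) ≤ α - 1), abs_le]
    constructor <;> nlinarith [hb2.1, hb2.2]
  · have hle : S ≤ S / α := by
      rw [le_div_iff₀ hα0]
      nlinarith
    have hb1 := bnd 0 (S / α) (by positivity)
    have hb2 := bnd S (S / α) hle
    have e2 : ∫ s in (0 : ℝ)..(S / α), f s = (∫ s in (0 : ℝ)..S, f s) +
        ∫ s in S..(S / α), f s := (intervalIntegral.integral_add_adjacent_intervals
          (hf _ _) (hf _ _)).symm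
    have hb3 := bnd 0 S hS.le
    have hk : S / α - S ≤ S * (2 * (1 - α)) := by
      have : S / α - S = S * (1 - α) / α := by field_simp
      rw [this, div_le_iff₀ hα0]
      have : 0 ≤ S * (1 - α) := mul_nonneg hS.le (by linarith)
      nlinarith
    have hk3 : (1 - α) * (∫ s in (0 : ℝ)..S, f s) ≤ (1 - α) * S := by
      have := hb3.2
      rw [sub_zero] at this
      exact mul_le_mul_of_nonneg_left this (by linarith)
    have hk4 : 0 ≤ (1 - α) * (∫ s in (0 : ℝ)..S, f s) :=
      mul_nonneg (by linarith) hb3.1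
    have hp : 0 ≤ S * (1 - α) := mul_nonneg hS.le (by linarith)
    rw [e2, abs_of_nonpos (by linarith : α - 1 ≤ 0), abs_le]
    constructor <;> nlinarith [hb2.1, hb2.2, mul_nonneg hα0.le hb2.1,
      mul_nonneg (by linarith : (0:ℝ) ≤ 1 - α) hb2.1]

/-- two bounded functions which agree outside `B` -/
private theorem exceptional {S : ℝ} (hS : 0 < S) {f g : ℝ → ℝ}
    (hf : IntervalIntegrable f volume 0 S) (hg : IntervalIntegrable g volume 0 S)
    (hd : ∀ s, |f s - g s| ≤ 1) {B : Set ℝ} (hB : MeasurableSet B)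
    (h : ∀ s, 0 ≤ s → s ≤ S → s ∉ B → f s = g s) :
    |(1 / S) * (∫ s in (0 : ℝ)..S, f s) - (1 / S) * ∫ s in (0 : ℝ)..S, g s| ≤
      (volume (B ∩ Icc 0 S)).toReal / S := by
  rw [← mul_sub, ← intervalIntegral.integral_sub hf hg, abs_mul,
    abs_of_pos (by positivity : (0 : ℝ) < 1 / S), one_div, inv_mul_le_iff₀ hS,
    mul_div_cancel₀ _ hS.ne', intervalIntegral.integral_of_le hS.le]
  have hfin : volume (B ∩ Icc 0 S) ≠ ∞ :=
    ((measure_mono inter_subset_right).trans_lt measure_Icc_lt_top).ne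
  have hint : IntegrableOn (fun s => f s - g s) (Ioc 0 S) volume :=
    (intervalIntegrable_iff_integrableOn_Ioc_of_le hS.le).1 (hf.sub hg)
  calc |∫ s in Ioc 0 S, (f s - g s)|
      ≤ ∫ s in Ioc 0 S, |f s - g s| := abs_integral_le_integral_abs
    _ ≤ ∫ s in Ioc 0 S, B.indicator (fun _ => (1 : ℝ)) s := by
        refine setIntegral_mono_on hint.abs ?_ measurableSet_Ioc ?_
        · exact (integrable_const (1 : ℝ)).indicator hB
        · intro s hs
          by_cases hsB : s ∈ B
          · rw [indicator_of_mem hsB]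
            exact hd s
          · rw [indicator_of_notMem hsB, h s hs.1.le hs.2 hsB, sub_self, abs_zero]
    _ = (volume (B ∩ Ioc 0 S)).toReal := by
        rw [integral_indicator_const _ hB, smul_eq_mul, mul_one, Measure.real,
          Measure.restrict_apply hB]
    _ ≤ (volume (B ∩ Icc 0 S)).toReal :=
        ENNReal.toReal_mono hfin (measure_mono (inter_subset_inter_right _ Ioc_subset_Icc_self))

/-- comparison of the energies of two configurations: a measurable set `B` of exceptional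
parameters, a reparametrisation `s ↦ s/α`, a bijection of the labels at the apex and a transport of
the labels at the end point -/
theorem EE_compare {S : ℝ} (hS : 0 < S) {α : ℝ} (hα : 1 / 2 ≤ α) (x x' : SLR × Pl)
    (κ : Equiv.Perm Λ → Equiv.Perm Λ → Equiv.Perm Λ)
    (hκ : ∀ a b, κ a b ∈ Subgroup.closure {a, b})
    (τ : Equiv.Perm Λ → Equiv.Perm Λ → Equiv.Perm Λ)
    (hadm : ∀ a b q₀, adm a b x'.2 q₀ ↔ adm a b x.2 (τ a b q₀))
    (B : Set ℝ) (hB : MeasurableSet B)
    (hs : ∀ s, 0 ≤ s → s ≤ S → s ∉ B → ∀ a b q₀, adm a b x'.2 q₀ →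
      labS x' a b q₀ s = κ a b (labS x a b (τ a b q₀) (s / α))) :
    |EE Λ S x' - EE Λ S x| ≤
      16 * Fintype.card (Lab Λ) * (|α - 1| + (volume (B ∩ Icc 0 S)).toReal / S) := by
  have hα0 : 0 < α := by linarith
  set β : ℝ := (volume (B ∩ Icc 0 S)).toReal / S with hβ
  have hβ0 : 0 ≤ β := by positivity
  -- comparison of the distributions
  have hD : ∀ a b q₀, adm a b x'.2 q₀ → ∀ q,
      |DS S x' a b q₀ q - DS S x a b (τ a b q₀) ((κ a b)⁻¹ q)| ≤ 2 * |α - 1| + β := by
    intro a b q₀ ha q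
    rw [DS_il, DS_il]
    set f := il x a b (τ a b q₀) ((κ a b)⁻¹ q) with hf
    have hfi : ∀ u v, IntervalIntegrable f volume u v := il_int x a b _ _
    have hfi2 : IntervalIntegrable (fun s => f (s / α)) volume 0 S := by
      rw [intervalIntegrable_iff]
      refine Measure.integrableOn_of_bounded (M := 1) (by rw [uIoc]; exact measure_Ioc_lt_top.ne)
        ((il_meas x a b _ _).comp (measurable_id.div_const α)).aestronglyMeasurable ?_
      refine Filter.Eventually.of_forall fun s => ?_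
      rw [Real.norm_eq_abs, abs_of_nonneg (il_nonneg x a b _ _ _)]
      exact il_le x a b _ _ _
    have h1 := rescale hS hα hfi (il_nonneg x a b _ _) (il_le x a b _ _)
    have h2 := exceptional hS (il_int x' a b q₀ q 0 S) hfi2 (fun s => by
      rw [abs_le]
      have a1 := il_nonneg x' a b q₀ q s
      have a2 := il_le x' a b q₀ q s
      have a3 := il_nonneg x a b (τ a b q₀) ((κ a b)⁻¹ q) (s / α)
      have a4 := il_le x a b (τ a b q₀) ((κ a b)⁻¹ q) (s / α)
      constructor <;> simp only [hf] <;> linarith) hB (fun s h0 h1 hsB => by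
      simp only [hf, il, hs s h0 h1 hsB a b q₀ ha]
      congr 1
      rw [eq_iff_iff, Equiv.Perm.eq_inv_iff_eq])
    calc _ ≤ _ := abs_sub_le _ ((1 / S) * ∫ s in (0 : ℝ)..S, f (s / α)) _
      _ ≤ β + 2 * |α - 1| := add_le_add h2 h1
      _ = _ := add_comm _ _
  -- comparison of the terms
  have hA : ∀ a b q₀ q, |(AS S x' (a, b, q₀, q)) ^ 2 -
      (AS S x (a, b, τ a b q₀, (κ a b)⁻¹ q)) ^ 2| ≤ 16 * (|α - 1| + β) := by
    intro a b q₀ q
    by_cases ha : adm a b x'.2 q₀
    · have ha' : adm a b x.2 (τ a b q₀) := (hadm a b q₀).1 ha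
      have hav : |avgN a b (DS S x' a b q₀) q - avgN a b (DS S x a b (τ a b q₀)) ((κ a b)⁻¹ q)| ≤
          2 * |α - 1| + β := by
        rw [← avgN_smul a b (inv_mem (hκ a b)), ← avgN_sub, abs_le]
        have := avgN_bound a b (φ := fun q' => DS S x' a b q₀ q' -
          DS S x a b (τ a b q₀) ((κ a b)⁻¹ q')) (m := -(2 * |α - 1| + β))
          (M := 2 * |α - 1| + β) (fun q' => abs_le.1 (hD a b q₀ ha q')) q
        exact this
      have hdiff : |AS S x' (a, b, q₀, q) - AS S x (a, b, τ a b q₀, (κ a b)⁻¹ q)| ≤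
          2 * (2 * |α - 1| + β) := by
        rw [AS_eq x' ha, AS_eq x ha']
        have h3 := hD a b q₀ ha q
        rw [abs_le] at h3 hav ⊢
        constructor <;> linarith [h3.1, h3.2, hav.1, hav.2]
      have b1 := AS_bound hS x' (a, b, q₀, q)
      have b2 := AS_bound hS x (a, b, τ a b q₀, (κ a b)⁻¹ q)
      have e : (AS S x' (a, b, q₀, q)) ^ 2 - (AS S x (a, b, τ a b q₀, (κ a b)⁻¹ q)) ^ 2 =
          (AS S x' (a, b, q₀, q) - AS S x (a, b, τ a b q₀, (κ a b)⁻¹ q)) *
          (AS S x' (a, b, q₀, q) + AS S x (a, b, τ a b q₀, (κ a b)⁻¹ q)) := by ring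
      rw [e, abs_mul]
      have h5 : |AS S x' (a, b, q₀, q) + AS S x (a, b, τ a b q₀, (κ a b)⁻¹ q)| ≤ 2 :=
        (abs_add_le _ _).trans (by linarith)
      calc _ ≤ 2 * (2 * |α - 1| + β) * 2 := by
            refine mul_le_mul hdiff h5 (abs_nonneg _) ?_
            positivity
        _ ≤ 16 * (|α - 1| + β) := by nlinarith [abs_nonneg (α - 1)]
    · have ha' : ¬ adm a b x.2 (τ a b q₀) := fun h => ha ((hadm a b q₀).2 h)
      rw [AS_not_adm x' ha, AS_not_adm x ha']
      simp only [sub_self, abs_zero]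
      positivity
  -- reindexing
  let e : Equiv.Perm (Lab Λ) :=
    { toFun := fun i => (i.1, i.2.1, τ i.1 i.2.1 i.2.2.1, (κ i.1 i.2.1)⁻¹ i.2.2.2)
      invFun := fun i => (i.1, i.2.1, (τ i.1 i.2.1)⁻¹ i.2.2.1, κ i.1 i.2.1 i.2.2.2)
      left_inv := fun i => by simp
      right_inv := fun i => by simp }
  have hre : EE Λ S x = ∑ i : Lab Λ, (AS S x (e i)) ^ 2 :=
    (Equiv.sum_comp e fun i => (AS S x i) ^ 2).symm
  rw [hre, EE, ← Finset.sum_sub_distrib]
  calc _ ≤ ∑ i : Lab Λ, |(AS S x' i) ^ 2 - (AS S x (e i)) ^ 2| :=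
        Finset.abs_sum_le_sum_abs _ _
    _ ≤ ∑ i : Lab Λ, 16 * (|α - 1| + β) :=
        Finset.sum_le_sum fun i _ => hA i.1 i.2.1 i.2.2.1 i.2.2.2
    _ = _ := by
        rw [Finset.sum_const, Finset.card_univ, nsmul_eq_mul]
        ring

end

end Pool.Agent.ILL
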