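import Pool.Agent.ILL.TauB

/-!
# MEA. Measurability of the transport

`{(A,B) : tau a b A B = g}` is measurable, for every group (no topology): by induction on `n` the set
`{(A,B) : prodR a b A B m n = g}` is measurable: it is the countable union over `k : ℤ` of
`{⌊ht A B (m+n+1)⌋ = k} ∩ {prodR a b A B m n = (cj a b k)⁻¹ g}`, and `ht` is a measurable function of
`(A,B)`. Then split the plane according to the four integers `⌊A.1⌋, ⌊A.2⌋, ⌊B.1⌋, ⌊B.2⌋`
(countable union).
-/

open MeasureTheory Set Filter Topology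
open scoped ENNReal NNReal

namespace Pool.Agent.ILL

section
variable {H : Type*} [Group H] (a b : H)

private theorem meas_prodR (n : ℕ) (m : ℤ) (g : H) :
    MeasurableSet {p : Pl × Pl | prodR a b p.1 p.2 m n = g} := by
  induction n generalizing g with
  | zero =>
    simp only [prodR]
    exact MeasurableSet.const _
  | succ n ih =>
    have h1 : {p : Pl × Pl | prodR a b p.1 p.2 m (n + 1) = g} = ⋃ k : ℤ,
        {p : Pl × Pl | ⌊ht p.1 p.2 (m + (n + 1 : ℕ))⌋ = k} ∩
        {p : Pl × Pl | prodR a b p.1 p.2 m n = (cj a b k)⁻¹ * g} := by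
      ext p
      simp only [mem_iUnion, mem_inter_iff, Set.mem_ofPred_eq, prodR]
      constructor
      · intro hp
        refine ⟨_, rfl, ?_⟩
        rw [← hp]
        group
      · rintro ⟨k, e1, e2⟩
        rw [e1, e2]
        group
    rw [h1]
    refine MeasurableSet.iUnion fun k => MeasurableSet.inter ?_ (ih _)
    have h2 : Measurable fun p : Pl × Pl => ht p.1 p.2 (m + (n + 1 : ℕ)) := by
      unfold ht
      fun_prop
    exact h2.floor (measurableSet_singleton k)

theorem meas_tau (g : H) : MeasurableSet {p : Pl × Pl | tau a b p.1 p.2 = g} := by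
  have h1 : {p : Pl × Pl | tau a b p.1 p.2 = g} = ⋃ i : ℤ × ℤ × ℤ × ℤ,
      ({p : Pl × Pl | ⌊p.1.1⌋ = i.1} ∩ {p : Pl × Pl | ⌊p.1.2⌋ = i.2.1} ∩
        {p : Pl × Pl | ⌊p.2.1⌋ = i.2.2.1} ∩ {p : Pl × Pl | ⌊p.2.2⌋ = i.2.2.2}) ∩
      (if i.1 ≤ i.2.2.1 then {p : Pl × Pl | prodR a b p.1 p.2 i.1 (i.2.2.1 - i.1).toNat =
          (b ^ i.2.2.2)⁻¹ * g * (b ^ (-i.2.1))⁻¹}
        else {p : Pl × Pl | prodR a b p.2 p.1 i.2.2.1 (i.1 - i.2.2.1).toNat =
          (b ^ i.2.1)⁻¹ * g⁻¹ * (b ^ (-i.2.2.2))⁻¹}) := by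
    ext p
    simp only [mem_iUnion, mem_inter_iff, Set.mem_ofPred_eq]
    constructor
    · intro hp
      refine ⟨(⌊p.1.1⌋, ⌊p.1.2⌋, ⌊p.2.1⌋, ⌊p.2.2⌋), ⟨⟨⟨rfl, rfl⟩, rfl⟩, rfl⟩, ?_⟩
      unfold tau at hp
      split_ifs with h2
      · rw [if_pos h2] at hp
        rw [Set.mem_ofPred_eq, ← hp]
        group
      · rw [if_neg h2] at hp
        rw [Set.mem_ofPred_eq, ← hp]
        group
    · rintro ⟨⟨i1, i2, i3, i4⟩, ⟨⟨⟨e1, e2⟩, e3⟩, e4⟩, hp⟩
      dsimp only at e1 e2 e3 e4 hp
      subst e1 e2 e3 e4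
      unfold tau
      split_ifs at hp ⊢ with h2
      · rw [Set.mem_ofPred_eq] at hp
        rw [hp]
        group
      · rw [Set.mem_ofPred_eq] at hp
        rw [hp]
        group
  rw [h1]
  refine MeasurableSet.iUnion fun i => ?_
  have hf : ∀ f : Pl × Pl → ℝ, Measurable f → ∀ k : ℤ, MeasurableSet {p | ⌊f p⌋ = k} :=
    fun f hf k => hf.floor (measurableSet_singleton k)
  refine (((((hf _ (measurable_fst.comp measurable_fst) _).inter
    (hf _ (measurable_snd.comp measurable_fst) _)).inter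
    (hf _ (measurable_fst.comp measurable_snd) _)).inter
    (hf _ (measurable_snd.comp measurable_snd) _))).inter ?_
  split_ifs
  · exact meas_prodR a b _ _ _
  · exact measurable_swap (meas_prodR a b _ _ _)

/-- the same for measurable end points -/
theorem meas_tau_comp {X : Type*} [MeasurableSpace X] {A B : X → Pl} (hA : Measurable A)
    (hB : Measurable B) (g : H) : MeasurableSet {x | tau a b (A x) (B x) = g} := by
  exact (hA.prodMk hB) (meas_tau a b g)

theorem measurable_vexp : Measurable vexp := by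
  unfold vexp
  fun_prop

end

section
variable {Λ : Type} [Fintype Λ] [DecidableEq Λ]

theorem meas_adm (a b : Equiv.Perm Λ) (q₀ : Λ) : MeasurableSet {P : Pl | adm a b P q₀} := by
  have h0 : {P : Pl | adm a b P q₀} =
      (⋂ z : ℤ × ℤ, {ZP z}ᶜ) ∪ {_P : Pl | a (b⁻¹ (a⁻¹ q₀)) = b⁻¹ q₀} := by
    ext P
    simp only [Set.mem_ofPred_eq, mem_union, mem_iInter, mem_compl_iff, mem_singleton_iff, adm, ne_eq,
      eq_comm]
  rw [h0]
  exact MeasurableSet.union (MeasurableSet.iInter fun z => (measurableSet_singleton _).compl)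
    (MeasurableSet.const _)

end

end Pool.Agent.ILL
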