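import Pool.Agent.ILL.Defs

/-!
# MGA. The Haar measure: invariance

`muG` is the image of Lebesgue measure on `{A = (A.1, A.2) : 0 < dt A ≤ 1}` (pairs of columns) under the
normalisation `nrm`.
* `measurable_nrm`: on the open set `0 < dt A` the entries are continuous (coercion to matrices, the
  σ-algebra of `SLR` is the Borel σ-algebra of the subspace topology: a map into `SLR` is measurable iff its
  four entries are; on the open set it is even continuous), elsewhere constant.
* Left multiplication: `L_g (A.1, A.2) = (g A.1, g A.2)` preserves `dt` and Lebesgue measure (product of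
  two linear maps of determinant one: `Measure.map` of `mv g` on `ℝ × ℝ` is `volume`, e.g.
  `MeasureTheory.Measure.addHaar_image_linearMap` / `Real.map_linearMap_volume_pi_eq_smul_volume_pi` or
  decomposition of `g` into shears), and `nrm (L_g A) = g * nrm A` for `0 < dt A`.
* Right multiplication: `R_g (A.1, A.2) = (g₀₀ A.1 + g₁₀ A.2, g₀₁ A.1 + g₁₁ A.2)`. It acts in the same way
  on the two pairs of coordinates `(A.1.1, A.2.1)` and `(A.1.2, A.2.2)`: after the measure preserving
  rearrangement of coordinates it is a product of two linear maps of determinant one.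
* Transposition: rearrangement of coordinates `((a,c),(b,d)) ↦ ((a,b),(c,d))`, preserves `dt` and Lebesgue
  measure, and `nrm` of the rearranged pair is the transpose.
-/

open MeasureTheory Set Filter Topology
open scoped ENNReal NNReal

namespace Pool.Agent.ILL

private theorem continuous_dt : Continuous dt := by
  unfold dt
  fun_prop

private theorem nrm_pos {A : Pl × Pl} (h : 0 < dt A) :
    (nrm A).1 = !![A.1.1 / √(dt A), A.2.1 / √(dt A); A.1.2 / √(dt A), A.2.2 / √(dt A)] := by
  unfold nrm
  rw [dif_pos h]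

private theorem nrm_neg {A : Pl × Pl} (h : ¬ 0 < dt A) : nrm A = 1 := by
  unfold nrm
  rw [dif_neg h]

private theorem isOpen_dt : IsOpen {A : Pl × Pl | 0 < dt A} :=
  isOpen_lt continuous_const continuous_dt

private theorem continuousOn_nrm : ContinuousOn nrm {A : Pl × Pl | 0 < dt A} := by
  have hind : @Topology.IsInducing SLR (Matrix (Fin 2) (Fin 2) ℝ) _ _ Subtype.val := ⟨rfl⟩
  refine hind.continuousOn_iff.2 ?_
  have h1 : ContinuousOn (fun A : Pl × Pl => √(dt A)) {A : Pl × Pl | 0 < dt A} :=
    (Real.continuous_sqrt.comp continuous_dt).continuousOn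
  have h2 : ∀ A ∈ {A : Pl × Pl | 0 < dt A}, √(dt A) ≠ 0 := fun A hA =>
    (Real.sqrt_pos.2 hA).ne'
  refine ContinuousOn.congr (f := fun A : Pl × Pl =>
    (!![A.1.1 / √(dt A), A.2.1 / √(dt A); A.1.2 / √(dt A), A.2.2 / √(dt A)] :
      Matrix (Fin 2) (Fin 2) ℝ)) ?_ (fun A hA => nrm_pos hA)
  refine continuousOn_pi.2 fun i => continuousOn_pi.2 fun j => ?_
  fin_cases i <;> fin_cases j
  · exact ContinuousOn.div (by fun_prop) h1 h2
  · exact ContinuousOn.div (by fun_prop) h1 h2
  · exact ContinuousOn.div (by fun_prop) h1 h2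
  · exact ContinuousOn.div (by fun_prop) h1 h2

theorem measurable_nrm : Measurable nrm := by
  apply measurable_of_isOpen
  intro V hV
  have h1 : nrm ⁻¹' V = ({A : Pl × Pl | 0 < dt A} ∩ nrm ⁻¹' V) ∪
      ({A : Pl × Pl | 0 < dt A}ᶜ ∩ nrm ⁻¹' V) := by
    rw [← Set.union_inter_distrib_right, Set.union_compl_self, Set.univ_inter]
  rw [h1]
  refine (continuousOn_nrm.isOpen_inter_preimage isOpen_dt hV).measurableSet.union ?_
  by_cases h2 : (1 : SLR) ∈ V
  · have h3 : {A : Pl × Pl | 0 < dt A}ᶜ ∩ nrm ⁻¹' V = {A : Pl × Pl | 0 < dt A}ᶜ := by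
      apply Set.inter_eq_left.2
      intro A hA
      show nrm A ∈ V
      rw [nrm_neg hA]
      exact h2
    rw [h3]
    exact isOpen_dt.measurableSet.compl
  · have h3 : {A : Pl × Pl | 0 < dt A}ᶜ ∩ nrm ⁻¹' V = ∅ := by
      apply Set.eq_empty_of_forall_notMem
      rintro A ⟨hA, hA'⟩
      apply h2
      rw [← nrm_neg hA]
      exact hA'
    rw [h3]
    exact MeasurableSet.empty

private noncomputable def mvL (h : SLR) : Pl →ₗ[ℝ] Pl :=
  Matrix.toLin (Module.Basis.finTwoProd ℝ) (Module.Basis.finTwoProd ℝ)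
    !![h 0 0, h 0 1; h 1 0, h 1 1]

private theorem mvL_apply (h : SLR) (v : Pl) : mvL h v = mv h v := by
  unfold mvL mv
  rw [Matrix.toLin_finTwoProd_apply]

private theorem mvL_det (h : SLR) : LinearMap.det (mvL h) = 1 := by
  unfold mvL
  rw [LinearMap.det_toLin]
  have h1 := h.2
  rw [Matrix.det_fin_two] at h1 ⊢
  exact h1

/-- a linear map of determinant one preserves Lebesgue measure on the plane -/
theorem mv_volume (h : SLR) : MeasurePreserving (mv h) (volume : Measure Pl) volume := by
  refine ⟨(continuous_mv_left h).measurable, ?_⟩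
  have h1 : mv h = mvL h := funext fun v => (mvL_apply h v).symm
  rw [h1, Measure.map_linearMap_addHaar_eq_smul_addHaar _ (by rw [mvL_det]; exact one_ne_zero),
    mvL_det]
  simp

private theorem nrm_mv (g : SLR) (A : Pl × Pl) (hA : 0 < dt A) :
    nrm (Prod.map (mv g) (mv g) A) = g * nrm A := by
  have h1 := g.2
  rw [Matrix.det_fin_two] at h1
  have h2 : dt (Prod.map (mv g) (mv g) A) = dt A := by
    unfold dt mv
    simp only [Prod.map_fst, Prod.map_snd]
    have : (g 0 0 * A.1.1 + g 0 1 * A.1.2) * (g 1 0 * A.2.1 + g 1 1 * A.2.2) -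
        (g 0 0 * A.2.1 + g 0 1 * A.2.2) * (g 1 0 * A.1.1 + g 1 1 * A.1.2) =
        (g 0 0 * g 1 1 - g 0 1 * g 1 0) * (A.1.1 * A.2.2 - A.2.1 * A.1.2) := by ring
    rw [this, h1, one_mul]
  have h3 : 0 < dt (Prod.map (mv g) (mv g) A) := by rw [h2]; exact hA
  apply Subtype.ext
  rw [nrm_pos h3, Matrix.SpecialLinearGroup.coe_mul, nrm_pos hA, h2]
  unfold mv
  simp only [Prod.map_fst, Prod.map_snd]
  ext i j
  fin_cases i <;> fin_cases j <;>
    simp [Matrix.mul_apply, Fin.sum_univ_two] <;> ring

private theorem dt_mv (g : SLR) (A : Pl × Pl) : dt (Prod.map (mv g) (mv g) A) = dt A := by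
  have h1 := g.2
  rw [Matrix.det_fin_two] at h1
  unfold dt mv
  simp only [Prod.map_fst, Prod.map_snd]
  have : (g 0 0 * A.1.1 + g 0 1 * A.1.2) * (g 1 0 * A.2.1 + g 1 1 * A.2.2) -
      (g 0 0 * A.2.1 + g 0 1 * A.2.2) * (g 1 0 * A.1.1 + g 1 1 * A.1.2) =
      (g 0 0 * g 1 1 - g 0 1 * g 1 0) * (A.1.1 * A.2.2 - A.2.1 * A.1.2) := by ring
  rw [this, h1, one_mul]

private theorem measSet_S : MeasurableSet {A : Pl × Pl | 0 < dt A ∧ dt A ≤ 1} :=
  (isOpen_dt.measurableSet).inter (isClosed_le continuous_dt continuous_const).measurableSet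

private theorem muG_aux (T : Pl × Pl → Pl × Pl) (hT : MeasurePreserving T volume volume)
    (hd : ∀ A, dt (T A) = dt A) (G : SLR → SLR) (hG : Measurable G)
    (h : ∀ A, 0 < dt A → nrm (T A) = G (nrm A)) : MeasurePreserving G muG muG := by
  refine ⟨hG, ?_⟩
  unfold muG
  rw [Measure.map_map hG measurable_nrm]
  have h1 : MeasurePreserving T (volume.restrict {A : Pl × Pl | 0 < dt A ∧ dt A ≤ 1})
      (volume.restrict {A : Pl × Pl | 0 < dt A ∧ dt A ≤ 1}) := by
    have h2 := hT.restrict_preimage measSet_S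
    have h3 : T ⁻¹' {A : Pl × Pl | 0 < dt A ∧ dt A ≤ 1} = {A : Pl × Pl | 0 < dt A ∧ dt A ≤ 1} := by
      ext A
      simp only [Set.mem_preimage, Set.mem_ofPred_eq, hd]
    rw [h3] at h2
    exact h2
  have h2 : (G ∘ nrm) =ᵐ[volume.restrict {A : Pl × Pl | 0 < dt A ∧ dt A ≤ 1}] (nrm ∘ T) := by
    refine (ae_restrict_iff' measSet_S).2 (Filter.Eventually.of_forall fun A hA => ?_)
    exact (h A hA.1).symm
  rw [Measure.map_congr h2, ← Measure.map_map measurable_nrm h1.measurable, h1.map_eq]

theorem muG_mul_left (g : SLR) : MeasurePreserving (fun h => g * h) muG muG := by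
  refine muG_aux (Prod.map (mv g) (mv g)) ?_ (dt_mv g) _ (measurable_const_mul g) (nrm_mv g)
  exact (mv_volume g).prod (mv_volume g)

private noncomputable def tL : (Pl × Pl) →ₗ[ℝ] (Pl × Pl) where
  toFun A := ((A.1.1, A.2.1), (A.1.2, A.2.2))
  map_add' _ _ := rfl
  map_smul' _ _ := rfl

private theorem tL_volume : MeasurePreserving tL volume volume := by
  have h1 : LinearMap.det tL * LinearMap.det tL = 1 := by
    rw [← LinearMap.det_comp]
    have : tL.comp tL = LinearMap.id := rfl
    rw [this, LinearMap.det_id]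
  have h2 : LinearMap.det tL ≠ 0 := fun h => by rw [h, zero_mul] at h1; exact zero_ne_one h1
  have h3 : |(LinearMap.det tL)⁻¹| = 1 := by
    rcases mul_self_eq_one_iff.1 h1 with h | h
    · rw [h]
      simp
    · rw [h]
      simp
  have hc : Continuous tL := LinearMap.continuous_of_finiteDimensional tL
  refine ⟨hc.measurable, ?_⟩
  have : (volume : Measure (Pl × Pl)).IsAddHaarMeasure := by
    rw [Measure.volume_eq_prod]
    infer_instance
  rw [Measure.map_linearMap_addHaar_eq_smul_addHaar _ h2, h3]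
  simp

theorem muG_transpose : MeasurePreserving (fun h : SLR => h.transpose) muG muG := by
  have hc : Continuous (fun h : SLR => h.transpose) := by
    refine Continuous.subtype_mk ?_ _
    exact continuous_subtype_val.matrix_transpose
  refine muG_aux tL tL_volume (fun A => ?_) _ hc.measurable (fun A hA => ?_)
  · unfold dt
    show A.1.1 * A.2.2 - A.1.2 * A.2.1 = _
    ring
  · have hA' : dt (tL A) = dt A := by
      unfold dt
      show A.1.1 * A.2.2 - A.1.2 * A.2.1 = _
      ring
    have h3 : 0 < dt (tL A) := by rw [hA']; exact hA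
    apply Subtype.ext
    rw [nrm_pos h3, hA']
    show _ = (nrm A).1.transpose
    rw [nrm_pos hA]
    ext i j
    fin_cases i <;> fin_cases j <;> rfl

theorem muG_mul_right (g : SLR) : MeasurePreserving (fun h => h * g) muG muG := by
  have h1 := muG_transpose.comp ((muG_mul_left g.transpose).comp muG_transpose)
  have h2 : ((fun h : SLR => h.transpose) ∘ ((fun h => g.transpose * h) ∘
      fun h : SLR => h.transpose)) = fun h => h * g := by
    funext h
    apply Subtype.ext
    show (g.1.transpose * h.1.transpose).transpose = h.1 * g.1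
    rw [Matrix.transpose_mul, Matrix.transpose_transpose, Matrix.transpose_transpose]
  rw [h2] at h1
  exact h1

end Pool.Agent.ILL
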