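import Pool.Agent.ILL.TauB

/-!
# MOD. The transport modulo the commutator subgroup

`Nc a b = ⁅⟨a,b⟩, ⟨a,b⟩⁆`.
* `Nc_conj`: it is normalised by `⟨a,b⟩` (`Subgroup.commutator_normal` for a subgroup of itself, or
  directly `Subgroup.closure_induction` on generators `⁅x,y⁆`: `g⁅x,y⁆g⁻¹ = ⁅gxg⁻¹, gyg⁻¹⁆`).
* `tau_mod`: `cj a b j = b^(-j) a b^j ∈ Nc * a` and two elements of `⟨a,b⟩` commute modulo `Nc`; so
  modulo `Nc` the product `prodR` is `a^n` and `tau` is `a^(Δ⌊x⌋) b^(Δ⌊y⌋)`. (Induction on `n`, then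
  `tau_inv` for the other case.)
* `hol4_mem`: the exponents cancel along a closed polygon.
* `Nc_U`, `Nc_L`: `closure {a, b a⁻¹} = closure {a, b}` etc.
-/

open MeasureTheory Set Filter Topology
open scoped ENNReal NNReal

namespace Pool.Agent.ILL

section
variable {H : Type*} [Group H] (a b : H)

theorem Nc_le : Nc a b ≤ Subgroup.closure {a, b} := by
  unfold Nc
  rw [Subgroup.commutator_le]
  intro g hg h hh
  rw [commutatorElement_def]
  exact mul_mem (mul_mem (mul_mem hg hh) (inv_mem hg)) (inv_mem hh)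

theorem Nc_conj {g n : H} (hg : g ∈ Subgroup.closure {a, b}) (hn : n ∈ Nc a b) :
    g * n * g⁻¹ ∈ Nc a b := by
  have h : g * n * g⁻¹ = (g * n * g⁻¹ * n⁻¹) * n := by group
  rw [h, ← commutatorElement_def]
  exact mul_mem (Subgroup.commutator_mem_commutator hg (Nc_le a b hn)) hn

private theorem map_cj {G : Type*} [Group G] (f : H →* G) (j : ℤ) :
    f (cj a b j) = cj (f a) (f b) j := by
  simp [cj]

private theorem map_prodR {G : Type*} [Group G] (f : H →* G) (A B : Pl) (m : ℤ) (n : ℕ) :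
    f (prodR a b A B m n) = prodR (f a) (f b) A B m n := by
  induction n with
  | zero => exact map_one f
  | succ n ih => rw [prodR, prodR, map_mul, ih, map_cj]

private theorem map_tau {G : Type*} [Group G] (f : H →* G) (A B : Pl) :
    f (tau a b A B) = tau (f a) (f b) A B := by
  unfold tau
  split_ifs
  · rw [map_mul, map_mul, map_prodR, map_zpow, map_zpow]
  · rw [map_inv, map_mul, map_mul, map_prodR, map_zpow, map_zpow]

private theorem prodR_comm {G : Type*} [CommGroup G] (a b : G) (A B : Pl) (m : ℤ) (n : ℕ) :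
    prodR a b A B m n = a ^ n := by
  induction n with
  | zero => rw [prodR, pow_zero]
  | succ n ih =>
    rw [prodR, ih, cj, mul_comm (b ^ _) a, mul_assoc a, ← zpow_add, neg_add_cancel, zpow_zero,
      mul_one, pow_succ']

private theorem tau_comm {G : Type*} [CommGroup G] (a b : G) (A B : Pl) :
    tau a b A B = a ^ (⌊B.1⌋ - ⌊A.1⌋) * b ^ (⌊B.2⌋ - ⌊A.2⌋) := by
  have key : ∀ A B : Pl, ⌊A.1⌋ ≤ ⌊B.1⌋ →
      tau a b A B = a ^ (⌊B.1⌋ - ⌊A.1⌋) * b ^ (⌊B.2⌋ - ⌊A.2⌋) := by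
    intro A B h
    unfold tau
    rw [if_pos h, prodR_comm, ← zpow_natCast, Int.toNat_of_nonneg (sub_nonneg.2 h),
      mul_comm (b ^ _), mul_assoc, ← zpow_add, sub_eq_add_neg ⌊B.2⌋]
  rcases le_total ⌊A.1⌋ ⌊B.1⌋ with h | h
  · exact key A B h
  · rw [tau_inv a b B A, key B A h, mul_inv, ← zpow_neg, ← zpow_neg, neg_sub, neg_sub]

/-- the generators as elements of the subgroup -/
private def ga : Subgroup.closure {a, b} := ⟨a, Subgroup.subset_closure (by simp)⟩
private def gb : Subgroup.closure {a, b} := ⟨b, Subgroup.subset_closure (by simp)⟩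

private theorem coe_tau (A B : Pl) : ((tau (ga a b) (gb a b) A B : Subgroup.closure {a, b}) : H) =
    tau a b A B :=
  map_tau (ga a b) (gb a b) (Subgroup.closure {a, b}).subtype A B

private theorem mem_of_ab {x : Subgroup.closure {a, b}} (h : Abelianization.of x = 1) :
    (x : H) ∈ Nc a b := by
  have h1 : x ∈ commutator (Subgroup.closure {a, b}) := by
    rw [← Abelianization.ker_of, MonoidHom.mem_ker]
    exact h
  have h2 : (x : H) ∈ (commutator (Subgroup.closure {a, b})).map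
      (Subgroup.closure {a, b}).subtype := ⟨x, h1, rfl⟩
  rw [commutator_def, Subgroup.map_commutator, ← MonoidHom.range_eq_map,
    Subgroup.range_subtype] at h2
  exact h2

private theorem of_tau (A B : Pl) : Abelianization.of (tau (ga a b) (gb a b) A B) =
    Abelianization.of (ga a b) ^ (⌊B.1⌋ - ⌊A.1⌋) *
      Abelianization.of (gb a b) ^ (⌊B.2⌋ - ⌊A.2⌋) := by
  rw [map_tau, tau_comm]

theorem tau_mod (A B : Pl) :
    ∃ n ∈ Nc a b, tau a b A B = n * a ^ (⌊B.1⌋ - ⌊A.1⌋) * b ^ (⌊B.2⌋ - ⌊A.2⌋) := by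
  refine ⟨tau a b A B * (a ^ (⌊B.1⌋ - ⌊A.1⌋) * b ^ (⌊B.2⌋ - ⌊A.2⌋))⁻¹, ?_, by group⟩
  have h := mem_of_ab a b (x := tau (ga a b) (gb a b) A B *
    (ga a b ^ (⌊B.1⌋ - ⌊A.1⌋) * gb a b ^ (⌊B.2⌋ - ⌊A.2⌋))⁻¹) (by
      rw [map_mul, of_tau, map_inv, map_mul, map_zpow, map_zpow, mul_inv_cancel])
  rw [Subgroup.coe_mul, coe_tau, Subgroup.coe_inv, Subgroup.coe_mul, Subgroup.coe_zpow,
    Subgroup.coe_zpow] at h
  exact h

/-- modulo the commutator subgroup the transport only depends on the floors of the end points -/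
theorem tau_mod_eq {A B A' B' : Pl} (h1 : ⌊B.1⌋ - ⌊A.1⌋ = ⌊B'.1⌋ - ⌊A'.1⌋)
    (h2 : ⌊B.2⌋ - ⌊A.2⌋ = ⌊B'.2⌋ - ⌊A'.2⌋) : tau a b A B * (tau a b A' B')⁻¹ ∈ Nc a b := by
  have h := mem_of_ab a b (x := tau (ga a b) (gb a b) A B *
    (tau (ga a b) (gb a b) A' B')⁻¹) (by
      rw [map_mul, map_inv, of_tau, of_tau, h1, h2, mul_inv_cancel])
  rw [Subgroup.coe_mul, coe_tau, Subgroup.coe_inv, coe_tau] at h
  exact h

theorem hol4_mem (A B C D : Pl) : hol4 a b A B C D ∈ Nc a b := by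
  have h := mem_of_ab a b (x := tau (ga a b) (gb a b) D A * tau (ga a b) (gb a b) C D *
    tau (ga a b) (gb a b) B C * tau (ga a b) (gb a b) A B) (by
      rw [map_mul, map_mul, map_mul, of_tau, of_tau, of_tau, of_tau]
      have e : ∀ (x y : Abelianization (Subgroup.closure {a, b})) (p q r s p' q' r' s' : ℤ),
          x ^ p * y ^ p' * (x ^ q * y ^ q') * (x ^ r * y ^ r') * (x ^ s * y ^ s') =
          x ^ (p + q + r + s) * y ^ (p' + q' + r' + s') := by
        intro x y p q r s p' q' r' s'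
        rw [mul_mul_mul_comm (x ^ p) (y ^ p') (x ^ q) (y ^ q'), ← zpow_add, ← zpow_add,
          mul_mul_mul_comm (x ^ (p + q)) (y ^ (p' + q')) (x ^ r) (y ^ r'), ← zpow_add, ← zpow_add,
          mul_mul_mul_comm (x ^ (p + q + r)) (y ^ (p' + q' + r')) (x ^ s) (y ^ s'), ← zpow_add,
          ← zpow_add]
      rw [e]
      have e1 : ⌊A.1⌋ - ⌊D.1⌋ + (⌊D.1⌋ - ⌊C.1⌋) + (⌊C.1⌋ - ⌊B.1⌋) + (⌊B.1⌋ - ⌊A.1⌋) = 0 := by
        ring
      have e2 : ⌊A.2⌋ - ⌊D.2⌋ + (⌊D.2⌋ - ⌊C.2⌋) + (⌊C.2⌋ - ⌊B.2⌋) + (⌊B.2⌋ - ⌊A.2⌋) = 0 := by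
        ring
      rw [e1, e2, zpow_zero, zpow_zero, mul_one])
  rw [Subgroup.coe_mul, Subgroup.coe_mul, Subgroup.coe_mul, coe_tau, coe_tau, coe_tau,
    coe_tau] at h
  exact h

theorem hol3_mem (A B C : Pl) : tau a b C A * tau a b B C * tau a b A B ∈ Nc a b := by
  have h := hol4_mem a b A B C C
  unfold hol4 at h
  rwa [tau_self, mul_one] at h

private theorem clos_U : Subgroup.closure {a, b * a⁻¹} = Subgroup.closure {a, b} := by
  apply le_antisymm
  · rw [Subgroup.closure_le]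
    have ha : a ∈ Subgroup.closure {a, b} := Subgroup.subset_closure (by simp)
    have hb : b ∈ Subgroup.closure {a, b} := Subgroup.subset_closure (by simp)
    rintro x (rfl | rfl)
    · exact ha
    · exact mul_mem hb (inv_mem ha)
  · rw [Subgroup.closure_le]
    have ha : a ∈ Subgroup.closure {a, b * a⁻¹} := Subgroup.subset_closure (by simp)
    have hb : b * a⁻¹ ∈ Subgroup.closure {a, b * a⁻¹} := Subgroup.subset_closure (by simp)
    rintro x (rfl | rfl)
    · exact ha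
    · have := mul_mem hb ha
      rwa [inv_mul_cancel_right] at this

theorem Nc_U : Nc a (b * a⁻¹) = Nc a b := by
  unfold Nc
  rw [clos_U]

theorem Nc_L : Nc (a * b⁻¹) b = Nc a b := by
  unfold Nc
  have h : Subgroup.closure {a * b⁻¹, b} = Subgroup.closure {a, b} := by
    rw [Set.pair_comm, clos_U, Set.pair_comm]
  rw [h]

end

end Pool.Agent.ILL
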