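import Pool.Agent.ILL.Cpl
import Pool.Agent.ILL.Abl

/-!
# NFX. The sum over `B` for a fixed `A` with a prime factor `p` exactly once

`A = p A'`, `p` prime, `p ∤ A'`, `p ∤ m`; `c(B)` with `A ∣ B c(B) + 1` for `B` coprime to `A`. Choose integers
`s, t` with `s A' ≡ 1 (mod p)`, `t p ≡ 1 (mod A')`; then `s A' + t p ≡ 1 (mod A)`, so
`c/A ≡ c s/p + c t/A' (mod 1)` for every integer `c`. Let `b₀` run over `0..|A'|-1`; for `B = b₀ + A' j` coprime to `A`,
`c(B) mod A'` is determined by `b₀` (`b₀ c ≡ -1 mod A'`), so `e(m c t/A')` does not depend on `j`, and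
`e(m c s/p) = χ(m s c)` with `c ≡ -B⁻¹ (mod p)`. So the sum over `B ≡ b₀ (mod A')` is (up to a constant of modulus
one) `Σ_j w(b₀+A'j) e(x A' j) f(j)` with `f : ZMod p → ℂ`,
`f(j) = χ(-m s (b₀+A'j)⁻¹)` if `b₀ + A'j ≠ 0` in `ZMod p`, and `0` otherwise. Its Fourier transform: put
`y = b₀ + A'j`, `Σ_j f(j) χ(hj) = χ(-h s b₀) Σ_{y ≠ 0} χ(-m s y⁻¹ + h s y)`, bounded by `2p^{3/4}` (`kloosterman`,
`-m s ≠ 0` in `ZMod p`). `complete` bounds all interval sums of `f(j) e(x A' j)` of length at most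
`n ≤ 2N/|A'| + 1` by `Y = 2p^{3/4}(3+log p)((2N/|A'|+1)/p + 1)`, and the variation of `j ↦ w(b₀+A'j)` is at most `V`.
By `abel_sum` and summation over `b₀` (`|A'|` values): at most
`|A'| V Y = V 2p^{3/4}(3+log p)(2N/p + |A'|/p + |A'|) ≤ V 2 p^{3/4} (3+log p)(2N + 2|A|)/p`.
-/

open MeasureTheory Set Filter Topology
open scoped ENNReal NNReal

namespace Pool.Agent.ILL

theorem nfx_Icc_range (g : ℤ → ℂ) (a b : ℤ) :
    ∑ j ∈ Finset.Icc a b, g j = ∑ j ∈ Finset.range (b - a + 1).toNat, g (a + j) := by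
  symm
  refine Finset.sum_bij (fun j _ => a + (j : ℤ)) ?_ ?_ ?_ ?_
  · intro j hj
    rw [Finset.mem_range] at hj
    rw [Finset.mem_Icc]
    omega
  · intro i _ j _ hij
    omega
  · intro B hB
    rw [Finset.mem_Icc] at hB
    refine ⟨(B - a).toNat, ?_, ?_⟩
    · rw [Finset.mem_range]
      omega
    · omega
  · intro j _
    rfl

theorem nfx_units (p : ℕ) [Fact p.Prime] (g : ZMod p → ℂ) :
    ∑ y : ZMod p, (if y ≠ 0 then g y else 0) = ∑ u : (ZMod p)ˣ, g (u : ZMod p) := by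
  classical
  rw [← Finset.sum_filter]
  symm
  refine Finset.sum_bij (fun u _ => (u : ZMod p)) ?_ ?_ ?_ ?_
  · intro u _
    simp
  · intro u _ v _ h
    exact Units.ext h
  · intro y hy
    have hy0 : y ≠ 0 := (Finset.mem_filter.1 hy).2
    exact ⟨Units.mk0 y hy0, Finset.mem_univ _, rfl⟩
  · intro u _
    rfl

theorem nfx_fourier (p : ℕ) [Fact p.Prime] (b q k : ZMod p) (hq : q ≠ 0) (hk : k ≠ 0)
    (h : ZMod p) :
    ‖∑ j : ZMod p, (if b + q * j ≠ 0 then chi p (k * (b + q * j)⁻¹) else 0) * chi p (h * j)‖ ≤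
      2 * (p : ℝ) ^ (3 / 4 : ℝ) := by
  classical
  have hb : Function.Bijective (fun j : ZMod p => b + q * j) := by
    constructor
    · intro i j hij
      have h2 : q * i = q * j := add_left_cancel hij
      exact mul_left_cancel₀ hq h2
    · intro y
      refine ⟨q⁻¹ * (y - b), ?_⟩
      show b + q * (q⁻¹ * (y - b)) = y
      rw [← mul_assoc, mul_inv_cancel₀ hq, one_mul]
      ring
  have h1 : ∑ j : ZMod p, (if b + q * j ≠ 0 then chi p (k * (b + q * j)⁻¹) else 0) *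
      chi p (h * j) = ∑ y : ZMod p, (if y ≠ 0 then
        chi p (-(h * q⁻¹ * b)) * chi p (h * q⁻¹ * y + k * y⁻¹) else 0) := by
    refine Fintype.sum_bijective _ hb _ _ fun j => ?_
    by_cases h2 : b + q * j = 0
    · rw [if_neg (not_not.2 h2), if_neg (not_not.2 h2), zero_mul]
    · rw [if_pos h2, if_pos h2, ← chi_add, ← chi_add]
      congr 1
      have h3 : h * q⁻¹ * (b + q * j) = h * q⁻¹ * b + h * j := by
        rw [mul_add]
        congr 1
        rw [mul_assoc, ← mul_assoc q⁻¹, inv_mul_cancel₀ hq, one_mul]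
      rw [h3]
      ring
  rw [h1, nfx_units p (fun y => chi p (-(h * q⁻¹ * b)) * chi p (h * q⁻¹ * y + k * y⁻¹))]
  rw [← Finset.mul_sum, norm_mul]
  have h3 : ‖chi p (-(h * q⁻¹ * b))‖ = 1 := norm_ee _
  rw [h3, one_mul]
  have h4 := kloosterman p (h * q⁻¹) k hk
  have h5 : ∀ u : (ZMod p)ˣ, ((u⁻¹ : (ZMod p)ˣ) : ZMod p) = (u : ZMod p)⁻¹ := fun u =>
    Units.val_inv_eq_inv_val u
  simp only [h5] at h4
  exact h4

theorem nfx_interval (p : ℕ) [Fact p.Prime] (b q k : ℤ) (hq : ((q : ℤ) : ZMod p) ≠ 0)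
    (hk : ((k : ℤ) : ZMod p) ≠ 0) (x : ℝ) (a n : ℤ) (L : ℕ) (hL : n - a + 1 ≤ L) :
    ‖∑ j ∈ Finset.Icc a n, (if ((b + q * j : ℤ) : ZMod p) ≠ 0 then
        chi p (((k : ℤ) : ZMod p) * (((b + q * j : ℤ) : ZMod p))⁻¹) else 0) * ee ((j : ℝ) * x)‖ ≤
      2 * (p : ℝ) ^ (3 / 4 : ℝ) * (3 + Real.log p) * ((L : ℝ) / p + 1) := by
  have hp0 : (1 : ℝ) ≤ p := by
    exact_mod_cast (Fact.out : p.Prime).one_lt.le
  have hlog : 0 ≤ Real.log p := Real.log_nonneg hp0
  obtain ⟨f, hf⟩ : ∃ f : ZMod p → ℂ, f = fun j => if ((b : ℤ) : ZMod p) + ((q : ℤ) : ZMod p) * j ≠ 0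
    then chi p (((k : ℤ) : ZMod p) * (((b : ℤ) : ZMod p) + ((q : ℤ) : ZMod p) * j)⁻¹) else 0 :=
    ⟨_, rfl⟩
  have hB : ∀ h : ZMod p, ‖∑ j : ZMod p, f j * chi p (h * j)‖ ≤ 2 * (p : ℝ) ^ (3 / 4 : ℝ) := by
    intro h
    rw [hf]
    exact nfx_fourier p _ _ _ hq hk h
  have h1 := complete p f hB x a (n - a + 1).toNat
  have h2 : ∑ j ∈ Finset.Icc a n, (if ((b + q * j : ℤ) : ZMod p) ≠ 0 then
        chi p (((k : ℤ) : ZMod p) * (((b + q * j : ℤ) : ZMod p))⁻¹) else 0) * ee ((j : ℝ) * x) =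
      ∑ j ∈ Finset.range (n - a + 1).toNat, f ((a + j : ℤ) : ZMod p) * ee (((a : ℝ) + j) * x) := by
    rw [nfx_Icc_range]
    refine Finset.sum_congr rfl fun j _ => ?_
    rw [hf]
    push_cast
    rfl
  rw [h2]
  refine h1.trans ?_
  have h3 : (((n - a + 1).toNat : ℕ) : ℝ) ≤ L := by
    have : (n - a + 1).toNat ≤ L := by omega
    exact_mod_cast this
  have h4 : (((n - a + 1).toNat : ℕ) : ℝ) / p + 1 ≤ (L : ℝ) / p + 1 := by
    have : (((n - a + 1).toNat : ℕ) : ℝ) / p ≤ (L : ℝ) / p :=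
      div_le_div_of_nonneg_right h3 (by linarith)
    linarith
  refine mul_le_mul_of_nonneg_left h4 ?_
  positivity

theorem nfx_inj (q : ℕ) (b b' : ℕ) (j j' : ℤ) (hb : b < q) (hb' : b' < q)
    (h : (b : ℤ) + q * j = b' + q * j') : b = b' ∧ j = j' := by
  have hq : (0 : ℤ) < q := by
    have : 0 < q := lt_of_le_of_lt (Nat.zero_le _) hb
    exact_mod_cast this
  have h1 : ((b : ℤ) + q * j) / q = j := by
    rw [Int.add_mul_ediv_left _ _ hq.ne', Int.ediv_eq_zero_of_lt (Int.natCast_nonneg _)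
      (by exact_mod_cast hb), zero_add]
  have h2 : ((b' : ℤ) + q * j') / q = j' := by
    rw [Int.add_mul_ediv_left _ _ hq.ne', Int.ediv_eq_zero_of_lt (Int.natCast_nonneg _)
      (by exact_mod_cast hb'), zero_add]
  have h3 : j = j' := by rw [← h1, ← h2, h]
  subst h3
  exact ⟨by exact_mod_cast add_right_cancel h, rfl⟩

theorem nfx_split (q N K : ℕ) (hq0 : 0 < q) (hK2 : N < q * (K + 1))
    (G : ℤ → ℂ) (hG : ∀ B : ℤ, (N : ℤ) < |B| → G B = 0) :
    ∑ B ∈ Finset.Icc (-(N : ℤ)) N, G B =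
      ∑ b ∈ Finset.range q, ∑ j ∈ Finset.Icc (-((K : ℤ) + 1)) K, G (b + q * j) := by
  classical
  rw [← Finset.sum_product']
  have hinj : Set.InjOn (fun z : ℕ × ℤ => (z.1 : ℤ) + q * z.2)
      ((Finset.range q ×ˢ Finset.Icc (-((K : ℤ) + 1)) K : Finset (ℕ × ℤ)) : Set (ℕ × ℤ)) := by
    rintro ⟨b, j⟩ h1 ⟨b', j'⟩ h2 h3
    rw [Finset.mem_coe, Finset.mem_product, Finset.mem_range] at h1 h2
    obtain ⟨e1, e2⟩ := nfx_inj q b b' j j' h1.1 h2.1 h3
    rw [e1, e2]
  rw [← Finset.sum_image (f := G) hinj]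
  have hq0' : (0 : ℤ) < q := by exact_mod_cast hq0
  have hK2' : (N : ℤ) < q * (K + 1) := by exact_mod_cast hK2
  refine Finset.sum_subset ?_ ?_
  · intro B hB
    rw [Finset.mem_Icc] at hB
    rw [Finset.mem_image]
    have h1 : 0 ≤ B % q := Int.emod_nonneg _ hq0'.ne'
    have h2 : B % q < q := Int.emod_lt_of_pos _ hq0'
    have h3 : B % q + q * (B / q) = B := Int.emod_add_mul_ediv B q
    refine ⟨((B % q).toNat, B / q), ?_, ?_⟩
    · rw [Finset.mem_product, Finset.mem_range, Finset.mem_Icc]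
      refine ⟨by omega, ?_, ?_⟩
      · show -((K : ℤ) + 1) ≤ B / q
        by_contra hcon
        push Not at hcon
        have h4 : B / q ≤ -((K : ℤ) + 1) - 1 := by omega
        have h5 : (q : ℤ) * (B / q) ≤ q * (-((K : ℤ) + 1) - 1) :=
          mul_le_mul_of_nonneg_left h4 hq0'.le
        nlinarith
      · show B / q ≤ (K : ℤ)
        by_contra hcon
        push Not at hcon
        have h4 : (K : ℤ) + 1 ≤ B / q := by omega
        have h5 : (q : ℤ) * (K + 1) ≤ q * (B / q) :=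
          mul_le_mul_of_nonneg_left h4 hq0'.le
        linarith
    · show (((B % q).toNat : ℕ) : ℤ) + q * (B / q) = B
      rw [Int.toNat_of_nonneg h1]
      exact h3
  · intro B _ hB
    apply hG
    rw [Finset.mem_Icc] at hB
    rw [lt_abs]
    by_contra hcon
    push Not at hcon
    exact hB ⟨by linarith [hcon.2], hcon.1⟩

theorem nfx_var (q N : ℕ) (w : ℤ → ℝ) (hw : ∀ B : ℤ, (N : ℤ) < |B| → w B = 0)
    {V : ℝ} (hV : ∑ B ∈ Finset.Icc (-(N : ℤ) - 1) N, |w (B + 1) - w B| ≤ V) (b : ℤ) (J₁ J₂ : ℤ) :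
    ∑ j ∈ Finset.Icc J₁ J₂, |w (b + q * (j + 1)) - w (b + q * j)| ≤ V := by
  classical
  have h1 : ∀ j : ℤ, |w (b + q * (j + 1)) - w (b + q * j)| ≤
      ∑ i ∈ Finset.range q, |w (b + q * j + i + 1) - w (b + q * j + i)| := by
    intro j
    have h2 : w (b + q * (j + 1)) - w (b + q * j) =
        ∑ i ∈ Finset.range q, (w (b + q * j + ((i + 1 : ℕ) : ℤ)) - w (b + q * j + (i : ℤ))) := by
      rw [Finset.sum_range_sub (fun i : ℕ => w (b + q * j + (i : ℤ)))]
      have e1 : b + (q : ℤ) * (j + 1) = b + q * j + (q : ℤ) := by ring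
      have e2 : b + (q : ℤ) * j = b + q * j + ((0 : ℕ) : ℤ) := by simp
      rw [e1, ← e2]
    rw [h2]
    refine (Finset.abs_sum_le_sum_abs _ _).trans (le_of_eq (Finset.sum_congr rfl fun i _ => ?_))
    have e3 : b + (q : ℤ) * j + ((i + 1 : ℕ) : ℤ) = b + q * j + i + 1 := by
      push_cast
      ring
    rw [e3]
  refine (Finset.sum_le_sum fun j _ => h1 j).trans ?_
  rw [← Finset.sum_product']
  have hinj : Set.InjOn (fun z : ℤ × ℕ => b + q * z.1 + (z.2 : ℤ))
      ((Finset.Icc J₁ J₂ ×ˢ Finset.range q : Finset (ℤ × ℕ)) : Set (ℤ × ℕ)) := by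
    rintro ⟨j, i⟩ h3 ⟨j', i'⟩ h4 h5
    rw [Finset.mem_coe, Finset.mem_product, Finset.mem_range] at h3 h4
    have h6 : (i : ℤ) + q * j = i' + q * j' := by
      have : b + (q : ℤ) * j + (i : ℤ) = b + q * j' + (i' : ℤ) := h5
      linarith
    obtain ⟨e1, e2⟩ := nfx_inj q i i' j j' h3.2 h4.2 h6
    rw [e1, e2]
  rw [← Finset.sum_image (f := fun B : ℤ => |w (B + 1) - w B|) hinj]
  refine le_trans ?_ hV
  rw [← Finset.sum_filter_of_ne (p := fun B : ℤ => B ∈ Finset.Icc (-(N : ℤ) - 1) N)]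
  · refine Finset.sum_le_sum_of_subset_of_nonneg ?_ ?_
    · intro B hB
      exact (Finset.mem_filter.1 hB).2
    · intro B _ _
      exact abs_nonneg _
  · intro B _ hB
    rw [Finset.mem_Icc]
    by_contra hcon
    apply hB
    have h7 : w (B + 1) = 0 := by
      apply hw
      rw [lt_abs]
      by_contra h8
      push Not at h8
      apply hcon
      constructor <;> omega
    have h8 : w B = 0 := by
      apply hw
      rw [lt_abs]
      by_contra h8
      push Not at h8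
      apply hcon
      constructor <;> omega
    rw [h7, h8, sub_self, abs_zero]

theorem nfx_ee_congr {s t : ℝ} (n : ℤ) (h : s - t = n) : ee s = ee t := by
  have h1 : s = t + n := by linarith
  rw [h1, ee_add, ee_int, mul_one]

/-- the terms in one residue class modulo `A'` -/
theorem nfx_term {p : ℕ} [Fact p.Prime] {A A' : ℤ} (hA : A = p * A') (hA'0 : A' ≠ 0)
    {u v : ℤ} (huv : u * p + v * A' = 1) (m : ℤ) (c₀ b : ℤ) (hc₀ : A' ∣ b * c₀ + 1)
    (B : ℤ) (hB : A' ∣ B - b) (cB : ℤ) (hcB : A ∣ B * cB + 1) :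
    ee ((m : ℝ) * (cB : ℝ) / (A : ℝ)) =
      ee ((m : ℝ) * u * c₀ / A') * chi p (((-(m * v) : ℤ) : ZMod p) * (((B : ℤ) : ZMod p))⁻¹) := by
  have hp : p.Prime := Fact.out
  have hpR : (p : ℝ) ≠ 0 := by exact_mod_cast hp.pos.ne'
  have hA'R : (A' : ℝ) ≠ 0 := by exact_mod_cast hA'0
  have hAR : (A : ℝ) = p * A' := by rw [hA]; push_cast; ring
  have huvR : (u : ℝ) * p + v * A' = 1 := by exact_mod_cast huv
  have h1 : (m : ℝ) * (cB : ℝ) / (A : ℝ) = (m : ℝ) * u * cB / A' + ((m * v * cB : ℤ) : ℝ) / p := by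
    rw [hAR]
    push_cast
    field_simp
    linear_combination -(m : ℝ) * cB * huvR
  rw [h1, ee_add]
  congr 1
  · -- dependence on the class modulo A'
    have h2 : A' ∣ B * cB + 1 := (Dvd.intro_left (p : ℤ) hA.symm).trans hcB
    have h3 : A' ∣ b * (cB - c₀) := by
      have e : b * (cB - c₀) = (B * cB + 1) - (b * c₀ + 1) - (B - b) * cB := by ring
      rw [e]
      exact (h2.sub hc₀).sub (hB.mul_right _)
    have h4 : IsCoprime A' b := by
      obtain ⟨k, hk⟩ := hc₀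
      exact ⟨k, -c₀, by linear_combination -hk⟩
    have h5 : A' ∣ cB - c₀ := h4.dvd_of_dvd_mul_left h3
    obtain ⟨k, hk⟩ := h5
    refine nfx_ee_congr (m * u * k) ?_
    have hkR : (cB : ℝ) - c₀ = A' * k := by exact_mod_cast hk
    push_cast
    field_simp
    linear_combination (m : ℝ) * u * hkR
  · rw [← chi_int]
    congr 1
    have h2 : ((B : ℤ) : ZMod p) * ((cB : ℤ) : ZMod p) + 1 = 0 := by
      have h3 : (p : ℤ) ∣ B * cB + 1 := (Dvd.intro _ hA.symm).trans hcB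
      have h4 := (ZMod.intCast_zmod_eq_zero_iff_dvd (B * cB + 1) p).2 h3
      push_cast at h4
      exact h4
    have h3 : ((B : ℤ) : ZMod p) ≠ 0 := by
      intro h4
      rw [h4, zero_mul, zero_add] at h2
      exact one_ne_zero h2
    have h4 : ((cB : ℤ) : ZMod p) = -(((B : ℤ) : ZMod p))⁻¹ := by
      field_simp
      linear_combination h2
    push_cast
    rw [h4]
    ring

open Classical in
theorem fixA {p : ℕ} (hp : p.Prime) {A A' : ℤ} (hA : A = p * A') (hA0 : A ≠ 0)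
    (hcop : ¬ (p : ℤ) ∣ A') {m : ℤ} (hm : ¬ (p : ℤ) ∣ m) (x : ℝ) (w : ℤ → ℝ) (N : ℕ)
    (hw : ∀ B : ℤ, (N : ℤ) < |B| → w B = 0) {V : ℝ}
    (hV : ∑ B ∈ Finset.Icc (-(N : ℤ) - 1) N, |w (B + 1) - w B| ≤ V) (c : ℤ → ℤ)
    (hc : ∀ B : ℤ, IsCoprime B A → A ∣ B * c B + 1) :
    ‖∑ B ∈ Finset.Icc (-(N : ℤ)) N, (if IsCoprime B A then
      (w B : ℂ) * ee (x * B) * ee ((m : ℝ) * (c B : ℝ) / (A : ℝ)) else 0)‖ ≤
      4 * V * (3 + Real.log p) * ((N : ℝ) + |(A : ℝ)|) * (p : ℝ) ^ (-(1 / 4) : ℝ) := by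
  have hfact : Fact p.Prime := ⟨hp⟩
  have hp1 : (1 : ℝ) ≤ p := by exact_mod_cast hp.one_lt.le
  have hp2 : (2 : ℝ) ≤ p := by exact_mod_cast hp.two_le
  have hlog : 0 ≤ Real.log p := Real.log_nonneg hp1
  have hA'0 : A' ≠ 0 := by
    rintro rfl
    rw [mul_zero] at hA
    exact hA0 hA
  obtain ⟨q, hq⟩ : ∃ q : ℕ, q = A'.natAbs := ⟨_, rfl⟩
  have hq0 : 0 < q := by
    rw [hq]
    exact Int.natAbs_pos.2 hA'0
  have hqA : (q : ℤ) ∣ A' := by
    rw [hq]
    exact Int.natAbs_dvd.2 dvd_rfl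
  have hAq : A' ∣ (q : ℤ) := by
    rw [hq]
    exact Int.dvd_natAbs.2 dvd_rfl
  have hpq : ((((q : ℕ) : ℤ)) : ZMod p) ≠ 0 := by
    intro h
    exact hcop (((ZMod.intCast_zmod_eq_zero_iff_dvd _ p).1 h).trans hqA)
  obtain ⟨K, hK⟩ : ∃ K : ℕ, K = N / q := ⟨_, rfl⟩
  have hK1 : q * K ≤ N := by
    rw [hK]
    exact Nat.mul_div_le N q
  have hK2 : N < q * (K + 1) := by
    rw [hK]
    exact Nat.lt_mul_div_succ N hq0
  have hcopr : IsCoprime (p : ℤ) A' :=
    (Nat.prime_iff_prime_int.1 hp).coprime_iff_not_dvd.2 hcop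
  obtain ⟨u, v, huv⟩ := hcopr
  have hvp : ¬ (p : ℤ) ∣ v := by
    intro h
    have h1 : (p : ℤ) ∣ 1 := by
      rw [← huv]
      exact (Dvd.intro_left _ rfl).add (h.mul_right _)
    have h2 : (p : ℤ) ≤ 1 := Int.le_of_dvd one_pos h1
    have h3 : 1 < p := hp.one_lt
    omega
  have hk : (((-(m * v) : ℤ)) : ZMod p) ≠ 0 := by
    intro h
    have h1 := (ZMod.intCast_zmod_eq_zero_iff_dvd _ p).1 h
    rw [dvd_neg] at h1
    rcases (Nat.prime_iff_prime_int.1 hp).dvd_or_dvd h1 with h2 | h2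
    · exact hm h2
    · exact hvp h2
  have hV0 : 0 ≤ V := le_trans (Finset.sum_nonneg fun _ _ => abs_nonneg _) hV
  obtain ⟨Y, hY⟩ : ∃ Y : ℝ, Y = 2 * (p : ℝ) ^ (3 / 4 : ℝ) * (3 + Real.log p) *
    (((2 * K + 2 : ℕ) : ℝ) / p + 1) := ⟨_, rfl⟩
  have hY0 : 0 ≤ Y := by
    rw [hY]
    positivity
  obtain ⟨at', hat⟩ : ∃ at' : ℤ → ℂ, at' = fun B : ℤ => if IsCoprime B A then
    ee (x * B) * ee ((m : ℝ) * (c B : ℝ) / (A : ℝ)) else 0 := ⟨_, rfl⟩
  have hF : ∀ B : ℤ, (if IsCoprime B A then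
      (w B : ℂ) * ee (x * B) * ee ((m : ℝ) * (c B : ℝ) / (A : ℝ)) else 0) = (w B : ℂ) * at' B := by
    intro B
    rw [hat]
    show _ = (w B : ℂ) * (if IsCoprime B A then
      ee (x * B) * ee ((m : ℝ) * (c B : ℝ) / (A : ℝ)) else 0)
    split_ifs
    · ring
    · rw [mul_zero]
  -- the bound for one class
  have hclass : ∀ b ∈ Finset.range q, ‖∑ j ∈ Finset.Icc (-((K : ℤ) + 1)) K,
      (w (b + q * j) : ℂ) * at' (b + q * j)‖ ≤ V * Y := by
    intro b hb
    refine abel_sum (fun j => w (b + q * j)) (fun j => at' (b + q * j)) _ _ ?_ ?_ ?_ hY0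
    · intro j hj
      apply hw
      rw [lt_abs]
      left
      have h1 : (N : ℤ) < q * (K + 1) := by exact_mod_cast hK2
      have h2 : (q : ℤ) * (K + 1) ≤ q * j :=
        mul_le_mul_of_nonneg_left (by omega) (Int.natCast_nonneg q)
      have h3 : (0 : ℤ) ≤ b := Int.natCast_nonneg b
      linarith
    · exact nfx_var q N w hw hV b _ _
    · intro n hn1 hn2
      by_cases hbc : IsCoprime (b : ℤ) A'
      · obtain ⟨s, t, hst⟩ := hbc
        -- s * b + t * A' = 1, c₀ = -s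
        have hc₀ : A' ∣ (b : ℤ) * (-s) + 1 := ⟨t, by linear_combination -hst⟩
        have hterm : ∀ j : ℤ, at' (b + q * j) = (ee (x * b) * ee ((m : ℝ) * u * ((-s : ℤ) : ℝ) / A')) *
            ((if (((b : ℤ) + q * j : ℤ) : ZMod p) ≠ 0 then
        chi p (((-(m * v) : ℤ) : ZMod p) * ((((b : ℤ) + q * j : ℤ) : ZMod p))⁻¹) else 0) *
          ee ((j : ℝ) * (x * q))) := by
          intro j
          have hcb : IsCoprime ((b : ℤ) + q * j) A' := by
            obtain ⟨r, hr⟩ := hAq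
            refine ⟨s, t - s * r * j, ?_⟩
            rw [hr]
            linear_combination hst
          have hdiv : A' ∣ ((b : ℤ) + q * j) - b := by
            rw [add_sub_cancel_left]
            exact hAq.mul_right _
          rw [hat]
          show (if IsCoprime ((b : ℤ) + q * j) A then _ else _) = _
          by_cases hB : IsCoprime ((b : ℤ) + q * j) A
          · rw [if_pos hB]
            have hne : (((b : ℤ) + q * j : ℤ) : ZMod p) ≠ 0 := by
              intro h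
              have h1 := (ZMod.intCast_zmod_eq_zero_iff_dvd _ p).1 h
              have h2 : (p : ℤ) ∣ A := Dvd.intro _ hA.symm
              have h3 := hB.isUnit_of_dvd' h1 h2
              exact (Nat.prime_iff_prime_int.1 hp).not_isUnit h3
            rw [if_pos hne]
            rw [nfx_term hA hA'0 huv m (-s) b hc₀ ((b : ℤ) + q * j) hdiv _ (hc _ hB)]
            have h5 : ee (x * (((b : ℤ) + q * j : ℤ) : ℝ)) = ee (x * b) * ee ((j : ℝ) * (x * q)) := by
              rw [← ee_add]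
              congr 1
              push_cast
              ring
            rw [h5]
            ring
          · rw [if_neg hB]
            have hz : (((b : ℤ) + q * j : ℤ) : ZMod p) = 0 := by
              by_contra h
              apply hB
              rw [hA]
              refine IsCoprime.mul_right ?_ hcb
              rw [isCoprime_comm]
              refine (Nat.prime_iff_prime_int.1 hp).coprime_iff_not_dvd.2 ?_
              intro h1
              exact h ((ZMod.intCast_zmod_eq_zero_iff_dvd _ p).2 h1)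
            rw [if_neg (not_not.2 hz), zero_mul, mul_zero]
        rw [Finset.sum_congr rfl fun j _ => hterm j, ← Finset.mul_sum, norm_mul, norm_mul,
          norm_ee, norm_ee, one_mul, one_mul, hY]
        refine nfx_interval p b q (-(m * v)) hpq hk (x * q) _ n (2 * K + 2) ?_
        push_cast
        omega
      · have hzero : ∀ j ∈ Finset.Icc (-((K : ℤ) + 1)) n, at' (b + q * j) = 0 := by
          intro j _
          rw [hat]
          show (if IsCoprime ((b : ℤ) + q * j) A then _ else _) = _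
          rw [if_neg]
          intro hB
          apply hbc
          rw [hA] at hB
          have h1 : IsCoprime ((b : ℤ) + q * j) A' := hB.of_mul_right_right
          obtain ⟨r, hr⟩ := hAq
          obtain ⟨s, t, hst⟩ := h1
          refine ⟨s, t + s * r * j, ?_⟩
          rw [hr] at hst
          linear_combination hst
        rw [Finset.sum_eq_zero hzero, norm_zero]
        exact hY0
  rw [Finset.sum_congr rfl fun B _ => hF B]
  rw [nfx_split q N K hq0 hK2 (fun B => (w B : ℂ) * at' B) (by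
    intro B hB
    show (w B : ℂ) * at' B = 0
    rw [hw B hB]
    simp)]
  refine (norm_sum_le _ _).trans ?_
  refine (Finset.sum_le_sum hclass).trans ?_
  rw [Finset.sum_const, Finset.card_range, nsmul_eq_mul, hY]
  -- numerical comparison
  have hAabs : |(A : ℝ)| = p * q := by
    rw [hA]
    push_cast
    rw [abs_mul, hq, Nat.cast_natAbs, Int.cast_abs]
    congr 1
    exact abs_of_nonneg (by linarith)
  have hpow : (p : ℝ) ^ (3 / 4 : ℝ) = p * (p : ℝ) ^ (-(1 / 4) : ℝ) := by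
    have h1 : (p : ℝ) ^ (3 / 4 : ℝ) = (p : ℝ) ^ (1 + (-(1 / 4)) : ℝ) := by norm_num
    rw [h1, Real.rpow_add (by linarith), Real.rpow_one]
  rw [hAabs, hpow]
  have hP : 0 ≤ (p : ℝ) ^ (-(1 / 4) : ℝ) := by positivity
  have hqK : (q : ℝ) * K ≤ N := by exact_mod_cast hK1
  have hq0R : (0 : ℝ) < q := by exact_mod_cast hq0
  have hmain : (q : ℝ) * (p * (((2 * K + 2 : ℕ) : ℝ) / p + 1)) ≤ 2 * (N + p * q) := by
    have hp0 : (p : ℝ) ≠ 0 := by
      intro h
      rw [h] at hp1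
      linarith
    have e : (p : ℝ) * (((2 * K + 2 : ℕ) : ℝ) / p + 1) = (2 * K + 2) + p := by
      rw [mul_add, mul_div_cancel₀ _ hp0]
      push_cast
      ring
    rw [e]
    nlinarith
  calc (q : ℝ) * (V * (2 * (p * (p : ℝ) ^ (-(1 / 4) : ℝ)) * (3 + Real.log p) *
        (((2 * K + 2 : ℕ) : ℝ) / p + 1)))
      = (2 * V * (3 + Real.log p) * (p : ℝ) ^ (-(1 / 4) : ℝ)) *
        ((q : ℝ) * (p * (((2 * K + 2 : ℕ) : ℝ) / p + 1))) := by ring
    _ ≤ (2 * V * (3 + Real.log p) * (p : ℝ) ^ (-(1 / 4) : ℝ)) * (2 * (N + p * q)) :=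
        mul_le_mul_of_nonneg_left hmain (by positivity)
    _ = 4 * V * (3 + Real.log p) * ((N : ℝ) + p * q) * (p : ℝ) ^ (-(1 / 4) : ℝ) := by ring

end Pool.Agent.ILL
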