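import Pool.Agent.ILL.Nfx
import Pool.Agent.ILL.Bad
import Pool.Agent.ILL.Ecs
import Pool.Agent.ILL.Eth

/-!
# NTM. The arithmetic sums for `m ≠ 0`

Let `G` be Lipschitz, bounded by `L`, zero outside `(c,C)`. For each `A ≠ 0` the sum over `B` is the sum of `fixA` with
`w(B) = G(eu (rv (A,B) M)/T)`, `x = d P.2`, `c(B) = Cc (A,B)` (`Cc_spec`), and the unimodular factor `e(d A P.1)`.
The support: `eu(rv (A,B) M) ≤ C T` implies `|A|, |B| ≤ C₁ T` (`count_rows`). Variation: `|eu(rv (A,B+1) M) -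
eu(rv (A,B) M)| ≤ eu (rv (0,1) M)`, so with `N = ⌊C₁T⌋ + 1` the total variation is at most
`(2N+2) L eu(rv (0,1) M)/T ≤ V`, a constant for `T ≥ 1`.
Let `ε > 0`. Choose `P₀` with `4V(3+log p)(2C₁+2) p^{-1/4} ≤ ε` for all `p ≥ P₀`, `P₁` from `bad_density`. For `A` with
`|A|` good (there is a prime `p ∈ [P₀,P₁]`, `p ∤ m`, `p ∣ A`, `p² ∤ A`): `fixA` bounds the sum over `B` by
`ε' T` (`N + |A| ≤ (2C₁+2) T`). For bad `|A|` (at most `2 ε (C₁T+1)` values) the trivial bound `L (2N+1)`. Total at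
most `(2C₁T+1) ε T + 2ε(C₁T+1) L (2C₁T+3)`; divide by `T²`.
-/

open MeasureTheory Set Filter Topology
open scoped ENNReal NNReal

namespace Pool.Agent.ILL

private lemma ntm_eu_nonneg (ξ : Pl) : 0 ≤ eu ξ := Real.sqrt_nonneg _

private lemma ntm_eu_eq (ξ : Pl) : eu ξ = ‖(⟨ξ.1, ξ.2⟩ : ℂ)‖ := by
  rw [eu, Complex.norm_def, Complex.normSq_apply]
  congr 1
  ring

private lemma ntm_eu_sub (ξ η : Pl) : |eu (ξ + η) - eu ξ| ≤ eu η := by
  rw [ntm_eu_eq, ntm_eu_eq, ntm_eu_eq]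
  refine (abs_norm_sub_norm_le _ _).trans (le_of_eq ?_)
  congr 1
  apply Complex.ext <;> simp

private lemma ntm_ee_add (x y : ℝ) : ee (x + y) = ee x * ee y := by
  rw [ee, ee, ee, ← Complex.exp_add]
  congr 1
  push_cast
  ring

private lemma ntm_ee_norm (x : ℝ) : ‖ee x‖ = 1 := by
  rw [ee, show (2 * (Real.pi : ℂ) * (x : ℂ) * Complex.I) = ((2 * Real.pi * x : ℝ) : ℂ) * Complex.I by
    push_cast; ring]
  exact Complex.norm_exp_ofReal_mul_I _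

open Classical in
/-- the sum over `B` -/
private noncomputable def ntmS (M : SLR) (P : Pl) (d : ℕ) (m : ℤ) (G : ℝ → ℝ) (T : ℝ) (N : ℕ)
    (A : ℤ) : ℂ :=
  ∑ B ∈ Finset.Icc (-(N : ℤ)) N, (if IsCoprime B A then
    ((G (eu (rv (A, B) M) / T) : ℝ) : ℂ) * ee (((d : ℝ) * P.2) * B) *
      ee ((m : ℝ) * (Cc (A, B) : ℝ) / (A : ℝ)) else 0)

open Classical in
private lemma ntm_eq (M : SLR) (P : Pl) (d : ℕ) (m : ℤ) (G : ℝ → ℝ) (T : ℝ) (N : ℕ)
    (hsup : ∀ k : ℤ × ℤ, G (eu (rv k M) / T) ≠ 0 → |k.1| ≤ (N : ℤ) ∧ |k.2| ≤ (N : ℤ)) :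
    NT M P d m G T = (1 / (T : ℂ) ^ 2) *
      ∑ A ∈ (Finset.Icc (-(N : ℤ)) N).filter (fun A => A ≠ 0),
        ee ((d : ℝ) * (A * P.1)) * ntmS M P d m G T N A := by
  rw [NT]
  congr 1
  rw [tsum_eq_sum (s := (Finset.Icc (-(N : ℤ)) N) ×ˢ (Finset.Icc (-(N : ℤ)) N))]
  · rw [Finset.sum_product, Finset.sum_filter]
    refine Finset.sum_congr rfl fun A _ => ?_
    by_cases hA : A = 0
    · simp [hA]
    · rw [if_pos hA, ntmS, Finset.mul_sum]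
      refine Finset.sum_congr rfl fun B _ => ?_
      by_cases hc : IsCoprime B A
      · rw [if_pos hc, if_pos ⟨Int.isCoprime_iff_gcd_eq_one.1 hc.symm, hA⟩]
        rw [show (d : ℝ) * dotZ (A, B) P = (d : ℝ) * (A * P.1) + ((d : ℝ) * P.2) * B by
          simp only [dotZ]; ring, ntm_ee_add]
        ring
      · rw [if_neg hc, if_neg, mul_zero]
        rintro ⟨h1, -⟩
        exact hc (Int.isCoprime_iff_gcd_eq_one.2 h1).symm
  · intro k hk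
    have h0 : G (eu (rv k M) / T) = 0 := by
      by_contra hne
      apply hk
      obtain ⟨h1, h2⟩ := hsup k hne
      rw [Finset.mem_product, Finset.mem_Icc, Finset.mem_Icc]
      exact ⟨abs_le.1 h1, abs_le.1 h2⟩
    rw [h0]
    simp

private lemma ntm_trivial (M : SLR) (P : Pl) (d : ℕ) (m : ℤ) (G : ℝ → ℝ) (T : ℝ) (N : ℕ)
    (A : ℤ) {L : ℝ} (hbd : ∀ ρ, |G ρ| ≤ L) :
    ‖ntmS M P d m G T N A‖ ≤ (2 * (N : ℝ) + 1) * L := by
  have hL : 0 ≤ L := (abs_nonneg _).trans (hbd 0)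
  rw [ntmS]
  refine (norm_sum_le _ _).trans ?_
  have : ∀ B ∈ Finset.Icc (-(N : ℤ)) N, ‖(if IsCoprime B A then
    ((G (eu (rv (A, B) M) / T) : ℝ) : ℂ) * ee (((d : ℝ) * P.2) * B) *
      ee ((m : ℝ) * (Cc (A, B) : ℝ) / (A : ℝ)) else 0)‖ ≤ L := by
    intro B _
    split_ifs
    · rw [norm_mul, norm_mul, ntm_ee_norm, ntm_ee_norm, mul_one, mul_one, Complex.norm_real]
      exact hbd _
    · simpa using hL
  refine (Finset.sum_le_sum this).trans ?_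
  rw [Finset.sum_const, Int.card_Icc, nsmul_eq_mul]
  apply le_of_eq
  congr 1
  have : ((N : ℤ) + 1 - (-(N : ℤ))).toNat = 2 * N + 1 := by omega
  rw [this]
  push_cast
  ring

private lemma ntm_good (M : SLR) (P : Pl) (d : ℕ) (m : ℤ) (G : ℝ → ℝ) (T : ℝ) (N : ℕ)
    (hsup : ∀ k : ℤ × ℤ, G (eu (rv k M) / T) ≠ 0 → |k.1| ≤ (N : ℤ) ∧ |k.2| ≤ (N : ℤ))
    {A : ℤ} (hA0 : A ≠ 0) {p : ℕ} (hp : p.Prime) (hpm : ¬ (p : ℤ) ∣ m) (hpA : p ∣ A.natAbs)
    (hpA2 : ¬ p ^ 2 ∣ A.natAbs) {L V : ℝ} (hT : 0 < T)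
    (hlip : ∀ ρ ρ', |G ρ - G ρ'| ≤ L * |ρ - ρ'|) (hL : 0 ≤ L)
    (hV : (2 * (N : ℝ) + 2) * (L * (eu (rv (0, 1) M) / T)) ≤ V) :
    ‖ntmS M P d m G T N A‖ ≤
      4 * V * (3 + Real.log p) * ((N : ℝ) + |(A : ℝ)|) * (p : ℝ) ^ (-(1 / 4) : ℝ) := by
  have h1 : (p : ℤ) ∣ A := Int.natCast_dvd.2 hpA
  obtain ⟨A', hA'⟩ := h1
  have hcop : ¬ (p : ℤ) ∣ A' := by
    rintro ⟨B', rfl⟩
    apply hpA2
    rw [← Int.natCast_dvd]
    exact ⟨B', by rw [hA']; push_cast; ring⟩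
  have key := fixA hp hA' hA0 hcop hpm ((d : ℝ) * P.2) (fun B => G (eu (rv (A, B) M) / T)) N
    (V := V) ?_ ?_ (fun B => Cc (A, B)) ?_
  · rw [ntmS]
    convert key using 3
  · intro B hB
    by_contra hne
    exact absurd (hsup (A, B) hne).2 (not_le.2 hB)
  · refine le_trans ?_ hV
    have hb : ∀ B ∈ Finset.Icc (-(N : ℤ) - 1) N,
        |G (eu (rv (A, B + 1) M) / T) - G (eu (rv (A, B) M) / T)| ≤
          L * (eu (rv (0, 1) M) / T) := by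
      intro B _
      refine (hlip _ _).trans (mul_le_mul_of_nonneg_left ?_ hL)
      rw [← sub_div, abs_div, abs_of_pos hT]
      refine div_le_div_of_nonneg_right ?_ hT.le
      have : rv (A, B + 1) M = rv (A, B) M + rv (0, 1) M := by
        ext <;> simp [rv] <;> ring
      rw [this]
      exact ntm_eu_sub _ _
    refine (Finset.sum_le_sum hb).trans ?_
    rw [Finset.sum_const, Int.card_Icc, nsmul_eq_mul]
    apply le_of_eq
    congr 1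
    have : ((N : ℤ) + 1 - (-(N : ℤ) - 1)).toNat = 2 * N + 2 := by omega
    rw [this]
    push_cast
    ring
  · intro B hB
    exact Cc_spec (k := (A, B)) (Int.isCoprime_iff_gcd_eq_one.1 hB.symm)

open Classical in
private lemma ntm_card (N : ℕ) (Q : ℕ → Prop) :
    (((Finset.Icc (-(N : ℤ)) N).filter (fun A => A ≠ 0 ∧ Q A.natAbs)).card : ℝ) ≤
      2 * (((Finset.Icc 1 N).filter (fun A : ℕ => Q A)).card : ℝ) := by
  have h : (Finset.Icc (-(N : ℤ)) N).filter (fun A => A ≠ 0 ∧ Q A.natAbs) ⊆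
      ((Finset.Icc 1 N).filter (fun A : ℕ => Q A)).image (fun n : ℕ => (n : ℤ)) ∪
      ((Finset.Icc 1 N).filter (fun A : ℕ => Q A)).image (fun n : ℕ => -(n : ℤ)) := by
    intro A hA
    rw [Finset.mem_filter, Finset.mem_Icc] at hA
    obtain ⟨⟨h1, h2⟩, h3, h4⟩ := hA
    rw [Finset.mem_union, Finset.mem_image, Finset.mem_image]
    rcases le_total 0 A with h | h
    · left
      refine ⟨A.natAbs, ?_, by omega⟩
      rw [Finset.mem_filter, Finset.mem_Icc]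
      exact ⟨by omega, h4⟩
    · right
      refine ⟨A.natAbs, ?_, by omega⟩
      rw [Finset.mem_filter, Finset.mem_Icc]
      exact ⟨by omega, h4⟩
  have h2 := (Finset.card_le_card h).trans (Finset.card_union_le _ _)
  have h3 := Finset.card_image_le (s := (Finset.Icc 1 N).filter (fun A : ℕ => Q A))
    (f := fun n : ℕ => (n : ℤ))
  have h4 := Finset.card_image_le (s := (Finset.Icc 1 N).filter (fun A : ℕ => Q A))
    (f := fun n : ℕ => -(n : ℤ))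
  have h5 : ((Finset.Icc (-(N : ℤ)) N).filter (fun A => A ≠ 0 ∧ Q A.natAbs)).card ≤
      2 * ((Finset.Icc 1 N).filter (fun A : ℕ => Q A)).card := by omega
  exact_mod_cast h5

private lemma ntm_P0 (V : ℝ) {ε : ℝ} (hε : 0 < ε) :
    ∃ P₀ : ℕ, ∀ p : ℕ, P₀ ≤ p → 8 * V * (3 + Real.log p) * (p : ℝ) ^ (-(1 / 4) : ℝ) ≤ ε := by
  have h1 : Tendsto (fun x : ℝ => 8 * V * (3 * x ^ (-(1 / 4) : ℝ) +
      Real.log x * x ^ (-(1 / 4) : ℝ))) atTop (𝓝 (8 * V * (3 * 0 + 0))) := by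
    refine Tendsto.const_mul _ (Tendsto.add (Tendsto.const_mul _ ?_) ?_)
    · exact tendsto_rpow_neg_atTop (by norm_num)
    · have h2 := (isLittleO_log_rpow_atTop (r := 1 / 4) (by norm_num)).tendsto_div_nhds_zero
      refine h2.congr' ?_
      filter_upwards [eventually_gt_atTop 0] with x hx
      rw [Real.rpow_neg hx.le, div_eq_mul_inv]
  rw [mul_zero, add_zero, mul_zero] at h1
  have h3 := (h1.comp tendsto_natCast_atTop_atTop).eventually (eventually_le_nhds hε)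
  obtain ⟨P₀, hP₀⟩ := eventually_atTop.1 h3
  refine ⟨P₀, fun p hp => ?_⟩
  have := hP₀ p hp
  simp only [Function.comp] at this
  refine le_trans (le_of_eq ?_) this
  ring

theorem nt_m_ne_zero (M : SLR) (P : Pl) (d : ℕ) {m : ℤ} (hm : m ≠ 0) {G : ℝ → ℝ} {c C L : ℝ}
    (hc : 0 < c) (hG0 : ∀ ρ, ρ ≤ c → G ρ = 0) (hG1 : ∀ ρ, C ≤ ρ → G ρ = 0)
    (hlip : ∀ ρ ρ', |G ρ - G ρ'| ≤ L * |ρ - ρ'|) (hbd : ∀ ρ, |G ρ| ≤ L) :
    Tendsto (fun T : ℝ => NT M P d m G T) atTop (𝓝 0) := by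
  classical
  have hL : 0 ≤ L := (abs_nonneg _).trans (hbd 0)
  obtain ⟨C', hC', hrows⟩ := count_rows M
  set C0 : ℝ := max C 1 with hC0
  have hC0pos : 0 < C0 := lt_of_lt_of_le one_pos (le_max_right _ _)
  set C₁ : ℝ := C' * C0 with hC₁
  have hC₁pos : 0 < C₁ := mul_pos hC' hC0pos
  set e₀ : ℝ := eu (rv (0, 1) M) with he₀
  have he₀0 : 0 ≤ e₀ := ntm_eu_nonneg _
  set V : ℝ := (2 * C₁ + 2) * (L * e₀) with hVdef
  have hV0 : 0 ≤ V := mul_nonneg (by positivity) (mul_nonneg hL he₀0)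
  -- the support
  have hsup : ∀ T : ℝ, 1 ≤ T → ∀ k : ℤ × ℤ, G (eu (rv k M) / T) ≠ 0 →
      |k.1| ≤ ((⌊C₁ * T⌋₊ : ℕ) : ℤ) ∧ |k.2| ≤ ((⌊C₁ * T⌋₊ : ℕ) : ℤ) := by
    intro T hT k hk
    have hT0 : 0 < T := lt_of_lt_of_le one_pos hT
    have h1 : eu (rv k M) / T < C := by
      by_contra h
      exact hk (hG1 _ (not_lt.1 h))
    have h2 : eu (rv k M) ≤ C0 * T := by
      rw [div_lt_iff₀ hT0] at h1
      exact h1.le.trans (mul_le_mul_of_nonneg_right (le_max_left _ _) hT0.le)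
    obtain ⟨-, -, h3⟩ := hrows (C0 * T) (by positivity)
    obtain ⟨h4, h5⟩ := h3 k h2
    have h6 : C' * (C0 * T) = C₁ * T := by rw [hC₁]; ring
    rw [h6] at h4 h5
    have aux : ∀ n : ℤ, |(n : ℝ)| ≤ C₁ * T → |n| ≤ ((⌊C₁ * T⌋₊ : ℕ) : ℤ) := by
      intro n hn
      have h7 : ((n.natAbs : ℕ) : ℝ) ≤ C₁ * T := by
        rw [Nat.cast_natAbs]
        push_cast
        exact hn
      have h8 := Nat.le_floor h7
      rw [Int.abs_eq_natAbs]
      exact_mod_cast h8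
    exact ⟨aux _ h4, aux _ h5⟩
  rw [Metric.tendsto_atTop']
  intro ε hε
  -- parameters
  set ε₁ : ℝ := ε / (6 * C₁ ^ 2 + 1) / 2 with hε₁
  have hε₁0 : 0 < ε₁ := by positivity
  set ε₂ : ℝ := ε / (12 * C₁ ^ 2 * L + 1) / 2 with hε₂
  have hε₂0 : 0 < ε₂ := by positivity
  obtain ⟨P₀, hP₀⟩ := ntm_P0 V hε₁0
  obtain ⟨P₁, hP₁⟩ := bad_density hm P₀ hε₂0
  have htN : Tendsto (fun T : ℝ => ⌊C₁ * T⌋₊) atTop atTop :=
    tendsto_nat_floor_atTop.comp (tendsto_id.const_mul_atTop hC₁pos)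
  have hev := (htN.eventually hP₁).and ((htN.eventually (eventually_ge_atTop 1)).and
    (eventually_ge_atTop (1 : ℝ)))
  obtain ⟨T₀, hT₀⟩ := eventually_atTop.1 hev
  refine ⟨T₀, fun T hT => ?_⟩
  obtain ⟨hbadN, hN1, hT1⟩ := hT₀ T hT.le
  have hT0 : 0 < T := lt_of_lt_of_le one_pos hT1
  set N : ℕ := ⌊C₁ * T⌋₊ with hN
  have hNT : (N : ℝ) ≤ C₁ * T := Nat.floor_le (by positivity)
  have hN1' : (1 : ℝ) ≤ N := by exact_mod_cast hN1
  rw [dist_zero_right, ntm_eq M P d m G T N (hsup T hT1), norm_mul]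
  have hV' : (2 * (N : ℝ) + 2) * (L * (eu (rv (0, 1) M) / T)) ≤ V := by
    rw [hVdef, ← he₀]
    have h1 : (2 * (N : ℝ) + 2) * (L * (e₀ / T)) = ((2 * (N : ℝ) + 2) / T) * (L * e₀) := by
      field_simp
    rw [h1]
    refine mul_le_mul_of_nonneg_right ?_ (mul_nonneg hL he₀0)
    rw [div_le_iff₀ hT0]
    nlinarith
  -- the bounds
  have hgood : ∀ A ∈ (Finset.Icc (-(N : ℤ)) N).filter (fun A => A ≠ 0),
      ‖ntmS M P d m G T N A‖ ≤ ε₁ * N + (if (∀ p : ℕ, p.Prime → P₀ ≤ p → p ≤ P₁ →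
        ¬ (p : ℤ) ∣ m → p ∣ A.natAbs → p ^ 2 ∣ A.natAbs) then (2 * (N : ℝ) + 1) * L else 0) := by
    intro A hA
    rw [Finset.mem_filter, Finset.mem_Icc] at hA
    obtain ⟨⟨hA1, hA2⟩, hA0⟩ := hA
    split_ifs with hbad
    · have := ntm_trivial M P d m G T N A hbd
      have h2 : 0 ≤ ε₁ * N := by positivity
      linarith
    · push Not at hbad
      obtain ⟨p, hp, hp0, hp1, hpm, hpA, hpA2⟩ := hbad
      have h1 := ntm_good M P d m G T N (hsup T hT1) hA0 hp hpm hpA hpA2 hT0 hlip hL hV'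
      have hlog : 0 ≤ Real.log p := Real.log_nonneg (by exact_mod_cast hp.one_lt.le)
      have hpw : 0 ≤ (p : ℝ) ^ (-(1 / 4) : ℝ) := by positivity
      have hAN : |(A : ℝ)| ≤ N := by
        have : |A| ≤ (N : ℤ) := abs_le.2 ⟨hA1, hA2⟩
        exact_mod_cast this
      rw [add_zero]
      refine h1.trans ?_
      calc 4 * V * (3 + Real.log p) * ((N : ℝ) + |(A : ℝ)|) * (p : ℝ) ^ (-(1 / 4) : ℝ)
          ≤ 4 * V * (3 + Real.log p) * ((N : ℝ) + N) * (p : ℝ) ^ (-(1 / 4) : ℝ) := by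
            gcongr
        _ = (8 * V * (3 + Real.log p) * (p : ℝ) ^ (-(1 / 4) : ℝ)) * N := by ring
        _ ≤ ε₁ * N := by
            refine mul_le_mul_of_nonneg_right (hP₀ p hp0) (by positivity)
  have hsum : ‖∑ A ∈ (Finset.Icc (-(N : ℤ)) N).filter (fun A => A ≠ 0),
      ee ((d : ℝ) * (A * P.1)) * ntmS M P d m G T N A‖ ≤
      (2 * (N : ℝ) + 1) * (ε₁ * N) + 2 * (ε₂ * N) * ((2 * (N : ℝ) + 1) * L) := by
    refine (norm_sum_le _ _).trans ?_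
    have h1 : ∀ A ∈ (Finset.Icc (-(N : ℤ)) N).filter (fun A => A ≠ 0),
        ‖ee ((d : ℝ) * (A * P.1)) * ntmS M P d m G T N A‖ ≤
          ε₁ * N + (if (∀ p : ℕ, p.Prime → P₀ ≤ p → p ≤ P₁ →
        ¬ (p : ℤ) ∣ m → p ∣ A.natAbs → p ^ 2 ∣ A.natAbs) then (2 * (N : ℝ) + 1) * L else 0) := by
      intro A hA
      rw [norm_mul, ntm_ee_norm, one_mul]
      exact hgood A hA
    refine (Finset.sum_le_sum h1).trans ?_
    rw [Finset.sum_add_distrib, Finset.sum_const, nsmul_eq_mul, ← Finset.sum_filter,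
      Finset.sum_const, nsmul_eq_mul, Finset.filter_filter]
    refine add_le_add ?_ ?_
    · refine mul_le_mul_of_nonneg_right ?_ (by positivity)
      have h2 : ((Finset.Icc (-(N : ℤ)) N).filter (fun A => A ≠ 0)).card ≤
          (Finset.Icc (-(N : ℤ)) N).card := Finset.card_filter_le _ _
      rw [Int.card_Icc] at h2
      have h3 : ((Finset.Icc (-(N : ℤ)) N).filter (fun A => A ≠ 0)).card ≤ 2 * N + 1 := by omega
      exact_mod_cast h3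
    · refine mul_le_mul_of_nonneg_right ?_ (mul_nonneg (by positivity) hL)
      have h2 := ntm_card N (fun A : ℕ => ∀ p : ℕ, p.Prime → P₀ ≤ p → p ≤ P₁ →
        ¬ (p : ℤ) ∣ m → p ∣ A → p ^ 2 ∣ A)
      refine h2.trans ?_
      exact mul_le_mul_of_nonneg_left hbadN (by norm_num)
  have hnT : ‖(1 / (T : ℂ) ^ 2)‖ = 1 / T ^ 2 := by
    rw [norm_div, norm_pow, Complex.norm_real, Real.norm_eq_abs, abs_of_pos hT0, norm_one]
  rw [hnT]
  have h3N : 2 * (N : ℝ) + 1 ≤ 3 * N := by linarith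
  have hNN : (N : ℝ) * N ≤ C₁ ^ 2 * T ^ 2 := by
    have := mul_le_mul hNT hNT (by positivity) (by positivity)
    nlinarith
  have hfin : (2 * (N : ℝ) + 1) * (ε₁ * N) + 2 * (ε₂ * N) * ((2 * (N : ℝ) + 1) * L) ≤
      (3 * ε₁ * C₁ ^ 2 + 6 * ε₂ * L * C₁ ^ 2) * T ^ 2 := by
    have a1 : (2 * (N : ℝ) + 1) * (ε₁ * N) ≤ 3 * ε₁ * (C₁ ^ 2 * T ^ 2) := by
      calc (2 * (N : ℝ) + 1) * (ε₁ * N) ≤ (3 * N) * (ε₁ * N) :=
            mul_le_mul_of_nonneg_right h3N (by positivity)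
        _ = 3 * ε₁ * ((N : ℝ) * N) := by ring
        _ ≤ _ := mul_le_mul_of_nonneg_left hNN (by positivity)
    have a2 : 2 * (ε₂ * N) * ((2 * (N : ℝ) + 1) * L) ≤ 6 * ε₂ * L * (C₁ ^ 2 * T ^ 2) := by
      calc 2 * (ε₂ * N) * ((2 * (N : ℝ) + 1) * L) ≤ 2 * (ε₂ * N) * ((3 * N) * L) := by
            gcongr
        _ = 6 * ε₂ * L * ((N : ℝ) * N) := by ring
        _ ≤ _ := mul_le_mul_of_nonneg_left hNN (by positivity)
    nlinarith
  have hb1 : 3 * ε₁ * C₁ ^ 2 ≤ ε / 4 := by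
    rw [hε₁]
    rw [div_div, ← sub_nonneg]
    have : ε / 4 - 3 * (ε / ((6 * C₁ ^ 2 + 1) * 2)) * C₁ ^ 2 = ε / (4 * (6 * C₁ ^ 2 + 1)) := by
      field_simp
      ring
    rw [this]
    positivity
  have hb2 : 6 * ε₂ * L * C₁ ^ 2 ≤ ε / 4 := by
    rw [hε₂]
    rw [div_div, ← sub_nonneg]
    have hne : (12 * C₁ ^ 2 * L + 1) ≠ 0 := by positivity
    have : ε / 4 - 6 * (ε / ((12 * C₁ ^ 2 * L + 1) * 2)) * L * C₁ ^ 2 =
        ε / (4 * (12 * C₁ ^ 2 * L + 1)) := by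
      field_simp
      ring
    rw [this]
    positivity
  calc 1 / T ^ 2 * ‖∑ A ∈ (Finset.Icc (-(N : ℤ)) N).filter (fun A => A ≠ 0),
      ee ((d : ℝ) * (A * P.1)) * ntmS M P d m G T N A‖
      ≤ 1 / T ^ 2 * ((3 * ε₁ * C₁ ^ 2 + 6 * ε₂ * L * C₁ ^ 2) * T ^ 2) :=
        mul_le_mul_of_nonneg_left (hsum.trans hfin) (by positivity)
    _ = 3 * ε₁ * C₁ ^ 2 + 6 * ε₂ * L * C₁ ^ 2 := by field_simp
    _ ≤ ε / 4 + ε / 4 := add_le_add hb1 hb2
    _ < ε := by linarith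

end Pool.Agent.ILL
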