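import Pool.Agent.ILL.Pol

/-!
# RCA. Real rectangles

If the four lines carrying the sides of the real rectangle at `Q` with sides `x, y > 0` avoid the
lattice, its holonomy is in the group generated by the rational rectangles.

PROOF. Only finitely many lattice points `z` have `v = mv h⁻¹ (ZP z - Q)` in
`[-x-1, 1] × [-y-1, 1]` (preimage of a compact set; the lattice is discrete: e.g. `ZP z` is in a bounded set,
so `|z.1|, |z.2| ≤ R`). Hence there is `0 < η < 1` such that no such `v` has `|v.1 + x| ≤ η` or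
`|v.2 + y| ≤ η`. Choose rationals `x', y' > 0` with `|x' - x| ≤ η`, `|y' - y| ≤ η`. `hol4_conj` with the
real rectangle and the rational rectangle at the same base point: the four quadrilaterals are
- hull of `(0,0), (-x,0), (-x',0)`: on the line `v.2 = 0`, no lattice point;
- hull of `(-x,0), (-x,-y), (-x',-y'), (-x',0)`: in `|v.1 + x| ≤ η` and in the box;
- hull of `(-x,-y), (0,-y), (0,-y'), (-x',-y')`: in `|v.2 + y| ≤ η` and in the box;
- hull of `(0,-y), (0,0), (0,-y')`: on the line `v.1 = 0`.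
(use `not_mem_hull_of_coord` and convexity of these sets). So the two holonomies are equal
(`tau_self`). `finite_lattice` is useful elsewhere.
-/

open MeasureTheory Set Filter Topology
open scoped ENNReal NNReal

namespace Pool.Agent.ILL

private theorem RcA_le {a b v1 v2 R : ℝ} (h1 : |v1| ≤ R) (h2 : |v2| ≤ R) :
    |a * v1 + b * v2| ≤ (|a| + |b|) * R := by
  calc |a * v1 + b * v2| ≤ |a * v1| + |b * v2| := abs_add_le _ _
    _ = |a| * |v1| + |b| * |v2| := by rw [abs_mul, abs_mul]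
    _ ≤ |a| * R + |b| * R := by
        gcongr
    _ = (|a| + |b|) * R := by ring

theorem finite_lattice (h : SLR) (Q : Pl) (R : ℝ) :
    {z : ℤ × ℤ | |(mv h⁻¹ (ZP z - Q)).1| ≤ R ∧ |(mv h⁻¹ (ZP z - Q)).2| ≤ R}.Finite := by
  obtain ⟨M, hM⟩ := exists_nat_ge (max (|Q.1| + (|h 0 0| + |h 0 1|) * R)
    (|Q.2| + (|h 1 0| + |h 1 1|) * R))
  apply ((Set.finite_Icc (-(M : ℤ)) (M : ℤ)).prod (Set.finite_Icc (-(M : ℤ)) (M : ℤ))).subset
  rintro z ⟨h1, h2⟩
  have h3 : ZP z - Q = mv h (mv h⁻¹ (ZP z - Q)) := (mv_mv_inv h _).symm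
  have h4 : ((z.1 : ℤ) : ℝ) - Q.1 = h 0 0 * (mv h⁻¹ (ZP z - Q)).1 + h 0 1 * (mv h⁻¹ (ZP z - Q)).2 :=
    congrArg Prod.fst h3
  have h5 : ((z.2 : ℤ) : ℝ) - Q.2 = h 1 0 * (mv h⁻¹ (ZP z - Q)).1 + h 1 1 * (mv h⁻¹ (ZP z - Q)).2 :=
    congrArg Prod.snd h3
  have h6 := RcA_le (a := h 0 0) (b := h 0 1) h1 h2
  have h7 := RcA_le (a := h 1 0) (b := h 1 1) h1 h2
  rw [← h4] at h6
  rw [← h5] at h7
  have h8 : |(z.1 : ℝ)| ≤ M := by
    have := abs_sub_abs_le_abs_sub (z.1 : ℝ) Q.1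
    have := le_max_left (|Q.1| + (|h 0 0| + |h 0 1|) * R) (|Q.2| + (|h 1 0| + |h 1 1|) * R)
    linarith
  have h9 : |(z.2 : ℝ)| ≤ M := by
    have := abs_sub_abs_le_abs_sub (z.2 : ℝ) Q.2
    have := le_max_right (|Q.1| + (|h 0 0| + |h 0 1|) * R) (|Q.2| + (|h 1 0| + |h 1 1|) * R)
    linarith
  have h10 : |z.1| ≤ (M : ℤ) := by exact_mod_cast h8
  have h11 : |z.2| ≤ (M : ℤ) := by exact_mod_cast h9
  exact Set.mem_prod.mpr ⟨Set.mem_Icc.mpr (abs_le.mp h10), Set.mem_Icc.mpr (abs_le.mp h11)⟩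

private theorem RcA_LF4 (h : SLR) (Q W1 W2 W3 W4 : Pl) (K : Set Pl) (hK : Convex ℝ K)
    (h1 : W1 ∈ K) (h2 : W2 ∈ K) (h3 : W3 ∈ K) (h4 : W4 ∈ K)
    (hz : ∀ z : ℤ × ℤ, mv h⁻¹ (ZP z - Q) ∉ K) :
    LF4 (Q + mv h W1) (Q + mv h W2) (Q + mv h W3) (Q + mv h W4) := by
  intro z hm
  apply hz z
  have h5 : ({Q + mv h W1, Q + mv h W2, Q + mv h W3, Q + mv h W4} : Set Pl) =
      (fun v => Q + mv h v) '' {W1, W2, W3, W4} := by
    rw [Set.image_insert_eq, Set.image_insert_eq, Set.image_insert_eq, Set.image_singleton]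
  rw [h5] at hm
  have h6 := not_mem_hull_of_coord h Q _ z hm
  apply convexHull_min _ hK h6
  rintro v (rfl | rfl | rfl | rfl) <;> assumption

theorem rect_real {H : Type*} [Group H] (a b : H) {h : SLR} {Q : Pl} {x y : ℝ}
    (hok : okp h Q x y) : Rect a b h Q x y ∈ RN a b h Q := by
  obtain ⟨hx, hy, hz⟩ := hok
  have hF := finite_lattice h Q (x + y + 2)
  have hev : ∀ᶠ η : ℝ in 𝓝[>] 0, ∀ z ∈ {z : ℤ × ℤ | |(mv h⁻¹ (ZP z - Q)).1| ≤ x + y + 2 ∧
      |(mv h⁻¹ (ZP z - Q)).2| ≤ x + y + 2}, η < |(mv h⁻¹ (ZP z - Q)).1 + x| ∧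
        η < |(mv h⁻¹ (ZP z - Q)).2 + y| := by
    rw [Filter.eventually_all_finite hF]
    intro z _
    have h1 : 0 < |(mv h⁻¹ (ZP z - Q)).1 + x| := by
      rw [abs_pos]
      intro h0
      exact (hz z).1 (by linarith)
    have h2 : 0 < |(mv h⁻¹ (ZP z - Q)).2 + y| := by
      rw [abs_pos]
      intro h0
      exact (hz z).2.1 (by linarith)
    have h3 : ∀ᶠ η : ℝ in 𝓝[>] 0, η < |(mv h⁻¹ (ZP z - Q)).1 + x| :=
      (nhdsWithin_le_nhds) (eventually_lt_nhds h1)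
    have h4 : ∀ᶠ η : ℝ in 𝓝[>] 0, η < |(mv h⁻¹ (ZP z - Q)).2 + y| :=
      (nhdsWithin_le_nhds) (eventually_lt_nhds h2)
    exact h3.and h4
  have hev1 : ∀ᶠ η : ℝ in 𝓝[>] 0, η < 1 := nhdsWithin_le_nhds (eventually_lt_nhds one_pos)
  have hev2 : ∀ᶠ η : ℝ in 𝓝[>] 0, 0 < η := eventually_mem_nhdsWithin
  obtain ⟨η, ⟨hη, hη1⟩, hη0⟩ := ((hev.and hev1).and hev2).exists
  obtain ⟨x', hx1, hx2⟩ := exists_rat_btwn (show x < x + η by linarith)
  obtain ⟨y', hy1, hy2⟩ := exists_rat_btwn (show y < y + η by linarith)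
  have e0 : Q + mv h (0, 0) = Q := by
    ext <;> simp [mv]
  have key : ∀ z : ℤ × ℤ, ∀ v : Pl, v = mv h⁻¹ (ZP z - Q) → -x - 1 ≤ v.1 → v.1 ≤ 1 → -y - 1 ≤ v.2 →
      v.2 ≤ 1 → η < |v.1 + x| ∧ η < |v.2 + y| := by
    intro z v hv h1 h2 h3 h4
    rw [hv] at h1 h2 h3 h4 ⊢
    apply hη z
    refine ⟨abs_le.mpr ⟨?_, ?_⟩, abs_le.mpr ⟨?_, ?_⟩⟩ <;> linarith
  have L1 : LF4 Q (Q + mv h (-x, 0)) (Q + mv h (-(x' : ℝ), 0)) Q := by
    have := RcA_LF4 h Q (0, 0) (-x, 0) (-(x' : ℝ), 0) (0, 0) (Icc (-x - 1) 1 ×ˢ Icc 0 0)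
      ((convex_Icc _ _).prod (convex_Icc _ _))
      (by constructor <;> constructor <;> simp <;> linarith)
      (by constructor <;> constructor <;> simp <;> linarith)
      (by constructor <;> constructor <;> simp <;> linarith)
      (by constructor <;> constructor <;> simp <;> linarith)
      (by
        rintro z ⟨_, h2⟩
        have h3 := Set.mem_Icc.mp h2
        exact (hz z).2.2.2 (le_antisymm h3.2 h3.1))
    rw [e0] at this
    exact this
  have L2 : LF4 (Q + mv h (-x, 0)) (Q + mv h (-x, -y)) (Q + mv h (-(x' : ℝ), -(y' : ℝ)))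
      (Q + mv h (-(x' : ℝ), 0)) := by
    apply RcA_LF4 h Q _ _ _ _ (Icc (-x - η) (-x + η) ×ˢ Icc (-y - 1) 1)
      ((convex_Icc _ _).prod (convex_Icc _ _))
      (by constructor <;> constructor <;> simp <;> linarith)
      (by constructor <;> constructor <;> simp <;> linarith)
      (by constructor <;> constructor <;> simp <;> linarith)
      (by constructor <;> constructor <;> simp <;> linarith)
    rintro z ⟨h1, h2⟩
    have h1 := Set.mem_Icc.mp h1
    have h2 := Set.mem_Icc.mp h2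
    have h3 := (key z _ rfl (by linarith [h1.1]) (by linarith [h1.2]) h2.1 h2.2).1
    have h4 : |(mv h⁻¹ (ZP z - Q)).1 + x| ≤ η := abs_le.mpr ⟨by linarith [h1.1], by linarith [h1.2]⟩
    linarith
  have L3 : LF4 (Q + mv h (-x, -y)) (Q + mv h (0, -y)) (Q + mv h (0, -(y' : ℝ)))
      (Q + mv h (-(x' : ℝ), -(y' : ℝ))) := by
    apply RcA_LF4 h Q _ _ _ _ (Icc (-x - 1) 1 ×ˢ Icc (-y - η) (-y + η))
      ((convex_Icc _ _).prod (convex_Icc _ _))
      (by constructor <;> constructor <;> simp <;> linarith)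
      (by constructor <;> constructor <;> simp <;> linarith)
      (by constructor <;> constructor <;> simp <;> linarith)
      (by constructor <;> constructor <;> simp <;> linarith)
    rintro z ⟨h1, h2⟩
    have h1 := Set.mem_Icc.mp h1
    have h2 := Set.mem_Icc.mp h2
    have h3 := (key z _ rfl h1.1 h1.2 (by linarith [h2.1]) (by linarith [h2.2])).2
    have h4 : |(mv h⁻¹ (ZP z - Q)).2 + y| ≤ η := abs_le.mpr ⟨by linarith [h2.1], by linarith [h2.2]⟩
    linarith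
  have L4 : LF4 (Q + mv h (0, -y)) Q Q (Q + mv h (0, -(y' : ℝ))) := by
    have := RcA_LF4 h Q (0, -y) (0, 0) (0, 0) (0, -(y' : ℝ)) (Icc 0 0 ×ˢ Icc (-y - 1) 1)
      ((convex_Icc _ _).prod (convex_Icc _ _))
      (by constructor <;> constructor <;> simp <;> linarith)
      (by constructor <;> constructor <;> simp <;> linarith)
      (by constructor <;> constructor <;> simp <;> linarith)
      (by constructor <;> constructor <;> simp <;> linarith)
      (by
        rintro z ⟨h2, _⟩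
        have h3 := Set.mem_Icc.mp h2
        exact (hz z).2.2.1 (le_antisymm h3.2 h3.1))
    rw [e0] at this
    exact this
  have h5 := hol4_conj a b L1 L2 L3 L4
  rw [tau_self, one_mul, inv_one, mul_one] at h5
  have h6 : Rect a b h Q x y = Rect a b h Q (x' : ℝ) (y' : ℝ) := h5.symm
  rw [h6]
  apply Subgroup.subset_closure
  refine ⟨x', y', ?_, ?_, rfl⟩
  · have : (0 : ℝ) < (x' : ℝ) := by linarith
    exact_mod_cast this
  · have : (0 : ℝ) < (y' : ℝ) := by linarith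
    exact_mod_cast this

end Pool.Agent.ILL
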