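import Pool.Agent.ILL.RcA

/-!
# RCB. The parallel field modulo the rectangles

For `okp` parameters put `Θ(x,y) = hvT x y * RN` (left coset). It is parallel along `f₂`-segments and
along `f₁`-segments.

* `rect_eq`: `Rect x y = (vhT x y)⁻¹ * hvT x y` (definition of `hol4` and `tau_inv`).
* `par_v`: `hvT x y' = tau (pt x y) (pt x y') * hvT x y` where `pt x y = Q + mv h (-x,-y)`: the points
  `(-x,0), (-x,-y), (-x,-y')` are on the line `v.1 = -x` which has no lattice point, so `tau_tri` applies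
  (the hull is contained in the line; `not_mem_hull_of_coord`).
* `par_h`: in the same way `vhT x' y = tau (pt x y) (pt x' y) * vhT x y`; then with `rect_eq`
  `(hvT x' y)⁻¹ * tau (pt x y) (pt x' y) * hvT x y = (Rect x' y)⁻¹ * Rect x y ∈ RN` by `rect_real`.
-/

open MeasureTheory Set Filter Topology
open scoped ENNReal NNReal

namespace Pool.Agent.ILL

private theorem RcB_LF3 (h : SLR) (Q W1 W2 W3 : Pl) (K : Set Pl) (hK : Convex ℝ K)
    (h1 : W1 ∈ K) (h2 : W2 ∈ K) (h3 : W3 ∈ K)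
    (hz : ∀ z : ℤ × ℤ, mv h⁻¹ (ZP z - Q) ∉ K) :
    LF3 (Q + mv h W1) (Q + mv h W2) (Q + mv h W3) := by
  intro z hm
  apply hz z
  have h5 : ({Q + mv h W1, Q + mv h W2, Q + mv h W3} : Set Pl) =
      (fun v => Q + mv h v) '' {W1, W2, W3} := by
    rw [Set.image_insert_eq, Set.image_insert_eq, Set.image_singleton]
  rw [h5] at hm
  have h6 := not_mem_hull_of_coord h Q _ z hm
  apply convexHull_min _ hK h6
  rintro v (rfl | rfl | rfl) <;> assumption

private theorem RcB_cv1 (c : ℝ) : Convex ℝ {v : Pl | v.1 = c} := by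
  intro v hv w hw s t _ _ hst
  have hv : v.1 = c := hv
  have hw : w.1 = c := hw
  show s * v.1 + t * w.1 = c
  rw [hv, hw, ← add_mul, hst, one_mul]

private theorem RcB_cv2 (c : ℝ) : Convex ℝ {v : Pl | v.2 = c} := by
  intro v hv w hw s t _ _ hst
  have hv : v.2 = c := hv
  have hw : w.2 = c := hw
  show s * v.2 + t * w.2 = c
  rw [hv, hw, ← add_mul, hst, one_mul]

section
variable {H : Type*} [Group H] (a b : H)

theorem rect_eq (h : SLR) (Q : Pl) (x y : ℝ) :
    Rect a b h Q x y = (vhT a b h Q x y)⁻¹ * hvT a b h Q x y := by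
  rw [Rect, hol4, vhT, hvT, mul_inv_rev, tau_inv a b Q (Q + mv h (0, -y)),
    tau_inv a b (Q + mv h (0, -y)) (Q + mv h (-x, -y))]
  simp only [mul_assoc]

theorem par_v {h : SLR} {Q : Pl} {x y y' : ℝ} (h1 : okp h Q x y) (h2 : okp h Q x y') :
    hvT a b h Q x y' =
      tau a b (Q + mv h (-x, -y)) (Q + mv h (-x, -y')) * hvT a b h Q x y := by
  have h3 : LF3 (Q + mv h (-x, 0)) (Q + mv h (-x, -y)) (Q + mv h (-x, -y')) :=
    RcB_LF3 h Q _ _ _ {v | v.1 = -x} (RcB_cv1 _) rfl rfl rfl fun z hz => (h1.2.2 z).1 hz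
  rw [hvT, hvT, ← tau_tri a b h3, mul_assoc]

theorem par_h {h : SLR} {Q : Pl} {x x' y : ℝ} (h1 : okp h Q x y) (h2 : okp h Q x' y) :
    (hvT a b h Q x' y)⁻¹ * tau a b (Q + mv h (-x, -y)) (Q + mv h (-x', -y)) * hvT a b h Q x y
      ∈ RN a b h Q := by
  have h3 : LF3 (Q + mv h (0, -y)) (Q + mv h (-x, -y)) (Q + mv h (-x', -y)) :=
    RcB_LF3 h Q _ _ _ {v | v.2 = -y} (RcB_cv2 _) rfl rfl rfl fun z hz => (h1.2.2 z).2.1 hz
  have h4 : vhT a b h Q x' y =
      tau a b (Q + mv h (-x, -y)) (Q + mv h (-x', -y)) * vhT a b h Q x y := by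
    rw [vhT, vhT, ← tau_tri a b h3, mul_assoc]
  have h5 : (hvT a b h Q x' y)⁻¹ * tau a b (Q + mv h (-x, -y)) (Q + mv h (-x', -y)) *
      hvT a b h Q x y = (Rect a b h Q x' y)⁻¹ * Rect a b h Q x y := by
    rw [rect_eq, rect_eq, h4]
    group
  rw [h5]
  exact Subgroup.mul_mem _ (Subgroup.inv_mem _ (rect_real a b h2)) (rect_real a b h1)

end

end Pool.Agent.ILL
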