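import Pool.Agent.ILL.RcB

/-!
# RCC. The staircase

`Q` generic, `w` a lattice vector with `mv h⁻¹ (ZP w) = (-x,-y)`, `e = (1,0)` or `(0,1)` with
`mv h⁻¹ (ZP e) = (α,β)`, and `x, y > |α| + |β|`. Then modulo `RN` the field `Θ` at `Q + w + e` is `c Θ` at
`Q + w`, where `c = a` for `e = (1,0)` and `c = b` for `e = (0,1)`:
`(hvT (x-α) (y-β))⁻¹ * c * hvT x y ∈ RN`.

PROOF. `A_i = Q + w + (i/n) e`, `i = 0..n`, with parameters `(x - iα/n, y - iβ/n)` and
`C_i = A_i + (α/n) f₁` with parameters `(x - (i+1)α/n, y - iβ/n)`; `A_{i+1} = C_i + (β/n) f₂`. All these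
parameters are positive and `okp`: the line `v.1 = -(x - iα/n)` (in the coordinates
`v = mv h⁻¹ (ZP z - Q)`) contains a lattice point `z` iff `(mv h⁻¹ (ZP (z - w) - Q - (i/n) e)).1 = 0`,
excluded by `GenQ` (`i/n` rational; `line1_e`); the same for `v.2` (`line2_e`); `v.1 ≠ 0`, `v.2 ≠ 0` are in
`GenQ` (`r = 0`).
By `par_h` and `par_v`:
`(hvT(A_{i+1}))⁻¹ * tau C_i A_{i+1} * tau A_i C_i * hvT(A_i) ∈ RN`.
The segment `[Q+w, Q+w+e]` contains no lattice point (`Q.1, Q.2 ∉ ℤ`), so it has a positive distance to the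
lattice and for `n` large the triangles `A_i, C_i, A_{i+1}` contain no lattice point: `tau_tri` gives
`tau C_i A_{i+1} * tau A_i C_i = tau A_i A_{i+1}`. By additivity on the segment (`tau_seg`) the product
of the `tau A_i A_{i+1}` is `tau (Q+w) (Q+w+e)`, which is `a` for `e = (1,0)` (`tau_rowy`) and `b` for
`e = (0,1)` (`tau_colx`). Induction on `i`: `(hvT(A_i))⁻¹ * tau A_0 A_i * hvT(A_0) ∈ RN`.
-/

open MeasureTheory Set Filter Topology
open scoped ENNReal NNReal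

namespace Pool.Agent.ILL

private theorem RcC_sub (h : SLR) (v w : Pl) : mv h (v - w) = mv h v - mv h w := by
  ext <;> simp [mv] <;> ring

private theorem RcC_smul (h : SLR) (r : ℝ) (v : Pl) : mv h (r • v) = r • mv h v := by
  ext <;> simp [mv] <;> ring

private theorem RcC_ZP (z w : ℤ × ℤ) : ZP (z - w) = ZP z - ZP w := by
  ext <;> simp [ZP]

section
variable {h : SLR} {Q : Pl}

/-- the lines through the points `Q + w + r e` avoid the lattice -/
theorem line1_e (hg : GenQ h Q) (w e : ℤ × ℤ) (he : e = (1, 0) ∨ e = (0, 1)) (r : ℚ)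
    (z : ℤ × ℤ) : (mv h⁻¹ (ZP z - Q)).1 ≠ (mv h⁻¹ (ZP w + (r : ℝ) • ZP e)).1 := by
  intro heq
  have h1 := hg.2 (z - w) r
  have h2 : (mv h⁻¹ (ZP (z - w) - Q - (r : ℝ) • ZP e)).1 = 0 := by
    have h3 : ZP (z - w) - Q - (r : ℝ) • ZP e = (ZP z - Q) - (ZP w + (r : ℝ) • ZP e) := by
      rw [RcC_ZP]
      abel
    rw [h3, RcC_sub, Prod.fst_sub, heq, sub_self]
  rcases he with rfl | rfl
  · apply h1.2.2.1
    convert h2 using 4
    ext <;> simp [ZP]
  · apply h1.2.2.2.2.1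
    convert h2 using 4
    ext <;> simp [ZP]

theorem line2_e (hg : GenQ h Q) (w e : ℤ × ℤ) (he : e = (1, 0) ∨ e = (0, 1)) (r : ℚ)
    (z : ℤ × ℤ) : (mv h⁻¹ (ZP z - Q)).2 ≠ (mv h⁻¹ (ZP w + (r : ℝ) • ZP e)).2 := by
  intro heq
  have h1 := hg.2 (z - w) r
  have h2 : (mv h⁻¹ (ZP (z - w) - Q - (r : ℝ) • ZP e)).2 = 0 := by
    have h3 : ZP (z - w) - Q - (r : ℝ) • ZP e = (ZP z - Q) - (ZP w + (r : ℝ) • ZP e) := by
      rw [RcC_ZP]
      abel
    rw [h3, RcC_sub, Prod.snd_sub, heq, sub_self]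
  rcases he with rfl | rfl
  · apply h1.2.2.2.1
    convert h2 using 4
    ext <;> simp [ZP]
  · apply h1.2.2.2.2.2
    convert h2 using 4
    ext <;> simp [ZP]

/-- the lines through the points `Q + w + X f₁ + Y f₂`, `X`, `Y` rational, avoid the lattice -/
theorem line1_X (hg : GenQ h Q) (w : ℤ × ℤ) (X : ℚ) (z : ℤ × ℤ) :
    (mv h⁻¹ (ZP z - Q)).1 ≠ (mv h⁻¹ (ZP w)).1 + X := by
  intro heq
  apply (hg.2 (z - w) X).1
  have h3 : ZP (z - w) - Q = (ZP z - Q) - ZP w := by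
    rw [RcC_ZP]
    abel
  rw [h3, RcC_sub, Prod.fst_sub, heq]
  ring

theorem line2_X (hg : GenQ h Q) (w : ℤ × ℤ) (X : ℚ) (z : ℤ × ℤ) :
    (mv h⁻¹ (ZP z - Q)).2 ≠ (mv h⁻¹ (ZP w)).2 + X := by
  intro heq
  apply (hg.2 (z - w) X).2.1
  have h3 : ZP (z - w) - Q = (ZP z - Q) - ZP w := by
    rw [RcC_ZP]
    abel
  rw [h3, RcC_sub, Prod.snd_sub, heq]
  ring

end

private theorem RcC_abs {i n : ℕ} (hn : 0 < n) (hi : i ≤ n) (α : ℝ) :
    |(i : ℝ) / n * α| ≤ |α| := by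
  have h1 : (0 : ℝ) < n := by exact_mod_cast hn
  have h2 : (i : ℝ) ≤ n := by exact_mod_cast hi
  have h3 : (0 : ℝ) ≤ i := Nat.cast_nonneg _
  rw [abs_mul, abs_of_nonneg (div_nonneg h3 h1.le)]
  have h4 : (i : ℝ) / n ≤ 1 := (div_le_one h1).mpr h2
  have := abs_nonneg α
  nlinarith

private theorem RcC_okp {h : SLR} {Q : Pl} (hg : GenQ h Q) (w e : ℤ × ℤ)
    (he : e = (1, 0) ∨ e = (0, 1)) {x y α β : ℝ}
    (hw : mv h⁻¹ (ZP w) = (-x, -y)) (hα : mv h⁻¹ (ZP e) = (α, β))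
    (hx : |α| + |β| < x) (hy : |α| + |β| < y) {n : ℕ} (hn : 0 < n) (i j : ℕ) (hi : i ≤ n)
    (hj : j ≤ n) : okp h Q (x - (i : ℝ) / n * α) (y - (j : ℝ) / n * β) := by
  have hr : ∀ k : ℕ, (((k : ℚ) / (n : ℚ) : ℚ) : ℝ) = (k : ℝ) / n := by
    intro k
    push_cast
    rfl
  refine ⟨?_, ?_, fun z => ⟨?_, ?_, ?_, ?_⟩⟩
  · have h1 := le_abs_self ((i : ℝ) / n * α)
    have h2 := RcC_abs hn hi α
    have h3 := abs_nonneg β
    linarith
  · have h1 := le_abs_self ((j : ℝ) / n * β)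
    have h2 := RcC_abs hn hj β
    have h3 := abs_nonneg α
    linarith
  · have h1 := line1_e hg w e he ((i : ℚ) / (n : ℚ)) z
    rw [mv_add, RcC_smul, hw, hα, hr] at h1
    intro h2
    apply h1
    rw [h2]
    simp
    ring
  · have h1 := line2_e hg w e he ((j : ℚ) / (n : ℚ)) z
    rw [mv_add, RcC_smul, hw, hα, hr] at h1
    intro h2
    apply h1
    rw [h2]
    simp
    ring
  · have h1 := (hg.2 z 0).1
    simpa using h1
  · have h1 := (hg.2 z 0).2.1
    simpa using h1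

private theorem RcC_core {H : Type*} [Group H] (a b : H) {h : SLR} {Q : Pl} (hg : GenQ h Q)
    (w e : ℤ × ℤ) (he : e = (1, 0) ∨ e = (0, 1)) {x y α β : ℝ}
    (hw : mv h⁻¹ (ZP w) = (-x, -y)) (hα : mv h⁻¹ (ZP e) = (α, β))
    (hx : |α| + |β| < x) (hy : |α| + |β| < y) {n : ℕ} (hn : 0 < n)
    (h1 : ∀ i : ℕ, LF3 (Q + mv h (-(x - (i : ℝ) / n * α), -(y - (i : ℝ) / n * β)))
      (Q + mv h (-(x - ((i + 1 : ℕ) : ℝ) / n * α), -(y - (i : ℝ) / n * β)))
      (Q + mv h (-(x - ((i + 1 : ℕ) : ℝ) / n * α), -(y - ((i + 1 : ℕ) : ℝ) / n * β))))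
    (h2 : ∀ i : ℕ, LF3 (Q + mv h (-(x - ((0 : ℕ) : ℝ) / n * α), -(y - ((0 : ℕ) : ℝ) / n * β)))
      (Q + mv h (-(x - (i : ℝ) / n * α), -(y - (i : ℝ) / n * β)))
      (Q + mv h (-(x - ((i + 1 : ℕ) : ℝ) / n * α), -(y - ((i + 1 : ℕ) : ℝ) / n * β)))) :
    ∀ i : ℕ, i ≤ n → (hvT a b h Q (x - (i : ℝ) / n * α) (y - (i : ℝ) / n * β))⁻¹ *
      tau a b (Q + mv h (-(x - ((0 : ℕ) : ℝ) / n * α), -(y - ((0 : ℕ) : ℝ) / n * β)))
        (Q + mv h (-(x - (i : ℝ) / n * α), -(y - (i : ℝ) / n * β))) *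
      hvT a b h Q (x - ((0 : ℕ) : ℝ) / n * α) (y - ((0 : ℕ) : ℝ) / n * β) ∈ RN a b h Q := by
  intro i
  induction i with
  | zero =>
    intro _
    rw [tau_self, mul_one, inv_mul_cancel]
    exact Subgroup.one_mem _
  | succ i ih =>
    intro hi
    have h3 := ih (by omega)
    have hO := RcC_okp hg w e he hw hα hx hy hn
    have h4 := par_h a b (hO i i (by omega) (by omega)) (hO (i + 1) i hi (by omega))
    have h5 := par_v a b (hO (i + 1) i hi (by omega)) (hO (i + 1) (i + 1) hi hi)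
    have h6 := tau_tri a b (h1 i)
    have h7 := tau_tri a b (h2 i)
    rw [← h7, ← h6, h5]
    have h8 := Subgroup.mul_mem _ h4 h3
    convert h8 using 1
    group

private theorem RcC_delta {c : ℝ} (hc : ∀ n : ℤ, c ≠ n) : ∃ δ > 0, ∀ m : ℤ, δ < |(m : ℝ) - c| := by
  have h1 : (⌊c⌋ : ℝ) < c := lt_of_le_of_ne (Int.floor_le c) (fun h => hc _ h.symm)
  have h2 : c < ⌊c⌋ + 1 := Int.lt_floor_add_one c
  refine ⟨min (c - ⌊c⌋) (⌊c⌋ + 1 - c) / 2, by
    have : 0 < min (c - ⌊c⌋) (⌊c⌋ + 1 - c) := lt_min (by linarith) (by linarith)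
    linarith, fun m => ?_⟩
  have h5 : 0 < min (c - ⌊c⌋) (⌊c⌋ + 1 - c) := lt_min (by linarith) (by linarith)
  have h6 := min_le_left (c - ⌊c⌋) (⌊c⌋ + 1 - c)
  have h7 := min_le_right (c - ⌊c⌋) (⌊c⌋ + 1 - c)
  rcases le_or_gt m ⌊c⌋ with h3 | h3
  · have h4 : (m : ℝ) ≤ ⌊c⌋ := by exact_mod_cast h3
    have h8 := neg_abs_le ((m : ℝ) - c)
    linarith
  · have h4 : (⌊c⌋ : ℝ) + 1 ≤ m := by exact_mod_cast h3
    have h8 := le_abs_self ((m : ℝ) - c)
    linarith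

private theorem RcC_LF3a {A B C : Pl} {c δ : ℝ} (hδ : ∀ m : ℤ, δ < |(m : ℝ) - c|)
    (h1 : |A.1 - c| ≤ δ) (h2 : |B.1 - c| ≤ δ) (h3 : |C.1 - c| ≤ δ) : LF3 A B C := by
  intro z hz
  have hK : Convex ℝ {v : Pl | |v.1 - c| ≤ δ} := by
    have : {v : Pl | |v.1 - c| ≤ δ} = Icc (c - δ) (c + δ) ×ˢ (univ : Set ℝ) := by
      ext v
      simp only [mem_ofPred_eq, mem_prod, mem_Icc, mem_univ, and_true, abs_le]
      constructor
      · rintro ⟨h, h'⟩; constructor <;> linarith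
      · rintro ⟨h, h'⟩; constructor <;> linarith
    rw [this]
    exact (convex_Icc _ _).prod convex_univ
  have h4 := convexHull_min (s := {A, B, C}) (t := {v : Pl | |v.1 - c| ≤ δ}) (by
    rintro v (rfl | rfl | rfl) <;> assumption) hK hz
  have h5 := hδ z.1
  have h6 : |(z.1 : ℝ) - c| ≤ δ := h4
  linarith

private theorem RcC_LF3b {A B C : Pl} {c δ : ℝ} (hδ : ∀ m : ℤ, δ < |(m : ℝ) - c|)
    (h1 : |A.2 - c| ≤ δ) (h2 : |B.2 - c| ≤ δ) (h3 : |C.2 - c| ≤ δ) : LF3 A B C := by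
  intro z hz
  have hK : Convex ℝ {v : Pl | |v.2 - c| ≤ δ} := by
    have : {v : Pl | |v.2 - c| ≤ δ} = (univ : Set ℝ) ×ˢ Icc (c - δ) (c + δ) := by
      ext v
      simp only [mem_ofPred_eq, mem_prod, mem_Icc, mem_univ, true_and, abs_le]
      constructor
      · rintro ⟨h, h'⟩; constructor <;> linarith
      · rintro ⟨h, h'⟩; constructor <;> linarith
    rw [this]
    exact convex_univ.prod (convex_Icc _ _)
  have h4 := convexHull_min (s := {A, B, C}) (t := {v : Pl | |v.2 - c| ≤ δ}) (by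
    rintro v (rfl | rfl | rfl) <;> assumption) hK hz
  have h5 := hδ z.2
  have h6 : |(z.2 : ℝ) - c| ≤ δ := h4
  linarith

theorem stair {H : Type*} [Group H] (a b : H) {h : SLR} {Q : Pl} (hg : GenQ h Q) (w e : ℤ × ℤ)
    (c : H) (he : (e = (1, 0) ∧ c = a) ∨ (e = (0, 1) ∧ c = b)) {x y α β : ℝ}
    (hw : mv h⁻¹ (ZP w) = (-x, -y)) (hα : mv h⁻¹ (ZP e) = (α, β))
    (hx : |α| + |β| < x) (hy : |α| + |β| < y) :
    (hvT a b h Q (x - α) (y - β))⁻¹ * c * hvT a b h Q x y ∈ RN a b h Q := by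
  have hw' : mv h (-x, -y) = ZP w := by rw [← hw, mv_mv_inv]
  have hα' : mv h (α, β) = ZP e := by rw [← hα, mv_mv_inv]
  have hA : ∀ r : ℝ, Q + mv h (-(x - r * α), -(y - r * β)) = Q + ZP w + r • ZP e := by
    intro r
    have : ((-(x - r * α), -(y - r * β)) : Pl) = (-x, -y) + r • (α, β) := by
      ext <;> simp <;> ring
    rw [this, mv_add, RcC_smul, hw', hα']
    abel
  have hC : ∀ r s : ℝ, Q + mv h (-(x - s * α), -(y - r * β)) =
      Q + ZP w + r • ZP e + mv h ((s - r) * α, 0) := by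
    intro r s
    have : ((-(x - s * α), -(y - r * β)) : Pl) = (-x, -y) + r • (α, β) + ((s - r) * α, 0) := by
      ext <;> simp <;> ring
    rw [this, mv_add, mv_add, RcC_smul, hw', hα']
    abel
  have he' : e = (1, 0) ∨ e = (0, 1) := he.imp And.left And.left
  rcases he with ⟨rfl, rfl⟩ | ⟨rfl, rfl⟩
  · obtain ⟨δ, hδ0, hδ⟩ := RcC_delta (c := Q.2 + w.2) (by
      intro n h1
      exact (hg.1 (n - w.2)).2 (by push_cast; linarith))
    obtain ⟨n, hn⟩ := exists_nat_gt (|α * h 1 0| / δ)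
    have hn0 : 0 < n := by
      have : (0 : ℝ) < n := lt_of_le_of_lt (by positivity) hn
      exact_mod_cast this
    have hn1 : (0 : ℝ) < n := by exact_mod_cast hn0
    have hA2 : ∀ r : ℝ, (Q + ZP w + r • ZP (1, 0)).2 = Q.2 + w.2 := by
      intro r
      simp [ZP]
    have hδ' : |α * h 1 0| / n ≤ δ := by
      rw [div_lt_iff₀ hδ0] at hn
      rw [div_le_iff₀ hn1]
      nlinarith
    have h0 : |(0 : ℝ)| ≤ δ := by rw [abs_zero]; exact hδ0.le
    have h1 := RcC_core c b hg w (1, 0) he' hw hα hx hy hn0 (by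
      intro i
      apply RcC_LF3b hδ
      · rw [hA, hA2, sub_self]; exact h0
      · rw [hC, Prod.snd_add, hA2]
        have : (mv h (((((i + 1 : ℕ) : ℝ) / n) - (i : ℝ) / n) * α, 0)).2 = α * h 1 0 / n := by
          simp [mv]
          field_simp
          ring
        rw [this, add_sub_cancel_left, abs_div, abs_of_pos hn1]
        exact hδ'
      · rw [hA, hA2, sub_self]; exact h0) (by
      intro i
      apply RcC_LF3b hδ
      · rw [hA, hA2, sub_self]; exact h0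
      · rw [hA, hA2, sub_self]; exact h0
      · rw [hA, hA2, sub_self]; exact h0) n le_rfl
    rw [hA, hA, Nat.cast_zero, zero_div, zero_mul, zero_mul, sub_zero, sub_zero, div_self hn1.ne',
      one_mul, one_mul, zero_smul, add_zero, one_smul] at h1
    have h2 : tau c b (Q + ZP w) (Q + ZP w + ZP (1, 0)) = c := by
      rw [tau_rowy]
      · have h3 : (Q + ZP w + ZP (1, 0)).1 = (Q + ZP w).1 + 1 := by simp [ZP]
        rw [h3, Int.floor_add_one, add_sub_cancel_left, zpow_one]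
      · have h3 : (Q + ZP w + ZP (1, 0)).2 = (Q + ZP w).2 := by simp [ZP]
        rw [h3]
    rw [h2] at h1
    exact h1
  · obtain ⟨δ, hδ0, hδ⟩ := RcC_delta (c := Q.1 + w.1) (by
      intro n h1
      exact (hg.1 (n - w.1)).1 (by push_cast; linarith))
    obtain ⟨n, hn⟩ := exists_nat_gt (|α * h 0 0| / δ)
    have hn0 : 0 < n := by
      have : (0 : ℝ) < n := lt_of_le_of_lt (by positivity) hn
      exact_mod_cast this
    have hn1 : (0 : ℝ) < n := by exact_mod_cast hn0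
    have hA2 : ∀ r : ℝ, (Q + ZP w + r • ZP (0, 1)).1 = Q.1 + w.1 := by
      intro r
      simp [ZP]
    have hδ' : |α * h 0 0| / n ≤ δ := by
      rw [div_lt_iff₀ hδ0] at hn
      rw [div_le_iff₀ hn1]
      nlinarith
    have h0 : |(0 : ℝ)| ≤ δ := by rw [abs_zero]; exact hδ0.le
    have h1 := RcC_core a c hg w (0, 1) he' hw hα hx hy hn0 (by
      intro i
      apply RcC_LF3a hδ
      · rw [hA, hA2, sub_self]; exact h0
      · rw [hC, Prod.fst_add, hA2]
        have : (mv h (((((i + 1 : ℕ) : ℝ) / n) - (i : ℝ) / n) * α, 0)).1 = α * h 0 0 / n := by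
          simp [mv]
          field_simp
          ring
        rw [this, add_sub_cancel_left, abs_div, abs_of_pos hn1]
        exact hδ'
      · rw [hA, hA2, sub_self]; exact h0) (by
      intro i
      apply RcC_LF3a hδ
      · rw [hA, hA2, sub_self]; exact h0
      · rw [hA, hA2, sub_self]; exact h0
      · rw [hA, hA2, sub_self]; exact h0) n le_rfl
    rw [hA, hA, Nat.cast_zero, zero_div, zero_mul, zero_mul, sub_zero, sub_zero, div_self hn1.ne',
      one_mul, one_mul, zero_smul, add_zero, one_smul] at h1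
    have h2 : tau a c (Q + ZP w) (Q + ZP w + ZP (0, 1)) = c := by
      rw [tau_colx]
      · have h3 : (Q + ZP w + ZP (0, 1)).2 = (Q + ZP w).2 + 1 := by simp [ZP]
        rw [h3, Int.floor_add_one, add_sub_cancel_left, zpow_one]
      · have h3 : (Q + ZP w + ZP (0, 1)).1 = (Q + ZP w).1 := by simp [ZP]
        rw [h3]
    rw [h2] at h1
    exact h1

end Pool.Agent.ILL
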