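import Pool.Agent.ILL.RcC
import Pool.Agent.ILL.Mod

/-!
# RCD. The rectangles generate the commutator subgroup

PROOF. Let `N = RN a b h Q`, `W` the set of lattice vectors `w` with both coordinates of
`mv h⁻¹ (ZP w)` negative, and for `w ∈ W` with `mv h⁻¹ (ZP w) = (-x,-y)` put `x_w = hvT x y`. The parameters
are `okp` (`line1_X`, `line2_X` with `X = 0`).
(1) `x_{w+w'} ∈ x_{w'} x_w N` for `w, w' ∈ W`: with `(x,y)` for `w` and `(x',y')` for `w'`, use `par_h`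
from `(x,y)` to `(x+x',y)` and `par_v` from `(x+x',y)` to `(x+x',y+y')`: the two transports are
`tau (Q+w) (Q+w-x'f₁) = tau Q (Q-x'f₁)` and `tau (Q+w-x'f₁) (Q+w-x'f₁-y'f₂) = tau (Q-x'f₁) (Q-x'f₁-y'f₂)`
(`tau_add_int`), whose product is `x_{w'}`. (`okp` for `(x+x', y)`: the line
`v.1 = -(x+x')` passes through `Q+w+w'`, the line `v.2 = -y` through `Q+w`: `line1_X`, `line2_X`.) By symmetry also
`x_{w+w'} ∈ x_w x_{w'} N`.
(2) `x_w⁻¹ n x_w ∈ N` for `n = Rect X Y`, `X, Y` rational: the rectangle loop at `Q+w` has sides along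
`f₁`, `f₂` with `okp` corners `(x,y), (x+X,y), (x+X,y+Y), (x,y+Y)` (the lines `v.1 = -(x+X)`: lattice
point `z` on it iff `(mv h⁻¹ (ZP (z-w) - Q)).1 = -X` rational, excluded by `GenQ`). By `par_h`, `par_v` the
transport around the loop, which is `n` by `tau_add_int`, satisfies `x_w⁻¹ n x_w ∈ N`.
So `x_w⁻¹ N x_w ⊆ N`; as the group is finite, equality holds.
(3) By `stair`: there is `w ∈ W` with `w + (1,0)`, `w + (0,1) ∈ W` deep enough (take the integer part of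
`h (-R,-R)` with `R` large), and `a ∈ x_{w+(1,0)} N x_w⁻¹`, `b ∈ x_{w+(0,1)} N x_w⁻¹`.
(4) Group theory: let `M` be the normaliser of `N` (it contains `N` and all `x_w`). In `M/N` the images of
the `x_w` commute with each other by (1), and `a`, `b` are in `M` with images `x_{w+e} x_w⁻¹`; so the images
of `a`, `b` commute and `⁅⟨a,b⟩,⟨a,b⟩⁆ ≤ N` (the image of `⟨a,b⟩` in `M/N` is commutative).
-/

open MeasureTheory Set Filter Topology
open scoped ENNReal NNReal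

namespace Pool.Agent.ILL

private theorem RcD_okp {h : SLR} {Q : Pl} (hg : GenQ h Q) {w w' : ℤ × ℤ} {x y x' y' : ℝ}
    (hw : mv h⁻¹ (ZP w) = (-x, -y)) (hw' : mv h⁻¹ (ZP w') = (-x', -y')) (X Y : ℚ)
    (hX : 0 < x + X) (hY : 0 < y' + Y) : okp h Q (x + X) (y' + Y) := by
  refine ⟨hX, hY, fun z => ⟨?_, ?_, ?_, ?_⟩⟩
  · have h1 := line1_X hg w (-X) z
    rw [hw] at h1
    intro h2
    apply h1
    rw [h2]
    push_cast
    ring
  · have h1 := line2_X hg w' (-Y) z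
    rw [hw'] at h1
    intro h2
    apply h1
    rw [h2]
    push_cast
    ring
  · have h1 := (hg.2 z 0).1
    simpa using h1
  · have h1 := (hg.2 z 0).2.1
    simpa using h1

private theorem RcD_okp0 {h : SLR} {Q : Pl} (hg : GenQ h Q) {w w' : ℤ × ℤ} {x y x' y' : ℝ}
    (hw : mv h⁻¹ (ZP w) = (-x, -y)) (hw' : mv h⁻¹ (ZP w') = (-x', -y'))
    (hX : 0 < x) (hY : 0 < y') : okp h Q x y' := by
  have h1 := RcD_okp hg hw hw' 0 0 (by simpa using hX) (by simpa using hY)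
  simpa using h1

section
variable {H : Type*} [Group H] (a b : H) {h : SLR} {Q : Pl}

private theorem RcD_add (hg : GenQ h Q) {w w' : ℤ × ℤ} {x y x' y' : ℝ}
    (hw : mv h⁻¹ (ZP w) = (-x, -y)) (hw' : mv h⁻¹ (ZP w') = (-x', -y'))
    (hx : 0 < x) (hy : 0 < y) (hx' : 0 < x') (hy' : 0 < y') :
    (hvT a b h Q (x + x') (y + y'))⁻¹ * (hvT a b h Q x' y' * hvT a b h Q x y) ∈ RN a b h Q := by
  have hww : mv h⁻¹ (ZP (w + w')) = (-(x + x'), -(y + y')) := by
    have : ZP (w + w') = ZP w + ZP w' := by ext <;> simp [ZP]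
    rw [this, mv_add, hw, hw']
    ext <;> simp <;> ring
  have o1 := RcD_okp0 hg hw hw hx hy
  have o2 := RcD_okp0 hg hww hw (by linarith) hy
  have o3 := RcD_okp0 hg hww hww (by linarith : 0 < x + x') (by linarith : 0 < y + y')
  have h1 := par_h a b o1 o2
  have h2 := par_v a b o2 o3
  have hZ : mv h (-x, -y) = ZP w := by rw [← hw, mv_mv_inv]
  have e1 : Q + mv h (-x, -y) = Q + ZP w := by rw [hZ]
  have e2 : Q + mv h (-(x + x'), -y) = Q + mv h (-x', 0) + ZP w := by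
    have : ((-(x + x'), -y) : Pl) = (-x', 0) + (-x, -y) := by ext <;> simp
    rw [this, mv_add, hZ, add_assoc]
  have e3 : Q + mv h (-(x + x'), -(y + y')) = Q + mv h (-x', -y') + ZP w := by
    have : ((-(x + x'), -(y + y')) : Pl) = (-x', -y') + (-x, -y) := by ext <;> simp
    rw [this, mv_add, hZ, add_assoc]
  rw [e1, e2, tau_add_int] at h1
  rw [e2, e3, tau_add_int] at h2
  have h3 : (hvT a b h Q (x + x') (y + y'))⁻¹ * (hvT a b h Q x' y' * hvT a b h Q x y) =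
      (hvT a b h Q (x + x') y)⁻¹ * tau a b Q (Q + mv h (-x', 0)) * hvT a b h Q x y := by
    rw [h2]
    nth_rewrite 2 [hvT]
    group
  rw [h3]
  exact h1

private theorem RcD_conj (hg : GenQ h Q) {w : ℤ × ℤ} {x y : ℝ}
    (hw : mv h⁻¹ (ZP w) = (-x, -y)) (hx : 0 < x) (hy : 0 < y) {n : H} (hn : n ∈ RN a b h Q) :
    (hvT a b h Q x y)⁻¹ * n * hvT a b h Q x y ∈ RN a b h Q := by
  have hZ : mv h (-x, -y) = ZP w := by rw [← hw, mv_mv_inv]
  induction hn using Subgroup.closure_induction with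
  | mem g hgm =>
    obtain ⟨X, Y, hX, hY, rfl⟩ := hgm
    have hX' : (0 : ℝ) < X := by exact_mod_cast hX
    have hY' : (0 : ℝ) < Y := by exact_mod_cast hY
    have o1 := RcD_okp0 hg hw hw hx hy
    have o2 : okp h Q (x + X) y := by
      have := RcD_okp hg hw hw X 0 (by linarith) (by simpa using hy)
      simpa using this
    have o3 : okp h Q (x + X) (y + Y) := RcD_okp hg hw hw X Y (by linarith) (by linarith)
    have o4 : okp h Q x (y + Y) := by
      have := RcD_okp hg hw hw 0 Y (by simpa using hx) (by linarith)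
      simpa using this
    have p1 := par_h a b o1 o2
    have p2 := par_v a b o2 o3
    have p3 := par_h a b o3 o4
    have p4 := par_v a b o4 o1
    have e1 : Q + mv h (-x, -y) = Q + ZP w := by rw [hZ]
    have e2 : Q + mv h (-(x + X), -y) = Q + mv h (-X, 0) + ZP w := by
      have : ((-(x + X), -y) : Pl) = (-(X : ℝ), 0) + (-x, -y) := by ext <;> simp
      rw [this, mv_add, hZ, add_assoc]
    have e3 : Q + mv h (-(x + X), -(y + Y)) = Q + mv h (-X, -Y) + ZP w := by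
      have : ((-(x + X), -(y + Y)) : Pl) = (-(X : ℝ), -(Y : ℝ)) + (-x, -y) := by ext <;> simp
      rw [this, mv_add, hZ, add_assoc]
    have e4 : Q + mv h (-x, -(y + Y)) = Q + mv h (0, -Y) + ZP w := by
      have : ((-x, -(y + Y)) : Pl) = (0, -(Y : ℝ)) + (-x, -y) := by ext <;> simp
      rw [this, mv_add, hZ, add_assoc]
    rw [e1, e2, tau_add_int] at p1
    rw [e2, e3, tau_add_int] at p2
    rw [e3, e4, tau_add_int] at p3
    rw [e4, e1, tau_add_int] at p4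
    have key := Subgroup.mul_mem _ p3 p1
    have h3 : (hvT a b h Q x y)⁻¹ * Rect a b h Q X Y * hvT a b h Q x y =
        (hvT a b h Q x (y + Y))⁻¹ * tau a b (Q + mv h (-X, -Y)) (Q + mv h (0, -Y)) *
          hvT a b h Q (x + X) (y + Y) *
          ((hvT a b h Q (x + X) y)⁻¹ * tau a b Q (Q + mv h (-X, 0)) * hvT a b h Q x y) := by
      rw [p2, Rect, hol4]
      nth_rewrite 1 [p4]
      group
    rw [h3]
    exact key
  | one => simpa using Subgroup.one_mem _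
  | mul g g' _ _ ih ih' =>
    have := Subgroup.mul_mem _ ih ih'
    convert this using 1
    group
  | inv g _ ih =>
    have := Subgroup.inv_mem _ ih
    convert this using 1
    group

end

private theorem RcD_norm {H : Type*} [Group H] [Finite H] {N : Subgroup H} {x : H}
    (hx : ∀ n ∈ N, x⁻¹ * n * x ∈ N) : x ∈ Subgroup.normalizer N := by
  have hinj : Function.Injective (fun n : N => (⟨x⁻¹ * n * x, hx n n.2⟩ : N)) := by
    intro n n' hn
    have := congrArg Subtype.val hn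
    simp only [mul_left_inj, mul_right_inj] at this
    exact Subtype.ext this
  have hsurj := Finite.surjective_of_injective hinj
  rw [Subgroup.mem_normalizer_iff]
  intro n
  constructor
  · intro hn
    obtain ⟨m, hm⟩ := hsurj ⟨n, hn⟩
    have h1 : x⁻¹ * m * x = n := congrArg Subtype.val hm
    rw [← h1]
    have h2 : x * (x⁻¹ * (m : H) * x) * x⁻¹ = m := by group
    rw [h2]
    exact m.2
  · intro hn
    have := hx _ hn
    have h2 : x⁻¹ * (x * n * x⁻¹) * x = n := by group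
    rw [h2] at this
    exact this

private theorem RcD_comm {H : Type*} [Group H] {N M : Subgroup H}
    (hM : M = Subgroup.normalizer (N : Set H))
    (a b u p q : H) (hu : u ∈ M) (hp : p ∈ M) (hq : q ∈ M)
    (h1 : p⁻¹ * a * u ∈ N) (h2 : q⁻¹ * b * u ∈ N)
    (c1 : (p * q)⁻¹ * (q * p) ∈ N) (c2 : (p * u)⁻¹ * (u * p) ∈ N)
    (c3 : (q * u)⁻¹ * (u * q) ∈ N) :
    ⁅Subgroup.closure {a, b}, Subgroup.closure {a, b}⁆ ≤ N := by
  have hNM : N ≤ M := by rw [hM]; exact Subgroup.le_normalizer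
  have hn : (N.subgroupOf M).Normal := by
    subst hM
    infer_instance
  let π := QuotientGroup.mk' (N.subgroupOf M)
  have hπ : ∀ g : M, π g = 1 ↔ (g : H) ∈ N := by
    intro g
    rw [← MonoidHom.mem_ker, QuotientGroup.ker_mk', Subgroup.mem_subgroupOf]
  have ha : a ∈ M := by
    have : a = p * (p⁻¹ * a * u) * u⁻¹ := by group
    rw [this]
    exact Subgroup.mul_mem _ (Subgroup.mul_mem _ hp (hNM h1)) (Subgroup.inv_mem _ hu)
  have hb : b ∈ M := by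
    have : b = q * (q⁻¹ * b * u) * u⁻¹ := by group
    rw [this]
    exact Subgroup.mul_mem _ (Subgroup.mul_mem _ hq (hNM h2)) (Subgroup.inv_mem _ hu)
  have e1 : π ⟨a, ha⟩ = π ⟨p, hp⟩ * (π ⟨u, hu⟩)⁻¹ := by
    have := (hπ (⟨p, hp⟩⁻¹ * ⟨a, ha⟩ * ⟨u, hu⟩)).mpr h1
    rw [map_mul, map_mul, map_inv] at this
    rw [eq_mul_inv_iff_mul_eq]
    rw [mul_assoc, inv_mul_eq_one] at this
    exact this.symm
  have e2 : π ⟨b, hb⟩ = π ⟨q, hq⟩ * (π ⟨u, hu⟩)⁻¹ := by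
    have := (hπ (⟨q, hq⟩⁻¹ * ⟨b, hb⟩ * ⟨u, hu⟩)).mpr h2
    rw [map_mul, map_mul, map_inv] at this
    rw [eq_mul_inv_iff_mul_eq]
    rw [mul_assoc, inv_mul_eq_one] at this
    exact this.symm
  have d1 : Commute (π ⟨p, hp⟩) (π ⟨q, hq⟩) := by
    have := (hπ ((⟨p, hp⟩ * ⟨q, hq⟩)⁻¹ * (⟨q, hq⟩ * ⟨p, hp⟩))).mpr c1
    rw [map_mul, map_inv, inv_mul_eq_one, map_mul, map_mul] at this
    exact this
  have d2 : Commute (π ⟨p, hp⟩) (π ⟨u, hu⟩) := by
    have := (hπ ((⟨p, hp⟩ * ⟨u, hu⟩)⁻¹ * (⟨u, hu⟩ * ⟨p, hp⟩))).mpr c2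
    rw [map_mul, map_inv, inv_mul_eq_one, map_mul, map_mul] at this
    exact this
  have d3 : Commute (π ⟨q, hq⟩) (π ⟨u, hu⟩) := by
    have := (hπ ((⟨q, hq⟩ * ⟨u, hu⟩)⁻¹ * (⟨u, hu⟩ * ⟨q, hq⟩))).mpr c3
    rw [map_mul, map_inv, inv_mul_eq_one, map_mul, map_mul] at this
    exact this
  have dab : Commute (π ⟨a, ha⟩) (π ⟨b, hb⟩) := by
    rw [e1, e2]
    exact (d1.mul_right d2.inv_right).mul_left
      ((d3.symm.mul_right (Commute.refl _).inv_right).inv_left)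
  have step : ∀ v : M ⧸ N.subgroupOf M,
      Commute (π ⟨a, ha⟩) v → Commute (π ⟨b, hb⟩) v →
      ∀ g ∈ Subgroup.closure {a, b}, ∃ hgm : g ∈ M, Commute (π ⟨g, hgm⟩) v := by
    intro v hav hbv g hg
    induction hg using Subgroup.closure_induction with
    | mem g hg =>
      rcases hg with rfl | rfl
      · exact ⟨ha, hav⟩
      · exact ⟨hb, hbv⟩
    | one => exact ⟨Subgroup.one_mem _, by
        have : π ⟨1, Subgroup.one_mem _⟩ = 1 := π.map_one
        rw [this]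
        exact Commute.one_left _⟩
    | mul g g' _ _ ih ih' =>
      obtain ⟨m1, k1⟩ := ih
      obtain ⟨m2, k2⟩ := ih'
      refine ⟨Subgroup.mul_mem _ m1 m2, ?_⟩
      have : π ⟨g * g', Subgroup.mul_mem _ m1 m2⟩ = π ⟨g, m1⟩ * π ⟨g', m2⟩ := by
        rw [← map_mul]
        rfl
      rw [this]
      exact k1.mul_left k2
    | inv g _ ih =>
      obtain ⟨m1, k1⟩ := ih
      refine ⟨Subgroup.inv_mem _ m1, ?_⟩
      have : π ⟨g⁻¹, Subgroup.inv_mem _ m1⟩ = (π ⟨g, m1⟩)⁻¹ := by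
        rw [← map_inv]
        rfl
      rw [this]
      exact k1.inv_left
  rw [Subgroup.commutator_le]
  intro g1 hg1 g2 hg2
  obtain ⟨m1, k1⟩ := step (π ⟨a, ha⟩) (Commute.refl _) dab.symm g1 hg1
  obtain ⟨_, k2⟩ := step (π ⟨b, hb⟩) dab (Commute.refl _) g1 hg1
  obtain ⟨m2, k3⟩ := step (π ⟨g1, m1⟩) k1.symm k2.symm g2 hg2
  have h3 : π ((⟨g1, m1⟩ : M) * ⟨g2, m2⟩ * (⟨g1, m1⟩ : M)⁻¹ * (⟨g2, m2⟩ : M)⁻¹) = 1 := by
    rw [map_mul, map_mul, map_mul, map_inv, map_inv, k3.symm.eq]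
    group
  rw [commutatorElement_def]
  exact (hπ _).mp h3

theorem gen_rect {H : Type*} [Group H] [Finite H] (a b : H) {h : SLR} {Q : Pl} (hg : GenQ h Q) :
    Nc a b ≤ RN a b h Q := by
  obtain ⟨α₁, hα₁⟩ : ∃ t, t = (mv h⁻¹ (ZP (1, 0))).1 := ⟨_, rfl⟩
  obtain ⟨β₁, hβ₁⟩ : ∃ t, t = (mv h⁻¹ (ZP (1, 0))).2 := ⟨_, rfl⟩
  obtain ⟨α₂, hα₂⟩ : ∃ t, t = (mv h⁻¹ (ZP (0, 1))).1 := ⟨_, rfl⟩
  obtain ⟨β₂, hβ₂⟩ : ∃ t, t = (mv h⁻¹ (ZP (0, 1))).2 := ⟨_, rfl⟩
  have hE1 : mv h⁻¹ (ZP (1, 0)) = (α₁, β₁) := by rw [hα₁, hβ₁]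
  have hE2 : mv h⁻¹ (ZP (0, 1)) = (α₂, β₂) := by rw [hα₂, hβ₂]
  obtain ⟨S, hS⟩ : ∃ S, S = |α₁| + |β₁| + |α₂| + |β₂| := ⟨_, rfl⟩
  obtain ⟨V, hV⟩ : ∃ V, V = mv h (-(2 * S + 1), -(2 * S + 1)) := ⟨_, rfl⟩
  obtain ⟨w, hwdef⟩ : ∃ w : ℤ × ℤ, w = (⌊V.1⌋, ⌊V.2⌋) := ⟨_, rfl⟩
  have hZw : ZP w = V - Int.fract V.1 • ZP (1, 0) - Int.fract V.2 • ZP (0, 1) := by
    rw [hwdef]
    ext
    · simp [ZP]
    · simp [ZP]
  obtain ⟨x, hx⟩ : ∃ x, x = 2 * S + 1 + Int.fract V.1 * α₁ + Int.fract V.2 * α₂ := ⟨_, rfl⟩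
  obtain ⟨y, hy⟩ : ∃ y, y = 2 * S + 1 + Int.fract V.1 * β₁ + Int.fract V.2 * β₂ := ⟨_, rfl⟩
  have hsub : ∀ v v' : Pl, mv h⁻¹ (v - v') = mv h⁻¹ v - mv h⁻¹ v' := by
    intro v v'
    ext <;> simp [mv] <;> ring
  have hsm : ∀ (r : ℝ) (v : Pl), mv h⁻¹ (r • v) = r • mv h⁻¹ v := by
    intro r v
    ext <;> simp [mv] <;> ring
  have hw : mv h⁻¹ (ZP w) = (-x, -y) := by
    have hV' : mv h⁻¹ V = (-(2 * S + 1), -(2 * S + 1)) := by rw [hV, mv_inv_mv]
    rw [hZw, hsub, hsub, hsm, hsm, hE1, hE2, hV', hx, hy]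
    ext <;> simp <;> ring
  have f1 := Int.fract_nonneg V.1
  have f2 := (Int.fract_lt_one V.1).le
  have f3 := Int.fract_nonneg V.2
  have f4 := (Int.fract_lt_one V.2).le
  have habs : ∀ (f t : ℝ), 0 ≤ f → f ≤ 1 → -|t| ≤ f * t := by
    intro f t h1 h2
    have := neg_abs_le t
    have := abs_nonneg t
    nlinarith
  have n1 := abs_nonneg α₁
  have n2 := abs_nonneg β₁
  have n3 := abs_nonneg α₂
  have n4 := abs_nonneg β₂
  have hxS : S + 1 ≤ x := by
    have := habs _ α₁ f1 f2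
    have := habs _ α₂ f3 f4
    rw [hx]
    linarith
  have hyS : S + 1 ≤ y := by
    have := habs _ β₁ f1 f2
    have := habs _ β₂ f3 f4
    rw [hy]
    linarith
  have l1 := le_abs_self α₁
  have l2 := le_abs_self β₁
  have l3 := le_abs_self α₂
  have l4 := le_abs_self β₂
  have hx0 : 0 < x := by linarith
  have hy0 : 0 < y := by linarith
  have hw1 : mv h⁻¹ (ZP (w + (1, 0))) = (-(x - α₁), -(y - β₁)) := by
    have : ZP (w + (1, 0)) = ZP w + ZP (1, 0) := by ext <;> simp [ZP]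
    rw [this, mv_add, hw, hE1]
    ext <;> simp <;> ring
  have hw2 : mv h⁻¹ (ZP (w + (0, 1))) = (-(x - α₂), -(y - β₂)) := by
    have : ZP (w + (0, 1)) = ZP w + ZP (0, 1) := by ext <;> simp [ZP]
    rw [this, mv_add, hw, hE2]
    ext <;> simp <;> ring
  have hx1 : 0 < x - α₁ := by linarith
  have hy1 : 0 < y - β₁ := by linarith
  have hx2 : 0 < x - α₂ := by linarith
  have hy2 : 0 < y - β₂ := by linarith
  have s1 := stair a b hg w (1, 0) a (Or.inl ⟨rfl, rfl⟩) hw hE1 (by linarith) (by linarith)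
  have s2 := stair a b hg w (0, 1) b (Or.inr ⟨rfl, rfl⟩) hw hE2 (by linarith) (by linarith)
  have comm : ∀ {w w' : ℤ × ℤ} {x y x' y' : ℝ}, mv h⁻¹ (ZP w) = (-x, -y) →
      mv h⁻¹ (ZP w') = (-x', -y') → 0 < x → 0 < y → 0 < x' → 0 < y' →
      (hvT a b h Q x y * hvT a b h Q x' y')⁻¹ * (hvT a b h Q x' y' * hvT a b h Q x y) ∈
        RN a b h Q := by
    intro w w' x y x' y' hw hw' hx hy hx' hy'
    have g1 := RcD_add a b hg hw hw' hx hy hx' hy'
    have g2 := RcD_add a b hg hw' hw hx' hy' hx hy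
    rw [add_comm x' x, add_comm y' y] at g2
    have g3 := Subgroup.mul_mem _ (Subgroup.inv_mem _ g2) g1
    convert g3 using 1
    group
  refine RcD_comm (N := RN a b h Q) rfl a b (hvT a b h Q x y) (hvT a b h Q (x - α₁) (y - β₁))
    (hvT a b h Q (x - α₂) (y - β₂)) ?_ ?_ ?_ s1 s2 ?_ ?_ ?_
  · exact RcD_norm fun n hn => RcD_conj a b hg hw hx0 hy0 hn
  · exact RcD_norm fun n hn => RcD_conj a b hg hw1 hx1 hy1 hn
  · exact RcD_norm fun n hn => RcD_conj a b hg hw2 hx2 hy2 hn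
  · exact comm hw1 hw2 hx1 hy1 hx2 hy2
  · exact comm hw1 hw hx1 hy1 hx0 hy0
  · exact comm hw2 hw hx2 hy2 hx0 hy0

private theorem RcD_line (p q c : ℝ) (hpq : p ≠ 0 ∨ q ≠ 0) :
    ∀ᵐ Q : Pl, p * Q.1 + q * Q.2 ≠ c := by
  have hm : MeasurableSet {Q : Pl | p * Q.1 + q * Q.2 = c} :=
    measurableSet_eq_fun (by fun_prop) measurable_const
  rw [ae_iff]
  simp only [ne_eq, not_not]
  rw [Measure.volume_eq_prod, Measure.measure_prod_null hm]
  by_cases hq : q = 0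
  · have hp : p ≠ 0 := by
      rcases hpq with h | h
      · exact h
      · exact absurd hq h
    have h1 : ∀ᵐ x : ℝ, x ≠ c / p := by
      rw [ae_iff]
      simp
    filter_upwards [h1] with x hx
    have : Prod.mk x ⁻¹' {Q : Pl | p * Q.1 + q * Q.2 = c} = ∅ := by
      ext y
      simp only [mem_preimage, mem_ofPred_eq, mem_empty_iff_false, iff_false]
      intro h2
      apply hx
      rw [hq] at h2
      field_simp
      linarith
    rw [this]
    simp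
  · filter_upwards with x
    have : Prod.mk x ⁻¹' {Q : Pl | p * Q.1 + q * Q.2 = c} = {(c - p * x) / q} := by
      ext y
      simp only [mem_preimage, mem_ofPred_eq, mem_singleton_iff]
      constructor
      · intro h2
        field_simp
        linarith
      · intro h2
        rw [h2]
        field_simp
        ring
    rw [this]
    simp

private theorem RcD_row (g : SLR) (v : Pl) (c : ℝ) :
    (∀ᵐ Q : Pl, (mv g (v - Q)).1 ≠ c) ∧ ∀ᵐ Q : Pl, (mv g (v - Q)).2 ≠ c := by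
  have hd : g 0 0 * g 1 1 - g 0 1 * g 1 0 = 1 := by
    have := g.det_coe
    rw [Matrix.det_fin_two] at this
    exact this
  constructor
  · have h1 : g 0 0 ≠ 0 ∨ g 0 1 ≠ 0 := by
      by_contra h
      push Not at h
      rw [h.1, h.2] at hd
      norm_num at hd
    filter_upwards [RcD_line (g 0 0) (g 0 1) (g 0 0 * v.1 + g 0 1 * v.2 - c) h1] with Q hQ h2
    apply hQ
    have h3 : (mv g (v - Q)).1 = g 0 0 * (v.1 - Q.1) + g 0 1 * (v.2 - Q.2) := rfl
    rw [h3] at h2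
    linarith
  · have h1 : g 1 0 ≠ 0 ∨ g 1 1 ≠ 0 := by
      by_contra h
      push Not at h
      rw [h.1, h.2] at hd
      norm_num at hd
    filter_upwards [RcD_line (g 1 0) (g 1 1) (g 1 0 * v.1 + g 1 1 * v.2 - c) h1] with Q hQ h2
    apply hQ
    have h3 : (mv g (v - Q)).2 = g 1 0 * (v.1 - Q.1) + g 1 1 * (v.2 - Q.2) := rfl
    rw [h3] at h2
    linarith

/-- for every matrix almost every point is generic -/
theorem genQ_ae (h : SLR) : ∀ᵐ Q : Pl, GenQ h Q := by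
  have h1 : ∀ᵐ Q : Pl, ∀ n : ℤ, Q.1 ≠ n ∧ Q.2 ≠ n := by
    rw [ae_all_iff]
    intro n
    have g1 := RcD_line 1 0 n (Or.inl one_ne_zero)
    have g2 := RcD_line 0 1 n (Or.inr one_ne_zero)
    filter_upwards [g1, g2] with Q h1 h2
    constructor
    · simpa using h1
    · simpa using h2
  have h2 : ∀ᵐ Q : Pl, ∀ (z : ℤ × ℤ) (r : ℚ),
      (mv h⁻¹ (ZP z - Q)).1 ≠ r ∧ (mv h⁻¹ (ZP z - Q)).2 ≠ r ∧
      (mv h⁻¹ (ZP z - Q - ((r : ℝ), 0))).1 ≠ 0 ∧ (mv h⁻¹ (ZP z - Q - ((r : ℝ), 0))).2 ≠ 0 ∧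
      (mv h⁻¹ (ZP z - Q - (0, (r : ℝ)))).1 ≠ 0 ∧ (mv h⁻¹ (ZP z - Q - (0, (r : ℝ)))).2 ≠ 0 := by
    rw [ae_all_iff]
    intro z
    rw [ae_all_iff]
    intro r
    have g1 := RcD_row h⁻¹ (ZP z) r
    have g2 := RcD_row h⁻¹ (ZP z - ((r : ℝ), 0)) 0
    have g3 := RcD_row h⁻¹ (ZP z - (0, (r : ℝ))) 0
    filter_upwards [g1.1, g1.2, g2.1, g2.2, g3.1, g3.2] with Q a1 a2 a3 a4 a5 a6
    rw [sub_right_comm] at a3 a4 a5 a6
    exact ⟨a1, a2, a3, a4, a5, a6⟩
  filter_upwards [h1, h2] with Q h1 h2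
  exact ⟨h1, h2⟩

end Pool.Agent.ILL
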