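import Pool.Agent.ILL.Twc
import Pool.Agent.ILL.Twf

/-!
# RKA. The inequality for `K = Φ_{-s e^{2u}} ∘ B_{-u} ∘ Φ_s ∘ B_u`

`F ∘ K = F ∘ B_{-u} ∘ Φ_s ∘ B_u` a.e. (flow invariance, `act_congr_ae`), so
`N1(F∘K - F) ≤ N1((F∘B_{-u} - F) ∘ Φ_s ∘ B_u) + N1(F ∘ Φ_s ∘ B_u - F)`
`= N1(F∘B_{-u} - F) + N1(F ∘ B_u - F)`: the first by `N1_act` twice (`F∘B_{-u} - F` is twisted invariant,
`AutW.wB`, `AutW.sub`, and so is its composition with `Φ_s`), the second because `F ∘ Φ_s = F` a.e.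
-/

open MeasureTheory Set Filter Topology
open scoped ENNReal NNReal

namespace Pool.Agent.ILL

theorem N1_actK_le {Λ : Type} [Fintype Λ] [DecidableEq Λ] {ρ : Measure Pl} (hρ : PerMeas ρ)
    {F : SLR × Pl → Lab Λ → ℝ} (hF : ∀ i, Measurable fun x => F x i) {C : ℝ}
    (hb : ∀ x i, |F x i| ≤ C) (hA : AutW ρ F)
    (hΦ : ∀ q, ∀ᵐ x ∂(muG.prod ρ), ∀ i, (wPhi q).act F x i = F x i) (s u : ℝ) :
    N1 ρ (fun x i => actK s u F x i - F x i) ≤
      N1 ρ (fun x i => (wB (-u)).act F x i - F x i) +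
        N1 ρ (fun x i => (wB u).act F x i - F x i) := by
  have mB : ∀ u : ℝ, MeasurePreserving (wB (Λ := Λ) u).T (muG.prod ρ) (muG.prod ρ) :=
    fun u => mp_eR hρ (dg (-u))
  have mP : ∀ s : ℝ, MeasurePreserving (wPhi (Λ := Λ) s).T (muG.prod ρ) (muG.prod ρ) :=
    fun s => mp_eR hρ (nl (-s))
  have hBu : ∀ (u : ℝ) (G : SLR × Pl → Lab Λ → ℝ), (∀ i, Measurable fun x => G x i) →
      ∀ i, Measurable fun x => (wB u).act G x i := fun u G hG i =>
    act_measurable (wB_meas u) hG i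
  have hPs : ∀ (s : ℝ) (G : SLR × Pl → Lab Λ → ℝ), (∀ i, Measurable fun x => G x i) →
      ∀ i, Measurable fun x => (wPhi s).act G x i := fun s G hG i =>
    act_measurable (wPhi_meas s) hG i
  -- the difference
  have hA1 : AutW ρ (fun x i => (wB (-u)).act F x i - F x i) := (hA.wB hρ (-u)).sub hA
  have hm1 : ∀ i, Measurable fun x => (fun x i => (wB (-u)).act F x i - F x i) x i :=
    fun i => (hBu _ _ hF i).sub (hF i)
  have e1 : ∀ᵐ x ∂(muG.prod ρ), ∀ i, actK s u F x i =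
      (wB u).act ((wPhi s).act ((wB (-u)).act F)) x i := by
    have h1 := act_congr_ae (mB (-u)) (hΦ (-(s * Real.exp (2 * u))))
    have h2 := act_congr_ae (mP s) h1
    exact act_congr_ae (mB u) h2
  have e2 : ∀ᵐ x ∂(muG.prod ρ), ∀ i, (wB u).act ((wPhi s).act F) x i = (wB u).act F x i :=
    act_congr_ae (mB u) (hΦ s)
  have e3 : ∀ᵐ x ∂(muG.prod ρ), ∀ i, (fun x i => actK s u F x i - (wB u).act F x i) x i =
      (wB u).act ((wPhi s).act (fun x i => (wB (-u)).act F x i - F x i)) x i := by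
    filter_upwards [e1, e2] with x h1 h2 i
    change actK s u F x i - (wB u).act F x i =
      (wB u).act ((wPhi s).act ((wB (-u)).act F)) x i - (wB u).act ((wPhi s).act F) x i
    rw [h1 i, h2 i]
  have e4 : N1 ρ (fun x i => actK s u F x i - (wB u).act F x i) =
      N1 ρ (fun x i => (wB (-u)).act F x i - F x i) := by
    rw [N1_congr_ae e3, N1_act hρ (hPs s _ hm1) (hA1.wPhi hρ s) (wB u) (dg (-u)) rfl,
      N1_act hρ hm1 hA1 (wPhi s) (nl (-s)) rfl]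
  rw [← e4]
  refine N1_triangle (G := actK s u F) (G' := (wB u).act F) (G'' := F) ?_ (hBu _ _ hF) hF
  exact hBu _ _ (hPs _ _ (hBu _ _ (hPs _ _ hF)))

theorem AutW.actK {Λ : Type} [Fintype Λ] [DecidableEq Λ] {ρ : Measure Pl} (hρ : PerMeas ρ)
    {F : SLR × Pl → Lab Λ → ℝ} (hA : AutW ρ F) (s u : ℝ) : AutW ρ (actK s u F) := by
  exact ((((hA.wPhi hρ _).wB hρ _).wPhi hρ _).wB hρ _)

end Pool.Agent.ILL
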