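import Pool.Agent.ILL.Gna
import Pool.Agent.ILL.Ltc
import Pool.Agent.ILL.Twm
import Pool.Agent.ILL.Inv

/-!
# RKB. Continuity of `B_u` at `u = 0`

`(wB u).act F x i - F x i = [F (eR (dg(-u)) x) (σ i) - F (eR (dg(-u)) x) i] + [F (eR (dg(-u)) x) i - F x i]`
with `σ = labQ (tau Q (P + e^{-u} f₁))`. The second bracket tends to `0` in `L¹(DF)` for every `i` by
`L1_transX` (`dg (-u) → 1`). The first is at most `2C` and vanishes when `tau a b Q (P + e^{-u} f₁) = 1`;
for a `Gen1` pair `Q = P + f₁` has non-integral coordinates, so for `u` small the two points have the same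
floors and `tau = b^0 = 1` (`tau_colx`). Dominated convergence on `DF` (finite measure).
(`𝓝 0` is countably generated: use sequences or `tendsto_lintegral_filter_of_dominated_convergence`.)
-/

open MeasureTheory Set Filter Topology
open scoped ENNReal NNReal

namespace Pool.Agent.ILL

private theorem rkb_floor {x : ℝ} (hx : ∀ n : ℤ, x ≠ n) : ∀ᶠ y in 𝓝 x, ⌊y⌋ = ⌊x⌋ := by
  have h1 : ((⌊x⌋ : ℤ) : ℝ) < x := lt_of_le_of_ne (Int.floor_le x) (fun h => hx _ h.symm)
  have h2 : x < ((⌊x⌋ : ℤ) : ℝ) + 1 := Int.lt_floor_add_one x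
  filter_upwards [Ioo_mem_nhds h1 h2] with y hy
  rw [Int.floor_eq_iff]
  exact ⟨hy.1.le, hy.2⟩

private theorem rkb_tau {H : Type*} [Group H] (a b : H) {A B : Pl} (h1 : ⌊B.1⌋ = ⌊A.1⌋)
    (h2 : ⌊B.2⌋ = ⌊A.2⌋) : tau a b A B = 1 := by
  unfold tau
  rw [if_pos h1.ge, h1, h2, sub_self, Int.toNat_zero, prodR, mul_one, ← zpow_add, add_neg_cancel,
    zpow_zero]

private theorem rkb_dg_tendsto : Tendsto (fun u : ℝ => dg (-u)) (𝓝 0) (𝓝 1) := by
  have h1 : Continuous fun u : ℝ => dg (-u) := by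
    refine Continuous.subtype_mk ?_ _
    refine continuous_matrix fun i j => ?_
    fin_cases i <;> fin_cases j <;> simp <;> fun_prop
  have h2 := h1.tendsto 0
  have h3 : dg (-0) = 1 := by
    ext i j
    fin_cases i <;> fin_cases j <;> simp [dg]
  rwa [h3] at h2

theorem N1_wB_tendsto {Λ : Type} [Fintype Λ] [DecidableEq Λ] {ρ : Measure Pl} (hρ : PerMeas ρ)
    {F : SLR × Pl → Lab Λ → ℝ} (hF : ∀ i, Measurable fun x => F x i) {C : ℝ}
    (hb : ∀ x i, |F x i| ≤ C) :
    Tendsto (fun u : ℝ => N1 ρ (fun x i => (wB u).act F x i - F x i)) (𝓝 0) (𝓝 0) := by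
  have hfin := DF_fin hρ
  have hme : ∀ u : ℝ, ∀ i : Lab Λ, Measurable fun x : SLR × Pl => F (eR (dg (-u)) x) i :=
    fun u i => (hF i).comp (eR (dg (-u))).measurable
  -- the first part
  have hA : Tendsto (fun u : ℝ => ∫⁻ x in DF, ∑ i : Lab Λ,
      ‖(wB u).act F x i - F (eR (dg (-u)) x) i‖ₑ ∂(muG.prod ρ)) (𝓝 0) (𝓝 0) := by
    have hlim : ∫⁻ x in DF, (0 : ℝ≥0∞) ∂(muG.prod ρ) = 0 := lintegral_zero
    rw [← hlim]
    refine tendsto_lintegral_filter_of_dominated_convergence
      (fun _ => ∑ _i : Lab Λ, ENNReal.ofReal (2 * C)) ?_ ?_ ?_ ?_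
    · refine Eventually.of_forall fun u => ?_
      refine Finset.measurable_sum _ fun i _ => ?_
      exact ((act_measurable (wB_meas u) hF i).sub (hme u i)).enorm
    · refine Eventually.of_forall fun u => Eventually.of_forall fun x => ?_
      refine Finset.sum_le_sum fun i _ => ?_
      rw [Real.enorm_eq_ofReal_abs]
      refine ENNReal.ofReal_le_ofReal ?_
      have h1 : |(wB u).act F x i| ≤ C := hb _ _
      have h2 := hb (eR (dg (-u)) x) i
      calc |(wB u).act F x i - F (eR (dg (-u)) x) i| ≤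
            |(wB u).act F x i| + |F (eR (dg (-u)) x) i| := abs_sub _ _
        _ ≤ 2 * C := by linarith
    · rw [lintegral_const]
      refine ENNReal.mul_ne_top ?_ ?_
      · refine (ENNReal.sum_lt_top.2 fun i _ => ENNReal.ofReal_lt_top).ne
      · rw [Measure.restrict_apply_univ]
        exact hfin.ne
    · have hae : ∀ᵐ x ∂((muG.prod ρ).restrict DF), Gen1 x.1 x.2 :=
        ae_restrict_of_ae (gen1_aeX hρ)
      filter_upwards [hae] with x hx
      have hQ := hx.2.2
      have hc : Continuous fun u : ℝ => x.2 + mv x.1 (Real.exp (-u), 0) := by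
        refine continuous_const.add ((continuous_mv_left x.1).comp ?_)
        fun_prop
      have ht := hc.tendsto 0
      have h0 : x.2 + mv x.1 (Real.exp (-0), 0) = x.2 + mv x.1 (1, 0) := by
        rw [neg_zero, Real.exp_zero]
      rw [h0] at ht
      have ht1 : Tendsto (fun u : ℝ => (x.2 + mv x.1 (Real.exp (-u), 0)).1) (𝓝 0)
          (𝓝 (x.2 + mv x.1 (1, 0)).1) := (continuous_fst.tendsto _).comp ht
      have ht2 : Tendsto (fun u : ℝ => (x.2 + mv x.1 (Real.exp (-u), 0)).2) (𝓝 0)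
          (𝓝 (x.2 + mv x.1 (1, 0)).2) := (continuous_snd.tendsto _).comp ht
      have he1 := ht1.eventually (rkb_floor fun n => (hQ n).1)
      have he2 := ht2.eventually (rkb_floor fun n => (hQ n).2)
      refine tendsto_const_nhds.congr' ?_
      filter_upwards [he1, he2] with u hu1 hu2
      symm
      refine Finset.sum_eq_zero fun i _ => ?_
      have hact : (wB u).act F x i = F (eR (dg (-u)) x) i := by
        have hσ : (wB (Λ := Λ) u).σ x i = i := by
          change (i.1, i.2.1, i.2.2.1, (tau i.1 i.2.1 (x.2 + mv x.1 (1, 0))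
            (x.2 + mv x.1 (Real.exp (-u), 0))) i.2.2.2) = i
          rw [rkb_tau _ _ hu1 hu2]
          rfl
        change F ((wB (Λ := Λ) u).T x) ((wB u).σ x i) = _
        rw [hσ]
        rfl
      rw [hact, sub_self, enorm_zero]
  -- the second part
  have hB : Tendsto (fun u : ℝ => ∑ i : Lab Λ, ∫⁻ x in DF,
      ‖F (eR (dg (-u)) x) i - F x i‖ₑ ∂(muG.prod ρ)) (𝓝 0) (𝓝 0) := by
    have h0 : (0 : ℝ≥0∞) = ∑ _i : Lab Λ, (0 : ℝ≥0∞) := by simp
    rw [h0]
    refine tendsto_finsetSum _ fun i _ => ?_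
    exact (L1_transX hρ (hF i) (fun x => hb x i)).comp rkb_dg_tendsto
  have hS := hA.add hB
  rw [add_zero] at hS
  refine tendsto_of_tendsto_of_tendsto_of_le_of_le tendsto_const_nhds hS (fun _ => zero_le) ?_
  intro u
  have hmB : ∀ i ∈ (Finset.univ : Finset (Lab Λ)), Measurable fun x : SLR × Pl =>
      ‖F (eR (dg (-u)) x) i - F x i‖ₑ := fun i _ => ((hme u i).sub (hF i)).enorm
  change N1 ρ (fun x i => (wB u).act F x i - F x i) ≤ _ + _
  rw [← lintegral_finsetSum _ hmB, ← lintegral_add_right _ (Finset.measurable_sum _ hmB)]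
  unfold N1
  refine lintegral_mono fun x => ?_
  rw [← Finset.sum_add_distrib]
  refine Finset.sum_le_sum fun i _ => ?_
  calc ‖(wB u).act F x i - F x i‖ₑ =
        ‖((wB u).act F x i - F (eR (dg (-u)) x) i) + (F (eR (dg (-u)) x) i - F x i)‖ₑ := by
          rw [sub_add_sub_cancel]
    _ ≤ _ := enorm_add_le _ _

end Pool.Agent.ILL
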