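import Pool.Agent.ILL.TauB

/-!
# RKC. The map `K` is a fibrewise holonomy

Base: `h dg(-u) nl(-s) dg(u) nl(s e^{2u}) = h` (matrix computation: `nl(-s) dg(u) = dg(u) nl(-s e^{2u})`).
Labels: with `Q = P + mv h (1,0)`, `Q₁ = P + mv h (e^{-u},0)`, `Q₂ = P + mv h (e^{-u}, -s e^u)`,
`Q₃ = P + mv h (1, -s e^{2u})`:
`wB u` moves the last label by `tau Q Q₁`; at `x₁ = (h dg(-u), P)` the map `wPhi s` moves it by `tau` from
`P + mv (h dg(-u)) (1,0) = Q₁` to `P + mv (h dg(-u)) (1,-s) = Q₂`; at `x₂ = (h dg(-u) nl(-s), P)` the map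
`wB (-u)` from `Q₂` to `P + mv (h dg(-u) nl(-s)) (e^u, 0) = P + mv h (1, -s e^{2u}) = Q₃`; at `x₃` the map
`wPhi (-s e^{2u})` from `Q₃` to `P + mv (h dg(-u) nl(-s) dg(u)) (1, s e^{2u}) = Q`. The composition is `hol4`.
Exact identity, no genericity.
-/

open MeasureTheory Set Filter Topology
open scoped ENNReal NNReal

namespace Pool.Agent.ILL

private theorem mv_dg (h : SLR) (u : ℝ) (v : Pl) :
    mv (h * dg u) v = mv h (Real.exp u * v.1, Real.exp (-u) * v.2) := by
  rw [mv_mul]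
  congr 1
  ext <;> simp [mv, dg]

private theorem mv_nl (h : SLR) (s : ℝ) (v : Pl) :
    mv (h * nl s) v = mv h (v.1, s * v.1 + v.2) := by
  rw [mv_mul]
  congr 1
  ext <;> simp [mv, nl]

private theorem base_eq (h : SLR) (s u : ℝ) :
    h * dg (-u) * nl (-s) * dg (-(-u)) * nl (-(-(s * Real.exp (2 * u)))) = h := by
  have h2 : Real.exp (2 * u) = Real.exp u * Real.exp u := by rw [← Real.exp_add]; ring_nf
  have h1 : Real.exp (-u) * Real.exp u = 1 := by rw [← Real.exp_add]; simp
  have key : dg (-u) * nl (-s) * dg (-(-u)) * nl (-(-(s * Real.exp (2 * u)))) = 1 := by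
    rw [h2]
    have e1 : ((dg (-u) * nl (-s) * dg (-(-u)) * nl (-(-(s * (Real.exp u * Real.exp u)))) : SLR) :
        Matrix (Fin 2) (Fin 2) ℝ) = 1 := by
      rw [Matrix.SpecialLinearGroup.coe_mul, Matrix.SpecialLinearGroup.coe_mul,
        Matrix.SpecialLinearGroup.coe_mul]
      simp only [dg, nl, neg_neg]
      ext i j
      fin_cases i <;> fin_cases j
      · simp [Matrix.mul_apply, Fin.sum_univ_two]
        linear_combination h1
      · simp [Matrix.mul_apply, Fin.sum_univ_two]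
      · simp [Matrix.mul_apply, Fin.sum_univ_two]
        linear_combination (s * Real.exp u * Real.exp u) * h1
      · simp [Matrix.mul_apply, Fin.sum_univ_two]
        linear_combination h1
    exact Subtype.ext e1
  calc h * dg (-u) * nl (-s) * dg (-(-u)) * nl (-(-(s * Real.exp (2 * u))))
      = h * (dg (-u) * nl (-s) * dg (-(-u)) * nl (-(-(s * Real.exp (2 * u))))) := by
        simp only [mul_assoc]
    _ = h := by rw [key, mul_one]

theorem actK_eq {Λ : Type} [Fintype Λ] [DecidableEq Λ] (s u : ℝ) (F : SLR × Pl → Lab Λ → ℝ)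
    (x : SLR × Pl) (i : Lab Λ) :
    actK s u F x i = F x (i.1, i.2.1, i.2.2.1,
      hol4 i.1 i.2.1 (x.2 + mv x.1 (1, 0)) (x.2 + mv x.1 (Real.exp (-u), 0))
        (x.2 + mv x.1 (Real.exp (-u), -(s * Real.exp u)))
        (x.2 + mv x.1 (1, -(s * Real.exp (2 * u)))) i.2.2.2) := by
  obtain ⟨h, P⟩ := x
  obtain ⟨a, b, p, q⟩ := i
  have h2 : Real.exp (2 * u) = Real.exp u * Real.exp u := by rw [← Real.exp_add]; ring_nf
  have h1 : Real.exp (-u) * Real.exp u = 1 := by rw [← Real.exp_add]; simp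
  have h3 : Real.exp u * Real.exp (-u) = 1 := by rw [mul_comm]; exact h1
  have c1 : Real.exp u * -s = -(s * Real.exp u) := by ring
  have c2 : Real.exp u * (-s * Real.exp u) = -(s * (Real.exp u * Real.exp u)) := by ring
  have c3 : Real.exp u * (-s * Real.exp u + Real.exp (-u) * (s * (Real.exp u * Real.exp u))) = 0 := by
    linear_combination (s * Real.exp u * Real.exp u) * h3
  simp only [actK, Tw.act, wB, wPhi, labQ, eR_apply, Equiv.coe_fn_mk, hol4, Equiv.Perm.mul_apply]
  rw [base_eq]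
  simp only [mv_dg, mv_nl, neg_neg, mul_one, mul_zero, add_zero, h1, h2, c1, c2, c3]

end Pool.Agent.ILL
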