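import Pool.Agent.ILL.Inv
import Pool.Agent.ILL.Twm

/-!
# TWA. Norms and pairings of twisted-invariant functions

If `G` is twisted invariant (`AutW`) then `x ↦ Σ_i ‖G x i‖` is almost everywhere invariant (`AEAut`): a twisted
map permutes the index, `Equiv.sum_comp`. The same for `Σ_i G x i * G' x i`. For a twisted map with base
map `eR g`: `Σ_i ‖w.act G x i‖ = (Σ_j ‖G · j‖)(eR g x)`, so `N1` is preserved by `DF_right`; pairings by
`DF_right_real`.
-/

open MeasureTheory Set Filter Topology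
open scoped ENNReal NNReal

namespace Pool.Agent.ILL

section
variable {Λ : Type} [Fintype Λ] [DecidableEq Λ] {ρ : Measure Pl}

private theorem twa_sum {X I M : Type} [MeasurableSpace X] [Fintype I] [AddCommMonoid M]
    (w : Tw X I) (F : X → I → M) (x : X) : ∑ i, F (w.T x) i = ∑ i, F (w.T x) (w.σ x i) :=
  (Equiv.sum_comp (w.σ x) (fun i => F (w.T x) i)).symm

theorem AutW.sub {G G' : SLR × Pl → Lab Λ → ℝ} (h : AutW ρ G) (h' : AutW ρ G') :
    AutW ρ (fun x i => G x i - G' x i) where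
  U := by
    filter_upwards [h.U, h'.U] with x h1 h2 i
    exact congrArg₂ (· - ·) (h1 i) (h2 i)
  L := by
    filter_upwards [h.L, h'.L] with x h1 h2 i
    exact congrArg₂ (· - ·) (h1 i) (h2 i)
  t1 := by
    filter_upwards [h.t1, h'.t1] with x h1 h2 i
    exact congrArg₂ (· - ·) (h1 i) (h2 i)
  t2 := by
    filter_upwards [h.t2, h'.t2] with x h1 h2 i
    exact congrArg₂ (· - ·) (h1 i) (h2 i)

theorem AutW.norm_sum {G : SLR × Pl → Lab Λ → ℝ} (h : AutW ρ G) :
    AEAut ρ (fun x => ∑ i, ‖G x i‖ₑ) where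
  U := by
    filter_upwards [h.U] with x hx
    refine (twa_sum wU (fun y i => ‖G y i‖ₑ) x).trans (Finset.sum_congr rfl fun i _ => ?_)
    exact congrArg (‖·‖ₑ) (hx i)
  L := by
    filter_upwards [h.L] with x hx
    refine (twa_sum wL (fun y i => ‖G y i‖ₑ) x).trans (Finset.sum_congr rfl fun i _ => ?_)
    exact congrArg (‖·‖ₑ) (hx i)
  t1 := by
    filter_upwards [h.t1] with x hx
    refine (twa_sum (wT (1, 0)) (fun y i => ‖G y i‖ₑ) x).trans (Finset.sum_congr rfl fun i _ => ?_)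
    exact congrArg (‖·‖ₑ) (hx i)
  t2 := by
    filter_upwards [h.t2] with x hx
    refine (twa_sum (wT (0, 1)) (fun y i => ‖G y i‖ₑ) x).trans (Finset.sum_congr rfl fun i _ => ?_)
    exact congrArg (‖·‖ₑ) (hx i)

theorem AutW.mul_sum {G G' : SLR × Pl → Lab Λ → ℝ} (h : AutW ρ G) (h' : AutW ρ G') :
    AEAut ρ (fun x => ∑ i, G x i * G' x i) where
  U := by
    filter_upwards [h.U, h'.U] with x hx hx'
    refine (twa_sum wU (fun y i => G y i * G' y i) x).trans (Finset.sum_congr rfl fun i _ => ?_)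
    exact congrArg₂ (· * ·) (hx i) (hx' i)
  L := by
    filter_upwards [h.L, h'.L] with x hx hx'
    refine (twa_sum wL (fun y i => G y i * G' y i) x).trans (Finset.sum_congr rfl fun i _ => ?_)
    exact congrArg₂ (· * ·) (hx i) (hx' i)
  t1 := by
    filter_upwards [h.t1, h'.t1] with x hx hx'
    refine (twa_sum (wT (1, 0)) (fun y i => G y i * G' y i) x).trans
      (Finset.sum_congr rfl fun i _ => ?_)
    exact congrArg₂ (· * ·) (hx i) (hx' i)
  t2 := by
    filter_upwards [h.t2, h'.t2] with x hx hx'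
    refine (twa_sum (wT (0, 1)) (fun y i => G y i * G' y i) x).trans
      (Finset.sum_congr rfl fun i _ => ?_)
    exact congrArg₂ (· * ·) (hx i) (hx' i)

theorem N1_act (hρ : PerMeas ρ) {G : SLR × Pl → Lab Λ → ℝ} (hG : ∀ i, Measurable fun x => G x i)
    (hA : AutW ρ G) (w : Tw (SLR × Pl) (Lab Λ)) (g : SLR) (hw : w.T = eR g) :
    N1 ρ (w.act G) = N1 ρ G := by
  have h1 : Measurable fun x => ∑ i, ‖G x i‖ₑ :=
    Finset.measurable_fun_sum _ fun i _ => (hG i).enorm
  have h2 := DF_right hρ h1 hA.norm_sum g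
  unfold N1
  rw [← h2]
  refine lintegral_congr fun x => ?_
  have h3 := twa_sum w (fun y i => ‖G y i‖ₑ) x
  rw [← hw]
  exact h3.symm

theorem Pr_act (hρ : PerMeas ρ) {G G' : SLR × Pl → Lab Λ → ℝ} (hG : ∀ i, Measurable fun x => G x i)
    (hG' : ∀ i, Measurable fun x => G' x i) {C : ℝ} (hb : ∀ x i, |G x i| ≤ C)
    (hb' : ∀ x i, |G' x i| ≤ C) (hA : AutW ρ G) (hA' : AutW ρ G')
    (w : Tw (SLR × Pl) (Lab Λ)) (g : SLR) (hw : w.T = eR g) :
    Pr ρ (w.act G) (w.act G') = Pr ρ G G' := by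
  have h1 : Measurable fun x => ∑ i, G x i * G' x i :=
    Finset.measurable_fun_sum _ fun i _ => (hG i).mul (hG' i)
  have hB : ∀ x, |∑ i, G x i * G' x i| ≤ ∑ _i : Lab Λ, C * C := by
    intro x
    refine (Finset.abs_sum_le_sum_abs _ _).trans (Finset.sum_le_sum fun i _ => ?_)
    rw [abs_mul]
    exact mul_le_mul (hb x i) (hb' x i) (abs_nonneg _) ((abs_nonneg _).trans (hb x i))
  have h2 := DF_right_real hρ h1 hB (hA.mul_sum hA') g
  unfold Pr
  rw [← h2]
  refine integral_congr_ae (Eventually.of_forall fun x => ?_)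
  have h3 := twa_sum w (fun y i => G y i * G' y i) x
  rw [hw] at h3
  refine Eq.trans ?_ h3.symm
  refine Finset.sum_congr rfl fun i _ => ?_
  change G (w.T x) (w.σ x i) * G' (w.T x) (w.σ x i) = _
  rw [hw]

/-- almost everywhere equalities may be transported by twisted maps -/
theorem act_congr_ae {X I : Type} [MeasurableSpace X] {ν : Measure X} {w : Tw X I}
    (hw : MeasurePreserving w.T ν ν) {G G' : X → I → ℝ} (h : ∀ᵐ x ∂ν, ∀ i, G x i = G' x i) :
    ∀ᵐ x ∂ν, ∀ i, w.act G x i = w.act G' x i := by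
  filter_upwards [hw.quasiMeasurePreserving.ae h] with x hx i
  exact hx (w.σ x i)

theorem N1_triangle {G G' G'' : SLR × Pl → Lab Λ → ℝ} (hG : ∀ i, Measurable fun x => G x i)
    (hG' : ∀ i, Measurable fun x => G' x i) (hG'' : ∀ i, Measurable fun x => G'' x i) :
    N1 ρ (fun x i => G x i - G'' x i) ≤
      N1 ρ (fun x i => G x i - G' x i) + N1 ρ (fun x i => G' x i - G'' x i) := by
  unfold N1
  have h1 : Measurable fun x => ∑ i, ‖G x i - G' x i‖ₑ :=
    Finset.measurable_fun_sum _ fun i _ => ((hG i).sub (hG' i)).enorm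
  rw [← lintegral_add_left h1]
  refine lintegral_mono fun x => ?_
  rw [← Finset.sum_add_distrib]
  refine Finset.sum_le_sum fun i _ => ?_
  calc ‖G x i - G'' x i‖ₑ = ‖(G x i - G' x i) + (G' x i - G'' x i)‖ₑ := by
        rw [sub_add_sub_cancel]
    _ ≤ ‖G x i - G' x i‖ₑ + ‖G' x i - G'' x i‖ₑ := enorm_add_le _ _

theorem N1_congr_ae {G G' : SLR × Pl → Lab Λ → ℝ}
    (h : ∀ᵐ x ∂(muG.prod ρ), ∀ i, G x i = G' x i) : N1 ρ G = N1 ρ G' := by
  unfold N1
  refine lintegral_congr_ae (ae_restrict_of_ae ?_)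
  filter_upwards [h] with x hx
  exact Finset.sum_congr rfl fun i _ => by rw [hx i]

end

end Pool.Agent.ILL
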