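import Pool.Agent.ILL.Rka
import Pool.Agent.ILL.Rkb
import Pool.Agent.ILL.Rkc
import Pool.Agent.ILL.Pol
import Pool.Agent.ILL.Twa

/-!
# RKD. The renormalised form

Let `F` be as in RKA. For fixed `x, y, ε > 0`: the integral over the part of `DF` where the rectangle at
`Q = P + mv h (e^v, 0)` has margin `ε`, of `Σ_i ‖F(p')(Rect i) - F(p')(i)‖`, `p' = eR (dg v) p`, tends to `0`
as `v → ∞`.

PROOF. Put `u = x e^{-v}`, `s = y e^v`. `actK_eq` at `p' = (h dg(v), P)`: `Q = P + mv h (e^v, 0)`,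
`Q₁ = Q + mv h (e^v (e^{-u} - 1), 0)`, `Q₂ = Q + mv h (e^v (e^{-u}-1), -y e^u)`,
`Q₃ = Q + mv h (0, -y e^{2u})` (`mv (h dg v) (c,d) = mv h (e^v c, e^{-v} d)`). As `v → ∞`, `u → 0`,
`e^v(e^{-u}-1) → -x`, `y e^u → y`, `y e^{2u} → y`; so for `v ≥ v₀(x,y,ε)` the corners are within `ε` of
`(0,0), (-x,0), (-x,-y), (0,-y)`, and the sides of the rectangle are contained in `bdR x y`; by
`LF4_of_margin` and `hol4_conj` (base point fixed, `tau_self`) the holonomy is `Rect ... x y`. Hence for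
`v ≥ v₀` the integral is at most `∫_DF Σ_i ‖actK s u F (eR (dg v) p) i - F (eR (dg v) p) i‖ =
N1(actK s u F - F)` (`DF_right` for the a.e. invariant function `AutW.norm_sum`, `AutW.sub`, `AutW.actK`),
which is at most `N1(wB(-u) F - F) + N1(wB u F - F) → 0`.
-/

open MeasureTheory Set Filter Topology
open scoped ENNReal NNReal

namespace Pool.Agent.ILL

private theorem rkd_cont_mvinv (z : ℤ × ℤ) :
    Continuous fun p : SLR × Pl => mv p.1⁻¹ (ZP z - p.2) :=
  continuous_mv.comp (Continuous.prodMk (continuous_inv.comp continuous_fst)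
    (continuous_const.sub continuous_snd))

/-- the set of margins is measurable -/
private theorem rkd_measurableSet_Mg (ε x y : ℝ) :
    MeasurableSet {p : SLR × Pl | Mg ε x y p.1 p.2} := by
  have hbd : IsClosed (bdR x y) := by
    unfold bdR
    have h1 : Continuous fun w : Pl => w.1 := continuous_fst
    have h2 : Continuous fun w : Pl => w.2 := continuous_snd
    refine IsClosed.and (isClosed_le continuous_const h1) ?_
    refine IsClosed.and (isClosed_le h1 continuous_const) ?_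
    refine IsClosed.and (isClosed_le continuous_const h2) ?_
    refine IsClosed.and (isClosed_le h2 continuous_const) ?_
    exact (isClosed_eq h1 continuous_const).union ((isClosed_eq h1 continuous_const).union
      ((isClosed_eq h2 continuous_const).union (isClosed_eq h2 continuous_const)))
  have hcp : IsCompact (bdR x y) := by
    refine IsCompact.of_isClosed_subset (isCompact_Icc.prod isCompact_Icc :
      IsCompact (Icc (-x) 0 ×ˢ Icc (-y) 0)) hbd ?_
    intro w hw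
    exact ⟨⟨hw.1, hw.2.1⟩, ⟨hw.2.2.1, hw.2.2.2.1⟩⟩
  have hE : IsClosed {v : Pl | ∃ w ∈ bdR x y, |v.1 - w.1| ≤ ε ∧ |v.2 - w.2| ≤ ε} := by
    have h3 : IsCompact {d : Pl | |d.1| ≤ ε ∧ |d.2| ≤ ε} := by
      have : {d : Pl | |d.1| ≤ ε ∧ |d.2| ≤ ε} = Icc (-ε) ε ×ˢ Icc (-ε) ε := by
        ext d
        simp only [mem_ofPred_eq, mem_prod, mem_Icc, abs_le]
      rw [this]
      exact isCompact_Icc.prod isCompact_Icc
    have h4 : {v : Pl | ∃ w ∈ bdR x y, |v.1 - w.1| ≤ ε ∧ |v.2 - w.2| ≤ ε} =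
        (fun q : Pl × Pl => q.1 + q.2) '' (bdR x y ×ˢ {d : Pl | |d.1| ≤ ε ∧ |d.2| ≤ ε}) := by
      ext v
      constructor
      · rintro ⟨w, hw, h5, h6⟩
        exact ⟨(w, v - w), ⟨hw, h5, h6⟩, by simp⟩
      · rintro ⟨⟨w, d⟩, ⟨hw, h5, h6⟩, rfl⟩
        refine ⟨w, hw, ?_, ?_⟩
        · simpa using h5
        · simpa using h6
    rw [h4]
    exact ((hcp.prod h3).image (by fun_prop)).isClosed
  have hEq : {p : SLR × Pl | Mg ε x y p.1 p.2} = ⋂ z : ℤ × ℤ,
      (fun p : SLR × Pl => mv p.1⁻¹ (ZP z - p.2)) ⁻¹'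
        {v : Pl | ∃ w ∈ bdR x y, |v.1 - w.1| ≤ ε ∧ |v.2 - w.2| ≤ ε}ᶜ := by
    ext p
    simp only [Mg, mem_ofPred_eq, mem_iInter, mem_preimage, mem_compl_iff, not_exists, not_and]
  rw [hEq]
  exact MeasurableSet.iInter fun z =>
    (hE.isOpen_compl.preimage (rkd_cont_mvinv z)).measurableSet

private theorem rkd_tendsto (x : ℝ) :
    Tendsto (fun v : ℝ => Real.exp v * (Real.exp (-(x * Real.exp (-v))) - 1)) atTop
      (𝓝 (-x)) := by
  rcases eq_or_ne x 0 with rfl | hx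
  · simp
  have h1 : HasDerivAt (fun t : ℝ => Real.exp (-t)) (-1) 0 := by
    have h := (hasDerivAt_neg (0 : ℝ)).exp
    simpa using h
  have h2 : Tendsto (fun v : ℝ => x * Real.exp (-v)) atTop (𝓝[≠] 0) := by
    rw [tendsto_nhdsWithin_iff]
    refine ⟨?_, Eventually.of_forall fun v => ?_⟩
    · have h3 : Tendsto (fun v : ℝ => Real.exp (-v)) atTop (𝓝 0) :=
        Real.tendsto_exp_neg_atTop_nhds_zero
      simpa using h3.const_mul x
    · exact mul_ne_zero hx (Real.exp_pos _).ne'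
  have h3 := (hasDerivAt_iff_tendsto_slope.1 h1).comp h2
  have h4 := h3.const_mul x
  rw [mul_neg_one] at h4
  refine h4.congr fun v => ?_
  simp only [Function.comp_apply, slope_def_field, neg_zero, Real.exp_zero, sub_zero]
  rw [Real.exp_neg v]
  field_simp

private theorem rkd_mv_dg (h : SLR) (v c d : ℝ) :
    mv (h * dg v) (c, d) = mv h (Real.exp v * c, Real.exp (-v) * d) := by
  rw [mv_mul]
  congr 1
  simp [mv, dg]

private theorem rkd_seg_bdR {x y : ℝ} {W1 W2 : Pl}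
    (h : ∀ t : ℝ, 0 ≤ t → t ≤ 1 → ((1 - t) * W1.1 + t * W2.1, (1 - t) * W1.2 + t * W2.2) ∈ bdR x y) :
    ∀ w ∈ segment ℝ W1 W2, w ∈ bdR x y := by
  rintro w ⟨s, t, hs, ht, hst, rfl⟩
  have hs' : s = 1 - t := by linarith
  have h1 := h t ht (by linarith)
  have h2 : s • W1 + t • W2 = ((1 - t) * W1.1 + t * W2.1, (1 - t) * W1.2 + t * W2.2) := by
    ext
    · simp [hs']
    · simp [hs']
  rw [h2]
  exact h1

private theorem rkd_hol {H : Type*} [Group H] (a b : H) {ε x y c d e : ℝ} (hε : 0 < ε)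
    (hx : 0 < x) (hy : 0 < y) (hc : |c + x| ≤ ε) (hd : |d + y| ≤ ε) (he : |e + y| ≤ ε)
    (h : SLR) (Q : Pl) (hm : Mg ε x y h Q) :
    hol4 a b Q (Q + mv h (c, 0)) (Q + mv h (c, d)) (Q + mv h (0, e)) = Rect a b h Q x y := by
  have hQ : Q = Q + mv h (0, 0) := by
    have : mv h (0, 0) = 0 := by ext <;> simp [mv]
    rw [this, add_zero]
  have key : ∀ W1 W2 V1 V2 : Pl, (|V1.1 - W1.1| ≤ ε ∧ |V1.2 - W1.2| ≤ ε) →
      (|V2.1 - W2.1| ≤ ε ∧ |V2.2 - W2.2| ≤ ε) →
      (∀ t : ℝ, 0 ≤ t → t ≤ 1 →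
        ((1 - t) * W1.1 + t * W2.1, (1 - t) * W1.2 + t * W2.2) ∈ bdR x y) →
      LF4 (Q + mv h W1) (Q + mv h W2) (Q + mv h V2) (Q + mv h V1) := by
    intro W1 W2 V1 V2 h1 h2 h3
    exact LF4_of_margin h Q W1 W2 V1 V2 ε h1 h2 fun z w hw =>
      hm z w (rkd_seg_bdR h3 w hw)
  have hc' : |c - -x| ≤ ε := by rwa [sub_neg_eq_add]
  have hd' : |d - -y| ≤ ε := by rwa [sub_neg_eq_add]
  have he' : |e - -y| ≤ ε := by rwa [sub_neg_eq_add]
  have h0 : |(0 : ℝ) - 0| ≤ ε := by simpa using hε.le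
  have k1 := key (0, 0) (-x, 0) (0, 0) (c, 0) ⟨h0, h0⟩ ⟨hc', h0⟩ (by
    intro t h0 h1
    refine ⟨?_, ?_, ?_, ?_, ?_⟩
    · simp only; nlinarith
    · simp only; nlinarith
    · simp only; nlinarith
    · simp
    · right; right; left; simp)
  have k2 := key (-x, 0) (-x, -y) (c, 0) (c, d) ⟨hc', h0⟩ ⟨hc', hd'⟩ (by
    intro t h0 h1
    refine ⟨?_, ?_, ?_, ?_, ?_⟩
    · simp only; nlinarith
    · simp only; nlinarith
    · simp only; nlinarith
    · simp only; nlinarith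
    · right; left; simp only; ring)
  have k3 := key (-x, -y) (0, -y) (c, d) (0, e) ⟨hc', hd'⟩ ⟨h0, he'⟩ (by
    intro t h0 h1
    refine ⟨?_, ?_, ?_, ?_, ?_⟩
    · simp only; nlinarith
    · simp only; nlinarith
    · simp only; nlinarith
    · simp only; nlinarith
    · right; right; right; simp only; ring)
  have k4 := key (0, -y) (0, 0) (0, e) (0, 0) ⟨h0, he'⟩ ⟨h0, h0⟩ (by
    intro t h0 h1
    refine ⟨?_, ?_, ?_, ?_, ?_⟩
    · simp only; nlinarith
    · simp only; nlinarith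
    · simp only; nlinarith
    · simp only; nlinarith
    · left; simp)
  rw [← hQ] at k1 k4
  have h5 := hol4_conj a b k1 k2 k3 k4
  rw [tau_self, inv_one, mul_one, one_mul] at h5
  rw [h5, Rect]

theorem rkd {Λ : Type} [Fintype Λ] [DecidableEq Λ] {ρ : Measure Pl} (hρ : PerMeas ρ)
    {F : SLR × Pl → Lab Λ → ℝ} (hF : ∀ i, Measurable fun x => F x i) {C : ℝ}
    (hb : ∀ x i, |F x i| ≤ C) (hA : AutW ρ F)
    (hΦ : ∀ q, ∀ᵐ x ∂(muG.prod ρ), ∀ i, (wPhi q).act F x i = F x i)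
    {ε x y : ℝ} (hε : 0 < ε) (hx : 0 < x) (hy : 0 < y) :
    Tendsto (fun v : ℝ => ∫⁻ p in DF ∩ {p | Mg ε x y p.1 (p.2 + mv p.1 (Real.exp v, 0))},
      ∑ i : Lab Λ, ‖F (eR (dg v) p) (i.1, i.2.1, i.2.2.1,
          Rect i.1 i.2.1 p.1 (p.2 + mv p.1 (Real.exp v, 0)) x y i.2.2.2) -
        F (eR (dg v) p) i‖ₑ ∂(muG.prod ρ)) atTop (𝓝 0) := by
  -- the parameter
  have hu0 : Tendsto (fun v : ℝ => x * Real.exp (-v)) atTop (𝓝 0) := by
    simpa using Real.tendsto_exp_neg_atTop_nhds_zero.const_mul x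
  have hub : Tendsto (fun v : ℝ => N1 ρ (fun p i => (wB (-(x * Real.exp (-v)))).act F p i - F p i)
      + N1 ρ (fun p i => (wB (x * Real.exp (-v))).act F p i - F p i)) atTop (𝓝 0) := by
    have h1 := (N1_wB_tendsto hρ hF hb).comp hu0
    have h2 := (N1_wB_tendsto hρ hF hb).comp (by simpa using hu0.neg :
      Tendsto (fun v : ℝ => -(x * Real.exp (-v))) atTop (𝓝 0))
    simpa using h2.add h1
  refine tendsto_of_tendsto_of_tendsto_of_le_of_le' tendsto_const_nhds hub
    (Eventually.of_forall fun v => zero_le) ?_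
  have hc : ∀ᶠ v : ℝ in atTop,
      |Real.exp v * (Real.exp (-(x * Real.exp (-v))) - 1) + x| ≤ ε := by
    have h1 := ((rkd_tendsto x).add_const x).abs
    rw [neg_add_cancel, abs_zero] at h1
    exact h1.eventually (Iic_mem_nhds hε)
  have hd : ∀ᶠ v : ℝ in atTop, |-(y * Real.exp (x * Real.exp (-v))) + y| ≤ ε := by
    have h1 : Tendsto (fun v : ℝ => |-(y * Real.exp (x * Real.exp (-v))) + y|) atTop (𝓝 0) := by
      have h2 := ((((Real.continuous_exp.tendsto 0).comp hu0).const_mul y).neg.add_const y).abs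
      simpa using h2
    exact h1.eventually (Iic_mem_nhds hε)
  have he : ∀ᶠ v : ℝ in atTop, |-(y * Real.exp (2 * (x * Real.exp (-v)))) + y| ≤ ε := by
    have h1 : Tendsto (fun v : ℝ => |-(y * Real.exp (2 * (x * Real.exp (-v)))) + y|) atTop
        (𝓝 0) := by
      have h3 : Tendsto (fun v : ℝ => 2 * (x * Real.exp (-v))) atTop (𝓝 0) := by
        simpa using hu0.const_mul 2
      have h2 := ((((Real.continuous_exp.tendsto 0).comp h3).const_mul y).neg.add_const y).abs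
      simpa using h2
    exact h1.eventually (Iic_mem_nhds hε)
  filter_upwards [hc, hd, he] with v hc hd he
  set u : ℝ := x * Real.exp (-v) with hu
  set s : ℝ := y * Real.exp v with hs
  -- the pointwise identity
  have hpt : ∀ p : SLR × Pl, Mg ε x y p.1 (p.2 + mv p.1 (Real.exp v, 0)) → ∀ i : Lab Λ,
      F (eR (dg v) p) (i.1, i.2.1, i.2.2.1,
          Rect i.1 i.2.1 p.1 (p.2 + mv p.1 (Real.exp v, 0)) x y i.2.2.2) =
        actK s u F (eR (dg v) p) i := by
    intro p hp i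
    rw [actK_eq, eR_apply]
    simp only [rkd_mv_dg]
    have h0 : ∀ c d : ℝ, p.2 + mv p.1 (Real.exp v + c, d) =
        p.2 + mv p.1 (Real.exp v, 0) + mv p.1 (c, d) := by
      intro c d
      rw [add_assoc, ← mv_add]
      simp
    have e1 : p.2 + mv p.1 (Real.exp v * 1, Real.exp (-v) * 0) =
        p.2 + mv p.1 (Real.exp v, 0) := by rw [mul_one, mul_zero]
    have e2 : p.2 + mv p.1 (Real.exp v * Real.exp (-u), Real.exp (-v) * 0) =
        p.2 + mv p.1 (Real.exp v, 0) + mv p.1 (Real.exp v * (Real.exp (-u) - 1), 0) := by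
      rw [← h0]
      congr 2
      ext
      · simp; ring
      · simp
    have hexp : Real.exp (-v) * Real.exp v = 1 := by
      rw [← Real.exp_add, neg_add_cancel, Real.exp_zero]
    have e3 : p.2 + mv p.1 (Real.exp v * Real.exp (-u), Real.exp (-v) * -(s * Real.exp u)) =
        p.2 + mv p.1 (Real.exp v, 0) +
          mv p.1 (Real.exp v * (Real.exp (-u) - 1), -(y * Real.exp u)) := by
      rw [← h0]
      congr 2
      ext
      · simp; ring
      · simp only [hs]
        linear_combination (-(y * Real.exp u)) * hexp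
    have e4 : p.2 + mv p.1 (Real.exp v * 1, Real.exp (-v) * -(s * Real.exp (2 * u))) =
        p.2 + mv p.1 (Real.exp v, 0) + mv p.1 (0, -(y * Real.exp (2 * u))) := by
      rw [← h0]
      congr 2
      ext
      · simp
      · simp only [hs]
        linear_combination (-(y * Real.exp (2 * u))) * hexp
    rw [e1, e2, e3, e4, rkd_hol i.1 i.2.1 hε hx hy hc hd he p.1 _ hp]
  have hmS : MeasurableSet {p : SLR × Pl | Mg ε x y p.1 (p.2 + mv p.1 (Real.exp v, 0))} := by
    have h1 : Continuous fun p : SLR × Pl => (p.1, p.2 + mv p.1 (Real.exp v, 0)) :=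
      continuous_fst.prodMk (continuous_snd.add (continuous_mv.comp
        (continuous_fst.prodMk continuous_const)))
    exact h1.measurable (rkd_measurableSet_Mg ε x y)
  have hmK : ∀ i : Lab Λ, Measurable fun p => actK s u F p i := by
    intro i
    unfold actK
    exact act_measurable (wB_meas u) (fun j => act_measurable (wPhi_meas s) (fun j =>
      act_measurable (wB_meas (-u)) (fun j => act_measurable (wPhi_meas _) hF j) j) j) i
  have hmf : Measurable fun p => ∑ i : Lab Λ, ‖actK s u F p i - F p i‖ₑ :=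
    Finset.measurable_sum _ fun i _ => ((hmK i).sub (hF i)).enorm
  calc ∫⁻ p in DF ∩ {p | Mg ε x y p.1 (p.2 + mv p.1 (Real.exp v, 0))},
      ∑ i : Lab Λ, ‖F (eR (dg v) p) (i.1, i.2.1, i.2.2.1,
          Rect i.1 i.2.1 p.1 (p.2 + mv p.1 (Real.exp v, 0)) x y i.2.2.2) -
        F (eR (dg v) p) i‖ₑ ∂(muG.prod ρ)
      = ∫⁻ p in DF ∩ {p | Mg ε x y p.1 (p.2 + mv p.1 (Real.exp v, 0))},
        ∑ i : Lab Λ, ‖actK s u F (eR (dg v) p) i - F (eR (dg v) p) i‖ₑ ∂(muG.prod ρ) := by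
        refine setLIntegral_congr_fun (measurableSet_DF.inter hmS) ?_
        intro p hp
        simp only
        refine Finset.sum_congr rfl fun i _ => ?_
        rw [hpt p hp.2 i]
    _ ≤ ∫⁻ p in DF, ∑ i : Lab Λ, ‖actK s u F (eR (dg v) p) i - F (eR (dg v) p) i‖ₑ
          ∂(muG.prod ρ) := lintegral_mono_set inter_subset_left
    _ = ∫⁻ p in DF, ∑ i : Lab Λ, ‖actK s u F p i - F p i‖ₑ ∂(muG.prod ρ) :=
        DF_right hρ hmf ((AutW.actK hρ hA s u).sub hA).norm_sum (dg v)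
    _ ≤ _ := N1_actK_le hρ hF hb hA hΦ s u

/-- the set of margins is measurable -/
theorem measurableSet_Mg (ε x y : ℝ) : MeasurableSet {p : SLR × Pl | Mg ε x y p.1 p.2} :=
  rkd_measurableSet_Mg ε x y

end Pool.Agent.ILL
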