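import Pool.Agent.ILL.Defs

/-!
# ILL, part F: parallelogram-tiled translation surfaces and their straight line flow
-/

open MeasureTheory Set Filter Topology

namespace Pool.Agent.ILL

/-- Combinatorial data of a compact connected surface glued from finitely many copies (`Tile`) of the
parallelogram spanned by `w₁`, `w₂`: the right side of the tile `q` is glued by a translation to the left
side of `right q`, the upper side to the lower side of `up q`. -/
structure TiledSurface where
  /-- the set of tiles -/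
  Tile : Type
  [fin : Fintype Tile]
  [dec : DecidableEq Tile]
  [ne : Nonempty Tile]
  /-- the right neighbour -/
  right : Equiv.Perm Tile
  /-- the upper neighbour -/
  up : Equiv.Perm Tile
  /-- the surface is connected -/
  connected : ∀ q q' : Tile, ∃ g ∈ Subgroup.closure {right, up}, g q = q'
  /-- the lower side of the parallelogram -/
  w₁ : ℝ × ℝ
  /-- the left side of the parallelogram -/
  w₂ : ℝ × ℝ
  /-- the sides are linearly independent and positively oriented -/
  pos : 0 < w₁.1 * w₂.2 - w₁.2 * w₂.1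

attribute [instance] TiledSurface.fin TiledSurface.dec TiledSurface.ne

namespace TiledSurface

variable (S : TiledSurface)

/-- The disjoint union of the closed tiles. The point `(q, x, y)` is the point `x w₁ + y w₂` of the
closed tile `q`. -/
def Pre : Type := S.Tile × (Icc (0 : ℝ) 1) × (Icc (0 : ℝ) 1)

/-- the tiles are open and closed in the disjoint union -/
instance : TopologicalSpace S.Pre :=
  @instTopologicalSpaceProd S.Tile ((Icc (0 : ℝ) 1) × (Icc (0 : ℝ) 1)) ⊥ inferInstance

/-- the gluing of the sides -/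
inductive Glue : S.Pre → S.Pre → Prop
  | side (q : S.Tile) (y : Icc (0 : ℝ) 1) : Glue (q, 1, y) (S.right q, 0, y)
  | top (q : S.Tile) (x : Icc (0 : ℝ) 1) : Glue (q, x, 1) (S.up q, x, 0)

/-- the surface, with the quotient topology -/
def X : Type := Quot S.Glue

instance : TopologicalSpace S.X := inferInstanceAs (TopologicalSpace (Quot S.Glue))

/-- the point `v.1 w₁ + v.2 w₂` of the closed tile `q`, for `v` in the closed unit square -/
noncomputable def pt (q : S.Tile) (v : ℝ × ℝ) : S.X :=
  Quot.mk _ (q, projIcc 0 1 zero_le_one v.1, projIcc 0 1 zero_le_one v.2)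

/-- the chart of two adjacent tiles `q`, `right q`, on `(0,2) × (0,1)` -/
noncomputable def chH (q : S.Tile) (v : ℝ × ℝ) : S.X :=
  if v.1 ≤ 1 then S.pt q v else S.pt (S.right q) (v.1 - 1, v.2)

/-- the chart of two adjacent tiles `q`, `up q`, on `(0,1) × (0,2)` -/
noncomputable def chV (q : S.Tile) (v : ℝ × ℝ) : S.X :=
  if v.2 ≤ 1 then S.pt q v else S.pt (S.up q) (v.1, v.2 - 1)

/-- the chart of the four tiles `q`, `right q`, `up q`, `up (right q) = right (up q)` around a regular
vertex, on `(0,2) × (0,2)` -/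
noncomputable def chR (q : S.Tile) (v : ℝ × ℝ) : S.X :=
  if v.2 ≤ 1 then S.chH q v else S.chH (S.up q) (v.1, v.2 - 1)

/-- The charts of the surface away from the cone singularities, in the coordinates of the basis
`w₁, w₂`: domain `D` and parametrisation `c`. Four tiles around a vertex form a chart if they close
up. -/
def IsChart (D : Set (ℝ × ℝ)) (c : ℝ × ℝ → S.X) : Prop :=
  (∃ q, D = Ioo 0 2 ×ˢ Ioo 0 1 ∧ c = S.chH q) ∨
  (∃ q, D = Ioo 0 1 ×ˢ Ioo 0 2 ∧ c = S.chV q) ∨
  (∃ q, S.right (S.up q) = S.up (S.right q) ∧ D = Ioo 0 2 ×ˢ Ioo 0 2 ∧ c = S.chR q)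

/-- the regular points of the surface (all points except the cone singularities) -/
def Regular (p : S.X) : Prop := ∃ D c, S.IsChart D c ∧ ∃ v ∈ D, c v = p

/-- the coordinates, in the basis `w₁, w₂`, of the unit vector with angle `2πθ` -/
noncomputable def dir (θ : ℝ) : ℝ × ℝ :=
  ((Real.cos (2 * Real.pi * θ) * S.w₂.2 - Real.sin (2 * Real.pi * θ) * S.w₂.1) /
      (S.w₁.1 * S.w₂.2 - S.w₁.2 * S.w₂.1),
   (S.w₁.1 * Real.sin (2 * Real.pi * θ) - S.w₁.2 * Real.cos (2 * Real.pi * θ)) /
      (S.w₁.1 * S.w₂.2 - S.w₁.2 * S.w₂.1))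

/-- `γ` is a unit speed straight line trajectory of length `t` in direction `2πθ` starting at `p`: near
every time it is, in some chart, a straight line with velocity `dir θ`. (In particular it does not meet
the cone singularities.) -/
def IsTrajectory (p : S.X) (θ t : ℝ) (γ : ℝ → S.X) : Prop :=
  γ 0 = p ∧ ∀ s ∈ Icc 0 t, ∃ D c, S.IsChart D c ∧ ∃ v ∈ D, ∃ ε > 0, ∀ s' ∈ Icc 0 t, |s' - s| < ε →
    v + (s' - s) • S.dir θ ∈ D ∧ γ s' = c (v + (s' - s) • S.dir θ)

/-- `x` is the point reached from `p` at time `t` by the straight line flow in direction `2πθ` -/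
def Flow (p : S.X) (θ t : ℝ) (x : S.X) : Prop :=
  ∃ γ : ℝ → S.X, S.IsTrajectory p θ t γ ∧ γ t = x

/-- the integral with respect to the normalised area measure -/
noncomputable def mean (h : S.X → ℝ) : ℝ :=
  (∑ q : S.Tile, ∫ x in (0 : ℝ)..1, ∫ y in (0 : ℝ)..1, h (S.pt q (x, y))) /
    (Fintype.card S.Tile : ℝ)

/-! ## Auxiliary definitions -/

/-- the point of the surface over the point `A` of the plane with label `q` -/
noncomputable def pA (q : S.Tile) (A : ℝ × ℝ) : S.X := S.pt q (Int.fract A.1, Int.fract A.2)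

/-- the matrix of determinant one with `dir θ = s⁻¹ M e_θ`, `s² = ` area of the tile -/
noncomputable def scl : ℝ := √(S.w₁.1 * S.w₂.2 - S.w₁.2 * S.w₂.1)

/-- the normalised matrix -/
noncomputable def Mm : SLR :=
  ⟨!![S.w₂.2 / S.scl, -S.w₂.1 / S.scl; -S.w₁.2 / S.scl, S.w₁.1 / S.scl], by
    have h1 : S.scl * S.scl = S.w₁.1 * S.w₂.2 - S.w₁.2 * S.w₂.1 := Real.mul_self_sqrt S.pos.le
    have h2 : S.scl ≠ 0 := (Real.sqrt_pos.2 S.pos).ne'
    simp only [Matrix.det_fin_two, Matrix.of_apply, Matrix.cons_val', Matrix.cons_val_zero,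
      Matrix.cons_val_one, Matrix.cons_val_fin_one]
    field_simp
    rw [pow_two, h1]
    ring⟩

end TiledSurface

end Pool.Agent.ILL
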