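import Pool.Agent.ILL.SDefs

/-!
# SFA. Elementary facts on the surface

`projIcc` of a number of `[0,1]` is that number, of a number `≥ 1` it is `1`, etc. `pt_side`, `pt_top`: `Quot.sound`
(also for `y` outside `[0,1]`, both sides clamp in the same way). `continuous_pt`: quotient map composed with the
continuous map `v ↦ (q, projIcc v.1, projIcc v.2)` (`continuous_projIcc`; the topology on `Pre` is the product with
the discrete topology on the tiles). `pt_surj`: every point is `[(q,x,y)]`; if `x = 1` replace it by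
`(right q, 0, y)`, then if `y = 1` by `(up q', x, 0)`. `continuous_on_surface`: a function on `X` is continuous iff
its composition with the quotient map is; only the direction `h` continuous implies `h ∘ pt q` continuous is used.
-/

open MeasureTheory Set Filter Topology
open scoped ENNReal NNReal

namespace Pool.Agent.ILL

namespace TiledSurface
variable (S : TiledSurface)

theorem continuous_pt (q : S.Tile) : Continuous (S.pt q) := by
  have h1 : @Continuous (ℝ × ℝ) S.Pre _ _ (fun v : ℝ × ℝ =>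
      (q, projIcc (0 : ℝ) 1 zero_le_one v.1, projIcc (0 : ℝ) 1 zero_le_one v.2)) := by
    let _ : TopologicalSpace S.Tile := ⊥
    exact continuous_const.prodMk
      ((continuous_projIcc.comp continuous_fst).prodMk (continuous_projIcc.comp continuous_snd))
  exact continuous_quot_mk.comp h1

theorem pt_side (q : S.Tile) (y : ℝ) : S.pt q (1, y) = S.pt (S.right q) (0, y) := by
  have h := Quot.sound (Glue.side (S := S) q (projIcc 0 1 zero_le_one y))
  unfold pt
  simp only [projIcc_left, projIcc_right]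
  exact h

theorem pt_top (q : S.Tile) (x : ℝ) : S.pt q (x, 1) = S.pt (S.up q) (x, 0) := by
  have h := Quot.sound (Glue.top (S := S) q (projIcc 0 1 zero_le_one x))
  unfold pt
  simp only [projIcc_left, projIcc_right]
  exact h

private theorem SFA_mk (q : S.Tile) (x y : Icc (0 : ℝ) 1) :
    (Quot.mk S.Glue (q, x, y) : S.X) = S.pt q (x, y) := by
  unfold pt
  simp only [projIcc_val]

private theorem SFA_surj2 (q : S.Tile) (x y : ℝ) (hx0 : 0 ≤ x) (hx1 : x < 1) (hy0 : 0 ≤ y) (hy1 : y ≤ 1) :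
    ∃ q' : S.Tile, ∃ v : ℝ × ℝ, 0 ≤ v.1 ∧ v.1 < 1 ∧ 0 ≤ v.2 ∧ v.2 < 1 ∧ S.pt q (x, y) = S.pt q' v := by
  rcases hy1.lt_or_eq with h | h
  · exact ⟨q, (x, y), hx0, hx1, hy0, h, rfl⟩
  · refine ⟨S.up q, (x, 0), hx0, hx1, le_refl _, one_pos, ?_⟩
    rw [h, pt_top]

theorem pt_surj (p : S.X) : ∃ q : S.Tile, ∃ v : ℝ × ℝ, 0 ≤ v.1 ∧ v.1 < 1 ∧ 0 ≤ v.2 ∧ v.2 < 1 ∧
    p = S.pt q v := by
  obtain ⟨⟨q, x, y⟩, rfl⟩ := Quot.exists_rep p
  rw [SFA_mk]
  rcases x.2.2.lt_or_eq with h | h
  · exact S.SFA_surj2 q x y x.2.1 h y.2.1 y.2.2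
  · rw [h, pt_side]
    exact S.SFA_surj2 _ 0 y le_rfl one_pos y.2.1 y.2.2

theorem pA_add_int (q : S.Tile) (A : ℝ × ℝ) (z : ℤ × ℤ) : S.pA q (A + ZP z) = S.pA q A := by
  unfold pA ZP
  simp only [Prod.fst_add, Prod.snd_add, Int.fract_add_intCast]

/-- points of a closed tile, in absolute coordinates -/
theorem pA_eq_pt (q : S.Tile) (A : ℝ × ℝ) (i j : ℤ) (h1 : (i : ℝ) ≤ A.1) (h2 : A.1 < i + 1)
    (h3 : (j : ℝ) ≤ A.2) (h4 : A.2 < j + 1) : S.pA q A = S.pt q (A.1 - i, A.2 - j) := by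
  have e1 : ⌊A.1⌋ = i := Int.floor_eq_iff.2 ⟨h1, h2⟩
  have e2 : ⌊A.2⌋ = j := Int.floor_eq_iff.2 ⟨h3, h4⟩
  unfold pA
  rw [Int.fract, Int.fract, e1, e2]

end TiledSurface

end Pool.Agent.ILL
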