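import Pool.Agent.ILL.Sfa
import Pool.Agent.ILL.Apx

/-!
# SFB. Identification of points

`pt_inj`: let `v, v' ∈ [0,1)²`, `v ≠ (0,0)`, and `pt q v = pt q' v'`. Then `v = v'` and `q = q'`.
PROOF. Define `nf : Pre → Option (Tile × ℝ × ℝ)`: `none` at the four corners (`x, y ∈ {0,1}`); for non-corners
`some (right q, 0, y)` if `x = 1`, `some (up q, x, 0)` if `y = 1`, and `some (q, x, y)` otherwise. It respects `Glue`
(`side`: if `y ∈ {0,1}` both are corners, otherwise both are `(right q, 0, y)`; `top` in the same way), so it descends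
to the quotient (`Quot.lift`). For `v ∈ [0,1)²`, `v ≠ (0,0)`: `nf = some (q, v)`.

`pt_inj_vertex`: if `q` is regular at its lower left corner, i.e. `right (up⁻¹ (right⁻¹ q)) = up⁻¹ q`, and
`pt q (0,0) = pt q' (0,0)`, then `q' = q`.
PROOF. Let `R` be the equivalence relation on tiles generated by `up (right x) ∼ right (up x)`. Define on corners
`cf : (q,0,0) ↦ [q]`, `(q,1,0) ↦ [right q]`, `(q,0,1) ↦ [up q]`, `(q,1,1) ↦ [up (right q)]` in the quotient of the tiles
by `R`, and `cf = none` on non-corners. It respects `Glue`: `side` with `y = 0`: `(q,1,0) ∼ (right q,0,0)`;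
`y = 1`: `(q,1,1) ∼ (right q,0,1)`: `[up (right q)]` both; `top` with `x = 0`: `(q,0,1) ∼ (up q,0,0)`; `x = 1`:
`(q,1,1) ∼ (up q,1,0)`: `[up (right q)]` and `[right (up q)]`, equal. So `[q] = [q']`. The class of a regular `q` is
`{q}`: if `up (right x) = q` then `x = right⁻¹ up⁻¹ q = right⁻¹ (right (up⁻¹ (right⁻¹ q))) = up⁻¹ right⁻¹ q`, so
`right (up x) = q`; the same in the other direction; so the predicate `(· = q)` is invariant under the generating
relation and hence under `R`.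

`pA_inj`: `adm` at `A` (with the permutations `right`, `up`) and `pA q A = pA q' A'` imply `A' = A + ZP z` and
`q' = q`: with `v = fract A`, `v' = fract A'`: if `v ≠ 0` `pt_inj`; if `v = 0` (`A` a lattice point) then `v' = 0`
(the normal form `nf` is `none`, so the point `v' ∈ [0,1)²` is a corner) and `pt_inj_vertex` (`adm` at a lattice
point is the regularity).
-/

open MeasureTheory Set Filter Topology
open scoped ENNReal NNReal

namespace Pool.Agent.ILL

namespace TiledSurface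
variable (S : TiledSurface)

open Classical in
private noncomputable def SFB_nf (p : S.Pre) : Option (S.Tile × ℝ × ℝ) :=
  if ((p.2.1 : ℝ) = 0 ∨ (p.2.1 : ℝ) = 1) ∧ ((p.2.2 : ℝ) = 0 ∨ (p.2.2 : ℝ) = 1) then none
  else if (p.2.1 : ℝ) = 1 then some (S.right p.1, 0, p.2.2)
  else if (p.2.2 : ℝ) = 1 then some (S.up p.1, p.2.1, 0)
  else some (p.1, p.2.1, p.2.2)

private theorem SFB_nf_glue (p p' : S.Pre) (h : S.Glue p p') : S.SFB_nf p = S.SFB_nf p' := by
  cases h with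
  | side q y =>
    unfold SFB_nf
    simp only [Icc.coe_one, Icc.coe_zero, zero_ne_one, one_ne_zero, false_or, or_false, true_and,
      if_true, if_false]
    split_ifs with h1 h2
    · rfl
    · exact absurd (Or.inr h2) h1
    · rfl
  | top q x =>
    unfold SFB_nf
    simp only [Icc.coe_one, Icc.coe_zero, zero_ne_one, one_ne_zero, false_or, or_false, and_true,
      if_true, if_false]
    split_ifs with h1 h2
    · rfl
    · exact absurd (Or.inr h2) h1
    · rfl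

private theorem SFB_proj {x : ℝ} (h : 0 ≤ x ∧ x < 1) :
    ((projIcc (0 : ℝ) 1 zero_le_one x : Icc (0 : ℝ) 1) : ℝ) = x := by
  rw [projIcc_of_mem zero_le_one ⟨h.1, h.2.le⟩]

private theorem SFB_nf_pt (q : S.Tile) (v : ℝ × ℝ) (h1 : 0 ≤ v.1 ∧ v.1 < 1 ∧ 0 ≤ v.2 ∧ v.2 < 1) :
    Quot.lift S.SFB_nf S.SFB_nf_glue (S.pt q v) = if v = (0, 0) then none else some (q, v.1, v.2) := by
  show S.SFB_nf (q, projIcc 0 1 zero_le_one v.1, projIcc 0 1 zero_le_one v.2) = _
  unfold SFB_nf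
  simp only [SFB_proj ⟨h1.1, h1.2.1⟩, SFB_proj h1.2.2]
  have e1 : v.1 ≠ 1 := h1.2.1.ne
  have e2 : v.2 ≠ 1 := h1.2.2.2.ne
  by_cases hv : v = (0, 0)
  · rw [if_pos hv, if_pos]
    rw [hv]
    simp
  · rw [if_neg hv, if_neg, if_neg e1, if_neg e2]
    rintro ⟨h3, h4⟩
    exact hv (Prod.ext (h3.resolve_right e1) (h4.resolve_right e2))

theorem pt_inj {q q' : S.Tile} {v v' : ℝ × ℝ} (h1 : 0 ≤ v.1 ∧ v.1 < 1 ∧ 0 ≤ v.2 ∧ v.2 < 1)
    (h2 : 0 ≤ v'.1 ∧ v'.1 < 1 ∧ 0 ≤ v'.2 ∧ v'.2 < 1) (hv : v ≠ (0, 0))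
    (h : S.pt q v = S.pt q' v') : v = v' ∧ q = q' := by
  have e1 := S.SFB_nf_pt q v h1
  have e2 := S.SFB_nf_pt q' v' h2
  rw [h, e2, if_neg hv] at e1
  split_ifs at e1 with h3
  simp only [Option.some.injEq, Prod.mk.injEq] at e1
  exact ⟨(Prod.ext e1.2.1 e1.2.2).symm, e1.1.symm⟩

open Classical in
private noncomputable def SFB_cf (q₀ : S.Tile) (p : S.Pre) : Prop :=
  if (p.2.1 : ℝ) = 0 then
    (if (p.2.2 : ℝ) = 0 then p.1 = q₀ else if (p.2.2 : ℝ) = 1 then S.up p.1 = q₀ else False)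
  else if (p.2.1 : ℝ) = 1 then
    (if (p.2.2 : ℝ) = 0 then S.right p.1 = q₀ else if (p.2.2 : ℝ) = 1 then S.up (S.right p.1) = q₀ else False)
  else False

private theorem SFB_ia {T : Type} (f : Equiv.Perm T) (x : T) : f⁻¹ (f x) = x := by
  rw [← Equiv.Perm.mul_apply, inv_mul_cancel, Equiv.Perm.one_apply]

private theorem SFB_ai {T : Type} (f : Equiv.Perm T) (x : T) : f (f⁻¹ x) = x := by
  rw [← Equiv.Perm.mul_apply, mul_inv_cancel, Equiv.Perm.one_apply]

private theorem SFB_reg {q : S.Tile} (hq : S.right (S.up⁻¹ (S.right⁻¹ q)) = S.up⁻¹ q) (q' : S.Tile) :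
    S.up (S.right q') = q ↔ S.right (S.up q') = q := by
  constructor
  · intro h
    have h1 : S.right q' = S.up⁻¹ q := by rw [← h, SFB_ia]
    rw [← hq] at h1
    have h2 := S.right.injective h1
    rw [h2, SFB_ai, SFB_ai]
  · intro h
    have h1 : S.up q' = S.right⁻¹ q := by rw [← h, SFB_ia]
    have h2 : q' = S.up⁻¹ (S.right⁻¹ q) := by rw [← h1, SFB_ia]
    rw [h2, hq, SFB_ai]

private theorem SFB_cf_glue {q : S.Tile} (hq : S.right (S.up⁻¹ (S.right⁻¹ q)) = S.up⁻¹ q)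
    (p p' : S.Pre) (h : S.Glue p p') : S.SFB_cf q p = S.SFB_cf q p' := by
  cases h with
  | side q' y =>
    unfold SFB_cf
    simp only [Icc.coe_one, Icc.coe_zero, one_ne_zero, if_true, if_false]
  | top q' x =>
    unfold SFB_cf
    simp only [Icc.coe_one, Icc.coe_zero, one_ne_zero, if_true, if_false]
    split_ifs with h1 h2
    · rfl
    · exact propext (S.SFB_reg hq q')
    · rfl

private theorem SFB_cf_pt {q₀ : S.Tile} (hq : S.right (S.up⁻¹ (S.right⁻¹ q₀)) = S.up⁻¹ q₀) (q : S.Tile) :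
    Quot.lift (S.SFB_cf q₀) (S.SFB_cf_glue hq) (S.pt q (0, 0)) = (q = q₀) := by
  show S.SFB_cf q₀ (q, projIcc 0 1 zero_le_one 0, projIcc 0 1 zero_le_one 0) = _
  unfold SFB_cf
  simp only [projIcc_left, if_true]

theorem pt_inj_vertex {q q' : S.Tile} (hq : S.right (S.up⁻¹ (S.right⁻¹ q)) = S.up⁻¹ q)
    (h : S.pt q (0, 0) = S.pt q' (0, 0)) : q' = q := by
  have e1 := S.SFB_cf_pt hq q
  have e2 := S.SFB_cf_pt hq q'
  rw [h, e2] at e1
  rw [e1]

private theorem SFB_fr (A : ℝ × ℝ) : 0 ≤ (Int.fract A.1, Int.fract A.2).1 ∧ (Int.fract A.1, Int.fract A.2).1 < 1 ∧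
    0 ≤ (Int.fract A.1, Int.fract A.2).2 ∧ (Int.fract A.1, Int.fract A.2).2 < 1 :=
  ⟨Int.fract_nonneg _, Int.fract_lt_one _, Int.fract_nonneg _, Int.fract_lt_one _⟩

private theorem SFB_z {A A' : ℝ × ℝ} (h : (Int.fract A.1, Int.fract A.2) = (Int.fract A'.1, Int.fract A'.2)) :
    ∃ z : ℤ × ℤ, A' = A + ZP z := by
  rw [Prod.mk.injEq] at h
  refine ⟨(⌊A'.1⌋ - ⌊A.1⌋, ⌊A'.2⌋ - ⌊A.2⌋), ?_⟩
  have e1 := Int.floor_add_fract A.1
  have e2 := Int.floor_add_fract A'.1
  have e3 := Int.floor_add_fract A.2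
  have e4 := Int.floor_add_fract A'.2
  unfold ZP
  ext
  · simp only [Prod.fst_add]
    push_cast
    linarith [h.1]
  · simp only [Prod.snd_add]
    push_cast
    linarith [h.2]

theorem pA_inj {q q' : S.Tile} {A A' : ℝ × ℝ} (ha : adm S.right S.up A q)
    (h : S.pA q A = S.pA q' A') : (∃ z : ℤ × ℤ, A' = A + ZP z) ∧ q' = q := by
  unfold pA at h
  by_cases hv : (Int.fract A.1, Int.fract A.2) = ((0 : ℝ), (0 : ℝ))
  · have hv' : (Int.fract A'.1, Int.fract A'.2) = ((0 : ℝ), (0 : ℝ)) := by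
      by_contra hc
      have := (S.pt_inj (SFB_fr A') (SFB_fr A) hc h.symm).1
      exact hc (this.trans hv)
    refine ⟨SFB_z (hv.trans hv'.symm), ?_⟩
    rw [hv, hv'] at h
    rcases ha with h1 | h1
    · exfalso
      rw [Prod.mk.injEq] at hv
      apply h1 (⌊A.1⌋, ⌊A.2⌋)
      have e1 := Int.floor_add_fract A.1
      have e3 := Int.floor_add_fract A.2
      rw [hv.1, add_zero] at e1
      rw [hv.2, add_zero] at e3
      unfold ZP
      exact Prod.ext e1 e3
    · exact S.pt_inj_vertex h1 h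
  · obtain ⟨h1, h2⟩ := S.pt_inj (SFB_fr A) (SFB_fr A') hv h
    exact ⟨SFB_z h1, h2.symm⟩

end TiledSurface

end Pool.Agent.ILL
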