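import Pool.Agent.ILL.Defs

/-!
# TAUB. Basic algebra of the transport `tau`

H is an arbitrary group. Recall `tau a b A B = b^⌊B.2⌋ * prodR a b A B ⌊A.1⌋ n * b^(-⌊A.2⌋)` with
`n = ⌊B.1⌋ - ⌊A.1⌋` if this is nonnegative, and the inverse of the same expression with `A`, `B`
exchanged otherwise.

* `tau_inv`: by cases. If `⌊A.1⌋ = ⌊B.1⌋` both sides are computed with `n = 0`.
* `tau_colx`: `n = 0`.
* `ht_between`: for `A.1 < i ≤ B.1` (or `A.1 ≤ i < B.1`) the number `ht A B i` is the convex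
  combination `A.2 + t (B.2 - A.2)`, `t = (i - A.1)/(B.1 - A.1) ∈ [0,1]`, and the point
  `(i, ht A B i)` lies on `segment ℝ A B`.
* `tau_rowy`: all the heights lie in `[j, j+1)`, `j = ⌊A.2⌋ = ⌊B.2⌋`, by `ht_between` (a convex
  combination of two numbers of `[j, j+1)`), so `prodR = (cj a b j)^n = b^(-j) a^n b^j` (induction on `n`;
  the abscissae which occur are `⌊A.1⌋ + 1, ..., ⌊B.1⌋`, all in `(A.1, B.1]`). If `⌊A.1⌋ > ⌊B.1⌋` use
  `tau_inv`.
* `tau_mem`: all factors lie in the closure.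
* `prodR_add`: splitting of the product, induction on `n₂`.
* `prodR_congr`: the product only depends on the floors of the heights.
* `tau_add_int`: `ht (A+z) (B+z) (i+z.1) = ht A B i + z.2` (with the division by zero convention both
  slopes are equal as well), hence `cj a b ⌊·⌋` is conjugated by `b^(z.2)` and
  `prodR a b (A+z) (B+z) (m+z.1) n = b^(-z.2) * prodR a b A B m n * b^(z.2)` by induction; floors of
  the coordinates of `A + z`: `Int.floor_add_intCast`.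
-/

open MeasureTheory Set Filter Topology
open scoped ENNReal NNReal

namespace Pool.Agent.ILL

section
variable {H : Type*} [Group H] (a b : H)

theorem tau_inv (A B : Pl) : tau a b B A = (tau a b A B)⁻¹ := by
  unfold tau
  rcases lt_trichotomy ⌊A.1⌋ ⌊B.1⌋ with h | h | h
  · rw [if_neg (not_le.2 h), if_pos h.le]
  · rw [if_pos h.ge, if_pos h.le, h, sub_self, Int.toNat_zero]
    simp [prodR]
  · rw [if_pos h.le, if_neg (not_le.2 h), inv_inv]

theorem tau_colx {A B : Pl} (h : ⌊A.1⌋ = ⌊B.1⌋) : tau a b A B = b ^ (⌊B.2⌋ - ⌊A.2⌋) := by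
  unfold tau
  rw [if_pos h.le, h, sub_self, Int.toNat_zero, prodR, mul_one, ← zpow_add, sub_eq_add_neg]

theorem tau_self (A : Pl) : tau a b A A = 1 := by
  rw [tau_colx a b rfl, sub_self, zpow_zero]

/-- the point of the segment at an intermediate abscissa -/
theorem ht_between {A B : Pl} {i : ℤ} (h1 : A.1 ≤ i) (h2 : (i : ℝ) ≤ B.1) (h3 : A.1 < B.1) :
    ((i : ℝ), ht A B i) ∈ segment ℝ A B := by
  have h4 : 0 < B.1 - A.1 := sub_pos.2 h3
  refine ⟨1 - (i - A.1) / (B.1 - A.1), (i - A.1) / (B.1 - A.1), ?_, ?_, by ring, ?_⟩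
  · rw [sub_nonneg, div_le_one h4]
    linarith
  · exact div_nonneg (by linarith) h4.le
  · ext
    · simp only [Prod.fst_add, Prod.smul_fst, smul_eq_mul]
      field_simp
      ring
    · simp only [Prod.snd_add, Prod.smul_snd, smul_eq_mul, ht]
      field_simp
      ring

theorem ht_symm {A B : Pl} {i : ℤ} (h : A.1 ≠ B.1) : ht B A i = ht A B i := by
  have h1 : A.1 - B.1 ≠ 0 := sub_ne_zero.2 h
  have h2 : B.1 - A.1 ≠ 0 := sub_ne_zero.2 h.symm
  unfold ht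
  field_simp
  have h3 : B.1 - A.1 = -(A.1 - B.1) := by ring
  rw [h3]
  field_simp
  ring

private theorem cj_pow (j : ℤ) (n : ℕ) : cj a b j ^ n = b ^ (-j) * a ^ n * b ^ j := by
  induction n with
  | zero => simp
  | succ n ih =>
    rw [pow_succ, ih, pow_succ, cj]
    have h : b ^ j * b ^ (-j) = 1 := by rw [← zpow_add, add_neg_cancel, zpow_zero]
    calc b ^ (-j) * a ^ n * b ^ j * (b ^ (-j) * a * b ^ j)
        = b ^ (-j) * a ^ n * (b ^ j * b ^ (-j)) * a * b ^ j := by group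
      _ = b ^ (-j) * (a ^ n * a) * b ^ j := by rw [h]; group

private theorem floor_seg {x y : ℝ} {j : ℤ} (hx : ⌊x⌋ = j) (hy : ⌊y⌋ = j) {s t : ℝ} (hs : 0 ≤ s)
    (ht : 0 ≤ t) (hst : s + t = 1) : ⌊s * x + t * y⌋ = j := by
  rw [Int.floor_eq_iff] at hx hy ⊢
  have hs' : s = 1 - t := by linarith
  constructor
  · have h1 := mul_le_mul_of_nonneg_left hx.1 hs
    have h2 := mul_le_mul_of_nonneg_left hy.1 ht
    have h3 : s * (j : ℝ) + t * j = j := by rw [← add_mul, hst, one_mul]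
    linarith
  · have h3 : s * ((j : ℝ) + 1) + t * (j + 1) = j + 1 := by rw [← add_mul, hst, one_mul]
    have h2 := mul_le_mul_of_nonneg_left hy.2.le ht
    rcases hs.eq_or_lt with h | h
    · have ht1 : t = 1 := by linarith
      rw [← h, ht1]
      linarith [hy.2]
    · have h1 := mul_lt_mul_of_pos_left hx.2 h
      linarith

private theorem rowy_aux {A B : Pl} (h : ⌊A.2⌋ = ⌊B.2⌋) (n : ℕ) (hn : ⌊A.1⌋ + n ≤ ⌊B.1⌋) :
    prodR a b A B ⌊A.1⌋ n = cj a b ⌊A.2⌋ ^ n := by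
  induction n with
  | zero => rw [prodR, pow_zero]
  | succ n ih =>
    rw [prodR, ih (by push_cast at hn; omega), pow_succ']
    have h1 : A.1 ≤ ((⌊A.1⌋ + (n + 1 : ℕ) : ℤ) : ℝ) := by
      have := (Int.lt_floor_add_one A.1).le
      push_cast
      have h0 : (0 : ℝ) ≤ n := Nat.cast_nonneg n
      linarith
    have h2 : ((⌊A.1⌋ + (n + 1 : ℕ) : ℤ) : ℝ) ≤ B.1 := by
      have h3 : ((⌊A.1⌋ + (n + 1 : ℕ) : ℤ) : ℝ) ≤ (⌊B.1⌋ : ℝ) := by exact_mod_cast hn
      exact h3.trans (Int.floor_le _)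
    have h3 : A.1 < B.1 := by
      have := Int.lt_floor_add_one A.1
      push_cast at h2
      have h0 : (0 : ℝ) ≤ n := Nat.cast_nonneg n
      linarith
    obtain ⟨s, t, hs, ht', hst, he⟩ := ht_between h1 h2 h3
    have h4 : ht A B (⌊A.1⌋ + (n + 1 : ℕ)) = s * A.2 + t * B.2 := by
      have := congrArg Prod.snd he
      simpa using this.symm
    rw [h4, floor_seg rfl h.symm hs ht' hst]

theorem tau_rowy {A B : Pl} (h : ⌊A.2⌋ = ⌊B.2⌋) : tau a b A B = a ^ (⌊B.1⌋ - ⌊A.1⌋) := by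
  have key : ∀ A B : Pl, ⌊A.2⌋ = ⌊B.2⌋ → ⌊A.1⌋ ≤ ⌊B.1⌋ →
      tau a b A B = a ^ (⌊B.1⌋ - ⌊A.1⌋) := by
    intro A B h hle
    unfold tau
    rw [if_pos hle, rowy_aux a b h _ (by
      have := Int.toNat_of_nonneg (sub_nonneg.2 hle)
      omega), cj_pow, h]
    have h1 : b ^ ⌊B.2⌋ * b ^ (-⌊B.2⌋) = 1 := by rw [← zpow_add, add_neg_cancel, zpow_zero]
    have h2 : a ^ (⌊B.1⌋ - ⌊A.1⌋) = a ^ (⌊B.1⌋ - ⌊A.1⌋).toNat := by
      rw [← zpow_natCast, Int.toNat_of_nonneg (sub_nonneg.2 hle)]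
    rw [h2]
    calc b ^ ⌊B.2⌋ * (b ^ (-⌊B.2⌋) * a ^ (⌊B.1⌋ - ⌊A.1⌋).toNat * b ^ ⌊B.2⌋) * b ^ (-⌊B.2⌋)
        = (b ^ ⌊B.2⌋ * b ^ (-⌊B.2⌋)) * a ^ (⌊B.1⌋ - ⌊A.1⌋).toNat *
          (b ^ ⌊B.2⌋ * b ^ (-⌊B.2⌋)) := by simp only [mul_assoc]
      _ = a ^ (⌊B.1⌋ - ⌊A.1⌋).toNat := by rw [h1, one_mul, mul_one]
  rcases le_total ⌊A.1⌋ ⌊B.1⌋ with hle | hle
  · exact key A B h hle
  · rw [tau_inv a b B A, key B A h.symm hle, ← zpow_neg, neg_sub]

private theorem prodR_mem (A B : Pl) (m : ℤ) (n : ℕ) :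
    prodR a b A B m n ∈ Subgroup.closure {a, b} := by
  have ha : a ∈ Subgroup.closure {a, b} := Subgroup.subset_closure (by simp)
  have hb : b ∈ Subgroup.closure {a, b} := Subgroup.subset_closure (by simp)
  induction n with
  | zero => exact one_mem _
  | succ n ih =>
    rw [prodR]
    exact mul_mem (mul_mem (mul_mem (Subgroup.zpow_mem _ hb _) ha) (Subgroup.zpow_mem _ hb _)) ih

theorem tau_mem (A B : Pl) : tau a b A B ∈ Subgroup.closure {a, b} := by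
  have hb : b ∈ Subgroup.closure {a, b} := Subgroup.subset_closure (by simp)
  unfold tau
  split_ifs
  · exact mul_mem (mul_mem (Subgroup.zpow_mem _ hb _) (prodR_mem a b _ _ _ _))
      (Subgroup.zpow_mem _ hb _)
  · exact inv_mem (mul_mem (mul_mem (Subgroup.zpow_mem _ hb _) (prodR_mem a b _ _ _ _))
      (Subgroup.zpow_mem _ hb _))

theorem prodR_add (A B : Pl) (m : ℤ) (n₁ n₂ : ℕ) :
    prodR a b A B m (n₁ + n₂) = prodR a b A B (m + n₁) n₂ * prodR a b A B m n₁ := by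
  induction n₂ with
  | zero => simp [prodR]
  | succ n ih =>
    rw [← add_assoc, prodR, prodR, ih, mul_assoc]
    have h : m + ((n₁ + n + 1 : ℕ) : ℤ) = m + (n₁ : ℤ) + ((n + 1 : ℕ) : ℤ) := by
      push_cast
      ring
    rw [h]

theorem prodR_congr {A B A' B' : Pl} {m : ℤ} {n : ℕ}
    (h : ∀ i : ℤ, m < i → i ≤ m + n → ⌊ht A B i⌋ = ⌊ht A' B' i⌋) :
    prodR a b A B m n = prodR a b A' B' m n := by
  induction n with
  | zero => rfl
  | succ n ih =>
    rw [prodR, prodR, ih (fun i h1 h2 => h i h1 (by push_cast; omega)),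
      h (m + (n + 1 : ℕ)) (by push_cast; omega) le_rfl]

private theorem ht_add (A B : Pl) (z : ℤ × ℤ) (i : ℤ) :
    ht (A + ZP z) (B + ZP z) (i + z.1) = ht A B i + z.2 := by
  unfold ht ZP
  simp only [Prod.fst_add, Prod.snd_add, Int.cast_add]
  have h1 : B.2 + (z.2 : ℝ) - (A.2 + z.2) = B.2 - A.2 := by ring
  have h2 : B.1 + (z.1 : ℝ) - (A.1 + z.1) = B.1 - A.1 := by ring
  rw [h1, h2]
  ring

private theorem cj_add (j k : ℤ) : cj a b (j + k) = b ^ (-k) * cj a b j * b ^ k := by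
  unfold cj
  rw [neg_add, add_comm (-j) (-k), zpow_add, zpow_add]
  simp only [mul_assoc]

private theorem prodR_shift (A B : Pl) (z : ℤ × ℤ) (m : ℤ) (n : ℕ) :
    prodR a b (A + ZP z) (B + ZP z) (m + z.1) n = b ^ (-z.2) * prodR a b A B m n * b ^ z.2 := by
  induction n with
  | zero =>
    rw [prodR, prodR, mul_one, ← zpow_add, neg_add_cancel, zpow_zero]
  | succ n ih =>
    rw [prodR, prodR, ih]
    have h : m + z.1 + ((n + 1 : ℕ) : ℤ) = m + ((n + 1 : ℕ) : ℤ) + z.1 := by ring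
    rw [h, ht_add, Int.floor_add_intCast, cj_add]
    have h1 : b ^ z.2 * b ^ (-z.2) = 1 := by rw [← zpow_add, add_neg_cancel, zpow_zero]
    calc b ^ (-z.2) * cj a b ⌊ht A B (m + ((n + 1 : ℕ) : ℤ))⌋ * b ^ z.2 *
          (b ^ (-z.2) * prodR a b A B m n * b ^ z.2)
        = b ^ (-z.2) * cj a b ⌊ht A B (m + ((n + 1 : ℕ) : ℤ))⌋ * (b ^ z.2 * b ^ (-z.2)) *
          prodR a b A B m n * b ^ z.2 := by simp only [mul_assoc]
      _ = b ^ (-z.2) * (cj a b ⌊ht A B (m + ((n + 1 : ℕ) : ℤ))⌋ * prodR a b A B m n) *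
          b ^ z.2 := by
        rw [h1, mul_one]
        simp only [mul_assoc]

theorem tau_add_int (A B : Pl) (z : ℤ × ℤ) :
    tau a b (A + ZP z) (B + ZP z) = tau a b A B := by
  have hf1 : ∀ P : Pl, ⌊(P + ZP z).1⌋ = ⌊P.1⌋ + z.1 := by
    intro P
    exact Int.floor_add_intCast _ _
  have hf2 : ∀ P : Pl, ⌊(P + ZP z).2⌋ = ⌊P.2⌋ + z.2 := by
    intro P
    exact Int.floor_add_intCast _ _
  have key : ∀ A B : Pl, ∀ n : ℕ, b ^ (⌊B.2⌋ + z.2) *
      prodR a b (A + ZP z) (B + ZP z) (⌊A.1⌋ + z.1) n * b ^ (-(⌊A.2⌋ + z.2)) =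
      b ^ ⌊B.2⌋ * prodR a b A B ⌊A.1⌋ n * b ^ (-⌊A.2⌋) := by
    intro A B n
    rw [prodR_shift, zpow_add, neg_add, add_comm (-⌊A.2⌋) (-z.2), zpow_add]
    have h1 : b ^ z.2 * b ^ (-z.2) = 1 := by rw [← zpow_add, add_neg_cancel, zpow_zero]
    calc b ^ ⌊B.2⌋ * b ^ z.2 * (b ^ (-z.2) * prodR a b A B ⌊A.1⌋ n * b ^ z.2) *
          (b ^ (-z.2) * b ^ (-⌊A.2⌋))
        = b ^ ⌊B.2⌋ * (b ^ z.2 * b ^ (-z.2)) * prodR a b A B ⌊A.1⌋ n *
          (b ^ z.2 * b ^ (-z.2)) * b ^ (-⌊A.2⌋) := by simp only [mul_assoc]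
      _ = _ := by rw [h1, mul_one, mul_one]
  unfold tau
  rw [hf1, hf1, hf2, hf2, add_sub_add_right_eq_sub, add_sub_add_right_eq_sub, key, key]
  simp only [add_le_add_iff_right]

end

end Pool.Agent.ILL
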