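import Pool.Agent.ILL.Sfa
import Pool.Agent.ILL.TauB
import Pool.Agent.ILL.Apx

/-!
# SFJ. Uniform continuity along segments

For continuous `h` on `X` and `ε > 0` there is `δ > 0` such that for every lattice-free segment `AB` with
`dist A B < δ` and every label `q`: `|h (pA q A) - h (pA (tau A B q) B)| ≤ ε`.

PROOF. For every tile `q` the function `h ∘ pt q` is uniformly continuous on the compact square `[0,1]²`; choose `δ < 1`
for `ε/3` and all tiles. Let `i = ⌊A.1⌋, j = ⌊A.2⌋`, `i' = ⌊B.1⌋`, `j' = ⌊B.2⌋`; `|i-i'| ≤ 1`, `|j-j'| ≤ 1`.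
(a) `i = i'`, `j = j'`: `tau = 1` (`tau_rowy`), both points in one closed tile.
(b) `j = j'`, `i' = i+1` (or `i-1`, exchange `A`, `B` using `tau_inv`): let `C` be the point of the segment with
`C.1 = i+1`; `tau A B = right` (`tau_rowy`), `|h(pt q (A-(i,j))) - h(pt q (1, C.2-j))| ≤ ε/3`,
`pt q (1,y) = pt (right q) (0,y)`, `|h(pt (right q) (0,C.2-j)) - h(pt (right q) (B-(i+1,j)))| ≤ ε/3`.
(c) `i = i'`, `j' = j ± 1`: the same with `up` (`tau_colx`).
(d) both change: `tau A B` is computed from the definition: one crossing of a vertical line at the height `t` of the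
segment; `t ∉ ℤ` because the segment is lattice-free, and `⌊t⌋ ∈ {j, j'}`. Say `i' = i+1` (otherwise exchange):
`tau A B = up^j' * (up^(-⌊t⌋) right up^⌊t⌋) * up^(-j)`. If `⌊t⌋ = j`: `tau = up^(j'-j) right`: first cross the vertical
line at `C₁ = (i+1,t)`, then the horizontal line at a point `C₂`; if `⌊t⌋ = j'`: `tau = right up^(j'-j)`: first the
horizontal line. Three pieces, each in a closed tile.
-/

open MeasureTheory Set Filter Topology
open scoped ENNReal NNReal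

namespace Pool.Agent.ILL

namespace TiledSurface
variable (S : TiledSurface)

private theorem oneD (x y : ℝ) (h : |y - x| < 1) : ∃ t : ℝ, 0 ≤ t ∧ t ≤ 1 ∧ ∃ i i' : ℤ,
    (∀ s : ℝ, 0 ≤ s → s ≤ t → (i : ℝ) ≤ x + s * (y - x) ∧ x + s * (y - x) ≤ i + 1) ∧
    (∀ s : ℝ, t ≤ s → s ≤ 1 → (i' : ℝ) ≤ x + s * (y - x) ∧ x + s * (y - x) ≤ i' + 1) := by
  have key : ∀ x y : ℝ, x ≤ y → y < x + 1 → ∃ t : ℝ, 0 ≤ t ∧ t ≤ 1 ∧ ∃ i i' : ℤ,
    (∀ s : ℝ, 0 ≤ s → s ≤ t → (i : ℝ) ≤ x + s * (y - x) ∧ x + s * (y - x) ≤ i + 1) ∧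
    (∀ s : ℝ, t ≤ s → s ≤ 1 → (i' : ℝ) ≤ x + s * (y - x) ∧ x + s * (y - x) ≤ i' + 1) := by
    intro x y hxy hy
    have f1 := Int.floor_le x
    have f2 := Int.lt_floor_add_one x
    rcases le_or_gt y (⌊x⌋ + 1) with h1 | h1
    · refine ⟨1, zero_le_one, le_refl _, ⌊x⌋, ⌊x⌋, ?_, ?_⟩
      · intro s h2 h3
        constructor <;> nlinarith
      · intro s h2 h3
        have : s = 1 := le_antisymm h3 h2
        subst this
        constructor <;> linarith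
    · have hpos : 0 < y - x := by linarith
      refine ⟨(⌊x⌋ + 1 - x) / (y - x), div_nonneg (by linarith) hpos.le,
        (div_le_one hpos).2 (by linarith), ⌊x⌋, ⌊x⌋ + 1, ?_, ?_⟩
      · intro s h2 h3
        rw [le_div_iff₀ hpos] at h3
        constructor <;> nlinarith
      · intro s h2 h3
        rw [div_le_iff₀ hpos] at h2
        push_cast
        constructor <;> nlinarith
  rcases le_total x y with hxy | hxy
  · exact key x y hxy (by have := (abs_lt.1 h).2; linarith)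
  · obtain ⟨t, h0, h1, i, i', h2, h3⟩ := key y x hxy (by have := (abs_lt.1 h).1; linarith)
    refine ⟨1 - t, by linarith, by linarith, i', i, ?_, ?_⟩
    · intro s h4 h5
      have := h3 (1 - s) (by linarith) (by linarith)
      have e : y + (1 - s) * (x - y) = x + s * (y - x) := by ring
      rw [e] at this
      exact this
    · intro s h4 h5
      have := h2 (1 - s) (by linarith) (by linarith)
      have e : y + (1 - s) * (x - y) = x + s * (y - x) := by ring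
      rw [e] at this
      exact this

open Classical in
private noncomputable def lb (i j : ℤ) (A : ℝ × ℝ) (q : S.Tile) : S.Tile :=
  if ⌊A.1⌋ = i + 1 then S.right⁻¹ q else if ⌊A.2⌋ = j + 1 then S.up⁻¹ q else q

private def Inn (i j : ℤ) (A : ℝ × ℝ) : Prop :=
  (i : ℝ) ≤ A.1 ∧ A.1 ≤ i + 1 ∧ (j : ℝ) ≤ A.2 ∧ A.2 ≤ j + 1

private theorem flr {x : ℝ} {i : ℤ} (h1 : (i : ℝ) ≤ x) (h2 : x ≤ i + 1) :
    ⌊x⌋ = i ∧ x < i + 1 ∨ ⌊x⌋ = i + 1 ∧ x = i + 1 := by
  rcases h2.lt_or_eq with h | h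
  · exact Or.inl ⟨Int.floor_eq_iff.2 ⟨h1, h⟩, h⟩
  · refine Or.inr ⟨?_, h⟩
    rw [h]
    exact_mod_cast Int.floor_intCast (i + 1)

private theorem pA_lb {i j : ℤ} {A : ℝ × ℝ} (hA : Inn i j A) (hn : ∀ z : ℤ × ℤ, ZP z ≠ A)
    (q : S.Tile) : S.pA q A = S.pt (S.lb i j A q) (A.1 - i, A.2 - j) := by
  obtain ⟨h1, h2, h3, h4⟩ := hA
  rcases flr h1 h2 with ⟨f1, g1⟩ | ⟨f1, g1⟩
  · rcases flr h3 h4 with ⟨f2, g2⟩ | ⟨f2, g2⟩
    · rw [S.pA_eq_pt q A i j h1 g1 h3 g2]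
      simp [lb, f1, f2]
    · rw [S.pA_eq_pt q A i (j + 1) h1 g1 (by push_cast; exact g2.ge) (by push_cast; linarith)]
      have e1 : S.lb i j A q = S.up⁻¹ q := by simp [lb, f1, f2]
      have e2 : A.2 - j = 1 := by linarith
      have e3 : A.2 - ((j + 1 : ℤ) : ℝ) = 0 := by push_cast; linarith
      rw [e1, e2, e3, S.pt_top]
      simp
  · rcases flr h3 h4 with ⟨f2, g2⟩ | ⟨f2, g2⟩
    · rw [S.pA_eq_pt q A (i + 1) j (by push_cast; exact g1.ge) (by push_cast; linarith) h3 g2]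
      have e1 : S.lb i j A q = S.right⁻¹ q := by simp [lb, f1]
      have e2 : A.1 - i = 1 := by linarith
      have e3 : A.1 - ((i + 1 : ℤ) : ℝ) = 0 := by push_cast; linarith
      rw [e1, e2, e3, S.pt_side]
      simp
    · exfalso
      refine hn (i + 1, j + 1) ?_
      ext <;> simp [ZP, g1, g2]

private theorem lb_tau1 {i j : ℤ} {A B : ℝ × ℝ} (hA : Inn i j A) (hB : Inn i j B)
    (hn : ∀ z : ℤ × ℤ, ZP z ≠ A) (hn' : ∀ z : ℤ × ℤ, ZP z ≠ B) (q : S.Tile)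
    (hle : ⌊A.1⌋ ≤ ⌊B.1⌋) :
    S.lb i j B (tau S.right S.up A B q) = S.lb i j A q := by
  obtain ⟨h1, h2, h3, h4⟩ := hA
  obtain ⟨h1', h2', h3', h4'⟩ := hB
  have hx : ⌊A.1⌋ = i + 1 → ⌊A.2⌋ = j := by
    intro h
    rcases flr h1 h2 with ⟨f1, g1⟩ | ⟨f1, g1⟩
    · omega
    rcases flr h3 h4 with ⟨f2, g2⟩ | ⟨f2, g2⟩
    · exact f2
    · exfalso
      refine hn (i + 1, j + 1) ?_
      ext <;> simp [ZP, g1, g2]
  have hx' : ⌊B.1⌋ = i + 1 → ⌊B.2⌋ = j := by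
    intro h
    rcases flr h1' h2' with ⟨f1, g1⟩ | ⟨f1, g1⟩
    · omega
    rcases flr h3' h4' with ⟨f2, g2⟩ | ⟨f2, g2⟩
    · exact f2
    · exfalso
      refine hn' (i + 1, j + 1) ?_
      ext <;> simp [ZP, g1, g2]
  rcases flr h1 h2 with ⟨f1, g1⟩ | ⟨f1, g1⟩
  · rcases flr h1' h2' with ⟨f1', g1'⟩ | ⟨f1', g1'⟩
    · rw [tau_colx _ _ (f1.trans f1'.symm)]
      rcases flr h3 h4 with ⟨f2, -⟩ | ⟨f2, -⟩ <;> rcases flr h3' h4' with ⟨f2', -⟩ | ⟨f2', -⟩ <;>
        simp [lb, f1, f1', f2, f2']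
    · have f2' := hx' f1'
      rcases flr h3 h4 with ⟨f2, -⟩ | ⟨f2, -⟩
      · rw [tau_rowy _ _ (f2.trans f2'.symm), f1, f1']
        simp [lb, f1, f1', f2]
      · have e : ht A B (⌊A.1⌋ + (1 : ℕ)) = B.2 := by
          have hne : B.1 - A.1 ≠ 0 := by
            rw [g1']
            exact (sub_pos.2 g1).ne'
          unfold ht
          rw [f1]
          have e2 : (((i + (1 : ℕ) : ℤ) : ℝ) - A.1) = B.1 - A.1 := by
            push_cast; rw [g1']
          rw [e2, mul_div_cancel₀ _ hne]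
          ring
        have e3 : tau S.right S.up A B = S.right * S.up⁻¹ := by
          unfold tau
          rw [if_pos hle]
          have e4 : (⌊B.1⌋ - ⌊A.1⌋).toNat = 1 := by rw [f1, f1']; simp
          rw [e4]
          simp only [prodR]
          have e5 : ((0 + 1 : ℕ) : ℤ) = (1 : ℕ) := rfl
          rw [e, f2', f2, cj]
          group
        rw [e3]
        simp [lb, f1, f1', f2]
  · have f1' : ⌊B.1⌋ = i + 1 := by
      rcases flr h1' h2' with ⟨f1', g1'⟩ | ⟨f1', g1'⟩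
      · omega
      · exact f1'
    rw [tau_rowy _ _ ((hx f1).trans (hx' f1').symm), f1, f1']
    simp [lb, f1, f1']

private theorem lb_tau {i j : ℤ} {A B : ℝ × ℝ} (hA : Inn i j A) (hB : Inn i j B)
    (hn : ∀ z : ℤ × ℤ, ZP z ≠ A) (hn' : ∀ z : ℤ × ℤ, ZP z ≠ B) (q : S.Tile) :
    S.lb i j B (tau S.right S.up A B q) = S.lb i j A q := by
  rcases le_total ⌊A.1⌋ ⌊B.1⌋ with hle | hle
  · exact S.lb_tau1 hA hB hn hn' q hle
  · have h1 := S.lb_tau1 hB hA hn' hn (tau S.right S.up A B q) hle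
    rw [← h1, tau_inv S.right S.up A B]
    simp

private noncomputable def FF (h : S.X → ℝ) (v : ℝ × ℝ) (q : S.Tile) : ℝ := h (S.pt q v)

private theorem FF_cont {h : S.X → ℝ} (hh : Continuous h) : Continuous (S.FF h) :=
  continuous_pi fun q => hh.comp (S.continuous_pt q)

theorem modulus {h : S.X → ℝ} (hh : Continuous h) {ε : ℝ} (hε : 0 < ε) :
    ∃ δ > 0, ∀ (A B : ℝ × ℝ) (q : S.Tile), LF A B → dist A B < δ →
      |h (S.pA q A) - h (S.pA (tau S.right S.up A B q) B)| ≤ ε := by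
  have hK : IsCompact (Icc (0 : ℝ) 1 ×ˢ Icc (0 : ℝ) 1) := isCompact_Icc.prod isCompact_Icc
  have hu := hK.uniformContinuousOn_of_continuous (S.FF_cont hh).continuousOn
  rw [Metric.uniformContinuousOn_iff] at hu
  obtain ⟨δ₀, hδ₀, hu⟩ := hu (ε / 3) (by positivity)
  have piece : ∀ (A B : ℝ × ℝ) (q : S.Tile) (i j : ℤ), Inn i j A → Inn i j B →
      (∀ z : ℤ × ℤ, ZP z ≠ A) → (∀ z : ℤ × ℤ, ZP z ≠ B) → dist A B < δ₀ →
      |h (S.pA q A) - h (S.pA (tau S.right S.up A B q) B)| ≤ ε / 3 := by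
    intro A B q i j hA hB hn hn' hd
    rw [S.pA_lb hA hn, S.pA_lb hB hn', S.lb_tau hA hB hn hn']
    have hm : ∀ C : ℝ × ℝ, Inn i j C →
        ((C.1 - i, C.2 - j) : ℝ × ℝ) ∈ Icc (0 : ℝ) 1 ×ˢ Icc (0 : ℝ) 1 := by
      rintro C ⟨h1, h2, h3, h4⟩
      refine ⟨⟨?_, ?_⟩, ⟨?_, ?_⟩⟩ <;> simp only <;> linarith
    have h1 := hu _ (hm A hA) _ (hm B hB) (by
      have e : dist ((A.1 - i, A.2 - j) : ℝ × ℝ) (B.1 - i, B.2 - j) = dist A B := by
        simp [Prod.dist_eq, Real.dist_eq]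
      rw [e]; exact hd)
    have h2 := (dist_le_pi_dist (S.FF h (A.1 - i, A.2 - j)) (S.FF h (B.1 - i, B.2 - j))
      (S.lb i j A q)).trans h1.le
    rw [Real.dist_eq] at h2
    exact h2
  refine ⟨min δ₀ 1, lt_min hδ₀ one_pos, ?_⟩
  intro A B q hLF hd
  have hd0 : dist A B < δ₀ := hd.trans_le (min_le_left _ _)
  have hd1 : dist A B < 1 := hd.trans_le (min_le_right _ _)
  rw [Prod.dist_eq, max_lt_iff, Real.dist_eq, Real.dist_eq, abs_sub_comm A.1, abs_sub_comm A.2]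
    at hd1
  obtain ⟨t₁, ht10, ht11, i, i', hi, hi'⟩ := oneD A.1 B.1 hd1.1
  obtain ⟨t₂, ht20, ht21, j, j', hj, hj'⟩ := oneD A.2 B.2 hd1.2
  -- the points of the segment
  let c : ℝ → ℝ × ℝ := fun t => (A.1 + t * (B.1 - A.1), A.2 + t * (B.2 - A.2))
  have hc0 : c 0 = A := by ext <;> simp [c]
  have hc1 : c 1 = B := by ext <;> simp [c]
  have hcs : ∀ t : ℝ, 0 ≤ t → t ≤ 1 → c t ∈ segment ℝ A B := by
    intro t h0 h1
    refine ⟨1 - t, t, by linarith, h0, by ring, ?_⟩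
    ext <;> simp [c] <;> ring
  have hcn : ∀ t : ℝ, 0 ≤ t → t ≤ 1 → ∀ z : ℤ × ℤ, ZP z ≠ c t := by
    intro t h0 h1 z hz
    exact hLF z (hz ▸ hcs t h0 h1)
  have hcss : ∀ s t : ℝ, 0 ≤ s → s ≤ t → c s ∈ segment ℝ A (c t) := by
    intro s t h0 h1
    rcases h0.eq_or_lt with h | h
    · rw [← h, hc0]; exact left_mem_segment ℝ _ _
    · have htpos : 0 < t := h.trans_le h1
      refine ⟨1 - s / t, s / t, ?_, by positivity, by ring, ?_⟩
      · rw [sub_nonneg, div_le_one htpos]; exact h1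
      · ext
        · simp [c]; field_simp; ring
        · simp [c]; field_simp; ring
  have hcd : ∀ s t : ℝ, 0 ≤ s → s ≤ t → t ≤ 1 → dist (c s) (c t) < δ₀ := by
    intro s t h0 h1 h2
    refine lt_of_le_of_lt ?_ hd0
    rw [Prod.dist_eq, Prod.dist_eq]
    have key : ∀ x y : ℝ, dist (x + s * (y - x)) (x + t * (y - x)) ≤ dist x y := by
      intro x y
      rw [Real.dist_eq, Real.dist_eq]
      have e : x + s * (y - x) - (x + t * (y - x)) = (t - s) * (x - y) := by ring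
      rw [e, abs_mul, abs_of_nonneg (by linarith)]
      have := abs_nonneg (x - y)
      nlinarith
    exact max_le_max (key _ _) (key _ _)
  have fin : ∀ s t : ℝ, 0 ≤ s → s ≤ t → t ≤ 1 →
      (∃ i j, ∀ r, 0 ≤ r → r ≤ s → Inn i j (c r)) → (∃ i j, ∀ r, s ≤ r → r ≤ t → Inn i j (c r)) →
      (∃ i j, ∀ r, t ≤ r → r ≤ 1 → Inn i j (c r)) →
      |h (S.pA q A) - h (S.pA (tau S.right S.up A B q) B)| ≤ ε := by
    intro s t h0 h1 h2 ⟨i1, j1, k1⟩ ⟨i2, j2, k2⟩ ⟨i3, j3, k3⟩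
    have e1 := apx_split S.right S.up (hcs t (h0.trans h1) h2)
    have e2 := apx_split S.right S.up (hcss s t h0 h1)
    have p1 := piece (c 0) (c s) q i1 j1 (k1 0 (le_refl _) h0) (k1 s h0 (le_refl _))
      (hcn 0 (le_refl _) zero_le_one) (hcn s h0 (h1.trans h2)) (hcd 0 s (le_refl _) h0
        (h1.trans h2))
    have p2 := piece (c s) (c t) (tau S.right S.up (c 0) (c s) q) i2 j2 (k2 s (le_refl _) h1)
      (k2 t h1 (le_refl _)) (hcn s h0 (h1.trans h2)) (hcn t (h0.trans h1) h2)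
      (hcd s t h0 h1 h2)
    have p3 := piece (c t) (c 1) (tau S.right S.up (c s) (c t) (tau S.right S.up (c 0) (c s) q))
      i3 j3 (k3 t (le_refl _) h2) (k3 1 h2 (le_refl _)) (hcn t (h0.trans h1) h2)
      (hcn 1 zero_le_one (le_refl _)) (hcd t 1 (h0.trans h1) h2 (le_refl _))
    rw [hc0] at p1 p2 p3
    rw [hc1] at p3
    have e3 : tau S.right S.up A B q = tau S.right S.up (c t) B
        (tau S.right S.up (c s) (c t) (tau S.right S.up A (c s) q)) := by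
      rw [← e1, ← e2]
      rfl
    rw [e3]
    rw [abs_le] at p1 p2 p3 ⊢
    constructor
    · linarith [p1.1, p2.1, p3.1]
    · linarith [p1.2, p2.2, p3.2]
  rcases le_total t₁ t₂ with h12 | h12
  · refine fin t₁ t₂ ht10 h12 ht21 ⟨i, j, fun r h3 h4 => ?_⟩ ⟨i', j, fun r h3 h4 => ?_⟩
      ⟨i', j', fun r h3 h4 => ?_⟩
    · exact ⟨(hi r h3 h4).1, (hi r h3 h4).2, (hj r h3 (h4.trans h12)).1,
        (hj r h3 (h4.trans h12)).2⟩
    · exact ⟨(hi' r h3 (h4.trans ht21)).1, (hi' r h3 (h4.trans ht21)).2,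
        (hj r (ht10.trans h3) h4).1, (hj r (ht10.trans h3) h4).2⟩
    · exact ⟨(hi' r (h12.trans h3) h4).1, (hi' r (h12.trans h3) h4).2, (hj' r h3 h4).1,
        (hj' r h3 h4).2⟩
  · refine fin t₂ t₁ ht20 h12 ht11 ⟨i, j, fun r h3 h4 => ?_⟩ ⟨i, j', fun r h3 h4 => ?_⟩
      ⟨i', j', fun r h3 h4 => ?_⟩
    · exact ⟨(hi r h3 (h4.trans h12)).1, (hi r h3 (h4.trans h12)).2, (hj r h3 h4).1,
        (hj r h3 h4).2⟩
    · exact ⟨(hi r (ht20.trans h3) h4).1, (hi r (ht20.trans h3) h4).2,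
        (hj' r h3 (h4.trans ht11)).1, (hj' r h3 (h4.trans ht11)).2⟩
    · exact ⟨(hi' r h3 h4).1, (hi' r h3 h4).2, (hj' r (h12.trans h3) h4).1,
        (hj' r (h12.trans h3) h4).2⟩

theorem bounded_h {h : S.X → ℝ} (hh : Continuous h) : ∃ C : ℝ, 0 ≤ C ∧ ∀ x, |h x| ≤ C := by
  have hK : IsCompact (Icc (0 : ℝ) 1 ×ˢ Icc (0 : ℝ) 1) := isCompact_Icc.prod isCompact_Icc
  obtain ⟨C, hC⟩ := hK.exists_bound_of_continuousOn (S.FF_cont hh).continuousOn
  refine ⟨C, (norm_nonneg _).trans (hC (0, 0) (by simp)), ?_⟩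
  intro x
  obtain ⟨q, v, h1, h2, h3, h4, rfl⟩ := S.pt_surj x
  exact (norm_le_pi_norm (S.FF h v) q).trans (hC v ⟨⟨h1, h2.le⟩, ⟨h3, h4.le⟩⟩)

theorem measurable_hpA {h : S.X → ℝ} (hh : Continuous h) (q : S.Tile) :
    Measurable fun A : ℝ × ℝ => h (S.pA q A) := by
  have h1 : Measurable (h ∘ S.pt q) := (hh.comp (S.continuous_pt q)).measurable
  exact h1.comp ((measurable_fract.comp measurable_fst).prodMk
    (measurable_fract.comp measurable_snd))

end TiledSurface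

end Pool.Agent.ILL
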