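import Pool.Agent.ILL.Lab
import Pool.Agent.ILL.Apx
import Pool.Agent.ILL.Gna

/-!
# SFK. Averaging along short arcs

General data: `H : Λ → Pl → ℝ` measurable, bounded by `C`, with the modulus property `hmod`. `x_θ = (M rot θ dg u, P)`,
`T = e^u`, `Q_θ = P + mv x_θ.1 (1,0) = P + T M e_θ`, `F(θ) = H (tau P Q_θ q₀) Q_θ` (period one in `θ`).

For `s ∈ [0,S]` let `σ = arctan(s/T²)/(2π)`. `X_s = P + mv x_θ.1 (1,s) = P + M (T e_θ + (s/T) e_θ^⊥) =
P + (T/cos 2πσ) M e_{θ+σ}` and `Q_{θ+σ} = P + T M e_{θ+σ}` are on one ray through `P`, `Q_{θ+σ}` between `P` and `X_s`,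
`dist (Q_{θ+σ}) X_s ≤ ‖M‖ T (1/cos 2πσ - 1) ≤ ‖M‖ s²/(2T³)`, and `dist X_s Q_θ ≤ ‖M‖ s/T`. For `θ` outside a
countable set (depending on `s`, `u`) the ray segment `[P, X_s]` has no lattice point except `P` and the segment
`[X_s,Q_θ]` has none; then `tau P X_s q₀ = tau Q_{θ+σ} X_s (tau P Q_{θ+σ} q₀)` (`apex_add`) and with `hmod` twice
`|F(θ+σ) - H (labS x_θ a b q₀ s) Q_θ| ≤ 2ε'` for `T` large (`labS = (tau Q_θ X_s)⁻¹ tau P X_s q₀`, `tau_inv`).
Integrate over `θ` (`∫_0^1 F(θ+σ) dθ = ∫_0^1 F`), average over `s ∈ [0,S]`, Fubini, and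
`(1/S) ∫_0^S H (labS s) Q ds = Σ_q DS q · H q Q` (split according to the value of `labS`).
(Exceptional sets: `[P,X_s]` contains a lattice point `z ≠ P` for at most countably many `θ`, and `[X_s,Q_θ]`
contains a lattice point: `mv x_θ.1⁻¹ (z-P)` has first coordinate `1`, i.e. `e_θ · M⁻¹(z-P) = T`: at most two `θ`
per `z ≠ P`.)
-/

open MeasureTheory Set Filter Topology
open scoped ENNReal NNReal

namespace Pool.Agent.ILL

section
variable {Λ : Type} [Fintype Λ] [DecidableEq Λ]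

private theorem SFK_cnt {u1 u2 c : ℝ} (h : ¬ (u1 = 0 ∧ u2 = 0)) :
    {θ : ℝ | u1 * Real.cos (2 * Real.pi * θ) + u2 * Real.sin (2 * Real.pi * θ) = c}.Countable := by
  let z : ℂ := ⟨u1, u2⟩
  have hz : z ≠ 0 := by
    intro h0
    exact h ⟨congrArg Complex.re h0, congrArg Complex.im h0⟩
  have hr : 0 < ‖z‖ := norm_pos_iff.2 hz
  have h1 : ‖z‖ * Real.cos (Complex.arg z) = u1 := Complex.norm_mul_cos_arg z
  have h2 : ‖z‖ * Real.sin (Complex.arg z) = u2 := Complex.norm_mul_sin_arg z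
  have hc : (⋃ k : ℤ, ({(Complex.arg z + 2 * k * Real.pi + Real.arccos (c / ‖z‖)) / (2 * Real.pi),
      (Complex.arg z + 2 * k * Real.pi - Real.arccos (c / ‖z‖)) / (2 * Real.pi)} :
      Set ℝ)).Countable := countable_iUnion fun k => by
        simp
  refine hc.mono ?_
  intro θ hθ
  have h3 : Real.cos (2 * Real.pi * θ - Complex.arg z) = c / ‖z‖ := by
    rw [eq_div_iff hr.ne', Real.cos_sub]
    have hθ' : u1 * Real.cos (2 * Real.pi * θ) + u2 * Real.sin (2 * Real.pi * θ) = c := hθ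
    rw [← hθ', ← h1, ← h2]
    ring
  have h4 : Real.cos (Real.arccos (c / ‖z‖)) = Real.cos (2 * Real.pi * θ - Complex.arg z) := by
    rw [Real.cos_arccos, h3]
    · rw [← h3]; exact Real.neg_one_le_cos _
    · rw [← h3]; exact Real.cos_le_one _
  obtain ⟨k, hk⟩ := Real.cos_eq_cos_iff.1 h4
  have hpi : (2 * Real.pi) ≠ 0 := by positivity
  rw [mem_iUnion]
  refine ⟨k, ?_⟩
  rcases hk with hk | hk
  · left
    rw [eq_div_iff hpi]
    linarith
  · right
    rw [mem_singleton_iff, eq_div_iff hpi]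
    linarith

/-- the sum of the entries of the matrix -/
private noncomputable def nrmM (M : SLR) : ℝ := |M 0 0| + |M 0 1| + |M 1 0| + |M 1 1|

private theorem SFK_dist (M : SLR) (P v v' : Pl) {r : ℝ} (h1 : |v.1 - v'.1| ≤ r)
    (h2 : |v.2 - v'.2| ≤ r) : dist (P + mv M v) (P + mv M v') ≤ nrmM M * r := by
  have hr : 0 ≤ r := (abs_nonneg _).trans h1
  have a1 := abs_nonneg (M 0 0)
  have a2 := abs_nonneg (M 0 1)
  have a3 := abs_nonneg (M 1 0)
  have a4 := abs_nonneg (M 1 1)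
  have key : ∀ x y : ℝ, |x * (v.1 - v'.1) + y * (v.2 - v'.2)| ≤ (|x| + |y|) * r := by
    intro x y
    refine (abs_add_le _ _).trans ?_
    rw [abs_mul, abs_mul, add_mul]
    exact add_le_add (mul_le_mul_of_nonneg_left h1 (abs_nonneg _))
      (mul_le_mul_of_nonneg_left h2 (abs_nonneg _))
  rw [Prod.dist_eq, Real.dist_eq, Real.dist_eq]
  refine max_le ?_ ?_
  · have e : (P + mv M v).1 - (P + mv M v').1 = M 0 0 * (v.1 - v'.1) + M 0 1 * (v.2 - v'.2) := by
      simp only [mv, Prod.fst_add]; ring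
    rw [e]
    refine (key _ _).trans (mul_le_mul_of_nonneg_right ?_ hr)
    unfold nrmM; linarith
  · have e : (P + mv M v).2 - (P + mv M v').2 = M 1 0 * (v.1 - v'.1) + M 1 1 * (v.2 - v'.2) := by
      simp only [mv, Prod.snd_add]; ring
    rw [e]
    refine (key _ _).trans (mul_le_mul_of_nonneg_right ?_ hr)
    unfold nrmM; linarith

private theorem SFK_mvx (M : SLR) (u θ s : ℝ) : mv (M * rot θ * dg u) (1, s) =
    mv M (Real.exp u * Real.cos (2 * Real.pi * θ) -
        s * (Real.exp u)⁻¹ * Real.sin (2 * Real.pi * θ),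
      Real.exp u * Real.sin (2 * Real.pi * θ) +
        s * (Real.exp u)⁻¹ * Real.cos (2 * Real.pi * θ)) := by
  rw [mv_mul, mv_mul]
  congr 1
  have e1 : mv (dg u) (1, s) = (Real.exp u, (Real.exp u)⁻¹ * s) := by
    simp [mv, dg, Real.exp_neg]
  rw [e1]
  ext <;> simp [mv, rot] <;> ring

private theorem SFK_lin (M : SLR) (P v v' : Pl) {z : Pl}
    (hz : z ∈ segment ℝ (P + mv M v) (P + mv M v')) :
    ∃ t : ℝ, 0 ≤ t ∧ t ≤ 1 ∧ mv M⁻¹ (z - P) = ((1 - t) * v.1 + t * v'.1,
      (1 - t) * v.2 + t * v'.2) := by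
  obtain ⟨α, β, hα, hβ, hab, rfl⟩ := hz
  refine ⟨β, hβ, by linarith, ?_⟩
  have e : α • (P + mv M v) + β • (P + mv M v') - P =
      mv M ((1 - β) * v.1 + β * v'.1, (1 - β) * v.2 + β * v'.2) := by
    have hα' : α = 1 - β := by linarith
    subst hα'
    ext
    · simp only [mv, Prod.fst_add, Prod.fst_sub, Prod.smul_fst, smul_eq_mul]; ring
    · simp only [mv, Prod.snd_add, Prod.snd_sub, Prod.smul_snd, smul_eq_mul]; ring
  rw [e, mv_inv_mv]

private theorem SFK_idx {X : Type*} [MeasurableSpace X] {H : Λ → Pl → ℝ}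
    (hH : ∀ q, Measurable (H q)) {κ : X → Λ} (hκ : ∀ q, MeasurableSet {x | κ x = q})
    {T : X → Pl} (hT : Measurable T) : Measurable fun x => H (κ x) (T x) := by
  have e : (fun x => H (κ x) (T x)) = fun x => ∑ q : Λ, if κ x = q then H q (T x) else 0 := by
    ext x
    simp
  rw [e]
  refine Finset.measurable_fun_sum _ fun q _ => ?_
  exact Measurable.ite (hκ q) ((hH q).comp hT) measurable_const

private theorem SFK_tauq {X : Type*} [MeasurableSpace X] (a b : Equiv.Perm Λ) {A B : X → Pl}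
    (hA : Measurable A) (hB : Measurable B) (q₀ q : Λ) :
    MeasurableSet {x | tau a b (A x) (B x) q₀ = q} := by
  have e : {x | tau a b (A x) (B x) q₀ = q} =
      ⋃ g : Equiv.Perm Λ, {x | tau a b (A x) (B x) = g} ∩ {_x : X | g q₀ = q} := by
    ext x
    simp only [mem_ofPred_eq, mem_iUnion, mem_inter_iff]
    constructor
    · intro h; exact ⟨_, rfl, h⟩
    · rintro ⟨g, h1, h2⟩; rw [h1, h2]
  rw [e]
  exact MeasurableSet.iUnion fun g => (meas_tau_comp a b hA hB g).inter (MeasurableSet.const _)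

private theorem SFK_labq {X : Type*} [MeasurableSpace X] (a b : Equiv.Perm Λ) {A B C : X → Pl}
    (hA : Measurable A) (hB : Measurable B) (hC : Measurable C) (q₀ q : Λ) :
    MeasurableSet {x | (tau a b (A x) (B x))⁻¹ (tau a b (C x) (B x) q₀) = q} := by
  have e : {x | (tau a b (A x) (B x))⁻¹ (tau a b (C x) (B x) q₀) = q} =
      ⋃ g1 : Equiv.Perm Λ, ⋃ g2 : Equiv.Perm Λ,
      ({x | tau a b (A x) (B x) = g1} ∩ {x | tau a b (C x) (B x) = g2}) ∩
        {_x : X | g1⁻¹ (g2 q₀) = q} := by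
    ext x
    simp only [mem_ofPred_eq, mem_iUnion, mem_inter_iff]
    constructor
    · intro h
      exact ⟨_, _, ⟨rfl, rfl⟩, h⟩
    · rintro ⟨g1, g2, ⟨h1, h2⟩, h3⟩
      rw [h1, h2, h3]
  rw [e]
  refine MeasurableSet.iUnion fun g1 => MeasurableSet.iUnion fun g2 => ?_
  exact ((meas_tau_comp a b hA hB g1).inter
    (meas_tau_comp a b hC hB g2)).inter (MeasurableSet.const _)

private theorem SFK_int {Y : Type*} [MeasurableSpace Y] {F : Y × ℝ → ℝ} (hF : Measurable F)
    (u v : ℝ) : Measurable fun y => ∫ s in u..v, F (y, s) := by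
  unfold intervalIntegral
  exact (hF.stronglyMeasurable.integral_prod_right' (ν := volume.restrict (Ioc u v))).measurable.sub
    (hF.stronglyMeasurable.integral_prod_right' (ν := volume.restrict (Ioc v u))).measurable

private theorem SFK_ii {f : ℝ → ℝ} (hf : Measurable f) {C : ℝ} (hC : ∀ x, |f x| ≤ C) (u v : ℝ) :
    IntervalIntegrable f volume u v := by
  rw [intervalIntegrable_iff]
  refine Measure.integrableOn_of_bounded (M := C) (by rw [uIoc]; exact measure_Ioc_lt_top.ne)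
    hf.aestronglyMeasurable ?_
  exact Filter.Eventually.of_forall fun s => hC s

/-- the pointwise comparison -/
private theorem SFK_pt (a b : Equiv.Perm Λ) (H : Λ → Pl → ℝ) (M : SLR) {P : Pl} {q₀ : Λ} {u s : ℝ}
    (hs : 0 ≤ s) {δ η : ℝ}
    (hmod : ∀ (A B : Pl) (q : Λ), LF A B → dist A B < δ → |H q A - H (tau a b A B q) B| ≤ η)
    (hu : nrmM M * (s * (Real.exp u)⁻¹) < δ) :
    ∃ σ : ℝ, ∀ᵐ θ : ℝ, |H (tau a b P (P + mv (M * rot (θ + σ) * dg u) (1, 0)) q₀)
      (P + mv (M * rot (θ + σ) * dg u) (1, 0)) -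
      H (labS (M * rot θ * dg u, P) a b q₀ s) (P + mv (M * rot θ * dg u) (1, 0))| ≤ 2 * η := by
  set T := Real.exp u with hT
  have hT0 : 0 < T := Real.exp_pos u
  have hpi : (2 * Real.pi) ≠ 0 := by positivity
  set x := s * T⁻¹ * T⁻¹ with hx
  have hx0 : 0 ≤ x := by positivity
  set w := √(1 + x ^ 2) with hw
  have hw2 : w * w = 1 + x ^ 2 := Real.mul_self_sqrt (by positivity)
  have hw0 : 0 < w := Real.sqrt_pos.2 (by positivity)
  have hw1 : 1 ≤ w := by nlinarith
  have hwx : w ≤ 1 + x := by nlinarith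
  refine ⟨Real.arctan x / (2 * Real.pi), ?_⟩
  set σ := Real.arctan x / (2 * Real.pi) with hσ
  have hσ2 : 2 * Real.pi * σ = Real.arctan x := by rw [hσ]; field_simp
  have hcos : Real.cos (2 * Real.pi * σ) = 1 / w := by rw [hσ2, Real.cos_arctan]
  have hsin : Real.sin (2 * Real.pi * σ) = x / w := by rw [hσ2, Real.sin_arctan]
  -- the countable exceptional sets
  let U : ℤ × ℤ → Pl := fun z => mv M⁻¹ (ZP z - P)
  let E1 : Set ℝ := ⋃ z : ℤ × ℤ, {θ : ℝ | ¬ ((U z).1 = 0 ∧ (U z).2 = 0) ∧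
    -(U z).2 * Real.cos (2 * Real.pi * θ) + (U z).1 * Real.sin (2 * Real.pi * θ) = 0}
  let E2 : Set ℝ := ⋃ z : ℤ × ℤ, {θ : ℝ | ¬ ((U z).1 = 0 ∧ (U z).2 = 0) ∧
    (U z).1 * Real.cos (2 * Real.pi * θ) + (U z).2 * Real.sin (2 * Real.pi * θ) = T}
  have hE1 : E1.Countable := by
    refine countable_iUnion fun z => ?_
    by_cases h : (U z).1 = 0 ∧ (U z).2 = 0
    · refine Set.Countable.mono (s₂ := ∅) ?_ countable_empty
      rintro θ ⟨h1, -⟩
      exact h1 h
    · refine (SFK_cnt (u1 := -(U z).2) (u2 := (U z).1) (c := 0) ?_).mono fun θ h1 => h1.2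
      rintro ⟨h1, h2⟩
      exact h ⟨h2, neg_eq_zero.1 h1⟩
  have hE2 : E2.Countable := by
    refine countable_iUnion fun z => ?_
    by_cases h : (U z).1 = 0 ∧ (U z).2 = 0
    · refine Set.Countable.mono (s₂ := ∅) ?_ countable_empty
      rintro θ ⟨h1, -⟩
      exact h1 h
    · exact (SFK_cnt (u1 := (U z).1) (u2 := (U z).2) (c := T) h).mono fun θ h1 => h1.2
  have hE1' : ((fun θ : ℝ => θ + σ) ⁻¹' E1).Countable :=
    hE1.preimage (add_left_injective σ)
  filter_upwards [hE1'.ae_notMem volume, hE2.ae_notMem volume] with θ h1 h2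
  have c1 := Real.cos_sq_add_sin_sq (2 * Real.pi * θ)
  have hcs : Real.cos (2 * Real.pi * (θ + σ)) =
      (Real.cos (2 * Real.pi * θ) - x * Real.sin (2 * Real.pi * θ)) / w := by
    rw [mul_add, Real.cos_add, hcos, hsin]; ring
  have hsn : Real.sin (2 * Real.pi * (θ + σ)) =
      (Real.sin (2 * Real.pi * θ) + x * Real.cos (2 * Real.pi * θ)) / w := by
    rw [mul_add, Real.sin_add, hcos, hsin]; ring
  set cθ := Real.cos (2 * Real.pi * θ) with hcθ
  set sθ := Real.sin (2 * Real.pi * θ) with hsθ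
  set cσ := Real.cos (2 * Real.pi * (θ + σ)) with hcσ
  set sσ := Real.sin (2 * Real.pi * (θ + σ)) with hsσ
  have c2 : cσ ^ 2 + sσ ^ 2 = 1 := Real.cos_sq_add_sin_sq _
  have eQ : P + mv (M * rot θ * dg u) (1, 0) = P + mv M (T * cθ, T * sθ) := by
    rw [SFK_mvx]; simp [hT, hcθ, hsθ]
  have eQσ : P + mv (M * rot (θ + σ) * dg u) (1, 0) = P + mv M (T * cσ, T * sσ) := by
    rw [SFK_mvx]; simp [hT, hcσ, hsσ]
  have eX' : P + mv (M * rot θ * dg u) (1, s) = P + mv M (T * cθ - s * T⁻¹ * sθ,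
      T * sθ + s * T⁻¹ * cθ) := by
    rw [SFK_mvx]
  have eX : P + mv (M * rot θ * dg u) (1, s) = P + mv M (T * w * cσ, T * w * sσ) := by
    rw [eX']
    have hT' := hT0.ne'
    have hw' := hw0.ne'
    have e1 : T * cθ - s * T⁻¹ * sθ = T * w * cσ := by
      rw [hcs, hx]; field_simp
    have e2 : T * sθ + s * T⁻¹ * cθ = T * w * sσ := by
      rw [hsn, hx]; field_simp
    rw [e1, e2]
  have labe : labS (M * rot θ * dg u, P) a b q₀ s =
      (tau a b (P + mv (M * rot θ * dg u) (1, 0)) (P + mv (M * rot θ * dg u) (1, s)))⁻¹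
        (tau a b P (P + mv (M * rot θ * dg u) (1, s)) q₀) := rfl
  -- the point `Q (θ + σ)` lies between `P` and `X`
  have hseg : P + mv (M * rot (θ + σ) * dg u) (1, 0) ∈
      segment ℝ P (P + mv (M * rot θ * dg u) (1, s)) := by
    rw [eQσ, eX]
    refine ⟨1 - 1 / w, 1 / w, ?_, by positivity, by ring, ?_⟩
    · rw [sub_nonneg, div_le_one hw0]; exact hw1
    · have hw' := hw0.ne'
      ext
      · simp only [mv, Prod.fst_add, Prod.smul_fst, smul_eq_mul]; field_simp; ring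
      · simp only [mv, Prod.snd_add, Prod.smul_snd, smul_eq_mul]; field_simp; ring
  have hLF1 : LF (P + mv (M * rot (θ + σ) * dg u) (1, 0)) (P + mv (M * rot θ * dg u) (1, s)) := by
    intro z hz
    rw [eQσ, eX] at hz
    obtain ⟨t, ht0, ht1, hU⟩ := SFK_lin M P _ _ hz
    apply h1
    rw [mem_preimage, mem_iUnion]
    have hr : 0 < (1 - t) * T + t * (T * w) := by
      have e : (1 - t) * T + t * (T * w) = T * (1 + t * (w - 1)) := by ring
      rw [e]
      have : 0 ≤ t * (w - 1) := mul_nonneg ht0 (by linarith)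
      positivity
    have hU1 : (U z).1 = ((1 - t) * T + t * (T * w)) * cσ := by
      change (mv M⁻¹ (ZP z - P)).1 = _
      rw [hU]; ring
    have hU2 : (U z).2 = ((1 - t) * T + t * (T * w)) * sσ := by
      change (mv M⁻¹ (ZP z - P)).2 = _
      rw [hU]; ring
    refine ⟨z, ?_, ?_⟩
    · rintro ⟨h3, h4⟩
      rw [hU1] at h3
      rw [hU2] at h4
      have h5 := (mul_eq_zero.1 h3).resolve_left hr.ne'
      have h6 := (mul_eq_zero.1 h4).resolve_left hr.ne'
      rw [h5, h6] at c2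
      norm_num at c2
    · rw [hU1, hU2, ← hcσ, ← hsσ]
      ring
  have hLF2 : LF (P + mv (M * rot θ * dg u) (1, 0)) (P + mv (M * rot θ * dg u) (1, s)) := by
    intro z hz
    rw [eQ, eX'] at hz
    obtain ⟨t, ht0, ht1, hU⟩ := SFK_lin M P _ _ hz
    apply h2
    rw [mem_iUnion]
    have hU1 : (U z).1 = T * cθ - t * (s * T⁻¹) * sθ := by
      change (mv M⁻¹ (ZP z - P)).1 = _
      rw [hU]; ring
    have hU2 : (U z).2 = T * sθ + t * (s * T⁻¹) * cθ := by
      change (mv M⁻¹ (ZP z - P)).2 = _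
      rw [hU]; ring
    have h3 : (U z).1 * cθ + (U z).2 * sθ = T := by
      rw [hU1, hU2]
      have e : (T * cθ - t * (s * T⁻¹) * sθ) * cθ + (T * sθ + t * (s * T⁻¹) * cθ) * sθ =
        T * (cθ ^ 2 + sθ ^ 2) := by ring
      rw [e, c1, mul_one]
    refine ⟨z, ?_, h3⟩
    rintro ⟨h4, h5⟩
    rw [h4, h5] at h3
    simp only [zero_mul, add_zero] at h3
    exact hT0.ne h3
  have hcσ1 : |cσ| ≤ 1 := Real.abs_cos_le_one _
  have hsσ1 : |sσ| ≤ 1 := Real.abs_sin_le_one _
  have hcθ1 : |cθ| ≤ 1 := Real.abs_cos_le_one _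
  have hsθ1 : |sθ| ≤ 1 := Real.abs_sin_le_one _
  have hTx : T * x = s * T⁻¹ := by
    rw [hx]
    have hT' := hT0.ne'
    field_simp
  have hd1 : dist (P + mv (M * rot (θ + σ) * dg u) (1, 0)) (P + mv (M * rot θ * dg u) (1, s)) <
      δ := by
    rw [eQσ, eX]
    refine lt_of_le_of_lt (SFK_dist M P _ _ (r := s * T⁻¹) ?_ ?_) hu
    · have e : T * cσ - T * w * cσ = -(T * (w - 1) * cσ) := by ring
      change |T * cσ - T * w * cσ| ≤ _
      rw [e, abs_neg, abs_mul, abs_of_nonneg (by apply mul_nonneg hT0.le; linarith), ← hTx]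
      have : T * (w - 1) ≤ T * x := mul_le_mul_of_nonneg_left (by linarith) hT0.le
      have h0 : 0 ≤ T * (w - 1) := mul_nonneg hT0.le (by linarith)
      nlinarith [abs_nonneg cσ]
    · have e : T * sσ - T * w * sσ = -(T * (w - 1) * sσ) := by ring
      change |T * sσ - T * w * sσ| ≤ _
      rw [e, abs_neg, abs_mul, abs_of_nonneg (by apply mul_nonneg hT0.le; linarith), ← hTx]
      have : T * (w - 1) ≤ T * x := mul_le_mul_of_nonneg_left (by linarith) hT0.le
      have h0 : 0 ≤ T * (w - 1) := mul_nonneg hT0.le (by linarith)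
      nlinarith [abs_nonneg sσ]
  have hd2 : dist (P + mv (M * rot θ * dg u) (1, 0)) (P + mv (M * rot θ * dg u) (1, s)) < δ := by
    rw [eQ, eX']
    have h0 : 0 ≤ s * T⁻¹ := by positivity
    refine lt_of_le_of_lt (SFK_dist M P _ _ (r := s * T⁻¹) ?_ ?_) hu
    · have e : T * cθ - (T * cθ - s * T⁻¹ * sθ) = s * T⁻¹ * sθ := by ring
      change |T * cθ - (T * cθ - s * T⁻¹ * sθ)| ≤ _
      rw [e, abs_mul, abs_of_nonneg h0]
      nlinarith
    · have e : T * sθ - (T * sθ + s * T⁻¹ * cθ) = -(s * T⁻¹ * cθ) := by ring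
      change |T * sθ - (T * sθ + s * T⁻¹ * cθ)| ≤ _
      rw [e, abs_neg, abs_mul, abs_of_nonneg h0]
      nlinarith
  have m1 := hmod _ _ (tau a b P (P + mv (M * rot (θ + σ) * dg u) (1, 0)) q₀) hLF1 hd1
  have m2 := hmod _ _ (labS (M * rot θ * dg u, P) a b q₀ s) hLF2 hd2
  have e1 : tau a b (P + mv (M * rot (θ + σ) * dg u) (1, 0)) (P + mv (M * rot θ * dg u) (1, s))
      (tau a b P (P + mv (M * rot (θ + σ) * dg u) (1, 0)) q₀) =
      tau a b P (P + mv (M * rot θ * dg u) (1, s)) q₀ := by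
    rw [← apx_split a b hseg]; rfl
  have e2 : tau a b (P + mv (M * rot θ * dg u) (1, 0)) (P + mv (M * rot θ * dg u) (1, s))
      (labS (M * rot θ * dg u, P) a b q₀ s) =
      tau a b P (P + mv (M * rot θ * dg u) (1, s)) q₀ := by
    rw [labe]; simp
  rw [e1] at m1
  rw [e2] at m2
  rw [abs_le] at m1 m2 ⊢
  constructor
  · linarith [m1.1, m1.2, m2.1, m2.2]
  · linarith [m1.1, m1.2, m2.1, m2.2]

private theorem SFK_final {F : ℝ → ℝ} {G : ℝ → ℝ → ℝ} (hF : Measurable F)
    (hG : Measurable fun p : ℝ × ℝ => G p.1 p.2) {C : ℝ} (hFC : ∀ θ, |F θ| ≤ C)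
    (hGC : ∀ θ s, |G θ s| ≤ C) (hper : Function.Periodic F 1) {S : ℝ} (hS : 0 < S) {ε : ℝ}
    (hpt : ∀ s : ℝ, 0 < s → s ≤ S → ∃ σ : ℝ, ∀ᵐ θ : ℝ, |F (θ + σ) - G θ s| ≤ ε) :
    |(∫ θ in (0 : ℝ)..1, F θ) - ∫ θ in (0 : ℝ)..1, (1 / S) * ∫ s in (0 : ℝ)..S, G θ s| ≤ ε := by
  have hshift : ∀ σ : ℝ, ∫ θ in (0 : ℝ)..1, F (θ + σ) = ∫ θ in (0 : ℝ)..1, F θ := by
    intro σ
    rw [intervalIntegral.integral_comp_add_right]
    have := hper.intervalIntegral_add_eq σ 0
    rw [zero_add, add_comm 1 σ, this, zero_add]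
  have hswap : ∫ θ in (0 : ℝ)..1, ∫ s in (0 : ℝ)..S, G θ s =
      ∫ s in (0 : ℝ)..S, ∫ θ in (0 : ℝ)..1, G θ s := by
    apply intervalIntegral_intervalIntegral_swap
    refine Measure.integrableOn_of_bounded (M := C) ?_ hG.aestronglyMeasurable ?_
    · rw [Measure.volume_eq_prod, Measure.prod_prod, uIoc, uIoc]
      exact (ENNReal.mul_lt_top measure_Ioc_lt_top measure_Ioc_lt_top).ne
    · exact Filter.Eventually.of_forall fun p => hGC p.1 p.2
  have hgi : IntervalIntegrable (fun s => ∫ θ in (0 : ℝ)..1, G θ s) volume 0 S := by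
    refine SFK_ii (C := C) ?_ ?_ 0 S
    · exact SFK_int (F := fun p : ℝ × ℝ => G p.2 p.1) (hG.comp measurable_swap) 0 1
    · intro s
      have := intervalIntegral.norm_integral_le_of_norm_le_const (a := 0) (b := 1) (C := C)
        (f := fun θ => G θ s) fun θ _ => hGC θ s
      simpa using this
  have hbd : ∀ s ∈ uIoc (0 : ℝ) S, ‖(∫ θ in (0 : ℝ)..1, F θ) - ∫ θ in (0 : ℝ)..1, G θ s‖ ≤ ε := by
    intro s hs
    rw [uIoc_of_le hS.le] at hs
    obtain ⟨σ, hσ⟩ := hpt s hs.1 hs.2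
    rw [← hshift σ, ← intervalIntegral.integral_sub]
    · have := intervalIntegral.norm_integral_le_of_norm_le_const_ae (a := 0) (b := 1) (C := ε)
        (f := fun θ => F (θ + σ) - G θ s) (by
          filter_upwards [hσ] with θ h1 _
          rw [Real.norm_eq_abs]
          exact h1)
      simpa using this
    · exact SFK_ii (hF.comp (measurable_id.add_const σ)) (fun x => hFC _) 0 1
    · exact SFK_ii (hG.comp (measurable_id.prodMk (measurable_const (a := s))))
        (fun x => hGC _ _) 0 1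
  have hfin := intervalIntegral.norm_integral_le_of_norm_le_const hbd
  rw [intervalIntegral.integral_sub (by simp) hgi, intervalIntegral.integral_const, smul_eq_mul,
    sub_zero, abs_of_pos hS, ← hswap, Real.norm_eq_abs] at hfin
  rw [intervalIntegral.integral_const_mul]
  have hgoal : (∫ θ in (0 : ℝ)..1, F θ) - (1 / S) * ∫ θ in (0 : ℝ)..1, ∫ s in (0 : ℝ)..S, G θ s =
      (1 / S) * (S * (∫ θ in (0 : ℝ)..1, F θ) -
      ∫ θ in (0 : ℝ)..1, ∫ s in (0 : ℝ)..S, G θ s) := by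
    field_simp
  rw [hgoal, abs_mul, abs_of_pos (by positivity : 0 < 1 / S)]
  calc 1 / S * |S * (∫ θ in (0 : ℝ)..1, F θ) - ∫ θ in (0 : ℝ)..1, ∫ s in (0 : ℝ)..S, G θ s|
      ≤ 1 / S * (ε * S) := mul_le_mul_of_nonneg_left hfin (by positivity)
    _ = ε := by field_simp

theorem arc_average (a b : Equiv.Perm Λ) (H : Λ → Pl → ℝ) (hH : ∀ q, Measurable (H q)) {C : ℝ}
    (hC : ∀ q A, |H q A| ≤ C)
    (hmod : ∀ ε > 0, ∃ δ > 0, ∀ (A B : Pl) (q : Λ), LF A B → dist A B < δ →
      |H q A - H (tau a b A B q) B| ≤ ε)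
    (M : SLR) {P : Pl} {q₀ : Λ} (ha : adm a b P q₀) {S : ℝ} (hS : 0 < S) {ε : ℝ} (hε : 0 < ε) :
    ∀ᶠ u : ℝ in atTop,
      |(∫ θ in (0 : ℝ)..1, H (tau a b P (P + mv (M * rot θ * dg u) (1, 0)) q₀)
          (P + mv (M * rot θ * dg u) (1, 0))) -
        ∫ θ in (0 : ℝ)..1, ∑ q, DS S (M * rot θ * dg u, P) a b q₀ q *
          H q (P + mv (M * rot θ * dg u) (1, 0))| ≤ ε := by
  obtain ⟨δ, hδ, hmod⟩ := hmod (ε / 2) (by positivity)
  have hlim : Tendsto (fun u : ℝ => nrmM M * (S * (Real.exp u)⁻¹)) atTop (𝓝 0) := by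
    have h1 : Tendsto (fun u : ℝ => (Real.exp u)⁻¹) atTop (𝓝 0) :=
      tendsto_inv_atTop_zero.comp Real.tendsto_exp_atTop
    have h2 := (h1.const_mul S).const_mul (nrmM M)
    simpa using h2
  filter_upwards [hlim.eventually (gt_mem_nhds hδ)] with u hu
  have hM0 : 0 ≤ nrmM M := by unfold nrmM; positivity
  have hC0 : 0 ≤ C := (abs_nonneg _).trans (hC q₀ P)
  -- the functions
  let Q : ℝ → Pl := fun θ => P + mv (M * rot θ * dg u) (1, 0)
  let F : ℝ → ℝ := fun θ => H (tau a b P (Q θ) q₀) (Q θ)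
  let G : ℝ → ℝ → ℝ := fun θ s => H (labS (M * rot θ * dg u, P) a b q₀ s) (Q θ)
  have hmv : Continuous (mv M) := continuous_mv_left M
  have hX : Measurable fun p : ℝ × ℝ => P + mv (M * rot p.1 * dg u) (1, p.2) := by
    simp only [SFK_mvx]
    apply Continuous.measurable
    refine continuous_const.add (hmv.comp ?_)
    fun_prop
  have hQ : Measurable Q := by
    have := hX.comp (measurable_id.prodMk (measurable_const (a := (0 : ℝ))))
    exact this
  have hF : Measurable F := SFK_idx hH (fun q => SFK_tauq a b measurable_const hQ q₀ q) hQ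
  have hG : Measurable fun p : ℝ × ℝ => G p.1 p.2 :=
    SFK_idx hH (fun q => SFK_labq a b (hQ.comp measurable_fst) hX measurable_const q₀ q)
      (hQ.comp measurable_fst)
  have hFC : ∀ θ, |F θ| ≤ C := fun θ => hC _ _
  have hGC : ∀ θ s, |G θ s| ≤ C := fun θ s => hC _ _
  have hper : Function.Periodic F 1 := by
    intro θ
    have hrot : rot (θ + 1) = rot θ := by
      have e1 : Real.cos (2 * Real.pi * (θ + 1)) = Real.cos (2 * Real.pi * θ) := by
        rw [mul_add, mul_one, Real.cos_add_two_pi]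
      have e2 : Real.sin (2 * Real.pi * (θ + 1)) = Real.sin (2 * Real.pi * θ) := by
        rw [mul_add, mul_one, Real.sin_add_two_pi]
      apply Subtype.ext
      simp only [rot, e1, e2]
    simp only [F, Q, hrot]
  -- the second integral
  have hDS : ∀ θ, ∑ q, DS S (M * rot θ * dg u, P) a b q₀ q * H q (Q θ) =
      (1 / S) * ∫ s in (0 : ℝ)..S, G θ s := by
    intro θ
    classical
    have e1 : ∀ s, G θ s = ∑ q, (if labS (M * rot θ * dg u, P) a b q₀ s = q then (1 : ℝ) else 0) *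
        H q (Q θ) := by
      intro s
      simp [G]
    have hil : ∀ q, IntervalIntegrable (fun s => (if labS (M * rot θ * dg u, P) a b q₀ s = q
        then (1 : ℝ) else 0) * H q (Q θ)) volume 0 S := by
      intro q
      refine SFK_ii (C := C) ?_ ?_ 0 S
      · exact (Measurable.ite (measurable_labS _ a b q₀ q) measurable_const
          measurable_const).mul_const _
      · intro s
        split_ifs
        · rw [one_mul]; exact hC _ _
        · rw [zero_mul, abs_zero]; exact hC0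
    simp only [e1]
    rw [intervalIntegral.integral_finsetSum fun q _ => hil q, Finset.mul_sum]
    refine Finset.sum_congr rfl fun q _ => ?_
    rw [intervalIntegral.integral_mul_const, ← mul_assoc]
    congr 1
    unfold DS
    congr 1
    refine intervalIntegral.integral_congr fun s _ => ?_
    split_ifs <;> rfl
  have hfin := SFK_final hF hG hFC hGC hper hS (ε := ε) (by
    intro s hs0 hs1
    have hus : nrmM M * (s * (Real.exp u)⁻¹) < δ := by
      refine lt_of_le_of_lt ?_ hu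
      exact mul_le_mul_of_nonneg_left (mul_le_mul_of_nonneg_right hs1
        (inv_nonneg.2 (Real.exp_pos u).le)) hM0
    obtain ⟨σ, hσ⟩ := SFK_pt a b H M (P := P) (q₀ := q₀) hs0.le hmod hus
    refine ⟨σ, ?_⟩
    filter_upwards [hσ] with θ h1
    refine h1.trans ?_
    linarith)
  simp only [← hDS] at hfin
  exact hfin

end

end Pool.Agent.ILL
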