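import Pool.Agent.ILL.Lab
import Pool.Agent.ILL.Mod

/-!
# SFL. Replacing the distribution of the labels by the uniform one on the orbit

For `q₀` admissible, `x = (h,P)`, `Q = P + mv h (1,0)`: `DS q = AS q + avgN (DS) q` (`AS_eq`), so
`Σ_q DS q · φ q - Σ_q (avgN DS q) φ q = Σ_q AS (a,b,q₀,q) φ q`, of absolute value at most
`C Σ_q |AS| ≤ C √(card Λ) √(Σ_q AS²) ≤ C √(card Λ · EE)`. And `Σ_q (avgN a b D q) φ q = Σ_q D q (avgN a b φ q)`
(reindexing `q ↦ n⁻¹ q`, `n ↦ n⁻¹`), and `avgN φ` is constant `= avgN φ q₁` on the orbit of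
`q₁ = tau P Q q₀` under `Nc a b`, which contains all labels `labS s` (`tau_mod_eq`: `labS s = n q₁` with `n ∈ Nc a b`,
`n = (tau Q X_s)⁻¹ tau P X_s (tau P Q)⁻¹`, cf. `hol3_mem`), so `D q (avgN φ q - avgN φ q₁) = 0` for all `q`; `Σ_q D q = 1`.
-/

open MeasureTheory Set Filter Topology
open scoped ENNReal NNReal

namespace Pool.Agent.ILL

section
variable {Λ : Type} [Fintype Λ] [DecidableEq Λ]

/-- the labels lie in the orbit -/
private theorem labS_orbit (x : SLR × Pl) (a b : Equiv.Perm Λ) (q₀ : Λ) (s : ℝ) :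
    ∃ n ∈ Nc a b, labS x a b q₀ s = n (tau a b x.2 (x.2 + mv x.1 (1, 0)) q₀) := by
  obtain ⟨P, hP⟩ : ∃ P, P = x.2 := ⟨_, rfl⟩
  obtain ⟨Q, hQ⟩ : ∃ Q, Q = x.2 + mv x.1 (1, 0) := ⟨_, rfl⟩
  obtain ⟨Xs, hXs⟩ : ∃ Xs, Xs = x.2 + mv x.1 (1, s) := ⟨_, rfl⟩
  refine ⟨(tau a b Q Xs)⁻¹ * tau a b P Xs * (tau a b P Q)⁻¹, ?_, ?_⟩
  · have h1 := hol3_mem a b Q P Xs
    rw [← tau_inv a b Q Xs, ← tau_inv a b P Q]
    exact h1
  · unfold labS
    rw [← hXs, ← hQ, ← hP]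
    simp [Equiv.Perm.mul_apply]

private theorem avgN_pair (a b : Equiv.Perm Λ) (D φ : Λ → ℝ) :
    ∑ q, avgN a b D q * φ q = ∑ q, D q * avgN a b φ q := by
  unfold avgN
  simp only [div_eq_mul_inv]
  have h1 : ∑ q, (∑ n ∈ NcF a b, D (n q)) * φ q = ∑ q, D q * ∑ n ∈ NcF a b, φ (n q) := by
    simp only [Finset.sum_mul, Finset.mul_sum]
    rw [Finset.sum_comm]
    conv_rhs => rw [Finset.sum_comm]
    refine Finset.sum_nbij' (fun n => n⁻¹) (fun n => n⁻¹) ?_ ?_ ?_ ?_ ?_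
    · intro n hn
      rw [mem_NcF] at hn ⊢
      exact inv_mem hn
    · intro n hn
      rw [mem_NcF] at hn ⊢
      exact inv_mem hn
    · intro n _
      exact inv_inv n
    · intro n _
      exact inv_inv n
    · intro n _
      rw [← Equiv.sum_comp n fun q => D q * φ (n⁻¹ q)]
      simp
  calc ∑ q, (∑ n ∈ NcF a b, D (n q)) * ((NcF a b).card : ℝ)⁻¹ * φ q
      = (∑ q, (∑ n ∈ NcF a b, D (n q)) * φ q) * ((NcF a b).card : ℝ)⁻¹ := by
        rw [Finset.sum_mul]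
        exact Finset.sum_congr rfl fun q _ => by ring
    _ = ∑ q, D q * ((∑ n ∈ NcF a b, φ (n q)) * ((NcF a b).card : ℝ)⁻¹) := by
        rw [h1, Finset.sum_mul]
        exact Finset.sum_congr rfl fun q _ => by ring

theorem orbit_average {S : ℝ} (hS : 0 < S) (x : SLR × Pl) {a b : Equiv.Perm Λ} {q₀ : Λ}
    (ha : adm a b x.2 q₀) (φ : Λ → ℝ) {C : ℝ} (hC : ∀ q, |φ q| ≤ C) (hC0 : 0 ≤ C) :
    |(∑ q, DS S x a b q₀ q * φ q) -
      avgN a b φ (tau a b x.2 (x.2 + mv x.1 (1, 0)) q₀)| ≤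
      C * √(Fintype.card Λ * EE Λ S x) := by
  set q₁ : Λ := tau a b x.2 (x.2 + mv x.1 (1, 0)) q₀ with hq₁
  -- the distribution is supported on the orbit
  have hD : ∀ q, DS S x a b q₀ q * avgN a b φ q = DS S x a b q₀ q * avgN a b φ q₁ := by
    intro q
    by_cases h : ∃ s, labS x a b q₀ s = q
    · obtain ⟨s, rfl⟩ := h
      obtain ⟨n, hn, hs⟩ := labS_orbit x a b q₀ s
      rw [hs, avgN_inv a b hn]
    · push Not at h
      have h0 : DS S x a b q₀ q = 0 := by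
        unfold DS
        simp [h]
      rw [h0, zero_mul, zero_mul]
  have h1 : ∑ q, DS S x a b q₀ q * avgN a b φ q = avgN a b φ q₁ := by
    rw [Finset.sum_congr rfl fun q _ => hD q, ← Finset.sum_mul, DS_sum hS, one_mul]
  have h2 : (∑ q, DS S x a b q₀ q * φ q) - avgN a b φ q₁ = ∑ q, AS S x (a, b, q₀, q) * φ q := by
    rw [← h1, ← avgN_pair, ← Finset.sum_sub_distrib]
    refine Finset.sum_congr rfl fun q _ => ?_
    rw [AS_eq x ha, sub_mul]
  rw [h2]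
  have h3 : ∑ q, (AS S x (a, b, q₀, q)) ^ 2 ≤ EE Λ S x := by
    have hinj : Function.Injective fun q : Λ => ((a, b, q₀, q) : Lab Λ) := by
      intro q q' h
      simpa using h
    calc ∑ q, (AS S x (a, b, q₀, q)) ^ 2
        = ∑ i ∈ Finset.univ.map ⟨fun q : Λ => ((a, b, q₀, q) : Lab Λ), hinj⟩,
          (AS S x i) ^ 2 := by
          rw [Finset.sum_map]
          rfl
      _ ≤ ∑ i : Lab Λ, (AS S x i) ^ 2 :=
          Finset.sum_le_sum_of_subset_of_nonneg (Finset.subset_univ _) fun i _ _ => sq_nonneg _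
      _ = EE Λ S x := rfl
  have h4 : |∑ q, AS S x (a, b, q₀, q) * φ q| ≤ C * ∑ q, |AS S x (a, b, q₀, q)| := by
    calc |∑ q, AS S x (a, b, q₀, q) * φ q| ≤ ∑ q, |AS S x (a, b, q₀, q) * φ q| :=
          Finset.abs_sum_le_sum_abs _ _
      _ ≤ ∑ q, |AS S x (a, b, q₀, q)| * C := by
          refine Finset.sum_le_sum fun q _ => ?_
          rw [abs_mul]
          exact mul_le_mul_of_nonneg_left (hC q) (abs_nonneg _)
      _ = _ := by rw [← Finset.sum_mul, mul_comm]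
  refine le_trans h4 (mul_le_mul_of_nonneg_left ?_ hC0)
  refine Real.le_sqrt_of_sq_le ?_
  have h5 := sq_sum_le_card_mul_sum_sq (s := (Finset.univ : Finset Λ))
    (f := fun q => |AS S x (a, b, q₀, q)|)
  rw [Finset.card_univ] at h5
  refine le_trans h5 (mul_le_mul_of_nonneg_left ?_ (Nat.cast_nonneg _))
  refine le_trans (le_of_eq (Finset.sum_congr rfl fun q _ => sq_abs _)) h3

end

end Pool.Agent.ILL
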