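import Pool.Agent.ILL.Efn
import Pool.Agent.ILL.Ccc
import Pool.Agent.ILL.Drj
import Pool.Agent.ILL.Dst

/-!
# STI. The main estimate at all points

Irrational `P` (in particular not a lattice point): `mean_energy` for Lebesgue measure (`perMeas_volume`) gives `S₀`
with `∫_DF EE S ≤ (ε/2) (muG DD).toReal` for `S ≥ S₀`; `irr_limsup` for `f = EE Λ S` with `ε/2` (`EE_measurable`,
`EE_bound`, `EE_nonneg`, `EE_periodic`, `EE_aut`, `reg2_EE`). Rational `P`: `star_rat`.
-/

open MeasureTheory Set Filter Topology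
open scoped ENNReal NNReal

namespace Pool.Agent.ILL

private theorem sti_not_lattice {P : Pl} (hP : ¬ RatP P) (z : ℤ × ℤ) : ZP z ≠ P := by
  rintro rfl
  exact hP ⟨1, one_pos, z, by simp [ZP]⟩

private theorem sti_irr (Λ : Type) [Fintype Λ] [DecidableEq Λ] (M : SLR) {P : Pl}
    (hP : ¬ RatP P) : StarP Λ M P := by
  intro ε hε
  have hρ := perMeas_volume
  have m1 : 0 < (muG DD).toReal := ENNReal.toReal_pos muG_DD_pos.ne' muG_DD_lt_top.ne
  have hmean := mean_energy (Λ := Λ) hρ
  have hpos : 0 < ε / 2 * (muG DD).toReal := by positivity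
  have hev : ∀ᶠ S : ℝ in atTop, ∫ x in DF, EE Λ S x ∂(muG.prod (volume : Measure Pl)) <
      ε / 2 * (muG DD).toReal := hmean.eventually_lt_const hpos
  obtain ⟨S₁, hS₁⟩ := eventually_atTop.1 hev
  refine ⟨max S₁ 1, lt_max_of_lt_right one_pos, fun S hS => ?_⟩
  have hS1 : S₁ ≤ S := (le_max_left _ _).trans hS
  have hS0 : 0 < S := lt_of_lt_of_le one_pos ((le_max_right _ _).trans hS)
  have hint := hS₁ S hS1
  have hbd : ∀ x, |EE Λ S x| ≤ (Fintype.card (Lab Λ) : ℝ) := fun x => by
    rw [abs_of_nonneg (EE_nonneg S x)]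
    exact EE_bound hS0 x
  have h := irr_limsup (EE_measurable S) hbd (EE_nonneg S) (fun x z => EE_periodic S z x)
    (EE_aut hρ S) (M := M) (P := P) (reg2_EE Λ hS0 M (sti_not_lattice hP)) hP (half_pos hε)
  filter_upwards [h] with u hu
  have h2 : (∫ x in DF, EE Λ S x ∂(muG.prod (volume : Measure Pl))) / (muG DD).toReal ≤ ε / 2 := by
    rw [div_le_iff₀ m1]
    exact hint.le
  linarith

theorem star_all (Λ : Type) [Fintype Λ] [DecidableEq Λ] (M : SLR) (P : Pl) : StarP Λ M P := by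
  by_cases hP : RatP P
  · exact star_rat Λ M hP
  · exact sti_irr Λ M hP

end Pool.Agent.ILL
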