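import Pool.Agent.ILL.Sfk
import Pool.Agent.ILL.Sfl
import Pool.Agent.ILL.Sti

/-!
# SFM. Reduction to the averaged function

`arc_average` and `orbit_average` integrated over `θ`, and Cauchy-Schwarz (or Jensen):
`∫_θ √EE ≤ √(∫_θ EE)`, `star_all`: given `ε`, choose `η > 0` with `C √(card Λ) √η ≤ ε/2`, `S` with
`∫_θ EE Λ S (M rot θ dg u, P) ≤ η` for large `u`, then `arc_average` with `ε/2` for this `S`.
-/

open MeasureTheory Set Filter Topology
open scoped ENNReal NNReal

namespace Pool.Agent.ILL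

section
variable {Λ : Type} [Fintype Λ] [DecidableEq Λ]

private theorem cont_Q (M : SLR) (P : Pl) (u : ℝ) (v : Pl) :
    Continuous fun θ : ℝ => P + mv (M * rot θ * dg u) v := by
  have h1 : Continuous fun θ : ℝ => M * rot θ * dg u :=
    (continuous_const.mul continuous_rot).mul continuous_const
  exact continuous_const.add (continuous_mv.comp (h1.prodMk continuous_const))

private theorem cont_Q2 (M : SLR) (P : Pl) (u : ℝ) :
    Continuous fun p : ℝ × ℝ => P + mv (M * rot p.1 * dg u) (1, p.2) := by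
  have h1 : Continuous fun p : ℝ × ℝ => M * rot p.1 * dg u :=
    (continuous_const.mul (continuous_rot.comp continuous_fst)).mul continuous_const
  exact continuous_const.add (continuous_mv.comp
    (h1.prodMk (continuous_const.prodMk continuous_snd)))

omit [DecidableEq Λ] in
private theorem meas_lab (a b : Equiv.Perm Λ) {X : Type} [MeasurableSpace X] {A B C : X → Pl}
    (hA : Measurable A) (hB : Measurable B) (hC : Measurable C) (q₀ q : Λ) :
    MeasurableSet {x | (tau a b (B x) (C x))⁻¹ (tau a b (A x) (C x) q₀) = q} := by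
  have h1 : {x | (tau a b (B x) (C x))⁻¹ (tau a b (A x) (C x) q₀) = q} =
      ⋃ g : Equiv.Perm Λ, ⋃ g' : Equiv.Perm Λ, ⋃ (_ : g⁻¹ (g' q₀) = q),
        {x | tau a b (B x) (C x) = g} ∩ {x | tau a b (A x) (C x) = g'} := by
    ext x
    simp only [Set.mem_iUnion]
    constructor
    · intro hx
      exact ⟨_, _, hx, rfl, rfl⟩
    · rintro ⟨g, g', hg, h1, h2⟩
      have h1' : tau a b (B x) (C x) = g := h1
      have h2' : tau a b (A x) (C x) = g' := h2
      show (tau a b (B x) (C x))⁻¹ (tau a b (A x) (C x) q₀) = q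
      rw [h1', h2']
      exact hg
  rw [h1]
  refine MeasurableSet.iUnion fun g => MeasurableSet.iUnion fun g' => MeasurableSet.iUnion fun _ => ?_
  exact (meas_tau_comp a b hB hC g).inter (meas_tau_comp a b hA hC g')

private theorem meas_DS (a b : Equiv.Perm Λ) (M : SLR) (P : Pl) (u S : ℝ) (q₀ q : Λ) :
    Measurable fun θ : ℝ => DS S (M * rot θ * dg u, P) a b q₀ q := by
  have hm : MeasurableSet {p : ℝ × ℝ |
      (tau a b (P + mv (M * rot p.1 * dg u) (1, 0)) (P + mv (M * rot p.1 * dg u) (1, p.2)))⁻¹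
        (tau a b P (P + mv (M * rot p.1 * dg u) (1, p.2)) q₀) = q} :=
    meas_lab a b measurable_const ((cont_Q M P u (1, 0)).comp continuous_fst).measurable
      (cont_Q2 M P u).measurable q₀ q
  set W : Set (ℝ × ℝ) := {p : ℝ × ℝ |
      (tau a b (P + mv (M * rot p.1 * dg u) (1, 0)) (P + mv (M * rot p.1 * dg u) (1, p.2)))⁻¹
        (tau a b P (P + mv (M * rot p.1 * dg u) (1, p.2)) q₀) = q} with hW
  have hf : Measurable (W.indicator fun _ => (1 : ℝ)) := measurable_const.indicator hm
  have h1 : (fun θ : ℝ => DS S (M * rot θ * dg u, P) a b q₀ q) =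
      fun θ => (1 / S) * ∫ s in (0 : ℝ)..S, W.indicator (fun _ => (1 : ℝ)) (θ, s) := by
    funext θ
    unfold DS
    refine congrArg (fun t => (1 / S) * t) ?_
    refine intervalIntegral.integral_congr fun s _ => ?_
    by_cases h : labS (M * rot θ * dg u, P) a b q₀ s = q
    · have h' : (θ, s) ∈ W := h
      simp only [if_pos h, Set.indicator_of_mem h']
    · have h' : (θ, s) ∉ W := h
      simp only [if_neg h, Set.indicator_of_notMem h']
  rw [h1]
  refine Measurable.const_mul ?_ _
  have h2 := (hf.stronglyMeasurable).integral_prod_right'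
    (ν := (volume : Measure ℝ).restrict (Set.Ioc 0 S))
  have h3 := (hf.stronglyMeasurable).integral_prod_right'
    (ν := (volume : Measure ℝ).restrict (Set.Ioc S 0))
  exact (h2.measurable).sub h3.measurable

private theorem meas_avg (a b : Equiv.Perm Λ) (H : Λ → Pl → ℝ) (hH : ∀ q, Measurable (H q))
    (M : SLR) (P : Pl) (u : ℝ) (q₀ : Λ) :
    Measurable fun θ : ℝ => avgN a b (fun q => H q (P + mv (M * rot θ * dg u) (1, 0)))
      (tau a b P (P + mv (M * rot θ * dg u) (1, 0)) q₀) := by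
  classical
  have hQ : Measurable fun θ : ℝ => P + mv (M * rot θ * dg u) (1, 0) :=
    (cont_Q M P u (1, 0)).measurable
  have h1 : (fun θ : ℝ => avgN a b (fun q => H q (P + mv (M * rot θ * dg u) (1, 0)))
      (tau a b P (P + mv (M * rot θ * dg u) (1, 0)) q₀)) = fun θ => ∑ g : Equiv.Perm Λ,
      if tau a b P (P + mv (M * rot θ * dg u) (1, 0)) = g then
        avgN a b (fun q => H q (P + mv (M * rot θ * dg u) (1, 0))) (g q₀) else 0 := by
    funext θ
    rw [Finset.sum_ite_eq]
    simp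
  rw [h1]
  refine Finset.measurable_fun_sum _ fun g _ => ?_
  refine Measurable.ite (meas_tau_comp a b measurable_const hQ g) ?_ measurable_const
  unfold avgN
  exact (Finset.measurable_fun_sum _ fun n _ => (hH (n (g q₀))).comp hQ).div_const _

theorem reduce_to_average (a b : Equiv.Perm Λ) (H : Λ → Pl → ℝ) (hH : ∀ q, Measurable (H q))
    {C : ℝ} (hC : ∀ q A, |H q A| ≤ C)
    (hmod : ∀ ε > 0, ∃ δ > 0, ∀ (A B : Pl) (q : Λ), LF A B → dist A B < δ →
      |H q A - H (tau a b A B q) B| ≤ ε)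
    (M : SLR) {P : Pl} {q₀ : Λ} (ha : adm a b P q₀) {ε : ℝ} (hε : 0 < ε) :
    ∀ᶠ u : ℝ in atTop,
      |(∫ θ in (0 : ℝ)..1, H (tau a b P (P + mv (M * rot θ * dg u) (1, 0)) q₀)
          (P + mv (M * rot θ * dg u) (1, 0))) -
        ∫ θ in (0 : ℝ)..1, avgN a b (fun q => H q (P + mv (M * rot θ * dg u) (1, 0)))
          (tau a b P (P + mv (M * rot θ * dg u) (1, 0)) q₀)| ≤ ε := by
  have hC0 : 0 ≤ C := (abs_nonneg _).trans (hC q₀ P)
  set κ := √(Fintype.card Λ : ℝ) with hκ
  have hκ0 : 0 ≤ κ := Real.sqrt_nonneg _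
  set δ : ℝ := ε / (2 * (C * κ + 1)) with hδ
  have hCκ : 0 ≤ C * κ := mul_nonneg hC0 hκ0
  have hδ0 : 0 < δ := by positivity
  obtain ⟨S, hS, h1⟩ := star_all Λ M P (δ ^ 2) (by positivity)
  have h2 := h1 S le_rfl
  have h3 := arc_average a b H hH hC hmod M ha hS (ε := ε / 2) (by positivity)
  filter_upwards [h2, h3] with u hu2 hu3
  set B : ℝ → ℝ := fun θ => ∑ q, DS S (M * rot θ * dg u, P) a b q₀ q *
    H q (P + mv (M * rot θ * dg u) (1, 0)) with hB
  set A : ℝ → ℝ := fun θ => avgN a b (fun q => H q (P + mv (M * rot θ * dg u) (1, 0)))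
    (tau a b P (P + mv (M * rot θ * dg u) (1, 0)) q₀) with hA
  set E : ℝ → ℝ := fun θ => EE Λ S (M * rot θ * dg u, P) with hE
  have hQ : Measurable fun θ : ℝ => P + mv (M * rot θ * dg u) (1, 0) :=
    (cont_Q M P u (1, 0)).measurable
  have hBm : Measurable B := Finset.measurable_fun_sum _ fun q _ =>
    (meas_DS a b M P u S q₀ q).mul ((hH q).comp hQ)
  have hAm : Measurable A := meas_avg a b H hH M P u q₀
  have hcont : Continuous fun θ : ℝ => M * rot θ * dg u :=
    (continuous_const.mul continuous_rot).mul continuous_const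
  have hEm : Measurable E := (EE_measurable S).comp (hcont.measurable.prodMk measurable_const)
  have hE0 : ∀ θ, 0 ≤ E θ := fun θ => EE_nonneg S _
  have hEb : ∀ θ, E θ ≤ Fintype.card (Lab Λ) := fun θ => EE_bound hS _
  have hint : ∀ {f : ℝ → ℝ}, Measurable f → ∀ {K : ℝ}, (∀ θ, |f θ| ≤ K) →
      IntervalIntegrable f volume 0 1 := by
    intro f hf K hK
    rw [intervalIntegrable_iff_integrableOn_Ioc_of_le zero_le_one]
    have : IsFiniteMeasure ((volume : Measure ℝ).restrict (Ioc 0 1)) :=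
      ⟨by rw [Measure.restrict_apply_univ]; exact measure_Ioc_lt_top⟩
    exact Integrable.of_bound hf.aestronglyMeasurable K (Filter.Eventually.of_forall hK)
  have hBb : ∀ θ, |B θ| ≤ C := by
    intro θ
    calc |B θ| ≤ ∑ q, |DS S (M * rot θ * dg u, P) a b q₀ q *
          H q (P + mv (M * rot θ * dg u) (1, 0))| := Finset.abs_sum_le_sum_abs _ _
      _ ≤ ∑ q, DS S (M * rot θ * dg u, P) a b q₀ q * C := by
          refine Finset.sum_le_sum fun q _ => ?_
          have h5 := (DS_nonneg hS (M * rot θ * dg u, P) a b q₀ q).1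
          rw [abs_mul, abs_of_nonneg h5]
          exact mul_le_mul_of_nonneg_left (hC q _) h5
      _ = C := by rw [← Finset.sum_mul, DS_sum hS, one_mul]
  have hAb : ∀ θ, |A θ| ≤ C := by
    intro θ
    rw [abs_le]
    exact avgN_bound a b (fun q => abs_le.1 (hC q _)) _
  have hAB : ∀ θ, |B θ - A θ| ≤ C * κ * √(E θ) := by
    intro θ
    have h5 := orbit_average hS (M * rot θ * dg u, P) (a := a) (b := b) (q₀ := q₀) ha
      (fun q => H q (P + mv (M * rot θ * dg u) (1, 0))) (fun q => hC q _) hC0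
    rw [Real.sqrt_mul (Nat.cast_nonneg _), ← mul_assoc] at h5
    exact h5
  have hsq : ∀ θ, √(E θ) ≤ (E θ / δ + δ) / 2 := by
    intro θ
    have h5 : √(E θ) ^ 2 = E θ := Real.sq_sqrt (hE0 θ)
    rw [le_div_iff₀ (by norm_num : (0 : ℝ) < 2)]
    have h6 : √(E θ) ^ 2 / δ + δ - √(E θ) * 2 = (√(E θ) - δ) ^ 2 / δ := by
      field_simp
      ring
    rw [h5] at h6
    have h7 : 0 ≤ (√(E θ) - δ) ^ 2 / δ := by positivity
    linarith
  have hEi : IntervalIntegrable E volume 0 1 := hint hEm (K := Fintype.card (Lab Λ)) fun θ => by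
    rw [abs_of_nonneg (hE0 θ)]
    exact hEb θ
  have hBi := hint hBm hBb
  have hAi := hint hAm hAb
  have h6 : |(∫ θ in (0 : ℝ)..1, B θ) - ∫ θ in (0 : ℝ)..1, A θ| ≤ ε / 2 := by
    rw [← intervalIntegral.integral_sub hBi hAi]
    have h7 : |∫ θ in (0 : ℝ)..1, (B θ - A θ)| ≤
        ∫ θ in (0 : ℝ)..1, C * κ * ((E θ / δ + δ) / 2) := by
      refine (intervalIntegral.abs_integral_le_integral_abs zero_le_one).trans ?_
      refine intervalIntegral.integral_mono_on zero_le_one (hBi.sub hAi).abs ?_ fun θ _ => ?_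
      · exact (((hEi.div_const δ).add intervalIntegrable_const).div_const 2).const_mul _
      · exact (hAB θ).trans (mul_le_mul_of_nonneg_left (hsq θ) hCκ)
    have h8 : ∫ θ in (0 : ℝ)..1, C * κ * ((E θ / δ + δ) / 2) =
        C * κ * (((∫ θ in (0 : ℝ)..1, E θ) / δ + δ) / 2) := by
      rw [intervalIntegral.integral_const_mul, intervalIntegral.integral_div,
        intervalIntegral.integral_add (hEi.div_const δ) intervalIntegrable_const,
        intervalIntegral.integral_div, intervalIntegral.integral_const]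
      simp
    have h9 : (∫ θ in (0 : ℝ)..1, E θ) / δ ≤ δ := by
      rw [div_le_iff₀ hδ0, ← pow_two]
      exact hu2
    have h10 : C * κ * (((∫ θ in (0 : ℝ)..1, E θ) / δ + δ) / 2) ≤ C * κ * δ :=
      mul_le_mul_of_nonneg_left (by linarith) hCκ
    have h11 : C * κ * δ ≤ ε / 2 := by
      rw [hδ, mul_div_assoc', div_le_div_iff₀ (by positivity) (by norm_num)]
      nlinarith
    linarith
  have h12 := abs_sub_le (∫ θ in (0 : ℝ)..1, H (tau a b P (P + mv (M * rot θ * dg u) (1, 0)) q₀)
    (P + mv (M * rot θ * dg u) (1, 0))) (∫ θ in (0 : ℝ)..1, B θ) (∫ θ in (0 : ℝ)..1, A θ)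
  linarith

end

end Pool.Agent.ILL
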