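import Pool.Agent.ILL.Defs

/-!
# SFN. Large ellipses are equidistributed on tori (Mathlib only)

`bessel`: `∫_0^1 e(λ cos 2πθ) dθ → 0` as `|λ| → ∞`: split `[0,1]` into the set `|sin 2πθ| ≤ η` (measure `≤ η`) and at most
three intervals on which `|sin 2πθ| ≥ η`, where integration by parts
(`∫ e(λ cos) = ∫ (e(λ cos))' / (-(2πi)λ 2π sin)`) gives `O(1/(λ η²))`. (Or the Riemann-Lebesgue lemma after
substitution.)

`torus`: by the Stone-Weierstrass theorem (`UnitAddTorus.span_mFourier_closure_eq_top`) a continuous `Nℤ²`-periodic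
function is a uniform limit of trigonometric polynomials `Σ c_k e(k·A/N)`; it is enough to treat
`g(A) = e(k·A/N)` (complex valued version): for `k = 0` trivial, for `k ≠ 0` both sides tend to `0`: the mean
vanishes, and `k·mv (M rot θ dg u) (1,0)/N = (e^u/N) (k M)·e_θ = (e^u/N) |kM| cos(2πθ - φ)` with `kM ≠ 0`; shift `θ`
(period one) and use `bessel`.
-/

open MeasureTheory Set Filter Topology
open scoped ENNReal NNReal

namespace Pool.Agent.ILL

private theorem ee_norm (x : ℝ) : ‖ee x‖ = 1 := by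
  unfold ee
  have h : (2 * (Real.pi : ℂ) * x * Complex.I) = ((2 * Real.pi * x : ℝ) : ℂ) * Complex.I := by
    push_cast
    ring
  rw [h, Complex.norm_exp_ofReal_mul_I]

private theorem ee_cont : Continuous ee := by
  unfold ee
  fun_prop

private theorem ee_add (x y : ℝ) : ee (x + y) = ee x * ee y := by
  unfold ee
  rw [← Complex.exp_add]
  congr 1
  push_cast
  ring

private theorem half (l : ℝ) : ∫ θ in (0 : ℝ)..(1 / 2), ee (l * Real.cos (2 * Real.pi * θ)) =
    ∫ v : ℝ, Real.fourierChar (-(v * (-l))) •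
      ((fun θ : ℝ => Real.cos (2 * Real.pi * θ)) '' Ioo (0 : ℝ) (1 / 2)).indicator
        (fun u : ℝ => (((2 * Real.pi * √(1 - u ^ 2))⁻¹ : ℝ) : ℂ)) v := by
  have hpi := Real.pi_pos
  set s : Set ℝ := Ioo (0 : ℝ) (1 / 2) with hs
  set f : ℝ → ℝ := fun θ => Real.cos (2 * Real.pi * θ) with hf
  set f' : ℝ → ℝ := fun θ => -(Real.sin (2 * Real.pi * θ) * (2 * Real.pi)) with hf'
  have hder : ∀ x ∈ s, HasDerivWithinAt f (f' x) s x := by
    intro x _
    have h1 : HasDerivAt (fun θ : ℝ => 2 * Real.pi * θ) (2 * Real.pi) x := by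
      simpa using (hasDerivAt_id x).const_mul (2 * Real.pi)
    have h2 := h1.cos
    have h3 : HasDerivAt f (f' x) x := by
      convert h2 using 1
      simp only [hf']
      ring
    exact h3.hasDerivWithinAt
  have hinj : InjOn f s := by
    intro x hx y hy hxy
    have h1 : 2 * Real.pi * x = 2 * Real.pi * y := Real.injOn_cos
      ⟨by have := hx.1; positivity, by have := hx.2; nlinarith⟩
      ⟨by have := hy.1; positivity, by have := hy.2; nlinarith⟩ hxy
    have h2 : 2 * Real.pi ≠ 0 := by positivity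
    exact mul_left_cancel₀ h2 h1
  have hmeas : MeasurableSet (f '' s) := by
    refine measurable_image_of_fderivWithin measurableSet_Ioo (fun x hx => (hder x hx).hasFDerivWithinAt) hinj
  have key := integral_image_eq_integral_abs_deriv_smul measurableSet_Ioo hder hinj
    (fun u : ℝ => Real.fourierChar (-(u * (-l))) • (((2 * Real.pi * √(1 - u ^ 2))⁻¹ : ℝ) : ℂ))
  have e1 : (∫ v : ℝ, Real.fourierChar (-(v * (-l))) •
      (f '' s).indicator (fun u : ℝ => (((2 * Real.pi * √(1 - u ^ 2))⁻¹ : ℝ) : ℂ)) v) =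
      ∫ u in f '' s, Real.fourierChar (-(u * (-l))) • (((2 * Real.pi * √(1 - u ^ 2))⁻¹ : ℝ) : ℂ) := by
    rw [← integral_indicator hmeas]
    refine integral_congr_ae (Eventually.of_forall fun v => ?_)
    by_cases hv : v ∈ f '' s
    · simp only [indicator_of_mem hv]
    · simp only [indicator_of_notMem hv, smul_zero]
  rw [e1, key, intervalIntegral.integral_of_le (by norm_num), integral_Ioc_eq_integral_Ioo]
  refine setIntegral_congr_fun measurableSet_Ioo fun x hx => ?_
  have hsin : 0 < Real.sin (2 * Real.pi * x) := by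
    refine Real.sin_pos_of_pos_of_lt_pi ?_ ?_
    · have := hx.1
      positivity
    · have := hx.2
      nlinarith
  have h1 : √(1 - f x ^ 2) = Real.sin (2 * Real.pi * x) := by
    simp only [hf]
    rw [← Real.sin_sq, Real.sqrt_sq hsin.le]
  have h2 : |f' x| = 2 * Real.pi * Real.sin (2 * Real.pi * x) := by
    simp only [hf']
    rw [abs_neg, abs_of_pos (by positivity)]
    ring
  rw [h1, h2, Circle.smul_def, Real.fourierChar_apply, smul_eq_mul, Complex.real_smul]
  have h3 : ((2 * Real.pi * Real.sin (2 * Real.pi * x) : ℝ) : ℂ) ≠ 0 := by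
    exact_mod_cast (by positivity : (2 * Real.pi * Real.sin (2 * Real.pi * x)) ≠ 0)
  rw [Complex.ofReal_inv, mul_comm (Complex.exp _), ← mul_assoc, mul_inv_cancel₀ h3, one_mul]
  unfold ee
  congr 1
  simp only [hf]
  push_cast
  ring

private theorem bessel_double (l : ℝ) : ∫ θ in (0 : ℝ)..1, ee (l * Real.cos (2 * Real.pi * θ)) =
    2 * ∫ θ in (0 : ℝ)..(1 / 2), ee (l * Real.cos (2 * Real.pi * θ)) := by
  have hc : Continuous fun θ : ℝ => ee (l * Real.cos (2 * Real.pi * θ)) :=
    ee_cont.comp (by fun_prop)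
  rw [← intervalIntegral.integral_add_adjacent_intervals (hc.intervalIntegrable 0 (1 / 2))
    (hc.intervalIntegrable (1 / 2) 1)]
  have h1 := intervalIntegral.integral_comp_sub_left (a := (0 : ℝ)) (b := 1 / 2)
    (fun θ : ℝ => ee (l * Real.cos (2 * Real.pi * θ))) 1
  have h2 : (fun x : ℝ => ee (l * Real.cos (2 * Real.pi * (1 - x)))) =
      fun x : ℝ => ee (l * Real.cos (2 * Real.pi * x)) := by
    funext x
    rw [show 2 * Real.pi * (1 - x) = 2 * Real.pi - 2 * Real.pi * x by ring, Real.cos_two_pi_sub]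
  rw [h2] at h1
  norm_num at h1
  rw [← h1]
  ring

theorem bessel : Tendsto (fun l : ℝ => ∫ θ in (0 : ℝ)..1, ee (l * Real.cos (2 * Real.pi * θ)))
    atTop (𝓝 0) := by
  have h1 := Real.tendsto_integral_exp_smul_cocompact
    (((fun θ : ℝ => Real.cos (2 * Real.pi * θ)) '' Ioo (0 : ℝ) (1 / 2)).indicator
        (fun u : ℝ => (((2 * Real.pi * √(1 - u ^ 2))⁻¹ : ℝ) : ℂ)))
  have h2 : Tendsto (fun l : ℝ => -l) atTop (cocompact ℝ) :=
    tendsto_neg_atTop_atBot.mono_right atBot_le_cocompact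
  have h3 := (h1.comp h2).const_mul (2 : ℂ)
  rw [mul_zero] at h3
  refine h3.congr fun l => ?_
  rw [bessel_double, half]
  rfl

/-- general phases -/
private theorem phase (a b : ℝ) (l : ℝ) :
    ∫ θ in (0 : ℝ)..1, ee (l * (a * Real.cos (2 * Real.pi * θ) + b * Real.sin (2 * Real.pi * θ))) =
      ∫ θ in (0 : ℝ)..1, ee (l * ‖(⟨a, b⟩ : ℂ)‖ * Real.cos (2 * Real.pi * θ)) := by
  set φ : ℝ := Complex.arg ⟨a, b⟩ with hφ
  set R : ℝ := ‖(⟨a, b⟩ : ℂ)‖ with hR
  have ha : R * Real.cos φ = a := Complex.norm_mul_cos_arg ⟨a, b⟩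
  have hb : R * Real.sin φ = b := Complex.norm_mul_sin_arg ⟨a, b⟩
  set f : ℝ → ℂ := fun θ => ee (l * R * Real.cos (2 * Real.pi * θ)) with hf
  have hpi : (2 * Real.pi) ≠ 0 := by positivity
  have h1 : ∀ θ : ℝ, ee (l * (a * Real.cos (2 * Real.pi * θ) + b * Real.sin (2 * Real.pi * θ))) =
      f (θ - φ / (2 * Real.pi)) := by
    intro θ
    simp only [hf]
    rw [show 2 * Real.pi * (θ - φ / (2 * Real.pi)) = 2 * Real.pi * θ - φ by field_simp,
      Real.cos_sub, ← ha, ← hb]
    congr 1
    ring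
  have hper : Function.Periodic f 1 := by
    intro θ
    simp only [hf]
    rw [show 2 * Real.pi * (θ + 1) = 2 * Real.pi * θ + 2 * Real.pi by ring, Real.cos_add_two_pi]
  simp only [h1]
  rw [intervalIntegral.integral_comp_sub_right]
  have h2 := hper.intervalIntegral_add_eq (0 - φ / (2 * Real.pi)) 0
  rw [zero_add] at h2
  rw [← h2]
  congr 1
  ring

private theorem phase_tendsto {a b : ℝ} (h : ¬ (a = 0 ∧ b = 0)) {N : ℕ} (hN : 0 < N) :
    Tendsto (fun u : ℝ => ∫ θ in (0 : ℝ)..1,
      ee (Real.exp u / N * (a * Real.cos (2 * Real.pi * θ) + b * Real.sin (2 * Real.pi * θ))))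
      atTop (𝓝 0) := by
  have hR : 0 < ‖(⟨a, b⟩ : ℂ)‖ := by
    rw [norm_pos_iff]
    intro h0
    exact h ⟨congrArg Complex.re h0, congrArg Complex.im h0⟩
  have hN' : (0 : ℝ) < N := by exact_mod_cast hN
  have h1 : Tendsto (fun u : ℝ => Real.exp u / N * ‖(⟨a, b⟩ : ℂ)‖) atTop atTop :=
    (Real.tendsto_exp_atTop.atTop_div_const hN').atTop_mul_const hR
  refine (bessel.comp h1).congr fun u => ?_
  rw [phase]
  rfl

/-- the projection to the torus -/
private noncomputable def prj (v : Fin 2 → ℝ) : UnitAddTorus (Fin 2) := fun i => (v i : UnitAddCircle)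

private theorem prj_quot : IsOpenQuotientMap prj := by
  have h : ∀ _ : Fin 2, IsOpenQuotientMap (fun x : ℝ => (x : UnitAddCircle)) := fun _ =>
    QuotientAddGroup.isOpenQuotientMap_mk
  exact IsOpenQuotientMap.piMap h

private theorem prj_eq {v w : Fin 2 → ℝ} (h : prj v = prj w) : ∃ z : Fin 2 → ℤ, ∀ i, v i = w i + z i := by
  have h1 : ∀ i, ∃ z : ℤ, v i = w i + z := by
    intro i
    have h2 := congrFun h i
    have h3 : ((v i - w i : ℝ) : UnitAddCircle) = 0 := by
      rw [AddCircle.coe_sub, sub_eq_zero]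
      exact h2
    obtain ⟨n, hn⟩ := (AddCircle.coe_eq_zero_iff (1 : ℝ)).1 h3
    refine ⟨n, ?_⟩
    rw [zsmul_eq_mul, mul_one] at hn
    linarith
  choose z hz using h1
  exact ⟨z, hz⟩

private theorem mF (n : Fin 2 → ℤ) (v : Fin 2 → ℝ) :
    UnitAddTorus.mFourier n (prj v) = ee (n 0 * v 0 + n 1 * v 1) := by
  simp only [UnitAddTorus.mFourier, ContinuousMap.coe_mk, Fin.prod_univ_two, prj]
  rw [fourier_coe_apply, fourier_coe_apply, ← Complex.exp_add]
  unfold ee
  congr 1
  push_cast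
  ring

private theorem int_ee (n : ℤ) : ∫ x in (0 : ℝ)..1, ee (n * x) = if n = 0 then 1 else 0 := by
  split_ifs with h
  · subst h
    simp [ee]
  · have hc : (2 * (Real.pi : ℂ) * n * Complex.I) ≠ 0 := by
      have : (Real.pi : ℂ) ≠ 0 := by exact_mod_cast Real.pi_ne_zero
      have h' : (n : ℂ) ≠ 0 := by exact_mod_cast h
      exact mul_ne_zero (mul_ne_zero (mul_ne_zero two_ne_zero this) h') Complex.I_ne_zero
    have h1 := integral_exp_mul_complex (a := 0) (b := 1) hc
    have h2 : (fun x : ℝ => Complex.exp (2 * (Real.pi : ℂ) * n * Complex.I * x)) =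
        fun x : ℝ => ee (n * x) := by
      funext x
      unfold ee
      congr 1
      push_cast
      ring
    rw [h2] at h1
    rw [h1, Complex.ofReal_zero, Complex.ofReal_one, mul_zero, mul_one, Complex.exp_zero]
    have h3 : Complex.exp (2 * (Real.pi : ℂ) * n * Complex.I) = 1 := by
      rw [Complex.exp_eq_one_iff]
      exact ⟨n, by ring⟩
    rw [h3, sub_self, zero_div]

/-- the points of the circles in the torus -/
private noncomputable def cu (N : ℕ) (M : SLR) (P : Pl) (u θ : ℝ) : Fin 2 → ℝ :=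
  ![(P + mv (M * rot θ * dg u) (1, 0)).1 / N, (P + mv (M * rot θ * dg u) (1, 0)).2 / N]

private theorem cu_eq (N : ℕ) (M : SLR) (P : Pl) (u θ : ℝ) :
    cu N M P u θ = ![(P.1 + Real.exp u * (M 0 0 * Real.cos (2 * Real.pi * θ) +
        M 0 1 * Real.sin (2 * Real.pi * θ))) / N,
      (P.2 + Real.exp u * (M 1 0 * Real.cos (2 * Real.pi * θ) +
        M 1 1 * Real.sin (2 * Real.pi * θ))) / N] := by
  have h : mv (M * rot θ * dg u) (1, 0) =
      (Real.exp u * (M 0 0 * Real.cos (2 * Real.pi * θ) + M 0 1 * Real.sin (2 * Real.pi * θ)),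
       Real.exp u * (M 1 0 * Real.cos (2 * Real.pi * θ) + M 1 1 * Real.sin (2 * Real.pi * θ))) := by
    rw [mv_mul, mv_mul]
    simp only [mv, rot, dg, Matrix.of_apply, Matrix.cons_val', Matrix.cons_val_zero,
      Matrix.cons_val_one, Matrix.cons_val_fin_one]
    ext <;> simp <;> ring
  unfold cu
  rw [h]
  rfl

private theorem cu_cont (N : ℕ) (M : SLR) (P : Pl) (u : ℝ) : Continuous (cu N M P u) := by
  have : cu N M P u = fun θ => ![(P.1 + Real.exp u * (M 0 0 * Real.cos (2 * Real.pi * θ) +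
        M 0 1 * Real.sin (2 * Real.pi * θ))) / N,
      (P.2 + Real.exp u * (M 1 0 * Real.cos (2 * Real.pi * θ) +
        M 1 1 * Real.sin (2 * Real.pi * θ))) / N] := funext fun θ => cu_eq N M P u θ
  rw [this]
  refine continuous_pi fun i => ?_
  fin_cases i
  · simp only [Fin.zero_eta, Matrix.cons_val_zero]
    fun_prop
  · simp only [Fin.mk_one, Matrix.cons_val_one, Matrix.cons_val_fin_one]
    fun_prop

/-- the functional -/
private noncomputable def Lu (N : ℕ) (M : SLR) (P : Pl) (u : ℝ) (F : C(UnitAddTorus (Fin 2), ℂ)) : ℂ :=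
  (∫ θ in (0 : ℝ)..1, F (prj (cu N M P u θ))) - ∫ x in (0 : ℝ)..1, ∫ y in (0 : ℝ)..1, F (prj ![x, y])

private theorem prj_cont : Continuous prj := prj_quot.continuous

private theorem inner_cont (F : C(UnitAddTorus (Fin 2), ℂ)) :
    Continuous fun x : ℝ => ∫ y in (0 : ℝ)..1, F (prj ![x, y]) := by
  refine intervalIntegral.continuous_parametric_intervalIntegral_of_continuous' ?_ 0 1
  refine F.continuous.comp (prj_cont.comp ?_)
  refine continuous_pi fun i => ?_
  fin_cases i
  · exact continuous_fst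
  · exact continuous_snd

private theorem Lu_add (N : ℕ) (M : SLR) (P : Pl) (u : ℝ) (F G : C(UnitAddTorus (Fin 2), ℂ)) :
    Lu N M P u (F + G) = Lu N M P u F + Lu N M P u G := by
  have h1 : ∀ F : C(UnitAddTorus (Fin 2), ℂ), IntervalIntegrable (fun θ => F (prj (cu N M P u θ)))
      volume 0 1 := fun F =>
    (F.continuous.comp (prj_cont.comp (cu_cont N M P u))).intervalIntegrable _ _
  have h2 : ∀ (F : C(UnitAddTorus (Fin 2), ℂ)) (x : ℝ), IntervalIntegrable
      (fun y => F (prj ![x, y])) volume 0 1 := fun F x => by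
    refine Continuous.intervalIntegrable (F.continuous.comp (prj_cont.comp ?_)) _ _
    refine continuous_pi fun i => ?_
    fin_cases i
    · exact continuous_const
    · exact continuous_id
  have h3 : ∀ F : C(UnitAddTorus (Fin 2), ℂ), IntervalIntegrable
      (fun x : ℝ => ∫ y in (0 : ℝ)..1, F (prj ![x, y])) volume 0 1 := fun F =>
    (inner_cont F).intervalIntegrable _ _
  unfold Lu
  simp only [ContinuousMap.add_apply]
  rw [intervalIntegral.integral_add (h1 F) (h1 G)]
  have h4 : (fun x : ℝ => ∫ y in (0 : ℝ)..1, (F (prj ![x, y]) + G (prj ![x, y]))) =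
      fun x : ℝ => (∫ y in (0 : ℝ)..1, F (prj ![x, y])) + ∫ y in (0 : ℝ)..1, G (prj ![x, y]) := by
    funext x
    exact intervalIntegral.integral_add (h2 F x) (h2 G x)
  rw [h4, intervalIntegral.integral_add (h3 F) (h3 G)]
  ring

private theorem Lu_smul (N : ℕ) (M : SLR) (P : Pl) (u : ℝ) (c : ℂ) (F : C(UnitAddTorus (Fin 2), ℂ)) :
    Lu N M P u (c • F) = c * Lu N M P u F := by
  unfold Lu
  simp only [ContinuousMap.smul_apply, smul_eq_mul, intervalIntegral.integral_const_mul]
  ring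

private theorem Lu_norm (N : ℕ) (M : SLR) (P : Pl) (u : ℝ) (F : C(UnitAddTorus (Fin 2), ℂ)) :
    ‖Lu N M P u F‖ ≤ 2 * ‖F‖ := by
  have h1 : ‖∫ θ in (0 : ℝ)..1, F (prj (cu N M P u θ))‖ ≤ ‖F‖ := by
    have := intervalIntegral.norm_integral_le_of_norm_le_const (a := (0 : ℝ)) (b := 1) (C := ‖F‖)
      (f := fun θ => F (prj (cu N M P u θ))) fun θ _ => F.norm_coe_le_norm _
    simpa using this
  have h2 : ‖∫ x in (0 : ℝ)..1, ∫ y in (0 : ℝ)..1, F (prj ![x, y])‖ ≤ ‖F‖ := by
    have := intervalIntegral.norm_integral_le_of_norm_le_const (a := (0 : ℝ)) (b := 1) (C := ‖F‖)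
      (f := fun x : ℝ => ∫ y in (0 : ℝ)..1, F (prj ![x, y])) fun x _ => by
        have := intervalIntegral.norm_integral_le_of_norm_le_const (a := (0 : ℝ)) (b := 1)
          (C := ‖F‖) (f := fun y => F (prj ![x, y])) fun y _ => F.norm_coe_le_norm _
        simpa using this
    simpa using this
  calc ‖Lu N M P u F‖ ≤ _ := norm_sub_le _ _
    _ ≤ ‖F‖ + ‖F‖ := add_le_add h1 h2
    _ = _ := by ring

private theorem Lu_mF {N : ℕ} (hN : 0 < N) (M : SLR) (P : Pl) (n : Fin 2 → ℤ) :
    Tendsto (fun u => Lu N M P u (UnitAddTorus.mFourier n)) atTop (𝓝 0) := by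
  have hN' : (N : ℝ) ≠ 0 := by exact_mod_cast hN.ne'
  have hsq : ∫ x in (0 : ℝ)..1, ∫ y in (0 : ℝ)..1, UnitAddTorus.mFourier n (prj ![x, y]) =
      (if n 0 = 0 then 1 else 0) * (if n 1 = 0 then 1 else 0) := by
    rw [← int_ee, ← int_ee]
    have h1 : ∀ x : ℝ, ∫ y in (0 : ℝ)..1, UnitAddTorus.mFourier n (prj ![x, y]) =
        ee (n 0 * x) * ∫ y in (0 : ℝ)..1, ee (n 1 * y) := by
      intro x
      rw [← intervalIntegral.integral_const_mul]
      congr 1
      funext y
      rw [mF, ← ee_add]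
      rfl
    simp only [h1]
    rw [intervalIntegral.integral_mul_const]
  by_cases hn : n 0 = 0 ∧ n 1 = 0
  · have h1 : ∀ u, Lu N M P u (UnitAddTorus.mFourier n) = 0 := by
      intro u
      unfold Lu
      rw [hsq, if_pos hn.1, if_pos hn.2]
      simp only [mF, hn.1, hn.2]
      simp [ee]
    simp only [h1]
    exact tendsto_const_nhds
  · set a : ℝ := n 0 * M 0 0 + n 1 * M 1 0 with ha
    set b : ℝ := n 0 * M 0 1 + n 1 * M 1 1 with hb
    have hab : ¬ (a = 0 ∧ b = 0) := by
      rintro ⟨h1, h2⟩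
      have hdet : M 0 0 * M 1 1 - M 0 1 * M 1 0 = 1 := by
        have := M.2
        rwa [Matrix.det_fin_two] at this
      have h3 : (n 0 : ℝ) = 0 := by
        have : (n 0 : ℝ) * (M 0 0 * M 1 1 - M 0 1 * M 1 0) = a * M 1 1 - b * M 1 0 := by
          rw [ha, hb]
          ring
        rw [hdet, h1, h2] at this
        simpa using this
      have h4 : (n 1 : ℝ) = 0 := by
        have : (n 1 : ℝ) * (M 0 0 * M 1 1 - M 0 1 * M 1 0) = b * M 0 0 - a * M 0 1 := by
          rw [ha, hb]
          ring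
        rw [hdet, h1, h2] at this
        simpa using this
      exact hn ⟨by exact_mod_cast h3, by exact_mod_cast h4⟩
    have h1 := (phase_tendsto hab hN).const_mul (ee ((n 0 * P.1 + n 1 * P.2) / N))
    rw [mul_zero] at h1
    refine h1.congr fun u => ?_
    unfold Lu
    have h0 : ((if n 0 = 0 then 1 else 0) * (if n 1 = 0 then 1 else 0) : ℂ) = 0 := by
      by_cases h0 : n 0 = 0
      · have h1 : n 1 ≠ 0 := fun h1 => hn ⟨h0, h1⟩
        simp [h1]
      · simp [h0]
    rw [hsq, h0, sub_zero, ← intervalIntegral.integral_const_mul]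
    congr 1
    funext θ
    rw [mF, ← ee_add, cu_eq]
    congr 1
    simp only [Matrix.cons_val_zero, Matrix.cons_val_one, Matrix.cons_val_fin_one, ha, hb]
    field_simp
    ring

private theorem Lu_all {N : ℕ} (hN : 0 < N) (M : SLR) (P : Pl) (F : C(UnitAddTorus (Fin 2), ℂ)) :
    Tendsto (fun u => Lu N M P u F) atTop (𝓝 0) := by
  have hspan : ∀ G ∈ Submodule.span ℂ (range (UnitAddTorus.mFourier (d := Fin 2))),
      Tendsto (fun u => Lu N M P u G) atTop (𝓝 0) := by
    intro G hG
    induction hG using Submodule.span_induction with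
    | mem x hx =>
      obtain ⟨n, rfl⟩ := hx
      exact Lu_mF hN M P n
    | zero =>
      have : ∀ u, Lu N M P u 0 = 0 := fun u => by
        have h0 := Lu_smul N M P u 0 0
        have h1 : ((0 : ℂ) • (0 : C(UnitAddTorus (Fin 2), ℂ))) = 0 := by
          ext y
          simp
        rw [h1, zero_mul] at h0
        exact h0
      simp only [this]
      exact tendsto_const_nhds
    | add x y _ _ hx hy =>
      simp only [Lu_add]
      simpa using hx.add hy
    | smul c x _ hx =>
      simp only [Lu_smul]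
      simpa using hx.const_mul c
  have hcl : F ∈ (Submodule.span ℂ (range (UnitAddTorus.mFourier (d := Fin 2)))).topologicalClosure := by
    rw [UnitAddTorus.span_mFourier_closure_eq_top]
    trivial
  rw [Metric.tendsto_atTop]
  intro ε hε
  obtain ⟨G, hG, hGF⟩ := Metric.mem_closure_iff.1 hcl (ε / 4) (by positivity)
  obtain ⟨u0, hu0⟩ := Metric.tendsto_atTop.1 (hspan G hG) (ε / 2) (by positivity)
  refine ⟨u0, fun u hu => ?_⟩
  have h1 := hu0 u hu
  rw [dist_zero_right] at h1 ⊢
  have h2 : Lu N M P u F = Lu N M P u G + Lu N M P u (F - G) := by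
    rw [← Lu_add, add_sub_cancel]
  rw [h2]
  have h3 := Lu_norm N M P u (F - G)
  rw [dist_eq_norm] at hGF
  calc _ ≤ ‖Lu N M P u G‖ + ‖Lu N M P u (F - G)‖ := norm_add_le _ _
    _ < ε / 2 + 2 * (ε / 4) := by linarith
    _ = ε := by ring

theorem torus {g : Pl → ℝ} (hg : Continuous g) {N : ℕ} (hN : 0 < N)
    (hper : ∀ (A : Pl) (z : ℤ × ℤ), g (A + (N : ℝ) • ZP z) = g A) (M : SLR) (P : Pl) :
    Tendsto (fun u : ℝ => ∫ θ in (0 : ℝ)..1, g (P + mv (M * rot θ * dg u) (1, 0))) atTop
      (𝓝 ((∫ x in (0 : ℝ)..N, ∫ y in (0 : ℝ)..N, g (x, y)) / (N : ℝ) ^ 2)) := by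
  have hN' : (N : ℝ) ≠ 0 := by exact_mod_cast hN.ne'
  -- the function on the torus
  set G0 : (Fin 2 → ℝ) → ℂ := fun v => ((g (N * v 0, N * v 1) : ℝ) : ℂ) with hG0
  set G : UnitAddTorus (Fin 2) → ℂ := fun x => G0 (Function.surjInv prj_quot.surjective x) with hG
  have hGprj : ∀ v, G (prj v) = G0 v := by
    intro v
    obtain ⟨z, hz⟩ := prj_eq (Function.surjInv_eq prj_quot.surjective (prj v))
    simp only [hG, hG0]
    rw [hz 0, hz 1]
    have h1 := hper (N * v 0, N * v 1) (z 0, z 1)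
    have h2 : ((N * v 0, N * v 1) : Pl) + (N : ℝ) • ZP (z 0, z 1) =
        (N * (v 0 + z 0), N * (v 1 + z 1)) := by
      simp only [ZP, Prod.smul_mk, smul_eq_mul, Prod.mk_add_mk]
      ext <;> simp <;> ring
    rw [h2] at h1
    rw [h1]
  have hGc : Continuous G := by
    rw [prj_quot.isQuotientMap.continuous_iff]
    have : G ∘ prj = G0 := funext hGprj
    rw [this]
    refine Complex.continuous_ofReal.comp (hg.comp ?_)
    fun_prop
  have h1 := Lu_all hN M P ⟨G, hGc⟩
  have e1 : ∀ u, Lu N M P u ⟨G, hGc⟩ =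
      (((∫ θ in (0 : ℝ)..1, g (P + mv (M * rot θ * dg u) (1, 0))) -
        (∫ x in (0 : ℝ)..N, ∫ y in (0 : ℝ)..N, g (x, y)) / (N : ℝ) ^ 2 : ℝ) : ℂ) := by
    intro u
    unfold Lu
    simp only [ContinuousMap.coe_mk, hGprj]
    rw [Complex.ofReal_sub]
    congr 1
    · rw [← intervalIntegral.integral_ofReal]
      congr 1
      funext θ
      simp only [hG0, cu, Matrix.cons_val_zero, Matrix.cons_val_one, Matrix.cons_val_fin_one]
      rw [mul_div_cancel₀ _ hN', mul_div_cancel₀ _ hN']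
    · have h2 : ∀ x : ℝ, ∫ y in (0 : ℝ)..1, G0 ![x, y] =
          (((N : ℝ)⁻¹ * ∫ y in (0 : ℝ)..N, g (N * x, y) : ℝ) : ℂ) := by
        intro x
        have h3 := intervalIntegral.integral_comp_mul_left (a := (0 : ℝ)) (b := 1)
          (fun y => g (N * x, y)) hN'
        rw [mul_zero, mul_one, smul_eq_mul] at h3
        rw [← h3, ← intervalIntegral.integral_ofReal]
        rfl
      simp only [h2]
      rw [intervalIntegral.integral_ofReal, intervalIntegral.integral_const_mul]
      congr 1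
      have h3 := intervalIntegral.integral_comp_mul_left (a := (0 : ℝ)) (b := 1)
          (fun x => ∫ y in (0 : ℝ)..N, g (x, y)) hN'
      rw [mul_zero, mul_one, smul_eq_mul] at h3
      rw [h3]
      field_simp
  simp only [e1] at h1
  have h2 := (Complex.continuous_re.tendsto _).comp h1
  simp only [Complex.zero_re] at h2
  have h3 := h2.add_const ((∫ x in (0 : ℝ)..N, ∫ y in (0 : ℝ)..N, g (x, y)) / (N : ℝ) ^ 2)
  rw [zero_add] at h3
  refine h3.congr fun u => ?_
  simp only [Function.comp_apply, Complex.ofReal_re, sub_add_cancel]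

end Pool.Agent.ILL
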