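import Pool.Agent.ILL.Sfj
import Pool.Agent.ILL.Avn

/-!
# SFO. The averaged function on the plane

`gav h q₀ i j A = avgN right up (q ↦ h (pA q A)) (right^(⌊A.1⌋ - i) (up^(⌊A.2⌋ - j) q₀))`.
* `gav_tau`: for `i = ⌊P.1⌋`, `j = ⌊P.2⌋` it equals `avgN (q ↦ h (pA q A)) (tau P A q₀)`: `tau_mod` and `avgN_inv`
  (the average is invariant under left translation of the label by `Nc`).
* `gav_continuous`: inside the tiles clear. On the closed square `[k,k+1] × [l,l+1]` the function agrees, on the half open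
  square, with `A ↦ avgN (q ↦ h (pt q (A.1-k, A.2-l))) (right^(k-i) up^(l-j) q₀)`, continuous on the closed square; so it
  remains to see that it agrees with `gav` on the right and upper sides as well (then `gav` is continuous: locally finite
  closed cover). Right side `A.1 = k+1`, `l ≤ A.2 < l+1`:
  `avgN (q ↦ h (pt q (1,y))) q' = avgN (q ↦ h (pt (right q) (0,y))) q' = avgN (q ↦ h (pt q (0,y))) (right q')`
  (`avgN_smul` with `g = right`), `q' = right^(k-i) up^(l-j) q₀`: this is `gav A`. Upper side `A.2 = l+1`,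
  `k ≤ A.1 < k+1`: `avgN (q ↦ h (pt q (x,0))) (up q')` and `up right^(k-i) up^(l-j) q₀ = n right^(k-i) up^(l+1-j) q₀` with
  `n ∈ Nc`, `avgN_inv`. Upper right corner: combine both.
* `gav_periodic` with `N = card (Perm Tile)` (`pow_card_eq_one`): `right^N = up^N = 1`, `pA_add_int`.
* `gav_mean`: `(1/N²) ∫_{[0,N]²} gav = mean h`: `= (1/N²) Σ_{k,l<N} ∫_{[0,1]²} avgN (q ↦ h (pt q v)) (right^(k-i) up^(l-j) q₀)`.
  For fixed `v` put `ψ(q) = h (pt q v)` and `G = ⟨right, up⟩`. `(1/N²) Σ_{k,l} avgN ψ (right^(k-i) up^(l-j) q₀)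
  = (1/|G|) Σ_{g∈G} ψ(g q₀)`: the map `(k,l) ↦ right^k up^l Nc` is a homomorphism from `(ℤ/N)²` onto `G/Nc` (abelian), so
  all fibres have the same size. And `(1/|G|) Σ_{g∈G} ψ(g q₀) = (1/card Tile) Σ_q ψ(q)` by transitivity (`connected`): all
  fibres of `g ↦ g q₀` have the same size (cosets of the stabiliser). Hence the mean does not depend on `i, j`.
-/

open MeasureTheory Set Filter Topology
open scoped ENNReal NNReal

namespace Pool.Agent.ILL

namespace TiledSurface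
variable (S : TiledSurface)

/-- the averaged function -/
noncomputable def gav (h : S.X → ℝ) (q₀ : S.Tile) (i j : ℤ) (A : Pl) : ℝ :=
  avgN S.right S.up (fun q => h (S.pA q A)) ((S.right ^ (⌊A.1⌋ - i) * S.up ^ (⌊A.2⌋ - j)) q₀)

theorem gav_tau (h : S.X → ℝ) (q₀ : S.Tile) (P A : Pl) :
    avgN S.right S.up (fun q => h (S.pA q A)) (tau S.right S.up P A q₀) =
      S.gav h q₀ ⌊P.1⌋ ⌊P.2⌋ A := by
  obtain ⟨n, hn, h1⟩ := tau_mod S.right S.up P A
  rw [h1, mul_assoc, Equiv.Perm.mul_apply, avgN_inv _ _ hn]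
  rfl

private theorem right_mem : S.right ∈ Subgroup.closure {S.right, S.up} :=
  Subgroup.subset_closure (Or.inl rfl)

private theorem up_mem : S.up ∈ Subgroup.closure {S.right, S.up} :=
  Subgroup.subset_closure (Or.inr rfl)

/-- the averaged function on a closed tile -/
private noncomputable def gE (h : S.X → ℝ) (q₀ : S.Tile) (i j k l : ℤ) (A : Pl) : ℝ :=
  avgN S.right S.up (fun q => h (S.pt q (A.1 - k, A.2 - l))) ((S.right ^ (k - i) * S.up ^ (l - j)) q₀)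

private theorem gE_cont {h : S.X → ℝ} (hh : Continuous h) (q₀ : S.Tile) (i j k l : ℤ) :
    Continuous (S.gE h q₀ i j k l) := by
  unfold gE avgN
  refine Continuous.div_const ?_ _
  refine continuous_finsetSum _ fun n _ => ?_
  exact hh.comp ((S.continuous_pt _).comp (by fun_prop))

private theorem gE_side (h : S.X → ℝ) (q₀ : S.Tile) (i j k l : ℤ) {A : Pl} (hA : A.1 = k + 1) :
    S.gE h q₀ i j k l A = S.gE h q₀ i j (k + 1) l A := by
  have h1 : A.1 - k = 1 := by rw [hA]; ring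
  have h2 : A.1 - ((k + 1 : ℤ) : ℝ) = 0 := by rw [hA]; push_cast; ring
  have h3 : S.gE h q₀ i j k l A = avgN S.right S.up
      (fun q => (fun q' => h (S.pt q' (0, A.2 - l))) (S.right q))
      ((S.right ^ (k - i) * S.up ^ (l - j)) q₀) := by
    unfold gE
    simp only [h1, pt_side]
  rw [h3, avgN_smul S.right S.up S.right_mem (fun q' => h (S.pt q' (0, A.2 - l)))]
  unfold gE
  rw [h2, ← Equiv.Perm.mul_apply, ← mul_assoc, ← zpow_one_add,
    show 1 + (k - i) = k + 1 - i by ring]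

private theorem gE_top (h : S.X → ℝ) (q₀ : S.Tile) (i j k l : ℤ) {A : Pl} (hA : A.2 = l + 1) :
    S.gE h q₀ i j k l A = S.gE h q₀ i j k (l + 1) A := by
  have h1 : A.2 - l = 1 := by rw [hA]; ring
  have h2 : A.2 - ((l + 1 : ℤ) : ℝ) = 0 := by rw [hA]; push_cast; ring
  have h3 : S.gE h q₀ i j k l A = avgN S.right S.up
      (fun q => (fun q' => h (S.pt q' (A.1 - k, 0))) (S.up q))
      ((S.right ^ (k - i) * S.up ^ (l - j)) q₀) := by
    unfold gE
    simp only [h1, pt_top]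
  rw [h3, avgN_smul S.right S.up S.up_mem (fun q' => h (S.pt q' (A.1 - k, 0)))]
  unfold gE
  have hn : S.up * S.right ^ (k - i) * S.up⁻¹ * (S.right ^ (k - i))⁻¹ ∈ Nc S.right S.up :=
    Subgroup.commutator_mem_commutator S.up_mem (zpow_mem S.right_mem _)
  have h4 : S.up ((S.right ^ (k - i) * S.up ^ (l - j)) q₀) =
      (S.up * S.right ^ (k - i) * S.up⁻¹ * (S.right ^ (k - i))⁻¹)
        ((S.right ^ (k - i) * S.up ^ (l + 1 - j)) q₀) := by
    rw [← Equiv.Perm.mul_apply, ← Equiv.Perm.mul_apply]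
    congr 1
    rw [show l + 1 - j = 1 + (l - j) by ring, zpow_one_add]
    group
  rw [h2, h4, avgN_inv _ _ hn]

private theorem gav_base (h : S.X → ℝ) (q₀ : S.Tile) (i j k l : ℤ) {A : Pl} (h1 : (k : ℝ) ≤ A.1)
    (h2 : A.1 < k + 1) (h3 : (l : ℝ) ≤ A.2) (h4 : A.2 < l + 1) :
    S.gav h q₀ i j A = S.gE h q₀ i j k l A := by
  unfold gav gE
  rw [Int.floor_eq_iff.2 ⟨h1, h2⟩, Int.floor_eq_iff.2 ⟨h3, h4⟩]
  simp only [S.pA_eq_pt _ A k l h1 h2 h3 h4]

private theorem gav_tile (h : S.X → ℝ) (q₀ : S.Tile) (i j k l : ℤ) {A : Pl} (h1 : (k : ℝ) ≤ A.1)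
    (h2 : A.1 ≤ k + 1) (h3 : (l : ℝ) ≤ A.2) (h4 : A.2 ≤ l + 1) :
    S.gav h q₀ i j A = S.gE h q₀ i j k l A := by
  rcases h2.lt_or_eq with h2 | h2
  · rcases h4.lt_or_eq with h4 | h4
    · exact S.gav_base h q₀ i j k l h1 h2 h3 h4
    · rw [S.gE_top h q₀ i j k l h4]
      exact S.gav_base h q₀ i j k (l + 1) h1 h2 (by rw [h4]; push_cast; rfl)
        (by rw [h4]; push_cast; linarith)
  · rw [S.gE_side h q₀ i j k l h2]
    rcases h4.lt_or_eq with h4 | h4
    · exact S.gav_base h q₀ i j (k + 1) l (by rw [h2]; push_cast; rfl)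
        (by rw [h2]; push_cast; linarith) h3 h4
    · rw [S.gE_top h q₀ i j (k + 1) l h4]
      exact S.gav_base h q₀ i j (k + 1) (l + 1) (by rw [h2]; push_cast; rfl)
        (by rw [h2]; push_cast; linarith) (by rw [h4]; push_cast; rfl)
        (by rw [h4]; push_cast; linarith)

/-- the closed unit squares -/
private def sqr (z : ℤ × ℤ) : Set Pl :=
  {A | (z.1 : ℝ) ≤ A.1 ∧ A.1 ≤ z.1 + 1 ∧ (z.2 : ℝ) ≤ A.2 ∧ A.2 ≤ z.2 + 1}

private theorem sqr_closed (z : ℤ × ℤ) : IsClosed (sqr z) := by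
  unfold sqr
  refine (isClosed_le continuous_const continuous_fst).and ?_
  refine (isClosed_le continuous_fst continuous_const).and ?_
  refine (isClosed_le continuous_const continuous_snd).and ?_
  exact isClosed_le continuous_snd continuous_const

private theorem sqr_cover : ⋃ z, sqr z = univ := by
  refine eq_univ_of_forall fun A => ?_
  rw [mem_iUnion]
  exact ⟨(⌊A.1⌋, ⌊A.2⌋), Int.floor_le _, (Int.lt_floor_add_one _).le, Int.floor_le _,
    (Int.lt_floor_add_one _).le⟩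

private theorem sqr_locFin : LocallyFinite sqr := by
  intro A
  refine ⟨Metric.ball A 1, Metric.ball_mem_nhds A one_pos,
    (Set.finite_Icc ((⌊A.1⌋ - 3, ⌊A.2⌋ - 3) : ℤ × ℤ) (⌊A.1⌋ + 3, ⌊A.2⌋ + 3)).subset ?_⟩
  rintro z ⟨B, hB, hB2⟩
  obtain ⟨b1, b2, b3, b4⟩ := hB
  rw [Metric.mem_ball, Prod.dist_eq, max_lt_iff, Real.dist_eq, Real.dist_eq, abs_lt, abs_lt] at hB2
  obtain ⟨⟨c1, c2⟩, c3, c4⟩ := hB2
  have d1 := Int.floor_le A.1
  have d2 := Int.lt_floor_add_one A.1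
  have d3 := Int.floor_le A.2
  have d4 := Int.lt_floor_add_one A.2
  have e1 : ⌊A.1⌋ - 3 ≤ z.1 := by
    have : ((⌊A.1⌋ - 3 : ℤ) : ℝ) ≤ z.1 := by push_cast; linarith
    exact_mod_cast this
  have e2 : ⌊A.2⌋ - 3 ≤ z.2 := by
    have : ((⌊A.2⌋ - 3 : ℤ) : ℝ) ≤ z.2 := by push_cast; linarith
    exact_mod_cast this
  have e3 : z.1 ≤ ⌊A.1⌋ + 3 := by
    have : (z.1 : ℝ) ≤ ((⌊A.1⌋ + 3 : ℤ) : ℝ) := by push_cast; linarith
    exact_mod_cast this
  have e4 : z.2 ≤ ⌊A.2⌋ + 3 := by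
    have : (z.2 : ℝ) ≤ ((⌊A.2⌋ + 3 : ℤ) : ℝ) := by push_cast; linarith
    exact_mod_cast this
  exact ⟨⟨e1, e2⟩, ⟨e3, e4⟩⟩

theorem gav_continuous {h : S.X → ℝ} (hh : Continuous h) (q₀ : S.Tile) (i j : ℤ) :
    Continuous (S.gav h q₀ i j) := by
  refine sqr_locFin.continuous sqr_cover sqr_closed fun z => ?_
  refine (S.gE_cont hh q₀ i j z.1 z.2).continuousOn.congr fun A hA => ?_
  exact S.gav_tile h q₀ i j z.1 z.2 hA.1 hA.2.1 hA.2.2.1 hA.2.2.2

private theorem perm_zpow {Λ : Type} [Fintype Λ] [DecidableEq Λ] (g : Equiv.Perm Λ) (m z : ℤ) :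
    g ^ (m + (Fintype.card (Equiv.Perm Λ) : ℤ) * z) = g ^ m := by
  rw [zpow_add, zpow_mul, zpow_natCast, pow_card_eq_one, one_zpow, mul_one]

theorem gav_periodic (h : S.X → ℝ) (q₀ : S.Tile) (i j : ℤ) (A : Pl) (z : ℤ × ℤ) :
    S.gav h q₀ i j (A + ((Fintype.card (Equiv.Perm S.Tile) : ℕ) : ℝ) • ZP z) =
      S.gav h q₀ i j A := by
  have h1 : A + ((Fintype.card (Equiv.Perm S.Tile) : ℕ) : ℝ) • ZP z =
      A + ZP ((Fintype.card (Equiv.Perm S.Tile) : ℤ) * z.1,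
        (Fintype.card (Equiv.Perm S.Tile) : ℤ) * z.2) := by
    ext
    · simp [ZP]
    · simp [ZP]
  rw [h1]
  have h2 : ⌊(A + ZP ((Fintype.card (Equiv.Perm S.Tile) : ℤ) * z.1,
        (Fintype.card (Equiv.Perm S.Tile) : ℤ) * z.2)).1⌋ =
      ⌊A.1⌋ + (Fintype.card (Equiv.Perm S.Tile) : ℤ) * z.1 := Int.floor_add_intCast _ _
  have h3 : ⌊(A + ZP ((Fintype.card (Equiv.Perm S.Tile) : ℤ) * z.1,
        (Fintype.card (Equiv.Perm S.Tile) : ℤ) * z.2)).2⌋ =
      ⌊A.2⌋ + (Fintype.card (Equiv.Perm S.Tile) : ℤ) * z.2 := Int.floor_add_intCast _ _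
  unfold gav
  rw [h2, h3, show ⌊A.1⌋ + (Fintype.card (Equiv.Perm S.Tile) : ℤ) * z.1 - i =
    ⌊A.1⌋ - i + (Fintype.card (Equiv.Perm S.Tile) : ℤ) * z.1 by ring,
    show ⌊A.2⌋ + (Fintype.card (Equiv.Perm S.Tile) : ℤ) * z.2 - j =
    ⌊A.2⌋ - j + (Fintype.card (Equiv.Perm S.Tile) : ℤ) * z.2 by ring, perm_zpow, perm_zpow]
  simp only [S.pA_add_int]

end TiledSurface

end Pool.Agent.ILL
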