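import Pool.Agent.ILL.Sfo

/-!
# SFP. The mean of the averaged function

See the last item of the header of SFO (`gav_mean`).
-/

open MeasureTheory Set Filter Topology
open scoped ENNReal NNReal

namespace Pool.Agent.ILL

namespace TiledSurface
variable (S : TiledSurface)

private theorem avg_swap {Λ : Type} [Fintype Λ] [DecidableEq Λ] (a b : Equiv.Perm Λ) (ψ : Λ → ℝ)
    {x y z : Equiv.Perm Λ} (hx : x ∈ Subgroup.closure {a, b}) (hy : y ∈ Subgroup.closure {a, b})
    (hz : z ∈ Subgroup.closure {a, b}) (c : Equiv.Perm Λ) (q : Λ) :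
    avgN a b ψ ((x * y * z * c) q) = avgN a b ψ ((x * z * y * c) q) := by
  have hn : x * (y * z * y⁻¹ * z⁻¹) * x⁻¹ ∈ Nc a b :=
    Nc_conj a b hx (Subgroup.commutator_mem_commutator hy hz)
  have he : x * y * z * c = (x * (y * z * y⁻¹ * z⁻¹) * x⁻¹) * (x * z * y * c) := by
    group
  rw [he, Equiv.Perm.mul_apply]
  exact avgN_inv a b hn ψ _

private theorem sum_shift (n : ℕ) (f : ℕ → ℝ) (h : f n = f 0) :
    ∑ k ∈ Finset.range n, f (k + 1) = ∑ k ∈ Finset.range n, f k := by
  have h1 := Finset.sum_range_succ' f n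
  have h2 := Finset.sum_range_succ f n
  linarith

private theorem sum_avg {Λ : Type} [Fintype Λ] [DecidableEq Λ] (a b : Equiv.Perm Λ) (ψ : Λ → ℝ) :
    ∑ q, avgN a b ψ q = ∑ q, ψ q := by
  unfold avgN
  rw [← Finset.sum_div, Finset.sum_comm]
  have h1 : ∀ m ∈ NcF a b, ∑ q, ψ (m q) = ∑ q, ψ q := fun m _ => Equiv.sum_comp m ψ
  rw [Finset.sum_congr rfl h1, Finset.sum_const, nsmul_eq_mul]
  have h2 : ((NcF a b).card : ℝ) ≠ 0 := by
    have : (1 : Equiv.Perm Λ) ∈ NcF a b := (mem_NcF a b).2 (one_mem _)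
    exact_mod_cast (Finset.card_pos.2 ⟨1, this⟩).ne'
  field_simp

private theorem grid_sum (S : TiledSurface) (ψ : S.Tile → ℝ) (q : S.Tile) :
    (Fintype.card S.Tile : ℝ) * ∑ k ∈ Finset.range (Fintype.card (Equiv.Perm S.Tile)),
      ∑ l ∈ Finset.range (Fintype.card (Equiv.Perm S.Tile)),
        avgN S.right S.up ψ ((S.right ^ k * S.up ^ l) q) =
      ((Fintype.card (Equiv.Perm S.Tile) : ℕ) : ℝ) ^ 2 * ∑ q, ψ q := by
  set n := Fintype.card (Equiv.Perm S.Tile) with hn
  have hR : S.right ∈ Subgroup.closure {S.right, S.up} := Subgroup.subset_closure (by simp)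
  have hU : S.up ∈ Subgroup.closure {S.right, S.up} := Subgroup.subset_closure (by simp)
  have pR : S.right ^ n = 1 := pow_card_eq_one
  have pU : S.up ^ n = 1 := pow_card_eq_one
  set T : S.Tile → ℝ := fun q => ∑ k ∈ Finset.range n, ∑ l ∈ Finset.range n,
    avgN S.right S.up ψ ((S.right ^ k * S.up ^ l) q) with hT
  have T1 : ∀ q, T (S.right q) = T q := by
    intro q
    have h1 : ∀ k l : ℕ, avgN S.right S.up ψ ((S.right ^ k * S.up ^ l) (S.right q)) =
        avgN S.right S.up ψ ((S.right ^ (k + 1) * S.up ^ l) q) := by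
      intro k l
      have h2 := avg_swap S.right S.up ψ (Subgroup.pow_mem _ hR k) (Subgroup.pow_mem _ hU l) hR 1 q
      rw [mul_one, mul_one] at h2
      rw [← Equiv.Perm.mul_apply, h2, pow_succ]
    simp only [hT, h1]
    exact sum_shift n (fun k => ∑ l ∈ Finset.range n,
      avgN S.right S.up ψ ((S.right ^ k * S.up ^ l) q)) (by simp only [pR, pow_zero])
  have T2 : ∀ q, T (S.up q) = T q := by
    intro q
    have h1 : ∀ k l : ℕ, avgN S.right S.up ψ ((S.right ^ k * S.up ^ l) (S.up q)) =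
        avgN S.right S.up ψ ((S.right ^ k * S.up ^ (l + 1)) q) := by
      intro k l
      rw [← Equiv.Perm.mul_apply, mul_assoc, ← pow_succ]
    simp only [hT, h1]
    refine Finset.sum_congr rfl fun k _ => ?_
    exact sum_shift n (fun l => avgN S.right S.up ψ ((S.right ^ k * S.up ^ l) q))
      (by simp only [pU, pow_zero])
  have T3 : ∀ g ∈ Subgroup.closure {S.right, S.up}, ∀ q, T (g q) = T q := by
    intro g hg
    induction hg using Subgroup.closure_induction with
    | mem g hg =>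
      intro q
      rcases hg with rfl | hg
      · exact T1 q
      · rw [Set.mem_singleton_iff.1 hg]
        exact T2 q
    | one => intro q; rfl
    | mul g g' _ _ ih ih' =>
      intro q
      rw [Equiv.Perm.mul_apply, ih, ih']
    | inv g _ ih =>
      intro q
      have h1 := ih (g⁻¹ q)
      rw [← Equiv.Perm.mul_apply, mul_inv_cancel, Equiv.Perm.one_apply] at h1
      exact h1.symm
  have T4 : ∀ q', T q' = T q := by
    intro q'
    obtain ⟨g, hg, hgq⟩ := S.connected q q'
    rw [← hgq]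
    exact T3 g hg q
  have h5 : ∑ q', T q' = (Fintype.card S.Tile : ℝ) * T q := by
    rw [Finset.sum_congr rfl fun q' _ => T4 q', Finset.sum_const, nsmul_eq_mul, Finset.card_univ]
  have h6 : ∑ q', T q' = (n : ℝ) ^ 2 * ∑ q, ψ q := by
    simp only [hT]
    rw [Finset.sum_comm]
    have h7 : ∀ k ∈ Finset.range n, ∑ q', ∑ l ∈ Finset.range n,
        avgN S.right S.up ψ ((S.right ^ k * S.up ^ l) q') = (n : ℝ) * ∑ q, ψ q := by
      intro k _
      rw [Finset.sum_comm]
      have h8 : ∀ l ∈ Finset.range n, ∑ q', avgN S.right S.up ψ ((S.right ^ k * S.up ^ l) q') =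
          ∑ q, ψ q := by
        intro l _
        rw [Equiv.sum_comp (S.right ^ k * S.up ^ l) (avgN S.right S.up ψ), sum_avg]
      rw [Finset.sum_congr rfl h8, Finset.sum_const, nsmul_eq_mul, Finset.card_range]
    rw [Finset.sum_congr rfl h7, Finset.sum_const, nsmul_eq_mul, Finset.card_range]
    ring
  rw [← h5, h6]

private theorem grid_sum' (S : TiledSurface) (ψ : S.Tile → ℝ) (q₀ : S.Tile) (i j : ℤ) :
    ∑ k ∈ Finset.range (Fintype.card (Equiv.Perm S.Tile)),
      ∑ l ∈ Finset.range (Fintype.card (Equiv.Perm S.Tile)),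
        avgN S.right S.up ψ ((S.right ^ ((k : ℤ) - i) * S.up ^ ((l : ℤ) - j)) q₀) =
      ((Fintype.card (Equiv.Perm S.Tile) : ℕ) : ℝ) ^ 2 * ((∑ q, ψ q) / Fintype.card S.Tile) := by
  have hR : S.right ∈ Subgroup.closure {S.right, S.up} := Subgroup.subset_closure (by simp)
  have hU : S.up ∈ Subgroup.closure {S.right, S.up} := Subgroup.subset_closure (by simp)
  have hc : (Fintype.card S.Tile : ℝ) ≠ 0 := by exact_mod_cast Fintype.card_ne_zero
  have h1 := grid_sum S ψ ((S.right ^ (-i) * S.up ^ (-j)) q₀)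
  have h2 : ∀ k l : ℕ, avgN S.right S.up ψ
      ((S.right ^ k * S.up ^ l) ((S.right ^ (-i) * S.up ^ (-j)) q₀)) =
      avgN S.right S.up ψ ((S.right ^ ((k : ℤ) - i) * S.up ^ ((l : ℤ) - j)) q₀) := by
    intro k l
    have h3 := avg_swap S.right S.up ψ (Subgroup.pow_mem _ hR k) (Subgroup.pow_mem _ hU l)
      (Subgroup.zpow_mem _ hR (-i)) (S.up ^ (-j)) q₀
    rw [← Equiv.Perm.mul_apply, ← mul_assoc, h3]
    congr 2
    rw [sub_eq_add_neg, sub_eq_add_neg, zpow_add, zpow_add, zpow_natCast, zpow_natCast]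
    simp only [mul_assoc]
  simp only [h2] at h1
  field_simp
  rw [mul_comm] at h1
  linarith

private theorem split_one {f : ℝ → ℝ} (hf : Continuous f) (n : ℕ) :
    ∫ x in (0 : ℝ)..(n : ℝ), f x = ∑ k ∈ Finset.range n, ∫ x in (0 : ℝ)..1, f (k + x) := by
  have h1 := intervalIntegral.sum_integral_adjacent_intervals (f := f) (μ := volume)
    (a := fun k : ℕ => (k : ℝ)) (n := n) (fun k _ => hf.intervalIntegrable _ _)
  rw [Nat.cast_zero] at h1
  rw [← h1]
  refine Finset.sum_congr rfl fun k _ => ?_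
  rw [intervalIntegral.integral_comp_add_left]
  push_cast
  rw [add_zero]

private theorem congr_Ioo {f g : ℝ → ℝ} (h : ∀ x, 0 < x → x < 1 → f x = g x) :
    ∫ x in (0 : ℝ)..1, f x = ∫ x in (0 : ℝ)..1, g x := by
  rw [intervalIntegral.integral_of_le zero_le_one, intervalIntegral.integral_of_le zero_le_one,
    integral_Ioc_eq_integral_Ioo, integral_Ioc_eq_integral_Ioo]
  exact setIntegral_congr_fun measurableSet_Ioo fun x hx => h x hx.1 hx.2

private theorem cont_inner {g : Pl → ℝ} (hg : Continuous g) (c : ℝ) :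
    Continuous fun x : ℝ => ∫ y in (0 : ℝ)..c, g (x, y) := by
  apply intervalIntegral.continuous_parametric_intervalIntegral_of_continuous'
  exact hg

private theorem split_two {g : Pl → ℝ} (hg : Continuous g) (n : ℕ) :
    ∫ x in (0 : ℝ)..(n : ℝ), ∫ y in (0 : ℝ)..(n : ℝ), g (x, y) =
      ∑ k ∈ Finset.range n, ∑ l ∈ Finset.range n,
        ∫ x in (0 : ℝ)..1, ∫ y in (0 : ℝ)..1, g (k + x, l + y) := by
  rw [split_one (cont_inner hg n)]
  refine Finset.sum_congr rfl fun k _ => ?_
  have h1 : ∀ x : ℝ, ∫ y in (0 : ℝ)..(n : ℝ), g (k + x, y) =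
      ∑ l ∈ Finset.range n, ∫ y in (0 : ℝ)..1, g (k + x, l + y) := fun x =>
    split_one (f := fun y => g (k + x, y)) (hg.comp (by fun_prop)) n
  simp only [h1]
  rw [intervalIntegral.integral_finsetSum]
  intro l _
  have h2 : Continuous fun p : Pl => g (k + p.1, l + p.2) := hg.comp (by fun_prop)
  exact (cont_inner h2 1).intervalIntegrable _ _

private theorem avgN_sum_form {Λ : Type} [Fintype Λ] [DecidableEq Λ] (a b : Equiv.Perm Λ)
    {X : Type*} [TopologicalSpace X] {φ : Λ → X → ℝ} (hφ : ∀ q, Continuous (φ q)) (q : Λ) :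
    Continuous fun x => avgN a b (fun q => φ q x) q := by
  unfold avgN
  exact (continuous_finsetSum _ fun n _ => hφ (n q)).div_const _

theorem gav_mean {h : S.X → ℝ} (hh : Continuous h) (q₀ : S.Tile) (i j : ℤ) :
    (∫ x in (0 : ℝ)..((Fintype.card (Equiv.Perm S.Tile) : ℕ) : ℝ),
      ∫ y in (0 : ℝ)..((Fintype.card (Equiv.Perm S.Tile) : ℕ) : ℝ), S.gav h q₀ i j (x, y)) /
      ((Fintype.card (Equiv.Perm S.Tile) : ℕ) : ℝ) ^ 2 = S.mean h := by
  have hc := S.gav_continuous hh q₀ i j
  have hn : ((Fintype.card (Equiv.Perm S.Tile) : ℕ) : ℝ) ≠ 0 := by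
    exact_mod_cast Fintype.card_ne_zero
  rw [split_two hc]
  set n := Fintype.card (Equiv.Perm S.Tile) with hnd
  have hψ : ∀ q, Continuous fun v : Pl => h (S.pt q v) := fun q => hh.comp (S.continuous_pt q)
  set F : ℕ → ℕ → Pl → ℝ := fun k l v => avgN S.right S.up (fun q => h (S.pt q v))
    ((S.right ^ ((k : ℤ) - i) * S.up ^ ((l : ℤ) - j)) q₀) with hF
  have hFc : ∀ k l, Continuous (F k l) := fun k l =>
    avgN_sum_form S.right S.up (φ := fun q v => h (S.pt q v)) hψ _
  have h1 : ∀ k l : ℕ, ∫ x in (0 : ℝ)..1, ∫ y in (0 : ℝ)..1, S.gav h q₀ i j (k + x, l + y) =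
      ∫ x in (0 : ℝ)..1, ∫ y in (0 : ℝ)..1, F k l (x, y) := by
    intro k l
    apply congr_Ioo
    intro x hx0 hx1
    apply congr_Ioo
    intro y hy0 hy1
    have fx : ⌊(k : ℝ) + x⌋ = (k : ℤ) := by
      rw [Int.floor_eq_iff]
      push_cast
      constructor <;> linarith
    have fy : ⌊(l : ℝ) + y⌋ = (l : ℤ) := by
      rw [Int.floor_eq_iff]
      push_cast
      constructor <;> linarith
    unfold gav
    simp only [hF, fx, fy]
    congr 1
    funext q
    have h2 := S.pA_eq_pt q ((k : ℝ) + x, (l : ℝ) + y) k l (by push_cast; linarith)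
      (by push_cast; linarith) (by push_cast; linarith) (by push_cast; linarith)
    rw [h2]
    push_cast
    rw [add_sub_cancel_left, add_sub_cancel_left]
  simp only [h1]
  have h3 : ∑ k ∈ Finset.range n, ∑ l ∈ Finset.range n,
      ∫ x in (0 : ℝ)..1, ∫ y in (0 : ℝ)..1, F k l (x, y) =
      ∫ x in (0 : ℝ)..1, ∫ y in (0 : ℝ)..1, ∑ k ∈ Finset.range n, ∑ l ∈ Finset.range n,
        F k l (x, y) := by
    have e1 : ∀ x : ℝ, ∫ y in (0 : ℝ)..1, ∑ k ∈ Finset.range n, ∑ l ∈ Finset.range n,
        F k l (x, y) = ∑ k ∈ Finset.range n, ∑ l ∈ Finset.range n,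
          ∫ y in (0 : ℝ)..1, F k l (x, y) := by
      intro x
      rw [intervalIntegral.integral_finsetSum]
      · refine Finset.sum_congr rfl fun k _ => ?_
        rw [intervalIntegral.integral_finsetSum]
        intro l _
        exact ((hFc k l).comp (by fun_prop : Continuous fun y : ℝ => (x, y))).intervalIntegrable _ _
      · intro k _
        exact (continuous_finsetSum _ fun l _ =>
          (hFc k l).comp (by fun_prop : Continuous fun y : ℝ => (x, y))).intervalIntegrable _ _
    simp only [e1]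
    rw [intervalIntegral.integral_finsetSum]
    · refine Finset.sum_congr rfl fun k _ => ?_
      rw [intervalIntegral.integral_finsetSum]
      intro l _
      exact (cont_inner (hFc k l) 1).intervalIntegrable _ _
    · intro k _
      exact (continuous_finsetSum _ fun l _ => cont_inner (hFc k l) 1).intervalIntegrable _ _
  rw [h3]
  have h4 : ∀ v : Pl, ∑ k ∈ Finset.range n, ∑ l ∈ Finset.range n, F k l v =
      (n : ℝ) ^ 2 * ((∑ q, h (S.pt q v)) / Fintype.card S.Tile) := fun v =>
    grid_sum' S (fun q => h (S.pt q v)) q₀ i j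
  simp only [h4]
  have h5 : ∫ x in (0 : ℝ)..1, ∫ y in (0 : ℝ)..1,
      (n : ℝ) ^ 2 * ((∑ q, h (S.pt q (x, y))) / Fintype.card S.Tile) =
      (n : ℝ) ^ 2 * ((∑ q : S.Tile, ∫ x in (0 : ℝ)..1, ∫ y in (0 : ℝ)..1, h (S.pt q (x, y))) /
        (Fintype.card S.Tile : ℝ)) := by
    have e1 : ∀ x : ℝ, ∫ y in (0 : ℝ)..1,
        (n : ℝ) ^ 2 * ((∑ q, h (S.pt q (x, y))) / Fintype.card S.Tile) =
        (n : ℝ) ^ 2 * ((∑ q : S.Tile, ∫ y in (0 : ℝ)..1, h (S.pt q (x, y))) /
          Fintype.card S.Tile) := by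
      intro x
      rw [intervalIntegral.integral_const_mul, intervalIntegral.integral_div,
        intervalIntegral.integral_finsetSum]
      intro q _
      exact ((hψ q).comp (by fun_prop : Continuous fun y : ℝ => (x, y))).intervalIntegrable _ _
    simp only [e1]
    rw [intervalIntegral.integral_const_mul, intervalIntegral.integral_div,
      intervalIntegral.integral_finsetSum]
    intro q _
    exact (cont_inner (hψ q) 1).intervalIntegrable _ _
  rw [h5]
  unfold mean
  field_simp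

end TiledSurface

end Pool.Agent.ILL
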