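import Pool.Agent.ILL.Sfm
import Pool.Agent.ILL.Sfn
import Pool.Agent.ILL.Sfo
import Pool.Agent.ILL.Sfp
import Pool.Agent.ILL.Sfg

/-!
# SFQ. Illumination in terms of labels

`reduce_to_average` with `H q A = h (pA q A)` (`modulus`, `bounded_h`, `measurable_hpA`), `gav_tau`, `torus` for
`g = gav h q₀ ⌊P.1⌋ ⌊P.2⌋` (`gav_continuous`, `gav_periodic`), `gav_mean`. Then `t = scl · e^u`, `dir_eq`.
-/

open MeasureTheory Set Filter Topology
open scoped ENNReal NNReal

namespace Pool.Agent.ILL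

namespace TiledSurface
variable (S : TiledSurface)

theorem illum_labels {h : S.X → ℝ} (hh : Continuous h) {P : Pl} {q₀ : S.Tile}
    (ha : adm S.right S.up P q₀) :
    Tendsto (fun t : ℝ => ∫ θ in (0 : ℝ)..1,
      h (S.pA (tau S.right S.up P (P + t • S.dir θ) q₀) (P + t • S.dir θ))) atTop
      (𝓝 (S.mean h)) := by
  obtain ⟨C, hC0, hC⟩ := S.bounded_h hh
  set J : ℝ → ℝ := fun u => ∫ θ in (0 : ℝ)..1,
    h (S.pA (tau S.right S.up P (P + mv (S.Mm * rot θ * dg u) (1, 0)) q₀)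
      (P + mv (S.Mm * rot θ * dg u) (1, 0))) with hJ
  set K : ℝ → ℝ := fun u => ∫ θ in (0 : ℝ)..1,
    S.gav h q₀ ⌊P.1⌋ ⌊P.2⌋ (P + mv (S.Mm * rot θ * dg u) (1, 0)) with hK
  have hKt : Tendsto K atTop (𝓝 (S.mean h)) := by
    have h1 := torus (S.gav_continuous hh q₀ ⌊P.1⌋ ⌊P.2⌋)
      (N := Fintype.card (Equiv.Perm S.Tile)) Fintype.card_pos
      (S.gav_periodic h q₀ ⌊P.1⌋ ⌊P.2⌋) S.Mm P
    rwa [S.gav_mean hh q₀ ⌊P.1⌋ ⌊P.2⌋] at h1
  have hJK : Tendsto (fun u => J u - K u) atTop (𝓝 0) := by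
    rw [Metric.tendsto_atTop']
    intro ε hε
    have h1 := reduce_to_average S.right S.up (fun q A => h (S.pA q A))
      (fun q => S.measurable_hpA hh q) (C := C) (fun q A => hC _)
      (fun ε' hε' => S.modulus hh hε') S.Mm ha (ε := ε / 2) (by positivity)
    obtain ⟨u₀, hu₀⟩ := eventually_atTop.1 h1
    refine ⟨u₀, fun u hu => ?_⟩
    have h2 := hu₀ u hu.le
    simp only [S.gav_tau h q₀ P] at h2
    rw [Real.dist_eq, sub_zero]
    exact h2.trans_lt (by linarith)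
  have hJt : Tendsto J atTop (𝓝 (S.mean h)) := by
    have := hJK.add hKt
    simpa using this
  have hlog : Tendsto (fun t : ℝ => Real.log (t / S.scl)) atTop atTop :=
    Real.tendsto_log_atTop.comp (tendsto_id.atTop_div_const S.scl_pos)
  refine (hJt.comp hlog).congr' ?_
  filter_upwards [eventually_gt_atTop (0 : ℝ)] with t ht
  simp only [hJ, Function.comp, S.dir_eq ht]

end TiledSurface

end Pool.Agent.ILL
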