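import Pool.Agent.ILL.EDefs
import Pool.Agent.ILL.Dth
import Pool.Agent.ILL.Twm

/-!
# SML. Smoothing and thickening along circles

Let `ε > 0` and `δ₀` from `Reg2` (for `ε`), `δ = min δ₀ 1 / 2`, `δ' = δ/2`. For `H = M rot θ dg u tri α β`,
`smo f δ (H, P)` is the average of `f (H, P + mv H (y+y'))` over `y, y' ∈ [0,δ]²`, and `y + y' ∈ [0,2δ]²`. By
`thick` applied to `p ↦ smo f δ (M p dg u, P)` and `tri_dg`, the quotient in the statement is the average over
`(x, α)` (weight `2πα`, total weight `muG (Rg δ')`) and over `(y,y')` of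
`∫_θ f (H, P + mv H (y+y'))` with `β = α x e^{-2u}`, `|α - 1| ≤ δ'`, `|β| ≤ 2δ' ≤ δ₀` for `u ≥ 0` (Fubini;
everything is bounded and measurable). Each of these integrals differs from `∫_θ f(M rot θ dg u, P)` by at
most `ε` by `Reg2`.
`smo_measurable`, `smo_bound`: parameter integral of a bounded measurable function.
-/

open MeasureTheory Set Filter Topology
open scoped ENNReal NNReal

namespace Pool.Agent.ILL

private theorem vol_Sq {δ : ℝ} (hδ : 0 < δ) : volume.real (Sq δ) = δ ^ 2 := by
  unfold Sq Measure.real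
  rw [Measure.volume_eq_prod, Measure.prod_prod, Real.volume_Icc, sub_zero, ENNReal.toReal_mul,
    ENNReal.toReal_ofReal hδ.le, sq]

private theorem vol_Sq_lt (δ : ℝ) : volume (Sq δ) < ∞ := by
  unfold Sq
  rw [Measure.volume_eq_prod, Measure.prod_prod, Real.volume_Icc]
  exact ENNReal.mul_lt_top ENNReal.ofReal_lt_top ENNReal.ofReal_lt_top

private theorem meas_arg {X : Type*} [MeasurableSpace X] {f : SLR × Pl → ℝ} (hf : Measurable f)
    {H : X → SLR} (hH : Measurable H) {P y : X → Pl} (hP : Measurable P) (hy : Measurable y) :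
    Measurable fun x => f (H x, P x + mv (H x) (y x)) :=
  hf.comp (hH.prodMk (hP.add (continuous_mv.measurable.comp (hH.prodMk hy))))

theorem smo_measurable {f : SLR × Pl → ℝ} (hf : Measurable f) (δ : ℝ) : Measurable (smo f δ) := by
  have h0 : StronglyMeasurable fun p : ((SLR × Pl) × Pl) × Pl =>
      f (p.1.1.1, p.1.1.2 + mv p.1.1.1 (p.1.2 + p.2)) :=
    (meas_arg hf (measurable_fst.comp (measurable_fst.comp measurable_fst))
      (measurable_snd.comp (measurable_fst.comp measurable_fst))
      ((measurable_snd.comp measurable_fst).add measurable_snd)).stronglyMeasurable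
  have h1 : StronglyMeasurable fun p : (SLR × Pl) × Pl =>
      ∫ y' in Sq δ, f (p.1.1, p.1.2 + mv p.1.1 (p.2 + y')) :=
    StronglyMeasurable.integral_prod_right (f := fun (p : (SLR × Pl) × Pl) (y' : Pl) =>
      f (p.1.1, p.1.2 + mv p.1.1 (p.2 + y'))) h0
  have h2 : StronglyMeasurable fun x : SLR × Pl =>
      ∫ y in Sq δ, ∫ y' in Sq δ, f (x.1, x.2 + mv x.1 (y + y')) :=
    StronglyMeasurable.integral_prod_right (f := fun (x : SLR × Pl) (y : Pl) =>
      ∫ y' in Sq δ, f (x.1, x.2 + mv x.1 (y + y'))) h1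
  exact h2.measurable.const_mul (1 / δ ^ 4)

theorem smo_bound {f : SLR × Pl → ℝ} {C : ℝ} (hb : ∀ x, |f x| ≤ C) {δ : ℝ}
    (hδ : 0 < δ) (x : SLR × Pl) : |smo f δ x| ≤ C := by
  have hC : 0 ≤ C := le_trans (abs_nonneg _) (hb x)
  have h1 : ∀ y : Pl, ‖∫ y' in Sq δ, f (x.1, x.2 + mv x.1 (y + y'))‖ ≤ C * δ ^ 2 := by
    intro y
    rw [← vol_Sq hδ]
    exact norm_setIntegral_le_of_norm_le_const (vol_Sq_lt δ) fun y' _ => hb _
  have h2 : ‖∫ y in Sq δ, ∫ y' in Sq δ, f (x.1, x.2 + mv x.1 (y + y'))‖ ≤ C * δ ^ 2 * δ ^ 2 := by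
    have := norm_setIntegral_le_of_norm_le_const (μ := volume) (s := Sq δ) (vol_Sq_lt δ)
      (f := fun y => ∫ y' in Sq δ, f (x.1, x.2 + mv x.1 (y + y'))) (C := C * δ ^ 2)
      fun y _ => h1 y
    rwa [vol_Sq hδ] at this
  unfold smo
  rw [abs_mul, abs_of_pos (by positivity : (0 : ℝ) < 1 / δ ^ 4), one_div, ← div_eq_inv_mul,
    div_le_iff₀ (by positivity)]
  rw [Real.norm_eq_abs] at h2
  refine h2.trans (le_of_eq ?_)
  ring

private theorem cont_rot' : Continuous rot := by
  refine Continuous.subtype_mk ?_ _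
  refine continuous_matrix fun i j => ?_
  fin_cases i <;> fin_cases j
  · exact Real.continuous_cos.comp (continuous_const.mul continuous_id)
  · exact (Real.continuous_sin.comp (continuous_const.mul continuous_id)).neg
  · exact Real.continuous_sin.comp (continuous_const.mul continuous_id)
  · exact Real.continuous_cos.comp (continuous_const.mul continuous_id)

/-- the average over the square of side `2δ` -/
private theorem key {f : SLR × Pl → ℝ} (hf : Measurable f) {C : ℝ} (hb : ∀ x, |f x| ≤ C)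
    (M N N' : SLR) (P : Pl) {ε δ : ℝ} (hδ : 0 < δ)
    (h : ∀ y : Pl, |y.1| ≤ 2 * δ → |y.2| ≤ 2 * δ →
      ∫ θ in (0 : ℝ)..1, |f (M * rot θ * N', P + mv (M * rot θ * N') y) - f (M * rot θ * N, P)| ≤ ε) :
    ∫ θ in (0 : ℝ)..1, |smo f δ (M * rot θ * N', P) - f (M * rot θ * N, P)| ≤ ε := by
  have hC : 0 ≤ C := le_trans (abs_nonneg _) (hb (1, 0))
  set ν : Measure Pl := volume.restrict (Sq δ) with hν
  have hνf : IsFiniteMeasure ν := ⟨by rw [hν, Measure.restrict_apply_univ]; exact vol_Sq_lt δ⟩
  have hνr : (ν.prod ν).real univ = δ ^ 4 := by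
    rw [Measure.real, ← univ_prod_univ, Measure.prod_prod, ENNReal.toReal_mul, hν,
      Measure.restrict_apply_univ]
    have := vol_Sq hδ
    rw [Measure.real] at this
    rw [this]
    ring
  have hH : ∀ N : SLR, Measurable fun θ : ℝ => M * rot θ * N := fun N =>
    ((continuous_const.mul cont_rot').mul continuous_const).measurable
  set G : ℝ → Pl × Pl → ℝ := fun θ z =>
    f (M * rot θ * N', P + mv (M * rot θ * N') (z.1 + z.2)) - f (M * rot θ * N, P) with hG
  have hGm : Measurable (Function.uncurry G) := by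
    refine Measurable.sub ?_ ?_
    · exact meas_arg hf ((hH N').comp measurable_fst) measurable_const
        ((measurable_fst.comp measurable_snd).add (measurable_snd.comp measurable_snd))
    · exact hf.comp (((hH N).comp measurable_fst).prodMk measurable_const)
  have hGb : ∀ θ z, |G θ z| ≤ 2 * C := by
    intro θ z
    refine (abs_sub _ _).trans ?_
    have := hb (M * rot θ * N', P + mv (M * rot θ * N') (z.1 + z.2))
    have := hb (M * rot θ * N, P)
    linarith
  have hfi : ∀ θ : ℝ, Integrable (fun z : Pl × Pl =>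
      f (M * rot θ * N', P + mv (M * rot θ * N') (z.1 + z.2))) (ν.prod ν) := by
    intro θ
    refine Integrable.mono' (integrable_const C) ?_ (Eventually.of_forall fun z => hb _)
    exact (meas_arg hf measurable_const measurable_const
      (measurable_fst.add measurable_snd)).aestronglyMeasurable
  have e1 : ∀ θ : ℝ, smo f δ (M * rot θ * N', P) - f (M * rot θ * N, P) =
      (1 / δ ^ 4) * ∫ z, G θ z ∂(ν.prod ν) := by
    intro θ
    rw [hG]
    simp only
    rw [integral_sub (hfi θ) (integrable_const _), integral_const, hνr, smul_eq_mul, mul_sub]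
    unfold smo
    rw [integral_prod _ (hfi θ)]
    simp only
    congr 1
    field_simp
  have e2 : ∀ θ : ℝ, |smo f δ (M * rot θ * N', P) - f (M * rot θ * N, P)| ≤
      (1 / δ ^ 4) * ∫ z, |G θ z| ∂(ν.prod ν) := by
    intro θ
    rw [e1, abs_mul, abs_of_pos (by positivity : (0 : ℝ) < 1 / δ ^ 4)]
    exact mul_le_mul_of_nonneg_left (abs_integral_le_integral_abs) (by positivity)
  have hGa : Measurable (Function.uncurry fun θ z => |G θ z|) := by
    have : (Function.uncurry fun θ z => |G θ z|) = fun p => |Function.uncurry G p| := rfl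
    rw [this]
    exact hGm.abs
  have hint : Integrable (Function.uncurry fun θ z => |G θ z|)
      ((volume.restrict (Ioc (0 : ℝ) 1)).prod (ν.prod ν)) := by
    refine Integrable.mono' (integrable_const (2 * C)) hGa.aestronglyMeasurable
      (Eventually.of_forall fun p => ?_)
    rw [Real.norm_eq_abs]
    change |(|G p.1 p.2|)| ≤ 2 * C
    rw [abs_abs]
    exact hGb _ _
  have hi2 : Integrable (fun θ => ∫ z, |G θ z| ∂(ν.prod ν)) (volume.restrict (Ioc (0 : ℝ) 1)) :=
    hint.integral_prod_left
  have hsm : Measurable fun θ : ℝ => |smo f δ (M * rot θ * N', P) - f (M * rot θ * N, P)| :=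
    (((smo_measurable hf δ).comp ((hH N').prodMk measurable_const)).sub
      (hf.comp ((hH N).prodMk measurable_const))).abs
  have hi1 : Integrable (fun θ : ℝ => |smo f δ (M * rot θ * N', P) - f (M * rot θ * N, P)|)
      (volume.restrict (Ioc (0 : ℝ) 1)) := by
    refine Integrable.mono' (hi2.const_mul (1 / δ ^ 4)) hsm.aestronglyMeasurable
      (Eventually.of_forall fun θ => ?_)
    rw [Real.norm_eq_abs, abs_abs]
    exact e2 θ
  rw [intervalIntegral.integral_of_le zero_le_one]
  refine (integral_mono hi1 (hi2.const_mul (1 / δ ^ 4)) e2).trans ?_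
  rw [integral_const_mul, integral_integral_swap hint]
  have e3 : ∫ z, (∫ θ in Ioc (0 : ℝ) 1, |G θ z|) ∂(ν.prod ν) ≤ ε * δ ^ 4 := by
    have hsup : ∀ᵐ z ∂(ν.prod ν), ∫ θ in Ioc (0 : ℝ) 1, |G θ z| ≤ ε := by
      have hae : ∀ᵐ z ∂(ν.prod ν), z ∈ Sq δ ×ˢ Sq δ := by
        rw [hν, Measure.prod_restrict]
        refine ae_restrict_mem ?_
        unfold Sq
        exact (measurableSet_Icc.prod measurableSet_Icc).prod (measurableSet_Icc.prod measurableSet_Icc)
      filter_upwards [hae] with z hz
      rw [← intervalIntegral.integral_of_le zero_le_one]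
      obtain ⟨⟨h1, h2⟩, ⟨h3, h4⟩⟩ := hz
      refine h (z.1 + z.2) ?_ ?_
      · rw [Prod.fst_add, abs_of_nonneg (add_nonneg h1.1 h3.1)]
        linarith [h1.2, h3.2]
      · rw [Prod.snd_add, abs_of_nonneg (add_nonneg h2.1 h4.1)]
        linarith [h2.2, h4.2]
    have hi3 : Integrable (fun z => ∫ θ in Ioc (0 : ℝ) 1, |G θ z|) (ν.prod ν) :=
      hint.integral_prod_right
    refine (integral_mono_ae hi3 (integrable_const ε) hsup).trans ?_
    rw [integral_const, hνr, smul_eq_mul, mul_comm]
  have e4 := mul_le_mul_of_nonneg_left e3 (by positivity : (0 : ℝ) ≤ 1 / δ ^ 4)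
  refine e4.trans (le_of_eq ?_)
  field_simp

theorem smooth_compare {f : SLR × Pl → ℝ} (hf : Measurable f) {C : ℝ} (hb : ∀ x, |f x| ≤ C)
    {M : SLR} {P : Pl} (hR : Reg2 f M P) {ε : ℝ} (hε : 0 < ε) :
    ∃ δ > 0, ∃ δ' > 0, δ' ≤ 1 ∧ ∀ᶠ u : ℝ in atTop,
      |(∫ θ in (0 : ℝ)..1, f (M * rot θ * dg u, P)) -
        (∫ p in Rg δ', smo f δ (M * p * dg u, P) ∂muG) / (muG (Rg δ')).toReal| ≤ ε := by
  obtain ⟨δ₀, hδ₀, hev⟩ := hR (ε / 3) (by positivity)
  set d := min δ₀ 1 with hd
  have hd0 : 0 < d := lt_min hδ₀ one_pos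
  have hd1 : d ≤ 1 := min_le_right _ _
  have hd2 : d ≤ δ₀ := min_le_left _ _
  refine ⟨d / 2, by positivity, d / 2, by positivity, by linarith, ?_⟩
  filter_upwards [hev, eventually_ge_atTop 0] with u hu hu0
  have hk : ∀ α β : ℝ, |α - 1| ≤ d → |β| ≤ d →
      ∫ θ in (0 : ℝ)..1, |smo f (d / 2) (M * rot θ * dg u * tri α β, P) -
        f (M * rot θ * dg u, P)| ≤ ε / 3 := by
    intro α β hα hβ
    have := key hf hb M (dg u) (dg u * tri α β) P (δ := d / 2) (ε := ε / 3) (by positivity)
      (fun y h1 h2 => by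
        have := hu α β y (hα.trans hd2) (hβ.trans hd2) (by linarith) (by linarith)
        simpa only [mul_assoc] using this)
    simpa only [mul_assoc] using this
  have ht1 : tri 1 0 = 1 := by
    apply Subtype.ext
    have : ((tri 1 0 : SLR) : Matrix (Fin 2) (Fin 2) ℝ) = !![1, 0; 0, 1⁻¹] :=
      congrArg Subtype.val (dif_pos one_ne_zero)
    rw [this, Matrix.SpecialLinearGroup.coe_one, inv_one, Matrix.one_fin_two]
  have hk0 : ∫ θ in (0 : ℝ)..1, |smo f (d / 2) (M * rot θ * dg u, P) -
        f (M * rot θ * dg u, P)| ≤ ε / 3 := by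
    have := hk 1 0 (by simpa using hd0.le) (by simpa using hd0.le)
    simpa only [ht1, mul_one] using this
  have hgm := smo_measurable hf (d / 2)
  have hgb : ∀ x, |smo f (d / 2) x| ≤ C := smo_bound hb (by positivity)
  have hH : ∀ N : SLR, Measurable fun θ : ℝ => M * rot θ * N := fun N =>
    ((continuous_const.mul cont_rot').mul continuous_const).measurable
  have hint : ∀ (F G : SLR × Pl → ℝ) (_ : Measurable F) (_ : Measurable G) (_ : ∀ x, |F x| ≤ C)
      (_ : ∀ x, |G x| ≤ C) (N N' : SLR),
      IntervalIntegrable (fun θ => |F (M * rot θ * N, P) - G (M * rot θ * N', P)|) volume 0 1 := by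
    intro F G hF hG hFb hGb N N'
    rw [intervalIntegrable_iff]
    refine Integrable.mono' (g := fun _ => 2 * C) (integrableOn_const (by simp)) ?_
      (Eventually.of_forall fun θ => ?_)
    · exact ((hF.comp ((hH N).prodMk measurable_const)).sub
        (hG.comp ((hH N').prodMk measurable_const))).abs.aestronglyMeasurable
    · rw [Real.norm_eq_abs, abs_abs]
      refine (abs_sub _ _).trans ?_
      have := hFb (M * rot θ * N, P)
      have := hGb (M * rot θ * N', P)
      linarith
  have hint1 : ∀ (F : SLR × Pl → ℝ) (_ : Measurable F) (_ : ∀ x, |F x| ≤ C) (N : SLR),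
      IntervalIntegrable (fun θ => F (M * rot θ * N, P)) volume 0 1 := by
    intro F hF hFb N
    rw [intervalIntegrable_iff]
    refine Integrable.mono' (g := fun _ => C) (integrableOn_const (by simp)) ?_
      (Eventually.of_forall fun θ => hFb _)
    exact (hF.comp ((hH N).prodMk measurable_const)).aestronglyMeasurable
  have h1 := thick_compare hgm hgb M P (ε := 2 * (ε / 3)) (δ := d) (δ' := d / 2) (u := u) hd1
    (by positivity) le_rfl hu0 (fun α β hα hβ => by
      have i1 : ∫ θ in (0 : ℝ)..1, |smo f (d / 2) (M * rot θ * dg u * tri α β, P) -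
          smo f (d / 2) (M * rot θ * dg u, P)| ≤
          ∫ θ in (0 : ℝ)..1, (|smo f (d / 2) (M * rot θ * dg u * tri α β, P) -
            f (M * rot θ * dg u, P)| + |smo f (d / 2) (M * rot θ * dg u, P) -
            f (M * rot θ * dg u, P)|) := by
        refine intervalIntegral.integral_mono_on zero_le_one ?_ ?_ fun θ _ => ?_
        · have := hint _ _ hgm hgm hgb hgb (dg u * tri α β) (dg u)
          simpa only [mul_assoc] using this
        · refine IntervalIntegrable.add ?_ (hint _ _ hgm hf hgb hb (dg u) (dg u))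
          have := hint _ _ hgm hf hgb hb (dg u * tri α β) (dg u)
          simpa only [mul_assoc] using this
        · have e : smo f (d / 2) (M * rot θ * dg u * tri α β, P) -
              smo f (d / 2) (M * rot θ * dg u, P) =
              (smo f (d / 2) (M * rot θ * dg u * tri α β, P) - f (M * rot θ * dg u, P)) -
              (smo f (d / 2) (M * rot θ * dg u, P) - f (M * rot θ * dg u, P)) := by ring
          rw [e]
          exact abs_sub _ _
      refine i1.trans ?_
      rw [intervalIntegral.integral_add]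
      · have := hk α β hα hβ
        linarith
      · have := hint _ _ hgm hf hgb hb (dg u * tri α β) (dg u)
        simpa only [mul_assoc] using this
      · exact hint _ _ hgm hf hgb hb (dg u) (dg u))
  have h2 : |(∫ θ in (0 : ℝ)..1, f (M * rot θ * dg u, P)) -
      ∫ θ in (0 : ℝ)..1, smo f (d / 2) (M * rot θ * dg u, P)| ≤ ε / 3 := by
    rw [abs_sub_comm, ← intervalIntegral.integral_sub (hint1 _ hgm hgb _) (hint1 _ hf hb _)]
    exact (intervalIntegral.abs_integral_le_integral_abs zero_le_one).trans hk0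
  have e : (∫ θ in (0 : ℝ)..1, f (M * rot θ * dg u, P)) -
        (∫ p in Rg (d / 2), smo f (d / 2) (M * p * dg u, P) ∂muG) / (muG (Rg (d / 2))).toReal =
      ((∫ θ in (0 : ℝ)..1, f (M * rot θ * dg u, P)) -
        ∫ θ in (0 : ℝ)..1, smo f (d / 2) (M * rot θ * dg u, P)) +
      ((∫ θ in (0 : ℝ)..1, smo f (d / 2) (M * rot θ * dg u, P)) -
        (∫ p in Rg (d / 2), smo f (d / 2) (M * p * dg u, P) ∂muG) / (muG (Rg (d / 2))).toReal) := by
    ring
  rw [e]
  refine (abs_add_le _ _).trans ?_
  linarith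

end Pool.Agent.ILL
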