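import Pool.Agent.ILL.TauB

/-!
# TRI. The triangle lemma

If the triangle `ABC` contains no lattice point then `tau B C * tau A B = tau A C`.

PROOF. Call `R(A,B,C)` the relation `tau B C * tau A B = tau A C`. Because of `tau_inv` the relations
for the six orderings of the three points are equivalent (e.g. `R(A,C,B)`: `tau C B * tau A C = tau A B`
gives `tau A C = (tau C B)⁻¹ * tau A B = tau B C * tau A B`), and the hypothesis is symmetric, so we may
assume `⌊A.1⌋ ≤ ⌊B.1⌋ ≤ ⌊C.1⌋`. Put `n₁ = ⌊B.1⌋ - ⌊A.1⌋`, `n₂ = ⌊C.1⌋ - ⌊B.1⌋`. By `prodR_add`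
`prodR A C ⌊A.1⌋ (n₁+n₂) = prodR A C ⌊B.1⌋ n₂ * prodR A C ⌊A.1⌋ n₁`. For an integer `i` with
`⌊A.1⌋ < i ≤ ⌊B.1⌋` we have `A.1 < i ≤ B.1` and `i ≤ C.1`, so `(i, ht A B i) ∈ [A,B]` and
`(i, ht A C i) ∈ [A,C]` (`ht_between`); both points are in the triangle, hence so are all points
`(i, y)` with `y` between the two heights; since there is no lattice point in the triangle there is no
integer between them (inclusive), so the floors agree. In the same way for `⌊B.1⌋ < i ≤ ⌊C.1⌋`,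
comparing `ht B C i` and `ht A C i` (`A.1 < i`, `B.1 < i ≤ C.1`). So by `prodR_congr`
`tau A C = b^⌊C.2⌋ prodR(B,C) prodR(A,B) b^(-⌊A.2⌋) = tau B C * tau A B`.

`tau_seg`: if `C ∈ segment A B` the hull of `{A, C, B}` is the segment.
`tau_quad`: both sides are `tau A C`; the triangles are contained in the quadrilateral.
-/

open MeasureTheory Set Filter Topology
open scoped ENNReal NNReal

namespace Pool.Agent.ILL

private theorem TRI_lt {S : Set Pl} (hS : Convex ℝ S) (hz : ∀ z : ℤ × ℤ, ZP z ∉ S) {i : ℤ}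
    {y₁ y₂ : ℝ} (h1 : ((i : ℝ), y₁) ∈ S) (h2 : ((i : ℝ), y₂) ∈ S) : ¬ ⌊y₁⌋ < ⌊y₂⌋ := by
  intro h
  have k1 : y₁ < (⌊y₂⌋ : ℝ) := Int.floor_lt.1 h
  have k2 : (⌊y₂⌋ : ℝ) ≤ y₂ := Int.floor_le _
  have k3 : 0 < y₂ - y₁ := by linarith
  have k3' : y₂ - y₁ ≠ 0 := k3.ne'
  apply hz (i, ⌊y₂⌋)
  have k4 := hS h1 h2 (a := (y₂ - ⌊y₂⌋) / (y₂ - y₁)) (b := (⌊y₂⌋ - y₁) / (y₂ - y₁))
    (div_nonneg (by linarith) k3.le) (div_nonneg (by linarith) k3.le) (by field_simp; ring)
  have k5 : ((y₂ - ⌊y₂⌋) / (y₂ - y₁)) • (((i : ℝ), y₁) : Pl) +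
      ((⌊y₂⌋ - y₁) / (y₂ - y₁)) • (((i : ℝ), y₂) : Pl) = ZP (i, ⌊y₂⌋) := by
    refine Prod.ext ?_ ?_
    · simp only [ZP, Prod.fst_add, Prod.smul_fst, smul_eq_mul]
      field_simp
      ring
    · simp only [ZP, Prod.snd_add, Prod.smul_snd, smul_eq_mul]
      field_simp
      ring
  rw [k5] at k4
  exact k4

private theorem TRI_fl {S : Set Pl} (hS : Convex ℝ S) (hz : ∀ z : ℤ × ℤ, ZP z ∉ S) {i : ℤ}
    {y₁ y₂ : ℝ} (h1 : ((i : ℝ), y₁) ∈ S) (h2 : ((i : ℝ), y₂) ∈ S) : ⌊y₁⌋ = ⌊y₂⌋ :=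
  le_antisymm (not_lt.1 (TRI_lt hS hz h2 h1)) (not_lt.1 (TRI_lt hS hz h1 h2))

section
variable {H : Type*} [Group H] (a b : H)

private theorem TRI_sorted {A B C : Pl} (h : LF3 A B C) (h1 : ⌊A.1⌋ ≤ ⌊B.1⌋)
    (h2 : ⌊B.1⌋ ≤ ⌊C.1⌋) : tau a b B C * tau a b A B = tau a b A C := by
  have hS : Convex ℝ (convexHull ℝ {A, B, C}) := convex_convexHull ℝ _
  have hA : A ∈ convexHull ℝ ({A, B, C} : Set Pl) := subset_convexHull ℝ _ (by simp)
  have hB : B ∈ convexHull ℝ ({A, B, C} : Set Pl) := subset_convexHull ℝ _ (by simp)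
  have hC : C ∈ convexHull ℝ ({A, B, C} : Set Pl) := subset_convexHull ℝ _ (by simp)
  obtain ⟨n₁, hn₁⟩ : ∃ n : ℕ, n = (⌊B.1⌋ - ⌊A.1⌋).toNat := ⟨_, rfl⟩
  obtain ⟨n₂, hn₂⟩ : ∃ n : ℕ, n = (⌊C.1⌋ - ⌊B.1⌋).toNat := ⟨_, rfl⟩
  have e1 : (⌊C.1⌋ - ⌊A.1⌋).toNat = n₁ + n₂ := by omega
  have e2 : ⌊A.1⌋ + (n₁ : ℤ) = ⌊B.1⌋ := by omega
  have k1 : prodR a b A C ⌊A.1⌋ n₁ = prodR a b A B ⌊A.1⌋ n₁ := by
    refine prodR_congr a b fun i hi1 hi2 => ?_
    rw [e2] at hi2
    have j1 : A.1 < (i : ℝ) := Int.floor_lt.1 hi1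
    have j2 : (i : ℝ) ≤ B.1 := Int.le_floor.1 hi2
    have j3 : (i : ℝ) ≤ C.1 := Int.le_floor.1 (hi2.trans h2)
    exact TRI_fl hS h
      (hS.segment_subset hA hC (ht_between j1.le j3 (j1.trans_le j3)))
      (hS.segment_subset hA hB (ht_between j1.le j2 (j1.trans_le j2)))
  have k2 : prodR a b A C ⌊B.1⌋ n₂ = prodR a b B C ⌊B.1⌋ n₂ := by
    refine prodR_congr a b fun i hi1 hi2 => ?_
    have e3 : ⌊B.1⌋ + (n₂ : ℤ) = ⌊C.1⌋ := by omega
    rw [e3] at hi2
    have j1 : B.1 < (i : ℝ) := Int.floor_lt.1 hi1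
    have j0 : A.1 < (i : ℝ) := Int.floor_lt.1 (h1.trans_lt hi1)
    have j3 : (i : ℝ) ≤ C.1 := Int.le_floor.1 hi2
    exact TRI_fl hS h
      (hS.segment_subset hA hC (ht_between j0.le j3 (j0.trans_le j3)))
      (hS.segment_subset hB hC (ht_between j1.le j3 (j1.trans_le j3)))
  unfold tau
  rw [if_pos h1, if_pos h2, if_pos (h1.trans h2), e1, ← hn₁, ← hn₂, prodR_add, e2, k1, k2]
  group

theorem tau_tri {A B C : Pl} (h : LF3 A B C) : tau a b B C * tau a b A B = tau a b A C := by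
  have p1 : LF3 A C B := fun z hz => h z (by rwa [Set.pair_comm] at hz)
  have p2 : LF3 B A C := fun z hz => h z (by rwa [Set.insert_comm] at hz)
  have p3 : LF3 B C A := fun z hz => p2 z (by rwa [Set.pair_comm] at hz)
  have p4 : LF3 C A B := fun z hz => p1 z (by rwa [Set.insert_comm] at hz)
  have p5 : LF3 C B A := fun z hz => p4 z (by rwa [Set.pair_comm] at hz)
  have q1 := tau_inv a b A B
  have q2 := tau_inv a b B C
  have q3 := tau_inv a b A C
  rcases le_total ⌊A.1⌋ ⌊B.1⌋ with h1 | h1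
  · rcases le_total ⌊B.1⌋ ⌊C.1⌋ with h2 | h2
    · exact TRI_sorted a b h h1 h2
    · rcases le_total ⌊A.1⌋ ⌊C.1⌋ with h3 | h3
      · have k := TRI_sorted a b p1 h3 h2
        rw [q2] at k
        rw [← k]
        group
      · have k := TRI_sorted a b p4 h3 h1
        rw [q2, q3] at k
        have k' : tau a b A B = (tau a b B C)⁻¹ * tau a b A C := by
          rw [← k]
          group
        rw [k']
        group
  · rcases le_total ⌊B.1⌋ ⌊C.1⌋ with h2 | h2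
    · rcases le_total ⌊A.1⌋ ⌊C.1⌋ with h3 | h3
      · have k := TRI_sorted a b p2 h1 h3
        rw [q1] at k
        rw [← k]
        group
      · have k := TRI_sorted a b p3 h2 h3
        rw [q1, q3] at k
        have k' : tau a b B C = tau a b A C * (tau a b A B)⁻¹ := by
          rw [← k]
          group
        rw [k']
        group
    · have k := TRI_sorted a b p5 h2 h1
      rw [q1, q2, q3] at k
      rw [← inv_inj, ← k]
      group

/-- additivity on lattice-free segments -/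
theorem tau_seg {A B C : Pl} (h : LF A B) (hC : C ∈ segment ℝ A B) :
    tau a b C B * tau a b A C = tau a b A B := by
  refine tau_tri a b fun z hz => h z ?_
  refine convexHull_min ?_ (convex_segment A B) hz
  intro x hx
  rcases hx with rfl | rfl | rfl
  · exact left_mem_segment ℝ _ _
  · exact hC
  · exact right_mem_segment ℝ _ _

/-- the two ways around a lattice-free quadrilateral -/
theorem tau_quad {A B C D : Pl} (h : LF4 A B C D) :
    tau a b B C * tau a b A B = tau a b D C * tau a b A D := by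
  rw [tau_tri a b (A := A) (B := B) (C := C), tau_tri a b (A := A) (B := D) (C := C)]
  · refine fun z hz => h z (convexHull_mono ?_ hz)
    intro x hx
    simp only [Set.mem_insert_iff, Set.mem_singleton_iff] at hx ⊢
    tauto
  · refine fun z hz => h z (convexHull_mono ?_ hz)
    intro x hx
    simp only [Set.mem_insert_iff, Set.mem_singleton_iff] at hx ⊢
    tauto

end

end Pool.Agent.ILL
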