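import Pool.Agent.ILL.Gna
import Pool.Agent.ILL.Equ
import Pool.Agent.ILL.Twa
import Pool.Agent.ILL.Mpx

/-!
# TWC. The flows commute with the affine group of the lattice

If `G` is twisted invariant, so are `(wPhi s).act G` and `(wB u).act G`.
PROOF. For `wU`: `wU.act ((wPhi s).act G) x i = G (eR g (eL gU x)) (σ_Φ(eL gU x) (labU x i))` with
`g = nl (-s)`, while `(wPhi s).act (wU.act G) x i = G (eL gU (eR g x)) (labU (eR g x) (σ_Φ(x) i))`. The base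
points agree (left and right multiplication commute). The labels: with `Q = P + mv h (1,0)` and
`Q' = P + mv h (1,-s)` (for `x = (h,P)`), `i = (a,b,q₀,q)`:
first: `(a, b a⁻¹, a^(vexp P) q₀, tau a (ba⁻¹) (UQ) (UQ') (a^(vexp Q) q))`, second:
`(a, b a⁻¹, a^(vexp P) q₀, a^(vexp Q') (tau a b Q Q' q))`; equal by `tau_U` (with `ba⁻¹` for `b`,
`(ba⁻¹)a = b`) for the segment `[Q,Q']`, lattice-free for `Gen1` pairs (`gen1_aeX`). Here
`mv (toR gU * h) v = mv (toR gU) (mv h v)`, `mv_gU`, and the point of `eR g x` is `P + mv (h g) (1,0) = Q'`.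
So almost everywhere `wU.act ((wPhi s).act G) = (wPhi s).act (wU.act G) = (wPhi s).act G` (the last equality
by `act_congr_ae`, `mp_eR`). The same for `wL` (`tau_L`) and for translations (`tau_add_int`), and for
`wB u` (segment from `P + mv h (1,0)` to `P + mv h (e^{-u},0)`: `Gen1.horiz`).
-/

open MeasureTheory Set Filter Topology
open scoped ENNReal NNReal

namespace Pool.Agent.ILL

section
variable {Λ : Type} [Fintype Λ] [DecidableEq Λ] {ρ : Measure Pl}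

private theorem TWC_gen (hρ : PerMeas ρ) {G : SLR × Pl → Lab Λ → ℝ} (hA : AutW ρ G)
    (w : Tw (SLR × Pl) (Lab Λ)) (g : SLR) (v : Pl) (hv : mv g (1, 0) = v) (hT : w.T = eR g)
    (hσ : ∀ x, w.σ x = labQ (fun a b => tau a b (x.2 + mv x.1 (1, 0)) (x.2 + mv x.1 v)))
    (hLF : ∀ᵐ x ∂(muG.prod ρ), LF (x.2 + mv x.1 (1, 0)) (x.2 + mv x.1 v)) :
    AutW ρ (w.act G) := by
  have hmp : MeasurePreserving w.T (muG.prod ρ) (muG.prod ρ) := by
    rw [hT]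
    exact mp_eR hρ g
  have hbase : ∀ x : SLR × Pl, w.T x = (x.1 * g, x.2) := by
    intro x
    rw [hT]
    rfl
  have hlab : ∀ (x : SLR × Pl) (i : Lab Λ), w.σ x i = (i.1, i.2.1, i.2.2.1,
      tau i.1 i.2.1 (x.2 + mv x.1 (1, 0)) (x.2 + mv x.1 v) i.2.2.2) := by
    intro x i
    rw [hσ]
    rfl
  have hU : ∀ (γ : SLZ) (x : SLR × Pl) (c : Pl), mv (toR γ) x.2 + mv (toR γ * x.1) c =
      mv (toR γ) (x.2 + mv x.1 c) := by
    intro γ x c
    rw [mv_add, mv_mul]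
  refine ⟨?_, ?_, ?_, ?_⟩
  · filter_upwards [act_congr_ae hmp hA.U, hLF] with x hx hl i
    rw [← hx i]
    change G (w.T (eL gU x)) (w.σ (eL gU x) (labU x i)) =
      G (eL gU (w.T x)) (labU (w.T x) (w.σ x i))
    rw [hbase, hbase, hlab, hlab, eL_apply, eL_apply]
    change G (toR gU * x.1 * g, mv (toR gU) x.2) (i.1, i.2.1 * i.1⁻¹, (i.1 ^ vexp x.2) i.2.2.1,
      tau i.1 (i.2.1 * i.1⁻¹) (mv (toR gU) x.2 + mv (toR gU * x.1) (1, 0))
        (mv (toR gU) x.2 + mv (toR gU * x.1) v) ((i.1 ^ vexp (x.2 + mv x.1 (1, 0))) i.2.2.2)) =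
      G (toR gU * (x.1 * g), mv (toR gU) x.2) (i.1, i.2.1 * i.1⁻¹, (i.1 ^ vexp x.2) i.2.2.1,
        (i.1 ^ vexp (x.2 + mv (x.1 * g) (1, 0)))
          (tau i.1 i.2.1 (x.2 + mv x.1 (1, 0)) (x.2 + mv x.1 v) i.2.2.2))
    have k := tau_U i.1 (i.2.1 * i.1⁻¹) hl
    rw [inv_mul_cancel_right, ← mv_gU, ← mv_gU] at k
    rw [hU, hU, k, mul_assoc, mv_mul x.1 g, hv]
    congr 4
    rw [← Equiv.Perm.mul_apply, inv_mul_cancel_right, Equiv.Perm.mul_apply]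
  · filter_upwards [act_congr_ae hmp hA.L, hLF] with x hx hl i
    rw [← hx i]
    change G (w.T (eL gL x)) (w.σ (eL gL x) (labL x i)) =
      G (eL gL (w.T x)) (labL (w.T x) (w.σ x i))
    rw [hbase, hbase, hlab, hlab, eL_apply, eL_apply]
    change G (toR gL * x.1 * g, mv (toR gL) x.2) (i.1 * i.2.1⁻¹, i.2.1,
      (i.2.1 ^ vexp x.2) i.2.2.1,
      tau (i.1 * i.2.1⁻¹) i.2.1 (mv (toR gL) x.2 + mv (toR gL * x.1) (1, 0))
        (mv (toR gL) x.2 + mv (toR gL * x.1) v) ((i.2.1 ^ vexp (x.2 + mv x.1 (1, 0))) i.2.2.2)) =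
      G (toR gL * (x.1 * g), mv (toR gL) x.2) (i.1 * i.2.1⁻¹, i.2.1,
        (i.2.1 ^ vexp x.2) i.2.2.1,
        (i.2.1 ^ vexp (x.2 + mv (x.1 * g) (1, 0)))
          (tau i.1 i.2.1 (x.2 + mv x.1 (1, 0)) (x.2 + mv x.1 v) i.2.2.2))
    have k := tau_L (i.1 * i.2.1⁻¹) i.2.1 hl
    rw [inv_mul_cancel_right, ← mv_gL, ← mv_gL] at k
    rw [hU, hU, k, mul_assoc, mv_mul x.1 g, hv]
    congr 4
    rw [← Equiv.Perm.mul_apply, inv_mul_cancel_right, Equiv.Perm.mul_apply]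
  · filter_upwards [act_congr_ae hmp hA.t1] with x hx i
    rw [← hx i]
    change G (w.T (eT (1, 0) x)) (w.σ (eT (1, 0) x) i) = G (eT (1, 0) (w.T x)) (w.σ x i)
    rw [hbase, hbase, hlab, hlab, eT_apply, eT_apply]
    change G (x.1 * g, x.2 + ZP (1, 0)) (i.1, i.2.1, i.2.2.1,
      tau i.1 i.2.1 (x.2 + ZP (1, 0) + mv x.1 (1, 0)) (x.2 + ZP (1, 0) + mv x.1 v) i.2.2.2) = _
    rw [add_right_comm x.2 _ (mv x.1 (1, 0)), add_right_comm x.2 _ (mv x.1 v), tau_add_int]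
  · filter_upwards [act_congr_ae hmp hA.t2] with x hx i
    rw [← hx i]
    change G (w.T (eT (0, 1) x)) (w.σ (eT (0, 1) x) i) = G (eT (0, 1) (w.T x)) (w.σ x i)
    rw [hbase, hbase, hlab, hlab, eT_apply, eT_apply]
    change G (x.1 * g, x.2 + ZP (0, 1)) (i.1, i.2.1, i.2.2.1,
      tau i.1 i.2.1 (x.2 + ZP (0, 1) + mv x.1 (1, 0)) (x.2 + ZP (0, 1) + mv x.1 v) i.2.2.2) = _
    rw [add_right_comm x.2 _ (mv x.1 (1, 0)), add_right_comm x.2 _ (mv x.1 v), tau_add_int]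

theorem AutW.wPhi (hρ : PerMeas ρ) {G : SLR × Pl → Lab Λ → ℝ} (hA : AutW ρ G) (s : ℝ) :
    AutW ρ ((wPhi s).act G) := by
  refine TWC_gen hρ hA (Pool.Agent.ILL.wPhi s) (nl (-s)) (1, -s) ?_ rfl (fun _ => rfl) ?_
  · simp [mv, nl]
  · filter_upwards [gen1_aeX hρ] with x hx
    exact hx.vert 0 (-s)

theorem AutW.wB (hρ : PerMeas ρ) {G : SLR × Pl → Lab Λ → ℝ} (hA : AutW ρ G) (u : ℝ) :
    AutW ρ ((wB u).act G) := by
  refine TWC_gen hρ hA (Pool.Agent.ILL.wB u) (dg (-u)) (Real.exp (-u), 0) ?_ rfl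
    (fun _ => rfl) ?_
  · simp [mv, dg]
  · filter_upwards [gen1_aeX hρ] with x hx
    exact hx.horiz one_pos (Real.exp_pos _)

end

end Pool.Agent.ILL
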